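import Pool.Agent.SBT.Defs

/-!
# Basic lemmas on places, `S`-units, linear forms and ultrafilters

Everywhere `hv : v = 0 ∨ v.Prime` says that `v` is a place; `place_of_mem` gives it for `v ∈ pl S`.
-/

set_option autoImplicit false

namespace Pool.Agent.SBT

open Filter Topology

/-! ## The absolute values -/

theorem mem_pl {S : Finset ℕ} {v : ℕ} : v ∈ pl S ↔ v = 0 ∨ v ∈ S := Finset.mem_insert

theorem zero_mem_pl (S : Finset ℕ) : 0 ∈ pl S := Finset.mem_insert_self _ _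

theorem mem_pl_of_mem {S : Finset ℕ} {p : ℕ} (h : p ∈ S) : p ∈ pl S := Finset.mem_insert_of_mem h

theorem place_of_mem {S : Finset ℕ} (hS : PS S) {v : ℕ} (hv : v ∈ pl S) : v = 0 ∨ v.Prime := by
  rcases mem_pl.1 hv with h | h
  · exact Or.inl h
  · exact Or.inr (hS v h)

theorem zero_notMem {S : Finset ℕ} (hS : PS S) : 0 ∉ S := fun h => Nat.not_prime_zero (hS 0 h)

theorem prod_pl {S : Finset ℕ} (hS : PS S) (f : ℕ → ℝ) :
    ∏ v ∈ pl S, f v = f 0 * ∏ p ∈ S, f p := by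
  unfold pl
  rw [Finset.prod_insert (zero_notMem hS)]

theorem sum_pl {S : Finset ℕ} (hS : PS S) (f : ℕ → ℝ) :
    ∑ v ∈ pl S, f v = f 0 + ∑ p ∈ S, f p := by
  unfold pl
  rw [Finset.sum_insert (zero_notMem hS)]

theorem av_zero_eq (x : ℚ) : av 0 x = |(x : ℝ)| := by simp [av]

theorem av_prime {p : ℕ} (hp : p.Prime) (x : ℚ) : av p x = ((padicNorm p x : ℚ) : ℝ) := by
  simp [av, hp.ne_zero]

theorem av_nonneg (v : ℕ) (x : ℚ) : 0 ≤ av v x := by
  unfold av
  split
  · exact abs_nonneg _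
  · exact_mod_cast padicNorm.nonneg x

@[simp] theorem av_zero (v : ℕ) : av v 0 = 0 := by
  unfold av
  split <;> simp

@[simp] theorem av_one (v : ℕ) : av v 1 = 1 := by
  unfold av
  split <;> simp

theorem av_neg (v : ℕ) (x : ℚ) : av v (-x) = av v x := by
  unfold av
  split
  · simp
  · rw [padicNorm.neg]

theorem av_mul {v : ℕ} (hv : v = 0 ∨ v.Prime) (x y : ℚ) : av v (x * y) = av v x * av v y := by
  rcases hv with rfl | hp
  · simp [av_zero_eq, abs_mul]
  · have := Fact.mk hp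
    rw [av_prime hp, av_prime hp, av_prime hp, padicNorm.mul]
    push_cast
    rfl

/-- the absolute value as a monoid homomorphism -/
noncomputable def avHom {v : ℕ} (hv : v = 0 ∨ v.Prime) : ℚ →* ℝ where
  toFun := av v
  map_one' := av_one v
  map_mul' := av_mul hv

theorem av_pow {v : ℕ} (hv : v = 0 ∨ v.Prime) (x : ℚ) (k : ℕ) : av v (x ^ k) = av v x ^ k :=
  map_pow (avHom hv) x k

theorem av_prod {v : ℕ} (hv : v = 0 ∨ v.Prime) {ι : Type*} (s : Finset ι) (f : ι → ℚ) :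
    av v (∏ i ∈ s, f i) = ∏ i ∈ s, av v (f i) :=
  map_prod (avHom hv) f s

theorem av_pos {v : ℕ} (hv : v = 0 ∨ v.Prime) {x : ℚ} (hx : x ≠ 0) : 0 < av v x := by
  rcases (av_nonneg v x).lt_or_eq with h | h
  · exact h
  · exfalso
    have := av_mul hv x x⁻¹
    rw [mul_inv_cancel₀ hx, ← h, zero_mul, av_one] at this
    exact one_ne_zero this

theorem av_eq_zero {v : ℕ} (hv : v = 0 ∨ v.Prime) {x : ℚ} : av v x = 0 ↔ x = 0 := by
  constructor
  · intro h
    by_contra hx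
    exact (av_pos hv hx).ne' h
  · rintro rfl
    exact av_zero v

theorem av_inv {v : ℕ} (hv : v = 0 ∨ v.Prime) (x : ℚ) : av v x⁻¹ = (av v x)⁻¹ := by
  by_cases hx : x = 0
  · simp [hx]
  · apply eq_inv_of_mul_eq_one_left
    rw [← av_mul hv, inv_mul_cancel₀ hx, av_one]

theorem av_div {v : ℕ} (hv : v = 0 ∨ v.Prime) (x y : ℚ) : av v (x / y) = av v x / av v y := by
  rw [div_eq_mul_inv, av_mul hv, av_inv hv, div_eq_mul_inv]

theorem av_zpow {v : ℕ} (hv : v = 0 ∨ v.Prime) (x : ℚ) (k : ℤ) : av v (x ^ k) = av v x ^ k := by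
  cases k with
  | ofNat k => simpa using av_pow hv x k
  | negSucc k => rw [zpow_negSucc, zpow_negSucc, av_inv hv, av_pow hv]

theorem av_add_le {v : ℕ} (hv : v = 0 ∨ v.Prime) (x y : ℚ) : av v (x + y) ≤ av v x + av v y := by
  rcases hv with rfl | hp
  · simp only [av_zero_eq]
    push_cast
    exact abs_add_le _ _
  · have := Fact.mk hp
    rw [av_prime hp, av_prime hp, av_prime hp]
    exact_mod_cast padicNorm.triangle_ineq x y

theorem av_sub_le {v : ℕ} (hv : v = 0 ∨ v.Prime) (x y : ℚ) : av v (x - y) ≤ av v x + av v y := by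
  rw [sub_eq_add_neg]
  exact (av_add_le hv x (-y)).trans (by rw [av_neg])

/-- ultrametric inequality -/
theorem av_add_le_max {p : ℕ} (hp : p.Prime) (x y : ℚ) :
    av p (x + y) ≤ max (av p x) (av p y) := by
  have := Fact.mk hp
  rw [av_prime hp, av_prime hp, av_prime hp]
  exact_mod_cast padicNorm.nonarchimedean (p := p) (q := x) (r := y)

theorem av_sum_le {v : ℕ} (hv : v = 0 ∨ v.Prime) {ι : Type*} (s : Finset ι) (f : ι → ℚ) :
    av v (∑ i ∈ s, f i) ≤ ∑ i ∈ s, av v (f i) := by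
  classical
  induction s using Finset.induction_on with
  | empty => simp
  | insert a s ha ih =>
    rw [Finset.sum_insert ha, Finset.sum_insert ha]
    exact (av_add_le hv _ _).trans (by linarith)

/-- ultrametric inequality for sums -/
theorem av_sum_le_of {p : ℕ} (hp : p.Prime) {ι : Type*} (s : Finset ι) (f : ι → ℚ) {t : ℝ}
    (ht : 0 ≤ t) (h : ∀ i ∈ s, av p (f i) ≤ t) : av p (∑ i ∈ s, f i) ≤ t := by
  classical
  induction s using Finset.induction_on with
  | empty => simpa using ht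
  | insert a s ha ih =>
    rw [Finset.sum_insert ha]
    refine (av_add_le_max hp _ _).trans (max_le (h a (Finset.mem_insert_self a s)) (ih ?_))
    intro i hi
    exact h i (Finset.mem_insert_of_mem hi)

/-- both cases together: a sum of terms at most `t` is at most `card * t`, and at most `t` at the
primes -/
theorem av_sum_le_card {v : ℕ} (hv : v = 0 ∨ v.Prime) {ι : Type*} (s : Finset ι) (f : ι → ℚ)
    {t : ℝ} (ht : 0 ≤ t) (h : ∀ i ∈ s, av v (f i) ≤ t) :
    av v (∑ i ∈ s, f i) ≤ (if v = 0 then (s.card : ℝ) else 1) * t := by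
  rcases hv with rfl | hp
  · refine (av_sum_le (Or.inl rfl) s f).trans ?_
    rw [if_pos rfl]
    calc ∑ i ∈ s, av 0 (f i) ≤ ∑ _i ∈ s, t := Finset.sum_le_sum h
      _ = (s.card : ℝ) * t := by simp
  · rw [if_neg hp.ne_zero, one_mul]
    exact av_sum_le_of hp s f ht h

theorem av_int_le_one {p : ℕ} (hp : p.Prime) (z : ℤ) : av p (z : ℚ) ≤ 1 := by
  have := Fact.mk hp
  rw [av_prime hp]
  exact_mod_cast padicNorm.of_int (p := p) z

theorem one_le_abs_int {z : ℤ} (hz : z ≠ 0) : (1 : ℝ) ≤ |(z : ℝ)| := by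
  rw [← Int.cast_abs]
  exact_mod_cast Int.one_le_abs hz

theorem av_int_le_abs {v : ℕ} (hv : v = 0 ∨ v.Prime) (z : ℤ) : av v (z : ℚ) ≤ |(z : ℝ)| := by
  rcases hv with rfl | hp
  · simp [av_zero_eq]
  · by_cases hz : z = 0
    · simp [hz]
    · exact (av_int_le_one hp z).trans (one_le_abs_int hz)

theorem one_le_av_zero {z : ℤ} (hz : z ≠ 0) : 1 ≤ av 0 (z : ℚ) := by
  rw [av_zero_eq]
  simpa using one_le_abs_int hz

/-- divisibility by powers of `p` -/
theorem av_le_iff_dvd {p : ℕ} (hp : p.Prime) (k : ℕ) (z : ℤ) :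
    av p (z : ℚ) ≤ ((p : ℝ) ^ k)⁻¹ ↔ ((p ^ k : ℕ) : ℤ) ∣ z := by
  have := Fact.mk hp
  have e : ((p : ℝ) ^ k)⁻¹ = ((((p : ℚ) ^ (-k : ℤ)) : ℚ) : ℝ) := by
    push_cast
    rw [zpow_neg, zpow_natCast]
  rw [padicNorm.dvd_iff_norm_le, av_prime hp, e, Rat.cast_le]

theorem av_self {p : ℕ} (hp : p.Prime) : av p (p : ℚ) = (p : ℝ)⁻¹ := by
  rw [av_prime hp, padicNorm.padicNorm_p hp.one_lt]
  push_cast
  rfl

theorem av_of_ne {p q : ℕ} (hp : p.Prime) (hq : q.Prime) (h : p ≠ q) : av p (q : ℚ) = 1 := by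
  have := Fact.mk hp
  have := Fact.mk hq
  rw [av_prime hp, padicNorm.padicNorm_of_prime_of_ne h]
  simp

theorem av_eq_one_of_not_dvd {p : ℕ} (hp : p.Prime) {z : ℤ} (h : ¬ (p : ℤ) ∣ z) :
    av p (z : ℚ) = 1 := by
  have := Fact.mk hp
  rw [av_prime hp, (padicNorm.int_eq_one_iff z).2 h]
  simp

theorem av_lt_one_of_dvd {p : ℕ} (hp : p.Prime) {z : ℤ} (h : (p : ℤ) ∣ z) :
    av p (z : ℚ) < 1 := by
  have := Fact.mk hp
  rw [av_prime hp]
  exact_mod_cast (padicNorm.int_lt_one_iff (p := p) z).2 h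

/-- the values of the absolute value at `p` are powers of `p` -/
theorem av_eq_zpow {p : ℕ} (hp : p.Prime) {x : ℚ} (hx : x ≠ 0) :
    av p x = (p : ℝ) ^ (-padicValRat p x) := by
  rw [av_prime hp, padicNorm.eq_zpow_of_nonzero hx]
  push_cast
  rfl

theorem av_int_eq {p : ℕ} (hp : p.Prime) {z : ℤ} (hz : z ≠ 0) :
    av p (z : ℚ) = ((p : ℝ) ^ (padicValInt p z))⁻¹ := by
  rw [av_eq_zpow hp (by exact_mod_cast hz), padicValRat.of_int, zpow_neg, zpow_natCast]

/-! ## The product formula -/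

/-- the part of `z` outside `S` -/
theorem exists_free {S : Finset ℕ} (hS : PS S) {z : ℤ} (hz : z ≠ 0) :
    ∃ m : ℕ, 0 < m ∧ (m : ℤ) ∣ z ∧ ∏ v ∈ pl S, av v (z : ℚ) = m ∧
      ∀ q : ℕ, q.Prime → q ∉ S → (q : ℤ) ∣ z → q ∣ m := by
  have hdvd : (∏ p ∈ S, (p : ℤ) ^ (padicValInt p z)) ∣ z := by
    apply Finset.prod_dvd_of_coprime
    · intro p hp q hq hpq
      have h1 : p.Prime := hS p hp
      have h2 : q.Prime := hS q hq
      have h3 : IsCoprime (p : ℤ) (q : ℤ) :=
        Nat.isCoprime_iff_coprime.2 ((Nat.coprime_primes h1 h2).2 hpq)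
      exact h3.pow
    · intro p hp
      have := Fact.mk (hS p hp)
      have : ((p ^ padicValInt p z : ℕ) : ℤ) ∣ z := by
        rw [← av_le_iff_dvd (hS p hp), av_int_eq (hS p hp) hz]
      simpa using this
  obtain ⟨m, hm⟩ := hdvd
  have hm0 : m ≠ 0 := by
    rintro rfl
    exact hz (by rw [hm, mul_zero])
  refine ⟨m.natAbs, Int.natAbs_pos.2 hm0, ?_, ?_, ?_⟩
  · rw [Int.natAbs_dvd]
    exact ⟨_, by rw [mul_comm]; exact hm⟩
  · rw [prod_pl hS, av_zero_eq]
    have h1 : ∏ p ∈ S, av p (z : ℚ) = (∏ p ∈ S, (p : ℝ) ^ (padicValInt p z))⁻¹ := by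
      rw [← Finset.prod_inv_distrib]
      exact Finset.prod_congr rfl fun p hp => av_int_eq (hS p hp) hz
    have h2 : (z : ℝ) = (∏ p ∈ S, (p : ℝ) ^ (padicValInt p z)) * (m : ℝ) := by
      have := congrArg (fun t : ℤ => (t : ℝ)) hm
      push_cast at this
      exact this
    have h3 : 0 < ∏ p ∈ S, (p : ℝ) ^ (padicValInt p z) :=
      Finset.prod_pos fun p hp => pow_pos (by exact_mod_cast (hS p hp).pos) _
    rw [h1]
    have h4 : |((z : ℚ) : ℝ)| = (∏ p ∈ S, (p : ℝ) ^ (padicValInt p z)) * |(m : ℝ)| := by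
      rw [Rat.cast_intCast, h2, abs_mul, abs_of_pos h3]
    rw [h4, mul_comm, ← mul_assoc, inv_mul_cancel₀ h3.ne', one_mul, Nat.cast_natAbs]
    push_cast
    rfl
  · intro q hq hqS hqz
    rw [hm] at hqz
    have hq' : Prime (q : ℤ) := Nat.prime_iff_prime_int.1 hq
    rcases hq'.dvd_or_dvd hqz with h | h
    · exfalso
      obtain ⟨p, hp, h⟩ := (hq'.dvd_finset_prod_iff _).1 h
      have h2 : (q : ℤ) ∣ (p : ℤ) := hq'.dvd_of_dvd_pow h
      have h3 : q ∣ p := by exact_mod_cast h2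
      rw [(Nat.prime_dvd_prime_iff_eq hq (hS p hp)).1 h3] at hqS
      exact hqS hp
    · exact Int.natCast_dvd.1 h

/-- product formula (inequality) for integers -/
theorem one_le_prod_av {S : Finset ℕ} (hS : PS S) {z : ℤ} (hz : z ≠ 0) :
    1 ≤ ∏ v ∈ pl S, av v (z : ℚ) := by
  obtain ⟨m, hm, _, h, _⟩ := exists_free hS hz
  rw [h]
  exact_mod_cast hm

/-- an integer with `∏ av < 1` is zero -/
theorem eq_zero_of_prod_lt_one {S : Finset ℕ} (hS : PS S) {z : ℤ}
    (h : ∏ v ∈ pl S, av v (z : ℚ) < 1) : z = 0 := by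
  by_contra hz
  exact absurd (one_le_prod_av hS hz) (not_le.2 h)

/-- the product over `pl S` is multiplicative -/
theorem prod_av_mul {S : Finset ℕ} (hS : PS S) (x y : ℚ) :
    ∏ v ∈ pl S, av v (x * y) = (∏ v ∈ pl S, av v x) * ∏ v ∈ pl S, av v y := by
  rw [← Finset.prod_mul_distrib]
  exact Finset.prod_congr rfl fun v hv => av_mul (place_of_mem hS hv) x y

theorem prod_av_inv {S : Finset ℕ} (hS : PS S) (x : ℚ) :
    ∏ v ∈ pl S, av v x⁻¹ = (∏ v ∈ pl S, av v x)⁻¹ := by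
  rw [← Finset.prod_inv_distrib]
  exact Finset.prod_congr rfl fun v hv => av_inv (place_of_mem hS hv) x

theorem prod_av_nonneg (S : Finset ℕ) (x : ℚ) : 0 ≤ ∏ v ∈ pl S, av v x :=
  Finset.prod_nonneg fun v _ => av_nonneg v x

theorem prod_av_pos {S : Finset ℕ} (hS : PS S) {x : ℚ} (hx : x ≠ 0) : 0 < ∏ v ∈ pl S, av v x :=
  Finset.prod_pos fun _ hv => av_pos (place_of_mem hS hv) hx

/-- lower bound at each place: `1 / |z| ≤ |z|_v` for a nonzero integer -/
theorem inv_abs_le_av {v : ℕ} (hv : v = 0 ∨ v.Prime) {z : ℤ} (hz : z ≠ 0) :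
    |(z : ℝ)|⁻¹ ≤ av v (z : ℚ) := by
  have hz1 := one_le_abs_int hz
  rcases hv with rfl | hp
  · exact (inv_le_one_of_one_le₀ hz1).trans (one_le_av_zero hz)
  · have hS : PS {v} := by
      intro q hq
      rw [Finset.mem_singleton.1 hq]
      exact hp
    have h := one_le_prod_av hS hz
    rw [prod_pl hS, Finset.prod_singleton, av_zero_eq, Rat.cast_intCast] at h
    rw [inv_le_iff_one_le_mul₀' (by linarith)]
    exact h

/-! ## `S`-integers and `S`-units -/

/-- an integer criterion -/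
theorem int_of_padic {x : ℚ} (h : ∀ p : ℕ, p.Prime → padicNorm p x ≤ 1) : ∃ z : ℤ, x = z := by
  refine ⟨x.num, ?_⟩
  have hden : x.den = 1 := by
    by_contra hne
    obtain ⟨p, hp, hpd⟩ := Nat.exists_prime_and_dvd hne
    have := Fact.mk hp
    have h1 : ¬ (p : ℤ) ∣ x.num := by
      intro h2
      have h3 : p ∣ x.num.natAbs := Int.natCast_dvd.1 h2
      have h4 := Nat.dvd_gcd h3 hpd
      rw [Nat.Coprime.gcd_eq_one x.reduced] at h4
      exact hp.one_lt.ne' (Nat.dvd_one.1 h4)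
    have h2 : padicNorm p x = padicNorm p x.num / padicNorm p x.den := by
      rw [← padicNorm.div, Rat.num_div_den]
    have h3 : padicNorm p x.num = 1 := (padicNorm.int_eq_one_iff _).2 h1
    have h4 : padicNorm p x.den < 1 := (padicNorm.nat_lt_one_iff _).2 hpd
    have h5 : 0 < padicNorm p x.den :=
      lt_of_le_of_ne (padicNorm.nonneg _)
        (Ne.symm (padicNorm.nonzero (by exact_mod_cast x.den_nz)))
    have h6 := h p hp
    rw [h2, h3, div_le_one h5] at h6
    linarith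
  conv_lhs => rw [← Rat.num_div_den x, hden]
  simp

theorem av_num_den {v : ℕ} (hv : v = 0 ∨ v.Prime) (x : ℚ) :
    av v x = av v (x.num : ℚ) / av v (x.den : ℚ) := by
  rw [← av_div hv, Rat.num_div_den]

/-- numerator and denominator outside `S` -/
theorem isU_iff {S : Finset ℕ} (hS : PS S) (x : ℚ) :
    IsU S x ↔ 0 < x ∧ ∀ q : ℕ, q.Prime → q ∉ S → padicNorm q x = 1 := by
  constructor
  · rintro ⟨hx, h⟩
    refine ⟨hx, ?_⟩
    intro q hq hqS
    have := Fact.mk hq
    have hn : x.num ≠ 0 := Rat.num_ne_zero.2 hx.ne'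
    have hd : (x.den : ℤ) ≠ 0 := by exact_mod_cast x.den_nz
    obtain ⟨m, hm, hmd, hm1, hm2⟩ := exists_free hS hn
    obtain ⟨m', hm', hmd', hm1', hm2'⟩ := exists_free hS hd
    have e1 : ∏ v ∈ pl S, av v x = (m : ℝ) / m' := by
      rw [← hm1, ← hm1', ← Finset.prod_div_distrib]
      refine Finset.prod_congr rfl fun v hv => ?_
      rw [av_num_den (place_of_mem hS hv)]
      push_cast
      rfl
    rw [e1, div_eq_one_iff_eq (by exact_mod_cast hm'.ne')] at h
    have h' : m = m' := by exact_mod_cast h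
    have hm1 : m = 1 := by
      have a1 : m ∣ x.num.natAbs := Int.natCast_dvd.1 hmd
      have a2 : m ∣ x.den := by
        rw [h']
        exact_mod_cast hmd'
      have a3 := Nat.dvd_gcd a1 a2
      rw [Nat.Coprime.gcd_eq_one x.reduced] at a3
      exact Nat.dvd_one.1 a3
    have b1 : ¬ (q : ℤ) ∣ x.num := fun h3 => by
      have := hm2 q hq hqS h3
      rw [hm1] at this
      exact hq.one_lt.ne' (Nat.dvd_one.1 this)
    have b2 : ¬ q ∣ x.den := fun h3 => by
      have := hm2' q hq hqS (by exact_mod_cast h3)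
      rw [← h', hm1] at this
      exact hq.one_lt.ne' (Nat.dvd_one.1 this)
    have h2 : padicNorm q x = padicNorm q x.num / padicNorm q x.den := by
      rw [← padicNorm.div, Rat.num_div_den]
    rw [h2, (padicNorm.int_eq_one_iff _).2 b1, (padicNorm.nat_eq_one_iff _).2 b2, div_one]
  · rintro ⟨hx, h⟩
    refine ⟨hx, ?_⟩
    have hn : x.num ≠ 0 := Rat.num_ne_zero.2 hx.ne'
    have hd : (x.den : ℤ) ≠ 0 := by exact_mod_cast x.den_nz
    obtain ⟨m, hm, hmd, hm1, hm2⟩ := exists_free hS hn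
    obtain ⟨m', hm', hmd', hm1', hm2'⟩ := exists_free hS hd
    obtain ⟨y, hy⟩ : ∃ y : ℝ, y = ∏ v ∈ pl S, av v x := ⟨_, rfl⟩
    have e1 : ∏ v ∈ pl S, av v x = (m : ℝ) / m' := by
      rw [← hm1, ← hm1', ← Finset.prod_div_distrib]
      refine Finset.prod_congr rfl fun v hv => ?_
      rw [av_num_den (place_of_mem hS hv)]
      push_cast
      rfl
    -- the rational number `w = |x| ∏ |x|_p` is a unit at all primes
    have key : ∀ q : ℕ, q.Prime → ¬ q ∣ m ∧ ¬ q ∣ m' := by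
      intro q hq
      have := Fact.mk hq
      have hprod : ∀ (z : ℤ) (hz : z ≠ 0) (m : ℕ), (∏ v ∈ pl S, av v (z : ℚ) = m) →
          q ∈ S → ¬ q ∣ m := by
        intro z hz m hm hqS hqm
        -- `|z| = m * ∏ p ^ v_p(z)`
        have c1 : (z.natAbs : ℝ) = m * ∏ p ∈ S, (p : ℝ) ^ (padicValInt p z) := by
          rw [← hm, prod_pl hS, av_zero_eq]
          have h1 : ∏ p ∈ S, av p (z : ℚ) = (∏ p ∈ S, (p : ℝ) ^ (padicValInt p z))⁻¹ := by
            rw [← Finset.prod_inv_distrib]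
            exact Finset.prod_congr rfl fun p hp => av_int_eq (hS p hp) hz
          have h3 : 0 < ∏ p ∈ S, (p : ℝ) ^ (padicValInt p z) :=
            Finset.prod_pos fun p hp => pow_pos (by exact_mod_cast (hS p hp).pos) _
          rw [h1, mul_assoc, inv_mul_cancel₀ h3.ne', mul_one, Nat.cast_natAbs]
          push_cast
          rfl
        have c2 : z.natAbs = m * ∏ p ∈ S, p ^ (padicValInt p z) := by exact_mod_cast c1
        have c3 : q ^ (padicValInt q z + 1) ∣ z.natAbs := by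
          rw [c2, pow_succ, mul_comm]
          exact mul_dvd_mul hqm (Finset.dvd_prod_of_mem (fun p => p ^ padicValInt p z) hqS)
        have c4 : ((q ^ (padicValInt q z + 1) : ℕ) : ℤ) ∣ z := Int.natCast_dvd.2 c3
        rw [← av_le_iff_dvd hq, av_int_eq hq hz] at c4
        have hq1 : (1 : ℝ) < q := by exact_mod_cast hq.one_lt
        have c5 : (q : ℝ) ^ (padicValInt q z) < (q : ℝ) ^ (padicValInt q z + 1) :=
          pow_lt_pow_right₀ hq1 (Nat.lt_succ_self _)
        have c6 : (0 : ℝ) < (q : ℝ) ^ (padicValInt q z) := by positivity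
        have c7 := (inv_lt_inv₀ (c6.trans c5) c6).2 c5
        linarith
      by_cases hqS : q ∈ S
      · exact ⟨hprod _ hn m hm1 hqS, hprod _ hd m' hm1' hqS⟩
      · have h1 := h q hq hqS
        have h2 : padicNorm q x = padicNorm q x.num / padicNorm q x.den := by
          rw [← padicNorm.div, Rat.num_div_den]
        have hcop : ¬ (q ∣ x.num.natAbs ∧ q ∣ x.den) := by
          rintro ⟨a1, a2⟩
          have a3 := Nat.dvd_gcd a1 a2
          rw [Nat.Coprime.gcd_eq_one x.reduced] at a3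
          exact hq.one_lt.ne' (Nat.dvd_one.1 a3)
        have h5 : 0 < padicNorm q x.den :=
          lt_of_le_of_ne (padicNorm.nonneg _)
            (Ne.symm (padicNorm.nonzero (by exact_mod_cast x.den_nz)))
        rw [h2, div_eq_one_iff_eq h5.ne'] at h1
        have d1 : ¬ (q : ℤ) ∣ x.num := by
          intro hh
          have hh' : q ∣ x.num.natAbs := Int.natCast_dvd.1 hh
          have h6 : ¬ q ∣ x.den := fun hh2 => hcop ⟨hh', hh2⟩
          rw [(padicNorm.nat_eq_one_iff _).2 h6] at h1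
          exact absurd ((padicNorm.int_eq_one_iff _).1 h1) (by simpa using hh)
        have d2 : ¬ q ∣ x.den := by
          intro hh
          rw [(padicNorm.int_eq_one_iff _).2 d1] at h1
          exact absurd ((padicNorm.nat_eq_one_iff _).1 h1.symm) (by simpa using hh)
        refine ⟨fun hh => d1 ?_, fun hh => d2 ?_⟩
        · exact (Int.natCast_dvd_natCast.2 hh).trans hmd
        · exact hh.trans (by exact_mod_cast hmd')
    have hm_one : m = 1 := by
      by_contra hne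
      obtain ⟨p, hp, hpd⟩ := Nat.exists_prime_and_dvd hne
      exact (key p hp).1 hpd
    have hm_one' : m' = 1 := by
      by_contra hne
      obtain ⟨p, hp, hpd⟩ := Nat.exists_prime_and_dvd hne
      exact (key p hp).2 hpd
    rw [e1, hm_one, hm_one']
    simp

theorem IsU.pos {S : Finset ℕ} {x : ℚ} (h : IsU S x) : 0 < x := h.1

theorem IsU.ne_zero {S : Finset ℕ} {x : ℚ} (h : IsU S x) : x ≠ 0 := h.1.ne'

theorem isU_one (S : Finset ℕ) : IsU S 1 := ⟨one_pos, by simp⟩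

theorem IsU.mul {S : Finset ℕ} (hS : PS S) {x y : ℚ} (hx : IsU S x) (hy : IsU S y) :
    IsU S (x * y) := ⟨mul_pos hx.1 hy.1, by rw [prod_av_mul hS, hx.2, hy.2, one_mul]⟩

theorem IsU.inv {S : Finset ℕ} (hS : PS S) {x : ℚ} (hx : IsU S x) : IsU S x⁻¹ :=
  ⟨inv_pos.2 hx.1, by rw [prod_av_inv hS, hx.2, inv_one]⟩

theorem IsU.div {S : Finset ℕ} (hS : PS S) {x y : ℚ} (hx : IsU S x) (hy : IsU S y) :
    IsU S (x / y) := by
  rw [div_eq_mul_inv]
  exact hx.mul hS (hy.inv hS)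

theorem IsU.pow {S : Finset ℕ} (hS : PS S) {x : ℚ} (hx : IsU S x) (k : ℕ) : IsU S (x ^ k) := by
  induction k with
  | zero => simpa using isU_one S
  | succ k ih =>
    rw [pow_succ]
    exact ih.mul hS hx

theorem IsU.zpow {S : Finset ℕ} (hS : PS S) {x : ℚ} (hx : IsU S x) (k : ℤ) : IsU S (x ^ k) := by
  cases k with
  | ofNat k => simpa using hx.pow hS k
  | negSucc k =>
    rw [zpow_negSucc]
    exact (hx.pow hS _).inv hS

theorem isU_prod {S : Finset ℕ} (hS : PS S) {ι : Type*} (s : Finset ι) (f : ι → ℚ)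
    (h : ∀ i ∈ s, IsU S (f i)) : IsU S (∏ i ∈ s, f i) := by
  classical
  induction s using Finset.induction_on with
  | empty => simpa using isU_one S
  | insert a s ha ih =>
    rw [Finset.prod_insert ha]
    exact (h a (Finset.mem_insert_self a s)).mul hS
      (ih fun i hi => h i (Finset.mem_insert_of_mem hi))

/-- `S`-units are multiplicatively closed: multiplying by one does not change the product -/
theorem IsU.prod_mul {S : Finset ℕ} (hS : PS S) {x : ℚ} (hx : IsU S x) (y : ℚ) :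
    ∏ v ∈ pl S, av v (x * y) = ∏ v ∈ pl S, av v y := by rw [prod_av_mul hS, hx.2, one_mul]

/-- natural numbers composed of primes of `S` -/
theorem isU_nat {S : Finset ℕ} (hS : PS S) {a : ℕ} (ha : 0 < a)
    (h : ∀ p : ℕ, p.Prime → p ∣ a → p ∈ S) : IsU S (a : ℚ) := by
  rw [isU_iff hS]
  refine ⟨by exact_mod_cast ha, ?_⟩
  intro q hq hqS
  have := Fact.mk hq
  exact (padicNorm.nat_eq_one_iff a).2 fun hd => hqS (h q hq hd)

theorem isU_nat_pow {S : Finset ℕ} (hS : PS S) {a : ℕ} (ha : 0 < a)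
    (h : ∀ p : ℕ, p.Prime → p ∣ a → p ∈ S) (k : ℕ) : IsU S ((a : ℚ) ^ k) :=
  (isU_nat hS ha h).pow hS k

theorem isU_nat_zpow {S : Finset ℕ} (hS : PS S) {a : ℕ} (ha : 0 < a)
    (h : ∀ p : ℕ, p.Prime → p ∣ a → p ∈ S) (k : ℤ) : IsU S ((a : ℚ) ^ k) :=
  (isU_nat hS ha h).zpow hS k

theorem IsU.padicNorm_eq_one {S : Finset ℕ} (hS : PS S) {x : ℚ} (hx : IsU S x) {q : ℕ}
    (hq : q.Prime) (hqS : q ∉ S) : padicNorm q x = 1 := ((isU_iff hS x).1 hx).2 q hq hqS

theorem IsU.mono {S S' : Finset ℕ} (hS' : PS S') (hSS : S ⊆ S') {x : ℚ} (hx : IsU S x) :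
    IsU S' x := by
  have hS : PS S := fun p hp => hS' p (hSS hp)
  rw [isU_iff hS']
  exact ⟨hx.1, fun q hq hqS => hx.padicNorm_eq_one hS hq fun h => hqS (hSS h)⟩

/-- `S`-integers -/
def SInt (S : Finset ℕ) (x : ℚ) : Prop := ∀ p : ℕ, p.Prime → p ∉ S → padicNorm p x ≤ 1

theorem sInt_int (S : Finset ℕ) (z : ℤ) : SInt S (z : ℚ) := by
  intro p hp _
  have := Fact.mk hp
  exact padicNorm.of_int z

theorem IsU.sInt {S : Finset ℕ} (hS : PS S) {x : ℚ} (hx : IsU S x) : SInt S x :=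
  fun _ hq hqS => (hx.padicNorm_eq_one hS hq hqS).le

theorem SInt.mul {S : Finset ℕ} {x y : ℚ} (hx : SInt S x) (hy : SInt S y) : SInt S (x * y) := by
  intro p hp hpS
  have := Fact.mk hp
  rw [padicNorm.mul]
  exact mul_le_one₀ (hx p hp hpS) (padicNorm.nonneg _) (hy p hp hpS)

theorem SInt.add {S : Finset ℕ} {x y : ℚ} (hx : SInt S x) (hy : SInt S y) : SInt S (x + y) := by
  intro p hp hpS
  have := Fact.mk hp
  exact (padicNorm.nonarchimedean (p := p)).trans (max_le (hx p hp hpS) (hy p hp hpS))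

theorem SInt.neg {S : Finset ℕ} {x : ℚ} (hx : SInt S x) : SInt S (-x) := by
  intro p hp hpS
  rw [padicNorm.neg]
  exact hx p hp hpS

theorem SInt.sum {S : Finset ℕ} {ι : Type*} (s : Finset ι) (f : ι → ℚ)
    (h : ∀ i ∈ s, SInt S (f i)) : SInt S (∑ i ∈ s, f i) := by
  intro p hp hpS
  have := Fact.mk hp
  exact padicNorm.sum_le' (fun i hi => h i hi p hp hpS) zero_le_one

/-- the denominator of an `S`-integer is an `S`-unit -/
theorem SInt.den_isU {S : Finset ℕ} (hS : PS S) {x : ℚ} (hx : SInt S x) :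
    IsU S (x.den : ℚ) := by
  apply isU_nat hS (Nat.pos_of_ne_zero x.den_nz)
  intro p hp hpd
  by_contra hpS
  have := Fact.mk hp
  have h1 : ¬ (p : ℤ) ∣ x.num := by
    intro h2
    have h3 : p ∣ x.num.natAbs := Int.natCast_dvd.1 h2
    have h4 := Nat.dvd_gcd h3 hpd
    rw [Nat.Coprime.gcd_eq_one x.reduced] at h4
    exact hp.one_lt.ne' (Nat.dvd_one.1 h4)
  have h2 : padicNorm p x = padicNorm p x.num / padicNorm p x.den := by
    rw [← padicNorm.div, Rat.num_div_den]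
  have h3 : padicNorm p x.num = 1 := (padicNorm.int_eq_one_iff _).2 h1
  have h4 : padicNorm p x.den < 1 := (padicNorm.nat_lt_one_iff _).2 hpd
  have h5 : 0 < padicNorm p x.den :=
    lt_of_le_of_ne (padicNorm.nonneg _)
      (Ne.symm (padicNorm.nonzero (by exact_mod_cast x.den_nz)))
  have h6 := hx p hp hpS
  rw [h2, h3, div_le_one h5] at h6
  linarith

/-- product formula (inequality) for `S`-integers -/
theorem SInt.one_le_prod {S : Finset ℕ} (hS : PS S) {x : ℚ} (hx : SInt S x) (h0 : x ≠ 0) :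
    1 ≤ ∏ v ∈ pl S, av v x := by
  have h1 : ∏ v ∈ pl S, av v x =
      (∏ v ∈ pl S, av v (x.num : ℚ)) / ∏ v ∈ pl S, av v (x.den : ℚ) := by
    rw [← Finset.prod_div_distrib]
    exact Finset.prod_congr rfl fun v hv => av_num_den (place_of_mem hS hv) x
  rw [h1, (hx.den_isU hS).2, div_one]
  exact one_le_prod_av hS (Rat.num_ne_zero.2 h0)

/-- an `S`-integer with `∏ av < 1` is zero -/
theorem SInt.eq_zero {S : Finset ℕ} (hS : PS S) {x : ℚ} (hx : SInt S x)
    (h : ∏ v ∈ pl S, av v x < 1) : x = 0 := by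
  by_contra h0
  exact absurd (hx.one_le_prod hS h0) (not_le.2 h)

/-- common denominator which is an `S`-unit of controlled size -/
theorem exists_den {S : Finset ℕ} (hS : PS S) {B : ℝ} (hB : 1 ≤ B) :
    ∃ D : ℕ, 0 < D ∧ IsU S (D : ℚ) ∧ (D : ℝ) ≤ B ^ S.card ∧
      ∀ x : ℚ, SInt S x → (∀ p ∈ S, av p x ≤ B) → ∃ z : ℤ, (D : ℚ) * x = z := by
  have hb : ∀ p ∈ S, ∃ k : ℕ, (p : ℝ) ^ k ≤ B ∧ B < (p : ℝ) ^ (k + 1) := by
    intro p hp
    have hp1 : (1 : ℝ) < p := by exact_mod_cast (hS p hp).one_lt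
    exact exists_nat_pow_near hB hp1
  choose! k hk1 hk2 using hb
  refine ⟨∏ p ∈ S, p ^ k p, ?_, ?_, ?_, ?_⟩
  · exact Finset.prod_pos fun p hp => pow_pos (hS p hp).pos _
  · push_cast
    refine isU_prod hS _ _ fun p hp => (isU_nat hS (hS p hp).pos ?_).pow hS _
    intro q hq hqp
    rw [(Nat.prime_dvd_prime_iff_eq hq (hS p hp)).1 hqp]
    exact hp
  · push_cast
    calc ∏ p ∈ S, (p : ℝ) ^ k p ≤ ∏ _p ∈ S, B :=
          Finset.prod_le_prod (fun p _ => by positivity) hk1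
      _ = B ^ S.card := by simp
  · intro x hx hxB
    apply int_of_padic
    intro q hq
    have := Fact.mk hq
    by_cases hx0 : x = 0
    · simp [hx0]
    by_cases hqS : q ∈ S
    · have h1 : ∀ p ∈ S, p ≠ q → av q ((p : ℚ) ^ k p) = 1 := by
        intro p hp hpq
        rw [av_pow (Or.inr hq), av_of_ne hq (hS p hp) (Ne.symm hpq), one_pow]
      have h2 : av q (((∏ p ∈ S, p ^ k p : ℕ) : ℚ)) = ((q : ℝ) ^ k q)⁻¹ := by
        push_cast
        rw [av_prod (Or.inr hq), Finset.prod_eq_single_of_mem q hqS h1, av_pow (Or.inr hq),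
          av_self hq, inv_pow]
      have h3 : av q x < (q : ℝ) ^ (k q + 1) := (hxB q hqS).trans_lt (hk2 q hqS)
      have hq1 : (1 : ℝ) < q := by exact_mod_cast hq.one_lt
      have h4 : av q x ≤ (q : ℝ) ^ k q := by
        rw [av_eq_zpow hq hx0] at h3 ⊢
        rw [← zpow_natCast, zpow_lt_zpow_iff_right₀ hq1] at h3
        rw [← zpow_natCast, zpow_le_zpow_iff_right₀ hq1]
        push_cast at h3
        omega
      have h5 : av q (((∏ p ∈ S, p ^ k p : ℕ) : ℚ) * x) ≤ 1 := by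
        rw [av_mul (Or.inr hq), h2]
        rw [inv_mul_le_iff₀ (by positivity), mul_one]
        exact h4
      rw [av_prime hq] at h5
      exact_mod_cast h5
    · rw [padicNorm.mul]
      exact mul_le_one₀ (padicNorm.of_nat _) (padicNorm.nonneg _) (hx q hq hqS)

/-- there are only finitely many bounded `S`-integers -/
theorem finite_sInt {S : Finset ℕ} (hS : PS S) (B : ℝ) :
    {x : ℚ | SInt S x ∧ ∀ v ∈ pl S, av v x ≤ B}.Finite := by
  obtain ⟨D, hD, -, -, hD2⟩ := exists_den hS (le_max_left (1 : ℝ) B)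
  obtain ⟨M, hM⟩ := exists_nat_ge ((D : ℝ) * max 1 B)
  apply Set.Finite.subset
    ((Set.finite_Icc (-(M : ℤ)) M).image (fun z : ℤ => (z : ℚ) / (D : ℚ)))
  rintro x ⟨hx, hxB⟩
  obtain ⟨z, hz⟩ := hD2 x hx fun p hp => (hxB p (mem_pl_of_mem hp)).trans (le_max_right _ _)
  have hD0 : (D : ℚ) ≠ 0 := by exact_mod_cast hD.ne'
  refine ⟨z, ?_, ?_⟩
  · have h1 : |((z : ℤ) : ℝ)| ≤ M := by
      have h2 : ((z : ℤ) : ℝ) = (D : ℝ) * (x : ℝ) := by
        have := congrArg (fun t : ℚ => (t : ℝ)) hz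
        push_cast at this
        exact this.symm
      rw [h2, abs_mul, abs_of_nonneg (Nat.cast_nonneg D)]
      refine le_trans ?_ hM
      apply mul_le_mul_of_nonneg_left _ (Nat.cast_nonneg D)
      have := hxB 0 (zero_mem_pl S)
      rw [av_zero_eq] at this
      exact this.trans (le_max_right _ _)
    have h3 : |z| ≤ (M : ℤ) := by exact_mod_cast h1
    exact abs_le.1 h3
  · change (z : ℚ) / (D : ℚ) = x
    rw [← hz]
    field_simp

/-- there are only finitely many bounded `S`-units -/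
theorem finite_isU {S : Finset ℕ} (hS : PS S) (B : ℝ) :
    {x : ℚ | IsU S x ∧ ∀ v ∈ pl S, av v x ≤ B}.Finite :=
  (finite_sInt hS B).subset fun _ hx => ⟨hx.1.sInt hS, hx.2⟩

/-! ## Linear forms -/

theorem fv_eq {N : ℕ} (A : Matrix (Fin N) (Fin N) ℤ) (x : Fin N → ℤ) (i : Fin N) :
    fv A x i = A.mulVec x i := rfl

theorem fv_add {N : ℕ} (A : Matrix (Fin N) (Fin N) ℤ) (x y : Fin N → ℤ) (i : Fin N) :
    fv A (x + y) i = fv A x i + fv A y i := by
  simp [fv, mul_add, Finset.sum_add_distrib]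

theorem fv_smul {N : ℕ} (A : Matrix (Fin N) (Fin N) ℤ) (a : ℤ) (x : Fin N → ℤ) (i : Fin N) :
    fv A (a • x) i = a * fv A x i := by
  simp only [fv, Pi.smul_apply, smul_eq_mul, Finset.mul_sum]
  exact Finset.sum_congr rfl fun k _ => by ring

theorem fv_sum {N : ℕ} (A : Matrix (Fin N) (Fin N) ℤ) {ι : Type*} (s : Finset ι)
    (a : ι → ℤ) (x : ι → Fin N → ℤ) (i : Fin N) :
    fv A (fun k => ∑ j ∈ s, a j * x j k) i = ∑ j ∈ s, a j * fv A (x j) i := by
  simp only [fv, Finset.mul_sum]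
  rw [Finset.sum_comm]
  exact Finset.sum_congr rfl fun j _ => Finset.sum_congr rfl fun k _ => by ring

/-- the matrix of the values of the forms at the vectors `g j` is `A * gᵀ` -/
theorem fv_matrix {N : ℕ} (A : Matrix (Fin N) (Fin N) ℤ) (g : Fin N → Fin N → ℤ) :
    (Matrix.of fun i j => fv A (g j) i) = A * (Matrix.of g).transpose := by
  ext i j
  simp [Matrix.mul_apply, fv]

theorem det_fv {N : ℕ} (A : Matrix (Fin N) (Fin N) ℤ) (g : Fin N → Fin N → ℤ) :
    (Matrix.of fun i j => fv A (g j) i).det = A.det * (Matrix.of g).det := by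
  rw [fv_matrix, Matrix.det_mul, Matrix.det_transpose]

/-- Cramer's rule -/
theorem adj_fv {N : ℕ} (A : Matrix (Fin N) (Fin N) ℤ) (x : Fin N → ℤ) (k : Fin N) :
    ∑ i, A.adjugate k i * fv A x i = A.det * x k := by
  have h : A.adjugate.mulVec (A.mulVec x) k = A.det * x k := by
    rw [Matrix.mulVec_mulVec, Matrix.adjugate_mul, Matrix.smul_mulVec, Matrix.one_mulVec]
    rfl
  exact h

theorem exists_fv_ne_zero {N : ℕ} {A : Matrix (Fin N) (Fin N) ℤ} (hA : A.det ≠ 0)
    {x : Fin N → ℤ} (hx : x ≠ 0) : ∃ i, fv A x i ≠ 0 := by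
  by_contra h
  push Not at h
  apply hx
  funext k
  have := adj_fv A x k
  simp only [h, mul_zero, Finset.sum_const_zero] at this
  rcases mul_eq_zero.1 this.symm with h | h
  · exact absurd h hA
  · exact h

/-- the values of the forms are bounded by the coordinates -/
theorem av_fv_le {N : ℕ} {v : ℕ} (hv : v = 0 ∨ v.Prime) (A : Matrix (Fin N) (Fin N) ℤ) :
    ∃ K : ℝ, 1 ≤ K ∧ ∀ (x : Fin N → ℤ) (t : ℝ), (∀ k, av v (x k : ℚ) ≤ t) →
      ∀ i, av v (fv A x i : ℚ) ≤ K * t := by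
  refine ⟨1 + ∑ i, ∑ k, av v (A i k : ℚ), ?_, ?_⟩
  · have : 0 ≤ ∑ i, ∑ k, av v (A i k : ℚ) :=
      Finset.sum_nonneg fun i _ => Finset.sum_nonneg fun k _ => av_nonneg _ _
    linarith
  · intro x t hx i
    have ht : 0 ≤ t := (av_nonneg v _).trans (hx i)
    unfold fv
    push_cast
    refine (av_sum_le hv _ _).trans ?_
    calc ∑ k, av v ((A i k : ℚ) * (x k : ℚ)) ≤ ∑ k, av v (A i k : ℚ) * t := by
          refine Finset.sum_le_sum fun k _ => ?_
          rw [av_mul hv]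
          exact mul_le_mul_of_nonneg_left (hx k) (av_nonneg _ _)
      _ = (∑ k, av v (A i k : ℚ)) * t := by rw [Finset.sum_mul]
      _ ≤ (1 + ∑ i, ∑ k, av v (A i k : ℚ)) * t := by
          apply mul_le_mul_of_nonneg_right _ ht
          have h1 : ∑ k, av v (A i k : ℚ) ≤ ∑ i, ∑ k, av v (A i k : ℚ) :=
            Finset.single_le_sum (f := fun i => ∑ k, av v (A i k : ℚ))
              (fun i _ => Finset.sum_nonneg fun k _ => av_nonneg _ _) (Finset.mem_univ i)
          linarith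

/-- the coordinates are bounded by the values of the forms -/
theorem av_coord_le {N : ℕ} {v : ℕ} (hv : v = 0 ∨ v.Prime) {A : Matrix (Fin N) (Fin N) ℤ}
    (hA : A.det ≠ 0) :
    ∃ K : ℝ, 1 ≤ K ∧ ∀ (x : Fin N → ℤ) (t : ℝ), (∀ i, av v (fv A x i : ℚ) ≤ t) →
      ∀ k, av v (x k : ℚ) ≤ K * t := by
  obtain ⟨K, hK, h⟩ := av_fv_le hv A.adjugate
  have hd : 0 < av v (A.det : ℚ) := av_pos hv (by exact_mod_cast hA)
  refine ⟨max 1 (K / av v (A.det : ℚ)), le_max_left _ _, ?_⟩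
  intro x t hx k
  have ht : 0 ≤ t := (av_nonneg v _).trans (hx k)
  have h1 := h (fun i => fv A x i) t hx k
  have h2 : fv A.adjugate (fun i => fv A x i) k = A.det * x k := adj_fv A x k
  rw [h2, Int.cast_mul, av_mul hv] at h1
  calc av v (x k : ℚ) ≤ K / av v (A.det : ℚ) * t := by
        rw [div_mul_eq_mul_div, le_div_iff₀ hd, mul_comm]
        exact h1
    _ ≤ max 1 (K / av v (A.det : ℚ)) * t := mul_le_mul_of_nonneg_right (le_max_right _ _) ht

/-- upper bound for a determinant at any place -/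
theorem av_det_le {N : ℕ} {v : ℕ} (hv : v = 0 ∨ v.Prime) (M : Matrix (Fin N) (Fin N) ℤ)
    (a b : Fin N → ℝ) (ha : ∀ i, 0 ≤ a i) (hb : ∀ j, 0 ≤ b j)
    (h : ∀ i j, av v (M i j : ℚ) ≤ a i * b j) :
    av v (M.det : ℚ) ≤ (if v = 0 then (N.factorial : ℝ) else 1) * ((∏ i, a i) * ∏ j, b j) := by
  have h0 : 0 ≤ (∏ i, a i) * ∏ j, b j :=
    mul_nonneg (Finset.prod_nonneg fun i _ => ha i) (Finset.prod_nonneg fun j _ => hb j)
  have h1 := av_sum_le_card hv (Finset.univ : Finset (Equiv.Perm (Fin N)))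
    (fun σ => ((Equiv.Perm.sign σ : ℤ) : ℚ) * ∏ i, (M (σ i) i : ℚ)) h0 (by
      intro σ _
      rw [av_mul hv, av_prod hv]
      have hs : av v ((Equiv.Perm.sign σ : ℤ) : ℚ) = 1 := by
        rcases Int.units_eq_one_or (Equiv.Perm.sign σ) with h | h
        · rw [h]
          simp
        · rw [h]
          have h2 : (((-1 : ℤˣ) : ℤ) : ℚ) = -(1 : ℚ) := by simp
          rw [h2, av_neg, av_one]
      rw [hs, one_mul]
      calc ∏ i, av v (M (σ i) i : ℚ) ≤ ∏ i, (a (σ i) * b i) :=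
            Finset.prod_le_prod (fun i _ => av_nonneg _ _) fun i _ => h _ _
        _ = (∏ i, a i) * ∏ j, b j := by
            rw [Finset.prod_mul_distrib, Equiv.prod_comp σ a])
  rw [Finset.card_univ, Fintype.card_perm, Fintype.card_fin] at h1
  convert h1 using 2
  rw [Matrix.det_apply']
  push_cast
  rfl

/-! ## Ultrafilters -/

/-- finitely many possibilities: one of them holds along the ultrafilter -/
theorem ult_finite (U : Ultrafilter ℕ) {ι : Type*} [Finite ι] {P : ι → ℕ → Prop}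
    (h : ∀ᶠ n in (U : Filter ℕ), ∃ i, P i n) : ∃ i, ∀ᶠ n in (U : Filter ℕ), P i n := by
  by_contra hc
  have h1 : ∀ i, ∀ᶠ n in (U : Filter ℕ), ¬ P i n := fun i =>
    Ultrafilter.eventually_not.2 fun hi => hc ⟨i, hi⟩
  have h2 : ∀ᶠ n in (U : Filter ℕ), ∀ i, ¬ P i n := eventually_all.2 h1
  obtain ⟨n, hn1, hn2⟩ := (h.and h2).exists
  obtain ⟨i, hi⟩ := hn1
  exact hn2 i hi

/-- a function with values in a finite type is constant along the ultrafilter -/
theorem ult_const (U : Ultrafilter ℕ) {ι : Type*} [Finite ι] (f : ℕ → ι) :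
    ∃ i, ∀ᶠ n in (U : Filter ℕ), f n = i :=
  ult_finite U (P := fun i n => f n = i) (Eventually.of_forall fun n => ⟨f n, rfl⟩)

/-- a function which takes values in a finite set is constant along the ultrafilter -/
theorem ult_const_set (U : Ultrafilter ℕ) {α : Type*} (f : ℕ → α) {s : Set α} (hs : s.Finite)
    (h : ∀ᶠ n in (U : Filter ℕ), f n ∈ s) : ∃ a ∈ s, ∀ᶠ n in (U : Filter ℕ), f n = a := by
  have := hs.to_subtype
  obtain ⟨⟨a, ha⟩, h2⟩ := ult_finite U (ι := s) (P := fun a n => f n = a)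
    (h.mono fun n hn => ⟨⟨f n, hn⟩, rfl⟩)
  exact ⟨a, ha, h2⟩

/-- either eventually `P` or eventually not `P` -/
theorem ult_em (U : Ultrafilter ℕ) (P : ℕ → Prop) :
    (∀ᶠ n in (U : Filter ℕ), P n) ∨ ∀ᶠ n in (U : Filter ℕ), ¬ P n := U.em P

/-- bounded real sequences converge along the ultrafilter -/
theorem ult_lim (U : Ultrafilter ℕ) (f : ℕ → ℝ) (a b : ℝ)
    (h : ∀ᶠ n in (U : Filter ℕ), a ≤ f n ∧ f n ≤ b) :
    ∃ l, a ≤ l ∧ l ≤ b ∧ Tendsto f (U : Filter ℕ) (𝓝 l) := by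
  have hc : IsCompact (Set.Icc a b) := isCompact_Icc
  have h1 : ((U.map f : Ultrafilter ℝ) : Filter ℝ) ≤ 𝓟 (Set.Icc a b) := by
    rw [le_principal_iff, Ultrafilter.coe_map, mem_map]
    exact h
  obtain ⟨l, hl, hl2⟩ := hc.ultrafilter_le_nhds _ h1
  refine ⟨l, hl.1, hl.2, ?_⟩
  rw [Ultrafilter.coe_map] at hl2
  exact hl2

/-- constants are absorbed by `exp (η T)` -/
theorem ev_const_le_exp {F : Filter ℕ} {T : ℕ → ℝ} (hT : Tendsto T F atTop) {η : ℝ} (hη : 0 < η)
    (C : ℝ) : ∀ᶠ n in F, C ≤ Real.exp (η * T n) := by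
  have h1 : Tendsto (fun n => Real.exp (η * T n)) F atTop :=
    Real.tendsto_exp_atTop.comp (hT.const_mul_atTop hη)
  exact h1.eventually_ge_atTop C

theorem ev_pos {F : Filter ℕ} {T : ℕ → ℝ} (hT : Tendsto T F atTop) : ∀ᶠ n in F, 0 < T n :=
  hT.eventually_gt_atTop 0

theorem ev_ge {F : Filter ℕ} {T : ℕ → ℝ} (hT : Tendsto T F atTop) (C : ℝ) :
    ∀ᶠ n in F, C ≤ T n := hT.eventually_ge_atTop C

end Pool.Agent.SBT
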