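import Pool.Agent.SBT.Defs

/-!
# Exact statements of the modules (squad SBT).  Recipes: /team-store/MP_57632f_SBT.md
-/

set_option autoImplicit false

namespace Pool.Agent.SBT

open Filter

/-! ## A. Geometry of numbers -/

/-- MK1: Minkowski's theorem on linear forms for a subgroup of finite index. Uses nothing. -/
def Stmt_MK1 : Prop :=
  ∀ (N : ℕ) (A : Matrix (Fin N) (Fin N) ℝ) (H : AddSubgroup (Fin N → ℤ)) (t : ℝ), 1 ≤ N →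
    A.det ≠ 0 → H.index ≠ 0 → 0 < t → |A.det| * H.index < t ^ N →
    ∃ x ∈ H, x ≠ 0 ∧ ∀ i, |∑ k, A i k * (x k : ℝ)| ≤ t

/-- LAT: the index of a group defined by congruences. Uses nothing. -/
def Stmt_LAT : Prop :=
  ∀ (N : ℕ) (S : Finset ℕ) (L : ℕ → Matrix (Fin N) (Fin N) ℤ) (k : ℕ → Fin N → ℕ), PS S →
    ∃ H : AddSubgroup (Fin N → ℤ),
      (∀ x, x ∈ H ↔ ∀ p ∈ S, ∀ i, ((p ^ k p i : ℕ) : ℤ) ∣ fv (L p) x i) ∧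
      H.index ≠ 0 ∧ H.index ≤ ∏ p ∈ S, ∏ i, p ^ k p i

/-- ORD: a good order of the linear forms with respect to a flag. Uses nothing. -/
def Stmt_ORD : Prop :=
  ∀ N : ℕ, ∃ C : ℝ, 1 ≤ C ∧ ∀ (A G : Matrix (Fin N) (Fin N) ℝ), A.det ≠ 0 → G.det ≠ 0 →
    ∃ π : Equiv.Perm (Fin N), ∀ (j : Fin N) (x : Fin N → ℝ), (∀ k, j < k → x k = 0) → ∀ B : ℝ,
      (∀ i ≤ j, |∑ k, x k * A.mulVec (G k) (π i)| ≤ B) →
      ∀ i, |∑ k, x k * A.mulVec (G k) (π i)| ≤ C * B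

/-- DAV: Davenport's lemma. Uses ORD. -/
def Stmt_DAV : Prop :=
  ∀ N : ℕ, ∃ C : ℝ, 1 ≤ C ∧ ∀ (A G : Matrix (Fin N) (Fin N) ℝ) (l ρ : Fin N → ℝ), A.det ≠ 0 →
    G.det ≠ 0 → (∀ i j, |A.mulVec (G j) i| ≤ l j) → (∀ j, 0 < ρ j) → Antitone ρ →
    Monotone (fun j => ρ j * l j) →
    ∃ (π : Equiv.Perm (Fin N)) (m : Fin N → Fin N → ℤ), (∀ j k, j ≤ k → m j k = 0) ∧
      ∀ i j, ρ i * |A.mulVec (fun a => G j a + ∑ k, (m j k : ℝ) * G k a) (π i)| ≤ C * (ρ j * l j)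

/-- MIN: Minkowski's second theorem (up to constants). Uses MK1, ORD. -/
def Stmt_MIN : Prop :=
  ∀ N : ℕ, 1 ≤ N → ∃ C : ℝ, 0 < C ∧ ∀ (A : Matrix (Fin N) (Fin N) ℝ)
    (H : AddSubgroup (Fin N → ℤ)), A.det ≠ 0 → H.index ≠ 0 →
    ∃ (g : Fin N → Fin N → ℤ) (l : Fin N → ℝ), (∀ j, g j ∈ H) ∧ (Matrix.of g).det ≠ 0 ∧
      (∀ j, 0 < l j) ∧ Monotone l ∧ (∀ i j, |∑ k, A i k * (g j k : ℝ)| ≤ l j) ∧
      ∏ j, l j ≤ C * (|A.det| * H.index)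

/-- GSY: good systems. Uses MIN, LAT. -/
def Stmt_GSY : Prop :=
  ∀ (N : ℕ) (S : Finset ℕ) (U : Ultrafilter ℕ) (T : ℕ → ℝ) (L : ℕ → Matrix (Fin N) (Fin N) ℤ)
    (c : ℕ → Fin N → ℝ) (η : ℝ), 1 ≤ N → PS S → Tendsto T (U : Filter ℕ) atTop →
    (∀ v ∈ pl S, (L v).det ≠ 0) → (∀ p ∈ S, ∀ i, c p i ≤ 0) → 0 < η →
    ∃ (μ : Fin N → ℝ) (g : ℕ → Fin N → Fin N → ℤ), Monotone μ ∧
      (∀ n, (Matrix.of (g n)).det ≠ 0) ∧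
      (∀ᶠ n in (U : Filter ℕ), ∀ j i,
        av 0 (fv (L 0) (g n j) i) ≤ Real.exp ((c 0 i + μ j) * T n) ∧
        ∀ p ∈ S, av p (fv (L p) (g n j) i) ≤ Real.exp (c p i * T n)) ∧
      ∑ j, μ j + ∑ v ∈ pl S, ∑ i, c v i ≤ η

/-- CBN: Cauchy-Binet. Uses nothing. -/
def Stmt_CBN : Prop :=
  ∀ (R : Type) [CommRing R] (N p : ℕ) (A B : Matrix (Fin N) (Fin N) R),
    cpd p (A * B) = cpd p A * cpd p B

/-- CPS: the sum of the exponents of the compound. Uses nothing. -/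
def Stmt_CPS : Prop :=
  ∀ (N p : ℕ) (c : Fin N → ℝ), 1 ≤ p →
    ∑ s : Sb N p, ∑ a, c (s.1 a) = ((N - 1).choose (p - 1) : ℝ) * ∑ i, c i

/-- ANN: from the compound back to the space. Uses nothing. -/
def Stmt_ANN : Prop :=
  ∀ (k p : ℕ) (w : Sb (k + p) p → ℚ), 1 ≤ p → w ≠ 0 →
    ∃ c : Fin (k + p) → ℚ, c ≠ 0 ∧ ∀ G : Matrix (Fin (k + p)) (Fin (k + p)) ℚ, G.det ≠ 0 →
      (∀ s : Sb (k + p) p, s ≠ lst k p → ∑ t, w t * cpd p G t s = 0) →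
      ∀ j : Fin (k + p), (j : ℕ) < k → ∑ i, c i * G i j = 0

/-- THB: a gap between the `k`-th and the `(k+1)`-th vector of a good system. Uses THA, DAV,
CBN, CPS, ANN. -/
def Stmt_THB : Prop :=
  ∀ (k p : ℕ) (S : Finset ℕ) (U : Ultrafilter ℕ) (T : ℕ → ℝ)
    (L : ℕ → Matrix (Fin (k + p)) (Fin (k + p)) ℤ) (c : ℕ → Fin (k + p) → ℝ)
    (μ : Fin (k + p) → ℝ) (g : ℕ → Fin (k + p) → Fin (k + p) → ℤ) (δ : ℝ), 1 ≤ k → 1 ≤ p →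
    PS S → Tendsto T (U : Filter ℕ) atTop → (∀ v ∈ pl S, (L v).det ≠ 0) → Monotone μ →
    (∀ n, (Matrix.of (g n)).det ≠ 0) →
    (∀ᶠ n in (U : Filter ℕ), ∀ j i,
      av 0 (fv (L 0) (g n j) i) ≤ Real.exp ((c 0 i + μ j) * T n) ∧
      ∀ q ∈ S, av q (fv (L q) (g n j) i) ≤ Real.exp (c q i * T n)) →
    0 < δ → (∀ i j : Fin (k + p), (i : ℕ) < k → k ≤ (j : ℕ) → μ i + δ ≤ μ j) →
    (2 : ℝ) ^ (k + p + 1) * (∑ j, μ j + ∑ v ∈ pl S, ∑ i, c v i) ≤ δ →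
    ∃ w : Fin (k + p) → ℤ, w ≠ 0 ∧
      ∀ᶠ n in (U : Filter ℕ), ∀ j : Fin (k + p), (j : ℕ) < k → ∑ i, w i * g n j i = 0

/-- PAR: the parametric Subspace theorem. Uses GSY, THB. -/
def Stmt_PAR : Prop :=
  ∀ (N : ℕ) (S : Finset ℕ) (U : Ultrafilter ℕ) (T : ℕ → ℝ) (L : ℕ → Matrix (Fin N) (Fin N) ℤ)
    (c : ℕ → Fin N → ℝ) (x : ℕ → Fin N → ℤ), 1 ≤ N → PS S → Tendsto T (U : Filter ℕ) atTop →
    (∀ v ∈ pl S, (L v).det ≠ 0) → (∀ p ∈ S, ∀ i, c p i ≤ 0) → ∑ v ∈ pl S, ∑ i, c v i < 0 →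
    (∀ᶠ n in (U : Filter ℕ), ∀ v ∈ pl S, ∀ i,
      av v (fv (L v) (x n) i) ≤ Real.exp (c v i * T n)) →
    ∃ w : Fin N → ℤ, w ≠ 0 ∧ ∀ᶠ n in (U : Filter ℕ), ∑ i, w i * x n i = 0

/-- SUB: the `p`-adic Subspace theorem over `ℚ` (Schmidt, Schlickewei). Uses PAR. -/
def Stmt_SUB : Prop :=
  ∀ (N : ℕ) (S : Finset ℕ) (U : Ultrafilter ℕ) (T : ℕ → ℝ) (L : ℕ → Matrix (Fin N) (Fin N) ℤ)
    (x : ℕ → Fin N → ℤ) (C ε : ℝ), 1 ≤ N → PS S → Tendsto T (U : Filter ℕ) atTop →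
    (∀ v ∈ pl S, (L v).det ≠ 0) → 0 < ε →
    (∀ᶠ n in (U : Filter ℕ), ∀ i, |(x n i : ℝ)| ≤ Real.exp (C * T n)) →
    (∀ᶠ n in (U : Filter ℕ),
      ∏ v ∈ pl S, ∏ i, av v (fv (L v) (x n) i) ≤ Real.exp (-ε * T n)) →
    ∃ w : Fin N → ℤ, w ≠ 0 ∧ ∀ᶠ n in (U : Filter ℕ), ∑ i, w i * x n i = 0

/-- SBB: the Subspace theorem for several bases of a space of sequences. Uses SUB. -/
def Stmt_SBB : Prop :=
  ∀ (S : Finset ℕ) (U : Ultrafilter ℕ) (T : ℕ → ℝ) (J : Type) [Fintype J] [DecidableEq J]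
    (x : J → ℕ → ℚ) (B : ℕ → Finset J) (n₀ : ℕ) (C ε : ℝ), PS S →
    Tendsto T (U : Filter ℕ) atTop →
    (∀ᶠ n in (U : Filter ℕ), ∀ j, ∀ p : ℕ, p.Prime → p ∉ S → padicNorm p (x j n) ≤ 1) →
    (∀ᶠ n in (U : Filter ℕ), ∀ j, ∀ v ∈ pl S, av v (x j n) ≤ Real.exp (C * T n)) →
    (∀ v ∈ pl S, LI U x (B v) ∧ (B v).card = n₀) → (∀ B' : Finset J, LI U x B' → B'.card ≤ n₀) →
    0 < ε →
    ∀ᶠ n in (U : Filter ℕ), Real.exp (-ε * T n) ≤ ∏ v ∈ pl S, ∏ j ∈ B v, av v (x j n)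

/-! ## B. Roth's lemma -/

/-- RT1: the order of vanishing at a rational point. Uses nothing. -/
def Stmt_RT1 : Prop :=
  ∀ (P : Polynomial ℤ) (β : ℚ) (A : ℝ), P ≠ 0 → (∀ i, |(P.coeff i : ℝ)| ≤ Real.exp A) →
    ∃ e : ℕ, ((P.map (Int.castRingHom ℚ)).comp (Polynomial.X + Polynomial.C β)).coeff e ≠ 0 ∧
      (e : ℝ) * Real.log β.den ≤ A

/-- WRN: Wronskians of polynomials in one variable. Uses nothing. -/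
def Stmt_WRN : Prop :=
  ∀ (k : ℕ) (f : Fin k → Polynomial ℚ), LinearIndependent ℚ f →
    (Matrix.of fun i j : Fin k => Polynomial.hasseDeriv (i : ℕ) (f j)).det ≠ 0

/-- GWR: generalised Wronskians. Uses WRN. -/
def Stmt_GWR : Prop :=
  ∀ (k m : ℕ) (f : Fin k → MvPolynomial (Fin m) ℚ), LinearIndependent ℚ f →
    ∃ μ : Fin k → (Fin m →₀ ℕ), (∀ i, ∑ h, μ i h ≤ (i : ℕ)) ∧
      (Matrix.of fun i j : Fin k => hd (μ i) (f j)).det ≠ 0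

/-- RTD: separation of the last variable. Uses nothing. -/
def Stmt_RTD : Prop :=
  ∀ (m D : ℕ) (P : MvPolynomial (Fin (m + 1)) ℚ), P ≠ 0 → P.degreeOf (Fin.last m) ≤ D →
    ∃ (k : ℕ) (φ : Fin k → MvPolynomial (Fin m) ℚ) (ψ : Fin k → Polynomial ℚ), 1 ≤ k ∧
      k ≤ D + 1 ∧ LinearIndependent ℚ φ ∧ LinearIndependent ℚ ψ ∧
      P = ∑ j, MvPolynomial.rename Fin.castSucc (φ j) *
        Polynomial.aeval (MvPolynomial.X (Fin.last m)) (ψ j)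

/-- RTW: the determinant of derivatives splits. Uses RTD, GWR, WRN. -/
def Stmt_RTW : Prop :=
  ∀ (m D : ℕ) (P : MvPolynomial (Fin (m + 1)) ℤ), P ≠ 0 → P.degreeOf (Fin.last m) ≤ D →
    ∃ (k : ℕ) (μ : Fin k → (Fin m →₀ ℕ)) (U : MvPolynomial (Fin m) ℤ) (V : Polynomial ℤ)
      (c : ℤ), 1 ≤ k ∧ k ≤ D + 1 ∧ (∀ i, ∑ h, μ i h ≤ (i : ℕ)) ∧ U ≠ 0 ∧ V ≠ 0 ∧ c ≠ 0 ∧
      MvPolynomial.C c * (dmt μ P).det =
        MvPolynomial.rename Fin.castSucc U *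
          Polynomial.aeval (MvPolynomial.X (Fin.last m)) V ∧
      (∀ e, ∃ e', U.coeff e = (dmt μ P).det.coeff e') ∧
      (∀ i, ∃ e', V.coeff i = (dmt μ P).det.coeff e') ∧
      ∀ h, U.degreeOf h ≤ (dmt μ P).det.degreeOf h.castSucc

/-- RTH: height and degree of the determinant of derivatives. Uses nothing. -/
def Stmt_RTH : Prop :=
  ∀ (m k : ℕ) (d : Fin (m + 1) → ℕ) (P : MvPolynomial (Fin (m + 1)) ℤ)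
    (μ : Fin k → (Fin m →₀ ℕ)) (A D : ℝ), (∀ h, 1 ≤ d h) → (∀ h, P.degreeOf h ≤ d h) →
    k ≤ d (Fin.last m) + 1 → HB P (Real.exp A) →
    (∀ h, (d h : ℝ) ≤ D) → ∑ h, (d h : ℝ) ≤ 2 * D →
    (∀ h, (dmt μ P).det.degreeOf h ≤ k * d h) ∧
      HB (dmt μ P).det (Real.exp (k * (A + 4 * D)))

/-- RTI: lower bound for the index of the determinant of derivatives. Uses nothing. -/
def Stmt_RTI : Prop :=
  ∀ (m k : ℕ) (d : Fin (m + 1) → ℕ) (P : MvPolynomial (Fin (m + 1)) ℤ)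
    (μ : Fin k → (Fin m →₀ ℕ)) (β : Fin (m + 1) → ℚ) (τ κ : ℝ), (∀ h, 1 ≤ d h) →
    (∀ i, ∑ h : Fin m, (μ i h : ℝ) / d h.castSucc ≤ κ) →
    (∀ e ∈ (tr β (toQ P)).support, τ < wt d e) →
    ∀ e ∈ (tr β (toQ (dmt μ P).det)).support,
      ∑ j : Fin k, max 0 (τ - κ - (j : ℝ) / d (Fin.last m)) ≤ wt d e

/-- RTA: an average. Uses nothing. -/
def Stmt_RTA : Prop :=
  ∀ (k D : ℕ) (a : ℝ), 1 ≤ D → k ≤ D + 1 → 0 ≤ a → a ≤ 1 →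
    k * (a ^ 2 / 4) ≤ ∑ j : Fin k, max 0 (a - (j : ℝ) / D)

/-- RTU: upper bound for the index of the determinant. Uses nothing. -/
def Stmt_RTU : Prop :=
  ∀ (m : ℕ) (W : MvPolynomial (Fin (m + 1)) ℤ) (U : MvPolynomial (Fin m) ℤ) (V : Polynomial ℤ)
    (c : ℤ) (β : Fin (m + 1) → ℚ), c ≠ 0 →
    MvPolynomial.C c * W = MvPolynomial.rename Fin.castSucc U *
      Polynomial.aeval (MvPolynomial.X (Fin.last m)) V →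
    ∀ e ∈ (tr (fun h : Fin m => β h.castSucc) (toQ U)).support, ∀ i : ℕ,
      ((V.map (Int.castRingHom ℚ)).comp
        (Polynomial.X + Polynomial.C (β (Fin.last m)))).coeff i ≠ 0 →
      ex e i ∈ (tr β (toQ W)).support

/-- RTL: Roth's lemma. Uses RTW, RTH, RTI, RTA, RTU, RT1. -/
def Stmt_RTL : Prop :=
  ∀ (m : ℕ) (τ : ℝ), 0 < τ → ∃ ω : ℝ, 0 < ω ∧ ∀ (P : MvPolynomial (Fin m) ℤ) (d : Fin m → ℕ)
    (β : Fin m → ℚ) (A D : ℝ), P ≠ 0 → (∀ h, 1 ≤ d h) → (∀ h, P.degreeOf h ≤ d h) →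
    (∀ h h', h < h' → (d h' : ℝ) ≤ ω * d h) → (∀ h, (d h : ℝ) ≤ D) →
    ∑ h, (d h : ℝ) ≤ 2 * D → HB P (Real.exp A) →
    (∀ h, A + D ≤ ω * (d h * Real.log (β h).den)) →
    ∃ e ∈ (tr β (toQ P)).support, wt d e ≤ τ

/-! ## C. The penultimate minimum -/

/-- AUX: the auxiliary polynomial. Uses nothing. -/
def Stmt_AUX : Prop :=
  ∀ (N : ℕ) (S : Finset ℕ) (L : ℕ → Matrix (Fin N) (Fin N) ℤ), 1 ≤ N → PS S →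
    (∀ v ∈ pl S, (L v).det ≠ 0) →
    ∃ C : ℝ, 1 ≤ C ∧ ∀ ε : ℝ, 0 < ε → ∃ m₀ : ℕ, ∀ m : ℕ, m₀ ≤ m → ∀ d : Fin m → ℕ,
      (∀ h, 1 ≤ d h) → ∃ P : MvPolynomial (Fin m × Fin N) ℤ, P ≠ 0 ∧ MH d P ∧
        HB P (C ^ (∑ h, d h)) ∧
        ∀ v ∈ pl S, ∀ j ∈ (lin (L v).adjugate P).support, Good d ε j

/-- SM1: the coefficients of `phi g k P` at one place. Uses nothing. -/
def Stmt_SM1 : Prop :=
  ∀ (M v : ℕ) (A : Matrix (Fin (M + 1)) (Fin (M + 1)) ℤ), (v = 0 ∨ v.Prime) → A.det ≠ 0 →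
    ∃ K : ℝ, 1 ≤ K ∧ ∀ (m : ℕ) (d : Fin m → ℕ) (T : Fin m → ℝ) (b : Fin (M + 1) → ℝ)
      (β C₁ E : ℝ) (g : Fin m → Fin M → Fin (M + 1) → ℤ) (k : Fin m → Fin (M + 1))
      (P : MvPolynomial (Fin m × Fin (M + 1)) ℤ), (∀ h, 0 ≤ T h) → (∀ i, |b i| ≤ β) → 1 ≤ C₁ →
      MH d P → HB P (C₁ ^ (∑ h, d h)) →
      (∀ h j i, av v (fv A (g h j) i) ≤ Real.exp (b i * T h)) →
      (∀ j ∈ (lin A.adjugate P).support, ∑ h, ∑ i, (j (h, i) : ℝ) * (b i * T h) ≤ E) →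
      ∀ e, av v ((MvPolynomial.coeff e (phi g k P) : ℤ) : ℚ) ≤
        (K * C₁) ^ (∑ h, d h) * Real.exp (E + β * ∑ h, (e (Sum.inr h) : ℝ) * T h)

/-- SML: the coefficients of small weight of `phi g k P` vanish. Uses SM1. -/
def Stmt_SML : Prop :=
  ∀ (M : ℕ) (S : Finset ℕ) (L : ℕ → Matrix (Fin (M + 1)) (Fin (M + 1)) ℤ)
    (c : ℕ → Fin (M + 1) → ℝ) (δ : ℝ), PS S → (∀ v ∈ pl S, (L v).det ≠ 0) → 0 < δ →
    ∑ v ∈ pl S, ∑ i, c v i ≤ 0 →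
    ∃ ε κ σ : ℝ, 0 < ε ∧ 0 < κ ∧ 0 < σ ∧ ∀ C₁ : ℝ, 1 ≤ C₁ → ∃ T₀ : ℝ, 0 < T₀ ∧
      ∀ (m : ℕ) (d : Fin m → ℕ) (T : Fin m → ℝ) (W : ℝ)
        (g : Fin m → Fin M → Fin (M + 1) → ℤ) (k : Fin m → Fin (M + 1))
        (P : MvPolynomial (Fin m × Fin (M + 1)) ℤ), 1 ≤ m → 0 < W → (∀ h, 1 ≤ d h) →
        (∀ h, W ≤ d h * T h ∧ d h * T h ≤ (1 + κ) * W) → (∀ h, T₀ ≤ T h) → MH d P →
        HB P (C₁ ^ (∑ h, d h)) →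
        (∀ v ∈ pl S, ∀ j ∈ (lin (L v).adjugate P).support, Good d ε j) →
        (∀ v ∈ pl S, ∀ h j i, av v (fv (L v) (g h j) i) ≤
          Real.exp ((c v i - if v = 0 then δ else 0) * T h)) →
        ∀ e ∈ (phi g k P).support, σ * m < ∑ h, (e (Sum.inr h) : ℝ) / d h

/-- RED: reduction to one variable in each block. Uses nothing. -/
def Stmt_RED : Prop :=
  ∀ (m M : ℕ) (d : Fin m → ℕ) (P : MvPolynomial (Fin m × Fin (M + 1)) ℤ)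
    (w : Fin m → Fin (M + 1) → ℤ) (g : Fin m → Fin M → Fin (M + 1) → ℤ)
    (k l : Fin m → Fin (M + 1)) (τ B : ℝ), P ≠ 0 → MH d P → (∀ h, k h ≠ l h) →
    (∀ h, w h (k h) ≠ 0) → (∀ h j, ∑ i, w h i * g h j i = 0) →
    (∀ h, LinearIndependent ℚ (fun j : Fin M => fun i => (g h j i : ℚ))) →
    HB P B →
    (∀ e ∈ (phi g k P).support, τ < ∑ h, (e (Sum.inr h) : ℝ) / d h) →
    ∃ p : MvPolynomial (Fin m) ℤ, p ≠ 0 ∧ (∀ h, p.degreeOf h ≤ d h) ∧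
      HB p B ∧
      ∀ e ∈ (tr (fun h => -(w h (l h) : ℚ) / w h (k h)) (toQ p)).support, τ < wt d e

/-- NRM: a primitive normal vector. Uses nothing. -/
def Stmt_NRM : Prop :=
  ∀ (M : ℕ) (g : Fin M → Fin (M + 1) → ℤ),
    LinearIndependent ℚ (fun j => fun i => (g j i : ℚ)) →
    ∃ w : Fin (M + 1) → ℤ, (∀ z : ℤ, (∀ i, z ∣ w i) → IsUnit z) ∧ ∀ j, ∑ i, w i * g j i = 0

/-- NRK: two coordinates with a quotient of large denominator. Uses nothing. -/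
def Stmt_NRK : Prop :=
  ∀ (M : ℕ) (w : Fin (M + 1) → ℤ), 1 ≤ M → (∀ z : ℤ, (∀ i, z ∣ w i) → IsUnit z) →
    ∃ k l, k ≠ l ∧ w k ≠ 0 ∧ ∀ i, (|w i| : ℝ) ≤ (((-(w l : ℚ) / w k).den : ℕ) : ℝ) ^ M

/-- LBH: the case of small height. Uses nothing. -/
def Stmt_LBH : Prop :=
  ∀ (M : ℕ) (S : Finset ℕ) (U : Ultrafilter ℕ) (T : ℕ → ℝ)
    (L : ℕ → Matrix (Fin (M + 1)) (Fin (M + 1)) ℤ) (c : ℕ → Fin (M + 1) → ℝ) (δ : ℝ)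
    (g : ℕ → Fin M → Fin (M + 1) → ℤ), 1 ≤ M → PS S → Tendsto T (U : Filter ℕ) atTop →
    (∀ v ∈ pl S, (L v).det ≠ 0) → ∑ v ∈ pl S, ∑ i, c v i ≤ 0 → 0 < δ →
    (∀ᶠ n in (U : Filter ℕ), LinearIndependent ℚ (fun j => fun i => (g n j i : ℚ))) →
    (∀ᶠ n in (U : Filter ℕ), ∀ v ∈ pl S, ∀ j i, av v (fv (L v) (g n j) i) ≤
      Real.exp ((c v i - if v = 0 then δ else 0) * T n)) →
    ∃ a : ℝ, 0 < a ∧ ∀ w : ℕ → Fin (M + 1) → ℤ,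
      (∀ᶠ n in (U : Filter ℕ), (∀ z : ℤ, (∀ i, z ∣ w n i) → IsUnit z) ∧
        ∀ j, ∑ i, w n i * g n j i = 0) →
      (∃ w₀ : Fin (M + 1) → ℤ, w₀ ≠ 0 ∧
        ∀ᶠ n in (U : Filter ℕ), ∀ j, ∑ i, w₀ i * g n j i = 0) ∨
      ∀ᶠ n in (U : Filter ℕ), ∃ i, Real.exp (a * T n) < |(w n i : ℝ)|

/-- THA: the span of the first vectors is constant if they are small. Uses AUX, SML, RED, NRM,
NRK, LBH, RTL. -/
def Stmt_THA : Prop :=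
  ∀ (M : ℕ) (S : Finset ℕ) (U : Ultrafilter ℕ) (T : ℕ → ℝ)
    (L : ℕ → Matrix (Fin (M + 1)) (Fin (M + 1)) ℤ) (c : ℕ → Fin (M + 1) → ℝ) (δ : ℝ)
    (g : ℕ → Fin M → Fin (M + 1) → ℤ), 1 ≤ M → PS S → Tendsto T (U : Filter ℕ) atTop →
    (∀ v ∈ pl S, (L v).det ≠ 0) → ∑ v ∈ pl S, ∑ i, c v i ≤ 0 → 0 < δ →
    (∀ᶠ n in (U : Filter ℕ), LinearIndependent ℚ (fun j => fun i => (g n j i : ℚ))) →
    (∀ᶠ n in (U : Filter ℕ), ∀ v ∈ pl S, ∀ j i, av v (fv (L v) (g n j) i) ≤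
      Real.exp ((c v i - if v = 0 then δ else 0) * T n)) →
    ∃ w : Fin (M + 1) → ℤ, w ≠ 0 ∧ ∀ᶠ n in (U : Filter ℕ), ∀ j, ∑ i, w i * g n j i = 0

end Pool.Agent.SBT
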