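import Pool.Agent.SBT.Stmts

/-!
# Exact statements of the modules (squad SBT), sections D, E, F.
# Recipes: /team-store/MP_57632f_SBT_DEF.md
-/

set_option autoImplicit false

namespace Pool.Agent.SBT

open Filter

/-! ## D. Integers and units -/

/-- SIM: the exponents of total degree at most `h`. Uses nothing. -/
def Stmt_SIM : Prop :=
  (∀ (r h : ℕ) (e : Fin r →₀ ℕ), e ∈ Exs r h ↔ ∑ i, e i ≤ h) ∧
  ∀ (r m : ℕ) (δ : ℝ), 0 < δ → ∃ h₀ : ℕ, ∀ h ≥ h₀,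
    ((Exs r (h + m)).card : ℝ) ≤ (1 + δ) * (Exs r h).card

/-- VOR: an order of the exponents adapted to the place `v`. Uses nothing. -/
def Stmt_VOR : Prop :=
  ∀ (U : Ultrafilter ℕ) (v r : ℕ) (g : Fin r → ℕ → ℚ), (v = 0 ∨ v.Prime) →
    (∀ i n, 0 < g i n) →
    ∃ lt : (Fin r →₀ ℕ) → (Fin r →₀ ℕ) → Prop, IsStrictTotalOrder (Fin r →₀ ℕ) lt ∧
      (∀ e e' f, lt e e' → lt (e + f) (e' + f)) ∧
      ∀ e e', lt e e' → ∀ᶠ n in (U : Filter ℕ), av v (mon g e n) ≤ av v (mon g e' n)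

/-- LTM: leading terms. Uses nothing. -/
def Stmt_LTM : Prop :=
  ∀ (r : ℕ) (lt : (Fin r →₀ ℕ) → (Fin r →₀ ℕ) → Prop), IsStrictTotalOrder (Fin r →₀ ℕ) lt →
    (∀ e e' f, lt e e' → lt (e + f) (e' + f)) →
    ∀ (A H : MvPolynomial (Fin r) ℚ) (a e : Fin r →₀ ℕ),
      (∀ a' ∈ A.support, a' = a ∨ lt a' a) → (∀ e' ∈ H.support, e' = e ∨ lt e' e) →
      MvPolynomial.coeff (a + e) (A * H) = MvPolynomial.coeff a A * MvPolynomial.coeff e H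

/-- UNI: independent units are algebraically independent. Uses SBB. -/
def Stmt_UNI : Prop :=
  ∀ (U : Ultrafilter ℕ) (S : Finset ℕ) (r : ℕ) (g : Fin r → ℕ → ℚ), PS S →
    (∀ i n, IsU S (g i n)) → MI U g →
    ∀ H : MvPolynomial (Fin r) ℚ, (∀ᶠ n in (U : Filter ℕ), ev g n H = 0) → H = 0

/-- S1T: the height of a primitive relation. Uses SBB, SIM, VOR, LTM. -/
def Stmt_S1T : Prop :=
  ∀ (U : Ultrafilter ℕ) (S : Finset ℕ) (T : ℕ → ℝ) (r d : ℕ) (g : Fin r → ℕ → ℚ)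
    (Z : Fin d → ℕ → ℤ) (B δ : ℝ) (H : Fin d → MvPolynomial (Fin r) ℚ), Gd U S T g → 0 ≤ B →
    0 < δ → (∀ᶠ n in (U : Filter ℕ), ∀ i, |(Z i n : ℝ)| ≤ Real.exp (B * T n)) →
    (∀ᶠ n in (U : Filter ℕ), ∑ i, ev g n (H i) * (Z i n : ℚ) = 0) →
    (∀ A, (∀ i, A ∣ H i) → IsUnit A) →
    (∀ G : Fin d → MvPolynomial (Fin r) ℚ,
      (∀ᶠ n in (U : Filter ℕ), ∑ i, ev g n (G i) * (Z i n : ℚ) = 0) →
      ∀ i j, G i * H j = G j * H i) →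
    ∀ e : ℕ → (Fin r →₀ ℕ), (∀ v ∈ pl S, ∃ i, e v ∈ (H i).support) →
      ∀ᶠ n in (U : Filter ℕ),
        ∏ v ∈ pl S, av v (mon g (e v) n) ≤ Real.exp ((d * B + δ) * T n)

/-- S2T: a linear form in independent integers with unit coefficients is not small. Uses SBB,
SIM, VOR, LTM. -/
def Stmt_S2T : Prop :=
  ∀ (U : Ultrafilter ℕ) (S : Finset ℕ) (T : ℕ → ℝ) (r d : ℕ) (g : Fin r → ℕ → ℚ)
    (Z : Fin d → ℕ → ℤ) (B δ : ℝ) (D : Fin d → MvPolynomial (Fin r) ℚ), Gd U S T g → 0 ≤ B →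
    0 < δ → (∀ᶠ n in (U : Filter ℕ), ∀ i, |(Z i n : ℝ)| ≤ Real.exp (B * T n)) →
    Indp U g Z → ∀ i, ∀ e ∈ (D i).support, ∀ᶠ n in (U : Filter ℕ),
      av 0 (mon g e n) ≤
        Real.exp ((d * B + δ) * T n) * |((∑ i, ev g n (D i) * (Z i n : ℚ) : ℚ) : ℝ)|

/-- EL1: elimination of one integer. Uses UNI, S1T. -/
def Stmt_EL1 : Prop :=
  ∀ (U : Ultrafilter ℕ) (S : Finset ℕ) (T : ℕ → ℝ) (r d : ℕ) (ι : Type) (g : Fin r → ℕ → ℚ)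
    (bs : ι → ℕ) (Z : Fin (d + 1) → ℕ → ℤ) (R : ι → ℕ → ℤ) (B B₀ : ℝ), Gd U S T g → 0 ≤ B →
    (∀ᶠ n in (U : Filter ℕ), ∀ i, |(Z i n : ℝ)| ≤ Real.exp (B * T n)) → ¬ Indp U g Z →
    (∀ t, Dsc U S T g (bs t) Z (R t) B₀) →
    ∃ Z' : Fin d → ℕ → ℤ, (∀ i, ∃ j, Z' i = Z j) ∧
      ∀ t, Dsc U S T g (bs t) Z' (R t) (B₀ + (d + 1) * B + 1)

/-- ELM: elimination. Uses EL1. -/
def Stmt_ELM : Prop :=
  ∀ (U : Ultrafilter ℕ) (S : Finset ℕ) (T : ℕ → ℝ) (r d : ℕ) (ι : Type) (g : Fin r → ℕ → ℚ)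
    (bs : ι → ℕ) (Z : Fin d → ℕ → ℤ) (R : ι → ℕ → ℤ) (B B₀ : ℝ), Gd U S T g → 0 ≤ B →
    (∀ᶠ n in (U : Filter ℕ), ∀ i, |(Z i n : ℝ)| ≤ Real.exp (B * T n)) →
    (∀ t, Dsc U S T g (bs t) Z (R t) B₀) →
    ∃ (d' : ℕ) (Z' : Fin d' → ℕ → ℤ), d' ≤ d ∧
      (∀ᶠ n in (U : Filter ℕ), ∀ i, |(Z' i n : ℝ)| ≤ Real.exp (B * T n)) ∧ Indp U g Z' ∧
      ∀ t, Dsc U S T g (bs t) Z' (R t) (B₀ + d * (d * B + 1))

/-- BAS: a basis of a group of units modulo constants. Uses nothing. -/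
def Stmt_BAS : Prop :=
  ∀ (U : Ultrafilter ℕ) (K : ℕ) (u : Fin K → ℕ → ℚ), (∀ k n, 0 < u k n) →
    ∃ (r : ℕ) (g : Fin r → ℕ → ℚ), (∀ i, ∃ e : Fin K → ℤ, ∀ n, g i n = ∏ k, u k n ^ e k) ∧
      MI U g ∧ ∀ k, ∃ (κ : ℚ) (e : Fin r → ℤ), 0 < κ ∧
        ∀ᶠ n in (U : Filter ℕ), u k n = κ * ∏ i, g i n ^ e i

/-- INI: the first description. Uses nothing. -/
def Stmt_INI : Prop :=
  ∀ (U : Ultrafilter ℕ) (S : Finset ℕ) (T : ℕ → ℝ) (r s N a : ℕ) (g : Fin r → ℕ → ℚ)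
    (y : Fin s → ℕ → ℤ) (R : ℕ → ℤ) (c₀ : Fin N → ℤ) (m₀ : Fin N → ℕ → ℕ)
    (c : Fin s → Fin N → ℤ) (m : Fin s → Fin N → ℕ → ℕ) (B : ℝ), Gd U S T g → 2 ≤ a →
    (∀ t, ∃ (κ : ℚ) (e : Fin r → ℤ), 0 < κ ∧
      ∀ᶠ n in (U : Filter ℕ), (a : ℚ) ^ m₀ t n = κ * ∏ i, g i n ^ e i) →
    (∀ j t, ∃ (κ : ℚ) (e : Fin r → ℤ), 0 < κ ∧
      ∀ᶠ n in (U : Filter ℕ), (a : ℚ) ^ m j t n = κ * ∏ i, g i n ^ e i) →
    (∀ᶠ n in (U : Filter ℕ),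
      (∑ t, c₀ t * (a : ℤ) ^ m₀ t n) * R n = ∑ j, (∑ t, c j t * (a : ℤ) ^ m j t n) * y j n) →
    (∀ᶠ n in (U : Filter ℕ), ∑ t, c₀ t * (a : ℤ) ^ m₀ t n ≠ 0) → 0 ≤ B →
    (∀ t, ∀ᶠ n in (U : Filter ℕ), (m₀ t n : ℝ) * Real.log a ≤ B * T n) →
    Dsc U S T g a y R (B + 1)

/-- VIN: the valuations of independent integers are independent. Uses nothing. -/
def Stmt_VIN : Prop :=
  ∀ a b : ℕ, 2 ≤ a → 2 ≤ b → Indep a b → ∃ C : ℝ, 0 < C ∧ ∀ (x y : ℤ) (E : ℝ),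
    (∀ p : ℕ, p.Prime → |x * (padicValNat p a : ℝ) + y * (padicValNat p b : ℝ)| * Real.log p ≤ E) →
    |(x : ℝ)| ≤ C * E ∧ |(y : ℝ)| ≤ C * E

/-- APX: a rational approximation. Uses UNI, S2T, VIN. -/
def Stmt_APX : Prop :=
  ∀ (a b s : ℕ) (S : Finset ℕ) (B B₀ B₁ : ℝ), 2 ≤ a → 2 ≤ b → Indep a b →
    (∀ p : ℕ, p.Prime → p ∣ a * b → p ∈ S) → 0 ≤ B → 0 ≤ B₀ → 0 ≤ B₁ →
    ∃ E : ℝ, 0 ≤ E ∧ ∀ (U : Ultrafilter ℕ) (T : ℕ → ℝ) (r d : ℕ) (g : Fin r → ℕ → ℚ)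
      (Z : Fin d → ℕ → ℤ) (ξ Λ : ℝ) (L L' : ℕ → ℕ), Gd U S T g → d ≤ s →
      (∀ᶠ n in (U : Filter ℕ), ∀ i, |(Z i n : ℝ)| ≤ Real.exp (B * T n)) → Indp U g Z →
      Dsc U S T g a Z (fun n => ⌊ξ * (a : ℝ) ^ L n⌋) B₀ →
      Dsc U S T g b Z (fun n => ⌊ξ * (b : ℝ) ^ L' n⌋) B₀ →
      (∃ (κ : ℚ) (e : Fin r → ℤ), 0 < κ ∧
        ∀ᶠ n in (U : Filter ℕ), (a : ℚ) ^ L n = κ * ∏ i, g i n ^ e i) →
      (∃ (κ : ℚ) (e : Fin r → ℤ), 0 < κ ∧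
        ∀ᶠ n in (U : Filter ℕ), (b : ℚ) ^ L' n = κ * ∏ i, g i n ^ e i) →
      (∀ᶠ n in (U : Filter ℕ), |L n * Real.log a - Λ * T n| ≤ B₁ * T n) →
      (∀ᶠ n in (U : Filter ℕ), |L' n * Real.log b - Λ * T n| ≤ B₁ * T n) →
      ∃ (X : ℕ → ℤ) (Q : ℕ → ℕ), ∀ᶠ n in (U : Filter ℕ), 0 < Q n ∧
        (Q n : ℝ) ≤ Real.exp (E * T n) ∧ |ξ - X n / Q n| ≤ Real.exp ((E - Λ) * T n)

/-- COR: the core theorem. Uses BAS, INI, ELM, APX. -/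
def Stmt_COR : Prop :=
  ∀ (bs : Fin 2 → ℕ) (ξ : ℝ) (μ : ℕ), (∀ r, 2 ≤ bs r) → Indep (bs 0) (bs 1) → Meas ξ μ →
    ∀ (s : ℕ) (B : ℝ), 0 ≤ B → ∃ Λ : ℝ, B + 1 ≤ Λ ∧
      ∀ (U : Ultrafilter ℕ) (T : ℕ → ℝ) (y : Fin s → ℕ → ℤ) (L : Fin 2 → ℕ → ℕ)
        (N : ℕ) (C : ℝ) (c₀ : Fin 2 → Fin N → ℤ) (m₀ : Fin 2 → Fin N → ℕ → ℕ)
        (c : Fin 2 → Fin s → Fin N → ℤ) (m : Fin 2 → Fin s → Fin N → ℕ → ℕ),
        Tendsto T (U : Filter ℕ) atTop →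
        (∀ᶠ n in (U : Filter ℕ), ∀ i, |(y i n : ℝ)| ≤ Real.exp (B * T n)) →
        (∀ r, ∀ᶠ n in (U : Filter ℕ), |L r n * Real.log (bs r) - Λ * T n| ≤ B * T n) →
        (∀ r, ∀ᶠ n in (U : Filter ℕ),
          (∑ t, c₀ r t * (bs r : ℤ) ^ m₀ r t n) * ⌊ξ * (bs r : ℝ) ^ L r n⌋ =
            ∑ i, (∑ t, c r i t * (bs r : ℤ) ^ m r i t n) * y i n) →
        (∀ r, ∀ᶠ n in (U : Filter ℕ), ∑ t, c₀ r t * (bs r : ℤ) ^ m₀ r t n ≠ 0) →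
        (∀ r t, ∀ᶠ n in (U : Filter ℕ),
          (m₀ r t n : ℝ) * Real.log (bs r) ≤ B * T n) →
        (∀ r i t, ∀ᶠ n in (U : Filter ℕ), (m r i t n : ℝ) ≤ C * T n) → False

/-! ## E. Words -/

/-- FWL: the theorem of Fine and Wilf. Uses nothing. -/
def Stmt_FWL : Prop :=
  ∀ (u : ℕ → ℕ) (x y p q : ℕ), 1 ≤ p → 1 ≤ q → x + p + q ≤ y →
    (∀ i, x ≤ i → i + p < y → u i = u (i + p)) →
    (∀ i, x ≤ i → i + q < y → u i = u (i + q)) →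
    ∀ i, x ≤ i → i + Nat.gcd p q < y → u i = u (i + Nat.gcd p q)

/-- TYC: the number of types. Uses nothing. -/
def Stmt_TYC : Prop :=
  ∀ (u : ℕ → ℕ) (m X : ℕ), (Set.range u).Finite →
    nbl u m X ≤ nbl u (m + 1) X ∧
    (blk u (m + 1) '' {i | Spe u m X i}).ncard ≤ 2 * (nbl u (m + 1) X - nbl u m X)

/-- DTM: determinism. Uses nothing. -/
def Stmt_DTM : Prop :=
  ∀ (u : ℕ → ℕ) (m X i j t : ℕ), Spe u m X i → Spe u m X j →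
    blk u (m + 1) i = blk u (m + 1) j → i + t < X → j + t < X → 1 ≤ t →
    (∀ l, 1 ≤ l → l < t → ¬ Spe u m X (i + l)) →
    blk u (m + t) i = blk u (m + t) j ∧ (Spe u m X (i + t) ↔ Spe u m X (j + t))

/-- SPX: special places or a period. Uses nothing. -/
def Stmt_SPX : Prop :=
  ∀ (u : ℕ → ℕ) (m X z h : ℕ), nbl u m X ≤ h → z + h < X →
    (∃ x, z ≤ x ∧ x ≤ z + h ∧ Spe u m X x) ∨
    ∃ per, 1 ≤ per ∧ per ≤ h ∧ (∀ i, z + h ≤ i → i + per < X + m → u i = u (i + per)) ∧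
      ∀ i, z ≤ i → ¬ Spe u m X i

/-- RTN: returns. `β` enumerates the special places, the type of `k` is `blk u (m + 1) (β k)`.
Uses FWL, DTM. -/
def Stmt_RTN : Prop :=
  ∀ (u : ℕ → ℕ) (m X K D : ℕ) (β : ℕ → ℕ), (∀ i j, i < j → j < K → β i < β j) →
    (∀ x, Spe u m X x ↔ ∃ k < K, β k = x) → 2 * D ≤ m →
    -- the first return depends only on the type
    (∀ k k' l l', k < k' → k' < K → l < l' → l' < K →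
      blk u (m + 1) (β k) = blk u (m + 1) (β k') → blk u (m + 1) (β l) = blk u (m + 1) (β l') →
      blk u (m + 1) (β k) = blk u (m + 1) (β l) → β k' ≤ β k + D → β l' ≤ β l + D →
      (∀ j, k < j → j < k' → blk u (m + 1) (β k) ≠ blk u (m + 1) (β j)) →
      (∀ j, l < j → j < l' → blk u (m + 1) (β l) ≠ blk u (m + 1) (β j)) →
      β k' + β l = β l' + β k) ∧
    -- the types between two returns are different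
    (∀ k k', k < k' → k' < K → blk u (m + 1) (β k) = blk u (m + 1) (β k') → β k' ≤ β k + D →
      (∀ j, k < j → j < k' → blk u (m + 1) (β k) ≠ blk u (m + 1) (β j)) →
      ∀ i j, k ≤ i → i < j → j < k' → blk u (m + 1) (β i) ≠ blk u (m + 1) (β j)) ∧
    -- periodicity of the types between a place and a later place of the same type
    (∀ k k' k'', k < k' → k' ≤ k'' → k'' < K →
      blk u (m + 1) (β k) = blk u (m + 1) (β k') → blk u (m + 1) (β k) = blk u (m + 1) (β k'') →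
      β k'' ≤ β k + D →
      (∀ j, k < j → j < k' → blk u (m + 1) (β k) ≠ blk u (m + 1) (β j)) →
      ∀ l, k ≤ l → l + (k' - k) ≤ k'' →
        blk u (m + 1) (β l) = blk u (m + 1) (β (l + (k' - k))))

/-- PCS: a sequence of types is a union of few pieces. `ty` = types, `β` = places. Uses
nothing. -/
def Stmt_PCS : Prop :=
  ∀ (E D X K : ℕ) (ty : ℕ → Fin E) (β : ℕ → ℕ), 1 ≤ D → (∀ i j, i < j → j ≤ K → β i < β j) →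
    (∀ i ≤ K, β i < X) →
    (∀ k k', k < k' → k' ≤ K → ty k = ty k' → β k' ≤ β k + D →
      (∀ j, k < j → j < k' → ty k ≠ ty j) → ∀ i j, k ≤ i → i < j → j < k' → ty i ≠ ty j) →
    (∀ k k' k'', k < k' → k' ≤ k'' → k'' ≤ K → ty k = ty k' → ty k = ty k'' →
      β k'' ≤ β k + D → (∀ j, k < j → j < k' → ty k ≠ ty j) →
      ∀ l, k ≤ l → l + (k' - k) ≤ k'' → ty l = ty (l + (k' - k))) →
    ∃ (s : ℕ) (κ : ℕ → ℕ), s ≤ (E + 1) * (X / D + 2) ∧ κ 0 = 0 ∧ κ s = K ∧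
      (∀ i < s, κ i < κ (i + 1)) ∧
      ∀ i < s, κ (i + 1) = κ i + 1 ∨
        ∃ r, 1 ≤ r ∧ r ≤ E ∧ κ i + r ≤ κ (i + 1) ∧ β (κ i + r) ≤ β (κ i) + D ∧
          ty (κ i) = ty (κ i + r) ∧ (∀ j, κ i < j → j < κ i + r → ty (κ i) ≠ ty j) ∧
          ∀ l, κ i ≤ l → l + r < κ (i + 1) → ty l = ty (l + r)

/-- RPA: arithmetic of `Rep`. Uses nothing. -/
def Stmt_RPA : Prop :=
  (∀ a N N' M F G, Rep a N M F → Rep a N' M G → Rep a (N + N') M (F + G)) ∧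
  (∀ a N N' M M' F G, Rep a N M F → Rep a N' M' G → Rep a (N * N') (M + M') (F * G)) ∧
  (∀ a N N' M M' F, N ≤ N' → M ≤ M' → Rep a N M F → Rep a N' M' F) ∧
  (∀ a k : ℕ, Rep a 1 k ((a : ℤ) ^ k)) ∧ (∀ a N M, Rep a N M 0) ∧
  (∀ a N M F, Rep a N M F → Rep a N M (-F)) ∧
  ∀ (a E : ℕ) (q : Fin E → ℕ), Rep a (2 ^ E) (∑ i, q i) (∏ i, ((a : ℤ) ^ q i - 1))

/-- VPC: the value of a periodic piece. `V i j` = value of the word between the places `i` and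
`j`. Uses RPA. -/
def Stmt_VPC : Prop :=
  ∀ (a E i k r M : ℕ) (ty : ℕ → Fin E) (β : ℕ → ℕ) (y : Fin E → ℤ) (len q : Fin E → ℕ),
    1 ≤ r → r ≤ E → i + r ≤ k → (∀ l, i ≤ l → l < k → β (l + 1) = β l + len (ty l)) →
    β k ≤ M → β (i + r) = β i + q (ty i) → (∀ l, i ≤ l → l + r < k → ty l = ty (l + r)) →
    ∃ F : Fin E → ℤ, (∀ t, Rep a (4 * E) (2 * M) (F t)) ∧
      ((a : ℤ) ^ q (ty i) - 1) *
        ∑ l ∈ Finset.Ico i k, (a : ℤ) ^ (β k - β (l + 1)) * y (ty l) = ∑ t, F t * y t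

/-- STV: the value of a prefix. Uses RPA, VPC, PCS. -/
def Stmt_STV : Prop :=
  ∀ (E G : ℕ), ∃ N : ℕ, ∀ (a D X K M : ℕ) (ty : ℕ → Fin E) (β : ℕ → ℕ) (y : Fin E → ℤ)
    (len q : Fin E → ℕ) (P : ℕ → ℤ), 2 ≤ a → 1 ≤ D → X ≤ G * D →
    (∀ t, 1 ≤ q t ∧ q t ≤ D) → (∀ l < K, β (l + 1) = β l + len (ty l)) →
    (∀ l < K, 1 ≤ len (ty l)) → β K < X → X + E * D ≤ M →
    (∀ l < K, P (l + 1) = (a : ℤ) ^ len (ty l) * P l + y (ty l)) →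
    (∀ k k', k < k' → k' ≤ K → ty k = ty k' → β k' ≤ β k + D →
      (∀ j, k < j → j < k' → ty k ≠ ty j) →
      β k' = β k + q (ty k) ∧ ∀ i j, k ≤ i → i < j → j < k' → ty i ≠ ty j) →
    (∀ k k' k'', k < k' → k' ≤ k'' → k'' ≤ K → ty k = ty k' → ty k = ty k'' →
      β k'' ≤ β k + D → (∀ j, k < j → j < k' → ty k ≠ ty j) →
      ∀ l, k ≤ l → l + (k' - k) ≤ k'' → ty l = ty (l + (k' - k))) →
    ∃ (F₀ : ℤ) (F : Fin E → ℤ), Rep a N (3 * M) F₀ ∧ (∀ t, Rep a N (3 * M) (F t)) ∧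
      (∏ t, ((a : ℤ) ^ q t - 1)) * P K = F₀ * P 0 + ∑ t, F t * y t

/-- STF: the structure theorem. Uses TYC, DTM, SPX, RTN, STV. -/
def Stmt_STF : Prop :=
  ∀ C : ℕ, ∃ s B : ℕ, ∀ Λ : ℕ, ∃ N : ℕ, ∀ (a n : ℕ) (u : ℕ → ℕ) (P : ℕ → ℤ), 2 ≤ a → 8 ≤ n →
    (∀ i, u i < a) → (∀ i, P (i + 1) = a * P i + u i) → nbl u n (Λ * n) ≤ C * n →
    ∃ (m : ℕ) (q : Fin s → ℕ) (y : Fin s → ℤ), n ≤ 2 * m ∧ m ≤ n ∧
      (∀ i, 1 ≤ q i ∧ q i ≤ n) ∧ (∀ i, |y i| ≤ (|P 0| + 1) * (a : ℤ) ^ (B * n)) ∧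
      (∀ x, Spe u m (Λ * n) x → ∃ F : Fin s → ℤ, (∀ i, Rep a N (N * n) (F i)) ∧
        (∏ i, ((a : ℤ) ^ q i - 1)) * P (x + m) = ∑ i, F i * y i) ∧
      ∀ z, z + B * n < Λ * n →
        (∃ x, z ≤ x ∧ x ≤ z + B * n ∧ Spe u m (Λ * n) x) ∨
        ∃ per, 1 ≤ per ∧ per ≤ B * n ∧
          ∀ i, z + B * n ≤ i → i + per < Λ * n → u i = u (i + per)

/-! ## F. The theorems -/

/-- DGT: digits. Uses nothing. -/
def Stmt_DGT : Prop :=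
  ∀ (b : ℕ) (x : ℝ), 2 ≤ b → (∀ i, 0 ≤ dig b x i ∧ dig b x i < b) ∧
    (∀ i, ⌊x * (b : ℝ) ^ (i + 1)⌋ = b * ⌊x * (b : ℝ) ^ i⌋ + dig b x (i + 1)) ∧
    (∀ n X, cnt b x n X = nbl (fun i => (dig b x (i + 1)).toNat) n X) ∧
    -- a long periodic part gives a good rational approximation
    ∀ z per Y : ℕ, 1 ≤ per → (∀ i, z ≤ i → i + per < Y →
      dig b x (i + 1) = dig b x (i + 1 + per)) → z + per ≤ Y →
      ∃ p : ℤ, |x - p / ((b : ℝ) ^ z * ((b : ℝ) ^ per - 1))| ≤ 2 / (b : ℝ) ^ Y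

/-- CPX: block complexity in two bases. Uses COR, STF, DGT. -/
def Stmt_CPX : Prop :=
  ∀ (a b : ℕ) (ξ : ℝ) (μ : ℕ), 2 ≤ a → 2 ≤ b → Indep a b → Meas ξ μ →
    ∀ C : ℕ, ∃ Λ : ℕ, ∀ᶠ n in atTop, C * n ≤ cnt a ξ n (Λ * n) + cnt b ξ n (Λ * n)

/-- CHW: digit changes in a window. Uses COR, DGT. -/
def Stmt_CHW : Prop :=
  ∀ (a b : ℕ) (ξ : ℝ) (μ : ℕ), 2 ≤ a → 2 ≤ b → Indep a b → Meas ξ μ →
    ∃ Λ : ℕ, 2 ≤ Λ ∧ ∀ N : ℕ, ∀ᶠ n in atTop,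
      chg a ξ n + chg b ξ n + N ≤ chg a ξ (Λ * n) + chg b ξ (Λ * n)

/-- CHG: the number of digit changes. Uses CHW. -/
def Stmt_CHG : Prop :=
  ∀ (a b : ℕ) (ξ : ℝ) (μ : ℕ), 2 ≤ a → 2 ≤ b → Indep a b → Meas ξ μ →
    ∀ K : ℝ, ∀ᶠ X : ℕ in atTop, K * Real.log X ≤ chg a ξ X + chg b ξ X

end Pool.Agent.SBT
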