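import Pool.Agent.SBT.Api
import Pool.Agent.SBT.Stmts
import Pool.Agent.SBT.StmtsD

/-!
# S2T: a linear form in independent integers with unit coefficients is not small
-/

set_option autoImplicit false

namespace Pool.Agent.SBT

open Filter

namespace S2Tp

theorem exmax {α : Type} {lt : α → α → Prop} (h : IsStrictTotalOrder α lt) (s : Finset α)
    (hs : s.Nonempty) : ∃ a ∈ s, ∀ b ∈ s, b = a ∨ lt b a := by
  classical
  induction hs using Finset.Nonempty.cons_induction with
  | singleton a => exact ⟨a, by simp, by simp⟩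
  | cons a s ha hs ih =>
    obtain ⟨m, hm, hmax⟩ := ih
    rcases trichotomous_of lt a m with h1 | h1 | h1
    · refine ⟨m, Finset.mem_cons_of_mem hm, fun b hb => ?_⟩
      rcases Finset.mem_cons.mp hb with rfl | hb
      · exact Or.inr h1
      · exact hmax b hb
    · exact absurd (h1 ▸ hm) ha
    · refine ⟨a, Finset.mem_cons_self a s, fun b hb => ?_⟩
      rcases Finset.mem_cons.mp hb with rfl | hb
      · exact Or.inl rfl
      · rcases hmax b hb with rfl | hbm
        · exact Or.inr h1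
        · exact Or.inr (trans_of lt hbm h1)

theorem mon_add {r : ℕ} (g : Fin r → ℕ → ℚ) (e f : Fin r →₀ ℕ) (n : ℕ) :
    mon g (e + f) n = mon g e n * mon g f n := by
  simp only [mon, Finsupp.add_apply, pow_add, Finset.prod_mul_distrib]

theorem mon_isU {S : Finset ℕ} (hS : PS S) {r : ℕ} {g : Fin r → ℕ → ℚ}
    (hg : ∀ i n, IsU S (g i n)) (e : Fin r →₀ ℕ) (n : ℕ) : IsU S (mon g e n) :=
  isU_prod hS _ _ fun i _ => (hg i n).pow hS _

theorem ev_eq {r : ℕ} (g : Fin r → ℕ → ℚ) (n : ℕ) (H : MvPolynomial (Fin r) ℚ)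
    (s : Finset (Fin r →₀ ℕ)) (hs : H.support ⊆ s) :
    ev g n H = ∑ e ∈ s, MvPolynomial.coeff e H * mon g e n := by
  unfold ev
  rw [MvPolynomial.eval_eq']
  refine Finset.sum_subset hs fun e _ he => ?_
  rw [MvPolynomial.notMem_support_iff.mp he, zero_mul]

theorem ev_mul {r : ℕ} (g : Fin r → ℕ → ℚ) (n : ℕ) (H H' : MvPolynomial (Fin r) ℚ) :
    ev g n (H * H') = ev g n H * ev g n H' := by
  unfold ev
  rw [map_mul]

theorem ev_monomial {r : ℕ} (g : Fin r → ℕ → ℚ) (n : ℕ) (f : Fin r →₀ ℕ) (q : ℚ) :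
    ev g n (MvPolynomial.monomial f q) = q * mon g f n := by
  unfold ev
  rw [MvPolynomial.eval_monomial, Finsupp.prod_fintype _ _ (by simp)]
  rfl

/-- the polynomials with given coefficients -/
noncomputable def pol {r d : ℕ} {E : Finset (Fin r →₀ ℕ)} (c : Fin d × {e // e ∈ E} → ℚ)
    (i : Fin d) : MvPolynomial (Fin r) ℚ :=
  ∑ e : {e // e ∈ E}, MvPolynomial.monomial e.1 (c (i, e))

theorem coeff_pol {r d : ℕ} {E : Finset (Fin r →₀ ℕ)} (c : Fin d × {e // e ∈ E} → ℚ)
    (i : Fin d) (e : {e // e ∈ E}) : MvPolynomial.coeff e.1 (pol c i) = c (i, e) := by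
  classical
  unfold pol
  rw [MvPolynomial.coeff_sum, Finset.sum_eq_single e]
  · rw [MvPolynomial.coeff_monomial, if_pos rfl]
  · intro e' _ hne
    rw [MvPolynomial.coeff_monomial, if_neg fun h => hne (Subtype.ext h)]
  · intro h
    exact absurd (Finset.mem_univ e) h

theorem ev_pol {r d : ℕ} {E : Finset (Fin r →₀ ℕ)} (g : Fin r → ℕ → ℚ) (n : ℕ)
    (c : Fin d × {e // e ∈ E} → ℚ) (i : Fin d) :
    ev g n (pol c i) = ∑ e : {e // e ∈ E}, c (i, e) * mon g e.1 n := by
  unfold pol ev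
  rw [map_sum]
  refine Finset.sum_congr rfl fun e _ => ?_
  exact ev_monomial g n e.1 _

/-- the basic family -/
noncomputable def y {r d : ℕ} (E : Finset (Fin r →₀ ℕ)) (g : Fin r → ℕ → ℚ)
    (Z : Fin d → ℕ → ℤ) (k : Fin d × {e // e ∈ E}) (n : ℕ) : ℚ := mon g k.2.1 n * (Z k.1 n : ℚ)

theorem y_sum {r d : ℕ} {E : Finset (Fin r →₀ ℕ)} (g : Fin r → ℕ → ℚ) (Z : Fin d → ℕ → ℤ)
    (c : Fin d × {e // e ∈ E} → ℚ) (n : ℕ) :
    ∑ k, c k * y E g Z k n = ∑ i, ev g n (pol c i) * (Z i n : ℚ) := by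
  rw [Fintype.sum_prod_type]
  refine Finset.sum_congr rfl fun i _ => ?_
  rw [ev_pol, Finset.sum_mul]
  refine Finset.sum_congr rfl fun e _ => ?_
  unfold y
  ring

theorem y_ind {U : Ultrafilter ℕ} {r d : ℕ} {E : Finset (Fin r →₀ ℕ)} {g : Fin r → ℕ → ℚ}
    {Z : Fin d → ℕ → ℤ} (hI : Indp U g Z) (c : Fin d × {e // e ∈ E} → ℚ)
    (h : ∀ᶠ n in (U : Filter ℕ), ∑ k, c k * y E g Z k n = 0) (k : Fin d × {e // e ∈ E}) :
    c k = 0 := by
  have h1 := hI (fun i => pol c i) ?_
  · have h2 := congrFun h1 k.1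
    have h3 := coeff_pol c k.1 k.2
    rw [show pol c k.1 = 0 from h2, MvPolynomial.coeff_zero] at h3
    exact h3.symm
  · filter_upwards [h] with n hn
    rw [← y_sum]
    exact hn

section fam

variable {U : Ultrafilter ℕ} {K J : Type} [Fintype K]

/-- independence of a family of constant combinations -/
theorem LI_of {yy : K → ℕ → ℚ}
    (hy : ∀ c : K → ℚ, (∀ᶠ n in (U : Filter ℕ), ∑ k, c k * yy k n = 0) → ∀ k, c k = 0)
    (A : J → K → ℚ) (x : J → ℕ → ℚ) (hx : ∀ j n, x j n = ∑ k, A j k * yy k n) (B : Finset J)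
    (hB : ∀ c : J → ℚ, (∀ k, ∑ j ∈ B, c j * A j k = 0) → ∀ j ∈ B, c j = 0) : LI U x B := by
  intro c hc
  refine hB c ?_
  refine hy (fun k => ∑ j ∈ B, c j * A j k) ?_
  filter_upwards [hc] with n hn
  rw [← hn]
  calc ∑ k, (∑ j ∈ B, c j * A j k) * yy k n = ∑ k, ∑ j ∈ B, c j * (A j k * yy k n) := by
        refine Finset.sum_congr rfl fun k _ => ?_
        rw [Finset.sum_mul]
        refine Finset.sum_congr rfl fun j _ => ?_
        ring
    _ = ∑ j ∈ B, ∑ k, c j * (A j k * yy k n) := Finset.sum_comm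
    _ = ∑ j ∈ B, c j * x j n := by
        refine Finset.sum_congr rfl fun j _ => ?_
        rw [← Finset.mul_sum, hx]

/-- independent sets of combinations have at most `card K` elements -/
theorem LI_card (yy : K → ℕ → ℚ) (A : J → K → ℚ) (x : J → ℕ → ℚ)
    (hx : ∀ j n, x j n = ∑ k, A j k * yy k n) (B : Finset J) (hB : LI U x B) :
    B.card ≤ Fintype.card K := by
  classical
  have h1 : LinearIndependent ℚ (fun j : {j // j ∈ B} => A j.1) := by
    rw [Fintype.linearIndependent_iff]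
    intro c hc j
    set c' : J → ℚ := fun j => if h : j ∈ B then c ⟨j, h⟩ else 0 with hc'
    have h2 : ∀ k, ∑ j ∈ B, c' j * A j k = 0 := by
      intro k
      have h3 := congrFun hc k
      rw [Finset.sum_apply] at h3
      rw [← Finset.sum_coe_sort B (fun j => c' j * A j k)]
      rw [Pi.zero_apply] at h3
      rw [← h3]
      refine Finset.sum_congr rfl fun j _ => ?_
      simp [hc']
    have h4 := hB c' ?_ j.1 j.2
    · simpa [hc'] using h4
    · refine Filter.Eventually.of_forall fun n => ?_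
      calc ∑ j ∈ B, c' j * x j n = ∑ j ∈ B, ∑ k, c' j * A j k * yy k n := by
            refine Finset.sum_congr rfl fun j _ => ?_
            rw [hx, Finset.mul_sum]
            refine Finset.sum_congr rfl fun k _ => ?_
            ring
        _ = ∑ k, ∑ j ∈ B, c' j * A j k * yy k n := Finset.sum_comm
        _ = 0 := by
            refine Finset.sum_eq_zero fun k _ => ?_
            rw [← Finset.sum_mul, h2 k, zero_mul]
  have h5 := h1.fintype_card_le_finrank
  rw [Module.finrank_fintype_fun_eq_card, Fintype.card_coe] at h5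
  exact h5

end fam

theorem exq {r d : ℕ} (D : Fin d → MvPolynomial (Fin r) ℚ) :
    ∃ q : ℕ, 0 < q ∧ ∀ i e, ∃ z : ℤ, (q : ℚ) * MvPolynomial.coeff e (D i) = z := by
  classical
  refine ⟨∏ i, ∏ e ∈ (D i).support, (MvPolynomial.coeff e (D i)).den,
    Finset.prod_pos fun i _ => Finset.prod_pos fun e _ => Rat.pos _, fun i e => ?_⟩
  by_cases he : e ∈ (D i).support
  · have h1 : (MvPolynomial.coeff e (D i)).den ∣
        ∏ i, ∏ e ∈ (D i).support, (MvPolynomial.coeff e (D i)).den :=
      (Finset.dvd_prod_of_mem (fun e => (MvPolynomial.coeff e (D i)).den) he).trans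
        (Finset.dvd_prod_of_mem (fun i => ∏ e ∈ (D i).support,
          (MvPolynomial.coeff e (D i)).den) (Finset.mem_univ i))
    obtain ⟨w, hw⟩ := h1
    refine ⟨w * (MvPolynomial.coeff e (D i)).num, ?_⟩
    rw [hw]
    push_cast
    have h2 := Rat.mul_den_eq_num (MvPolynomial.coeff e (D i))
    calc ((MvPolynomial.coeff e (D i)).den : ℚ) * w * MvPolynomial.coeff e (D i)
        = w * (MvPolynomial.coeff e (D i) * (MvPolynomial.coeff e (D i)).den) := by ring
      _ = w * ((MvPolynomial.coeff e (D i)).num : ℚ) := by rw [h2]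
  · refine ⟨0, ?_⟩
    rw [MvPolynomial.notMem_support_iff.mp he]
    simp

/-- growth of the monomials -/
theorem mon_le {U : Ultrafilter ℕ} {S : Finset ℕ} {T : ℕ → ℝ} {r : ℕ} {g : Fin r → ℕ → ℚ}
    (hG : Gd U S T g) (h : ℕ) : ∃ C : ℝ, 0 ≤ C ∧ ∀ᶠ n in (U : Filter ℕ),
      ∀ e : Fin r →₀ ℕ, ∑ i, e i ≤ h → ∀ v ∈ pl S, av v (mon g e n) ≤ Real.exp (C * T n) := by
  obtain ⟨C, hC⟩ := hG.height
  refine ⟨max C 0 * h, by positivity, ?_⟩
  filter_upwards [hC, ev_pos hG.lim] with n hn hT e he v hv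
  unfold mon
  rw [av_prod (place_of_mem hG.prime hv)]
  have h1 : ∀ i, av v (g i n ^ (e i)) ≤ Real.exp (max C 0 * T n * e i) := by
    intro i
    rw [av_pow (place_of_mem hG.prime hv), mul_comm (max C 0 * T n), Real.exp_nat_mul]
    refine pow_le_pow_left₀ (av_nonneg _ _) ((hn i v hv).trans ?_) _
    apply Real.exp_le_exp.mpr
    exact mul_le_mul_of_nonneg_right (le_max_left _ _) hT.le
  calc ∏ i, av v (g i n ^ (e i)) ≤ ∏ i, Real.exp (max C 0 * T n * e i) :=
        Finset.prod_le_prod (fun i _ => av_nonneg _ _) fun i _ => h1 i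
    _ = Real.exp (∑ i, max C 0 * T n * e i) := (Real.exp_sum _ _).symm
    _ ≤ Real.exp (max C 0 * h * T n) := by
        apply Real.exp_le_exp.mpr
        rw [← Finset.mul_sum]
        have h2 : (∑ i, (e i : ℝ)) ≤ h := by exact_mod_cast he
        have h3 : 0 ≤ max C 0 * T n := mul_nonneg (le_max_right _ _) hT.le
        calc max C 0 * T n * ∑ i, (e i : ℝ) ≤ max C 0 * T n * h :=
              mul_le_mul_of_nonneg_left h2 h3
          _ = max C 0 * h * T n := by ring

/-- growth of a family of combinations -/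
theorem fam_le {U : Ultrafilter ℕ} {S : Finset ℕ} {T : ℕ → ℝ} (hS : PS S)
    (hT : Tendsto T (U : Filter ℕ) atTop) {K J : Type} [Fintype K] [Fintype J]
    (yy : K → ℕ → ℚ) (A : J → K → ℚ) (x : J → ℕ → ℚ)
    (hx : ∀ j n, x j n = ∑ k, A j k * yy k n) (C : ℝ)
    (hy : ∀ᶠ n in (U : Filter ℕ), ∀ k, ∀ v ∈ pl S, av v (yy k n) ≤ Real.exp (C * T n)) :
    ∀ᶠ n in (U : Filter ℕ), ∀ j, ∀ v ∈ pl S, av v (x j n) ≤ Real.exp ((C + 1) * T n) := by
  set M : ℝ := ∑ j, ∑ k, ∑ v ∈ pl S, av v (A j k) with hM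
  filter_upwards [hy, ev_const_le_exp hT one_pos M] with n hn hMn j v hv
  rw [hx]
  have hp := place_of_mem hS hv
  calc av v (∑ k, A j k * yy k n) ≤ ∑ k, av v (A j k * yy k n) := av_sum_le hp _ _
    _ ≤ ∑ k, av v (A j k) * Real.exp (C * T n) := by
        refine Finset.sum_le_sum fun k _ => ?_
        rw [av_mul hp]
        exact mul_le_mul_of_nonneg_left (hn k v hv) (av_nonneg _ _)
    _ = (∑ k, av v (A j k)) * Real.exp (C * T n) := by rw [Finset.sum_mul]
    _ ≤ M * Real.exp (C * T n) := by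
        refine mul_le_mul_of_nonneg_right ?_ (Real.exp_pos _).le
        calc ∑ k, av v (A j k) ≤ ∑ k, ∑ v ∈ pl S, av v (A j k) :=
              Finset.sum_le_sum fun k _ => Finset.single_le_sum
                (f := fun v => av v (A j k)) (fun _ _ => av_nonneg _ _) hv
          _ ≤ M := Finset.single_le_sum (f := fun j => ∑ k, ∑ v ∈ pl S, av v (A j k))
                (fun _ _ => Finset.sum_nonneg fun _ _ => Finset.sum_nonneg fun _ _ =>
                  av_nonneg _ _) (Finset.mem_univ j)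
    _ ≤ Real.exp (1 * T n) * Real.exp (C * T n) :=
        mul_le_mul_of_nonneg_right hMn (Real.exp_pos _).le
    _ = Real.exp ((C + 1) * T n) := by rw [← Real.exp_add]; ring_nf

/-- the leading term -/
theorem core (hSBB : Stmt_SBB) (hSIM : Stmt_SIM) (hLTM : Stmt_LTM) (U : Ultrafilter ℕ)
    (S : Finset ℕ) (T : ℕ → ℝ) (r d : ℕ) (g : Fin r → ℕ → ℚ) (Z : Fin d → ℕ → ℤ) (B δ : ℝ)
    (D : Fin d → MvPolynomial (Fin r) ℚ) (hG : Gd U S T g) (hB : 0 ≤ B) (hδ : 0 < δ)
    (hZ : ∀ᶠ n in (U : Filter ℕ), ∀ i, |(Z i n : ℝ)| ≤ Real.exp (B * T n))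
    (hI : Indp U g Z) (lt : (Fin r →₀ ℕ) → (Fin r →₀ ℕ) → Prop)
    (hlt : IsStrictTotalOrder (Fin r →₀ ℕ) lt)
    (hadd : ∀ e e' f, lt e e' → lt (e + f) (e' + f)) (i₀ : Fin d) (a : Fin r →₀ ℕ)
    (ha : a ∈ (D i₀).support) (hmax : ∀ e ∈ (D i₀).support, e = a ∨ lt e a) :
    ∀ᶠ n in (U : Filter ℕ), av 0 (mon g a n) ≤
        Real.exp ((d * B + δ) * T n) * |((∑ i, ev g n (D i) * (Z i n : ℚ) : ℚ) : ℝ)| := by
  classical
  have hS := hG.prime
  obtain ⟨q, hq, hqD⟩ := exq D
  obtain ⟨m, hm⟩ : ∃ m : ℕ, ∀ i, ∀ e ∈ (D i).support, ∑ j, e j ≤ m := by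
    refine ⟨Finset.univ.sup fun i => (D i).support.sup fun e => ∑ j, e j, fun i e he => ?_⟩
    exact (Finset.le_sup (f := fun e : Fin r →₀ ℕ => ∑ j, e j) he).trans
      (Finset.le_sup (f := fun i => (D i).support.sup fun e : Fin r →₀ ℕ => ∑ j, e j)
        (Finset.mem_univ i))
  have hdB : 0 ≤ (d : ℝ) * B := by positivity
  set δ' : ℝ := δ / (4 * (d * B + 1)) with hδ'
  have hδ'p : 0 < δ' := by positivity
  obtain ⟨h, hh⟩ := hSIM.2 r m δ' hδ'p
  have hcard := hh h le_rfl
  set E := Exs r (h + m) with hE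
  set F := Exs r h with hF
  have hEm : ∀ e, e ∈ E ↔ ∑ i, e i ≤ h + m := fun e => hSIM.1 r (h + m) e
  have hFm : ∀ e, e ∈ F ↔ ∑ i, e i ≤ h := fun e => hSIM.1 r h e
  have hFpos : 0 < F.card := by
    refine Finset.card_pos.mpr ⟨0, (hFm 0).mpr (by simp)⟩
  -- the coefficients
  set A : (Fin d × {e // e ∈ E}) ⊕ {f // f ∈ F} → (Fin d × {e // e ∈ E}) → ℚ :=
    Sum.elim (fun k k' => if k' = k then 1 else 0)
      (fun f k => MvPolynomial.coeff k.2.1 (MvPolynomial.monomial f.1 (q : ℚ) * D k.1)) with hA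
  set x : (Fin d × {e // e ∈ E}) ⊕ {f // f ∈ F} → ℕ → ℚ :=
    fun j n => ∑ k, A j k * y E g Z k n with hx
  have hxl : ∀ k n, x (Sum.inl k) n = y E g Z k n := by
    intro k n
    simp [hx, hA]
  have hsub : ∀ (f : {f // f ∈ F}) (i : Fin d),
      (MvPolynomial.monomial f.1 (q : ℚ) * D i).support ⊆ E := by
    intro f i e he
    rw [MvPolynomial.mem_support_iff, MvPolynomial.coeff_monomial_mul'] at he
    by_cases hfe : f.1 ≤ e
    · rw [if_pos hfe] at he
      have h1 : e - f.1 ∈ (D i).support := by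
        rw [MvPolynomial.mem_support_iff]
        exact right_ne_zero_of_mul he
      have h2 := hm i _ h1
      have h3 := (hFm f.1).mp f.2
      rw [hEm]
      have h4 : ∑ j, e j = ∑ j, f.1 j + ∑ j, (e - f.1) j := by
        rw [← Finset.sum_add_distrib]
        refine Finset.sum_congr rfl fun j _ => ?_
        have := hfe j
        rw [Finsupp.tsub_apply]
        omega
      omega
    · rw [if_neg hfe] at he
      exact absurd rfl he
  have hxr : ∀ (f : {f // f ∈ F}) n, x (Sum.inr f) n =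
      (q : ℚ) * mon g f.1 n * ∑ i, ev g n (D i) * (Z i n : ℚ) := by
    intro f n
    have h1 : x (Sum.inr f) n = ∑ i, ev g n (pol (fun k => A (Sum.inr f) k) i) * (Z i n : ℚ) :=
      y_sum g Z (fun k => A (Sum.inr f) k) n
    rw [h1, Finset.mul_sum]
    refine Finset.sum_congr rfl fun i _ => ?_
    have h2 : ev g n (pol (fun k => A (Sum.inr f) k) i) =
        ev g n (MvPolynomial.monomial f.1 (q : ℚ) * D i) := by
      rw [ev_pol, ev_eq g n _ E (hsub f i), ← Finset.sum_coe_sort E]
      rfl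
    rw [h2, ev_mul, ev_monomial]
    ring
  have hAint : ∀ j k, ∃ z : ℤ, A j k = z := by
    rintro (k' | f) k
    · by_cases hk : k = k'
      · exact ⟨1, by simp [hA, hk]⟩
      · exact ⟨0, by simp [hA, hk]⟩
    · simp only [hA, Sum.elim_inr, MvPolynomial.coeff_monomial_mul']
      split
      · exact hqD k.1 _
      · exact ⟨0, by simp⟩
  -- independence
  have hyI : ∀ c : Fin d × {e // e ∈ E} → ℚ,
      (∀ᶠ n in (U : Filter ℕ), ∑ k, c k * y E g Z k n = 0) → ∀ k, c k = 0 :=
    fun c hc k => y_ind hI c hc k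
  have haE : ∀ f : {f // f ∈ F}, a + f.1 ∈ E := by
    intro f
    rw [hEm]
    have h2 := hm i₀ _ ha
    have h3 := (hFm f.1).mp f.2
    have h4 : ∑ j, (a + f.1) j = ∑ j, a j + ∑ j, f.1 j := by
      rw [← Finset.sum_add_distrib]
      rfl
    omega
  set sp : Finset (Fin d × {e // e ∈ E}) :=
    Finset.univ.image (fun f : {f // f ∈ F} => (i₀, (⟨a + f.1, haE f⟩ : {e // e ∈ E}))) with hsp
  have hspinj : Function.Injective
      (fun f : {f // f ∈ F} => ((i₀, (⟨a + f.1, haE f⟩ : {e // e ∈ E})) :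
        Fin d × {e // e ∈ E})) := by
    intro f f' hff
    have h1 : a + f.1 = a + f'.1 := congrArg (fun z => z.2.1) hff
    exact Subtype.ext (add_left_cancel h1)
  have hspcard : sp.card = F.card := by
    rw [hsp, Finset.card_image_of_injective _ hspinj, Finset.card_univ, Fintype.card_coe]
  set B0 : Finset ((Fin d × {e // e ∈ E}) ⊕ {f // f ∈ F}) :=
    (Finset.univ \ sp).disjSum Finset.univ with hB0
  set B1 : Finset ((Fin d × {e // e ∈ E}) ⊕ {f // f ∈ F}) :=
    (Finset.univ : Finset (Fin d × {e // e ∈ E})).disjSum ∅ with hB1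
  have hKcard : Fintype.card (Fin d × {e // e ∈ E}) = d * E.card := by
    rw [Fintype.card_prod, Fintype.card_fin, Fintype.card_coe]
  have hspK : sp.card ≤ d * E.card := by
    rw [← hKcard]
    exact Finset.card_le_univ sp
  have hB0card : B0.card = d * E.card := by
    rw [hB0, Finset.card_disjSum, Finset.card_sdiff_of_subset (Finset.subset_univ sp),
      Finset.card_univ, hKcard, Finset.card_univ, Fintype.card_coe]
    omega
  have hB1card : B1.card = d * E.card := by
    rw [hB1, Finset.card_disjSum, Finset.card_univ, hKcard, Finset.card_empty]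
    omega
  have hLI1 : LI U x B1 := by
    refine LI_of hyI A x (fun j n => rfl) B1 ?_
    intro c hc j hj
    rw [hB1, Finset.mem_disjSum] at hj
    rcases hj with ⟨k, -, rfl⟩ | ⟨f, hf, -⟩
    · have h1 := hc k
      rw [hB1, Finset.sum_disjSum, Finset.sum_empty, add_zero] at h1
      simpa [hA] using h1
    · exact absurd hf (Finset.notMem_empty f)
  have hLI0 : LI U x B0 := by
    refine LI_of hyI A x (fun j n => rfl) B0 ?_
    intro c hc
    have hc' : ∀ k, (∑ k' ∈ Finset.univ \ sp, c (Sum.inl k') * A (Sum.inl k') k) +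
        ∑ f, c (Sum.inr f) * A (Sum.inr f) k = 0 := by
      intro k
      have h1 := hc k
      rw [hB0, Finset.sum_disjSum] at h1
      exact h1
    -- the second part vanishes
    have hr : ∀ f, c (Sum.inr f) = 0 := by
      by_contra hcon
      push Not at hcon
      obtain ⟨f₁, hf₁⟩ := hcon
      set P : MvPolynomial (Fin r) ℚ :=
        ∑ f : {f // f ∈ F}, MvPolynomial.monomial f.1 (c (Sum.inr f)) with hP
      have hPc : ∀ f : {f // f ∈ F}, MvPolynomial.coeff f.1 P = c (Sum.inr f) := by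
        intro f
        rw [hP, MvPolynomial.coeff_sum, Finset.sum_eq_single f]
        · rw [MvPolynomial.coeff_monomial, if_pos rfl]
        · intro e' _ hne
          rw [MvPolynomial.coeff_monomial, if_neg fun h => hne (Subtype.ext h)]
        · intro h
          exact absurd (Finset.mem_univ f) h
      have hPs : ∀ e ∈ P.support, e ∈ F := by
        intro e he
        by_contra hne
        rw [MvPolynomial.mem_support_iff, hP, MvPolynomial.coeff_sum] at he
        apply he
        refine Finset.sum_eq_zero fun f _ => ?_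
        rw [MvPolynomial.coeff_monomial, if_neg]
        rintro rfl
        exact hne f.2
      have hPne : P.support.Nonempty := by
        refine ⟨f₁.1, ?_⟩
        rw [MvPolynomial.mem_support_iff, hPc]
        exact hf₁
      obtain ⟨e, heP, hemax⟩ := exmax hlt P.support hPne
      have heF := hPs e heP
      have h1 := hLTM r lt hlt hadd (D i₀) P a e hmax hemax
      have h2 : MvPolynomial.coeff (a + e) (D i₀ * P) ≠ 0 := by
        rw [h1]
        exact mul_ne_zero (MvPolynomial.mem_support_iff.mp ha)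
          (MvPolynomial.mem_support_iff.mp heP)
      -- evaluate the relation
      set k : Fin d × {e // e ∈ E} := (i₀, ⟨a + e, haE ⟨e, heF⟩⟩) with hk
      have hksp : k ∈ sp := by
        rw [hsp, Finset.mem_image]
        exact ⟨⟨e, heF⟩, Finset.mem_univ _, rfl⟩
      have h3 := hc' k
      have h4 : ∑ k' ∈ Finset.univ \ sp, c (Sum.inl k') * A (Sum.inl k') k = 0 := by
        refine Finset.sum_eq_zero fun k' hk' => ?_
        have h5 : k ≠ k' := by
          rintro rfl
          exact (Finset.mem_sdiff.mp hk').2 hksp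
        simp [hA, h5]
      rw [h4, zero_add] at h3
      have h6 : ∑ f, c (Sum.inr f) * A (Sum.inr f) k =
          q * MvPolynomial.coeff (a + e) (D i₀ * P) := by
        rw [hP, Finset.mul_sum, MvPolynomial.coeff_sum, Finset.mul_sum]
        refine Finset.sum_congr rfl fun f _ => ?_
        have h7 : D i₀ * MvPolynomial.monomial f.1 (c (Sum.inr f)) =
            MvPolynomial.monomial f.1 (c (Sum.inr f)) * D i₀ := mul_comm _ _
        rw [h7, MvPolynomial.coeff_monomial_mul']
        have h8 : A (Sum.inr f) k =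
            if f.1 ≤ a + e then (q : ℚ) * MvPolynomial.coeff (a + e - f.1) (D i₀) else 0 := by
          simp only [hA, Sum.elim_inr, hk]
          rw [MvPolynomial.coeff_monomial_mul']
        rw [h8]
        split <;> ring
      rw [h6] at h3
      have hq0 : (q : ℚ) ≠ 0 := by exact_mod_cast hq.ne'
      exact h2 ((mul_eq_zero.mp h3).resolve_left hq0)
    intro j hj
    rw [hB0, Finset.mem_disjSum] at hj
    rcases hj with ⟨k, hk, rfl⟩ | ⟨f, hf, rfl⟩
    · have h1 := hc' k
      have h2 : ∑ f, c (Sum.inr f) * A (Sum.inr f) k = 0 :=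
        Finset.sum_eq_zero fun f _ => by rw [hr f, zero_mul]
      rw [h2, add_zero, Finset.sum_eq_single k] at h1
      · simpa [hA] using h1
      · intro k' _ hne
        simp [hA, Ne.symm hne]
      · intro h
        exact absurd hk h
    · exact hr f
  -- the Subspace theorem
  obtain ⟨C, hC0, hC⟩ := mon_le hG (h + m)
  have hyle : ∀ᶠ n in (U : Filter ℕ), ∀ k, ∀ v ∈ pl S,
      av v (y E g Z k n) ≤ Real.exp ((C + B) * T n) := by
    filter_upwards [hC, hZ] with n hn hZn k v hv
    have hp := place_of_mem hS hv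
    unfold y
    rw [av_mul hp, add_mul, Real.exp_add]
    refine mul_le_mul (hn k.2.1 ((hEm _).mp k.2.2) v hv) ?_ (av_nonneg _ _)
      (Real.exp_pos _).le
    exact (av_int_le_abs hp _).trans (hZn k.1)
  have hxle := fam_le hS hG.lim (y E g Z) A x (fun j n => rfl) (C + B) hyle
  have hint : ∀ᶠ n in (U : Filter ℕ), ∀ j, ∀ p : ℕ, p.Prime → p ∉ S →
      padicNorm p (x j n) ≤ 1 := by
    refine Filter.Eventually.of_forall fun n j => ?_
    refine SInt.sum _ _ fun k _ => ?_
    obtain ⟨z, hz⟩ := hAint j k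
    rw [hz]
    refine (sInt_int S z).mul ?_
    exact ((mon_isU hS hG.unit _ _).sInt hS).mul (sInt_int S _)
  have hsbb := hSBB S U T ((Fin d × {e // e ∈ E}) ⊕ {f // f ∈ F}) x
    (fun v => if v = 0 then B0 else B1) (d * E.card) (C + B + 1) (δ / 4) hS hG.lim hint hxle
    (by
      intro v _
      by_cases hv0 : v = 0
      · simp only [hv0, if_true]
        exact ⟨hLI0, hB0card⟩
      · simp only [hv0, if_false]
        exact ⟨hLI1, hB1card⟩)
    (by
      intro B' hB'
      have := LI_card (y E g Z) A x (fun j n => rfl) B' hB'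
      rw [hKcard] at this
      exact this) (by positivity)
  filter_upwards [hsbb, hZ, ev_const_le_exp hG.lim (by positivity : 0 < δ / 4) (q : ℝ),
    ev_pos hG.lim] with n hn hZn hqn hTn
  set Dn : ℝ := |((∑ i, ev g n (D i) * (Z i n : ℚ) : ℚ) : ℝ)| with hDn
  have hDn0 : 0 ≤ Dn := abs_nonneg _
  set G0 : (Fin r →₀ ℕ) → ℝ := fun e => av 0 (mon g e n) with hG0
  have hmne : ∀ e, mon g e n ≠ 0 := fun e => (mon_isU hS hG.unit e n).ne_zero
  have hG0pos : ∀ e, 0 < G0 e := fun e => av_pos (Or.inl rfl) (hmne e)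
  -- the infinite place
  have hinf : ∏ j ∈ B0, av 0 (x j n) ≤
      (∏ k : Fin d × {e // e ∈ E}, G0 k.2.1) *
        (Real.exp (B * T n) ^ (d * E.card - F.card) * ((q : ℝ) * Dn / G0 a) ^ F.card) := by
    rw [hB0, Finset.prod_disjSum]
    have h1 : ∏ k ∈ Finset.univ \ sp, av 0 (x (Sum.inl k) n) ≤
        (∏ k ∈ Finset.univ \ sp, G0 k.2.1) * Real.exp (B * T n) ^ (d * E.card - F.card) := by
      calc ∏ k ∈ Finset.univ \ sp, av 0 (x (Sum.inl k) n)
          ≤ ∏ k ∈ Finset.univ \ sp, (G0 k.2.1 * Real.exp (B * T n)) := by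
            refine Finset.prod_le_prod (fun k _ => av_nonneg _ _) fun k _ => ?_
            rw [hxl]
            unfold y
            rw [av_mul (Or.inl rfl)]
            refine mul_le_mul_of_nonneg_left ?_ (hG0pos _).le
            exact (av_int_le_abs (Or.inl rfl) _).trans (hZn k.1)
        _ = _ := by
            rw [Finset.prod_mul_distrib, Finset.prod_const,
              Finset.card_sdiff_of_subset (Finset.subset_univ sp), Finset.card_univ, hKcard,
              hspcard]
    have h2 : ∏ f : {f // f ∈ F}, av 0 (x (Sum.inr f) n) =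
        (∏ k ∈ sp, G0 k.2.1) * ((q : ℝ) * Dn / G0 a) ^ F.card := by
      have h3 : ∏ k ∈ sp, G0 k.2.1 = ∏ f : {f // f ∈ F}, (G0 a * G0 f.1) := by
        rw [hsp, Finset.prod_image fun _ _ _ _ h => hspinj h]
        refine Finset.prod_congr rfl fun f _ => ?_
        show av 0 (mon g (a + f.1) n) = _
        rw [mon_add, av_mul (Or.inl rfl)]
      have h4 : ((q : ℝ) * Dn / G0 a) ^ F.card =
          ∏ f : {f // f ∈ F}, ((q : ℝ) * Dn / G0 a) := by
        rw [Finset.prod_const, Finset.card_univ, Fintype.card_coe]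
      rw [h3, h4, ← Finset.prod_mul_distrib]
      refine Finset.prod_congr rfl fun f _ => ?_
      rw [hxr, av_mul (Or.inl rfl), av_mul (Or.inl rfl)]
      have h5 : av 0 (q : ℚ) = q := by
        rw [av_zero_eq]
        simp
      have h6 : av 0 (∑ i, ev g n (D i) * (Z i n : ℚ)) = Dn := av_zero_eq _
      rw [h5, h6]
      have h7 := (hG0pos a).ne'
      show (q : ℝ) * G0 f.1 * Dn = G0 a * G0 f.1 * ((q : ℝ) * Dn / G0 a)
      field_simp
    rw [h2]
    have h8 : ∏ k : Fin d × {e // e ∈ E}, G0 k.2.1 =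
        (∏ k ∈ Finset.univ \ sp, G0 k.2.1) * ∏ k ∈ sp, G0 k.2.1 :=
      (Finset.prod_sdiff (Finset.subset_univ sp)).symm
    rw [h8]
    have h9 : 0 ≤ (∏ k ∈ sp, G0 k.2.1) * ((q : ℝ) * Dn / G0 a) ^ F.card := by
      have : 0 ≤ ∏ k ∈ sp, G0 k.2.1 := Finset.prod_nonneg fun k _ => (hG0pos _).le
      have h10 : 0 ≤ (q : ℝ) * Dn / G0 a := div_nonneg (by positivity) (hG0pos a).le
      positivity
    calc (∏ k ∈ Finset.univ \ sp, av 0 (x (Sum.inl k) n)) *
          ((∏ k ∈ sp, G0 k.2.1) * ((q : ℝ) * Dn / G0 a) ^ F.card)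
        ≤ ((∏ k ∈ Finset.univ \ sp, G0 k.2.1) * Real.exp (B * T n) ^ (d * E.card - F.card)) *
          ((∏ k ∈ sp, G0 k.2.1) * ((q : ℝ) * Dn / G0 a) ^ F.card) :=
          mul_le_mul_of_nonneg_right h1 h9
      _ = _ := by ring
  -- the finite places
  have hfin : ∀ p ∈ S, ∏ j ∈ B1, av p (x j n) ≤
      ∏ k : Fin d × {e // e ∈ E}, av p (mon g k.2.1 n) := by
    intro p hp
    have hpp : p.Prime := hS p hp
    rw [hB1, Finset.prod_disjSum, Finset.prod_empty, mul_one]
    refine Finset.prod_le_prod (fun k _ => av_nonneg _ _) fun k _ => ?_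
    rw [hxl]
    unfold y
    rw [av_mul (Or.inr hpp)]
    exact mul_le_of_le_one_right (av_nonneg _ _) (av_int_le_one hpp _)
  have hone : (∏ k : Fin d × {e // e ∈ E}, G0 k.2.1) *
      ∏ p ∈ S, ∏ k : Fin d × {e // e ∈ E}, av p (mon g k.2.1 n) = 1 := by
    rw [← prod_pl hS (fun v => ∏ k : Fin d × {e // e ∈ E}, av v (mon g k.2.1 n)),
      Finset.prod_comm]
    exact Finset.prod_eq_one fun k _ => (mon_isU hS hG.unit k.2.1 n).2
  have htot : Real.exp (-(δ / 4) * T n) ≤
      Real.exp (B * T n) ^ (d * E.card - F.card) * ((q : ℝ) * Dn / G0 a) ^ F.card := by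
    refine hn.trans ?_
    rw [prod_pl hS]
    simp only [if_true]
    have h1 : ∏ p ∈ S, ∏ j ∈ (if p = 0 then B0 else B1), av p (x j n) ≤
        ∏ p ∈ S, ∏ k : Fin d × {e // e ∈ E}, av p (mon g k.2.1 n) := by
      refine Finset.prod_le_prod (fun p _ => Finset.prod_nonneg fun j _ => av_nonneg _ _)
        fun p hp => ?_
      rw [if_neg (hS p hp).ne_zero]
      exact hfin p hp
    have h2 : 0 ≤ ∏ p ∈ S, ∏ j ∈ (if p = 0 then B0 else B1), av p (x j n) :=
      Finset.prod_nonneg fun p _ => Finset.prod_nonneg fun j _ => av_nonneg _ _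
    have h10 : 0 ≤ (q : ℝ) * Dn / G0 a := div_nonneg (by positivity) (hG0pos a).le
    have hprodn : 0 ≤ ∏ k : Fin d × {e // e ∈ E}, G0 k.2.1 :=
      Finset.prod_nonneg fun k _ => (hG0pos _).le
    calc (∏ j ∈ B0, av 0 (x j n)) * ∏ p ∈ S, ∏ j ∈ (if p = 0 then B0 else B1), av p (x j n)
        ≤ ((∏ k : Fin d × {e // e ∈ E}, G0 k.2.1) *
          (Real.exp (B * T n) ^ (d * E.card - F.card) * ((q : ℝ) * Dn / G0 a) ^ F.card)) *
          ∏ p ∈ S, ∏ k : Fin d × {e // e ∈ E}, av p (mon g k.2.1 n) :=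
          mul_le_mul hinf h1 h2 (by positivity)
      _ = ((∏ k : Fin d × {e // e ∈ E}, G0 k.2.1) *
          ∏ p ∈ S, ∏ k : Fin d × {e // e ∈ E}, av p (mon g k.2.1 n)) *
          (Real.exp (B * T n) ^ (d * E.card - F.card) *
            ((q : ℝ) * Dn / G0 a) ^ F.card) := by ring
      _ = _ := by rw [hone, one_mul]
  -- the root
  have hFr : (1 : ℝ) ≤ F.card := by exact_mod_cast hFpos
  have hroot : Real.exp (-(δ / 4 + d * B * (1 + δ')) * T n) ≤ (q : ℝ) * Dn / G0 a := by
    have h10 : 0 ≤ (q : ℝ) * Dn / G0 a := div_nonneg (by positivity) (hG0pos a).le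
    refine le_of_pow_le_pow_left₀ hFpos.ne' h10 ?_
    have h1 : Real.exp (B * T n) ^ (d * E.card - F.card) ≤
        Real.exp (d * B * (1 + δ') * T n * F.card) := by
      rw [← Real.exp_nat_mul]
      apply Real.exp_le_exp.mpr
      have h2 : ((d * E.card - F.card : ℕ) : ℝ) ≤ d * E.card := by
        have : d * E.card - F.card ≤ d * E.card := Nat.sub_le _ _
        exact_mod_cast this
      have h3 : 0 ≤ B * T n := mul_nonneg hB hTn.le
      calc ((d * E.card - F.card : ℕ) : ℝ) * (B * T n) ≤ d * E.card * (B * T n) :=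
            mul_le_mul_of_nonneg_right h2 h3
        _ ≤ d * ((1 + δ') * F.card) * (B * T n) := by
            refine mul_le_mul_of_nonneg_right ?_ h3
            exact mul_le_mul_of_nonneg_left hcard (by positivity)
        _ = d * B * (1 + δ') * T n * F.card := by ring
    have h4 : Real.exp (-(δ / 4) * T n) ≤ Real.exp (d * B * (1 + δ') * T n * F.card) *
        ((q : ℝ) * Dn / G0 a) ^ F.card :=
      htot.trans (mul_le_mul_of_nonneg_right h1 (by positivity))
    rw [← Real.exp_nat_mul]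
    have h5 : Real.exp ((F.card : ℝ) * (-(δ / 4 + d * B * (1 + δ')) * T n)) ≤
        Real.exp (-(δ / 4) * T n) * Real.exp (-(d * B * (1 + δ') * T n * F.card)) := by
      rw [← Real.exp_add]
      apply Real.exp_le_exp.mpr
      have h6 : 0 ≤ δ / 4 * T n := by positivity
      nlinarith
    refine h5.trans ?_
    rw [Real.exp_neg, ← div_eq_mul_inv, div_le_iff₀ (Real.exp_pos _)]
    calc Real.exp (-(δ / 4) * T n) ≤ _ := h4
      _ = _ := by ring
  -- conclusion
  have hGa := hG0pos a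
  rw [le_div_iff₀ hGa] at hroot
  show G0 a ≤ Real.exp ((d * B + δ) * T n) * Dn
  have h1 : G0 a ≤ Real.exp ((δ / 4 + d * B * (1 + δ')) * T n) * ((q : ℝ) * Dn) := by
    have h2 := mul_le_mul_of_nonneg_left hroot
      (Real.exp_pos ((δ / 4 + d * B * (1 + δ')) * T n)).le
    rw [← mul_assoc, ← Real.exp_add] at h2
    have h3 : (δ / 4 + d * B * (1 + δ')) * T n + -(δ / 4 + d * B * (1 + δ')) * T n = 0 := by
      ring
    rw [h3, Real.exp_zero, one_mul] at h2
    exact h2
  refine h1.trans ?_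
  have h4 : d * B * δ' ≤ δ / 4 := by
    rw [hδ']
    rw [mul_div_assoc', div_le_div_iff₀ (by positivity) (by norm_num)]
    nlinarith
  calc Real.exp ((δ / 4 + d * B * (1 + δ')) * T n) * ((q : ℝ) * Dn)
      ≤ Real.exp ((δ / 4 + d * B * (1 + δ')) * T n) * (Real.exp (δ / 4 * T n) * Dn) := by
        refine mul_le_mul_of_nonneg_left ?_ (Real.exp_pos _).le
        exact mul_le_mul_of_nonneg_right hqn hDn0
    _ = Real.exp ((δ / 4 + d * B * (1 + δ')) * T n + δ / 4 * T n) * Dn := by
        rw [Real.exp_add]; ring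
    _ ≤ Real.exp ((d * B + δ) * T n) * Dn := by
        refine mul_le_mul_of_nonneg_right ?_ hDn0
        apply Real.exp_le_exp.mpr
        nlinarith

end S2Tp

open S2Tp

/-- module S2T -/
theorem s2t_proof (hSBB : Stmt_SBB) (hSIM : Stmt_SIM) (hVOR : Stmt_VOR) (hLTM : Stmt_LTM) :
    Stmt_S2T := by
  intro U S T r d g Z B δ D hG hB hδ hZ hI i e he
  obtain ⟨lt, hlt, hadd, hle⟩ := hVOR U 0 r g (Or.inl rfl) fun i n => (hG.unit i n).pos
  obtain ⟨a, ha, hmax⟩ := exmax hlt (D i).support ⟨e, he⟩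
  have h1 := core hSBB hSIM hLTM U S T r d g Z B δ D hG hB hδ hZ hI lt hlt hadd i a ha hmax
  rcases hmax e he with rfl | hea
  · exact h1
  · filter_upwards [h1, hle e a hea] with n hn hn2
    exact hn2.trans hn

end Pool.Agent.SBT
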