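import Pool.Agent.SBT.StmtsG
import Pool.Agent.SBT.Api

/-!
# BAG: a basis of a finitely generated group of units
-/

set_option autoImplicit false

namespace Pool.Agent.SBT

open Filter

namespace BAG_

/-- upper and lower bounds of a unit of bounded height at all places -/
theorem un_two {U : Ultrafilter ℕ} {S : Finset ℕ} {T : ℕ → ℝ} {u : ℕ → ℚ} (hPS : PS S)
    (hT : Tendsto T (U : Filter ℕ) atTop) (hu : u ∈ Un U S T) :
    ∃ C : ℝ, 0 ≤ C ∧ ∀ᶠ n in (U : Filter ℕ), ∀ v ∈ pl S,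
      av v (u n) ≤ Real.exp (C * T n) ∧ (av v (u n))⁻¹ ≤ Real.exp (C * T n) := by
  obtain ⟨h1, C₀, h2⟩ := hu
  refine ⟨|C₀| * ((pl S).card + 1), by positivity, ?_⟩
  filter_upwards [h2, ev_pos hT] with n hn hTn v hv
  have hb : ∀ w ∈ pl S, av w (u n) ≤ Real.exp (|C₀| * T n) := fun w hw =>
    (hn w hw).trans (Real.exp_le_exp.2 (mul_le_mul_of_nonneg_right (le_abs_self _) hTn.le))
  have hc : (0 : ℝ) ≤ (pl S).card := Nat.cast_nonneg _
  have hk : 0 ≤ |C₀| * T n := mul_nonneg (abs_nonneg _) hTn.le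
  constructor
  · refine (hb v hv).trans (Real.exp_le_exp.2 ?_)
    nlinarith
  · have hpos : 0 < av v (u n) := av_pos (place_of_mem hPS hv) (h1 n).1.ne'
    have hprod := (h1 n).2
    rw [← Finset.mul_prod_erase _ _ hv] at hprod
    have e1 : (av v (u n))⁻¹ = ∏ w ∈ (pl S).erase v, av w (u n) := by
      field_simp
      linarith
    rw [e1]
    calc ∏ w ∈ (pl S).erase v, av w (u n)
        ≤ ∏ w ∈ (pl S).erase v, Real.exp (|C₀| * T n) :=
          Finset.prod_le_prod (fun w _ => av_nonneg _ _)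
            fun w hw => hb w (Finset.mem_of_mem_erase hw)
      _ = Real.exp (((pl S).erase v).card * (|C₀| * T n)) := by
          rw [Finset.prod_const, ← Real.exp_nat_mul]
      _ ≤ Real.exp (|C₀| * ((pl S).card + 1) * T n) := by
          apply Real.exp_le_exp.2
          have h3 : (((pl S).erase v).card : ℝ) ≤ (pl S).card := by
            exact_mod_cast Finset.card_erase_le
          nlinarith

/-- integral powers -/
theorem zpow_le {v : ℕ} (hv : v = 0 ∨ v.Prime) {x : ℚ} {E : ℝ} (h1 : av v x ≤ Real.exp E)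
    (h2 : (av v x)⁻¹ ≤ Real.exp E) (e : ℤ) : av v (x ^ e) ≤ Real.exp ((e.natAbs : ℝ) * E) := by
  rw [av_zpow hv, Real.exp_nat_mul]
  rcases Int.natAbs_eq e with he | he
  · rw [he, zpow_natCast, Int.natAbs_natCast]
    exact pow_le_pow_left₀ (av_nonneg _ _) h1 _
  · rw [he, zpow_neg, zpow_natCast, Int.natAbs_neg, Int.natAbs_natCast, ← inv_pow]
    exact pow_le_pow_left₀ (inv_nonneg.2 (av_nonneg _ _)) h2 _

/-- products of integral powers of units of bounded height -/
theorem prod_unit {U : Ultrafilter ℕ} {S : Finset ℕ} {T : ℕ → ℝ} {K : ℕ} {u : Fin K → ℕ → ℚ}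
    (hPS : PS S) (hT : Tendsto T (U : Filter ℕ) atTop) (hu : ∀ k, u k ∈ Un U S T) {r : ℕ}
    {g : Fin r → ℕ → ℚ} (hg : ∀ i, ∃ e : Fin K → ℤ, ∀ n, g i n = ∏ k, u k n ^ e k) :
    (∀ i n, IsU S (g i n)) ∧
      ∃ C : ℝ, ∀ᶠ n in (U : Filter ℕ), ∀ i, ∀ v ∈ pl S, av v (g i n) ≤ Real.exp (C * T n) := by
  constructor
  · intro i n
    obtain ⟨e, he⟩ := hg i
    rw [he n]
    exact isU_prod hPS _ _ fun q _ => ((hu q).1 n).zpow hPS _
  · choose e he using hg
    choose D hD0 hD using fun k => un_two hPS hT (hu k)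
    refine ⟨∑ i, |∑ q, ((e i q).natAbs : ℝ) * D q|, ?_⟩
    have hall : ∀ᶠ n in (U : Filter ℕ), ∀ q, ∀ v ∈ pl S,
        av v (u q n) ≤ Real.exp (D q * T n) ∧ (av v (u q n))⁻¹ ≤ Real.exp (D q * T n) := by
      rw [eventually_all]
      exact hD
    filter_upwards [hall, ev_pos hT] with n hn hTn i v hv
    have hv' := place_of_mem hPS hv
    rw [he i n, av_prod hv']
    have h1 : ∏ q, av v (u q n ^ e i q) ≤
        ∏ q, Real.exp (((e i q).natAbs : ℝ) * (D q * T n)) :=
      Finset.prod_le_prod (fun q _ => av_nonneg _ _) fun q _ =>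
        zpow_le hv' (hn q v hv).1 (hn q v hv).2 _
    refine h1.trans ?_
    rw [← Real.exp_sum]
    apply Real.exp_le_exp.2
    have h2 : ∑ q, ((e i q).natAbs : ℝ) * (D q * T n) =
        (∑ q, ((e i q).natAbs : ℝ) * D q) * T n := by
      rw [Finset.sum_mul]
      exact Finset.sum_congr rfl fun q _ => by ring
    rw [h2]
    apply mul_le_mul_of_nonneg_right _ hTn.le
    refine (le_abs_self _).trans ?_
    exact Finset.single_le_sum (f := fun i => |∑ q, ((e i q).natAbs : ℝ) * D q|)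
      (fun i _ => abs_nonneg _) (Finset.mem_univ i)

end BAG_

open BAG_ in
theorem bag_proof (hBAS : Stmt_BAS) : Stmt_BAG := by
  intro U S T K u hPS hT hu
  obtain ⟨r, g, hg1, hg2, hg3⟩ := hBAS U K u (fun k n => ((hu k).1 n).1)
  obtain ⟨h1, h2⟩ := prod_unit hPS hT hu hg1
  exact ⟨r, g, ⟨hPS, hT, h1, hg2, h2⟩, hg3⟩

end Pool.Agent.SBT
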