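import Pool.Agent.SBT.StmtsD

/-!
# SBT (MP_57632f_nt), module BAS: a basis of a group of units modulo constants
-/

set_option autoImplicit false

namespace Pool.Agent.SBT

namespace BAS_

open Filter

variable {K : ℕ}

/-- the monomial with integer exponents -/
def pw (u : Fin K → ℕ → ℚ) (e : Fin K → ℤ) (n : ℕ) : ℚ := ∏ k, u k n ^ e k

variable {u : Fin K → ℕ → ℚ}

theorem pw_pos (hu : ∀ k n, 0 < u k n) (e : Fin K → ℤ) (n : ℕ) : 0 < pw u e n :=
  Finset.prod_pos fun k _ => zpow_pos (hu k n) _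

theorem pw_zero (n : ℕ) : pw u 0 n = 1 := by simp [pw]

theorem pw_add (hu : ∀ k n, 0 < u k n) (e f : Fin K → ℤ) (n : ℕ) :
    pw u (e + f) n = pw u e n * pw u f n := by
  unfold pw
  rw [← Finset.prod_mul_distrib]
  refine Finset.prod_congr rfl fun k _ => ?_
  rw [Pi.add_apply, zpow_add₀ (hu k n).ne']

theorem pw_smul (c : ℤ) (e : Fin K → ℤ) (n : ℕ) : pw u (c • e) n = pw u e n ^ c := by
  unfold pw
  rw [← Finset.prod_zpow]
  refine Finset.prod_congr rfl fun k _ => ?_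
  rw [Pi.smul_apply, smul_eq_mul, mul_comm, zpow_mul]

theorem pw_sum (hu : ∀ k n, 0 < u k n) {r : ℕ} (β : Fin r → Fin K → ℤ) (c : Fin r → ℤ) (n : ℕ) :
    pw u (∑ i, c i • β i) n = ∏ i, pw u (β i) n ^ c i := by
  classical
  have h : ∀ F : Finset (Fin r),
      pw u (∑ i ∈ F, c i • β i) n = ∏ i ∈ F, pw u (β i) n ^ c i := by
    intro F
    induction F using Finset.induction_on with
    | empty => simpa using pw_zero (u := u) n
    | insert a F ha ih =>
      rw [Finset.sum_insert ha, Finset.prod_insert ha, pw_add hu, pw_smul, ih]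
  exact h Finset.univ

/-- the relations modulo constants -/
def rel (U : Ultrafilter ℕ) (hu : ∀ k n, 0 < u k n) : Submodule ℤ (Fin K → ℤ) where
  carrier := {e | ∃ κ : ℚ, ∀ᶠ n in (U : Filter ℕ), pw u e n = κ}
  add_mem' := by
    rintro e f ⟨κ, h1⟩ ⟨κ', h2⟩
    refine ⟨κ * κ', ?_⟩
    filter_upwards [h1, h2] with n a b
    rw [pw_add hu, a, b]
  zero_mem' := ⟨1, Eventually.of_forall fun n => pw_zero n⟩
  smul_mem' := by
    rintro c e ⟨κ, h1⟩
    refine ⟨κ ^ c, ?_⟩
    filter_upwards [h1] with n a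
    rw [pw_smul, a]

theorem mem_rel {U : Ultrafilter ℕ} {hu : ∀ k n, 0 < u k n} {e : Fin K → ℤ} :
    e ∈ rel U hu ↔ ∃ κ : ℚ, ∀ᶠ n in (U : Filter ℕ), pw u e n = κ := Iff.rfl

theorem sat (U : Ultrafilter ℕ) (hu : ∀ k n, 0 < u k n) (c : ℤ) (hc : c ≠ 0) (e : Fin K → ℤ)
    (h : c • e ∈ rel U hu) : e ∈ rel U hu := by
  obtain ⟨κ, h1⟩ := mem_rel.1 h
  obtain ⟨n0, hn0⟩ := h1.exists
  refine mem_rel.2 ⟨pw u e n0, ?_⟩
  filter_upwards [h1] with n hn
  rw [pw_smul] at hn hn0
  have h2 : pw u e n ^ c = pw u e n0 ^ c := by rw [hn, hn0]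
  exact (zpow_left_inj₀ (pw_pos hu e n).le (pw_pos hu e n0).le hc).1 h2

end BAS_

open BAS_ Filter in
theorem bas_proof : Stmt_BAS := by
  classical
  intro U K u hu
  set Λ := rel U hu with hΛ
  have : Module.IsTorsionFree ℤ ((Fin K → ℤ) ⧸ Λ) := by
    refine Module.IsTorsionFree.of_smul_eq_zero ?_
    intro c q hq
    obtain ⟨e, rfl⟩ := Submodule.mkQ_surjective Λ q
    by_cases hc : c = 0
    · exact Or.inl hc
    · right
      rw [← map_smul] at hq
      have h1 : c • e ∈ Λ := (Submodule.Quotient.mk_eq_zero Λ).1 hq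
      exact (Submodule.Quotient.mk_eq_zero Λ).2 (sat U hu c hc e h1)
  have hfree : Module.Free ℤ ((Fin K → ℤ) ⧸ Λ) := Module.free_of_finite_type_torsion_free'
  set b := Module.finBasis ℤ ((Fin K → ℤ) ⧸ Λ) with hb
  set r := Module.finrank ℤ ((Fin K → ℤ) ⧸ Λ) with hr
  have hlift : ∀ i : Fin r, ∃ e : Fin K → ℤ, Λ.mkQ e = b i :=
    fun i => Submodule.mkQ_surjective Λ (b i)
  choose β hβ using hlift
  refine ⟨r, fun i n => pw u (β i) n, fun i => ⟨β i, fun n => rfl⟩, ?_, ?_⟩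
  · intro e κ h
    have h1 : ∑ i, e i • β i ∈ Λ := by
      refine mem_rel.2 ⟨κ, ?_⟩
      filter_upwards [h] with n hn
      rw [pw_sum hu, hn]
    have h2 : ∑ i, e i • b i = 0 := by
      have h3 : Λ.mkQ (∑ i, e i • β i) = 0 := (Submodule.Quotient.mk_eq_zero Λ).2 h1
      rw [map_sum] at h3
      simpa only [map_smul, hβ] using h3
    funext i
    exact Fintype.linearIndependent_iff.1 b.linearIndependent e h2 i
  · intro k
    set δ : Fin K → ℤ := Pi.single k 1 with hδ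
    set c : Fin r → ℤ := fun i => b.repr (Λ.mkQ δ) i with hc
    have h1 : δ - ∑ i, c i • β i ∈ Λ := by
      apply (Submodule.Quotient.mk_eq_zero Λ).1
      change Λ.mkQ (δ - ∑ i, c i • β i) = 0
      rw [map_sub, map_sum]
      simp only [map_smul, hβ]
      rw [hc, b.sum_repr, sub_self]
    obtain ⟨κ, h2⟩ := mem_rel.1 h1
    have hδn : ∀ n, pw u δ n = u k n := by
      intro n
      unfold pw
      rw [Finset.prod_eq_single k]
      · simp [hδ]
      · intro j _ hj
        simp [hδ, hj]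
      · simp
    have h3 : ∀ n, pw u (δ - ∑ i, c i • β i) n * ∏ i, pw u (β i) n ^ c i = u k n := by
      intro n
      rw [← pw_sum hu, ← pw_add hu, sub_add_cancel, hδn]
    refine ⟨κ, c, ?_, ?_⟩
    · obtain ⟨n0, hn0⟩ := h2.exists
      rw [← hn0]
      exact pw_pos hu _ _
    · filter_upwards [h2] with n hn
      rw [← h3 n, hn]

end Pool.Agent.SBT
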