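import Pool.Agent.SBT.StmtsD

set_option autoImplicit false

namespace Pool.Agent.SBT

theorem dtm_proof : Stmt_DTM := by
  intro u m X i j t _hi _hj hb hit hjt ht hns
  have key : ∀ s, 1 ≤ s → s ≤ t → ∀ x, x < m + s → u (i + x) = u (j + x) := by
    intro s hs
    induction s, hs using Nat.le_induction with
    | base =>
      intro _ x hx
      have := congrFun hb ⟨x, hx⟩
      simpa [blk] using this
    | succ s hs ih =>
      intro hst x hx
      have ih' := ih (by omega)
      rcases Nat.lt_or_ge x (m + s) with h | h
      · exact ih' x h
      · obtain rfl : x = m + s := by omega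
        have h1 := hns s hs (by omega)
        by_contra hne
        apply h1
        refine ⟨by omega, j + s, by omega, ?_, ?_⟩
        · funext y
          have := ih' (s + y) (by have := y.2; omega)
          simpa [blk, add_assoc] using this
        · have e1 : i + s + m = i + (m + s) := by omega
          have e2 : j + s + m = j + (m + s) := by omega
          rw [e1, e2]
          exact hne
  have kt := key t ht le_rfl
  have hbm : blk u m (i + t) = blk u m (j + t) := by
    funext y
    have := kt (t + y) (by have := y.2; omega)
    simpa [blk, add_assoc] using this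
  refine ⟨?_, ?_, ?_⟩
  · funext y
    simpa [blk] using kt y y.2
  · rintro ⟨_, l, hl, h1, h2⟩
    refine ⟨hjt, ?_⟩
    by_cases h3 : u (j + t + m) = u (l + m)
    · exact ⟨i + t, hit, hbm.symm, by rw [h3]; exact fun h => h2 h.symm⟩
    · exact ⟨l, hl, hbm.symm.trans h1, h3⟩
  · rintro ⟨_, l, hl, h1, h2⟩
    refine ⟨hit, ?_⟩
    by_cases h3 : u (i + t + m) = u (l + m)
    · exact ⟨j + t, hjt, hbm, by rw [h3]; exact fun h => h2 h.symm⟩
    · exact ⟨l, hl, hbm.trans h1, h3⟩

end Pool.Agent.SBT
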