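import Pool.Agent.SBT.StmtsG

/-!
# Squad SBT, module LCC: calculus of integral linear combinations of sequences
-/

set_option autoImplicit false

namespace Pool.Agent.SBT

open Filter

namespace LCC_

/-- a function with values in a finite type is constant along an ultrafilter -/
theorem const_of_finite {α : Type*} [Finite α] (U : Ultrafilter ℕ) (e : ℕ → α) :
    ∃ c : α, ∀ᶠ n in (U : Filter ℕ), e n = c := by
  classical
  by_contra hcon
  have h1 : ∀ c : α, ∀ᶠ n in (U : Filter ℕ), e n ≠ c := by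
    intro c
    by_contra h2
    apply hcon
    refine ⟨c, ?_⟩
    have h3 : ∃ᶠ n in (U : Filter ℕ), ¬ (e n ≠ c) := by
      rw [← Filter.not_eventually] at *
      exact h2
    have h4 := (Ultrafilter.frequently_iff_eventually).1 h3
    filter_upwards [h4] with n hn
    exact not_not.1 hn
  have h5 : ∀ᶠ n in (U : Filter ℕ), ∀ c : α, e n ≠ c := by
    rw [eventually_all]
    exact h1
  obtain ⟨n, hn⟩ := h5.exists
  exact hn (e n) rfl

theorem zero (U : Ultrafilter ℕ) (Γ : Set (ℕ → ℚ)) : Lc U Γ 0 := by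
  refine ⟨0, fun t => t.elim0, fun t => t.elim0, fun t => t.elim0, ?_⟩
  refine Eventually.of_forall fun n => ?_
  simp

theorem add (U : Ultrafilter ℕ) (Γ : Set (ℕ → ℚ)) (f g : ℕ → ℚ) (hf : Lc U Γ f)
    (hg : Lc U Γ g) : Lc U Γ (f + g) := by
  obtain ⟨N, c, u, hu, hf⟩ := hf
  obtain ⟨N', c', u', hu', hg⟩ := hg
  refine ⟨N + N', Fin.append c c', Fin.append u u', ?_, ?_⟩
  · intro t
    induction t using Fin.addCases with
    | left i => rw [Fin.append_left]; exact hu i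
    | right i => rw [Fin.append_right]; exact hu' i
  · filter_upwards [hf, hg] with n h1 h2
    rw [Pi.add_apply, h1, h2, Fin.sum_univ_add]
    simp

theorem mul (U : Ultrafilter ℕ) (Γ Γ' Γ'' : Set (ℕ → ℚ)) (f g : ℕ → ℚ) (hf : Lc U Γ f)
    (hg : Lc U Γ' g) (h : ∀ u ∈ Γ, ∀ u' ∈ Γ', u * u' ∈ Γ'') : Lc U Γ'' (f * g) := by
  obtain ⟨N, c, u, hu, hf⟩ := hf
  obtain ⟨N', c', u', hu', hg⟩ := hg
  refine ⟨N * N', fun t => c (finProdFinEquiv.symm t).1 * c' (finProdFinEquiv.symm t).2,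
    fun t => u (finProdFinEquiv.symm t).1 * u' (finProdFinEquiv.symm t).2,
    fun t => h _ (hu _) _ (hu' _), ?_⟩
  filter_upwards [hf, hg] with n h1 h2
  rw [Pi.mul_apply, h1, h2, Finset.sum_mul_sum, ← Finset.sum_product',
    Finset.univ_product_univ]
  refine Fintype.sum_equiv finProdFinEquiv _ _ fun x => ?_
  rw [Equiv.symm_apply_apply]
  simp only [Pi.mul_apply]
  push_cast
  ring

theorem rep (U : Ultrafilter ℕ) (a N : ℕ) (M : ℕ → ℕ) (F : ℕ → ℤ)
    (hF : ∀ᶠ n in (U : Filter ℕ), Rep a N (M n) (F n)) :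
    Lc U {u | ∃ m : ℕ → ℕ, (∀ n, m n ≤ M n) ∧ ∀ n, u n = (a : ℚ) ^ m n}
      (fun n => (F n : ℚ)) := by
  classical
  have h0 : ∀ n : ℕ, ∃ (ε : Fin N → ℤ) (k : Fin N → ℕ), (∀ t, |ε t| ≤ 1) ∧ (∀ t, k t ≤ M n) ∧
      (Rep a N (M n) (F n) → F n = ∑ t, ε t * (a : ℤ) ^ k t) := by
    intro n
    by_cases hn : Rep a N (M n) (F n)
    · obtain ⟨ε, k, h1, h2, h3⟩ := hn
      exact ⟨ε, k, h1, h2, fun _ => h3⟩
    · exact ⟨fun _ => 0, fun _ => 0, fun _ => by norm_num, fun _ => Nat.zero_le _,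
        fun h => absurd h hn⟩
  choose ε k h1 h2 h3 using h0
  have h4 : ∀ t : Fin N, ∃ c : ℤ, ∀ᶠ n in (U : Filter ℕ), ε n t = c := by
    intro t
    obtain ⟨c, hc⟩ := const_of_finite U
      (fun n => (⟨ε n t, Set.mem_Icc.2 (abs_le.1 (h1 n t))⟩ : Set.Icc (-1 : ℤ) 1))
    refine ⟨c, ?_⟩
    filter_upwards [hc] with n hn
    have := congrArg Subtype.val hn
    simpa using this
  choose c hc using h4
  refine ⟨N, c, fun t n => (a : ℚ) ^ k n t, fun t => ⟨fun n => k n t, fun n => h2 n t,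
    fun n => rfl⟩, ?_⟩
  have h5 : ∀ᶠ n in (U : Filter ℕ), ∀ t, ε n t = c t := by
    rw [eventually_all]
    exact hc
  filter_upwards [hF, h5] with n hn h6
  rw [h3 n hn]
  push_cast
  refine Finset.sum_congr rfl fun t _ => ?_
  rw [h6 t]

end LCC_

theorem lcc_proof : Stmt_LCC := by
  intro U
  refine ⟨LCC_.zero U, LCC_.add U, LCC_.mul U, ?_, ?_, ?_, ?_, LCC_.rep U⟩
  · rintro Γ Γ' f h ⟨N, c, u, hu, hf⟩
    exact ⟨N, c, u, fun t => h (hu t), hf⟩
  · rintro Γ f c ⟨N, d, u, hu, hf⟩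
    refine ⟨N, fun t => c * d t, u, hu, ?_⟩
    filter_upwards [hf] with n hn
    rw [hn, Finset.mul_sum]
    refine Finset.sum_congr rfl fun t _ => ?_
    push_cast
    ring
  · intro Γ f hf
    refine ⟨1, fun _ => 1, fun _ => f, fun _ => hf, ?_⟩
    refine Eventually.of_forall fun n => ?_
    simp
  · rintro Γ f g ⟨N, c, u, hu, hf⟩ hfg
    refine ⟨N, c, u, hu, ?_⟩
    filter_upwards [hf, hfg] with n h1 h2
    rw [← h2, h1]

end Pool.Agent.SBT
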