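import Pool.Agent.SBT.StmtsD

set_option autoImplicit false

namespace Pool.Agent.SBT

open Filter

theorem ltm_proof : Stmt_LTM := by
  intro r lt hlt hadd A H a e hA hH
  haveI := hlt
  rw [MvPolynomial.coeff_mul, Finset.sum_eq_single (a, e)]
  · rintro ⟨a', e'⟩ hmem hne
    rw [Finset.HasAntidiagonal.mem_antidiagonal] at hmem
    simp only at hmem ⊢
    by_contra hcon
    have h1 : MvPolynomial.coeff a' A ≠ 0 := left_ne_zero_of_mul hcon
    have h2 : MvPolynomial.coeff e' H ≠ 0 := right_ne_zero_of_mul hcon
    have h3 := hA a' (MvPolynomial.mem_support_iff.2 h1)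
    have h4 := hH e' (MvPolynomial.mem_support_iff.2 h2)
    rcases h3 with h3 | h3
    · subst h3
      have h5 : e' = e := add_left_cancel hmem
      exact hne (by rw [h5])
    · have h5 : lt (a' + e') (a + e') := hadd a' a e' h3
      rcases h4 with h4 | h4
      · subst h4
        rw [hmem] at h5
        exact irrefl_of lt _ h5
      · have h6 : lt (e' + a) (e + a) := hadd e' e a h4
        rw [add_comm e' a, add_comm e a] at h6
        have h7 := trans_of lt h5 h6
        rw [hmem] at h7
        exact irrefl_of lt _ h7
  · intro h
    exact absurd (by simp) h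

end Pool.Agent.SBT
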