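import Pool.Agent.SBT.StmtsD

/-!
# Module PCS: a sequence of types is a union of few pieces
-/

set_option autoImplicit false

namespace Pool.Agent.SBT

namespace PCS_

/-- one greedy step -/
lemma step (E D K : ℕ) (ty : ℕ → Fin E) (β : ℕ → ℕ)
    (hβ : ∀ i j, i < j → j ≤ K → β i < β j)
    (h1 : ∀ k k', k < k' → k' ≤ K → ty k = ty k' → β k' ≤ β k + D →
      (∀ j, k < j → j < k' → ty k ≠ ty j) → ∀ i j, k ≤ i → i < j → j < k' → ty i ≠ ty j)
    (h2 : ∀ k k' k'', k < k' → k' ≤ k'' → k'' ≤ K → ty k = ty k' → ty k = ty k'' →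
      β k'' ≤ β k + D → (∀ j, k < j → j < k' → ty k ≠ ty j) →
      ∀ l, k ≤ l → l + (k' - k) ≤ k'' → ty l = ty (l + (k' - k)))
    (k : ℕ) (hk : k < K) :
    ∃ n, k < n ∧ n ≤ K ∧
      (n = k + 1 ∨ ∃ r, 1 ≤ r ∧ r ≤ E ∧ k + r ≤ n ∧ β (k + r) ≤ β k + D ∧
        ty k = ty (k + r) ∧ (∀ j, k < j → j < k + r → ty k ≠ ty j) ∧
        ∀ l, k ≤ l → l + r < n → ty l = ty (l + r)) ∧
      ∀ k', k < k' → k' < K → ty k = ty k' → β k' ≤ β k + D → k' < n := by
  classical
  by_cases h : ∃ k', k < k' ∧ k' ≤ K ∧ ty k = ty k' ∧ β k' ≤ β k + D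
  · obtain ⟨hk1, hk2, hk3, hk4⟩ := Nat.find_spec h
    have hmin : ∀ j, j < Nat.find h → ¬ (k < j ∧ j ≤ K ∧ ty k = ty j ∧ β j ≤ β k + D) :=
      fun j hj => Nat.find_min h hj
    have hle : ∀ j, (k < j ∧ j ≤ K ∧ ty k = ty j ∧ β j ≤ β k + D) → Nat.find h ≤ j :=
      fun j hj => Nat.find_min' h hj
    generalize Nat.find h = k' at hk1 hk2 hk3 hk4 hmin hle
    have hne : ∀ j, k < j → j < k' → ty k ≠ ty j := by
      intro j hj1 hj2 hj3
      refine hmin j hj2 ⟨hj1, by omega, hj3, ?_⟩
      have := hβ j k' hj2 hk2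
      omega
    obtain ⟨r, rfl⟩ : ∃ r, k' = k + r := ⟨k' - k, by omega⟩
    have hr1 : 1 ≤ r := by omega
    have hrE : r ≤ E := by
      have hinj : Function.Injective (fun i : Fin r => ty (k + i)) := by
        intro i j hij
        by_contra hne'
        have hval : (i : ℕ) ≠ j := fun hv => hne' (Fin.ext hv)
        rcases lt_or_gt_of_ne hval with hlt | hlt
        · exact h1 k (k + r) hk1 hk2 hk3 hk4 hne (k + i) (k + j) (by omega) (by omega)
            (by have := j.2; omega) hij
        · exact h1 k (k + r) hk1 hk2 hk3 hk4 hne (k + j) (k + i) (by omega) (by omega)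
            (by have := i.2; omega) hij.symm
      have := Fintype.card_le_of_injective _ hinj
      simpa using this
    let P : ℕ → Prop := fun n => k + r ≤ n ∧ ∀ l, k ≤ l → l + r < n → ty l = ty (l + r)
    have hP0 : P (k + r) := ⟨le_rfl, fun l hl1 hl2 => absurd hl2 (by omega)⟩
    have hspec : P (Nat.findGreatest P K) := Nat.findGreatest_spec hk2 hP0
    refine ⟨Nat.findGreatest P K, ?_, Nat.findGreatest_le K, Or.inr ⟨r, hr1, hrE, hspec.1,
      hk4, hk3, hne, hspec.2⟩, ?_⟩
    · have := hspec.1
      omega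
    · intro k'' hk''1 hk''2 hk''3 hk''4
      have hk''5 : k + r ≤ k'' := hle k'' ⟨hk''1, hk''2.le, hk''3, hk''4⟩
      have hP : P (k'' + 1) := by
        refine ⟨by omega, fun l hl1 hl2 => ?_⟩
        have := h2 k (k + r) k'' hk1 hk''5 hk''2.le hk3 hk''3 hk''4 hne l hl1
          (by omega)
        rwa [show k + r - k = r by omega] at this
      exact Nat.lt_of_succ_le (Nat.le_findGreatest (by omega) hP)
  · refine ⟨k + 1, by omega, by omega, Or.inl rfl, ?_⟩
    intro k' hk1 hk2 hk3 hk4
    exact absurd ⟨k', hk1, hk2.le, hk3, hk4⟩ h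

end PCS_

open PCS_ in
theorem pcs_proof : Stmt_PCS := by
  classical
  intro E D X K ty β hD hβ hX h1 h2
  choose! nxt hn1 hn2 hn3 hn4 using step E D K ty β hβ h1 h2
  let κ : ℕ → ℕ := fun i =>
    Nat.rec (motive := fun _ => ℕ) 0 (fun _ x => if x < K then nxt x else x) i
  have hκ0 : κ 0 = 0 := rfl
  have hκs : ∀ i, κ (i + 1) = if κ i < K then nxt (κ i) else κ i := fun i => rfl
  have hle : ∀ i, κ i ≤ K := by
    intro i
    induction i with
    | zero => rw [hκ0]; omega
    | succ i ih =>
      rw [hκs]
      split_ifs with h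
      · exact hn2 _ h
      · exact ih
  have hex : ∃ s, κ s = K := by
    have hgrow : ∀ i, i ≤ κ i ∨ κ i = K := by
      intro i
      induction i with
      | zero => left; omega
      | succ i ih =>
        rw [hκs]
        split_ifs with h
        · rcases ih with ih | ih
          · left
            have := hn1 _ h
            omega
          · omega
        · right
          have := hle i
          omega
    refine ⟨K, ?_⟩
    rcases hgrow K with h | h
    · have := hle K
      omega
    · exact h
  have hs : κ (Nat.find hex) = K := Nat.find_spec hex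
  have hmin : ∀ i, i < Nat.find hex → κ i < K := by
    intro i hi
    have h1 := Nat.find_min hex hi
    have h2 := hle i
    omega
  generalize Nat.find hex = s at hs hmin
  have hstep : ∀ i, i < s → κ (i + 1) = nxt (κ i) := by
    intro i hi
    rw [hκs, if_pos (hmin i hi)]
  have hlt : ∀ i, i < s → κ i < κ (i + 1) := by
    intro i hi
    rw [hstep i hi]
    exact hn1 _ (hmin i hi)
  have hmono : ∀ i j, i < j → j ≤ s → κ i < κ j := by
    intro i j hij
    induction j with
    | zero => omega
    | succ j ih =>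
      intro hj
      rcases Nat.lt_succ_iff_lt_or_eq.1 hij with h | h
      · exact (ih h (by omega)).trans (hlt j (by omega))
      · subst h
        exact hlt i (by omega)
  have hkey : ∀ i j, i < j → j < s → β (κ j) ≤ β (κ i) + D → ty (κ i) ≠ ty (κ j) := by
    intro i j hij hj hb ht
    have h3 := hn4 (κ i) (hmin i (by omega)) (κ j) (hmono i j hij hj.le) (hmin j hj) ht hb
    rw [← hstep i (by omega)] at h3
    rcases Nat.lt_or_ge (i + 1) j with h | h
    · have := hmono (i + 1) j h hj.le
      omega
    · have : j = i + 1 := by omega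
      subst this
      omega
  refine ⟨s, κ, ?_, hκ0, hs, hlt, ?_⟩
  · have hinj : Set.InjOn (fun i : ℕ => ((β (κ i) / D, ty (κ i)) : ℕ × Fin E))
        (Finset.range s : Set ℕ) := by
      have aux : ∀ i j, i < j → j < s → (β (κ i) / D, ty (κ i)) ≠ (β (κ j) / D, ty (κ j)) := by
        intro i j hij hj he
        have he1 : β (κ i) / D = β (κ j) / D := (Prod.ext_iff.1 he).1
        have he2 : ty (κ i) = ty (κ j) := (Prod.ext_iff.1 he).2
        refine hkey i j hij hj ?_ he2
        have e1 := Nat.div_add_mod (β (κ i)) D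
        have e2 := Nat.div_add_mod (β (κ j)) D
        have e3 := Nat.mod_lt (β (κ j)) (show 0 < D by omega)
        rw [he1] at e1
        omega
      intro i hi j hj he
      simp only [Finset.coe_range, Set.mem_Iio] at hi hj
      by_contra hne
      rcases lt_or_gt_of_ne hne with h | h
      · exact aux i j h hj he
      · exact aux j i h hi he.symm
    have hmaps : Set.MapsTo (fun i : ℕ => ((β (κ i) / D, ty (κ i)) : ℕ × Fin E))
        (Finset.range s : Set ℕ)
        ((Finset.range (X / D + 1) ×ˢ (Finset.univ : Finset (Fin E)) :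
          Finset (ℕ × Fin E)) : Set (ℕ × Fin E)) := by
      intro i hi
      simp only [Finset.coe_range, Set.mem_Iio] at hi
      simp only [Finset.coe_product, Finset.coe_range, Finset.coe_univ, Set.mem_prod,
        Set.mem_Iio, Set.mem_univ, and_true]
      have := hX (κ i) (hle i)
      exact Nat.lt_succ_of_le (Nat.div_le_div_right this.le)
    have hcard := Finset.card_le_card_of_injOn _ hmaps hinj
    simp only [Finset.card_range, Finset.card_product, Finset.card_univ, Fintype.card_fin]
      at hcard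
    calc s ≤ (X / D + 1) * E := hcard
      _ = E * (X / D + 1) := mul_comm _ _
      _ ≤ (E + 1) * (X / D + 2) := Nat.mul_le_mul (by omega) (by omega)
  · intro i hi
    have h3 := hn3 (κ i) (hmin i hi)
    rw [← hstep i hi] at h3
    exact h3

end Pool.Agent.SBT
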