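import Pool.Agent.SBT.StmtsD

/-!
# SIM: the exponents of total degree at most `h`
-/

set_option autoImplicit false

namespace Pool.Agent.SBT

open Filter

namespace SIM_

theorem mem_Exs {r h : ℕ} (e : Fin r →₀ ℕ) : e ∈ Exs r h ↔ ∑ i, e i ≤ h := by
  simp only [Exs, Finset.mem_biUnion, Finset.mem_range, Finset.mem_finsuppAntidiag,
    Finset.subset_univ, and_true]
  constructor
  · rintro ⟨k, hk, he⟩
    have h1 : ∑ i, e i = k := he
    omega
  · intro he
    exact ⟨∑ i, e i, Nat.lt_succ_of_le he, rfl⟩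

theorem card_Exs (r h : ℕ) : (Exs r h).card = (h + r).choose r := by
  rw [Exs, Finset.card_biUnion]
  · rw [← Nat.sum_range_multichoose]
    refine Finset.sum_congr rfl fun k _ => ?_
    rw [Finset.card_finsuppAntidiag_nat_eq_multichoose]
    simp
  · intro k _ l _ hkl
    refine Finset.disjoint_left.2 ?_
    intro e he he'
    simp only [] at he he'
    rw [Finset.mem_finsuppAntidiag] at he he'
    exact hkl (he.1.symm.trans he'.1)

theorem ratio (r h m : ℕ) : ((Exs r (h + m)).card : ℝ) ≤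
    (1 + (m : ℝ) / (h + 1)) ^ r * (Exs r h).card := by
  rw [card_Exs, card_Exs]
  have hf : (0 : ℝ) < (r.factorial : ℝ) := by exact_mod_cast r.factorial_pos
  have key : ∀ n : ℕ, (r.factorial : ℝ) * ((n + r).choose r : ℝ) =
      ∏ i ∈ Finset.range r, ((n : ℝ) + 1 + i) := by
    intro n
    have h1 := Nat.ascFactorial_eq_factorial_mul_choose n r
    rw [Nat.ascFactorial_eq_prod_range] at h1
    have h2 : ((∏ i ∈ Finset.range r, (n + 1 + i) : ℕ) : ℝ) =
        ((r.factorial * (n + r).choose r : ℕ) : ℝ) := by rw [h1]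
    push_cast at h2
    exact h2.symm
  have h3 : (r.factorial : ℝ) * (((h + m) + r).choose r : ℝ) ≤
      (r.factorial : ℝ) * ((1 + (m : ℝ) / (h + 1)) ^ r * ((h + r).choose r : ℝ)) := by
    rw [mul_left_comm, key, key, ← Finset.card_range r, ← Finset.prod_const, Finset.card_range,
      ← Finset.prod_mul_distrib]
    refine Finset.prod_le_prod (fun i _ => by positivity) fun i _ => ?_
    push_cast
    have h4 : (0 : ℝ) < (h : ℝ) + 1 := by positivity
    have h5 : (m : ℝ) / (h + 1) * ((h : ℝ) + 1 + i) = m + m * i / (h + 1) := by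
      field_simp
    have h6 : (0 : ℝ) ≤ m * i / ((h : ℝ) + 1) := by positivity
    calc (h : ℝ) + m + 1 + i ≤ ((h : ℝ) + 1 + i) + (m + m * i / (h + 1)) := by linarith
      _ = (1 + (m : ℝ) / (h + 1)) * ((h : ℝ) + 1 + i) := by rw [← h5]; ring
  exact le_of_mul_le_mul_left h3 hf

theorem lim (r m : ℕ) (δ : ℝ) (hδ : 0 < δ) : ∃ h₀ : ℕ, ∀ h ≥ h₀,
    (1 + (m : ℝ) / ((h : ℝ) + 1)) ^ r ≤ 1 + δ := by
  have h1 : Tendsto (fun h : ℕ => (m : ℝ) / ((h : ℝ) + 1)) atTop (nhds 0) :=
    tendsto_const_nhds.div_atTop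
      (tendsto_atTop_add_const_right atTop (1 : ℝ) tendsto_natCast_atTop_atTop)
  have h2 : Tendsto (fun h : ℕ => (1 + (m : ℝ) / ((h : ℝ) + 1)) ^ r) atTop
      (nhds ((1 + 0) ^ r)) := (tendsto_const_nhds.add h1).pow r
  rw [add_zero, one_pow] at h2
  have h3 := (h2.eventually (gt_mem_nhds (show (1 : ℝ) < 1 + δ by linarith)))
  obtain ⟨h₀, hh⟩ := eventually_atTop.1 h3
  exact ⟨h₀, fun h hh' => (hh h hh').le⟩

end SIM_

theorem sim_proof : Stmt_SIM := by
  refine ⟨fun r h e => SIM_.mem_Exs e, fun r m δ hδ => ?_⟩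
  obtain ⟨h₀, hh⟩ := SIM_.lim r m δ hδ
  exact ⟨h₀, fun h hh' => (SIM_.ratio r h m).trans
    (mul_le_mul_of_nonneg_right (hh h hh') (Nat.cast_nonneg _))⟩

end Pool.Agent.SBT
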