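import Pool.Agent.SBT.StmtsD

/-!
# SPX: special places or a period
-/

set_option autoImplicit false

namespace Pool.Agent.SBT

open Filter

namespace SPX_

theorem pigeon (u : ℕ → ℕ) (m X z h : ℕ) (hn : nbl u m X ≤ h) (hz : z + h < X) :
    ∃ i j, z ≤ i ∧ i < j ∧ j ≤ z + h ∧ blk u m i = blk u m j := by
  by_contra hcon
  push Not at hcon
  have hinj : Set.InjOn (blk u m) (Set.Icc z (z + h)) := by
    intro a ha b hb hab
    by_contra hne
    rcases lt_or_gt_of_ne hne with h1 | h1
    · exact hcon a b ha.1 h1 hb.2 hab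
    · exact hcon b a hb.1 h1 ha.2 hab.symm
  have h1 : (blk u m '' Set.Icc z (z + h)).ncard = (Set.Icc z (z + h)).ncard :=
    Set.ncard_image_of_injOn hinj
  have h2 : (Set.Icc z (z + h)).ncard = h + 1 := by
    rw [← Finset.coe_Icc, Set.ncard_coe_finset, Nat.card_Icc]
    omega
  have h3 : (blk u m '' Set.Icc z (z + h)).ncard ≤ nbl u m X := by
    refine Set.ncard_le_ncard (Set.image_mono ?_) ((Set.finite_Iio X).image _)
    intro a ha
    exact lt_of_le_of_lt ha.2 hz
  omega

theorem next (u : ℕ → ℕ) (m X a b : ℕ) (ha : a < X) (hb : b < X) (hab : blk u m a = blk u m b)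
    (hs : ¬ Spe u m X a) : u (a + m) = u (b + m) := by
  by_contra hne
  exact hs ⟨ha, b, hb, hab, hne⟩

theorem step (u : ℕ → ℕ) (m X a b : ℕ) (ha : a < X) (hb : b < X) (hab : blk u m a = blk u m b)
    (hs : ¬ Spe u m X a) : blk u m (a + 1) = blk u m (b + 1) := by
  funext l
  have h1 := next u m X a b ha hb hab hs
  rcases Nat.lt_or_ge ((l : ℕ) + 1) m with h2 | h2
  · have h3 := congrFun hab ⟨l + 1, h2⟩
    simp only [blk] at h3 ⊢
    rw [show a + 1 + (l : ℕ) = a + (l + 1) by ring, show b + 1 + (l : ℕ) = b + (l + 1) by ring]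
    exact h3
  · have h3 : (l : ℕ) + 1 = m := by
      have := l.2
      omega
    simp only [blk]
    rw [show a + 1 + (l : ℕ) = a + (l + 1) by ring, show b + 1 + (l : ℕ) = b + (l + 1) by ring, h3]
    exact h1

theorem walk (u : ℕ → ℕ) (m X i j : ℕ) (hij : i < j) (h0 : blk u m i = blk u m j) :
    ∀ t, (∀ t' < t, ¬ Spe u m X (i + t')) → j + t ≤ X → blk u m (i + t) = blk u m (j + t) := by
  intro t
  induction t with
  | zero => intro _ _; simpa using h0
  | succ t ih =>
    intro hs hX
    have h1 := ih (fun t' ht' => hs t' (by omega)) (by omega)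
    exact step u m X (i + t) (j + t) (by omega) (by omega) h1 (hs t (by omega))

theorem nonspe (u : ℕ → ℕ) (m X z h i j : ℕ) (hzi : z ≤ i) (hij : i < j) (hjh : j ≤ z + h)
    (h0 : blk u m i = blk u m j) (hsp : ∀ x, z ≤ x → x ≤ z + h → ¬ Spe u m X x) :
    ∀ x, z ≤ x → ¬ Spe u m X x := by
  intro x
  induction x using Nat.strong_induction_on with
  | _ x ih =>
    intro hzx
    by_cases hxh : x ≤ z + h
    · exact hsp x hzx hxh
    rintro ⟨hxX, w, hw, hbw, huw⟩
    obtain ⟨t, rfl⟩ : ∃ t, x = j + t := ⟨x - j, by omega⟩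
    have h1 : blk u m (i + t) = blk u m (j + t) :=
      walk u m X i j hij h0 t (fun t' ht' => ih (i + t') (by omega) (by omega)) (by omega)
    have h2 : ¬ Spe u m X (i + t) := ih (i + t) (by omega) (by omega)
    have h3 := next u m X (i + t) (j + t) (by omega) hxX h1 h2
    exact h2 ⟨by omega, w, hw, h1.trans hbw, by rw [h3]; exact huw⟩

end SPX_

open SPX_ in
theorem spx_proof : Stmt_SPX := by
  intro u m X z h hn hz
  by_cases hsp : ∃ x, z ≤ x ∧ x ≤ z + h ∧ Spe u m X x
  · exact Or.inl hsp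
  right
  push Not at hsp
  obtain ⟨i, j, hzi, hij, hjh, h0⟩ := pigeon u m X z h hn hz
  have hns : ∀ x, z ≤ x → ¬ Spe u m X x := nonspe u m X z h i j hzi hij hjh h0 hsp
  refine ⟨j - i, by omega, by omega, ?_, hns⟩
  intro y hy hyX
  have hyi : y + (j - i) = j + (y - i) := by omega
  rw [hyi]
  rcases Nat.lt_or_ge (y - i) m with h1 | h1
  · have h2 := congrFun h0 ⟨y - i, h1⟩
    simp only [blk] at h2
    rw [show i + (y - i) = y by omega] at h2
    exact h2
  · have h2 : blk u m (i + (y - i - m)) = blk u m (j + (y - i - m)) :=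
      walk u m X i j hij h0 _ (fun t' ht' => hns _ (by omega)) (by omega)
    have h3 := next u m X _ _ (by omega) (by omega) h2 (hns _ (by omega))
    rw [show i + (y - i - m) + m = y by omega, show j + (y - i - m) + m = j + (y - i) by omega] at h3
    exact h3

end Pool.Agent.SBT
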