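import Pool.Agent.SBT.StmtsD

set_option autoImplicit false

namespace Pool.Agent.SBT

open Finset

theorem tyc_proof : Stmt_TYC := by
  classical
  intro u m X _hfin
  obtain ⟨A, hA⟩ : ∃ A : Finset (Fin (m + 1) → ℕ), A = (range X).image (blk u (m + 1)) := ⟨_, rfl⟩
  obtain ⟨B, hB⟩ : ∃ B : Finset (Fin m → ℕ), B = (range X).image (blk u m) := ⟨_, rfl⟩
  have eA : nbl u (m + 1) X = A.card := by
    rw [nbl, hA, ← Set.ncard_coe_finset, coe_image, coe_range]
  have eB : nbl u m X = B.card := by
    rw [nbl, hB, ← Set.ncard_coe_finset, coe_image, coe_range]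
  obtain ⟨pr, hpr⟩ : ∃ pr : (Fin (m + 1) → ℕ) → (Fin m → ℕ), pr = fun w t => w t.castSucc :=
    ⟨_, rfl⟩
  have prb : ∀ i, pr (blk u (m + 1) i) = blk u m i := by
    intro i
    rw [hpr]
    funext t
    simp [blk]
  have hmaps : ∀ w ∈ A, pr w ∈ B := by
    intro w hw
    rw [hA, mem_image] at hw
    obtain ⟨i, hi, rfl⟩ := hw
    rw [prb, hB]
    exact mem_image_of_mem _ hi
  have hfib : ∀ v ∈ B, 1 ≤ (A.filter (fun w => pr w = v)).card := by
    intro v hv
    rw [hB, mem_image] at hv
    obtain ⟨i, hi, rfl⟩ := hv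
    rw [Nat.one_le_iff_ne_zero, Ne, card_eq_zero, ← Ne, ← nonempty_iff_ne_empty]
    refine ⟨blk u (m + 1) i, mem_filter.2 ⟨?_, prb i⟩⟩
    rw [hA]
    exact mem_image_of_mem _ hi
  have hsum : A.card = ∑ v ∈ B, (A.filter (fun w => pr w = v)).card :=
    card_eq_sum_card_fiberwise hmaps
  have hBA : B.card ≤ A.card := by
    rw [hsum, card_eq_sum_ones]
    exact sum_le_sum hfib
  obtain ⟨T, hT⟩ : ∃ T : Finset (Fin (m + 1) → ℕ),
    T = A.filter (fun w => 2 ≤ (A.filter (fun w' => pr w' = pr w)).card) := ⟨_, rfl⟩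
  have hsub : blk u (m + 1) '' {i | Spe u m X i} ⊆ (T : Set (Fin (m + 1) → ℕ)) := by
    rintro _ ⟨i, ⟨hi, j, hj, h1, h2⟩, rfl⟩
    have hmi : blk u (m + 1) i ∈ A := by
      rw [hA]
      exact mem_image_of_mem _ (mem_range.2 hi)
    have hmj : blk u (m + 1) j ∈ A := by
      rw [hA]
      exact mem_image_of_mem _ (mem_range.2 hj)
    rw [hT, mem_coe, mem_filter]
    refine ⟨hmi, ?_⟩
    have hne : blk u (m + 1) i ≠ blk u (m + 1) j := by
      intro h
      apply h2
      have := congrFun h (Fin.last m)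
      simpa [blk] using this
    have hss : ({blk u (m + 1) i, blk u (m + 1) j} : Finset (Fin (m + 1) → ℕ)) ⊆
        A.filter (fun w' => pr w' = pr (blk u (m + 1) i)) := by
      intro w hw
      rw [mem_insert, mem_singleton] at hw
      rcases hw with rfl | rfl
      · exact mem_filter.2 ⟨hmi, rfl⟩
      · refine mem_filter.2 ⟨hmj, ?_⟩
        rw [prb, prb, h1]
    calc 2 = ({blk u (m + 1) i, blk u (m + 1) j} : Finset (Fin (m + 1) → ℕ)).card :=
          (card_pair hne).symm
      _ ≤ _ := card_le_card hss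
  have hTB : T.card + 2 * B.card ≤ 2 * A.card := by
    have h1 : T.card = ∑ v ∈ B, (T.filter (fun w => pr w = v)).card := by
      apply card_eq_sum_card_fiberwise
      intro w hw
      rw [hT, coe_filter] at hw
      exact hmaps w hw.1
    rw [h1, hsum, mul_sum, card_eq_sum_ones, mul_sum, ← sum_add_distrib]
    apply sum_le_sum
    intro v hv
    have h2 := hfib v hv
    by_cases h3 : 2 ≤ (A.filter (fun w => pr w = v)).card
    · have h4 : (T.filter (fun w => pr w = v)).card ≤ (A.filter (fun w => pr w = v)).card := by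
        apply card_le_card
        intro w hw
        rw [mem_filter] at hw ⊢
        rw [hT, mem_filter] at hw
        exact ⟨hw.1.1, hw.2⟩
      omega
    · have h4 : (T.filter (fun w => pr w = v)).card = 0 := by
        rw [card_eq_zero, filter_eq_empty_iff]
        intro w hw hwv
        rw [hT, mem_filter] at hw
        apply h3
        rw [← hwv]
        exact hw.2
      omega
  refine ⟨by rw [eA, eB]; exact hBA, ?_⟩
  rw [eA, eB]
  have h5 : (blk u (m + 1) '' {i | Spe u m X i}).ncard ≤ T.card := by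
    rw [← Set.ncard_coe_finset T]
    exact Set.ncard_le_ncard hsub T.finite_toSet
  omega

end Pool.Agent.SBT
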