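import Pool.Agent.SBT.StmtsD

/-!
# Module VOR: an order of the exponents adapted to a place
-/

set_option autoImplicit false

namespace Pool.Agent.SBT

open Filter

namespace VOR_

theorem av_pos (v : ℕ) (hv : v = 0 ∨ v.Prime) (x : ℚ) (hx : 0 < x) : 0 < av v x := by
  unfold av
  rcases hv with h | h
  · rw [if_pos h]
    have : (x : ℝ) ≠ 0 := by exact_mod_cast hx.ne'
    exact abs_pos.2 this
  · rw [if_neg h.ne_zero]
    have := Fact.mk h
    have h1 : padicNorm v x ≠ 0 := padicNorm.nonzero hx.ne'
    have h2 : 0 ≤ padicNorm v x := padicNorm.nonneg _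
    have h3 : 0 < padicNorm v x := lt_of_le_of_ne h2 (Ne.symm h1)
    exact_mod_cast h3

theorem av_mul (v : ℕ) (hv : v = 0 ∨ v.Prime) (x y : ℚ) : av v (x * y) = av v x * av v y := by
  unfold av
  rcases hv with h | h
  · simp only [if_pos h]
    push_cast
    exact abs_mul _ _
  · simp only [if_neg h.ne_zero]
    have := Fact.mk h
    rw [padicNorm.mul]
    push_cast
    rfl

theorem mon_add {r : ℕ} (g : Fin r → ℕ → ℚ) (e f : Fin r →₀ ℕ) (n : ℕ) :
    mon g (e + f) n = mon g e n * mon g f n := by
  unfold mon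
  rw [← Finset.prod_mul_distrib]
  exact Finset.prod_congr rfl fun i _ => by rw [Finsupp.add_apply, pow_add]

theorem mon_pos {r : ℕ} (g : Fin r → ℕ → ℚ) (hg : ∀ i n, 0 < g i n) (e : Fin r →₀ ℕ) (n : ℕ) :
    0 < mon g e n := Finset.prod_pos fun i _ => pow_pos (hg i n) _

end VOR_

open VOR_ in
theorem vor_proof : Stmt_VOR := by
  intro U v r g hv hg
  set w : (Fin r →₀ ℕ) → ℕ → ℝ := fun e n => av v (mon g e n) with hw
  have hw0 : ∀ e n, 0 < w e n := fun e n => av_pos v hv _ (mon_pos g hg e n)
  have hwa : ∀ e f n, w (e + f) n = w e n * w f n := by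
    intro e f n
    simp only [hw]
    rw [mon_add, av_mul v hv]
  have htri : ∀ e f, (∀ᶠ n in (U : Filter ℕ), w e n < w f n) ∨
      (∀ᶠ n in (U : Filter ℕ), w e n = w f n) ∨ (∀ᶠ n in (U : Filter ℕ), w f n < w e n) := by
    intro e f
    have h1 : ∀ᶠ n in (U : Filter ℕ), (w e n < w f n ∨ w e n = w f n) ∨ w f n < w e n :=
      Eventually.of_forall fun n => by
        rcases lt_trichotomy (w e n) (w f n) with h | h | h
        · exact Or.inl (Or.inl h)
        · exact Or.inl (Or.inr h)
        · exact Or.inr h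
    rcases Ultrafilter.eventually_or.1 h1 with h2 | h2
    · rcases Ultrafilter.eventually_or.1 h2 with h3 | h3
      · exact Or.inl h3
      · exact Or.inr (Or.inl h3)
    · exact Or.inr (Or.inr h2)
  let M := MonomialOrder.lex (σ := Fin r)
  refine ⟨fun e f => (∀ᶠ n in (U : Filter ℕ), w e n < w f n) ∨
    ((∀ᶠ n in (U : Filter ℕ), w e n = w f n) ∧ M.toSyn e < M.toSyn f), ?_, ?_, ?_⟩
  · refine { trichotomous := ?_, irrefl := ?_, trans := ?_ }
    · intro e f h1 h2
      push Not at h1 h2
      rcases htri e f with h | h | h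
      · obtain ⟨n, hn⟩ := (h.and h1.1).exists
        exact absurd hn.1 (not_lt.2 hn.2)
      · have h3 := h1.2 h
        have h4 := h2.2 (h.mono fun n hn => hn.symm)
        exact M.toSyn.injective (le_antisymm h4 h3)
      · obtain ⟨n, hn⟩ := (h.and h2.1).exists
        exact absurd hn.1 (not_lt.2 hn.2)
    · intro e h
      rcases h with h | h
      · obtain ⟨n, hn⟩ := h.exists
        exact lt_irrefl _ hn
      · exact lt_irrefl _ h.2
    · intro e f k h1 h2
      rcases h1 with h1 | h1
      · rcases h2 with h2 | h2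
        · exact Or.inl ((h1.and h2).mono fun n hn => hn.1.trans hn.2)
        · exact Or.inl ((h1.and h2.1).mono fun n hn => hn.1.trans_eq hn.2)
      · rcases h2 with h2 | h2
        · exact Or.inl ((h1.1.and h2).mono fun n hn => hn.1.trans_lt hn.2)
        · exact Or.inr ⟨(h1.1.and h2.1).mono fun n hn => hn.1.trans hn.2, h1.2.trans h2.2⟩
  · intro e e' f h
    rcases h with h | h
    · refine Or.inl (h.mono fun n hn => ?_)
      rw [hwa, hwa]
      exact mul_lt_mul_of_pos_right hn (hw0 f n)
    · refine Or.inr ⟨h.1.mono fun n hn => ?_, ?_⟩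
      · rw [hwa, hwa, hn]
      · rw [map_add, map_add]
        exact (add_lt_add_iff_right _).2 h.2
  · intro e e' h
    rcases h with h | h
    · exact h.mono fun n hn => hn.le
    · exact h.1.mono fun n hn => hn.le

end Pool.Agent.SBT
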