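import Pool.Agent.SBT.StmtsD

/-!
# Squad SBT, section G: the ring theorem (several bases on both sides, polynomials)
# Recipes: /team-store/MP_57632f_SBT_G.md
-/

set_option autoImplicit false

namespace Pool.Agent.SBT

open Filter

/-! ## Definitions -/

/-- sequences of `S`-units of height `exp (O(T))` -/
def Un (U : Ultrafilter ℕ) (S : Finset ℕ) (T : ℕ → ℝ) : Set (ℕ → ℚ) :=
  {u | (∀ n, IsU S (u n)) ∧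
    ∃ C : ℝ, ∀ᶠ n in (U : Filter ℕ), ∀ v ∈ pl S, av v (u n) ≤ Real.exp (C * T n)}

/-- sequences of `S`-units which are small at all places -/
def Sm (U : Ultrafilter ℕ) (S : Finset ℕ) (T : ℕ → ℝ) (B : ℝ) : Set (ℕ → ℚ) :=
  {u | (∀ n, IsU S (u n)) ∧
    ∀ᶠ n in (U : Filter ℕ), ∀ v ∈ pl S, av v (u n) ≤ Real.exp (B * T n)}

/-- the sequences `A n * ω n` with `ω n ∈ W` -/
def Gam (W : Set ℚ) (A : ℕ → ℚ) : Set (ℕ → ℚ) :=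
  {u | ∃ ω : ℕ → ℚ, (∀ n, ω n ∈ W) ∧ ∀ n, u n = A n * ω n}

/-- sequences of `S`-units of height `exp (O(T))` which are at all places at most `exp (B T)` times
an element of `Gam W A` -/
def Bg (U : Ultrafilter ℕ) (S : Finset ℕ) (T : ℕ → ℝ) (W : Set ℚ) (A : ℕ → ℚ) (B : ℝ) :
    Set (ℕ → ℚ) :=
  {u | u ∈ Un U S T ∧ ∃ w ∈ Gam W A,
    ∀ᶠ n in (U : Filter ℕ), ∀ v ∈ pl S, av v (u n) ≤ Real.exp (B * T n) * av v (w n)}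

/-- constant times a product of powers of the `g i` -/
def Gg (U : Ultrafilter ℕ) {r : ℕ} (g : Fin r → ℕ → ℚ) : Set (ℕ → ℚ) :=
  {u | ∃ (κ : ℚ) (e : Fin r → ℤ), 0 < κ ∧ ∀ᶠ n in (U : Filter ℕ), u n = κ * ∏ i, g i n ^ e i}

/-- integral linear combinations of elements of `Γ` -/
def Lc (U : Ultrafilter ℕ) (Γ : Set (ℕ → ℚ)) (f : ℕ → ℚ) : Prop :=
  ∃ (N : ℕ) (c : Fin N → ℤ) (u : Fin N → ℕ → ℚ), (∀ t, u t ∈ Γ) ∧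
    ∀ᶠ n in (U : Filter ℕ), f n = ∑ t, (c t : ℚ) * u t n

/-- a description of the integer sequence `R` by the integer sequences `Z`, adapted to the
set `Γ` of sequences -/
def Dsg (U : Ultrafilter ℕ) (S : Finset ℕ) (T : ℕ → ℝ) {r d : ℕ} (g : Fin r → ℕ → ℚ)
    (Γ : Set (ℕ → ℚ)) (Z : Fin d → ℕ → ℤ) (R : ℕ → ℤ) (B : ℝ) : Prop :=
  ∃ (P₀ : MvPolynomial (Fin r) ℚ) (P : Fin d → MvPolynomial (Fin r) ℚ) (ν : ℕ → ℚ),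
    P₀ ≠ 0 ∧ (∀ n, IsU S (ν n)) ∧
    (∀ᶠ n in (U : Filter ℕ), ev g n P₀ * (R n : ℚ) = ∑ i, ev g n (P i) * (Z i n : ℚ)) ∧
    (∀ e ∈ P₀.support, ∀ᶠ n in (U : Filter ℕ), ∀ v ∈ pl S,
      av v (mon g e n) ≤ Real.exp (B * T n) * av v (ν n)) ∧
    ∀ i, ∀ e ∈ (P i).support, ∃ u ∈ Γ, ∀ᶠ n in (U : Filter ℕ), ∀ v ∈ pl S,
      av v (mon g e n) ≤ Real.exp (B * T n) * av v (u n * ν n)

/-- elements of `W` and `W'` are close at all places of `S` only if they are small at all of them -/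
def Sep (S : Finset ℕ) (W W' : Set ℚ) : Prop :=
  ∃ C : ℝ, 0 < C ∧ ∀ x ∈ W, ∀ x' ∈ W', ∀ E : ℝ, 0 ≤ E →
    (∀ p ∈ S, av p x ≤ Real.exp E * av p x' ∧ av p x' ≤ Real.exp E * av p x) →
    ∀ p ∈ S, av p x ≤ Real.exp (C * E) ∧ 1 ≤ Real.exp (C * E) * av p x

/-- the products of integral powers of the `a i`, `i ∈ A`, for the sets `A ∈ I` -/
def Grp {k : ℕ} (a : Fin k → ℕ) (I : Finset (Finset (Fin k))) : Set ℚ :=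
  {x | ∃ A ∈ I, ∃ e : Fin k → ℤ, (∀ i ∉ A, e i = 0) ∧ x = ∏ i, (a i : ℚ) ^ e i}

/-- for all monomials of `P` and `Q` the multiplicative groups generated by the `a i` whose variables
occur in the monomial of `P` and by the `b j` whose variables occur in the monomial of `Q` have
trivial intersection -/
def IndM {k l : ℕ} (a : Fin k → ℕ) (b : Fin l → ℕ) (P : MvPolynomial (Fin k) ℚ)
    (Q : MvPolynomial (Fin l) ℚ) : Prop :=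
  ∀ α ∈ P.support, ∀ β ∈ Q.support, ∀ (e : Fin k → ℤ) (f : Fin l → ℤ),
    (∀ i, α i = 0 → e i = 0) → (∀ j, β j = 0 → f j = 0) →
    ∏ i, (a i : ℚ) ^ e i = ∏ j, (b j : ℚ) ^ f j → ∏ i, (a i : ℚ) ^ e i = 1

/-! ## Units, general form -/

/-- LCC: calculus of `Lc`. Uses nothing. -/
def Stmt_LCC : Prop :=
  ∀ U : Ultrafilter ℕ,
    (∀ Γ, Lc U Γ 0) ∧ (∀ Γ f g, Lc U Γ f → Lc U Γ g → Lc U Γ (f + g)) ∧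
    (∀ Γ Γ' Γ'' f g, Lc U Γ f → Lc U Γ' g → (∀ u ∈ Γ, ∀ u' ∈ Γ', u * u' ∈ Γ'') →
      Lc U Γ'' (f * g)) ∧
    (∀ Γ Γ' f, Γ ⊆ Γ' → Lc U Γ f → Lc U Γ' f) ∧
    (∀ Γ f (c : ℤ), Lc U Γ f → Lc U Γ (fun n => (c : ℚ) * f n)) ∧
    (∀ Γ f, (f ∈ Γ) → Lc U Γ f) ∧
    (∀ Γ f g, Lc U Γ f → (∀ᶠ n in (U : Filter ℕ), f n = g n) → Lc U Γ g) ∧
    ∀ (a N : ℕ) (M : ℕ → ℕ) (F : ℕ → ℤ), (∀ᶠ n in (U : Filter ℕ), Rep a N (M n) (F n)) →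
      Lc U {u | ∃ m : ℕ → ℕ, (∀ n, m n ≤ M n) ∧ ∀ n, u n = (a : ℚ) ^ m n} (fun n => (F n : ℚ))

/-- BAG: a basis. Uses BAS. -/
def Stmt_BAG : Prop :=
  ∀ (U : Ultrafilter ℕ) (S : Finset ℕ) (T : ℕ → ℝ) (K : ℕ) (u : Fin K → ℕ → ℚ), PS S →
    Tendsto T (U : Filter ℕ) atTop → (∀ k, u k ∈ Un U S T) →
    ∃ (r : ℕ) (g : Fin r → ℕ → ℚ), Gd U S T g ∧ ∀ k, u k ∈ Gg U g

/-- EG1: elimination of one integer (EL1 for `Dsg`). Uses UNI, S1T. -/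
def Stmt_EG1 : Prop :=
  ∀ (U : Ultrafilter ℕ) (S : Finset ℕ) (T : ℕ → ℝ) (r d : ℕ) (ι : Type) (g : Fin r → ℕ → ℚ)
    (Γ : ι → Set (ℕ → ℚ)) (Z : Fin (d + 1) → ℕ → ℤ) (R : ι → ℕ → ℤ) (B B₀ : ℝ),
    Gd U S T g → 0 ≤ B →
    (∀ᶠ n in (U : Filter ℕ), ∀ i, |(Z i n : ℝ)| ≤ Real.exp (B * T n)) → ¬ Indp U g Z →
    (∀ t, Dsg U S T g (Γ t) Z (R t) B₀) →
    ∃ Z' : Fin d → ℕ → ℤ, (∀ i, ∃ j, Z' i = Z j) ∧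
      ∀ t, Dsg U S T g (Γ t) Z' (R t) (B₀ + (d + 1) * B + 1)

/-- EGM: elimination (ELM for `Dsg`). Uses EG1. -/
def Stmt_EGM : Prop :=
  ∀ (U : Ultrafilter ℕ) (S : Finset ℕ) (T : ℕ → ℝ) (r d : ℕ) (ι : Type) (g : Fin r → ℕ → ℚ)
    (Γ : ι → Set (ℕ → ℚ)) (Z : Fin d → ℕ → ℤ) (R : ι → ℕ → ℤ) (B B₀ : ℝ), Gd U S T g → 0 ≤ B →
    (∀ᶠ n in (U : Filter ℕ), ∀ i, |(Z i n : ℝ)| ≤ Real.exp (B * T n)) →
    (∀ t, Dsg U S T g (Γ t) Z (R t) B₀) →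
    ∃ (d' : ℕ) (Z' : Fin d' → ℕ → ℤ), d' ≤ d ∧
      (∀ᶠ n in (U : Filter ℕ), ∀ i, |(Z' i n : ℝ)| ≤ Real.exp (B * T n)) ∧ Indp U g Z' ∧
      ∀ t, Dsg U S T g (Γ t) Z' (R t) (B₀ + d * (d * B + 1))

/-- ING: the first description. Uses nothing. -/
def Stmt_ING : Prop :=
  ∀ (U : Ultrafilter ℕ) (S : Finset ℕ) (T : ℕ → ℝ) (r s : ℕ) (g : Fin r → ℕ → ℚ) (W : Set ℚ)
    (A : ℕ → ℚ) (y : Fin s → ℕ → ℤ) (R : ℕ → ℤ) (f₀ : ℕ → ℚ) (f : Fin s → ℕ → ℚ) (B : ℝ),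
    Gd U S T g → 0 ≤ B → Lc U (Sm U S T B ∩ Gg U g) f₀ →
    (∀ i, Lc U (Bg U S T W A B ∩ Gg U g) (f i)) → (∀ᶠ n in (U : Filter ℕ), f₀ n ≠ 0) →
    (∀ᶠ n in (U : Filter ℕ), f₀ n * (R n : ℚ) = ∑ i, f i n * (y i n : ℚ)) →
    Dsg U S T g (Gam W A) y R (B + 1)

/-- APG: a rational approximation (APX, general form). Uses UNI, S2T. -/
def Stmt_APG : Prop :=
  ∀ (s : ℕ) (S : Finset ℕ) (W W' : Set ℚ) (B B₀ : ℝ), PS S → (∀ x ∈ W, IsU S x) →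
    (∀ x ∈ W', IsU S x) → Sep S W W' → 0 ≤ B → 0 ≤ B₀ →
    ∃ E : ℝ, 0 ≤ E ∧ ∀ (U : Ultrafilter ℕ) (T : ℕ → ℝ) (r d : ℕ) (g : Fin r → ℕ → ℚ)
      (Z : Fin d → ℕ → ℤ) (ξ Λ : ℝ) (A A' : ℕ → ℚ) (R R' : ℕ → ℤ), Gd U S T g → d ≤ s →
      (∀ᶠ n in (U : Filter ℕ), ∀ i, |(Z i n : ℝ)| ≤ Real.exp (B * T n)) → Indp U g Z →
      (∀ n, IsU S (A n)) → (∀ n, IsU S (A' n)) → A ∈ Gg U g → A' ∈ Gg U g →
      Dsg U S T g (Gam W A) Z R B₀ → Dsg U S T g (Gam W' A') Z R' B₀ →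
      (∀ᶠ n in (U : Filter ℕ), |ξ - R n / A n| ≤ Real.exp (-(Λ * T n))) →
      (∀ᶠ n in (U : Filter ℕ), |ξ - R' n / A' n| ≤ Real.exp (-(Λ * T n))) →
      ∃ (X : ℕ → ℤ) (Q : ℕ → ℕ), ∀ᶠ n in (U : Filter ℕ), 0 < Q n ∧
        (Q n : ℝ) ≤ Real.exp (E * T n) ∧ |ξ - X n / Q n| ≤ Real.exp ((E - Λ) * T n)

/-- COG: the core theorem, general form. Uses BAG, ING, EGM, APG. -/
def Stmt_COG : Prop :=
  ∀ (S : Finset ℕ) (W : Fin 2 → Set ℚ) (ξ : ℝ) (μ : ℕ), PS S → (∀ r, ∀ x ∈ W r, IsU S x) →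
    Sep S (W 0) (W 1) → Meas ξ μ → ∀ (s : ℕ) (B : ℝ), 0 ≤ B → ∃ Λ : ℝ,
      ∀ (U : Ultrafilter ℕ) (T : ℕ → ℝ) (y : Fin s → ℕ → ℤ) (R : Fin 2 → ℕ → ℤ)
        (A : Fin 2 → ℕ → ℚ) (f₀ : Fin 2 → ℕ → ℚ) (f : Fin 2 → Fin s → ℕ → ℚ),
        Tendsto T (U : Filter ℕ) atTop →
        (∀ᶠ n in (U : Filter ℕ), ∀ i, |(y i n : ℝ)| ≤ Real.exp (B * T n)) →
        (∀ r, A r ∈ Un U S T) → (∀ r, Lc U (Sm U S T B) (f₀ r)) →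
        (∀ r i, Lc U (Bg U S T (W r) (A r) B) (f r i)) →
        (∀ r, ∀ᶠ n in (U : Filter ℕ), f₀ r n ≠ 0) →
        (∀ r, ∀ᶠ n in (U : Filter ℕ), f₀ r n * (R r n : ℚ) = ∑ i, f r i n * (y i n : ℚ)) →
        (∀ r, ∀ᶠ n in (U : Filter ℕ), |ξ - R r n / A r n| ≤ Real.exp (-(Λ * T n))) → False

/-- SEP: separation of groups of units. Uses nothing. -/
def Stmt_SEP : Prop :=
  ∀ (k l : ℕ) (S : Finset ℕ) (a : Fin k → ℕ) (b : Fin l → ℕ) (I : Finset (Finset (Fin k)))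
    (J : Finset (Finset (Fin l))), PS S → (∀ i, 1 ≤ a i) → (∀ j, 1 ≤ b j) →
    (∀ p : ℕ, p.Prime → ((∃ i, p ∣ a i) ∨ ∃ j, p ∣ b j) → p ∈ S) →
    (∀ A ∈ I, ∀ B ∈ J, ∀ (e : Fin k → ℤ) (f : Fin l → ℤ), (∀ i ∉ A, e i = 0) →
      (∀ j ∉ B, f j = 0) → ∏ i, (a i : ℚ) ^ e i = ∏ j, (b j : ℚ) ^ f j →
      ∏ i, (a i : ℚ) ^ e i = 1) →
    Sep S (Grp a I) (Grp b J)

/-! ## The ring theorem -/

/-- RNC: the core of the ring theorem. Uses COG, SEP, LCC. -/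
def Stmt_RNC : Prop :=
  ∀ (k : ℕ) (bs : Fin 2 → Fin k → ℕ) (ξ : ℝ) (μ : ℕ) (x : Fin 2 → Fin k → ℝ)
    (P : Fin 2 → MvPolynomial (Fin k) ℚ), (∀ r i, 2 ≤ bs r i) →
    IndM (bs 0) (bs 1) (P 0) (P 1) → Meas ξ μ → (∀ r, MvPolynomial.aeval (x r) (P r) = ξ) →
    ∀ (s : ℕ) (B : ℝ), 0 ≤ B → ∃ Λ : ℝ,
      ∀ (U : Ultrafilter ℕ) (L : Fin 2 → Fin k → ℕ → ℕ) (q : Fin 2 → Fin k → Fin s → ℕ → ℕ)
        (y : Fin 2 → Fin k → Fin s → ℕ → ℤ) (N : ℕ), (U : Filter ℕ) ≤ atTop →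
        (∀ r i, ∀ᶠ n in (U : Filter ℕ), Λ * n ≤ L r i n ∧ L r i n ≤ N * n) →
        (∀ r i j, ∀ᶠ n in (U : Filter ℕ), 1 ≤ q r i j n ∧ (q r i j n : ℝ) ≤ B * n) →
        (∀ r i j, ∀ᶠ n in (U : Filter ℕ), |(y r i j n : ℝ)| ≤ Real.exp (B * n)) →
        (∀ r i, ∀ᶠ n in (U : Filter ℕ), ∃ F : Fin s → ℤ, (∀ j, Rep (bs r i) N (N * n) (F j)) ∧
          (∏ j, ((bs r i : ℤ) ^ q r i j n - 1)) * ⌊x r i * (bs r i : ℝ) ^ L r i n⌋ =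
            ∑ j, F j * y r i j n) → False

/-- STG: the structure theorem for all places. Uses STF, RPA. -/
def Stmt_STG : Prop :=
  ∀ C : ℕ, ∃ s B : ℕ, ∀ Λ : ℕ, ∃ N : ℕ, ∀ (a n : ℕ) (u : ℕ → ℕ) (P : ℕ → ℤ), 2 ≤ a → 8 ≤ n →
    (∀ i, u i < a) → (∀ i, P (i + 1) = a * P i + u i) → nbl u n (Λ * n) ≤ C * n →
    ∃ (q : Fin s → ℕ) (y : Fin s → ℤ), (∀ i, 1 ≤ q i ∧ q i ≤ B * n) ∧
      (∀ i, |y i| ≤ (|P 0| + 1) * (a : ℤ) ^ (B * n)) ∧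
      ∀ z, z + B * n < Λ * n → ∃ L, z ≤ L ∧ L ≤ z + B * n ∧ ∃ F : Fin s → ℤ,
        (∀ i, Rep a N (N * n) (F i)) ∧ (∏ i, ((a : ℤ) ^ q i - 1)) * P L = ∑ i, F i * y i

/-- RNG: the ring theorem: block complexity. Uses RNC, STG, DGT, RPA. -/
def Stmt_RNG : Prop :=
  ∀ (k : ℕ) (bs : Fin 2 → Fin k → ℕ) (ξ : ℝ) (μ : ℕ) (x : Fin 2 → Fin k → ℝ)
    (P : Fin 2 → MvPolynomial (Fin k) ℚ), (∀ r i, 2 ≤ bs r i) →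
    IndM (bs 0) (bs 1) (P 0) (P 1) → Meas ξ μ → (∀ r, MvPolynomial.aeval (x r) (P r) = ξ) →
    ∀ C : ℕ, ∃ Λ : ℕ, ∀ᶠ n in atTop, C * n ≤ ∑ r, ∑ i, cnt (bs r i) (x r i) n (Λ * n)

/-- the first `X` digits of `x` in base `b` are a product of `N` powers of words from a set of
`s` nonempty words of length at most `M` -/
def Fac (b : ℕ) (x : ℝ) (X s M N : ℕ) : Prop :=
  ∃ (w : Fin s → List ℤ) (t : Fin N → Fin s) (e : Fin N → ℕ),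
    (∀ j, 1 ≤ (w j).length ∧ (w j).length ≤ M) ∧
    (List.range X).map (fun i => dig b x (i + 1)) =
      (List.ofFn fun j => (List.replicate (e j) (w (t j))).flatten).flatten

/-- RNP: the ring theorem: powers of words. Uses RNC, DGT, RPA. -/
def Stmt_RNP : Prop :=
  ∀ (k : ℕ) (bs : Fin 2 → Fin k → ℕ) (ξ : ℝ) (μ : ℕ) (x : Fin 2 → Fin k → ℝ)
    (P : Fin 2 → MvPolynomial (Fin k) ℚ), (∀ r i, 2 ≤ bs r i) →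
    IndM (bs 0) (bs 1) (P 0) (P 1) → Meas ξ μ → (∀ r, MvPolynomial.aeval (x r) (P r) = ξ) →
    ∀ s B : ℕ, ∃ Λ : ℕ, ∀ N : ℕ, ∀ᶠ n in atTop,
      ∃ r i, ¬ Fac (bs r i) (x r i) (Λ * n) s (B * n) N

end Pool.Agent.SBT
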