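import Pool.Agent.SBT.EL1
import Pool.Agent.SBT.StmtsG

/-!
# EG1: elimination of one integer, general form
-/

set_option autoImplicit false

namespace Pool.Agent.SBT

open Filter

open EL1 in
theorem eg1_proof (uniH : Stmt_UNI) (s1t : Stmt_S1T) : Stmt_EG1 := by
  classical
  intro U S T r d ι g Γ Z R B B₀ hGd hB hZ hI hD
  have hS := hGd.prime
  have uni : ∀ H : MvPolynomial (Fin r) ℚ, (∀ᶠ n in (U : Filter ℕ), ev g n H = 0) → H = 0 :=
    uniH U S r g hS hGd.unit hGd.ind
  obtain ⟨H, hH0, hR, hmin, hprim⟩ := exists_prim U g Z uni hI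
  obtain ⟨j₀, hj₀⟩ : ∃ i, H i ≠ 0 := by
    by_contra hc
    push Not at hc
    exact hH0 (funext hc)
  have hht := height s1t U S T g Z B hGd hB hZ H hR hmin hprim
  -- the unit of the relation
  obtain ⟨e₁, he₁⟩ : ∃ e, e ∈ (H j₀).support :=
    Finset.nonempty_iff_ne_empty.2 (fun hc => hj₀ (MvPolynomial.support_eq_empty.1 hc))
  let μ : ℕ → ℚ := fun n => mon g e₁ n
  have hμ1 : ∀ n, IsU S (μ n) := fun n =>
    isU_prod hS _ _ fun i _ => (hGd.unit i n).pow hS _
  -- the bound at all places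
  have hall : ∀ i, ∀ e ∈ (H i).support, ∀ᶠ n in (U : Filter ℕ), ∀ v ∈ pl S,
      av v (mon g e n) ≤ Real.exp (((d + 1 : ℕ) * B + 1) * T n) * av v (μ n) := by
    intro i e he
    rw [Filter.eventually_all_finset]
    intro v hv
    have h1 := hht (fun w => if w = v then e else e₁) (by
      intro w hw
      by_cases hwv : w = v
      · simp only [hwv, if_true]
        exact ⟨i, he⟩
      · simp only [hwv, if_false]
        exact ⟨j₀, he₁⟩)
    filter_upwards [h1] with n hn1
    have h2 := (hμ1 n).2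
    rw [← Finset.mul_prod_erase _ _ hv] at hn1 h2
    rw [if_pos rfl] at hn1
    have h3 : ∏ w ∈ (pl S).erase v, av w (mon g (if w = v then e else e₁) n) =
        ∏ w ∈ (pl S).erase v, av w (μ n) := by
      refine Finset.prod_congr rfl fun w hw => ?_
      rw [if_neg (Finset.ne_of_mem_erase hw)]
    rw [h3] at hn1
    have h5 : 0 ≤ av v (μ n) := av_nonneg _ _
    calc av v (mon g e n) =
          av v (mon g e n) * (∏ w ∈ (pl S).erase v, av w (μ n)) * av v (μ n) := by
          rw [mul_assoc, mul_comm (∏ w ∈ (pl S).erase v, av w (μ n)), h2, mul_one]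
      _ ≤ _ := mul_le_mul_of_nonneg_right hn1 h5
  refine ⟨fun i => Z (j₀.succAbove i), fun i => ⟨_, rfl⟩, ?_⟩
  intro t
  obtain ⟨P₀, P, ν, hP₀, hν, hrel, hb1, hb2⟩ := hD t
  have hexp : ∀ n, (B₀ + (d + 1) * B + 1) * T n =
      B₀ * T n + ((d + 1 : ℕ) * B + 1) * T n := by
    intro n
    push_cast
    ring
  have hprod : ∀ i j, ∀ e ∈ (P i * H j).support, ∃ u ∈ Γ t,
      ∀ᶠ n in (U : Filter ℕ), ∀ v ∈ pl S, av v (mon g e n) ≤
        Real.exp ((B₀ + (d + 1) * B + 1) * T n) * av v (u n * (ν n * μ n)) := by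
    intro i j e he
    obtain ⟨a, ha, b, hb, rfl⟩ := mem_support_mul _ _ _ he
    obtain ⟨m, hmΓ, hm⟩ := hb2 i a ha
    refine ⟨m, hmΓ, ?_⟩
    filter_upwards [hm, hall j b hb] with n hn1 hn2 v hv
    have hpp := place_of_mem hS hv
    rw [mon_add, av_mul hpp, ← mul_assoc (m n), av_mul hpp _ (μ n)]
    calc av v (mon g a n) * av v (mon g b n)
        ≤ (Real.exp (B₀ * T n) * av v (m n * ν n)) *
          (Real.exp (((d + 1 : ℕ) * B + 1) * T n) * av v (μ n)) :=
          mul_le_mul (hn1 v hv) (hn2 v hv) (av_nonneg _ _)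
            (mul_nonneg (Real.exp_pos _).le (av_nonneg _ _))
      _ = Real.exp ((B₀ + (d + 1) * B + 1) * T n) *
          (av v (m n * ν n) * av v (μ n)) := by
          rw [hexp, Real.exp_add]
          ring
  refine ⟨P₀ * H j₀, fun i => P (j₀.succAbove i) * H j₀ - P j₀ * H (j₀.succAbove i),
    fun n => ν n * μ n, mul_ne_zero hP₀ hj₀, fun n => (hν n).mul hS (hμ1 n), ?_, ?_, ?_⟩
  · filter_upwards [hrel, hR] with n hn1 hn2
    rw [Fin.sum_univ_succAbove _ j₀] at hn1 hn2
    have e1 : ∑ i, ev g n (P (j₀.succAbove i) * H j₀ - P j₀ * H (j₀.succAbove i)) *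
        (Z (j₀.succAbove i) n : ℚ) =
        ev g n (H j₀) * (∑ i, ev g n (P (j₀.succAbove i)) * (Z (j₀.succAbove i) n : ℚ)) -
          ev g n (P j₀) * ∑ i, ev g n (H (j₀.succAbove i)) * (Z (j₀.succAbove i) n : ℚ) := by
      rw [Finset.mul_sum, Finset.mul_sum, ← Finset.sum_sub_distrib]
      refine Finset.sum_congr rfl fun i _ => ?_
      rw [ev_sub, ev_mul, ev_mul]
      ring
    rw [e1, ev_mul]
    linear_combination (ev g n (H j₀)) * hn1 + (ev g n (P j₀)) * hn2
  · intro e he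
    obtain ⟨a, ha, b, hb, rfl⟩ := mem_support_mul _ _ _ he
    filter_upwards [hb1 a ha, hall j₀ b hb] with n hn1 hn2 v hv
    have hpp := place_of_mem hS hv
    rw [mon_add, av_mul hpp, av_mul hpp]
    calc av v (mon g a n) * av v (mon g b n)
        ≤ (Real.exp (B₀ * T n) * av v (ν n)) *
          (Real.exp (((d + 1 : ℕ) * B + 1) * T n) * av v (μ n)) :=
          mul_le_mul (hn1 v hv) (hn2 v hv) (av_nonneg _ _)
            (mul_nonneg (Real.exp_pos _).le (av_nonneg _ _))
      _ = Real.exp ((B₀ + (d + 1) * B + 1) * T n) * (av v (ν n) * av v (μ n)) := by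
          rw [hexp, Real.exp_add]
          ring
  · intro i e he
    have := MvPolynomial.support_sub _ _ _ he
    rcases Finset.mem_union.1 this with h | h
    · exact hprod _ _ e h
    · exact hprod _ _ e h

end Pool.Agent.SBT
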