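import Pool.Agent.SBT.StmtsD
import Pool.Agent.SBT.Api

/-!
# S1T: the height of a primitive relation
-/

set_option autoImplicit false

namespace Pool.Agent.SBT

namespace S1T_

open Filter Finset

theorem mon_add {r : ℕ} (g : Fin r → ℕ → ℚ) (a b : Fin r →₀ ℕ) (n : ℕ) :
    mon g (a + b) n = mon g a n * mon g b n := by
  unfold mon
  rw [← Finset.prod_mul_distrib]
  refine Finset.prod_congr rfl fun i _ => ?_
  rw [Finsupp.add_apply, pow_add]

theorem ev_monomial {r : ℕ} (g : Fin r → ℕ → ℚ) (n : ℕ) (f : Fin r →₀ ℕ) (c : ℚ) :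
    ev g n (MvPolynomial.monomial f c) = c * mon g f n := by
  unfold ev mon
  rw [MvPolynomial.eval_monomial, Finsupp.prod_fintype _ _ (fun i => pow_zero _)]

theorem isU_mon {S : Finset ℕ} (hS : PS S) {r : ℕ} {g : Fin r → ℕ → ℚ}
    (hg : ∀ i n, IsU S (g i n)) (f : Fin r →₀ ℕ) (n : ℕ) : IsU S (mon g f n) :=
  isU_prod hS _ _ fun i _ => (hg i n).pow hS _

/-- proportional to a primitive vector -/
theorem exists_mul {r d : ℕ} {H G : Fin d → MvPolynomial (Fin r) ℚ} (i₀ : Fin d)
    (h0 : H i₀ ≠ 0) (hprim : ∀ A, (∀ i, A ∣ H i) → IsUnit A)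
    (hp : ∀ i j, G i * H j = G j * H i) : ∃ A, ∀ i, G i = A * H i := by
  obtain ⟨q, p, t, hqp, hq, hp'⟩ :=
    UniqueFactorizationMonoid.exists_reduced_factors (H i₀) h0 (G i₀)
  have ht : t ≠ 0 := by
    rintro rfl
    apply h0
    rw [← hq, zero_mul]
  have h1 : ∀ j, q * G j = p * H j := by
    intro j
    have := hp i₀ j
    rw [← hq, ← hp'] at this
    have h2 : t * (q * G j) = t * (p * H j) := by
      calc t * (q * G j) = G j * (t * q) := by ring
        _ = t * p * H j := this.symm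
        _ = t * (p * H j) := by ring
    exact mul_left_cancel₀ ht h2
  have h3 : ∀ j, q ∣ H j := by
    intro j
    have : q ∣ p * H j := ⟨G j, (h1 j).symm⟩
    exact hqp.dvd_of_dvd_mul_left this
  obtain ⟨u, hu⟩ := hprim q h3
  refine ⟨↑u⁻¹ * p, fun i => ?_⟩
  rw [mul_assoc, ← h1 i, ← hu, ← mul_assoc, Units.inv_mul, one_mul]

/-- a maximal element of a finite set for a strict total order -/
theorem exists_max {α : Type} (lt : α → α → Prop) (hlt : IsStrictTotalOrder α lt)
    (s : Finset α) (hs : s.Nonempty) : ∃ a ∈ s, ∀ b ∈ s, b = a ∨ lt b a := by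
  classical
  induction hs using Finset.Nonempty.cons_induction with
  | singleton a => exact ⟨a, by simp, by simp⟩
  | cons b s hb hs ih =>
    obtain ⟨a, ha, hmax⟩ := ih
    have htri : lt a b ∨ a = b ∨ lt b a := by
      by_cases h1 : lt a b
      · exact Or.inl h1
      · by_cases h2 : lt b a
        · exact Or.inr (Or.inr h2)
        · exact Or.inr (Or.inl (hlt.trichotomous a b h1 h2))
    rcases htri with h | h | h
    · refine ⟨b, by simp, ?_⟩
      intro c hc
      rcases Finset.mem_cons.1 hc with rfl | hc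
      · exact Or.inl rfl
      · rcases hmax c hc with rfl | h'
        · exact Or.inr h
        · exact Or.inr (hlt.trans _ _ _ h' h)
    · subst h
      exact absurd ha hb
    · refine ⟨a, by simp [ha], ?_⟩
      intro c hc
      rcases Finset.mem_cons.1 hc with rfl | hc
      · exact Or.inr h
      · exact hmax c hc

/-- the elements of the box that remain at a place -/
noncomputable def rem {r d : ℕ} (E Emax : Finset (Fin r →₀ ℕ)) (eM : Fin r →₀ ℕ) (i : Fin d) :
    Finset ({f // f ∈ Emax} × Fin d) :=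
  Finset.univ.filter fun j => ¬ (j.2 = i ∧ ∃ a ∈ E, a + eM = j.1.1)

theorem card_rem {r d : ℕ} (E Emax : Finset (Fin r →₀ ℕ)) (eM : Fin r →₀ ℕ) (i : Fin d)
    (h : ∀ a ∈ E, a + eM ∈ Emax) : (rem E Emax eM i).card + E.card = d * Emax.card := by
  classical
  have h1 : (Finset.univ.filter fun j : {f // f ∈ Emax} × Fin d =>
      (j.2 = i ∧ ∃ a ∈ E, a + eM = j.1.1)).card = E.card := by
    symm
    refine Finset.card_bij (fun a ha => (⟨a + eM, h a ha⟩, i)) ?_ ?_ ?_
    · intro a ha
      simp only [Finset.mem_filter, Finset.mem_univ, true_and]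
      exact ⟨a, ha, rfl⟩
    · intro a ha b hb hab
      have := congrArg (fun j => j.1.1) hab
      simpa using this
    · rintro ⟨⟨f, hf⟩, j⟩ hj
      simp only [Finset.mem_filter, Finset.mem_univ, true_and] at hj
      obtain ⟨rfl, a, ha, rfl⟩ := hj
      exact ⟨a, ha, rfl⟩
  have h2 := Finset.card_filter_add_card_filter_not (s := (Finset.univ : Finset ({f // f ∈ Emax} × Fin d)))
    (p := fun j => (j.2 = i ∧ ∃ a ∈ E, a + eM = j.1.1))
  rw [h1] at h2
  unfold rem
  rw [add_comm, h2]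
  simp [mul_comm]

/-- polynomials with given coefficients in a box -/
noncomputable def pol {r : ℕ} (Emax : Finset (Fin r →₀ ℕ)) (c : {f // f ∈ Emax} → ℚ) :
    MvPolynomial (Fin r) ℚ :=
  ∑ f : {f // f ∈ Emax}, MvPolynomial.monomial f.1 (c f)

theorem coeff_pol {r : ℕ} (Emax : Finset (Fin r →₀ ℕ)) (c : {f // f ∈ Emax} → ℚ)
    (f : {f // f ∈ Emax}) : MvPolynomial.coeff f.1 (pol Emax c) = c f := by
  classical
  unfold pol
  rw [MvPolynomial.coeff_sum]
  simp only [MvPolynomial.coeff_monomial]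
  rw [Finset.sum_eq_single f]
  · simp
  · intro b _ hb
    rw [if_neg]
    exact fun h => hb (Subtype.ext h)
  · intro h
    exact absurd (Finset.mem_univ f) h

theorem support_pol {r : ℕ} (Emax : Finset (Fin r →₀ ℕ)) (c : {f // f ∈ Emax} → ℚ) :
    (pol Emax c).support ⊆ Emax := by
  classical
  intro f hf
  by_contra hne
  rw [MvPolynomial.mem_support_iff] at hf
  apply hf
  unfold pol
  rw [MvPolynomial.coeff_sum]
  apply Finset.sum_eq_zero
  intro b _
  rw [MvPolynomial.coeff_monomial, if_neg]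
  rintro rfl
  exact hne b.2

theorem ev_pol {r : ℕ} (g : Fin r → ℕ → ℚ) (n : ℕ) (Emax : Finset (Fin r →₀ ℕ))
    (c : {f // f ∈ Emax} → ℚ) : ev g n (pol Emax c) = ∑ f, c f * mon g f.1 n := by
  unfold pol
  have : ev g n (∑ f : {f // f ∈ Emax}, MvPolynomial.monomial f.1 (c f)) =
      ∑ f : {f // f ∈ Emax}, ev g n (MvPolynomial.monomial f.1 (c f)) := by
    unfold ev
    rw [map_sum]
  rw [this]
  exact Finset.sum_congr rfl fun f _ => ev_monomial g n f.1 (c f)

theorem pol_eq {r : ℕ} (Emax : Finset (Fin r →₀ ℕ)) (P : MvPolynomial (Fin r) ℚ)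
    (h : P.support ⊆ Emax) : pol Emax (fun f => MvPolynomial.coeff f.1 P) = P := by
  classical
  ext f
  by_cases hf : f ∈ Emax
  · exact coeff_pol Emax _ ⟨f, hf⟩
  · have h1 : MvPolynomial.coeff f P = 0 := by
      by_contra hne
      exact hf (h (MvPolynomial.mem_support_iff.2 hne))
    have h2 : MvPolynomial.coeff f (pol Emax fun f => MvPolynomial.coeff f.1 P) = 0 := by
      by_contra hne
      exact hf (support_pol Emax _ (MvPolynomial.mem_support_iff.2 hne))
    rw [h1, h2]

theorem totalDegree_le_iff {r : ℕ} (h : ℕ) (P : MvPolynomial (Fin r) ℚ) :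
    P.totalDegree ≤ h ↔ ∀ e ∈ P.support, ∑ i, e i ≤ h := by
  unfold MvPolynomial.totalDegree
  rw [Finset.sup_le_iff]
  constructor
  · intro hh e he
    have := hh e he
    rwa [Finsupp.sum_fintype _ _ (fun _ => rfl)] at this
  · intro hh e he
    rw [Finsupp.sum_fintype _ _ (fun _ => rfl)]
    exact hh e he

/-- the elements of the box as sequences -/
noncomputable def xs {r d : ℕ} (Emax : Finset (Fin r →₀ ℕ)) (g : Fin r → ℕ → ℚ)
    (Z : Fin d → ℕ → ℤ) (j : {f // f ∈ Emax} × Fin d) (n : ℕ) : ℚ := mon g j.1.1 n * (Z j.2 n : ℚ)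

theorem sum_xs {r d : ℕ} (Emax : Finset (Fin r →₀ ℕ)) (g : Fin r → ℕ → ℚ)
    (Z : Fin d → ℕ → ℤ) (c : {f // f ∈ Emax} × Fin d → ℚ) (n : ℕ) :
    ∑ j, c j * xs Emax g Z j n =
      ∑ i, ev g n (pol Emax fun f => c (f, i)) * (Z i n : ℚ) := by
  rw [Fintype.sum_prod_type_right]
  refine Finset.sum_congr rfl fun i _ => ?_
  rw [ev_pol, Finset.sum_mul]
  refine Finset.sum_congr rfl fun f _ => ?_
  unfold xs
  ring

/-- independence of the elements that remain -/
theorem li_rem {U : Ultrafilter ℕ} {r d : ℕ} {g : Fin r → ℕ → ℚ} {Z : Fin d → ℕ → ℤ}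
    {H : Fin d → MvPolynomial (Fin r) ℚ} (hSIM : Stmt_SIM) (hLTM : Stmt_LTM)
    (hprim : ∀ A, (∀ i, A ∣ H i) → IsUnit A)
    (hprop : ∀ G : Fin d → MvPolynomial (Fin r) ℚ,
      (∀ᶠ n in (U : Filter ℕ), ∑ i, ev g n (G i) * (Z i n : ℚ) = 0) →
      ∀ i j, G i * H j = G j * H i)
    (h m : ℕ) (i₁ : Fin d) (hi₁ : (H i₁).totalDegree = m) (hi₁0 : H i₁ ≠ 0)
    (lt : (Fin r →₀ ℕ) → (Fin r →₀ ℕ) → Prop) (hlt : IsStrictTotalOrder (Fin r →₀ ℕ) lt)
    (hadd : ∀ e e' f, lt e e' → lt (e + f) (e' + f)) (eM : Fin r →₀ ℕ) (iM : Fin d)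
    (heM : eM ∈ (H iM).support) (hmax : ∀ i, ∀ e' ∈ (H i).support, e' = eM ∨ lt e' eM) :
    LI U (xs (Exs r (h + m)) g Z) (rem (Exs r h) (Exs r (h + m)) eM iM) := by
  classical
  intro c hc
  -- the coefficients, extended by zero
  obtain ⟨c', hc'⟩ : ∃ c' : {f // f ∈ Exs r (h + m)} × Fin d → ℚ,
      ∀ j, c' j = if j ∈ rem (Exs r h) (Exs r (h + m)) eM iM then c j else 0 := ⟨_, fun _ => rfl⟩
  have h1 : ∀ᶠ n in (U : Filter ℕ),
      ∑ i, ev g n (pol (Exs r (h + m)) fun f => c' (f, i)) * (Z i n : ℚ) = 0 := by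
    filter_upwards [hc] with n hn
    rw [← sum_xs, ← hn]
    simp only [hc', ite_mul, zero_mul]
    rw [Finset.sum_ite_mem, Finset.univ_inter]
  have h2 := hprop _ h1
  obtain ⟨A, hA⟩ := exists_mul i₁ hi₁0 hprim h2
  have hA0 : A = 0 := by
    by_contra hA0
    have hne : A.support.Nonempty := by
      rw [Finset.nonempty_iff_ne_empty]
      exact fun h => hA0 (MvPolynomial.support_eq_empty.1 h)
    obtain ⟨a, ha, hamax⟩ := exists_max lt hlt A.support hne
    have hlead := hLTM r lt hlt hadd A (H iM) a eM hamax (hmax iM)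
    have hne0 : MvPolynomial.coeff (a + eM) (A * H iM) ≠ 0 := by
      rw [hlead]
      exact mul_ne_zero (MvPolynomial.mem_support_iff.1 ha) (MvPolynomial.mem_support_iff.1 heM)
    rw [← hA iM] at hne0
    have hmem : a + eM ∈ Exs r (h + m) :=
      support_pol _ _ (MvPolynomial.mem_support_iff.2 hne0)
    have hcoef := coeff_pol (Exs r (h + m)) (fun f => c' (f, iM)) ⟨a + eM, hmem⟩
    simp only at hcoef
    rw [hcoef, hc'] at hne0
    have hrem : ((⟨a + eM, hmem⟩, iM) : {f // f ∈ Exs r (h + m)} × Fin d) ∈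
        rem (Exs r h) (Exs r (h + m)) eM iM := by
      by_contra hno
      rw [if_neg hno] at hne0
      exact hne0 rfl
    unfold rem at hrem
    simp only [Finset.mem_filter, Finset.mem_univ, true_and, not_exists, not_and] at hrem
    refine hrem trivial a ?_ rfl
    -- the degree of `A`
    rw [hSIM.1]
    have hdeg : (A * H i₁).totalDegree ≤ h + m := by
      rw [← hA i₁, totalDegree_le_iff]
      intro e he
      exact (hSIM.1 r (h + m) e).1 (support_pol _ _ he)
    rw [MvPolynomial.totalDegree_mul_of_isDomain hA0 hi₁0, hi₁] at hdeg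
    have : A.totalDegree ≤ h := by omega
    exact (totalDegree_le_iff h A).1 this a ha
  intro j hj
  have h3 := hA j.2
  rw [hA0, zero_mul] at h3
  have h4 := coeff_pol (Exs r (h + m)) (fun f => c' (f, j.2)) j.1
  rw [h3, MvPolynomial.coeff_zero] at h4
  have h5 : c' j = 0 := h4.symm
  rw [hc', if_pos hj] at h5
  exact h5

/-- an upper bound for the size of an independent set -/
theorem card_le {U : Ultrafilter ℕ} {r d : ℕ} {g : Fin r → ℕ → ℚ} {Z : Fin d → ℕ → ℤ}
    {H : Fin d → MvPolynomial (Fin r) ℚ} (hSIM : Stmt_SIM)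
    (hrel : ∀ᶠ n in (U : Filter ℕ), ∑ i, ev g n (H i) * (Z i n : ℚ) = 0)
    (h m : ℕ) (hm : ∀ i, (H i).totalDegree ≤ m) (i₁ : Fin d) (hi₁0 : H i₁ ≠ 0)
    (B' : Finset ({f // f ∈ Exs r (h + m)} × Fin d)) (hB : LI U (xs (Exs r (h + m)) g Z) B') :
    B'.card + (Exs r h).card ≤ d * (Exs r (h + m)).card := by
  classical
  -- the support of `A * H i` for `A` in the small box
  have hsupp : ∀ (α : {f // f ∈ Exs r h} → ℚ) (i : Fin d),
      (pol (Exs r h) α * H i).support ⊆ Exs r (h + m) := by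
    intro α i e he
    have h1 : (pol (Exs r h) α * H i).totalDegree ≤ h + m := by
      refine (MvPolynomial.totalDegree_mul _ _).trans ?_
      refine Nat.add_le_add ?_ (hm i)
      rw [totalDegree_le_iff]
      intro e he
      exact (hSIM.1 r h e).1 (support_pol _ _ he)
    exact (hSIM.1 r (h + m) e).2 ((totalDegree_le_iff _ _).1 h1 e he)
  have hpoladd : ∀ α β : {f // f ∈ Exs r h} → ℚ,
      pol (Exs r h) (α + β) = pol (Exs r h) α + pol (Exs r h) β := by
    intro α β
    unfold pol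
    rw [← Finset.sum_add_distrib]
    exact Finset.sum_congr rfl fun f _ => by simp
  have hpolsmul : ∀ (a : ℚ) (α : {f // f ∈ Exs r h} → ℚ),
      pol (Exs r h) (a • α) = MvPolynomial.C a * pol (Exs r h) α := by
    intro a α
    unfold pol
    rw [Finset.mul_sum]
    exact Finset.sum_congr rfl fun f _ => by
      rw [MvPolynomial.C_mul_monomial]
      simp
  let Φ : (({f // f ∈ Exs r h} → ℚ) × ({j // j ∈ B'} → ℚ)) →ₗ[ℚ]
      ({f // f ∈ Exs r (h + m)} × Fin d → ℚ) :=
    { toFun := fun p j => MvPolynomial.coeff j.1.1 (pol (Exs r h) p.1 * H j.2) +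
        if hj : j ∈ B' then p.2 ⟨j, hj⟩ else 0
      map_add' := by
        intro p q
        funext j
        simp only [Prod.fst_add, Prod.snd_add, Pi.add_apply]
        rw [hpoladd, add_mul, MvPolynomial.coeff_add]
        split_ifs <;> ring
      map_smul' := by
        intro a p
        funext j
        simp only [Prod.smul_fst, Prod.smul_snd, Pi.smul_apply, RingHom.id_apply, smul_eq_mul]
        rw [hpolsmul, mul_assoc, MvPolynomial.coeff_C_mul]
        split_ifs <;> ring }
  have hinj : Function.Injective Φ := by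
    rw [← LinearMap.ker_eq_bot, LinearMap.ker_eq_bot']
    rintro ⟨α, c⟩ hΦ
    have h1 : ∀ j : {f // f ∈ Exs r (h + m)} × Fin d,
        MvPolynomial.coeff j.1.1 (pol (Exs r h) α * H j.2) +
          (if hj : j ∈ B' then c ⟨j, hj⟩ else 0) = 0 := fun j => congrFun hΦ j
    obtain ⟨c', hc'⟩ : ∃ c' : {f // f ∈ Exs r (h + m)} × Fin d → ℚ,
      ∀ j, c' j = if hj : j ∈ B' then c ⟨j, hj⟩ else 0 := ⟨_, fun _ => rfl⟩
    have h2 : ∀ᶠ n in (U : Filter ℕ), ∑ j ∈ B', c' j * xs (Exs r (h + m)) g Z j n = 0 := by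
      filter_upwards [hrel] with n hn
      have e1 : ∑ j ∈ B', c' j * xs (Exs r (h + m)) g Z j n =
          ∑ j, c' j * xs (Exs r (h + m)) g Z j n := by
        apply Finset.sum_subset (Finset.subset_univ _)
        intro j _ hj
        rw [hc', dif_neg hj, zero_mul]
      rw [e1, sum_xs]
      have e2 : ∀ i, (fun f : {f // f ∈ Exs r (h + m)} => c' (f, i)) =
          fun f => MvPolynomial.coeff f.1 (-(pol (Exs r h) α * H i)) := by
        intro i
        funext f
        have := h1 (f, i)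
        rw [← hc'] at this
        rw [MvPolynomial.coeff_neg]
        simp only at this
        linarith
      have e3 : ∀ i, pol (Exs r (h + m)) (fun f => c' (f, i)) = -(pol (Exs r h) α * H i) := by
        intro i
        rw [e2 i]
        apply pol_eq
        rw [MvPolynomial.support_neg]
        exact hsupp α i
      simp only [e3]
      have e4 : ∀ i, ev g n (-(pol (Exs r h) α * H i)) =
          -(ev g n (pol (Exs r h) α)) * ev g n (H i) := by
        intro i
        unfold ev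
        rw [map_neg, map_mul]
        ring
      simp only [e4, mul_assoc]
      rw [← Finset.mul_sum, hn, mul_zero]
    have h3 := hB c' h2
    have h4 : ∀ j, c' j = 0 := by
      intro j
      by_cases hj : j ∈ B'
      · exact h3 j hj
      · rw [hc', dif_neg hj]
    have h5 : c = 0 := by
      funext j
      have := h4 j.1
      rw [hc', dif_pos j.2] at this
      exact this
    have h6 : pol (Exs r h) α * H i₁ = 0 := by
      rw [← pol_eq (Exs r (h + m)) _ (hsupp α i₁)]
      have : (fun f : {f // f ∈ Exs r (h + m)} =>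
          MvPolynomial.coeff f.1 (pol (Exs r h) α * H i₁)) = fun _ => 0 := by
        funext f
        have := h1 (f, i₁)
        rw [← hc', h4, add_zero] at this
        exact this
      rw [this]
      unfold pol
      simp
    have h7 : pol (Exs r h) α = 0 := by
      rcases mul_eq_zero.1 h6 with h | h
      · exact h
      · exact absurd h hi₁0
    have h8 : α = 0 := by
      funext f
      rw [← coeff_pol (Exs r h) α f, h7]
      simp
    rw [h5, h8]
    rfl
  have hfin := LinearMap.finrank_le_finrank_of_injective hinj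
  rw [Module.finrank_prod, Module.finrank_fintype_fun_eq_card, Module.finrank_fintype_fun_eq_card,
    Module.finrank_fintype_fun_eq_card, Fintype.card_prod, Fintype.card_fin,
    Fintype.card_coe, Fintype.card_coe, Fintype.card_coe] at hfin
  rw [add_comm, mul_comm d]
  exact hfin

/-- a product over the elements that remain -/
theorem prod_rem {r d : ℕ} (E Emax : Finset (Fin r →₀ ℕ)) (eM : Fin r →₀ ℕ) (i : Fin d)
    (h : ∀ a ∈ E, a + eM ∈ Emax) (F : (Fin r →₀ ℕ) → ℝ) :
    (∏ j ∈ rem E Emax eM i, F j.1.1) * ∏ a ∈ E, F (a + eM) =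
      ∏ j : {f // f ∈ Emax} × Fin d, F j.1.1 := by
  classical
  have h1 : ∏ a ∈ E, F (a + eM) =
      ∏ j ∈ (Finset.univ.filter fun j : {f // f ∈ Emax} × Fin d =>
        (j.2 = i ∧ ∃ a ∈ E, a + eM = j.1.1)), F j.1.1 := by
    refine Finset.prod_bij (fun a ha => (⟨a + eM, h a ha⟩, i)) ?_ ?_ ?_ ?_
    · intro a ha
      simp only [Finset.mem_filter, Finset.mem_univ, true_and]
      exact ⟨a, ha, rfl⟩
    · intro a ha b hb hab
      have := congrArg (fun j => j.1.1) hab
      simpa using this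
    · rintro ⟨⟨f, hf⟩, j⟩ hj
      simp only [Finset.mem_filter, Finset.mem_univ, true_and] at hj
      obtain ⟨rfl, a, ha, rfl⟩ := hj
      exact ⟨a, ha, rfl⟩
    · intro a ha
      rfl
  rw [h1]
  unfold rem
  rw [mul_comm]
  exact Finset.prod_filter_mul_prod_filter_not _ _ _

theorem size {U : Ultrafilter ℕ} {S : Finset ℕ} {T : ℕ → ℝ} {r d : ℕ} {g : Fin r → ℕ → ℚ}
    {Z : Fin d → ℕ → ℤ} {B : ℝ} (hG : Gd U S T g) (hB : 0 ≤ B) (E Emax : Finset (Fin r →₀ ℕ))
    (eM : ℕ → Fin r →₀ ℕ) (iM : ℕ → Fin d) (hE : ∀ v ∈ pl S, ∀ a ∈ E, a + eM v ∈ Emax) (n : ℕ)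
    (hZ : ∀ i, |(Z i n : ℝ)| ≤ Real.exp (B * T n)) (hT : 0 ≤ T n) :
    (∏ v ∈ pl S, ∏ j ∈ rem E Emax (eM v) (iM v), av v (xs Emax g Z j n)) *
      (∏ v ∈ pl S, av v (mon g (eM v) n)) ^ E.card ≤ Real.exp (B * T n) ^ (d * Emax.card) := by
  classical
  have hS := hG.prime
  have hU : ∀ f, ∏ v ∈ pl S, av v (mon g f n) = 1 := fun f => (isU_mon hS hG.unit f n).2
  have h1 : ∀ v ∈ pl S, (∏ j ∈ rem E Emax (eM v) (iM v), av v (mon g j.1.1 n)) *
      ∏ a ∈ E, av v (mon g (a + eM v) n) =
      ∏ j : {f // f ∈ Emax} × Fin d, av v (mon g j.1.1 n) := fun v hv =>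
    prod_rem E Emax (eM v) (iM v) (hE v hv) (fun f => av v (mon g f n))
  have h2 : (∏ v ∈ pl S, ∏ j ∈ rem E Emax (eM v) (iM v), av v (mon g j.1.1 n)) *
      (∏ v ∈ pl S, av v (mon g (eM v) n)) ^ E.card = 1 := by
    have e1 : ∏ v ∈ pl S, ∏ a ∈ E, av v (mon g (a + eM v) n) =
        (∏ v ∈ pl S, av v (mon g (eM v) n)) ^ E.card := by
      have : ∀ v ∈ pl S, ∏ a ∈ E, av v (mon g (a + eM v) n) =
          (∏ a ∈ E, av v (mon g a n)) * av v (mon g (eM v) n) ^ E.card := by
        intro v hv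
        rw [← Finset.prod_const, ← Finset.prod_mul_distrib]
        refine Finset.prod_congr rfl fun a _ => ?_
        rw [mon_add, av_mul (place_of_mem hS hv)]
      rw [Finset.prod_congr rfl this, Finset.prod_mul_distrib, Finset.prod_comm]
      simp only [hU, Finset.prod_const_one, one_mul]
      rw [Finset.prod_pow]
    have e2 : ∏ v ∈ pl S, ∏ j : {f // f ∈ Emax} × Fin d, av v (mon g j.1.1 n) = 1 := by
      rw [Finset.prod_comm]
      simp only [hU, Finset.prod_const_one]
    rw [← e1, ← Finset.prod_mul_distrib, Finset.prod_congr rfl h1, e2]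
  have h3 : ∏ v ∈ pl S, ∏ j ∈ rem E Emax (eM v) (iM v), av v (Z j.2 n : ℚ) ≤
      Real.exp (B * T n) ^ (d * Emax.card) := by
    have hexp : 1 ≤ Real.exp (B * T n) := Real.one_le_exp (mul_nonneg hB hT)
    rw [prod_pl hS]
    have e1 : ∏ p ∈ S, ∏ j ∈ rem E Emax (eM p) (iM p), av p (Z j.2 n : ℚ) ≤ 1 := by
      apply Finset.prod_le_one
      · intro p _
        exact Finset.prod_nonneg fun j _ => av_nonneg _ _
      · intro p hp
        apply Finset.prod_le_one
        · intro j _
          exact av_nonneg _ _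
        · intro j _
          exact av_int_le_one (hS p hp) _
    have e2 : ∏ j ∈ rem E Emax (eM 0) (iM 0), av 0 (Z j.2 n : ℚ) ≤
        Real.exp (B * T n) ^ (d * Emax.card) := by
      have : ∏ j ∈ rem E Emax (eM 0) (iM 0), av 0 (Z j.2 n : ℚ) ≤
          ∏ _j ∈ rem E Emax (eM 0) (iM 0), Real.exp (B * T n) := by
        apply Finset.prod_le_prod
        · intro j _
          exact av_nonneg _ _
        · intro j _
          rw [av_zero_eq, Rat.cast_intCast]
          exact hZ _
      refine this.trans ?_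
      rw [Finset.prod_const]
      apply pow_le_pow_right₀ hexp
      have h := Finset.card_le_univ (rem E Emax (eM 0) (iM 0))
      rw [Fintype.card_prod, Fintype.card_coe, Fintype.card_fin, mul_comm] at h
      exact h
    calc (∏ j ∈ rem E Emax (eM 0) (iM 0), av 0 (Z j.2 n : ℚ)) *
        ∏ p ∈ S, ∏ j ∈ rem E Emax (eM p) (iM p), av p (Z j.2 n : ℚ)
        ≤ Real.exp (B * T n) ^ (d * Emax.card) * 1 :=
          mul_le_mul e2 e1 (Finset.prod_nonneg fun p _ => Finset.prod_nonneg fun j _ =>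
            av_nonneg _ _) (by positivity)
      _ = _ := mul_one _
  have h4 : ∏ v ∈ pl S, ∏ j ∈ rem E Emax (eM v) (iM v), av v (xs Emax g Z j n) =
      (∏ v ∈ pl S, ∏ j ∈ rem E Emax (eM v) (iM v), av v (mon g j.1.1 n)) *
        ∏ v ∈ pl S, ∏ j ∈ rem E Emax (eM v) (iM v), av v (Z j.2 n : ℚ) := by
    rw [← Finset.prod_mul_distrib]
    refine Finset.prod_congr rfl fun v hv => ?_
    rw [← Finset.prod_mul_distrib]
    refine Finset.prod_congr rfl fun j _ => ?_
    unfold xs
    rw [av_mul (place_of_mem hS hv)]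
  rw [h4, mul_right_comm, h2, one_mul]
  exact h3

end S1T_

/-- the height of a primitive relation -/
theorem S1T_proof (hSBB : Stmt_SBB) (hSIM : Stmt_SIM) (hVOR : Stmt_VOR) (hLTM : Stmt_LTM) :
    Stmt_S1T := by
  classical
  intro U S T r d g Z B δ H hG hB hδ hZ hrel hprim hprop e he
  have hS := hG.prime
  -- the orders and the leading exponents
  have hord : ∀ v, ∃ (lt : (Fin r →₀ ℕ) → (Fin r →₀ ℕ) → Prop) (eM : Fin r →₀ ℕ) (iM : Fin d),
      v ∈ pl S → IsStrictTotalOrder (Fin r →₀ ℕ) lt ∧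
        (∀ e e' f, lt e e' → lt (e + f) (e' + f)) ∧
        (∀ e e', lt e e' → ∀ᶠ n in (U : Filter ℕ), av v (mon g e n) ≤ av v (mon g e' n)) ∧
        eM ∈ (H iM).support ∧ ∀ i, ∀ e' ∈ (H i).support, e' = eM ∨ lt e' eM := by
    intro v
    obtain ⟨i0, -⟩ := he 0 (zero_mem_pl S)
    by_cases hv : v ∈ pl S
    · obtain ⟨lt, hlt, hadd, hav⟩ := hVOR U v r g (place_of_mem hS hv) (fun i n => (hG.unit i n).1)
      obtain ⟨i1, hi1⟩ := he v hv
      obtain ⟨eM, heM, hmax⟩ := S1T_.exists_max lt hlt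
        (Finset.univ.biUnion fun i => (H i).support)
        ⟨e v, Finset.mem_biUnion.2 ⟨i1, Finset.mem_univ _, hi1⟩⟩
      obtain ⟨iM, -, hiM⟩ := Finset.mem_biUnion.1 heM
      exact ⟨lt, eM, iM, fun _ => ⟨hlt, hadd, hav, hiM, fun i e' he' =>
        hmax e' (Finset.mem_biUnion.2 ⟨i, Finset.mem_univ _, he'⟩)⟩⟩
    · exact ⟨fun _ _ => False, 0, i0, fun h => absurd h hv⟩
  choose lt eM iM hdat using hord
  -- a form of maximal degree
  obtain ⟨i0, hi0⟩ := he 0 (zero_mem_pl S)
  obtain ⟨i₁, -, hi₁⟩ := Finset.exists_max_image (Finset.univ : Finset (Fin d))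
    (fun i => (H i).totalDegree) ⟨i0, Finset.mem_univ _⟩
  obtain ⟨i₁, hi₁, hi₁0⟩ : ∃ i₁, (∀ i, (H i).totalDegree ≤ (H i₁).totalDegree) ∧ H i₁ ≠ 0 := by
    by_cases h0 : H i₁ = 0
    · refine ⟨i0, fun i => ?_, ?_⟩
      · refine (hi₁ i (Finset.mem_univ _)).trans ?_
        rw [h0]
        simp
      · intro h
        rw [h] at hi0
        simp at hi0
    · exact ⟨i₁, fun i => hi₁ i (Finset.mem_univ _), h0⟩
  obtain ⟨m, hm⟩ : ∃ m, m = (H i₁).totalDegree := ⟨_, rfl⟩
  have hdB : 0 ≤ d * B := mul_nonneg (Nat.cast_nonneg _) hB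
  obtain ⟨δ', hδ', hδ'2⟩ : ∃ δ' : ℝ, 0 < δ' ∧ d * B * δ' ≤ δ / 2 := by
    refine ⟨δ / (2 * (d * B + 1)), by positivity, ?_⟩
    rw [mul_div_assoc', div_le_div_iff₀ (by positivity) (by norm_num)]
    nlinarith
  obtain ⟨h, hh⟩ := hSIM.2 r m δ' hδ'
  have hcard := hh h (le_refl _)
  have hEne : 0 < (Exs r h).card := by
    apply Finset.card_pos.2
    exact ⟨0, (hSIM.1 r h 0).2 (by simp)⟩
  have hEmem : ∀ v ∈ pl S, ∀ a ∈ Exs r h, a + eM v ∈ Exs r (h + m) := by
    intro v hv a ha
    rw [hSIM.1] at ha ⊢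
    have h1 : (H (iM v)).totalDegree ≤ m := by
      rw [hm]
      exact hi₁ _
    have h2 := (S1T_.totalDegree_le_iff m _).1 h1 (eM v) (hdat v hv).2.2.2.1
    simp only [Finsupp.add_apply, Finset.sum_add_distrib]
    omega
  obtain ⟨C, hC⟩ := hG.height
  have hTpos : ∀ᶠ n in (U : Filter ℕ), 0 < T n := ev_pos hG.lim
  -- the Subspace theorem
  have hsub := hSBB S U T ({f // f ∈ Exs r (h + m)} × Fin d) (S1T_.xs (Exs r (h + m)) g Z)
    (fun v => S1T_.rem (Exs r h) (Exs r (h + m)) (eM v) (iM v))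
    (d * (Exs r (h + m)).card - (Exs r h).card) (max C 0 * (h + m) + B) (δ / 2) hS hG.lim
    (by
      filter_upwards with n
      intro j p hp hpS
      have h1 : SInt S (S1T_.xs (Exs r (h + m)) g Z j n) := by
        unfold S1T_.xs
        exact ((S1T_.isU_mon hS hG.unit _ n).sInt hS).mul (sInt_int S _)
      exact h1 p hp hpS)
    (by
      filter_upwards [hC, hTpos, hZ] with n hn hT hZn
      intro j v hv
      have hv' := place_of_mem hS hv
      unfold S1T_.xs
      rw [av_mul hv']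
      have e1 : av v (mon g j.1.1 n) ≤ Real.exp (max C 0 * (h + m) * T n) := by
        unfold mon
        rw [av_prod hv']
        have : ∀ i ∈ (Finset.univ : Finset (Fin r)), av v (g i n ^ (j.1.1 i)) ≤
            Real.exp (max C 0 * T n) ^ (j.1.1 i) := by
          intro i _
          rw [av_pow hv']
          apply pow_le_pow_left₀ (av_nonneg _ _)
          refine (hn i v hv).trans (Real.exp_le_exp.2 ?_)
          exact mul_le_mul_of_nonneg_right (le_max_left _ _) hT.le
        refine (Finset.prod_le_prod (fun i _ => av_nonneg _ _) this).trans ?_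
        rw [Finset.prod_pow_eq_pow_sum, ← Real.exp_nat_mul]
        apply Real.exp_le_exp.2
        have h1 : ((∑ i, j.1.1 i : ℕ) : ℝ) ≤ (h : ℝ) + m := by
          exact_mod_cast (hSIM.1 r (h + m) j.1.1).1 j.1.2
        have h2 : 0 ≤ max C 0 * T n := mul_nonneg (le_max_right _ _) hT.le
        calc ((∑ i, j.1.1 i : ℕ) : ℝ) * (max C 0 * T n) ≤ ((h : ℝ) + m) * (max C 0 * T n) :=
              mul_le_mul_of_nonneg_right h1 h2
          _ = _ := by ring
      have e2 : av v (Z j.2 n : ℚ) ≤ Real.exp (B * T n) :=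
        (av_int_le_abs hv' _).trans (hZn _)
      calc av v (mon g j.1.1 n) * av v (Z j.2 n : ℚ)
          ≤ Real.exp (max C 0 * (h + m) * T n) * Real.exp (B * T n) :=
            mul_le_mul e1 e2 (av_nonneg _ _) (Real.exp_pos _).le
        _ = _ := by
            rw [← Real.exp_add]
            congr 1
            ring)
    (by
      intro v hv
      refine ⟨S1T_.li_rem hSIM hLTM hprim hprop h m i₁ hm.symm hi₁0 (lt v) (hdat v hv).1
        (hdat v hv).2.1 (eM v) (iM v) (hdat v hv).2.2.2.1 (hdat v hv).2.2.2.2, ?_⟩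
      have := S1T_.card_rem (Exs r h) (Exs r (h + m)) (eM v) (iM v) (hEmem v hv)
      omega)
    (by
      intro B' hB'
      have := S1T_.card_le hSIM hrel h m (fun i => by rw [hm]; exact hi₁ i) i₁ hi₁0 B' hB'
      omega)
    (by positivity)
  -- comparison with the leading exponents
  have hcmp : ∀ᶠ n in (U : Filter ℕ), ∀ v ∈ pl S, av v (mon g (e v) n) ≤ av v (mon g (eM v) n) := by
    rw [Filter.eventually_all_finset]
    intro v hv
    obtain ⟨i, hi⟩ := he v hv
    rcases (hdat v hv).2.2.2.2 i (e v) hi with h1 | h1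
    · filter_upwards with n
      rw [h1]
    · exact (hdat v hv).2.2.1 _ _ h1
  filter_upwards [hsub, hcmp, hZ, hTpos] with n h1 h2 h3 h4
  have h5 := S1T_.size hG hB (Exs r h) (Exs r (h + m)) eM iM hEmem n h3 h4.le
  obtain ⟨W, hW⟩ : ∃ W : ℝ, W = ∏ v ∈ pl S, av v (mon g (eM v) n) := ⟨_, rfl⟩
  rw [← hW] at h5
  have hW0 : 0 < W := by
    rw [hW]
    exact Finset.prod_pos fun v hv =>
      av_pos (place_of_mem hS hv) (S1T_.isU_mon hS hG.unit _ n).ne_zero
  have h6 : ∏ v ∈ pl S, av v (mon g (e v) n) ≤ W := by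
    rw [hW]
    exact Finset.prod_le_prod (fun v _ => av_nonneg _ _) h2
  refine h6.trans ?_
  -- take logarithms
  have h7 : Real.exp (-(δ / 2) * T n) * W ^ (Exs r h).card ≤
      Real.exp (B * T n) ^ (d * (Exs r (h + m)).card) :=
    (mul_le_mul_of_nonneg_right h1 (by positivity)).trans h5
  have h8 : -(δ / 2) * T n + (Exs r h).card * Real.log W ≤
      (d * (Exs r (h + m)).card) * (B * T n) := by
    have := Real.log_le_log (by positivity) h7
    rw [Real.log_mul (Real.exp_pos _).ne' (by positivity), Real.log_exp, Real.log_pow,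
      ← Real.exp_nat_mul, Real.log_exp] at this
    push_cast at this
    linarith
  obtain ⟨M, hM⟩ : ∃ M : ℝ, M = (Exs r h).card := ⟨_, rfl⟩
  obtain ⟨M', hM'⟩ : ∃ M' : ℝ, M' = (Exs r (h + m)).card := ⟨_, rfl⟩
  rw [← hM, ← hM'] at h8
  rw [← hM, ← hM'] at hcard
  have hM1 : 1 ≤ M := by
    rw [hM]
    exact_mod_cast hEne
  have h9 : Real.log W ≤ (d * B + δ) * T n := by
    have e1 : (d : ℝ) * M' * (B * T n) ≤ d * ((1 + δ') * M) * (B * T n) := by
      have : 0 ≤ (d : ℝ) * (B * T n) := mul_nonneg (Nat.cast_nonneg _) (mul_nonneg hB h4.le)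
      nlinarith
    have e2 : M * Real.log W ≤ M * ((d * B + δ) * T n) := by
      have e3 : d * B * δ' * T n * M ≤ δ / 2 * T n * M := by
        apply mul_le_mul_of_nonneg_right _ (by linarith)
        exact mul_le_mul_of_nonneg_right hδ'2 h4.le
      have e4 : δ / 2 * T n ≤ δ / 2 * T n * M := by
        have : 0 ≤ δ / 2 * T n := by positivity
        nlinarith
      calc M * Real.log W ≤ d * ((1 + δ') * M) * (B * T n) + δ / 2 * T n := by linarith
        _ = d * B * T n * M + d * B * δ' * T n * M + δ / 2 * T n := by ring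
        _ ≤ d * B * T n * M + δ / 2 * T n * M + δ / 2 * T n * M := by linarith
        _ = M * ((d * B + δ) * T n) := by ring
    exact le_of_mul_le_mul_left e2 (by linarith)
  calc W = Real.exp (Real.log W) := (Real.exp_log hW0).symm
    _ ≤ _ := Real.exp_le_exp.2 h9

end Pool.Agent.SBT
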