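import Pool.Agent.SBT.StmtsD
import Pool.Agent.SBT.Api

/-!
# UNI: independent units are algebraically independent
-/

set_option autoImplicit false

namespace Pool.Agent.SBT

open Filter

namespace UNI_

theorem mon_isU {S : Finset ℕ} (hS : PS S) {r : ℕ} {g : Fin r → ℕ → ℚ}
    (hg : ∀ i n, IsU S (g i n)) (e : Fin r →₀ ℕ) (n : ℕ) : IsU S (mon g e n) := by
  unfold mon
  exact isU_prod hS _ _ fun i _ => (hg i n).pow hS _

theorem ev_eq {r : ℕ} (g : Fin r → ℕ → ℚ) (n : ℕ) (H : MvPolynomial (Fin r) ℚ) :
    ev g n H = ∑ e ∈ H.support, MvPolynomial.coeff e H * mon g e n := by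
  unfold ev mon
  rw [MvPolynomial.eval_eq']

theorem ev_sum_monomial {r : ℕ} (g : Fin r → ℕ → ℚ) (n : ℕ) {J : Type} (s : Finset J)
    (c : J → ℚ) (e : J → (Fin r →₀ ℕ)) :
    ev g n (∑ j ∈ s, MvPolynomial.monomial (e j) (c j)) = ∑ j ∈ s, c j * mon g (e j) n := by
  unfold ev mon
  rw [map_sum]
  refine Finset.sum_congr rfl fun j _ => ?_
  rw [MvPolynomial.eval_monomial, Finsupp.prod_fintype _ _ (fun i => pow_zero _)]

end UNI_

open UNI_

theorem uni_proof (hSBB : Stmt_SBB) : Stmt_UNI := by
  intro U S r g hS hg hMI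
  suffices key : ∀ s : ℕ, ∀ H : MvPolynomial (Fin r) ℚ, H.support.card = s →
      (∀ᶠ n in (U : Filter ℕ), ev g n H = 0) → H = 0 from
    fun H hH => key _ H rfl hH
  intro s
  induction s using Nat.strong_induction_on with
  | _ s IH =>
  intro H hs hev
  by_contra hH
  classical
  -- the exponent e₀
  have hne : H.support.Nonempty := MvPolynomial.support_nonempty.2 hH
  obtain ⟨e₀, he₀⟩ := hne
  have hmon : ∀ e n, IsU S (mon g e n) := fun e n => mon_isU hS hg e n
  have hm0 : ∀ e n, mon g e n ≠ 0 := fun e n => (hmon e n).ne_zero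
  -- there is a second exponent
  obtain ⟨e₁, he₁, hne₁⟩ : ∃ e₁ ∈ H.support, e₁ ≠ e₀ := by
    by_contra hc
    push Not at hc
    have h1 : H.support = {e₀} := by
      apply Finset.eq_singleton_iff_unique_mem.2
      exact ⟨he₀, hc⟩
    obtain ⟨n, hn⟩ := hev.exists
    rw [ev_eq, h1, Finset.sum_singleton] at hn
    rcases mul_eq_zero.1 hn with h | h
    · exact MvPolynomial.mem_support_iff.1 he₀ h
    · exact hm0 _ _ h
  -- the sequences
  let J : Type := {e // e ∈ H.support}
  let x : J → ℕ → ℚ := fun j n => mon g j.1 n / mon g e₀ n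
  have hxU : ∀ (j : J) n, IsU S (x j n) := fun j n => (hmon _ n).div hS (hmon _ n)
  let j₀ : J := ⟨e₀, he₀⟩
  have hx0 : ∀ n, x j₀ n = 1 := fun n => div_self (hm0 _ _)
  have hxe : ∀ (j : J) n, mon g j.1 n = mon g e₀ n * x j n := by
    intro j n
    change _ = mon g e₀ n * (mon g j.1 n / mon g e₀ n)
    rw [mul_div_cancel₀ _ (hm0 _ _)]
  -- maximal elements
  have hmax : ∀ v : ℕ, ∃ j : J, ∀ᶠ n in (U : Filter ℕ), ∀ i : J, av v (x i n) ≤ av v (x j n) := by
    intro v
    apply ult_finite U (P := fun (j : J) n => ∀ i : J, av v (x i n) ≤ av v (x j n))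
    refine Eventually.of_forall fun n => ?_
    obtain ⟨j, _, hj⟩ := Finset.exists_max_image (Finset.univ : Finset J)
      (fun j => av v (x j n)) ⟨j₀, Finset.mem_univ _⟩
    exact ⟨j, fun i => hj i (Finset.mem_univ _)⟩
  choose f hf using hmax
  let T' : ℕ → ℝ := fun n => ∑ v ∈ pl S, Real.log (av v (x (f v) n))
  have hf1 : ∀ᶠ n in (U : Filter ℕ), ∀ v ∈ pl S, 1 ≤ av v (x (f v) n) ∧
      ∀ i : J, av v (x i n) ≤ av v (x (f v) n) := by
    rw [eventually_all_finset]
    intro v hv
    filter_upwards [hf v] with n hn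
    refine ⟨?_, hn⟩
    have := hn j₀
    rwa [hx0, av_one] at this
  have hpos : ∀ (j : J) n, ∀ v ∈ pl S, 0 < av v (x j n) := fun j n v hv =>
    av_pos (place_of_mem hS hv) (hxU j n).ne_zero
  have hexpT : ∀ n, Real.exp (T' n) = ∏ v ∈ pl S, av v (x (f v) n) := by
    intro n
    rw [Real.exp_sum]
    exact Finset.prod_congr rfl fun v hv => Real.exp_log (hpos _ n v hv)
  have hbd : ∀ᶠ n in (U : Filter ℕ), ∀ j : J, ∀ v ∈ pl S, av v (x j n) ≤ Real.exp (T' n) := by
    filter_upwards [hf1] with n hn j v hv
    refine ((hn v hv).2 j).trans ?_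
    rw [hexpT]
    rw [← Finset.mul_prod_erase (pl S) (fun w => av w (x (f w) n)) hv]
    have h1 : (1 : ℝ) ≤ ∏ w ∈ (pl S).erase v, av w (x (f w) n) := by
      have h2 := Finset.prod_le_prod (s := (pl S).erase v) (f := fun _ => (1 : ℝ))
        (g := fun w => av w (x (f w) n)) (fun _ _ => zero_le_one)
        (fun w hw => (hn w (Finset.mem_of_mem_erase hw)).1)
      simpa using h2
    exact le_mul_of_one_le_right (av_nonneg _ _) h1
  -- T' tends to infinity
  have hT' : Tendsto T' (U : Filter ℕ) atTop := by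
    rw [tendsto_atTop]
    intro b
    by_contra hb
    have hb' := Ultrafilter.eventually_not.2 hb
    have hfin := finite_isU hS (Real.exp b)
    obtain ⟨κ, -, hκ⟩ := ult_const_set U (fun n => x ⟨e₁, he₁⟩ n) hfin (by
      filter_upwards [hb', hbd] with n hn1 hn2
      refine ⟨hxU _ _, fun v hv => (hn2 _ v hv).trans ?_⟩
      exact Real.exp_le_exp.2 (le_of_lt (not_le.1 hn1)))
    have h3 := hMI (fun i => (e₁ i : ℤ) - (e₀ i : ℤ)) κ (by
      filter_upwards [hκ] with n hn
      rw [← hn]
      change _ = mon g e₁ n / mon g e₀ n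
      unfold mon
      rw [← Finset.prod_div_distrib]
      refine Finset.prod_congr rfl fun i _ => ?_
      rw [zpow_sub₀ (hg i n).ne_zero, zpow_natCast, zpow_natCast])
    apply hne₁
    ext i
    have := congrFun h3 i
    simp only [Pi.zero_apply] at this
    omega
  -- independence
  have hLI : ∀ v ∈ pl S, LI U x (Finset.univ.erase (f v)) ∧
      (Finset.univ.erase (f v)).card = s - 1 := by
    intro v hv
    constructor
    · intro c hc j hj
      have hsupp : ∀ e ∈ (∑ j ∈ Finset.univ.erase (f v),
          MvPolynomial.monomial (j : J).1 (c j)).support, e ∈ H.support.erase (f v).1 := by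
        intro e he
        by_contra hcon
        apply MvPolynomial.mem_support_iff.1 he
        rw [MvPolynomial.coeff_sum]
        apply Finset.sum_eq_zero
        intro i hi
        rw [MvPolynomial.coeff_monomial, if_neg]
        rintro rfl
        apply hcon
        rw [Finset.mem_erase]
        refine ⟨fun h => (Finset.mem_erase.1 hi).1 (Subtype.ext h), i.2⟩
      have hcard : (∑ j ∈ Finset.univ.erase (f v),
          MvPolynomial.monomial (j : J).1 (c j)).support.card < s := by
        rw [← hs]
        exact (Finset.card_le_card hsupp).trans_lt (Finset.card_erase_lt_of_mem (f v).2)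
      have h0 := IH _ hcard _ rfl (by
        filter_upwards [hc] with n hn
        rw [ev_sum_monomial g n _ c (fun j => j.1)]
        have : ∑ j ∈ Finset.univ.erase (f v), c j * mon g (j : J).1 n =
            mon g e₀ n * ∑ j ∈ Finset.univ.erase (f v), c j * x j n := by
          rw [Finset.mul_sum]
          refine Finset.sum_congr rfl fun j _ => ?_
          rw [hxe]
          ring
        rw [this, hn, mul_zero])
      have h1 := congrArg (MvPolynomial.coeff j.1) h0
      rw [MvPolynomial.coeff_sum, MvPolynomial.coeff_zero, Finset.sum_eq_single j] at h1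
      · rwa [MvPolynomial.coeff_monomial, if_pos rfl] at h1
      · intro i _ hij
        rw [MvPolynomial.coeff_monomial, if_neg]
        exact fun h => hij (Subtype.ext h)
      · intro h
        exact absurd hj h
    · rw [Finset.card_erase_of_mem (Finset.mem_univ _), Finset.card_univ, ← hs]
      congr 1
      exact Fintype.card_coe _
  have hcardJ : Fintype.card J = s := by
    rw [← hs]
    exact Fintype.card_coe _
  have hmaxc : ∀ B' : Finset J, LI U x B' → B'.card ≤ s - 1 := by
    intro B' hB'
    by_contra hcon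
    have h1 : B'.card ≤ s := by
      rw [← hcardJ]
      exact Finset.card_le_univ _
    have h2 : B'.card = Fintype.card J := by omega
    have h3 : B' = Finset.univ := (Finset.card_eq_iff_eq_univ _).1 h2
    have h4 := hB' (fun j => MvPolynomial.coeff j.1 H) (by
      filter_upwards [hev] with n hn
      rw [ev_eq] at hn
      have h5 : mon g e₀ n * ∑ j ∈ B', MvPolynomial.coeff j.1 H * x j n = 0 := by
        rw [← hn, h3, Finset.mul_sum, ← Finset.sum_coe_sort H.support]
        refine Finset.sum_congr rfl fun j _ => ?_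
        rw [hxe]
        ring
      exact (mul_eq_zero.1 h5).resolve_left (hm0 _ _))
    exact MvPolynomial.mem_support_iff.1 he₀ (h4 j₀ (by rw [h3]; exact Finset.mem_univ _))
  have hfin := hSBB S U T' J x (fun v => Finset.univ.erase (f v)) (s - 1) 1 (1 / 2) hS hT'
    (Eventually.of_forall fun n j p hp hpS => ((hxU j n).padicNorm_eq_one hS hp hpS).le)
    (by
      filter_upwards [hbd] with n hn j v hv
      rw [one_mul]
      exact hn j v hv) hLI hmaxc (by norm_num)
  obtain ⟨n, hn, hTpos⟩ := (hfin.and (ev_pos hT')).exists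
  have e1 : (∏ v ∈ pl S, av v (x (f v) n)) *
      (∏ v ∈ pl S, ∏ j ∈ Finset.univ.erase (f v), av v (x j n)) = 1 := by
    rw [← Finset.prod_mul_distrib]
    have : ∀ v ∈ pl S, av v (x (f v) n) * ∏ j ∈ Finset.univ.erase (f v), av v (x j n) =
        ∏ j : J, av v (x j n) := fun v _ =>
      Finset.mul_prod_erase Finset.univ (fun j => av v (x j n)) (Finset.mem_univ (f v))
    rw [Finset.prod_congr rfl this, Finset.prod_comm]
    exact Finset.prod_eq_one fun j _ => (hxU j n).2
  rw [← hexpT] at e1
  have e2 : (∏ v ∈ pl S, ∏ j ∈ Finset.univ.erase (f v), av v (x j n)) = Real.exp (-T' n) := by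
    rw [Real.exp_neg]
    exact eq_inv_of_mul_eq_one_right e1
  rw [e2] at hn
  have := Real.exp_le_exp.1 hn
  linarith

end Pool.Agent.SBT
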