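import Pool.Agent.SBT.StmtsBC

/-! Module AUX: the auxiliary polynomial. -/

set_option autoImplicit false

namespace Pool.Agent.SBT

open Filter

namespace AUX_

open MvPolynomial

/-! ### majorants -/

section maj

variable {σ : Type}

/-- coefficientwise majorant -/
def Maj (p : MvPolynomial σ ℤ) (q : MvPolynomial σ ℕ) : Prop :=
  ∀ e, |coeff e p| ≤ ((coeff e q : ℕ) : ℤ)

theorem maj_C (a : ℤ) : Maj (C a : MvPolynomial σ ℤ) (C a.natAbs) := by
  classical
  intro e
  rw [coeff_C, coeff_C]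
  by_cases h : 0 = e
  · rw [if_pos h, if_pos h, Int.natCast_natAbs]
  · rw [if_neg h, if_neg h]; simp

theorem maj_X (i : σ) : Maj (X i : MvPolynomial σ ℤ) (X i) := by
  classical
  intro e
  rw [coeff_X, coeff_X]
  by_cases h : Finsupp.single i 1 = e
  · rw [if_pos h, if_pos h]; simp
  · rw [if_neg h, if_neg h]; simp

theorem maj_mul {p p' : MvPolynomial σ ℤ} {q q' : MvPolynomial σ ℕ} (h : Maj p q)
    (h' : Maj p' q') : Maj (p * p') (q * q') := by
  classical
  intro e
  rw [coeff_mul, coeff_mul]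
  push_cast
  refine (Finset.abs_sum_le_sum_abs _ _).trans (Finset.sum_le_sum ?_)
  intro x _
  rw [abs_mul]
  exact mul_le_mul (h _) (h' _) (abs_nonneg _) (Int.natCast_nonneg _)

theorem maj_one : Maj (1 : MvPolynomial σ ℤ) 1 := by
  have := maj_C (σ := σ) 1
  simpa using this

theorem maj_pow {p : MvPolynomial σ ℤ} {q : MvPolynomial σ ℕ} (h : Maj p q) (n : ℕ) :
    Maj (p ^ n) (q ^ n) := by
  induction n with
  | zero => rw [pow_zero, pow_zero]; exact maj_one
  | succ n ih => rw [pow_succ, pow_succ]; exact maj_mul ih h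

theorem maj_sum {ι : Type} (s : Finset ι) (p : ι → MvPolynomial σ ℤ) (q : ι → MvPolynomial σ ℕ)
    (h : ∀ i ∈ s, Maj (p i) (q i)) : Maj (∑ i ∈ s, p i) (∑ i ∈ s, q i) := by
  intro e
  rw [coeff_sum, coeff_sum]
  push_cast
  exact (Finset.abs_sum_le_sum_abs _ _).trans (Finset.sum_le_sum fun i hi => h i hi e)

theorem maj_prod {ι : Type} (s : Finset ι) (p : ι → MvPolynomial σ ℤ)
    (q : ι → MvPolynomial σ ℕ) (h : ∀ i ∈ s, Maj (p i) (q i)) :
    Maj (∏ i ∈ s, p i) (∏ i ∈ s, q i) := by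
  classical
  induction s using Finset.induction_on with
  | empty => rw [Finset.prod_empty, Finset.prod_empty]; exact maj_one
  | insert a s ha ih =>
    rw [Finset.prod_insert ha, Finset.prod_insert ha]
    exact maj_mul (h a (Finset.mem_insert_self a s))
      (ih fun i hi => h i (Finset.mem_insert_of_mem hi))

theorem coeff_le_eval (q : MvPolynomial σ ℕ) (e : σ →₀ ℕ) :
    coeff e q ≤ eval (fun _ => 1) q := by
  rw [eval_eq]
  by_cases h : e ∈ q.support
  · have h1 : coeff e q * ∏ i ∈ e.support, (1 : ℕ) ^ e i = coeff e q := by simp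
    rw [← h1]
    exact Finset.single_le_sum (f := fun e => coeff e q * ∏ i ∈ e.support, (1 : ℕ) ^ e i)
      (fun _ _ => Nat.zero_le _) h
  · rw [notMem_support_iff.1 h]; exact Nat.zero_le _

end maj

variable {m N : ℕ}

/-- the form substituted for the variable `(h, k)` -/
noncomputable def sb (A : Matrix (Fin N) (Fin N) ℤ) (hk : Fin m × Fin N) :
    MvPolynomial (Fin m × Fin N) ℤ := ∑ i, C (A hk.2 i) * X (hk.1, i)

theorem lin_monomial (A : Matrix (Fin N) (Fin N) ℤ) (e : (Fin m × Fin N) →₀ ℕ) (r : ℤ) :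
    lin A (monomial e r) = C r * ∏ hk ∈ e.support, sb A hk ^ e hk := by
  unfold lin sb
  rw [bind₁_monomial]

theorem coeff_lin_monomial_le (A : Matrix (Fin N) (Fin N) ℤ) (B : ℕ)
    (hB : ∀ k, ∑ i, (A k i).natAbs ≤ B) (hB1 : 1 ≤ B) (e j : (Fin m × Fin N) →₀ ℕ) :
    |coeff j (lin A (monomial e 1))| ≤ ((B ^ (∑ hk, e hk) : ℕ) : ℤ) := by
  rw [lin_monomial, C_1, one_mul]
  set q : Fin m × Fin N → MvPolynomial (Fin m × Fin N) ℕ :=
    fun hk => ∑ i, C (A hk.2 i).natAbs * X (hk.1, i) with hq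
  have h1 : Maj (∏ hk ∈ e.support, sb A hk ^ e hk) (∏ hk ∈ e.support, q hk ^ e hk) := by
    apply maj_prod
    intro hk _
    apply maj_pow
    apply maj_sum
    intro i _
    exact maj_mul (maj_C _) (maj_X _)
  refine (h1 j).trans ?_
  rw [Nat.cast_le]
  refine (coeff_le_eval _ j).trans ?_
  rw [map_prod]
  have h2 : ∀ hk, eval (fun _ => 1) (q hk ^ e hk) ≤ B ^ e hk := by
    intro hk
    rw [map_pow, hq]
    apply Nat.pow_le_pow_left
    simp only [map_sum, map_mul, eval_C, eval_X, mul_one]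
    exact hB hk.2
  calc ∏ hk ∈ e.support, eval (fun _ => 1) (q hk ^ e hk)
      ≤ ∏ hk ∈ e.support, B ^ e hk := Finset.prod_le_prod (fun _ _ => Nat.zero_le _)
        (fun hk _ => h2 hk)
    _ = B ^ (∑ hk ∈ e.support, e hk) := by rw [Finset.prod_pow_eq_pow_sum]
    _ ≤ B ^ (∑ hk, e hk) := by
        apply Nat.pow_le_pow_right hB1
        exact Finset.sum_le_sum_of_subset (Finset.subset_univ _)

/-! ### homogeneity -/

/-- the weight of a variable -/
def ww (hk : Fin m × Fin N) : Fin m → ℕ := Pi.single hk.1 1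

theorem weight_apply (e : (Fin m × Fin N) →₀ ℕ) (h : Fin m) :
    (Finsupp.weight ww e) h = ∑ k, e (h, k) := by
  classical
  rw [Finsupp.weight_apply, Finsupp.sum_fintype _ _ (by intro i; simp), Finset.sum_apply,
    Fintype.sum_prod_type]
  rw [Finset.sum_eq_single h]
  · apply Finset.sum_congr rfl
    intro k _
    simp [ww]
  · intro h' _ hne
    apply Finset.sum_eq_zero
    intro k _
    simp [ww, hne.symm]
  · intro hcon; exact absurd (Finset.mem_univ _) hcon

theorem mh_iff (d : Fin m → ℕ) (P : MvPolynomial (Fin m × Fin N) ℤ) :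
    MH d P ↔ IsWeightedHomogeneous ww P d := by
  constructor
  · intro h e he
    funext i
    rw [weight_apply]
    exact h e (mem_support_iff.2 he) i
  · intro h e he i
    have := h (mem_support_iff.1 he)
    rw [← this, weight_apply]

theorem mh_lin_monomial (A : Matrix (Fin N) (Fin N) ℤ) (e : (Fin m × Fin N) →₀ ℕ) (r : ℤ)
    (d : Fin m → ℕ) (he : ∀ h, ∑ k, e (h, k) = d h) : MH d (lin A (monomial e r)) := by
  rw [mh_iff, lin_monomial]
  apply IsWeightedHomogeneous.C_mul
  have hd : d = ∑ hk ∈ e.support, e hk • ww hk := by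
    have h1 : Finsupp.weight ww e = d := by
      funext h; rw [weight_apply]; exact he h
    rw [← h1, Finsupp.weight_apply]
    rfl
  rw [hd]
  apply IsWeightedHomogeneous.prod
  intro hk _
  apply IsWeightedHomogeneous.pow
  apply IsWeightedHomogeneous.sum
  intro i _
  apply IsWeightedHomogeneous.C_mul
  exact isWeightedHomogeneous_X ℤ ww (hk.1, i)

/-! ### counting -/

/-- exponents of degree `n` in `N` variables -/
noncomputable def AA (N n : ℕ) : Finset (Fin N → ℕ) := Finset.piAntidiag Finset.univ n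

theorem mem_AA {n : ℕ} {x : Fin N → ℕ} : x ∈ AA N n ↔ ∑ k, x k = n := by
  unfold AA
  simp

theorem sum_swap (i i' : Fin N) (n : ℕ) :
    ∑ x ∈ AA N n, (x i : ℝ) = ∑ x ∈ AA N n, (x i' : ℝ) := by
  apply Finset.sum_nbij' (fun x => x ∘ Equiv.swap i i') (fun x => x ∘ Equiv.swap i i')
  · intro x hx
    rw [mem_AA] at hx ⊢
    rw [← hx]
    exact Equiv.sum_comp (Equiv.swap i i') x
  · intro x hx
    rw [mem_AA] at hx ⊢
    rw [← hx]
    exact Equiv.sum_comp (Equiv.swap i i') x
  · intro x _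
    funext k
    simp
  · intro x _
    funext k
    simp
  · intro x _
    simp

theorem mean_zero (i : Fin N) {n : ℕ} (hn : 1 ≤ n) :
    ∑ x ∈ AA N n, ((x i : ℝ) / n - 1 / N) = 0 := by
  have hN : 0 < N := i.pos
  have hNr : (0 : ℝ) < N := by exact_mod_cast hN
  have hnr : (0 : ℝ) < n := by exact_mod_cast hn
  have h1 : (N : ℝ) * ∑ x ∈ AA N n, (x i : ℝ) = n * (AA N n).card := by
    have h2 : ∑ i' : Fin N, ∑ x ∈ AA N n, (x i' : ℝ) = (N : ℝ) * ∑ x ∈ AA N n, (x i : ℝ) := by
      rw [Finset.sum_congr rfl (fun i' _ => sum_swap i' i n), Finset.sum_const, nsmul_eq_mul,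
        Finset.card_univ, Fintype.card_fin]
    rw [← h2, Finset.sum_comm]
    have h3 : ∀ x ∈ AA N n, ∑ i' : Fin N, (x i' : ℝ) = n := by
      intro x hx
      rw [mem_AA] at hx
      rw [← hx]
      push_cast
      rfl
    rw [Finset.sum_congr rfl h3, Finset.sum_const, nsmul_eq_mul]
    ring
  rw [Finset.sum_sub_distrib, ← Finset.sum_div, Finset.sum_const, nsmul_eq_mul]
  field_simp
  linarith

theorem abs_le_one' (i : Fin N) {n : ℕ} (hn : 1 ≤ n) {x : Fin N → ℕ} (hx : x ∈ AA N n) :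
    |(x i : ℝ) / n - 1 / N| ≤ 1 := by
  have hN : 0 < N := i.pos
  have hNr : (1 : ℝ) ≤ N := by exact_mod_cast hN
  have hnr : (0 : ℝ) < n := by exact_mod_cast hn
  rw [mem_AA] at hx
  have h1 : x i ≤ n := by
    rw [← hx]
    exact Finset.single_le_sum (f := x) (fun _ _ => Nat.zero_le _) (Finset.mem_univ i)
  have h1r : (x i : ℝ) ≤ n := by exact_mod_cast h1
  have h2 : (x i : ℝ) / n ≤ 1 := by rw [div_le_one hnr]; exact h1r
  have h3 : (0 : ℝ) ≤ (x i : ℝ) / n := by positivity
  have h4 : (1 : ℝ) / N ≤ 1 := by rw [div_le_one (by linarith)]; exact hNr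
  have h5 : (0 : ℝ) ≤ 1 / N := by positivity
  rw [abs_le]
  constructor <;> linarith

theorem cross {ι : Type} [DecidableEq ι] (A : Fin m → Finset ι) (f : Fin m → ι → ℝ)
    (h0 : ∀ h, ∑ x ∈ A h, f h x = 0) {h h' : Fin m} (hne : h ≠ h') :
    ∑ E ∈ Fintype.piFinset A, f h (E h) * f h' (E h') = 0 := by
  have h1 : ∀ E : Fin m → ι, f h (E h) * f h' (E h') =
      ∏ k, ((if k = h then f h (E k) else 1) * (if k = h' then f h' (E k) else 1)) := by
    intro E
    rw [Finset.prod_mul_distrib, Finset.prod_ite_eq' Finset.univ h (fun k => f h (E k)),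
      Finset.prod_ite_eq' Finset.univ h' (fun k => f h' (E k)), if_pos (Finset.mem_univ _),
      if_pos (Finset.mem_univ _)]
  rw [Finset.sum_congr rfl (fun E _ => h1 E)]
  rw [← Finset.prod_univ_sum A
    (fun k x => (if k = h then f h x else 1) * (if k = h' then f h' x else 1))]
  apply Finset.prod_eq_zero (Finset.mem_univ h)
  rw [← h0 h]
  apply Finset.sum_congr rfl
  intro x _
  rw [if_pos rfl, if_neg hne, mul_one]

theorem second_moment {ι : Type} [DecidableEq ι] (A : Fin m → Finset ι) (f : Fin m → ι → ℝ)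
    (h0 : ∀ h, ∑ x ∈ A h, f h x = 0) (h1 : ∀ h, ∀ x ∈ A h, |f h x| ≤ 1) :
    ∑ E ∈ Fintype.piFinset A, (∑ h, f h (E h)) ^ 2 ≤ m * (Fintype.piFinset A).card := by
  have h2 : ∑ E ∈ Fintype.piFinset A, (∑ h, f h (E h)) ^ 2 =
      ∑ h, ∑ h', ∑ E ∈ Fintype.piFinset A, f h (E h) * f h' (E h') := by
    rw [Finset.sum_congr rfl (fun E _ => by
      rw [sq, Finset.sum_mul_sum] :
      ∀ E ∈ Fintype.piFinset A, (∑ h, f h (E h)) ^ 2 = ∑ h, ∑ h', f h (E h) * f h' (E h'))]
    rw [Finset.sum_comm]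
    apply Finset.sum_congr rfl
    intro h _
    rw [Finset.sum_comm]
  rw [h2]
  have h3 : ∀ h, ∑ h', ∑ E ∈ Fintype.piFinset A, f h (E h) * f h' (E h') ≤
      (Fintype.piFinset A).card := by
    intro h
    rw [Finset.sum_eq_single h]
    · calc ∑ E ∈ Fintype.piFinset A, f h (E h) * f h (E h)
          ≤ ∑ E ∈ Fintype.piFinset A, (1 : ℝ) := by
            apply Finset.sum_le_sum
            intro E hE
            rw [Fintype.mem_piFinset] at hE
            have h4 := h1 h (E h) (hE h)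
            rw [← sq, ← sq_abs]
            exact pow_le_one₀ (abs_nonneg _) h4
        _ = (Fintype.piFinset A).card := by rw [Finset.sum_const, nsmul_eq_mul, mul_one]
    · intro h' _ hne
      exact cross A f h0 hne.symm
    · intro hcon
      exact absurd (Finset.mem_univ _) hcon
  calc ∑ h, ∑ h', ∑ E ∈ Fintype.piFinset A, f h (E h) * f h' (E h')
      ≤ ∑ h : Fin m, ((Fintype.piFinset A).card : ℝ) := Finset.sum_le_sum fun h _ => h3 h
    _ = m * (Fintype.piFinset A).card := by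
        rw [Finset.sum_const, nsmul_eq_mul, Finset.card_univ, Fintype.card_fin]

/-- all exponents -/
noncomputable def Om (N : ℕ) (d : Fin m → ℕ) : Finset (Fin m → Fin N → ℕ) :=
  Fintype.piFinset fun h => AA N (d h)

open Classical in
/-- the bad exponents -/
noncomputable def bad (N : ℕ) (d : Fin m → ℕ) (ε : ℝ) (i : Fin N) :
    Finset (Fin m → Fin N → ℕ) :=
  (Om N d).filter fun E => ∑ h, (E h i : ℝ) / d h < (m : ℝ) / N - m * ε

theorem cheb (d : Fin m → ℕ) (hd : ∀ h, 1 ≤ d h) (hm : 1 ≤ m) (i : Fin N) (ε : ℝ)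
    (hε : 0 < ε) : ((bad N d ε i).card : ℝ) * (m * ε ^ 2) ≤ (Om N d).card := by
  classical
  have hmr : (0 : ℝ) < m := by exact_mod_cast hm
  have h1 := second_moment (fun h => AA N (d h))
    (fun h x => (x i : ℝ) / d h - 1 / N) (fun h => mean_zero i (hd h))
    (fun h x hx => abs_le_one' i (hd h) hx)
  have h2 : ∀ E : Fin m → Fin N → ℕ, ∑ h, ((E h i : ℝ) / d h - 1 / N) =
      ∑ h, (E h i : ℝ) / d h - m / N := by
    intro E
    rw [Finset.sum_sub_distrib, Finset.sum_const, nsmul_eq_mul, Finset.card_univ,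
      Fintype.card_fin]
    ring
  have h3 : ((bad N d ε i).card : ℝ) * (m * ε) ^ 2 ≤
      ∑ E ∈ bad N d ε i, (∑ h, ((E h i : ℝ) / d h - 1 / N)) ^ 2 := by
    rw [← nsmul_eq_mul, ← Finset.sum_const]
    apply Finset.sum_le_sum
    intro E hE
    unfold bad at hE
    rw [Finset.mem_filter] at hE
    rw [h2 E]
    have h4 := hE.2
    have h5 : 0 < (m : ℝ) * ε := by positivity
    nlinarith
  have h4 : ∑ E ∈ bad N d ε i, (∑ h, ((E h i : ℝ) / d h - 1 / N)) ^ 2 ≤
      ∑ E ∈ Om N d, (∑ h, ((E h i : ℝ) / d h - 1 / N)) ^ 2 := by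
    apply Finset.sum_le_sum_of_subset_of_nonneg
    · unfold bad
      exact Finset.filter_subset _ _
    · intro _ _ _
      positivity
  have h5 : ((bad N d ε i).card : ℝ) * (m * ε) ^ 2 ≤ m * (Om N d).card := by
    refine h3.trans (h4.trans ?_)
    exact h1
  have h6 : (m : ℝ) * (((bad N d ε i).card : ℝ) * (m * ε ^ 2)) ≤ m * (Om N d).card := by
    have : (m : ℝ) * (((bad N d ε i).card : ℝ) * (m * ε ^ 2)) =
      ((bad N d ε i).card : ℝ) * (m * ε) ^ 2 := by ring
    rw [this]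
    exact h5
  exact le_of_mul_le_mul_left h6 hmr

theorem card_AA_le (N n : ℕ) : (AA N n).card ≤ 2 ^ (N * n) := by
  have h1 : AA N n ⊆ Fintype.piFinset fun _ : Fin N => Finset.range (n + 1) := by
    intro x hx
    rw [mem_AA] at hx
    rw [Fintype.mem_piFinset]
    intro k
    rw [Finset.mem_range, Nat.lt_succ_iff, ← hx]
    exact Finset.single_le_sum (f := x) (fun _ _ => Nat.zero_le _) (Finset.mem_univ k)
  have h2 := Finset.card_le_card h1
  rw [Fintype.card_piFinset, Finset.prod_const, Finset.card_univ, Fintype.card_fin,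
    Finset.card_range] at h2
  have h3 : n + 1 ≤ 2 ^ n := Nat.lt_two_pow_self
  calc (AA N n).card ≤ (n + 1) ^ N := h2
    _ ≤ (2 ^ n) ^ N := Nat.pow_le_pow_left h3 N
    _ = 2 ^ (N * n) := by rw [← pow_mul, mul_comm]

theorem card_Om_le (d : Fin m → ℕ) : (Om N d).card ≤ 2 ^ (N * ∑ h, d h) := by
  unfold Om
  rw [Fintype.card_piFinset, Finset.mul_sum, ← Finset.prod_pow_eq_pow_sum]
  exact Finset.prod_le_prod (fun _ _ => Nat.zero_le _) (fun h _ => card_AA_le N (d h))

/-- the exponent as a finsupp -/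
noncomputable def toF (E : Fin m → Fin N → ℕ) : (Fin m × Fin N) →₀ ℕ :=
  Finsupp.equivFunOnFinite.symm fun hk => E hk.1 hk.2

theorem toF_apply (E : Fin m → Fin N → ℕ) (h : Fin m) (k : Fin N) : toF E (h, k) = E h k := rfl

theorem toF_inj {E E' : Fin m → Fin N → ℕ} (h : toF E = toF E') : E = E' := by
  funext a b
  rw [← toF_apply E, ← toF_apply E', h]

theorem mem_Om {d : Fin m → ℕ} {E : Fin m → Fin N → ℕ} :
    E ∈ Om N d ↔ ∀ h, ∑ k, E h k = d h := by
  unfold Om
  rw [Fintype.mem_piFinset]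
  exact forall_congr' fun h => mem_AA

theorem sum_toF {d : Fin m → ℕ} {E : Fin m → Fin N → ℕ} (hE : E ∈ Om N d) :
    ∑ hk, toF E hk = ∑ h, d h := by
  rw [Fintype.sum_prod_type]
  apply Finset.sum_congr rfl
  intro h _
  exact mem_Om.1 hE h

/-! ### the linear system -/

attribute [local instance] Matrix.seminormedAddCommGroup

theorem siegel {α β : Type} [Fintype α] [Fintype β] [DecidableEq β] (A : Matrix α β ℤ) (K : ℝ)
    (hK : 1 ≤ K) (hA : ∀ i j, |((A i j : ℤ) : ℝ)| ≤ K) (hβ : 0 < Fintype.card β)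
    (h2 : 2 * Fintype.card α ≤ Fintype.card β) :
    ∃ t : β → ℤ, t ≠ 0 ∧ A.mulVec t = 0 ∧ ∀ j, |((t j : ℤ) : ℝ)| ≤ Fintype.card β * K := by
  have hβr : (1 : ℝ) ≤ Fintype.card β := by exact_mod_cast hβ
  rcases Nat.eq_zero_or_pos (Fintype.card α) with h0 | hpos
  · obtain ⟨j0⟩ : Nonempty β := Fintype.card_pos_iff.1 hβ
    refine ⟨Pi.single j0 1, ?_, ?_, ?_⟩
    · intro hcon
      have := congrFun hcon j0
      simp at this
    · have : IsEmpty α := Fintype.card_eq_zero_iff.1 h0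
      funext i
      exact isEmptyElim i
    · intro j
      have h1 : (1 : ℝ) ≤ Fintype.card β * K := by nlinarith
      by_cases hj : j = j0
      · subst hj
        simpa using h1
      · rw [Pi.single_eq_of_ne hj]
        simp only [Int.cast_zero, abs_zero]
        linarith
  · have hlt : Fintype.card α < Fintype.card β := by omega
    obtain ⟨t, ht0, htA, htn⟩ := Int.Matrix.exists_ne_zero_int_vec_norm_le A hlt hpos
    refine ⟨t, ht0, htA, ?_⟩
    intro j
    have h1 : ‖t j‖ ≤ ‖t‖ := norm_le_pi_norm t j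
    rw [Int.norm_eq_abs] at h1
    have hAn : ‖A‖ ≤ K := by
      rw [Matrix.norm_le_iff (by linarith)]
      intro i j
      rw [Int.norm_eq_abs]
      exact_mod_cast hA i j
    have hmax : max 1 ‖A‖ ≤ K := max_le hK hAn
    have hmax1 : 1 ≤ max 1 ‖A‖ := le_max_left _ _
    have hbase : 1 ≤ (Fintype.card β : ℝ) * max 1 ‖A‖ := by nlinarith
    have he : ((Fintype.card α : ℝ)) / ((Fintype.card β : ℝ) - Fintype.card α) ≤ 1 := by
      have h3 : (0 : ℝ) < (Fintype.card β : ℝ) - Fintype.card α := by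
        have : (Fintype.card α : ℝ) < Fintype.card β := by exact_mod_cast hlt
        linarith
      rw [div_le_one h3]
      have h4 : (2 : ℝ) * Fintype.card α ≤ Fintype.card β := by exact_mod_cast h2
      linarith
    have h5 : ((Fintype.card β : ℝ) * max 1 ‖A‖) ^
        (((Fintype.card α : ℝ)) / ((Fintype.card β : ℝ) - Fintype.card α)) ≤
        (Fintype.card β : ℝ) * max 1 ‖A‖ := by
      calc _ ≤ ((Fintype.card β : ℝ) * max 1 ‖A‖) ^ (1 : ℝ) :=
            Real.rpow_le_rpow_of_exponent_le hbase he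
        _ = _ := Real.rpow_one _
    have h6 : (Fintype.card β : ℝ) * max 1 ‖A‖ ≤ Fintype.card β * K :=
      mul_le_mul_of_nonneg_left hmax (by linarith)
    exact_mod_cast h1.trans (htn.trans (h5.trans h6))

/-- the polynomial with coefficients `t` -/
noncomputable def PP {d : Fin m → ℕ} (t : (Om N d) → ℤ) : MvPolynomial (Fin m × Fin N) ℤ :=
  ∑ E : Om N d, monomial (toF E.1) (t E)

theorem coeff_PP {d : Fin m → ℕ} (t : (Om N d) → ℤ) (E : Om N d) :
    coeff (toF E.1) (PP t) = t E := by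
  classical
  unfold PP
  rw [coeff_sum, Finset.sum_eq_single E]
  · rw [coeff_monomial, if_pos rfl]
  · intro E' _ hne
    rw [coeff_monomial, if_neg]
    intro h
    exact hne (Subtype.ext (toF_inj h))
  · intro h
    exact absurd (Finset.mem_univ _) h

theorem coeff_PP_ne {d : Fin m → ℕ} (t : (Om N d) → ℤ) (e : (Fin m × Fin N) →₀ ℕ)
    (he : coeff e (PP t) ≠ 0) : ∃ E : Om N d, e = toF E.1 := by
  classical
  unfold PP at he
  rw [coeff_sum] at he
  obtain ⟨E, _, hE⟩ := Finset.exists_ne_zero_of_sum_ne_zero he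
  rw [coeff_monomial] at hE
  by_cases h : toF E.1 = e
  · exact ⟨E, h.symm⟩
  · rw [if_neg h] at hE
    exact absurd rfl hE

theorem lin_PP {d : Fin m → ℕ} (A : Matrix (Fin N) (Fin N) ℤ) (t : (Om N d) → ℤ)
    (j : (Fin m × Fin N) →₀ ℕ) :
    coeff j (lin A (PP t)) = ∑ E : Om N d, coeff j (lin A (monomial (toF E.1) 1)) * t E := by
  have h1 : lin A (PP t) = ∑ E : Om N d, lin A (monomial (toF E.1) (t E)) := by
    unfold lin PP
    rw [map_sum]
  rw [h1, coeff_sum]
  apply Finset.sum_congr rfl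
  intro E _
  rw [lin_monomial, lin_monomial, coeff_C_mul, C_1, one_mul, mul_comm]

end AUX_

open AUX_ MvPolynomial in
theorem aux_proof0 : Stmt_AUX := by
  classical
  intro N S L hN hS hdet
  -- the bound of the coefficients of the substitution
  obtain ⟨B, hB1, hB⟩ : ∃ B : ℕ, 1 ≤ B ∧ ∀ v ∈ pl S, ∀ k,
      ∑ i, ((L v).adjugate k i).natAbs ≤ B := by
    refine ⟨1 + ∑ v ∈ pl S, ∑ k, ∑ i, ((L v).adjugate k i).natAbs, by omega, ?_⟩
    intro v hv k
    have h1 : ∑ i, ((L v).adjugate k i).natAbs ≤ ∑ k, ∑ i, ((L v).adjugate k i).natAbs :=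
      Finset.single_le_sum (f := fun k => ∑ i, ((L v).adjugate k i).natAbs)
        (fun _ _ => Nat.zero_le _) (Finset.mem_univ k)
    have h2 : ∑ k, ∑ i, ((L v).adjugate k i).natAbs ≤
        ∑ v ∈ pl S, ∑ k, ∑ i, ((L v).adjugate k i).natAbs :=
      Finset.single_le_sum (f := fun v => ∑ k, ∑ i, ((L v).adjugate k i).natAbs)
        (fun _ _ => Nat.zero_le _) hv
    omega
  have hBr : (1 : ℝ) ≤ B := by exact_mod_cast hB1
  have h2N : (1 : ℝ) ≤ 2 ^ N := one_le_pow₀ (by norm_num)
  refine ⟨2 ^ N * B, by nlinarith, ?_⟩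
  intro ε hε
  have hs : 0 < (pl S).card := Finset.card_pos.2 ⟨0, by unfold pl; exact Finset.mem_insert_self _ _⟩
  refine ⟨⌈2 * ((pl S).card * N : ℝ) / ε ^ 2⌉₊ + 1, ?_⟩
  intro m hm d hd
  have hm1 : 1 ≤ m := by omega
  have hmε : 2 * ((pl S).card * N : ℝ) ≤ m * ε ^ 2 := by
    have h1 : 2 * ((pl S).card * N : ℝ) / ε ^ 2 ≤ m := by
      have h2 := Nat.le_ceil (2 * ((pl S).card * N : ℝ) / ε ^ 2)
      have h3 : ((⌈2 * ((pl S).card * N : ℝ) / ε ^ 2⌉₊ : ℕ) : ℝ) ≤ m := by
        exact_mod_cast (by omega : ⌈2 * ((pl S).card * N : ℝ) / ε ^ 2⌉₊ ≤ m)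
      linarith
    rwa [div_le_iff₀ (by positivity)] at h1
  -- the unknowns and the equations
  let β : Type := Om N d
  let α : Type := Σ vi : (pl S) × Fin N, bad N d ε vi.2
  let Mt : Matrix α β ℤ := fun t E =>
    coeff (toF (t.2.1)) (lin (L t.1.1).adjugate (monomial (toF E.1) 1))
  have hβc : Fintype.card β = (Om N d).card := Fintype.card_coe _
  have hβ0 : 0 < Fintype.card β := by
    rw [hβc, Finset.card_pos]
    refine ⟨fun h => Pi.single ⟨0, hN⟩ (d h), ?_⟩
    rw [mem_Om]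
    intro h
    simp
  have hαc : Fintype.card α = ∑ vi : (pl S) × Fin N, (bad N d ε vi.2).card := by
    rw [Fintype.card_sigma]
    apply Finset.sum_congr rfl
    intro vi _
    exact Fintype.card_coe _
  have h2a : 2 * Fintype.card α ≤ Fintype.card β := by
    have h1 : (Fintype.card α : ℝ) * (m * ε ^ 2) ≤ ((pl S).card * N : ℝ) * (Om N d).card := by
      rw [hαc, Nat.cast_sum, Finset.sum_mul]
      calc ∑ vi : (pl S) × Fin N, ((bad N d ε vi.2).card : ℝ) * (m * ε ^ 2)
          ≤ ∑ vi : (pl S) × Fin N, ((Om N d).card : ℝ) :=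
            Finset.sum_le_sum fun vi _ => cheb d hd hm1 vi.2 ε hε
        _ = ((pl S).card * N : ℝ) * (Om N d).card := by
            rw [Finset.sum_const, nsmul_eq_mul, Finset.card_univ, Fintype.card_prod,
              Fintype.card_coe, Fintype.card_fin]
            push_cast
            ring
    have hsN : (0 : ℝ) < (pl S).card * N := by
      have h3 : (0 : ℝ) < (pl S).card := by exact_mod_cast hs
      have h4 : (0 : ℝ) < N := by exact_mod_cast hN
      positivity
    have h5 : (Fintype.card α : ℝ) * (2 * ((pl S).card * N : ℝ)) ≤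
        (Fintype.card α : ℝ) * (m * ε ^ 2) :=
      mul_le_mul_of_nonneg_left hmε (Nat.cast_nonneg _)
    have h6 : ((pl S).card * N : ℝ) * (2 * Fintype.card α) ≤
        ((pl S).card * N : ℝ) * Fintype.card β := by
      rw [hβc]
      linarith
    have h7 := le_of_mul_le_mul_left h6 hsN
    exact_mod_cast h7
  have hMt : ∀ i j, |((Mt i j : ℤ) : ℝ)| ≤ (B : ℝ) ^ (∑ h, d h) := by
    intro i j
    have h1 := coeff_lin_monomial_le (L i.1.1).adjugate B (hB i.1.1 i.1.1.2) hB1 (toF j.1)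
      (toF (i.2.1))
    rw [sum_toF j.2] at h1
    have h2 : ((|Mt i j| : ℤ) : ℝ) ≤ (((B ^ (∑ h, d h) : ℕ) : ℤ) : ℝ) := by exact_mod_cast h1
    rw [Int.cast_abs] at h2
    push_cast at h2
    exact h2
  obtain ⟨t, ht0, htA, htn⟩ := siegel Mt ((B : ℝ) ^ (∑ h, d h)) (one_le_pow₀ hBr) hMt hβ0 h2a
  have hbound : (Fintype.card β : ℝ) * (B : ℝ) ^ (∑ h, d h) ≤ (2 ^ N * B) ^ (∑ h, d h) := by
    rw [mul_pow, ← pow_mul, hβc]
    apply mul_le_mul_of_nonneg_right _ (by positivity)
    have := card_Om_le (N := N) d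
    exact_mod_cast this
  refine ⟨PP t, ?_, ?_, ?_, ?_⟩
  · intro hcon
    apply ht0
    funext E
    have h1 := coeff_PP t E
    rw [hcon, coeff_zero] at h1
    exact h1.symm
  · intro e he h
    obtain ⟨E, rfl⟩ := coeff_PP_ne t e (mem_support_iff.1 he)
    exact mem_Om.1 E.2 h
  · intro e
    by_cases he : coeff e (PP t) = 0
    · rw [he]
      simp only [Int.cast_zero, abs_zero]
      positivity
    · obtain ⟨E, rfl⟩ := coeff_PP_ne t e he
      rw [coeff_PP]
      exact (htn E).trans hbound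
  · intro v hv j hj
    by_contra hcon
    unfold Good at hcon
    push Not at hcon
    obtain ⟨i, hi⟩ := hcon
    have hj' : coeff j (lin (L v).adjugate (PP t)) ≠ 0 := mem_support_iff.1 hj
    have hlp := lin_PP (L v).adjugate t j
    -- `j` is multihomogeneous
    have hjd : ∀ h, ∑ k, j (h, k) = d h := by
      rw [hlp] at hj'
      obtain ⟨E, _, hE⟩ := Finset.exists_ne_zero_of_sum_ne_zero hj'
      have h1 : coeff j (lin (L v).adjugate (monomial (toF E.1) 1)) ≠ 0 := left_ne_zero_of_mul hE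
      exact mh_lin_monomial (L v).adjugate (toF E.1) 1 d (mem_Om.1 E.2) j
        (mem_support_iff.2 h1)
    set J : Fin m → Fin N → ℕ := fun h k => j (h, k) with hJ
    have hJF : toF J = j := by
      ext ⟨h, k⟩
      rfl
    have hJO : J ∈ Om N d := mem_Om.2 hjd
    have hJb : J ∈ bad N d ε i := by
      unfold bad
      rw [Finset.mem_filter]
      exact ⟨hJO, hi⟩
    have heq := congrFun htA (⟨(⟨v, hv⟩, i), ⟨J, hJb⟩⟩ : α)
    apply hj'
    rw [hlp, ← hJF]
    exact heq

theorem aux_proof (_hCHB : Stmt_CHB) (_hLNB : Stmt_LNB) : Stmt_AUX := aux_proof0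

end Pool.Agent.SBT
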