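import Pool.Agent.SBT.Stmts

/-!
# SBT (MP_57632f_nt), module CBN: the Cauchy-Binet formula for compound matrices
-/

set_option autoImplicit false

namespace Pool.Agent.SBT

namespace CBN_

open Matrix Equiv

variable {R : Type} [CommRing R] {N p : ℕ}

/-- expansion of the determinant of a product as a sum over all maps -/
theorem det_expand (A B : Matrix (Fin N) (Fin N) R) (s t : Fin p → Fin N) :
    ((A * B).submatrix s t).det =
      ∑ f : Fin p → Fin N, (∏ a, A (s a) (f a)) * (B.submatrix f t).det := by
  classical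
  have h1 : (A * B).submatrix s t =
      Matrix.of (fun a => ∑ i, (A (s a) i) • (fun b => B i (t b))) := by
    ext a b
    simp only [submatrix_apply, mul_apply, of_apply, Finset.sum_apply, Pi.smul_apply, smul_eq_mul]
  have h2 : (Matrix.of (fun a => ∑ i, (A (s a) i) • (fun b => B i (t b))) :
        Matrix (Fin p) (Fin p) R).det =
      (Matrix.detRowAlternating (R := R) (n := Fin p)).toMultilinearMap
        (fun a => ∑ i, (A (s a) i) • (fun b => B i (t b))) := rfl
  rw [h1, h2, MultilinearMap.map_sum]
  refine Finset.sum_congr rfl fun f _ => ?_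
  rw [MultilinearMap.map_smul_univ, smul_eq_mul]
  rfl

theorem det_comp (B : Matrix (Fin N) (Fin N) R) (u t : Fin p → Fin N) (σ : Perm (Fin p)) :
    (B.submatrix (u ∘ σ) t).det = (Perm.sign σ : ℤ) * (B.submatrix u t).det := by
  have h := Matrix.det_permute σ (B.submatrix u t)
  rw [← h]
  rfl

end CBN_

open CBN_ Matrix Equiv in
theorem cbn_proof : Stmt_CBN := by
  classical
  intro R _ N p A B
  ext s t
  rw [Matrix.mul_apply]
  change ((A * B).submatrix s.1 t.1).det =
    ∑ u : Sb N p, (A.submatrix s.1 u.1).det * (B.submatrix u.1 t.1).det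
  rw [det_expand]
  have h1 : ∀ u : Sb N p, (A.submatrix s.1 u.1).det * (B.submatrix u.1 t.1).det =
      ∑ σ : Perm (Fin p), (∏ a, A (s.1 a) ((u.1 ∘ σ) a)) * (B.submatrix (u.1 ∘ σ) t.1).det := by
    intro u
    rw [← Matrix.det_transpose (A.submatrix s.1 u.1), Matrix.det_apply', Finset.sum_mul]
    refine Finset.sum_congr rfl fun σ _ => ?_
    rw [det_comp]
    simp only [transpose_apply, submatrix_apply, Function.comp]
    ring
  rw [Finset.sum_congr rfl fun u _ => h1 u, ← Finset.sum_product']
  symm
  refine Finset.sum_of_injOn (fun q : Sb N p × Perm (Fin p) => q.1.1 ∘ q.2) ?_ ?_ ?_ ?_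
  · rintro ⟨u, σ⟩ - ⟨u', σ'⟩ - h
    simp only at h
    have hr : Set.range u.1 = Set.range u'.1 := by
      have a1 : Set.range (u.1 ∘ σ) = Set.range u.1 := σ.surjective.range_comp _
      have a2 : Set.range (u'.1 ∘ σ') = Set.range u'.1 := σ'.surjective.range_comp _
      rw [← a1, ← a2, h]
    have hu : u.1 = u'.1 := (u.2.range_inj u'.2).1 hr
    have hu' : u = u' := Subtype.ext hu
    subst hu'
    have hs : σ = σ' := by
      ext a
      have := congrFun h a
      exact congrArg Fin.val (u.2.injective this)
    rw [hs]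
  · intro q _
    exact Finset.mem_coe.2 (Finset.mem_univ _)
  · intro f _ hf
    have hni : ¬ Function.Injective f := by
      intro hinj
      apply hf
      have hm : StrictMono (f ∘ Tuple.sort f) :=
        (Tuple.monotone_sort f).strictMono_of_injective
          (hinj.comp (Tuple.sort f).injective)
      refine ⟨(⟨f ∘ Tuple.sort f, hm⟩, (Tuple.sort f)⁻¹), by simp, ?_⟩
      funext a
      simp
    simp only [Function.Injective, not_forall] at hni
    obtain ⟨a, b, hab, hne⟩ := hni
    rw [Matrix.det_zero_of_row_eq hne (by funext c; simp [hab]), mul_zero]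
  · rintro ⟨u, σ⟩ _
    rfl

end Pool.Agent.SBT
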