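import Pool.Agent.SBT.StmtsBC

set_option autoImplicit false

namespace Pool.Agent.SBT

open Filter

namespace CHB_

variable {m N : ℕ}

lemma swv (h : Fin m) (i i' : Fin N) (h'' : Fin m) (k : Fin N) :
    Equiv.swap (h, i) (h, i') (h'', k) =
      (h'', if h'' = h then Equiv.swap i i' k else k) := by
  by_cases hh : h'' = h
  · subst hh
    rw [if_pos rfl, Equiv.swap_apply_def, Equiv.swap_apply_def]
    by_cases h1 : k = i
    · subst h1
      rw [if_pos rfl, if_pos rfl]
    · have h1' : (h'', k) ≠ (h'', i) := fun e => h1 (Prod.ext_iff.1 e).2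
      rw [if_neg h1, if_neg h1']
      by_cases h2 : k = i'
      · subst h2
        rw [if_pos rfl, if_pos rfl]
      · have h2' : (h'', k) ≠ (h'', i') := fun e => h2 (Prod.ext_iff.1 e).2
        rw [if_neg h2, if_neg h2']
  · rw [if_neg hh]
    exact Equiv.swap_apply_of_ne_of_ne (fun e => hh (Prod.ext_iff.1 e).1)
      (fun e => hh (Prod.ext_iff.1 e).1)

/-- exchange of two coordinates of the block `h` -/
noncomputable def T (h : Fin m) (i i' : Fin N) (j : (Fin m × Fin N) →₀ ℕ) :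
    (Fin m × Fin N) →₀ ℕ :=
  Finsupp.equivMapDomain (Equiv.swap (h, i) (h, i')) j

lemma T_apply (h : Fin m) (i i' : Fin N) (j : (Fin m × Fin N) →₀ ℕ) (h'' : Fin m) (k : Fin N) :
    T h i i' j (h'', k) = j (h'', if h'' = h then Equiv.swap i i' k else k) := by
  unfold T
  rw [Finsupp.equivMapDomain_apply, Equiv.symm_swap, swv]

lemma T_T (h : Fin m) (i i' : Fin N) (j : (Fin m × Fin N) →₀ ℕ) :
    T h i i' (T h i i' j) = j := by
  ext ⟨h'', k⟩
  rw [T_apply, T_apply]
  by_cases hh : h'' = h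
  · rw [if_pos hh, if_pos hh]
    have : Equiv.swap i i' (Equiv.swap i i' k) = k := by simp
    rw [this]
  · rw [if_neg hh, if_neg hh]

lemma T_mem {d : Fin m → ℕ} {F : Finset ((Fin m × Fin N) →₀ ℕ)}
    (hF : ∀ j, j ∈ F ↔ ∀ h, ∑ k, j (h, k) = d h) (h : Fin m) (i i' : Fin N)
    {j : (Fin m × Fin N) →₀ ℕ} (hj : j ∈ F) : T h i i' j ∈ F := by
  rw [hF] at hj ⊢
  intro h''
  rw [← hj h'']
  by_cases hh : h'' = h
  · have h1 : ∀ k, T h i i' j (h'', k) = j (h'', Equiv.swap i i' k) := by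
      intro k
      rw [T_apply, if_pos hh]
    rw [Finset.sum_congr rfl fun k _ => h1 k]
    exact Equiv.sum_comp (Equiv.swap i i') fun k => j (h'', k)
  · refine Finset.sum_congr rfl fun k _ => ?_
    rw [T_apply, if_neg hh]

/-- the random variables -/
noncomputable def X (d : Fin m → ℕ) (h : Fin m) (i : Fin N) (j : (Fin m × Fin N) →₀ ℕ) : ℝ :=
  (j (h, i) : ℝ) / d h

lemma sym {d : Fin m → ℕ} {F : Finset ((Fin m × Fin N) →₀ ℕ)}
    (hF : ∀ j, j ∈ F ↔ ∀ h, ∑ k, j (h, k) = d h) (h : Fin m) (i i' : Fin N)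
    (Y : ((Fin m × Fin N) →₀ ℕ) → ℝ) (hY : ∀ j, Y (T h i i' j) = Y j) :
    ∑ j ∈ F, X d h i j * Y j = ∑ j ∈ F, X d h i' j * Y j := by
  refine Finset.sum_nbij' (T h i i') (T h i i') (fun j hj => T_mem hF h i i' hj)
    (fun j hj => T_mem hF h i i' hj) (fun j _ => T_T h i i' j) (fun j _ => T_T h i i' j) ?_
  intro j _
  rw [hY]
  have : X d h i' (T h i i' j) = X d h i j := by
    unfold X
    rw [T_apply, if_pos rfl, Equiv.swap_apply_right]
  rw [this]

lemma cross {d : Fin m → ℕ} {F : Finset ((Fin m × Fin N) →₀ ℕ)} (hd : ∀ h, 1 ≤ d h)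
    (hF : ∀ j, j ∈ F ↔ ∀ h, ∑ k, j (h, k) = d h) (h : Fin m) (i : Fin N)
    (Y : ((Fin m × Fin N) →₀ ℕ) → ℝ) (hY : ∀ i' j, Y (T h i i' j) = Y j) :
    ∑ j ∈ F, (X d h i j - 1 / N) * Y j = 0 := by
  have hN : (N : ℝ) ≠ 0 := by
    have : 0 < N := lt_of_le_of_lt (Nat.zero_le _) i.2
    exact_mod_cast this.ne'
  have h1 : ∑ i' : Fin N, ∑ j ∈ F, X d h i' j * Y j = ∑ j ∈ F, Y j := by
    rw [Finset.sum_comm]
    refine Finset.sum_congr rfl fun j hj => ?_
    rw [← Finset.sum_mul]
    have h2 : ∑ i' : Fin N, X d h i' j = 1 := by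
      unfold X
      rw [← Finset.sum_div]
      have h3 := (hF j).1 hj h
      have h4 : ∑ i' : Fin N, (j (h, i') : ℝ) = d h := by
        rw [← h3]
        push_cast
        rfl
      rw [h4]
      refine div_self ?_
      have := hd h
      exact_mod_cast (by omega : d h ≠ 0)
    rw [h2, one_mul]
  have h2 : ∑ i' : Fin N, ∑ j ∈ F, X d h i' j * Y j = N * ∑ j ∈ F, X d h i j * Y j := by
    rw [Finset.sum_congr rfl fun i' _ => (sym hF h i i' Y (hY i')).symm]
    simp
  have h3 : ∑ j ∈ F, (X d h i j - 1 / N) * Y j =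
      ∑ j ∈ F, X d h i j * Y j - 1 / N * ∑ j ∈ F, Y j := by
    rw [Finset.mul_sum, ← Finset.sum_sub_distrib]
    refine Finset.sum_congr rfl fun j _ => ?_
    ring
  rw [h3, ← h1, h2]
  field_simp
  ring

end CHB_

open CHB_ in
theorem chb_proof : Stmt_CHB := by
  intro m N d F ε i hm hε hd hF
  have hN0 : 0 < N := lt_of_le_of_lt (Nat.zero_le _) i.2
  have hN : (N : ℝ) ≠ 0 := by exact_mod_cast hN0.ne'
  have hN1 : (1 : ℝ) ≤ N := by exact_mod_cast hN0
  have hm0 : (0 : ℝ) < m := by exact_mod_cast hm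
  -- the variance
  have hvar : ∑ j ∈ F, (∑ h, (X d h i j - 1 / N)) ^ 2 ≤ m * F.card := by
    have e1 : ∀ j, (∑ h, (X d h i j - 1 / N)) ^ 2 =
        ∑ h, ∑ h', (X d h i j - 1 / N) * (X d h' i j - 1 / N) := by
      intro j
      rw [pow_two, Finset.sum_mul_sum]
    rw [Finset.sum_congr rfl fun j _ => e1 j, Finset.sum_comm]
    have e2 : ∀ h : Fin m, ∑ j ∈ F, ∑ h', (X d h i j - 1 / N) * (X d h' i j - 1 / N) ≤
        (F.card : ℝ) := by
      intro h
      rw [Finset.sum_comm, Finset.sum_eq_single h]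
      · have e3 : ∀ j ∈ F, (X d h i j - 1 / N) * (X d h i j - 1 / N) ≤ (1 : ℝ) := by
          intro j hj
          have h1 := (hF j).1 hj h
          have h2 : j (h, i) ≤ d h := by
            rw [← h1]
            exact Finset.single_le_sum (f := fun k => j (h, k)) (fun _ _ => Nat.zero_le _)
              (Finset.mem_univ i)
          have h3 : (0 : ℝ) ≤ X d h i j := by
            unfold X
            positivity
          have h4 : X d h i j ≤ 1 := by
            unfold X
            have hdh : (0 : ℝ) < d h := by exact_mod_cast hd h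
            rw [div_le_one hdh]
            exact_mod_cast h2
          have h5 : (0 : ℝ) ≤ 1 / N := by positivity
          have h6 : (1 : ℝ) / N ≤ 1 := by
            rw [div_le_one (by positivity)]
            exact hN1
          have h7 : |X d h i j - 1 / N| ≤ 1 := by
            rw [abs_le]
            constructor <;> linarith
          have h8 := abs_le.1 h7
          nlinarith [h8.1, h8.2]
        calc ∑ j ∈ F, (X d h i j - 1 / N) * (X d h i j - 1 / N) ≤ ∑ _j ∈ F, (1 : ℝ) :=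
              Finset.sum_le_sum e3
          _ = (F.card : ℝ) := by simp
      · intro h' _ hne
        refine cross hd hF h i (fun j => X d h' i j - 1 / N) ?_
        intro i' j
        congr 1
        unfold X
        rw [T_apply, if_neg hne]
      · intro h'
        exact absurd (Finset.mem_univ h) h'
    calc ∑ h, ∑ j ∈ F, ∑ h', (X d h i j - 1 / N) * (X d h' i j - 1 / N)
        ≤ ∑ _h : Fin m, (F.card : ℝ) := Finset.sum_le_sum fun h _ => e2 h
      _ = m * F.card := by simp
  -- Chebyshev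
  set G := F.filter (fun j => ∑ h, (j (h, i) : ℝ) / d h < (m : ℝ) / N - m * ε) with hG
  have hlow : (G.card : ℝ) * (m * ε) ^ 2 ≤ ∑ j ∈ F, (∑ h, (X d h i j - 1 / N)) ^ 2 := by
    calc (G.card : ℝ) * (m * ε) ^ 2 = ∑ _j ∈ G, (m * ε) ^ 2 := by simp
      _ ≤ ∑ j ∈ G, (∑ h, (X d h i j - 1 / N)) ^ 2 := by
          refine Finset.sum_le_sum fun j hj => ?_
          have h1 := (Finset.mem_filter.1 hj).2
          have h2 : ∑ h, (X d h i j - 1 / N) = ∑ h, (j (h, i) : ℝ) / d h - m / N := by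
            rw [Finset.sum_sub_distrib]
            unfold X
            simp
            ring
          rw [h2]
          have h3 : (m : ℝ) * ε ≤ m / N - ∑ h, (j (h, i) : ℝ) / d h := by linarith
          have h4 : (0 : ℝ) ≤ m * ε := by positivity
          nlinarith
      _ ≤ ∑ j ∈ F, (∑ h, (X d h i j - 1 / N)) ^ 2 :=
          Finset.sum_le_sum_of_subset_of_nonneg (Finset.filter_subset _ _)
            fun _ _ _ => sq_nonneg _
  have hfin := hlow.trans hvar
  have h9 : (m : ℝ) * ((G.card : ℝ) * (m * ε ^ 2)) ≤ m * F.card := by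
    calc (m : ℝ) * ((G.card : ℝ) * (m * ε ^ 2)) = (G.card : ℝ) * (m * ε) ^ 2 := by ring
      _ ≤ _ := hfin
  exact le_of_mul_le_mul_left h9 hm0

end Pool.Agent.SBT
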