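import Pool.Agent.SBT.Stmts

/-!
# CPS: the sum of the exponents of the compound
-/

set_option autoImplicit false

namespace Pool.Agent.SBT

theorem cps_proof : Stmt_CPS := by
  intro N p c hp
  classical
  have h1 : ∑ s : Sb N p, ∑ a, c (s.1 a) =
      ∑ T ∈ Finset.powersetCard p (Finset.univ : Finset (Fin N)), ∑ i ∈ T, c i := by
    refine Finset.sum_bij (fun s _ => Finset.univ.image s.1) ?_ ?_ ?_ ?_
    · intro s _
      rw [Finset.mem_powersetCard]
      exact ⟨Finset.subset_univ _, by
        rw [Finset.card_image_of_injective _ s.2.injective, Finset.card_univ, Fintype.card_fin]⟩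
    · intro s _ t _ h
      apply Subtype.ext
      have h2 : Set.range s.1 = Set.range t.1 := by
        have h3 := congrArg (fun T : Finset (Fin N) => (T : Set (Fin N))) h
        simpa using h3
      exact (StrictMono.range_inj s.2 t.2).1 h2
    · intro T hT
      rw [Finset.mem_powersetCard] at hT
      refine ⟨⟨T.orderEmbOfFin hT.2, (T.orderEmbOfFin hT.2).strictMono⟩, Finset.mem_univ _, ?_⟩
      exact Finset.image_orderEmbOfFin_univ T hT.2
    · intro s _
      rw [Finset.sum_image (fun a _ b _ h => s.2.injective h)]
  have h2 : ∀ T ∈ Finset.powersetCard p (Finset.univ : Finset (Fin N)),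
      ∑ i ∈ T, c i = ∑ i, if i ∈ T then c i else 0 := by
    intro T _
    rw [Finset.sum_ite_mem, Finset.univ_inter]
  rw [h1, Finset.sum_congr rfl h2, Finset.sum_comm, Finset.mul_sum]
  refine Finset.sum_congr rfl fun i _ => ?_
  rw [← Finset.sum_filter, Finset.sum_const, nsmul_eq_mul]
  have h3 := Finset.card_filter_powersetCard_subset {i} (Finset.univ : Finset (Fin N)) p
    (Finset.subset_univ _) (by simpa using hp)
  simp only [Finset.singleton_subset_iff, Finset.card_univ, Fintype.card_fin,
    Finset.card_singleton] at h3
  rw [h3]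

end Pool.Agent.SBT
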