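import Pool.Agent.SBT.Stmts

/-!
# Module DAV: Davenport's lemma
-/

set_option autoImplicit false

namespace Pool.Agent.SBT

open Filter

namespace DAV_

/-- the value of the `i`-th form at the vector with coordinates `x` -/
def F {N : ℕ} (Y : Fin N → Fin N → ℝ) (x : Fin N → ℝ) (i : Fin N) : ℝ := ∑ k, x k * Y k i

theorem F_add {N : ℕ} (Y : Fin N → Fin N → ℝ) (x y : Fin N → ℝ) (i : Fin N) :
    F Y (fun k => x k + y k) i = F Y x i + F Y y i := by
  unfold F
  rw [← Finset.sum_add_distrib]
  exact Finset.sum_congr rfl fun k _ => by ring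

theorem F_smul {N : ℕ} (Y : Fin N → Fin N → ℝ) (c : ℝ) (x : Fin N → ℝ) (i : Fin N) :
    F Y (fun k => c * x k) i = c * F Y x i := by
  unfold F
  rw [Finset.mul_sum]
  exact Finset.sum_congr rfl fun k _ => by ring

theorem F_single {N : ℕ} (Y : Fin N → Fin N → ℝ) (j i : Fin N) :
    F Y (fun k => if k = j then 1 else 0) i = Y j i := by
  unfold F
  simp

theorem F_sum {N : ℕ} (Y : Fin N → Fin N → ℝ) (t : Fin N → ℝ) (w : Fin N → Fin N → ℝ)
    (i : Fin N) : F Y (fun l => ∑ k, t k * w k l) i = ∑ k, t k * F Y (w k) i := by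
  unfold F
  simp_rw [Finset.sum_mul, Finset.mul_sum]
  rw [Finset.sum_comm]
  exact Finset.sum_congr rfl fun k _ => Finset.sum_congr rfl fun l _ => by ring

/-- extension by zero -/
def ext {N : ℕ} (j : ℕ) (z : Fin j → ℝ) (k : Fin N) : ℝ := if h : (k : ℕ) < j then z ⟨k, h⟩ else 0

theorem solve {N : ℕ} (Y : Fin N → Fin N → ℝ) (j : ℕ) (hj : j ≤ N)
    (hinj : ∀ x : Fin N → ℝ, (∀ k : Fin N, j ≤ (k : ℕ) → x k = 0) →
      (∀ i : Fin N, (i : ℕ) < j → F Y x i = 0) → x = 0) (b : Fin N → ℝ) :
    ∃ x : Fin N → ℝ, (∀ k : Fin N, j ≤ (k : ℕ) → x k = 0) ∧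
      ∀ i : Fin N, (i : ℕ) < j → F Y x i = b i := by
  let L : (Fin j → ℝ) →ₗ[ℝ] (Fin j → ℝ) :=
    { toFun := fun z i => F Y (ext j z) (Fin.castLE hj i)
      map_add' := by
        intro z z'
        funext i
        simp only [Pi.add_apply]
        rw [← F_add]
        congr 1
        funext k
        unfold ext
        split_ifs <;> simp
      map_smul' := by
        intro c z
        funext i
        simp only [Pi.smul_apply, smul_eq_mul, RingHom.id_apply]
        rw [← F_smul]
        congr 1
        funext k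
        unfold ext
        split_ifs <;> simp }
  have hLinj : Function.Injective L := by
    rw [injective_iff_map_eq_zero]
    intro z hz
    have h1 : ext (N := N) j z = 0 := by
      apply hinj
      · intro k hk
        unfold ext
        rw [dif_neg (by omega)]
      · intro i hi
        have := congrFun hz ⟨i, hi⟩
        exact this
    funext i
    have h2 := congrFun h1 (Fin.castLE hj i)
    unfold ext at h2
    simp at h2
    exact h2
  have hLsurj : Function.Surjective L := LinearMap.injective_iff_surjective.1 hLinj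
  obtain ⟨z, hz⟩ := hLsurj (fun i => b (Fin.castLE hj i))
  refine ⟨ext j z, ?_, ?_⟩
  · intro k hk
    unfold ext
    rw [dif_neg (by omega)]
  · intro i hi
    have := congrFun hz ⟨i, hi⟩
    exact this

theorem reduce {N : ℕ} (w : Fin N → Fin N → ℤ) : ∀ (j : ℕ), j ≤ N →
    (∀ k : Fin N, (k : ℕ) < j → w k k = 1 ∧ ∀ l, k < l → w k l = 0) →
    ∀ x : Fin N → ℝ, (∀ k : Fin N, j ≤ (k : ℕ) → x k = 0) →
    ∃ (n : Fin N → ℤ) (t : Fin N → ℝ), (∀ k : Fin N, j ≤ (k : ℕ) → n k = 0) ∧
      (∀ k, |t k| ≤ 1) ∧ (∀ k : Fin N, j ≤ (k : ℕ) → t k = 0) ∧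
      ∀ l, x l = n l + ∑ k, t k * w k l := by
  intro j
  induction j with
  | zero =>
    intro _ _ x hx
    refine ⟨fun _ => 0, fun _ => 0, fun _ _ => rfl, by simp, fun _ _ => rfl, ?_⟩
    intro l
    simp [hx l (Nat.zero_le _)]
  | succ j ih =>
    intro hj hw x hx
    set J : Fin N := ⟨j, by omega⟩ with hJ
    have hwJ := hw J (by simp [hJ])
    obtain ⟨n, t, hn, ht1, ht0, hl⟩ := ih (by omega)
      (fun k hk => hw k (by omega))
      (fun k => x k - (if k = J then (⌊x J⌋ : ℝ) else 0) - Int.fract (x J) * w J k) (by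
        intro k hk
        rcases hk.lt_or_eq with h1 | h1
        · have h2 : J < k := by rw [Fin.lt_def]; simpa [hJ] using h1
          have h3 : k ≠ J := ne_of_gt h2
          rw [if_neg h3, hwJ.2 k h2, hx k (by omega)]
          simp
        · have h2 : k = J := by
            apply Fin.ext
            simp [hJ, h1]
          rw [h2, if_pos rfl, hwJ.1]
          have := Int.floor_add_fract (x J)
          push_cast
          linarith)
    refine ⟨fun k => n k + if k = J then ⌊x J⌋ else 0,
      fun k => t k + if k = J then Int.fract (x J) else 0, ?_, ?_, ?_, ?_⟩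
    · intro k hk
      have h3 : k ≠ J := by
        rintro rfl
        simp [hJ] at hk
      simp only [if_neg h3, add_zero]
      exact hn k (by omega)
    · intro k
      by_cases h3 : k = J
      · have h4 : t k = 0 := ht0 k (by rw [h3])
        simp only [h4, if_pos h3, zero_add]
        rw [abs_of_nonneg (Int.fract_nonneg _)]
        exact (Int.fract_lt_one _).le
      · simp only [if_neg h3, add_zero]
        exact ht1 k
    · intro k hk
      have h3 : k ≠ J := by
        rintro rfl
        simp [hJ] at hk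
      simp only [if_neg h3, add_zero]
      exact ht0 k (by omega)
    · intro l
      have h1 := hl l
      have h2 : ∑ k, (t k + if k = J then Int.fract (x J) else 0) * (w k l : ℝ) =
          ∑ k, t k * (w k l : ℝ) + Int.fract (x J) * w J l := by
        simp_rw [add_mul, Finset.sum_add_distrib]
        simp
      have h5 : ((n l + if l = J then ⌊x J⌋ else 0 : ℤ) : ℝ) =
          n l + if l = J then (⌊x J⌋ : ℝ) else 0 := by
        push_cast
        split_ifs <;> simp
      rw [h2, h5]
      linarith

theorem main {N : ℕ} (Y : Fin N → Fin N → ℝ) (C₀ : ℝ) (hC₀ : 1 ≤ C₀) (l ρ : Fin N → ℝ)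
    (hY : ∀ k i, |Y k i| ≤ l k) (hinj : ∀ x : Fin N → ℝ, (∀ i, F Y x i = 0) → x = 0)
    (hord : ∀ (j : Fin N) (x : Fin N → ℝ), (∀ k, j < k → x k = 0) → ∀ B : ℝ,
      (∀ i ≤ j, |F Y x i| ≤ B) → ∀ i, |F Y x i| ≤ C₀ * B)
    (hρ : ∀ j, 0 < ρ j) (hanti : Antitone ρ) (hmono : Monotone fun j => ρ j * l j) :
    ∀ (j : ℕ) (hj : j < N), ∃ w : Fin N → ℤ, w ⟨j, hj⟩ = 1 ∧ (∀ k, ⟨j, hj⟩ < k → w k = 0) ∧
      ∀ i, ρ i * |F Y (fun k => (w k : ℝ)) i| ≤
        ((1 + C₀) * 2 ^ j) * (ρ ⟨j, hj⟩ * l ⟨j, hj⟩) := by
  intro j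
  induction j using Nat.strong_induction_on with
  | _ j ih =>
    intro hj
    set J : Fin N := ⟨j, hj⟩ with hJ
    have hl0 : ∀ k, 0 ≤ l k := fun k => (abs_nonneg _).trans (hY k k)
    choose! v hv1 hv0 hvb using ih
    -- the reduced vectors of smaller index, as a total function
    have hex : ∃ w : Fin N → Fin N → ℤ, ∀ k : Fin N, (k : ℕ) < j →
        (w k k = 1 ∧ ∀ l, k < l → w k l = 0) ∧
        ∀ i, ρ i * |F Y (fun a => (w k a : ℝ)) i| ≤ ((1 + C₀) * 2 ^ (k : ℕ)) * (ρ k * l k) := by
      refine ⟨fun k => v k, ?_⟩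
      intro k hk
      exact ⟨⟨hv1 k hk k.2, hv0 k hk k.2⟩, hvb k hk k.2⟩
    obtain ⟨w, hw⟩ := hex
    -- the real solution
    obtain ⟨x, hx0, hxF⟩ := solve Y j hj.le (by
      intro x hx0 hxF
      apply hinj
      intro i
      by_cases h0 : j = 0
      · have : x = 0 := by funext k; exact hx0 k (by omega)
        rw [this]; simp [F]
      · have h1 := hord ⟨j - 1, by omega⟩ x (by
          intro k hk
          apply hx0
          rw [Fin.lt_def] at hk
          simp at hk
          omega) 0 (by
          intro i hi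
          rw [Fin.le_def] at hi
          simp at hi
          rw [hxF i (by omega)]
          simp) i
        simpa using h1) (fun i => - Y J i)
    obtain ⟨n, t, hn, ht1, ht0, hl⟩ := reduce w j hj.le (fun k hk => (hw k hk).1) x hx0
    -- bound for the real solution
    have hxb : ∀ i, |F Y x i| ≤ C₀ * l J := by
      intro i
      by_cases h0 : j = 0
      · have : x = 0 := by funext k; exact hx0 k (by omega)
        rw [this]
        have h2 : F Y 0 i = 0 := by simp [F]
        rw [h2, abs_zero]
        exact mul_nonneg (by linarith) (hl0 _)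
      · exact hord ⟨j - 1, by omega⟩ x (by
          intro k hk
          apply hx0
          rw [Fin.lt_def] at hk
          simp at hk
          omega) (l J) (by
          intro i hi
          rw [Fin.le_def] at hi
          simp at hi
          rw [hxF i (by omega), abs_neg]
          exact hY _ _) i
    refine ⟨fun k => n k + if k = J then 1 else 0, ?_, ?_, ?_⟩
    · have h20 : n J = 0 := hn J (by simp [hJ])
      simp [h20]
    · intro k hk
      have h20 : n k = 0 := hn k (by rw [Fin.lt_def] at hk; exact hk.le)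
      simp [h20, ne_of_gt hk]
    · intro i
      have h1 : F Y (fun k => ((n k + if k = J then 1 else 0 : ℤ) : ℝ)) i =
          (Y J i + F Y x i) - ∑ k, t k * F Y (fun a => (w k a : ℝ)) i := by
        have h2 : (fun k => ((n k + if k = J then 1 else 0 : ℤ) : ℝ)) =
            fun k => ((if k = J then (1 : ℝ) else 0) + x k) +
              (-1) * ∑ a, t a * (w a k : ℝ) := by
          funext k
          have h3 := hl k
          push_cast
          rw [h3]
          ring
        rw [h2, F_add, F_add, F_smul, F_sum, F_single]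
        ring
      have h4 : |∑ k, t k * F Y (fun a => (w k a : ℝ)) i| ≤
          ∑ k : Fin N, if (k : ℕ) < j then |F Y (fun a => (w k a : ℝ)) i| else 0 := by
        refine (Finset.abs_sum_le_sum_abs _ _).trans (Finset.sum_le_sum fun k _ => ?_)
        split_ifs with h5
        · rw [abs_mul]
          have := mul_le_mul_of_nonneg_right (ht1 k) (abs_nonneg (F Y (fun a => (w k a : ℝ)) i))
          linarith
        · rw [ht0 k (by omega)]
          simp
      have h6 : ρ i * |Y J i + F Y x i| ≤ (1 + C₀) * (ρ J * l J) := by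
        by_cases h7 : (i : ℕ) < j
        · rw [hxF i h7]
          simp
          have := mul_nonneg (hρ J).le (hl0 J)
          positivity
        · have h8 : ρ i ≤ ρ J := hanti (by rw [Fin.le_def]; simp [hJ]; omega)
          have h9 : |Y J i + F Y x i| ≤ (1 + C₀) * l J := by
            refine (abs_add_le _ _).trans ?_
            have := hY J i
            have := hxb i
            linarith
          have h10 : 0 ≤ (1 + C₀) * l J := mul_nonneg (by linarith) (hl0 J)
          calc ρ i * |Y J i + F Y x i| ≤ ρ i * ((1 + C₀) * l J) :=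
                mul_le_mul_of_nonneg_left h9 (hρ i).le
            _ ≤ ρ J * ((1 + C₀) * l J) := mul_le_mul_of_nonneg_right h8 h10
            _ = (1 + C₀) * (ρ J * l J) := by ring
      have h11 : ρ i * ∑ k : Fin N, (if (k : ℕ) < j then |F Y (fun a => (w k a : ℝ)) i| else 0) ≤
          ∑ k : Fin N, if (k : ℕ) < j then ((1 + C₀) * 2 ^ (k : ℕ)) * (ρ J * l J) else 0 := by
        rw [Finset.mul_sum]
        refine Finset.sum_le_sum fun k _ => ?_
        split_ifs with h5
        · refine ((hw k h5).2 i).trans ?_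
          apply mul_le_mul_of_nonneg_left _ (by positivity)
          exact hmono (by rw [Fin.le_def]; simp [hJ]; omega)
        · simp
      have h12 : ∑ k : Fin N, (if (k : ℕ) < j then ((1 + C₀) * 2 ^ (k : ℕ)) * (ρ J * l J) else 0) =
          (1 + C₀) * (2 ^ j - 1) * (ρ J * l J) := by
        have h13 : ∑ k : Fin N, (if (k : ℕ) < j then ((1 + C₀) * 2 ^ (k : ℕ)) * (ρ J * l J) else 0) =
            ∑ k ∈ Finset.range N, if k < j then ((1 + C₀) * 2 ^ k) * (ρ J * l J) else 0 := by
          rw [Finset.sum_range]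
        rw [h13, ← Finset.sum_filter]
        have h14 : (Finset.range N).filter (fun k => k < j) = Finset.range j := by
          ext k; simp; omega
        rw [h14]
        have h15 := geom_sum_eq (x := (2 : ℝ)) (by norm_num) j
        have h16 : ∑ k ∈ Finset.range j, (1 + C₀) * (2 : ℝ) ^ k * (ρ J * l J) =
            (1 + C₀) * (ρ J * l J) * ∑ k ∈ Finset.range j, (2 : ℝ) ^ k := by
          rw [Finset.mul_sum]
          exact Finset.sum_congr rfl fun k _ => by ring
        rw [h16, h15]
        ring
      rw [h1]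
      have h17 : |Y J i + F Y x i - ∑ k, t k * F Y (fun a => (w k a : ℝ)) i| ≤
          |Y J i + F Y x i| + |∑ k, t k * F Y (fun a => (w k a : ℝ)) i| := abs_sub _ _
      have h18 := mul_le_mul_of_nonneg_left h17 (hρ i).le
      have h19 := mul_le_mul_of_nonneg_left h4 (hρ i).le
      calc ρ i * |Y J i + F Y x i - ∑ k, t k * F Y (fun a => (w k a : ℝ)) i|
          ≤ ρ i * |Y J i + F Y x i| +
            ρ i * |∑ k, t k * F Y (fun a => (w k a : ℝ)) i| := by linarith
        _ ≤ (1 + C₀) * (ρ J * l J) + (1 + C₀) * (2 ^ j - 1) * (ρ J * l J) := by linarith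
        _ = (1 + C₀) * 2 ^ j * (ρ J * l J) := by ring

end DAV_

theorem dav_proof (hORD : Stmt_ORD) : Stmt_DAV := by
  intro N
  obtain ⟨C₀, hC₀, H⟩ := hORD N
  refine ⟨(1 + C₀) * 2 ^ N, ?_, ?_⟩
  · have : (1 : ℝ) ≤ 2 ^ N := one_le_pow₀ (by norm_num)
    nlinarith
  intro A G l ρ hA hG hl hρ hanti hmono
  obtain ⟨π, hπ⟩ := H A G hA hG
  have hl0 : ∀ k, 0 ≤ l k := fun k => (abs_nonneg _).trans (hl k k)
  have hmain := DAV_.main (fun k i => A.mulVec (G k) (π i)) C₀ hC₀ l ρ
    (fun k i => hl _ _) (by
      intro x hx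
      have h1 : A.mulVec (Matrix.vecMul x G) = 0 := by
        funext i
        have h2 : ∑ k, x k * A.mulVec (G k) (π (π.symm i)) = 0 := hx (π.symm i)
        rw [Equiv.apply_symm_apply] at h2
        rw [Pi.zero_apply, ← h2]
        simp only [Matrix.mulVec, dotProduct, Matrix.vecMul]
        simp_rw [Finset.mul_sum]
        rw [Finset.sum_comm]
        exact Finset.sum_congr rfl fun k _ => Finset.sum_congr rfl fun a _ => by ring
      have h3 : Matrix.vecMul x G = 0 := by
        by_contra h4
        exact hA (Matrix.exists_mulVec_eq_zero_iff.1 ⟨_, h4, h1⟩)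
      by_contra h5
      exact hG (Matrix.exists_vecMul_eq_zero_iff.1 ⟨_, h5, h3⟩))
    (fun j x hx B hB i => hπ j x hx B hB i) hρ hanti hmono
  have hsel : ∀ j : Fin N, ∃ w : Fin N → ℤ, w j = 1 ∧ (∀ k, j < k → w k = 0) ∧
      ∀ i, ρ i * |DAV_.F (fun k i => A.mulVec (G k) (π i)) (fun k => (w k : ℝ)) i| ≤
        ((1 + C₀) * 2 ^ (j : ℕ)) * (ρ j * l j) := fun j => hmain j j.2
  choose w hw1 hw0 hwb using hsel
  refine ⟨π, fun j k => if k = j then 0 else w j k, ?_, ?_⟩
  · intro j k hjk
    by_cases h : k = j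
    · simp [h]
    · have : j < k := lt_of_le_of_ne hjk (Ne.symm h)
      simp [h, hw0 j k this]
  · intro i j
    have h1 : A.mulVec (fun a => G j a + ∑ k, ((if k = j then 0 else w j k : ℤ) : ℝ) * G k a)
        (π i) = DAV_.F (fun k i => A.mulVec (G k) (π i)) (fun k => (w j k : ℝ)) i := by
      unfold DAV_.F
      have h2 : (fun a => G j a + ∑ k, ((if k = j then 0 else w j k : ℤ) : ℝ) * G k a) =
          fun a => ∑ k, (w j k : ℝ) * G k a := by
        funext a
        have h3 : ∑ k, ((if k = j then 0 else w j k : ℤ) : ℝ) * G k a =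
            ∑ k, ((w j k : ℝ) * G k a - if k = j then (w j k : ℝ) * G k a else 0) := by
          refine Finset.sum_congr rfl fun k _ => ?_
          split_ifs <;> simp
        rw [h3, Finset.sum_sub_distrib]
        simp [hw1]
      rw [h2]
      simp only [Matrix.mulVec, dotProduct]
      simp_rw [Finset.mul_sum]
      rw [Finset.sum_comm]
      exact Finset.sum_congr rfl fun k _ => Finset.sum_congr rfl fun a _ => by ring
    rw [h1]
    refine (hwb j i).trans ?_
    apply mul_le_mul_of_nonneg_right _ (mul_nonneg (hρ j).le (hl0 j))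
    apply mul_le_mul_of_nonneg_left _ (by linarith)
    exact pow_le_pow_right₀ (by norm_num) j.2.le

end Pool.Agent.SBT
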