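import Pool.Agent.SBT.Stmts

/-!
# GSY: good systems
-/

set_option autoImplicit false

namespace Pool.Agent.SBT

open Filter

namespace GSYp

theorem zero_notMem {S : Finset ℕ} (hS : PS S) : (0 : ℕ) ∉ S := fun h => Nat.not_prime_zero (hS 0 h)

theorem av_zero (x : ℚ) : av 0 x = |(x : ℝ)| := by simp [av]

theorem av_prime {S : Finset ℕ} (hS : PS S) {p : ℕ} (hp : p ∈ S) (x : ℚ) :
    av p x = ((padicNorm p x : ℚ) : ℝ) := by
  unfold av
  rw [if_neg (hS p hp).ne_zero]

/-- one value of the parameter -/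
theorem one (hMIN : Stmt_MIN) (hLAT : Stmt_LAT) (N : ℕ) (S : Finset ℕ)
    (L : ℕ → Matrix (Fin N) (Fin N) ℤ) (c : ℕ → Fin N → ℝ) (hN : 1 ≤ N) (hS : PS S)
    (hL : ∀ v ∈ pl S, (L v).det ≠ 0) (hc : ∀ p ∈ S, ∀ i, c p i ≤ 0) :
    ∃ K : ℝ, 0 < K ∧ ∀ t : ℝ, 0 < t → ∃ (g : Fin N → Fin N → ℤ) (l : Fin N → ℝ),
      (Matrix.of g).det ≠ 0 ∧ (∀ j, Real.exp (-(∑ i, |c 0 i|) * t) ≤ l j) ∧ Monotone l ∧
      (∀ j i, av 0 (fv (L 0) (g j) i) ≤ Real.exp (c 0 i * t) * l j) ∧
      (∀ j i, ∀ p ∈ S, av p (fv (L p) (g j) i) ≤ Real.exp (c p i * t)) ∧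
      ∏ j, l j ≤ K * Real.exp (-(∑ v ∈ pl S, ∑ i, c v i) * t) := by
  classical
  obtain ⟨C, hC, hmin⟩ := hMIN N hN
  have hL0 : (L 0).det ≠ 0 := hL 0 (Finset.mem_insert_self _ _)
  have hL0r : (((L 0).det : ℤ) : ℝ) ≠ 0 := by exact_mod_cast hL0
  have hPpos : (0 : ℝ) < ∏ p ∈ S, ((p : ℝ)) ^ N :=
    Finset.prod_pos fun p hp => pow_pos (by exact_mod_cast (hS p hp).pos) _
  refine ⟨C * (|(((L 0).det : ℤ) : ℝ)| * ∏ p ∈ S, ((p : ℝ)) ^ N),
    mul_pos hC (mul_pos (abs_pos.mpr hL0r) hPpos), ?_⟩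
  intro t ht
  set k : ℕ → Fin N → ℕ := fun p i => ⌈-c p i * t / Real.log p⌉₊ with hk
  obtain ⟨H, hH1, hH2, hH3⟩ := hLAT N S L k hS
  set A : Matrix (Fin N) (Fin N) ℝ :=
    Matrix.of (fun i j => Real.exp (-(c 0 i) * t) * ((L 0 i j : ℤ) : ℝ)) with hAdef
  have hdet : A.det = (∏ i, Real.exp (-(c 0 i) * t)) * (((L 0).det : ℤ) : ℝ) := by
    have h1 : A = Matrix.diagonal (fun i => Real.exp (-(c 0 i) * t)) *
        (L 0).map (fun x : ℤ => (x : ℝ)) := by
      ext i j
      rw [Matrix.diagonal_mul]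
      rfl
    have h2 : (((L 0).det : ℤ) : ℝ) = ((L 0).map (fun x : ℤ => (x : ℝ))).det := by
      have := (Int.castRingHom ℝ).map_det (L 0)
      simpa [RingHom.mapMatrix_apply] using this
    rw [h1, Matrix.det_mul, Matrix.det_diagonal, h2]
  have hexpos : 0 < ∏ i, Real.exp (-(c 0 i) * t) :=
    Finset.prod_pos fun i _ => Real.exp_pos _
  have hA : A.det ≠ 0 := by
    rw [hdet]
    exact mul_ne_zero hexpos.ne' hL0r
  obtain ⟨g, l, hgH, hgd, hlpos, hmono, hle, hprod⟩ := hmin A H hA hH2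
  have hval : ∀ j i, ∑ m, A i m * (g j m : ℝ) =
      Real.exp (-(c 0 i) * t) * ((fv (L 0) (g j) i : ℤ) : ℝ) := by
    intro j i
    unfold fv
    push_cast
    rw [Finset.mul_sum]
    refine Finset.sum_congr rfl fun m _ => ?_
    simp only [hAdef, Matrix.of_apply]
    ring
  have hE : ∀ i, Real.exp (-(c 0 i) * t) * Real.exp (c 0 i * t) = 1 := by
    intro i
    rw [← Real.exp_add]
    simp
  refine ⟨g, l, hgd, ?_, hmono, ?_, ?_, ?_⟩
  · -- lower bound
    intro j
    have hgj : g j ≠ 0 := by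
      intro h0
      apply hgd
      refine Matrix.det_eq_zero_of_row_eq_zero j fun m => ?_
      simp [h0]
    have hex : ∃ i, fv (L 0) (g j) i ≠ 0 := by
      by_contra hcon
      push Not at hcon
      apply hgj
      refine Matrix.eq_zero_of_mulVec_eq_zero hL0 ?_
      funext i
      exact hcon i
    obtain ⟨i, hi⟩ := hex
    have h1 : (1 : ℝ) ≤ |((fv (L 0) (g j) i : ℤ) : ℝ)| := by
      have : 1 ≤ |fv (L 0) (g j) i| := Int.one_le_abs hi
      exact_mod_cast this
    have h2 := hle i j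
    rw [hval, abs_mul, abs_of_pos (Real.exp_pos _)] at h2
    have h3 : Real.exp (-(∑ i, |c 0 i|) * t) ≤ Real.exp (-(c 0 i) * t) := by
      apply Real.exp_le_exp.mpr
      have h4 : |c 0 i| ≤ ∑ i, |c 0 i| :=
        Finset.single_le_sum (f := fun i => |c 0 i|) (fun _ _ => abs_nonneg _)
          (Finset.mem_univ i)
      have h5 := le_abs_self (c 0 i)
      nlinarith
    calc Real.exp (-(∑ i, |c 0 i|) * t) ≤ Real.exp (-(c 0 i) * t) := h3
      _ = Real.exp (-(c 0 i) * t) * 1 := (mul_one _).symm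
      _ ≤ Real.exp (-(c 0 i) * t) * |((fv (L 0) (g j) i : ℤ) : ℝ)| :=
          mul_le_mul_of_nonneg_left h1 (Real.exp_pos _).le
      _ ≤ l j := h2
  · -- the infinite place
    intro j i
    rw [av_zero]
    have h2 := hle i j
    rw [hval, abs_mul, abs_of_pos (Real.exp_pos _)] at h2
    have h3 : |(((fv (L 0) (g j) i : ℤ) : ℚ) : ℝ)| = |((fv (L 0) (g j) i : ℤ) : ℝ)| := by
      push_cast; rfl
    rw [h3]
    calc |((fv (L 0) (g j) i : ℤ) : ℝ)|
        = Real.exp (c 0 i * t) *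
          (Real.exp (-(c 0 i) * t) * |((fv (L 0) (g j) i : ℤ) : ℝ)|) := by
          rw [← mul_assoc, mul_comm (Real.exp (c 0 i * t)), hE i, one_mul]
      _ ≤ Real.exp (c 0 i * t) * l j := mul_le_mul_of_nonneg_left h2 (Real.exp_pos _).le
  · -- the finite places
    intro j i p hp
    have : Fact p.Prime := ⟨hS p hp⟩
    rw [av_prime hS hp]
    have h1 := (hH1 (g j)).mp (hgH j) p hp i
    have h2 : padicNorm p ((fv (L p) (g j) i : ℤ) : ℚ) ≤ (p : ℚ) ^ (-(k p i : ℤ)) :=
      (padicNorm.dvd_iff_norm_le).mp h1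
    have hp1 : (1 : ℝ) < p := by exact_mod_cast (hS p hp).one_lt
    have hlog : 0 < Real.log p := Real.log_pos hp1
    have h3 : -c p i * t / Real.log p ≤ k p i := Nat.le_ceil _
    have h4 : -c p i * t ≤ k p i * Real.log p := (div_le_iff₀ hlog).mp h3
    have h5 : (((p : ℚ) ^ (-(k p i : ℤ)) : ℚ) : ℝ) ≤ Real.exp (c p i * t) := by
      push_cast
      rw [zpow_neg, zpow_natCast]
      have h6 : (p : ℝ) ^ (k p i) = Real.exp (k p i * Real.log p) := by
        rw [Real.exp_nat_mul, Real.exp_log (by linarith)]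
      rw [h6, ← Real.exp_neg]
      apply Real.exp_le_exp.mpr
      linarith
    refine le_trans ?_ h5
    exact_mod_cast h2
  · -- the product
    refine hprod.trans ?_
    have hidx : ((H.index : ℕ) : ℝ) ≤ ∏ p ∈ S, ∏ i, ((p : ℝ) * Real.exp (-(c p i) * t)) := by
      have h1 : ((H.index : ℕ) : ℝ) ≤ ((∏ p ∈ S, ∏ i, p ^ k p i : ℕ) : ℝ) := by
        exact_mod_cast hH3
      refine h1.trans ?_
      push_cast
      refine Finset.prod_le_prod (fun p _ => Finset.prod_nonneg fun i _ => by positivity)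
        fun p hp => ?_
      refine Finset.prod_le_prod (fun i _ => by positivity) fun i _ => ?_
      have hp1 : (1 : ℝ) < p := by exact_mod_cast (hS p hp).one_lt
      have hlog : 0 < Real.log p := Real.log_pos hp1
      have h3 : (k p i : ℝ) < -c p i * t / Real.log p + 1 := by
        apply Nat.ceil_lt_add_one
        apply div_nonneg _ hlog.le
        have := hc p hp i
        nlinarith
      have h4 : (k p i : ℝ) * Real.log p ≤ -c p i * t + Real.log p := by
        have h5 := mul_lt_mul_of_pos_right h3 hlog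
        have h6 : (-c p i * t / Real.log p + 1) * Real.log p = -c p i * t + Real.log p := by
          field_simp
        linarith
      have h6 : (p : ℝ) ^ (k p i) = Real.exp (k p i * Real.log p) := by
        rw [Real.exp_nat_mul, Real.exp_log (by linarith)]
      rw [h6]
      calc Real.exp (k p i * Real.log p) ≤ Real.exp (-c p i * t + Real.log p) :=
            Real.exp_le_exp.mpr h4
        _ = (p : ℝ) * Real.exp (-(c p i) * t) := by
            rw [Real.exp_add, Real.exp_log (by linarith), mul_comm]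
    have habs : |A.det| = (∏ i, Real.exp (-(c 0 i) * t)) * |(((L 0).det : ℤ) : ℝ)| := by
      rw [hdet, abs_mul, abs_of_pos hexpos]
    have hfin : (∏ i, Real.exp (-(c 0 i) * t)) *
        ∏ p ∈ S, ∏ i, ((p : ℝ) * Real.exp (-(c p i) * t)) =
        (∏ p ∈ S, (p : ℝ) ^ N) * Real.exp (-(∑ v ∈ pl S, ∑ i, c v i) * t) := by
      have h1 : ∀ v : ℕ, ∏ i, Real.exp (-(c v i) * t) = Real.exp (-(∑ i, c v i) * t) := by
        intro v
        rw [← Real.exp_sum]
        congr 1
        rw [← Finset.sum_mul, Finset.sum_neg_distrib]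
      have h2 : ∏ p ∈ S, ∏ i : Fin N, ((p : ℝ) * Real.exp (-(c p i) * t)) =
          (∏ p ∈ S, (p : ℝ) ^ N) * ∏ p ∈ S, Real.exp (-(∑ i, c p i) * t) := by
        rw [← Finset.prod_mul_distrib]
        refine Finset.prod_congr rfl fun p _ => ?_
        rw [Finset.prod_mul_distrib, h1 p]
        simp
      rw [h2, h1 0, ← Real.exp_sum]
      have h3 : Real.exp (-(∑ i, c 0 i) * t) *
          ((∏ p ∈ S, (p : ℝ) ^ N) * Real.exp (∑ p ∈ S, -(∑ i, c p i) * t)) =
          (∏ p ∈ S, (p : ℝ) ^ N) * (Real.exp (-(∑ i, c 0 i) * t) *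
            Real.exp (∑ p ∈ S, -(∑ i, c p i) * t)) := by ring
      rw [h3, ← Real.exp_add]
      congr 2
      unfold pl
      rw [Finset.sum_insert (zero_notMem hS), ← Finset.sum_mul, Finset.sum_neg_distrib]
      ring
    calc C * (|A.det| * (H.index : ℝ))
        ≤ C * (((∏ i, Real.exp (-(c 0 i) * t)) * |(((L 0).det : ℤ) : ℝ)|) *
            ∏ p ∈ S, ∏ i, ((p : ℝ) * Real.exp (-(c p i) * t))) := by
          rw [habs]
          refine mul_le_mul_of_nonneg_left ?_ hC.le
          exact mul_le_mul_of_nonneg_left hidx (by positivity)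
      _ = C * (|(((L 0).det : ℤ) : ℝ)| * ((∏ i, Real.exp (-(c 0 i) * t)) *
            ∏ p ∈ S, ∏ i, ((p : ℝ) * Real.exp (-(c p i) * t)))) := by ring
      _ = C * (|(((L 0).det : ℤ) : ℝ)| * ∏ p ∈ S, (p : ℝ) ^ N) *
            Real.exp (-(∑ v ∈ pl S, ∑ i, c v i) * t) := by rw [hfin]; ring

end GSYp

open GSYp

/-- module GSY -/
theorem gsy_proof (hMIN : Stmt_MIN) (hLAT : Stmt_LAT) : Stmt_GSY := by
  classical
  intro N S U T L c η hN hS hT hL hc hη
  obtain ⟨K, hK, hone⟩ := one hMIN hLAT N S L c hN hS hL hc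
  -- choice for every parameter
  have hall : ∀ n, ∃ (g : Fin N → Fin N → ℤ) (l : Fin N → ℝ), (Matrix.of g).det ≠ 0 ∧
      (0 < T n → (∀ j, Real.exp (-(∑ i, |c 0 i|) * T n) ≤ l j) ∧ Monotone l ∧
      (∀ j i, av 0 (fv (L 0) (g j) i) ≤ Real.exp (c 0 i * T n) * l j) ∧
      (∀ j i, ∀ p ∈ S, av p (fv (L p) (g j) i) ≤ Real.exp (c p i * T n)) ∧
      ∏ j, l j ≤ K * Real.exp (-(∑ v ∈ pl S, ∑ i, c v i) * T n)) := by
    intro n
    by_cases h : 0 < T n
    · obtain ⟨g, l, h1, h2⟩ := hone (T n) h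
      exact ⟨g, l, h1, fun _ => h2⟩
    · refine ⟨fun j => Pi.single j 1, fun _ => 0, ?_, fun h' => absurd h' h⟩
      have : (Matrix.of fun j : Fin N => (Pi.single j (1 : ℤ) : Fin N → ℤ)) = 1 := by
        ext i j
        simp [Matrix.one_apply, Pi.single_apply, eq_comm]
      rw [this, Matrix.det_one]
      exact one_ne_zero
  choose g l hgd hgl using hall
  set K0 : ℝ := ∑ i, |c 0 i| with hK0
  set sc : ℝ := ∑ v ∈ pl S, ∑ i, c v i with hsc
  set μn : ℕ → Fin N → ℝ := fun n j => Real.log (l n j) / T n with hμn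
  have hK0n : 0 ≤ K0 := Finset.sum_nonneg fun _ _ => abs_nonneg _
  have hlpos : ∀ n, 0 < T n → ∀ j, 0 < l n j := fun n hn j =>
    lt_of_lt_of_le (Real.exp_pos _) ((hgl n hn).1 j)
  have hlow : ∀ n, 0 < T n → ∀ j, -K0 ≤ μn n j := by
    intro n hn j
    have h1 := (hgl n hn).1 j
    have h2 : -K0 * T n ≤ Real.log (l n j) := by
      rw [Real.le_log_iff_exp_le (hlpos n hn j)]
      exact h1
    exact (le_div_iff₀ hn).mpr h2
  have hsum : ∀ n, 0 < T n → ∑ j, μn n j ≤ Real.log K / T n + -sc := by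
    intro n hn
    have h1 := (hgl n hn).2.2.2.2
    have h2 : ∑ j, Real.log (l n j) = Real.log (∏ j, l n j) :=
      (Real.log_prod fun j _ => (hlpos n hn j).ne').symm
    have h3 : Real.log (∏ j, l n j) ≤ Real.log K + -sc * T n := by
      have h4 := Real.log_le_log (Finset.prod_pos fun j _ => hlpos n hn j) h1
      rw [Real.log_mul hK.ne' (Real.exp_pos _).ne', Real.log_exp] at h4
      exact h4
    have h5 : ∑ j, μn n j = (∑ j, Real.log (l n j)) / T n := by
      rw [Finset.sum_div]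
    rw [h5, h2, div_le_iff₀ hn, add_mul, div_mul_cancel₀ _ hn.ne']
    exact h3
  have hT1 : ∀ᶠ n in (U : Filter ℕ), 1 ≤ T n := hT.eventually_ge_atTop 1
  set K2 : ℝ := |Real.log K| + |sc| + N * K0 with hK2
  have hup : ∀ n, 1 ≤ T n → ∀ j, μn n j ≤ K2 := by
    intro n hn j
    have hn0 : 0 < T n := by linarith
    have h1 := hsum n hn0
    have h2 : ∑ i, μn n i = μn n j + ∑ i ∈ Finset.univ \ {j}, μn n i := by
      rw [← Finset.sum_sdiff (Finset.subset_univ {j}), Finset.sum_singleton]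
      ring
    have h3 : -(N * K0) ≤ ∑ i ∈ Finset.univ \ {j}, μn n i := by
      have h4 : ∑ i ∈ Finset.univ \ {j}, (-K0) ≤ ∑ i ∈ Finset.univ \ {j}, μn n i :=
        Finset.sum_le_sum fun i _ => hlow n hn0 i
      rw [Finset.sum_const, nsmul_eq_mul] at h4
      have h5 : (((Finset.univ \ {j} : Finset (Fin N)).card : ℕ) : ℝ) ≤ N := by
        have := Finset.card_le_univ (Finset.univ \ {j} : Finset (Fin N))
        rw [Fintype.card_fin] at this
        exact_mod_cast this
      have h6 := mul_le_mul_of_nonneg_right h5 hK0n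
      linarith
    have h7 : Real.log K / T n ≤ |Real.log K| := by
      rw [div_le_iff₀ hn0]
      have h8 := le_abs_self (Real.log K)
      have h9 := abs_nonneg (Real.log K)
      nlinarith
    have h10 := neg_le_abs sc
    rw [hK2]
    linarith
  -- the limit
  obtain ⟨μ', -, hμ'⟩ : ∃ μ' ∈ Set.Icc (fun _ : Fin N => -K0) (fun _ => K2),
      ((U.map μn : Ultrafilter (Fin N → ℝ)) : Filter (Fin N → ℝ)) ≤ nhds μ' := by
    refine isCompact_Icc.ultrafilter_le_nhds (U.map μn) ?_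
    rw [Filter.le_principal_iff]
    show ∀ᶠ n in (U : Filter ℕ), μn n ∈ Set.Icc (fun _ : Fin N => -K0) (fun _ => K2)
    filter_upwards [hT1] with n hn
    exact ⟨fun j => hlow n (by linarith) j, fun j => hup n hn j⟩
  have hlim : Tendsto μn (U : Filter ℕ) (nhds μ') := hμ'
  have hlimj : ∀ j, Tendsto (fun n => μn n j) (U : Filter ℕ) (nhds (μ' j)) :=
    fun j => (tendsto_pi_nhds.mp hlim) j
  have hμmono : Monotone μ' := by
    intro i j hij
    refine le_of_tendsto_of_tendsto (hlimj i) (hlimj j) ?_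
    filter_upwards [hT1] with n hn
    have hn0 : 0 < T n := by linarith
    have h1 := (hgl n hn0).2.1 hij
    exact div_le_div_of_nonneg_right (Real.log_le_log (hlpos n hn0 i) h1) hn0.le
  have hμsum : ∑ j, μ' j ≤ -sc := by
    have h1 : Tendsto (fun n => ∑ j, μn n j) (U : Filter ℕ) (nhds (∑ j, μ' j)) :=
      tendsto_finsetSum _ fun j _ => hlimj j
    have h2 : Tendsto (fun n => Real.log K / T n + -sc) (U : Filter ℕ) (nhds (0 + -sc)) :=
      (tendsto_const_nhds.div_atTop hT).add tendsto_const_nhds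
    rw [zero_add] at h2
    refine le_of_tendsto_of_tendsto h1 h2 ?_
    filter_upwards [hT1] with n hn
    exact hsum n (by linarith)
  have hNpos : (0 : ℝ) < N := by exact_mod_cast hN
  have hηN : 0 < η / N := div_pos hη hNpos
  refine ⟨fun j => μ' j + η / N, g, fun i j hij => by
    have := hμmono hij
    show μ' i + η / N ≤ μ' j + η / N
    linarith, hgd, ?_, ?_⟩
  · have hev : ∀ᶠ n in (U : Filter ℕ), ∀ j, μn n j < μ' j + η / N := by
      rw [Filter.eventually_all]
      intro j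
      exact (hlimj j).eventually_lt_const (by linarith)
    filter_upwards [hT1, hev] with n hn hev
    intro j i
    have hn0 : 0 < T n := by linarith
    obtain ⟨h1, h2, h3, h4, h5⟩ := hgl n hn0
    refine ⟨(h3 j i).trans ?_, h4 j i⟩
    rw [add_mul, Real.exp_add]
    refine mul_le_mul_of_nonneg_left ?_ (Real.exp_pos _).le
    rw [← Real.log_le_iff_le_exp (hlpos n hn0 j)]
    have h6 := (hev j).le
    exact (div_le_iff₀ hn0).mp h6
  · have h1 : ∑ j : Fin N, (μ' j + η / N) = ∑ j, μ' j + η := by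
      rw [Finset.sum_add_distrib, Finset.sum_const, Finset.card_univ, Fintype.card_fin,
        nsmul_eq_mul, mul_div_cancel₀ _ hNpos.ne']
    rw [h1]
    linarith

end Pool.Agent.SBT
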