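import Pool.Agent.SBT.StmtsBC

set_option autoImplicit false

namespace Pool.Agent.SBT

open Filter

/-- generalised Wronskians -/
theorem gwr_proof (hWRN : Stmt_WRN) (hKRS : Stmt_KRS) (hKTY : Stmt_KTY) : Stmt_GWR := by
  classical
  intro k m f hf
  obtain ⟨κ, hκ⟩ := hKRS k m f hf
  have hdet := hWRN k _ hκ
  set q : Fin m → Polynomial ℚ := fun h => (Polynomial.X : Polynomial ℚ) ^ κ h with hq
  choose c F hF hc using fun i : ℕ => hKTY m q i
  by_contra hcon
  push Not at hcon
  apply hdet
  have e1 : (Matrix.of fun i j : Fin k =>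
      Polynomial.hasseDeriv (i : ℕ) (MvPolynomial.aeval q (f j))) =
      (fun i : Fin k => ∑ μ ∈ F i, (fun j : Fin k => c i μ * MvPolynomial.aeval q (hd μ (f j)))) := by
    funext i j
    rw [Matrix.of_apply, hc i (f j), Finset.sum_apply]
  rw [e1]
  have e2 := (Matrix.detRowAlternating (R := Polynomial ℚ) (n := Fin k)).toMultilinearMap.map_sum_finset
    (fun (i : Fin k) (μ : Fin m →₀ ℕ) (j : Fin k) => c i μ * MvPolynomial.aeval q (hd μ (f j)))
    (fun i : Fin k => F i)
  have e3 : Matrix.det (fun i : Fin k => ∑ μ ∈ F i,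
      (fun j : Fin k => c i μ * MvPolynomial.aeval q (hd μ (f j)))) =
      ∑ r ∈ Fintype.piFinset (fun i : Fin k => F i),
        Matrix.det (fun i j : Fin k => c i (r i) * MvPolynomial.aeval q (hd (r i) (f j))) := e2
  rw [e3]
  apply Finset.sum_eq_zero
  intro r hr
  rw [Fintype.mem_piFinset] at hr
  have e4 : Matrix.det (fun i j : Fin k => c i (r i) * MvPolynomial.aeval q (hd (r i) (f j))) =
      (∏ i : Fin k, c i (r i)) *
        Matrix.det (Matrix.of fun i j : Fin k => MvPolynomial.aeval q (hd (r i) (f j))) :=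
    Matrix.det_mul_column (fun i : Fin k => c i (r i)) _
  have e5 : Matrix.det (Matrix.of fun i j : Fin k => MvPolynomial.aeval q (hd (r i) (f j))) =
      MvPolynomial.aeval q (Matrix.det (Matrix.of fun i j : Fin k => hd (r i) (f j))) := by
    rw [AlgHom.map_det]
    rfl
  rw [e4, e5, hcon r (fun i => hF i (r i) (hr i)), map_zero, mul_zero]

end Pool.Agent.SBT
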