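import Pool.Agent.SBT.StmtsBC

set_option autoImplicit false

namespace Pool.Agent.SBT

open Polynomial

namespace KRS_

lemma digits_inj (D : ℕ) : ∀ (m : ℕ) (s t : Fin m → ℕ), (∀ h, s h < D) → (∀ h, t h < D) →
    ∑ h : Fin m, D ^ (h : ℕ) * s h = ∑ h : Fin m, D ^ (h : ℕ) * t h → s = t := by
  intro m
  induction m with
  | zero => intro s t _ _ _; ext h; exact h.elim0
  | succ m ih =>
    intro s t hs ht h
    have hD : 0 < D := lt_of_le_of_lt (Nat.zero_le _) (hs 0)
    rw [Fin.sum_univ_succ, Fin.sum_univ_succ] at h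
    have h1 : ∀ u : Fin (m + 1) → ℕ, ∑ i : Fin m, D ^ ((i.succ : Fin (m + 1)) : ℕ) * u i.succ =
        D * ∑ i : Fin m, D ^ (i : ℕ) * u i.succ := by
      intro u
      rw [Finset.mul_sum]
      refine Finset.sum_congr rfl fun i _ => ?_
      rw [Fin.val_succ, pow_succ]
      ring
    rw [h1 s, h1 t] at h
    simp only [Fin.val_zero, pow_zero, one_mul] at h
    have h0 : s 0 = t 0 := by
      have h2 := congrArg (· % D) h
      simp only [Nat.add_mul_mod_self_left] at h2
      rwa [Nat.mod_eq_of_lt (hs 0), Nat.mod_eq_of_lt (ht 0)] at h2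
    rw [h0] at h
    have h3 := Nat.eq_of_mul_eq_mul_left hD (Nat.add_left_cancel h)
    have h4 := ih (fun i => s i.succ) (fun i => t i.succ) (fun i => hs _) (fun i => ht _) h3
    ext i
    refine Fin.cases h0 (fun j => ?_) i
    exact congrFun h4 j

end KRS_

open KRS_ in
theorem krs_proof : Stmt_KRS := by
  classical
  intro k m f hf
  -- a bound for all exponents
  obtain ⟨D, hD⟩ : ∃ D : ℕ, ∀ j, ∀ s ∈ (f j).support, ∀ h, s h < D := by
    refine ⟨(∑ j, ∑ s ∈ (f j).support, ∑ h, s h) + 1, fun j s hs h => ?_⟩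
    have h1 : s h ≤ ∑ h, s h := Finset.single_le_sum (f := fun h => s h) (fun _ _ => Nat.zero_le _)
      (Finset.mem_univ h)
    have h2 : ∑ h, s h ≤ ∑ s ∈ (f j).support, ∑ h, s h :=
      Finset.single_le_sum (f := fun s : Fin m →₀ ℕ => ∑ h, s h) (fun _ _ => Nat.zero_le _) hs
    have h3 : ∑ s ∈ (f j).support, ∑ h, s h ≤ ∑ j, ∑ s ∈ (f j).support, ∑ h, s h :=
      Finset.single_le_sum (f := fun j => ∑ s ∈ (f j).support, ∑ h, s h)
        (fun _ _ => Nat.zero_le _) (Finset.mem_univ j)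
    omega
  refine ⟨fun h => D ^ (h : ℕ), ?_⟩
  rw [Fintype.linearIndependent_iff]
  intro c hc
  rw [Fintype.linearIndependent_iff] at hf
  apply hf c
  set g : MvPolynomial (Fin m) ℚ := ∑ j, c j • f j with hg
  have hgs : ∀ s ∈ g.support, ∀ h, s h < D := by
    intro s hs h
    rw [MvPolynomial.mem_support_iff] at hs
    by_contra hcon
    apply hs
    rw [hg, MvPolynomial.coeff_sum]
    refine Finset.sum_eq_zero fun j _ => ?_
    rw [MvPolynomial.coeff_smul]
    have : MvPolynomial.coeff s (f j) = 0 := by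
      by_contra h1
      exact hcon (hD j s (MvPolynomial.mem_support_iff.2 h1) h)
    rw [this, smul_zero]
  have hg0 : MvPolynomial.aeval (fun h : Fin m => (X : ℚ[X]) ^ (D ^ (h : ℕ))) g = 0 := by
    rw [hg, map_sum, ← hc]
    refine Finset.sum_congr rfl fun j _ => ?_
    rw [map_smul]
  by_contra hne
  obtain ⟨s, hs⟩ := MvPolynomial.ne_zero_iff.1 hne
  have hs' := MvPolynomial.mem_support_iff.2 hs
  apply hs
  have h1 := congrArg (fun p : ℚ[X] => p.coeff (∑ h : Fin m, D ^ (h : ℕ) * s h)) hg0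
  simp only [coeff_zero] at h1
  rw [MvPolynomial.aeval_def, MvPolynomial.eval₂_eq', finsetSum_coeff] at h1
  rw [← h1, Finset.sum_eq_single s]
  · have h2 : ∏ i : Fin m, ((X : ℚ[X]) ^ D ^ (i : ℕ)) ^ s i = X ^ (∑ h : Fin m, D ^ (h : ℕ) * s h) := by
      rw [← Finset.prod_pow_eq_pow_sum]
      refine Finset.prod_congr rfl fun i _ => ?_
      rw [pow_mul]
    rw [h2]
    have h3 : (algebraMap ℚ ℚ[X]) (MvPolynomial.coeff s g) = C (MvPolynomial.coeff s g) := rfl
    rw [h3, coeff_C_mul, coeff_X_pow, if_pos rfl, mul_one]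
  · intro t ht hts
    have h2 : ∏ i : Fin m, ((X : ℚ[X]) ^ D ^ (i : ℕ)) ^ t i = X ^ (∑ h : Fin m, D ^ (h : ℕ) * t h) := by
      rw [← Finset.prod_pow_eq_pow_sum]
      refine Finset.prod_congr rfl fun i _ => ?_
      rw [pow_mul]
    have h3 : (algebraMap ℚ ℚ[X]) (MvPolynomial.coeff t g) = C (MvPolynomial.coeff t g) := rfl
    rw [h2, h3, coeff_C_mul, coeff_X_pow, if_neg, mul_zero]
    intro h4
    apply hts
    have h5 := digits_inj D m (fun h => t h) (fun h => s h) (hgs t ht) (hgs s hs') h4.symm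
    ext h
    exact congrFun h5 h
  · intro h
    exact absurd hs' h

end Pool.Agent.SBT
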