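import Pool.Agent.SBT.Stmts

set_option autoImplicit false

namespace Pool.Agent.SBT

open MvPolynomial

namespace RTI_

variable {m : ℕ} {R : Type} [CommRing R]

lemma coeff_hd (e t : Fin m →₀ ℕ) (P : MvPolynomial (Fin m) R) :
    coeff t (hd e P) = coeff (t + e) P * ((∏ i, (t i + e i).choose (e i) : ℕ) : R) := by
  unfold hd
  rw [coeff_sum]
  simp only [coeff_monomial]
  rw [Finset.sum_eq_single (t + e)]
  · rw [if_pos (add_tsub_cancel_right t e)]
    simp only [Finsupp.add_apply]
  · intro s _ hst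
    split_ifs with h
    · by_cases hes : e ≤ s
      · exfalso
        apply hst
        rw [← h]
        exact (tsub_add_cancel_of_le hes).symm
      · obtain ⟨i, hi⟩ : ∃ i, ¬ e i ≤ s i := by
          by_contra hc
          push Not at hc
          exact hes hc
        have : ∏ i, (s i).choose (e i) = 0 :=
          Finset.prod_eq_zero (Finset.mem_univ i) (Nat.choose_eq_zero_of_lt (not_le.1 hi))
        rw [this, Nat.cast_zero, mul_zero]
    · rfl
  · intro h
    rw [notMem_support_iff] at h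
    rw [h, zero_mul, ite_self]

lemma hd_add (e : Fin m →₀ ℕ) (P Q : MvPolynomial (Fin m) R) :
    hd e (P + Q) = hd e P + hd e Q := by
  ext t
  rw [coeff_add, coeff_hd, coeff_hd, coeff_hd, coeff_add, add_mul]

lemma hd_C_mul (e : Fin m →₀ ℕ) (a : R) (P : MvPolynomial (Fin m) R) :
    hd e (C a * P) = C a * hd e P := by
  ext t
  rw [coeff_hd, coeff_C_mul, coeff_C_mul, coeff_hd, mul_assoc]

lemma prod_split (f : Fin m → ℕ) (i : Fin m) :
    ∏ j, f j = f i * ∏ j ∈ Finset.univ.erase i, f j :=
  (Finset.mul_prod_erase _ _ (Finset.mem_univ i)).symm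

lemma hd_mul_X (e : Fin m →₀ ℕ) (P : MvPolynomial (Fin m) R) (i : Fin m) :
    hd e (P * X i) = hd e P * X i + if e i = 0 then 0 else hd (e - Finsupp.single i 1) P := by
  ext t
  rw [coeff_hd, coeff_mul_X', coeff_add, coeff_mul_X']
  simp only [Finsupp.mem_support_iff, Finsupp.add_apply]
  have key : ∀ f : Fin m → ℕ, ∏ j, f j = f i * ∏ j ∈ Finset.univ.erase i, f j :=
    fun f => prod_split f i
  have e1 : ∏ j ∈ Finset.univ.erase i, ((t - Finsupp.single i 1 : Fin m →₀ ℕ) j + e j).choose (e j)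
      = ∏ j ∈ Finset.univ.erase i, (t j + e j).choose (e j) := by
    refine Finset.prod_congr rfl fun j hj => ?_
    rw [Finset.mem_erase] at hj
    rw [Finsupp.tsub_apply, Finsupp.single_eq_of_ne hj.1, tsub_zero]
  have e2 : ∏ j ∈ Finset.univ.erase i, (t j + (e - Finsupp.single i 1 : Fin m →₀ ℕ) j).choose
      ((e - Finsupp.single i 1 : Fin m →₀ ℕ) j)
      = ∏ j ∈ Finset.univ.erase i, (t j + e j).choose (e j) := by
    refine Finset.prod_congr rfl fun j hj => ?_
    rw [Finset.mem_erase] at hj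
    rw [Finsupp.tsub_apply, Finsupp.single_eq_of_ne hj.1, tsub_zero]
  rcases Nat.eq_zero_or_pos (t i) with ht | ht
  · rcases Nat.eq_zero_or_pos (e i) with he | he
    · rw [if_neg (by omega), if_neg (by omega), if_pos he]
      simp
    · rw [if_pos (by omega), if_neg (by omega), if_neg (by omega), zero_add, coeff_hd, key, key, e2,
        ← add_tsub_assoc_of_le (Finsupp.single_le_iff.2 he)]
      have h1 : (t i + e i).choose (e i) = 1 := by rw [ht, zero_add, Nat.choose_self]
      have h2 : (t i + (e - Finsupp.single i 1 : Fin m →₀ ℕ) i).choose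
          ((e - Finsupp.single i 1 : Fin m →₀ ℕ) i) = 1 := by rw [ht, zero_add, Nat.choose_self]
      rw [h1, h2]
  · have hs : (t - Finsupp.single i 1 : Fin m →₀ ℕ) + e = t + e - Finsupp.single i 1 :=
      (tsub_add_eq_add_tsub (Finsupp.single_le_iff.2 ht))
    rcases Nat.eq_zero_or_pos (e i) with he | he
    · rw [if_pos (by omega), if_pos (by omega), if_pos he, coeff_zero, add_zero, coeff_hd, key, key,
        e1, hs, he]
      simp
    · rw [if_pos (by omega), if_pos (by omega), if_neg (by omega), coeff_hd, coeff_hd, key, key,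
        key (fun j => (t j + (e - Finsupp.single i 1 : Fin m →₀ ℕ) j).choose
          ((e - Finsupp.single i 1 : Fin m →₀ ℕ) j)), e1, e2, hs,
        ← add_tsub_assoc_of_le (Finsupp.single_le_iff.2 he)]
      have h3 : (t i + e i).choose (e i) = ((t - Finsupp.single i 1 : Fin m →₀ ℕ) i + e i).choose
          (e i) + (t i + (e - Finsupp.single i 1 : Fin m →₀ ℕ) i).choose
          ((e - Finsupp.single i 1 : Fin m →₀ ℕ) i) := by
        rw [Finsupp.tsub_apply, Finsupp.tsub_apply, Finsupp.single_eq_same]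
        obtain ⟨a, ha⟩ := Nat.exists_eq_add_of_lt ht
        obtain ⟨b, hb⟩ := Nat.exists_eq_add_of_lt he
        rw [ha, hb]
        have : 0 + a + 1 + (0 + b + 1) = (a + b + 1) + 1 := by ring
        rw [this]
        have h4 : 0 + b + 1 = b + 1 := by ring
        rw [h4, Nat.choose_succ_succ]
        have h5 : 0 + a + 1 - 1 + (b + 1) = a + b + 1 := by omega
        have h6 : 0 + a + 1 + (b + 1 - 1) = a + b + 1 := by omega
        rw [h5, h6, Nat.add_sub_cancel]
        ring
      rw [h3]
      push_cast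
      ring

lemma tr_hd (β : Fin m → ℚ) (P : MvPolynomial (Fin m) ℚ) :
    ∀ e : Fin m →₀ ℕ, tr β (hd e P) = hd e (tr β P) := by
  induction P using MvPolynomial.induction_on with
  | C a =>
    intro e
    have h1 : ∀ (a : ℚ), hd e (C a : MvPolynomial (Fin m) ℚ) = if e = 0 then C a else 0 := by
      intro a
      ext t
      rw [coeff_hd]
      split_ifs with h
      · subst h
        simp
      · rw [coeff_C, if_neg, zero_mul, coeff_zero]
        intro h0
        apply h
        have := (add_eq_zero.1 h0.symm).2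
        exact this
    have h2 : tr β (C a) = C a := by
      unfold tr
      exact bind₁_C_right _ _
    rw [h1, h2, h1]
    split_ifs
    · exact h2
    · unfold tr
      exact map_zero _
  | add P Q hP hQ =>
    intro e
    have h1 : ∀ A B : MvPolynomial (Fin m) ℚ, tr β (A + B) = tr β A + tr β B := by
      intro A B
      unfold tr
      exact map_add _ _ _
    rw [hd_add, h1, hP, hQ, h1, hd_add]
  | mul_X P i hP =>
    intro e
    have h1 : ∀ A B : MvPolynomial (Fin m) ℚ, tr β (A + B) = tr β A + tr β B := by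
      intro A B
      unfold tr
      exact map_add _ _ _
    have h2 : ∀ A B : MvPolynomial (Fin m) ℚ, tr β (A * B) = tr β A * tr β B := by
      intro A B
      unfold tr
      exact map_mul _ _ _
    have h3 : tr β (X i) = X i + C (β i) := by
      unfold tr
      exact bind₁_X_right _ _
    have h0 : tr β 0 = 0 := by
      unfold tr
      exact map_zero _
    rw [hd_mul_X, h1, h2, h3, hP, h2, h3, mul_add (tr β P), hd_add, hd_mul_X, mul_comm (tr β P) (C _),
      hd_C_mul]
    split_ifs
    · rw [h0]; ring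
    · rw [hP]; ring

lemma toQ_hd (e : Fin m →₀ ℕ) (P : MvPolynomial (Fin m) ℤ) : toQ (hd e P) = hd e (toQ P) := by
  ext t
  unfold toQ
  rw [coeff_map, coeff_hd, coeff_hd, coeff_map]
  simp

/-- all exponents have weight at least `c` -/
def Ge (d : Fin m → ℕ) (c : ℝ) (Q : MvPolynomial (Fin m) ℚ) : Prop :=
  ∀ e ∈ Q.support, c ≤ wt d e

lemma wt_add (d : Fin m → ℕ) (a b : Fin m →₀ ℕ) :
    wt d (⇑(a + b)) = wt d a + wt d b := by
  unfold wt
  rw [← Finset.sum_add_distrib]
  refine Finset.sum_congr rfl fun i _ => ?_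
  rw [Finsupp.add_apply]
  push_cast
  ring

lemma wt_nonneg (d : Fin m → ℕ) (a : Fin m → ℕ) : 0 ≤ wt d a := by
  unfold wt
  exact Finset.sum_nonneg fun i _ => by positivity

lemma Ge.mul {d : Fin m → ℕ} {a b : ℝ} {P Q : MvPolynomial (Fin m) ℚ} (hP : Ge d a P)
    (hQ : Ge d b Q) : Ge d (a + b) (P * Q) := by
  intro e he
  have := support_mul P Q he
  obtain ⟨x, hx, y, hy, rfl⟩ := Finset.mem_add.1 this
  rw [wt_add]
  exact add_le_add (hP x hx) (hQ y hy)

lemma Ge.prod {d : Fin m → ℕ} {ι : Type} (s : Finset ι) (c : ι → ℝ)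
    (Q : ι → MvPolynomial (Fin m) ℚ) (h : ∀ i ∈ s, Ge d (c i) (Q i)) :
    Ge d (∑ i ∈ s, c i) (∏ i ∈ s, Q i) := by
  classical
  induction s using Finset.induction_on with
  | empty =>
    intro e he
    rw [Finset.sum_empty]
    exact wt_nonneg d e
  | insert i s hi ih =>
    rw [Finset.sum_insert hi, Finset.prod_insert hi]
    exact (h i (Finset.mem_insert_self i s)).mul
      (ih fun j hj => h j (Finset.mem_insert_of_mem hj))

lemma Ge.sum {d : Fin m → ℕ} {ι : Type} (s : Finset ι) (c : ℝ)
    (Q : ι → MvPolynomial (Fin m) ℚ) (h : ∀ i ∈ s, Ge d c (Q i)) :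
    Ge d c (∑ i ∈ s, Q i) := by
  intro e he
  rw [mem_support_iff, coeff_sum] at he
  obtain ⟨i, hi, hie⟩ := Finset.exists_ne_zero_of_sum_ne_zero he
  exact h i hi e (mem_support_iff.2 hie)

lemma wt_ex (d : Fin (m + 1) → ℕ) (μ : Fin m →₀ ℕ) (j : ℕ) :
    wt d (ex μ j) = ∑ h : Fin m, (μ h : ℝ) / d h.castSucc + (j : ℝ) / d (Fin.last m) := by
  unfold wt
  rw [Fin.sum_univ_castSucc]
  congr 1
  · refine Finset.sum_congr rfl fun h _ => ?_
    simp [ex]
  · simp [ex]

end RTI_

theorem rti_proof : Stmt_RTI := by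
  intro m k d P μ β τ κ hd1 hκ hτ
  have hdet : tr β (toQ (dmt μ P).det) =
      (Matrix.of fun i j : Fin k => hd (ex (μ i) (j : ℕ)) (tr β (toQ P))).det := by
    unfold tr toQ
    rw [RingHom.map_det, AlgHom.map_det]
    congr 1
    ext i j : 2
    simp only [RingHom.mapMatrix_apply, AlgHom.mapMatrix_apply, Matrix.map_apply, dmt,
      Matrix.of_apply]
    have h1 := RTI_.toQ_hd (ex (μ i) (j : ℕ)) P
    have h2 := RTI_.tr_hd β (toQ P) (ex (μ i) (j : ℕ))
    unfold toQ at h1 h2
    unfold tr at h2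
    rw [h1, h2]
  rw [hdet]
  have hent : ∀ i j : Fin k, RTI_.Ge d (max 0 (τ - κ - (j : ℝ) / d (Fin.last m)))
      (hd (ex (μ i) (j : ℕ)) (tr β (toQ P))) := by
    intro i j t ht
    rw [mem_support_iff, RTI_.coeff_hd] at ht
    have h1 := hτ _ (mem_support_iff.2 (left_ne_zero_of_mul ht))
    rw [RTI_.wt_add, RTI_.wt_ex] at h1
    refine max_le (RTI_.wt_nonneg d t) ?_
    linarith [hκ i]
  rw [Matrix.det_apply]
  refine RTI_.Ge.sum _ _ _ fun σ _ => ?_
  have h1 := RTI_.Ge.prod (d := d) Finset.univ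
    (fun j : Fin k => max 0 (τ - κ - (j : ℝ) / d (Fin.last m)))
    (fun j : Fin k => hd (ex (μ (σ j)) (j : ℕ)) (tr β (toQ P))) (fun j _ => hent (σ j) j)
  intro e he
  refine h1 e ?_
  rw [mem_support_iff] at he ⊢
  intro h0
  apply he
  rw [Units.smul_def, coeff_smul]
  have h2 : coeff e (∏ i, (Matrix.of fun i j : Fin k => hd (ex (μ i) (j : ℕ)) (tr β (toQ P)))
      (σ i) i) = 0 := h0
  rw [h2, smul_zero]

end Pool.Agent.SBT
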