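import Pool.Agent.SBT.StmtsBC
import Pool.Agent.SBT.RTI

set_option autoImplicit false

namespace Pool.Agent.SBT

open Polynomial

namespace KTY_

/-- `p ↦ p(X + Z)`, a polynomial in `Z` over `ℚ[X]` -/
noncomputable def T : ℚ[X] →ₐ[ℚ] ℚ[X][X] :=
  Polynomial.aeval (R := ℚ) (A := ℚ[X][X]) (X + C X)

lemma coeff_T (p : ℚ[X]) (i : ℕ) : (T p).coeff i = Polynomial.hasseDeriv i p := by
  induction p using Polynomial.induction_on' with
  | add p q hp hq => rw [map_add, coeff_add, hp, hq, map_add]
  | monomial n a =>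
    unfold T
    rw [aeval_monomial, hasseDeriv_monomial]
    have h1 : (algebraMap ℚ ℚ[X][X]) a = C (C a) := rfl
    rw [h1, coeff_C_mul, coeff_X_add_C_pow, ← C_mul_X_pow_eq_monomial, map_mul]
    simp only [map_natCast]
    ring

lemma T_eq (p : ℚ[X]) : ∃ r : ℚ[X][X], T p = C p + X * r := by
  refine ⟨(T p).divX, ?_⟩
  have h := (T p).divX_mul_X_add
  have h2 : (T p).coeff 0 = p := by
    rw [coeff_T, hasseDeriv_zero]
    rfl
  rw [h2] at h
  exact h.symm.trans (by ring)

lemma hd_monomial {m : ℕ} (μ s : Fin m →₀ ℕ) (a : ℚ) :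
    hd μ (MvPolynomial.monomial s a) =
      MvPolynomial.monomial (s - μ) (a * ((∏ h, (s h).choose (μ h) : ℕ) : ℚ)) := by
  classical
  by_cases ha : a = 0
  · subst ha
    unfold hd
    simp
  · unfold hd
    rw [MvPolynomial.support_monomial, if_neg ha, Finset.sum_singleton, MvPolynomial.coeff_monomial,
      if_pos rfl]

lemma mem_Exs {m i : ℕ} (μ : Fin m →₀ ℕ) : μ ∈ Exs m i ↔ ∑ h, μ h ≤ i := by
  unfold Exs
  rw [Finset.mem_biUnion]
  constructor
  · rintro ⟨k, hk, hμ⟩
    rw [Finset.mem_finsuppAntidiag] at hμ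
    rw [Finset.mem_range] at hk
    rw [hμ.1]
    omega
  · intro h
    exact ⟨_, Finset.mem_range.2 (Nat.lt_succ_of_le h),
      Finset.mem_finsuppAntidiag.2 ⟨rfl, Finset.subset_univ _⟩⟩

end KTY_

open KTY_ in
theorem kty_proof : Stmt_KTY := by
  classical
  intro m q i
  choose r hr using fun h => T_eq (q h)
  refine ⟨fun μ => (∏ h, (X * r h) ^ (μ h)).coeff i, Exs m i, ?_, ?_⟩
  · intro μ hμ
    exact (mem_Exs μ).1 hμ
  · intro f
    rw [← coeff_T]
    induction f using MvPolynomial.induction_on' with
    | add p p' hp hp' =>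
      rw [map_add, map_add, coeff_add, hp, hp', ← Finset.sum_add_distrib]
      refine Finset.sum_congr rfl fun μ _ => ?_
      rw [RTI_.hd_add, map_add, mul_add]
    | monomial s a =>
      -- left side
      have hL : T (MvPolynomial.aeval q (MvPolynomial.monomial s a)) =
          ∑ μ ∈ (Fintype.piFinset fun h => Finset.range (s h + 1)).map
            (Finsupp.equivFunOnFinite.symm : (Fin m → ℕ) ≃ (Fin m →₀ ℕ)).toEmbedding,
            C (C a * (∏ h, ((s h).choose (μ h) : ℚ[X])) * ∏ h, q h ^ (s h - μ h)) *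
              ∏ h, (X * r h) ^ (μ h) := by
        rw [MvPolynomial.aeval_monomial, map_mul, Finsupp.prod_fintype _ _ (by simp), map_prod]
        have h1 : T ((algebraMap ℚ ℚ[X]) a) = C (C a) := by
          rw [AlgHom.commutes]; rfl
        rw [h1]
        have h2 : ∀ h, T (q h ^ s h) = ∑ j ∈ Finset.range (s h + 1),
            C (((s h).choose j : ℚ[X]) * q h ^ (s h - j)) * (X * r h) ^ j := by
          intro h
          rw [map_pow, hr h, add_comm, add_pow]
          refine Finset.sum_congr rfl fun j _ => ?_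
          rw [map_mul, map_pow, map_natCast]
          ring
        rw [Finset.prod_congr rfl fun h _ => h2 h, Finset.prod_univ_sum, Finset.mul_sum,
          Finset.sum_map]
        refine Finset.sum_congr rfl fun μ _ => ?_
        simp only [Equiv.coe_toEmbedding, Finsupp.equivFunOnFinite_symm_apply_apply]
        rw [Finset.prod_mul_distrib, map_mul, map_mul, map_prod, map_prod, ← Finset.prod_mul_distrib.symm.symm]
        simp only [map_mul, Finset.prod_mul_distrib]
        ring
      rw [hL, finsetSum_coeff]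
      have hR : ∀ μ : Fin m →₀ ℕ, (∏ h, (X * r h) ^ (μ h)).coeff i *
          MvPolynomial.aeval q (hd μ (MvPolynomial.monomial s a)) =
          (C (C a * (∏ h, ((s h).choose (μ h) : ℚ[X])) * ∏ h, q h ^ (s h - μ h)) *
              ∏ h, (X * r h) ^ (μ h)).coeff i := by
        intro μ
        rw [coeff_C_mul, hd_monomial, MvPolynomial.aeval_monomial,
          Finsupp.prod_fintype _ _ (by simp), map_mul]
        have h1 : (algebraMap ℚ ℚ[X]) a = C a := rfl
        rw [h1, map_natCast, Nat.cast_prod]
        simp only [Finsupp.tsub_apply]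
        ring
      rw [Finset.sum_congr rfl fun μ _ => hR μ]
      set Box := (Fintype.piFinset fun h => Finset.range (s h + 1)).map
            (Finsupp.equivFunOnFinite.symm : (Fin m → ℕ) ≃ (Fin m →₀ ℕ)).toEmbedding with hBox
      have hmemBox : ∀ μ : Fin m →₀ ℕ, μ ∉ Box → ∃ h, s h < μ h := by
        intro μ hμ
        by_contra hc
        push Not at hc
        apply hμ
        rw [hBox, Finset.mem_map]
        refine ⟨fun h => μ h, ?_, ?_⟩
        · rw [Fintype.mem_piFinset]
          intro h
          rw [Finset.mem_range]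
          exact Nat.lt_succ_of_le (hc h)
        · ext h
          simp
      rw [Finset.sum_subset (s₁ := Box) (s₂ := Box ∪ Exs m i) Finset.subset_union_left,
        Finset.sum_subset (s₁ := Exs m i) (s₂ := Box ∪ Exs m i) Finset.subset_union_right]
      · intro μ _ hμ
        rw [mem_Exs] at hμ
        have h1 : ∏ h, (X * r h) ^ (μ h) = X ^ (∑ h, μ h) * ∏ h, (r h) ^ (μ h) := by
          rw [← Finset.prod_pow_eq_pow_sum, ← Finset.prod_mul_distrib]
          refine Finset.prod_congr rfl fun h _ => ?_
          rw [mul_pow]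
        rw [coeff_C_mul, h1, coeff_X_pow_mul', if_neg hμ, mul_zero]
      · intro μ _ hμ
        obtain ⟨h, hh⟩ := hmemBox μ hμ
        have h1 : ∏ h, ((s h).choose (μ h) : ℚ[X]) = 0 :=
          Finset.prod_eq_zero (Finset.mem_univ h) (by rw [Nat.choose_eq_zero_of_lt hh, Nat.cast_zero])
        rw [h1, mul_zero, zero_mul, map_zero, zero_mul, coeff_zero]

end Pool.Agent.SBT
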