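import Pool.Agent.SBT.Stmts

/-!
# LAT: the index of a group defined by congruences
-/

set_option autoImplicit false

namespace Pool.Agent.SBT

theorem lat_proof : Stmt_LAT := by
  intro N S L k hS
  classical
  have hne : ∀ q : S × Fin N, NeZero (q.1.1 ^ k q.1.1 q.2) :=
    fun q => ⟨pow_ne_zero _ (hS q.1.1 q.1.2).ne_zero⟩
  let φ : (Fin N → ℤ) →+ (∀ q : S × Fin N, ZMod (q.1.1 ^ k q.1.1 q.2)) :=
    { toFun := fun x q => ((fv (L q.1.1) x q.2 : ℤ) : ZMod (q.1.1 ^ k q.1.1 q.2))
      map_zero' := by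
        funext q
        simp [fv]
      map_add' := by
        intro x y
        funext q
        simp only [fv, Pi.add_apply, mul_add, Finset.sum_add_distrib]
        push_cast
        rfl }
  have hφ : ∀ x q, φ x q = ((fv (L q.1.1) x q.2 : ℤ) : ZMod (q.1.1 ^ k q.1.1 q.2)) :=
    fun x q => rfl
  have hcard : Nat.card (∀ q : S × Fin N, ZMod (q.1.1 ^ k q.1.1 q.2)) =
      ∏ p ∈ S, ∏ i, p ^ k p i := by
    rw [Nat.card_pi, Fintype.prod_prod_type]
    simp only [Nat.card_zmod]
    exact Finset.prod_coe_sort S (fun p => ∏ i, p ^ k p i)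
  refine ⟨φ.ker, ?_, ?_, ?_⟩
  · intro x
    rw [AddMonoidHom.mem_ker]
    constructor
    · intro h p hp i
      have h1 := congrFun h (⟨p, hp⟩, i)
      rw [hφ] at h1
      exact (CharP.intCast_eq_zero_iff (ZMod (p ^ k p i)) (p ^ k p i) _).1 h1
    · intro h
      funext q
      rw [hφ]
      exact (CharP.intCast_eq_zero_iff (ZMod (q.1.1 ^ k q.1.1 q.2)) (q.1.1 ^ k q.1.1 q.2) _).2
        (h q.1.1 q.1.2 q.2)
  · rw [AddSubgroup.index_ker]
    exact Nat.card_pos.ne'
  · rw [AddSubgroup.index_ker, ← hcard]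
    exact Nat.card_le_card_of_injective (fun y : φ.range => (y : ∀ q : S × Fin N,
      ZMod (q.1.1 ^ k q.1.1 q.2))) Subtype.val_injective

end Pool.Agent.SBT
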