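import Pool.Agent.SBT.Stmts

/-!
# Squad SBT, sections B and C: additional statements (splits of long modules)
Recipes: /team-store/MP_57632f_SBT_BC.md
-/

set_option autoImplicit false

namespace Pool.Agent.SBT

open Filter

/-- sum of the absolute values of the coefficients -/
noncomputable def nm {σ : Type} (P : MvPolynomial σ ℤ) : ℝ :=
  ∑ s ∈ P.support, |((P.coeff s : ℤ) : ℝ)|

/-! ## B -/

/-- KRS: Kronecker substitution. Uses nothing. -/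
def Stmt_KRS : Prop :=
  ∀ (k m : ℕ) (f : Fin k → MvPolynomial (Fin m) ℚ), LinearIndependent ℚ f →
    ∃ κ : Fin m → ℕ, LinearIndependent ℚ (fun j =>
      MvPolynomial.aeval (fun h => (Polynomial.X : Polynomial ℚ) ^ κ h) (f j))

/-- KTY: Hasse derivatives of a composition. Uses nothing. -/
def Stmt_KTY : Prop :=
  ∀ (m : ℕ) (q : Fin m → Polynomial ℚ) (i : ℕ),
    ∃ (c : (Fin m →₀ ℕ) → Polynomial ℚ) (F : Finset (Fin m →₀ ℕ)),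
      (∀ μ ∈ F, ∑ h, μ h ≤ i) ∧ ∀ f : MvPolynomial (Fin m) ℚ,
        Polynomial.hasseDeriv i (MvPolynomial.aeval q f) =
          ∑ μ ∈ F, c μ * MvPolynomial.aeval q (hd μ f)

/-- RTS: the determinant of derivatives splits over the rationals. Uses RTD, GWR, WRN. -/
def Stmt_RTS : Prop :=
  ∀ (m D : ℕ) (P : MvPolynomial (Fin (m + 1)) ℤ), P ≠ 0 → P.degreeOf (Fin.last m) ≤ D →
    ∃ (k : ℕ) (μ : Fin k → (Fin m →₀ ℕ)) (U : MvPolynomial (Fin m) ℚ) (V : Polynomial ℚ),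
      1 ≤ k ∧ k ≤ D + 1 ∧ (∀ i, ∑ h, μ i h ≤ (i : ℕ)) ∧ U ≠ 0 ∧ V ≠ 0 ∧
      toQ (dmt μ P).det = MvPolynomial.rename Fin.castSucc U *
        Polynomial.aeval (MvPolynomial.X (Fin.last m)) V

/-! ## C -/

/-- CHB: Chebyshev's inequality for the exponents. Uses nothing. -/
def Stmt_CHB : Prop :=
  ∀ (m N : ℕ) (d : Fin m → ℕ) (F : Finset ((Fin m × Fin N) →₀ ℕ)) (ε : ℝ) (i : Fin N),
    1 ≤ m → 0 < ε → (∀ h, 1 ≤ d h) → (∀ j, j ∈ F ↔ ∀ h, ∑ k, j (h, k) = d h) →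
    ((F.filter (fun j => ∑ h, (j (h, i) : ℝ) / d h < (m : ℝ) / N - m * ε)).card : ℝ) *
      (m * ε ^ 2) ≤ F.card

/-- LNB: `lin` of a monomial. Uses nothing. -/
def Stmt_LNB : Prop :=
  ∀ (m N : ℕ) (B : Matrix (Fin N) (Fin N) ℤ) (β : ℝ), 1 ≤ β → (∀ k i, |(B k i : ℝ)| ≤ β) →
    ∀ s : (Fin m × Fin N) →₀ ℕ,
      nm (lin B (MvPolynomial.monomial s (1 : ℤ))) ≤ (N * β) ^ (∑ hk, s hk) ∧
      ∀ e ∈ (lin B (MvPolynomial.monomial s (1 : ℤ))).support, ∀ h,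
        ∑ k, e (h, k) = ∑ k, s (h, k)

/-- the linear forms `∑ j, γ h j i t (h, j) + a h i s h` -/
noncomputable def cmb {m M : ℕ} (γ : Fin m → Fin M → Fin (M + 1) → ℤ)
    (a : Fin m → Fin (M + 1) → ℤ) (hi : Fin m × Fin (M + 1)) :
    MvPolynomial ((Fin m × Fin M) ⊕ Fin m) ℤ :=
  (∑ j, MvPolynomial.C (γ hi.1 j hi.2) * MvPolynomial.X (Sum.inl (hi.1, j))) +
    MvPolynomial.C (a hi.1 hi.2) * MvPolynomial.X (Sum.inr hi.1)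

/-- SMI: an identity. Uses nothing. -/
def Stmt_SMI : Prop :=
  ∀ (m M : ℕ) (A : Matrix (Fin (M + 1)) (Fin (M + 1)) ℤ) (d : Fin m → ℕ)
    (g : Fin m → Fin M → Fin (M + 1) → ℤ) (k : Fin m → Fin (M + 1))
    (P : MvPolynomial (Fin m × Fin (M + 1)) ℤ), MH d P →
    MvPolynomial.C (A.det ^ (∑ h, d h)) * phi g k P =
      MvPolynomial.bind₁ (cmb (fun h j i => fv A (g h j) i) (fun h i => A i (k h)))
        (lin A.adjugate P)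

/-- SMB: the coefficients of a product of linear forms. Uses nothing. -/
def Stmt_SMB : Prop :=
  ∀ (m M v : ℕ) (K : ℝ) (γ : Fin m → Fin M → Fin (M + 1) → ℤ) (a : Fin m → Fin (M + 1) → ℤ)
    (T : Fin m → ℝ) (b : Fin (M + 1) → ℝ) (β : ℝ), (v = 0 ∨ v.Prime) → 1 ≤ K →
    (∀ h, 0 ≤ T h) → (∀ i, |b i| ≤ β) → (∀ h i, av v (a h i) ≤ K) →
    (∀ h j i, av v (γ h j i) ≤ Real.exp (b i * T h)) →
    ∀ (s : (Fin m × Fin (M + 1)) →₀ ℕ) (e : ((Fin m × Fin M) ⊕ Fin m) →₀ ℕ),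
      av v ((MvPolynomial.coeff e (MvPolynomial.bind₁ (cmb γ a)
        (MvPolynomial.monomial s (1 : ℤ))) : ℤ) : ℚ) ≤
      ((M + 1) * K) ^ (∑ hi, s hi) *
        Real.exp (∑ h, ∑ i, (s (h, i) : ℝ) * (b i * T h) +
          β * ∑ h, (e (Sum.inr h) : ℝ) * T h)

/-- the substitution `X (h, k h) ↦ X (h, k h) - ∑ i ≠ k h, (w i / w (k h)) X (h, i)` -/
noncomputable def psi {m M : ℕ} (w : Fin m → Fin (M + 1) → ℤ) (k : Fin m → Fin (M + 1))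
    (P : MvPolynomial (Fin m × Fin (M + 1)) ℚ) : MvPolynomial (Fin m × Fin (M + 1)) ℚ :=
  MvPolynomial.bind₁ (fun hi : Fin m × Fin (M + 1) =>
    if hi.2 = k hi.1 then MvPolynomial.X hi -
      ∑ i ∈ Finset.univ.erase (k hi.1),
        MvPolynomial.C ((w hi.1 i : ℚ) / w hi.1 (k hi.1)) * MvPolynomial.X (hi.1, i)
    else MvPolynomial.X hi) P

/-- RD1: from the basis `g` to the standard coordinates. Uses nothing. -/
def Stmt_RD1 : Prop :=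
  ∀ (m M : ℕ) (d : Fin m → ℕ) (P : MvPolynomial (Fin m × Fin (M + 1)) ℤ)
    (w : Fin m → Fin (M + 1) → ℤ) (g : Fin m → Fin M → Fin (M + 1) → ℤ)
    (k : Fin m → Fin (M + 1)) (τ : ℝ), (∀ h, w h (k h) ≠ 0) →
    (∀ h j, ∑ i, w h i * g h j i = 0) →
    (∀ h, LinearIndependent ℚ (fun j : Fin M => fun i => (g h j i : ℚ))) →
    (∀ e ∈ (phi g k P).support, τ < ∑ h, (e (Sum.inr h) : ℝ) / d h) →
    ∀ e ∈ (psi w k (toQ P)).support, τ < ∑ h, (e (h, k h) : ℝ) / d h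

/-- RD2: the lowest part in the other variables. Uses nothing. -/
def Stmt_RD2 : Prop :=
  ∀ (m M : ℕ) (d : Fin m → ℕ) (P : MvPolynomial (Fin m × Fin (M + 1)) ℤ)
    (w : Fin m → Fin (M + 1) → ℤ) (k l : Fin m → Fin (M + 1)) (τ B : ℝ), P ≠ 0 → MH d P →
    (∀ h, k h ≠ l h) → (∀ h, w h (k h) ≠ 0) → HB P B →
    (∀ e ∈ (psi w k (toQ P)).support, τ < ∑ h, (e (h, k h) : ℝ) / d h) →
    ∃ p : MvPolynomial (Fin m) ℤ, p ≠ 0 ∧ (∀ h, p.degreeOf h ≤ d h) ∧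
      HB p B ∧
      ∀ e ∈ (tr (fun h => -(w h (l h) : ℚ) / w h (k h)) (toQ p)).support, τ < wt d e

/-- LB1: an inequality for hyperplanes of small height. Uses nothing. -/
def Stmt_LB1 : Prop :=
  ∀ (M : ℕ) (S : Finset ℕ) (L : ℕ → Matrix (Fin (M + 1)) (Fin (M + 1)) ℤ), PS S →
    (∀ v ∈ pl S, (L v).det ≠ 0) → ∃ C : ℝ, 1 ≤ C ∧
    ∀ (b : ℕ → Fin (M + 1) → ℝ) (T H : ℝ) (g : Fin M → Fin (M + 1) → ℤ)
      (w : Fin (M + 1) → ℤ) (i : ℕ → Fin (M + 1)), 1 ≤ H →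
      LinearIndependent ℚ (fun j => fun i => (g j i : ℚ)) →
      (∀ z : ℤ, (∀ i, z ∣ w i) → IsUnit z) → (∀ j, ∑ i, w i * g j i = 0) →
      (∀ v ∈ pl S, ∀ j i, av v (fv (L v) (g j) i) ≤ Real.exp (b v i * T)) →
      (∀ k, |(w k : ℝ)| ≤ H) →
      (∀ v ∈ pl S, (Matrix.vecMul w (L v).adjugate) (i v) ≠ 0) →
      1 ≤ (C * H) ^ (pl S).card *
        Real.exp ((∑ v ∈ pl S, ∑ j, b v j - ∑ v ∈ pl S, b v (i v)) * T)

/-- SQN: the choice of the places and of the degrees. Uses nothing. -/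
def Stmt_SQN : Prop :=
  ∀ (U : Ultrafilter ℕ) (T : ℕ → ℝ) (E : ℕ → Prop) (m : ℕ) (ω κ T₀ : ℝ), 1 ≤ m →
    Tendsto T (U : Filter ℕ) atTop → (∀ᶠ n in (U : Filter ℕ), E n) → 0 < ω → 0 < κ → 0 < T₀ →
    ∃ (n : Fin m → ℕ) (d : Fin m → ℕ) (W D : ℝ), (∀ h, E (n h)) ∧ (∀ h, T₀ ≤ T (n h)) ∧
      0 < W ∧ (∀ h, 1 ≤ d h) ∧ (∀ h, W ≤ d h * T (n h) ∧ d h * T (n h) ≤ (1 + κ) * W) ∧
      (∀ h h', h < h' → (d h' : ℝ) ≤ ω * d h) ∧ (∀ h, (d h : ℝ) ≤ D) ∧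
      ∑ h, (d h : ℝ) ≤ 2 * D ∧ D * T₀ ≤ (1 + κ) * W

end Pool.Agent.SBT
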