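import Pool.Agent.SBT.Api
import Pool.Agent.SBT.StmtsBC

set_option autoImplicit false

namespace Pool.Agent.SBT

open Filter

namespace LB1_

/-- the matrix with rows `x, g 0, ..., g (M-1)` -/
def mt {M : ℕ} {R : Type} (x : Fin (M + 1) → R) (g : Fin M → Fin (M + 1) → R) :
    Matrix (Fin (M + 1)) (Fin (M + 1)) R :=
  Matrix.of (Fin.cons (α := fun _ => Fin (M + 1) → R) x g)

theorem mt_zero {M : ℕ} {R : Type} (x : Fin (M + 1) → R) (g : Fin M → Fin (M + 1) → R)
    (k : Fin (M + 1)) : mt x g 0 k = x k := rfl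

theorem mt_succ {M : ℕ} {R : Type} (x : Fin (M + 1) → R) (g : Fin M → Fin (M + 1) → R)
    (j : Fin M) (k : Fin (M + 1)) : mt x g j.succ k = g j k := rfl

/-- signed minors -/
def nv {M : ℕ} (g : Fin M → Fin (M + 1) → ℤ) (k : Fin (M + 1)) : ℤ :=
  (-1) ^ (k : ℕ) * (Matrix.of fun i j : Fin M => g i (k.succAbove j)).det

theorem det_mt {M : ℕ} (x : Fin (M + 1) → ℤ) (g : Fin M → Fin (M + 1) → ℤ) :
    (mt x g).det = ∑ k, x k * nv g k := by
  rw [Matrix.det_succ_row_zero]
  refine Finset.sum_congr rfl fun k _ => ?_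
  rw [mt_zero]
  unfold nv
  have : (mt x g).submatrix Fin.succ k.succAbove = Matrix.of fun i j : Fin M => g i (k.succAbove j) := by
    ext i j
    rfl
  rw [this]
  ring

theorem det_mt_zero {M : ℕ} (w y : Fin (M + 1) → ℤ) (g : Fin M → Fin (M + 1) → ℤ) (hw : w ≠ 0)
    (hg : ∀ j, ∑ i, w i * g j i = 0) (hy : ∑ i, w i * y i = 0) : (mt y g).det = 0 := by
  apply Matrix.exists_mulVec_eq_zero_iff.1
  refine ⟨w, hw, ?_⟩
  funext r
  refine Fin.cases ?_ (fun j => ?_) r
  · rw [Matrix.mulVec, dotProduct, Pi.zero_apply, ← hy]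
    exact Finset.sum_congr rfl fun k _ => by rw [mt_zero, mul_comm]
  · rw [Matrix.mulVec, dotProduct, Pi.zero_apply, ← hg j]
    exact Finset.sum_congr rfl fun k _ => by rw [mt_succ, mul_comm]

theorem bezout {N : ℕ} (w : Fin N → ℤ) (hw : ∀ z : ℤ, (∀ i, z ∣ w i) → IsUnit z) :
    ∃ u : Fin N → ℤ, ∑ i, u i * w i = 1 := by
  have h1 : Ideal.span (Set.range w) = ⊤ := by
    obtain ⟨z, hz⟩ := (IsPrincipalIdealRing.principal (Ideal.span (Set.range w))).principal
    have hz' : Ideal.span (Set.range w) = Ideal.span {z} := hz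
    rw [hz', Ideal.span_singleton_eq_top]
    apply hw
    intro i
    rw [← Ideal.mem_span_singleton, ← hz']
    exact Ideal.subset_span ⟨i, rfl⟩
  have h2 : (1 : ℤ) ∈ Ideal.span (Set.range w) := by
    rw [h1]
    trivial
  obtain ⟨u, hu⟩ := (Ideal.mem_span_range_iff_exists_fun).1 h2
  exact ⟨u, hu⟩

theorem w_ne_zero {N : ℕ} (w : Fin N → ℤ) (hw : ∀ z : ℤ, (∀ i, z ∣ w i) → IsUnit z) : w ≠ 0 := by
  rintro rfl
  have := hw 0 (fun i => dvd_refl _)
  simp at this

theorem det_eq {M : ℕ} (w : Fin (M + 1) → ℤ) (g : Fin M → Fin (M + 1) → ℤ)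
    (hw : ∀ z : ℤ, (∀ i, z ∣ w i) → IsUnit z) (hg : ∀ j, ∑ i, w i * g j i = 0) :
    ∃ t : ℤ, ∀ x, (mt x g).det = (∑ i, w i * x i) * t := by
  obtain ⟨u, hu⟩ := bezout w hw
  refine ⟨∑ k, u k * nv g k, fun x => ?_⟩
  have h := det_mt_zero w (fun k => x k - (∑ i, w i * x i) * u k) g (w_ne_zero w hw) hg (by
    have : ∀ k, w k * (x k - (∑ i, w i * x i) * u k) =
        w k * x k - (∑ i, w i * x i) * (u k * w k) := fun k => by ring
    simp only [this]
    rw [Finset.sum_sub_distrib, ← Finset.mul_sum, hu]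
    ring)
  rw [det_mt] at h ⊢
  have h2 : ∑ k, (x k - (∑ i, w i * x i) * u k) * nv g k =
      ∑ k, x k * nv g k - (∑ i, w i * x i) * ∑ k, u k * nv g k := by
    rw [Finset.mul_sum, ← Finset.sum_sub_distrib]
    exact Finset.sum_congr rfl fun k _ => by ring
  rw [h2] at h
  linarith

theorem det_ne {M : ℕ} (w : Fin (M + 1) → ℤ) (g : Fin M → Fin (M + 1) → ℤ) (hw : w ≠ 0)
    (hg : ∀ j, ∑ i, w i * g j i = 0)
    (hi : LinearIndependent ℚ (fun j => fun i => (g j i : ℚ))) : (mt w g).det ≠ 0 := by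
  have hq : (mt (fun i => (w i : ℚ)) (fun j i => (g j i : ℚ))).det ≠ 0 := by
    have hli : LinearIndependent ℚ (mt (fun i => (w i : ℚ)) (fun j i => (g j i : ℚ))).row := by
      have : (mt (fun i => (w i : ℚ)) (fun j i => (g j i : ℚ))).row =
          Fin.cons (α := fun _ => Fin (M + 1) → ℚ) (fun i => (w i : ℚ)) (fun j i => (g j i : ℚ)) := rfl
      rw [this, linearIndependent_finCons]
      refine ⟨hi, fun hmem => ?_⟩
      let φ : (Fin (M + 1) → ℚ) →ₗ[ℚ] ℚ :=
        ∑ i, (w i : ℚ) • LinearMap.proj (R := ℚ) (φ := fun _ => ℚ) i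
      have hφ : ∀ x, φ x = ∑ i, (w i : ℚ) * x i := by
        intro x
        simp [φ]
      have hle : Submodule.span ℚ (Set.range fun j : Fin M => fun i => (g j i : ℚ)) ≤
          LinearMap.ker φ := by
        rw [Submodule.span_le]
        rintro _ ⟨j, rfl⟩
        rw [SetLike.mem_coe, LinearMap.mem_ker, hφ]
        show ∑ i, (w i : ℚ) * (g j i : ℚ) = 0
        exact_mod_cast hg j
      have h0 := hle hmem
      rw [LinearMap.mem_ker, hφ] at h0
      apply hw
      have h1 := (Finset.sum_eq_zero_iff_of_nonneg (fun i _ => mul_self_nonneg _)).1 h0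
      funext i
      have := h1 i (Finset.mem_univ i)
      rw [mul_self_eq_zero] at this
      exact_mod_cast this
    have := (Matrix.linearIndependent_rows_iff_isUnit).1 hli
    rw [Matrix.isUnit_iff_isUnit_det] at this
    exact this.ne_zero
  intro h0
  apply hq
  have : mt (fun i => (w i : ℚ)) (fun j i => (g j i : ℚ)) = (mt w g).map (Int.castRingHom ℚ) := by
    ext r k
    refine Fin.cases ?_ (fun j => ?_) r
    · rfl
    · rfl
  rw [this, ← RingHom.mapMatrix_apply, ← RingHom.map_det, h0]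
  simp

/-- the determinant of the values -/
theorem det_val {M : ℕ} (A : Matrix (Fin (M + 1)) (Fin (M + 1)) ℤ) (hA : A.det ≠ 0)
    (g : Fin M → Fin (M + 1) → ℤ) (i : Fin (M + 1)) :
    (mt (fun k => A.adjugate k i) g).det =
      (mt (fun k => if k = i then (1 : ℤ) else 0) (fun j k => fv A (g j) k)).det := by
  have h1 : mt (fun k => if k = i then A.det else 0) (fun j k => fv A (g j) k) =
      mt (fun k => A.adjugate k i) g * A.transpose := by
    ext r k
    rw [Matrix.mul_apply]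
    refine Fin.cases ?_ (fun j => ?_) r
    · simp only [mt_zero, Matrix.transpose_apply]
      have := congrFun (congrFun (Matrix.mul_adjugate A) k) i
      rw [Matrix.mul_apply, Matrix.smul_apply, Matrix.one_apply, smul_eq_mul, mul_ite, mul_one,
        mul_zero] at this
      rw [← this]
      exact Finset.sum_congr rfl fun l _ => mul_comm _ _
    · simp only [mt_succ, Matrix.transpose_apply, fv]
      exact Finset.sum_congr rfl fun l _ => mul_comm _ _
  have h2 := congrArg Matrix.det h1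
  rw [Matrix.det_mul, Matrix.det_transpose, det_mt] at h2
  have h3 : ∑ k, (if k = i then A.det else 0) * nv (fun j k => fv A (g j) k) k =
      (mt (fun k => if k = i then (1 : ℤ) else 0) (fun j k => fv A (g j) k)).det * A.det := by
    rw [det_mt, Finset.sum_mul]
    refine Finset.sum_congr rfl fun k _ => ?_
    split_ifs
    · ring
    · ring
  rw [h3] at h2
  exact (mul_right_cancel₀ hA h2).symm

/-- upper bound at one place -/
theorem upper {M v : ℕ} (hv : v = 0 ∨ v.Prime) (A : Matrix (Fin (M + 1)) (Fin (M + 1)) ℤ)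
    (hA : A.det ≠ 0) (b : Fin (M + 1) → ℝ) (T : ℝ) (g : Fin M → Fin (M + 1) → ℤ)
    (hb : ∀ j i, av v (fv A (g j) i) ≤ Real.exp (b i * T)) (i : Fin (M + 1)) :
    av v ((mt (fun k => A.adjugate k i) g).det : ℤ) ≤
      ((M + 1).factorial : ℝ) * Real.exp ((∑ j, b j - b i) * T) := by
  rw [det_val A hA]
  have h := av_det_le hv (mt (fun k => if k = i then (1 : ℤ) else 0) (fun j k => fv A (g j) k))
    (Fin.cons (α := fun _ => ℝ) (Real.exp (-(b i * T))) fun _ => 1) (fun k => Real.exp (b k * T))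
    (by
      intro r
      refine Fin.cases ?_ (fun j => ?_) r
      · exact (Real.exp_pos _).le
      · simp)
    (fun k => (Real.exp_pos _).le) (by
      intro r k
      refine Fin.cases ?_ (fun j => ?_) r
      · rw [mt_zero, Fin.cons_zero, ← Real.exp_add]
        split_ifs with hk
        · subst hk
          simp
        · simp only [Int.cast_zero, av_zero]
          exact (Real.exp_pos _).le
      · rw [mt_succ, Fin.cons_succ, one_mul]
        exact hb j k)
  refine h.trans ?_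
  rw [Fin.prod_univ_succ]
  simp only [Fin.cons_zero, Fin.cons_succ, Finset.prod_const_one, mul_one]
  rw [← Real.exp_sum, ← Real.exp_add]
  have h1 : -(b i * T) + ∑ k, b k * T = (∑ j, b j - b i) * T := by
    rw [← Finset.sum_mul]
    ring
  rw [h1]
  have hf : (1 : ℝ) ≤ ((M + 1).factorial : ℝ) := by exact_mod_cast Nat.succ_le_of_lt (Nat.factorial_pos _)
  refine mul_le_mul_of_nonneg_right ?_ (Real.exp_pos _).le
  split_ifs
  · exact le_refl _
  · exact hf

/-- lower bound at one place -/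
theorem lower {N v : ℕ} (hv : v = 0 ∨ v.Prime) (A : Matrix (Fin N) (Fin N) ℤ) (w : Fin N → ℤ)
    (H : ℝ) (hH : ∀ k, |(w k : ℝ)| ≤ H) (K : ℝ) (hK : ∑ i, ∑ k, |(A i k : ℝ)| ≤ K) (i : Fin N)
    (hne : ∑ k, w k * A k i ≠ 0) :
    1 ≤ K * H * av v ((∑ k, w k * A k i : ℤ) : ℚ) := by
  have h0 : 0 < |((∑ k, w k * A k i : ℤ) : ℝ)| := by
    rw [abs_pos]
    exact_mod_cast hne
  have h1 := inv_abs_le_av hv hne
  have h2 : |((∑ k, w k * A k i : ℤ) : ℝ)| ≤ K * H := by
    have hH0 : 0 ≤ H := (abs_nonneg _).trans (hH i)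
    push_cast
    calc |∑ k, (w k : ℝ) * (A k i : ℝ)| ≤ ∑ k, |(w k : ℝ) * (A k i : ℝ)| :=
          Finset.abs_sum_le_sum_abs _ _
      _ ≤ ∑ k, H * |(A k i : ℝ)| := Finset.sum_le_sum fun k _ => by
          rw [abs_mul]
          exact mul_le_mul_of_nonneg_right (hH k) (abs_nonneg _)
      _ = H * ∑ k, |(A k i : ℝ)| := by rw [Finset.mul_sum]
      _ ≤ H * K := by
          refine mul_le_mul_of_nonneg_left (le_trans ?_ hK) hH0
          refine Finset.sum_le_sum fun k _ => ?_
          exact Finset.single_le_sum (f := fun j => |(A k j : ℝ)|) (fun j _ => abs_nonneg _)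
            (Finset.mem_univ i)
      _ = K * H := mul_comm _ _
  calc (1 : ℝ) = |((∑ k, w k * A k i : ℤ) : ℝ)| * |((∑ k, w k * A k i : ℤ) : ℝ)|⁻¹ :=
        (mul_inv_cancel₀ h0.ne').symm
    _ ≤ K * H * av v ((∑ k, w k * A k i : ℤ) : ℚ) :=
        mul_le_mul h2 h1 (inv_nonneg.2 h0.le) (h0.le.trans h2)

end LB1_

theorem lb1_proof : Stmt_LB1 := by
  intro M S L hS hdet
  obtain ⟨K, hK1, hK⟩ : ∃ K : ℝ, 1 ≤ K ∧ ∀ v ∈ pl S, ∑ i, ∑ k, |((L v).adjugate i k : ℝ)| ≤ K := by
    refine ⟨1 + ∑ v ∈ pl S, ∑ i, ∑ k, |((L v).adjugate i k : ℝ)|, ?_, ?_⟩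
    · have : 0 ≤ ∑ v ∈ pl S, ∑ i, ∑ k, |((L v).adjugate i k : ℝ)| :=
        Finset.sum_nonneg fun v _ => Finset.sum_nonneg fun i _ => Finset.sum_nonneg fun k _ =>
          abs_nonneg _
      linarith
    · intro v hv
      have h5 : ∑ i, ∑ k, |((L v).adjugate i k : ℝ)| ≤
          ∑ v ∈ pl S, ∑ i, ∑ k, |((L v).adjugate i k : ℝ)| :=
        Finset.single_le_sum (f := fun v => ∑ i, ∑ k, |((L v).adjugate i k : ℝ)|)
          (fun v _ => Finset.sum_nonneg fun i _ => Finset.sum_nonneg fun k _ => abs_nonneg _) hv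
      linarith
  have hf : (1 : ℝ) ≤ ((M + 1).factorial : ℝ) := by
    exact_mod_cast Nat.succ_le_of_lt (Nat.factorial_pos _)
  refine ⟨K * ((M + 1).factorial : ℝ), ?_, ?_⟩
  · calc (1 : ℝ) = 1 * 1 := by ring
      _ ≤ K * ((M + 1).factorial : ℝ) := mul_le_mul hK1 hf zero_le_one (by linarith)
  intro b T H g w i hH1 hli hw hg hb hwH hne
  obtain ⟨t, ht⟩ := LB1_.det_eq w g hw hg
  have hw0 := LB1_.w_ne_zero w hw
  have ht0 : t ≠ 0 := by
    intro h0
    have := LB1_.det_ne w g hw0 hg hli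
    rw [ht, h0, mul_zero] at this
    exact this rfl
  have h1 := one_le_prod_av hS ht0
  have h2 : ∏ v ∈ pl S, av v (t : ℚ) ≤ ∏ v ∈ pl S,
      (K * H * ((M + 1).factorial : ℝ) * Real.exp ((∑ j, b v j - b v (i v)) * T)) := by
    refine Finset.prod_le_prod (fun v _ => av_nonneg _ _) fun v hv => ?_
    have hp := place_of_mem hS hv
    have hne' : ∑ k, w k * (L v).adjugate k (i v) ≠ 0 := hne v hv
    have hl := LB1_.lower hp (L v).adjugate w H hwH K (hK v hv) (i v) hne'
    have hu := LB1_.upper hp (L v) (hdet v hv) (b v) T g (hb v hv) (i v)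
    rw [ht, Int.cast_mul, av_mul hp] at hu
    have ha : 0 ≤ av v (t : ℚ) := av_nonneg _ _
    have hKH : 0 ≤ K * H := mul_nonneg (by linarith) (by linarith)
    calc av v (t : ℚ) = 1 * av v (t : ℚ) := (one_mul _).symm
      _ ≤ (K * H * av v ((∑ k, w k * (L v).adjugate k (i v) : ℤ) : ℚ)) * av v (t : ℚ) :=
          mul_le_mul_of_nonneg_right hl ha
      _ = K * H * (av v ((∑ k, w k * (L v).adjugate k (i v) : ℤ) : ℚ) * av v (t : ℚ)) := by ring
      _ ≤ K * H * (((M + 1).factorial : ℝ) * Real.exp ((∑ j, b v j - b v (i v)) * T)) :=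
          mul_le_mul_of_nonneg_left hu hKH
      _ = _ := by ring
  refine h1.trans (h2.trans (le_of_eq ?_))
  rw [Finset.prod_mul_distrib, Finset.prod_const, ← Real.exp_sum]
  congr 1
  · congr 1
    ring
  · congr 1
    rw [← Finset.sum_mul, Finset.sum_sub_distrib]

end Pool.Agent.SBT
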