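import Pool.Agent.SBT.StmtsBC
import Pool.Agent.SBT.Api

/-!
# Module LBH: the case of small height
-/

set_option autoImplicit false

namespace Pool.Agent.SBT

open Filter

namespace LBH_

/-- the pairing of `w` with `x` in terms of the forms -/
theorem pair_eq {N : ℕ} (A : Matrix (Fin N) (Fin N) ℤ) (w x : Fin N → ℤ) :
    A.det * (∑ k, w k * x k) = ∑ i, Matrix.vecMul w A.adjugate i * fv A x i := by
  have h : ∀ k, A.det * x k = ∑ i, A.adjugate k i * fv A x i := fun k => (adj_fv A x k).symm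
  calc A.det * (∑ k, w k * x k) = ∑ k, w k * (A.det * x k) := by
        rw [Finset.mul_sum]
        exact Finset.sum_congr rfl fun k _ => by ring
    _ = ∑ k, w k * ∑ i, A.adjugate k i * fv A x i := by simp only [h]
    _ = ∑ k, ∑ i, w k * A.adjugate k i * fv A x i := by
        refine Finset.sum_congr rfl fun k _ => ?_
        rw [Finset.mul_sum]
        exact Finset.sum_congr rfl fun i _ => by ring
    _ = ∑ i, ∑ k, w k * A.adjugate k i * fv A x i := Finset.sum_comm
    _ = _ := by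
        refine Finset.sum_congr rfl fun i _ => ?_
        rw [← Finset.sum_mul]
        rfl

theorem exists_vecMul_ne {N : ℕ} {A : Matrix (Fin N) (Fin N) ℤ} (hA : A.det ≠ 0)
    {w : Fin N → ℤ} (hw : w ≠ 0) : ∃ i, Matrix.vecMul w A.adjugate i ≠ 0 := by
  by_contra h
  push Not at h
  apply hw
  funext k
  have h1 := pair_eq A w (Pi.single k 1)
  simp only [h, zero_mul, Finset.sum_const_zero] at h1
  rcases mul_eq_zero.1 h1 with h2 | h2
  · exact absurd h2 hA
  · rw [Finset.sum_eq_single k] at h2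
    · simpa using h2
    · intro b _ hb
      simp [Pi.single_eq_of_ne hb]
    · intro hk
      exact absurd (Finset.mem_univ k) hk

theorem pair_le {N v : ℕ} (hv : v = 0 ∨ v.Prime) {A : Matrix (Fin N) (Fin N) ℤ}
    (hA : A.det ≠ 0) (w : Fin N → ℤ) :
    ∃ K : ℝ, 0 ≤ K ∧ ∀ (x : Fin N → ℤ) (t : ℝ), 0 ≤ t →
      (∀ i, Matrix.vecMul w A.adjugate i ≠ 0 → av v (fv A x i : ℚ) ≤ t) →
      av v ((∑ k, w k * x k : ℤ) : ℚ) ≤ K * t := by
  have hd : 0 < av v (A.det : ℚ) := av_pos hv (by exact_mod_cast hA)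
  refine ⟨(∑ i, av v ((Matrix.vecMul w A.adjugate i : ℤ) : ℚ)) / av v (A.det : ℚ),
    div_nonneg (Finset.sum_nonneg fun i _ => av_nonneg _ _) hd.le, ?_⟩
  intro x t ht hx
  rw [div_mul_eq_mul_div, le_div_iff₀ hd, mul_comm, ← av_mul hv, ← Int.cast_mul, pair_eq A w x]
  rw [Int.cast_sum]
  refine (av_sum_le hv _ _).trans ?_
  rw [Finset.sum_mul]
  refine Finset.sum_le_sum fun i _ => ?_
  rw [Int.cast_mul, av_mul hv]
  by_cases h0 : Matrix.vecMul w A.adjugate i = 0
  · rw [h0]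
    simp
  · exact mul_le_mul_of_nonneg_left (hx i h0) (av_nonneg _ _)

end LBH_

open LBH_ in
theorem lbh_proof (hLB1 : Stmt_LB1) : Stmt_LBH := by
  intro M S U T L c δ g hM hS hT hL hc hδ hg hb
  classical
  set b : ℕ → Fin (M + 1) → ℝ := fun v i => c v i - if v = 0 then δ else 0 with hbdef
  obtain ⟨C, hC, hlb⟩ := hLB1 M S L hS hL
  set k : ℕ := (pl S).card with hk
  have hsb : ∑ v ∈ pl S, ∑ i, b v i ≤ -((M + 1) * δ) := by
    have h1 : ∑ v ∈ pl S, ∑ i, b v i =
        ∑ v ∈ pl S, ∑ i, c v i - ∑ v ∈ pl S, ∑ _i : Fin (M + 1), (if v = 0 then δ else 0) := by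
      rw [← Finset.sum_sub_distrib]
      refine Finset.sum_congr rfl fun v _ => ?_
      rw [← Finset.sum_sub_distrib]
    have h2 : ∑ v ∈ pl S, ∑ _i : Fin (M + 1), (if v = 0 then δ else 0) = (M + 1) * δ := by
      simp only [Finset.sum_const, Finset.card_univ, Fintype.card_fin]
      rw [Finset.sum_eq_single 0]
      · simp
      · intro v _ hv
        simp [hv]
      · intro h
        exact absurd (zero_mem_pl S) h
    rw [h1, h2]
    linarith
  have hMR : (1 : ℝ) ≤ M := by exact_mod_cast hM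
  refine ⟨δ / (2 * ((k : ℝ) + 1)), by positivity, ?_⟩
  set a : ℝ := δ / (2 * ((k : ℝ) + 1)) with ha
  have ha0 : 0 < a := by positivity
  have hak : a * k ≤ δ / 2 := by
    rw [ha, div_mul_eq_mul_div, div_le_div_iff₀ (by positivity) (by norm_num)]
    nlinarith
  intro w hw
  rcases ult_em U (fun n => ∃ i, Real.exp (a * T n) < |(w n i : ℝ)|) with hbig | hsmall
  · exact Or.inr hbig
  left
  have hsmall' : ∀ᶠ n in (U : Filter ℕ), ∀ i, |(w n i : ℝ)| ≤ Real.exp (a * T n) := by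
    filter_upwards [hsmall] with n hn i
    by_contra hcon
    exact hn ⟨i, not_le.1 hcon⟩
  -- the zero patterns
  obtain ⟨Z, hZ⟩ := ult_const U (fun n => fun v : pl S =>
    (Finset.univ.filter fun i => Matrix.vecMul (w n) (L v).adjugate i ≠ 0 : Finset (Fin (M + 1))))
  -- the good set
  have hgood := (hw.and (hsmall'.and (hZ.and (hg.and (hb.and ((ev_pos hT).and
    (ev_ge hT (4 * (k * Real.log C) / δ))))))))
  obtain ⟨n₁, ⟨hprim₁, horth₁⟩, hsm₁, hZ₁, hg₁, hb₁, hT₁, hT₁'⟩ := hgood.exists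
  have hw₁ : w n₁ ≠ 0 := by
    intro h0
    have h1 := hprim₁ 0 (fun i => by rw [h0]; simp)
    simp at h1
  have hZne : ∀ v : pl S, (Z v).Nonempty := by
    intro v
    obtain ⟨i, hi⟩ := exists_vecMul_ne (hL v v.2) hw₁
    refine ⟨i, ?_⟩
    rw [← hZ₁]
    simp [hi]
  -- maximisers
  have hmax : ∀ v : pl S, ∃ i ∈ Z v, ∀ j ∈ Z v, b v j ≤ b v i :=
    fun v => Finset.exists_max_image (Z v) (b v) (hZne v)
  choose im him himax using hmax
  set iv : ℕ → Fin (M + 1) := fun v => if h : v ∈ pl S then im ⟨v, h⟩ else 0 with hiv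
  have hivm : ∀ v (hv : v ∈ pl S), iv v ∈ Z ⟨v, hv⟩ := by
    intro v hv
    simp only [hiv, hv, dif_pos]
    exact him ⟨v, hv⟩
  have hivmax : ∀ v (hv : v ∈ pl S), ∀ j ∈ Z ⟨v, hv⟩, b v j ≤ b v (iv v) := by
    intro v hv j hj
    simp only [hiv, hv, dif_pos]
    exact himax ⟨v, hv⟩ j hj
  have hsiv : ∑ v ∈ pl S, b v (iv v) ≤ -(δ / 4) := by
    have h1 := hlb b (T n₁) (Real.exp (a * T n₁)) (g n₁) (w n₁) iv
      (Real.one_le_exp (by positivity)) hg₁ hprim₁ horth₁ hb₁ hsm₁ (by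
        intro v hv
        have h2 := hivm v hv
        rw [← hZ₁] at h2
        simpa using h2)
    have h2 : (C * Real.exp (a * T n₁)) ^ (pl S).card *
        Real.exp ((∑ v ∈ pl S, ∑ j, b v j - ∑ v ∈ pl S, b v (iv v)) * T n₁) =
        Real.exp (k * Real.log C + a * k * T n₁ +
          (∑ v ∈ pl S, ∑ j, b v j - ∑ v ∈ pl S, b v (iv v)) * T n₁) := by
      rw [Real.exp_add, Real.exp_add, mul_pow, ← Real.exp_nat_mul (a * T n₁),
        Real.exp_nat_mul (Real.log C), Real.exp_log (by linarith)]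
      congr 2
      congr 1
      ring
    rw [h2] at h1
    have h3 : 0 ≤ k * Real.log C + a * k * T n₁ +
          (∑ v ∈ pl S, ∑ j, b v j - ∑ v ∈ pl S, b v (iv v)) * T n₁ := by
      by_contra hneg
      have := Real.exp_lt_one_iff.2 (not_le.1 hneg)
      linarith
    have h4 : k * Real.log C ≤ δ / 4 * T n₁ := by
      rw [div_le_iff₀ hδ] at hT₁'
      linarith
    have h5 : 0 ≤ (δ / 4 + a * k +
        (∑ v ∈ pl S, ∑ j, b v j - ∑ v ∈ pl S, b v (iv v))) * T n₁ := by
      nlinarith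
    have h6 := nonneg_of_mul_nonneg_left h5 hT₁
    have h7 : (2 : ℝ) * δ ≤ (M + 1) * δ := by nlinarith
    linarith
  -- the constants
  have hKex : ∀ v : pl S, ∃ K : ℝ, 0 ≤ K ∧ ∀ (x : Fin (M + 1) → ℤ) (t : ℝ), 0 ≤ t →
      (∀ i, Matrix.vecMul (w n₁) (L v).adjugate i ≠ 0 → av v (fv (L v) x i : ℚ) ≤ t) →
      av v ((∑ k, w n₁ k * x k : ℤ) : ℚ) ≤ K * t :=
    fun v => pair_le (place_of_mem hS v.2) (hL v v.2) (w n₁)
  choose K hK0 hK using hKex
  refine ⟨w n₁, hw₁, ?_⟩
  have hbig := ev_const_le_exp hT (η := δ / 8) (by positivity) (∏ v : pl S, K v)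
  filter_upwards [hb, hZ, ev_pos hT, hbig] with n hbn hZn hTn hbg j
  apply eq_zero_of_prod_lt_one hS
  have h1 : ∏ v ∈ pl S, av v ((∑ i, w n₁ i * g n j i : ℤ) : ℚ) ≤
      ∏ v ∈ (pl S).attach, (K v * Real.exp (b v (iv v) * T n)) := by
    rw [← Finset.prod_attach]
    refine Finset.prod_le_prod (fun v _ => av_nonneg _ _) fun v _ => ?_
    refine hK v (g n j) _ (Real.exp_pos _).le ?_
    intro i hi
    refine (hbn v v.2 j i).trans ?_
    apply Real.exp_le_exp.2
    refine mul_le_mul_of_nonneg_right ?_ hTn.le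
    refine hivmax v v.2 i ?_
    rw [← hZ₁]
    simp [hi]
  have h2 : ∏ v ∈ (pl S).attach, (K v * Real.exp (b v (iv v) * T n)) =
      (∏ v : pl S, K v) * Real.exp ((∑ v ∈ pl S, b v (iv v)) * T n) := by
    rw [Finset.prod_mul_distrib, ← Real.exp_sum, Finset.sum_mul,
      ← Finset.sum_attach (pl S) (fun v => b v (iv v) * T n)]
    rfl
  rw [h2] at h1
  refine h1.trans_lt ?_
  have hKn : 0 ≤ ∏ v : pl S, K v := Finset.prod_nonneg fun v _ => hK0 v
  calc (∏ v : pl S, K v) * Real.exp ((∑ v ∈ pl S, b v (iv v)) * T n)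
      ≤ Real.exp (δ / 8 * T n) * Real.exp (-(δ / 4) * T n) := by
        apply mul_le_mul hbg _ (Real.exp_pos _).le (Real.exp_pos _).le
        apply Real.exp_le_exp.2
        exact mul_le_mul_of_nonneg_right hsiv hTn.le
    _ = Real.exp (-(δ / 8) * T n) := by
        rw [← Real.exp_add]
        congr 1
        ring
    _ < 1 := by
        rw [Real.exp_lt_one_iff]
        nlinarith

end Pool.Agent.SBT
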