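import Pool.Agent.SBT.PApi

/-!
# SBT (MP_57632f_nt), module LNB: lin of a monomial
-/

set_option autoImplicit false

namespace Pool.Agent.SBT

namespace LNB_

open MvPolynomial

theorem lin_monomial {m N : ℕ} (B : Matrix (Fin N) (Fin N) ℤ) (s : (Fin m × Fin N) →₀ ℕ) :
    lin B (monomial s (1 : ℤ)) =
      ∏ hk : Fin m × Fin N, (∑ i, C (B hk.2 i) * X (hk.1, i)) ^ s hk := by
  unfold lin bind₁
  rw [aeval_monomial, map_one, one_mul, Finsupp.prod_fintype]
  intro i
  simp

theorem nm_form {m N : ℕ} (B : Matrix (Fin N) (Fin N) ℤ) (β : ℝ)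
    (hB : ∀ k i, |(B k i : ℝ)| ≤ β) (hk : Fin m × Fin N) :
    nm (∑ i, C (B hk.2 i) * X (hk.1, i) : MvPolynomial (Fin m × Fin N) ℤ) ≤ N * β := by
  refine (nm_sum_le _ _).trans ?_
  calc ∑ i : Fin N, nm (C (B hk.2 i) * X (hk.1, i) : MvPolynomial (Fin m × Fin N) ℤ)
      ≤ ∑ _i : Fin N, β := by
        refine Finset.sum_le_sum fun i _ => ?_
        refine (nm_mul_le _ _).trans ?_
        rw [nm_C, nm_X, mul_one]
        exact hB _ _
    _ = N * β := by simp

theorem whom {m N : ℕ} (B : Matrix (Fin N) (Fin N) ℤ) (s : (Fin m × Fin N) →₀ ℕ) (h : Fin m) :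
    IsWeightedHomogeneous (fun p : Fin m × Fin N => if p.1 = h then 1 else 0)
      (∏ hk : Fin m × Fin N, (∑ i, C (B hk.2 i) * X (hk.1, i)) ^ s hk :
        MvPolynomial (Fin m × Fin N) ℤ)
      (∑ hk : Fin m × Fin N, s hk • (if hk.1 = h then 1 else 0)) := by
  refine IsWeightedHomogeneous.prod _ _ _ fun hk _ => ?_
  refine IsWeightedHomogeneous.pow ?_ _
  have h1 : ∀ i ∈ (Finset.univ : Finset (Fin N)),
      (C (B hk.2 i) * X (hk.1, i) : MvPolynomial (Fin m × Fin N) ℤ) ∈
      weightedHomogeneousSubmodule ℤ (fun p : Fin m × Fin N => if p.1 = h then 1 else 0)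
        (if hk.1 = h then 1 else 0) := by
    intro i _
    rw [mem_weightedHomogeneousSubmodule]
    have h2 := (isWeightedHomogeneous_C (R := ℤ)
      (fun p : Fin m × Fin N => if p.1 = h then (1 : ℕ) else 0) (B hk.2 i)).mul
      (isWeightedHomogeneous_X (R := ℤ)
        (fun p : Fin m × Fin N => if p.1 = h then (1 : ℕ) else 0) (hk.1, i))
    rw [zero_add] at h2
    exact h2
  exact Submodule.sum_mem _ h1

end LNB_

open MvPolynomial in
theorem lnb_proof : Stmt_LNB := by
  intro m N B β hβ hB s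
  rw [LNB_.lin_monomial]
  constructor
  · refine (nm_prod_le _ _).trans ?_
    rw [← Finset.prod_pow_eq_pow_sum]
    refine Finset.prod_le_prod (fun _ _ => nm_nonneg _) fun hk _ => ?_
    exact (nm_pow_le _ _).trans (pow_le_pow_left₀ (nm_nonneg _) (LNB_.nm_form B β hB hk) _)
  · intro e he h
    have h1 := LNB_.whom B s h (mem_support_iff.1 he)
    rw [Finsupp.weight_apply, Finsupp.sum_fintype _ _ (by intro i; simp)] at h1
    rw [Fintype.sum_prod_type, Fintype.sum_prod_type] at h1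
    simpa using h1

end Pool.Agent.SBT
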