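import Pool.Agent.SBT.Stmts

/-!
# MIN: Minkowski's second theorem (up to constants)
-/

set_option autoImplicit false

namespace Pool.Agent.SBT

open Filter

namespace MINp

/-- the sup norm of the values of the forms -/
noncomputable def f {N : ℕ} (A : Matrix (Fin N) (Fin N) ℝ) (x : Fin N → ℤ) : ℝ :=
  ‖A.mulVec (fun k => (x k : ℝ))‖

theorem f_le {N : ℕ} (A : Matrix (Fin N) (Fin N) ℝ) (x : Fin N → ℤ) (B : ℝ) (hB : 0 ≤ B)
    (h : ∀ i, |∑ k, A i k * (x k : ℝ)| ≤ B) : f A x ≤ B := by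
  unfold f
  rw [pi_norm_le_iff_of_nonneg hB]
  intro i
  rw [Real.norm_eq_abs]
  exact h i

theorem le_f {N : ℕ} (A : Matrix (Fin N) (Fin N) ℝ) (x : Fin N → ℤ) (i : Fin N) :
    |∑ k, A i k * (x k : ℝ)| ≤ f A x := by
  unfold f
  have := norm_le_pi_norm (A.mulVec (fun k => (x k : ℝ))) i
  rw [Real.norm_eq_abs] at this
  exact this

theorem f_nonneg {N : ℕ} (A : Matrix (Fin N) (Fin N) ℝ) (x : Fin N → ℤ) : 0 ≤ f A x :=
  norm_nonneg _

theorem fin1 {N : ℕ} (A : Matrix (Fin N) (Fin N) ℝ) (hA : A.det ≠ 0) (R : ℝ) :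
    {x : Fin N → ℤ | f A x ≤ R}.Finite := by
  have hu : IsUnit A.det := isUnit_iff_ne_zero.mpr hA
  obtain ⟨M, hM⟩ : ∃ M : ℤ, ∀ k, (∑ i, |A⁻¹ k i|) * R ≤ M := by
    obtain ⟨M, hM⟩ := exists_int_gt (∑ k, |(∑ i, |A⁻¹ k i|) * R|)
    refine ⟨M, fun k => ?_⟩
    have h1 : |(∑ i, |A⁻¹ k i|) * R| ≤ ∑ k, |(∑ i, |A⁻¹ k i|) * R| :=
      Finset.single_le_sum (f := fun k => |(∑ i, |A⁻¹ k i|) * R|)
        (fun _ _ => abs_nonneg _) (Finset.mem_univ k)
    linarith [le_abs_self ((∑ i, |A⁻¹ k i|) * R)]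
  refine (Set.finite_Icc (fun _ : Fin N => -M) (fun _ => M)).subset ?_
  intro x hx
  have hx : f A x ≤ R := hx
  have key : ∀ k, |(x k : ℝ)| ≤ M := by
    intro k
    have h1 : (x k : ℝ) = ∑ i, A⁻¹ k i * (∑ l, A i l * (x l : ℝ)) := by
      have h2 : A⁻¹.mulVec (A.mulVec (fun k => (x k : ℝ))) = fun k => (x k : ℝ) := by
        rw [Matrix.mulVec_mulVec, Matrix.nonsing_inv_mul _ hu, Matrix.one_mulVec]
      exact (congrFun h2 k).symm
    rw [h1]
    calc |∑ i, A⁻¹ k i * (∑ l, A i l * (x l : ℝ))|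
        ≤ ∑ i, |A⁻¹ k i * (∑ l, A i l * (x l : ℝ))| := Finset.abs_sum_le_sum_abs _ _
      _ ≤ ∑ i, |A⁻¹ k i| * R := by
          refine Finset.sum_le_sum fun i _ => ?_
          rw [abs_mul]
          exact mul_le_mul_of_nonneg_left ((le_f A x i).trans hx) (abs_nonneg _)
      _ = (∑ i, |A⁻¹ k i|) * R := by rw [Finset.sum_mul]
      _ ≤ M := hM k
  constructor
  · intro k
    have := abs_le.mp (key k)
    have h3 : ((-M : ℤ) : ℝ) ≤ (x k : ℝ) := by push_cast; exact this.1
    exact_mod_cast h3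
  · intro k
    have := abs_le.mp (key k)
    exact_mod_cast this.2

theorem fin2 {N : ℕ} (A : Matrix (Fin N) (Fin N) ℝ) (hA : A.det ≠ 0) (R : ℝ) :
    {g : Fin N → Fin N → ℤ | ∑ j, f A (g j) ≤ R}.Finite := by
  refine (Set.Finite.pi' (fun _ : Fin N => fin1 A hA R)).subset ?_
  intro g hg j
  have hg : ∑ j, f A (g j) ≤ R := hg
  exact (Finset.single_le_sum (f := fun j => f A (g j)) (fun _ _ => f_nonneg _ _)
    (Finset.mem_univ j)).trans hg

/-- a system of minimal sum -/
theorem exmin {N : ℕ} (A : Matrix (Fin N) (Fin N) ℝ) (hA : A.det ≠ 0)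
    (H : AddSubgroup (Fin N → ℤ)) (hH : H.index ≠ 0) :
    ∃ g : Fin N → Fin N → ℤ, (∀ j, g j ∈ H) ∧ (Matrix.of g).det ≠ 0 ∧
      (Monotone fun j => f A (g j)) ∧
      ∀ h : Fin N → Fin N → ℤ, (∀ j, h j ∈ H) → (Matrix.of h).det ≠ 0 →
        ∑ j, f A (g j) ≤ ∑ j, f A (h j) := by
  classical
  -- a first system
  set g₀ : Fin N → Fin N → ℤ := fun j => H.index • (Pi.single j (1 : ℤ)) with hg₀
  have h1 : ∀ j, g₀ j ∈ H := fun j => AddSubgroup.nsmul_index_mem H _
  have h2 : (Matrix.of g₀).det ≠ 0 := by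
    have h3 : Matrix.of g₀ = (H.index : ℤ) • (1 : Matrix (Fin N) (Fin N) ℤ) := by
      ext i j
      simp [hg₀, Matrix.one_apply, Pi.single_apply, eq_comm]
    rw [h3, Matrix.det_smul]
    simp [hH]
  set P : Set (Fin N → Fin N → ℤ) :=
    {g | ((∀ j, g j ∈ H) ∧ (Matrix.of g).det ≠ 0) ∧ ∑ j, f A (g j) ≤ ∑ j, f A (g₀ j)} with hP
  have hfin : P.Finite := (fin2 A hA (∑ j, f A (g₀ j))).subset fun g hg => hg.2
  have hne : P.Nonempty := ⟨g₀, ⟨h1, h2⟩, le_rfl⟩
  obtain ⟨g, hg, hmin⟩ := Set.exists_min_image P (fun g => ∑ j, f A (g j)) hfin hne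
  have hmin' : ∀ h : Fin N → Fin N → ℤ, (∀ j, h j ∈ H) → (Matrix.of h).det ≠ 0 →
      ∑ j, f A (g j) ≤ ∑ j, f A (h j) := by
    intro h hh1 hh2
    by_cases hc : ∑ j, f A (h j) ≤ ∑ j, f A (g₀ j)
    · exact hmin h ⟨⟨hh1, hh2⟩, hc⟩
    · exact hg.2.trans (le_of_not_ge hc)
  set σ := Tuple.sort (fun j => f A (g j)) with hσ
  refine ⟨fun j => g (σ j), fun j => hg.1.1 _, ?_, ?_, ?_⟩
  · have h4 : Matrix.of (fun j => g (σ j)) = (Matrix.of g).submatrix σ id := by
      ext i j; rfl
    rw [h4, Matrix.det_permute]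
    have h5 := hg.1.2
    have h6 : ((Equiv.Perm.sign σ : ℤˣ) : ℤ) ≠ 0 := Units.ne_zero _
    exact mul_ne_zero h6 h5
  · exact Tuple.monotone_sort (fun j => f A (g j))
  · intro h hh1 hh2
    have h7 : ∑ j, f A (g (σ j)) = ∑ j, f A (g j) :=
      Equiv.sum_comp σ (fun j => f A (g j))
    rw [h7]
    exact hmin' h hh1 hh2

end MINp

open MINp

/-- module MIN -/
theorem min_proof (hMK1 : Stmt_MK1) (hORD : Stmt_ORD) : Stmt_MIN := by
  classical
  intro N hN
  obtain ⟨C₀, hC₀, hord⟩ := hORD N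
  have hC₀p : 0 < C₀ := by linarith
  refine ⟨(2 * C₀) ^ N, by positivity, ?_⟩
  intro A H hA hH
  obtain ⟨g, hgH, hgd, hmono, hmin⟩ := exmin A hA H hH
  have hu : IsUnit A.det := isUnit_iff_ne_zero.mpr hA
  -- the real matrix
  set G : Matrix (Fin N) (Fin N) ℝ := (Matrix.of g).map (fun x : ℤ => (x : ℝ)) with hG
  have hGd : G.det ≠ 0 := by
    have h1 : ((Matrix.of g).det : ℝ) = G.det := by
      have := (Int.castRingHom ℝ).map_det (Matrix.of g)
      simpa [hG, RingHom.mapMatrix_apply] using this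
    rw [← h1]
    exact_mod_cast hgd
  have hlpos : ∀ j, 0 < f A (g j) := by
    intro j
    refine lt_of_le_of_ne (f_nonneg _ _) fun h0 => ?_
    have h1 : A.mulVec (fun k => (g j k : ℝ)) = 0 := norm_eq_zero.mp h0.symm
    have h2 : (fun k => (g j k : ℝ)) = 0 := by
      have h3 : A⁻¹.mulVec (A.mulVec (fun k => (g j k : ℝ))) = fun k => (g j k : ℝ) := by
        rw [Matrix.mulVec_mulVec, Matrix.nonsing_inv_mul _ hu, Matrix.one_mulVec]
      rw [← h3, h1, Matrix.mulVec_zero]
    apply hgd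
    refine Matrix.det_eq_zero_of_row_eq_zero j fun k => ?_
    have := congrFun h2 k
    simp only [Pi.zero_apply] at this
    simpa using this
  refine ⟨g, fun j => f A (g j), hgH, hgd, hlpos, hmono, fun i j => le_f A (g j) i, ?_⟩
  by_contra hcon
  rw [not_le] at hcon
  obtain ⟨π, hπ⟩ := hord A G hA hGd
  -- the rescaled matrix
  set Bm : Matrix (Fin N) (Fin N) ℝ :=
    Matrix.of (fun i k => (f A (g i))⁻¹ * A (π i) k) with hBm
  have hdetB : |Bm.det| = |A.det| * ∏ i, (f A (g i))⁻¹ := by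
    have h1 : Bm = Matrix.diagonal (fun i => (f A (g i))⁻¹) * A.submatrix π id := by
      ext i k
      rw [Matrix.diagonal_mul]
      rfl
    rw [h1, Matrix.det_mul, Matrix.det_diagonal, Matrix.det_permute, abs_mul, abs_mul]
    have h2 : |((Equiv.Perm.sign π : ℤˣ) : ℝ)| = 1 := by
      rcases Int.units_eq_one_or (Equiv.Perm.sign π) with h | h <;> simp [h]
    have h3 : |∏ i, (f A (g i))⁻¹| = ∏ i, (f A (g i))⁻¹ :=
      abs_of_nonneg (Finset.prod_nonneg fun i _ => (inv_pos.mpr (hlpos i)).le)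
    rw [h3]
    have h4 : |((Equiv.Perm.sign π : ℤ) : ℝ)| = 1 := by
      rcases Int.units_eq_one_or (Equiv.Perm.sign π) with h | h <;> simp [h]
    rw [h4]
    ring
  have hprodpos : 0 < ∏ i, f A (g i) := Finset.prod_pos fun i _ => hlpos i
  have hBd : Bm.det ≠ 0 := by
    rw [← abs_pos, hdetB]
    refine mul_pos (abs_pos.mpr hA) (Finset.prod_pos fun i _ => inv_pos.mpr (hlpos i))
  have hlt : |Bm.det| * H.index < (1 / (2 * C₀)) ^ N := by
    rw [hdetB, Finset.prod_inv_distrib, one_div, inv_pow]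
    have h5 : (0 : ℝ) < (2 * C₀) ^ N := by positivity
    rw [lt_inv_comm₀ ?_ h5]
    swap
    · have : (0 : ℝ) < H.index := by exact_mod_cast Nat.pos_of_ne_zero hH
      have h6 := abs_pos.mpr hA
      positivity
    have hidx : (0 : ℝ) < H.index := by exact_mod_cast Nat.pos_of_ne_zero hH
    have hAa : 0 < |A.det| := abs_pos.mpr hA
    have h7 : (|A.det| * (∏ i, f A (g i))⁻¹ * (H.index : ℝ))⁻¹ =
        (∏ i, f A (g i)) / (|A.det| * H.index) := by
      field_simp
    rw [h7, lt_div_iff₀ (mul_pos hAa hidx)]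
    exact hcon
  obtain ⟨x, hxH, hx0, hx⟩ := hMK1 N Bm H (1 / (2 * C₀)) hN hBd hH (by positivity) hlt
  have hx1 : ∀ i, |∑ k, A (π i) k * (x k : ℝ)| ≤ 1 / (2 * C₀) * f A (g i) := by
    intro i
    have h1 := hx i
    have h2 : ∑ k, Bm i k * (x k : ℝ) = (f A (g i))⁻¹ * ∑ k, A (π i) k * (x k : ℝ) := by
      rw [Finset.mul_sum]
      refine Finset.sum_congr rfl fun k _ => ?_
      simp only [hBm, Matrix.of_apply]
      ring
    rw [h2, abs_mul, abs_of_pos (inv_pos.mpr (hlpos i)), inv_mul_le_iff₀ (hlpos i)] at h1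
    linarith
  -- coordinates
  have hGu : IsUnit G.det := isUnit_iff_ne_zero.mpr hGd
  set y : Fin N → ℝ := Matrix.vecMul (fun k => (x k : ℝ)) G⁻¹ with hy
  have hy1 : ∀ k, (x k : ℝ) = ∑ j, y j * G j k := by
    intro k
    have h1 : Matrix.vecMul y G = fun k => (x k : ℝ) := by
      rw [hy, Matrix.vecMul_vecMul, Matrix.nonsing_inv_mul _ hGu, Matrix.vecMul_one]
    exact (congrFun h1 k).symm
  -- the last coordinate
  have hyne : (Finset.univ.filter (fun j => y j ≠ 0)).Nonempty := by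
    by_contra hemp
    rw [Finset.not_nonempty_iff_eq_empty, Finset.filter_eq_empty_iff] at hemp
    apply hx0
    funext k
    have h1 := hy1 k
    have h2 : ∑ j, y j * G j k = 0 := by
      refine Finset.sum_eq_zero fun j hj => ?_
      have h3 : y j = 0 := by
        by_contra h4
        exact hemp hj h4
      rw [h3, zero_mul]
    rw [h2] at h1
    have h5 : x k = 0 := by exact_mod_cast h1
    simpa using h5
  set j := (Finset.univ.filter (fun j => y j ≠ 0)).max' hyne with hj
  have hyj : y j ≠ 0 := by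
    have := Finset.max'_mem _ hyne
    rw [← hj] at this
    exact (Finset.mem_filter.mp this).2
  have hyk : ∀ k, j < k → y k = 0 := by
    intro k hk
    by_contra h4
    have h5 : k ≤ j := Finset.le_max' _ k (Finset.mem_filter.mpr ⟨Finset.mem_univ _, h4⟩)
    exact absurd hk (not_lt.mpr h5)
  have hval : ∀ i, ∑ k, y k * A.mulVec (G k) (π i) = ∑ k, A (π i) k * (x k : ℝ) := by
    intro i
    simp only [Matrix.mulVec, dotProduct]
    calc ∑ k, y k * ∑ l, A (π i) l * G k l
        = ∑ k, ∑ l, A (π i) l * (y k * G k l) := by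
          refine Finset.sum_congr rfl fun k _ => ?_
          rw [Finset.mul_sum]
          refine Finset.sum_congr rfl fun l _ => ?_
          ring
      _ = ∑ l, ∑ k, A (π i) l * (y k * G k l) := Finset.sum_comm
      _ = ∑ l, A (π i) l * (x l : ℝ) := by
          refine Finset.sum_congr rfl fun l _ => ?_
          rw [← Finset.mul_sum, hy1 l]
  have hfin : ∀ i, |∑ k, y k * A.mulVec (G k) (π i)| ≤ C₀ * (1 / (2 * C₀) * f A (g j)) := by
    refine hπ j y hyk _ ?_
    intro i hi
    rw [hval i]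
    refine (hx1 i).trans ?_
    exact mul_le_mul_of_nonneg_left (hmono hi) (by positivity)
  have hfx : f A x ≤ f A (g j) / 2 := by
    refine f_le A x _ (by have := hlpos j; linarith) ?_
    intro i
    have h1 := hfin (π.symm i)
    rw [hval, Equiv.apply_symm_apply] at h1
    refine h1.trans (le_of_eq ?_)
    field_simp
  -- the new system
  have hnew := hmin (Function.update g j x) ?_ ?_
  · have h1 : ∑ i, f A (Function.update g j x i) =
        ∑ i, f A (g i) - f A (g j) + f A x := by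
      have h2 : (fun i => f A (Function.update g j x i)) =
          Function.update (fun i => f A (g i)) j (f A x) := by
        funext i
        by_cases hi : i = j
        · subst hi; simp
        · simp [Function.update_of_ne hi]
      rw [h2, Finset.sum_update_of_mem (Finset.mem_univ j)]
      have h3 : ∑ i, f A (g i) = f A (g j) + ∑ i ∈ Finset.univ \ {j}, f A (g i) := by
        rw [← Finset.sum_sdiff (Finset.subset_univ {j}), Finset.sum_singleton]
        ring
      rw [h3]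
      ring
    rw [h1] at hnew
    have := hlpos j
    linarith
  · intro i
    by_cases hi : i = j
    · subst hi; simpa using hxH
    · rw [Function.update_of_ne hi]; exact hgH i
  · intro h0
    have h1 : ((Matrix.of (Function.update g j x)).map (fun x : ℤ => (x : ℝ))).det = 0 := by
      have := (Int.castRingHom ℝ).map_det (Matrix.of (Function.update g j x))
      rw [h0] at this
      simpa [RingHom.mapMatrix_apply] using this.symm
    have h2 : (Matrix.of (Function.update g j x)).map (fun x : ℤ => (x : ℝ)) =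
        G.updateRow j (∑ k, y k • G k) := by
      ext i k
      by_cases hi : i = j
      · subst hi
        simp only [Matrix.map_apply, Matrix.of_apply, Function.update_self,
          Matrix.updateRow_self, Finset.sum_apply, Pi.smul_apply, smul_eq_mul]
        exact hy1 k
      · simp only [Matrix.map_apply, Matrix.of_apply, Function.update_of_ne hi,
          Matrix.updateRow_ne hi, hG]
    rw [h2, Matrix.det_updateRow_sum] at h1
    rcases smul_eq_zero.mp h1 with h | h
    · exact hyj h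
    · exact hGd h

end Pool.Agent.SBT
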