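import Pool.Agent.SBT.Stmts

/-!
# MK1: Minkowski's theorem on linear forms for a subgroup of finite index
-/

set_option autoImplicit false

namespace Pool.Agent.SBT

open MeasureTheory Module

theorem mk1_proof : Stmt_MK1 := by
  intro N A H t hN hA hH ht hlt
  classical
  have hfin : Finite ((Fin N → ℤ) ⧸ AddSubgroup.toIntSubmodule H) := by
    have h1 : H.FiniteIndex := ⟨hH⟩
    exact (inferInstance : Finite ((Fin N → ℤ) ⧸ H))
  have hrk : Module.finrank ℤ (AddSubgroup.toIntSubmodule H) = N := by
    rw [(Submodule.finiteQuotient_iff _).1 hfin]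
    simp
  let bN : Basis (Fin N) ℤ (AddSubgroup.toIntSubmodule H) :=
    (Module.finBasis ℤ (AddSubgroup.toIntSubmodule H)).reindex (finCongr hrk)
  have hidx : H.index = ((Pi.basisFun ℤ (Fin N)).det
      (fun j => ((bN j : AddSubgroup.toIntSubmodule H) : Fin N → ℤ))).natAbs :=
    AddSubgroup.index_eq_natAbs_det (Pi.basisFun ℤ (Fin N)) H bN
  let B : Matrix (Fin N) (Fin N) ℤ :=
    Matrix.of fun j k => ((bN j : AddSubgroup.toIntSubmodule H) : Fin N → ℤ) k
  have hB : H.index = B.det.natAbs := by
    rw [hidx, Basis.det_apply, ← Matrix.det_transpose]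
    rfl
  let G : Matrix (Fin N) (Fin N) ℝ := B.map (Int.castRingHom ℝ) * A.transpose
  have hGrow : ∀ j i, G j i = ∑ k, A i k * ((((bN j : AddSubgroup.toIntSubmodule H) :
      Fin N → ℤ) k : ℤ) : ℝ) := by
    intro j i
    simp only [G, B, Matrix.mul_apply, Matrix.map_apply, Matrix.of_apply, Matrix.transpose_apply,
      Int.coe_castRingHom]
    exact Finset.sum_congr rfl fun k _ => mul_comm _ _
  have hBR : (B.map (Int.castRingHom ℝ)).det = ((B.det : ℤ) : ℝ) := by
    have h := (RingHom.map_det (Int.castRingHom ℝ) B).symm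
    simpa using h
  have hGabs : |G.det| = |A.det| * H.index := by
    simp only [G]
    rw [Matrix.det_mul, Matrix.det_transpose, hBR, abs_mul, mul_comm, hB, Nat.cast_natAbs,
      Int.cast_abs]
  have hG : G.det ≠ 0 := by
    rw [← abs_pos, hGabs]
    have h1 : (0 : ℝ) < H.index := by exact_mod_cast Nat.pos_of_ne_zero hH
    have h2 : 0 < |A.det| := abs_pos.2 hA
    positivity
  have hli : LinearIndependent ℝ (fun j => G j) := by
    have h := Matrix.linearIndependent_rows_iff_isUnit.2
      ((Matrix.isUnit_iff_isUnit_det G).2 (isUnit_iff_ne_zero.2 hG))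
    exact h
  have : Nonempty (Fin N) := ⟨⟨0, hN⟩⟩
  let b : Basis (Fin N) ℝ (Fin N → ℝ) :=
    basisOfLinearIndependentOfCardEqFinrank hli (by simp)
  have hb : ∀ j, b j = G j := by
    intro j
    simp [b]
  have hvol : volume (ZSpan.fundamentalDomain b) = ENNReal.ofReal (|A.det| * H.index) := by
    rw [ZSpan.volume_fundamentalDomain, ← hGabs]
    congr 3
    ext j i
    simp [hb]
  have : Countable (Submodule.span ℤ (Set.range b)).toAddSubgroup := by
    exact (inferInstance : Countable (Submodule.span ℤ (Set.range b)))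
  obtain ⟨y, hy0, hy⟩ := exists_ne_zero_mem_lattice_of_measure_mul_two_pow_lt_measure
    (ZSpan.isAddFundamentalDomain' b volume) (s := Metric.closedBall (0 : Fin N → ℝ) t)
    (fun x hx => by simpa using hx) (convex_closedBall _ _) (by
      rw [hvol, Real.volume_pi_closedBall _ ht.le]
      rw [show (2 : ENNReal) = ENNReal.ofReal 2 by simp, ← ENNReal.ofReal_pow (by norm_num),
        ← ENNReal.ofReal_mul (by positivity)]
      have h1 : (0 : ℝ) < 2 ^ N := by positivity
      refine (ENNReal.ofReal_lt_ofReal_iff (by positivity)).2 ?_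
      simp only [Module.finrank_fintype_fun_eq_card, Fintype.card_fin]
      rw [mul_pow, mul_comm]
      exact mul_lt_mul_of_pos_left hlt h1)
  obtain ⟨y, hyL⟩ := y
  have hyL' : y ∈ Submodule.span ℤ (Set.range b) := hyL
  rw [Submodule.mem_span_range_iff_exists_fun] at hyL'
  obtain ⟨c, hc⟩ := hyL'
  let x : AddSubgroup.toIntSubmodule H := ∑ j, c j • bN j
  have hxy : ∀ i, ∑ k, A i k * (((x : Fin N → ℤ) k : ℤ) : ℝ) = y i := by
    intro i
    have hx : ∀ k, (x : Fin N → ℤ) k = ∑ j, c j * ((bN j : AddSubgroup.toIntSubmodule H) :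
        Fin N → ℤ) k := by
      intro k
      simp [x]
    rw [← hc]
    simp only [Finset.sum_apply, hb, hx, zsmul_eq_mul]
    push_cast
    simp only [Finset.mul_sum]
    rw [Finset.sum_comm]
    refine Finset.sum_congr rfl fun j _ => ?_
    rw [Pi.mul_apply, Pi.intCast_apply, hGrow, Finset.mul_sum]
    exact Finset.sum_congr rfl fun k _ => by ring
  refine ⟨(x : Fin N → ℤ), x.2, ?_, ?_⟩
  · intro hx0
    apply hy0
    apply Subtype.ext
    funext i
    have h := hxy i
    rw [hx0] at h
    simpa using h.symm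
  · intro i
    rw [hxy i]
    have h := hy
    rw [mem_closedBall_zero_iff] at h
    exact (norm_le_pi_norm y i).trans h

end Pool.Agent.SBT
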