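import Pool.Agent.SBT.Stmts

/-!
# Squad SBT, module NRK: two coordinates with a quotient of large denominator
-/

set_option autoImplicit false

namespace Pool.Agent.SBT

theorem nrk_proof : Stmt_NRK := by
  intro M w hM hprim
  classical
  obtain ⟨k, hk⟩ := Finite.exists_max (fun i => |w i|)
  have hk0 : w k ≠ 0 := by
    intro h0
    have h1 : ∀ i, (0 : ℤ) ∣ w i := by
      intro i
      have h2 := hk i
      simp only [h0, abs_zero] at h2
      have h3 : w i = 0 := abs_eq_zero.1 (le_antisymm h2 (abs_nonneg _))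
      rw [h3]
    exact not_isUnit_zero (hprim 0 h1)
  set β : Fin (M + 1) → ℕ := fun l => (-(w l : ℚ) / w k).den with hβ
  set D : ℕ := ∏ l ∈ Finset.univ.erase k, β l with hD
  have hcard : (Finset.univ.erase k).card = M := by
    rw [Finset.card_erase_of_mem (Finset.mem_univ k), Finset.card_univ, Fintype.card_fin]
    rfl
  have hne : (Finset.univ.erase k).Nonempty := by
    rw [← Finset.card_pos, hcard]
    exact hM
  obtain ⟨l, hl, hmax⟩ := Finset.exists_max_image (Finset.univ.erase k) β hne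
  have hdvd : ∀ i, w k ∣ (D : ℤ) * w i := by
    intro i
    by_cases hi : i = k
    · rw [hi]
      exact Dvd.intro_left _ rfl
    have h1 : (β i : ℤ) ∣ (D : ℤ) := by
      have h2 : β i ∣ D := Finset.dvd_prod_of_mem β (Finset.mem_erase.2 ⟨hi, Finset.mem_univ i⟩)
      exact_mod_cast h2
    have h3 : w k ∣ (β i : ℤ) * w i := by
      have hkq : (w k : ℚ) ≠ 0 := by exact_mod_cast hk0
      have h4 : ((-(w i : ℚ) / w k).num : ℚ) = (-(w i : ℚ) / w k) * (-(w i : ℚ) / w k).den :=
        (Rat.mul_den_eq_num _).symm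
      have h5 : ((-(w i : ℚ) / w k).num : ℚ) * w k = -(w i : ℚ) * (β i : ℚ) := by
        rw [h4, hβ]
        field_simp
      have h6 : (-(w i : ℚ) / w k).num * w k = -(w i) * (β i : ℤ) := by exact_mod_cast h5
      have h7 : w k ∣ -(w i) * (β i : ℤ) := Dvd.intro_left _ h6
      rw [neg_mul, dvd_neg, mul_comm] at h7
      exact h7
    exact h3.trans (mul_dvd_mul_right h1 (w i))
  have hgcd : IsUnit (Finset.univ.gcd w) := hprim _ fun i => Finset.gcd_dvd (Finset.mem_univ i)
  have hkD : w k ∣ (D : ℤ) := by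
    have h1 : w k ∣ Finset.univ.gcd (fun i => (D : ℤ) * w i) :=
      Finset.dvd_gcd fun i _ => hdvd i
    rw [Finset.gcd_mul_left] at h1
    have h2 : w k ∣ normalize (D : ℤ) := (hgcd.dvd_mul_right).1 h1
    exact h2.trans (normalize_dvd_iff.2 dvd_rfl)
  have hDpos : 0 < D := Finset.prod_pos fun i _ => Rat.den_pos _
  have hle : |w k| ≤ (D : ℤ) := by
    have h1 := Int.le_of_dvd (by exact_mod_cast hDpos) ((abs_dvd _ _).2 hkD)
    exact h1
  have hDle : D ≤ β l ^ M := by
    have h1 := Finset.prod_le_pow_card (Finset.univ.erase k) β (β l) (fun i hi => hmax i hi)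
    rwa [hcard] at h1
  refine ⟨k, l, (Finset.ne_of_mem_erase hl).symm, hk0, fun i => ?_⟩
  have h1 : |w i| ≤ ((β l ^ M : ℕ) : ℤ) :=
    (hk i).trans (hle.trans (by exact_mod_cast hDle))
  have h2 : ((|w i| : ℤ) : ℝ) ≤ (((β l ^ M : ℕ) : ℤ) : ℝ) := Int.cast_le.2 h1
  rw [Int.cast_abs, Int.cast_natCast, Nat.cast_pow] at h2
  exact h2

end Pool.Agent.SBT
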