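import Pool.Agent.SBT.Stmts

/-! # SBT.NRM: a primitive normal vector -/

namespace Pool.Agent.SBT

/-- NRM: a primitive normal vector. -/
theorem nrm_proof : Stmt_NRM := by
  intro M g _
  -- the kernel is nonzero
  have hker : ∃ v : Fin (M + 1) → ℤ, v ≠ 0 ∧ ∀ j, ∑ i, v i * g j i = 0 := by
    let f : (Fin (M + 1) → ℤ) →ₗ[ℤ] (Fin M → ℤ) :=
      { toFun := fun v j => ∑ i, v i * g j i
        map_add' := by
          intro x y
          funext j
          simp only [Pi.add_apply, add_mul, Finset.sum_add_distrib]
        map_smul' := by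
          intro c x
          funext j
          simp only [Pi.smul_apply, smul_eq_mul, RingHom.id_apply, Finset.mul_sum, mul_assoc] }
    have hni : ¬ Function.Injective f := by
      intro hinj
      have h := LinearMap.finrank_le_finrank_of_injective hinj
      simp at h
    have hk : LinearMap.ker f ≠ ⊥ := fun h => hni (LinearMap.ker_eq_bot.1 h)
    obtain ⟨v, hv, hv0⟩ := Submodule.exists_mem_ne_zero_of_ne_bot hk
    refine ⟨v, hv0, fun j => ?_⟩
    exact congrFun (LinearMap.mem_ker.1 hv) j
  obtain ⟨v, hv0, hv⟩ := hker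
  obtain ⟨w, hw, hg⟩ := Finset.extract_gcd (s := Finset.univ) v Finset.univ_nonempty
  have hd : Finset.univ.gcd v ≠ 0 := by
    intro h
    apply hv0
    funext i
    exact Finset.gcd_eq_zero_iff.1 h i (Finset.mem_univ i)
  refine ⟨w, ?_, ?_⟩
  · intro z hz
    have h1 : z ∣ Finset.univ.gcd w := Finset.dvd_gcd fun i _ => hz i
    rw [hg] at h1
    exact isUnit_of_dvd_one h1
  · intro j
    have h1 := hv j
    have h2 : ∑ i, v i * g j i = Finset.univ.gcd v * ∑ i, w i * g j i := by
      rw [Finset.mul_sum]
      refine Finset.sum_congr rfl fun i _ => ?_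
      rw [hw i (Finset.mem_univ i)]
      ring
    rw [h2] at h1
    exact (mul_eq_zero.1 h1).resolve_left hd

end Pool.Agent.SBT
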