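import Pool.Agent.SBT.Stmts
import Pool.Agent.SBT.Api

/-!
# PAR: the parametric Subspace theorem from GSY and THB
-/

set_option autoImplicit false

namespace Pool.Agent.SBT

open Filter

/-- the sum of the exponents of an independent system is nonnegative -/
theorem par_sum_nonneg {N : ℕ} {S : Finset ℕ} (U : Ultrafilter ℕ) {T : ℕ → ℝ}
    {L : ℕ → Matrix (Fin N) (Fin N) ℤ} {c : ℕ → Fin N → ℝ} {m : Fin N → ℝ}
    {h : ℕ → Fin N → Fin N → ℤ} (hS : PS S) (hT : Tendsto T (U : Filter ℕ) atTop)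
    (hL : ∀ v ∈ pl S, (L v).det ≠ 0) (hdet : ∀ᶠ n in (U : Filter ℕ), (Matrix.of (h n)).det ≠ 0)
    (hh : ∀ᶠ n in (U : Filter ℕ), ∀ j i,
      av 0 (fv (L 0) (h n j) i) ≤ Real.exp ((c 0 i + m j) * T n) ∧
      ∀ p ∈ S, av p (fv (L p) (h n j) i) ≤ Real.exp (c p i * T n)) :
    0 ≤ ∑ j, m j + ∑ v ∈ pl S, ∑ i, c v i := by
  by_contra hneg
  rw [not_le] at hneg
  obtain ⟨s, hs⟩ : ∃ s, s = ∑ j, m j + ∑ v ∈ pl S, ∑ i, c v i := ⟨_, rfl⟩
  rw [← hs] at hneg
  obtain ⟨κ, hκ⟩ : ∃ κ, κ = ∏ v ∈ pl S, av v ((L v).det : ℚ) := ⟨_, rfl⟩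
  have hκ0 : 0 < κ := by
    rw [hκ]
    exact Finset.prod_pos fun v hv => av_pos (place_of_mem hS hv) (by exact_mod_cast hL v hv)
  have hbig := ev_const_le_exp hT (neg_pos.2 hneg) ((N.factorial : ℝ) / κ + 1)
  obtain ⟨n, ⟨h1, h2⟩, h3⟩ := ((hdet.and hh).and hbig).exists
  -- the product formula for the determinant
  have e1 : κ ≤ ∏ v ∈ pl S, av v (((L v).det * (Matrix.of (h n)).det : ℤ) : ℚ) := by
    have e2 : ∏ v ∈ pl S, av v (((L v).det * (Matrix.of (h n)).det : ℤ) : ℚ) =
        κ * ∏ v ∈ pl S, av v ((Matrix.of (h n)).det : ℚ) := by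
      rw [hκ, ← Finset.prod_mul_distrib]
      refine Finset.prod_congr rfl fun v hv => ?_
      rw [Int.cast_mul, av_mul (place_of_mem hS hv)]
    rw [e2]
    exact le_mul_of_one_le_right hκ0.le (one_le_prod_av hS h1)
  have e3 : ∏ v ∈ pl S, av v (((L v).det * (Matrix.of (h n)).det : ℤ) : ℚ) ≤
      (N.factorial : ℝ) * Real.exp (s * T n) := by
    rw [prod_pl hS]
    have a0 := av_det_le (Or.inl rfl) (Matrix.of fun i j => fv (L 0) (h n j) i)
      (fun i => Real.exp (c 0 i * T n)) (fun j => Real.exp (m j * T n))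
      (fun i => (Real.exp_pos _).le) (fun j => (Real.exp_pos _).le) (by
        intro i j
        rw [← Real.exp_add, ← add_mul]
        exact (h2 j i).1)
    rw [det_fv, if_pos rfl] at a0
    have ap : ∀ p ∈ S, av p (((L p).det * (Matrix.of (h n)).det : ℤ) : ℚ) ≤
        Real.exp ((∑ i, c p i) * T n) := by
      intro p hp
      have := av_det_le (Or.inr (hS p hp)) (Matrix.of fun i j => fv (L p) (h n j) i)
        (fun i => Real.exp (c p i * T n)) (fun _ => 1)
        (fun i => (Real.exp_pos _).le) (fun j => zero_le_one) (by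
          intro i j
          rw [mul_one]
          exact (h2 j i).2 p hp)
      rw [det_fv, if_neg (hS p hp).ne_zero, one_mul, Finset.prod_const_one, mul_one,
        ← Real.exp_sum, ← Finset.sum_mul] at this
      exact this
    have b1 : ∏ p ∈ S, av p (((L p).det * (Matrix.of (h n)).det : ℤ) : ℚ) ≤
        ∏ p ∈ S, Real.exp ((∑ i, c p i) * T n) :=
      Finset.prod_le_prod (fun p _ => av_nonneg _ _) ap
    rw [← Real.exp_sum, ← Finset.sum_mul] at b1
    rw [← Real.exp_sum, ← Finset.sum_mul, ← Real.exp_sum, ← Finset.sum_mul, ← Real.exp_add,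
      ← add_mul] at a0
    refine (mul_le_mul a0 b1 (Finset.prod_nonneg fun p _ => av_nonneg _ _) (by positivity)).trans
      (le_of_eq ?_)
    rw [mul_assoc, ← Real.exp_add, ← add_mul]
    have e4 : ∑ i, c 0 i + ∑ j, m j + ∑ p ∈ S, ∑ i, c p i = s := by
      rw [hs, sum_pl hS]
      ring
    rw [e4]
  have e5 := e1.trans e3
  have e6 : Real.exp (s * T n) * Real.exp (-s * T n) = 1 := by
    rw [← Real.exp_add, ← add_mul]
    simp
  have e7 : κ * Real.exp (-s * T n) ≤ (N.factorial : ℝ) := by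
    calc κ * Real.exp (-s * T n) ≤ (N.factorial : ℝ) * Real.exp (s * T n) * Real.exp (-s * T n) :=
          mul_le_mul_of_nonneg_right e5 (Real.exp_pos _).le
      _ = (N.factorial : ℝ) := by rw [mul_assoc, e6, mul_one]
  have e8 : κ * ((N.factorial : ℝ) / κ + 1) ≤ (N.factorial : ℝ) :=
    (mul_le_mul_of_nonneg_left h3 hκ0.le).trans e7
  have e9 : κ * ((N.factorial : ℝ) / κ + 1) = (N.factorial : ℝ) + κ := by
    field_simp
  linarith

/-- a jump of a sequence -/
theorem par_jump (a : ℕ → ℝ) (δ : ℝ) (j l : ℕ) (hjl : j ≤ l)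
    (h : a j + (l - j : ℕ) * δ < a l) : ∃ i, j ≤ i ∧ i < l ∧ a i + δ ≤ a (i + 1) := by
  induction l, hjl using Nat.le_induction with
  | base => simp at h
  | succ l hl ih =>
    by_cases h1 : a l + δ ≤ a (l + 1)
    · exact ⟨l, hl, Nat.lt_succ_self l, h1⟩
    · rw [not_le] at h1
      have h2 : ((l + 1 - j : ℕ) : ℝ) = ((l - j : ℕ) : ℝ) + 1 := by
        rw [Nat.succ_sub hl]
        push_cast
        ring
      rw [h2] at h
      obtain ⟨i, hi1, hi2, hi3⟩ := ih (by linarith)
      exact ⟨i, hi1, hi2.trans (Nat.lt_succ_self l), hi3⟩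

/-- PAR -/
theorem par_proof (hG : Stmt_GSY) (hB : Stmt_THB) : Stmt_PAR := by
  intro N S U T L c x hN hS hT hL hc hsum hx
  obtain ⟨σ, hσ⟩ : ∃ σ, σ = -∑ v ∈ pl S, ∑ i, c v i := ⟨_, rfl⟩
  have hσ0 : 0 < σ := by linarith
  rcases ult_em U (fun n => x n = 0) with hx0 | hx0
  · refine ⟨fun _ => 1, ?_, hx0.mono fun n hn => ?_⟩
    · intro h
      exact one_ne_zero (congrFun h ⟨0, by omega⟩)
    · rw [hn]
      simp
  have hNr : (1 : ℝ) ≤ N := by exact_mod_cast hN
  obtain ⟨η, hη⟩ : ∃ η : ℝ, η = σ / (N ^ 2 * 2 ^ (N + 2)) := ⟨_, rfl⟩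
  obtain ⟨δ, hδ⟩ : ∃ δ : ℝ, δ = σ / (2 * N ^ 2) := ⟨_, rfl⟩
  have hη0 : 0 < η := by rw [hη]; positivity
  have hδ0 : 0 < δ := by rw [hδ]; positivity
  have hηδ : (2 : ℝ) ^ (N + 1) * η = δ := by
    rw [hη, hδ, pow_succ (2 : ℝ) (N + 1)]
    field_simp
  obtain ⟨μ, g, hμ, hg0, hg, hgs⟩ := hG N S U T L c η hN hS hT hL hc hη0
  -- coordinates of `x`
  obtain ⟨Δ, hΔ⟩ : ∃ Δ : ℕ → ℤ, Δ = fun n => (Matrix.of (g n)).det := ⟨_, rfl⟩
  obtain ⟨y, hy⟩ : ∃ y : ℕ → Fin N → ℤ,
      y = fun n => Matrix.vecMul (x n) (Matrix.of (g n)).adjugate := ⟨_, rfl⟩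
  have hΔ0 : ∀ n, Δ n ≠ 0 := fun n => by rw [hΔ]; exact hg0 n
  have hyx : ∀ n, Matrix.vecMul (y n) (Matrix.of (g n)) = Δ n • x n := by
    intro n
    rw [hy, hΔ]
    simp only
    rw [Matrix.vecMul_vecMul, Matrix.adjugate_mul, Matrix.vecMul_smul, Matrix.vecMul_one]
  have hyx' : ∀ n i, ∑ k, y n k * g n k i = Δ n * x n i := by
    intro n i
    have := congrFun (hyx n) i
    simpa [Matrix.vecMul, dotProduct] using this
  have hex : ∀ᶠ n in (U : Filter ℕ), ∃ j, y n j ≠ 0 ∧ ∀ i, j < i → y n i = 0 := by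
    refine hx0.mono fun n hn => ?_
    have hne : (Finset.univ.filter fun j => y n j ≠ 0).Nonempty := by
      by_contra hemp
      rw [Finset.not_nonempty_iff_eq_empty, Finset.filter_eq_empty_iff] at hemp
      apply hn
      funext i
      have h1 := hyx' n i
      have h2 : ∑ k, y n k * g n k i = 0 := by
        refine Finset.sum_eq_zero fun k _ => ?_
        have := hemp (Finset.mem_univ k)
        rw [not_not] at this
        rw [this, zero_mul]
      rw [h2] at h1
      rcases mul_eq_zero.1 h1.symm with h | h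
      · exact absurd h (hΔ0 n)
      · exact h
    refine ⟨_, (Finset.mem_filter.1 (Finset.max'_mem _ hne)).2, ?_⟩
    intro i hi
    by_contra h0
    exact absurd (Finset.le_max' _ i (Finset.mem_filter.2 ⟨Finset.mem_univ i, h0⟩))
      (not_le.2 hi)
  obtain ⟨j, hj⟩ := ult_finite U hex
  -- replace `g j` by `x`
  have hdet' : ∀ᶠ n in (U : Filter ℕ), (Matrix.of (Function.update (g n) j (x n))).det ≠ 0 := by
    refine hj.mono fun n hn => ?_
    have h1 : ((Matrix.of (g n)).updateRow j (∑ k, y n k • (Matrix.of (g n)) k)).det =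
        y n j • (Matrix.of (g n)).det := Matrix.det_updateRow_sum _ _ _
    have h2 : (∑ k, y n k • (Matrix.of (g n)) k) = Δ n • x n := by
      funext i
      rw [Finset.sum_apply]
      simpa using hyx' n i
    rw [h2, Matrix.det_updateRow_smul] at h1
    have h3 : (Matrix.of (Function.update (g n) j (x n))).det =
        ((Matrix.of (g n)).updateRow j (x n)).det := rfl
    rw [h3]
    intro h4
    rw [h4, mul_zero] at h1
    have h5 : y n j * (Matrix.of (g n)).det = 0 := by simpa using h1.symm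
    rcases mul_eq_zero.1 h5 with h | h
    · exact hn.1 h
    · exact hg0 n h
  have hsum1 := par_sum_nonneg U (m := μ) hS hT hL (Eventually.of_forall hg0) hg
  have hsum2 := par_sum_nonneg U (m := Function.update μ j 0) hS hT hL hdet' (by
    filter_upwards [hg, hx] with n h1 h2
    intro k i
    by_cases hk : k = j
    · subst hk
      simp only [Function.update_self, add_zero]
      exact ⟨h2 0 (zero_mem_pl S) i, fun p hp => h2 p (mem_pl_of_mem hp) i⟩
    · simp only [Function.update_of_ne hk]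
      exact h1 k i)
  have hsum3 : ∑ k, Function.update μ j 0 k = ∑ k, μ k - μ j := by
    rw [Finset.sum_update_of_mem (Finset.mem_univ j),
      ← Finset.add_sum_erase Finset.univ μ (Finset.mem_univ j), Finset.sdiff_singleton_eq_erase]
    ring
  rw [hsum3] at hsum2
  have hμj : μ j ≤ η := by linarith
  -- the last one is large
  have hlast : σ / N ≤ μ ⟨N - 1, by omega⟩ := by
    rw [div_le_iff₀ (by linarith)]
    have h1 : ∑ k, μ k ≤ ∑ _k : Fin N, μ ⟨N - 1, by omega⟩ :=
      Finset.sum_le_sum fun k _ => hμ (by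
        rw [Fin.le_def]
        have := k.2
        simp only
        omega)
    rw [Finset.sum_const, Finset.card_univ, Fintype.card_fin, nsmul_eq_mul] at h1
    linarith
  -- a gap
  have hN0 : 0 < N := hN
  obtain ⟨i, hi1, hi2, hi3⟩ := par_jump (fun i => μ ⟨min i (N - 1), by omega⟩) δ j (N - 1)
    (by have := j.2; omega) (by
      have e1 : (⟨min (j : ℕ) (N - 1), by omega⟩ : Fin N) = j := by
        ext
        have := j.2
        simp only
        omega
      have e2 : (⟨min (N - 1) (N - 1), by omega⟩ : Fin N) = ⟨N - 1, by omega⟩ := by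
        ext
        simp
      rw [e1, e2]
      have e3 : ((N - 1 - (j : ℕ) : ℕ) : ℝ) ≤ N := by
        exact_mod_cast (by omega : N - 1 - (j : ℕ) ≤ N)
      have e4 : ((N - 1 - (j : ℕ) : ℕ) : ℝ) * δ ≤ N * δ :=
        mul_le_mul_of_nonneg_right e3 hδ0.le
      have e5 : (N : ℝ) * δ = σ / N / 2 := by
        rw [hδ]
        field_simp
      have e6 : η < σ / N / 2 := by
        rw [← e5, ← hηδ]
        have h2 : (2 : ℝ) ≤ 2 ^ (N + 1) := by
          rw [pow_succ]
          have : (1 : ℝ) ≤ 2 ^ N := one_le_pow₀ (by norm_num)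
          linarith
        have h3 : 2 * η ≤ 2 ^ (N + 1) * η := mul_le_mul_of_nonneg_right h2 hη0.le
        have h4 : 1 * (2 ^ (N + 1) * η) ≤ N * (2 ^ (N + 1) * η) :=
          mul_le_mul_of_nonneg_right hNr (by positivity)
        linarith
      have e7 : σ / N / 2 + σ / N / 2 = σ / N := by ring
      calc μ j + ((N - 1 - (j : ℕ) : ℕ) : ℝ) * δ ≤ η + N * δ := by linarith
        _ < σ / N := by linarith
        _ ≤ _ := hlast)
  obtain ⟨p, hp⟩ : ∃ p, N = (i + 1) + p := ⟨N - (i + 1), by omega⟩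
  have hgap : ∀ a b : Fin N, (a : ℕ) < i + 1 → i + 1 ≤ (b : ℕ) → μ a + δ ≤ μ b := by
    intro a b ha hb
    have h1 : μ a ≤ μ ⟨min i (N - 1), by omega⟩ := hμ (by
      rw [Fin.le_def]
      simp only
      have := a.2
      omega)
    have h2 : μ ⟨min (i + 1) (N - 1), by omega⟩ ≤ μ b := hμ (by
      rw [Fin.le_def]
      simp only
      omega)
    linarith
  have hp1 : 1 ≤ p := by omega
  have hb : (2 : ℝ) ^ (N + 1) * (∑ k, μ k + ∑ v ∈ pl S, ∑ i, c v i) ≤ δ := by
    rw [← hηδ]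
    exact mul_le_mul_of_nonneg_left hgs (by positivity)
  subst hp
  obtain ⟨w, hw0, hw⟩ := hB (i + 1) p S U T L c μ g δ (by omega) hp1 hS hT hL hμ hg0 hg hδ0
    hgap hb
  refine ⟨w, hw0, ?_⟩
  filter_upwards [hw, hj] with n h1 h2
  have h3 : Δ n * ∑ k, w k * x n k = 0 := by
    rw [Finset.mul_sum]
    calc ∑ k, Δ n * (w k * x n k) = ∑ k, w k * ∑ a, y n a * g n a k := by
          refine Finset.sum_congr rfl fun k _ => ?_
          rw [hyx' n k]
          ring
      _ = ∑ a, y n a * ∑ k, w k * g n a k := by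
          simp only [Finset.mul_sum]
          rw [Finset.sum_comm]
          exact Finset.sum_congr rfl fun a _ => Finset.sum_congr rfl fun k _ => by ring
      _ = 0 := by
          refine Finset.sum_eq_zero fun a _ => ?_
          by_cases ha : (a : ℕ) < i + 1
          · rw [h1 a ha, mul_zero]
          · rw [h2.2 a (by rw [Fin.lt_def]; omega), zero_mul]
  rcases mul_eq_zero.1 h3 with h | h
  · exact absurd h (hΔ0 n)
  · exact h

end Pool.Agent.SBT
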