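import Pool.Agent.SBT.StmtsBC

/-!
# Squad SBT, module RD1: from the basis `g` to the standard coordinates
-/

set_option autoImplicit false

namespace Pool.Agent.SBT

open Filter

namespace RD1_

open MvPolynomial

/-- the coordinates of the standard basis in the basis `g`, `e k` -/
lemma coords {M : ℕ} (w : Fin (M + 1) → ℤ) (g : Fin M → Fin (M + 1) → ℤ) (k : Fin (M + 1))
    (hw : w k ≠ 0) (ho : ∀ j, ∑ i, w i * g j i = 0)
    (hl : LinearIndependent ℚ (fun j : Fin M => fun i => (g j i : ℚ))) :
    ∃ a : Fin M → Fin (M + 1) → ℚ, ∀ i l : Fin (M + 1),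
      ∑ j, a j i * (g j l : ℚ) + (if l = k then (w i : ℚ) / w k else 0) =
        if i = l then 1 else 0 := by
  have hw' : (w k : ℚ) ≠ 0 := by exact_mod_cast hw
  -- the functional `w`
  let W : (Fin (M + 1) → ℚ) →ₗ[ℚ] ℚ :=
    ∑ i, (w i : ℚ) • (LinearMap.proj i : (Fin (M + 1) → ℚ) →ₗ[ℚ] ℚ)
  have hW : ∀ x, W x = ∑ i, (w i : ℚ) * x i := by
    intro x
    simp [W, LinearMap.sum_apply]
  have hWg : ∀ j : Fin M, W (fun i => (g j i : ℚ)) = 0 := by
    intro j
    rw [hW]
    exact_mod_cast ho j
  have hWk : W (Pi.single k 1) = w k := by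
    rw [hW]
    simp [Pi.single_apply]
  have hnot : (Pi.single k 1 : Fin (M + 1) → ℚ) ∉
      Submodule.span ℚ (Set.range (fun j : Fin M => fun i => (g j i : ℚ))) := by
    intro hmem
    have h1 : Submodule.span ℚ (Set.range (fun j : Fin M => fun i => (g j i : ℚ))) ≤
        LinearMap.ker W := by
      rw [Submodule.span_le]
      rintro _ ⟨j, rfl⟩
      exact hWg j
    have h2 := h1 hmem
    rw [LinearMap.mem_ker, hWk] at h2
    exact hw' h2
  have hli : LinearIndependent ℚ (Fin.cons (Pi.single k 1 : Fin (M + 1) → ℚ)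
      (fun j : Fin M => fun i => (g j i : ℚ)) : Fin (M + 1) → (Fin (M + 1) → ℚ)) :=
    linearIndependent_finCons.2 ⟨hl, hnot⟩
  have htop := hli.span_eq_top_of_card_eq_finrank (by simp)
  have hex : ∀ i : Fin (M + 1), ∃ c : Fin (M + 1) → ℚ,
      ∑ j, c j • (Fin.cons (Pi.single k 1 : Fin (M + 1) → ℚ)
      (fun j : Fin M => fun i => (g j i : ℚ)) : Fin (M + 1) → (Fin (M + 1) → ℚ)) j =
      Pi.single i 1 := by
    intro i
    have : (Pi.single i 1 : Fin (M + 1) → ℚ) ∈ Submodule.span ℚ (Set.range
        (Fin.cons (Pi.single k 1 : Fin (M + 1) → ℚ)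
          (fun j : Fin M => fun i => (g j i : ℚ)) : Fin (M + 1) → (Fin (M + 1) → ℚ))) := by
      rw [htop]
      trivial
    exact (Submodule.mem_span_range_iff_exists_fun ℚ).1 this
  choose c hc using hex
  refine ⟨fun j i => c i j.succ, fun i l => ?_⟩
  have h1 := hc i
  rw [Fin.sum_univ_succ] at h1
  simp only [Fin.cons_zero, Fin.cons_succ] at h1
  have h2 : c i 0 * (w k : ℚ) = w i := by
    have h3 := congrArg W h1
    rw [map_add, map_smul, hWk, map_sum] at h3
    simp only [map_smul, hWg, smul_eq_mul, mul_zero, Finset.sum_const_zero, add_zero] at h3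
    rw [h3, hW]
    simp [Pi.single_apply]
  have h4 := congrFun h1 l
  simp only [Pi.add_apply, Pi.smul_apply, Finset.sum_apply, smul_eq_mul, Pi.single_apply] at h4
  have h5 : c i 0 = (w i : ℚ) / w k := by
    rw [eq_div_iff hw', h2]
  rw [h5] at h4
  rw [add_comm]
  have h6 : (if i = l then (1 : ℚ) else 0) = if l = i then 1 else 0 := by
    by_cases h : i = l
    · simp [h]
    · simp [h, Ne.symm h]
  rw [h6, ← h4]
  by_cases h : l = k
  · simp [h]
  · simp [h]

end RD1_

open RD1_ MvPolynomial in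
theorem rd1_proof : Stmt_RD1 := by
  intro m M d P w g k τ hw ho hl hphi e he
  choose a ha using fun h => coords (w h) (g h) (k h) (hw h) (ho h) (hl h)
  -- the substitution `psi`
  set y : Fin m × Fin (M + 1) → MvPolynomial (Fin m × Fin (M + 1)) ℚ :=
    fun hi => if hi.2 = k hi.1 then MvPolynomial.X hi -
      ∑ i ∈ Finset.univ.erase (k hi.1),
        MvPolynomial.C ((w hi.1 i : ℚ) / w hi.1 (k hi.1)) * MvPolynomial.X (hi.1, i)
    else MvPolynomial.X hi with hy
  have hwy : ∀ h, ∑ i, C ((w h i : ℚ) / w h (k h)) * y (h, i) = X (h, k h) := by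
    intro h
    have hw' : (w h (k h) : ℚ) ≠ 0 := by exact_mod_cast hw h
    rw [← Finset.add_sum_erase Finset.univ _ (Finset.mem_univ (k h))]
    have h1 : ∀ i ∈ Finset.univ.erase (k h), C ((w h i : ℚ) / w h (k h)) * y (h, i) =
        C ((w h i : ℚ) / w h (k h)) * X (h, i) := by
      intro i hi
      have hne : i ≠ k h := Finset.ne_of_mem_erase hi
      simp only [hy]
      rw [if_neg hne]
    rw [Finset.sum_congr rfl h1]
    simp only [hy, if_true]
    rw [div_self hw', C_1, one_mul, sub_add_cancel]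
  let Θ : MvPolynomial ((Fin m × Fin M) ⊕ Fin m) ℚ →ₐ[ℚ] MvPolynomial (Fin m × Fin (M + 1)) ℚ :=
    bind₁ (Sum.elim (fun hj : Fin m × Fin M => ∑ i, C (a hj.1 hj.2 i) * y (hj.1, i))
      (fun h => X (h, k h)))
  have hkey : Θ (toQ (phi g k P)) = psi w k (toQ P) := by
    have h1 : toQ (phi g k P) = bind₁ (fun hk : Fin m × Fin (M + 1) =>
        (∑ j, C ((g hk.1 j hk.2 : ℤ) : ℚ) * X (Sum.inl (hk.1, j))) +
          if hk.2 = k hk.1 then X (Sum.inr hk.1) else 0) (toQ P) := by
      unfold toQ phi
      rw [map_bind₁]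
      congr 2
      funext hk
      rw [map_add, map_sum]
      congr 1
      · refine Finset.sum_congr rfl fun j _ => ?_
        rw [map_mul, map_C, map_X]
        simp
      · split_ifs
        · rw [map_X]
        · rw [map_zero]
    rw [h1]
    unfold psi
    simp only [Θ]
    rw [bind₁_bind₁]
    congr 2
    funext hl
    obtain ⟨h, l⟩ := hl
    change _ = y (h, l)
    simp only [map_add, map_sum, map_mul, algHom_C, bind₁_X_right, Sum.elim_inl]
    have h2 : (bind₁ (Sum.elim (fun hj : Fin m × Fin M => ∑ i, C (a hj.1 hj.2 i) * y (hj.1, i))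
        (fun h => X (h, k h)))) (if l = k h then (X (Sum.inr h) : MvPolynomial
          ((Fin m × Fin M) ⊕ Fin m) ℚ) else 0) = if l = k h then X (h, k h) else 0 := by
      split_ifs
      · rw [bind₁_X_right]
        rfl
      · rw [map_zero]
    rw [h2]
    have h3 : ∑ j, (algebraMap ℚ (MvPolynomial (Fin m × Fin (M + 1)) ℚ)) ((g h j l : ℤ) : ℚ) *
        ∑ i, C (a h j i) * y (h, i) =
        ∑ i, C (∑ j, a h j i * (g h j l : ℚ)) * y (h, i) := by
      simp only [Finset.mul_sum, map_sum, Finset.sum_mul]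
      rw [Finset.sum_comm]
      refine Finset.sum_congr rfl fun i _ => Finset.sum_congr rfl fun j _ => ?_
      rw [algebraMap_eq, map_mul]
      ring
    rw [h3]
    have h4 : ∀ i, ∑ j, a h j i * (g h j l : ℚ) =
        (if i = l then 1 else 0) - (if l = k h then (w h i : ℚ) / w h (k h) else 0) := by
      intro i
      rw [← ha h i l]
      ring
    simp only [h4, map_sub, sub_mul, Finset.sum_sub_distrib]
    have h5 : ∑ i, C (if i = l then (1 : ℚ) else 0) * y (h, i) = y (h, l) := by
      rw [Finset.sum_eq_single l]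
      · simp
      · intro b _ hb
        simp [hb]
      · intro hb
        exact absurd (Finset.mem_univ l) hb
    rw [h5]
    by_cases hlk : l = k h
    · simp only [hlk, if_true]
      rw [hwy h]
      ring
    · simp [hlk]
  rw [← hkey] at he
  -- support
  rw [(toQ (phi g k P)).as_sum, map_sum] at he
  have h1 := MvPolynomial.support_sum he
  rw [Finset.mem_biUnion] at h1
  obtain ⟨s, hs, hse⟩ := h1
  have hs' : s ∈ (phi g k P).support := by
    unfold toQ at hs
    exact support_map_subset _ _ hs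
  have h2 := hphi s hs'
  have h3 : ∀ h, s (Sum.inr h) ≤ e (h, k h) := by
    have h4 : Θ (monomial s (coeff s (toQ (phi g k P)))) =
        (C (coeff s (toQ (phi g k P))) * ∏ hj : Fin m × Fin M,
          (∑ i, C (a hj.1 hj.2 i) * y (hj.1, i)) ^ s (Sum.inl hj)) *
          monomial (∑ h, Finsupp.single (h, k h) (s (Sum.inr h))) (1 : ℚ) := by
      simp only [Θ]
      rw [bind₁_monomial]
      rw [mul_assoc]
      congr 1
      have h5 : ∏ i ∈ s.support, (Sum.elim (fun hj : Fin m × Fin M =>
          ∑ i, C (a hj.1 hj.2 i) * y (hj.1, i)) (fun h => X (h, k h)) i) ^ s i =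
          ∏ i, (Sum.elim (fun hj : Fin m × Fin M =>
          ∑ i, C (a hj.1 hj.2 i) * y (hj.1, i)) (fun h => X (h, k h)) i) ^ s i := by
        refine Finset.prod_subset (Finset.subset_univ _) ?_
        intro x _ hx
        rw [Finsupp.notMem_support_iff] at hx
        rw [hx, pow_zero]
      rw [h5, Fintype.prod_sum_type]
      simp only [Sum.elim_inl, Sum.elim_inr]
      congr 1
      rw [monomial_sum_one]
      refine Finset.prod_congr rfl fun h _ => ?_
      rw [X_pow_eq_monomial]
    rw [h4] at hse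
    have h5 := MvPolynomial.support_mul _ _ hse
    rw [Finset.mem_add] at h5
    obtain ⟨e1, he1, e2, he2, rfl⟩ := h5
    have h6 := MvPolynomial.support_monomial_subset he2
    rw [Finset.mem_singleton] at h6
    intro h
    rw [Finsupp.add_apply, h6, Finsupp.finsetSum_apply]
    have h7 : Finsupp.single (h, k h) (s (Sum.inr h)) (h, k h) ≤
        ∑ h', (Finsupp.single (h', k h') (s (Sum.inr h'))) (h, k h) :=
      Finset.single_le_sum (f := fun h' => (Finsupp.single (h', k h') (s (Sum.inr h'))) (h, k h))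
        (fun _ _ => Nat.zero_le _) (Finset.mem_univ h)
    rw [Finsupp.single_eq_same] at h7
    omega
  refine lt_of_lt_of_le h2 (Finset.sum_le_sum fun h _ => ?_)
  have := h3 h
  gcongr

end Pool.Agent.SBT
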