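import Pool.Agent.SBT.StmtsBC

/-!
# RD2: the lowest part in the other variables
-/

set_option autoImplicit false

namespace Pool.Agent.SBT

open MvPolynomial

namespace RD2w

/-- the exponent of the variables `(h, k h)` -/
noncomputable def kk {m M : ℕ} (k : Fin m → Fin (M + 1)) (f : (Fin m × Fin (M + 1)) →₀ ℕ) :
    Fin m →₀ ℕ :=
  Finsupp.equivFunOnFinite.symm (fun h => f (h, k h))

/-- `x` is one of the other variables -/
def Ot {m M : ℕ} (k l : Fin m → Fin (M + 1)) (x : Fin m × Fin (M + 1)) : Prop :=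
  x.2 ≠ k x.1 ∧ x.2 ≠ l x.1

/-- `f` and `a` agree on the other variables -/
def Ag {m M : ℕ} (k l : Fin m → Fin (M + 1)) (f a : (Fin m × Fin (M + 1)) →₀ ℕ) : Prop :=
  ∀ x, Ot k l x → f x = a x

open Classical in
/-- the linear map -/
noncomputable def Ph {m M : ℕ} (k l : Fin m → Fin (M + 1)) (a : (Fin m × Fin (M + 1)) →₀ ℕ) :
    MvPolynomial (Fin m × Fin (M + 1)) ℚ →ₗ[ℚ] MvPolynomial (Fin m) ℚ :=
  (basisMonomials (Fin m × Fin (M + 1)) ℚ).constr ℚ
    (fun f => if Ag k l f a then monomial (kk k f) 1 else 0)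

open Classical in
theorem Ph_mon {m M : ℕ} (k l : Fin m → Fin (M + 1)) (a f : (Fin m × Fin (M + 1)) →₀ ℕ)
    (c : ℚ) : Ph k l a (monomial f c) = if Ag k l f a then monomial (kk k f) c else 0 := by
  have h1 : (monomial f c : MvPolynomial (Fin m × Fin (M + 1)) ℚ) = c • monomial f 1 := by
    rw [smul_monomial]
    simp
  have h2 : Ph k l a (monomial f 1) = if Ag k l f a then monomial (kk k f) 1 else 0 := by
    have h3 := (basisMonomials (Fin m × Fin (M + 1)) ℚ).constr_basis ℚ
      (fun f => if Ag k l f a then monomial (kk k f) (1 : ℚ) else 0) f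
    rw [coe_basisMonomials] at h3
    exact h3
  rw [h1, map_smul, h2]
  split_ifs with h
  · rw [smul_monomial]
    simp
  · simp

/-- the substitution `X (h, k h) ↦ X h`, `X (h, l h) ↦ 1`, the others `↦ 0` -/
noncomputable def rh {m M : ℕ} (k l : Fin m → Fin (M + 1)) :
    MvPolynomial (Fin m × Fin (M + 1)) ℚ →ₐ[ℚ] MvPolynomial (Fin m) ℚ :=
  aeval (fun x : Fin m × Fin (M + 1) =>
    if x.2 = k x.1 then X x.1 else if x.2 = l x.1 then 1 else 0)

theorem kk_add {m M : ℕ} (k : Fin m → Fin (M + 1)) (f g : (Fin m × Fin (M + 1)) →₀ ℕ) :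
    kk k (f + g) = kk k f + kk k g := by
  ext h
  simp [kk]

open Classical in
theorem rh_mon {m M : ℕ} (k l : Fin m → Fin (M + 1)) (f : (Fin m × Fin (M + 1)) →₀ ℕ) (c : ℚ) :
    rh k l (monomial f c) = if Ag k l f 0 then monomial (kk k f) c else 0 := by
  rw [rh, aeval_monomial, Finsupp.prod_fintype _ _ (fun i => pow_zero _)]
  split_ifs with h
  · rw [monomial_eq, Finsupp.prod_fintype _ _ (fun i => pow_zero _), Fintype.prod_prod_type]
    congr 1
    refine Finset.prod_congr rfl fun i _ => ?_
    rw [Finset.prod_eq_single (k i)]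
    · simp [kk]
    · intro j _ hj
      rw [if_neg hj]
      by_cases hl : j = l i
      · rw [if_pos hl, one_pow]
      · have := h (i, j) ⟨hj, hl⟩
        rw [this]
        simp
    · intro hh
      exact absurd (Finset.mem_univ _) hh
  · unfold Ag at h
    push Not at h
    obtain ⟨x, hx1, hx2⟩ := h
    rw [Finset.prod_eq_zero (Finset.mem_univ x), mul_zero]
    rw [if_neg hx1.1, if_neg hx1.2]
    exact zero_pow (by simpa using hx2)

open Classical in
/-- the total degree in the other variables -/
noncomputable def td {m M : ℕ} (k l : Fin m → Fin (M + 1)) (f : (Fin m × Fin (M + 1)) →₀ ℕ) : ℕ :=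
  ∑ x, if Ot k l x then f x else 0

open Classical in
theorem keyA {m M : ℕ} (k l : Fin m → Fin (M + 1))
    (a b : (Fin m × Fin (M + 1)) →₀ ℕ) (hb : ∀ x, ¬ Ot k l x → b x = 0)
    (hab : td k l a ≤ td k l b) (G : MvPolynomial (Fin m × Fin (M + 1)) ℚ) :
    Ph k l a (monomial b 1 * G) = if Ag k l b a then rh k l G else 0 := by
  induction G using MvPolynomial.induction_on' with
  | monomial f c =>
    rw [monomial_mul, one_mul, Ph_mon, rh_mon]
    have hk : kk k (b + f) = kk k f := by
      rw [kk_add]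
      have : kk k b = 0 := by
        ext h
        simp only [kk, Finsupp.equivFunOnFinite_symm_apply_apply, Finsupp.coe_zero, Pi.zero_apply]
        exact hb _ (fun hh => hh.1 rfl)
      rw [this, zero_add]
    rw [hk]
    by_cases h1 : Ag k l b a
    · rw [if_pos h1]
      by_cases h2 : Ag k l f 0
      · rw [if_pos h2, if_pos]
        intro x hx
        have e1 := h1 x hx
        have e2 := h2 x hx
        simp only [Finsupp.coe_add, Pi.add_apply, Finsupp.coe_zero, Pi.zero_apply] at e2 ⊢
        omega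
      · rw [if_neg h2, if_neg]
        intro h3
        apply h2
        intro x hx
        have e1 := h1 x hx
        have e2 := h3 x hx
        simp only [Finsupp.coe_add, Pi.add_apply, Finsupp.coe_zero, Pi.zero_apply] at e2 ⊢
        omega
    · rw [if_neg h1, if_neg]
      intro h3
      apply h1
      have h4 : ∀ x ∈ (Finset.univ : Finset (Fin m × Fin (M + 1))),
          (if Ot k l x then b x else 0) ≤ (if Ot k l x then a x else 0) := by
        intro x _
        split_ifs with hx
        · have := h3 x hx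
          simp only [Finsupp.coe_add, Pi.add_apply] at this
          omega
        · exact le_rfl
      have h5 : ∑ x, (if Ot k l x then b x else 0) = ∑ x, (if Ot k l x then a x else 0) :=
        le_antisymm (Finset.sum_le_sum h4) hab
      have h6 := (Finset.sum_eq_sum_iff_of_le h4).1 h5
      intro x hx
      have h7 := h6 x (Finset.mem_univ x)
      rw [if_pos hx, if_pos hx] at h7
      exact h7
  | add p q hp hq =>
    rw [mul_add, map_add, hp, hq]
    split_ifs with h
    · rw [map_add]
    · rw [add_zero]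

/-- the substitution of `psi` -/
noncomputable def Fs {m M : ℕ} (w : Fin m → Fin (M + 1) → ℤ) (k : Fin m → Fin (M + 1))
    (hi : Fin m × Fin (M + 1)) : MvPolynomial (Fin m × Fin (M + 1)) ℚ :=
  if hi.2 = k hi.1 then MvPolynomial.X hi -
      ∑ i ∈ Finset.univ.erase (k hi.1),
        MvPolynomial.C ((w hi.1 i : ℚ) / w hi.1 (k hi.1)) * MvPolynomial.X (hi.1, i)
    else MvPolynomial.X hi

theorem rh_X {m M : ℕ} (k l : Fin m → Fin (M + 1)) (x : Fin m × Fin (M + 1)) :
    rh k l (X x) = if x.2 = k x.1 then X x.1 else if x.2 = l x.1 then 1 else 0 := by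
  rw [rh, aeval_X]

theorem rh_Fk {m M : ℕ} (w : Fin m → Fin (M + 1) → ℤ) (k l : Fin m → Fin (M + 1))
    (hkl : ∀ h, k h ≠ l h) (h : Fin m) :
    rh k l (Fs w k (h, k h)) = X h + C (-(w h (l h) : ℚ) / w h (k h)) := by
  unfold Fs
  rw [if_pos rfl, map_sub, map_sum, rh_X, if_pos rfl, Finset.sum_eq_single (l h)]
  · rw [map_mul, rh_X, if_neg (fun e => hkl h e.symm), if_pos rfl, mul_one]
    have : rh k l (C ((w h (l h) : ℚ) / w h (k h))) = C ((w h (l h) : ℚ) / w h (k h)) := by
      rw [rh, aeval_C]
      rfl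
    simp only [this]
    rw [neg_div, map_neg, sub_eq_add_neg]
  · intro i hi hil
    rw [map_mul, rh_X, if_neg (Finset.ne_of_mem_erase hi), if_neg hil, mul_zero]
  · intro hh
    exact absurd (Finset.mem_erase.2 ⟨(hkl h).symm, Finset.mem_univ _⟩) hh

theorem bindm {σ τ : Type} [Fintype σ] (F : σ → MvPolynomial τ ℚ) (s : σ →₀ ℕ) (c : ℚ) :
    bind₁ F (monomial s c) = C c * ∏ x, F x ^ s x := by
  rw [bind₁_monomial]
  congr 1
  refine Finset.prod_subset (Finset.subset_univ _) fun x _ hx => ?_
  rw [Finsupp.notMem_support_iff.1 hx, pow_zero]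

open Classical in
theorem keyB {m M : ℕ} (w : Fin m → Fin (M + 1) → ℤ) (k l : Fin m → Fin (M + 1))
    (hkl : ∀ h, k h ≠ l h) (a s : (Fin m × Fin (M + 1)) →₀ ℕ) (c : ℚ)
    (hab : td k l a ≤ td k l s) :
    Ph k l a (psi w k (monomial s c)) =
      tr (fun h => -(w h (l h) : ℚ) / w h (k h)) (Ph k l a (monomial s c)) := by
  have e1 : psi w k (monomial s c) = C c * ∏ x, Fs w k x ^ s x := by
    unfold psi
    rw [bindm]
    rfl
  have e2 : ∏ x, Fs w k x ^ s x =
      monomial (s.filter (fun x => Ot k l x)) 1 * ∏ x, (if Ot k l x then 1 else Fs w k x ^ s x) := by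
    rw [monomial_eq, Finsupp.prod_fintype _ _ (fun i => pow_zero _), map_one, one_mul,
      ← Finset.prod_mul_distrib]
    refine Finset.prod_congr rfl fun x _ => ?_
    by_cases hx : Ot k l x
    · rw [if_pos hx, mul_one, Finsupp.filter_apply_pos _ _ hx]
      unfold Fs
      rw [if_neg hx.1]
    · rw [if_neg hx, Finsupp.filter_apply_neg _ _ hx, pow_zero, one_mul]
  have e3 : psi w k (monomial s c) = monomial (s.filter (fun x => Ot k l x)) 1 *
      (C c * ∏ x, (if Ot k l x then 1 else Fs w k x ^ s x)) := by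
    rw [e1, e2]
    ring
  have htd : td k l (s.filter (fun x => Ot k l x)) = td k l s := by
    unfold td
    refine Finset.sum_congr rfl fun x _ => ?_
    split_ifs with hx
    · exact Finsupp.filter_apply_pos _ _ hx
    · rfl
  have hAg : Ag k l (s.filter (fun x => Ot k l x)) a ↔ Ag k l s a := by
    unfold Ag
    refine forall_congr' fun x => forall_congr' fun hx => ?_
    rw [Finsupp.filter_apply_pos _ _ hx]
  rw [e3, keyA k l a _ (fun x hx => Finsupp.filter_apply_neg _ _ hx) (by rw [htd]; exact hab),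
    Ph_mon]
  by_cases hA : Ag k l s a
  · rw [if_pos (hAg.2 hA), if_pos hA]
    unfold tr
    rw [bindm, map_mul, map_prod, Fintype.prod_prod_type]
    have hC : rh k l (C c) = C c := by
      rw [rh, aeval_C]
      rfl
    rw [hC]
    congr 1
    refine Finset.prod_congr rfl fun h _ => ?_
    rw [Finset.prod_eq_single (k h)]
    · rw [if_neg (fun hh => hh.1 rfl), map_pow, rh_Fk w k l hkl]
      simp [kk]
    · intro i _ hi
      by_cases hx : Ot k l (h, i)
      · rw [if_pos hx, map_one]
      · rw [if_neg hx, map_pow]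
        have hil : i = l h := by
          by_contra hne
          exact hx ⟨hi, hne⟩
        unfold Fs
        rw [if_neg hi, rh_X, if_neg hi, if_pos hil, one_pow]
    · intro hh
      exact absurd (Finset.mem_univ _) hh
  · rw [if_neg (fun hh => hA (hAg.1 hh)), if_neg hA]
    unfold tr
    rw [map_zero]

open Classical in
theorem coeff_Ph {m M : ℕ} (k l : Fin m → Fin (M + 1)) (a : (Fin m × Fin (M + 1)) →₀ ℕ)
    (G : MvPolynomial (Fin m × Fin (M + 1)) ℚ) (e : Fin m →₀ ℕ) (he : coeff e (Ph k l a G) ≠ 0) :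
    ∃ f ∈ G.support, Ag k l f a ∧ kk k f = e := by
  by_contra hcon
  push Not at hcon
  apply he
  conv_lhs => rw [← support_sum_monomial_coeff G]
  rw [map_sum, coeff_sum]
  refine Finset.sum_eq_zero fun f hf => ?_
  rw [Ph_mon]
  split_ifs with h
  · rw [coeff_monomial, if_neg (hcon f hf h)]
  · rw [coeff_zero]

end RD2w

open RD2w

open Classical in
theorem rd2_proof : Stmt_RD2 := by
  intro m M d P w k l τ B hP hMH hkl hw hHB hps
  have hB : 0 ≤ B := le_trans (abs_nonneg _) (hHB 0)
  obtain ⟨s₀, hs₀, hmin⟩ := Finset.exists_min_image P.support (td k l) (support_nonempty.2 hP)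
  set Fl := P.support.filter (fun f => Ag k l f s₀) with hFl
  set p : MvPolynomial (Fin m) ℤ := ∑ f ∈ Fl, monomial (kk k f) (coeff f P) with hp
  -- injectivity
  have hinj : ∀ f ∈ Fl, ∀ g ∈ Fl, kk k f = kk k g → f = g := by
    intro f hf g hg hfg
    rw [hFl, Finset.mem_filter] at hf hg
    have hk1 : ∀ h, f (h, k h) = g (h, k h) := by
      intro h
      have := DFunLike.congr_fun hfg h
      simpa [kk] using this
    have hne : ∀ h i, i ≠ l h → f (h, i) = g (h, i) := by
      intro h i hi
      by_cases hik : i = k h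
      · rw [hik]
        exact hk1 h
      · rw [hf.2 (h, i) ⟨hik, hi⟩, hg.2 (h, i) ⟨hik, hi⟩]
    ext ⟨h, i⟩
    by_cases hi : i = l h
    · have e1 := hMH f hf.1 h
      have e2 := hMH g hg.1 h
      rw [← Finset.add_sum_erase _ _ (Finset.mem_univ (l h))] at e1 e2
      have e3 : ∑ x ∈ Finset.univ.erase (l h), f (h, x) = ∑ x ∈ Finset.univ.erase (l h), g (h, x) :=
        Finset.sum_congr rfl fun x hx => hne h x (Finset.ne_of_mem_erase hx)
      rw [hi]
      omega
    · exact hne h i hi
  have hco : ∀ f ∈ Fl, coeff (kk k f) p = coeff f P := by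
    intro f hf
    rw [hp, coeff_sum, Finset.sum_eq_single f]
    · rw [coeff_monomial, if_pos rfl]
    · intro g hg hgf
      rw [coeff_monomial, if_neg]
      intro hh
      exact hgf (hinj g hg f hf hh)
    · intro hh
      exact absurd hf hh
  have hco0 : ∀ e, coeff e p ≠ 0 → ∃ f ∈ Fl, kk k f = e := by
    intro e he
    by_contra hcon
    push Not at hcon
    apply he
    rw [hp, coeff_sum]
    refine Finset.sum_eq_zero fun f hf => ?_
    rw [coeff_monomial, if_neg (hcon f hf)]
  have hs₀F : s₀ ∈ Fl := by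
    rw [hFl, Finset.mem_filter]
    exact ⟨hs₀, fun x _ => rfl⟩
  have hkey : Ph k l s₀ (psi w k (toQ P)) =
      tr (fun h => -(w h (l h) : ℚ) / w h (k h)) (toQ p) := by
    have e1 : toQ P = ∑ f ∈ P.support, monomial f ((coeff f P : ℤ) : ℚ) := by
      conv_lhs => rw [← support_sum_monomial_coeff P]
      unfold toQ
      rw [map_sum]
      refine Finset.sum_congr rfl fun f _ => ?_
      rw [map_monomial]
      rfl
    have e2 : toQ p = Ph k l s₀ (toQ P) := by
      rw [e1, map_sum, hp]
      unfold toQ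
      rw [map_sum, hFl, Finset.sum_filter]
      refine Finset.sum_congr rfl fun f _ => ?_
      rw [Ph_mon]
      split_ifs with h
      · rw [map_monomial]
        rfl
      · rfl
    rw [e2, e1]
    have e3 : psi w k (∑ f ∈ P.support, monomial f ((coeff f P : ℤ) : ℚ)) =
        ∑ f ∈ P.support, psi w k (monomial f ((coeff f P : ℤ) : ℚ)) := by
      unfold psi
      rw [map_sum]
    rw [e3, map_sum, map_sum]
    have e4 : tr (fun h => -(w h (l h) : ℚ) / w h (k h))
        (∑ f ∈ P.support, Ph k l s₀ (monomial f ((coeff f P : ℤ) : ℚ))) =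
        ∑ f ∈ P.support, tr (fun h => -(w h (l h) : ℚ) / w h (k h))
          (Ph k l s₀ (monomial f ((coeff f P : ℤ) : ℚ))) := by
      unfold tr
      rw [map_sum]
    rw [e4]
    exact Finset.sum_congr rfl fun f hf => keyB w k l hkl s₀ f _ (hmin f hf)
  refine ⟨p, ?_, ?_, ?_, ?_⟩
  · intro h0
    have := hco s₀ hs₀F
    rw [h0, coeff_zero] at this
    exact (mem_support_iff.1 hs₀) this.symm
  · intro h
    rw [degreeOf_le_iff]
    intro e he
    obtain ⟨f, hf, hfe⟩ := hco0 e (mem_support_iff.1 he)
    rw [hFl, Finset.mem_filter] at hf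
    rw [← hfe]
    have e1 := hMH f hf.1 h
    have e2 : f (h, k h) ≤ ∑ x, f (h, x) :=
      Finset.single_le_sum (f := fun x => f (h, x)) (fun _ _ => Nat.zero_le _)
        (Finset.mem_univ (k h))
    simp only [kk, Finsupp.equivFunOnFinite_symm_apply_apply]
    omega
  · intro e
    by_cases he : coeff e p = 0
    · rw [he]
      simpa using hB
    · obtain ⟨f, hf, hfe⟩ := hco0 e he
      rw [← hfe, hco f hf]
      exact hHB f
  · intro e he
    rw [← hkey] at he
    obtain ⟨f, hf, -, hfe⟩ := coeff_Ph k l s₀ _ e (mem_support_iff.1 he)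
    have h1 := hps f hf
    unfold wt
    rw [← hfe]
    simpa [kk] using h1

end Pool.Agent.SBT
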