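import Pool.Agent.SBT.StmtsBC

/-!
# SBT (MP_57632f_nt), module RED: reduction to one variable per block
-/

set_option autoImplicit false

namespace Pool.Agent.SBT

theorem red_proof (hRD1 : Stmt_RD1) (hRD2 : Stmt_RD2) : Stmt_RED := by
  intro m M d P w g k l τ B hP hMH hkl hw hwg hli hHB hphi
  exact hRD2 m M d P w k l τ B hP hMH hkl hw hHB (hRD1 m M d P w g k τ hw hwg hli hphi)

end Pool.Agent.SBT
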