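import Pool.Agent.SBT.Stmts

/-!
# RT1: the order of vanishing at a rational point
-/

set_option autoImplicit false

namespace Pool.Agent.SBT

open Polynomial

theorem rt1_proof : Stmt_RT1 := by
  intro P β A hP hA
  classical
  have hinj : Function.Injective (Int.castRingHom ℚ) := RingHom.injective_int _
  have hR0 : P.map (Int.castRingHom ℚ) ≠ 0 := (Polynomial.map_ne_zero_iff hinj).2 hP
  have hback : ((P.map (Int.castRingHom ℚ)).comp (X + C β)).comp (X - C β) =
      P.map (Int.castRingHom ℚ) := by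
    rw [comp_assoc]
    simp
  have hQ0 : (P.map (Int.castRingHom ℚ)).comp (X + C β) ≠ 0 := by
    intro h
    apply hR0
    rw [← hback, h, zero_comp]
  obtain ⟨Q, hQ⟩ : ∃ Q, Q = (P.map (Int.castRingHom ℚ)).comp (X + C β) := ⟨_, rfl⟩
  obtain ⟨e, he⟩ : ∃ e, e = Q.natTrailingDegree := ⟨_, rfl⟩
  have hQ0' : Q ≠ 0 := by rwa [hQ]
  refine ⟨e, ?_, ?_⟩
  · rw [← hQ, he]
    exact mem_support_iff.1 (natTrailingDegree_mem_support_of_nonzero hQ0')
  · have h1 : X ^ e ∣ Q := by
      rw [X_pow_dvd_iff]
      intro d hd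
      exact coeff_eq_zero_of_lt_natTrailingDegree (by rw [← he]; exact hd)
    have h2 : (X - C β) ^ e ∣ P.map (Int.castRingHom ℚ) := by
      obtain ⟨R, hR⟩ := h1
      refine ⟨R.comp (X - C β), ?_⟩
      rw [← hback, ← hQ, hR, mul_comp, X_pow_comp]
    have hden : (0 : ℤ) < (β.den : ℤ) := by exact_mod_cast β.den_pos
    have hdenQ : (β.den : ℚ) ≠ 0 := by exact_mod_cast β.den_ne_zero
    obtain ⟨L, hL⟩ : ∃ L : ℤ[X], L = C (β.den : ℤ) * X - C β.num := ⟨_, rfl⟩
    have hLmap : L.map (Int.castRingHom ℚ) = C (β.den : ℚ) * (X - C β) := by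
      rw [hL]
      simp only [Polynomial.map_sub, Polynomial.map_mul, Polynomial.map_C, Polynomial.map_X,
        mul_sub, ← C_mul]
      congr 2
      simp only [Int.coe_castRingHom]
      rw [Rat.den_mul_eq_num]
    have hc0 : L.coeff 0 = -β.num := by
      rw [hL, coeff_sub, coeff_C_mul, coeff_X_zero, coeff_C_zero, mul_zero, zero_sub]
    have hc1 : L.coeff 1 = (β.den : ℤ) := by
      rw [hL, coeff_sub, coeff_C_mul, coeff_X_one, coeff_C_succ, mul_one, sub_zero]
    have hLdeg : L.natDegree = 1 := by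
      apply le_antisymm
      · rw [hL]
        refine (natDegree_sub_le _ _).trans (max_le ?_ ?_)
        · exact (natDegree_C_mul_le _ _).trans natDegree_X_le
        · rw [natDegree_C]
          exact Nat.zero_le _
      · apply le_natDegree_of_ne_zero
        rw [hc1]
        exact hden.ne'
    have hLlead : L.leadingCoeff = (β.den : ℤ) := by
      rw [leadingCoeff, hLdeg, hc1]
    have hLprim : L.IsPrimitive := by
      intro r hr
      rw [C_dvd_iff_dvd_coeff] at hr
      have h3 : r ∣ (β.den : ℤ) := by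
        have h := hr 1
        rwa [hc1] at h
      have h4 : r ∣ β.num := by
        have h := hr 0
        rwa [hc0, dvd_neg] at h
      have h5 : IsCoprime β.num (β.den : ℤ) := by
        rw [Int.isCoprime_iff_gcd_eq_one]
        exact β.reduced
      exact h5.isUnit_of_dvd' h4 h3
    have hLe : ∀ n : ℕ, (L ^ n).IsPrimitive := by
      intro n
      induction n with
      | zero =>
        rw [pow_zero]
        exact isPrimitive_one
      | succ n ih =>
        rw [pow_succ]
        exact ih.mul hLprim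
    have h6 : L ^ e ∣ P := by
      rw [IsPrimitive.Int.dvd_iff_map_cast_dvd_map_cast _ _ (hLe e), Polynomial.map_pow, hLmap,
        mul_pow]
      have hu : IsUnit ((C (β.den : ℚ)) ^ e : ℚ[X]) :=
        (isUnit_C.2 (isUnit_iff_ne_zero.2 hdenQ)).pow e
      exact (hu.mul_left_dvd).2 h2
    have h7 : ((β.den : ℤ)) ^ e ∣ P.leadingCoeff := by
      have h := leadingCoeff_dvd_leadingCoeff h6
      rwa [leadingCoeff_pow, hLlead] at h
    have h8 : ((β.den : ℤ)) ^ e ≤ |P.leadingCoeff| :=
      Int.le_of_dvd (abs_pos.2 (leadingCoeff_ne_zero.2 hP)) ((dvd_abs _ _).2 h7)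
    have h9 : ((β.den : ℝ)) ^ e ≤ Real.exp A := by
      refine le_trans ?_ (hA P.natDegree)
      have h : (((β.den : ℤ) ^ e : ℤ) : ℝ) ≤ ((|P.leadingCoeff| : ℤ) : ℝ) := by exact_mod_cast h8
      rw [Int.cast_abs] at h
      push_cast at h
      exact h
    have hdenR : (0 : ℝ) < (β.den : ℝ) := by exact_mod_cast β.den_pos
    rw [← Real.log_pow]
    rw [← Real.log_exp A]
    exact Real.log_le_log (pow_pos hdenR e) h9

end Pool.Agent.SBT
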