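import Pool.Agent.SBT.Stmts

set_option autoImplicit false

namespace Pool.Agent.SBT

namespace RTA_

lemma sum_lin (a : ℝ) (D n : ℕ) :
    ∑ j ∈ Finset.range n, (a - (j : ℝ) / D) = n * a - n * (n - 1) / (2 * D) := by
  induction n with
  | zero => simp
  | succ n ih =>
    rw [Finset.sum_range_succ, ih]
    push_cast
    ring

end RTA_

theorem rta_proof : Stmt_RTA := by
  intro k D a hD hk ha ha1
  have hD0 : (0 : ℝ) < D := by exact_mod_cast hD
  rw [Fin.sum_univ_eq_sum_range (fun j => max 0 (a - (j : ℝ) / D)) k]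
  set J := ⌊a * D⌋₊ + 1 with hJ
  have hfl : (⌊a * D⌋₊ : ℝ) ≤ a * D := Nat.floor_le (by positivity)
  have hlt : a * D < J := by
    rw [hJ]; push_cast; exact Nat.lt_floor_add_one _
  have hmin : min k J ≤ k := min_le_left _ _
  have h1 : ∑ j ∈ Finset.range (min k J), max 0 (a - (j : ℝ) / D) ≤
      ∑ j ∈ Finset.range k, max 0 (a - (j : ℝ) / D) := by
    refine Finset.sum_le_sum_of_subset_of_nonneg (Finset.range_mono hmin) fun j _ _ =>
      le_max_left _ _
  have h2 : ∑ j ∈ Finset.range (min k J), (a - (j : ℝ) / D) ≤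
      ∑ j ∈ Finset.range (min k J), max 0 (a - (j : ℝ) / D) :=
    Finset.sum_le_sum fun j _ => le_max_right _ _
  rw [RTA_.sum_lin] at h2
  set n := min k J with hn
  have hnJ : (n : ℝ) - 1 ≤ a * D := by
    have : (n : ℝ) ≤ J := by exact_mod_cast min_le_right k J
    rw [hJ] at this
    push_cast at this
    linarith
  have h3 : (n : ℝ) * a / 2 ≤ n * a - n * (n - 1) / (2 * D) := by
    have h4 : (n : ℝ) * (n - 1) / (2 * D) ≤ n * a / 2 := by
      rw [div_le_div_iff₀ (by positivity) (by norm_num)]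
      have : (n : ℝ) * (n - 1) ≤ n * (a * D) := mul_le_mul_of_nonneg_left hnJ (by positivity)
      nlinarith
    linarith
  refine le_trans ?_ (h3.trans (h2.trans h1))
  rcases min_choice k J with h | h
  · rw [hn, h]
    have : a ^ 2 ≤ 2 * a := by nlinarith
    have hk0 : (0 : ℝ) ≤ k := by positivity
    nlinarith [mul_le_mul_of_nonneg_left this hk0]
  · have hn1 : a * D ≤ n := by rw [hn, h]; exact hlt.le
    have hk2 : (k : ℝ) ≤ 2 * D := by
      have : k ≤ 2 * D := by omega
      exact_mod_cast this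
    have h5 : a * D * a ≤ n * a := mul_le_mul_of_nonneg_right hn1 ha
    have h6 : (k : ℝ) * a ^ 2 ≤ 2 * D * a ^ 2 := mul_le_mul_of_nonneg_right hk2 (sq_nonneg a)
    nlinarith

end Pool.Agent.SBT
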