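import Pool.Agent.SBT.Stmts

/-!
# SBT (MP_57632f_nt), module RTD: separation of the last variable
-/

set_option autoImplicit false

namespace Pool.Agent.SBT

namespace RTD_

open MvPolynomial

variable {m : ℕ}

/-- the exponent of the first `m` variables -/
noncomputable def res (s : Fin (m + 1) →₀ ℕ) : Fin m →₀ ℕ :=
  s.comapDomain Fin.castSucc (Fin.castSucc_injective m).injOn

theorem res_split (s : Fin (m + 1) →₀ ℕ) :
    Finsupp.mapDomain Fin.castSucc (res s) + Finsupp.single (Fin.last m) (s (Fin.last m)) = s := by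
  ext i
  refine Fin.lastCases ?_ (fun j => ?_) i
  · rw [Finsupp.add_apply, Finsupp.single_eq_same, Finsupp.mapDomain_notin_range, zero_add]
    rintro ⟨j, hj⟩
    exact absurd hj (Fin.castSucc_lt_last j).ne
  · rw [Finsupp.add_apply, Finsupp.mapDomain_apply (Fin.castSucc_injective m),
      Finsupp.single_eq_of_ne (Fin.castSucc_lt_last j).ne, add_zero]
    rfl

theorem monomial_split (s : Fin (m + 1) →₀ ℕ) (r : ℚ) :
    monomial s r = rename Fin.castSucc (monomial (res s) r) * X (Fin.last m) ^ s (Fin.last m) := by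
  rw [rename_monomial, X_pow_eq_monomial, monomial_mul, mul_one, res_split]

/-- the coefficients with respect to the last variable -/
noncomputable def cf (P : MvPolynomial (Fin (m + 1)) ℚ) (i : ℕ) : MvPolynomial (Fin m) ℚ :=
  ∑ s ∈ P.support.filter (fun s => s (Fin.last m) = i), monomial (res s) (coeff s P)

theorem expand (D : ℕ) (P : MvPolynomial (Fin (m + 1)) ℚ) (hD : P.degreeOf (Fin.last m) ≤ D) :
    P = ∑ i : Fin (D + 1), rename Fin.castSucc (cf P i) * X (Fin.last m) ^ (i : ℕ) := by
  classical
  rw [Fin.sum_univ_eq_sum_range (fun i => rename Fin.castSucc (cf P i) * X (Fin.last m) ^ i)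
    (D + 1)]
  have h1 : ∀ i, rename Fin.castSucc (cf P i) * X (Fin.last m) ^ i =
      ∑ s ∈ P.support.filter (fun s => s (Fin.last m) = i), monomial s (coeff s P) := by
    intro i
    unfold cf
    rw [map_sum, Finset.sum_mul]
    refine Finset.sum_congr rfl fun s hs => ?_
    rw [monomial_split s, (Finset.mem_filter.1 hs).2]
  rw [Finset.sum_congr rfl fun i _ => h1 i]
  rw [Finset.sum_fiberwise_of_maps_to (s := P.support) (t := Finset.range (D + 1))
    (g := fun s => s (Fin.last m))]
  · exact P.as_sum
  · intro s hs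
    rw [Finset.mem_range]
    have := monomial_le_degreeOf (Fin.last m) hs
    omega

end RTD_

open RTD_ MvPolynomial in
theorem rtd_proof : Stmt_RTD := by
  classical
  intro m D P hP hD
  set c : Fin (D + 1) → MvPolynomial (Fin m) ℚ := fun i => cf P i with hc
  set W : Submodule ℚ (MvPolynomial (Fin m) ℚ) := Submodule.span ℚ (Set.range c) with hW
  have : FiniteDimensional ℚ W := FiniteDimensional.span_of_finite ℚ (Set.finite_range c)
  set b := Module.finBasis ℚ W with hb
  set k := Module.finrank ℚ W with hk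
  have hcW : ∀ i, c i ∈ W := fun i => Submodule.subset_span ⟨i, rfl⟩
  set a : Fin (D + 1) → Fin k → ℚ := fun i j => b.repr ⟨c i, hcW i⟩ j with ha
  have hsum : ∀ i, c i = ∑ j, a i j • (b j : MvPolynomial (Fin m) ℚ) := by
    intro i
    have h := b.sum_repr ⟨c i, hcW i⟩
    have h2 := congrArg (fun x : W => (x : MvPolynomial (Fin m) ℚ)) h
    simp only [Submodule.coe_sum, Submodule.coe_smul] at h2
    exact h2.symm
  have heq : P = ∑ j, rename Fin.castSucc (b j : MvPolynomial (Fin m) ℚ) *
      Polynomial.aeval (X (Fin.last m) : MvPolynomial (Fin (m + 1)) ℚ)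
        (∑ i : Fin (D + 1), Polynomial.monomial (i : ℕ) (a i j)) := by
    conv_lhs => rw [expand D P hD]
    have h1 : ∀ i : Fin (D + 1), rename Fin.castSucc (cf P i) * X (Fin.last m) ^ (i : ℕ) =
        ∑ j, rename Fin.castSucc (b j : MvPolynomial (Fin m) ℚ) *
          (algebraMap ℚ (MvPolynomial (Fin (m + 1)) ℚ) (a i j) * X (Fin.last m) ^ (i : ℕ)) := by
      intro i
      have h2 : cf P i = ∑ j, a i j • (b j : MvPolynomial (Fin m) ℚ) := hsum i
      rw [h2, map_sum, Finset.sum_mul]
      refine Finset.sum_congr rfl fun j _ => ?_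
      rw [map_smul, Algebra.smul_def]
      ring
    rw [Finset.sum_congr rfl fun i _ => h1 i, Finset.sum_comm]
    refine Finset.sum_congr rfl fun j _ => ?_
    rw [map_sum, Finset.mul_sum]
    refine Finset.sum_congr rfl fun i _ => ?_
    rw [Polynomial.aeval_monomial]
  refine ⟨k, fun j => (b j : MvPolynomial (Fin m) ℚ),
    fun j => ∑ i : Fin (D + 1), Polynomial.monomial (i : ℕ) (a i j), ?_, ?_, ?_, ?_, heq⟩
  · by_contra hlt
    have h0 : k = 0 := by omega
    apply hP
    rw [heq]
    apply Finset.sum_eq_zero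
    intro j _
    exact absurd j.2 (by omega)
  · have := finrank_range_le_card (R := ℚ) c
    simpa [Set.finrank] using this
  · exact b.linearIndependent.map' W.subtype (Submodule.ker_subtype W)
  · rw [Fintype.linearIndependent_iff]
    intro g hg
    have hz : ∀ i : Fin (D + 1), ∑ j, g j * a i j = 0 := by
      intro i
      have h := congrArg (fun q : Polynomial ℚ => q.coeff (i : ℕ)) hg
      simp only [Polynomial.finset_sum_coeff, Polynomial.coeff_smul, Polynomial.coeff_monomial,
        smul_eq_mul, Polynomial.coeff_zero, Fin.val_inj, Finset.sum_ite_eq', Finset.mem_univ,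
        if_true] at h
      exact h
    set ℓ : W →ₗ[ℚ] ℚ := ∑ j, g j • b.coord j with hℓ
    have hℓc : ∀ i, ℓ ⟨c i, hcW i⟩ = 0 := by
      intro i
      rw [hℓ]
      simp only [LinearMap.sum_apply, LinearMap.smul_apply, Module.Basis.coord_apply, smul_eq_mul]
      exact hz i
    have hℓ0 : ∀ x (hx : x ∈ W), ℓ ⟨x, hx⟩ = 0 := by
      intro x hx
      refine Submodule.span_induction (p := fun x hx => ℓ ⟨x, hx⟩ = 0) ?_ ?_ ?_ ?_ hx
      · rintro _ ⟨i, rfl⟩
        exact hℓc i
      · exact map_zero ℓ
      · intro x y hx hy h1 h2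
        have : ℓ (⟨x, hx⟩ + ⟨y, hy⟩) = 0 := by rw [map_add, h1, h2, add_zero]
        exact this
      · intro r x hx h1
        have : ℓ (r • ⟨x, hx⟩) = 0 := by rw [map_smul, h1, smul_zero]
        exact this
    intro j
    have h := hℓ0 (b j) (b j).2
    rw [hℓ] at h
    simpa [LinearMap.sum_apply, Finsupp.single_apply] using h

end Pool.Agent.SBT
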