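import Pool.Agent.SBT.Stmts

set_option autoImplicit false

namespace Pool.Agent.SBT

open MvPolynomial

namespace RTH_

variable {m : ℕ}

lemma coeff_hd (e t : Fin m →₀ ℕ) (P : MvPolynomial (Fin m) ℤ) :
    coeff t (hd e P) = coeff (t + e) P * ((∏ i, (t i + e i).choose (e i) : ℕ) : ℤ) := by
  unfold hd
  rw [coeff_sum]
  simp only [coeff_monomial]
  rw [Finset.sum_eq_single (t + e)]
  · rw [if_pos (add_tsub_cancel_right t e)]
    simp only [Finsupp.add_apply]
  · intro s _ hst
    split_ifs with h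
    · by_cases hes : e ≤ s
      · exfalso
        apply hst
        rw [← h]
        exact (tsub_add_cancel_of_le hes).symm
      · obtain ⟨i, hi⟩ : ∃ i, ¬ e i ≤ s i := by
          by_contra hc
          push Not at hc
          exact hes hc
        have : ∏ i, (s i).choose (e i) = 0 :=
          Finset.prod_eq_zero (Finset.mem_univ i) (Nat.choose_eq_zero_of_lt (not_le.1 hi))
        rw [this, Nat.cast_zero, mul_zero]
    · rfl
  · intro h
    rw [notMem_support_iff] at h
    rw [h, zero_mul, ite_self]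

/-- the `ℓ¹` norm -/
noncomputable def nm (P : MvPolynomial (Fin m) ℤ) : ℝ := ∑ e ∈ P.support, |((coeff e P : ℤ) : ℝ)|

lemma nm_eq (P : MvPolynomial (Fin m) ℤ) (T : Finset (Fin m →₀ ℕ)) (h : P.support ⊆ T) :
    nm P = ∑ e ∈ T, |((coeff e P : ℤ) : ℝ)| := by
  unfold nm
  refine Finset.sum_subset h fun e _ he => ?_
  rw [notMem_support_iff.1 he]
  simp

lemma nm_nonneg (P : MvPolynomial (Fin m) ℤ) : 0 ≤ nm P :=
  Finset.sum_nonneg fun _ _ => abs_nonneg _

lemma nm_add (P Q : MvPolynomial (Fin m) ℤ) : nm (P + Q) ≤ nm P + nm Q := by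
  rw [nm_eq (P + Q) (P.support ∪ Q.support) support_add,
    nm_eq P (P.support ∪ Q.support) Finset.subset_union_left,
    nm_eq Q (P.support ∪ Q.support) Finset.subset_union_right, ← Finset.sum_add_distrib]
  refine Finset.sum_le_sum fun e _ => ?_
  rw [coeff_add]
  push_cast
  exact abs_add_le _ _

lemma nm_zero : nm (0 : MvPolynomial (Fin m) ℤ) = 0 := by
  unfold nm
  simp

lemma nm_sum {ι : Type} (s : Finset ι) (f : ι → MvPolynomial (Fin m) ℤ) :
    nm (∑ i ∈ s, f i) ≤ ∑ i ∈ s, nm (f i) := by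
  classical
  induction s using Finset.induction_on with
  | empty => simp [nm_zero]
  | insert i s hi ih =>
    rw [Finset.sum_insert hi, Finset.sum_insert hi]
    exact (nm_add _ _).trans (by linarith)

lemma nm_monomial (e : Fin m →₀ ℕ) (a : ℤ) : nm (monomial e a) = |(a : ℝ)| := by
  rw [nm_eq (monomial e a) {e} support_monomial_subset, Finset.sum_singleton, coeff_monomial,
    if_pos rfl]

lemma nm_mul (P Q : MvPolynomial (Fin m) ℤ) : nm (P * Q) ≤ nm P * nm Q := by
  have h1 : P * Q = ∑ e ∈ P.support, ∑ f ∈ Q.support,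
      monomial (e + f) (coeff e P * coeff f Q) := by
    conv_lhs => rw [P.as_sum, Q.as_sum]
    rw [Finset.sum_mul_sum]
    refine Finset.sum_congr rfl fun e _ => Finset.sum_congr rfl fun f _ => ?_
    rw [monomial_mul]
  rw [h1]
  refine (nm_sum _ _).trans ?_
  unfold nm
  rw [Finset.sum_mul]
  refine Finset.sum_le_sum fun e _ => ?_
  have := nm_sum Q.support (fun f => monomial (e + f) (coeff e P * coeff f Q))
  refine this.trans ?_
  rw [Finset.mul_sum]
  refine Finset.sum_le_sum fun f _ => ?_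
  rw [nm_monomial]
  push_cast
  rw [abs_mul]

lemma nm_prod {ι : Type} (s : Finset ι) (f : ι → MvPolynomial (Fin m) ℤ) (B : ℝ) (hB : 0 ≤ B)
    (h : ∀ i ∈ s, nm (f i) ≤ B) : nm (∏ i ∈ s, f i) ≤ B ^ s.card := by
  classical
  induction s using Finset.induction_on with
  | empty =>
    rw [Finset.prod_empty, Finset.card_empty, pow_zero]
    have : (1 : MvPolynomial (Fin m) ℤ) = monomial 0 1 := rfl
    rw [this, nm_monomial]
    simp
  | insert i s hi ih =>
    rw [Finset.prod_insert hi, Finset.card_insert_of_notMem hi, pow_succ']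
    refine (nm_mul _ _).trans ?_
    exact mul_le_mul (h i (Finset.mem_insert_self i s))
      (ih fun j hj => h j (Finset.mem_insert_of_mem hj)) (nm_nonneg _) hB

lemma coeff_le (P : MvPolynomial (Fin m) ℤ) (e : Fin m →₀ ℕ) : |((coeff e P : ℤ) : ℝ)| ≤ nm P := by
  by_cases h : e ∈ P.support
  · exact Finset.single_le_sum (f := fun e => |((coeff e P : ℤ) : ℝ)|) (fun _ _ => abs_nonneg _) h
  · rw [notMem_support_iff.1 h]
    simp [nm_nonneg]

lemma nm_hd {d : Fin m → ℕ} {P : MvPolynomial (Fin m) ℤ} (hd1 : ∀ h, P.degreeOf h ≤ d h) {B : ℝ}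
    (hB : 0 ≤ B) (hP : HB P B) (e : Fin m →₀ ℕ) : nm (hd e P) ≤ 2 ^ (∑ h, d h) * 2 ^ (∑ h, d h) * B := by
  unfold hd
  refine (nm_sum _ _).trans ?_
  have h1 : ∀ s ∈ P.support, nm (monomial (s - e) (coeff s P *
      ((∏ i, (s i).choose (e i) : ℕ) : ℤ))) ≤ 2 ^ (∑ h, d h) * B := by
    intro s hs
    rw [nm_monomial]
    push_cast
    rw [abs_mul, mul_comm]
    refine mul_le_mul ?_ (hP s) (abs_nonneg _) (by positivity)
    rw [abs_of_nonneg (Finset.prod_nonneg fun _ _ => Nat.cast_nonneg _), ← Finset.prod_pow_eq_pow_sum]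
    refine Finset.prod_le_prod (fun _ _ => Nat.cast_nonneg _) fun i _ => ?_
    have h2 : (s i).choose (e i) ≤ 2 ^ (d i) :=
      (Nat.choose_le_two_pow _ _).trans (Nat.pow_le_pow_right (by norm_num)
        ((monomial_le_degreeOf i hs).trans (hd1 i)))
    exact_mod_cast h2
  refine (Finset.sum_le_card_nsmul _ _ _ h1).trans ?_
  rw [nsmul_eq_mul]
  have h3 : P.support.card ≤ 2 ^ (∑ h, d h) := by
    calc P.support.card ≤ (Fintype.piFinset fun h => Finset.range (d h + 1)).card := by
          refine Finset.card_le_card_of_injOn (fun e => (e : Fin m → ℕ)) (fun s hs => ?_)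
            (fun a _ b _ hab => DFunLike.coe_injective hab)
          rw [Finset.mem_coe, Fintype.mem_piFinset]
          intro i
          rw [Finset.mem_range]
          exact Nat.lt_succ_of_le ((monomial_le_degreeOf i hs).trans (hd1 i))
      _ = ∏ h, (d h + 1) := by simp
      _ ≤ ∏ h, 2 ^ (d h) := Finset.prod_le_prod' fun h _ => Nat.lt_two_pow_self
      _ = 2 ^ (∑ h, d h) := Finset.prod_pow_eq_pow_sum _ _ _
  have h4 : (P.support.card : ℝ) ≤ 2 ^ (∑ h, d h) := by exact_mod_cast h3
  rw [mul_assoc]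
  exact mul_le_mul_of_nonneg_right h4 (by positivity)

end RTH_

theorem rth_proof : Stmt_RTH := by
  intro m k d P μ A D hd1 hdeg hk hHB hdD hsD
  have hD1 : 1 ≤ D := le_trans (by exact_mod_cast hd1 (Fin.last m)) (hdD (Fin.last m))
  constructor
  · intro h
    have hent : ∀ i j : Fin k, ((dmt μ P) i j).degreeOf h ≤ d h := by
      intro i j
      rw [degreeOf_le_iff]
      intro t ht
      have ht' : coeff t (hd (ex (μ i) (j : ℕ)) P) ≠ 0 := mem_support_iff.1 ht
      rw [RTH_.coeff_hd] at ht'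
      have h1 := monomial_le_degreeOf h (mem_support_iff.2 (left_ne_zero_of_mul ht'))
      have h2 := h1.trans (hdeg h)
      rw [Finsupp.add_apply] at h2
      omega
    rw [Matrix.det_apply']
    refine (degreeOf_sum_le _ _ _).trans ?_
    refine Finset.sup_le fun σ _ => ?_
    have e1 : (((Equiv.Perm.sign σ : ℤˣ) : ℤ) : MvPolynomial (Fin (m + 1)) ℤ) =
        C ((Equiv.Perm.sign σ : ℤˣ) : ℤ) := by simp
    rw [e1]
    refine (degreeOf_C_mul_le _ _ _).trans ?_
    refine (degreeOf_prod_le _ _ _).trans ?_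
    calc ∑ i, degreeOf h ((dmt μ P) (σ i) i) ≤ ∑ _i : Fin k, d h :=
          Finset.sum_le_sum fun i _ => hent _ _
      _ = k * d h := by simp
  · intro e
    refine (RTH_.coeff_le _ e).trans ?_
    rw [Matrix.det_apply']
    refine (RTH_.nm_sum _ _).trans ?_
    have hB0 : 0 ≤ Real.exp (A + 4 * D * Real.log 2) := (Real.exp_pos _).le
    have hent : ∀ i j : Fin k, RTH_.nm ((dmt μ P) i j) ≤ Real.exp (A + 4 * D * Real.log 2) := by
      intro i j
      have h1 := RTH_.nm_hd hdeg (Real.exp_pos A).le hHB (ex (μ i) (j : ℕ))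
      refine h1.trans ?_
      have h2 : (2 : ℝ) ^ (∑ h, d h) ≤ Real.exp (2 * D * Real.log 2) := by
        have : (2 : ℝ) ^ (∑ h, d h) = Real.exp ((∑ h, (d h : ℝ)) * Real.log 2) := by
          rw [mul_comm, Real.exp_mul, Real.exp_log (by norm_num), ← Real.rpow_natCast]
          push_cast
          rfl
        rw [this, Real.exp_le_exp]
        exact mul_le_mul_of_nonneg_right hsD (Real.log_nonneg (by norm_num))
      have e2 : Real.exp (A + 4 * D * Real.log 2) = Real.exp (2 * D * Real.log 2) *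
          Real.exp (2 * D * Real.log 2) * Real.exp A := by
        rw [← Real.exp_add, ← Real.exp_add]
        congr 1
        ring
      rw [e2]
      refine mul_le_mul_of_nonneg_right ?_ (Real.exp_pos A).le
      exact mul_le_mul h2 h2 (by positivity) (Real.exp_pos _).le
    have hσ : ∀ σ ∈ (Finset.univ : Finset (Equiv.Perm (Fin k))),
        RTH_.nm ((((Equiv.Perm.sign σ : ℤˣ) : ℤ) : MvPolynomial (Fin (m + 1)) ℤ) *
          ∏ i, (dmt μ P) (σ i) i) ≤ Real.exp (A + 4 * D * Real.log 2) ^ k := by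
      intro σ _
      refine (RTH_.nm_mul _ _).trans ?_
      have e1 : (((Equiv.Perm.sign σ : ℤˣ) : ℤ) : MvPolynomial (Fin (m + 1)) ℤ) =
          monomial 0 ((Equiv.Perm.sign σ : ℤˣ) : ℤ) := by
        rw [monomial_zero']
        simp
      rw [e1, RTH_.nm_monomial]
      have e3 : |(((Equiv.Perm.sign σ : ℤˣ) : ℤ) : ℝ)| = 1 := by
        rcases Int.units_eq_one_or (Equiv.Perm.sign σ) with h | h <;> rw [h] <;> simp
      rw [e3, one_mul]
      have := RTH_.nm_prod Finset.univ (fun i => (dmt μ P) (σ i) i) _ hB0 fun i _ => hent _ _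
      rwa [Finset.card_univ, Fintype.card_fin] at this
    refine (Finset.sum_le_card_nsmul _ _ _ hσ).trans ?_
    rw [Finset.card_univ, Fintype.card_perm, Fintype.card_fin, nsmul_eq_mul]
    have hkD : (k : ℝ) ≤ Real.exp D := by
      have h1 : (k : ℝ) ≤ d (Fin.last m) + 1 := by exact_mod_cast hk
      have h2 := hdD (Fin.last m)
      have h3 := Real.add_one_le_exp D
      linarith
    have hfac : ((k.factorial : ℕ) : ℝ) ≤ Real.exp D ^ k := by
      have h1 : k.factorial ≤ k ^ k := Nat.factorial_le_pow k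
      have h2 : ((k.factorial : ℕ) : ℝ) ≤ (k : ℝ) ^ k := by exact_mod_cast h1
      exact h2.trans (pow_le_pow_left₀ (by positivity) hkD k)
    calc ((k.factorial : ℕ) : ℝ) * Real.exp (A + 4 * D * Real.log 2) ^ k ≤
          Real.exp D ^ k * Real.exp (A + 4 * D * Real.log 2) ^ k :=
          mul_le_mul_of_nonneg_right hfac (by positivity)
      _ = Real.exp (k * (D + (A + 4 * D * Real.log 2))) := by
          rw [← mul_pow, ← Real.exp_add, ← Real.exp_nat_mul]
      _ ≤ Real.exp (k * (A + 4 * D)) := by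
          rw [Real.exp_le_exp]
          refine mul_le_mul_of_nonneg_left ?_ (by positivity)
          have := Real.log_two_lt_d9
          nlinarith

end Pool.Agent.SBT
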