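import Pool.Agent.SBT.Stmts

/-!
# Module RTL: Roth's lemma
-/

set_option autoImplicit false

namespace Pool.Agent.SBT

open Filter

namespace RTL_

theorem den_pos_log (A D l : ℝ) (d : ℕ) (ω : ℝ) (hA : 0 ≤ A) (hD : (d : ℝ) ≤ D) (hd : 1 ≤ d)
    (h : A + D ≤ ω * (d * l)) (hl : 0 ≤ l) : 0 < l := by
  rcases hl.lt_or_eq with h1 | h1
  · exact h1
  · exfalso
    rw [← h1] at h
    have : (1 : ℝ) ≤ d := by exact_mod_cast hd
    simp at h
    linarith

theorem A_nonneg {σ : Type} (P : MvPolynomial σ ℤ) (A : ℝ) (hP : P ≠ 0)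
    (h : HB P (Real.exp A)) : 0 ≤ A := by
  obtain ⟨e, he⟩ := MvPolynomial.ne_zero_iff.1 hP
  have h1 := h e
  have h2 : (1 : ℝ) ≤ |((MvPolynomial.coeff e P : ℤ) : ℝ)| := by
    have := Int.one_le_abs he
    exact_mod_cast this
  have h3 : Real.exp 0 ≤ Real.exp A := by
    rw [Real.exp_zero]; exact h2.trans h1
  exact Real.exp_le_exp.1 h3

theorem exists_support_zero (P : MvPolynomial (Fin 0) ℤ) (hP : P ≠ 0) (β : Fin 0 → ℚ) :
    ∃ e, e ∈ (tr β (toQ P)).support := by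
  have h1 : tr β (toQ P) = toQ P := by
    unfold tr
    have h2 : (fun i : Fin 0 => (MvPolynomial.X i + MvPolynomial.C (β i) :
        MvPolynomial (Fin 0) ℚ)) = MvPolynomial.X := by
      funext i; exact i.elim0
    rw [h2, MvPolynomial.bind₁_X_left]
    rfl
  rw [h1]
  have h3 : toQ P ≠ 0 := by
    intro h
    apply hP
    apply MvPolynomial.map_injective (Int.castRingHom ℚ) (RingHom.injective_int _)
    rw [map_zero]
    exact h
  obtain ⟨e, he⟩ := MvPolynomial.ne_zero_iff.1 h3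
  exact ⟨e, MvPolynomial.mem_support_iff.2 he⟩

theorem step (m : ℕ) (hRTW : Stmt_RTW) (hRTH : Stmt_RTH) (hRTI : Stmt_RTI) (hRTA : Stmt_RTA)
    (hRTU : Stmt_RTU) (hRT1 : Stmt_RT1)
    (ih : ∀ τ : ℝ, 0 < τ → ∃ ω : ℝ, 0 < ω ∧ ∀ (P : MvPolynomial (Fin m) ℤ) (d : Fin m → ℕ)
      (β : Fin m → ℚ) (A D : ℝ), P ≠ 0 → (∀ h, 1 ≤ d h) → (∀ h, P.degreeOf h ≤ d h) →
      (∀ h h', h < h' → (d h' : ℝ) ≤ ω * d h) → (∀ h, (d h : ℝ) ≤ D) →
      ∑ h, (d h : ℝ) ≤ 2 * D → HB P (Real.exp A) →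
      (∀ h, A + D ≤ ω * (d h * Real.log (β h).den)) →
      ∃ e ∈ (tr β (toQ P)).support, wt d e ≤ τ)
    (τ : ℝ) (hτ : 0 < τ) (hτ1 : τ ≤ 1) :
    ∃ ω : ℝ, 0 < ω ∧ ∀ (P : MvPolynomial (Fin (m + 1)) ℤ) (d : Fin (m + 1) → ℕ)
      (β : Fin (m + 1) → ℚ) (A D : ℝ), P ≠ 0 → (∀ h, 1 ≤ d h) → (∀ h, P.degreeOf h ≤ d h) →
      (∀ h h', h < h' → (d h' : ℝ) ≤ ω * d h) → (∀ h, (d h : ℝ) ≤ D) →
      ∑ h, (d h : ℝ) ≤ 2 * D → HB P (Real.exp A) →
      (∀ h, A + D ≤ ω * (d h * Real.log (β h).den)) →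
      ∃ e ∈ (tr β (toQ P)).support, wt d e ≤ τ := by
  obtain ⟨ω', hω', H⟩ := ih (τ ^ 2 / 64) (by positivity)
  refine ⟨min (ω' / 5) (τ ^ 2 / 256), by positivity, ?_⟩
  set ω : ℝ := min (ω' / 5) (τ ^ 2 / 256) with hωdef
  have hω0 : 0 < ω := by positivity
  have hω1 : 5 * ω ≤ ω' := by
    have := min_le_left (ω' / 5) (τ ^ 2 / 256)
    rw [← hωdef] at this
    linarith
  have hω2 : ω ≤ τ ^ 2 / 256 := by
    have := min_le_right (ω' / 5) (τ ^ 2 / 256)
    rw [← hωdef] at this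
    exact this
  have hω3 : ω ≤ τ / 2 := by nlinarith
  intro P d β A D hP hd1 hdeg hrat hdD hsum hHB hlog
  by_contra hcon
  push Not at hcon
  have hA : 0 ≤ A := A_nonneg P A hP hHB
  have hlogn : ∀ h, 0 ≤ Real.log ((β h).den : ℝ) := fun h =>
    Real.log_natCast_nonneg _
  have hlogp : ∀ h, 0 < Real.log ((β h).den : ℝ) := fun h =>
    den_pos_log A D _ (d h) ω hA (hdD h) (hd1 h) (hlog h) (hlogn h)
  have hD0 : 0 ≤ D := le_trans (Nat.cast_nonneg _) (hdD 0)
  obtain ⟨k, μ, U, V, c, hk1, hkD, hμ, hU, hV, hc, hsplit, hUc, hVc, hUdeg⟩ :=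
    hRTW m (d (Fin.last m)) P hP (hdeg _)
  obtain ⟨hWdeg, hWHB⟩ := hRTH m k d P μ A D hd1 hdeg hkD hHB hdD hsum
  have hkpos : (0 : ℝ) < k := by exact_mod_cast hk1
  -- the one-variable factor
  obtain ⟨e₁, he₁, he₁'⟩ := hRT1 V (β (Fin.last m)) (k * (A + 4 * D)) hV (by
    intro i
    obtain ⟨e', he'⟩ := hVc i
    rw [he']
    exact hWHB e')
  -- the factor in the other variables
  obtain ⟨e', he', hwt'⟩ := H U (fun h => k * d h.castSucc) (fun h => β h.castSucc)
    (k * (A + 4 * D)) (k * D) hU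
    (fun h => Nat.one_le_iff_ne_zero.2 (Nat.mul_ne_zero (by omega) (by have := hd1 h.castSucc; omega)))
    (fun h => (hUdeg h).trans (hWdeg _))
    (by
      intro h h' hh
      have h1 := hrat h.castSucc h'.castSucc (by simpa using hh)
      push_cast
      have h2 : (0 : ℝ) ≤ d h.castSucc := Nat.cast_nonneg _
      have h3 : ω * d h.castSucc ≤ ω' * d h.castSucc := by nlinarith
      nlinarith)
    (by
      intro h
      push_cast
      exact mul_le_mul_of_nonneg_left (hdD _) hkpos.le)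
    (by
      push_cast
      rw [← Finset.mul_sum]
      have h1 : ∑ h : Fin m, (d h.castSucc : ℝ) ≤ ∑ h, (d h : ℝ) := by
        rw [Fin.sum_univ_castSucc]
        have : (0 : ℝ) ≤ d (Fin.last m) := Nat.cast_nonneg _
        linarith
      nlinarith)
    (by
      intro e
      obtain ⟨e'', he''⟩ := hUc e
      rw [he'']
      exact hWHB e'')
    (by
      intro h
      push_cast
      have h1 := hlog h.castSucc
      have h2 : 0 ≤ (d h.castSucc : ℝ) * Real.log ((β h.castSucc).den : ℝ) :=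
        mul_nonneg (Nat.cast_nonneg _) (hlogn _)
      have h3 : A + 5 * D ≤ ω' * ((d h.castSucc : ℝ) * Real.log ((β h.castSucc).den : ℝ)) := by
        nlinarith
      have h4 := mul_le_mul_of_nonneg_left h3 hkpos.le
      nlinarith)
  have hmem := hRTU m (dmt μ P).det U V c β hc hsplit e' he' e₁ he₁
  -- the lower bound
  have hκ : ∀ i, ∑ h : Fin m, (μ i h : ℝ) / d h.castSucc ≤ ω := by
    intro i
    have h1 : ∀ h : Fin m, (μ i h : ℝ) / d h.castSucc ≤ (μ i h : ℝ) * (ω / d (Fin.last m)) := by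
      intro h
      have h2 := hrat h.castSucc (Fin.last m) (Fin.castSucc_lt_last h)
      have h3 : (0 : ℝ) < d h.castSucc := by
        have := hd1 h.castSucc
        exact_mod_cast this
      have h4 : (0 : ℝ) < d (Fin.last m) := by
        have := hd1 (Fin.last m)
        exact_mod_cast this
      rw [div_eq_mul_inv]
      apply mul_le_mul_of_nonneg_left _ (Nat.cast_nonneg _)
      rw [inv_le_comm₀ h3 (by positivity), inv_div, div_le_iff₀ hω0]
      linarith
    have h5 : ∑ h : Fin m, (μ i h : ℝ) ≤ d (Fin.last m) := by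
      have h6 := hμ i
      have h7 := i.2
      have h8 : ∑ h : Fin m, μ i h ≤ d (Fin.last m) := by omega
      exact_mod_cast h8
    have h4 : (0 : ℝ) < d (Fin.last m) := by
      have := hd1 (Fin.last m)
      exact_mod_cast this
    calc ∑ h : Fin m, (μ i h : ℝ) / d h.castSucc
        ≤ ∑ h : Fin m, (μ i h : ℝ) * (ω / d (Fin.last m)) := Finset.sum_le_sum fun h _ => h1 h
      _ = (∑ h : Fin m, (μ i h : ℝ)) * (ω / d (Fin.last m)) := by rw [Finset.sum_mul]
      _ ≤ d (Fin.last m) * (ω / d (Fin.last m)) :=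
          mul_le_mul_of_nonneg_right h5 (by positivity)
      _ = ω := by field_simp
  have hlow := hRTI m k d P μ β τ ω hd1 hκ hcon (ex e' e₁) hmem
  have hav := hRTA k (d (Fin.last m)) (τ - ω) (hd1 _) hkD (by linarith) (by linarith)
  have h9 : k * ((τ - ω) ^ 2 / 4) ≤ wt d (ex e' e₁) := hav.trans hlow
  -- the upper bound
  have hup : wt d (ex e' e₁) ≤ k * (τ ^ 2 / 64) + k * (4 * ω) := by
    have h10 : wt d (ex e' e₁) = ∑ h : Fin m, (e' h : ℝ) / d h.castSucc +
        (e₁ : ℝ) / d (Fin.last m) := by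
      unfold wt
      rw [Fin.sum_univ_castSucc]
      simp [ex]
    have h11 : ∑ h : Fin m, (e' h : ℝ) / d h.castSucc ≤ k * (τ ^ 2 / 64) := by
      unfold wt at hwt'
      have h12 : ∑ h : Fin m, (e' h : ℝ) / d h.castSucc =
          k * ∑ h : Fin m, (e' h : ℝ) / ((k * d h.castSucc : ℕ) : ℝ) := by
        rw [Finset.mul_sum]
        refine Finset.sum_congr rfl fun h _ => ?_
        have h3 : (0 : ℝ) < d h.castSucc := by
          have := hd1 h.castSucc
          exact_mod_cast this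
        push_cast
        field_simp
      rw [h12]
      exact mul_le_mul_of_nonneg_left hwt' hkpos.le
    have h13 : (e₁ : ℝ) / d (Fin.last m) ≤ k * (4 * ω) := by
      have h4 : (0 : ℝ) < d (Fin.last m) := by
        have := hd1 (Fin.last m)
        exact_mod_cast this
      rw [div_le_iff₀ h4]
      have h14 := hlog (Fin.last m)
      have h15 := hlogp (Fin.last m)
      have h16 : (e₁ : ℝ) * Real.log ((β (Fin.last m)).den : ℝ) ≤
          (k * (4 * ω) * d (Fin.last m)) * Real.log ((β (Fin.last m)).den : ℝ) := by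
        have h17 : A + 4 * D ≤ 4 * (ω * (d (Fin.last m) *
            Real.log ((β (Fin.last m)).den : ℝ))) := by nlinarith
        have h18 := mul_le_mul_of_nonneg_left h17 hkpos.le
        nlinarith
      exact le_of_mul_le_mul_right h16 h15
    rw [h10]
    linarith
  have h19 : k * ((τ - ω) ^ 2 / 4) ≤ k * (τ ^ 2 / 64 + 4 * ω) := by nlinarith
  have h20 := le_of_mul_le_mul_left h19 hkpos
  nlinarith

end RTL_

theorem rtl_proof (hRTW : Stmt_RTW) (hRTH : Stmt_RTH) (hRTI : Stmt_RTI) (hRTA : Stmt_RTA)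
    (hRTU : Stmt_RTU) (hRT1 : Stmt_RT1) : Stmt_RTL := by
  intro m
  induction m with
  | zero =>
    intro τ hτ
    refine ⟨1, one_pos, ?_⟩
    intro P d β A D hP _ _ _ _ _ _ _
    obtain ⟨e, he⟩ := RTL_.exists_support_zero P hP β
    refine ⟨e, he, ?_⟩
    simp [wt, hτ.le]
  | succ m ih =>
    intro τ hτ
    obtain ⟨ω, hω, H⟩ := RTL_.step m hRTW hRTH hRTI hRTA hRTU hRT1 ih (min τ 1)
      (lt_min hτ one_pos) (min_le_right _ _)
    refine ⟨ω, hω, ?_⟩
    intro P d β A D h1 h2 h3 h4 h5 h6 h7 h8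
    obtain ⟨e, he, hw⟩ := H P d β A D h1 h2 h3 h4 h5 h6 h7 h8
    exact ⟨e, he, hw.trans (min_le_left _ _)⟩

end Pool.Agent.SBT
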