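import Pool.Agent.SBT.PApi

/-!
Squad SBT, module RTS: the determinant of derivatives splits over the rationals.
-/

set_option autoImplicit false

namespace Pool.Agent.SBT

open MvPolynomial

namespace RTS

variable {m : ℕ}

theorem ex_castSucc (μ : Fin m →₀ ℕ) (j : ℕ) (i : Fin m) : ex μ j i.castSucc = μ i := by
  unfold ex
  rw [Finsupp.coe_equivFunOnFinite_symm, Fin.snoc_castSucc]

theorem ex_last (μ : Fin m →₀ ℕ) (j : ℕ) : ex μ j (Fin.last m) = j := by
  unfold ex
  rw [Finsupp.coe_equivFunOnFinite_symm, Fin.snoc_last]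

theorem ex_sub (s μ : Fin m →₀ ℕ) (n j : ℕ) : ex s n - ex μ j = ex (s - μ) (n - j) := by
  ext i
  rw [Finsupp.tsub_apply]
  refine Fin.lastCases ?_ (fun i => ?_) i
  · rw [ex_last, ex_last, ex_last]
  · rw [ex_castSucc, ex_castSucc, ex_castSucc, Finsupp.tsub_apply]

theorem ex_eq (s : Fin m →₀ ℕ) (n : ℕ) :
    ex s n = s.mapDomain Fin.castSucc + Finsupp.single (Fin.last m) n := by
  ext i
  rw [Finsupp.add_apply]
  refine Fin.lastCases ?_ (fun i => ?_) i
  · rw [ex_last, Finsupp.mapDomain_of_notMem_range, Finsupp.single_eq_same, zero_add]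
    rintro ⟨x, hx⟩
    exact absurd hx (Fin.castSucc_lt_last x).ne
  · rw [ex_castSucc, Finsupp.mapDomain_apply (Fin.castSucc_injective m),
      Finsupp.single_eq_of_ne (Fin.castSucc_lt_last i).ne, add_zero]

theorem mon_eq (s : Fin m →₀ ℕ) (n : ℕ) (a b : ℚ) :
    rename Fin.castSucc (monomial s a) *
      Polynomial.aeval (X (Fin.last m) : MvPolynomial (Fin (m + 1)) ℚ) (Polynomial.monomial n b) =
      monomial (ex s n) (a * b) := by
  rw [rename_monomial, Polynomial.aeval_monomial, MvPolynomial.algebraMap_eq,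
    MvPolynomial.X_pow_eq_monomial, MvPolynomial.C_mul_monomial, mul_one, monomial_mul, ex_eq]

theorem hd_split_mon (μ : Fin m →₀ ℕ) (j : ℕ) (s : Fin m →₀ ℕ) (n : ℕ) (a b : ℚ) :
    hd (ex μ j) (rename Fin.castSucc (monomial s a) *
      Polynomial.aeval (X (Fin.last m) : MvPolynomial (Fin (m + 1)) ℚ)
        (Polynomial.monomial n b)) =
    rename Fin.castSucc (hd μ (monomial s a)) *
      Polynomial.aeval (X (Fin.last m) : MvPolynomial (Fin (m + 1)) ℚ)
        (Polynomial.hasseDeriv j (Polynomial.monomial n b)) := by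
  rw [mon_eq, hd_monomial, hd_monomial, Polynomial.hasseDeriv_monomial, mon_eq, ex_sub]
  congr 1
  rw [Fin.prod_univ_castSucc, ex_last, ex_last]
  have h : ∀ i : Fin m, (ex s n i.castSucc).choose (ex μ j i.castSucc) = (s i).choose (μ i) :=
    fun i => by rw [ex_castSucc, ex_castSucc]
  rw [Finset.prod_congr rfl (fun i _ => h i)]
  push_cast
  ring

theorem hd_split (μ : Fin m →₀ ℕ) (j : ℕ) (φ : MvPolynomial (Fin m) ℚ) (ψ : Polynomial ℚ) :
    hd (ex μ j) (rename Fin.castSucc φ *
      Polynomial.aeval (X (Fin.last m) : MvPolynomial (Fin (m + 1)) ℚ) ψ) =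
    rename Fin.castSucc (hd μ φ) *
      Polynomial.aeval (X (Fin.last m) : MvPolynomial (Fin (m + 1)) ℚ)
        (Polynomial.hasseDeriv j ψ) := by
  induction φ using MvPolynomial.induction_on' with
  | monomial s a =>
    induction ψ using Polynomial.induction_on' with
    | monomial n b => exact hd_split_mon μ j s n a b
    | add p q hp hq => rw [map_add, mul_add, hd_add, hp, hq, map_add, map_add, mul_add]
  | add p q hp hq => rw [map_add, add_mul, hd_add, hp, hq, hd_add, map_add, add_mul]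

end RTS

open RTS in
theorem rts_proof (hRTD : Stmt_RTD) (hGWR : Stmt_GWR) (hWRN : Stmt_WRN) : Stmt_RTS := by
  intro m D P hP hD
  have hdeg : (toQ P).degreeOf (Fin.last m) ≤ D := by
    rw [MvPolynomial.degreeOf_eq_sup, support_toQ, ← MvPolynomial.degreeOf_eq_sup]
    exact hD
  obtain ⟨k, φ, ψ, hk1, hk2, hφ, hψ, hPe⟩ := hRTD m D (toQ P) (toQ_ne_zero hP) hdeg
  obtain ⟨μ, hμ, hdet⟩ := hGWR k m φ hφ
  have hw := hWRN k ψ hψ
  refine ⟨k, μ, (Matrix.of fun i j : Fin k => hd (μ i) (φ j)).det,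
    (Matrix.of fun i j : Fin k => Polynomial.hasseDeriv (i : ℕ) (ψ j)).det, hk1, hk2, hμ, hdet,
    hw, ?_⟩
  rw [toQ_det]
  have h1 : (Matrix.of fun i j => toQ ((dmt μ P) i j)) =
      (Matrix.of fun i l : Fin k => rename Fin.castSucc (hd (μ i) (φ l))) *
        (Matrix.of fun l j : Fin k => Polynomial.aeval
          (X (Fin.last m) : MvPolynomial (Fin (m + 1)) ℚ)
          (Polynomial.hasseDeriv (j : ℕ) (ψ l))) := by
    ext1 i j
    rw [Matrix.mul_apply]
    simp only [Matrix.of_apply, dmt]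
    rw [toQ_hd]
    conv_lhs => rw [hPe]
    rw [hd_sum]
    exact Finset.sum_congr rfl fun l _ => hd_split _ _ _ _
  rw [h1, Matrix.det_mul]
  congr 1
  · exact (AlgHom.map_det (rename (R := ℚ) (Fin.castSucc : Fin m → Fin (m + 1)))
      (Matrix.of fun i j : Fin k => hd (μ i) (φ j))).symm
  · have h2 := AlgHom.map_det (Polynomial.aeval
      (X (Fin.last m) : MvPolynomial (Fin (m + 1)) ℚ))
      (Matrix.of fun i j : Fin k => Polynomial.hasseDeriv (i : ℕ) (ψ j))
    rw [h2, ← Matrix.det_transpose]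
    rfl

end Pool.Agent.SBT
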