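import Pool.Agent.SBT.Stmts

set_option autoImplicit false

namespace Pool.Agent.SBT

open MvPolynomial

namespace RTU_

variable {m : ℕ}

lemma ex_eq (s : Fin m →₀ ℕ) (j : ℕ) :
    Finsupp.mapDomain Fin.castSucc s + Finsupp.single (Fin.last m) j = ex s j := by
  ext h
  refine Fin.lastCases ?_ (fun i => ?_) h
  · rw [Finsupp.add_apply, Finsupp.mapDomain_of_notMem_range, Finsupp.single_eq_same]
    · simp [ex]
    · rintro ⟨x, hx⟩
      exact (Fin.castSucc_lt_last x).ne hx
  · rw [Finsupp.add_apply, Finsupp.mapDomain_apply (Fin.castSucc_injective m),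
      Finsupp.single_eq_of_ne (Fin.castSucc_lt_last i).ne]
    simp [ex]

lemma ex_inj {s e : Fin m →₀ ℕ} {j i : ℕ} : ex s j = ex e i ↔ s = e ∧ j = i := by
  constructor
  · intro h
    constructor
    · ext x
      have := DFunLike.congr_fun h x.castSucc
      simpa [ex] using this
    · have := DFunLike.congr_fun h (Fin.last m)
      simpa [ex] using this
  · rintro ⟨rfl, rfl⟩
    rfl

lemma coeff_prod (A : MvPolynomial (Fin m) ℚ) (B : Polynomial ℚ) (e : Fin m →₀ ℕ) (i : ℕ) :
    coeff (ex e i) (rename Fin.castSucc A * Polynomial.aeval (X (Fin.last m)) B) =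
      coeff e A * B.coeff i := by
  induction A using MvPolynomial.induction_on' with
  | monomial s a =>
    induction B using Polynomial.induction_on' with
    | add p q hp hq => rw [map_add, mul_add, coeff_add, hp, hq, Polynomial.coeff_add, mul_add]
    | monomial j b =>
      rw [rename_monomial, Polynomial.aeval_monomial, algebraMap_eq, ← monomial_zero',
        X_pow_eq_monomial, monomial_mul, monomial_mul, coeff_monomial, coeff_monomial,
        Polynomial.coeff_monomial, zero_add, ex_eq]
      by_cases h1 : s = e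
      · by_cases h2 : j = i
        · rw [if_pos (ex_inj.2 ⟨h1, h2⟩), if_pos h1, if_pos h2]
          ring
        · rw [if_neg fun h => h2 (ex_inj.1 h).2, if_neg h2, mul_zero]
      · rw [if_neg fun h => h1 (ex_inj.1 h).1, if_neg h1, zero_mul]
  | add p q hp hq => rw [map_add, add_mul, coeff_add, hp, hq, coeff_add, add_mul]

end RTU_

theorem rtu_proof : Stmt_RTU := by
  intro m W U V c β hc h e he i hi
  have h1 : tr β (toQ (C c * W)) = tr β (toQ (rename Fin.castSucc U *
      Polynomial.aeval (X (Fin.last m)) V)) := by rw [h]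
  have e1 : tr β (toQ (C c * W)) = C (c : ℚ) * tr β (toQ W) := by
    unfold tr toQ
    rw [map_mul, map_mul, map_C, bind₁_C_right]
    rfl
  have e2 : tr β (toQ (rename Fin.castSucc U)) =
      rename Fin.castSucc (tr (fun h : Fin m => β h.castSucc) (toQ U)) := by
    unfold tr toQ
    rw [map_rename, bind₁_rename, rename_bind₁]
    congr 2
    funext x
    simp
  have e3 : tr β (toQ (Polynomial.aeval (X (Fin.last m)) V)) =
      Polynomial.aeval (X (Fin.last m)) ((V.map (Int.castRingHom ℚ)).comp
        (Polynomial.X + Polynomial.C (β (Fin.last m)))) := by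
    have e4 : toQ (Polynomial.aeval (X (Fin.last m) : MvPolynomial (Fin (m + 1)) ℤ) V) =
        Polynomial.aeval (X (Fin.last m)) (V.map (Int.castRingHom ℚ)) := by
      unfold toQ
      rw [Polynomial.aeval_def, Polynomial.hom_eval₂, Polynomial.aeval_def, Polynomial.eval₂_map,
        map_X]
      congr 1
      exact RingHom.ext_int _ _
    rw [e4]
    unfold tr
    rw [← Polynomial.aeval_algHom_apply, bind₁_X_right, Polynomial.aeval_comp]
    congr 2
    simp
  rw [e1] at h1
  have e5 : tr β (toQ (rename Fin.castSucc U * Polynomial.aeval (X (Fin.last m)) V)) =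
      tr β (toQ (rename Fin.castSucc U)) * tr β (toQ (Polynomial.aeval (X (Fin.last m)) V)) := by
    unfold tr toQ
    rw [map_mul, map_mul]
  rw [e5, e2, e3] at h1
  have h2 := congrArg (coeff (ex e i)) h1
  rw [RTU_.coeff_prod, coeff_C_mul] at h2
  rw [mem_support_iff] at he ⊢
  intro h0
  rw [h0, mul_zero] at h2
  exact mul_ne_zero he hi h2.symm

end Pool.Agent.SBT
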