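import Pool.Agent.SBT.StmtsBC

set_option autoImplicit false

namespace Pool.Agent.SBT

open MvPolynomial

namespace RTW_

variable {m : ℕ}

lemma ex_eq (s : Fin m →₀ ℕ) (j : ℕ) :
    Finsupp.mapDomain Fin.castSucc s + Finsupp.single (Fin.last m) j = ex s j := by
  ext h
  refine Fin.lastCases ?_ (fun i => ?_) h
  · rw [Finsupp.add_apply, Finsupp.mapDomain_of_notMem_range, Finsupp.single_eq_same]
    · simp [ex]
    · rintro ⟨x, hx⟩
      exact (Fin.castSucc_lt_last x).ne hx
  · rw [Finsupp.add_apply, Finsupp.mapDomain_apply (Fin.castSucc_injective m),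
      Finsupp.single_eq_of_ne (Fin.castSucc_lt_last i).ne]
    simp [ex]

lemma ex_inj {s e : Fin m →₀ ℕ} {j i : ℕ} : ex s j = ex e i ↔ s = e ∧ j = i := by
  constructor
  · intro h
    constructor
    · ext x
      have := DFunLike.congr_fun h x.castSucc
      simpa [ex] using this
    · have := DFunLike.congr_fun h (Fin.last m)
      simpa [ex] using this
  · rintro ⟨rfl, rfl⟩
    rfl

lemma ex_surj (f : Fin (m + 1) →₀ ℕ) : ∃ (e : Fin m →₀ ℕ) (i : ℕ), f = ex e i := by
  refine ⟨Finsupp.equivFunOnFinite.symm (fun h => f h.castSucc), f (Fin.last m), ?_⟩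
  ext h
  refine Fin.lastCases ?_ (fun i => ?_) h
  · simp [ex]
  · simp [ex]

lemma coeff_prod {R : Type} [CommRing R] (A : MvPolynomial (Fin m) R) (B : Polynomial R)
    (e : Fin m →₀ ℕ) (i : ℕ) :
    coeff (ex e i) (rename Fin.castSucc A * Polynomial.aeval (X (Fin.last m)) B) =
      coeff e A * B.coeff i := by
  induction A using MvPolynomial.induction_on' with
  | monomial s a =>
    induction B using Polynomial.induction_on' with
    | add p q hp hq => rw [map_add, mul_add, coeff_add, hp, hq, Polynomial.coeff_add, mul_add]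
    | monomial j b =>
      rw [rename_monomial, Polynomial.aeval_monomial, algebraMap_eq, ← monomial_zero',
        X_pow_eq_monomial, monomial_mul, monomial_mul, coeff_monomial, coeff_monomial,
        Polynomial.coeff_monomial, zero_add, ex_eq]
      by_cases h1 : s = e
      · by_cases h2 : j = i
        · rw [if_pos (ex_inj.2 ⟨h1, h2⟩), if_pos h1, if_pos h2]
          ring
        · rw [if_neg fun h => h2 (ex_inj.1 h).2, if_neg h2, mul_zero]
      · rw [if_neg fun h => h1 (ex_inj.1 h).1, if_neg h1, zero_mul]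
  | add p q hp hq => rw [map_add, add_mul, coeff_add, hp, hq, coeff_add, add_mul]

end RTW_

theorem rtw_proof (rts : Stmt_RTS) : Stmt_RTW := by
  intro m D P hP hdeg
  obtain ⟨k, μ, U₀, V₀, hk1, hkD, hμ, hU, hV, hW⟩ := rts m D P hP hdeg
  set W := (dmt μ P).det with hWdef
  have hc : ∀ e i, ((W.coeff (ex e i) : ℤ) : ℚ) = U₀.coeff e * V₀.coeff i := by
    intro e i
    have h1 := congrArg (coeff (ex e i)) hW
    rw [RTW_.coeff_prod] at h1
    rw [← h1]
    unfold toQ
    rw [coeff_map]
    rfl
  obtain ⟨s₀, hs₀⟩ := MvPolynomial.ne_zero_iff.1 hU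
  obtain ⟨e₀, he₀⟩ : ∃ e₀, V₀.coeff e₀ ≠ 0 :=
    ⟨V₀.natDegree, by
      rw [← Polynomial.leadingCoeff]
      exact Polynomial.leadingCoeff_ne_zero.2 hV⟩
  have hUc : ∀ e, coeff e (∑ s ∈ U₀.support, monomial s (W.coeff (ex s e₀))) =
      W.coeff (ex e e₀) := by
    intro e
    rw [coeff_sum]
    by_cases h : e ∈ U₀.support
    · rw [Finset.sum_eq_single e]
      · rw [coeff_monomial, if_pos rfl]
      · intro b _ hb
        rw [coeff_monomial, if_neg hb]
      · intro h'
        exact absurd h h'
    · rw [Finset.sum_eq_zero]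
      · have h2 := hc e e₀
        rw [notMem_support_iff.1 h, zero_mul] at h2
        exact (Int.cast_eq_zero.1 h2).symm
      · intro b hb
        rw [coeff_monomial, if_neg]
        rintro rfl
        exact h hb
  have hVc : ∀ i, Polynomial.coeff (∑ j ∈ V₀.support,
      Polynomial.monomial j (W.coeff (ex s₀ j))) i = W.coeff (ex s₀ i) := by
    intro i
    rw [Polynomial.finsetSum_coeff]
    by_cases h : i ∈ V₀.support
    · rw [Finset.sum_eq_single i]
      · rw [Polynomial.coeff_monomial, if_pos rfl]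
      · intro b _ hb
        rw [Polynomial.coeff_monomial, if_neg hb]
      · intro h'
        exact absurd h h'
    · rw [Finset.sum_eq_zero]
      · have h2 := hc s₀ i
        rw [Polynomial.notMem_support_iff.1 h, mul_zero] at h2
        exact (Int.cast_eq_zero.1 h2).symm
      · intro b hb
        rw [Polynomial.coeff_monomial, if_neg]
        rintro rfl
        exact h hb
  have hne : W.coeff (ex s₀ e₀) ≠ 0 := by
    intro h
    have h2 := hc s₀ e₀
    rw [h, Int.cast_zero] at h2
    exact mul_ne_zero hs₀ he₀ h2.symm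
  refine ⟨k, μ, ∑ s ∈ U₀.support, monomial s (W.coeff (ex s e₀)),
    ∑ j ∈ V₀.support, Polynomial.monomial j (W.coeff (ex s₀ j)), W.coeff (ex s₀ e₀),
    hk1, hkD, hμ, ?_, ?_, hne, ?_, ?_, ?_, ?_⟩
  · intro h
    apply hne
    rw [← hUc s₀, h, coeff_zero]
  · intro h
    apply hne
    rw [← hVc e₀, h, Polynomial.coeff_zero]
  · ext f
    obtain ⟨e, i, rfl⟩ := RTW_.ex_surj f
    rw [coeff_C_mul, RTW_.coeff_prod, hUc, hVc]
    have h3 : ((W.coeff (ex s₀ e₀) * W.coeff (ex e i) : ℤ) : ℚ) =
        ((W.coeff (ex e e₀) * W.coeff (ex s₀ i) : ℤ) : ℚ) := by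
      push_cast
      rw [hc, hc, hc, hc]
      ring
    exact_mod_cast h3
  · intro e
    exact ⟨ex e e₀, hUc e⟩
  · intro i
    exact ⟨ex s₀ i, hVc i⟩
  · intro h
    rw [degreeOf_le_iff]
    intro e he
    rw [mem_support_iff, hUc] at he
    have h4 := monomial_le_degreeOf h.castSucc (mem_support_iff.2 he)
    have h5 : (ex e e₀) h.castSucc = e h := by simp [ex]
    rw [h5] at h4
    exact h4

end Pool.Agent.SBT
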