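import Pool.Agent.SBT.Stmts
import Pool.Agent.SBT.Api

/-!
# SBB: the Subspace theorem for several bases of a space of sequences
-/

set_option autoImplicit false

namespace Pool.Agent.SBT

open Filter Topology

/-- common denominator of a finite family of rational numbers -/
theorem exists_common_den {ι : Type*} [Finite ι] (r : ι → ℚ) :
    ∃ q : ℕ, 0 < q ∧ ∃ z : ι → ℤ, ∀ i, (q : ℚ) * r i = z i := by
  have := Fintype.ofFinite ι
  refine ⟨∏ i, (r i).den, Finset.prod_pos fun i _ => (r i).den_pos, ?_⟩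
  have h : ∀ i, ∃ z : ℤ, ((∏ i, (r i).den : ℕ) : ℚ) * r i = z := by
    intro i
    obtain ⟨k, hk⟩ : (r i).den ∣ ∏ i, (r i).den := Finset.dvd_prod_of_mem _ (Finset.mem_univ i)
    refine ⟨(k : ℤ) * (r i).num, ?_⟩
    rw [hk]
    have hd : ((r i).den : ℚ) ≠ 0 := by exact_mod_cast (r i).den_nz
    conv_lhs => rw [← Rat.num_div_den (r i)]
    push_cast
    have e : (((r i).num : ℚ) / ((r i).den : ℚ)).den = (r i).den := by
      rw [Rat.num_div_den]
    rw [e]
    field_simp
  choose z hz using h
  exact ⟨z, hz⟩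

/-- linear independence in terms of an enumeration -/
theorem LI.enum {U : Ultrafilter ℕ} {J : Type} [DecidableEq J] {x : J → ℕ → ℚ} {B : Finset J}
    (h : LI U x B) {m : ℕ} {f : Fin m → J} (hf : Function.Injective f)
    (hB : Finset.univ.image f = B) (b : Fin m → ℚ)
    (hb : ∀ᶠ n in (U : Filter ℕ), ∑ i, b i * x (f i) n = 0) : b = 0 := by
  have h1 := h (fun j => ∑ i, if f i = j then b i else 0) (by
    refine hb.mono fun n hn => ?_
    refine Eq.trans ?_ hn
    rw [← hB, Finset.sum_image fun a _ c _ hac => hf hac]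
    refine Finset.sum_congr rfl fun i _ => ?_
    congr 1
    rw [Finset.sum_eq_single i]
    · simp
    · intro k _ hk
      rw [if_neg fun e => hk (hf e)]
    · intro hi
      exact absurd (Finset.mem_univ i) hi)
  funext i
  have h2 := h1 (f i) (by rw [← hB]; exact Finset.mem_image_of_mem f (Finset.mem_univ i))
  rw [Finset.sum_eq_single i] at h2
  · simpa using h2
  · intro k _ hk
    rw [if_neg fun e => hk (hf e)]
  · intro hi
    exact absurd (Finset.mem_univ i) hi

/-- expansion in a maximal independent set -/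
theorem LI.expand {U : Ultrafilter ℕ} {J : Type} [DecidableEq J] {x : J → ℕ → ℚ} {B : Finset J}
    (h : LI U x B) (hmax : ∀ B' : Finset J, LI U x B' → B'.card ≤ B.card) (j : J) :
    ∃ a : J → ℚ, ∀ᶠ n in (U : Filter ℕ), x j n = ∑ i ∈ B, a i * x i n := by
  by_cases hj : j ∈ B
  · refine ⟨fun i => if i = j then 1 else 0, Eventually.of_forall fun n => ?_⟩
    simp [hj]
  · have h1 : ¬ LI U x (insert j B) := by
      intro h2
      have := hmax _ h2
      rw [Finset.card_insert_of_notMem hj] at this
      omega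
    unfold LI at h1
    push Not at h1
    obtain ⟨c, hc, i, hi, hci⟩ := h1
    have hcj : c j ≠ 0 := by
      intro h0
      have h3 := h c (hc.mono fun n hn => by
        rw [Finset.sum_insert hj, h0, zero_mul, zero_add] at hn
        exact hn)
      rcases Finset.mem_insert.1 hi with h4 | h4
      · rw [h4] at hci
        exact hci h0
      · exact hci (h3 i h4)
    refine ⟨fun i => -(c i / c j), hc.mono fun n hn => ?_⟩
    rw [Finset.sum_insert hj] at hn
    have h5 : ∑ i ∈ B, -(c i / c j) * x i n = -(∑ i ∈ B, c i * x i n) / c j := by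
      rw [neg_div, Finset.sum_div, ← Finset.sum_neg_distrib]
      exact Finset.sum_congr rfl fun i _ => by ring
    rw [h5, eq_div_iff hcj]
    linarith

/-- SBB -/
theorem sbb_proof (hSUB : Stmt_SUB) : Stmt_SBB := by
  intro S U T J _ _ x B n₀ C ε hS hT hint hht hLI hmax hε
  rcases Nat.eq_zero_or_pos n₀ with h0 | hpos
  · filter_upwards [ev_pos hT] with n hn
    have : ∏ v ∈ pl S, ∏ j ∈ B v, av v (x j n) = 1 := by
      refine Finset.prod_eq_one fun v hv => ?_
      have h1 := (hLI v hv).2
      rw [h0, Finset.card_eq_zero] at h1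
      rw [h1, Finset.prod_empty]
    rw [this]
    apply Real.exp_le_one_iff.2
    nlinarith
  rcases ult_em U (fun n => Real.exp (-ε * T n) ≤ ∏ v ∈ pl S, ∏ j ∈ B v, av v (x j n)) with
    hgood | hbad
  · exact hgood
  exfalso
  -- enumerations
  have henum : ∀ v, ∃ f : Fin n₀ → J, v ∈ pl S →
      Function.Injective f ∧ Finset.univ.image f = B v := by
    intro v
    by_cases hv : v ∈ pl S
    · have e := ((B v).equivFinOfCardEq (hLI v hv).2).symm
      refine ⟨fun i => (e i : J), fun _ => ⟨fun a b hab => e.injective (Subtype.ext hab), ?_⟩⟩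
      ext j
      simp only [Finset.mem_image, Finset.mem_univ, true_and]
      constructor
      · rintro ⟨i, rfl⟩
        exact (e i).2
      · intro hj
        exact ⟨e.symm ⟨j, hj⟩, by simp⟩
    · have hB0 : (B 0).Nonempty := by
        rw [← Finset.card_pos, (hLI 0 (zero_mem_pl S)).2]
        exact hpos
      exact ⟨fun _ => hB0.choose, fun h => absurd h hv⟩
  choose f hf using henum
  have hf0 := hf 0 (zero_mem_pl S)
  have hLI0 := hLI 0 (zero_mem_pl S)
  -- expansions
  have hexp := fun j => LI.expand hLI0.1 (fun B' hB' => by rw [hLI0.2]; exact hmax B' hB') j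
  choose a ha using hexp
  obtain ⟨q, hq0, z, hz⟩ := exists_common_den (fun ji : J × J => a ji.1 ji.2)
  have hall : ∀ᶠ n in (U : Filter ℕ), ∀ j, (q : ℚ) * x j n =
      ∑ k, (z (j, f 0 k) : ℚ) * x (f 0 k) n := by
    rw [eventually_all]
    intro j
    refine (ha j).mono fun n hn => ?_
    rw [hn, ← hf0.2, Finset.sum_image fun a _ c _ hac => hf0.1 hac, Finset.mul_sum]
    refine Finset.sum_congr rfl fun k _ => ?_
    rw [← hz (j, f 0 k), mul_assoc]
  obtain ⟨L, hLdef⟩ : ∃ L : ℕ → Matrix (Fin n₀) (Fin n₀) ℤ,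
      L = fun v => Matrix.of fun i k => z (f v i, f 0 k) := ⟨_, rfl⟩
  have hq0' : (q : ℚ) ≠ 0 := by exact_mod_cast hq0.ne'
  have hLdet : ∀ v ∈ pl S, (L v).det ≠ 0 := by
    intro v hv hdet
    obtain ⟨b, hb0, hb⟩ := Matrix.exists_vecMul_eq_zero_iff.2 hdet
    have h1 := (hLI v hv).1.enum (hf v hv).1 (hf v hv).2 (fun i => (b i : ℚ)) (by
      refine hall.mono fun n hn => ?_
      have h2 : (q : ℚ) * ∑ i, (b i : ℚ) * x (f v i) n = 0 := by
        rw [Finset.mul_sum]
        calc ∑ i, (q : ℚ) * ((b i : ℚ) * x (f v i) n)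
            = ∑ i, (b i : ℚ) * ∑ k, (z (f v i, f 0 k) : ℚ) * x (f 0 k) n := by
              refine Finset.sum_congr rfl fun i _ => ?_
              rw [← hn (f v i)]
              ring
          _ = ∑ k, (∑ i, (b i : ℚ) * (z (f v i, f 0 k) : ℚ)) * x (f 0 k) n := by
              simp only [Finset.mul_sum, Finset.sum_mul]
              rw [Finset.sum_comm]
              exact Finset.sum_congr rfl fun i _ => Finset.sum_congr rfl fun k _ => by ring
          _ = 0 := by
              refine Finset.sum_eq_zero fun k _ => ?_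
              have h3 := congrFun hb k
              have h4 : ∑ i, b i * z (f v i, f 0 k) = 0 := by
                simpa [hLdef, Matrix.vecMul, dotProduct] using h3
              have h5 : (∑ i, (b i : ℚ) * (z (f v i, f 0 k) : ℚ)) = 0 := by exact_mod_cast h4
              rw [h5, zero_mul]
      rcases mul_eq_zero.1 h2 with h | h
      · exact absurd h hq0'
      · exact h)
    apply hb0
    funext i
    have := congrFun h1 i
    simp only [Pi.zero_apply, Int.cast_eq_zero] at this
    exact this
  -- denominators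
  have hden : ∀ n, ∃ D : ℕ, 0 < D ∧ IsU S (D : ℚ) ∧
      (D : ℝ) ≤ (max 1 (Real.exp (C * T n))) ^ S.card ∧
      ∀ y : ℚ, SInt S y → (∀ p ∈ S, av p y ≤ max 1 (Real.exp (C * T n))) →
        ∃ z : ℤ, (D : ℚ) * y = z := fun n => exists_den hS (le_max_left _ _)
  choose D hD0 hDU hDle hDint using hden
  have hX : ∀ n, ∃ X : Fin n₀ → ℤ, (∀ j, SInt S (x j n)) →
      (∀ j, ∀ v ∈ pl S, av v (x j n) ≤ Real.exp (C * T n)) →
      ∀ k, (X k : ℚ) = (D n : ℚ) * x (f 0 k) n := by
    intro n
    by_cases h : (∀ j, SInt S (x j n)) ∧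
      (∀ j, ∀ v ∈ pl S, av v (x j n) ≤ Real.exp (C * T n))
    · have h1 : ∀ k, ∃ y : ℤ, (D n : ℚ) * x (f 0 k) n = y := fun k =>
        hDint n _ (h.1 _) fun p hp => (h.2 _ p (mem_pl_of_mem hp)).trans (le_max_right _ _)
      choose X hX using h1
      exact ⟨X, fun _ _ k => (hX k).symm⟩
    · exact ⟨0, fun h1 h2 => absurd ⟨h1, h2⟩ h⟩
  choose X hX using hX
  have hX' : ∀ᶠ n in (U : Filter ℕ), ∀ k, (X n k : ℚ) = (D n : ℚ) * x (f 0 k) n := by
    filter_upwards [hint, hht] with n h1 h2
    exact hX n h1 h2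
  have hfv : ∀ᶠ n in (U : Filter ℕ), ∀ v i,
      ((fv (L v) (X n) i : ℤ) : ℚ) = (q : ℚ) * (D n : ℚ) * x (f v i) n := by
    filter_upwards [hX', hall] with n h1 h2
    intro v i
    unfold fv
    push_cast
    rw [mul_right_comm, h2 (f v i), Finset.sum_mul]
    refine Finset.sum_congr rfl fun k _ => ?_
    rw [h1 k, hLdef]
    simp only [Matrix.of_apply]
    ring
  -- the product for `X`
  obtain ⟨Q, hQ⟩ : ∃ Q : ℝ, Q = ∏ v ∈ pl S, (av v (q : ℚ)) ^ n₀ := ⟨_, rfl⟩
  have hQ0 : 0 ≤ Q := by
    rw [hQ]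
    exact Finset.prod_nonneg fun v _ => pow_nonneg (av_nonneg _ _) _
  have hprod : ∀ᶠ n in (U : Filter ℕ),
      ∏ v ∈ pl S, ∏ i, av v (fv (L v) (X n) i : ℚ) =
        Q * ∏ v ∈ pl S, ∏ j ∈ B v, av v (x j n) := by
    refine hfv.mono fun n hn => ?_
    have h1 : ∀ v ∈ pl S, ∏ i, av v (fv (L v) (X n) i : ℚ) =
        (av v (q : ℚ)) ^ n₀ * ((av v (D n : ℚ)) ^ n₀ * ∏ j ∈ B v, av v (x j n)) := by
      intro v hv
      rw [← (hf v hv).2, Finset.prod_image fun a _ c _ hac => (hf v hv).1 hac]
      calc ∏ i, av v (fv (L v) (X n) i : ℚ)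
          = ∏ i, (av v (q : ℚ) * (av v (D n : ℚ) * av v (x (f v i) n))) := by
            refine Finset.prod_congr rfl fun i _ => ?_
            rw [hn v i, av_mul (place_of_mem hS hv), av_mul (place_of_mem hS hv), mul_assoc]
        _ = _ := by
            rw [Finset.prod_mul_distrib, Finset.prod_mul_distrib]
            simp
    rw [Finset.prod_congr rfl h1, Finset.prod_mul_distrib, Finset.prod_mul_distrib, ← hQ,
      Finset.prod_pow, (hDU n).2, one_pow, one_mul]
  obtain ⟨w, hw0, hw⟩ := hSUB n₀ S U T L X (|C| * S.card + |C|) (ε / 2) hpos hS hT hLdet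
    (by positivity) (by
      filter_upwards [hX', hht, ev_pos hT] with n h1 h2 h3
      intro k
      have h4 : ((X n k : ℤ) : ℝ) = (D n : ℝ) * ((x (f 0 k) n : ℚ) : ℝ) := by
        have := congrArg (fun t : ℚ => (t : ℝ)) (h1 k)
        push_cast at this
        exact this
      have h5 : |((x (f 0 k) n : ℚ) : ℝ)| ≤ Real.exp (|C| * T n) := by
        have := h2 (f 0 k) 0 (zero_mem_pl S)
        rw [av_zero_eq] at this
        refine this.trans (Real.exp_le_exp.2 ?_)
        exact mul_le_mul_of_nonneg_right (le_abs_self C) h3.le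
      have h6 : (D n : ℝ) ≤ Real.exp (|C| * S.card * T n) := by
        refine (hDle n).trans ?_
        have h7 : max 1 (Real.exp (C * T n)) ≤ Real.exp (|C| * T n) := by
          apply max_le
          · exact Real.one_le_exp (by positivity)
          · exact Real.exp_le_exp.2 (mul_le_mul_of_nonneg_right (le_abs_self C) h3.le)
        calc (max 1 (Real.exp (C * T n))) ^ S.card ≤ (Real.exp (|C| * T n)) ^ S.card :=
              pow_le_pow_left₀ (zero_le_one.trans (le_max_left _ _)) h7 _
          _ = Real.exp (|C| * S.card * T n) := by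
              rw [← Real.exp_nat_mul]
              congr 1
              ring
      rw [h4, abs_mul, abs_of_nonneg (Nat.cast_nonneg _)]
      calc (D n : ℝ) * |((x (f 0 k) n : ℚ) : ℝ)|
          ≤ Real.exp (|C| * S.card * T n) * Real.exp (|C| * T n) :=
            mul_le_mul h6 h5 (abs_nonneg _) (Real.exp_pos _).le
        _ = Real.exp ((|C| * S.card + |C|) * T n) := by
            rw [← Real.exp_add, ← add_mul]) (by
      filter_upwards [hprod, hbad, ev_const_le_exp hT (half_pos hε) Q] with n h1 h2 h3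
      rw [h1]
      rw [not_le] at h2
      calc Q * ∏ v ∈ pl S, ∏ j ∈ B v, av v (x j n)
          ≤ Real.exp (ε / 2 * T n) * Real.exp (-ε * T n) :=
            mul_le_mul h3 h2.le (Finset.prod_nonneg fun v _ => Finset.prod_nonneg fun j _ =>
              av_nonneg _ _) (Real.exp_pos _).le
        _ = Real.exp (-(ε / 2) * T n) := by
            rw [← Real.exp_add]
            congr 1
            ring)
  apply hw0
  have h1 := hLI0.1.enum hf0.1 hf0.2 (fun k => (w k : ℚ)) (by
    filter_upwards [hw, hX'] with n h2 h3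
    have hD : (D n : ℚ) ≠ 0 := by exact_mod_cast (hD0 n).ne'
    have h4 : (D n : ℚ) * ∑ i, (w i : ℚ) * x (f 0 i) n = 0 := by
      rw [Finset.mul_sum]
      have h5 : ∑ i, (w i : ℚ) * (X n i : ℚ) = 0 := by exact_mod_cast h2
      rw [← h5]
      refine Finset.sum_congr rfl fun i _ => ?_
      rw [h3 i]
      ring
    rcases mul_eq_zero.1 h4 with h | h
    · exact absurd h hD
    · exact h)
  funext i
  have := congrFun h1 i
  simp only [Pi.zero_apply, Int.cast_eq_zero] at this
  exact this

end Pool.Agent.SBT
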