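import Pool.Agent.SBT.PApi
import Pool.Agent.SBT.Api

/-!
# SBT (MP_57632f_nt), module SM1: the coefficients of `phi g k P` at one place
-/

set_option autoImplicit false

namespace Pool.Agent.SBT

namespace SM1_

open MvPolynomial

theorem av_intCast_le {v : ℕ} (hv : v = 0 ∨ v.Prime) (z : ℤ) : av v (z : ℚ) ≤ |(z : ℝ)| := by
  rcases hv with rfl | hp
  · rw [av_zero_eq]
    push_cast
    exact le_refl _
  · have := Fact.mk hp
    by_cases hz : z = 0
    · simp [hz]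
    · rw [av_prime hp]
      have h1 : padicNorm v (z : ℚ) ≤ 1 := padicNorm.of_int z
      have h2 : ((padicNorm v (z : ℚ) : ℚ) : ℝ) ≤ 1 := by exact_mod_cast h1
      have h3 : (1 : ℝ) ≤ |(z : ℝ)| := by
        have : (1 : ℤ) ≤ |z| := Int.one_le_abs hz
        exact_mod_cast this
      linarith

variable {m N : ℕ}

theorem nm_linform (B : Matrix (Fin N) (Fin N) ℤ) (β : ℝ) (hB : ∀ k i, |(B k i : ℝ)| ≤ β)
    (h : Fin m) (k : Fin N) :
    nm (∑ i, C (B k i) * X (h, i) : MvPolynomial (Fin m × Fin N) ℤ) ≤ N * β := by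
  refine (nm_sum_le _ _).trans ?_
  calc ∑ i, nm (C (B k i) * X (h, i) : MvPolynomial (Fin m × Fin N) ℤ) ≤ ∑ _i : Fin N, β := by
        refine Finset.sum_le_sum fun i _ => (nm_mul_le _ _).trans ?_
        rw [nm_C, nm_X, mul_one]
        exact hB k i
    _ = N * β := by simp

theorem nm_lin_monomial (B : Matrix (Fin N) (Fin N) ℤ) (β : ℝ) (hβ : 0 ≤ β)
    (hB : ∀ k i, |(B k i : ℝ)| ≤ β) (s : (Fin m × Fin N) →₀ ℕ) (c : ℤ) :
    nm (lin B (monomial s c)) ≤ |(c : ℝ)| * (N * β) ^ (∑ hk, s hk) := by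
  unfold lin
  rw [bind₁_monomial]
  refine (nm_mul_le _ _).trans ?_
  rw [nm_C]
  refine mul_le_mul_of_nonneg_left ?_ (abs_nonneg _)
  refine (nm_prod_le _ _).trans ?_
  have hNβ : 0 ≤ (N : ℝ) * β := by positivity
  calc ∏ hk ∈ s.support, nm ((∑ i, C (B hk.2 i) * X (hk.1, i) :
        MvPolynomial (Fin m × Fin N) ℤ) ^ s hk)
      ≤ ∏ hk ∈ s.support, (N * β) ^ s hk := by
        refine Finset.prod_le_prod (fun _ _ => nm_nonneg _) fun hk _ => ?_
        refine (nm_pow_le _ _).trans ?_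
        exact pow_le_pow_left₀ (nm_nonneg _) (nm_linform B β hB hk.1 hk.2) _
    _ = (N * β) ^ (∑ hk, s hk) := by
        rw [Finset.prod_pow_eq_pow_sum]
        congr 1
        refine Finset.sum_subset (Finset.subset_univ _) fun x _ hx => ?_
        exact Finsupp.notMem_support_iff.mp hx

theorem MH_sum {d : Fin m → ℕ} {P : MvPolynomial (Fin m × Fin N) ℤ} (hP : MH d P)
    {e : (Fin m × Fin N) →₀ ℕ} (he : e ∈ P.support) : ∑ hk, e hk = ∑ h, d h := by
  rw [Fintype.sum_prod_type]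
  exact Finset.sum_congr rfl fun h _ => hP e he h

theorem nm_lin (B : Matrix (Fin N) (Fin N) ℤ) (β : ℝ) (hβ : 0 ≤ β)
    (hB : ∀ k i, |(B k i : ℝ)| ≤ β) {d : Fin m → ℕ} {P : MvPolynomial (Fin m × Fin N) ℤ}
    (hP : MH d P) : nm (lin B P) ≤ nm P * (N * β) ^ (∑ h, d h) := by
  have h1 : lin B P = ∑ s ∈ P.support, lin B (monomial s (P.coeff s)) := by
    conv_lhs => rw [P.as_sum]
    unfold lin
    rw [map_sum]
  rw [h1]
  refine (nm_sum_le _ _).trans ?_
  have h2 : nm P * (N * β) ^ (∑ h, d h) =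
      ∑ s ∈ P.support, |((P.coeff s : ℤ) : ℝ)| * (N * β) ^ (∑ h, d h) := by
    unfold nm
    rw [Finset.sum_mul]
  rw [h2]
  refine Finset.sum_le_sum fun s hs => ?_
  rw [← MH_sum hP hs]
  exact nm_lin_monomial B β hβ hB s _

theorem lin_degree (B : Matrix (Fin N) (Fin N) ℤ) {d : Fin m → ℕ}
    {P : MvPolynomial (Fin m × Fin N) ℤ} (hP : MH d P) {e : (Fin m × Fin N) →₀ ℕ}
    (he : e ∈ (lin B P).support) : ∑ hk, e hk = ∑ h, d h := by
  have hom : P.IsHomogeneous (∑ h, d h) := by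
    intro e he
    have h1 := MH_sum hP (MvPolynomial.mem_support_iff.mpr he)
    rw [← h1, Finsupp.weight_apply, Finsupp.sum_fintype _ _ (by simp)]
    simp
  have hom2 : (lin B P).IsHomogeneous (1 * ∑ h, d h) := by
    unfold lin
    apply hom.aeval
    intro hk
    apply IsHomogeneous.sum
    intro i _
    exact isHomogeneous_C_mul_X _ _
  have h2 := hom2 (MvPolynomial.mem_support_iff.mp he)
  rw [one_mul, Finsupp.weight_apply, Finsupp.sum_fintype _ _ (by simp)] at h2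
  simpa using h2

theorem card_support {d : Fin m → ℕ} {P : MvPolynomial (Fin m × Fin N) ℤ} (hP : MH d P) :
    (P.support.card : ℝ) ≤ ((2 : ℝ) ^ N) ^ (∑ h, d h) := by
  classical
  have h1 : P.support.card ≤
      (Fintype.piFinset fun hk : Fin m × Fin N => Finset.range (d hk.1 + 1)).card := by
    apply Finset.card_le_card_of_injOn (fun s => fun hk => s hk)
    · intro s hs
      rw [Finset.mem_coe, Fintype.mem_piFinset]
      intro hk
      rw [Finset.mem_range, Nat.lt_succ_iff, ← hP s hs hk.1]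
      exact Finset.single_le_sum (f := fun k => s (hk.1, k)) (fun _ _ => Nat.zero_le _)
        (Finset.mem_univ hk.2)
    · intro s _ s' _ h
      ext hk
      exact congrFun h hk
  rw [Fintype.card_piFinset] at h1
  simp only [Finset.card_range] at h1
  have h2 : ∏ hk : Fin m × Fin N, (d hk.1 + 1) ≤ ∏ hk : Fin m × Fin N, 2 ^ d hk.1 :=
    Finset.prod_le_prod' fun hk _ => Nat.succ_le_of_lt Nat.lt_two_pow_self
  have h3 : ∏ hk : Fin m × Fin N, 2 ^ d hk.1 = (2 ^ N) ^ (∑ h, d h) := by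
    rw [Fintype.prod_prod_type]
    simp only [Finset.prod_const, Finset.card_univ, Fintype.card_fin]
    rw [← Finset.prod_pow_eq_pow_sum]
    refine Finset.prod_congr rfl fun h _ => ?_
    rw [← pow_mul, ← pow_mul, mul_comm]
  rw [h3] at h2
  have h4 : P.support.card ≤ (2 ^ N) ^ (∑ h, d h) := h1.trans h2
  exact_mod_cast h4

end SM1_

open SM1_ MvPolynomial in
theorem sm1_proof (hSMI : Stmt_SMI) (hSMB : Stmt_SMB) : Stmt_SM1 := by
  intro M v A hv hdet
  -- constants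
  obtain ⟨β₁, hβ₁, hβ₁'⟩ : ∃ β₁ : ℝ, 1 ≤ β₁ ∧ ∀ k i, |((A.adjugate k i : ℤ) : ℝ)| ≤ β₁ := by
    refine ⟨1 + ∑ k, ∑ i, |((A.adjugate k i : ℤ) : ℝ)|, ?_, fun k i => ?_⟩
    · have : 0 ≤ ∑ k, ∑ i, |((A.adjugate k i : ℤ) : ℝ)| :=
        Finset.sum_nonneg fun _ _ => Finset.sum_nonneg fun _ _ => abs_nonneg _
      linarith
    · have h1 : |((A.adjugate k i : ℤ) : ℝ)| ≤ ∑ i, |((A.adjugate k i : ℤ) : ℝ)| :=
        Finset.single_le_sum (f := fun i => |((A.adjugate k i : ℤ) : ℝ)|)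
          (fun _ _ => abs_nonneg _) (Finset.mem_univ i)
      have h2 : ∑ i, |((A.adjugate k i : ℤ) : ℝ)| ≤ ∑ k, ∑ i, |((A.adjugate k i : ℤ) : ℝ)| :=
        Finset.single_le_sum (f := fun k => ∑ i, |((A.adjugate k i : ℤ) : ℝ)|)
          (fun _ _ => Finset.sum_nonneg fun _ _ => abs_nonneg _) (Finset.mem_univ k)
      linarith
  obtain ⟨K₁, hK₁, hK₁'⟩ : ∃ K₁ : ℝ, 1 ≤ K₁ ∧ ∀ k i, av v ((A k i : ℤ) : ℚ) ≤ K₁ := by
    refine ⟨1 + ∑ k, ∑ i, av v ((A k i : ℤ) : ℚ), ?_, fun k i => ?_⟩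
    · have : 0 ≤ ∑ k, ∑ i, av v ((A k i : ℤ) : ℚ) :=
        Finset.sum_nonneg fun _ _ => Finset.sum_nonneg fun _ _ => av_nonneg _ _
      linarith
    · have h1 : av v ((A k i : ℤ) : ℚ) ≤ ∑ i, av v ((A k i : ℤ) : ℚ) :=
        Finset.single_le_sum (f := fun i => av v ((A k i : ℤ) : ℚ))
          (fun _ _ => av_nonneg _ _) (Finset.mem_univ i)
      have h2 : ∑ i, av v ((A k i : ℤ) : ℚ) ≤ ∑ k, ∑ i, av v ((A k i : ℤ) : ℚ) :=
        Finset.single_le_sum (f := fun k => ∑ i, av v ((A k i : ℤ) : ℚ))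
          (fun _ _ => Finset.sum_nonneg fun _ _ => av_nonneg _ _) (Finset.mem_univ k)
      linarith
  obtain ⟨δ, hδ⟩ : ∃ δ : ℝ, δ = av v ((A.det : ℤ) : ℚ) := ⟨_, rfl⟩
  have hδ0 : 0 < δ := by
    rw [hδ]
    exact av_pos hv (by exact_mod_cast hdet)
  set K₂ : ℝ := (2 : ℝ) ^ (M + 1) * (((M + 1 : ℕ) : ℝ) * β₁) * ((M + 1) * K₁) / δ with hK₂
  have hK₂0 : 0 ≤ K₂ := by positivity
  refine ⟨max 1 K₂, le_max_left _ _, ?_⟩
  intro m d T b β C₁ E g k P hT hb hC₁ hMH hHB hg hE e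
  set D := ∑ h, d h with hD
  set Q := lin A.adjugate P with hQ
  set Ex : ℝ := Real.exp (E + β * ∑ h, (e (Sum.inr h) : ℝ) * T h) with hEx
  have hEx0 : 0 < Ex := Real.exp_pos _
  -- the identity
  have hid := hSMI m M A d g k P hMH
  rw [← hD, ← hQ] at hid
  have hco := congrArg (coeff e) hid
  rw [coeff_C_mul] at hco
  -- expand Q
  have hexp : coeff e (bind₁ (cmb (fun h j i => fv A (g h j) i) (fun h i => A i (k h))) Q) =
      ∑ s ∈ Q.support, Q.coeff s * coeff e (bind₁ (cmb (fun h j i => fv A (g h j) i)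
        (fun h i => A i (k h))) (monomial s (1 : ℤ))) := by
    conv_lhs => rw [Q.as_sum]
    rw [map_sum, coeff_sum]
    refine Finset.sum_congr rfl fun s _ => ?_
    have : (monomial s (Q.coeff s) : MvPolynomial (Fin m × Fin (M + 1)) ℤ) =
        C (Q.coeff s) * monomial s 1 := by
      rw [C_mul_monomial, mul_one]
    rw [this, map_mul, bind₁_C_right, coeff_C_mul]
  rw [hexp] at hco
  -- absolute values
  have hav : δ ^ D * av v ((coeff e (phi g k P) : ℤ) : ℚ) =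
      av v (((∑ s ∈ Q.support, Q.coeff s * coeff e (bind₁ (cmb (fun h j i => fv A (g h j) i)
        (fun h i => A i (k h))) (monomial s (1 : ℤ))) : ℤ) : ℚ)) := by
    rw [← hco, hδ, ← av_pow hv, ← av_mul hv]
    push_cast
    rfl
  have hterm : ∀ s ∈ Q.support, av v (((Q.coeff s * coeff e (bind₁ (cmb (fun h j i =>
      fv A (g h j) i) (fun h i => A i (k h))) (monomial s (1 : ℤ))) : ℤ) : ℚ)) ≤
      |((Q.coeff s : ℤ) : ℝ)| * (((M + 1) * K₁) ^ D * Ex) := by
    intro s hs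
    rw [Int.cast_mul, av_mul hv]
    have h1 := hSMB m M v K₁ (fun h j i => fv A (g h j) i) (fun h i => A i (k h)) T b β hv hK₁ hT
      hb (fun h i => hK₁' i (k h)) hg s e
    have hsD : ∑ hi, s hi = D := lin_degree A.adjugate hMH hs
    rw [hsD] at h1
    have h2 : Real.exp (∑ h, ∑ i, (s (h, i) : ℝ) * (b i * T h) +
        β * ∑ h, (e (Sum.inr h) : ℝ) * T h) ≤ Ex := by
      rw [hEx]
      apply Real.exp_le_exp.mpr
      have := hE s hs
      linarith
    have h3 : av v ((coeff e (bind₁ (cmb (fun h j i => fv A (g h j) i) (fun h i => A i (k h)))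
        (monomial s (1 : ℤ))) : ℤ) : ℚ) ≤ ((M + 1) * K₁) ^ D * Ex :=
      h1.trans (mul_le_mul_of_nonneg_left h2 (by positivity))
    exact mul_le_mul (av_intCast_le hv _) h3 (av_nonneg _ _) (abs_nonneg _)
  have hbound : δ ^ D * av v ((coeff e (phi g k P) : ℤ) : ℚ) ≤
      nm Q * (((M + 1) * K₁) ^ D * Ex) := by
    rw [hav, Int.cast_sum]
    refine (av_sum_le hv _ _).trans ?_
    refine (Finset.sum_le_sum hterm).trans ?_
    rw [← Finset.sum_mul]
    exact le_refl _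
  have hnmQ : nm Q ≤ ((2 : ℝ) ^ (M + 1)) ^ D * C₁ ^ D * (((M + 1 : ℕ) : ℝ) * β₁) ^ D := by
    refine (nm_lin A.adjugate β₁ (by linarith) hβ₁' hMH).trans ?_
    refine mul_le_mul_of_nonneg_right ?_ (by positivity)
    refine (nm_le_card_mul P _ hHB).trans ?_
    exact mul_le_mul_of_nonneg_right (card_support hMH) (by positivity)
  have hδD : 0 < δ ^ D := by positivity
  have hfin : av v ((coeff e (phi g k P) : ℤ) : ℚ) ≤ (K₂ * C₁) ^ D * Ex := by
    have h1 : δ ^ D * av v ((coeff e (phi g k P) : ℤ) : ℚ) ≤ δ ^ D * ((K₂ * C₁) ^ D * Ex) := by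
      refine hbound.trans ?_
      have h2 : δ ^ D * ((K₂ * C₁) ^ D * Ex) =
          ((2 : ℝ) ^ (M + 1)) ^ D * C₁ ^ D * (((M + 1 : ℕ) : ℝ) * β₁) ^ D *
            (((M + 1) * K₁) ^ D * Ex) := by
        have h3 : δ * (K₂ * C₁) = (2 : ℝ) ^ (M + 1) * C₁ * (((M + 1 : ℕ) : ℝ) * β₁) *
            ((M + 1) * K₁) := by
          rw [hK₂]
          field_simp
        rw [← mul_assoc, ← mul_pow, h3, mul_pow, mul_pow, mul_pow]
        ring
      rw [h2]
      exact mul_le_mul_of_nonneg_right hnmQ (by positivity)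
    exact le_of_mul_le_mul_left h1 hδD
  refine hfin.trans ?_
  refine mul_le_mul_of_nonneg_right ?_ hEx0.le
  refine pow_le_pow_left₀ (by positivity) ?_ _
  exact mul_le_mul_of_nonneg_right (le_max_right _ _) (by linarith)

end Pool.Agent.SBT
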