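import Pool.Agent.SBT.StmtsBC

/-!
# SBT (MP_57632f_nt), module SMI: the identity det^d * phi
-/

set_option autoImplicit false

namespace Pool.Agent.SBT

namespace SMI_

open MvPolynomial

theorem key {m M : ℕ} (A : Matrix (Fin (M + 1)) (Fin (M + 1)) ℤ)
    (g : Fin m → Fin M → Fin (M + 1) → ℤ) (k : Fin m → Fin (M + 1))
    (hk : Fin m × Fin (M + 1)) :
    ∑ i, C (A.adjugate hk.2 i) *
        cmb (fun h j i => fv A (g h j) i) (fun h i => A i (k h)) (hk.1, i) =
      C A.det * ((∑ j, C (g hk.1 j hk.2) * X (Sum.inl (hk.1, j))) +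
        if hk.2 = k hk.1 then X (Sum.inr hk.1) else 0) := by
  have hadj : ∀ l, ∑ i, A.adjugate hk.2 i * A i l = if hk.2 = l then A.det else 0 := by
    intro l
    have h := congrFun (congrFun (Matrix.adjugate_mul A) hk.2) l
    rw [Matrix.mul_apply, Matrix.smul_apply, Matrix.one_apply] at h
    rw [h]
    split_ifs <;> simp
  have h1 : ∀ j, ∑ i, A.adjugate hk.2 i * fv A (g hk.1 j) i = A.det * g hk.1 j hk.2 := by
    intro j
    unfold fv
    simp_rw [Finset.mul_sum, ← mul_assoc]
    rw [Finset.sum_comm]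
    simp_rw [← Finset.sum_mul, hadj]
    simp
  unfold cmb
  simp only [mul_add, Finset.sum_add_distrib]
  congr 1
  · simp_rw [Finset.mul_sum]
    rw [Finset.sum_comm]
    refine Finset.sum_congr rfl fun j _ => ?_
    simp_rw [← mul_assoc, ← C_mul]
    rw [← Finset.sum_mul, ← h1 j]
    congr 1
    rw [map_sum]
  · simp_rw [← mul_assoc, ← C_mul]
    rw [← Finset.sum_mul, ← map_sum, hadj]
    split_ifs <;> simp

theorem pow_out {m N : ℕ} {τ : Type} (d : Fin m → ℕ) (P : MvPolynomial (Fin m × Fin N) ℤ)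
    (hP : MH d P) (D : ℤ) (x : Fin m × Fin N → MvPolynomial τ ℤ) :
    bind₁ (fun hk => C D * x hk) P = C (D ^ (∑ h, d h)) * bind₁ x P := by
  unfold bind₁
  rw [aeval_def, aeval_def, eval₂_eq', eval₂_eq', Finset.mul_sum]
  refine Finset.sum_congr rfl fun s hs => ?_
  have h1 : ∏ i, (C D * x i) ^ s i = C (D ^ (∑ h, d h)) * ∏ i, x i ^ s i := by
    simp_rw [mul_pow]
    rw [Finset.prod_mul_distrib, Finset.prod_pow_eq_pow_sum]
    congr 1
    rw [map_pow]
    congr 1
    rw [Fintype.sum_prod_type]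
    exact Finset.sum_congr rfl fun h _ => hP s hs h
  rw [h1]
  ring

end SMI_

open MvPolynomial in
theorem smi_proof : Stmt_SMI := by
  intro m M A d g k P hP
  have h1 : (fun hk : Fin m × Fin (M + 1) =>
      bind₁ (cmb (fun h j i => fv A (g h j) i) (fun h i => A i (k h)))
        (∑ i, C (A.adjugate hk.2 i) * X (hk.1, i))) =
      fun hk => C A.det * ((∑ j, C (g hk.1 j hk.2) * X (Sum.inl (hk.1, j))) +
        if hk.2 = k hk.1 then X (Sum.inr hk.1) else 0) := by
    funext hk
    rw [map_sum]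
    simp only [map_mul, bind₁_X_right, algHom_C, algebraMap_eq]
    exact SMI_.key A g k hk
  unfold lin phi
  rw [bind₁_bind₁, h1, SMI_.pow_out d P hP]

end Pool.Agent.SBT
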