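import Pool.Agent.SBT.StmtsBC

/-!
# Squad SBT, module SML: the coefficients of small weight of `phi g k P` vanish
-/

set_option autoImplicit false

namespace Pool.Agent.SBT

open Filter

namespace SML_

open MvPolynomial

/-- the weight which counts the variables of the `h`-th block -/
def bw {m N : ℕ} (h : Fin m) : Fin m × Fin N → ℕ := fun x => if x.1 = h then 1 else 0

lemma weight_bw {m N : ℕ} (h : Fin m) (e : (Fin m × Fin N) →₀ ℕ) :
    Finsupp.weight (bw h) e = ∑ i, e (h, i) := by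
  rw [Finsupp.weight_apply, Finsupp.sum_fintype _ _ (by intro i; simp)]
  rw [Fintype.sum_prod_type]
  rw [Finset.sum_eq_single h]
  · simp [bw]
  · intro b _ hb
    simp [bw, hb]
  · intro hb
    exact absurd (Finset.mem_univ h) hb

/-- `lin` preserves the block degrees -/
lemma lin_MH {m N : ℕ} {d : Fin m → ℕ} {P : MvPolynomial (Fin m × Fin N) ℤ} (hP : MH d P)
    (A : Matrix (Fin N) (Fin N) ℤ) : MH d (lin A P) := by
  intro e he h
  rw [← weight_bw]
  have hfac : ∀ hk : Fin m × Fin N, IsWeightedHomogeneous (bw h)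
      (∑ i, C (A hk.2 i) * X (hk.1, i) : MvPolynomial (Fin m × Fin N) ℤ) (bw h hk) := by
    intro hk
    refine IsWeightedHomogeneous.sum _ _ _ fun i _ => ?_
    have h1 := (isWeightedHomogeneous_C (bw h) (A hk.2 i)).mul
      (isWeightedHomogeneous_X ℤ (bw h) (hk.1, i))
    rw [zero_add] at h1
    exact h1
  have hall : IsWeightedHomogeneous (bw h) (lin A P) (d h) := by
    unfold lin
    rw [P.as_sum, map_sum]
    refine IsWeightedHomogeneous.sum _ _ _ fun s hs => ?_
    rw [bind₁_monomial]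
    have h2 : IsWeightedHomogeneous (bw h) (∏ hk ∈ s.support,
        (∑ i, C (A hk.2 i) * X (hk.1, i) : MvPolynomial (Fin m × Fin N) ℤ) ^ s hk)
        (∑ hk ∈ s.support, s hk • bw h hk) :=
      IsWeightedHomogeneous.prod _ _ _ fun hk _ => (hfac hk).pow _
    have h3 := (isWeightedHomogeneous_C (bw h) (coeff s P)).mul h2
    rw [zero_add] at h3
    have h4 : ∑ hk ∈ s.support, s hk • bw h hk = d h := by
      have h5 := hP s hs h
      rw [← weight_bw, Finsupp.weight_apply] at h5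
      exact h5
    rw [h4] at h3
    exact h3
  exact hall (mem_support_iff.1 he)

/-- the product formula, one-sided -/
lemma prod_av {S : Finset ℕ} (hS : PS S) {a : ℤ} (ha : a ≠ 0) :
    1 ≤ ∏ v ∈ pl S, av v ((a : ℤ) : ℚ) := by
  have h0 : 0 ∉ S := fun h => (hS 0 h).ne_zero rfl
  unfold pl
  rw [Finset.prod_insert h0]
  have hav0 : av 0 ((a : ℤ) : ℚ) = |(a : ℝ)| := by
    simp [av]
  rw [hav0]
  have hprod : ∏ v ∈ S, av v ((a : ℤ) : ℚ) = ((∏ p ∈ S, p ^ padicValInt p a : ℕ) : ℝ)⁻¹ := by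
    push_cast
    rw [← Finset.prod_inv_distrib]
    refine Finset.prod_congr rfl fun p hp => ?_
    have hp0 : p ≠ 0 := fun h => h0 (h ▸ hp)
    unfold av
    rw [if_neg hp0, padicNorm.eq_zpow_of_nonzero (by exact_mod_cast ha)]
    push_cast
    rw [zpow_neg]
    congr 1
    rw [padicValRat.of_int]
    norm_cast
  rw [hprod]
  have hdvd : (∏ p ∈ S, p ^ padicValInt p a) ∣ a.natAbs := by
    refine Finset.prod_dvd_of_isRelPrime ?_ ?_
    · intro p hp q hq hpq
      exact Nat.coprime_iff_isRelPrime.1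
        (Nat.Coprime.pow _ _ ((Nat.coprime_primes (hS p hp) (hS q hq)).2 hpq))
    · intro p hp
      have := Fact.mk (hS p hp)
      unfold padicValInt
      exact pow_padicValNat_dvd
  have hle := Nat.le_of_dvd (Int.natAbs_pos.2 ha) hdvd
  have hpos : 0 < ∏ p ∈ S, p ^ padicValInt p a :=
    Finset.prod_pos fun p hp => pow_pos (hS p hp).pos _
  have hposR : (0 : ℝ) < ((∏ p ∈ S, p ^ padicValInt p a : ℕ) : ℝ) := by exact_mod_cast hpos
  have habs : |(a : ℝ)| = (a.natAbs : ℝ) := by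
    rw [Nat.cast_natAbs]
    push_cast
    rfl
  rw [habs, ← div_eq_mul_inv, one_le_div hposR]
  exact_mod_cast hle

/-- the exponent at one place -/
lemma est {m M : ℕ} (hm : 1 ≤ m) {d : Fin m → ℕ} {T : Fin m → ℝ} {W κ ε : ℝ} (hW : 0 < W)
    (hκ : 0 ≤ κ) (hε : 0 ≤ ε) (hd : ∀ h, 1 ≤ d h)
    (hdT : ∀ h, W ≤ d h * T h ∧ d h * T h ≤ (1 + κ) * W)
    {j : (Fin m × Fin (M + 1)) →₀ ℕ} (hj : ∀ h, ∑ i, j (h, i) = d h) (hG : Good d ε j)
    (b : Fin (M + 1) → ℝ) :
    ∑ h, ∑ i, (j (h, i) : ℝ) * (b i * T h) ≤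
      W * m * ((∑ i, b i) / (M + 1) + ((M + 1) * ε + κ) * ∑ i, |b i|) := by
  have hd' : ∀ h, (0 : ℝ) < d h := fun h => by
    have := hd h
    exact_mod_cast this
  have hm' : (0 : ℝ) < m := by exact_mod_cast hm
  set x : Fin (M + 1) → ℝ := fun i => ∑ h, (j (h, i) : ℝ) / d h with hx
  set y : Fin (M + 1) → ℝ := fun i => ∑ h, (j (h, i) : ℝ) * T h with hy
  -- sum of the `x i`
  have hsum : ∑ i, x i = m := by
    simp only [hx]
    rw [Finset.sum_comm]
    have h1 : ∀ h, ∑ i, (j (h, i) : ℝ) / d h = 1 := by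
      intro h
      rw [← Finset.sum_div]
      have h2 : ∑ i, (j (h, i) : ℝ) = d h := by exact_mod_cast hj h
      rw [h2, div_self (hd' h).ne']
    rw [Finset.sum_congr rfl fun h _ => h1 h]
    simp
  have hlow : ∀ i, (m : ℝ) / (M + 1) - m * ε ≤ x i := by
    intro i
    have := hG i
    push_cast at this
    exact this
  have hup : ∀ i, x i ≤ (m : ℝ) / (M + 1) + M * (m * ε) := by
    intro i
    have h1 : ∑ i' ∈ Finset.univ.erase i, ((m : ℝ) / (M + 1) - m * ε) ≤
        ∑ i' ∈ Finset.univ.erase i, x i' := Finset.sum_le_sum fun i' _ => hlow i'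
    rw [Finset.sum_const, Finset.card_erase_of_mem (Finset.mem_univ i), Finset.card_univ,
      Fintype.card_fin, Nat.add_sub_cancel, nsmul_eq_mul] at h1
    have h2 := Finset.add_sum_erase Finset.univ x (Finset.mem_univ i)
    rw [hsum] at h2
    have h3 : (m : ℝ) = (m : ℝ) / (M + 1) + M * ((m : ℝ) / (M + 1)) := by
      field_simp
      ring
    nlinarith [h1, h2, h3]
  have hxm : ∀ i, x i ≤ m := by
    intro i
    rw [← hsum]
    exact Finset.single_le_sum (f := x) (fun i' _ => by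
      simp only [hx]
      exact Finset.sum_nonneg fun h _ => div_nonneg (Nat.cast_nonneg _) (hd' h).le)
      (Finset.mem_univ i)
  -- comparison of `y i` with `W x i`
  have hy1 : ∀ i, W * x i ≤ y i := by
    intro i
    simp only [hx, hy, Finset.mul_sum]
    refine Finset.sum_le_sum fun h _ => ?_
    rw [mul_div_assoc', div_le_iff₀ (hd' h)]
    have h1 := (hdT h).1
    have h2 : (0 : ℝ) ≤ j (h, i) := Nat.cast_nonneg _
    nlinarith
  have hy2 : ∀ i, y i ≤ (1 + κ) * W * x i := by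
    intro i
    simp only [hx, hy, Finset.mul_sum]
    refine Finset.sum_le_sum fun h _ => ?_
    rw [mul_div_assoc', le_div_iff₀ (hd' h)]
    have h1 := (hdT h).2
    have h2 : (0 : ℝ) ≤ j (h, i) := Nat.cast_nonneg _
    nlinarith
  have hdist : ∀ i, |y i - W * m / (M + 1)| ≤ W * m * ((M + 1) * ε + κ) := by
    intro i
    rw [abs_le]
    constructor
    · have h1 := hy1 i
      have h2 := mul_le_mul_of_nonneg_left (hlow i) hW.le
      have h3 : 0 ≤ W * m * κ := by positivity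
      have h4 : 0 ≤ W * m * (M * ε) := by positivity
      have h5 : W * ((m : ℝ) / (M + 1) - m * ε) = W * m / (M + 1) - W * m * ε := by ring
      rw [h5] at h2
      nlinarith
    · have h1 := hy2 i
      have h2 := mul_le_mul_of_nonneg_left (hup i) hW.le
      have h3 := mul_le_mul_of_nonneg_left (hxm i) (mul_nonneg hκ hW.le)
      have h4 : 0 ≤ W * m * ε := by positivity
      have h5 : W * ((m : ℝ) / (M + 1) + M * (m * ε)) = W * m / (M + 1) + W * m * (M * ε) := by
        ring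
      rw [h5] at h2
      nlinarith
  have hswap : ∑ h, ∑ i, (j (h, i) : ℝ) * (b i * T h) = ∑ i, b i * y i := by
    rw [Finset.sum_comm]
    refine Finset.sum_congr rfl fun i _ => ?_
    simp only [hy, Finset.mul_sum]
    refine Finset.sum_congr rfl fun h _ => ?_
    ring
  rw [hswap]
  have hterm : ∀ i, b i * y i ≤ b i * (W * m / (M + 1)) + |b i| * (W * m * ((M + 1) * ε + κ)) := by
    intro i
    have h1 : b i * y i = b i * (W * m / (M + 1)) + b i * (y i - W * m / (M + 1)) := by ring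
    rw [h1]
    have h2 : b i * (y i - W * m / (M + 1)) ≤ |b i| * |y i - W * m / (M + 1)| := by
      rw [← abs_mul]
      exact le_abs_self _
    have h3 := mul_le_mul_of_nonneg_left (hdist i) (abs_nonneg (b i))
    linarith
  refine (Finset.sum_le_sum fun i _ => hterm i).trans (le_of_eq ?_)
  rw [Finset.sum_add_distrib, ← Finset.sum_mul, ← Finset.sum_mul]
  ring

end SML_

open SML_ in
theorem sml_proof (hSM1 : Stmt_SM1) : Stmt_SML := by
  intro M S L c δ hS hL hδ hc
  have h0S : 0 ∉ S := fun h => (hS 0 h).ne_zero rfl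
  set b : ℕ → Fin (M + 1) → ℝ := fun v i => c v i - if v = 0 then δ else 0 with hb
  set B : ℝ := ∑ v ∈ pl S, ∑ i, |b v i| + 1 with hB
  have hBnn : 0 ≤ ∑ v ∈ pl S, ∑ i, |b v i| :=
    Finset.sum_nonneg fun v _ => Finset.sum_nonneg fun i _ => abs_nonneg _
  have hB1 : 1 ≤ B := by rw [hB]; linarith
  have hB0 : 0 < B := by linarith
  set n : ℝ := ((pl S).card : ℝ) with hn
  have hn1 : 1 ≤ n := by
    rw [hn]
    have : 1 ≤ (pl S).card := Finset.card_pos.2 ⟨0, Finset.mem_insert_self _ _⟩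
    exact_mod_cast this
  have hM0 : (0 : ℝ) < (M : ℝ) + 1 := by positivity
  -- the sum of the `b`
  have hbsum : ∑ v ∈ pl S, ∑ i, b v i ≤ -((M + 1) * δ) := by
    have h1 : ∑ v ∈ pl S, ∑ i, b v i = ∑ v ∈ pl S, ∑ i, c v i - (M + 1) * δ := by
      simp only [hb, Finset.sum_sub_distrib]
      congr 1
      unfold pl
      rw [Finset.sum_insert h0S]
      simp only [if_true]
      rw [Finset.sum_eq_zero (s := S)]
      · simp
      · intro v hv
        have : v ≠ 0 := fun h => h0S (h ▸ hv)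
        simp [this]
    rw [h1]
    linarith
  have hbB : ∀ v ∈ pl S, ∀ i, |b v i| ≤ B := by
    intro v hv i
    have h1 : |b v i| ≤ ∑ i, |b v i| :=
      Finset.single_le_sum (f := fun i => |b v i|) (fun _ _ => abs_nonneg _) (Finset.mem_univ i)
    have h2 : ∑ i, |b v i| ≤ ∑ v ∈ pl S, ∑ i, |b v i| :=
      Finset.single_le_sum (f := fun v => ∑ i, |b v i|)
        (fun v _ => Finset.sum_nonneg fun i _ => abs_nonneg _) hv
    rw [hB]
    linarith
  refine ⟨δ / (8 * (M + 1) * B), min 1 (δ / (8 * B)), δ / (16 * n * B), by positivity,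
    by positivity, by positivity, ?_⟩
  set ε : ℝ := δ / (8 * (M + 1) * B) with hε
  set κ : ℝ := min 1 (δ / (8 * B)) with hκ
  set σ : ℝ := δ / (16 * n * B) with hσ
  have hε0 : 0 < ε := by positivity
  have hκ0 : 0 < κ := by positivity
  have hσ0 : 0 < σ := by positivity
  have hκ1 : κ ≤ 1 := min_le_left _ _
  have hκB : κ * B ≤ δ / 8 := by
    have h1 : κ ≤ δ / (8 * B) := min_le_right _ _
    calc κ * B ≤ δ / (8 * B) * B := mul_le_mul_of_nonneg_right h1 hB0.le
      _ = δ / 8 := by field_simp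
  have hεB : (M + 1) * ε * B = δ / 8 := by
    rw [hε]
    field_simp
  have hσB : 2 * n * B * σ = δ / 8 := by
    rw [hσ]
    field_simp
    norm_num
  -- constants from SM1
  have hex : ∀ v, ∃ K : ℝ, v ∈ pl S → 1 ≤ K ∧ ∀ (m : ℕ) (d : Fin m → ℕ) (T : Fin m → ℝ)
      (b : Fin (M + 1) → ℝ)
      (β C₁ E : ℝ) (g : Fin m → Fin M → Fin (M + 1) → ℤ) (k : Fin m → Fin (M + 1))
      (P : MvPolynomial (Fin m × Fin (M + 1)) ℤ), (∀ h, 0 ≤ T h) → (∀ i, |b i| ≤ β) → 1 ≤ C₁ →
      MH d P → HB P (C₁ ^ (∑ h, d h)) →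
      (∀ h j i, av v (fv (L v) (g h j) i) ≤ Real.exp (b i * T h)) →
      (∀ j ∈ (lin (L v).adjugate P).support, ∑ h, ∑ i, (j (h, i) : ℝ) * (b i * T h) ≤ E) →
      ∀ e, av v ((MvPolynomial.coeff e (phi g k P) : ℤ) : ℚ) ≤
        (K * C₁) ^ (∑ h, d h) * Real.exp (E + β * ∑ h, (e (Sum.inr h) : ℝ) * T h) := by
    intro v
    by_cases hv : v ∈ pl S
    · have hvp : v = 0 ∨ v.Prime := by
        rcases Finset.mem_insert.1 hv with h | h
        · exact Or.inl h
        · exact Or.inr (hS v h)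
      obtain ⟨K, hK⟩ := hSM1 M v (L v) hvp (hL v hv)
      exact ⟨K, fun _ => hK⟩
    · exact ⟨0, fun h => absurd h hv⟩
  choose K hK using hex
  intro C₁ hC₁
  set Λ : ℝ := ∑ v ∈ pl S, Real.log (K v * C₁) with hΛ
  have hKC : ∀ v ∈ pl S, 1 ≤ K v * C₁ := by
    intro v hv
    have := (hK v hv).1
    nlinarith
  have hΛ0 : 0 ≤ Λ := Finset.sum_nonneg fun v hv => Real.log_nonneg (hKC v hv)
  refine ⟨16 * Λ / δ + 1, by positivity, ?_⟩
  set T₀ : ℝ := 16 * Λ / δ + 1 with hT₀
  have hT₀0 : 0 < T₀ := by positivity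
  have hΛT : 2 * Λ / T₀ ≤ δ / 8 := by
    rw [div_le_iff₀ hT₀0, hT₀]
    have h1 : δ / 8 * (16 * Λ / δ + 1) = 2 * Λ + δ / 8 := by
      field_simp
      ring
    rw [h1]
    linarith
  intro m d T W g k P hm hW hd hdT hT hMH hHB hgood hg e he
  have hm' : (0 : ℝ) < m := by exact_mod_cast hm
  have hd' : ∀ h, (0 : ℝ) < d h := fun h => by
    have := hd h
    exact_mod_cast this
  have hTp : ∀ h, 0 < T h := fun h => lt_of_lt_of_le hT₀0 (hT h)
  by_contra hcon
  rw [not_lt] at hcon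
  have ha : MvPolynomial.coeff e (phi g k P) ≠ 0 := MvPolynomial.mem_support_iff.1 he
  have hpf := prod_av hS ha
  set E : ℕ → ℝ := fun v =>
    W * m * ((∑ i, b v i) / (M + 1) + ((M + 1) * ε + κ) * ∑ i, |b v i|) with hE
  set X : ℝ := ∑ h, (e (Sum.inr h) : ℝ) * T h with hX
  have hav : ∀ v ∈ pl S, av v ((MvPolynomial.coeff e (phi g k P) : ℤ) : ℚ) ≤
      Real.exp ((∑ h, (d h : ℝ)) * Real.log (K v * C₁) + (E v + B * X)) := by
    intro v hv
    have h1 := (hK v hv).2 m d T (b v) B C₁ (E v) g k P (fun h => (hTp h).le) (hbB v hv) hC₁ hMH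
      hHB (fun h j i => hg v hv h j i) (fun j hj => ?_) e
    · refine h1.trans (le_of_eq ?_)
      have h2 : 0 < K v * C₁ := lt_of_lt_of_le one_pos (hKC v hv)
      have h3 : (∑ h, (d h : ℝ)) * Real.log (K v * C₁) =
          ((∑ h, d h : ℕ) : ℝ) * Real.log (K v * C₁) := by push_cast; rfl
      rw [h3, Real.exp_add (((∑ h, d h : ℕ) : ℝ) * Real.log (K v * C₁)), Real.exp_nat_mul,
        Real.exp_log h2]
    · exact est hm hW hκ0.le hε0.le hd hdT (lin_MH hMH _ j hj) (hgood v hv j hj) (b v)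
  have havnn : ∀ v, 0 ≤ av v ((MvPolynomial.coeff e (phi g k P) : ℤ) : ℚ) := by
    intro v
    unfold av
    split_ifs
    · exact abs_nonneg _
    · exact_mod_cast padicNorm.nonneg _
  have hprod := Finset.prod_le_prod (fun v _ => havnn v) hav
  rw [← Real.exp_sum] at hprod
  have h1 : (1 : ℝ) ≤ Real.exp (∑ v ∈ pl S,
      ((∑ h, (d h : ℝ)) * Real.log (K v * C₁) + (E v + B * X))) := hpf.trans hprod
  have h2 : 0 ≤ ∑ v ∈ pl S, ((∑ h, (d h : ℝ)) * Real.log (K v * C₁) + (E v + B * X)) := by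
    rw [← Real.exp_zero] at h1
    exact Real.exp_le_exp.1 h1
  rw [Finset.sum_add_distrib, Finset.sum_add_distrib, ← Finset.mul_sum, Finset.sum_const,
    nsmul_eq_mul, ← hΛ, ← hn] at h2
  -- the three parts
  have hEs : ∑ v ∈ pl S, E v ≤ W * m * (-δ + δ / 4) := by
    have h3 : ∑ v ∈ pl S, E v = W * m * ((∑ v ∈ pl S, ∑ i, b v i) / (M + 1) +
        ((M + 1) * ε + κ) * ∑ v ∈ pl S, ∑ i, |b v i|) := by
      simp only [hE]
      rw [← Finset.mul_sum, Finset.sum_add_distrib, Finset.sum_div, Finset.mul_sum]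
    rw [h3]
    refine mul_le_mul_of_nonneg_left ?_ (by positivity)
    have h4 : (∑ v ∈ pl S, ∑ i, b v i) / (M + 1) ≤ -δ := by
      rw [div_le_iff₀ hM0]
      linarith
    have h5 : ((M + 1) * ε + κ) * ∑ v ∈ pl S, ∑ i, |b v i| ≤ δ / 4 := by
      have h6 : ∑ v ∈ pl S, ∑ i, |b v i| ≤ B := by rw [hB]; linarith
      have h7 := mul_le_mul_of_nonneg_left h6 (show (0 : ℝ) ≤ (M + 1) * ε + κ by positivity)
      have h8 : ((M + 1) * ε + κ) * B = (M + 1) * ε * B + κ * B := by ring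
      rw [h8, hεB] at h7
      linarith
    linarith
  have hXs : X ≤ 2 * W * (σ * m) := by
    have h3 : X ≤ ∑ h, (e (Sum.inr h) : ℝ) / d h * (2 * W) := by
      rw [hX]
      refine Finset.sum_le_sum fun h _ => ?_
      rw [div_mul_eq_mul_div, le_div_iff₀ (hd' h)]
      have h4 := (hdT h).2
      have h5 : (0 : ℝ) ≤ e (Sum.inr h) := Nat.cast_nonneg _
      have h6 : d h * T h ≤ 2 * W := by nlinarith
      calc (e (Sum.inr h) : ℝ) * T h * d h = (e (Sum.inr h) : ℝ) * (d h * T h) := by ring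
        _ ≤ (e (Sum.inr h) : ℝ) * (2 * W) := mul_le_mul_of_nonneg_left h6 h5
    rw [← Finset.sum_mul] at h3
    have h7 := mul_le_mul_of_nonneg_right hcon (show (0 : ℝ) ≤ 2 * W by positivity)
    linarith
  have hds : (∑ h, (d h : ℝ)) ≤ 2 * W * m / T₀ := by
    have h3 : ∀ h, (d h : ℝ) ≤ 2 * W / T₀ := by
      intro h
      rw [le_div_iff₀ hT₀0]
      have h4 := (hdT h).2
      have h5 : (d h : ℝ) * T₀ ≤ d h * T h := mul_le_mul_of_nonneg_left (hT h) (hd' h).le
      nlinarith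
    refine (Finset.sum_le_sum fun h _ => h3 h).trans (le_of_eq ?_)
    rw [Finset.sum_const, Finset.card_univ, Fintype.card_fin, nsmul_eq_mul]
    ring
  have hA1 : (∑ h, (d h : ℝ)) * Λ ≤ W * m * (δ / 8) := by
    have h3 := mul_le_mul_of_nonneg_right hds hΛ0
    have h4 : 2 * W * m / T₀ * Λ = W * m * (2 * Λ / T₀) := by ring
    rw [h4] at h3
    exact h3.trans (mul_le_mul_of_nonneg_left hΛT (by positivity))
  have hA2 : n * (B * X) ≤ W * m * (δ / 8) := by
    have h3 := mul_le_mul_of_nonneg_left hXs (show (0 : ℝ) ≤ n * B by positivity)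
    have h4 : n * B * (2 * W * (σ * m)) = W * m * (2 * n * B * σ) := by ring
    rw [h4, hσB] at h3
    linarith
  have hfin : 0 < W * m * δ := by positivity
  nlinarith [h2, hEs, hA1, hA2, hfin]

end Pool.Agent.SBT
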