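import Pool.Agent.SBT.Stmts
import Pool.Agent.SBT.Api

/-!
# SUB: the Subspace theorem from the parametric one
-/

set_option autoImplicit false

namespace Pool.Agent.SBT

open Filter Topology

/-- a row of a matrix with nonzero determinant is not zero -/
theorem row_ne_zero {N : ℕ} {A : Matrix (Fin N) (Fin N) ℤ} (hA : A.det ≠ 0) (i : Fin N) :
    A i ≠ 0 := fun h => hA (Matrix.det_eq_zero_of_row_eq_zero i fun j => congrFun h j)

/-- SUB -/
theorem sub_proof (hP : Stmt_PAR) : Stmt_SUB := by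
  intro N S U T L x C ε hN hS hT hL hε hxC hprod
  by_cases hz : ∃ v ∈ pl S, ∃ i, ∀ᶠ n in (U : Filter ℕ), fv (L v) (x n) i = 0
  · obtain ⟨v, hv, i, h⟩ := hz
    exact ⟨L v i, row_ne_zero (hL v hv) i, h⟩
  push Not at hz
  have hnz : ∀ᶠ n in (U : Filter ℕ), ∀ v ∈ pl S, ∀ i, fv (L v) (x n) i ≠ 0 := by
    rw [Filter.eventually_all_finset]
    intro v hv
    rw [eventually_all]
    intro i
    exact hz v hv i
  -- upper bound for the integers
  obtain ⟨K, hK1, hK⟩ : ∃ K : ℝ, 1 ≤ K ∧ ∀ᶠ n in (U : Filter ℕ), ∀ v ∈ pl S, ∀ i,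
      |((fv (L v) (x n) i : ℤ) : ℝ)| ≤ K * Real.exp (C * T n) := by
    have h1 : ∀ v, ∃ K : ℝ, 1 ≤ K ∧ ∀ (x : Fin N → ℤ) (t : ℝ), (∀ k, av 0 (x k : ℚ) ≤ t) →
        ∀ i, av 0 (fv (L v) x i : ℚ) ≤ K * t := fun v => av_fv_le (Or.inl rfl) (L v)
    choose K hK1 hK using h1
    refine ⟨1 + ∑ v ∈ pl S, K v, ?_, ?_⟩
    · have : 0 ≤ ∑ v ∈ pl S, K v := Finset.sum_nonneg fun v _ => by linarith [hK1 v]
      linarith
    · refine hxC.mono fun n hn => ?_
      intro v hv i
      have h2 := hK v (x n) (Real.exp (C * T n)) (fun k => by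
        rw [av_zero_eq]
        simpa using hn k) i
      rw [av_zero_eq, Rat.cast_intCast] at h2
      refine h2.trans (mul_le_mul_of_nonneg_right ?_ (Real.exp_pos _).le)
      have h3 : K v ≤ ∑ v ∈ pl S, K v :=
        Finset.single_le_sum (fun v _ => by linarith [hK1 v]) hv
      linarith
  have hKe := ev_const_le_exp hT one_pos K
  have hT1 := ev_pos hT
  -- the exponents
  obtain ⟨e, he⟩ : ∃ e : ℕ → Fin N → ℕ → ℝ,
      e = fun v i n => Real.log (av v (fv (L v) (x n) i : ℚ)) / T n := ⟨_, rfl⟩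
  have hev : ∀ v ∈ pl S, ∀ i, ∀ᶠ n in (U : Filter ℕ),
      av v (fv (L v) (x n) i : ℚ) = Real.exp (e v i n * T n) := by
    intro v hv i
    filter_upwards [hnz, hT1] with n h1 h2
    rw [he]
    simp only
    rw [div_mul_cancel₀ _ h2.ne', Real.exp_log]
    exact av_pos (place_of_mem hS hv) (by exact_mod_cast h1 v hv i)
  have hbd : ∀ v ∈ pl S, ∀ i, ∀ᶠ n in (U : Filter ℕ), -(|C| + 1) ≤ e v i n ∧ e v i n ≤ |C| + 1 := by
    intro v hv i
    filter_upwards [hnz, hT1, hK, hKe, hev v hv i] with n h1 h2 h3 h4 h5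
    have h6 : |((fv (L v) (x n) i : ℤ) : ℝ)| ≤ Real.exp ((|C| + 1) * T n) := by
      refine (h3 v hv i).trans ?_
      calc K * Real.exp (C * T n) ≤ Real.exp (1 * T n) * Real.exp (C * T n) :=
            mul_le_mul_of_nonneg_right h4 (Real.exp_pos _).le
        _ = Real.exp ((1 + C) * T n) := by rw [← Real.exp_add, ← add_mul]
        _ ≤ Real.exp ((|C| + 1) * T n) := by
            apply Real.exp_le_exp.2
            apply mul_le_mul_of_nonneg_right _ h2.le
            linarith [le_abs_self C]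
    have h7 := av_int_le_abs (place_of_mem hS hv) (fv (L v) (x n) i)
    have h8 := inv_abs_le_av (place_of_mem hS hv) (h1 v hv i)
    rw [h5] at h7 h8
    constructor
    · have h9 : Real.exp (-(|C| + 1) * T n) ≤ Real.exp (e v i n * T n) := by
        refine le_trans ?_ h8
        rw [neg_mul, Real.exp_neg]
        apply inv_anti₀ _ h6
        have := one_le_abs_int (h1 v hv i)
        linarith
      exact le_of_mul_le_mul_right (Real.exp_le_exp.1 h9) h2
    · exact le_of_mul_le_mul_right (Real.exp_le_exp.1 (h7.trans h6)) h2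
  have hlim : ∀ v i, ∃ l : ℝ, v ∈ pl S → Tendsto (e v i) (U : Filter ℕ) (𝓝 l) := by
    intro v i
    by_cases hv : v ∈ pl S
    · obtain ⟨l, -, -, hl⟩ := ult_lim U (e v i) _ _ (hbd v hv i)
      exact ⟨l, fun _ => hl⟩
    · exact ⟨0, fun h => absurd h hv⟩
  choose l hl using hlim
  -- the sum of the limits
  have hsum : ∑ v ∈ pl S, ∑ i, l v i ≤ -ε := by
    have h1 : Tendsto (fun n => ∑ v ∈ pl S, ∑ i, e v i n) (U : Filter ℕ)
        (𝓝 (∑ v ∈ pl S, ∑ i, l v i)) :=
      tendsto_finsetSum _ fun v hv => tendsto_finsetSum _ fun i _ => hl v i hv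
    refine le_of_tendsto h1 ?_
    have h2 : ∀ᶠ n in (U : Filter ℕ), ∀ v ∈ pl S, ∀ i,
        av v (fv (L v) (x n) i : ℚ) = Real.exp (e v i n * T n) := by
      rw [Filter.eventually_all_finset]
      intro v hv
      rw [eventually_all]
      exact hev v hv
    filter_upwards [hprod, h2, hT1] with n h3 h4 h5
    have h6 : ∏ v ∈ pl S, ∏ i, av v (fv (L v) (x n) i : ℚ) =
        Real.exp ((∑ v ∈ pl S, ∑ i, e v i n) * T n) := by
      rw [Finset.sum_mul, Real.exp_sum]
      refine Finset.prod_congr rfl fun v hv => ?_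
      rw [Finset.sum_mul, Real.exp_sum]
      exact Finset.prod_congr rfl fun i _ => h4 v hv i
    rw [h6] at h3
    exact le_of_mul_le_mul_right (Real.exp_le_exp.1 h3) h5
  -- new exponents
  obtain ⟨h, hh⟩ : ∃ h : ℝ, h = ε / (2 * (N * (pl S).card + 1)) := ⟨_, rfl⟩
  have hh0 : 0 < h := by rw [hh]; positivity
  have hh1 : (N * (pl S).card : ℝ) * h < ε := by
    have h1 : (2 * ((N : ℝ) * (pl S).card + 1)) * h = ε := by
      rw [hh]
      field_simp
    have h2 : 0 ≤ (N : ℝ) * (pl S).card * h := by positivity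
    nlinarith
  obtain ⟨c, hc⟩ : ∃ c : ℕ → Fin N → ℝ,
      c = fun v i => if v = 0 then l v i + h else min 0 (l v i + h) := ⟨_, rfl⟩
  have hcle : ∀ v i, c v i ≤ l v i + h := by
    intro v i
    rw [hc]
    simp only
    split_ifs
    · exact le_rfl
    · exact min_le_right _ _
  refine hP N S U T L c x hN hS hT hL ?_ ?_ ?_
  · intro p hp i
    rw [hc]
    simp only
    rw [if_neg (hS p hp).ne_zero]
    exact min_le_left _ _
  · calc ∑ v ∈ pl S, ∑ i, c v i ≤ ∑ v ∈ pl S, ∑ i, (l v i + h) :=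
          Finset.sum_le_sum fun v _ => Finset.sum_le_sum fun i _ => hcle v i
      _ = ∑ v ∈ pl S, ∑ i, l v i + (N * (pl S).card : ℝ) * h := by
          simp only [Finset.sum_add_distrib, Finset.sum_const, Finset.card_univ,
            Fintype.card_fin, nsmul_eq_mul]
          ring
      _ < 0 := by linarith
  · rw [Filter.eventually_all_finset]
    intro v hv
    rw [eventually_all]
    intro i
    have h1 : ∀ᶠ n in (U : Filter ℕ), e v i n < l v i + h :=
      (hl v i hv).eventually_lt_const (by linarith)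
    filter_upwards [h1, hev v hv i, hT1] with n h2 h3 h4
    rw [hc]
    simp only
    split_ifs with hv0
    · rw [h3]
      exact Real.exp_le_exp.2 (mul_le_mul_of_nonneg_right h2.le h4.le)
    · rcases min_cases 0 (l v i + h) with ⟨h5, -⟩ | ⟨h5, -⟩
      · rw [h5, zero_mul, Real.exp_zero]
        have hvp : v.Prime := (place_of_mem hS hv).resolve_left hv0
        exact av_int_le_one hvp _
      · rw [h5, h3]
        exact Real.exp_le_exp.2 (mul_le_mul_of_nonneg_right h2.le h4.le)

end Pool.Agent.SBT
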