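import Pool.Agent.SBT.StmtsBC

set_option autoImplicit false

namespace Pool.Agent.SBT

open Filter

theorem tha_proof (hAUX : Stmt_AUX) (hSML : Stmt_SML) (hRED : Stmt_RED) (hNRM : Stmt_NRM)
    (hNRK : Stmt_NRK) (hLBH : Stmt_LBH) (hRTL : Stmt_RTL) (hSQN : Stmt_SQN) : Stmt_THA := by
  classical
  intro M S U T L c δ g hM hPS hT hdet hcsum hδ hLI hbd
  obtain ⟨a, ha, hLB⟩ := hLBH M S U T L c δ g hM hPS hT hdet hcsum hδ hLI hbd
  -- choose normal vectors
  have hw : ∀ n, ∃ w : Fin (M + 1) → ℤ, LinearIndependent ℚ (fun j => fun i => (g n j i : ℚ)) →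
      (∀ z : ℤ, (∀ i, z ∣ w i) → IsUnit z) ∧ ∀ j, ∑ i, w i * g n j i = 0 := by
    intro n
    by_cases h : LinearIndependent ℚ (fun j => fun i => (g n j i : ℚ))
    · obtain ⟨w, hw⟩ := hNRM M (g n) h
      exact ⟨w, fun _ => hw⟩
    · exact ⟨0, fun h' => absurd h' h⟩
  choose w hw using hw
  have hw' : ∀ᶠ n in (U : Filter ℕ), (∀ z : ℤ, (∀ i, z ∣ w n i) → IsUnit z) ∧
      ∀ j, ∑ i, w n i * g n j i = 0 := hLI.mono (fun n hn => hw n hn)
  rcases hLB w hw' with h | hbig
  · exact h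
  exfalso
  -- constants
  obtain ⟨ε, κ₀, σ, hε, hκ₀, hσ, hSML'⟩ := hSML M S L c δ hPS hdet hδ hcsum
  obtain ⟨C, hC, hAUX'⟩ := hAUX (M + 1) S L (by omega) hPS hdet
  obtain ⟨m₀, hAUX''⟩ := hAUX' ε hε
  obtain ⟨T₁, hT₁, hSML''⟩ := hSML' C hC
  set m : ℕ := max m₀ 1 with hm
  have hm1 : 1 ≤ m := le_max_right _ _
  have hmpos : (0 : ℝ) < m := by exact_mod_cast hm1
  have hτ : 0 < σ * m := mul_pos hσ hmpos
  obtain ⟨ω, hω, hRTL'⟩ := hRTL m (σ * m) hτ
  set κ : ℝ := min κ₀ 1 with hκdef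
  have hκ : 0 < κ := lt_min hκ₀ one_pos
  have hκ1 : κ ≤ 1 := min_le_right _ _
  have hκκ : κ ≤ κ₀ := min_le_left _ _
  have hMpos : (0 : ℝ) < M := by exact_mod_cast hM
  have hlogC : 0 ≤ Real.log C := Real.log_nonneg hC
  set T₂ : ℝ := 2 * M * (2 * Real.log C + 1) / (a * ω) with hT₂
  set T₀ : ℝ := max T₁ T₂ with hT₀
  have hT₀pos : 0 < T₀ := lt_of_lt_of_le hT₁ (le_max_left _ _)
  have hT₂le : T₂ ≤ T₀ := le_max_right _ _
  have hT₁le : T₁ ≤ T₀ := le_max_left _ _
  -- the sequence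
  obtain ⟨n, d, W, D, hE, hTn, hW, hd, hdW, hdω, hdD, hdsum, hDT⟩ :=
    hSQN U T (fun n => LinearIndependent ℚ (fun j => fun i => (g n j i : ℚ)) ∧
      (∀ v ∈ pl S, ∀ j i, av v (fv (L v) (g n j) i) ≤
        Real.exp ((c v i - if v = 0 then δ else 0) * T n)) ∧
      ((∀ z : ℤ, (∀ i, z ∣ w n i) → IsUnit z) ∧ ∀ j, ∑ i, w n i * g n j i = 0) ∧
      ∃ i, Real.exp (a * T n) < |(w n i : ℝ)|) m ω κ T₀ hm1 hT
      (hLI.and (hbd.and (hw'.and hbig))) hω hκ hT₀pos
  obtain ⟨P, hP0, hMH, hHB, hGood⟩ := hAUX'' m (le_max_left _ _) d hd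
  have hkl : ∀ h : Fin m, ∃ k l : Fin (M + 1), k ≠ l ∧ w (n h) k ≠ 0 ∧
      ∀ i, (|w (n h) i| : ℝ) ≤ (((-(w (n h) l : ℚ) / w (n h) k).den : ℕ) : ℝ) ^ M :=
    fun h => hNRK M (w (n h)) hM (hE h).2.2.1.1
  choose k l hkne hwk hden using hkl
  have hsml : ∀ e ∈ (phi (fun h => g (n h)) k P).support,
      σ * m < ∑ h, (e (Sum.inr h) : ℝ) / d h := by
    refine hSML'' m d (fun h => T (n h)) W (fun h => g (n h)) k P hm1 hW hd ?_ ?_ hMH hHB hGood ?_
    · intro h
      refine ⟨(hdW h).1, (hdW h).2.trans ?_⟩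
      exact mul_le_mul_of_nonneg_right (by linarith) hW.le
    · intro h; exact hT₁le.trans (hTn h)
    · intro v hv h j i
      exact (hE h).2.1 v hv j i
  obtain ⟨p, hp0, hpdeg, hpHB, hpsupp⟩ := hRED m M d P (fun h => w (n h)) (fun h => g (n h)) k l
    (σ * m) (C ^ (∑ h, d h)) hP0 hMH hkne hwk (fun h j => (hE h).2.2.1.2 j) (fun h => (hE h).1)
    hHB hsml
  -- Roth's lemma
  have hA : C ^ (∑ h, d h) = Real.exp (((∑ h, d h : ℕ) : ℝ) * Real.log C) := by
    rw [← Real.rpow_natCast, Real.rpow_def_of_pos (by linarith), mul_comm]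
  have hDpos : 0 ≤ D := by
    have := hdD ⟨0, hm1⟩
    exact (Nat.cast_nonneg _).trans this
  have hsumle : (((∑ h, d h : ℕ) : ℝ)) ≤ 2 * D := by
    push_cast
    exact hdsum
  obtain ⟨e, he, hwt⟩ := hRTL' p d (fun h => -(w (n h) (l h) : ℚ) / w (n h) (k h))
    (((∑ h, d h : ℕ) : ℝ) * Real.log C) D hp0 hd hpdeg hdω hdD hdsum (by rw [← hA]; exact hpHB)
    (by
      intro h
      obtain ⟨i, hi⟩ := (hE h).2.2.2
      set q : ℕ := (-(w (n h) (l h) : ℚ) / w (n h) (k h)).den with hq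
      have hqpos : (0 : ℝ) < q := by
        have : 0 < q := Rat.den_pos _
        exact_mod_cast this
      have h1 : Real.exp (a * T (n h)) < (q : ℝ) ^ M := by
        refine lt_of_lt_of_le hi ?_
        have := hden h i
        simpa [hq] using this
      have h2 : a * T (n h) < M * Real.log q := by
        have h3 := Real.log_lt_log (Real.exp_pos _) h1
        rwa [Real.log_exp, Real.log_pow] at h3
      have h4 : a * T (n h) / M ≤ Real.log q := by
        rw [div_le_iff₀ hMpos]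
        linarith
      have hdpos : (0 : ℝ) < d h := by
        have := hd h
        exact_mod_cast this
      have h5 : a * W / M ≤ d h * Real.log q := by
        calc a * W / M ≤ a * (d h * T (n h)) / M := by
              apply div_le_div_of_nonneg_right _ hMpos.le
              exact mul_le_mul_of_nonneg_left (hdW h).1 ha.le
          _ = d h * (a * T (n h) / M) := by ring
          _ ≤ d h * Real.log q := mul_le_mul_of_nonneg_left h4 hdpos.le
      have h6 : D * T₂ ≤ 2 * W := by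
        calc D * T₂ ≤ D * T₀ := mul_le_mul_of_nonneg_left hT₂le hDpos
          _ ≤ (1 + κ) * W := hDT
          _ ≤ 2 * W := mul_le_mul_of_nonneg_right (by linarith) hW.le
      have h7 : D * (2 * Real.log C + 1) ≤ ω * (a * W / M) := by
        have h8 : D * (2 * Real.log C + 1) * (2 * M / (a * ω)) ≤ 2 * W := by
          calc D * (2 * Real.log C + 1) * (2 * M / (a * ω)) = D * T₂ := by
                rw [hT₂]; ring
            _ ≤ 2 * W := h6
        have h9 : 0 < 2 * M / (a * ω) := by positivity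
        have h10 : D * (2 * Real.log C + 1) ≤ 2 * W / (2 * M / (a * ω)) := by
          rw [le_div_iff₀ h9]; exact h8
        refine h10.trans (le_of_eq ?_)
        field_simp
      calc (((∑ h, d h : ℕ) : ℝ)) * Real.log C + D ≤ 2 * D * Real.log C + D := by
            have := mul_le_mul_of_nonneg_right hsumle hlogC
            linarith
        _ = D * (2 * Real.log C + 1) := by ring
        _ ≤ ω * (a * W / M) := h7
        _ ≤ ω * (d h * Real.log q) := mul_le_mul_of_nonneg_left h5 hω.le)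
  have := hpsupp e he
  exact absurd hwt (not_le.mpr this)

end Pool.Agent.SBT
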