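import Pool.Agent.SBT.Stmts

/-!
# ANN: from the compound back to the space
-/

set_option autoImplicit false

namespace Pool.Agent.SBT

/-- the alternating map with coordinates `w` -/
noncomputable def om {N p : ℕ} (w : Sb N p → ℚ) : (Fin N → ℚ) [⋀^Fin p]→ₗ[ℚ] ℚ :=
  ∑ t, w t • (Matrix.detRowAlternating (n := Fin p) (R := ℚ)).compLinearMap
    (LinearMap.funLeft ℚ ℚ t.1)

theorem om_apply {N p : ℕ} (w : Sb N p → ℚ) (v : Fin p → Fin N → ℚ) :
    om w v = ∑ t, w t * (Matrix.of fun a b => v a (t.1 b)).det := by
  have h : ∀ (s : Finset (Sb N p)) (f : Sb N p → (Fin N → ℚ) [⋀^Fin p]→ₗ[ℚ] ℚ),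
      (∑ t ∈ s, f t) v = ∑ t ∈ s, f t v := by
    classical
    intro s f
    induction s using Finset.induction_on with
    | empty => simp
    | insert a s ha ih => rw [Finset.sum_insert ha, Finset.sum_insert ha,
        AlternatingMap.add_apply, ih]
  unfold om
  rw [h]
  refine Finset.sum_congr rfl fun t _ => ?_
  rw [AlternatingMap.smul_apply, smul_eq_mul]
  rfl

/-- the alternating map at columns of a matrix -/
theorem om_cols {N p : ℕ} (w : Sb N p → ℚ) (G : Matrix (Fin N) (Fin N) ℚ) (s : Sb N p) :
    om w (fun a i => G i (s.1 a)) = ∑ t, w t * cpd p G t s := by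
  rw [om_apply]
  refine Finset.sum_congr rfl fun t _ => ?_
  congr 1
  rw [← Matrix.det_transpose]
  rfl

/-- two increasing tuples -/
theorem exists_notMem_range {N p : ℕ} {t κ : Sb N p} (h : t ≠ κ) :
    ∃ b, ∀ a, κ.1 a ≠ t.1 b := by
  by_contra hc
  push Not at hc
  have h1 : (Finset.univ.image t.1) ⊆ (Finset.univ.image κ.1) := by
    intro i hi
    obtain ⟨b, -, rfl⟩ := Finset.mem_image.1 hi
    obtain ⟨a, ha⟩ := hc b
    exact Finset.mem_image.2 ⟨a, Finset.mem_univ a, ha⟩
  have h2 := Finset.eq_of_subset_of_card_le h1 (by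
    rw [Finset.card_image_of_injective _ κ.2.injective,
      Finset.card_image_of_injective _ t.2.injective])
  have h3 : Set.range t.1 = Set.range κ.1 := by
    have := congrArg (fun s : Finset (Fin N) => (s : Set (Fin N))) h2
    simpa using this
  exact h (Subtype.ext ((t.2.range_inj κ.2).1 h3))

theorem ann_proof : Stmt_ANN := by
  intro k p w hp hw
  obtain ⟨q, rfl⟩ : ∃ q, p = q + 1 := ⟨p - 1, by omega⟩
  obtain ⟨κ, hκ⟩ : ∃ κ, w κ ≠ 0 := by
    by_contra h
    push Not at h
    exact hw (funext h)
  obtain ⟨tl, htl⟩ : ∃ tl : Fin q → Fin (k + (q + 1)) → ℚ,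
      tl = fun a j => if κ.1 a.succ = j then 1 else 0 := ⟨_, rfl⟩
  let ℓ : (Fin (k + (q + 1)) → ℚ) →ₗ[ℚ] ℚ :=
    { toFun := fun x => (om w).curryLeft x tl
      map_add' := fun x y => by simp
      map_smul' := fun a x => by simp }
  have hℓ : ∀ x, ℓ x = om w (Matrix.vecCons x tl) := fun x => rfl
  refine ⟨fun i => ℓ (fun j => if i = j then 1 else 0), ?_, ?_⟩
  · intro h0
    have h1 := congrFun h0 (κ.1 0)
    simp only [Pi.zero_apply] at h1
    rw [hℓ, om_apply, Finset.sum_eq_single κ] at h1
    · have h2 : (Matrix.of fun a b => Matrix.vecCons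
          (fun j => if κ.1 0 = j then (1 : ℚ) else 0) tl a (κ.1 b)) = 1 := by
        ext a b
        rw [Matrix.of_apply, Matrix.one_apply]
        refine Fin.cases ?_ (fun a' => ?_) a
        · simp only [Matrix.cons_val_zero, κ.2.injective.eq_iff]
        · simp only [Matrix.cons_val_succ, htl, κ.2.injective.eq_iff]
      rw [h2, Matrix.det_one, mul_one] at h1
      exact hκ h1
    · intro t _ ht
      obtain ⟨b, hb⟩ := exists_notMem_range ht
      rw [Matrix.det_eq_zero_of_column_eq_zero b, mul_zero]
      intro a
      rw [Matrix.of_apply]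
      refine Fin.cases ?_ (fun a' => ?_) a
      · simp only [Matrix.cons_val_zero, if_neg (hb 0)]
      · simp only [Matrix.cons_val_succ, htl, if_neg (hb a'.succ)]
    · intro h
      exact absurd (Finset.mem_univ κ) h
  · intro G hG hs j hj
    have h1 : ∑ i, ℓ (fun j => if i = j then 1 else 0) * G i j = ℓ (fun i => G i j) := by
      rw [LinearMap.pi_apply_eq_sum_univ ℓ (fun i => G i j)]
      exact Finset.sum_congr rfl fun i _ => by rw [smul_eq_mul, mul_comm]
    rw [h1]
    -- the basis of the columns
    have hli : LinearIndependent ℚ (fun a => fun i => G i a) := by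
      have := Matrix.linearIndependent_cols_of_det_ne_zero hG
      exact this
    have hne : Nonempty (Fin (k + (q + 1))) := ⟨⟨0, by omega⟩⟩
    let b := basisOfLinearIndependentOfCardEqFinrank hli (by simp)
    have hb : ∀ a, b a = fun i => G i a := fun a =>
      congrFun (coe_basisOfLinearIndependentOfCardEqFinrank hli (by simp)) a
    have h2 : (om w).curryLeft (fun i => G i j) = 0 := by
      refine Module.Basis.ext_alternating b fun v hv => ?_
      rw [AlternatingMap.curryLeft_apply_apply, AlternatingMap.zero_apply]
      have h3 : Matrix.vecCons (fun i => G i j) (fun i => b (v i)) =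
          fun a => (fun i => G i ((Matrix.vecCons j v : Fin (q + 1) → Fin (k + (q + 1))) a)) := by
        funext a
        refine Fin.cases ?_ (fun a' => ?_) a
        · simp only [Matrix.cons_val_zero]
        · simp only [Matrix.cons_val_succ, hb]
      rw [h3]
      obtain ⟨u, hu⟩ : ∃ u : Fin (q + 1) → Fin (k + (q + 1)), u = Matrix.vecCons j v :=
        ⟨_, rfl⟩
      rw [← hu]
      by_cases hinj : Function.Injective u
      · have hmono : StrictMono (u ∘ Tuple.sort u) :=
          (Tuple.monotone_sort u).strictMono_of_injective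
            (hinj.comp (Tuple.sort u).injective)
        have h4 := (om w).map_perm (fun a => (fun i => G i (u a))) (Tuple.sort u)
        have h5 : om w ((fun a => (fun i => G i (u a))) ∘ (Tuple.sort u)) = 0 := by
          have h6 := om_cols w G ⟨u ∘ Tuple.sort u, hmono⟩
          have h7 : (⟨u ∘ Tuple.sort u, hmono⟩ : Sb (k + (q + 1)) (q + 1)) ≠
              lst k (q + 1) := by
            intro h8
            have h9 := congrArg Subtype.val h8
            have h10 := congrFun h9 ((Tuple.sort u).symm 0)
            simp only [Function.comp_apply, Equiv.apply_symm_apply] at h10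
            rw [hu, Matrix.cons_val_zero] at h10
            rw [h10] at hj
            simp [lst] at hj
          rw [hs _ h7] at h6
          exact h6
        rw [h5] at h4
        rcases Int.units_eq_one_or (Equiv.Perm.sign (Tuple.sort u)) with h | h
        · rw [h, one_smul] at h4
          exact h4.symm
        · rw [h] at h4
          simpa using h4.symm
      · exact AlternatingMap.map_eq_zero_of_not_injective _ _ fun h => hinj fun a b hab =>
          h (by simp only [hab])
    change (om w).curryLeft (fun i => G i j) tl = 0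
    rw [h2]
    rfl

end Pool.Agent.SBT
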