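import Pool.Agent.SBT.Stmts
import Pool.Agent.SBT.Api
import Pool.Agent.SBT.ANN

/-!
# THB: a gap between the `k`-th and the `(k+1)`-th vector of a good system
-/

set_option autoImplicit false

namespace Pool.Agent.SBT

open Filter

namespace THB_

/-! ## Compound matrices -/

theorem cpd_map {N p : ℕ} {R R' : Type} [CommRing R] [CommRing R'] (f : R →+* R')
    (A : Matrix (Fin N) (Fin N) R) (s t : Sb N p) :
    cpd p (A.map f) s t = f (cpd p A s t) := by
  unfold cpd
  rw [RingHom.map_det]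
  rfl

theorem cpd_transpose {N p : ℕ} {R : Type} [CommRing R] (A : Matrix (Fin N) (Fin N) R)
    (s t : Sb N p) : cpd p A.transpose s t = cpd p A t s := by
  unfold cpd
  rw [← Matrix.det_transpose]
  rfl

theorem cpd_one {N p : ℕ} {R : Type} [CommRing R] :
    cpd p (1 : Matrix (Fin N) (Fin N) R) = 1 := by
  ext s t
  unfold cpd
  by_cases h : s = t
  · subst h
    rw [Matrix.submatrix_one _ s.2.injective, Matrix.det_one, Matrix.one_apply_eq]
  · rw [Matrix.one_apply_ne h]
    obtain ⟨b, hb⟩ := exists_notMem_range h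
    apply Matrix.det_eq_zero_of_row_eq_zero b
    intro a
    rw [Matrix.submatrix_apply, Matrix.one_apply_ne (fun h' => hb a h'.symm)]

/-- the compound as a square matrix indexed by numbers -/
def hat {N p M : ℕ} (e : Fin M ≃ Sb N p) (A : Matrix (Fin N) (Fin N) ℤ) :
    Matrix (Fin M) (Fin M) ℤ := (cpd p A).submatrix e e

theorem hat_det {N p M : ℕ} (hCBN : Stmt_CBN) (e : Fin M ≃ Sb N p)
    (A : Matrix (Fin N) (Fin N) ℤ) (hA : A.det ≠ 0) : (hat e A).det ≠ 0 := by
  set AQ : Matrix (Fin N) (Fin N) ℚ := A.map (Int.castRingHom ℚ) with hAQ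
  have h1 : AQ.det ≠ 0 := by
    rw [hAQ, ← RingHom.mapMatrix_apply, ← RingHom.map_det]
    simpa using hA
  have h2 : AQ * AQ⁻¹ = 1 := Matrix.mul_nonsing_inv _ (isUnit_iff_ne_zero.2 h1)
  have h3 : cpd p AQ * cpd p AQ⁻¹ = 1 := by
    rw [← hCBN, h2, cpd_one]
  have h4 : (cpd p AQ).submatrix e e * (cpd p AQ⁻¹).submatrix e e = 1 := by
    rw [Matrix.submatrix_mul_equiv, h3, Matrix.submatrix_one_equiv]
  have h5 := congrArg Matrix.det h4
  rw [Matrix.det_mul, Matrix.det_one] at h5
  have h6 : ((cpd p AQ).submatrix e e).det = ((hat e A).det : ℚ) := by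
    have h7 : (cpd p AQ).submatrix e e = (hat e A).map (Int.castRingHom ℚ) := by
      ext i j
      exact cpd_map (Int.castRingHom ℚ) A (e i) (e j)
    rw [h7, ← RingHom.mapMatrix_apply, ← RingHom.map_det]
    rfl
  intro h0
  rw [h6, h0] at h5
  simp at h5

/-- the values of the compound forms at the compound vectors -/
theorem fv_hat {N p M : ℕ} (hCBN : Stmt_CBN) (e : Fin M ≃ Sb N p)
    (A : Matrix (Fin N) (Fin N) ℤ) (g : Fin N → Fin N → ℤ) (a b : Fin M) :
    fv (hat e A) (hat e (Matrix.of g) a) b =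
      (Matrix.of fun i j : Fin p => fv A (g ((e a).1 j)) ((e b).1 i)).det := by
  have h0 : fv (hat e A) (hat e (Matrix.of g) a) b =
      ∑ t, cpd p A (e b) (e t) * cpd p (Matrix.of g) (e a) (e t) := rfl
  rw [h0, Equiv.sum_comp e (fun t => cpd p A (e b) t * cpd p (Matrix.of g) (e a) t)]
  have h1 : ∑ t, cpd p A (e b) t * cpd p (Matrix.of g) (e a) t =
      (cpd p A * cpd p (Matrix.of g).transpose) (e b) (e a) := by
    rw [Matrix.mul_apply]
    refine Finset.sum_congr rfl fun t _ => ?_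
    rw [cpd_transpose]
  rw [h1, ← hCBN, ← fv_matrix]
  rfl

/-- the sum of the exponents in a tuple -/
noncomputable def nu {N p : ℕ} (μ : Fin N → ℝ) (s : Sb N p) : ℝ := ∑ a, μ (s.1 a)

theorem av_hat_le {N p M : ℕ} (hCBN : Stmt_CBN) (e : Fin M ≃ Sb N p) {v : ℕ}
    (hv : v = 0 ∨ v.Prime) (A : Matrix (Fin N) (Fin N) ℤ) (g : Fin N → Fin N → ℤ)
    (x y : Fin N → ℝ) (T : ℝ)
    (h : ∀ j i, av v (fv A (g j) i) ≤ Real.exp ((x i + y j) * T)) (a b : Fin M) :
    av v (fv (hat e A) (hat e (Matrix.of g) a) b) ≤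
      (if v = 0 then (p.factorial : ℝ) else 1) * Real.exp ((nu x (e b) + nu y (e a)) * T) := by
  rw [fv_hat hCBN]
  have h1 := av_det_le hv (Matrix.of fun i j : Fin p => fv A (g ((e a).1 j)) ((e b).1 i))
    (fun i => Real.exp (x ((e b).1 i) * T)) (fun j => Real.exp (y ((e a).1 j) * T))
    (fun i => (Real.exp_pos _).le) (fun j => (Real.exp_pos _).le) (by
      intro i j
      rw [← Real.exp_add, ← add_mul]
      exact h _ _)
  rw [← Real.exp_sum, ← Real.exp_sum, ← Real.exp_add, ← Finset.sum_mul, ← Finset.sum_mul,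
    ← add_mul] at h1
  exact h1

/-! ## The order of the tuples -/

theorem val_le {k p : ℕ} (s : Sb (k + p) p) (a : Fin p) : ((s.1 a : Fin (k + p)) : ℕ) ≤ k + a := by
  have h : ∀ m : ℕ, ∀ a : Fin p, (a : ℕ) + m + 1 = p → ((s.1 a : Fin (k + p)) : ℕ) ≤ k + a := by
    intro m
    induction m with
    | zero =>
      intro a ha
      have := (s.1 a).2
      omega
    | succ m ih =>
      intro a ha
      have h1 : (a : ℕ) + 1 < p := by omega
      have h2 := ih ⟨(a : ℕ) + 1, h1⟩ (by simp only; omega)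
      have h3 : s.1 a < s.1 ⟨(a : ℕ) + 1, h1⟩ := s.2 (by
        rw [Fin.lt_def]
        simp)
      rw [Fin.lt_def] at h3
      simp only at h2
      omega
  have := a.2
  exact h (p - 1 - a) a (by omega)

theorem add_le_val {N p : ℕ} (s : Sb N p) (hp : 0 < p) (a : ℕ) (ha : a < p) :
    ((s.1 ⟨0, hp⟩ : Fin N) : ℕ) + a ≤ (s.1 ⟨a, ha⟩ : Fin N) := by
  induction a with
  | zero => simp
  | succ a ih =>
    have h1 := ih (by omega)
    have h3 : s.1 ⟨a, by omega⟩ < s.1 ⟨a + 1, ha⟩ := s.2 (by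
      rw [Fin.lt_def]
      simp)
    rw [Fin.lt_def] at h3
    omega

theorem nu_add_le {k p : ℕ} (hp : 1 ≤ p) (μ : Fin (k + p) → ℝ) (hμ : Monotone μ) (δ : ℝ)
    (h : ∀ i j : Fin (k + p), (i : ℕ) < k → k ≤ (j : ℕ) → μ i + δ ≤ μ j)
    (s : Sb (k + p) p) (hs : s ≠ lst k p) : nu μ s + δ ≤ nu μ (lst k p) := by
  have h0 : ((s.1 ⟨0, hp⟩ : Fin (k + p)) : ℕ) < k := by
    by_contra hc
    apply hs
    apply Subtype.ext
    funext a
    apply Fin.ext
    have h1 := val_le s a
    have h2 := add_le_val s hp a a.2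
    have h3 : (((lst k p).1 a : Fin (k + p)) : ℕ) = k + a := by simp [lst]
    rw [h3]
    have h4 : s.1 ⟨(a : ℕ), a.2⟩ = s.1 a := rfl
    rw [h4] at h2
    omega
  have h1 : ∀ a, μ (s.1 a) + (if a = ⟨0, hp⟩ then δ else 0) ≤ μ ((lst k p).1 a) := by
    intro a
    have h3 : (((lst k p).1 a : Fin (k + p)) : ℕ) = k + a := by simp [lst]
    split
    · rename_i ha
      subst ha
      exact h _ _ h0 (by rw [h3]; omega)
    · rw [add_zero]
      apply hμ
      rw [Fin.le_def, h3]
      exact val_le s a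
  have h2 := Finset.sum_le_sum fun a (_ : a ∈ (Finset.univ : Finset (Fin p))) => h1 a
  rw [Finset.sum_add_distrib, Finset.sum_ite_eq' Finset.univ (⟨0, hp⟩ : Fin p) (fun _ => δ),
    if_pos (Finset.mem_univ _)] at h2
  exact h2

theorem exists_order {k p : ℕ} (hk : 1 ≤ k) (hp : 1 ≤ p) (μ : Fin (k + p) → ℝ)
    (hμ : Monotone μ) (δ : ℝ) (hδ : 0 < δ)
    (h : ∀ i j : Fin (k + p), (i : ℕ) < k → k ≤ (j : ℕ) → μ i + δ ≤ μ j) :
    ∃ (M : ℕ) (e : Fin (M + 1) ≃ Sb (k + p) p), 1 ≤ M ∧ Monotone (fun a => nu μ (e a)) ∧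
      e (Fin.last M) = lst k p := by
  have h1 : 1 < Fintype.card (Sb (k + p) p) := by
    rw [Fintype.one_lt_card_iff]
    refine ⟨lst k p, ⟨fun i => ⟨i, by omega⟩, fun i j h => by
      rw [Fin.lt_def] at h ⊢
      exact h⟩, ?_⟩
    intro hc
    have h2 := congrArg (fun s : Sb (k + p) p => ((s.1 ⟨0, hp⟩ : Fin (k + p)) : ℕ)) hc
    simp [lst] at h2
    omega
  obtain ⟨M, hM⟩ : ∃ M, Fintype.card (Sb (k + p) p) = M + 1 := ⟨_, (Nat.sub_add_cancel h1.le).symm⟩
  let e₀ : Fin (M + 1) ≃ Sb (k + p) p := (Fintype.equivFinOfCardEq hM).symm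
  let e : Fin (M + 1) ≃ Sb (k + p) p := (Tuple.sort (fun a => nu μ (e₀ a))).trans e₀
  have he : Monotone (fun a => nu μ (e a)) := Tuple.monotone_sort (fun a => nu μ (e₀ a))
  refine ⟨M, e, by omega, he, ?_⟩
  by_contra hc
  have h2 := nu_add_le hp μ hμ δ h _ hc
  have h3 := he (Fin.le_last (e.symm (lst k p)))
  simp only [Equiv.apply_symm_apply] at h3
  linarith

/-! ## Unipotent changes -/

/-- a unipotent change of the vectors -/
def tw {M : ℕ} (m G : Fin M → Fin M → ℤ) : Fin M → Fin M → ℤ :=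
  fun j t => G j t + ∑ k, m j k * G k t

theorem fv_tw {M : ℕ} (A : Matrix (Fin M) (Fin M) ℤ) (m G : Fin M → Fin M → ℤ) (j i : Fin M) :
    fv A (tw m G j) i = fv A (G j) i + ∑ k, m j k * fv A (G k) i := by
  have h1 : tw m G j = G j + fun t => ∑ k, m j k * G k t := rfl
  rw [h1, fv_add, fv_sum]

theorem det_tw {M : ℕ} (m G : Fin M → Fin M → ℤ) (hm : ∀ j k, j ≤ k → m j k = 0) :
    (Matrix.of (tw m G)).det = (Matrix.of G).det := by
  have h1 : Matrix.of (tw m G) = (1 + Matrix.of m) * Matrix.of G := by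
    ext j t
    rw [add_mul, one_mul, Matrix.add_apply, Matrix.mul_apply]
    rfl
  have h2 : (1 + Matrix.of m : Matrix (Fin M) (Fin M) ℤ).det = 1 := by
    rw [Matrix.det_of_isLowerTriangular]
    · apply Finset.prod_eq_one
      intro i _
      rw [Matrix.add_apply, Matrix.one_apply_eq, Matrix.of_apply, hm i i le_rfl, add_zero]
    · intro i j hij
      have hij' : i < j := hij
      rw [Matrix.add_apply, Matrix.one_apply_ne hij'.ne, Matrix.of_apply, hm i j hij'.le, add_zero]
  rw [h1, Matrix.det_mul, h2, one_mul]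

theorem rec_tw {M : ℕ} (m G : Fin (M + 1) → Fin (M + 1) → ℤ) (hm : ∀ j k, j ≤ k → m j k = 0)
    (w : Fin (M + 1) → ℤ) (h : ∀ j : Fin M, ∑ i, w i * tw m G j.castSucc i = 0) :
    ∀ (r : ℕ) (j : Fin (M + 1)), (j : ℕ) = r → j ≠ Fin.last M → ∑ i, w i * G j i = 0 := by
  intro r
  induction r using Nat.strong_induction_on with
  | _ r ih =>
    intro j hj hjl
    obtain ⟨j', rfl⟩ := Fin.exists_castSucc_eq.2 hjl
    have h1 := h j'
    have h2 : ∑ i, w i * tw m G j'.castSucc i =
        ∑ i, w i * G j'.castSucc i + ∑ k, m j'.castSucc k * ∑ i, w i * G k i := by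
      simp only [tw, mul_add, Finset.sum_add_distrib, Finset.mul_sum]
      congr 1
      rw [Finset.sum_comm]
      refine Finset.sum_congr rfl fun k _ => Finset.sum_congr rfl fun i _ => by ring
    have h3 : ∑ k, m j'.castSucc k * ∑ i, w i * G k i = 0 := by
      apply Finset.sum_eq_zero
      intro k _
      by_cases hk : j'.castSucc ≤ k
      · rw [hm _ _ hk, zero_mul]
      · have hk' : k < j'.castSucc := not_le.1 hk
        rw [ih k (by rw [← hj]; exact hk') k rfl (by
          intro hkl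
          rw [hkl] at hk'
          exact absurd hk' (not_lt.2 (Fin.le_last _))), mul_zero]
    rw [h2, h3, add_zero] at h1
    exact h1

/-! ## Davenport's lemma at one `n` -/

theorem step {N p M : ℕ} (hCBN : Stmt_CBN) (C : ℝ)
    (hC : ∀ (A G : Matrix (Fin M) (Fin M) ℝ) (l ρ : Fin M → ℝ), A.det ≠ 0 →
      G.det ≠ 0 → (∀ i j, |A.mulVec (G j) i| ≤ l j) → (∀ j, 0 < ρ j) → Antitone ρ →
      Monotone (fun j => ρ j * l j) →
      ∃ (π : Equiv.Perm (Fin M)) (m : Fin M → Fin M → ℤ), (∀ j k, j ≤ k → m j k = 0) ∧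
        ∀ i j, ρ i * |A.mulVec (fun a => G j a + ∑ k, (m j k : ℝ) * G k a) (π i)| ≤
          C * (ρ j * l j))
    (e : Fin M ≃ Sb N p) (A : Matrix (Fin N) (Fin N) ℤ) (g : Fin N → Fin N → ℤ)
    (c μ : Fin N → ℝ) (T : ℝ) (pr : Fin M → Fin M) (hA : A.det ≠ 0)
    (hg : (Matrix.of g).det ≠ 0) (hT : 0 < T) (hmono : Monotone (fun a => nu μ (e a)))
    (hpr : Monotone pr) (hpr' : Monotone (fun a => nu μ (e a) - nu μ (e (pr a))))
    (hb : ∀ j i, av 0 (fv A (g j) i) ≤ Real.exp ((c i + μ j) * T)) :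
    ∃ (π : Equiv.Perm (Fin M)) (m : Fin M → Fin M → ℤ), (∀ j k, j ≤ k → m j k = 0) ∧
      ∀ i j, av 0 (fv (hat e A) (tw m (hat e (Matrix.of g)) j) (π i)) ≤
        C * p.factorial * Real.exp ((nu c (e (π i)) + nu μ (e (pr i)) +
          (nu μ (e j) - nu μ (e (pr j)))) * T) := by
  set G₀ := hat e (Matrix.of g) with hG₀
  have hG₀d : G₀.det ≠ 0 := hat_det hCBN e _ hg
  set A' : Matrix (Fin M) (Fin M) ℝ :=
    Matrix.diagonal (fun b => Real.exp (-(nu c (e b) * T))) *
      (hat e A).map (Int.castRingHom ℝ) with hA'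
  have hmv : ∀ (x : Fin M → ℤ) (b : Fin M),
      A'.mulVec (fun t => (x t : ℝ)) b = Real.exp (-(nu c (e b) * T)) * (fv (hat e A) x b : ℝ) := by
    intro x b
    rw [hA', ← Matrix.mulVec_mulVec, Matrix.mulVec_diagonal]
    congr 1
    simp only [Matrix.mulVec, dotProduct, Matrix.map_apply, fv]
    push_cast
    rfl
  have h1 : A'.det ≠ 0 := by
    rw [hA', Matrix.det_mul, Matrix.det_diagonal, ← RingHom.mapMatrix_apply, ← RingHom.map_det]
    apply mul_ne_zero
    · exact Finset.prod_ne_zero_iff.2 fun i _ => (Real.exp_pos _).ne'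
    · simpa using hat_det hCBN e A hA
  have h2 : (G₀.map (Int.castRingHom ℝ)).det ≠ 0 := by
    rw [← RingHom.mapMatrix_apply, ← RingHom.map_det]
    simpa using hG₀d
  have hval : ∀ a b, |(fv (hat e A) (G₀ a) b : ℝ)| ≤
      p.factorial * Real.exp ((nu c (e b) + nu μ (e a)) * T) := by
    intro a b
    have h3 := av_hat_le hCBN e (Or.inl rfl) A g c μ T hb a b
    rw [if_pos rfl, av_zero_eq, Rat.cast_intCast] at h3
    exact h3
  obtain ⟨π, m, hm, hπ⟩ := hC A' (G₀.map (Int.castRingHom ℝ))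
    (fun a => p.factorial * Real.exp (nu μ (e a) * T))
    (fun a => Real.exp (-(nu μ (e (pr a)) * T))) h1 h2 (by
      intro i j
      have h3 : A'.mulVec ((G₀.map (Int.castRingHom ℝ)) j) i =
          Real.exp (-(nu c (e i) * T)) * (fv (hat e A) (G₀ j) i : ℝ) := hmv (G₀ j) i
      rw [h3, abs_mul, abs_of_pos (Real.exp_pos _)]
      calc Real.exp (-(nu c (e i) * T)) * |(fv (hat e A) (G₀ j) i : ℝ)| ≤
          Real.exp (-(nu c (e i) * T)) *
            (p.factorial * Real.exp ((nu c (e i) + nu μ (e j)) * T)) :=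
            mul_le_mul_of_nonneg_left (hval j i) (Real.exp_pos _).le
        _ = p.factorial * Real.exp (nu μ (e j) * T) := by
            rw [mul_left_comm, ← Real.exp_add]
            congr 2
            ring) (fun j => Real.exp_pos _) (by
      intro a b hab
      apply Real.exp_le_exp.2
      have := hmono (hpr hab)
      simp only at this
      nlinarith) (by
      intro a b hab
      have := hpr' hab
      simp only at this
      have h5 : ∀ a, Real.exp (-(nu μ (e (pr a)) * T)) *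
          (p.factorial * Real.exp (nu μ (e a) * T)) =
          p.factorial * Real.exp ((nu μ (e a) - nu μ (e (pr a))) * T) := by
        intro a
        rw [mul_left_comm, ← Real.exp_add]
        congr 2
        ring
      simp only [h5]
      apply mul_le_mul_of_nonneg_left _ (by positivity)
      apply Real.exp_le_exp.2
      nlinarith)
  refine ⟨π, m, hm, ?_⟩
  intro i j
  have h3 := hπ i j
  have h4 : A'.mulVec (fun a => (G₀.map (Int.castRingHom ℝ)) j a +
      ∑ k, (m j k : ℝ) * (G₀.map (Int.castRingHom ℝ)) k a) (π i) =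
      Real.exp (-(nu c (e (π i)) * T)) * (fv (hat e A) (tw m G₀ j) (π i) : ℝ) := by
    rw [← hmv]
    congr 1
    funext t
    simp [tw]
  rw [h4, abs_mul, abs_of_pos (Real.exp_pos _)] at h3
  rw [av_zero_eq, Rat.cast_intCast]
  have h5 : C * (Real.exp (-(nu μ (e (pr j)) * T)) * (p.factorial * Real.exp (nu μ (e j) * T))) =
      C * p.factorial * Real.exp ((nu μ (e j) - nu μ (e (pr j))) * T) := by
    rw [mul_left_comm (Real.exp _), ← Real.exp_add, mul_assoc]
    congr 3
    ring
  rw [h5] at h3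
  have h6 : |(fv (hat e A) (tw m G₀ j) (π i) : ℝ)| =
      Real.exp ((nu c (e (π i)) + nu μ (e (pr i))) * T) *
        (Real.exp (-(nu μ (e (pr i)) * T)) *
          (Real.exp (-(nu c (e (π i)) * T)) * |(fv (hat e A) (tw m G₀ j) (π i) : ℝ)|)) := by
    rw [← mul_assoc, ← mul_assoc, ← Real.exp_add, ← Real.exp_add]
    have : (nu c (e (π i)) + nu μ (e (pr i))) * T + -(nu μ (e (pr i)) * T) +
      -(nu c (e (π i)) * T) = 0 := by ring
    rw [this, Real.exp_zero, one_mul]
  rw [h6]
  calc _ ≤ Real.exp ((nu c (e (π i)) + nu μ (e (pr i))) * T) *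
        (C * p.factorial * Real.exp ((nu μ (e j) - nu μ (e (pr j))) * T)) :=
        mul_le_mul_of_nonneg_left h3 (Real.exp_pos _).le
    _ = _ := by
        rw [mul_left_comm, ← Real.exp_add, ← add_mul]

/-! ## Bookkeeping -/

theorem sum_nu (hCPS : Stmt_CPS) {N p M : ℕ} (hp : 1 ≤ p) (e : Fin M ≃ Sb N p) (c : Fin N → ℝ) :
    ∑ i, nu c (e i) = ((N - 1).choose (p - 1) : ℝ) * ∑ i, c i := by
  rw [← hCPS N p c hp]
  exact Equiv.sum_comp e (fun s => nu c s)

/-- all numbers but the last one stay, the last one goes to its predecessor -/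
def pr {M : ℕ} (hM : 1 ≤ M) (a : Fin (M + 1)) : Fin (M + 1) :=
  if a = Fin.last M then ⟨M - 1, by omega⟩ else a

theorem pr_castSucc {M : ℕ} (hM : 1 ≤ M) (a : Fin M) : pr hM a.castSucc = a.castSucc := by
  unfold pr
  rw [if_neg (Fin.castSucc_ne_last a)]

theorem pr_last {M : ℕ} (hM : 1 ≤ M) : pr hM (Fin.last M) = ⟨M - 1, by omega⟩ := by
  unfold pr
  rw [if_pos rfl]

theorem pr_mono {M : ℕ} (hM : 1 ≤ M) : Monotone (pr hM) := by
  intro a b hab
  unfold pr
  by_cases hb : b = Fin.last M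
  · rw [if_pos hb]
    by_cases ha : a = Fin.last M
    · rw [if_pos ha]
    · rw [if_neg ha, Fin.le_def]
      have : (a : ℕ) < M := by
        rcases lt_or_eq_of_le (Fin.le_last a) with h | h
        · exact h
        · exact absurd h ha
      simp only
      omega
  · have ha : a ≠ Fin.last M := by
      rintro rfl
      exact hb (le_antisymm (Fin.le_last b) hab)
    rw [if_neg ha, if_neg hb]
    exact hab

theorem choose_mul_le (N r : ℕ) (hN : 1 ≤ N) (σ δ : ℝ) (hδ : 0 < δ)
    (h : (2 : ℝ) ^ (N + 1) * σ ≤ δ) : ((N - 1).choose r : ℝ) * σ ≤ δ / 4 := by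
  by_cases hσ : σ ≤ 0
  · have h1 : ((N - 1).choose r : ℝ) * σ ≤ 0 :=
      mul_nonpos_of_nonneg_of_nonpos (Nat.cast_nonneg _) hσ
    linarith
  · have hσ' : 0 < σ := not_le.1 hσ
    have h1 : ((N - 1).choose r : ℝ) ≤ 2 ^ (N - 1) := by
      exact_mod_cast Nat.choose_le_two_pow (N - 1) r
    have h2 : (2 : ℝ) ^ (N + 1) = 4 * 2 ^ (N - 1) := by
      have : N + 1 = 2 + (N - 1) := by omega
      rw [this, pow_add]
      norm_num
    rw [h2] at h
    have h3 : ((N - 1).choose r : ℝ) * σ ≤ 2 ^ (N - 1) * σ :=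
      mul_le_mul_of_nonneg_right h1 hσ'.le
    linarith

end THB_

open THB_

theorem thb_proof (hTHA : Stmt_THA) (hDAV : Stmt_DAV) (hCBN : Stmt_CBN) (hCPS : Stmt_CPS)
    (hANN : Stmt_ANN) : Stmt_THB := by
  intro k p S U T L c μ g δ hk hp hS hT hL hμ hg hbound hδ hgap hsum
  obtain ⟨M, e, hM, hmono, hlast⟩ := exists_order hk hp μ hμ δ hδ hgap
  obtain ⟨C, hC1, hC⟩ := hDAV (M + 1)
  -- the drop
  set D : ℝ := nu μ (e (Fin.last M)) - nu μ (e ⟨M - 1, by omega⟩) with hD
  have hDδ : δ ≤ D := by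
    have h1 : e ⟨M - 1, by omega⟩ ≠ lst k p := by
      rw [← hlast]
      intro h
      have := congrArg Fin.val (e.injective h)
      simp at this
      omega
    have h2 := nu_add_le hp μ hμ δ hgap _ h1
    rw [hD, hlast]
    linarith
  have hdiff : ∀ a, nu μ (e a) - nu μ (e (pr hM a)) = if a = Fin.last M then D else 0 := by
    intro a
    by_cases ha : a = Fin.last M
    · rw [if_pos ha, ha, pr_last]
    · rw [if_neg ha]
      unfold pr
      rw [if_neg ha, sub_self]
  have hpr' : Monotone (fun a => nu μ (e a) - nu μ (e (pr hM a))) := by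
    intro a b hab
    simp only [hdiff]
    by_cases ha : a = Fin.last M
    · have hb : b = Fin.last M := le_antisymm (Fin.le_last b) (by rw [← ha]; exact hab)
      rw [if_pos ha, if_pos hb]
    · rw [if_neg ha]
      split <;> linarith
  -- the first step for almost all n
  have hev : ∀ᶠ n in (U : Filter ℕ), ∃ π : Equiv.Perm (Fin (M + 1)),
      ∃ m : Fin (M + 1) → Fin (M + 1) → ℤ, (∀ j k, j ≤ k → m j k = 0) ∧
      ∀ i j, av 0 (fv (hat e (L 0)) (tw m (hat e (Matrix.of (g n))) j) (π i)) ≤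
        C * p.factorial * Real.exp ((nu (c 0) (e (π i)) + nu μ (e (pr hM i)) +
          (nu μ (e j) - nu μ (e (pr hM j)))) * T n) := by
    filter_upwards [hbound, ev_pos hT] with n hn hTn
    exact step hCBN C hC e (L 0) (g n) (c 0) μ (T n) (pr hM) (hL 0 (zero_mem_pl S)) (hg n) hTn
      hmono (pr_mono hM) hpr' (fun j i => (hn j i).1)
  obtain ⟨π, hπ⟩ := ult_finite U hev
  obtain ⟨m, hm⟩ : ∃ m : ℕ → Fin (M + 1) → Fin (M + 1) → ℤ, ∀ᶠ n in (U : Filter ℕ),
      (∀ j k, j ≤ k → m n j k = 0) ∧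
      ∀ i j, av 0 (fv (hat e (L 0)) (tw (m n) (hat e (Matrix.of (g n))) j) (π i)) ≤
        C * p.factorial * Real.exp ((nu (c 0) (e (π i)) + nu μ (e (pr hM i)) +
          (nu μ (e j) - nu μ (e (pr hM j)))) * T n) := by
    classical
    refine ⟨fun n => if h : _ then Classical.choose (p := fun m : Fin (M + 1) → Fin (M + 1) → ℤ =>
      (∀ j k, j ≤ k → m j k = 0) ∧
      ∀ i j, av 0 (fv (hat e (L 0)) (tw m (hat e (Matrix.of (g n))) j) (π i)) ≤
        C * p.factorial * Real.exp ((nu (c 0) (e (π i)) + nu μ (e (pr hM i)) +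
          (nu μ (e j) - nu μ (e (pr hM j)))) * T n)) h else 0, ?_⟩
    filter_upwards [hπ] with n hn
    rw [dif_pos hn]
    exact Classical.choose_spec hn
  -- the exponents
  set d₁ : ℝ := δ / (4 * (M + 1)) with hd₁
  have hd₁0 : 0 < d₁ := by positivity
  have hd₁M : (M + 1) * (2 * d₁) = δ / 2 := by
    rw [hd₁]
    field_simp
    ring
  let c' : ℕ → Fin (M + 1) → ℝ := fun v i =>
    nu (c v) (e i) + if v = 0 then nu μ (e (pr hM (π.symm i))) + 2 * d₁ else 0
  have hc'sum : ∑ v ∈ pl S, ∑ i, c' v i ≤ 0 := by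
    have h1 : ∀ v, ∑ i, c' v i = ((k + p - 1).choose (p - 1) : ℝ) * ∑ i, c v i +
        if v = 0 then ∑ i, nu μ (e (pr hM i)) + (M + 1) * (2 * d₁) else 0 := by
      intro v
      simp only [c', Finset.sum_add_distrib, sum_nu hCPS hp e]
      congr 1
      split
      · rw [Finset.sum_add_distrib, Equiv.sum_comp π.symm (fun i => nu μ (e (pr hM i)))]
        simp
      · simp
    have h2 : ∑ i, nu μ (e (pr hM i)) =
        ((k + p - 1).choose (p - 1) : ℝ) * ∑ i, μ i - D := by
      rw [← sum_nu hCPS hp e, Fin.sum_univ_castSucc, Fin.sum_univ_castSucc, pr_last, hD]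
      simp only [pr_castSucc]
      ring
    simp only [h1, Finset.sum_add_distrib, Finset.sum_ite_eq' (pl S) 0, if_pos (zero_mem_pl S),
      ← Finset.mul_sum]
    rw [h2, hd₁M]
    have h3 := choose_mul_le (k + p) (p - 1) (by omega) _ δ hδ hsum
    rw [mul_add] at h3
    linarith
  -- linear independence
  have hind : ∀ᶠ n in (U : Filter ℕ), LinearIndependent ℚ
      (fun j : Fin M => fun i => (tw (m n) (hat e (Matrix.of (g n))) j.castSucc i : ℚ)) := by
    filter_upwards [hm] with n hn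
    have h1 : (Matrix.of (tw (m n) (hat e (Matrix.of (g n))))).det ≠ 0 := by
      rw [det_tw _ _ hn.1]
      exact hat_det hCBN e _ (hg n)
    have h2 : ((Matrix.of (tw (m n) (hat e (Matrix.of (g n))))).map (Int.castRingHom ℚ)).det ≠ 0 := by
      rw [← RingHom.mapMatrix_apply, ← RingHom.map_det]
      simpa using h1
    have h3 := Matrix.linearIndependent_rows_of_det_ne_zero h2
    exact h3.comp _ (Fin.castSucc_injective M)
  -- the bounds
  have hbd : ∀ᶠ n in (U : Filter ℕ), ∀ v ∈ pl S, ∀ (j : Fin M) i,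
      av v (fv (hat e (L v)) (tw (m n) (hat e (Matrix.of (g n))) j.castSucc) i) ≤
      Real.exp ((c' v i - if v = 0 then d₁ else 0) * T n) := by
    filter_upwards [hm, hbound, ev_const_le_exp hT hd₁0 (C * p.factorial)] with n hn hbn hCn
    intro v hv j i
    rcases mem_pl.1 hv with rfl | hvS
    · have h1 := hn.2 (π.symm i) j.castSucc
      rw [Equiv.apply_symm_apply, pr_castSucc, sub_self, add_zero] at h1
      refine h1.trans ?_
      refine (mul_le_mul_of_nonneg_right hCn (Real.exp_pos _).le).trans ?_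
      rw [← Real.exp_add]
      apply le_of_eq
      congr 1
      simp only [c', if_true]
      ring
    · have hvp := hS v hvS
      have hv0 : v ≠ 0 := hvp.ne_zero
      have h1 : ∀ a, av v (fv (hat e (L v)) (hat e (Matrix.of (g n)) a) i) ≤
          Real.exp (nu (c v) (e i) * T n) := by
        intro a
        have h2 := av_hat_le hCBN e (Or.inr hvp) (L v) (g n) (c v) (fun _ => 0) (T n) (by
          intro j i
          rw [add_zero]
          exact (hbn j i).2 v hvS) a i
        rw [if_neg hv0, one_mul] at h2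
        have h3 : nu (fun _ : Fin (k + p) => (0 : ℝ)) (e a) = 0 := by simp [nu]
        rw [h3, add_zero] at h2
        exact h2
      have h4 : (c' v i - if v = 0 then d₁ else 0) = nu (c v) (e i) := by
        simp only [c', if_neg hv0]
        ring
      rw [h4, fv_tw]
      push_cast
      refine (av_add_le_max hvp _ _).trans (max_le (h1 _) ?_)
      apply av_sum_le_of hvp _ _ (Real.exp_pos _).le
      intro a _
      rw [av_mul (Or.inr hvp)]
      calc _ ≤ 1 * av v (fv (hat e (L v)) (hat e (Matrix.of (g n)) a) i : ℚ) :=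
            mul_le_mul_of_nonneg_right (av_int_le_one hvp _) (av_nonneg _ _)
        _ ≤ _ := by
            rw [one_mul]
            exact h1 a
  obtain ⟨w, hw0, hw⟩ := hTHA M S U T (fun v => hat e (L v)) c' d₁
    (fun n j => tw (m n) (hat e (Matrix.of (g n))) j.castSucc) hM hS hT
    (fun v hv => hat_det hCBN e _ (hL v hv)) hc'sum hd₁0 hind hbd
  -- back to the space
  obtain ⟨c₀, hc₀, hann⟩ := hANN k p (fun t => (w (e.symm t) : ℚ)) hp (by
    intro h
    apply hw0
    funext i
    have := congrFun h (e i)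
    simpa using this)
  obtain ⟨b, hb⟩ := IsLocalization.exist_integer_multiples_of_finite (nonZeroDivisors ℤ) c₀
  choose w₁ hw₁ using hb
  have hb0 : ((b : ℤ) : ℚ) ≠ 0 := by
    exact_mod_cast nonZeroDivisors.ne_zero b.2
  have hw₁' : ∀ i, (w₁ i : ℚ) = (b : ℤ) * c₀ i := by
    intro i
    have := hw₁ i
    simpa [zsmul_eq_mul] using this
  refine ⟨w₁, ?_, ?_⟩
  · intro h
    apply hc₀
    funext i
    have h1 := hw₁' i
    rw [h] at h1
    simp only [Pi.zero_apply, Int.cast_zero] at h1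
    rcases mul_eq_zero.1 h1.symm with h2 | h2
    · exact absurd h2 hb0
    · exact h2
  · filter_upwards [hw, hm] with n hn hmn
    intro j hj
    have h1 := rec_tw (m n) (hat e (Matrix.of (g n))) hmn.1 w hn
    have h2 := hann ((Matrix.of (g n)).transpose.map (Int.castRingHom ℚ)) (by
      rw [← RingHom.mapMatrix_apply, ← RingHom.map_det, Matrix.det_transpose]
      simpa using hg n) (by
      intro s hs
      have h3 : e.symm s ≠ Fin.last M := by
        intro h
        apply hs
        rw [← hlast, ← h, Equiv.apply_symm_apply]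
      have h4 := h1 _ (e.symm s) rfl h3
      have h5 : ∑ t, (w (e.symm t) : ℚ) *
          cpd p ((Matrix.of (g n)).transpose.map (Int.castRingHom ℚ)) t s =
          ((∑ i, w i * hat e (Matrix.of (g n)) (e.symm s) i : ℤ) : ℚ) := by
        rw [← Equiv.sum_comp e]
        push_cast
        refine Finset.sum_congr rfl fun i _ => ?_
        rw [cpd_map, cpd_transpose, Equiv.symm_apply_apply]
        simp [hat]
      rw [h5, h4, Int.cast_zero]) j hj
    have h6 : ((∑ i, w₁ i * g n j i : ℤ) : ℚ) = (b : ℤ) * ∑ i, c₀ i *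
        ((Matrix.of (g n)).transpose.map (Int.castRingHom ℚ)) i j := by
      push_cast
      rw [Finset.mul_sum]
      refine Finset.sum_congr rfl fun i _ => ?_
      rw [hw₁']
      simp [mul_assoc]
    rw [h2, mul_zero] at h6
    exact_mod_cast h6

end Pool.Agent.SBT
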