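import Pool.Agent.SBT.PApi

/-!
# Squad SBT, module WRN: Wronskians of polynomials in one variable.
-/

set_option autoImplicit false

namespace Pool.Agent.SBT

open Filter

namespace WRN_

lemma coeff_prod_le {ι : Type} [DecidableEq ι] (s : Finset ι) (g : ι → Polynomial ℚ)
    (d : ι → ℕ) (h : ∀ i ∈ s, (g i).natDegree ≤ d i) :
    (∏ i ∈ s, g i).coeff (∑ i ∈ s, d i) = ∏ i ∈ s, (g i).coeff (d i) ∧
      (∏ i ∈ s, g i).natDegree ≤ ∑ i ∈ s, d i := by
  induction s using Finset.induction_on with
  | empty => simp
  | insert a s ha ih =>
    obtain ⟨h1, h2⟩ := ih (fun i hi => h i (Finset.mem_insert_of_mem hi))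
    have h3 := h a (Finset.mem_insert_self a s)
    rw [Finset.prod_insert ha, Finset.sum_insert ha, Finset.prod_insert ha]
    refine ⟨?_, ?_⟩
    · rw [Polynomial.coeff_mul_add_eq_of_natDegree_le h3 h2, h1]
    · exact le_trans Polynomial.natDegree_mul_le (add_le_add h3 h2)

lemma entry_deg (i : ℕ) (f : Polynomial ℚ) :
    ((Polynomial.X : Polynomial ℚ) ^ i * Polynomial.hasseDeriv i f).natDegree ≤ f.natDegree := by
  by_cases h : f.natDegree < i
  · rw [Polynomial.hasseDeriv_eq_zero_of_lt_natDegree f i h]; simp
  · have h1 := Polynomial.natDegree_hasseDeriv_le f i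
    refine le_trans Polynomial.natDegree_mul_le ?_
    rw [Polynomial.natDegree_X_pow]
    omega

lemma entry_coeff (i : ℕ) (f : Polynomial ℚ) :
    ((Polynomial.X : Polynomial ℚ) ^ i * Polynomial.hasseDeriv i f).coeff f.natDegree =
      (f.natDegree.choose i : ℚ) * f.leadingCoeff := by
  rw [Polynomial.coeff_X_pow_mul']
  split_ifs with h
  · rw [Polynomial.hasseDeriv_coeff, Nat.sub_add_cancel h]; rfl
  · rw [Nat.choose_eq_zero_of_lt (by omega)]; simp

lemma choose_det {k : ℕ} (d : Fin k → ℕ) (hd : Function.Injective d) :
    (Matrix.of fun i j : Fin k => ((d j).choose (i : ℕ) : ℚ)).det ≠ 0 := by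
  intro h0
  have h1 := Matrix.det_eval_matrixOfPolynomials_eq_det_vandermonde (fun i : Fin k => (d i : ℚ))
    (fun i : Fin k => descPochhammer ℚ (i : ℕ)) (fun i => descPochhammer_natDegree ℚ i)
    (fun i => monic_descPochhammer ℚ i)
  have h2 : (Matrix.of fun i j : Fin k =>
      (descPochhammer ℚ (j : ℕ)).eval (d i : ℚ)) =
      Matrix.of fun i j : Fin k => ((Nat.factorial (j : ℕ) : ℕ) : ℚ) *
        (Matrix.of fun i j : Fin k => ((d j).choose (i : ℕ) : ℚ)).transpose i j := by
    ext i j
    simp only [Matrix.of_apply, Matrix.transpose_apply]
    rw [descPochhammer_eval_eq_descFactorial, Nat.descFactorial_eq_factorial_mul_choose]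
    push_cast
    rfl
  rw [h2, Matrix.det_mul_row, Matrix.det_transpose, h0, mul_zero] at h1
  have h3 : (Matrix.vandermonde fun i : Fin k => (d i : ℚ)).det ≠ 0 := by
    rw [Matrix.det_vandermonde_ne_zero_iff]
    intro a b hab
    have hab' : ((d a : ℕ) : ℚ) = ((d b : ℕ) : ℚ) := hab
    exact hd (by exact_mod_cast hab')
  exact h3 h1

lemma distinct_case {k : ℕ} (f : Fin k → Polynomial ℚ) (hf : ∀ j, f j ≠ 0)
    (hd : Function.Injective fun j => (f j).natDegree) :
    (Matrix.of fun i j : Fin k => Polynomial.hasseDeriv (i : ℕ) (f j)).det ≠ 0 := by
  classical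
  intro h0
  have h1 : (Matrix.of fun i j : Fin k => (Polynomial.X : Polynomial ℚ) ^ (i : ℕ) *
      (Matrix.of fun i j : Fin k => Polynomial.hasseDeriv (i : ℕ) (f j)) i j).det = 0 := by
    rw [Matrix.det_mul_column, h0, mul_zero]
  have h2 := congrArg (fun p : Polynomial ℚ => p.coeff (∑ j : Fin k, (f j).natDegree)) h1
  simp only [Polynomial.coeff_zero, Matrix.of_apply] at h2
  have h3 : (Matrix.of fun i j : Fin k => (f j).leadingCoeff *
      (Matrix.of fun i j : Fin k => (((f j).natDegree).choose (i : ℕ) : ℚ)) i j).det = 0 := by
    rw [← h2, Matrix.det_apply, Matrix.det_apply, Polynomial.finset_sum_coeff]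
    refine Finset.sum_congr rfl fun σ _ => ?_
    rw [Polynomial.coeff_smul]
    congr 1
    have h4 := (coeff_prod_le (Finset.univ : Finset (Fin k))
      (fun j => (Polynomial.X : Polynomial ℚ) ^ ((σ j : Fin k) : ℕ) *
        Polynomial.hasseDeriv ((σ j : Fin k) : ℕ) (f j)) (fun j => (f j).natDegree)
      (fun j _ => entry_deg _ _)).1
    have h5 : (∏ j : Fin k, (Polynomial.X : Polynomial ℚ) ^ ((σ j : Fin k) : ℕ) *
        Polynomial.hasseDeriv ((σ j : Fin k) : ℕ) (f j)).coeff (∑ j : Fin k, (f j).natDegree) =
        ∏ j : Fin k, (((f j).natDegree).choose ((σ j : Fin k) : ℕ) : ℚ) * (f j).leadingCoeff := by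
      rw [h4]
      exact Finset.prod_congr rfl fun j _ => entry_coeff _ _
    simp only [Matrix.of_apply]
    rw [h5]
    exact Finset.prod_congr rfl fun j _ => mul_comm _ _
  rw [Matrix.det_mul_row] at h3
  rcases mul_eq_zero.mp h3 with h | h
  · rw [Finset.prod_eq_zero_iff] at h
    obtain ⟨j, -, hj⟩ := h
    exact hf j (Polynomial.leadingCoeff_eq_zero.mp hj)
  · exact choose_det _ hd h

end WRN_

open WRN_ in
theorem wrn_proof : Stmt_WRN := by
  classical
  have main : ∀ (n k : ℕ) (f : Fin k → Polynomial ℚ), ∑ j, (f j).natDegree = n →
      LinearIndependent ℚ f →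
      (Matrix.of fun i j : Fin k => Polynomial.hasseDeriv (i : ℕ) (f j)).det ≠ 0 := by
    intro n
    induction n using Nat.strong_induction_on with
    | _ n ih =>
      intro k f hn hf
      by_cases hd : Function.Injective fun j => (f j).natDegree
      · exact distinct_case f (fun j => hf.ne_zero j) hd
      · simp only [Function.Injective, not_forall] at hd
        obtain ⟨i, j, hij, hne⟩ := hd
        have hi0 : f i ≠ 0 := hf.ne_zero i
        have hj0 : f j ≠ 0 := hf.ne_zero j
        have hlc : (f i).leadingCoeff ≠ 0 := Polynomial.leadingCoeff_ne_zero.mpr hi0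
        obtain ⟨c, hc⟩ : ∃ c : ℚ, c = -((f j).leadingCoeff / (f i).leadingCoeff) := ⟨_, rfl⟩
        have hc0 : c ≠ 0 := by
          rw [hc]
          exact neg_ne_zero.mpr (div_ne_zero (Polynomial.leadingCoeff_ne_zero.mpr hj0) hlc)
        have hdiff : (f j + c • f i).natDegree < (f j).natDegree ∨ f j + c • f i = 0 := by
          by_cases hz : f j + c • f i = 0
          · exact Or.inr hz
          · left
            have e1 : f j + c • f i = f j - ((f j).leadingCoeff / (f i).leadingCoeff) • f i := by
              rw [hc, neg_smul, sub_eq_add_neg]
            have e2 : (f j).degree = ((c) • f i).degree := by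
              rw [Polynomial.degree_smul_of_smul_regular (f i) (IsSMulRegular.of_ne_zero hc0),
                Polynomial.degree_eq_natDegree hi0, Polynomial.degree_eq_natDegree hj0]
              exact_mod_cast hij.symm
            have e3 : (f j + c • f i).degree < (f j).degree := by
              rw [← sub_neg_eq_add]
              refine Polynomial.degree_sub_lt ?_ hj0 ?_
              · rw [Polynomial.degree_neg]; exact e2
              · rw [Polynomial.leadingCoeff_neg, Polynomial.leadingCoeff_smul_of_smul_regular _
                  (IsSMulRegular.of_ne_zero hc0), hc]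
                simp only [smul_eq_mul]
                field_simp
            exact Polynomial.natDegree_lt_natDegree hz e3
        have hli : LinearIndependent ℚ (Function.update f j (f j + c • f i)) := by
          rw [Fintype.linearIndependent_iff] at hf ⊢
          intro a ha
          have h1 : ∑ l, (a l + if l = i then a j * c else 0) • f l = 0 := by
            rw [← ha]
            have h2 : ∀ l, (a l + if l = i then a j * c else 0) • f l =
                a l • f l + (if l = i then (a j * c) • f l else 0) := by
              intro l
              split_ifs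
              · rw [add_smul]
              · rw [add_zero, add_zero]
            rw [Finset.sum_congr rfl fun l _ => h2 l, Finset.sum_add_distrib]
            rw [Finset.sum_ite_eq' Finset.univ i]
            have h3 : ∀ l, a l • Function.update f j (f j + c • f i) l =
                a l • f l + (if l = j then (a j * c) • f i else 0) := by
              intro l
              split_ifs with h
              · subst h
                rw [Function.update_self, smul_add, smul_smul]
              · rw [Function.update_of_ne h, add_zero]
            rw [Finset.sum_congr rfl fun l _ => h3 l, Finset.sum_add_distrib,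
              Finset.sum_ite_eq' Finset.univ j]
            simp
          have h4 := hf _ h1
          have haj : a j = 0 := by
            have := h4 j
            rwa [if_neg (Ne.symm hne), add_zero] at this
          intro l
          have := h4 l
          rw [haj] at this
          simpa using this
        have hz : f j + c • f i ≠ 0 := by
          have := hli.ne_zero j
          rwa [Function.update_self] at this
        have hlt : ∑ l, (Function.update f j (f j + c • f i) l).natDegree < n := by
          rw [← hn]
          refine Finset.sum_lt_sum ?_ ⟨j, Finset.mem_univ _, ?_⟩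
          · intro l _
            by_cases h : l = j
            · subst h
              rw [Function.update_self]
              rcases hdiff with h | h
              · exact h.le
              · exact absurd h hz
            · rw [Function.update_of_ne h]
          · rw [Function.update_self]
            rcases hdiff with h | h
            · exact h
            · exact absurd h hz
        have hdet := ih _ hlt k _ rfl hli
        intro h0
        apply hdet
        rw [← h0]
        have hji : j ≠ i := Ne.symm hne
        rw [← Matrix.det_updateCol_add_smul_self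
          (Matrix.of fun i j : Fin k => Polynomial.hasseDeriv (i : ℕ) (f j)) hji
          (Polynomial.C c)]
        congr 1
        ext1 a b
        by_cases h : b = j
        · subst h
          simp only [Matrix.of_apply, Function.update_self, Matrix.updateCol_self, map_add,
            map_smul, smul_eq_mul]
          rw [Polynomial.smul_eq_C_mul]
        · simp only [Matrix.of_apply, Function.update_of_ne h, Matrix.updateCol_ne h]
  intro k f hf
  exact main _ k f rfl hf

end Pool.Agent.SBT
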