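import Pool.Agent.SBT.StmtsM
import Pool.Agent.SBT.Api

/-! Module MHT: calculus of `Ht`. -/

set_option autoImplicit false

namespace Pool.Agent.SBT

open Filter

namespace MHT_

variable {U : Ultrafilter ℕ} {S : Finset ℕ} {T : ℕ → ℝ} {r : ℕ} {g : Fin r → ℕ → ℚ}

theorem mon_add (g : Fin r → ℕ → ℚ) (a b : Fin r →₀ ℕ) (n : ℕ) :
    mon g (a + b) n = mon g a n * mon g b n := by
  unfold mon
  rw [← Finset.prod_mul_distrib]
  refine Finset.prod_congr rfl fun i _ => ?_
  rw [Finsupp.add_apply, pow_add]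

theorem zero (κ : ℝ) (ν : ℕ → ℚ) : Ht U S T g κ ν 0 := by
  intro e he
  simp at he

theorem add {κ : ℝ} {ν : ℕ → ℚ} {H H' : MvPolynomial (Fin r) ℚ} (h : Ht U S T g κ ν H)
    (h' : Ht U S T g κ ν H') : Ht U S T g κ ν (H + H') := by
  classical
  intro e he
  rcases Finset.mem_union.1 (MvPolynomial.support_add he) with h1 | h1
  · exact h e h1
  · exact h' e h1

theorem neg {κ : ℝ} {ν : ℕ → ℚ} {H : MvPolynomial (Fin r) ℚ} (h : Ht U S T g κ ν H) :
    Ht U S T g κ ν (-H) := by
  intro e he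
  rw [MvPolynomial.support_neg] at he
  exact h e he

theorem mul (hS : PS S) {κ κ' : ℝ} {ν ν' : ℕ → ℚ} {H H' : MvPolynomial (Fin r) ℚ}
    (h : Ht U S T g κ ν H) (h' : Ht U S T g κ' ν' H') :
    Ht U S T g (κ + κ') (fun n => ν n * ν' n) (H * H') := by
  classical
  intro e he
  have h1 := MvPolynomial.support_mul H H' he
  obtain ⟨a, ha, b, hb, rfl⟩ := Finset.mem_add.1 h1
  filter_upwards [h a ha, h' b hb] with n hn hn'
  intro v hv
  have hv' := place_of_mem hS hv
  rw [mon_add, av_mul hv', av_mul hv']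
  calc av v (mon g a n) * av v (mon g b n)
      ≤ (Real.exp (κ * T n) * av v (ν n)) * (Real.exp (κ' * T n) * av v (ν' n)) :=
        mul_le_mul (hn v hv) (hn' v hv) (av_nonneg _ _)
          (mul_nonneg (Real.exp_pos _).le (av_nonneg _ _))
    _ = _ := by
        rw [add_mul, Real.exp_add]
        ring

theorem mono (hT : ∀ᶠ n in (U : Filter ℕ), 0 < T n) {κ κ' : ℝ} {ν : ℕ → ℚ}
    {H : MvPolynomial (Fin r) ℚ} (hk : κ ≤ κ') (h : Ht U S T g κ ν H) :
    Ht U S T g κ' ν H := by
  intro e he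
  filter_upwards [h e he, hT] with n hn hTn
  intro v hv
  refine (hn v hv).trans ?_
  apply mul_le_mul_of_nonneg_right _ (av_nonneg _ _)
  exact Real.exp_le_exp.2 (mul_le_mul_of_nonneg_right hk hTn.le)

theorem sum {ι : Type} (s : Finset ι) {κ : ℝ} {ν : ℕ → ℚ} {H : ι → MvPolynomial (Fin r) ℚ}
    (h : ∀ j ∈ s, Ht U S T g κ ν (H j)) : Ht U S T g κ ν (∑ j ∈ s, H j) := by
  classical
  induction s using Finset.induction_on with
  | empty => rw [Finset.sum_empty]; exact zero κ ν
  | insert a s ha ih =>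
    rw [Finset.sum_insert ha]
    exact add (h a (Finset.mem_insert_self a s))
      (ih fun j hj => h j (Finset.mem_insert_of_mem hj))

theorem one : Ht U S T g 0 (fun _ => 1) 1 := by
  classical
  intro e he
  have h0 : e = 0 := by
    rw [MvPolynomial.mem_support_iff] at he
    by_contra hne
    apply he
    rw [MvPolynomial.coeff_one, if_neg (Ne.symm hne)]
  subst h0
  filter_upwards with n
  intro v _
  have h1 : mon g 0 n = 1 := by
    unfold mon
    simp
  rw [h1]
  simp

theorem prod (hS : PS S) {ι : Type} (s : Finset ι) {κ : ι → ℝ} {ν : ι → ℕ → ℚ}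
    {H : ι → MvPolynomial (Fin r) ℚ} (h : ∀ j ∈ s, Ht U S T g (κ j) (ν j) (H j)) :
    Ht U S T g (∑ j ∈ s, κ j) (fun n => ∏ j ∈ s, ν j n) (∏ j ∈ s, H j) := by
  classical
  induction s using Finset.induction_on with
  | empty =>
    simp only [Finset.sum_empty, Finset.prod_empty]
    exact one
  | insert a s ha ih =>
    simp only [Finset.sum_insert ha, Finset.prod_insert ha]
    exact mul hS (h a (Finset.mem_insert_self a s))
      (ih fun j hj => h j (Finset.mem_insert_of_mem hj))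

theorem det (hS : PS S) {κ : ℝ} {ν : ℕ → ℚ} {J : ℕ}
    {H : Matrix (Fin J) (Fin J) (MvPolynomial (Fin r) ℚ)}
    (h : ∀ i j, Ht U S T g κ ν (H i j)) : Ht U S T g (J * κ) (fun n => ν n ^ J) H.det := by
  classical
  rw [Matrix.det_apply]
  apply sum
  intro σ _
  have h1 := prod (g := g) (T := T) (U := U) hS (Finset.univ : Finset (Fin J))
    (κ := fun _ => κ) (ν := fun _ => ν) (H := fun i => H (σ i) i) (fun i _ => h (σ i) i)
  have h2 : (∑ _j : Fin J, κ) = J * κ := by
    rw [Finset.sum_const, Finset.card_univ, Fintype.card_fin, nsmul_eq_mul]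
  have h3 : (fun n => ∏ _j : Fin J, ν n) = fun n => ν n ^ J := by
    funext n
    rw [Finset.prod_const, Finset.card_univ, Fintype.card_fin]
  rw [h2, h3] at h1
  rcases Int.units_eq_one_or (Equiv.Perm.sign σ) with h4 | h4
  · rw [h4, one_smul]
    exact h1
  · rw [h4]
    have h5 : (-1 : ℤˣ) • ∏ i, H (σ i) i = -∏ i, H (σ i) i := by
      rw [Units.neg_smul, one_smul]
    rw [h5]
    exact neg h1

end MHT_

theorem mht_proof : Stmt_MHT := by
  intro U S T r g hG
  have hS := hG.prime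
  have hT : ∀ᶠ n in (U : Filter ℕ), 0 < T n := ev_pos hG.lim
  refine ⟨fun κ ν => MHT_.zero κ ν, fun κ ν H H' h h' => ⟨MHT_.add h h', MHT_.neg h⟩,
    fun κ κ' ν ν' H H' h h' => MHT_.mul hS h h', fun κ κ' ν H hk h => MHT_.mono hT hk h,
    fun κ ν J H h => MHT_.sum _ fun j _ => h j, fun J κ ν H h => MHT_.prod hS _ fun j _ => h j,
    fun κ ν J H h => MHT_.det hS h⟩

end Pool.Agent.SBT
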