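import Pool.Agent.SBT.StmtsG

/-!
# Squad SBT, section M: the field theorem (rational functions of numbers of low complexity)
# Recipes: /team-store/MP_57632f_SBT_M.md
-/

set_option autoImplicit false

namespace Pool.Agent.SBT

open Filter

/-! ## Definitions -/

/-- `W` is a group -/
def IsGrp (W : Set ℚ) : Prop := 1 ∈ W ∧ (∀ x ∈ W, ∀ y ∈ W, x * y ∈ W) ∧ ∀ x ∈ W, x⁻¹ ∈ W

/-- sequences with values in `W` -/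
def Wv (W : Set ℚ) : Set (ℕ → ℚ) := {u | ∀ n, u n ∈ W}

/-- all monomials of `H` are at all places at most `exp (κ T)` times the unit `ν` -/
def Ht (U : Ultrafilter ℕ) (S : Finset ℕ) (T : ℕ → ℝ) {r : ℕ} (g : Fin r → ℕ → ℚ) (κ : ℝ)
    (ν : ℕ → ℚ) (H : MvPolynomial (Fin r) ℚ) : Prop :=
  ∀ e ∈ H.support, ∀ᶠ n in (U : Filter ℕ), ∀ v ∈ pl S,
    av v (mon g e n) ≤ Real.exp (κ * T n) * av v (ν n)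

/-- the first part of an exponent -/
noncomputable def lft {r₀ r₁ : ℕ} (e : Fin (r₀ + r₁) →₀ ℕ) : Fin r₀ →₀ ℕ :=
  Finsupp.equivFunOnFinite.symm fun i => e (Fin.castAdd r₁ i)

/-- the second part of an exponent -/
noncomputable def rgt {r₀ r₁ : ℕ} (e : Fin (r₀ + r₁) →₀ ℕ) : Fin r₁ →₀ ℕ :=
  Finsupp.equivFunOnFinite.symm fun i => e (Fin.natAdd r₀ i)

/-- a polynomial in the first variables -/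
noncomputable def il {r₀ : ℕ} (r₁ : ℕ) (N : MvPolynomial (Fin r₀) ℚ) :
    MvPolynomial (Fin (r₀ + r₁)) ℚ := MvPolynomial.rename (Fin.castAdd r₁) N

/-- a polynomial in the last variables -/
noncomputable def ir (r₀ : ℕ) {r₁ : ℕ} (N : MvPolynomial (Fin r₁) ℚ) :
    MvPolynomial (Fin (r₀ + r₁)) ℚ := MvPolynomial.rename (Fin.natAdd r₀) N

/-- the coefficient of the monomial `β` in the last variables, a polynomial in the first ones -/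
noncomputable def cf {r₀ r₁ : ℕ} (β : Fin r₁ →₀ ℕ) (G : MvPolynomial (Fin (r₀ + r₁)) ℚ) :
    MvPolynomial (Fin r₀) ℚ :=
  ∑ e ∈ G.support, if rgt e = β then MvPolynomial.monomial (lft e) (MvPolynomial.coeff e G) else 0

/-- the multiplicative groups generated by the `a i` and by the `b j` have trivial intersection -/
def IndG {k l : ℕ} (a : Fin k → ℕ) (b : Fin l → ℕ) : Prop :=
  ∀ (e : Fin k → ℤ) (f : Fin l → ℤ), ∏ i, (a i : ℚ) ^ e i = ∏ j, (b j : ℚ) ^ f j →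
    ∏ i, (a i : ℚ) ^ e i = 1

/-! ## Tools -/

/-- MHT: calculus of `Ht`. Uses nothing. -/
def Stmt_MHT : Prop :=
  ∀ (U : Ultrafilter ℕ) (S : Finset ℕ) (T : ℕ → ℝ) (r : ℕ) (g : Fin r → ℕ → ℚ), Gd U S T g →
    (∀ κ ν, Ht U S T g κ ν 0) ∧ (∀ κ ν H H', Ht U S T g κ ν H → Ht U S T g κ ν H' →
      Ht U S T g κ ν (H + H') ∧ Ht U S T g κ ν (-H)) ∧
    (∀ κ κ' ν ν' H H', Ht U S T g κ ν H → Ht U S T g κ' ν' H' →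
      Ht U S T g (κ + κ') (fun n => ν n * ν' n) (H * H')) ∧
    (∀ κ κ' ν H, κ ≤ κ' → Ht U S T g κ ν H → Ht U S T g κ' ν H) ∧
    (∀ κ ν (J : ℕ) (H : Fin J → MvPolynomial (Fin r) ℚ), (∀ j, Ht U S T g κ ν (H j)) →
      Ht U S T g κ ν (∑ j, H j)) ∧
    (∀ (J : ℕ) (κ : Fin J → ℝ) (ν : Fin J → ℕ → ℚ) (H : Fin J → MvPolynomial (Fin r) ℚ),
      (∀ j, Ht U S T g (κ j) (ν j) (H j)) →
      Ht U S T g (∑ j, κ j) (fun n => ∏ j, ν j n) (∏ j, H j)) ∧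
    ∀ κ ν (J : ℕ) (H : Matrix (Fin J) (Fin J) (MvPolynomial (Fin r) ℚ)),
      (∀ i j, Ht U S T g κ ν (H i j)) → Ht U S T g (J * κ) (fun n => ν n ^ J) H.det

/-- MSM: small polynomials: upper bound and integrality. Uses nothing. -/
def Stmt_MSM : Prop :=
  ∀ (U : Ultrafilter ℕ) (S : Finset ℕ) (T : ℕ → ℝ) (r : ℕ) (g : Fin r → ℕ → ℚ) (κ : ℝ)
    (ν : ℕ → ℚ) (J : ℕ) (H : Fin J → MvPolynomial (Fin r) ℚ), Gd U S T g → 0 ≤ κ →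
    (∀ n, IsU S (ν n)) → (∀ j, Ht U S T g κ ν (H j)) →
    (∀ᶠ n in (U : Filter ℕ), ∀ j,
      |((ev g n (H j) : ℚ) : ℝ)| ≤ Real.exp ((κ + 1) * T n) * ν n) ∧
    ∃ Δ : ℕ → ℕ, (∀ᶠ n in (U : Filter ℕ), 0 < Δ n ∧
        (Δ n : ℝ) ≤ Real.exp ((κ * S.card + 1) * T n)) ∧
      ∀ᶠ n in (U : Filter ℕ), ∀ j, ∃ z : ℤ, (Δ n : ℚ) * ev g n (H j) = z * ν n

/-- MLA: linear algebra over a domain: a nonzero maximal minor or a solution whose coordinates are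
minors. Uses nothing. -/
def Stmt_MLA : Prop :=
  ∀ (R : Type) [CommRing R] [IsDomain R] (I : Type) [Fintype I] (J : ℕ)
    (L : Matrix I (Fin J) R), (∃ t : Fin J → I, (L.submatrix t id).det ≠ 0) ∨
    ∃ (ρ : ℕ) (M : Fin J → R), ρ < J ∧ M ≠ 0 ∧ L.mulVec M = 0 ∧
      ∀ j, M j = 0 ∨ ∃ (t : Fin ρ → I) (c : Fin ρ → Fin J),
        M j = (L.submatrix t c).det ∨ M j = -(L.submatrix t c).det

/-- MCF: coefficients. Uses nothing. -/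
def Stmt_MCF : Prop :=
  ∀ r₀ r₁ : ℕ,
    (∀ β (G : MvPolynomial (Fin (r₀ + r₁)) ℚ) (α : Fin r₀ →₀ ℕ), α ∈ (cf β G).support ↔
      ∃ e ∈ G.support, lft e = α ∧ rgt e = β) ∧
    (∀ β (G G' : MvPolynomial (Fin (r₀ + r₁)) ℚ), cf β (G + G') = cf β G + cf β G') ∧
    (∀ β (N : MvPolynomial (Fin r₀) ℚ) (G : MvPolynomial (Fin (r₀ + r₁)) ℚ),
      cf β (il r₁ N * G) = N * cf β G) ∧
    (∀ β (N : MvPolynomial (Fin r₁) ℚ) (G : MvPolynomial (Fin (r₀ + r₁)) ℚ),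
      ∀ α ∈ (cf β (ir r₀ N * G)).support, ∃ e ∈ G.support, lft e = α) ∧
    (∀ (g₀ : Fin r₀ → ℕ → ℚ) (g₁ : Fin r₁ → ℕ → ℚ) n (N : MvPolynomial (Fin r₀) ℚ),
      ev (Fin.append g₀ g₁) n (il r₁ N) = ev g₀ n N) ∧
    (∀ (g₀ : Fin r₀ → ℕ → ℚ) (g₁ : Fin r₁ → ℕ → ℚ) n (N : MvPolynomial (Fin r₁) ℚ),
      ev (Fin.append g₀ g₁) n (ir r₀ N) = ev g₁ n N) ∧
    (∀ (g₀ : Fin r₀ → ℕ → ℚ) (g₁ : Fin r₁ → ℕ → ℚ) n e,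
      mon (Fin.append g₀ g₁) e n = mon g₀ (lft e) n * mon g₁ (rgt e) n) ∧
    ∀ (g₀ : Fin r₀ → ℕ → ℚ) (g₁ : Fin r₁ → ℕ → ℚ) n (G : MvPolynomial (Fin (r₀ + r₁)) ℚ),
      ev (Fin.append g₀ g₁) n G =
        ∑ β ∈ G.support.image rgt, mon g₁ β n * ev g₀ n (cf β G)

/-- MSP: separation of the two parts of small monomials. Uses nothing. -/
def Stmt_MSP : Prop :=
  ∀ (S : Finset ℕ) (W₀ W₁ : Set ℚ), PS S → IsGrp W₀ → IsGrp W₁ → (∀ x ∈ W₀, IsU S x) →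
    (∀ x ∈ W₁, IsU S x) → Sep S W₀ W₁ → ∃ C : ℝ, 1 ≤ C ∧
      ∀ (U : Ultrafilter ℕ) (T : ℕ → ℝ) (r₀ r₁ : ℕ) (g₀ : Fin r₀ → ℕ → ℚ)
        (g₁ : Fin r₁ → ℕ → ℚ) (κ : ℝ) (ν : ℕ → ℚ) (e e' : Fin (r₀ + r₁) →₀ ℕ),
        Tendsto T (U : Filter ℕ) atTop → 0 ≤ κ → (∀ i, g₀ i ∈ Wv W₀) → (∀ i, g₁ i ∈ Wv W₁) →
        (∀ n, IsU S (ν n)) →
        (∀ᶠ n in (U : Filter ℕ), ∀ v ∈ pl S,
          av v (mon (Fin.append g₀ g₁) e n) ≤ Real.exp (κ * T n) * av v (ν n)) →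
        (∀ᶠ n in (U : Filter ℕ), ∀ v ∈ pl S,
          av v (mon (Fin.append g₀ g₁) e' n) ≤ Real.exp (κ * T n) * av v (ν n)) →
        ∀ᶠ n in (U : Filter ℕ), ∀ v ∈ pl S,
          av v (mon g₀ (lft e) n) ≤ Real.exp (C * κ * T n) * av v (mon g₀ (lft e') n) ∧
          av v (mon g₁ (rgt e) n) ≤ Real.exp (C * κ * T n) * av v (mon g₁ (rgt e') n)

/-! ## Steps -/

/-- MBG: bases on both sides. Uses BAS. -/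
def Stmt_MBG : Prop :=
  ∀ (U : Ultrafilter ℕ) (S : Finset ℕ) (T : ℕ → ℝ) (K : ℕ) (W₀ W₁ : Set ℚ)
    (u₀ u₁ : Fin K → ℕ → ℚ), PS S → Tendsto T (U : Filter ℕ) atTop → IsGrp W₀ → IsGrp W₁ →
    W₀ ∩ W₁ ⊆ {1} → (∀ x ∈ W₀, IsU S x) → (∀ x ∈ W₁, IsU S x) →
    (∀ k, u₀ k ∈ Un U S T ∩ Wv W₀) → (∀ k, u₁ k ∈ Un U S T ∩ Wv W₁) →
    ∃ (r₀ r₁ : ℕ) (g₀ : Fin r₀ → ℕ → ℚ) (g₁ : Fin r₁ → ℕ → ℚ), (∀ i, g₀ i ∈ Wv W₀) ∧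
      (∀ i, g₁ i ∈ Wv W₁) ∧ Gd U S T g₀ ∧ Gd U S T g₁ ∧ Gd U S T (Fin.append g₀ g₁) ∧
      (∀ k, u₀ k ∈ Gg U g₀) ∧ ∀ k, u₁ k ∈ Gg U g₁

/-- MSD: the description of one side. Uses EGM. -/
def Stmt_MSD : Prop :=
  ∀ (U : Ultrafilter ℕ) (S : Finset ℕ) (T : ℕ → ℝ) (r s : ℕ) (g : Fin r → ℕ → ℚ)
    (y : Fin s → ℕ → ℤ) (R : Fin 2 → ℕ → ℤ) (f₀ : ℕ → ℚ) (f : Fin 2 → Fin s → ℕ → ℚ) (B : ℝ),
    Gd U S T g → 0 ≤ B → (∀ᶠ n in (U : Filter ℕ), ∀ i, |(y i n : ℝ)| ≤ Real.exp (B * T n)) →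
    Lc U (Sm U S T B ∩ Gg U g) f₀ → (∀ c j, Lc U (Gg U g) (f c j)) →
    (∀ᶠ n in (U : Filter ℕ), f₀ n ≠ 0) →
    (∀ c, ∀ᶠ n in (U : Filter ℕ), f₀ n * (R c n : ℚ) = ∑ j, f c j n * (y j n : ℚ)) →
    ∃ (d : ℕ) (Z : Fin d → ℕ → ℤ) (P₀ : MvPolynomial (Fin r) ℚ)
      (P : Fin 2 → Fin d → MvPolynomial (Fin r) ℚ) (ν : ℕ → ℚ), d ≤ s ∧
      (∀ᶠ n in (U : Filter ℕ), ∀ i, |(Z i n : ℝ)| ≤ Real.exp (B * T n)) ∧ Indp U g Z ∧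
      P₀ ≠ 0 ∧ (∀ n, IsU S (ν n)) ∧ Ht U S T g (2 * (B + 1 + s * (s * B + 1))) ν P₀ ∧
      ∀ c, ∀ᶠ n in (U : Filter ℕ),
        ev g n P₀ * (R c n : ℚ) = ∑ j, ev g n (P c j) * (Z j n : ℚ)

/-- MPR: elimination among the products. Uses EGM. -/
def Stmt_MPR : Prop :=
  ∀ (U : Ultrafilter ℕ) (S : Finset ℕ) (T : ℕ → ℝ) (r d₀ d₁ : ℕ) (g : Fin r → ℕ → ℚ)
    (Z₀ : Fin d₀ → ℕ → ℤ) (Z₁ : Fin d₁ → ℕ → ℤ) (B : ℝ), Gd U S T g → 0 ≤ B →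
    (∀ᶠ n in (U : Filter ℕ), ∀ i, |(Z₀ i n : ℝ)| ≤ Real.exp (B * T n)) →
    (∀ᶠ n in (U : Filter ℕ), ∀ i, |(Z₁ i n : ℝ)| ≤ Real.exp (B * T n)) →
    ∃ (d : ℕ) (Z : Fin d → ℕ → ℤ) (E₀ : MvPolynomial (Fin r) ℚ)
      (E : Fin d₀ → Fin d₁ → Fin d → MvPolynomial (Fin r) ℚ) (ν : ℕ → ℚ), d ≤ d₀ * d₁ ∧
      (∀ᶠ n in (U : Filter ℕ), ∀ i, |(Z i n : ℝ)| ≤ Real.exp (2 * B * T n)) ∧ Indp U g Z ∧
      E₀ ≠ 0 ∧ (∀ n, IsU S (ν n)) ∧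
      Ht U S T g ((d₀ * d₁) * ((d₀ * d₁) * ((d₀ * d₁) * (2 * B) + 1))) ν E₀ ∧
      (∀ j k w, Ht U S T g ((d₀ * d₁) * ((d₀ * d₁) * ((d₀ * d₁) * (2 * B) + 1))) ν (E j k w)) ∧
      ∀ j k, ∀ᶠ n in (U : Filter ℕ), ev g n E₀ * ((Z₀ j n : ℚ) * (Z₁ k n : ℚ)) =
        ∑ w, ev g n (E j k w) * (Z w n : ℚ)

/-- MCR: the core of the field theorem. Uses UNI, S2T, MHT, MSM, MLA, MCF, MSP, MBG, MSD, MPR. -/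
def Stmt_MCR : Prop :=
  ∀ (S : Finset ℕ) (W : Fin 2 → Set ℚ) (ξ : ℝ) (μ : ℕ) (ρ : Fin 2 → Fin 2 → ℝ), PS S →
    (∀ r, IsGrp (W r)) → (∀ r, ∀ x ∈ W r, IsU S x) → Sep S (W 0) (W 1) → Meas ξ μ →
    (∀ r, ρ r 1 ≠ 0) → (∀ r, ρ r 0 = ξ * ρ r 1) → ∀ (s : ℕ) (B : ℝ), 0 ≤ B → ∃ Λ : ℝ,
      ∀ (U : Ultrafilter ℕ) (T : ℕ → ℝ) (y : Fin 2 → Fin s → ℕ → ℤ)
        (R : Fin 2 → Fin 2 → ℕ → ℤ) (A : Fin 2 → ℕ → ℝ) (f₀ : Fin 2 → ℕ → ℚ)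
        (f : Fin 2 → Fin 2 → Fin s → ℕ → ℚ), Tendsto T (U : Filter ℕ) atTop →
        (∀ r, ∀ᶠ n in (U : Filter ℕ), ∀ j, |(y r j n : ℝ)| ≤ Real.exp (B * T n)) →
        (∀ r, ∀ᶠ n in (U : Filter ℕ), 0 < A r n) →
        (∀ r, Lc U (Sm U S T B ∩ Wv (W r)) (f₀ r)) →
        (∀ r c j, Lc U (Un U S T ∩ Wv (W r)) (f r c j)) →
        (∀ r, ∀ᶠ n in (U : Filter ℕ), f₀ r n ≠ 0) →
        (∀ r c, ∀ᶠ n in (U : Filter ℕ),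
          f₀ r n * (R r c n : ℚ) = ∑ j, f r c j n * (y r j n : ℚ)) →
        (∀ r c, ∀ᶠ n in (U : Filter ℕ),
          |ρ r c - R r c n / A r n| ≤ Real.exp (-(Λ * T n))) → False

/-! ## The field theorem -/

/-- MFC: reduction of the field theorem. Uses MCR, SEP, LCC. -/
def Stmt_MFC : Prop :=
  ∀ (k : ℕ) (bs : Fin 2 → Fin k → ℕ) (ξ : ℝ) (μ : ℕ) (x : Fin 2 → Fin k → ℝ)
    (P : Fin 2 → Fin 2 → MvPolynomial (Fin k) ℚ), (∀ r i, 2 ≤ bs r i) →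
    IndG (bs 0) (bs 1) → Meas ξ μ → (∀ r, MvPolynomial.aeval (x r) (P r 1) ≠ 0) →
    (∀ r, MvPolynomial.aeval (x r) (P r 0) = ξ * MvPolynomial.aeval (x r) (P r 1)) →
    ∀ (s : ℕ) (B : ℝ), 0 ≤ B → ∃ Λ : ℝ,
      ∀ (U : Ultrafilter ℕ) (L : Fin 2 → Fin k → ℕ → ℕ) (q : Fin 2 → Fin k → Fin s → ℕ → ℕ)
        (y : Fin 2 → Fin k → Fin s → ℕ → ℤ) (N : ℕ), (U : Filter ℕ) ≤ atTop →
        (∀ r i, ∀ᶠ n in (U : Filter ℕ), Λ * n ≤ L r i n ∧ L r i n ≤ N * n) →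
        (∀ r i j, ∀ᶠ n in (U : Filter ℕ), 1 ≤ q r i j n ∧ (q r i j n : ℝ) ≤ B * n) →
        (∀ r i j, ∀ᶠ n in (U : Filter ℕ), |(y r i j n : ℝ)| ≤ Real.exp (B * n)) →
        (∀ r i, ∀ᶠ n in (U : Filter ℕ), ∃ F : Fin s → ℤ, (∀ j, Rep (bs r i) N (N * n) (F j)) ∧
          (∏ j, ((bs r i : ℤ) ^ q r i j n - 1)) * ⌊x r i * (bs r i : ℝ) ^ L r i n⌋ =
            ∑ j, F j * y r i j n) → False

/-- MFL: the field theorem. Uses MFC, STG, DGT, RPA. -/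
def Stmt_MFL : Prop :=
  ∀ (k : ℕ) (bs : Fin 2 → Fin k → ℕ) (ξ : ℝ) (μ : ℕ) (x : Fin 2 → Fin k → ℝ)
    (P : Fin 2 → Fin 2 → MvPolynomial (Fin k) ℚ), (∀ r i, 2 ≤ bs r i) →
    IndG (bs 0) (bs 1) → Meas ξ μ → (∀ r, MvPolynomial.aeval (x r) (P r 1) ≠ 0) →
    (∀ r, MvPolynomial.aeval (x r) (P r 0) = ξ * MvPolynomial.aeval (x r) (P r 1)) →
    ∀ C : ℕ, ∃ Λ : ℕ, ∀ᶠ n in atTop, C * n ≤ ∑ r, ∑ i, cnt (bs r i) (x r i) n (Λ * n)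

/-- MFF: the field theorem in terms of fields. Uses MFL. -/
def Stmt_MFF : Prop :=
  ∀ (k l : ℕ) (a : Fin k → ℕ) (b : Fin l → ℕ) (x : Fin k → ℝ) (y : Fin l → ℝ) (ξ : ℝ) (μ : ℕ),
    (∀ i, 2 ≤ a i) → (∀ j, 2 ≤ b j) → IndG a b → Meas ξ μ →
    ξ ∈ IntermediateField.adjoin ℚ (Set.range x) →
    ξ ∈ IntermediateField.adjoin ℚ (Set.range y) →
    ∀ C : ℕ, ∃ Λ : ℕ, ∀ᶠ n in atTop,
      C * n ≤ ∑ i, cnt (a i) (x i) n (Λ * n) + ∑ j, cnt (b j) (y j) n (Λ * n)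

end Pool.Agent.SBT
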