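import Pool.Agent.SBT.Api
import Pool.Agent.SBT.StmtsM

/-!
# Squad SBT, section M, module MSM: small polynomials: upper bound and integrality
-/

set_option autoImplicit false

namespace Pool.Agent.SBT

open Filter

namespace MSM_

theorem ev_eq {r : ℕ} (g : Fin r → ℕ → ℚ) (n : ℕ) (H : MvPolynomial (Fin r) ℚ) :
    ev g n H = ∑ e ∈ H.support, MvPolynomial.coeff e H * mon g e n := by
  unfold ev mon
  rw [MvPolynomial.eval_eq']

theorem mon_isU {S : Finset ℕ} (hS : PS S) {r : ℕ} {g : Fin r → ℕ → ℚ}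
    (hg : ∀ i n, IsU S (g i n)) (e : Fin r →₀ ℕ) (n : ℕ) : IsU S (mon g e n) :=
  isU_prod hS _ _ fun i _ => (hg i n).pow hS _

theorem av_unit_out {S : Finset ℕ} (hS : PS S) {x : ℚ} (hx : IsU S x) {p : ℕ} (hp : p.Prime)
    (hpS : p ∉ S) : av p x = 1 := by
  rw [av_prime hp, hx.padicNorm_eq_one hS hp hpS]
  simp

theorem int_of_av {x : ℚ} (h : ∀ p : ℕ, p.Prime → av p x ≤ 1) : ∃ z : ℤ, x = z := by
  apply int_of_padic
  intro p hp
  have := h p hp
  rw [av_prime hp] at this
  exact_mod_cast this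

theorem den_mul {M : ℕ} {q : ℚ} (h : q.den ∣ M) : ∃ z : ℤ, (M : ℚ) * q = z := by
  obtain ⟨k, rfl⟩ := h
  refine ⟨k * q.num, ?_⟩
  push_cast
  rw [← Rat.mul_den_eq_num q]
  ring

theorem sum_int {ι : Type*} (s : Finset ι) (f : ι → ℚ) (h : ∀ i ∈ s, ∃ z : ℤ, f i = z) :
    ∃ z : ℤ, ∑ i ∈ s, f i = z := by
  classical
  choose! F hF using h
  refine ⟨∑ i ∈ s, F i, ?_⟩
  push_cast
  exact Finset.sum_congr rfl hF

theorem mul_int {x y : ℚ} (hx : ∃ z : ℤ, x = z) (hy : ∃ z : ℤ, y = z) :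
    ∃ z : ℤ, x * y = z := by
  obtain ⟨a, rfl⟩ := hx
  obtain ⟨b, rfl⟩ := hy
  exact ⟨a * b, by push_cast; ring⟩

/-- the product of the denominators of the coefficients -/
noncomputable def dn {r : ℕ} (P : MvPolynomial (Fin r) ℚ) : ℕ :=
  ∏ e ∈ P.support, (MvPolynomial.coeff e P).den

theorem dn_pos {r : ℕ} (P : MvPolynomial (Fin r) ℚ) : 0 < dn P :=
  Finset.prod_pos fun _ _ => Rat.den_pos _

theorem ev_abs_le {r : ℕ} {g : Fin r → ℕ → ℚ} (P : MvPolynomial (Fin r) ℚ) {n : ℕ} {t : ℝ}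
    (h : ∀ e ∈ P.support, av 0 (mon g e n) ≤ t) :
    |((ev g n P : ℚ) : ℝ)| ≤ (∑ e ∈ P.support, |((MvPolynomial.coeff e P : ℚ) : ℝ)|) * t := by
  rw [ev_eq, Finset.sum_mul]
  push_cast
  refine (Finset.abs_sum_le_sum_abs _ _).trans (Finset.sum_le_sum fun e he => ?_)
  rw [abs_mul]
  apply mul_le_mul_of_nonneg_left _ (abs_nonneg _)
  have := h e he
  rwa [av_zero_eq] at this

theorem const_le {F : Filter ℕ} {T : ℕ → ℝ} (hT : Tendsto T F atTop) (C : ℝ) :
    ∀ᶠ n in F, C ≤ Real.exp (T n) := by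
  have := ev_const_le_exp hT one_pos C
  simpa using this

/-- the exponent of `p` needed to clear a factor of size `exp t` -/
noncomputable def xp (t : ℝ) (p : ℕ) : ℕ := ⌈t / Real.log p⌉₊

theorem log_pos {p : ℕ} (hp : p.Prime) : 0 < Real.log p :=
  Real.log_pos (by exact_mod_cast hp.one_lt)

theorem exp_le_pow {p : ℕ} (hp : p.Prime) (t : ℝ) : Real.exp t ≤ (p : ℝ) ^ xp t p := by
  have h1 : t / Real.log p ≤ (xp t p : ℝ) := Nat.le_ceil _
  have h2 : t ≤ (xp t p : ℝ) * Real.log p := (div_le_iff₀ (log_pos hp)).1 h1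
  have hp0 : (0 : ℝ) < p := by exact_mod_cast hp.pos
  calc Real.exp t ≤ Real.exp ((xp t p : ℝ) * Real.log p) := Real.exp_le_exp.2 h2
    _ = (p : ℝ) ^ xp t p := by rw [Real.exp_nat_mul, Real.exp_log hp0]

theorem pow_le_exp {p : ℕ} (hp : p.Prime) {t : ℝ} (ht : 0 ≤ t) :
    (p : ℝ) ^ xp t p ≤ p * Real.exp t := by
  have h1 : (xp t p : ℝ) < t / Real.log p + 1 :=
    Nat.ceil_lt_add_one (div_nonneg ht (log_pos hp).le)
  have hp0 : (0 : ℝ) < p := by exact_mod_cast hp.pos
  have h2 : (xp t p : ℝ) * Real.log p ≤ Real.log p + t := by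
    have h3 := mul_lt_mul_of_pos_right h1 (log_pos hp)
    rw [add_mul, div_mul_cancel₀ _ (log_pos hp).ne', one_mul] at h3
    linarith
  calc (p : ℝ) ^ xp t p = Real.exp ((xp t p : ℝ) * Real.log p) := by
        rw [Real.exp_nat_mul, Real.exp_log hp0]
    _ ≤ Real.exp (Real.log p + t) := Real.exp_le_exp.2 h2
    _ = p * Real.exp t := by rw [Real.exp_add, Real.exp_log hp0]

/-- the unit which clears all `S`-parts of size `exp t` -/
noncomputable def cl (S : Finset ℕ) (t : ℝ) : ℕ := ∏ p ∈ S, p ^ xp t p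

theorem cl_pos {S : Finset ℕ} (hS : PS S) (t : ℝ) : 0 < cl S t :=
  Finset.prod_pos fun p hp => pow_pos (hS p hp).pos _

theorem cl_le {S : Finset ℕ} (hS : PS S) {t : ℝ} (ht : 0 ≤ t) :
    (cl S t : ℝ) ≤ (∏ p ∈ S, (p : ℝ)) * Real.exp (S.card * t) := by
  unfold cl
  push_cast
  calc ∏ p ∈ S, (p : ℝ) ^ xp t p ≤ ∏ p ∈ S, ((p : ℝ) * Real.exp t) :=
        Finset.prod_le_prod (fun p _ => by positivity) fun p hp => pow_le_exp (hS p hp) ht
    _ = (∏ p ∈ S, (p : ℝ)) * Real.exp (S.card * t) := by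
        rw [Finset.prod_mul_distrib, Finset.prod_const, Real.exp_nat_mul]

/-- the clearing unit times a small unit is an integer -/
theorem cl_int {S : Finset ℕ} (hS : PS S) {w : ℚ} (hw : IsU S w) {t : ℝ}
    (h : ∀ p ∈ S, av p w ≤ Real.exp t) : ∃ z : ℤ, (cl S t : ℚ) * w = z := by
  apply int_of_av
  intro p hp
  have hpl : p = 0 ∨ p.Prime := Or.inr hp
  rw [av_mul hpl]
  by_cases hpS : p ∈ S
  · have h1 : av p (cl S t : ℚ) ≤ (Real.exp t)⁻¹ := by
      unfold cl
      push_cast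
      rw [av_prod hpl, ← Finset.mul_prod_erase S _ hpS]
      have h2 : ∏ q ∈ S.erase p, av p ((q : ℚ) ^ xp t q) = 1 := by
        apply Finset.prod_eq_one
        intro q hq
        rw [Finset.mem_erase] at hq
        rw [av_pow hpl, av_of_ne hp (hS q hq.2) hq.1.symm, one_pow]
      rw [h2, mul_one, av_pow hpl, av_self hp, inv_pow]
      exact inv_anti₀ (Real.exp_pos t) (exp_le_pow hp t)
    calc av p (cl S t : ℚ) * av p w ≤ (Real.exp t)⁻¹ * Real.exp t :=
          mul_le_mul h1 (h p hpS) (av_nonneg _ _) (by positivity)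
      _ = 1 := inv_mul_cancel₀ (Real.exp_pos t).ne'
  · rw [av_unit_out hS hw hp hpS, mul_one]
    have := av_int_le_one hp (cl S t : ℤ)
    simpa using this

end MSM_

open MSM_ in
theorem msm_proof : Stmt_MSM := by
  intro U S T r g κ ν J H hGd hκ hν hH
  have hS := hGd.prime
  have hT := hGd.lim
  -- all the bounds at once
  have hall : ∀ᶠ n in (U : Filter ℕ), ∀ j, ∀ e ∈ (H j).support, ∀ v ∈ pl S,
      av v (mon g e n) ≤ Real.exp (κ * T n) * av v (ν n) := by
    rw [eventually_all]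
    intro j
    exact (eventually_all_finset _).2 fun e he => hH j e he
  constructor
  · have hC : ∀ᶠ n in (U : Filter ℕ), ∀ j,
        ∑ e ∈ (H j).support, |((MvPolynomial.coeff e (H j) : ℚ) : ℝ)| ≤ Real.exp (T n) := by
      rw [eventually_all]
      intro j
      exact const_le hT _
    filter_upwards [hall, hC] with n hn hCn j
    have hν0 : 0 < ν n := (hν n).1
    have h1 := ev_abs_le (g := g) (H j) (n := n) (t := Real.exp (κ * T n) * av 0 (ν n))
      fun e he => hn j e he 0 (zero_mem_pl S)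
    have h2 : (0 : ℝ) < ν n := by exact_mod_cast hν0
    rw [av_zero_eq, abs_of_pos h2] at h1
    calc |((ev g n (H j) : ℚ) : ℝ)|
        ≤ (∑ e ∈ (H j).support, |((MvPolynomial.coeff e (H j) : ℚ) : ℝ)|) *
          (Real.exp (κ * T n) * ν n) := h1
      _ ≤ Real.exp (T n) * (Real.exp (κ * T n) * ν n) := by
          apply mul_le_mul_of_nonneg_right (hCn j)
          positivity
      _ = Real.exp ((κ + 1) * T n) * ν n := by
          rw [← mul_assoc, ← Real.exp_add]
          ring_nf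
  · set K : ℕ := ∏ j, dn (H j) with hK
    have hK0 : 0 < K := Finset.prod_pos fun j _ => dn_pos _
    refine ⟨fun n => K * cl S (κ * T n), ?_, ?_⟩
    · filter_upwards [ev_pos hT, const_le hT ((K : ℝ) * ∏ p ∈ S, (p : ℝ))] with n hn hC
      refine ⟨Nat.mul_pos hK0 (cl_pos hS _), ?_⟩
      have h1 : 0 ≤ κ * T n := mul_nonneg hκ hn.le
      have h2 := cl_le hS h1
      push_cast
      calc (K : ℝ) * (cl S (κ * T n) : ℝ)
          ≤ (K : ℝ) * ((∏ p ∈ S, (p : ℝ)) * Real.exp (S.card * (κ * T n))) := by gcongr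
        _ = ((K : ℝ) * ∏ p ∈ S, (p : ℝ)) * Real.exp (S.card * (κ * T n)) := by ring
        _ ≤ Real.exp (T n) * Real.exp (S.card * (κ * T n)) := by gcongr
        _ = Real.exp ((κ * S.card + 1) * T n) := by
            rw [← Real.exp_add]
            ring_nf
    · filter_upwards [hall] with n hn j
      have hν0 : ν n ≠ 0 := (hν n).1.ne'
      have key : ∃ z : ℤ, ((K * cl S (κ * T n) : ℕ) : ℚ) * (ev g n (H j) / ν n) = z := by
        rw [ev_eq, Finset.sum_div, Finset.mul_sum]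
        apply sum_int
        intro e he
        have h1 : ∃ z : ℤ, (K : ℚ) * MvPolynomial.coeff e (H j) = z := by
          apply den_mul
          have h2 : (MvPolynomial.coeff e (H j)).den ∣ dn (H j) :=
            Finset.dvd_prod_of_mem (fun e => (MvPolynomial.coeff e (H j)).den) he
          exact h2.trans (Finset.dvd_prod_of_mem (fun j => dn (H j)) (Finset.mem_univ j))
        have h3 : ∃ z : ℤ, (cl S (κ * T n) : ℚ) * (mon g e n / ν n) = z := by
          apply cl_int hS ((mon_isU hS hGd.unit e n).div hS (hν n))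
          intro p hp
          have hpl : p = 0 ∨ p.Prime := Or.inr (hS p hp)
          rw [av_div hpl, div_le_iff₀ (av_pos hpl hν0)]
          exact hn j e he p (mem_pl_of_mem hp)
        have h4 := mul_int h1 h3
        have h5 : ((K * cl S (κ * T n) : ℕ) : ℚ) *
            (MvPolynomial.coeff e (H j) * mon g e n / ν n) =
            (K : ℚ) * MvPolynomial.coeff e (H j) * ((cl S (κ * T n) : ℚ) *
              (mon g e n / ν n)) := by
          push_cast
          ring
        rw [h5]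
        exact h4
      obtain ⟨z, hz⟩ := key
      refine ⟨z, ?_⟩
      rw [← hz]
      field_simp

end Pool.Agent.SBT
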