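import Pool.Agent.SBT.StmtsM
import Pool.Agent.SBT.Api
import Pool.Agent.SBT.MHT
import Pool.Agent.SBT.MSM

/-!
# MCR: the core of the field theorem
-/

set_option autoImplicit false

namespace Pool.Agent.SBT

open Filter

namespace MCR_

variable {U : Ultrafilter ℕ} {S : Finset ℕ} {T : ℕ → ℝ} {r : ℕ} {g : Fin r → ℕ → ℚ}

theorem ee (x y t : ℝ) : Real.exp (x * t) * Real.exp (y * t) = Real.exp ((x + y) * t) := by
  rw [← Real.exp_add, ← add_mul]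

theorem const_le {F : Filter ℕ} {T : ℕ → ℝ} (hT : Tendsto T F atTop) (C : ℝ) :
    ∀ᶠ n in F, C ≤ Real.exp (1 * T n) := ev_const_le_exp hT one_pos C

theorem ev_mul (n : ℕ) (P Q : MvPolynomial (Fin r) ℚ) : ev g n (P * Q) = ev g n P * ev g n Q := by
  simp [ev]

theorem ev_sum {ι : Type} (s : Finset ι) (n : ℕ) (P : ι → MvPolynomial (Fin r) ℚ) :
    ev g n (∑ i ∈ s, P i) = ∑ i ∈ s, ev g n (P i) := by
  simp [ev]

theorem ev_sub (n : ℕ) (P Q : MvPolynomial (Fin r) ℚ) : ev g n (P - Q) = ev g n P - ev g n Q := by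
  simp [ev]

/-- upper bound for the value from a bound for the monomials -/
theorem ev_le (hT : Tendsto T (U : Filter ℕ) atTop) (H : MvPolynomial (Fin r) ℚ) (M : ℕ → ℝ)
    (hM : ∀ e ∈ H.support, ∀ᶠ n in (U : Filter ℕ), av 0 (mon g e n) ≤ M n)
    (hM0 : ∀ᶠ n in (U : Filter ℕ), 0 ≤ M n) :
    ∀ᶠ n in (U : Filter ℕ), |((ev g n H : ℚ) : ℝ)| ≤ Real.exp (1 * T n) * M n := by
  have h1 : ∀ᶠ n in (U : Filter ℕ), ∀ e ∈ H.support, av 0 (mon g e n) ≤ M n :=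
    (eventually_all_finset _).2 hM
  filter_upwards [h1, hM0, const_le hT
    (∑ e ∈ H.support, |((MvPolynomial.coeff e H : ℚ) : ℝ)|)] with n h1 h2 h3
  exact (MSM_.ev_abs_le H h1).trans (mul_le_mul_of_nonneg_right h3 h2)

theorem ub (hMSM : Stmt_MSM) (hG : Gd U S T g) {κ : ℝ} {ν : ℕ → ℚ}
    {H : MvPolynomial (Fin r) ℚ} (hκ : 0 ≤ κ) (hν : ∀ n, IsU S (ν n)) (hH : Ht U S T g κ ν H) :
    ∀ᶠ n in (U : Filter ℕ), |((ev g n H : ℚ) : ℝ)| ≤ Real.exp ((κ + 1) * T n) * ν n :=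
  (hMSM U S T r g κ ν 1 (fun _ => H) hG hκ hν (fun _ => hH)).1.mono fun _ hn => hn 0

theorem ev_ne (hUNI : Stmt_UNI) (hG : Gd U S T g) {H : MvPolynomial (Fin r) ℚ} (h0 : H ≠ 0) :
    ∀ᶠ n in (U : Filter ℕ), ev g n H ≠ 0 := by
  rcases ult_em U (fun n => ev g n H = 0) with h | h
  · exact absurd (hUNI U S r g hG.prime hG.unit hG.ind H h) h0
  · exact h

theorem lb (hUNI : Stmt_UNI) (hMSM : Stmt_MSM) (hG : Gd U S T g) {κ : ℝ} {ν : ℕ → ℚ}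
    {H : MvPolynomial (Fin r) ℚ} (hκ : 0 ≤ κ) (hν : ∀ n, IsU S (ν n)) (hH : Ht U S T g κ ν H)
    (h0 : H ≠ 0) : ∀ᶠ n in (U : Filter ℕ),
      ((ν n : ℚ) : ℝ) ≤ Real.exp ((κ * S.card + 1) * T n) * |((ev g n H : ℚ) : ℝ)| := by
  obtain ⟨Δ, hΔ, hz⟩ := (hMSM U S T r g κ ν 1 (fun _ => H) hG hκ hν (fun _ => hH)).2
  filter_upwards [hΔ, hz, ev_ne hUNI hG h0] with n h1 h2 h3
  obtain ⟨z, hz⟩ := h2 0
  have hν0 : (0 : ℝ) < (ν n : ℚ) := by exact_mod_cast (hν n).1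
  have hΔ0 : (0 : ℝ) < Δ n := by exact_mod_cast h1.1
  have hz0 : z ≠ 0 := by
    intro h
    rw [h] at hz
    have h4 : ((Δ n : ℚ)) ≠ 0 := by exact_mod_cast h1.1.ne'
    have : (Δ n : ℚ) * ev g n H = 0 := by
      rw [hz]
      simp
    rcases mul_eq_zero.1 this with h5 | h5
    · exact h4 h5
    · exact h3 h5
  have h4 : (Δ n : ℝ) * |((ev g n H : ℚ) : ℝ)| = |(z : ℝ)| * ν n := by
    have h5 : ((Δ n : ℝ)) * ((ev g n H : ℚ) : ℝ) = z * ((ν n : ℚ) : ℝ) := by exact_mod_cast hz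
    calc (Δ n : ℝ) * |((ev g n H : ℚ) : ℝ)| = |(Δ n : ℝ) * ((ev g n H : ℚ) : ℝ)| := by
          rw [abs_mul, abs_of_pos hΔ0]
      _ = |(z : ℝ)| * ν n := by rw [h5, abs_mul, abs_of_pos hν0]
  calc ((ν n : ℚ) : ℝ) ≤ |(z : ℝ)| * ν n := by
        have := one_le_abs_int hz0
        nlinarith
    _ = (Δ n : ℝ) * |((ev g n H : ℚ) : ℝ)| := h4.symm
    _ ≤ _ := mul_le_mul_of_nonneg_right h1.2 (abs_nonneg _)

theorem pow_isU {ν : ℕ → ℚ} (hS : PS S) (hν : ∀ n, IsU S (ν n)) (J : ℕ) :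
    ∀ n, IsU S ((fun n => ν n ^ J) n) := fun n => (hν n).pow hS J

/-- entries of the adjugate -/
theorem adj_ht (hG : Gd U S T g) {κ : ℝ} (hκ : 0 ≤ κ) {ν : ℕ → ℚ} : ∀ {J : ℕ}
    (M : Matrix (Fin J) (Fin J) (MvPolynomial (Fin r) ℚ)),
    (∀ i j, Ht U S T g κ ν (M i j)) → ∀ i j,
      Ht U S T g (J * κ) (fun n => ν n ^ (J - 1)) (M.adjugate i j)
  | 0, _, _, i, _ => i.elim0
  | J + 1, M, hM, i, j => by
    rw [Matrix.adjugate_fin_succ_eq_det_submatrix]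
    have h1 : Ht U S T g (J * κ) (fun n => ν n ^ J)
        (M.submatrix j.succAbove i.succAbove).det :=
      MHT_.det hG.prime fun a b => hM _ _
    have h2 : Ht U S T g (((J + 1 : ℕ) : ℝ) * κ) (fun n => ν n ^ J)
        (M.submatrix j.succAbove i.succAbove).det := by
      refine MHT_.mono (ev_pos hG.lim) ?_ h1
      push_cast
      nlinarith
    rcases neg_one_pow_eq_or (MvPolynomial (Fin r) ℚ) ((j : ℕ) + (i : ℕ)) with h3 | h3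
    · rw [h3, one_mul]
      exact h2
    · rw [h3, neg_one_mul]
      exact MHT_.neg h2

/-- Cramer's rule -/
theorem case1 (hUNI : Stmt_UNI) (hMSM : Stmt_MSM) (hG : Gd U S T g) {κ : ℝ} (hκ : 0 ≤ κ)
    {a : ℕ → ℚ} (ha : ∀ n, IsU S (a n)) {J : ℕ}
    (M : Matrix (Fin J) (Fin J) (MvPolynomial (Fin r) ℚ)) (hM : ∀ i j, Ht U S T g κ a (M i j))
    (hdet : M.det ≠ 0) (x : Fin J → MvPolynomial (Fin r) ℚ) (Q : ℕ → ℝ)
    (hQ0 : ∀ᶠ n in (U : Filter ℕ), 0 ≤ Q n)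
    (hQ : ∀ l, ∀ᶠ n in (U : Filter ℕ), |((ev g n (M.mulVec x l) : ℚ) : ℝ)| ≤ Q n * a n) :
    ∀ i, ∀ᶠ n in (U : Filter ℕ), |((ev g n (x i) : ℚ) : ℝ)| ≤
      Real.exp ((J * κ + 2 + (J * κ * S.card + 1)) * T n) * Q n := by
  intro i
  have hJ0 : 0 ≤ (J : ℝ) * κ := mul_nonneg (Nat.cast_nonneg _) hκ
  have hdetH : Ht U S T g (J * κ) (fun n => a n ^ J) M.det := MHT_.det hG.prime hM
  have h1 := lb hUNI hMSM hG hJ0 (pow_isU hG.prime ha J) hdetH hdet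
  have h2 : ∀ᶠ n in (U : Filter ℕ), ∀ l, |((ev g n (M.adjugate i l) : ℚ) : ℝ)| ≤
      Real.exp ((J * κ + 1) * T n) * ((a n ^ (J - 1) : ℚ) : ℝ) := by
    rw [eventually_all]
    intro l
    exact ub hMSM hG hJ0 (pow_isU hG.prime ha (J - 1)) (adj_ht hG hκ M hM i l)
  have h3 : ∀ᶠ n in (U : Filter ℕ), ∀ l, |((ev g n (M.mulVec x l) : ℚ) : ℝ)| ≤ Q n * a n :=
    eventually_all.2 hQ
  have hJ1 : J - 1 + 1 = J := by
    have := i.2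
    omega
  filter_upwards [h1, h2, h3, hQ0, const_le hG.lim (J : ℝ)] with n h1 h2 h3 h4 h5
  have ha0 : (0 : ℝ) < (a n : ℚ) := by exact_mod_cast (ha n).1
  have e1 : M.det * x i = ∑ l, M.adjugate i l * M.mulVec x l := by
    have h : M.adjugate.mulVec (M.mulVec x) i = M.det * x i := by
      rw [Matrix.mulVec_mulVec, Matrix.adjugate_mul, Matrix.smul_mulVec, Matrix.one_mulVec]
      rfl
    exact h.symm
  have e2 : |((ev g n M.det : ℚ) : ℝ)| * |((ev g n (x i) : ℚ) : ℝ)| ≤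
      Real.exp (1 * T n) * (Real.exp ((J * κ + 1) * T n) * (Q n * ((a n ^ J : ℚ) : ℝ))) := by
    rw [← abs_mul]
    have h : ((ev g n M.det : ℚ) : ℝ) * ((ev g n (x i) : ℚ) : ℝ) =
        ∑ l, ((ev g n (M.adjugate i l) : ℚ) : ℝ) * ((ev g n (M.mulVec x l) : ℚ) : ℝ) := by
      have h' := congrArg (ev g n) e1
      rw [ev_mul, ev_sum] at h'
      simp only [ev_mul] at h'
      exact_mod_cast h'
    rw [h]
    refine (Finset.abs_sum_le_sum_abs _ _).trans ?_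
    calc ∑ l, |((ev g n (M.adjugate i l) : ℚ) : ℝ) * ((ev g n (M.mulVec x l) : ℚ) : ℝ)|
        ≤ ∑ _l : Fin J, (Real.exp ((J * κ + 1) * T n) * (Q n * ((a n ^ J : ℚ) : ℝ))) := by
          refine Finset.sum_le_sum fun l _ => ?_
          rw [abs_mul]
          calc |((ev g n (M.adjugate i l) : ℚ) : ℝ)| * |((ev g n (M.mulVec x l) : ℚ) : ℝ)|
              ≤ (Real.exp ((J * κ + 1) * T n) * ((a n ^ (J - 1) : ℚ) : ℝ)) * (Q n * a n) := by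
                apply mul_le_mul (h2 l) (h3 l) (abs_nonneg _)
                push_cast
                positivity
            _ = Real.exp ((J * κ + 1) * T n) * (Q n * ((a n ^ J : ℚ) : ℝ)) := by
                push_cast
                rw [← hJ1, pow_succ, hJ1]
                ring
      _ = J * (Real.exp ((J * κ + 1) * T n) * (Q n * ((a n ^ J : ℚ) : ℝ))) := by
          rw [Finset.sum_const, Finset.card_univ, Fintype.card_fin, nsmul_eq_mul]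
      _ ≤ _ := by
          apply mul_le_mul_of_nonneg_right h5
          push_cast
          positivity
  have hpow : (0 : ℝ) < ((a n ^ J : ℚ) : ℝ) := by
    push_cast
    positivity
  have e3 : ((a n ^ J : ℚ) : ℝ) * |((ev g n (x i) : ℚ) : ℝ)| ≤
      ((a n ^ J : ℚ) : ℝ) * (Real.exp ((J * κ + 2 + (J * κ * S.card + 1)) * T n) * Q n) := by
    calc ((a n ^ J : ℚ) : ℝ) * |((ev g n (x i) : ℚ) : ℝ)|
        ≤ (Real.exp ((J * κ * S.card + 1) * T n) * |((ev g n M.det : ℚ) : ℝ)|) *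
          |((ev g n (x i) : ℚ) : ℝ)| := mul_le_mul_of_nonneg_right h1 (abs_nonneg _)
      _ = Real.exp ((J * κ * S.card + 1) * T n) *
          (|((ev g n M.det : ℚ) : ℝ)| * |((ev g n (x i) : ℚ) : ℝ)|) := by ring
      _ ≤ Real.exp ((J * κ * S.card + 1) * T n) *
          (Real.exp (1 * T n) * (Real.exp ((J * κ + 1) * T n) * (Q n * ((a n ^ J : ℚ) : ℝ)))) :=
          mul_le_mul_of_nonneg_left e2 (Real.exp_pos _).le
      _ = _ := by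
          have : Real.exp ((J * κ + 2 + (J * κ * S.card + 1)) * T n) =
              Real.exp ((J * κ * S.card + 1) * T n) * (Real.exp (1 * T n) *
                Real.exp ((J * κ + 1) * T n)) := by
            rw [ee, ee]
            congr 1
            ring
          rw [this]
          ring
  exact le_of_mul_le_mul_left e3 hpow

/-- a rational number of small height close to `ξ` -/
theorem meas_false (hT : Tendsto T (U : Filter ℕ) atTop) {ξ : ℝ} {μ : ℕ} (hξ : Meas ξ μ)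
    {τ ω : ℝ} (hτ : τ < 0) (hτω : τ + μ * ω < 0) (q₀ q₁ : ℕ → ℤ)
    (h1 : ∀ᶠ n in (U : Filter ℕ), q₀ n ≠ 0 ∨ q₁ n ≠ 0)
    (h2 : ∀ᶠ n in (U : Filter ℕ), |(q₁ n : ℝ)| ≤ Real.exp (ω * T n))
    (h3 : ∀ᶠ n in (U : Filter ℕ), |(q₀ n : ℝ) - ξ * q₁ n| ≤ Real.exp (τ * T n)) : False := by
  obtain ⟨c, hc, hm⟩ := hξ
  obtain ⟨n, ⟨⟨h1, h2⟩, h3⟩, ⟨h4, h5⟩⟩ := (((h1.and h2).and h3).and ((ev_pos hT).and
    (ev_const_le_exp hT (neg_pos.2 hτω) (2 / c)))).exists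
  by_cases hq : q₁ n = 0
  · have hq0 : q₀ n ≠ 0 := by
      rcases h1 with h | h
      · exact h
      · exact absurd hq h
    have e1 := one_le_abs_int hq0
    rw [hq] at h3
    have e2 : Real.exp (τ * T n) < 1 := by
      rw [Real.exp_lt_one_iff]
      exact mul_neg_of_neg_of_pos hτ h4
    have e3 : |(q₀ n : ℝ)| ≤ Real.exp (τ * T n) := by simpa using h3
    linarith
  · have hq1 := one_le_abs_int hq
    have hnat : 0 < (q₁ n).natAbs := Int.natAbs_pos.2 hq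
    have e1 := hm (q₁ n).natAbs ((q₁ n).sign * q₀ n) hnat
    have hcast : (((q₁ n).natAbs : ℕ) : ℝ) = |(q₁ n : ℝ)| := by
      rw [Nat.cast_natAbs, Int.cast_abs]
    have hq2 : (q₁ n : ℝ) ≠ 0 := by exact_mod_cast hq
    have hquot : (((q₁ n).sign * q₀ n : ℤ) : ℝ) / (((q₁ n).natAbs : ℕ) : ℝ) =
        (q₀ n : ℝ) / q₁ n := by
      rw [hcast]
      have h6 : ((q₁ n).sign : ℝ) * |(q₁ n : ℝ)| = q₁ n := by
        have := Int.sign_mul_abs (q₁ n)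
        exact_mod_cast this
      have h7 : (((q₁ n).sign : ℤ) : ℝ) * (((q₁ n).sign : ℤ) : ℝ) = 1 := by
        have : (q₁ n).sign * (q₁ n).sign = 1 := by
          rw [← Int.sign_mul]
          exact Int.sign_eq_one_of_pos (mul_self_pos.2 hq)
        exact_mod_cast this
      have h8 : |(q₁ n : ℝ)| ≠ 0 := abs_ne_zero.2 hq2
      rw [div_eq_div_iff h8 hq2]
      push_cast
      calc ((q₁ n).sign : ℝ) * (q₀ n : ℝ) * (q₁ n : ℝ)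
          = ((q₁ n).sign : ℝ) * (q₀ n : ℝ) * (((q₁ n).sign : ℝ) * |(q₁ n : ℝ)|) := by rw [h6]
        _ = (((q₁ n).sign : ℝ) * ((q₁ n).sign : ℝ)) * ((q₀ n : ℝ) * |(q₁ n : ℝ)|) := by ring
        _ = (q₀ n : ℝ) * |(q₁ n : ℝ)| := by rw [h7, one_mul]
    rw [hquot, hcast] at e1
    have e2 : |ξ - (q₀ n : ℝ) / q₁ n| ≤ Real.exp (τ * T n) := by
      have h6 : ξ - (q₀ n : ℝ) / q₁ n = -(((q₀ n : ℝ) - ξ * q₁ n) / q₁ n) := by
        field_simp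
        ring
      rw [h6, abs_neg, abs_div]
      exact (div_le_self (abs_nonneg _) hq1).trans h3
    have e3 : |(q₁ n : ℝ)| ^ μ ≤ Real.exp (μ * ω * T n) := by
      calc |(q₁ n : ℝ)| ^ μ ≤ Real.exp (ω * T n) ^ μ := pow_le_pow_left₀ (abs_nonneg _) h2 μ
        _ = Real.exp (μ * ω * T n) := by
            rw [← Real.exp_nat_mul]
            congr 1
            ring
    have e4 : c ≤ Real.exp ((τ + μ * ω) * T n) := by
      calc c ≤ |ξ - (q₀ n : ℝ) / q₁ n| * |(q₁ n : ℝ)| ^ μ := e1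
        _ ≤ Real.exp (τ * T n) * Real.exp (μ * ω * T n) :=
            mul_le_mul e2 e3 (by positivity) (Real.exp_pos _).le
        _ = _ := ee _ _ _
    have e5 : Real.exp ((τ + μ * ω) * T n) * Real.exp (-(τ + μ * ω) * T n) = 1 := by
      rw [ee]
      simp
    have e6 : c * (2 / c) ≤ 1 := by
      calc c * (2 / c) ≤ Real.exp ((τ + μ * ω) * T n) * Real.exp (-(τ + μ * ω) * T n) :=
            mul_le_mul e4 h5 (by positivity) (Real.exp_pos _).le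
        _ = 1 := e5
    have e7 : c * (2 / c) = 2 := by
      field_simp
    linarith

/-- the second case -/
theorem case2 (hMSM : Stmt_MSM) (hG : Gd U S T g) {κ : ℝ} (hκ : 0 ≤ κ) {a : ℕ → ℚ}
    (ha : ∀ n, IsU S (a n)) {d : ℕ} {Z : Fin d → ℕ → ℤ} (hZ : Indp U g Z) {B : ℝ}
    (hZB : ∀ᶠ n in (U : Filter ℕ), ∀ i, |(Z i n : ℝ)| ≤ Real.exp (B * T n))
    (N : Fin 2 → Fin d → MvPolynomial (Fin r) ℚ) (hN : ∀ c j, Ht U S T g κ a (N c j))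
    (hne : ∃ c, N c ≠ 0) {ξ : ℝ} {μ : ℕ} (hξ : Meas ξ μ) {κ' : ℝ}
    (hτ : κ * S.card + 1 + κ' < 0)
    (hτω : κ * S.card + 1 + κ' + μ * (κ * S.card + 1 + (κ + B + 2)) < 0)
    (hsm : ∀ᶠ n in (U : Filter ℕ),
      |((∑ j, ev g n (N 0 j) * (Z j n : ℚ) : ℚ) : ℝ) -
        ξ * ((∑ j, ev g n (N 1 j) * (Z j n : ℚ) : ℚ) : ℝ)| ≤ Real.exp (κ' * T n) * a n) :
    False := by
  obtain ⟨Δ, hΔ, hz⟩ := (hMSM U S T r g κ a (2 * d)
    (fun i => N (finProdFinEquiv.symm i).1 (finProdFinEquiv.symm i).2) hG hκ ha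
    (fun i => hN _ _)).2
  have hz' : ∀ᶠ n in (U : Filter ℕ), ∀ c j, ∃ z : ℤ, (Δ n : ℚ) * ev g n (N c j) = z * a n := by
    refine hz.mono fun n hn c j => ?_
    have := hn (finProdFinEquiv (c, j))
    rw [Equiv.symm_apply_apply] at this
    exact this
  have hex : ∀ n, ∃ z : Fin 2 → Fin d → ℤ,
      (∀ c j, ∃ z : ℤ, (Δ n : ℚ) * ev g n (N c j) = z * a n) →
        ∀ c j, (Δ n : ℚ) * ev g n (N c j) = z c j * a n := by
    intro n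
    by_cases h : ∀ c j, ∃ z : ℤ, (Δ n : ℚ) * ev g n (N c j) = z * a n
    · choose z hz using h
      exact ⟨z, fun _ => hz⟩
    · exact ⟨fun _ _ => 0, fun h' => absurd h' h⟩
  choose z hz2 using hex
  obtain ⟨q, hq⟩ : ∃ q : Fin 2 → ℕ → ℤ, q = fun c n => ∑ j, z n c j * Z j n := ⟨_, rfl⟩
  have hqm : ∀ᶠ n in (U : Filter ℕ), ∀ c,
      (Δ n : ℚ) * ∑ j, ev g n (N c j) * (Z j n : ℚ) = (q c n : ℚ) * a n := by
    filter_upwards [hz'] with n hn c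
    have h1 := hz2 n hn c
    rw [hq, Finset.mul_sum]
    push_cast
    rw [Finset.sum_mul]
    refine Finset.sum_congr rfl fun j _ => ?_
    rw [← mul_assoc, h1 j]
    ring
  have hqm' : ∀ᶠ n in (U : Filter ℕ), ∀ c,
      (Δ n : ℝ) * ((∑ j, ev g n (N c j) * (Z j n : ℚ) : ℚ) : ℝ) = (q c n : ℝ) * a n := by
    refine hqm.mono fun n hn c => ?_
    exact_mod_cast hn c
  -- not both are zero
  obtain ⟨c₀, hc₀⟩ := hne
  have hnz : ∀ᶠ n in (U : Filter ℕ), ∑ j, ev g n (N c₀ j) * (Z j n : ℚ) ≠ 0 := by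
    rcases ult_em U (fun n => ∑ j, ev g n (N c₀ j) * (Z j n : ℚ) = 0) with h | h
    · exact absurd (hZ (N c₀) h) hc₀
    · exact h
  have hq01 : ∀ᶠ n in (U : Filter ℕ), q 0 n ≠ 0 ∨ q 1 n ≠ 0 := by
    filter_upwards [hnz, hqm, hΔ] with n h1 h2 h3
    have h4 : q c₀ n ≠ 0 := by
      intro h
      have h5 := h2 c₀
      rw [h] at h5
      have h6 : (Δ n : ℚ) ≠ 0 := by exact_mod_cast h3.1.ne'
      have h7 : (Δ n : ℚ) * ∑ j, ev g n (N c₀ j) * (Z j n : ℚ) = 0 := by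
        rw [h5]
        simp
      rcases mul_eq_zero.1 h7 with h8 | h8
      · exact h6 h8
      · exact h1 h8
    fin_cases c₀
    · exact Or.inl h4
    · exact Or.inr h4
  -- upper bounds
  have hN1 : ∀ᶠ n in (U : Filter ℕ), ∀ j, |((ev g n (N 1 j) : ℚ) : ℝ)| ≤
      Real.exp ((κ + 1) * T n) * a n := by
    rw [eventually_all]
    intro j
    exact ub hMSM hG hκ ha (hN 1 j)
  refine meas_false (U := U) (T := T) hG.lim hξ hτ hτω (q 0) (q 1) hq01 ?_ ?_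
  · filter_upwards [hqm', hΔ, hN1, hZB, const_le hG.lim (d : ℝ)] with n h1 h2 h3 h4 h5
    have ha0 : (0 : ℝ) < (a n : ℚ) := by exact_mod_cast (ha n).1
    have hΔ0 : (0 : ℝ) < Δ n := by exact_mod_cast h2.1
    have e1 : |((∑ j, ev g n (N 1 j) * (Z j n : ℚ) : ℚ) : ℝ)| ≤
        Real.exp (1 * T n) * (Real.exp ((κ + 1) * T n) * a n * Real.exp (B * T n)) := by
      push_cast
      refine (Finset.abs_sum_le_sum_abs _ _).trans ?_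
      calc ∑ j, |((ev g n (N 1 j) : ℚ) : ℝ) * (Z j n : ℝ)|
          ≤ ∑ _j : Fin d, (Real.exp ((κ + 1) * T n) * a n * Real.exp (B * T n)) := by
            refine Finset.sum_le_sum fun j _ => ?_
            rw [abs_mul]
            exact mul_le_mul (h3 j) (h4 j) (abs_nonneg _) (by positivity)
        _ = d * (Real.exp ((κ + 1) * T n) * a n * Real.exp (B * T n)) := by
            rw [Finset.sum_const, Finset.card_univ, Fintype.card_fin, nsmul_eq_mul]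
        _ ≤ _ := mul_le_mul_of_nonneg_right h5 (by positivity)
    have e2 : |(q 1 n : ℝ)| * a n ≤
        Real.exp ((κ * S.card + 1 + (κ + B + 2)) * T n) * a n := by
      calc |(q 1 n : ℝ)| * a n = |(Δ n : ℝ) * ((∑ j, ev g n (N 1 j) * (Z j n : ℚ) : ℚ) : ℝ)| := by
            rw [h1 1, abs_mul, abs_of_pos ha0]
        _ = Δ n * |((∑ j, ev g n (N 1 j) * (Z j n : ℚ) : ℚ) : ℝ)| := by
            rw [abs_mul, abs_of_pos hΔ0]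
        _ ≤ Real.exp ((κ * S.card + 1) * T n) *
            (Real.exp (1 * T n) * (Real.exp ((κ + 1) * T n) * a n * Real.exp (B * T n))) :=
            mul_le_mul h2.2 e1 (abs_nonneg _) (Real.exp_pos _).le
        _ = _ := by
            have : Real.exp ((κ * S.card + 1 + (κ + B + 2)) * T n) =
                Real.exp ((κ * S.card + 1) * T n) * (Real.exp (1 * T n) *
                  (Real.exp ((κ + 1) * T n) * Real.exp (B * T n))) := by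
              rw [ee, ee, ee]
              congr 1
              ring
            rw [this]
            ring
    exact le_of_mul_le_mul_right e2 ha0
  · filter_upwards [hqm', hΔ, hsm] with n h1 h2 h3
    have ha0 : (0 : ℝ) < (a n : ℚ) := by exact_mod_cast (ha n).1
    have hΔ0 : (0 : ℝ) < Δ n := by exact_mod_cast h2.1
    have e2 : |(q 0 n : ℝ) - ξ * q 1 n| * a n ≤
        Real.exp ((κ * S.card + 1 + κ') * T n) * a n := by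
      calc |(q 0 n : ℝ) - ξ * q 1 n| * a n
          = |(q 0 n : ℝ) * a n - ξ * ((q 1 n : ℝ) * a n)| := by
            rw [← abs_of_pos ha0, ← abs_mul, abs_of_pos ha0]
            congr 1
            ring
        _ = |(Δ n : ℝ) * (((∑ j, ev g n (N 0 j) * (Z j n : ℚ) : ℚ) : ℝ) -
            ξ * ((∑ j, ev g n (N 1 j) * (Z j n : ℚ) : ℚ) : ℝ))| := by
            rw [← h1 0, ← h1 1]
            congr 1
            ring
        _ = Δ n * |(((∑ j, ev g n (N 0 j) * (Z j n : ℚ) : ℚ) : ℝ) -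
            ξ * ((∑ j, ev g n (N 1 j) * (Z j n : ℚ) : ℚ) : ℝ))| := by
            rw [abs_mul, abs_of_pos hΔ0]
        _ ≤ Real.exp ((κ * S.card + 1) * T n) * (Real.exp (κ' * T n) * a n) :=
            mul_le_mul h2.2 h3 (abs_nonneg _) (Real.exp_pos _).le
        _ = _ := by rw [← mul_assoc, ee]
    exact le_of_mul_le_mul_right e2 ha0

/-! ## The polynomials -/

section poly

variable {r₀ r₁ d₀ d₁ d : ℕ}

/-- the coefficients of the combination of the products -/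
noncomputable def Hp (E : Fin d₀ → Fin d₁ → Fin d → MvPolynomial (Fin (r₀ + r₁)) ℚ)
    (Y : Fin 2 → Fin d₁ → MvPolynomial (Fin r₁) ℚ) (N : Fin 2 → Fin d₀ → MvPolynomial (Fin r₀) ℚ)
    (w : Fin d) : MvPolynomial (Fin (r₀ + r₁)) ℚ :=
  ∑ j, ∑ k, (il r₁ (N 0 j) * ir r₀ (Y 1 k) - il r₁ (N 1 j) * ir r₀ (Y 0 k)) * E j k w

/-- the coefficients of the linear equations -/
noncomputable def Lf (E : Fin d₀ → Fin d₁ → Fin d → MvPolynomial (Fin (r₀ + r₁)) ℚ)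
    (Y : Fin 2 → Fin d₁ → MvPolynomial (Fin r₁) ℚ) (β : Fin r₁ →₀ ℕ) (w : Fin d)
    (cj : Fin 2 × Fin d₀) : MvPolynomial (Fin r₀) ℚ :=
  if cj.1 = 0 then ∑ k, cf β (ir r₀ (Y 1 k) * E cj.2 k w)
  else -∑ k, cf β (ir r₀ (Y 0 k) * E cj.2 k w)

/-- all exponents which occur in the second part -/
noncomputable def Bf (E : Fin d₀ → Fin d₁ → Fin d → MvPolynomial (Fin (r₀ + r₁)) ℚ)
    (Y : Fin 2 → Fin d₁ → MvPolynomial (Fin r₁) ℚ) : Finset (Fin r₁ →₀ ℕ) :=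
  (Finset.univ : Finset (Fin d₀ × Fin d₁ × Fin d × Fin 2)).biUnion fun p =>
    (ir r₀ (Y p.2.2.2 p.2.1) * E p.1 p.2.1 p.2.2.1).support.image rgt

theorem cf_sum (hMCF : Stmt_MCF) (β : Fin r₁ →₀ ℕ) {ι : Type} (s : Finset ι)
    (G : ι → MvPolynomial (Fin (r₀ + r₁)) ℚ) : cf β (∑ i ∈ s, G i) = ∑ i ∈ s, cf β (G i) :=
  map_sum (AddMonoidHom.mk' (cf β) fun a b => (hMCF r₀ r₁).2.1 β a b) G s

theorem cf_sub (hMCF : Stmt_MCF) (β : Fin r₁ →₀ ℕ)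
    (G G' : MvPolynomial (Fin (r₀ + r₁)) ℚ) : cf β (G - G') = cf β G - cf β G' :=
  map_sub (AddMonoidHom.mk' (cf β) fun a b => (hMCF r₀ r₁).2.1 β a b) G G'

theorem cf_Hp (hMCF : Stmt_MCF) (E : Fin d₀ → Fin d₁ → Fin d → MvPolynomial (Fin (r₀ + r₁)) ℚ)
    (Y : Fin 2 → Fin d₁ → MvPolynomial (Fin r₁) ℚ) (N : Fin 2 → Fin d₀ → MvPolynomial (Fin r₀) ℚ)
    (β : Fin r₁ →₀ ℕ) (w : Fin d) :
    cf β (Hp E Y N w) = ∑ cj : Fin 2 × Fin d₀, Lf E Y β w cj * N cj.1 cj.2 := by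
  have h3 := (hMCF r₀ r₁).2.2.1 β
  unfold Hp
  rw [cf_sum hMCF, Fintype.sum_prod_type, Fin.sum_univ_two, ← Finset.sum_add_distrib]
  refine Finset.sum_congr rfl fun j _ => ?_
  rw [cf_sum hMCF]
  have e1 : ∀ k, cf β ((il r₁ (N 0 j) * ir r₀ (Y 1 k) - il r₁ (N 1 j) * ir r₀ (Y 0 k)) *
      E j k w) = N 0 j * cf β (ir r₀ (Y 1 k) * E j k w) -
        N 1 j * cf β (ir r₀ (Y 0 k) * E j k w) := by
    intro k
    rw [sub_mul, mul_assoc, mul_assoc, cf_sub hMCF, h3, h3]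
  simp only [e1]
  rw [Finset.sum_sub_distrib, ← Finset.mul_sum, ← Finset.mul_sum]
  have l0 : Lf E Y β w (0, j) = ∑ k, cf β (ir r₀ (Y 1 k) * E j k w) := by
    unfold Lf
    rw [if_pos rfl]
  have l1 : Lf E Y β w (1, j) = -∑ k, cf β (ir r₀ (Y 0 k) * E j k w) := by
    unfold Lf
    rw [if_neg (by simp)]
  rw [l0, l1]
  ring

theorem Lf_zero (hMCF : Stmt_MCF)
    (E : Fin d₀ → Fin d₁ → Fin d → MvPolynomial (Fin (r₀ + r₁)) ℚ)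
    (Y : Fin 2 → Fin d₁ → MvPolynomial (Fin r₁) ℚ) {β : Fin r₁ →₀ ℕ} (hβ : β ∉ Bf E Y)
    (w : Fin d) (cj : Fin 2 × Fin d₀) : Lf E Y β w cj = 0 := by
  have h1 : ∀ c j k, cf β (ir r₀ (Y c k) * E j k w) = 0 := by
    intro c j k
    rw [← MvPolynomial.support_eq_empty, Finset.eq_empty_iff_forall_notMem]
    intro α hα
    obtain ⟨e, he, _, he2⟩ := ((hMCF r₀ r₁).1 β _ α).1 hα
    apply hβ
    unfold Bf
    rw [Finset.mem_biUnion]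
    exact ⟨(j, k, w, c), Finset.mem_univ _, Finset.mem_image.2 ⟨e, he, he2⟩⟩
  unfold Lf
  split_ifs
  · exact Finset.sum_eq_zero fun k _ => h1 _ _ _
  · rw [Finset.sum_eq_zero fun k _ => h1 _ _ _, neg_zero]

theorem ev_Hp_sum (hMCF : Stmt_MCF)
    (E : Fin d₀ → Fin d₁ → Fin d → MvPolynomial (Fin (r₀ + r₁)) ℚ)
    (Y : Fin 2 → Fin d₁ → MvPolynomial (Fin r₁) ℚ) (N : Fin 2 → Fin d₀ → MvPolynomial (Fin r₀) ℚ)
    (g₀ : Fin r₀ → ℕ → ℚ) (g₁ : Fin r₁ → ℕ → ℚ) (n : ℕ) (w : Fin d) :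
    ev (Fin.append g₀ g₁) n (Hp E Y N w) =
      ∑ β ∈ Bf E Y, mon g₁ β n * ev g₀ n (cf β (Hp E Y N w)) := by
  rw [(hMCF r₀ r₁).2.2.2.2.2.2.2 g₀ g₁ n (Hp E Y N w)]
  apply Finset.sum_subset
  · intro β hβ
    by_contra hB
    obtain ⟨e, he, he2⟩ := Finset.mem_image.1 hβ
    have h1 : lft e ∈ (cf β (Hp E Y N w)).support :=
      ((hMCF r₀ r₁).1 β _ _).2 ⟨e, he, rfl, he2⟩
    have h2 : cf β (Hp E Y N w) = 0 := by
      rw [cf_Hp hMCF]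
      exact Finset.sum_eq_zero fun cj _ => by rw [Lf_zero hMCF E Y hB, zero_mul]
    rw [h2] at h1
    simp at h1
  · intro β _ hβ
    have h2 : cf β (Hp E Y N w) = 0 := by
      rw [← MvPolynomial.support_eq_empty, Finset.eq_empty_iff_forall_notMem]
      intro α hα
      obtain ⟨e, he, _, he2⟩ := ((hMCF r₀ r₁).1 β _ α).1 hα
      exact hβ (Finset.mem_image.2 ⟨e, he, he2⟩)
    rw [h2]
    simp [ev]

theorem ev_Hp (hMCF : Stmt_MCF)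
    (E : Fin d₀ → Fin d₁ → Fin d → MvPolynomial (Fin (r₀ + r₁)) ℚ)
    (Y : Fin 2 → Fin d₁ → MvPolynomial (Fin r₁) ℚ) (N : Fin 2 → Fin d₀ → MvPolynomial (Fin r₀) ℚ)
    (g₀ : Fin r₀ → ℕ → ℚ) (g₁ : Fin r₁ → ℕ → ℚ) (n : ℕ) (e₀ : ℚ) (z₀ : Fin d₀ → ℚ)
    (z₁ : Fin d₁ → ℚ) (W : Fin d → ℚ)
    (h : ∀ j k, e₀ * (z₀ j * z₁ k) = ∑ w, ev (Fin.append g₀ g₁) n (E j k w) * W w) :
    ∑ w, ev (Fin.append g₀ g₁) n (Hp E Y N w) * W w =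
      e₀ * ((∑ j, ev g₀ n (N 0 j) * z₀ j) * (∑ k, ev g₁ n (Y 1 k) * z₁ k) -
        (∑ j, ev g₀ n (N 1 j) * z₀ j) * (∑ k, ev g₁ n (Y 0 k) * z₁ k)) := by
  have h5 := (hMCF r₀ r₁).2.2.2.2.1 g₀ g₁ n
  have h6 := (hMCF r₀ r₁).2.2.2.2.2.1 g₀ g₁ n
  have e1 : ∀ w, ev (Fin.append g₀ g₁) n (Hp E Y N w) * W w =
      ∑ j, ∑ k, (ev g₀ n (N 0 j) * ev g₁ n (Y 1 k) - ev g₀ n (N 1 j) * ev g₁ n (Y 0 k)) *
        (ev (Fin.append g₀ g₁) n (E j k w) * W w) := by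
    intro w
    unfold Hp
    rw [ev_sum, Finset.sum_mul]
    refine Finset.sum_congr rfl fun j _ => ?_
    rw [ev_sum, Finset.sum_mul]
    refine Finset.sum_congr rfl fun k _ => ?_
    rw [ev_mul, ev_sub, ev_mul, ev_mul, h5, h5, h6, h6]
    ring
  simp only [e1]
  rw [Finset.sum_comm]
  have e2 : ∀ j, ∑ w, ∑ k, (ev g₀ n (N 0 j) * ev g₁ n (Y 1 k) -
      ev g₀ n (N 1 j) * ev g₁ n (Y 0 k)) * (ev (Fin.append g₀ g₁) n (E j k w) * W w) =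
      ∑ k, (ev g₀ n (N 0 j) * ev g₁ n (Y 1 k) - ev g₀ n (N 1 j) * ev g₁ n (Y 0 k)) *
        (e₀ * (z₀ j * z₁ k)) := by
    intro j
    rw [Finset.sum_comm]
    refine Finset.sum_congr rfl fun k _ => ?_
    rw [← Finset.mul_sum, ← h j k]
  simp only [e2]
  rw [Finset.sum_mul_sum, Finset.sum_mul_sum, ← Finset.sum_sub_distrib, Finset.mul_sum]
  refine Finset.sum_congr rfl fun j _ => ?_
  rw [← Finset.sum_sub_distrib, Finset.mul_sum]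
  refine Finset.sum_congr rfl fun k _ => ?_
  ring

/-- the heights of the coefficients of the linear equations -/
theorem ht_Lf (hMCF : Stmt_MCF)
    (E : Fin d₀ → Fin d₁ → Fin d → MvPolynomial (Fin (r₀ + r₁)) ℚ)
    (Y : Fin 2 → Fin d₁ → MvPolynomial (Fin r₁) ℚ) (g₀ : Fin r₀ → ℕ → ℚ) {κ : ℝ} {a : ℕ → ℚ}
    (hE : ∀ j k w, ∀ ε ∈ (E j k w).support, ∀ᶠ n in (U : Filter ℕ), ∀ v ∈ pl S,
      av v (mon g₀ (lft ε) n) ≤ Real.exp (κ * T n) * av v (a n))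
    (β : Fin r₁ →₀ ℕ) (w : Fin d) (cj : Fin 2 × Fin d₀) : Ht U S T g₀ κ a (Lf E Y β w cj) := by
  have h1 : ∀ c j k, Ht U S T g₀ κ a (cf β (ir r₀ (Y c k) * E j k w)) := by
    intro c j k α hα
    obtain ⟨ε, hε, hε2⟩ := (hMCF r₀ r₁).2.2.2.1 β _ _ α hα
    rw [← hε2]
    exact hE j k w ε hε
  unfold Lf
  split_ifs
  · exact MHT_.sum _ fun k _ => h1 _ _ _
  · exact MHT_.neg (MHT_.sum _ fun k _ => h1 _ _ _)

end poly

/-! ## Inequalities for real numbers -/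

theorem det_small {u00 u01 u10 u11 ρ00 ρ01 ρ10 ρ11 ε : ℝ} (hε0 : 0 ≤ ε) (hε : ε ≤ 1)
    (h00 : |ρ00 - u00| ≤ ε) (h01 : |ρ01 - u01| ≤ ε) (h10 : |ρ10 - u10| ≤ ε)
    (h11 : |ρ11 - u11| ≤ ε) (hρ : ρ00 * ρ11 = ρ01 * ρ10) :
    |u00 * u11 - u01 * u10| ≤ (|ρ00| + |ρ01| + |ρ10| + |ρ11| + 2) * ε := by
  have a11 : |u11| ≤ |ρ11| + 1 := by
    have := abs_sub_abs_le_abs_sub u11 ρ11
    rw [abs_sub_comm] at this
    linarith
  have a10 : |u10| ≤ |ρ10| + 1 := by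
    have := abs_sub_abs_le_abs_sub u10 ρ10
    rw [abs_sub_comm] at this
    linarith
  have e1 : u00 * u11 - u01 * u10 = -((ρ00 - u00) * u11) - ρ00 * (ρ11 - u11) +
      ((ρ01 - u01) * u10 + ρ01 * (ρ10 - u10)) := by
    linear_combination hρ
  rw [e1]
  have b1 : |(ρ00 - u00) * u11| ≤ ε * (|ρ11| + 1) := by
    rw [abs_mul]
    exact mul_le_mul h00 a11 (abs_nonneg _) hε0
  have b2 : |ρ00 * (ρ11 - u11)| ≤ |ρ00| * ε := by
    rw [abs_mul]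
    exact mul_le_mul_of_nonneg_left h11 (abs_nonneg _)
  have b3 : |(ρ01 - u01) * u10| ≤ ε * (|ρ10| + 1) := by
    rw [abs_mul]
    exact mul_le_mul h01 a10 (abs_nonneg _) hε0
  have b4 : |ρ01 * (ρ10 - u10)| ≤ |ρ01| * ε := by
    rw [abs_mul]
    exact mul_le_mul_of_nonneg_left h10 (abs_nonneg _)
  have c1 := abs_le.1 b1
  have c2 := abs_le.1 b2
  have c3 := abs_le.1 b3
  have c4 := abs_le.1 b4
  rw [abs_le]
  constructor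
  · nlinarith [c1.1, c1.2, c2.1, c2.2, c3.1, c3.2, c4.1, c4.2]
  · nlinarith [c1.1, c1.2, c2.1, c2.2, c3.1, c3.2, c4.1, c4.2]

theorem real1 {x y E1 E2 E3 A₀ A₁ νE ν₀ ν₁ a b : ℝ} (hx : 0 ≤ x) (hE1 : 0 ≤ E1) (hA₀ : 0 < A₀)
    (hA₁ : 0 < A₁) (hν₀ : 0 < ν₀) (hν₁ : 0 < ν₁) (hb : 0 < b)
    (h1 : x * y ≤ E1 * (A₀ * A₁ * νE * ν₀ * ν₁)) (h2 : E2 * (A₁ * ν₁ * b) ≤ y)
    (h3 : νE ≤ E3 * (a * b)) : x * E2 ≤ E1 * E3 * (A₀ * ν₀) * a := by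
  have hp : 0 < A₁ * ν₁ * b := by positivity
  have h4 : E1 * (A₀ * A₁ * νE * ν₀ * ν₁) ≤ E1 * (A₀ * A₁ * (E3 * (a * b)) * ν₀ * ν₁) := by
    gcongr
  have h5 : x * (E2 * (A₁ * ν₁ * b)) ≤ x * y := mul_le_mul_of_nonneg_left h2 hx
  have h6 : x * E2 * (A₁ * ν₁ * b) ≤ E1 * E3 * (A₀ * ν₀) * a * (A₁ * ν₁ * b) := by
    calc x * E2 * (A₁ * ν₁ * b) = x * (E2 * (A₁ * ν₁ * b)) := by ring
      _ ≤ E1 * (A₀ * A₁ * (E3 * (a * b)) * ν₀ * ν₁) := (h5.trans h1).trans h4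
      _ = _ := by ring
  exact le_of_mul_le_mul_right h6 hp

theorem real2 {vE v1 x F A₁ ν₁ νE a b a' E1 E2 E3 : ℝ} (hx : 0 ≤ x) (hν₁ : 0 < ν₁)
    (ha : 0 < a) (hb : 0 < b) (hE1 : 0 ≤ E1) (hE2 : 0 ≤ E2) (hE3 : 0 ≤ E3) (hvE : 0 ≤ vE)
    (h1 : vE * (v1 * x) ≤ F * (A₁ * ν₁ * b * (a * a'))) (h2 : νE ≤ E1 * vE) (h3 : ν₁ ≤ E2 * v1)
    (h4 : a * b ≤ E3 * νE) : x ≤ E1 * E2 * E3 * F * (A₁ * a') := by
  have hp : 0 < a * b * ν₁ := by positivity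
  have e1 : a * b * ν₁ * x ≤ (E3 * (E1 * vE)) * (E2 * v1) * x := by
    have h5 : a * b ≤ E3 * (E1 * vE) := h4.trans (mul_le_mul_of_nonneg_left h2 hE3)
    have h6 : a * b * ν₁ ≤ (E3 * (E1 * vE)) * (E2 * v1) :=
      mul_le_mul h5 h3 hν₁.le (by positivity)
    exact mul_le_mul_of_nonneg_right h6 hx
  have e2 : (E3 * (E1 * vE)) * (E2 * v1) * x ≤
      a * b * ν₁ * (E1 * E2 * E3 * F * (A₁ * a')) := by
    calc (E3 * (E1 * vE)) * (E2 * v1) * x = (E1 * E2 * E3) * (vE * (v1 * x)) := by ring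
      _ ≤ (E1 * E2 * E3) * (F * (A₁ * ν₁ * b * (a * a'))) :=
          mul_le_mul_of_nonneg_left h1 (by positivity)
      _ = _ := by ring
  exact le_of_mul_le_mul_left (e1.trans e2) hp

theorem real3 {m₀ m₁ R10 R11 A₁ ρ10 ρ11 ξ F G ε a' : ℝ} (hA₁ : 0 < A₁) (hρ : ρ10 = ξ * ρ11)
    (h1 : |m₀ * R11 - m₁ * R10| ≤ F * (A₁ * a')) (h2 : |m₀| ≤ G * a') (h3 : |m₁| ≤ G * a')
    (h4 : |ρ10 - R10 / A₁| ≤ ε) (h5 : |ρ11 - R11 / A₁| ≤ ε) :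
    |ρ11| * |m₀ - ξ * m₁| ≤ (F + 2 * (G * ε)) * a' := by
  have hGa : 0 ≤ G * a' := (abs_nonneg _).trans h2
  have hε : 0 ≤ ε := (abs_nonneg _).trans h4
  have e1 : ρ11 * (m₀ - ξ * m₁) = (m₀ * R11 - m₁ * R10) / A₁ + m₀ * (ρ11 - R11 / A₁) -
      m₁ * (ρ10 - R10 / A₁) := by
    rw [hρ]
    field_simp
    ring
  have e2 : |(m₀ * R11 - m₁ * R10) / A₁| ≤ F * a' := by
    rw [abs_div, abs_of_pos hA₁, div_le_iff₀ hA₁]
    calc |m₀ * R11 - m₁ * R10| ≤ F * (A₁ * a') := h1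
      _ = F * a' * A₁ := by ring
  have e3 : |m₀ * (ρ11 - R11 / A₁)| ≤ G * a' * ε := by
    rw [abs_mul]
    exact mul_le_mul h2 h5 (abs_nonneg _) hGa
  have e4 : |m₁ * (ρ10 - R10 / A₁)| ≤ G * a' * ε := by
    rw [abs_mul]
    exact mul_le_mul h3 h4 (abs_nonneg _) hGa
  rw [← abs_mul, e1]
  have c2 := abs_le.1 e2
  have c3 := abs_le.1 e3
  have c4 := abs_le.1 e4
  rw [abs_le]
  constructor
  · nlinarith [c2.1, c2.2, c3.1, c3.2, c4.1, c4.2]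
  · nlinarith [c2.1, c2.2, c3.1, c3.2, c4.1, c4.2]

/-! ## The steps -/

section core

variable {r₀ r₁ d₀ d₁ d : ℕ} {g₀ : Fin r₀ → ℕ → ℚ} {g₁ : Fin r₁ → ℕ → ℚ}

/-- upper bound for the monomials of the combination -/
theorem step3 (hMSM : Stmt_MSM) (hS2T : Stmt_S2T) (hMCF : Stmt_MCF) (hG₀ : Gd U S T g₀)
    (hG₁ : Gd U S T g₁) (hG : Gd U S T (Fin.append g₀ g₁)) {B κ₀ κ₁ D Λ : ℝ} (hB : 0 ≤ B)
    (hκ₀ : 0 ≤ κ₀) (hκ₁ : 0 ≤ κ₁) (hD : (d : ℝ) ≤ D) (hΛ : 0 ≤ Λ)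
    {Z₀ : Fin d₀ → ℕ → ℤ} {Z₁ : Fin d₁ → ℕ → ℤ} {W : Fin d → ℕ → ℤ}
    (hWB : ∀ᶠ n in (U : Filter ℕ), ∀ i, |(W i n : ℝ)| ≤ Real.exp (2 * B * T n))
    (hW : Indp U (Fin.append g₀ g₁) W)
    {X : Fin 2 → Fin d₀ → MvPolynomial (Fin r₀) ℚ} {P₀ : MvPolynomial (Fin r₀) ℚ} {ν₀ : ℕ → ℚ}
    {Y : Fin 2 → Fin d₁ → MvPolynomial (Fin r₁) ℚ} {P₁ : MvPolynomial (Fin r₁) ℚ} {ν₁ : ℕ → ℚ}
    {E₀ : MvPolynomial (Fin (r₀ + r₁)) ℚ}
    {E : Fin d₀ → Fin d₁ → Fin d → MvPolynomial (Fin (r₀ + r₁)) ℚ} {νE : ℕ → ℚ}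
    (hν₀ : ∀ n, IsU S (ν₀ n)) (hν₁ : ∀ n, IsU S (ν₁ n)) (hνE : ∀ n, IsU S (νE n))
    (hP₀ : Ht U S T g₀ κ₀ ν₀ P₀) (hP₁ : Ht U S T g₁ κ₀ ν₁ P₁)
    (hE₀ : Ht U S T (Fin.append g₀ g₁) κ₁ νE E₀)
    {R : Fin 2 → Fin 2 → ℕ → ℤ} {A : Fin 2 → ℕ → ℝ} {ρ : Fin 2 → Fin 2 → ℝ}
    (hRX : ∀ c, ∀ᶠ n in (U : Filter ℕ),
      ev g₀ n P₀ * (R 0 c n : ℚ) = ∑ j, ev g₀ n (X c j) * (Z₀ j n : ℚ))
    (hRY : ∀ c, ∀ᶠ n in (U : Filter ℕ),
      ev g₁ n P₁ * (R 1 c n : ℚ) = ∑ j, ev g₁ n (Y c j) * (Z₁ j n : ℚ))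
    (hE : ∀ j k, ∀ᶠ n in (U : Filter ℕ),
      ev (Fin.append g₀ g₁) n E₀ * ((Z₀ j n : ℚ) * (Z₁ k n : ℚ)) =
        ∑ w, ev (Fin.append g₀ g₁) n (E j k w) * (W w n : ℚ))
    (hA : ∀ r, ∀ᶠ n in (U : Filter ℕ), 0 < A r n)
    (hρ : ρ 0 0 * ρ 1 1 = ρ 0 1 * ρ 1 0)
    (hR : ∀ r c, ∀ᶠ n in (U : Filter ℕ), |ρ r c - R r c n / A r n| ≤ Real.exp (-(Λ * T n))) :
    ∀ w, ∀ e ∈ (Hp E Y X w).support, ∀ᶠ n in (U : Filter ℕ),
      av 0 (mon (Fin.append g₀ g₁) e n) ≤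
        Real.exp ((D * (2 * B) + 2 * κ₀ + κ₁ + 5 - Λ) * T n) *
          (A 0 n * A 1 n * νE n * ν₀ n * ν₁ n) := by
  intro w e he
  have h1 := hS2T U S T (r₀ + r₁) d (Fin.append g₀ g₁) W (2 * B) 1 (fun w => Hp E Y X w) hG
    (by positivity) one_pos hWB hW w e he
  have hT := hG.lim
  have hRX' := eventually_all.2 hRX
  have hRY' := eventually_all.2 hRY
  have hE' := eventually_all.2 fun j => eventually_all.2 (hE j)
  have hA' := eventually_all.2 hA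
  have hR' := eventually_all.2 fun r => eventually_all.2 (hR r)
  have u0 := ub hMSM hG₀ hκ₀ hν₀ hP₀
  have u1 := ub hMSM hG₁ hκ₀ hν₁ hP₁
  have u2 := ub hMSM hG hκ₁ hνE hE₀
  filter_upwards [h1, hRX', hRY', hE', hA', hR', u0, u1, u2, ev_pos hT,
    const_le hT (|ρ 0 0| + |ρ 0 1| + |ρ 1 0| + |ρ 1 1| + 2)] with
    n h1 hRX' hRY' hE' hA' hR' u0 u1 u2 hTn hK
  have hA0 := hA' 0
  have hA1 := hA' 1
  have p0 : (0 : ℝ) < (ν₀ n : ℚ) := by exact_mod_cast (hν₀ n).1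
  have p1 : (0 : ℝ) < (ν₁ n : ℚ) := by exact_mod_cast (hν₁ n).1
  have p2 : (0 : ℝ) < (νE n : ℚ) := by exact_mod_cast (hνE n).1
  have key : ∑ w, ev (Fin.append g₀ g₁) n (Hp E Y X w) * (W w n : ℚ) =
      ev (Fin.append g₀ g₁) n E₀ * (ev g₀ n P₀ * (ev g₁ n P₁ *
        ((R 0 0 n : ℚ) * R 1 1 n - R 0 1 n * R 1 0 n))) := by
    rw [ev_Hp hMCF E Y X g₀ g₁ n _ (fun j => (Z₀ j n : ℚ)) (fun k => (Z₁ k n : ℚ))
      (fun w => (W w n : ℚ)) hE', ← hRX' 0, ← hRX' 1, ← hRY' 0, ← hRY' 1]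
    ring
  have hdet : |(R 0 0 n : ℝ) * R 1 1 n - R 0 1 n * R 1 0 n| ≤
      Real.exp ((1 - Λ) * T n) * (A 0 n * A 1 n) := by
    have hε1 : Real.exp (-(Λ * T n)) ≤ 1 := by
      rw [Real.exp_le_one_iff]
      have := mul_nonneg hΛ hTn.le
      linarith
    have h2 := det_small (Real.exp_pos _).le hε1 (hR' 0 0) (hR' 0 1) (hR' 1 0) (hR' 1 1) hρ
    have h3 : (R 0 0 n : ℝ) / A 0 n * (R 1 1 n / A 1 n) - R 0 1 n / A 0 n * (R 1 0 n / A 1 n) =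
        ((R 0 0 n : ℝ) * R 1 1 n - R 0 1 n * R 1 0 n) / (A 0 n * A 1 n) := by
      field_simp
    rw [h3, abs_div, abs_of_pos (mul_pos hA0 hA1), div_le_iff₀ (mul_pos hA0 hA1)] at h2
    refine h2.trans ?_
    apply mul_le_mul_of_nonneg_right _ (mul_pos hA0 hA1).le
    calc (|ρ 0 0| + |ρ 0 1| + |ρ 1 0| + |ρ 1 1| + 2) * Real.exp (-(Λ * T n))
        ≤ Real.exp (1 * T n) * Real.exp (-(Λ * T n)) :=
          mul_le_mul_of_nonneg_right hK (Real.exp_pos _).le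
      _ = _ := by
          rw [← Real.exp_add]
          congr 1
          ring
  have hsum : |((∑ w, ev (Fin.append g₀ g₁) n (Hp E Y X w) * (W w n : ℚ) : ℚ) : ℝ)| ≤
      (Real.exp ((κ₁ + 1) * T n) * νE n) * ((Real.exp ((κ₀ + 1) * T n) * ν₀ n) *
        ((Real.exp ((κ₀ + 1) * T n) * ν₁ n) * (Real.exp ((1 - Λ) * T n) * (A 0 n * A 1 n)))) := by
    rw [key]
    push_cast
    rw [abs_mul, abs_mul, abs_mul]
    have q0 : (0 : ℝ) ≤ Real.exp ((κ₁ + 1) * T n) * νE n := by positivity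
    have q1 : (0 : ℝ) ≤ Real.exp ((κ₀ + 1) * T n) * ν₀ n := by positivity
    have q2 : (0 : ℝ) ≤ Real.exp ((κ₀ + 1) * T n) * ν₁ n := by positivity
    refine mul_le_mul u2 ?_ (by positivity) q0
    refine mul_le_mul u0 ?_ (by positivity) q1
    exact mul_le_mul u1 hdet (abs_nonneg _) q2
  refine h1.trans ?_
  calc Real.exp ((d * (2 * B) + 1) * T n) *
        |((∑ w, ev (Fin.append g₀ g₁) n (Hp E Y X w) * (W w n : ℚ) : ℚ) : ℝ)|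
      ≤ Real.exp ((D * (2 * B) + 1) * T n) *
        ((Real.exp ((κ₁ + 1) * T n) * νE n) * ((Real.exp ((κ₀ + 1) * T n) * ν₀ n) *
          ((Real.exp ((κ₀ + 1) * T n) * ν₁ n) *
            (Real.exp ((1 - Λ) * T n) * (A 0 n * A 1 n))))) := by
        apply mul_le_mul _ hsum (abs_nonneg _) (Real.exp_pos _).le
        apply Real.exp_le_exp.2
        apply mul_le_mul_of_nonneg_right _ hTn.le
        nlinarith
    _ = _ := by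
        have : Real.exp ((D * (2 * B) + 2 * κ₀ + κ₁ + 5 - Λ) * T n) =
            Real.exp ((D * (2 * B) + 1) * T n) * (Real.exp ((κ₁ + 1) * T n) *
              (Real.exp ((κ₀ + 1) * T n) * (Real.exp ((κ₀ + 1) * T n) *
                Real.exp ((1 - Λ) * T n)))) := by
          rw [ee, ee, ee, ee]
          congr 1
          ring
        rw [this]
        ring

/-- the equations for the high exponents have small right sides -/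
theorem step6 (hMCF : Stmt_MCF) (hT : Tendsto T (U : Filter ℕ) atTop) {κ₃ κ₄ Λ Λ₂ : ℝ}
    {E : Fin d₀ → Fin d₁ → Fin d → MvPolynomial (Fin (r₀ + r₁)) ℚ}
    {Y : Fin 2 → Fin d₁ → MvPolynomial (Fin r₁) ℚ}
    {X : Fin 2 → Fin d₀ → MvPolynomial (Fin r₀) ℚ} {β : Fin r₁ →₀ ℕ} {w : Fin d}
    {νE ν₀ ν₁ a b : ℕ → ℚ} {A : Fin 2 → ℕ → ℝ}
    (hg₀ : ∀ i n, 0 < g₀ i n)
    (hν₀ : ∀ n, 0 < ν₀ n) (hν₁ : ∀ n, 0 < ν₁ n) (ha : ∀ n, 0 < a n) (hb : ∀ n, 0 < b n)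
    (hA : ∀ r, ∀ᶠ n in (U : Filter ℕ), 0 < A r n)
    (h3 : ∀ e ∈ (Hp E Y X w).support, ∀ᶠ n in (U : Filter ℕ),
      av 0 (mon (Fin.append g₀ g₁) e n) ≤
        Real.exp ((κ₃ - Λ) * T n) * (A 0 n * A 1 n * νE n * ν₀ n * ν₁ n))
    (hhigh : ∀ᶠ n in (U : Filter ℕ),
      Real.exp (-Λ₂ * T n) * (A 1 n * ν₁ n * b n) ≤ ((mon g₁ β n : ℚ) : ℝ))
    (hν : ∀ᶠ n in (U : Filter ℕ), ((νE n : ℚ) : ℝ) ≤ Real.exp (κ₄ * T n) * (a n * b n)) :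
    ∀ᶠ n in (U : Filter ℕ), |((ev g₀ n (cf β (Hp E Y X w)) : ℚ) : ℝ)| ≤
      (Real.exp ((κ₃ + κ₄ + 1 + Λ₂ - Λ) * T n) * (A 0 n * ν₀ n)) * a n := by
  have hA' := eventually_all.2 hA
  have h := ev_le (g := g₀) hT (cf β (Hp E Y X w))
    (fun n => (Real.exp ((κ₃ + κ₄ + Λ₂ - Λ) * T n) * (A 0 n * ν₀ n)) * a n) ?_ ?_
  · refine h.mono fun n hn => hn.trans (le_of_eq ?_)
    have : Real.exp ((κ₃ + κ₄ + 1 + Λ₂ - Λ) * T n) =
        Real.exp (1 * T n) * Real.exp ((κ₃ + κ₄ + Λ₂ - Λ) * T n) := by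
      rw [ee]
      congr 1
      ring
    rw [this]
    ring
  · intro α hα
    obtain ⟨e, he, he1, he2⟩ := ((hMCF r₀ r₁).1 β _ α).1 hα
    filter_upwards [h3 e he, hhigh, hν, hA'] with n h3 h4 h5 h6
    have pm : (0 : ℝ) < ((mon g₀ α n : ℚ) : ℝ) := by
      have : 0 < mon g₀ α n := Finset.prod_pos fun i _ => pow_pos (hg₀ i n) _
      exact_mod_cast this
    have p0 : (0 : ℝ) < (ν₀ n : ℚ) := by exact_mod_cast hν₀ n
    have p1 : (0 : ℝ) < (ν₁ n : ℚ) := by exact_mod_cast hν₁ n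
    have p2 : (0 : ℝ) < (b n : ℚ) := by exact_mod_cast hb n
    have pa : (0 : ℝ) < (a n : ℚ) := by exact_mod_cast ha n
    have hmon : mon (Fin.append g₀ g₁) e n = mon g₀ α n * mon g₁ β n := by
      rw [(hMCF r₀ r₁).2.2.2.2.2.2.1 g₀ g₁ n e, he1, he2]
    have h7 : ((mon g₀ α n : ℚ) : ℝ) * ((mon g₁ β n : ℚ) : ℝ) ≤
        Real.exp ((κ₃ - Λ) * T n) * (A 0 n * A 1 n * νE n * ν₀ n * ν₁ n) := by
      refine le_trans ?_ h3
      rw [av_zero_eq, hmon]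
      push_cast
      exact le_abs_self _
    have h8 := real1 pm.le (Real.exp_pos _).le (h6 0) (h6 1) p0 p1 p2 h7 h4 h5
    rw [av_zero_eq, abs_of_pos pm]
    have h9 : Real.exp (-Λ₂ * T n) * Real.exp (Λ₂ * T n) = 1 := by
      rw [ee]
      simp
    calc ((mon g₀ α n : ℚ) : ℝ)
        = ((mon g₀ α n : ℚ) : ℝ) * Real.exp (-Λ₂ * T n) * Real.exp (Λ₂ * T n) := by
          rw [mul_assoc, h9, mul_one]
      _ ≤ (Real.exp ((κ₃ - Λ) * T n) * Real.exp (κ₄ * T n) * (A 0 n * ν₀ n) * a n) *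
          Real.exp (Λ₂ * T n) := mul_le_mul_of_nonneg_right h8 (Real.exp_pos _).le
      _ = _ := by
          have : Real.exp ((κ₃ + κ₄ + Λ₂ - Λ) * T n) = Real.exp ((κ₃ - Λ) * T n) *
              (Real.exp (κ₄ * T n) * Real.exp (Λ₂ * T n)) := by
            rw [ee, ee]
            congr 1
            ring
          rw [this]
          ring
  · filter_upwards [hA'] with n h6
    have p0 : (0 : ℝ) < (ν₀ n : ℚ) := by exact_mod_cast hν₀ n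
    have pa : (0 : ℝ) < (a n : ℚ) := by exact_mod_cast ha n
    have := h6 0
    positivity

/-- the value of a combination all of whose high coefficients vanish -/
theorem low_bd (hMSM : Stmt_MSM) (hMCF : Stmt_MCF) (hG₀ : Gd U S T g₀) {κ₂ κ₉ B Λ₂ : ℝ}
    (hκ₂ : 0 ≤ κ₂) (hκ₉ : 0 ≤ κ₉) {a a' b ν₁ : ℕ → ℚ} (ha : ∀ n, IsU S (a n))
    (ha' : ∀ n, IsU S (a' n)) (hb : ∀ n, 0 < b n) (hν₁ : ∀ n, 0 < ν₁ n) {A₁ : ℕ → ℝ}
    (hA₁ : ∀ᶠ n in (U : Filter ℕ), 0 < A₁ n) (hg₁ : ∀ i n, 0 < g₁ i n)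
    {E : Fin d₀ → Fin d₁ → Fin d → MvPolynomial (Fin (r₀ + r₁)) ℚ}
    {Y : Fin 2 → Fin d₁ → MvPolynomial (Fin r₁) ℚ}
    {N : Fin 2 → Fin d₀ → MvPolynomial (Fin r₀) ℚ}
    (hL : ∀ β w cj, Ht U S T g₀ κ₂ a (Lf E Y β w cj))
    (hN : ∀ c j, Ht U S T g₀ κ₉ a' (N c j))
    (hlow : ∀ β ∈ Bf E Y, (∀ w, ∑ cj : Fin 2 × Fin d₀, Lf E Y β w cj * N cj.1 cj.2 = 0) ∨
      ∀ᶠ n in (U : Filter ℕ), ((mon g₁ β n : ℚ) : ℝ) ≤
        Real.exp (-Λ₂ * T n) * (A₁ n * ν₁ n * b n))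
    {W : Fin d → ℕ → ℤ}
    (hWB : ∀ᶠ n in (U : Filter ℕ), ∀ i, |(W i n : ℝ)| ≤ Real.exp (2 * B * T n)) :
    ∀ᶠ n in (U : Filter ℕ),
      |((∑ w, ev (Fin.append g₀ g₁) n (Hp E Y N w) * (W w n : ℚ) : ℚ) : ℝ)| ≤
        Real.exp ((κ₂ + κ₉ + 3 + 2 * B - Λ₂) * T n) * (A₁ n * ν₁ n * b n * (a n * a' n)) := by
  have hT := hG₀.lim
  have h1 : ∀ᶠ n in (U : Filter ℕ), ∀ w, ∀ β ∈ Bf E Y,
      |((mon g₁ β n * ev g₀ n (cf β (Hp E Y N w)) : ℚ) : ℝ)| ≤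
        Real.exp ((κ₂ + κ₉ + 1 - Λ₂) * T n) * (A₁ n * ν₁ n * b n * (a n * a' n)) := by
    rw [eventually_all]
    intro w
    rw [eventually_all_finset]
    intro β hβ
    rcases hlow β hβ with h | h
    · filter_upwards [hA₁] with n hA
      rw [cf_Hp hMCF, h w]
      have p1 : (0 : ℝ) < (ν₁ n : ℚ) := by exact_mod_cast hν₁ n
      have p2 : (0 : ℝ) < (b n : ℚ) := by exact_mod_cast hb n
      have p3 : (0 : ℝ) < (a n : ℚ) := by exact_mod_cast (ha n).1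
      have p4 : (0 : ℝ) < (a' n : ℚ) := by exact_mod_cast (ha' n).1
      have : (mon g₁ β n * ev g₀ n 0 : ℚ) = 0 := by simp [ev]
      rw [this]
      simp only [Rat.cast_zero, abs_zero]
      positivity
    · have h2 : Ht U S T g₀ (κ₂ + κ₉) (fun n => a n * a' n) (cf β (Hp E Y N w)) := by
        rw [cf_Hp hMCF]
        exact MHT_.sum _ fun cj _ => MHT_.mul hG₀.prime (hL β w cj) (hN _ _)
      have h3 := ub hMSM hG₀ (add_nonneg hκ₂ hκ₉)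
        (fun n => (ha n).mul hG₀.prime (ha' n)) h2
      filter_upwards [h, h3, hA₁] with n h4 h5 hA
      have p1 : (0 : ℝ) < (ν₁ n : ℚ) := by exact_mod_cast hν₁ n
      have p2 : (0 : ℝ) < (b n : ℚ) := by exact_mod_cast hb n
      have p3 : (0 : ℝ) < (a n : ℚ) := by exact_mod_cast (ha n).1
      have p4 : (0 : ℝ) < (a' n : ℚ) := by exact_mod_cast (ha' n).1
      have pm : (0 : ℝ) < ((mon g₁ β n : ℚ) : ℝ) := by
        have : 0 < mon g₁ β n := Finset.prod_pos fun i _ => pow_pos (hg₁ i n) _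
        exact_mod_cast this
      push_cast
      rw [abs_mul, abs_of_pos pm]
      calc ((mon g₁ β n : ℚ) : ℝ) * |((ev g₀ n (cf β (Hp E Y N w)) : ℚ) : ℝ)|
          ≤ (Real.exp (-Λ₂ * T n) * (A₁ n * ν₁ n * b n)) *
            (Real.exp ((κ₂ + κ₉ + 1) * T n) * ((a n * a' n : ℚ) : ℝ)) :=
            mul_le_mul h4 h5 (abs_nonneg _) (by positivity)
        _ = _ := by
            have : Real.exp ((κ₂ + κ₉ + 1 - Λ₂) * T n) =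
                Real.exp (-Λ₂ * T n) * Real.exp ((κ₂ + κ₉ + 1) * T n) := by
              rw [ee]
              congr 1
              ring
            rw [this]
            push_cast
            ring
  filter_upwards [h1, hWB, hA₁, const_le hT (d : ℝ), const_le hT ((Bf E Y).card : ℝ)] with
    n h1 h2 hA h3 h4
  have p1 : (0 : ℝ) < (ν₁ n : ℚ) := by exact_mod_cast hν₁ n
  have p2 : (0 : ℝ) < (b n : ℚ) := by exact_mod_cast hb n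
  have p3 : (0 : ℝ) < (a n : ℚ) := by exact_mod_cast (ha n).1
  have p4 : (0 : ℝ) < (a' n : ℚ) := by exact_mod_cast (ha' n).1
  obtain ⟨q, hq⟩ : ∃ q : ℝ, q = A₁ n * ν₁ n * b n * (a n * a' n) := ⟨_, rfl⟩
  have hq0 : 0 < q := by
    rw [hq]
    positivity
  rw [← hq] at h1 ⊢
  push_cast
  refine (Finset.abs_sum_le_sum_abs _ _).trans ?_
  have h5 : ∀ w, |((ev (Fin.append g₀ g₁) n (Hp E Y N w) : ℚ) : ℝ) * (W w n : ℝ)| ≤
      (Real.exp (1 * T n) * (Real.exp ((κ₂ + κ₉ + 1 - Λ₂) * T n) * q)) *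
        Real.exp (2 * B * T n) := by
    intro w
    rw [abs_mul]
    apply mul_le_mul _ (h2 w) (abs_nonneg _) (by positivity)
    rw [ev_Hp_sum hMCF]
    push_cast
    refine (Finset.abs_sum_le_sum_abs _ _).trans ?_
    calc ∑ β ∈ Bf E Y, |((mon g₁ β n : ℚ) : ℝ) * ((ev g₀ n (cf β (Hp E Y N w)) : ℚ) : ℝ)|
        ≤ ∑ _β ∈ Bf E Y, (Real.exp ((κ₂ + κ₉ + 1 - Λ₂) * T n) * q) := by
          refine Finset.sum_le_sum fun β hβ => ?_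
          have := h1 w β hβ
          push_cast at this
          exact this
      _ = (Bf E Y).card * (Real.exp ((κ₂ + κ₉ + 1 - Λ₂) * T n) * q) := by
          rw [Finset.sum_const, nsmul_eq_mul]
      _ ≤ _ := mul_le_mul_of_nonneg_right h4 (by positivity)
  calc ∑ w, |((ev (Fin.append g₀ g₁) n (Hp E Y N w) : ℚ) : ℝ) * (W w n : ℝ)|
      ≤ ∑ _w : Fin d, ((Real.exp (1 * T n) * (Real.exp ((κ₂ + κ₉ + 1 - Λ₂) * T n) * q)) *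
        Real.exp (2 * B * T n)) := Finset.sum_le_sum fun w _ => h5 w
    _ = d * ((Real.exp (1 * T n) * (Real.exp ((κ₂ + κ₉ + 1 - Λ₂) * T n) * q)) *
        Real.exp (2 * B * T n)) := by
        rw [Finset.sum_const, Finset.card_univ, Fintype.card_fin, nsmul_eq_mul]
    _ ≤ Real.exp (1 * T n) * ((Real.exp (1 * T n) * (Real.exp ((κ₂ + κ₉ + 1 - Λ₂) * T n) * q)) *
        Real.exp (2 * B * T n)) := mul_le_mul_of_nonneg_right h3 (by positivity)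
    _ = _ := by
        have : Real.exp ((κ₂ + κ₉ + 3 + 2 * B - Λ₂) * T n) =
            Real.exp (1 * T n) * (Real.exp (1 * T n) * (Real.exp ((κ₂ + κ₉ + 1 - Λ₂) * T n) *
              Real.exp (2 * B * T n))) := by
          rw [ee, ee, ee]
          congr 1
          ring
        rw [this]
        ring

/-- the data of the core -/
structure Cd (U : Ultrafilter ℕ) (S : Finset ℕ) (T : ℕ → ℝ) (g₀ : Fin r₀ → ℕ → ℚ)
    (g₁ : Fin r₁ → ℕ → ℚ) (B κ₀ κ₁ κ₂ κ₄ Λ ξ : ℝ) (Z₀ : Fin d₀ → ℕ → ℤ) (Z₁ : Fin d₁ → ℕ → ℤ)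
    (W : Fin d → ℕ → ℤ) (X : Fin 2 → Fin d₀ → MvPolynomial (Fin r₀) ℚ)
    (P₀ : MvPolynomial (Fin r₀) ℚ) (ν₀ : ℕ → ℚ) (Y : Fin 2 → Fin d₁ → MvPolynomial (Fin r₁) ℚ)
    (P₁ : MvPolynomial (Fin r₁) ℚ) (ν₁ : ℕ → ℚ) (E₀ : MvPolynomial (Fin (r₀ + r₁)) ℚ)
    (E : Fin d₀ → Fin d₁ → Fin d → MvPolynomial (Fin (r₀ + r₁)) ℚ) (νE : ℕ → ℚ)
    (R : Fin 2 → Fin 2 → ℕ → ℤ) (A : Fin 2 → ℕ → ℝ) (ρ : Fin 2 → Fin 2 → ℝ) (a b : ℕ → ℚ) :
    Prop where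
  hG₀ : Gd U S T g₀
  hG₁ : Gd U S T g₁
  hG : Gd U S T (Fin.append g₀ g₁)
  hB : 0 ≤ B
  hκ₀ : 0 ≤ κ₀
  hκ₁ : 0 ≤ κ₁
  hκ₂ : 0 ≤ κ₂
  hκ₄ : 0 ≤ κ₄
  hZB : ∀ᶠ n in (U : Filter ℕ), ∀ i, |(Z₀ i n : ℝ)| ≤ Real.exp (B * T n)
  hZ : Indp U g₀ Z₀
  hWB : ∀ᶠ n in (U : Filter ℕ), ∀ i, |(W i n : ℝ)| ≤ Real.exp (2 * B * T n)
  hW : Indp U (Fin.append g₀ g₁) W
  hν₀ : ∀ n, IsU S (ν₀ n)
  hν₁ : ∀ n, IsU S (ν₁ n)
  hνE : ∀ n, IsU S (νE n)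
  hP₀ : Ht U S T g₀ κ₀ ν₀ P₀
  hP₁ : Ht U S T g₁ κ₀ ν₁ P₁
  hE₀ : Ht U S T (Fin.append g₀ g₁) κ₁ νE E₀
  hP₀n : P₀ ≠ 0
  hP₁n : P₁ ≠ 0
  hE₀n : E₀ ≠ 0
  hRX : ∀ c, ∀ᶠ n in (U : Filter ℕ),
    ev g₀ n P₀ * (R 0 c n : ℚ) = ∑ j, ev g₀ n (X c j) * (Z₀ j n : ℚ)
  hRY : ∀ c, ∀ᶠ n in (U : Filter ℕ),
    ev g₁ n P₁ * (R 1 c n : ℚ) = ∑ j, ev g₁ n (Y c j) * (Z₁ j n : ℚ)
  hE : ∀ j k, ∀ᶠ n in (U : Filter ℕ),
    ev (Fin.append g₀ g₁) n E₀ * ((Z₀ j n : ℚ) * (Z₁ k n : ℚ)) =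
      ∑ w, ev (Fin.append g₀ g₁) n (E j k w) * (W w n : ℚ)
  hA : ∀ r, ∀ᶠ n in (U : Filter ℕ), 0 < A r n
  hρ1 : ∀ r, ρ r 1 ≠ 0
  hρ0 : ∀ r, ρ r 0 = ξ * ρ r 1
  hR : ∀ r c, ∀ᶠ n in (U : Filter ℕ), |ρ r c - R r c n / A r n| ≤ Real.exp (-(Λ * T n))
  ha : ∀ n, IsU S (a n)
  hb : ∀ n, IsU S (b n)
  hEl : ∀ j k w, ∀ ε ∈ (E j k w).support, ∀ᶠ n in (U : Filter ℕ), ∀ v ∈ pl S,
      av v (mon g₀ (lft ε) n) ≤ Real.exp (κ₂ * T n) * av v (a n)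
  hν : ∀ᶠ n in (U : Filter ℕ), ((νE n : ℚ) : ℝ) ≤ Real.exp (κ₄ * T n) * (a n * b n)
  hab : ∀ᶠ n in (U : Filter ℕ), ((a n : ℚ) : ℝ) * b n ≤ Real.exp (κ₁ * T n) * (νE n : ℚ)

/-- the first case of the linear algebra is impossible -/
theorem caseI_false (hUNI : Stmt_UNI) (hMSM : Stmt_MSM) (hG₀ : Gd U S T g₀) {B κ₀ κ₇ Λ : ℝ}
    (hκ₀ : 0 ≤ κ₀) (hΛ : 1 ≤ Λ)
    {Z₀ : Fin d₀ → ℕ → ℤ}
    (hZB : ∀ᶠ n in (U : Filter ℕ), ∀ i, |(Z₀ i n : ℝ)| ≤ Real.exp (B * T n))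
    {x : Fin d₀ → MvPolynomial (Fin r₀) ℚ} {P₀ : MvPolynomial (Fin r₀) ℚ} {ν₀ : ℕ → ℚ}
    (hν₀ : ∀ n, IsU S (ν₀ n)) (hP₀ : Ht U S T g₀ κ₀ ν₀ P₀) (hP₀n : P₀ ≠ 0) {R : ℕ → ℤ}
    {A : ℕ → ℝ} {ρ : ℝ}
    (hRX : ∀ᶠ n in (U : Filter ℕ),
      ev g₀ n P₀ * (R n : ℚ) = ∑ j, ev g₀ n (x j) * (Z₀ j n : ℚ))
    (hA : ∀ᶠ n in (U : Filter ℕ), 0 < A n) (hρ : ρ ≠ 0)
    (hR : ∀ᶠ n in (U : Filter ℕ), |ρ - R n / A n| ≤ Real.exp (-(Λ * T n)))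
    (hx : ∀ j, ∀ᶠ n in (U : Filter ℕ), |((ev g₀ n (x j) : ℚ) : ℝ)| ≤
      Real.exp (κ₇ * T n) * (A n * ν₀ n))
    (hc : κ₀ * S.card + 1 + κ₇ + B + 2 ≤ 0) : False := by
  have hx' := eventually_all.2 hx
  obtain ⟨n, ⟨⟨⟨⟨h1, h2⟩, h3⟩, h4⟩, h5⟩, ⟨⟨h6, h7⟩, h8⟩, h9⟩ :=
    (((((hx'.and hZB).and hRX).and hA).and hR).and ((((lb hUNI hMSM hG₀ hκ₀ hν₀ hP₀ hP₀n).and
      (const_le hG₀.lim (d₀ : ℝ))).and (const_le hG₀.lim (3 / |ρ|))).and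
      (ev_pos hG₀.lim))).exists
  have p0 : (0 : ℝ) < (ν₀ n : ℚ) := by exact_mod_cast (hν₀ n).1
  have hρ0 : 0 < |ρ| := abs_pos.2 hρ
  have e1 : |((ev g₀ n P₀ : ℚ) : ℝ)| * |(R n : ℝ)| ≤
      Real.exp (1 * T n) * ((Real.exp (κ₇ * T n) * (A n * ν₀ n)) * Real.exp (B * T n)) := by
    rw [← abs_mul]
    have h : ((ev g₀ n P₀ : ℚ) : ℝ) * (R n : ℝ) =
        ∑ j, ((ev g₀ n (x j) : ℚ) : ℝ) * (Z₀ j n : ℝ) := by exact_mod_cast h3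
    rw [h]
    refine (Finset.abs_sum_le_sum_abs _ _).trans ?_
    calc ∑ j, |((ev g₀ n (x j) : ℚ) : ℝ) * (Z₀ j n : ℝ)|
        ≤ ∑ _j : Fin d₀, ((Real.exp (κ₇ * T n) * (A n * ν₀ n)) * Real.exp (B * T n)) := by
          refine Finset.sum_le_sum fun j _ => ?_
          rw [abs_mul]
          exact mul_le_mul (h1 j) (h2 j) (abs_nonneg _) (by positivity)
      _ = d₀ * ((Real.exp (κ₇ * T n) * (A n * ν₀ n)) * Real.exp (B * T n)) := by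
          rw [Finset.sum_const, Finset.card_univ, Fintype.card_fin, nsmul_eq_mul]
      _ ≤ _ := mul_le_mul_of_nonneg_right h7 (by positivity)
  have e2 : (A n * ν₀ n) * (|(R n : ℝ)| / A n) ≤
      (A n * ν₀ n) * Real.exp (((κ₀ * S.card + 1) + (1 + (κ₇ + B))) * T n) := by
    calc (A n * ν₀ n) * (|(R n : ℝ)| / A n) = ν₀ n * |(R n : ℝ)| := by
          field_simp
      _ ≤ (Real.exp ((κ₀ * S.card + 1) * T n) * |((ev g₀ n P₀ : ℚ) : ℝ)|) * |(R n : ℝ)| :=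
          mul_le_mul_of_nonneg_right h6 (abs_nonneg _)
      _ = Real.exp ((κ₀ * S.card + 1) * T n) * (|((ev g₀ n P₀ : ℚ) : ℝ)| * |(R n : ℝ)|) := by
          ring
      _ ≤ Real.exp ((κ₀ * S.card + 1) * T n) * (Real.exp (1 * T n) *
          ((Real.exp (κ₇ * T n) * (A n * ν₀ n)) * Real.exp (B * T n))) :=
          mul_le_mul_of_nonneg_left e1 (Real.exp_pos _).le
      _ = _ := by
          have : Real.exp (((κ₀ * S.card + 1) + (1 + (κ₇ + B))) * T n) =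
              Real.exp ((κ₀ * S.card + 1) * T n) * (Real.exp (1 * T n) *
                (Real.exp (κ₇ * T n) * Real.exp (B * T n))) := by
            rw [ee, ee, ee]
          rw [this]
          ring
  have e3 : |(R n : ℝ)| / A n ≤ Real.exp (-1 * T n) := by
    refine (le_of_mul_le_mul_left e2 (by positivity)).trans ?_
    apply Real.exp_le_exp.2
    apply mul_le_mul_of_nonneg_right _ h9.le
    linarith
  have e4 : Real.exp (-(Λ * T n)) ≤ Real.exp (-1 * T n) := by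
    apply Real.exp_le_exp.2
    nlinarith
  have e5 : |ρ| ≤ 2 * Real.exp (-1 * T n) := by
    have h10 : |ρ| ≤ |ρ - R n / A n| + |(R n : ℝ) / A n| := by
      have := abs_add_le (ρ - R n / A n) ((R n : ℝ) / A n)
      simpa using this
    have h11 : |(R n : ℝ) / A n| = |(R n : ℝ)| / A n := by
      rw [abs_div, abs_of_pos h4]
    rw [h11] at h10
    linarith
  have e6 : Real.exp (-1 * T n) * Real.exp (1 * T n) = 1 := by
    rw [ee]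
    simp
  have e7 : |ρ| * (3 / |ρ|) ≤ 2 := by
    calc |ρ| * (3 / |ρ|) ≤ (2 * Real.exp (-1 * T n)) * Real.exp (1 * T n) :=
          mul_le_mul e5 h8 (by positivity) (by positivity)
      _ = 2 := by rw [mul_assoc, e6, mul_one]
  have e8 : |ρ| * (3 / |ρ|) = 3 := by
    field_simp
  linarith

/-- the second case of the linear algebra is impossible -/
theorem caseII_false (hUNI : Stmt_UNI) (hMSM : Stmt_MSM) (hMCF : Stmt_MCF)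
    {B κ₀ κ₁ κ₂ κ₄ Λ ξ : ℝ} {Z₀ : Fin d₀ → ℕ → ℤ} {Z₁ : Fin d₁ → ℕ → ℤ}
    {W : Fin d → ℕ → ℤ} {X : Fin 2 → Fin d₀ → MvPolynomial (Fin r₀) ℚ}
    {P₀ : MvPolynomial (Fin r₀) ℚ} {ν₀ : ℕ → ℚ} {Y : Fin 2 → Fin d₁ → MvPolynomial (Fin r₁) ℚ}
    {P₁ : MvPolynomial (Fin r₁) ℚ} {ν₁ : ℕ → ℚ} {E₀ : MvPolynomial (Fin (r₀ + r₁)) ℚ}
    {E : Fin d₀ → Fin d₁ → Fin d → MvPolynomial (Fin (r₀ + r₁)) ℚ} {νE : ℕ → ℚ}
    {R : Fin 2 → Fin 2 → ℕ → ℤ} {A : Fin 2 → ℕ → ℝ} {ρ : Fin 2 → Fin 2 → ℝ} {a b : ℕ → ℚ}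
    (D : Cd U S T g₀ g₁ B κ₀ κ₁ κ₂ κ₄ Λ ξ Z₀ Z₁ W X P₀ ν₀ Y P₁ ν₁ E₀ E νE R A ρ a b)
    {μ : ℕ} (hξ : Meas ξ μ) {κ₉ Λ₂ : ℝ} (hκ₉ : 0 ≤ κ₉) (hΛΛ : Λ₂ ≤ Λ) {a' : ℕ → ℚ}
    (ha' : ∀ n, IsU S (a' n)) {N : Fin 2 → Fin d₀ → MvPolynomial (Fin r₀) ℚ}
    (hN : ∀ c j, Ht U S T g₀ κ₉ a' (N c j)) (hne : ∃ c, N c ≠ 0)
    (hlow : ∀ β ∈ Bf E Y, (∀ w, ∑ cj : Fin 2 × Fin d₀, Lf E Y β w cj * N cj.1 cj.2 = 0) ∨
      ∀ᶠ n in (U : Filter ℕ), ((mon g₁ β n : ℚ) : ℝ) ≤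
        Real.exp (-Λ₂ * T n) * (A 1 n * ν₁ n * b n))
    (hc : (κ₂ + κ₉ + 3 + 2 * B + (κ₁ * S.card + 1) + (κ₀ * S.card + 1) + κ₁) + κ₉ + B + 3 +
      (κ₉ * S.card + 1) + μ * (κ₉ * S.card + 1 + (κ₉ + B + 2)) < Λ₂) : False := by
  have hG₀ := D.hG₀
  have hT := hG₀.lim
  have hS := hG₀.prime
  have hB := D.hB
  have hκ₀ := D.hκ₀
  have hκ₁ := D.hκ₁
  have hκ₂ := D.hκ₂
  have hσ : (0 : ℝ) ≤ S.card := Nat.cast_nonneg _
  have hμ : (0 : ℝ) ≤ μ * (κ₉ * S.card + 1 + (κ₉ + B + 2)) := by positivity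
  have hLf := ht_Lf hMCF E Y g₀ D.hEl
  have hbd := low_bd hMSM hMCF hG₀ hκ₂ hκ₉ D.ha ha' (fun n => (D.hb n).1)
    (fun n => (D.hν₁ n).1) (D.hA 1) (fun i n => (D.hG₁.unit i n).1) hLf hN hlow D.hWB
  have hRY' := eventually_all.2 D.hRY
  have hE' := eventually_all.2 fun j => eventually_all.2 (D.hE j)
  have hR' := eventually_all.2 (D.hR 1)
  have l1 := lb hUNI hMSM D.hG₁ hκ₀ D.hν₁ D.hP₁ D.hP₁n
  have l2 := lb hUNI hMSM D.hG hκ₁ D.hνE D.hE₀ D.hE₀n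
  have hN' : ∀ᶠ n in (U : Filter ℕ), ∀ c j, |((ev g₀ n (N c j) : ℚ) : ℝ)| ≤
      Real.exp ((κ₉ + 1) * T n) * a' n :=
    eventually_all.2 fun c => eventually_all.2 fun j => ub hMSM hG₀ hκ₉ ha' (hN c j)
  refine case2 hMSM hG₀ hκ₉ ha' D.hZ D.hZB N hN hne hξ
    (κ' := (κ₂ + κ₉ + 3 + 2 * B + (κ₁ * S.card + 1) + (κ₀ * S.card + 1) + κ₁) + κ₉ + B + 3 - Λ₂)
    (by linarith) (by linarith) ?_
  filter_upwards [hbd, hRY', hE', hR', l1, l2, hN', D.hA 1, D.hZB, D.hab, ev_pos hT,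
    const_le hT (d₀ : ℝ), const_le hT (3 / |ρ 1 1|)] with
    n hbd hRY' hE' hR' l1 l2 hN' hA hZB hab hTn hd hρ
  have p0 : (0 : ℝ) < (ν₁ n : ℚ) := by exact_mod_cast (D.hν₁ n).1
  have p1 : (0 : ℝ) < (νE n : ℚ) := by exact_mod_cast (D.hνE n).1
  have pa : (0 : ℝ) < (a n : ℚ) := by exact_mod_cast (D.ha n).1
  have pb : (0 : ℝ) < (b n : ℚ) := by exact_mod_cast (D.hb n).1
  have pa' : (0 : ℝ) < (a' n : ℚ) := by exact_mod_cast (ha' n).1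
  obtain ⟨m₀, hm₀⟩ : ∃ m : ℚ, m = ∑ j, ev g₀ n (N 0 j) * (Z₀ j n : ℚ) := ⟨_, rfl⟩
  obtain ⟨m₁, hm₁⟩ : ∃ m : ℚ, m = ∑ j, ev g₀ n (N 1 j) * (Z₀ j n : ℚ) := ⟨_, rfl⟩
  have key : ∑ w, ev (Fin.append g₀ g₁) n (Hp E Y N w) * (W w n : ℚ) =
      ev (Fin.append g₀ g₁) n E₀ * (ev g₁ n P₁ *
        (m₀ * (R 1 1 n : ℚ) - m₁ * (R 1 0 n : ℚ))) := by
    rw [ev_Hp hMCF E Y N g₀ g₁ n _ (fun j => (Z₀ j n : ℚ)) (fun k => (Z₁ k n : ℚ))
      (fun w => (W w n : ℚ)) hE', ← hRY' 0, ← hRY' 1, ← hm₀, ← hm₁]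
    ring
  rw [key] at hbd
  have h1 : |((ev (Fin.append g₀ g₁) n E₀ : ℚ) : ℝ)| * (|((ev g₁ n P₁ : ℚ) : ℝ)| *
      |(m₀ : ℝ) * (R 1 1 n : ℝ) - m₁ * (R 1 0 n : ℝ)|) ≤
      Real.exp ((κ₂ + κ₉ + 3 + 2 * B - Λ₂) * T n) * (A 1 n * ν₁ n * b n * (a n * a' n)) := by
    rw [← abs_mul, ← abs_mul]
    push_cast at hbd
    exact hbd
  have h2 := real2 (abs_nonneg _) p0 pa pb (Real.exp_pos _).le (Real.exp_pos _).le
    (Real.exp_pos _).le (abs_nonneg _) h1 l2 l1 hab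
  have hm : ∀ c, |((∑ j, ev g₀ n (N c j) * (Z₀ j n : ℚ) : ℚ) : ℝ)| ≤
      Real.exp ((κ₉ + B + 2) * T n) * a' n := by
    intro c
    push_cast
    refine (Finset.abs_sum_le_sum_abs _ _).trans ?_
    calc ∑ j, |((ev g₀ n (N c j) : ℚ) : ℝ) * (Z₀ j n : ℝ)|
        ≤ ∑ _j : Fin d₀, (Real.exp ((κ₉ + 1) * T n) * a' n * Real.exp (B * T n)) := by
          refine Finset.sum_le_sum fun j _ => ?_
          rw [abs_mul]
          exact mul_le_mul (hN' c j) (hZB j) (abs_nonneg _) (by positivity)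
      _ = d₀ * (Real.exp ((κ₉ + 1) * T n) * a' n * Real.exp (B * T n)) := by
          rw [Finset.sum_const, Finset.card_univ, Fintype.card_fin, nsmul_eq_mul]
      _ ≤ Real.exp (1 * T n) * (Real.exp ((κ₉ + 1) * T n) * a' n * Real.exp (B * T n)) :=
          mul_le_mul_of_nonneg_right hd (by positivity)
      _ = _ := by
          have : Real.exp ((κ₉ + B + 2) * T n) = Real.exp (1 * T n) *
              (Real.exp ((κ₉ + 1) * T n) * Real.exp (B * T n)) := by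
            rw [ee, ee]
            congr 1
            ring
          rw [this]
          ring
  have hm0 := hm 0
  have hm1 := hm 1
  rw [← hm₀] at hm0 ⊢
  rw [← hm₁] at hm1 ⊢
  have h3 := real3 hA (D.hρ0 1) h2 hm0 hm1 (hR' 0) (hR' 1)
  obtain ⟨κ, hκ⟩ : ∃ κ : ℝ, κ = (κ₂ + κ₉ + 3 + 2 * B + (κ₁ * S.card + 1) +
    (κ₀ * S.card + 1) + κ₁) := ⟨_, rfl⟩
  have hκ0 : 0 ≤ κ := by
    rw [hκ]
    positivity
  rw [← hκ]
  have e1 : Real.exp ((κ₁ * S.card + 1) * T n) * Real.exp ((κ₀ * S.card + 1) * T n) *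
      Real.exp (κ₁ * T n) * Real.exp ((κ₂ + κ₉ + 3 + 2 * B - Λ₂) * T n) =
      Real.exp ((κ - Λ₂) * T n) := by
    rw [ee, ee, ee, hκ]
    congr 1
    ring
  rw [e1] at h3
  have e2 : Real.exp ((κ - Λ₂) * T n) ≤ Real.exp ((κ + κ₉ + B + 2 - Λ₂) * T n) := by
    apply Real.exp_le_exp.2
    apply mul_le_mul_of_nonneg_right _ hTn.le
    linarith
  have e3 : Real.exp ((κ₉ + B + 2) * T n) * Real.exp (-(Λ * T n)) ≤
      Real.exp ((κ + κ₉ + B + 2 - Λ₂) * T n) := by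
    have : -(Λ * T n) = (-Λ) * T n := by ring
    rw [this, ee]
    apply Real.exp_le_exp.2
    apply mul_le_mul_of_nonneg_right _ hTn.le
    linarith
  have e4 : |ρ 1 1| * |(m₀ : ℝ) - ξ * m₁| ≤
      3 * (Real.exp ((κ + κ₉ + B + 2 - Λ₂) * T n) * a' n) := by
    refine h3.trans ?_
    rw [← mul_assoc 3]
    apply mul_le_mul_of_nonneg_right _ pa'.le
    linarith
  have hρ0 : 0 < |ρ 1 1| := abs_pos.2 (D.hρ1 1)
  have e5 : |ρ 1 1| * |(m₀ : ℝ) - ξ * m₁| ≤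
      |ρ 1 1| * (Real.exp ((κ + κ₉ + B + 3 - Λ₂) * T n) * a' n) := by
    calc |ρ 1 1| * |(m₀ : ℝ) - ξ * m₁|
        ≤ 3 * (Real.exp ((κ + κ₉ + B + 2 - Λ₂) * T n) * a' n) := e4
      _ = |ρ 1 1| * (3 / |ρ 1 1|) * (Real.exp ((κ + κ₉ + B + 2 - Λ₂) * T n) * a' n) := by
          field_simp
      _ ≤ |ρ 1 1| * Real.exp (1 * T n) * (Real.exp ((κ + κ₉ + B + 2 - Λ₂) * T n) * a' n) := by
          gcongr
      _ = _ := by
          have : Real.exp ((κ + κ₉ + B + 3 - Λ₂) * T n) = Real.exp (1 * T n) *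
              Real.exp ((κ + κ₉ + B + 2 - Λ₂) * T n) := by
            rw [ee]
            congr 1
            ring
          rw [this]
          ring
  exact le_of_mul_le_mul_left e5 hρ0

/-- the core -/
theorem core_false (hUNI : Stmt_UNI) (hS2T : Stmt_S2T) (hMSM : Stmt_MSM) (hMLA : Stmt_MLA)
    (hMCF : Stmt_MCF)
    {B κ₀ κ₁ κ₂ κ₄ Λ ξ : ℝ} {Z₀ : Fin d₀ → ℕ → ℤ} {Z₁ : Fin d₁ → ℕ → ℤ}
    {W : Fin d → ℕ → ℤ} {X : Fin 2 → Fin d₀ → MvPolynomial (Fin r₀) ℚ}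
    {P₀ : MvPolynomial (Fin r₀) ℚ} {ν₀ : ℕ → ℚ} {Y : Fin 2 → Fin d₁ → MvPolynomial (Fin r₁) ℚ}
    {P₁ : MvPolynomial (Fin r₁) ℚ} {ν₁ : ℕ → ℚ} {E₀ : MvPolynomial (Fin (r₀ + r₁)) ℚ}
    {E : Fin d₀ → Fin d₁ → Fin d → MvPolynomial (Fin (r₀ + r₁)) ℚ} {νE : ℕ → ℚ}
    {R : Fin 2 → Fin 2 → ℕ → ℤ} {A : Fin 2 → ℕ → ℝ} {ρ : Fin 2 → Fin 2 → ℝ} {a b : ℕ → ℚ}
    (Dt : Cd U S T g₀ g₁ B κ₀ κ₁ κ₂ κ₄ Λ ξ Z₀ Z₁ W X P₀ ν₀ Y P₁ ν₁ E₀ E νE R A ρ a b)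
    {μ : ℕ} (hξ : Meas ξ μ) {κ₉ Λ₂ D : ℝ} (hd : (d : ℝ) ≤ D) (hκ₉ : 2 * d₀ * κ₂ ≤ κ₉)
    (hΛ₂ : (κ₂ + κ₉ + 3 + 2 * B + (κ₁ * S.card + 1) + (κ₀ * S.card + 1) + κ₁) + κ₉ + B + 3 +
      (κ₉ * S.card + 1) + μ * (κ₉ * S.card + 1 + (κ₉ + B + 2)) < Λ₂)
    (hΛ : κ₀ * S.card + 1 + ((κ₉ + 2 + (κ₉ * S.card + 1)) +
      ((D * (2 * B) + 2 * κ₀ + κ₁ + 5) + κ₄ + 1 + Λ₂)) + B + 2 ≤ Λ) : False := by
  classical
  have hG₀ := Dt.hG₀
  have hT := hG₀.lim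
  have hS := hG₀.prime
  have hB := Dt.hB
  have hκ₀ := Dt.hκ₀
  have hκ₁ := Dt.hκ₁
  have hκ₂ := Dt.hκ₂
  have hκ₄ := Dt.hκ₄
  have hσ : (0 : ℝ) ≤ S.card := Nat.cast_nonneg _
  have hd₀ : (0 : ℝ) ≤ d₀ := Nat.cast_nonneg _
  have hκ₉0 : 0 ≤ κ₉ := le_trans (by positivity) hκ₉
  have hμ : (0 : ℝ) ≤ μ * (κ₉ * S.card + 1 + (κ₉ + B + 2)) := by positivity
  have hD : 0 ≤ D := le_trans (Nat.cast_nonneg _) hd
  have hDB : 0 ≤ D * (2 * B) := by positivity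
  have q1 : 0 ≤ κ₁ * S.card := by positivity
  have q2 : 0 ≤ κ₀ * S.card := by positivity
  have q3 : 0 ≤ κ₉ * S.card := by positivity
  have hΛ₂0 : 0 ≤ Λ₂ := by linarith
  have hΛ1 : 1 ≤ Λ := by linarith
  have hρ : ρ 0 0 * ρ 1 1 = ρ 0 1 * ρ 1 0 := by
    rw [Dt.hρ0 0, Dt.hρ0 1]
    ring
  have hLf := ht_Lf hMCF E Y g₀ Dt.hEl
  obtain ⟨hi, hhi⟩ : ∃ hi : (Fin r₁ →₀ ℕ) → Prop, hi = fun β => ∀ᶠ n in (U : Filter ℕ),
      Real.exp (-Λ₂ * T n) * (A 1 n * ν₁ n * b n) ≤ ((mon g₁ β n : ℚ) : ℝ) := ⟨_, rfl⟩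
  have hhi' : ∀ β, hi β → ∀ᶠ n in (U : Filter ℕ),
      Real.exp (-Λ₂ * T n) * (A 1 n * ν₁ n * b n) ≤ ((mon g₁ β n : ℚ) : ℝ) := by
    intro β h
    rw [hhi] at h
    exact h
  obtain ⟨L, hL⟩ : ∃ L : Matrix ({β // β ∈ (Bf E Y).filter hi} × Fin d) (Fin (2 * d₀))
      (MvPolynomial (Fin r₀) ℚ),
      L = fun i j => Lf E Y i.1.1 i.2 (finProdFinEquiv.symm j) := ⟨_, rfl⟩
  have hLi : ∀ i (N : Fin 2 → Fin d₀ → MvPolynomial (Fin r₀) ℚ),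
      ∑ j, L i j * N (finProdFinEquiv.symm j).1 (finProdFinEquiv.symm j).2 =
        cf i.1.1 (Hp E Y N i.2) := by
    intro i N
    rw [cf_Hp hMCF, hL]
    exact Equiv.sum_comp finProdFinEquiv.symm
      (fun cj : Fin 2 × Fin d₀ => Lf E Y i.1.1 i.2 cj * N cj.1 cj.2)
  rcases hMLA (MvPolynomial (Fin r₀) ℚ) ({β // β ∈ (Bf E Y).filter hi} × Fin d) (2 * d₀) L with
    ⟨t, ht⟩ | ⟨ρ', M, hρ', hM0, hLM, hMm⟩
  · have h3 := step3 hMSM hS2T hMCF hG₀ Dt.hG₁ Dt.hG hB hκ₀ hκ₁ hd (zero_le_one.trans hΛ1)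
      Dt.hWB Dt.hW Dt.hν₀ Dt.hν₁ Dt.hνE Dt.hP₀ Dt.hP₁ Dt.hE₀ Dt.hRX Dt.hRY Dt.hE Dt.hA hρ Dt.hR
    have h1 := case1 hUNI hMSM hG₀ hκ₂ Dt.ha (L.submatrix t id)
      (fun i j => by
        rw [hL]
        exact hLf _ _ _) ht
      (fun j => X (finProdFinEquiv.symm j).1 (finProdFinEquiv.symm j).2)
      (fun n => Real.exp (((D * (2 * B) + 2 * κ₀ + κ₁ + 5) + κ₄ + 1 + Λ₂ - Λ) * T n) *
        (A 0 n * ν₀ n))
      ((Dt.hA 0).mono fun n hn => by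
        have p0 : (0 : ℝ) < (ν₀ n : ℚ) := by exact_mod_cast (Dt.hν₀ n).1
        positivity)
      (fun l => by
        have e : (L.submatrix t id).mulVec
            (fun j => X (finProdFinEquiv.symm j).1 (finProdFinEquiv.symm j).2) l =
            cf (t l).1.1 (Hp E Y X (t l).2) := hLi (t l) X
        rw [e]
        have hhigh := hhi' _ (Finset.mem_filter.1 (t l).1.2).2
        exact step6 hMCF hT (fun i n => (hG₀.unit i n).1) (fun n => (Dt.hν₀ n).1)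
          (fun n => (Dt.hν₁ n).1) (fun n => (Dt.ha n).1) (fun n => (Dt.hb n).1) Dt.hA
          (h3 (t l).2) hhigh Dt.hν)
    refine caseI_false (κ₇ := (κ₉ + 2 + (κ₉ * S.card + 1)) +
      ((D * (2 * B) + 2 * κ₀ + κ₁ + 5) + κ₄ + 1 + Λ₂ - Λ)) hUNI hMSM hG₀ hκ₀ hΛ1 Dt.hZB
      (x := X 1) Dt.hν₀ Dt.hP₀ Dt.hP₀n (Dt.hRX 1) (Dt.hA 0) (Dt.hρ1 0) (Dt.hR 0 1) ?_
      (by linarith)
    intro j
    have h2 := h1 (finProdFinEquiv (1, j))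
    simp only [Equiv.symm_apply_apply] at h2
    filter_upwards [h2, Dt.hA 0, ev_pos hT] with n hn hA hTn
    have p0 : (0 : ℝ) < (ν₀ n : ℚ) := by exact_mod_cast (Dt.hν₀ n).1
    refine hn.trans ?_
    rw [← mul_assoc, ee]
    apply mul_le_mul_of_nonneg_right _ (by positivity)
    apply Real.exp_le_exp.2
    apply mul_le_mul_of_nonneg_right _ hTn.le
    have e1 : ((2 * d₀ : ℕ) : ℝ) * κ₂ ≤ κ₉ := by
      push_cast
      exact hκ₉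
    have e2 : ((2 * d₀ : ℕ) : ℝ) * κ₂ * S.card ≤ κ₉ * S.card :=
      mul_le_mul_of_nonneg_right e1 hσ
    linarith
  · refine caseII_false hUNI hMSM hMCF Dt hξ hκ₉0 (by linarith)
      (pow_isU hS Dt.ha ρ') (N := fun c j => M (finProdFinEquiv (c, j))) ?_ ?_ ?_ hΛ₂
    · intro c j
      rcases hMm (finProdFinEquiv (c, j)) with h | ⟨t, cc, h⟩
      · rw [h]
        exact MHT_.zero _ _
      · have h1 : Ht U S T g₀ (ρ' * κ₂) (fun n => a n ^ ρ') (L.submatrix t cc).det :=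
          MHT_.det hS fun i j => by
            rw [hL]
            exact hLf _ _ _
        have h2 : Ht U S T g₀ κ₉ (fun n => a n ^ ρ') (L.submatrix t cc).det := by
          refine MHT_.mono (ev_pos hT) ?_ h1
          have : (ρ' : ℝ) ≤ 2 * d₀ := by exact_mod_cast hρ'.le
          exact (mul_le_mul_of_nonneg_right this hκ₂).trans hκ₉
        rcases h with h | h
        · rw [h]
          exact h2
        · rw [h]
          exact MHT_.neg h2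
    · by_contra hcon
      push Not at hcon
      apply hM0
      funext j
      have h1 := congrFun (hcon (finProdFinEquiv.symm j).1) (finProdFinEquiv.symm j).2
      simp only [Prod.mk.eta, Equiv.apply_symm_apply] at h1
      exact h1
    · intro β hβ
      rcases ult_em U (fun n => Real.exp (-Λ₂ * T n) * (A 1 n * ν₁ n * b n) ≤
        ((mon g₁ β n : ℚ) : ℝ)) with h | h
      · left
        intro w
        have hmem : β ∈ (Bf E Y).filter hi := by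
          rw [Finset.mem_filter, hhi]
          exact ⟨hβ, h⟩
        have h1 := congrFun hLM (⟨β, hmem⟩, w)
        have h2 := hLi (⟨β, hmem⟩, w) (fun c j => M (finProdFinEquiv (c, j)))
        rw [cf_Hp hMCF] at h2
        rw [← h2]
        simp only [Prod.mk.eta, Equiv.apply_symm_apply]
        exact h1
      · right
        exact h.mono fun n hn => (not_le.1 hn).le

/-! ## The data from the hypotheses -/

theorem Lc_fin {Γ : Set (ℕ → ℚ)} {f : ℕ → ℚ} (h : Lc U Γ f) :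
    ∃ V : Set (ℕ → ℚ), V.Finite ∧ V ⊆ Γ ∧ ∀ Γ' : Set (ℕ → ℚ), V ⊆ Γ' → Lc U Γ' f := by
  obtain ⟨N, c, u, hu, hf⟩ := h
  refine ⟨Set.range u, Set.finite_range u, ?_, fun Γ' hΓ' => ⟨N, c, u, fun t => ?_, hf⟩⟩
  · rintro _ ⟨t, rfl⟩
    exact hu t
  · exact hΓ' ⟨t, rfl⟩

/-- two finite sets of sequences as families with the same index set -/
theorem pack {V₀ V₁ Γ₀ Γ₁ : Set (ℕ → ℚ)} (h₀ : V₀.Finite) (h₁ : V₁.Finite) (k₀ : V₀ ⊆ Γ₀)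
    (k₁ : V₁ ⊆ Γ₁) (o₀ : (fun _ => 1) ∈ Γ₀) (o₁ : (fun _ => 1) ∈ Γ₁) :
    ∃ (K : ℕ) (u₀ u₁ : Fin K → ℕ → ℚ), (∀ k, u₀ k ∈ Γ₀) ∧ (∀ k, u₁ k ∈ Γ₁) ∧
      V₀ ⊆ Set.range u₀ ∧ V₁ ⊆ Set.range u₁ := by
  classical
  have key : ∀ (V Γ : Set (ℕ → ℚ)) (_ : V.Finite) (_ : V ⊆ Γ) (_ : (fun _ => 1) ∈ Γ),
      ∃ K₀ : ℕ, ∀ K, K₀ ≤ K → ∃ u : Fin K → ℕ → ℚ, (∀ k, u k ∈ Γ) ∧ V ⊆ Set.range u := by
    intro V Γ hV hVΓ h1
    obtain ⟨n, f, hf⟩ : ∃ (n : ℕ) (f : Fin n → ℕ → ℚ), Set.range f = V := by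
      have := hV.fin_param
      obtain ⟨n, f, _, hf⟩ := this
      exact ⟨n, f, hf⟩
    refine ⟨n, fun K hK => ⟨fun k => if h : (k : ℕ) < n then f ⟨k, h⟩ else fun _ => 1, ?_, ?_⟩⟩
    · intro k
      by_cases h : (k : ℕ) < n
      · simp only [h, dif_pos]
        exact hVΓ (hf ▸ ⟨_, rfl⟩)
      · simp only [h, dif_neg, not_false_iff]
        exact h1
    · rw [← hf]
      rintro _ ⟨i, rfl⟩
      refine ⟨⟨i, i.2.trans_le hK⟩, ?_⟩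
      simp
  obtain ⟨K₀, hK₀⟩ := key V₀ Γ₀ h₀ k₀ o₀
  obtain ⟨K₁, hK₁⟩ := key V₁ Γ₁ h₁ k₁ o₁
  obtain ⟨u₀, a₀, b₀⟩ := hK₀ (max K₀ K₁) (le_max_left _ _)
  obtain ⟨u₁, a₁, b₁⟩ := hK₁ (max K₀ K₁) (le_max_right _ _)
  exact ⟨max K₀ K₁, u₀, u₁, a₀, a₁, b₀, b₁⟩

theorem inter_one {W₀ W₁ : Set ℚ} (hS : PS S) (hU : ∀ x ∈ W₀, IsU S x) (hSep : Sep S W₀ W₁) :
    W₀ ∩ W₁ ⊆ {1} := by
  rintro x ⟨h0, h1⟩
  obtain ⟨C, hC, h⟩ := hSep
  have h2 := h x h0 x h1 0 le_rfl (fun p _ => by simp)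
  have h3 : ∀ p ∈ S, av p x = 1 := by
    intro p hp
    have := h2 p hp
    simp only [mul_zero, Real.exp_zero, one_mul] at this
    exact le_antisymm this.1 this.2
  have h4 := (hU x h0).2
  rw [prod_pl hS, Finset.prod_congr rfl h3, Finset.prod_const_one, mul_one, av_zero_eq] at h4
  have h5 : (0 : ℝ) < x := by exact_mod_cast (hU x h0).1
  rw [abs_of_pos h5] at h4
  have : x = 1 := by exact_mod_cast h4
  exact this

/-- comparison at the infinite place from upper bounds at all places -/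
theorem compare (hS : PS S) {x y : ℚ} {κ t : ℝ} (hx : IsU S x) (hy : IsU S y)
    (h : ∀ v ∈ pl S, av v x ≤ Real.exp (κ * t) * av v y) :
    ((y : ℚ) : ℝ) ≤ Real.exp ((S.card * κ) * t) * x := by
  have hx0 : (0 : ℝ) < x := by exact_mod_cast hx.1
  have hy0 : (0 : ℝ) < y := by exact_mod_cast hy.1
  have e1 := hx.2
  have e2 := hy.2
  rw [prod_pl hS, av_zero_eq, abs_of_pos hx0] at e1
  rw [prod_pl hS, av_zero_eq, abs_of_pos hy0] at e2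
  have e3 : ∏ p ∈ S, av p x ≤ Real.exp ((S.card * κ) * t) * ∏ p ∈ S, av p y := by
    calc ∏ p ∈ S, av p x ≤ ∏ p ∈ S, (Real.exp (κ * t) * av p y) :=
          Finset.prod_le_prod (fun p _ => av_nonneg _ _) fun p hp => h p (mem_pl_of_mem hp)
      _ = _ := by
          rw [Finset.prod_mul_distrib, Finset.prod_const, ← Real.exp_nat_mul]
          congr 2
          ring
  calc (y : ℝ) = y * (x * ∏ p ∈ S, av p x) := by rw [e1, mul_one]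
    _ ≤ y * (x * (Real.exp ((S.card * κ) * t) * ∏ p ∈ S, av p y)) := by gcongr
    _ = Real.exp ((S.card * κ) * t) * x * (y * ∏ p ∈ S, av p y) := by ring
    _ = _ := by rw [e2, mul_one]

theorem mon_isU {r : ℕ} {g : Fin r → ℕ → ℚ} (hS : PS S) (hg : ∀ i n, IsU S (g i n))
    (e : Fin r →₀ ℕ) (n : ℕ) : IsU S (mon g e n) :=
  isU_prod hS _ _ fun i _ => (hg i n).pow hS _

/-- the constants -/
noncomputable def k0 (s B : ℝ) : ℝ := 2 * (B + 1 + s * (s * B + 1))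

noncomputable def k1 (s B : ℝ) : ℝ := (s * s) * ((s * s) * ((s * s) * (2 * B) + 1))

noncomputable def k9 (C s B : ℝ) : ℝ := 2 * s * (C * k1 s B)

noncomputable def L2 (σ C μ s B : ℝ) : ℝ :=
  (C * k1 s B + k9 C s B + 3 + 2 * B + (k1 s B * σ + 1) + (k0 s B * σ + 1) + k1 s B) + k9 C s B +
    B + 3 + (k9 C s B * σ + 1) + μ * (k9 C s B * σ + 1 + (k9 C s B + B + 2)) + 1

noncomputable def Lam (σ C μ s B : ℝ) : ℝ :=
  k0 s B * σ + 1 + ((k9 C s B + 2 + (k9 C s B * σ + 1)) +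
      (((s * s) * (2 * B) + 2 * k0 s B + k1 s B + 5) + σ * k1 s B + 1 + L2 σ C μ s B)) + B + 2

end core

/-- the core with explicit constants -/
theorem mcr_core (hUNI : Stmt_UNI) (hS2T : Stmt_S2T) (hMSM : Stmt_MSM) (hMLA : Stmt_MLA)
    (hMCF : Stmt_MCF) (hMSP : Stmt_MSP) (hMBG : Stmt_MBG) (hMSD : Stmt_MSD) (hMPR : Stmt_MPR)
    (S : Finset ℕ) (W : Fin 2 → Set ℚ) (ξ : ℝ) (μ : ℕ) (ρ : Fin 2 → Fin 2 → ℝ) (hS : PS S)
    (hG : ∀ r, IsGrp (W r)) (hWU : ∀ r, ∀ x ∈ W r, IsU S x) (hSep : Sep S (W 0) (W 1))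
    (hξ : Meas ξ μ) (hρ1 : ∀ r, ρ r 1 ≠ 0) (hρ0 : ∀ r, ρ r 0 = ξ * ρ r 1) :
    ∃ C : ℝ, 1 ≤ C ∧ ∀ (s : ℕ) (B Λ : ℝ), 0 ≤ B → Lam S.card C μ s B ≤ Λ →
      ∀ (U : Ultrafilter ℕ) (T : ℕ → ℝ) (y : Fin 2 → Fin s → ℕ → ℤ)
        (R : Fin 2 → Fin 2 → ℕ → ℤ) (A : Fin 2 → ℕ → ℝ) (f₀ : Fin 2 → ℕ → ℚ)
        (f : Fin 2 → Fin 2 → Fin s → ℕ → ℚ), Tendsto T (U : Filter ℕ) atTop →
        (∀ r, ∀ᶠ n in (U : Filter ℕ), ∀ j, |(y r j n : ℝ)| ≤ Real.exp (B * T n)) →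
        (∀ r, ∀ᶠ n in (U : Filter ℕ), 0 < A r n) →
        (∀ r, Lc U (Sm U S T B ∩ Wv (W r)) (f₀ r)) →
        (∀ r c j, Lc U (Un U S T ∩ Wv (W r)) (f r c j)) →
        (∀ r, ∀ᶠ n in (U : Filter ℕ), f₀ r n ≠ 0) →
        (∀ r c, ∀ᶠ n in (U : Filter ℕ),
          f₀ r n * (R r c n : ℚ) = ∑ j, f r c j n * (y r j n : ℚ)) →
        (∀ r c, ∀ᶠ n in (U : Filter ℕ),
          |ρ r c - R r c n / A r n| ≤ Real.exp (-(Λ * T n))) → False := by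
  classical
  obtain ⟨C, hC, hMSP⟩ := hMSP S (W 0) (W 1) hS (hG 0) (hG 1) (hWU 0) (hWU 1) hSep
  refine ⟨C, hC, ?_⟩
  intro s B Λ hB hΛ U T y R A f₀ f hT hy hA hf₀ hf hf₀n heq hR
  -- the units
  choose V₀ hV₀f hV₀ hV₀' using fun r => Lc_fin (hf₀ r)
  choose V hVf hV hV' using fun r c j => Lc_fin (hf r c j)
  obtain ⟨VV, hVV⟩ : ∃ VV : Fin 2 → Set (ℕ → ℚ),
      VV = fun r => V₀ r ∪ ⋃ c, ⋃ j, V r c j := ⟨_, rfl⟩
  have hVVf : ∀ r, (VV r).Finite := by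
    intro r
    rw [hVV]
    exact (hV₀f r).union (Set.finite_iUnion fun c => Set.finite_iUnion fun j => hVf r c j)
  have hVVs : ∀ r, VV r ⊆ Un U S T ∩ Wv (W r) := by
    intro r
    rw [hVV]
    rintro u (h | h)
    · have := hV₀ r h
      exact ⟨⟨this.1.1, B, this.1.2⟩, this.2⟩
    · obtain ⟨c, h⟩ := Set.mem_iUnion.1 h
      obtain ⟨j, h⟩ := Set.mem_iUnion.1 h
      exact hV r c j h
  have hone : ∀ r, (fun _ => (1 : ℚ)) ∈ Un U S T ∩ Wv (W r) := by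
    intro r
    refine ⟨⟨fun _ => isU_one S, 0, Eventually.of_forall fun n v hv => ?_⟩, fun _ => (hG r).1⟩
    rw [av_one, zero_mul, Real.exp_zero]
  obtain ⟨K, u₀, u₁, hu₀, hu₁, hr₀, hr₁⟩ := pack (hVVf 0) (hVVf 1) (hVVs 0) (hVVs 1)
    (hone 0) (hone 1)
  obtain ⟨r₀, r₁, g₀, g₁, hg₀W, hg₁W, hG₀, hG₁, hGG, hu₀g, hu₁g⟩ :=
    hMBG U S T K (W 0) (W 1) u₀ u₁ hS hT (hG 0) (hG 1) (inter_one hS (hWU 0) hSep) (hWU 0)
      (hWU 1) hu₀ hu₁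
  have hVg₀ : VV 0 ⊆ Gg U g₀ := by
    intro u hu
    obtain ⟨k, rfl⟩ := hr₀ hu
    exact hu₀g k
  have hVg₁ : VV 1 ⊆ Gg U g₁ := by
    intro u hu
    obtain ⟨k, rfl⟩ := hr₁ hu
    exact hu₁g k
  have hsub₀ : ∀ r, V₀ r ⊆ VV r := by
    intro r
    rw [hVV]
    exact Set.subset_union_left
  have hsub : ∀ r c j, V r c j ⊆ VV r := by
    intro r c j
    rw [hVV]
    exact fun u hu => Or.inr (Set.mem_iUnion.2 ⟨c, Set.mem_iUnion.2 ⟨j, hu⟩⟩)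
  -- the descriptions of the two sides
  obtain ⟨d₀, Z₀, P₀, X, ν₀, hd₀, hZ₀B, hZ₀, hP₀n, hν₀, hP₀, hRX⟩ :=
    hMSD U S T r₀ s g₀ (y 0) (R 0) (f₀ 0) (f 0) B hG₀ hB (hy 0)
      (hV₀' 0 _ fun u hu => ⟨(hV₀ 0 hu).1, hVg₀ (hsub₀ 0 hu)⟩)
      (fun c j => hV' 0 c j _ fun u hu => hVg₀ (hsub 0 c j hu)) (hf₀n 0) (heq 0)
  obtain ⟨d₁, Z₁, P₁, Y, ν₁, hd₁, hZ₁B, hZ₁, hP₁n, hν₁, hP₁, hRY⟩ :=
    hMSD U S T r₁ s g₁ (y 1) (R 1) (f₀ 1) (f 1) B hG₁ hB (hy 1)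
      (hV₀' 1 _ fun u hu => ⟨(hV₀ 1 hu).1, hVg₁ (hsub₀ 1 hu)⟩)
      (fun c j => hV' 1 c j _ fun u hu => hVg₁ (hsub 1 c j hu)) (hf₀n 1) (heq 1)
  obtain ⟨d, Wd, E₀, E, νE, hd, hWB, hW, hE₀n, hνE, hE₀, hEh, hE⟩ :=
    hMPR U S T (r₀ + r₁) d₀ d₁ (Fin.append g₀ g₁) Z₀ Z₁ B hGG hB hZ₀B hZ₁B
  have hTp := ev_pos hT
  have hσ : (0 : ℝ) ≤ S.card := Nat.cast_nonneg _
  have hs : (0 : ℝ) ≤ s := Nat.cast_nonneg _
  have hd₀r : (d₀ : ℝ) ≤ s := by exact_mod_cast hd₀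
  have hd₁r : (d₁ : ℝ) ≤ s := by exact_mod_cast hd₁
  have hdd : (d₀ : ℝ) * d₁ ≤ s * s := mul_le_mul hd₀r hd₁r (Nat.cast_nonneg _) hs
  have hdd0 : (0 : ℝ) ≤ (d₀ : ℝ) * d₁ := by positivity
  have hk0 : 0 ≤ k0 s B := by
    unfold k0
    positivity
  have hk1 : 0 ≤ k1 s B := by
    unfold k1
    positivity
  have hkm : ((d₀ : ℝ) * d₁) * (((d₀ : ℝ) * d₁) * (((d₀ : ℝ) * d₁) * (2 * B) + 1)) ≤ k1 s B := by
    unfold k1
    gcongr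
  have hE₀' : Ht U S T (Fin.append g₀ g₁) (k1 s B) νE E₀ := MHT_.mono hTp hkm hE₀
  have hE' : ∀ j k w, Ht U S T (Fin.append g₀ g₁) (k1 s B) νE (E j k w) :=
    fun j k w => MHT_.mono hTp hkm (hEh j k w)
  obtain ⟨ε, hε⟩ : ∃ ε, ε ∈ E₀.support := by
    rw [← Finset.Nonempty, Finset.nonempty_iff_ne_empty, Ne, MvPolynomial.support_eq_empty]
    exact hE₀n
  have hεh := hE₀' ε hε
  have ha : ∀ n, IsU S (mon g₀ (lft ε) n) := mon_isU hS hG₀.unit _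
  have hb : ∀ n, IsU S (mon g₁ (rgt ε) n) := mon_isU hS hG₁.unit _
  have hmon : ∀ n, mon (Fin.append g₀ g₁) ε n = mon g₀ (lft ε) n * mon g₁ (rgt ε) n :=
    fun n => (hMCF r₀ r₁).2.2.2.2.2.2.1 g₀ g₁ n ε
  have hC0 : 0 ≤ C := zero_le_one.trans hC
  have hCk : 0 ≤ C * k1 s B := by positivity
  have Dt : Cd U S T g₀ g₁ B (k0 s B) (k1 s B) (C * k1 s B) (S.card * k1 s B) Λ ξ Z₀ Z₁ Wd X
      P₀ ν₀ Y P₁ ν₁ E₀ E νE R A ρ (fun n => mon g₀ (lft ε) n) (fun n => mon g₁ (rgt ε) n) := by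
    refine ⟨hG₀, hG₁, hGG, hB, hk0, hk1, hCk, by positivity, hZ₀B, hZ₀, hWB, hW, hν₀, hν₁,
      hνE, hP₀, hP₁, hE₀', hP₀n, hP₁n, hE₀n, hRX, hRY, hE, hA, hρ1, hρ0, hR, ha, hb,
      ?_, ?_, ?_⟩
    · intro j k w e he
      have h1 := hMSP U T r₀ r₁ g₀ g₁ (k1 s B) νE e ε hT hk1 hg₀W hg₁W hνE (hE' j k w e he) hεh
      exact h1.mono fun n hn v hv => (hn v hv).1
    · filter_upwards [hεh] with n hn
      have h1 := compare hS (mon_isU hS hGG.unit ε n) (hνE n) hn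
      rw [hmon] at h1
      push_cast at h1
      exact h1
    · filter_upwards [hεh] with n hn
      have h1 := hn 0 (zero_mem_pl S)
      rw [av_zero_eq, av_zero_eq, hmon] at h1
      have p1 : (0 : ℝ) < (νE n : ℚ) := by exact_mod_cast (hνE n).1
      rw [abs_of_pos p1] at h1
      push_cast at h1
      exact (le_abs_self _).trans h1
  have hdr : (d : ℝ) ≤ (s : ℝ) * s := by
    have : (d : ℝ) ≤ (d₀ : ℝ) * d₁ := by exact_mod_cast hd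
    exact this.trans hdd
  refine core_false hUNI hS2T hMSM hMLA hMCF Dt hξ (κ₉ := k9 C s B) (Λ₂ := L2 S.card C μ s B)
    (D := (s : ℝ) * s) hdr ?_ ?_ ?_
  · unfold k9
    exact mul_le_mul_of_nonneg_right (mul_le_mul_of_nonneg_left hd₀r (by norm_num)) hCk
  · unfold L2
    linarith
  · refine le_trans (le_of_eq ?_) hΛ
    unfold Lam
    ring

end MCR_

theorem mcr_proof (hUNI : Stmt_UNI) (hS2T : Stmt_S2T) (_hMHT : Stmt_MHT) (hMSM : Stmt_MSM)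
    (hMLA : Stmt_MLA) (hMCF : Stmt_MCF) (hMSP : Stmt_MSP) (hMBG : Stmt_MBG) (hMSD : Stmt_MSD)
    (hMPR : Stmt_MPR) : Stmt_MCR := by
  intro S W ξ μ ρ hS hG hWU hSep hξ hρ1 hρ0 s B hB
  obtain ⟨C, _, h⟩ := MCR_.mcr_core hUNI hS2T hMSM hMLA hMCF hMSP hMBG hMSD hMPR S W ξ μ ρ hS hG
    hWU hSep hξ hρ1 hρ0
  exact ⟨MCR_.Lam S.card C μ s B, h s B _ hB le_rfl⟩

end Pool.Agent.SBT
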