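import Pool.Agent.SBT.Api
import Pool.Agent.SBT.StmtsD

set_option autoImplicit false

namespace Pool.Agent.SBT

open Filter

namespace APX_

theorem ev_eq {r : ℕ} (g : Fin r → ℕ → ℚ) (n : ℕ) (H : MvPolynomial (Fin r) ℚ) :
    ev g n H = ∑ e ∈ H.support, MvPolynomial.coeff e H * mon g e n := by
  unfold ev mon
  rw [MvPolynomial.eval_eq']

theorem ev_mul {r : ℕ} (g : Fin r → ℕ → ℚ) (n : ℕ) (P Q : MvPolynomial (Fin r) ℚ) :
    ev g n (P * Q) = ev g n P * ev g n Q := by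
  unfold ev
  exact map_mul _ _ _

theorem ev_sub {r : ℕ} (g : Fin r → ℕ → ℚ) (n : ℕ) (P Q : MvPolynomial (Fin r) ℚ) :
    ev g n (P - Q) = ev g n P - ev g n Q := by
  unfold ev
  exact map_sub _ _ _

theorem ev_monomial {r : ℕ} (g : Fin r → ℕ → ℚ) (n : ℕ) (e : Fin r →₀ ℕ) (c : ℚ) :
    ev g n (MvPolynomial.monomial e c) = c * mon g e n := by
  unfold ev mon
  rw [MvPolynomial.eval_monomial, Finsupp.prod_fintype _ _ (fun i => pow_zero _)]

theorem mon_add {r : ℕ} (g : Fin r → ℕ → ℚ) (e e' : Fin r →₀ ℕ) (n : ℕ) :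
    mon g (e + e') n = mon g e n * mon g e' n := by
  unfold mon
  rw [← Finset.prod_mul_distrib]
  exact Finset.prod_congr rfl fun i _ => by rw [Finsupp.add_apply, pow_add]

theorem mon_isU {S : Finset ℕ} (hS : PS S) {r : ℕ} {g : Fin r → ℕ → ℚ}
    (hg : ∀ i n, IsU S (g i n)) (e : Fin r →₀ ℕ) (n : ℕ) : IsU S (mon g e n) :=
  isU_prod hS _ _ fun i _ => (hg i n).pow hS _

theorem supp_of {r : ℕ} {E : Fin r →₀ ℕ} {k : ℚ} {P Q : MvPolynomial (Fin r) ℚ}
    {e : Fin r →₀ ℕ} (h : e ∈ (MvPolynomial.monomial E k * (P * Q)).support) :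
    ∃ e1 ∈ P.support, ∃ e2 ∈ Q.support, e = E + (e1 + e2) := by
  classical
  have h1 := MvPolynomial.support_mul _ _ h
  obtain ⟨a, ha, b, hb, rfl⟩ := Finset.mem_add.1 h1
  have h2 := MvPolynomial.support_mul _ _ hb
  obtain ⟨c, hc, d, hd, rfl⟩ := Finset.mem_add.1 h2
  have h3 := MvPolynomial.support_monomial_subset ha
  rw [Finset.mem_singleton.1 h3]
  exact ⟨c, hc, d, hd, rfl⟩

theorem clear {r : ℕ} (e e' : Fin r → ℤ) : ∃ f Ea Eb : Fin r →₀ ℕ,
    (∀ i, (Ea i : ℤ) = e i + f i) ∧ (∀ i, (Eb i : ℤ) = e' i + f i) := by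
  refine ⟨Finsupp.equivFunOnFinite.symm fun i => (e i).natAbs + (e' i).natAbs,
    Finsupp.equivFunOnFinite.symm fun i => (e i + ((e i).natAbs + (e' i).natAbs : ℕ)).toNat,
    Finsupp.equivFunOnFinite.symm fun i => (e' i + ((e i).natAbs + (e' i).natAbs : ℕ)).toNat,
    fun i => ?_, fun i => ?_⟩
  · simp only [Finsupp.equivFunOnFinite_symm_apply_apply]
    omega
  · simp only [Finsupp.equivFunOnFinite_symm_apply_apply]
    omega

theorem mon_zpow {r : ℕ} {g : Fin r → ℕ → ℚ} (hg : ∀ i n, g i n ≠ 0) {f Ea : Fin r →₀ ℕ}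
    {e : Fin r → ℤ} (h : ∀ i, (Ea i : ℤ) = e i + f i) (n : ℕ) :
    mon g f n * ∏ i, g i n ^ e i = mon g Ea n := by
  unfold mon
  rw [← Finset.prod_mul_distrib]
  refine Finset.prod_congr rfl fun i _ => ?_
  rw [← zpow_natCast (g i n) (Ea i), h i, zpow_add₀ (hg i n), zpow_natCast, mul_comm]

theorem av_unit_out {S : Finset ℕ} (hS : PS S) {x : ℚ} (hx : IsU S x) {p : ℕ} (hp : p.Prime)
    (hpS : p ∉ S) : av p x = 1 := by
  rw [av_prime hp, hx.padicNorm_eq_one hS hp hpS]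
  simp

theorem int_of_av {x : ℚ} (h : ∀ p : ℕ, p.Prime → av p x ≤ 1) : ∃ z : ℤ, x = z := by
  apply int_of_padic
  intro p hp
  have := h p hp
  rw [av_prime hp] at this
  exact_mod_cast this

theorem int_mon {S : Finset ℕ} (hS : PS S) {x y : ℚ} (hx : IsU S x) (hy : IsU S y)
    (h : ∀ p ∈ S, av p x ≤ av p y) : ∃ z : ℤ, x / y = z := by
  apply int_of_av
  intro p hp
  have hv : p = 0 ∨ p.Prime := Or.inr hp
  rw [av_div hv, div_le_one (av_pos hv hy.ne_zero)]
  by_cases hpS : p ∈ S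
  · exact h p hpS
  · rw [av_unit_out hS hx hp hpS, av_unit_out hS hy hp hpS]

theorem av_num_le {p : ℕ} (hp : p.Prime) (k : ℚ) : av p (k.num : ℚ) ≤ av p k := by
  have hv : p = 0 ∨ p.Prime := Or.inr hp
  have h1 : (k.num : ℚ) = k * (k.den : ℚ) := (Rat.mul_den_eq_num k).symm
  rw [h1, av_mul hv]
  have h2 : av p ((k.den : ℤ) : ℚ) ≤ 1 := av_int_le_one hp _
  have h3 : ((k.den : ℤ) : ℚ) = (k.den : ℚ) := by push_cast; rfl
  rw [h3] at h2
  exact mul_le_of_le_one_right (av_nonneg p k) h2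

theorem int_W {S : Finset ℕ} (hS : PS S) {x w u u' κ κ' : ℚ} {A B : ℕ} (hA : 0 < A)
    (hB : 0 < B) (hx : IsU S x) (hw : IsU S w) (hu : IsU S u) (hu' : IsU S u')
    (hAu : (A : ℚ) = κ * u) (hBu : (B : ℚ) = κ' * u')
    (h1 : ∀ p ∈ S, av p x ≤ av p (w * u)) (h2 : ∀ p ∈ S, av p x ≤ av p (w * u')) :
    ∃ z : ℤ, (κ.num : ℚ) * κ'.num * (x / (w * (A * B / (Nat.gcd A B : ℚ)))) = z := by
  apply int_of_av
  intro p hp
  have hv : p = 0 ∨ p.Prime := Or.inr hp
  have hG0 : 0 < Nat.gcd A B := Nat.gcd_pos_of_pos_left _ hA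
  have hG : (Nat.gcd A B : ℚ) ≠ 0 := by exact_mod_cast hG0.ne'
  have hA' : (A : ℚ) ≠ 0 := by exact_mod_cast hA.ne'
  have hB' : (B : ℚ) ≠ 0 := by exact_mod_cast hB.ne'
  have e1 : av p x ≤ av p w * av p u := by
    by_cases hpS : p ∈ S
    · have := h1 p hpS
      rwa [av_mul hv] at this
    · rw [av_unit_out hS hx hp hpS, av_unit_out hS hw hp hpS, av_unit_out hS hu hp hpS, one_mul]
  have e2 : av p x ≤ av p w * av p u' := by
    by_cases hpS : p ∈ S
    · have := h2 p hpS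
      rwa [av_mul hv] at this
    · rw [av_unit_out hS hx hp hpS, av_unit_out hS hw hp hpS, av_unit_out hS hu' hp hpS, one_mul]
  have e3 : av p (A : ℚ) = av p κ * av p u := by rw [hAu, av_mul hv]
  have e4 : av p (B : ℚ) = av p κ' * av p u' := by rw [hBu, av_mul hv]
  have e5 : av p (Nat.gcd A B : ℚ) ≤ max (av p (A : ℚ)) (av p (B : ℚ)) := by
    have hbz : (Nat.gcd A B : ℚ) = (A : ℚ) * ((Nat.gcdA A B : ℤ) : ℚ) +
        (B : ℚ) * ((Nat.gcdB A B : ℤ) : ℚ) := by
      have := Nat.gcd_eq_gcd_ab A B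
      exact_mod_cast this
    rw [hbz]
    refine (av_add_le_max hp _ _).trans (max_le_max ?_ ?_)
    · rw [av_mul hv]
      exact mul_le_of_le_one_right (av_nonneg _ _) (av_int_le_one hp _)
    · rw [av_mul hv]
      exact mul_le_of_le_one_right (av_nonneg _ _) (av_int_le_one hp _)
  have n1 := av_num_le hp κ
  have n2 := av_num_le hp κ'
  have n3 := av_int_le_one hp κ.num
  have n4 := av_int_le_one hp κ'.num
  have p1 := av_nonneg p (κ.num : ℚ)
  have p2 := av_nonneg p (κ'.num : ℚ)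
  have p3 := av_nonneg p x
  have p4 := av_nonneg p (Nat.gcd A B : ℚ)
  have p5 := av_pos hv hw.ne_zero
  have p6 := av_pos hv hA'
  have p7 := av_pos hv hB'
  have p8 := av_pos hv hG
  have p9 := av_nonneg p u
  have p10 := av_nonneg p u'
  have p11 := av_nonneg p κ
  have p12 := av_nonneg p κ'
  rw [av_mul hv, av_mul hv, av_div hv, av_mul hv, av_div hv, av_mul hv, mul_div_assoc']
  rw [div_le_one (by positivity), mul_div_assoc', le_div_iff₀ p8]
  rcases le_max_iff.1 e5 with h | h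
  · calc av p (κ.num : ℚ) * av p (κ'.num : ℚ) * av p x * av p (Nat.gcd A B : ℚ)
        ≤ 1 * av p κ' * (av p w * av p u') * av p (A : ℚ) := by gcongr
      _ = av p w * (av p (A : ℚ) * av p (B : ℚ)) := by rw [e4]; ring
  · calc av p (κ.num : ℚ) * av p (κ'.num : ℚ) * av p x * av p (Nat.gcd A B : ℚ)
        ≤ av p κ * 1 * (av p w * av p u) * av p (B : ℚ) := by gcongr
      _ = av p w * (av p (A : ℚ) * av p (B : ℚ)) := by rw [e3]; ring

/-- a multiple of a denominator -/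
theorem den_mul {M : ℕ} {q : ℚ} (h : q.den ∣ M) : ∃ z : ℤ, (M : ℚ) * q = z := by
  obtain ⟨k, rfl⟩ := h
  refine ⟨k * q.num, ?_⟩
  push_cast
  rw [← Rat.mul_den_eq_num q]
  ring

theorem sum_int {ι : Type*} (s : Finset ι) (f : ι → ℚ) (h : ∀ i ∈ s, ∃ z : ℤ, f i = z) :
    ∃ z : ℤ, ∑ i ∈ s, f i = z := by
  classical
  choose! F hF using h
  refine ⟨∑ i ∈ s, F i, ?_⟩
  push_cast
  exact Finset.sum_congr rfl hF

theorem mul_int {x y : ℚ} (hx : ∃ z : ℤ, x = z) (hy : ∃ z : ℤ, y = z) :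
    ∃ z : ℤ, x * y = z := by
  obtain ⟨a, rfl⟩ := hx
  obtain ⟨b, rfl⟩ := hy
  exact ⟨a * b, by push_cast; ring⟩

/-- the product of the denominators of the coefficients -/
noncomputable def dn {r : ℕ} (P : MvPolynomial (Fin r) ℚ) : ℕ :=
  ∏ e ∈ P.support, (MvPolynomial.coeff e P).den

theorem dn_pos {r : ℕ} (P : MvPolynomial (Fin r) ℚ) : 0 < dn P :=
  Finset.prod_pos fun _ _ => Rat.den_pos _

theorem dn_int {r : ℕ} {P : MvPolynomial (Fin r) ℚ} {e : Fin r →₀ ℕ} (he : e ∈ P.support) :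
    ∃ z : ℤ, (dn P : ℚ) * MvPolynomial.coeff e P = z :=
  den_mul (Finset.dvd_prod_of_mem (fun e => (MvPolynomial.coeff e P).den) he)

theorem ev_div_int {S : Finset ℕ} (hS : PS S) {r : ℕ} {g : Fin r → ℕ → ℚ}
    (hg : ∀ i n, IsU S (g i n)) (P : MvPolynomial (Fin r) ℚ) {ν : ℚ} (hν : IsU S ν) {n : ℕ}
    (h : ∀ e ∈ P.support, ∀ p ∈ S, av p (mon g e n) ≤ av p ν) :
    ∃ z : ℤ, (dn P : ℚ) * (ev g n P / ν) = z := by
  rw [ev_eq, Finset.sum_div, Finset.mul_sum]
  refine sum_int _ _ fun e he => ?_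
  have h1 := dn_int he
  have h2 := int_mon hS (mon_isU hS hg e n) hν (h e he)
  have h3 := mul_int h1 h2
  obtain ⟨z, hz⟩ := h3
  exact ⟨z, by rw [← hz]; ring⟩

theorem ev_abs_le {r : ℕ} {g : Fin r → ℕ → ℚ} (P : MvPolynomial (Fin r) ℚ) {n : ℕ} {t : ℝ}
    (h : ∀ e ∈ P.support, av 0 (mon g e n) ≤ t) :
    |((ev g n P : ℚ) : ℝ)| ≤ (∑ e ∈ P.support, |((MvPolynomial.coeff e P : ℚ) : ℝ)|) * t := by
  rw [ev_eq, Finset.sum_mul]
  push_cast
  refine (Finset.abs_sum_le_sum_abs _ _).trans (Finset.sum_le_sum fun e he => ?_)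
  rw [abs_mul]
  apply mul_le_mul_of_nonneg_left _ (abs_nonneg _)
  have := h e he
  rwa [av_zero_eq] at this

theorem const_le {F : Filter ℕ} {T : ℕ → ℝ} (hT : Tendsto T F atTop) (C : ℝ) :
    ∀ᶠ n in F, C ≤ Real.exp (T n) := by
  have := ev_const_le_exp hT one_pos C
  simpa using this



/-- the product of the denominators of the coefficients divided by `k` -/
noncomputable def dk {r : ℕ} (k : ℚ) (P : MvPolynomial (Fin r) ℚ) : ℕ :=
  ∏ e ∈ P.support, (MvPolynomial.coeff e P / k).den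

theorem dk_pos {r : ℕ} (k : ℚ) (P : MvPolynomial (Fin r) ℚ) : 0 < dk k P :=
  Finset.prod_pos fun _ _ => Rat.den_pos _

theorem dk_int {r : ℕ} {k : ℚ} {P : MvPolynomial (Fin r) ℚ} {e : Fin r →₀ ℕ}
    (he : e ∈ P.support) : ∃ z : ℤ, (dk k P : ℚ) * (MvPolynomial.coeff e P / k) = z :=
  den_mul (Finset.dvd_prod_of_mem (fun e => (MvPolynomial.coeff e P / k).den) he)

/-- the inverse of a unit which is small at all places -/
theorem av_inv_le {S : Finset ℕ} (hS : PS S) {w : ℚ} (hw : IsU S w) {N : ℝ}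
    (h : ∀ v ∈ pl S, av v w ≤ N) {p : ℕ} (hp : p ∈ S) : (av p w)⁻¹ ≤ N ^ S.card := by
  have hpp : p ∈ pl S := mem_pl_of_mem hp
  have h1 := hw.2
  rw [← Finset.mul_prod_erase _ _ hpp] at h1
  have h2 : 0 < av p w := av_pos (place_of_mem hS hpp) hw.ne_zero
  have h3 : (av p w)⁻¹ = ∏ v ∈ (pl S).erase p, av v w := (eq_inv_of_mul_eq_one_right h1).symm
  rw [h3]
  have h4 : ((pl S).erase p).card = S.card := by
    rw [Finset.card_erase_of_mem hpp]
    unfold pl
    rw [Finset.card_insert_of_notMem (zero_notMem hS)]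
    omega
  calc ∏ v ∈ (pl S).erase p, av v w ≤ ∏ _v ∈ (pl S).erase p, N :=
        Finset.prod_le_prod (fun v _ => av_nonneg v w)
          fun v hv => h v (Finset.mem_of_mem_erase hv)
    _ = N ^ S.card := by rw [Finset.prod_const, h4]

theorem log_av_nat {p : ℕ} (hp : p.Prime) {a : ℕ} (ha : 0 < a) :
    Real.log (av p (a : ℚ)) = -((padicValNat p a : ℝ) * Real.log p) := by
  have ha' : (a : ℚ) ≠ 0 := by exact_mod_cast ha.ne'
  rw [av_eq_zpow hp ha', Real.log_zpow, padicValRat.of_nat, Int.cast_neg, Int.cast_natCast]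
  ring

/-- the exponents of two descriptions differ little -/
theorem shift {S : Finset ℕ} (hS : PS S) {a b : ℕ} (ha : 2 ≤ a) (hb : 2 ≤ b)
    (hab : ∀ p : ℕ, p.Prime → p ∣ a * b → p ∈ S) {w w' κ κ' : ℚ} (hw : IsU S w)
    (hw' : IsU S w') (hκ : 0 < κ) (hκ' : 0 < κ') {N Kc : ℝ} (hN : 1 ≤ N) (hKc : 1 ≤ Kc)
    (h : ∀ v ∈ pl S, av v w ≤ N) (h' : ∀ v ∈ pl S, av v w' ≤ N)
    (hk : ∀ p ∈ S, av p (κ' / κ) ≤ Kc) (hk' : ∀ p ∈ S, av p (κ / κ') ≤ Kc) {m m' L L' : ℕ}
    (heq : (a : ℚ) ^ m * w * (b : ℚ) ^ L' / κ' = (a : ℚ) ^ L * (b : ℚ) ^ m' * w' / κ) :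
    ∀ p : ℕ, p.Prime → |(((m : ℤ) - L : ℤ) : ℝ) * (padicValNat p a : ℝ) +
      (((L' : ℤ) - m' : ℤ) : ℝ) * (padicValNat p b : ℝ)| * Real.log p ≤
        Real.log (N ^ (S.card + 1) * Kc) := by
  intro p hp
  have hv : p = 0 ∨ p.Prime := Or.inr hp
  have ha0 : (a : ℚ) ≠ 0 := by
    have : a ≠ 0 := by omega
    exact_mod_cast this
  have hb0 : (b : ℚ) ≠ 0 := by
    have : b ≠ 0 := by omega
    exact_mod_cast this
  have hlogp : 0 < Real.log p := Real.log_pos (by exact_mod_cast hp.one_lt)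
  have hNN : 1 ≤ N ^ (S.card + 1) * Kc := by
    have := one_le_pow₀ hN (n := S.card + 1)
    nlinarith
  by_cases hpS : p ∈ S
  · obtain ⟨y, hy⟩ : ∃ y : ℚ, y = (a : ℚ) ^ ((m : ℤ) - L) * (b : ℚ) ^ ((L' : ℤ) - m') := ⟨_, rfl⟩
    have hy1 : y = (w' / w) * (κ' / κ) := by
      rw [hy, zpow_sub₀ ha0, zpow_sub₀ hb0]
      simp only [zpow_natCast]
      have w0 := hw.ne_zero
      have e1 : (a : ℚ) ^ m * w * (b : ℚ) ^ L' * κ = (a : ℚ) ^ L * (b : ℚ) ^ m' * w' * κ' := by
        rw [div_eq_div_iff hκ'.ne' hκ.ne'] at heq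
        exact heq
      field_simp
      linarith
    have hy0 : y ≠ 0 := by
      rw [hy]
      exact mul_ne_zero (zpow_ne_zero _ ha0) (zpow_ne_zero _ hb0)
    have hlog : Real.log (av p y) = -(((((m : ℤ) - L : ℤ) : ℝ) * (padicValNat p a : ℝ) +
        (((L' : ℤ) - m' : ℤ) : ℝ) * (padicValNat p b : ℝ)) * Real.log p) := by
      rw [hy, av_mul hv, av_zpow hv, av_zpow hv, Real.log_mul
        (zpow_ne_zero _ (av_pos hv ha0).ne') (zpow_ne_zero _ (av_pos hv hb0).ne'),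
        Real.log_zpow, Real.log_zpow, log_av_nat hp (by omega), log_av_nat hp (by omega)]
      ring
    have u1 := av_inv_le hS hw h hpS
    have u2 := av_inv_le hS hw' h' hpS
    have u3 := h p (mem_pl_of_mem hpS)
    have u4 := h' p (mem_pl_of_mem hpS)
    have q1 := av_pos hv hw.ne_zero
    have q2 := av_pos hv hw'.ne_zero
    have b1 : av p y ≤ N ^ (S.card + 1) * Kc := by
      rw [hy1, av_mul hv, av_div hv, div_eq_mul_inv, pow_succ]
      have := hk p hpS
      have q3 := av_nonneg p (κ' / κ)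
      calc av p w' * (av p w)⁻¹ * av p (κ' / κ) ≤ N * N ^ S.card * Kc := by gcongr
        _ = N ^ S.card * N * Kc := by ring
    have b2 : (av p y)⁻¹ ≤ N ^ (S.card + 1) * Kc := by
      have : (av p y)⁻¹ = av p w * (av p w')⁻¹ * av p (κ / κ') := by
        rw [hy1, av_mul hv, av_div hv, av_div hv, av_div hv]
        have q4 := (av_pos hv hκ.ne').ne'
        have q5 := (av_pos hv hκ'.ne').ne'
        field_simp
      rw [this, pow_succ]
      have := hk' p hpS
      have q3 := av_nonneg p (κ / κ')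
      calc av p w * (av p w')⁻¹ * av p (κ / κ') ≤ N * N ^ S.card * Kc := by gcongr
        _ = N ^ S.card * N * Kc := by ring
    have hyp := av_pos hv hy0
    have c1 := Real.log_le_log hyp b1
    have c2 := Real.log_le_log (inv_pos.2 hyp) b2
    rw [Real.log_inv] at c2
    rw [hlog] at c1 c2
    rw [← abs_of_pos hlogp, ← abs_mul, abs_le]
    constructor
    · linarith
    · linarith
  · have h1 : ¬ p ∣ a := fun hd => hpS (hab p hp (hd.mul_right b))
    have h2 : ¬ p ∣ b := fun hd => hpS (hab p hp (hd.mul_left a))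
    rw [padicValNat.eq_zero_of_not_dvd h1, padicValNat.eq_zero_of_not_dvd h2]
    simp only [Nat.cast_zero, mul_zero, add_zero, abs_zero, zero_mul]
    exact Real.log_nonneg hNN

end APX_


open APX_ in
theorem apx_proof (hUNI : Stmt_UNI) (hS2T : Stmt_S2T) (hVIN : Stmt_VIN) : Stmt_APX := by
  intro a b s S B B₀ B₁ ha hb hab habS hB hB0 hB1
  classical
  obtain ⟨Cv, hCv, hvin⟩ := hVIN a b ha hb hab
  obtain ⟨κ₁, hκ₁⟩ : ∃ κ₁ : ℝ, κ₁ = Cv * (2 * B₀ * (S.card + 1) + 1) := ⟨_, rfl⟩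
  have hκ₁0 : 0 ≤ κ₁ := by rw [hκ₁]; positivity
  have hloga : 0 ≤ Real.log a := Real.log_natCast_nonneg a
  refine ⟨2 * B₀ * (S.card + 1) + 2 + κ₁ * Real.log a + B₁ + (s + 1) * B + 3, by positivity, ?_⟩
  intro U T r d g Z ξ Λ L L' hG hds hZ hI hD hD' hκ hκ' hL hL'
  obtain ⟨P₀, P, ν, hP0, hν, hrel, hpS, hpSi⟩ := hD
  obtain ⟨P₀', P', ν', hP0', hν', hrel', hpS', hpSi'⟩ := hD'
  obtain ⟨κ, e, hκ0, hκe⟩ := hκ
  obtain ⟨κ', e', hκ0', hκe'⟩ := hκ'
  obtain ⟨f, Ea, Eb, hEa, hEb⟩ := clear e e'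
  have hS := hG.prime
  have hgU := hG.unit
  have hg0 : ∀ i n, g i n ≠ 0 := fun i n => (hgU i n).ne_zero
  obtain ⟨Ap, hAp⟩ : ∃ Ap : Fin d → MvPolynomial (Fin r) ℚ,
      ∀ i, Ap i = MvPolynomial.monomial Eb κ' * (P₀' * P i) := ⟨_, fun _ => rfl⟩
  obtain ⟨Bp, hBp⟩ : ∃ Bp : Fin d → MvPolynomial (Fin r) ℚ,
      ∀ i, Bp i = MvPolynomial.monomial Ea κ * (P₀ * P' i) := ⟨_, fun _ => rfl⟩
  obtain ⟨D, hDd⟩ : ∃ D : Fin d → MvPolynomial (Fin r) ℚ, ∀ i, D i = Ap i - Bp i :=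
    ⟨_, fun _ => rfl⟩
  have hS2 := hS2T U S T r d g Z B 1 D hG hB one_pos hZ hI
  have hS2' : ∀ᶠ n in (U : Filter ℕ), ∀ i, ∀ e ∈ (D i).support, av 0 (mon g e n) ≤
      Real.exp ((d * B + 1) * T n) * |((∑ i, ev g n (D i) * (Z i n : ℚ) : ℚ) : ℝ)| :=
    eventually_all.2 fun i => (eventually_all_finset _).2 fun e he => hS2 i e he
  have hpS1 := (eventually_all_finset _).2 hpS
  have hpS1' := (eventually_all_finset _).2 hpS'
  have hpSi1 : ∀ᶠ n in (U : Filter ℕ), ∀ i, ∀ e ∈ (P i).support, ∃ m : ℕ, ∀ v ∈ pl S,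
      av v (mon g e n) ≤ Real.exp (B₀ * T n) * av v ((a : ℚ) ^ m * ν n) :=
    eventually_all.2 fun i => (eventually_all_finset _).2 fun e he => by
      obtain ⟨m, hm⟩ := hpSi i e he
      exact hm.mono fun n hn => ⟨m n, hn⟩
  have hpSi1' : ∀ᶠ n in (U : Filter ℕ), ∀ i, ∀ e ∈ (P' i).support, ∃ m : ℕ, ∀ v ∈ pl S,
      av v (mon g e n) ≤ Real.exp (B₀ * T n) * av v ((b : ℚ) ^ m * ν' n) :=
    eventually_all.2 fun i => (eventually_all_finset _).2 fun e he => by
      obtain ⟨m, hm⟩ := hpSi' i e he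
      exact hm.mono fun n hn => ⟨m n, hn⟩
  have hne : ∀ᶠ n in (U : Filter ℕ), ev g n P₀ ≠ 0 := by
    rcases ult_em U (fun n => ev g n P₀ = 0) with h | h
    · exact absurd (hUNI U S r g hS hgU hG.ind P₀ h) hP0
    · exact h
  have hne' : ∀ᶠ n in (U : Filter ℕ), ev g n P₀' ≠ 0 := by
    rcases ult_em U (fun n => ev g n P₀' = 0) with h | h
    · exact absurd (hUNI U S r g hS hgU hG.ind P₀' h) hP0'
    · exact h
  -- constants
  obtain ⟨Kc, hKc⟩ : ∃ Kc : ℝ, Kc = 1 + ∑ p ∈ S, (av p (κ' / κ) + av p (κ / κ')) := ⟨_, rfl⟩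
  have hKc1 : 1 ≤ Kc := by
    rw [hKc]
    have : 0 ≤ ∑ p ∈ S, (av p (κ' / κ) + av p (κ / κ')) :=
      Finset.sum_nonneg fun p _ => add_nonneg (av_nonneg _ _) (av_nonneg _ _)
    linarith
  have hKcS : ∀ p ∈ S, av p (κ' / κ) + av p (κ / κ') ≤ Kc := by
    intro p hp
    have := Finset.single_le_sum (f := fun p => av p (κ' / κ) + av p (κ / κ'))
      (fun p _ => add_nonneg (av_nonneg _ _) (av_nonneg _ _)) hp
    rw [hKc]
    linarith
  have hKc' : ∀ p ∈ S, av p (κ' / κ) ≤ Kc := fun p hp => by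
    have := hKcS p hp
    have := av_nonneg p (κ / κ')
    linarith
  have hKc'' : ∀ p ∈ S, av p (κ / κ') ≤ Kc := fun p hp => by
    have := hKcS p hp
    have := av_nonneg p (κ' / κ)
    linarith
  obtain ⟨c, hc⟩ : ∃ c : ℕ, c = (∏ i, dk κ' (Ap i)) * (dn P₀ * dn P₀') := ⟨_, rfl⟩
  have hcq : (c : ℚ) = (∏ i, (dk κ' (Ap i) : ℚ)) * (dn P₀ * dn P₀') := by
    rw [hc]
    push_cast
    rfl
  have hc0 : 0 < c := by
    rw [hc]
    have h3 : 0 < ∏ i, dk κ' (Ap i) := Finset.prod_pos fun i _ => dk_pos _ _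
    have h4 := dn_pos P₀
    have h5 := dn_pos P₀'
    positivity
  obtain ⟨K₁, hK₁⟩ : ∃ K₁ : ℝ, K₁ = ∑ i, ∑ e ∈ (Ap i).support,
    |((MvPolynomial.coeff e (Ap i) : ℚ) : ℝ)| := ⟨_, rfl⟩
  have hK10 : 0 ≤ K₁ := by
    rw [hK₁]
    exact Finset.sum_nonneg fun _ _ => Finset.sum_nonneg fun _ _ => abs_nonneg _
  obtain ⟨K₂, hK₂⟩ : ∃ K₂ : ℝ, K₂ = ∑ e ∈ P₀.support,
    |((MvPolynomial.coeff e P₀ : ℚ) : ℝ)| := ⟨_, rfl⟩
  obtain ⟨K₃, hK₃⟩ : ∃ K₃ : ℝ, K₃ = ∑ e ∈ P₀'.support,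
    |((MvPolynomial.coeff e P₀' : ℚ) : ℝ)| := ⟨_, rfl⟩
  -- reduction to a pointwise statement
  have key : ∀ᶠ n in (U : Filter ℕ), ∃ (X : ℤ) (Q : ℕ), 0 < Q ∧
      (Q : ℝ) ≤ Real.exp ((2 * B₀ * (S.card + 1) + 2 + κ₁ * Real.log a + B₁ + (s + 1) * B + 3) *
        T n) ∧ |ξ - X / Q| ≤ Real.exp (((2 * B₀ * (S.card + 1) + 2 + κ₁ * Real.log a + B₁ +
        (s + 1) * B + 3) - Λ) * T n) := by
    filter_upwards [hS2', hpS1, hpS1', hpSi1, hpSi1', hne, hne', hrel, hrel', hκe,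
      hκe', hL, hL', hZ, ev_pos hG.lim, const_le hG.lim (a * (c * (K₂ * K₃))),
      const_le hG.lim K₁, const_le hG.lim 2, const_le hG.lim Kc] with n
      gS2 gpS gpS' gpSi gpSi' gne gne' grel grel' gκ gκ' gL gL' gZ gT gK gK1 g2 gKc
    have hνp := (hν n).pos
    have hνp' := (hν' n).pos
    have hMU := mon_isU hS hgU f n
    have ha0 : (a : ℚ) ≠ 0 := by
      have : a ≠ 0 := by omega
      exact_mod_cast this
    have hb0 : (b : ℚ) ≠ 0 := by
      have : b ≠ 0 := by omega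
      exact_mod_cast this
    have haU : ∀ k : ℕ, IsU S ((a : ℚ) ^ k) :=
      isU_nat_pow hS (by omega) fun p hp hd => habS p hp (hd.mul_right b)
    have hbU : ∀ k : ℕ, IsU S ((b : ℚ) ^ k) :=
      isU_nat_pow hS (by omega) fun p hp hd => habS p hp (hd.mul_left a)
    have hmEa := mon_zpow hg0 hEa n
    have hmEb := mon_zpow hg0 hEb n
    obtain ⟨N, hN⟩ : ∃ N : ℝ, N = Real.exp (2 * B₀ * T n) := ⟨_, rfl⟩
    have hN1 : 1 ≤ N := by
      rw [hN, ← Real.exp_zero]
      apply Real.exp_le_exp.2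
      positivity
    have hNsq : Real.exp (B₀ * T n) * Real.exp (B₀ * T n) = N := by
      rw [hN, ← Real.exp_add]
      congr 1
      ring
    obtain ⟨Δ, hΔ0, hΔU, hΔN, hΔi⟩ := exists_den hS hN1
    obtain ⟨q, hq⟩ : ∃ q : ℕ, q = ⌈κ₁ * T n⌉₊ := ⟨_, rfl⟩
    have hq1 : κ₁ * T n ≤ q := by rw [hq]; exact Nat.le_ceil _
    have hq2 : (q : ℝ) ≤ κ₁ * T n + 1 := by
      rw [hq]
      exact (Nat.ceil_lt_add_one (by positivity)).le
    -- quotient of a monomial by a unit
    have quo : ∀ (x y : ℚ), IsU S x → IsU S y → ∀ t : ℝ, (∀ v ∈ pl S, av v x ≤ t * av v y) →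
        ∀ v ∈ pl S, av v (x / y) ≤ t := by
      intro x y _ hy t hxy v hv
      rw [av_div (place_of_mem hS hv), div_le_iff₀ (av_pos (place_of_mem hS hv) hy.ne_zero)]
      exact hxy v hv
    have mulb : ∀ (x y : ℚ), (∀ v ∈ pl S, av v x ≤ Real.exp (B₀ * T n)) →
        (∀ v ∈ pl S, av v y ≤ Real.exp (B₀ * T n)) → ∀ v ∈ pl S, av v (x * y) ≤ N := by
      intro x y hx hy v hv
      rw [av_mul (place_of_mem hS hv), ← hNsq]
      exact mul_le_mul (hx v hv) (hy v hv) (av_nonneg _ _) (Real.exp_pos _).le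
    have intΔ : ∀ x : ℚ, IsU S x → (∀ v ∈ pl S, av v x ≤ N) → ∃ z : ℤ, (Δ : ℚ) * x = z :=
      fun x hx hx2 => hΔi x (hx.sInt hS) fun p hp => hx2 p (mem_pl_of_mem hp)
    -- integrality of `A`
    have hAint : ∃ z : ℤ, (c : ℚ) * Δ * (ev g n P₀ * ev g n P₀' / (ν n * ν' n)) = z := by
      have h4 : ∃ z : ℤ, (∏ i, (dk κ' (Ap i) : ℚ)) = z :=
        ⟨∏ i, (dk κ' (Ap i) : ℤ), by push_cast; rfl⟩
      have h5 : ∃ z : ℤ, ∑ e1 ∈ P₀.support, ∑ e2 ∈ P₀'.support,
          (((dn P₀ : ℚ) * MvPolynomial.coeff e1 P₀) * ((dn P₀' : ℚ) *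
            MvPolynomial.coeff e2 P₀')) * ((Δ : ℚ) * ((mon g e1 n / ν n) * (mon g e2 n / ν' n)))
            = z := by
        refine sum_int _ _ fun e1 h1 => sum_int _ _ fun e2 h2 => ?_
        refine mul_int (mul_int (dn_int h1) (dn_int h2)) (intΔ _ ?_ ?_)
        · exact ((mon_isU hS hgU e1 n).div hS (hν n)).mul hS
            ((mon_isU hS hgU e2 n).div hS (hν' n))
        · exact mulb _ _ (quo _ _ (mon_isU hS hgU e1 n) (hν n) _ (gpS e1 h1))
            (quo _ _ (mon_isU hS hgU e2 n) (hν' n) _ (gpS' e2 h2))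
      obtain ⟨z, hz⟩ := mul_int h4 h5
      refine ⟨z, ?_⟩
      rw [← hz, hcq]
      have h6 : ∑ e1 ∈ P₀.support, ∑ e2 ∈ P₀'.support,
          (((dn P₀ : ℚ) * MvPolynomial.coeff e1 P₀) * ((dn P₀' : ℚ) *
            MvPolynomial.coeff e2 P₀')) * ((Δ : ℚ) * ((mon g e1 n / ν n) * (mon g e2 n / ν' n)))
          = (dn P₀ * dn P₀' * Δ / (ν n * ν' n)) * (ev g n P₀ * ev g n P₀') := by
        rw [ev_eq, ev_eq, Finset.sum_mul_sum, Finset.mul_sum]
        refine Finset.sum_congr rfl fun e1 _ => ?_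
        rw [Finset.mul_sum]
        refine Finset.sum_congr rfl fun e2 _ => ?_
        have n1 : ν n ≠ 0 := hνp.ne'
        have n2 : ν' n ≠ 0 := hνp'.ne'
        field_simp
      rw [h6]
      ring
    -- the large terms
    have hterm : ∀ i, ∀ ee ∈ (Ap i).support.filter (fun e => e ∉ (D i).support), ∃ z : ℤ,
        (c : ℚ) * Δ * (MvPolynomial.coeff ee (Ap i) * mon g ee n /
          (mon g f n * (b : ℚ) ^ L' n * ν n * ν' n)) * (a : ℚ) ^ q * (Z i n : ℚ) =
          (a : ℚ) ^ L n * z := by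
      intro i ee hee
      rw [Finset.mem_filter] at hee
      obtain ⟨hee1, hee2⟩ := hee
      have hB3 : ee ∈ (Bp i).support := by
        rw [MvPolynomial.mem_support_iff] at hee1 ⊢
        rw [MvPolynomial.notMem_support_iff, hDd, MvPolynomial.coeff_sub, sub_eq_zero] at hee2
        rw [← hee2]
        exact hee1
      have hA3 := hee1
      rw [hAp] at hA3
      rw [hBp] at hB3
      obtain ⟨e1, he1, e2, he2, hE⟩ := supp_of hA3
      obtain ⟨e3, he3, e4, he4, hE'⟩ := supp_of hB3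
      obtain ⟨m, hm⟩ := gpSi i e2 he2
      obtain ⟨m', hm'⟩ := gpSi' i e4 he4
      obtain ⟨w, hw⟩ : ∃ w : ℚ, w = (mon g e1 n / ν' n) * (mon g e2 n / ((a : ℚ) ^ m * ν n)) :=
        ⟨_, rfl⟩
      obtain ⟨w', hw'⟩ : ∃ w' : ℚ, w' = (mon g e3 n / ν n) *
        (mon g e4 n / ((b : ℚ) ^ m' * ν' n)) := ⟨_, rfl⟩
      have hwU : IsU S w := by
        rw [hw]
        exact ((mon_isU hS hgU e1 n).div hS (hν' n)).mul hS
          ((mon_isU hS hgU e2 n).div hS ((haU m).mul hS (hν n)))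
      have hwU' : IsU S w' := by
        rw [hw']
        exact ((mon_isU hS hgU e3 n).div hS (hν n)).mul hS
          ((mon_isU hS hgU e4 n).div hS ((hbU m').mul hS (hν' n)))
      have hwN : ∀ v ∈ pl S, av v w ≤ N := by
        rw [hw]
        exact mulb _ _ (quo _ _ (mon_isU hS hgU e1 n) (hν' n) _ (gpS' e1 he1))
          (quo _ _ (mon_isU hS hgU e2 n) ((haU m).mul hS (hν n)) _ hm)
      have hwN' : ∀ v ∈ pl S, av v w' ≤ N := by
        rw [hw']
        exact mulb _ _ (quo _ _ (mon_isU hS hgU e3 n) (hν n) _ (gpS e3 he3))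
          (quo _ _ (mon_isU hS hgU e4 n) ((hbU m').mul hS (hν' n)) _ hm')
      have n1 : ν n ≠ 0 := hνp.ne'
      have n2 : ν' n ≠ 0 := hνp'.ne'
      have n3 : mon g f n ≠ 0 := hMU.ne_zero
      have n4 : ∀ k : ℕ, (a : ℚ) ^ k ≠ 0 := fun k => pow_ne_zero k ha0
      have n5 : ∀ k : ℕ, (b : ℚ) ^ k ≠ 0 := fun k => pow_ne_zero k hb0
      have hmee : mon g ee n = mon g f n * (b : ℚ) ^ L' n / κ' * ν n * ν' n * (a : ℚ) ^ m * w := by
        rw [hE, mon_add, mon_add, ← hmEb, hw, gκ']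
        have := n4 m
        have := hκ0'.ne'
        field_simp
      have hmee' : mon g ee n = mon g f n * (a : ℚ) ^ L n / κ * ν n * ν' n * (b : ℚ) ^ m' *
          w' := by
        rw [hE', mon_add, mon_add, ← hmEa, hw', gκ]
        have := n5 m'
        have := hκ0.ne'
        field_simp
      have heq : (a : ℚ) ^ m * w * (b : ℚ) ^ L' n / κ' =
          (a : ℚ) ^ L n * (b : ℚ) ^ m' * w' / κ := by
        have h1 : (mon g f n * ν n * ν' n) * ((a : ℚ) ^ m * w * (b : ℚ) ^ L' n / κ') =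
            (mon g f n * ν n * ν' n) * ((a : ℚ) ^ L n * (b : ℚ) ^ m' * w' / κ) := by
          calc (mon g f n * ν n * ν' n) * ((a : ℚ) ^ m * w * (b : ℚ) ^ L' n / κ')
              = mon g ee n := by rw [hmee]; ring
            _ = _ := by rw [hmee']; ring
        exact mul_left_cancel₀ (mul_ne_zero (mul_ne_zero n3 n1) n2) h1
      have hsh := shift hS ha hb habS hwU hwU' hκ0 hκ0' hN1 hKc1 hwN hwN' hKc' hKc'' heq
      have hx := (hvin _ _ _ hsh).1
      have hlogN : Real.log (N ^ (S.card + 1) * Kc) ≤ (2 * B₀ * (S.card + 1) + 1) * T n := by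
        rw [Real.log_mul (by positivity) (by positivity), Real.log_pow, hN, Real.log_exp]
        have h1 : Real.log Kc ≤ T n := by
          rw [Real.log_le_iff_le_exp (by linarith)]
          exact gKc
        push_cast
        linarith
      have hmL : (L n : ℝ) - m ≤ q := by
        push_cast at hx
        have h1 := (abs_le.1 hx).1
        have h2 : Cv * Real.log (N ^ (S.card + 1) * Kc) ≤ κ₁ * T n := by
          rw [hκ₁, mul_assoc]
          exact mul_le_mul_of_nonneg_left hlogN hCv.le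
        linarith
      have hmL' : L n ≤ m + q := by
        have : (L n : ℝ) ≤ (m + q : ℕ) := by push_cast; linarith
        exact_mod_cast this
      obtain ⟨k, hk⟩ := Nat.exists_eq_add_of_le hmL'
      -- integers
      have t1 := dk_int (k := κ') hee1
      have t2 := intΔ w hwU hwN
      have t3 : ∃ z : ℤ, (∏ j ∈ Finset.univ.erase i, (dk κ' (Ap j) : ℚ)) *
          (dn P₀ * dn P₀') * (a : ℚ) ^ k * (Z i n : ℚ) = z :=
        ⟨(∏ j ∈ Finset.univ.erase i, (dk κ' (Ap j) : ℤ)) * (dn P₀ * dn P₀') * (a : ℤ) ^ k *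
          Z i n, by push_cast; rfl⟩
      obtain ⟨z, hz⟩ := mul_int (mul_int t1 t2) t3
      refine ⟨z, ?_⟩
      have hpow : (a : ℚ) ^ m * (a : ℚ) ^ q = (a : ℚ) ^ L n * (a : ℚ) ^ k := by
        rw [← pow_add, hk, pow_add]
      rw [← hz, hcq, ← Finset.mul_prod_erase Finset.univ (fun j => (dk κ' (Ap j) : ℚ))
        (Finset.mem_univ i), hmee]
      have h7 : MvPolynomial.coeff ee (Ap i) * (mon g f n * (b : ℚ) ^ L' n / κ' * ν n * ν' n *
          (a : ℚ) ^ m * w) / (mon g f n * (b : ℚ) ^ L' n * ν n * ν' n) =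
          (MvPolynomial.coeff ee (Ap i) / κ') * w * (a : ℚ) ^ m := by
        have := n5 (L' n)
        have := hκ0'.ne'
        field_simp
      rw [h7]
      have h8 : (a : ℚ) ^ L n * (((dk κ' (Ap i) : ℚ) * (MvPolynomial.coeff ee (Ap i) / κ')) *
          ((Δ : ℚ) * w) * ((∏ j ∈ Finset.univ.erase i, (dk κ' (Ap j) : ℚ)) *
          (dn P₀ * dn P₀') * (a : ℚ) ^ k * (Z i n : ℚ))) =
          ((dk κ' (Ap i) : ℚ) * (MvPolynomial.coeff ee (Ap i) / κ')) *
          ((Δ : ℚ) * w) * ((∏ j ∈ Finset.univ.erase i, (dk κ' (Ap j) : ℚ)) *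
          (dn P₀ * dn P₀') * (Z i n : ℚ)) * ((a : ℚ) ^ L n * (a : ℚ) ^ k) := by ring
      rw [h8, ← hpow]
      ring
    have hXint : ∃ z : ℤ, ∑ i, ∑ ee ∈ (Ap i).support.filter (fun e => e ∉ (D i).support),
        (c : ℚ) * Δ * (MvPolynomial.coeff ee (Ap i) * mon g ee n /
          (mon g f n * (b : ℚ) ^ L' n * ν n * ν' n)) * (a : ℚ) ^ q * (Z i n : ℚ) =
          (a : ℚ) ^ L n * z := by
      choose! F hF using hterm
      refine ⟨∑ i, ∑ ee ∈ (Ap i).support.filter (fun e => e ∉ (D i).support), F i ee, ?_⟩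
      push_cast
      rw [Finset.mul_sum]
      refine Finset.sum_congr rfl fun i _ => ?_
      rw [Finset.mul_sum]
      exact Finset.sum_congr rfl fun ee hee => hF i ee hee
    obtain ⟨zA, hzA⟩ := hAint
    obtain ⟨zX, hzX⟩ := hXint
    have hcpos : (0 : ℚ) < c := by exact_mod_cast hc0
    have hΔpos : (0 : ℚ) < Δ := by exact_mod_cast hΔ0
    have hzA0 : zA ≠ 0 := by
      rintro rfl
      have : (c : ℚ) * Δ * (ev g n P₀ * ev g n P₀' / (ν n * ν' n)) ≠ 0 :=
        mul_ne_zero (mul_ne_zero hcpos.ne' hΔpos.ne') (div_ne_zero (mul_ne_zero gne gne')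
          (mul_ne_zero hνp.ne' hνp'.ne'))
      exact this (by rw [hzA]; simp)
    -- real notation
    obtain ⟨AA, hAA⟩ : ∃ AA : ℝ, AA = (a : ℝ) ^ L n := ⟨_, rfl⟩
    obtain ⟨BB, hBB⟩ : ∃ BB : ℝ, BB = (b : ℝ) ^ L' n := ⟨_, rfl⟩
    obtain ⟨R, hR⟩ : ∃ R : ℤ, R = ⌊ξ * (a : ℝ) ^ L n⌋ := ⟨_, rfl⟩
    obtain ⟨R', hR'⟩ : ∃ R' : ℤ, R' = ⌊ξ * (b : ℝ) ^ L' n⌋ := ⟨_, rfl⟩
    have grel2 : ev g n P₀ * (R : ℚ) = ∑ i, ev g n (P i) * (Z i n : ℚ) := by
      rw [hR]; exact grel
    have grel2' : ev g n P₀' * (R' : ℚ) = ∑ i, ev g n (P' i) * (Z i n : ℚ) := by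
      rw [hR']; exact grel'
    have hAA0 : 0 < AA := by rw [hAA]; positivity
    have hBB0 : 0 < BB := by rw [hBB]; positivity
    have fl1 : ξ * AA - 1 < R := by rw [hAA, hR]; exact Int.sub_one_lt_floor _
    have fl2 : (R : ℝ) ≤ ξ * AA := by rw [hAA, hR]; exact Int.floor_le _
    have fl1' : ξ * BB - 1 < R' := by rw [hBB, hR']; exact Int.sub_one_lt_floor _
    have fl2' : (R' : ℝ) ≤ ξ * BB := by rw [hBB, hR']; exact Int.floor_le _
    have hAAl : Real.exp ((Λ - B₁) * T n) ≤ AA := by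
      have h1 : AA = Real.exp (L n * Real.log a) := by
        rw [hAA, mul_comm, Real.exp_mul, Real.exp_log (by positivity), Real.rpow_natCast]
      rw [h1]
      apply Real.exp_le_exp.2
      have := (abs_le.1 gL).1
      linarith
    have hBBl : Real.exp ((Λ - B₁) * T n) ≤ BB := by
      have h1 : BB = Real.exp (L' n * Real.log b) := by
        rw [hBB, mul_comm, Real.exp_mul, Real.exp_log (by positivity), Real.rpow_natCast]
      rw [h1]
      apply Real.exp_le_exp.2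
      have := (abs_le.1 gL').1
      linarith
    obtain ⟨E, hE⟩ : ∃ E : ℝ, E = Real.exp ((B₁ - Λ) * T n) := ⟨_, rfl⟩
    have hE0 : 0 < E := by rw [hE]; exact Real.exp_pos _
    have hEinv : Real.exp ((Λ - B₁) * T n) = E⁻¹ := by
      rw [hE, ← Real.exp_neg]
      congr 1
      ring
    rw [hEinv] at hAAl hBBl
    have hAE : 1 ≤ AA * E := by
      rw [inv_le_iff_one_le_mul₀ hE0] at hAAl
      linarith
    have hBE : 1 ≤ BB * E := by
      rw [inv_le_iff_one_le_mul₀ hE0] at hBBl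
      linarith
    -- the form
    obtain ⟨ss, hs⟩ : ∃ ss : ℚ, ss = ∑ i, ev g n (Ap i) * (Z i n : ℚ) := ⟨_, rfl⟩
    obtain ⟨ss', hs'⟩ : ∃ ss' : ℚ, ss' = ∑ i, ev g n (Bp i) * (Z i n : ℚ) := ⟨_, rfl⟩
    have hs1 : ss = mon g f n * (b : ℚ) ^ L' n * (ev g n P₀' * ev g n P₀ * R) := by
      rw [hs]
      have : ∀ i, ev g n (Ap i) * (Z i n : ℚ) =
          (κ' * mon g Eb n * ev g n P₀') * (ev g n (P i) * (Z i n : ℚ)) := by
        intro i
        rw [hAp, ev_mul, ev_mul, ev_monomial]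
        ring
      rw [Finset.sum_congr rfl fun i _ => this i, ← Finset.mul_sum, ← grel2, gκ', ← hmEb]
      ring
    have hs1' : ss' = mon g f n * (a : ℚ) ^ L n * (ev g n P₀' * ev g n P₀ * R') := by
      rw [hs']
      have : ∀ i, ev g n (Bp i) * (Z i n : ℚ) =
          (κ * mon g Ea n * ev g n P₀) * (ev g n (P' i) * (Z i n : ℚ)) := by
        intro i
        rw [hBp, ev_mul, ev_mul, ev_monomial]
        ring
      rw [Finset.sum_congr rfl fun i _ => this i, ← Finset.mul_sum, ← grel2', gκ, ← hmEa]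
      ring
    have hsD : ∑ i, ev g n (D i) * (Z i n : ℚ) = ss - ss' := by
      rw [hs, hs', ← Finset.sum_sub_distrib]
      exact Finset.sum_congr rfl fun i _ => by rw [hDd, ev_sub]; ring
    rw [hsD] at gS2
    obtain ⟨hh, hhd⟩ : ∃ hh : ℚ, hh = ∑ i, (∑ e ∈ (Ap i).support.filter
      (fun e => e ∉ (D i).support), MvPolynomial.coeff e (Ap i) * mon g e n) * (Z i n : ℚ) :=
      ⟨_, rfl⟩
    obtain ⟨M, hM⟩ : ∃ M : ℝ, M = ((mon g f n : ℚ) : ℝ) := ⟨_, rfl⟩
    obtain ⟨p, hp⟩ : ∃ p : ℝ, p = ((ev g n P₀ : ℚ) : ℝ) := ⟨_, rfl⟩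
    obtain ⟨p', hp'⟩ : ∃ p' : ℝ, p' = ((ev g n P₀' : ℚ) : ℝ) := ⟨_, rfl⟩
    have hM0 : 0 < M := by rw [hM]; exact_mod_cast hMU.pos
    have hpn : p ≠ 0 := by rw [hp]; exact_mod_cast gne
    have hpn' : p' ≠ 0 := by rw [hp']; exact_mod_cast gne'
    have hsR : ((ss : ℚ) : ℝ) = M * BB * (p' * p * R) := by
      rw [hs1, hM, hBB, hp, hp']
      push_cast
      rfl
    have hsR' : ((ss' : ℚ) : ℝ) = M * AA * (p' * p * R') := by
      rw [hs1', hM, hAA, hp, hp']
      push_cast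
      rfl
    have hpp : 0 < |p' * p| := abs_pos.2 (mul_ne_zero hpn' hpn)
    have hF : |(((ss - ss' : ℚ)) : ℝ)| ≤ M * |p' * p| * (AA * BB * E) := by
      have h1 : (((ss - ss' : ℚ)) : ℝ) = M * (p' * p) * (BB * R - AA * R') := by
        push_cast
        rw [hsR, hsR']
        ring
      rw [h1, abs_mul, abs_mul, abs_of_pos hM0]
      apply mul_le_mul_of_nonneg_left _ (by positivity)
      have h2 : AA ≤ AA * BB * E := by
        have := mul_le_mul_of_nonneg_left hBE hAA0.le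
        linarith
      have h3 : BB ≤ AA * BB * E := by
        have := mul_le_mul_of_nonneg_left hAE hBB0.le
        linarith
      have k1 := mul_le_mul_of_nonneg_left fl2 hBB0.le
      have k2 := mul_le_mul_of_nonneg_left fl1.le hBB0.le
      have k3 := mul_le_mul_of_nonneg_left fl2' hAA0.le
      have k4 := mul_le_mul_of_nonneg_left fl1'.le hAA0.le
      have k5 : BB * (ξ * AA) = AA * (ξ * BB) := by ring
      rw [abs_le]
      constructor
      · linarith
      · linarith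
    have hdiff : |((ss : ℚ) : ℝ) - ((hh : ℚ) : ℝ)| ≤
        K₁ * (Real.exp ((d * B + 1) * T n) * |(((ss - ss' : ℚ)) : ℝ)|) * Real.exp (B * T n) := by
      have h1 : ((ss : ℚ) : ℝ) - ((hh : ℚ) : ℝ) = ∑ i, (∑ e ∈ (Ap i).support.filter
          (fun e => e ∈ (D i).support), ((MvPolynomial.coeff e (Ap i) : ℚ) : ℝ) *
            ((mon g e n : ℚ) : ℝ)) * (Z i n : ℝ) := by
        have h2 : ss - hh = ∑ i, (∑ e ∈ (Ap i).support.filter
          (fun e => e ∈ (D i).support), (MvPolynomial.coeff e (Ap i)) *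
            (mon g e n)) * (Z i n : ℚ) := by
          rw [hs, hhd, ← Finset.sum_sub_distrib]
          refine Finset.sum_congr rfl fun i _ => ?_
          rw [ev_eq, ← Finset.sum_filter_add_sum_filter_not (Ap i).support
            (fun e => e ∈ (D i).support)]
          ring
        have h3 := congrArg (fun t : ℚ => (t : ℝ)) h2
        push_cast at h3
        exact h3
      rw [h1]
      have h4 : ∀ i, |(∑ e ∈ (Ap i).support.filter
          (fun e => e ∈ (D i).support), ((MvPolynomial.coeff e (Ap i) : ℚ) : ℝ) *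
            ((mon g e n : ℚ) : ℝ)) * (Z i n : ℝ)| ≤
          (∑ e ∈ (Ap i).support, |((MvPolynomial.coeff e (Ap i) : ℚ) : ℝ)|) *
            (Real.exp ((d * B + 1) * T n) * |(((ss - ss' : ℚ)) : ℝ)|) *
            Real.exp (B * T n) := by
        intro i
        rw [abs_mul]
        apply mul_le_mul _ (gZ i) (abs_nonneg _)
        · exact mul_nonneg (Finset.sum_nonneg fun _ _ => abs_nonneg _) (by positivity)
        refine (Finset.abs_sum_le_sum_abs _ _).trans ?_
        rw [Finset.sum_mul]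
        refine (Finset.sum_le_sum (g := fun e => |((MvPolynomial.coeff e (Ap i) : ℚ) : ℝ)| *
          (Real.exp ((d * B + 1) * T n) * |(((ss - ss' : ℚ)) : ℝ)|)) fun e he => ?_).trans ?_
        · rw [abs_mul]
          apply mul_le_mul_of_nonneg_left _ (abs_nonneg _)
          have := gS2 i e (Finset.mem_filter.1 he).2
          rwa [av_zero_eq] at this
        · apply Finset.sum_le_sum_of_subset_of_nonneg (Finset.filter_subset _ _)
          intro e _ _
          positivity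
      calc |∑ i, (∑ e ∈ (Ap i).support.filter
          (fun e => e ∈ (D i).support), ((MvPolynomial.coeff e (Ap i) : ℚ) : ℝ) *
            ((mon g e n : ℚ) : ℝ)) * (Z i n : ℝ)| ≤ _ := Finset.abs_sum_le_sum_abs _ _
        _ ≤ _ := Finset.sum_le_sum fun i _ => h4 i
        _ = _ := by rw [← Finset.sum_mul, ← Finset.sum_mul, hK₁]
    -- real versions of the two integers
    have hνR : (0 : ℝ) < ((ν n : ℚ) : ℝ) := by exact_mod_cast hνp
    have hνR' : (0 : ℝ) < ((ν' n : ℚ) : ℝ) := by exact_mod_cast hνp'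
    have hcR : (0 : ℝ) < c := by exact_mod_cast hc0
    have hΔR : (0 : ℝ) < Δ := by exact_mod_cast hΔ0
    have hAR : (zA : ℝ) = c * Δ * (p * p' / (((ν n : ℚ) : ℝ) * ((ν' n : ℚ) : ℝ))) := by
      have := congrArg (fun t : ℚ => (t : ℝ)) hzA
      push_cast at this
      rw [← this, hp, hp']
    have hXR : (c : ℝ) * Δ * (((hh : ℚ) : ℝ) / (M * BB * (((ν n : ℚ) : ℝ) *
        ((ν' n : ℚ) : ℝ)))) * (a : ℝ) ^ q = AA * zX := by
      have h1 : (c : ℚ) * Δ * (hh / (mon g f n * (b : ℚ) ^ L' n * (ν n * ν' n))) * (a : ℚ) ^ q =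
          (a : ℚ) ^ L n * zX := by
        rw [← hzX, hhd, Finset.sum_div, Finset.mul_sum, Finset.sum_mul]
        refine Finset.sum_congr rfl fun i _ => ?_
        rw [Finset.sum_mul, Finset.sum_div, Finset.mul_sum, Finset.sum_mul]
        refine Finset.sum_congr rfl fun ee _ => ?_
        ring
      have := congrArg (fun t : ℚ => (t : ℝ)) h1
      push_cast at this
      rw [hM, hBB, hAA]
      exact this
    have haq : (0 : ℝ) < (a : ℝ) ^ q := by positivity
    have hzAR : (0 : ℝ) < |(zA : ℝ)| := abs_pos.2 (by exact_mod_cast hzA0)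
    -- the answer
    refine ⟨(if 0 < zA then zX else -zX), zA.natAbs * a ^ q, ?_, ?_, ?_⟩
    · exact Nat.mul_pos (Int.natAbs_pos.2 hzA0) (pow_pos (by omega) _)
    · -- size
      have h1 := ev_abs_le (g := g) P₀ (n := n) fun e he => gpS e he 0 (zero_mem_pl S)
      have h2 := ev_abs_le (g := g) P₀' (n := n) fun e he => gpS' e he 0 (zero_mem_pl S)
      rw [← hK₂, av_zero_eq, abs_of_pos hνR, ← hp] at h1
      rw [← hK₃, av_zero_eq, abs_of_pos hνR', ← hp'] at h2
      have hK2 : 0 ≤ K₂ := by rw [hK₂]; exact Finset.sum_nonneg fun _ _ => abs_nonneg _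
      have hK3 : 0 ≤ K₃ := by rw [hK₃]; exact Finset.sum_nonneg fun _ _ => abs_nonneg _
      have hAle : |(zA : ℝ)| ≤ c * (K₂ * K₃) * N ^ (S.card + 1) := by
        rw [hAR, abs_mul, abs_mul, abs_div, abs_mul, abs_mul, abs_of_pos hcR, abs_of_pos hΔR,
          abs_of_pos hνR, abs_of_pos hνR']
        calc (c : ℝ) * Δ * (|p| * |p'| / (((ν n : ℚ) : ℝ) * ((ν' n : ℚ) : ℝ)))
            ≤ (c : ℝ) * N ^ S.card * ((K₂ * (Real.exp (B₀ * T n) * ((ν n : ℚ) : ℝ))) *
              (K₃ * (Real.exp (B₀ * T n) * ((ν' n : ℚ) : ℝ))) /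
              (((ν n : ℚ) : ℝ) * ((ν' n : ℚ) : ℝ))) := by gcongr
          _ = c * (K₂ * K₃) * N ^ (S.card + 1) := by
              rw [pow_succ, ← hNsq]
              field_simp
      have haqle : (a : ℝ) ^ q ≤ a * Real.exp (κ₁ * Real.log a * T n) := by
        have ha1 : (0 : ℝ) < a := by
          have : 0 < a := by omega
          exact_mod_cast this
        have h3 : (a : ℝ) ^ q = Real.exp (q * Real.log a) := by
          rw [mul_comm, Real.exp_mul, Real.exp_log ha1, Real.rpow_natCast]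
        have h4 : (a : ℝ) * Real.exp (κ₁ * Real.log a * T n) =
            Real.exp (Real.log a + κ₁ * Real.log a * T n) := by
          rw [Real.exp_add, Real.exp_log ha1]
        rw [h3, h4]
        apply Real.exp_le_exp.2
        have := mul_le_mul_of_nonneg_right hq2 hloga
        linarith
      have hnat : ((zA.natAbs * a ^ q : ℕ) : ℝ) = |(zA : ℝ)| * (a : ℝ) ^ q := by
        push_cast
        rw [Nat.cast_natAbs]
        push_cast
        rfl
      rw [hnat]
      have hNN : N ^ (S.card + 1) = Real.exp (2 * B₀ * (S.card + 1) * T n) := by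
        rw [hN, ← Real.exp_nat_mul]
        congr 1
        push_cast
        ring
      calc |(zA : ℝ)| * (a : ℝ) ^ q ≤ (c * (K₂ * K₃) * N ^ (S.card + 1)) *
            (a * Real.exp (κ₁ * Real.log a * T n)) := by gcongr
        _ = (a * (c * (K₂ * K₃))) * (N ^ (S.card + 1) * Real.exp (κ₁ * Real.log a * T n)) := by
            ring
        _ ≤ Real.exp (T n) * (N ^ (S.card + 1) * Real.exp (κ₁ * Real.log a * T n)) := by
            gcongr
        _ = Real.exp ((2 * B₀ * (S.card + 1) + 1 + κ₁ * Real.log a) * T n) := by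
            rw [hNN, ← Real.exp_add, ← Real.exp_add]
            congr 1
            ring
        _ ≤ _ := by
            apply Real.exp_le_exp.2
            apply mul_le_mul_of_nonneg_right _ gT.le
            have : 0 ≤ ((s : ℝ) + 1) * B := by positivity
            linarith
    · -- the approximation
      have hfrac : (((if 0 < zA then zX else -zX : ℤ)) : ℝ) / ((zA.natAbs * a ^ q : ℕ) : ℝ) =
          (zX : ℝ) / (zA * (a : ℝ) ^ q) := by
        push_cast
        rw [Nat.cast_natAbs]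
        push_cast
        by_cases h0 : 0 < zA
        · have h1 : (0 : ℝ) < zA := by exact_mod_cast h0
          rw [if_pos h0, abs_of_pos h1]
        · have h1 : (zA : ℝ) < 0 := by
            have : zA < 0 := lt_of_le_of_ne (not_lt.1 h0) hzA0
            exact_mod_cast this
          rw [if_neg h0, abs_of_neg h1]
          rw [neg_mul, neg_div_neg_eq]
      rw [hfrac]
      have hXA : (zX : ℝ) / (zA * (a : ℝ) ^ q) =
          ((hh : ℚ) : ℝ) / (M * AA * BB * (p' * p)) := by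
        have h1 : (zX : ℝ) = (c : ℝ) * Δ * (((hh : ℚ) : ℝ) / (M * BB * (((ν n : ℚ) : ℝ) *
            ((ν' n : ℚ) : ℝ)))) * (a : ℝ) ^ q / AA := by
          rw [hXR]
          field_simp
        rw [h1, hAR]
        field_simp
      rw [hXA]
      have hRA : (R : ℝ) / AA = ((ss : ℚ) : ℝ) / (M * AA * BB * (p' * p)) := by
        rw [hsR]
        field_simp
      have e1 : |ξ - (R : ℝ) / AA| ≤ E := by
        have h1 : ξ - (R : ℝ) / AA = (ξ * AA - R) / AA := by field_simp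
        rw [h1, abs_div, abs_of_pos hAA0, div_le_iff₀ hAA0]
        have h2 : |ξ * AA - R| ≤ 1 := by
          rw [abs_le]
          constructor <;> linarith
        linarith [mul_comm AA E]
      have e2 : |(R : ℝ) / AA - ((hh : ℚ) : ℝ) / (M * AA * BB * (p' * p))| ≤
          K₁ * (Real.exp ((d * B + 1) * T n) * Real.exp (B * T n)) * E := by
        rw [hRA, ← sub_div, abs_div]
        have h1 : |M * AA * BB * (p' * p)| = M * AA * BB * |p' * p| := by
          rw [abs_mul, abs_of_pos (by positivity)]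
        rw [h1, div_le_iff₀ (by positivity)]
        calc |((ss : ℚ) : ℝ) - ((hh : ℚ) : ℝ)| ≤ _ := hdiff
          _ ≤ K₁ * (Real.exp ((d * B + 1) * T n) * (M * |p' * p| * (AA * BB * E))) *
              Real.exp (B * T n) := by gcongr
          _ = _ := by ring
      have hdB : ((d : ℝ) + 1) * B ≤ ((s : ℝ) + 1) * B := by
        apply mul_le_mul_of_nonneg_right _ hB
        have : (d : ℝ) ≤ s := by exact_mod_cast hds
        linarith
      calc |ξ - ((hh : ℚ) : ℝ) / (M * AA * BB * (p' * p))|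
          ≤ |ξ - (R : ℝ) / AA| +
            |(R : ℝ) / AA - ((hh : ℚ) : ℝ) / (M * AA * BB * (p' * p))| := abs_sub_le _ _ _
        _ ≤ E + K₁ * (Real.exp ((d * B + 1) * T n) * Real.exp (B * T n)) * E :=
            add_le_add e1 e2
        _ ≤ E + Real.exp (T n) * (Real.exp ((d * B + 1) * T n) * Real.exp (B * T n)) * E := by
            gcongr
        _ = E * (1 + Real.exp ((2 + (d + 1) * B) * T n)) := by
            have : Real.exp (T n) * (Real.exp ((d * B + 1) * T n) * Real.exp (B * T n)) =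
                Real.exp ((2 + (d + 1) * B) * T n) := by
              rw [← Real.exp_add, ← Real.exp_add]
              congr 1
              ring
            rw [this]
            ring
        _ ≤ E * (Real.exp (T n) * Real.exp ((2 + (d + 1) * B) * T n)) := by
            have h1 : 1 ≤ Real.exp ((2 + (d + 1) * B) * T n) := by
              rw [← Real.exp_zero]
              apply Real.exp_le_exp.2
              positivity
            have h2 : 1 + Real.exp ((2 + (d + 1) * B) * T n) ≤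
                2 * Real.exp ((2 + (d + 1) * B) * T n) := by linarith
            apply mul_le_mul_of_nonneg_left _ hE0.le
            refine h2.trans ?_
            gcongr
        _ = Real.exp ((B₁ + 3 + (d + 1) * B - Λ) * T n) := by
            rw [hE, ← Real.exp_add, ← Real.exp_add]
            congr 1
            ring
        _ ≤ _ := by
            apply Real.exp_le_exp.2
            apply mul_le_mul_of_nonneg_right _ gT.le
            have h5 : 0 ≤ 2 * B₀ * ((S.card : ℝ) + 1) := by positivity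
            have h6 : 0 ≤ κ₁ * Real.log a := by positivity
            linarith
  obtain ⟨X, hX⟩ := key.choice
  obtain ⟨Q, hQ⟩ := hX.choice
  exact ⟨X, Q, hQ⟩

end Pool.Agent.SBT
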