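import Pool.Agent.SBT.StmtsD
import Pool.Agent.SBT.Api

/-!
# COR: the core theorem
-/

set_option autoImplicit false

namespace Pool.Agent.SBT

open Filter

namespace CORw

/-- a power of an `S`-unit of bounded size -/
theorem av_zpow_le {v : ℕ} (hv : v = 0 ∨ v.Prime) {a : ℕ} (ha : 2 ≤ a) (E : ℕ) (e : ℤ) :
    av v (((a ^ E : ℕ) : ℚ) ^ e) ≤ Real.exp ((e.natAbs : ℝ) * ((E : ℝ) * Real.log a)) := by
  have ha0 : (0 : ℝ) < a := by
    have : 0 < a := by omega
    exact_mod_cast this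
  have hz : ((a ^ E : ℕ) : ℤ) ≠ 0 := by
    have : 0 < a ^ E := Nat.pow_pos (by omega)
    exact_mod_cast this.ne'
  have e1 : |(((a ^ E : ℕ) : ℤ) : ℝ)| = Real.exp ((E : ℝ) * Real.log a) := by
    rw [mul_comm, Real.exp_mul, Real.exp_log ha0, Real.rpow_natCast]
    push_cast
    exact abs_of_pos (pow_pos ha0 _)
  have e2 : ((a ^ E : ℕ) : ℚ) = (((a ^ E : ℕ) : ℤ) : ℚ) := by push_cast; rfl
  have h1 : av v ((a ^ E : ℕ) : ℚ) ≤ Real.exp ((E : ℝ) * Real.log a) := by
    rw [← e1, e2]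
    exact av_int_le_abs hv _
  have hpos : 0 < av v ((a ^ E : ℕ) : ℚ) := by
    apply av_pos hv
    rw [e2]
    exact_mod_cast hz
  have h2 : (av v ((a ^ E : ℕ) : ℚ))⁻¹ ≤ Real.exp ((E : ℝ) * Real.log a) := by
    rw [inv_le_comm₀ hpos (Real.exp_pos _), ← e1, e2]
    exact inv_abs_le_av hv hz
  rw [av_zpow hv, Real.exp_nat_mul]
  rcases Int.natAbs_eq e with he | he
  · rw [he, zpow_natCast, Int.natAbs_natCast]
    exact pow_le_pow_left₀ (av_nonneg _ _) h1 _
  · rw [he, zpow_neg, zpow_natCast, Int.natAbs_neg, Int.natAbs_natCast, ← inv_pow]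
    exact pow_le_pow_left₀ (inv_nonneg.2 (av_nonneg _ _)) h2 _

end CORw

open CORw

theorem cor_proof (hBAS : Stmt_BAS) (hINI : Stmt_INI) (hELM : Stmt_ELM) (hAPX : Stmt_APX) :
    Stmt_COR := by
  intro bs ξ μ hbs hind hmeas s B hB
  set B₂ : ℝ := B + 1 + s * (s * B + 1) with hB₂
  have hs0 : (0 : ℝ) ≤ s := Nat.cast_nonneg s
  have hB₂0 : 0 ≤ B₂ := by positivity
  -- the set of places
  set S : Finset ℕ := (bs 0 * bs 1).primeFactors with hS
  have hPS : PS S := fun p hp => Nat.prime_of_mem_primeFactors hp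
  have hbs0 : ∀ r, 0 < bs r := fun r => by have := hbs r; omega
  have hS0 : ∀ p : ℕ, p.Prime → p ∣ bs 0 * bs 1 → p ∈ S := by
    intro p hp hd
    rw [hS, Nat.mem_primeFactors]
    exact ⟨hp, hd, (Nat.mul_pos (hbs0 0) (hbs0 1)).ne'⟩
  have hSb : ∀ (r : Fin 2) (p : ℕ), p.Prime → p ∣ bs r → p ∈ S := by
    intro r p hp hd
    apply hS0 p hp
    fin_cases r
    · exact dvd_mul_of_dvd_left hd _
    · exact dvd_mul_of_dvd_right hd _
  have hlog : ∀ r, 0 ≤ Real.log (bs r) := fun r => Real.log_natCast_nonneg _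
  obtain ⟨E, hE0, hAPX'⟩ := hAPX (bs 0) (bs 1) s S B B₂ B (hbs 0) (hbs 1) hind hS0 hB hB₂0 hB
  set Λ : ℝ := max (B + 1) ((μ + 1) * E + 1) with hΛ
  refine ⟨Λ, le_max_left _ _, ?_⟩
  intro U T y L N C c₀ m₀ c m hT hy hL hEq hne hm₀ hm
  -- the family of units
  let ι := (Fin 2 × Fin N) ⊕ (Fin 2 × Fin s × Fin N) ⊕ Fin 2
  let rr : ι → Fin 2 := Sum.elim (fun x => x.1) (Sum.elim (fun x => x.1) (fun x => x))
  let ee : ι → ℕ → ℕ := Sum.elim (fun x => m₀ x.1 x.2)
    (Sum.elim (fun x => m x.1 x.2.1 x.2.2) (fun x => L x))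
  have hee : ∀ x : ι, ∃ D : ℝ, ∀ᶠ n in (U : Filter ℕ),
      (ee x n : ℝ) * Real.log (bs (rr x)) ≤ D * T n := by
    rintro (⟨r, t⟩ | ⟨r, i, t⟩ | r)
    · exact ⟨B, hm₀ r t⟩
    · refine ⟨C * Real.log (bs r), ?_⟩
      filter_upwards [hm r i t] with n hn
      have := mul_le_mul_of_nonneg_right hn (hlog r)
      calc (m r i t n : ℝ) * Real.log (bs r) ≤ C * T n * Real.log (bs r) := this
        _ = C * Real.log (bs r) * T n := by ring
    · refine ⟨Λ + B, ?_⟩
      filter_upwards [hL r] with n hn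
      have := (abs_le.1 hn).2
      change (L r n : ℝ) * Real.log (bs r) ≤ _
      linarith
  choose Dc hDc using hee
  let eqv := Fintype.equivFin ι
  obtain ⟨r, g, hg1, hg2, hg3⟩ := hBAS U (Fintype.card ι)
    (fun q n => (bs (rr (eqv.symm q)) : ℚ) ^ ee (eqv.symm q) n)
    (fun q n => by
      have : (0 : ℚ) < bs (rr (eqv.symm q)) := by exact_mod_cast hbs0 (rr (eqv.symm q))
      exact pow_pos this _)
  have hg3' : ∀ x : ι, ∃ (κ : ℚ) (e : Fin r → ℤ), 0 < κ ∧
      ∀ᶠ n in (U : Filter ℕ), (bs (rr x) : ℚ) ^ ee x n = κ * ∏ i, g i n ^ e i := by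
    intro x
    have := hg3 (eqv x)
    simpa only [Equiv.symm_apply_apply] using this
  have hGd : Gd U S T g := by
    refine ⟨hPS, hT, ?_, hg2, ?_⟩
    · intro i n
      obtain ⟨e, he⟩ := hg1 i
      rw [he n]
      refine isU_prod hPS _ _ fun q _ => ?_
      exact (isU_nat_pow hPS (hbs0 _) (hSb _) _).zpow hPS _
    · choose e he using hg1
      refine ⟨∑ i, |∑ q, ((e i q).natAbs : ℝ) * Dc (eqv.symm q)|, ?_⟩
      have hall : ∀ᶠ n in (U : Filter ℕ), ∀ x : ι,
          (ee x n : ℝ) * Real.log (bs (rr x)) ≤ Dc x * T n := by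
        rw [eventually_all]
        exact hDc
      filter_upwards [hall, ev_pos hT] with n hn hTn i v hv
      have hv' := place_of_mem hPS hv
      rw [he i n, av_prod hv']
      have h1 : ∏ q, av v (((bs (rr (eqv.symm q)) : ℚ) ^ ee (eqv.symm q) n) ^ e i q) ≤
          ∏ q, Real.exp (((e i q).natAbs : ℝ) * (Dc (eqv.symm q) * T n)) := by
        refine Finset.prod_le_prod (fun q _ => av_nonneg _ _) fun q _ => ?_
        have h0 := av_zpow_le hv' (hbs (rr (eqv.symm q))) (ee (eqv.symm q) n) (e i q)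
        push_cast at h0
        refine h0.trans (Real.exp_le_exp.2 ?_)
        exact mul_le_mul_of_nonneg_left (hn _) (Nat.cast_nonneg _)
      refine h1.trans ?_
      rw [← Real.exp_sum]
      apply Real.exp_le_exp.2
      have h2 : ∑ q, ((e i q).natAbs : ℝ) * (Dc (eqv.symm q) * T n) =
          (∑ q, ((e i q).natAbs : ℝ) * Dc (eqv.symm q)) * T n := by
        rw [Finset.sum_mul]
        exact Finset.sum_congr rfl fun q _ => by ring
      rw [h2]
      apply mul_le_mul_of_nonneg_right _ hTn.le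
      refine (le_abs_self _).trans ?_
      exact Finset.single_le_sum
        (f := fun i => |∑ q, ((e i q).natAbs : ℝ) * Dc (eqv.symm q)|)
        (fun i _ => abs_nonneg _) (Finset.mem_univ i)
  -- the first descriptions
  have hD1 : ∀ q : Fin 2,
      Dsc U S T g (bs q) y (fun n => ⌊ξ * (bs q : ℝ) ^ L q n⌋) (B + 1) := by
    intro q
    exact hINI U S T r s N (bs q) g y _ (c₀ q) (m₀ q) (c q) (m q) B hGd (hbs q)
      (fun t => hg3' (Sum.inl (q, t))) (fun i t => hg3' (Sum.inr (Sum.inl (q, i, t))))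
      (hEq q) (hne q) hB (hm₀ q)
  obtain ⟨d', Z', hd', hZ', hind', hD2⟩ := hELM U S T r s (Fin 2) g bs y
    (fun q n => ⌊ξ * (bs q : ℝ) ^ L q n⌋) B (B + 1) hGd hB hy hD1
  -- the approximation
  obtain ⟨X, Q, hXQ⟩ := hAPX' U T r d' g Z' ξ Λ (L 0) (L 1) hGd hd' hZ' hind' (hD2 0) (hD2 1)
    (hg3' (Sum.inr (Sum.inr 0))) (hg3' (Sum.inr (Sum.inr 1))) (hL 0) (hL 1)
  obtain ⟨c', hc', hm'⟩ := hmeas
  obtain ⟨n, ⟨h1, h2, h3⟩, h4, h5⟩ :=
    (hXQ.and ((ev_pos hT).and (ev_ge hT (-Real.log c' + 1)))).exists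
  have h6 := hm' (Q n) (X n) h1
  have h7 : |ξ - X n / Q n| * (Q n : ℝ) ^ μ ≤ Real.exp (-T n) := by
    calc |ξ - X n / Q n| * (Q n : ℝ) ^ μ
        ≤ Real.exp ((E - Λ) * T n) * (Real.exp (E * T n)) ^ μ :=
          mul_le_mul h3 (pow_le_pow_left₀ (Nat.cast_nonneg _) h2 _) (by positivity)
            (Real.exp_pos _).le
      _ = Real.exp ((E - Λ) * T n + μ * (E * T n)) := by
          rw [← Real.exp_nat_mul, Real.exp_add]
      _ ≤ Real.exp (-T n) := by
          apply Real.exp_le_exp.2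
          have h8 : (μ + 1) * E + 1 ≤ Λ := le_max_right _ _
          have h9 : ((μ + 1) * E + 1) * T n ≤ Λ * T n := mul_le_mul_of_nonneg_right h8 h4.le
          linarith
  have h8 : c' ≤ Real.exp (-T n) := h6.trans h7
  have h9 : Real.log c' ≤ -T n := by
    rw [← Real.log_exp (-T n)]
    exact Real.log_le_log hc' h8
  linarith

end Pool.Agent.SBT
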