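import Pool.Agent.SBT.Api
import Pool.Agent.SBT.StmtsD

/-!
# EL1: elimination of one integer
-/

set_option autoImplicit false

namespace Pool.Agent.SBT

open Filter

namespace EL1

/-- minimum of a natural-valued function -/
theorem exists_min {α : Type*} (f : α → ℕ) (P : α → Prop) (h : ∃ a, P a) :
    ∃ a, P a ∧ ∀ b, P b → f a ≤ f b := by
  classical
  have h' : ∃ k, ∃ a, P a ∧ f a = k := by
    obtain ⟨a, ha⟩ := h
    exact ⟨f a, a, ha, rfl⟩
  obtain ⟨a, ha, hk⟩ := Nat.find_spec h'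
  refine ⟨a, ha, fun b hb => ?_⟩
  rw [hk]
  exact Nat.find_min' h' ⟨b, hb, rfl⟩

theorem ev_mul {r : ℕ} (g : Fin r → ℕ → ℚ) (n : ℕ) (P Q : MvPolynomial (Fin r) ℚ) :
    ev g n (P * Q) = ev g n P * ev g n Q := by simp [ev]

theorem ev_sub {r : ℕ} (g : Fin r → ℕ → ℚ) (n : ℕ) (P Q : MvPolynomial (Fin r) ℚ) :
    ev g n (P - Q) = ev g n P - ev g n Q := by simp [ev]

theorem ev_zero {r : ℕ} (g : Fin r → ℕ → ℚ) (n : ℕ) :
    ev g n (0 : MvPolynomial (Fin r) ℚ) = 0 := by simp [ev]

theorem mon_add {r : ℕ} (g : Fin r → ℕ → ℚ) (a b : Fin r →₀ ℕ) (n : ℕ) :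
    mon g (a + b) n = mon g a n * mon g b n := by
  unfold mon
  rw [← Finset.prod_mul_distrib]
  refine Finset.prod_congr rfl fun i _ => ?_
  rw [Finsupp.add_apply, pow_add]

theorem mem_support_mul {r : ℕ} (P Q : MvPolynomial (Fin r) ℚ) (e : Fin r →₀ ℕ)
    (he : e ∈ (P * Q).support) : ∃ a ∈ P.support, ∃ b ∈ Q.support, a + b = e := by
  classical
  have := MvPolynomial.support_mul P Q he
  exact Finset.mem_add.1 this

/-- the number of nonzero entries -/
noncomputable def nz {r d : ℕ} (H : Fin d → MvPolynomial (Fin r) ℚ) : Finset (Fin d) := by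
  classical exact Finset.univ.filter fun i => H i ≠ 0

theorem mem_nz {r d : ℕ} (H : Fin d → MvPolynomial (Fin r) ℚ) (i : Fin d) :
    i ∈ nz H ↔ H i ≠ 0 := by
  classical
  unfold nz
  simp

/-- relation -/
def Rel (U : Ultrafilter ℕ) {r d : ℕ} (g : Fin r → ℕ → ℚ) (Z : Fin d → ℕ → ℤ)
    (H : Fin d → MvPolynomial (Fin r) ℚ) : Prop :=
  ∀ᶠ n in (U : Filter ℕ), ∑ i, ev g n (H i) * (Z i n : ℚ) = 0

/-- a minimal primitive relation -/
theorem exists_prim (U : Ultrafilter ℕ) {r d : ℕ} (g : Fin r → ℕ → ℚ)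
    (Z : Fin d → ℕ → ℤ)
    (uni : ∀ H : MvPolynomial (Fin r) ℚ, (∀ᶠ n in (U : Filter ℕ), ev g n H = 0) → H = 0)
    (h : ¬ Indp U g Z) :
    ∃ H : Fin d → MvPolynomial (Fin r) ℚ, H ≠ 0 ∧ Rel U g Z H ∧
      (∀ G : Fin d → MvPolynomial (Fin r) ℚ, G ≠ 0 → Rel U g Z G →
        (nz H).card ≤ (nz G).card) ∧
      ∀ A, (∀ i, A ∣ H i) → IsUnit A := by
  classical
  unfold Indp at h
  push Not at h
  obtain ⟨H₀, h1, h2⟩ := h
  obtain ⟨H₁, ⟨h3, h4⟩, h5⟩ := exists_min
    (fun H : Fin d → MvPolynomial (Fin r) ℚ => (nz H).card)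
    (fun H => H ≠ 0 ∧ Rel U g Z H) ⟨H₀, h2, h1⟩
  obtain ⟨H, ⟨h6, h7, h8⟩, h9⟩ := exists_min
    (fun H : Fin d → MvPolynomial (Fin r) ℚ => ∑ i, (H i).totalDegree)
    (fun H => H ≠ 0 ∧ Rel U g Z H ∧ (nz H).card = (nz H₁).card) ⟨H₁, h3, h4, rfl⟩
  refine ⟨H, h6, h7, ?_, ?_⟩
  · intro G hG hG2
    rw [h8]
    exact h5 G ⟨hG, hG2⟩
  · intro A hA
    choose G hG using hA
    obtain ⟨i₀, hi₀⟩ : ∃ i, H i ≠ 0 := by
      by_contra hc
      push Not at hc
      exact h6 (funext hc)
    have hA0 : A ≠ 0 := by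
      rintro rfl
      exact hi₀ (by rw [hG i₀, zero_mul])
    have hGi : ∀ i, G i = 0 ↔ H i = 0 := by
      intro i
      rw [hG i]
      simp [hA0]
    have e1 : G ≠ 0 := by
      intro hc
      exact hi₀ ((hGi i₀).1 (congrFun hc i₀))
    have e2 : Rel U g Z G := by
      have hA1 : ∀ᶠ n in (U : Filter ℕ), ¬ ev g n A = 0 := by
        rw [Ultrafilter.eventually_not]
        intro hc
        exact hA0 (uni A hc)
      filter_upwards [h7, hA1] with n hn hn1
      have h10 : ev g n A * ∑ i, ev g n (G i) * (Z i n : ℚ) = 0 := by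
        rw [Finset.mul_sum, ← hn]
        refine Finset.sum_congr rfl fun i _ => ?_
        rw [hG i, ev_mul]
        ring
      exact (mul_eq_zero.1 h10).resolve_left hn1
    have e3 : (nz G).card = (nz H₁).card := by
      rw [← h8]
      congr 1
      ext i
      rw [mem_nz, mem_nz, ne_eq, ne_eq, hGi i]
    have e4 := h9 G ⟨e1, e2, e3⟩
    have e5 : ∀ i, (G i).totalDegree ≤ (H i).totalDegree := by
      intro i
      by_cases hi : G i = 0
      · rw [hi]; simp
      · rw [hG i, MvPolynomial.totalDegree_mul_of_isDomain hA0 hi]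
        omega
    have e6 : (H i₀).totalDegree ≤ (G i₀).totalDegree := by
      by_contra hc
      push Not at hc
      have := Finset.sum_lt_sum (fun i (_ : i ∈ Finset.univ) => e5 i)
        ⟨i₀, Finset.mem_univ _, hc⟩
      exact absurd this (not_lt.2 e4)
    have hGi₀ : G i₀ ≠ 0 := fun hc => hi₀ ((hGi i₀).1 hc)
    have e7 : A.totalDegree = 0 := by
      have := MvPolynomial.totalDegree_mul_of_isDomain hA0 hGi₀
      rw [← hG i₀] at this
      omega
    have e8 := MvPolynomial.totalDegree_eq_zero_iff_eq_C.1 e7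
    rw [e8]
    have e9 : MvPolynomial.coeff 0 A ≠ 0 := by
      intro hc
      rw [hc, map_zero] at e8
      exact hA0 e8
    exact (isUnit_iff_ne_zero.2 e9).map MvPolynomial.C

/-- the height of a minimal primitive relation -/
theorem height (s1t : Stmt_S1T) (U : Ultrafilter ℕ) (S : Finset ℕ) (T : ℕ → ℝ) {r d : ℕ}
    (g : Fin r → ℕ → ℚ) (Z : Fin d → ℕ → ℤ) (B : ℝ) (hGd : Gd U S T g) (hB : 0 ≤ B)
    (hZ : ∀ᶠ n in (U : Filter ℕ), ∀ i, |(Z i n : ℝ)| ≤ Real.exp (B * T n))
    (H : Fin d → MvPolynomial (Fin r) ℚ) (hR : Rel U g Z H)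
    (hmin : ∀ G : Fin d → MvPolynomial (Fin r) ℚ, G ≠ 0 → Rel U g Z G →
      (nz H).card ≤ (nz G).card)
    (hprim : ∀ A, (∀ i, A ∣ H i) → IsUnit A)
    (e : ℕ → (Fin r →₀ ℕ)) (he : ∀ v ∈ pl S, ∃ i, e v ∈ (H i).support) :
    ∀ᶠ n in (U : Filter ℕ),
      ∏ v ∈ pl S, av v (mon g (e v) n) ≤ Real.exp ((d * B + 1) * T n) := by
  classical
  set k := (nz H).card with hk
  let φ : Fin k ↪o Fin d := (nz H).orderEmbOfFin hk.symm
  have hφ1 : ∀ i, φ i ∈ nz H := fun i => Finset.orderEmbOfFin_mem _ _ i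
  have hφ2 : ∀ j ∈ nz H, ∃ i, φ i = j := by
    intro j hj
    have : j ∈ Set.range φ := by
      rw [Finset.range_orderEmbOfFin]
      exact hj
    exact this
  have hsum : ∀ f : Fin d → ℚ, (∀ j, j ∉ nz H → f j = 0) → ∑ i, f (φ i) = ∑ j, f j := by
    intro f hf
    rw [← Finset.sum_subset (Finset.subset_univ (nz H)) fun j _ hj => hf j hj]
    refine Finset.sum_bij (fun i _ => φ i) (fun i _ => hφ1 i)
      (fun i _ j _ h => φ.injective h) (fun j hj => ?_) fun i _ => rfl
    obtain ⟨i, hi⟩ := hφ2 j hj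
    exact ⟨i, Finset.mem_univ _, hi⟩
  have key := s1t U S T r k g (fun i => Z (φ i)) B 1 (fun i => H (φ i)) hGd hB one_pos
    (hZ.mono fun n hn i => hn _) ?_ ?_ ?_ e ?_
  · filter_upwards [key, ev_pos hGd.lim] with n hn hT
    refine hn.trans (Real.exp_le_exp.2 ?_)
    have hkd : (k : ℝ) ≤ d := by
      have : k ≤ d := by
        have := Finset.card_le_univ (nz H)
        simpa using this
      exact_mod_cast this
    apply mul_le_mul_of_nonneg_right _ hT.le
    have := mul_le_mul_of_nonneg_right hkd hB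
    linarith
  · -- the relation
    filter_upwards [hR] with n hn
    rw [← hn]
    refine hsum (fun j => ev g n (H j) * (Z j n : ℚ)) fun j hj => ?_
    rw [mem_nz, not_not] at hj
    simp [hj, ev_zero]
  · -- primitive
    intro A hA
    apply hprim
    intro j
    by_cases hj : j ∈ nz H
    · obtain ⟨i, rfl⟩ := hφ2 j hj
      exact hA i
    · rw [mem_nz, not_not] at hj
      rw [hj]
      exact dvd_zero A
  · -- rank one
    intro G hG i₀ j₀
    let G' : Fin d → MvPolynomial (Fin r) ℚ := fun j => ∑ i, if φ i = j then G i else 0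
    have hG'1 : ∀ i, G' (φ i) = G i := by
      intro i
      change (∑ l, if φ l = φ i then G l else 0) = G i
      rw [Finset.sum_eq_single i]
      · simp
      · intro l _ hl
        rw [if_neg]
        intro hc
        exact hl (φ.injective hc)
      · intro hc
        exact absurd (Finset.mem_univ i) hc
    have hG'2 : ∀ j, j ∉ nz H → G' j = 0 := by
      intro j hj
      refine Finset.sum_eq_zero fun i _ => ?_
      rw [if_neg]
      rintro rfl
      exact hj (hφ1 i)
    let K : Fin d → MvPolynomial (Fin r) ℚ := fun l => G i₀ * H l - H (φ i₀) * G' l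
    have hK1 : Rel U g Z K := by
      filter_upwards [hR, hG] with n hn1 hn2
      have e1 : ∑ l, ev g n (G' l) * (Z l n : ℚ) = 0 := by
        rw [← hn2, ← hsum]
        · refine Finset.sum_congr rfl fun i _ => ?_
          rw [hG'1]
        · intro j hj
          rw [hG'2 j hj, ev_zero, zero_mul]
      have e2 : ∑ l, ev g n (K l) * (Z l n : ℚ) =
          ev g n (G i₀) * (∑ l, ev g n (H l) * (Z l n : ℚ)) -
            ev g n (H (φ i₀)) * ∑ l, ev g n (G' l) * (Z l n : ℚ) := by
        rw [Finset.mul_sum, Finset.mul_sum, ← Finset.sum_sub_distrib]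
        refine Finset.sum_congr rfl fun l _ => ?_
        change ev g n (G i₀ * H l - H (φ i₀) * G' l) * (Z l n : ℚ) = _
        rw [ev_sub, ev_mul, ev_mul]
        ring
      rw [e2, hn1, e1, mul_zero, mul_zero, sub_zero]
    have hK2 : K = 0 := by
      by_contra hc
      have h1 := hmin K hc hK1
      have h2 : nz K ⊆ (nz H).erase (φ i₀) := by
        intro l hl
        rw [mem_nz] at hl
        rw [Finset.mem_erase]
        constructor
        · rintro rfl
          apply hl
          change G i₀ * H (φ i₀) - H (φ i₀) * G' (φ i₀) = 0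
          rw [hG'1]
          ring
        · by_contra hl2
          apply hl
          change G i₀ * H l - H (φ i₀) * G' l = 0
          rw [hG'2 l hl2]
          rw [mem_nz, not_not] at hl2
          rw [hl2]
          ring
      have h3 := Finset.card_le_card h2
      have h4 := Finset.card_erase_lt_of_mem (hφ1 i₀)
      omega
    have h5 := congrFun hK2 (φ j₀)
    change G i₀ * H (φ j₀) - H (φ i₀) * G' (φ j₀) = 0 at h5
    rw [hG'1] at h5
    change G i₀ * H (φ j₀) = G j₀ * H (φ i₀)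
    linear_combination h5
  · intro v hv
    obtain ⟨j, hj⟩ := he v hv
    have : j ∈ nz H := by
      rw [mem_nz]
      intro hc
      rw [hc] at hj
      simp at hj
    obtain ⟨i, rfl⟩ := hφ2 j this
    exact ⟨i, hj⟩

end EL1

open EL1 in
theorem el1_proof (uniH : Stmt_UNI) (s1t : Stmt_S1T) : Stmt_EL1 := by
  classical
  intro U S T r d ι g bs Z R B B₀ hGd hB hZ hI hD
  have hS := hGd.prime
  have uni : ∀ H : MvPolynomial (Fin r) ℚ, (∀ᶠ n in (U : Filter ℕ), ev g n H = 0) → H = 0 :=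
    uniH U S r g hS hGd.unit hGd.ind
  obtain ⟨H, hH0, hR, hmin, hprim⟩ := exists_prim U g Z uni hI
  obtain ⟨j₀, hj₀⟩ : ∃ i, H i ≠ 0 := by
    by_contra hc
    push Not at hc
    exact hH0 (funext hc)
  have hht := height s1t U S T g Z B hGd hB hZ H hR hmin hprim
  -- the unit of the relation
  obtain ⟨e₁, he₁⟩ : ∃ e, e ∈ (H j₀).support :=
    Finset.nonempty_iff_ne_empty.2 (fun hc => hj₀ (MvPolynomial.support_eq_empty.1 hc))
  let μ : ℕ → ℚ := fun n => mon g e₁ n
  have hμ1 : ∀ n, IsU S (μ n) := fun n =>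
    isU_prod hS _ _ fun i _ => (hGd.unit i n).pow hS _
  -- the bound at all places
  have hall : ∀ i, ∀ e ∈ (H i).support, ∀ᶠ n in (U : Filter ℕ), ∀ v ∈ pl S,
      av v (mon g e n) ≤ Real.exp (((d + 1 : ℕ) * B + 1) * T n) * av v (μ n) := by
    intro i e he
    rw [Filter.eventually_all_finset]
    intro v hv
    have h1 := hht (fun w => if w = v then e else e₁) (by
      intro w hw
      by_cases hwv : w = v
      · simp only [hwv, if_true]
        exact ⟨i, he⟩
      · simp only [hwv, if_false]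
        exact ⟨j₀, he₁⟩)
    filter_upwards [h1] with n hn1
    have h2 := (hμ1 n).2
    rw [← Finset.mul_prod_erase _ _ hv] at hn1 h2
    rw [if_pos rfl] at hn1
    have h3 : ∏ w ∈ (pl S).erase v, av w (mon g (if w = v then e else e₁) n) =
        ∏ w ∈ (pl S).erase v, av w (μ n) := by
      refine Finset.prod_congr rfl fun w hw => ?_
      rw [if_neg (Finset.ne_of_mem_erase hw)]
    rw [h3] at hn1
    have h5 : 0 ≤ av v (μ n) := av_nonneg _ _
    calc av v (mon g e n) =
          av v (mon g e n) * (∏ w ∈ (pl S).erase v, av w (μ n)) * av v (μ n) := by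
          rw [mul_assoc, mul_comm (∏ w ∈ (pl S).erase v, av w (μ n)), h2, mul_one]
      _ ≤ _ := mul_le_mul_of_nonneg_right hn1 h5
  refine ⟨fun i => Z (j₀.succAbove i), fun i => ⟨_, rfl⟩, ?_⟩
  intro t
  obtain ⟨P₀, P, ν, hP₀, hν, hrel, hb1, hb2⟩ := hD t
  have hexp : ∀ n, (B₀ + (d + 1) * B + 1) * T n =
      B₀ * T n + ((d + 1 : ℕ) * B + 1) * T n := by
    intro n
    push_cast
    ring
  have hprod : ∀ i j, ∀ e ∈ (P i * H j).support, ∃ m : ℕ → ℕ,
      ∀ᶠ n in (U : Filter ℕ), ∀ v ∈ pl S, av v (mon g e n) ≤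
        Real.exp ((B₀ + (d + 1) * B + 1) * T n) * av v ((bs t : ℚ) ^ m n * (ν n * μ n)) := by
    intro i j e he
    obtain ⟨a, ha, b, hb, rfl⟩ := mem_support_mul _ _ _ he
    obtain ⟨m, hm⟩ := hb2 i a ha
    refine ⟨m, ?_⟩
    filter_upwards [hm, hall j b hb] with n hn1 hn2 v hv
    have hpp := place_of_mem hS hv
    rw [mon_add, av_mul hpp, ← mul_assoc ((bs t : ℚ) ^ m n), av_mul hpp _ (μ n)]
    calc av v (mon g a n) * av v (mon g b n)
        ≤ (Real.exp (B₀ * T n) * av v ((bs t : ℚ) ^ m n * ν n)) *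
          (Real.exp (((d + 1 : ℕ) * B + 1) * T n) * av v (μ n)) :=
          mul_le_mul (hn1 v hv) (hn2 v hv) (av_nonneg _ _)
            (mul_nonneg (Real.exp_pos _).le (av_nonneg _ _))
      _ = Real.exp ((B₀ + (d + 1) * B + 1) * T n) *
          (av v ((bs t : ℚ) ^ m n * ν n) * av v (μ n)) := by
          rw [hexp, Real.exp_add]
          ring
  refine ⟨P₀ * H j₀, fun i => P (j₀.succAbove i) * H j₀ - P j₀ * H (j₀.succAbove i),
    fun n => ν n * μ n, mul_ne_zero hP₀ hj₀, fun n => (hν n).mul hS (hμ1 n), ?_, ?_, ?_⟩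
  · filter_upwards [hrel, hR] with n hn1 hn2
    rw [Fin.sum_univ_succAbove _ j₀] at hn1 hn2
    have e1 : ∑ i, ev g n (P (j₀.succAbove i) * H j₀ - P j₀ * H (j₀.succAbove i)) *
        (Z (j₀.succAbove i) n : ℚ) =
        ev g n (H j₀) * (∑ i, ev g n (P (j₀.succAbove i)) * (Z (j₀.succAbove i) n : ℚ)) -
          ev g n (P j₀) * ∑ i, ev g n (H (j₀.succAbove i)) * (Z (j₀.succAbove i) n : ℚ) := by
      rw [Finset.mul_sum, Finset.mul_sum, ← Finset.sum_sub_distrib]
      refine Finset.sum_congr rfl fun i _ => ?_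
      rw [ev_sub, ev_mul, ev_mul]
      ring
    rw [e1, ev_mul]
    linear_combination (ev g n (H j₀)) * hn1 + (ev g n (P j₀)) * hn2
  · intro e he
    obtain ⟨a, ha, b, hb, rfl⟩ := mem_support_mul _ _ _ he
    filter_upwards [hb1 a ha, hall j₀ b hb] with n hn1 hn2 v hv
    have hpp := place_of_mem hS hv
    rw [mon_add, av_mul hpp, av_mul hpp]
    calc av v (mon g a n) * av v (mon g b n)
        ≤ (Real.exp (B₀ * T n) * av v (ν n)) *
          (Real.exp (((d + 1 : ℕ) * B + 1) * T n) * av v (μ n)) :=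
          mul_le_mul (hn1 v hv) (hn2 v hv) (av_nonneg _ _)
            (mul_nonneg (Real.exp_pos _).le (av_nonneg _ _))
      _ = Real.exp ((B₀ + (d + 1) * B + 1) * T n) * (av v (ν n) * av v (μ n)) := by
          rw [hexp, Real.exp_add]
          ring
  · intro i e he
    have := MvPolynomial.support_sub _ _ _ he
    rcases Finset.mem_union.1 this with h | h
    · exact hprod _ _ e h
    · exact hprod _ _ e h

end Pool.Agent.SBT
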