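import Pool.Agent.SBT.StmtsD

/-!
# RTN: returns of special places
-/

set_option autoImplicit false

namespace Pool.Agent.SBT

namespace RTN_

/-- period `p` on `[x, y)` -/
def Pd (u : ℕ → ℕ) (x y p : ℕ) : Prop := ∀ i, x ≤ i → i + p < y → u i = u (i + p)

theorem pd_mul {u : ℕ → ℕ} {x y p : ℕ} (h : Pd u x y p) (c : ℕ) :
    ∀ i, x ≤ i → i + c * p < y → u i = u (i + c * p) := by
  induction c with
  | zero => intro i _ _; simp
  | succ c ih =>
    intro i hi hy
    have e : i + (c + 1) * p = (i + c * p) + p := by ring
    have h1 := ih i hi (by nlinarith)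
    rw [h1, e]
    exact h _ (by nlinarith) (by rw [e] at hy; exact hy)

theorem pd_mod {u : ℕ → ℕ} {x y p : ℕ} (h : Pd u x y p) {i j : ℕ} (hi : x ≤ i) (hiy : i < y)
    (hj : x ≤ j) (hjy : j < y) (hm : i % p = j % p) : u i = u j := by
  rcases Nat.eq_zero_or_pos p with rfl | hp
  · simp only [Nat.mod_zero] at hm
    rw [hm]
  · rcases le_total i j with hij | hij
    · obtain ⟨c, hc⟩ := (Nat.modEq_iff_dvd' hij).1 hm
      have e : j = i + c * p := by
        have : j = i + (j - i) := by omega
        rw [this, hc]; ring
      rw [e]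
      exact pd_mul h c i hi (by rw [← e]; exact hjy)
    · obtain ⟨c, hc⟩ := (Nat.modEq_iff_dvd' hij).1 hm.symm
      have e : i = j + c * p := by
        have : i = j + (i - j) := by omega
        rw [this, hc]; ring
      rw [e]
      exact (pd_mul h c j hj (by rw [← e]; exact hiy)).symm

/-- the key fact -/
theorem key {u : ℕ → ℕ} (hF : Stmt_FWL) {x y t w p m D : ℕ} (hD : 2 * D ≤ m) (ht0 : 1 ≤ t)
    (ht : t ≤ D) (hp0 : 1 ≤ p) (hp : p ≤ D) (h : Pd u x y t) (hxw : x ≤ w)
    (hwy : w + m + 1 ≤ y) (hw : Pd u w (w + m + 1) p) : Pd u x y (Nat.gcd t p) := by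
  have h' : Pd u w (w + m + 1) t := fun i hi hiy => h i (by omega) (by omega)
  have hg := hF u w (w + m + 1) t p ht0 hp0 (by omega) h' hw
  have hgt : Nat.gcd t p ≤ t := Nat.gcd_le_left _ ht0
  intro i hi hiy
  set g := Nat.gcd t p with hgdef
  -- an index in the window
  obtain ⟨i', hi1, hi2, hi3⟩ : ∃ i', w ≤ i' ∧ i' < w + t ∧ i' % t = i % t := by
    refine ⟨w + (i + t * w - w) % t, by omega, ?_, ?_⟩
    · have := Nat.mod_lt (i + t * w - w) ht0
      omega
    · have h1 : w ≤ i + t * w := by nlinarith
      have : (w + (i + t * w - w) % t) % t = (w + (i + t * w - w)) % t := by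
        rw [Nat.add_mod, Nat.mod_mod, ← Nat.add_mod]
      rw [this, Nat.add_sub_cancel' h1]
      exact Nat.add_mul_mod_self_left _ _ _
  have e1 : u i = u i' := pd_mod h hi (by omega) (by omega) (by omega) hi3.symm
  have e2 : u (i + g) = u (i' + g) :=
    pd_mod h (by omega) (by omega) (by omega) (by omega)
      (by rw [Nat.add_mod, ← hi3, ← Nat.add_mod])
  rw [e1, e2]
  exact hg i' hi1 (by omega)

theorem blk_eq {u : ℕ → ℕ} {m i j : ℕ} : blk u m i = blk u m j ↔ ∀ s < m, u (i + s) = u (j + s) := by
  constructor
  · intro h s hs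
    simpa [blk] using congrFun h ⟨s, hs⟩
  · intro h
    funext s
    simpa [blk] using h s s.2

/-- zone -/
theorem zone {u : ℕ → ℕ} {m x x' : ℕ} (hx : x < x') (h : blk u (m + 1) x = blk u (m + 1) x') :
    Pd u x (x' + m + 1) (x' - x) := by
  intro i hi hiy
  have := blk_eq.1 h (i - x) (by omega)
  rw [show x + (i - x) = i by omega, show x' + (i - x) = i + (x' - x) by omega] at this
  exact this

theorem blk_of_pd {u : ℕ → ℕ} {m x y g z : ℕ} (h : Pd u x y g) (hz : x ≤ z)
    (hy : z + g + m < y) : blk u (m + 1) z = blk u (m + 1) (z + g) := by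
  rw [blk_eq]
  intro s hs
  rw [show z + g + s = (z + s) + g by ring]
  exact h _ (by omega) (by omega)

theorem spe_of_blk {u : ℕ → ℕ} {m X i j : ℕ} (h : Spe u m X i) (hj : j < X)
    (hb : blk u (m + 1) i = blk u (m + 1) j) : Spe u m X j := by
  obtain ⟨_, l, hl, h1, h2⟩ := h
  refine ⟨hj, l, hl, ?_, ?_⟩
  · rw [← h1, blk_eq]
    intro s hs
    exact (blk_eq.1 hb s (by omega)).symm
  · rw [← blk_eq.1 hb m (by omega)]
    exact h2

section

variable {u : ℕ → ℕ} {m X K D : ℕ} {β : ℕ → ℕ}

theorem lt_of (hβ : ∀ i j, i < j → j < K → β i < β j) {i j : ℕ} (hi : i < K)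
    (h : β i < β j) : i < j := by
  rcases lt_trichotomy i j with h1 | h1 | h1
  · exact h1
  · subst h1; omega
  · have := hβ j i h1 hi; omega

theorem le_of (hβ : ∀ i j, i < j → j < K → β i < β j) {i j : ℕ} (hj : j < K)
    (h : i ≤ j) : β i ≤ β j := by
  rcases h.lt_or_eq with h1 | h1
  · exact (hβ i j h1 hj).le
  · subst h1; exact le_rfl

/-- if the zone of a first return has a period `g` not larger than the return, then `g` is the
return time -/
theorem ret (hβ : ∀ i j, i < j → j < K → β i < β j)
    (hS : ∀ x, Spe u m X x ↔ ∃ k < K, β k = x) {k k' y g : ℕ} (hkk : k < k') (hk' : k' < K)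
    (hfirst : ∀ j, k < j → j < k' → blk u (m + 1) (β k) ≠ blk u (m + 1) (β j))
    (hy : β k' + m < y) (hg0 : 1 ≤ g) (hg : g ≤ β k' - β k) (hP : Pd u (β k) y g) :
    g = β k' - β k := by
  have hlt := hβ k k' hkk hk'
  have hb : blk u (m + 1) (β k) = blk u (m + 1) (β k + g) :=
    blk_of_pd hP le_rfl (by omega)
  have hsp : Spe u m X (β k) := (hS _).2 ⟨k, by omega, rfl⟩
  have hsp' : Spe u m X (β k') := (hS _).2 ⟨k', hk', rfl⟩
  have h2 : Spe u m X (β k + g) := spe_of_blk hsp (by have := hsp'.1; omega) hb
  obtain ⟨j, hj, hj2⟩ := (hS _).1 h2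
  have h3 : k < j := lt_of hβ (by omega) (by omega)
  rcases Nat.lt_or_ge j k' with h4 | h4
  · exact absurd (by rw [hj2]; exact hb) (hfirst j h3 h4)
  · have := le_of hβ hj h4
    omega

end

end RTN_

open RTN_

theorem rtn_proof (hFWL : Stmt_FWL) (_hDTM : Stmt_DTM) : Stmt_RTN := by
  intro u m X K D β hβ hS hD
  refine ⟨?_, ?_, ?_⟩
  · intro k k' l l' hkk hk' hll hl' tk tl tkl dk dl fk fl
    have hk := hβ k k' hkk hk'
    have hl := hβ l l' hll hl'
    have zk := zone hk tk
    have zl := zone hl tl
    -- the period of the zone of l seen in the window at k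
    have wk : Pd u (β k) (β k + m + 1) (β l' - β l) := by
      intro i hi hiy
      have h1 := blk_eq.1 tkl (i - β k) (by omega)
      have h2 := blk_eq.1 tkl (i - β k + (β l' - β l)) (by omega)
      rw [show β k + (i - β k) = i by omega] at h1
      rw [show β k + (i - β k + (β l' - β l)) = i + (β l' - β l) by omega] at h2
      rw [h1, h2]
      rw [show β l + (i - β k + (β l' - β l)) = β l + (i - β k) + (β l' - β l) by omega]
      exact zl _ (by omega) (by omega)
    have wl : Pd u (β l) (β l + m + 1) (β k' - β k) := by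
      intro i hi hiy
      have h1 := blk_eq.1 tkl (i - β l) (by omega)
      have h2 := blk_eq.1 tkl (i - β l + (β k' - β k)) (by omega)
      rw [show β l + (i - β l) = i by omega] at h1
      rw [show β l + (i - β l + (β k' - β k)) = i + (β k' - β k) by omega] at h2
      rw [← h1, ← h2]
      rw [show β k + (i - β l + (β k' - β k)) = β k + (i - β l) + (β k' - β k) by omega]
      exact zk _ (by omega) (by omega)
    have gk := key hFWL hD (by omega) (by omega) (by omega) (by omega) zk le_rfl
      (by omega) wk
    have gl := key hFWL hD (by omega) (by omega) (by omega) (by omega) zl le_rfl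
      (by omega) wl
    have ek := ret hβ hS hkk hk' fk (by omega) (Nat.gcd_pos_of_pos_left _ (by omega))
      (Nat.gcd_le_left _ (by omega)) gk
    have el := ret hβ hS hll hl' fl (by omega) (Nat.gcd_pos_of_pos_left _ (by omega))
      (Nat.gcd_le_left _ (by omega)) gl
    rw [Nat.gcd_comm] at el
    rw [ek] at el
    omega
  · intro k k' hkk hk' tk dk fk i j hki hij hjk tij
    have hk := hβ k k' hkk hk'
    have zk := zone hk tk
    have hi := le_of hβ (by omega : i < K) hki
    have hj := hβ i j hij (by omega)
    have hj' := hβ j k' hjk hk'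
    have zi := zone hj tij
    have gk := key hFWL hD (by omega) (by omega) (p := β j - β i) (by omega) (by omega) zk hi
      (by omega) (fun a ha ha2 => zi a ha (by omega))
    have ek := ret hβ hS hkk hk' fk (by omega) (Nat.gcd_pos_of_pos_left _ (by omega))
      (Nat.gcd_le_left _ (by omega)) gk
    have := Nat.gcd_le_right (β k' - β k) (n := β j - β i) (by omega)
    omega
  · intro k k' k'' hkk hk'' hkK tk tk'' dk fk
    have hk := hβ k k' hkk (by omega)
    have hkk2 : k < k'' := by omega
    have hk2 := hβ k k'' hkk2 hkK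
    have hle := le_of hβ hkK hk''
    have z2 := zone hk2 tk''
    have z1 := zone hk tk
    have gk := key hFWL hD (by omega) (by omega) (p := β k' - β k) (by omega) (by omega) z2
      le_rfl (by omega) (fun a ha ha2 => z1 a ha (by omega))
    have ek := ret hβ hS hkk (by omega) fk (by omega) (Nat.gcd_pos_of_pos_left _ (by omega))
      (Nat.gcd_le_right _ (by omega)) gk
    rw [ek] at gk
    set q := β k' - β k with hq
    -- the shift
    have main : ∀ l, k ≤ l → l + (k' - k) ≤ k'' → β (l + (k' - k)) = β l + q := by
      intro l hl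
      induction l, hl using Nat.le_induction with
      | base =>
        intro _
        rw [show k + (k' - k) = k' by omega]
        omega
      | succ l hl ih =>
        intro hl2
        have ih' := ih (by omega)
        have h1 := hβ (l + (k' - k)) (l + 1 + (k' - k)) (by omega) (by omega)
        have h2 := le_of hβ hkK hl2
        have h3 := hβ l (l + 1) (by omega) (by omega)
        have h4 := le_of hβ (by omega : l < K) hl
        apply le_antisymm
        · -- β (l+1) + q is special
          have hle2 : β (l + 1) + q ≤ β (l + 1 + (k' - k)) := by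
            have hb : blk u (m + 1) (β (l + 1 + (k' - k)) - q) =
                blk u (m + 1) (β (l + 1 + (k' - k)) - q + q) :=
              blk_of_pd gk (by omega) (by omega)
            rw [show β (l + 1 + (k' - k)) - q + q = β (l + 1 + (k' - k)) by omega] at hb
            have hs : Spe u m X (β (l + 1 + (k' - k))) := (hS _).2 ⟨_, by omega, rfl⟩
            have hs2 := spe_of_blk hs (j := β (l + 1 + (k' - k)) - q)
              (by have := hs.1; omega) hb.symm
            obtain ⟨j, hj, hj2⟩ := (hS _).1 hs2
            have h5 : l < j := lt_of hβ (by omega) (by omega)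
            have := le_of hβ hj (show l + 1 ≤ j by omega)
            omega
          have hb : blk u (m + 1) (β (l + 1)) = blk u (m + 1) (β (l + 1) + q) :=
            blk_of_pd gk (by omega) (by omega)
          have hs : Spe u m X (β (l + 1)) := (hS _).2 ⟨_, by omega, rfl⟩
          have hs3 : Spe u m X (β k'') := (hS _).2 ⟨_, hkK, rfl⟩
          have hs2 := spe_of_blk hs (j := β (l + 1) + q) (by have := hs3.1; omega) hb
          obtain ⟨j, hj, hj2⟩ := (hS _).1 hs2
          have h5 : l + (k' - k) < j := lt_of hβ (by omega) (by omega)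
          have := le_of hβ hj (show l + 1 + (k' - k) ≤ j by omega)
          omega
        · have hb : blk u (m + 1) (β (l + 1 + (k' - k)) - q) =
              blk u (m + 1) (β (l + 1 + (k' - k)) - q + q) :=
            blk_of_pd gk (by omega) (by omega)
          rw [show β (l + 1 + (k' - k)) - q + q = β (l + 1 + (k' - k)) by omega] at hb
          have hs : Spe u m X (β (l + 1 + (k' - k))) := (hS _).2 ⟨_, by omega, rfl⟩
          have hs2 := spe_of_blk hs (j := β (l + 1 + (k' - k)) - q)
            (by have := hs.1; omega) hb.symm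
          obtain ⟨j, hj, hj2⟩ := (hS _).1 hs2
          have h5 : l < j := lt_of hβ (by omega) (by omega)
          have := le_of hβ hj (show l + 1 ≤ j by omega)
          omega
    intro l hl hl2
    have e := main l hl hl2
    rw [e]
    have h2 := le_of hβ hkK hl2
    have h4 := le_of hβ (by omega : l < K) hl
    exact blk_of_pd gk h4 (by omega)

end Pool.Agent.SBT
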