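import Pool.Agent.SBT.StmtsD

/-!
# Squad SBT, module STF: the structure theorem
-/

set_option autoImplicit false

namespace Pool.Agent.SBT

open Filter

namespace STF_

/-- the part of the value which comes from the letters -/
theorem val_dep {a : ℕ} {u : ℕ → ℕ} {P : ℕ → ℤ} (hP : ∀ i, P (i + 1) = a * P i + u i)
    (i j t : ℕ) (h : ∀ l < t, u (i + l) = u (j + l)) :
    P (i + t) - (a : ℤ) ^ t * P i = P (j + t) - (a : ℤ) ^ t * P j := by
  induction t with
  | zero => simp
  | succ t ih =>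
    have h1 := ih (fun l hl => h l (by omega))
    have h2 : P (i + (t + 1)) = a * P (i + t) + u (i + t) := hP (i + t)
    have h3 : P (j + (t + 1)) = a * P (j + t) + u (j + t) := hP (j + t)
    have h4 : u (i + t) = u (j + t) := h t (by omega)
    rw [h2, h3, h4, pow_succ]
    linear_combination (a : ℤ) * h1

theorem val_bd {a : ℕ} {u : ℕ → ℕ} {P : ℕ → ℤ} (hu : ∀ i, u i < a)
    (hP : ∀ i, P (i + 1) = a * P i + u i) (i t : ℕ) :
    0 ≤ P (i + t) - (a : ℤ) ^ t * P i ∧ P (i + t) - (a : ℤ) ^ t * P i + 1 ≤ (a : ℤ) ^ t := by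
  induction t with
  | zero => simp
  | succ t ih =>
    have h2 : P (i + (t + 1)) = a * P (i + t) + u (i + t) := hP (i + t)
    have h3 : ((u (i + t) : ℕ) : ℤ) + 1 ≤ a := by exact_mod_cast hu (i + t)
    have h4 : (0 : ℤ) ≤ (u (i + t) : ℕ) := by positivity
    have h5 : (0 : ℤ) ≤ a := by positivity
    obtain ⟨h6, h7⟩ := ih
    have h8 : P (i + (t + 1)) - (a : ℤ) ^ (t + 1) * P i =
        a * (P (i + t) - (a : ℤ) ^ t * P i) + u (i + t) := by
      rw [h2, pow_succ]; ring
    rw [h8]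
    constructor
    · have := mul_nonneg h5 h6
      linarith
    · have h9 := mul_le_mul_of_nonneg_left h7 h5
      rw [pow_succ]
      nlinarith

/-- padding -/
theorem rep_mono {a N N' M M' : ℕ} {F : ℤ} (hN : N ≤ N') (hM : M ≤ M') (h : Rep a N M F) :
    Rep a N' M' F := by
  obtain ⟨d, rfl⟩ := Nat.exists_eq_add_of_le hN
  obtain ⟨ε, k, h1, h2, h3⟩ := h
  refine ⟨Fin.append ε (fun _ => 0), Fin.append k (fun _ => 0), ?_, ?_, ?_⟩
  · intro t
    refine Fin.addCases (fun i => ?_) (fun i => ?_) t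
    · rw [Fin.append_left]; exact h1 i
    · rw [Fin.append_right]; simp
  · intro t
    refine Fin.addCases (fun i => ?_) (fun i => ?_) t
    · rw [Fin.append_left]; exact (h2 i).trans hM
    · rw [Fin.append_right]; exact Nat.zero_le _
  · rw [Fin.sum_univ_add]
    simp only [Fin.append_left, Fin.append_right, zero_mul, Finset.sum_const_zero, add_zero]
    exact h3

/-- coding of a small set -/
theorem enc_exists {α : Type} (T : Set α) (hT : T.Finite) (E : ℕ) (h : T.ncard ≤ E)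
    (hE : 0 < E) : ∃ enc : α → Fin E, Set.InjOn enc T := by
  classical
  have : Fintype T := hT.fintype
  have h1 : Fintype.card T ≤ Fintype.card (Fin E) := by
    rw [Fintype.card_fin, ← Nat.card_eq_fintype_card, Nat.card_coe_set_eq]
    exact h
  obtain ⟨f⟩ := Function.Embedding.nonempty_of_card_le h1
  refine ⟨fun x => if hx : x ∈ T then f ⟨x, hx⟩ else ⟨0, hE⟩, ?_⟩
  intro x hx y hy hxy
  simp only [dif_pos hx, dif_pos hy] at hxy
  have := f.injective hxy
  exact congrArg Subtype.val this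

/-- enumeration of a bounded set -/
theorem enum_exists (p : ℕ → Prop) (X : ℕ) (hp : ∀ x, p x → x < X) :
    ∃ (K : ℕ) (β : ℕ → ℕ), (∀ i j, i < j → j < K → β i < β j) ∧
      ∀ x, p x ↔ ∃ k < K, β k = x := by
  classical
  have hfin : {x | p x}.Finite := (Set.finite_Iio X).subset (fun x hx => hp x hx)
  refine ⟨hfin.toFinset.card, Nat.nth p, ?_, ?_⟩
  · intro i j hij hj
    exact Nat.nth_lt_nth_of_lt_card hfin hij hj
  · intro x
    constructor
    · intro hx
      obtain ⟨k, hk, hkx⟩ := Nat.exists_lt_card_finite_nth_eq hfin hx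
      exact ⟨k, hk, hkx⟩
    · rintro ⟨k, hk, rfl⟩
      exact Nat.nth_mem_of_lt_card hfin hk

/-- the choice of the length -/
theorem len_exists (f : ℕ → ℕ) (C n : ℕ) (hn : 8 ≤ n) (h : f n ≤ C * n) :
    ∃ m, n ≤ 2 * m ∧ m + 1 ≤ n ∧ f (m + 1) ≤ f m + 3 * C := by
  by_contra hcon
  push Not at hcon
  have h1 : ∀ j, (n + 1) / 2 + j ≤ n → (3 * C + 1) * j ≤ f ((n + 1) / 2 + j) := by
    intro j
    induction j with
    | zero => intro _; simp
    | succ j ih =>
      intro hj
      have h2 := ih (by omega)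
      have h3 := hcon ((n + 1) / 2 + j) (by omega) (by omega)
      rw [← Nat.add_assoc, Nat.mul_add]
      omega
  have h2 := h1 (n / 2) (by omega)
  have h3 : (n + 1) / 2 + n / 2 = n := by omega
  rw [h3] at h2
  have h4 : n ≤ 2 * (n / 2) + 1 := by omega
  have h5 : (3 * C + 1) * (n / 2) ≤ C * n := h2.trans h
  have h6 : 4 ≤ n / 2 := by omega
  nlinarith

theorem nbl_mono (hTYC : Stmt_TYC) {u : ℕ → ℕ} (hu : (Set.range u).Finite) (X m j : ℕ) :
    nbl u m X ≤ nbl u (m + j) X := by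
  induction j with
  | zero => exact le_refl _
  | succ j ih => exact ih.trans (hTYC u (m + j) X hu).1

end STF_

open STF_ in
theorem stf_proof (hTYC : Stmt_TYC) (hDTM : Stmt_DTM) (hSPX : Stmt_SPX) (hRTN : Stmt_RTN)
    (hSTV : Stmt_STV) : Stmt_STF := by
  classical
  intro C
  refine ⟨6 * C + 1 + 1, C + 1, ?_⟩
  intro Λ
  obtain ⟨N₀, hN₀⟩ := hSTV (6 * C + 1 + 1) (6 * Λ)
  refine ⟨N₀ + 3 * (Λ + (6 * C + 1 + 1)), ?_⟩
  intro a n u P ha hn hu hP hnbl
  have hufin : (Set.range u).Finite :=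
    (Set.finite_Iio a).subset (by rintro _ ⟨i, rfl⟩; exact hu i)
  obtain ⟨X, hX⟩ : ∃ X, X = Λ * n := ⟨_, rfl⟩
  rw [← hX] at hnbl ⊢
  -- the length
  obtain ⟨m, hm1, hm2, hm3⟩ := len_exists (fun m => nbl u m X) C n hn hnbl
  have hm4 : nbl u m X ≤ C * n := by
    obtain ⟨d, rfl⟩ := Nat.exists_eq_add_of_le (Nat.le_of_succ_le hm2)
    exact (nbl_mono hTYC hufin X m d).trans hnbl
  -- the enumeration
  obtain ⟨K₁, β, hβ, hSp⟩ := enum_exists (Spe u m X) X (fun x hx => hx.1)
  have hSβ : ∀ k < K₁, Spe u m X (β k) := fun k hk => (hSp _).2 ⟨k, hk, rfl⟩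
  have hβX : ∀ k < K₁, β k < X := fun k hk => (hSβ k hk).1
  have hβm : ∀ i j, i ≤ j → j < K₁ → β i ≤ β j := by
    intro i j hij hj
    rcases Nat.eq_or_lt_of_le hij with h | h
    · rw [h]
    · exact (hβ i j h hj).le
  -- a special place after `β k` is at least `β (k + 1)`
  have hnext : ∀ k, k + 1 < K₁ → ∀ x, β k < x → Spe u m X x → β (k + 1) ≤ x := by
    intro k hk x hx hxs
    obtain ⟨k', hk', rfl⟩ := (hSp x).1 hxs
    apply hβm _ _ _ hk'
    by_contra hlt
    have := hβm k' k (by omega) (by omega)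
    omega
  -- gaps
  have hgap : ∀ k, k + 1 < K₁ → β (k + 1) ≤ β k + 1 + C * n := by
    intro k hk
    by_cases hc : β k + 1 + C * n < X
    · rcases hSPX u m X (β k + 1) (C * n) hm4 hc with ⟨x, hx1, hx2, hx3⟩ | ⟨_, _, _, _, hno⟩
      · exact (hnext k hk x (by omega) hx3).trans hx2
      · exact absurd (hSβ (k + 1) hk) (hno _ (hβ k (k + 1) (by omega) hk))
    · have := hβX (k + 1) hk
      omega
  have hgap0 : 0 < K₁ → β 0 ≤ C * n := by
    intro hK
    by_cases hc : 0 + C * n < X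
    · rcases hSPX u m X 0 (C * n) hm4 hc with ⟨x, hx1, hx2, hx3⟩ | ⟨_, _, _, _, hno⟩
      · obtain ⟨k', hk', rfl⟩ := (hSp x).1 hx3
        have := hβm 0 k' (Nat.zero_le _) hk'
        omega
      · exact absurd (hSβ 0 hK) (hno _ (Nat.zero_le _))
    · have := hβX 0 hK
      omega
  -- the types
  have hTfin : (blk u (m + 1) '' {i | Spe u m X i}).Finite :=
    ((Set.finite_Iio X).subset (fun x hx => hx.1)).image _
  have hTcard : (blk u (m + 1) '' {i | Spe u m X i}).ncard ≤ 6 * C + 1 := by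
    have := (hTYC u m X hufin).2
    omega
  obtain ⟨enc, henc⟩ := enc_exists _ hTfin (6 * C + 1) hTcard (Nat.succ_pos _)
  obtain ⟨ty, hty⟩ : ∃ ty : ℕ → Fin (6 * C + 1), ∀ k, ty k = enc (blk u (m + 1) (β k)) :=
    ⟨_, fun _ => rfl⟩
  have htyiff : ∀ k k', k < K₁ → k' < K₁ →
      (ty k = ty k' ↔ blk u (m + 1) (β k) = blk u (m + 1) (β k')) := by
    intro k k' hk hk'
    rw [hty, hty]
    constructor
    · intro h
      exact henc ⟨β k, hSβ k hk, rfl⟩ ⟨β k', hSβ k' hk', rfl⟩ h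
    · intro h
      rw [h]
  -- the gap depends only on the type
  have hdet1 : ∀ k k', k + 1 < K₁ → k' + 1 < K₁ → ty k = ty k' →
      β (k + 1) + β k' ≤ β (k' + 1) + β k →
      β (k + 1) + β k' = β (k' + 1) + β k ∧
        P (β (k + 1) + m) - (a : ℤ) ^ (β (k + 1) - β k) * P (β k + m) =
        P (β (k' + 1) + m) - (a : ℤ) ^ (β (k' + 1) - β k') * P (β k' + m) := by
    intro k k' hk hk' hkk hle
    have hb := (htyiff k k' (by omega) (by omega)).1 hkk
    have h1 := hβ k (k + 1) (by omega) hk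
    have h2 := hβ k' (k' + 1) (by omega) hk'
    obtain ⟨t, ht⟩ : ∃ t, β (k + 1) = β k + t := ⟨β (k + 1) - β k, by omega⟩
    have hX1 := hβX (k + 1) hk
    have hX2 := hβX (k' + 1) hk'
    obtain ⟨h3, h4⟩ := hDTM u m X (β k) (β k') t (hSβ k (by omega)) (hSβ k' (by omega)) hb
      (by omega) (by omega) (by omega) (by
        intro l hl1 hl2 hl3
        have := hnext k hk (β k + l) (by omega) hl3
        omega)
    have h5 : Spe u m X (β k' + t) := by
      rw [← h4, ← ht]
      exact hSβ (k + 1) hk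
    have h6 := hnext k' hk' (β k' + t) (by omega) h5
    have h7 : β (k' + 1) = β k' + t := by omega
    refine ⟨by omega, ?_⟩
    have h8 := val_dep hP (β k + m) (β k' + m) t (by
      intro l hl
      have := congrFun h3 ⟨m + l, by omega⟩
      simp only [blk] at this
      rw [Nat.add_assoc, Nat.add_assoc]
      exact this)
    rw [ht, h7]
    have e1 : β k + t - β k = t := by omega
    have e2 : β k' + t - β k' = t := by omega
    rw [e1, e2, show β k + t + m = β k + m + t by ring, show β k' + t + m = β k' + m + t by ring]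
    exact h8
  have hdet : ∀ k k', k + 1 < K₁ → k' + 1 < K₁ → ty k = ty k' →
      β (k + 1) + β k' = β (k' + 1) + β k ∧
        P (β (k + 1) + m) - (a : ℤ) ^ (β (k + 1) - β k) * P (β k + m) =
        P (β (k' + 1) + m) - (a : ℤ) ^ (β (k' + 1) - β k') * P (β k' + m) := by
    intro k k' hk hk' hkk
    rcases le_total (β (k + 1) + β k') (β (k' + 1) + β k) with h | h
    · exact hdet1 k k' hk hk' hkk h
    · obtain ⟨h1, h2⟩ := hdet1 k' k hk' hk hkk.symm h
      exact ⟨h1.symm, h2.symm⟩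
  have ha0 : (1 : ℤ) ≤ a := by exact_mod_cast (by omega : 1 ≤ a)
  have hvw : ∀ t : Fin (6 * C + 1), ∃ (v : ℕ) (w : ℤ), 1 ≤ v ∧ |w| ≤ (a : ℤ) ^ ((C + 1) * n) ∧
      ∀ k, k + 1 < K₁ → ty k = t → β (k + 1) = β k + v ∧
        P (β (k + 1) + m) = (a : ℤ) ^ v * P (β k + m) + w := by
    intro t
    by_cases hex : ∃ k, k + 1 < K₁ ∧ ty k = t
    · obtain ⟨k₀, hk₀, hk₀t⟩ := hex
      have h1 := hβ k₀ (k₀ + 1) (by omega) hk₀
      have h2 := hgap k₀ hk₀
      refine ⟨β (k₀ + 1) - β k₀,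
        P (β (k₀ + 1) + m) - (a : ℤ) ^ (β (k₀ + 1) - β k₀) * P (β k₀ + m), by omega, ?_, ?_⟩
      · obtain ⟨v, hv⟩ : ∃ v, β (k₀ + 1) = β k₀ + v := ⟨β (k₀ + 1) - β k₀, by omega⟩
        obtain ⟨h3, h4⟩ := val_bd hu hP (β k₀ + m) v
        rw [hv, show β k₀ + v - β k₀ = v by omega, show β k₀ + v + m = β k₀ + m + v by ring,
          abs_of_nonneg h3]
        have h5 : v ≤ (C + 1) * n := by
          rw [Nat.add_mul]
          omega
        have h6 : (a : ℤ) ^ v ≤ (a : ℤ) ^ ((C + 1) * n) := pow_le_pow_right₀ ha0 h5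
        linarith
      · intro k hk hkt
        obtain ⟨h3, h4⟩ := hdet k k₀ hk hk₀ (hkt.trans hk₀t.symm)
        have h5 := hβ k (k + 1) (by omega) hk
        have h6 : β (k + 1) - β k = β (k₀ + 1) - β k₀ := by omega
        refine ⟨by omega, ?_⟩
        rw [← h4, h6]
        ring
    · push Not at hex
      refine ⟨1, 0, le_refl _, ?_, ?_⟩
      · rw [abs_zero]
        positivity
      · intro k hk hkt
        exact absurd hkt (hex k hk)
  choose len w hlen1 hw hlenw using hvw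
  -- returns
  have hD1 : 2 * (m / 2) ≤ m := by omega
  obtain ⟨D, hD⟩ : ∃ D, D = m / 2 := ⟨_, rfl⟩
  rw [← hD] at hD1
  obtain ⟨hR1, hR2, hR3⟩ := hRTN u m X K₁ D β hβ hSp hD1
  have hqq : ∀ t : Fin (6 * C + 1), ∃ q : ℕ, 1 ≤ q ∧ q ≤ D ∧
      ∀ k k', k < k' → k' < K₁ → ty k = ty k' → ty k = t → β k' ≤ β k + D →
        (∀ j, k < j → j < k' → ty k ≠ ty j) → β k' = β k + q := by
    intro t
    by_cases hex : ∃ k k', k < k' ∧ k' < K₁ ∧ ty k = ty k' ∧ ty k = t ∧ β k' ≤ β k + D ∧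
        (∀ j, k < j → j < k' → ty k ≠ ty j)
    · obtain ⟨l, l', h1, h2, h3, h4, h5, h6⟩ := hex
      have h7 := hβ l l' h1 h2
      refine ⟨β l' - β l, by omega, by omega, ?_⟩
      intro k k' g1 g2 g3 g4 g5 g6
      have := hR1 k k' l l' g1 g2 h1 h2
        ((htyiff k k' (by omega) g2).1 g3) ((htyiff l l' (by omega) h2).1 h3)
        ((htyiff k l (by omega) (by omega)).1 (g4.trans h4.symm)) g5 h5
        (fun j j1 j2 hj => g6 j j1 j2 ((htyiff k j (by omega) (by omega)).2 hj))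
        (fun j j1 j2 hj => h6 j j1 j2 ((htyiff l j (by omega) (by omega)).2 hj))
      omega
    · refine ⟨1, le_refl _, by omega, ?_⟩
      intro k k' g1 g2 g3 g4 g5 g6
      exact absurd ⟨k, k', g1, g2, g3, g4, g5, g6⟩ hex
  choose q hq1 hqD hq using hqq
  -- the first value
  have hP0 : ∀ t, |P t| ≤ (|P 0| + 1) * (a : ℤ) ^ t := by
    intro t
    obtain ⟨h1, h2⟩ := val_bd hu hP 0 t
    rw [Nat.zero_add] at h1 h2
    have h3 : (0 : ℤ) ≤ (a : ℤ) ^ t := by positivity
    have h4 : |P t| ≤ |(a : ℤ) ^ t * P 0| + |P t - (a : ℤ) ^ t * P 0| := by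
      have := abs_add_le ((a : ℤ) ^ t * P 0) (P t - (a : ℤ) ^ t * P 0)
      simpa using this
    rw [abs_mul, abs_of_nonneg h3, abs_of_nonneg h1] at h4
    nlinarith
  have hpw : ∀ i j : ℕ, i ≤ j → (a : ℤ) ^ i ≤ (a : ℤ) ^ j := fun i j hij =>
    pow_le_pow_right₀ ha0 hij
  have hy0 : ∃ y₀ : ℤ, |y₀| ≤ (|P 0| + 1) * (a : ℤ) ^ ((C + 1) * n) ∧
      (0 < K₁ → y₀ = P (β 0 + m)) := by
    by_cases hK : 0 < K₁
    · refine ⟨P (β 0 + m), (hP0 _).trans ?_, fun _ => rfl⟩
      apply mul_le_mul_of_nonneg_left _ (by positivity)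
      apply hpw
      have := hgap0 hK
      rw [Nat.add_mul]
      omega
    · exact ⟨0, by rw [abs_zero]; positivity, fun h => absurd h hK⟩
  obtain ⟨y₀, hy₀, hy₀'⟩ := hy0
  refine ⟨m, Fin.cons 1 q, Fin.cons y₀ w, hm1, by omega, ?_, ?_, ?_, ?_⟩
  · intro i
    refine Fin.cases ?_ (fun i => ?_) i
    · rw [Fin.cons_zero]
      omega
    · rw [Fin.cons_succ]
      exact ⟨hq1 i, (hqD i).trans (by omega)⟩
  · intro i
    refine Fin.cases ?_ (fun i => ?_) i
    · rw [Fin.cons_zero]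
      exact hy₀
    · rw [Fin.cons_succ]
      refine (hw i).trans ?_
      have h1 : (0 : ℤ) ≤ (a : ℤ) ^ ((C + 1) * n) := by positivity
      have h2 : (0 : ℤ) ≤ |P 0| := abs_nonneg _
      nlinarith
  · intro x hx
    obtain ⟨K, hK, rfl⟩ := (hSp x).1 hx
    have hy : y₀ = P (β 0 + m) := hy₀' (by omega)
    obtain ⟨F₀, F, hF₀, hF, hFeq⟩ := hN₀ a D X K (X + (6 * C + 1 + 1) * D) (fun k => (ty k).succ) β
      (Fin.cons 0 w) (Fin.cons 1 len) (Fin.cons 1 q) (fun l => P (β l + m)) ha (by omega)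
      (by
        have h1 : n ≤ 6 * D := by omega
        have h2 := Nat.mul_le_mul_left Λ h1
        rw [hX]
        calc Λ * n ≤ Λ * (6 * D) := h2
          _ = 6 * Λ * D := by ring)
      (by
        intro i
        refine Fin.cases ?_ (fun i => ?_) i
        · rw [Fin.cons_zero]
          omega
        · rw [Fin.cons_succ]
          exact ⟨hq1 i, hqD i⟩)
      (by
        intro l hl
        rw [Fin.cons_succ]
        exact (hlenw (ty l) l (by omega) rfl).1)
      (by
        intro l hl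
        rw [Fin.cons_succ]
        exact hlen1 _)
      (hβX K hK) (le_refl _)
      (by
        intro l hl
        rw [Fin.cons_succ, Fin.cons_succ]
        exact (hlenw (ty l) l (by omega) rfl).2)
      (by
        intro k k' h1 h2 h3 h4 h5
        have h3' : ty k = ty k' := Fin.succ_injective _ h3
        have h5' : ∀ j, k < j → j < k' → ty k ≠ ty j := fun j j1 j2 hj =>
          h5 j j1 j2 (congrArg Fin.succ hj)
        refine ⟨?_, ?_⟩
        · rw [Fin.cons_succ]
          exact hq (ty k) k k' h1 (by omega) h3' rfl h4 h5'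
        · intro i j i1 i2 i3 hij
          refine hR2 k k' h1 (by omega) ((htyiff k k' (by omega) (by omega)).1 h3') h4
            (fun j j1 j2 hj => h5' j j1 j2 ((htyiff k j (by omega) (by omega)).2 hj))
            i j i1 i2 i3 ((htyiff i j (by omega) (by omega)).1 (Fin.succ_injective _ hij)))
      (by
        intro k k' k'' h1 h2 h3 h4 h5 h6 h7 l h8 h9
        refine congrArg Fin.succ ((htyiff l (l + (k' - k)) (by omega) (by omega)).2 ?_)
        exact hR3 k k' k'' h1 h2 (by omega)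
          ((htyiff k k' (by omega) (by omega)).1 (Fin.succ_injective _ h4))
          ((htyiff k k'' (by omega) (by omega)).1 (Fin.succ_injective _ h5)) h6
          (fun j j1 j2 hj => h7 j j1 j2
            (congrArg Fin.succ ((htyiff k j (by omega) (by omega)).2 hj))) l h8 h9)
    have hMM : 3 * (X + (6 * C + 1 + 1) * D) ≤ (N₀ + 3 * (Λ + (6 * C + 1 + 1))) * n := by
      have h1 : D ≤ n := by omega
      have h2 := Nat.mul_le_mul_left (6 * C + 1 + 1) h1
      calc 3 * (X + (6 * C + 1 + 1) * D) ≤ 3 * (Λ * n + (6 * C + 1 + 1) * n) := by omega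
        _ ≤ N₀ * n + 3 * (Λ * n + (6 * C + 1 + 1) * n) := Nat.le_add_left _ _
        _ = (N₀ + 3 * (Λ + (6 * C + 1 + 1))) * n := by ring
    refine ⟨Fin.cons F₀ (fun i => F i.succ), ?_, ?_⟩
    · intro i
      refine Fin.cases ?_ (fun i => ?_) i
      · rw [Fin.cons_zero]
        exact rep_mono (by omega) hMM hF₀
      · rw [Fin.cons_succ]
        exact rep_mono (by omega) hMM (hF _)
    · have e1 : ∑ i, F i * (Fin.cons 0 w : Fin (6 * C + 1 + 1) → ℤ) i =
          ∑ i : Fin (6 * C + 1), F i.succ * w i := by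
        rw [Fin.sum_univ_succ]
        simp only [Fin.cons_zero, Fin.cons_succ, mul_zero, zero_add]
      have e2 : ∑ i, (Fin.cons F₀ (fun i => F i.succ) : Fin (6 * C + 1 + 1) → ℤ) i *
          (Fin.cons y₀ w : Fin (6 * C + 1 + 1) → ℤ) i =
          F₀ * y₀ + ∑ i : Fin (6 * C + 1), F i.succ * w i := by
        rw [Fin.sum_univ_succ]
        simp only [Fin.cons_zero, Fin.cons_succ]
      rw [hFeq, e1, e2, hy]
  · intro z hz
    rcases hSPX u m X z (C * n) hm4 (by rw [Nat.add_mul] at hz; omega) with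
      ⟨x, hx1, hx2, hx3⟩ | ⟨per, hp1, hp2, hp3, _⟩
    · exact Or.inl ⟨x, hx1, hx2.trans (by rw [Nat.add_mul]; omega), hx3⟩
    · refine Or.inr ⟨per, hp1, hp2.trans (by rw [Nat.add_mul]; omega), ?_⟩
      intro i hi1 hi2
      exact hp3 i (le_trans (by rw [Nat.add_mul]; omega) hi1) (by omega)

end Pool.Agent.SBT
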