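import Pool.Agent.SBT.Api
import Pool.Agent.SBT.StmtsG

set_option autoImplicit false

namespace Pool.Agent.SBT

open Filter

namespace APG_

theorem ev_eq {r : ℕ} (g : Fin r → ℕ → ℚ) (n : ℕ) (H : MvPolynomial (Fin r) ℚ) :
    ev g n H = ∑ e ∈ H.support, MvPolynomial.coeff e H * mon g e n := by
  unfold ev mon
  rw [MvPolynomial.eval_eq']

theorem ev_mul {r : ℕ} (g : Fin r → ℕ → ℚ) (n : ℕ) (P Q : MvPolynomial (Fin r) ℚ) :
    ev g n (P * Q) = ev g n P * ev g n Q := by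
  unfold ev
  exact map_mul _ _ _

theorem ev_sub {r : ℕ} (g : Fin r → ℕ → ℚ) (n : ℕ) (P Q : MvPolynomial (Fin r) ℚ) :
    ev g n (P - Q) = ev g n P - ev g n Q := by
  unfold ev
  exact map_sub _ _ _

theorem ev_monomial {r : ℕ} (g : Fin r → ℕ → ℚ) (n : ℕ) (e : Fin r →₀ ℕ) (c : ℚ) :
    ev g n (MvPolynomial.monomial e c) = c * mon g e n := by
  unfold ev mon
  rw [MvPolynomial.eval_monomial, Finsupp.prod_fintype _ _ (fun i => pow_zero _)]

theorem mon_add {r : ℕ} (g : Fin r → ℕ → ℚ) (e e' : Fin r →₀ ℕ) (n : ℕ) :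
    mon g (e + e') n = mon g e n * mon g e' n := by
  unfold mon
  rw [← Finset.prod_mul_distrib]
  exact Finset.prod_congr rfl fun i _ => by rw [Finsupp.add_apply, pow_add]

theorem mon_isU {S : Finset ℕ} (hS : PS S) {r : ℕ} {g : Fin r → ℕ → ℚ}
    (hg : ∀ i n, IsU S (g i n)) (e : Fin r →₀ ℕ) (n : ℕ) : IsU S (mon g e n) :=
  isU_prod hS _ _ fun i _ => (hg i n).pow hS _

theorem supp_of {r : ℕ} {E : Fin r →₀ ℕ} {k : ℚ} {P Q : MvPolynomial (Fin r) ℚ}
    {e : Fin r →₀ ℕ} (h : e ∈ (MvPolynomial.monomial E k * (P * Q)).support) :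
    ∃ e1 ∈ P.support, ∃ e2 ∈ Q.support, e = E + (e1 + e2) := by
  classical
  have h1 := MvPolynomial.support_mul _ _ h
  obtain ⟨a, ha, b, hb, rfl⟩ := Finset.mem_add.1 h1
  have h2 := MvPolynomial.support_mul _ _ hb
  obtain ⟨c, hc, d, hd, rfl⟩ := Finset.mem_add.1 h2
  have h3 := MvPolynomial.support_monomial_subset ha
  rw [Finset.mem_singleton.1 h3]
  exact ⟨c, hc, d, hd, rfl⟩

theorem clear {r : ℕ} (e e' : Fin r → ℤ) : ∃ f Ea Eb : Fin r →₀ ℕ,
    (∀ i, (Ea i : ℤ) = e i + f i) ∧ (∀ i, (Eb i : ℤ) = e' i + f i) := by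
  refine ⟨Finsupp.equivFunOnFinite.symm fun i => (e i).natAbs + (e' i).natAbs,
    Finsupp.equivFunOnFinite.symm fun i => (e i + ((e i).natAbs + (e' i).natAbs : ℕ)).toNat,
    Finsupp.equivFunOnFinite.symm fun i => (e' i + ((e i).natAbs + (e' i).natAbs : ℕ)).toNat,
    fun i => ?_, fun i => ?_⟩
  · simp only [Finsupp.equivFunOnFinite_symm_apply_apply]
    omega
  · simp only [Finsupp.equivFunOnFinite_symm_apply_apply]
    omega

theorem mon_zpow {r : ℕ} {g : Fin r → ℕ → ℚ} (hg : ∀ i n, g i n ≠ 0) {f Ea : Fin r →₀ ℕ}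
    {e : Fin r → ℤ} (h : ∀ i, (Ea i : ℤ) = e i + f i) (n : ℕ) :
    mon g f n * ∏ i, g i n ^ e i = mon g Ea n := by
  unfold mon
  rw [← Finset.prod_mul_distrib]
  refine Finset.prod_congr rfl fun i _ => ?_
  rw [← zpow_natCast (g i n) (Ea i), h i, zpow_add₀ (hg i n), zpow_natCast, mul_comm]

theorem av_unit_out {S : Finset ℕ} (hS : PS S) {x : ℚ} (hx : IsU S x) {p : ℕ} (hp : p.Prime)
    (hpS : p ∉ S) : av p x = 1 := by
  rw [av_prime hp, hx.padicNorm_eq_one hS hp hpS]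
  simp

theorem int_of_av {x : ℚ} (h : ∀ p : ℕ, p.Prime → av p x ≤ 1) : ∃ z : ℤ, x = z := by
  apply int_of_padic
  intro p hp
  have := h p hp
  rw [av_prime hp] at this
  exact_mod_cast this

/-- a multiple of a denominator -/
theorem den_mul {M : ℕ} {q : ℚ} (h : q.den ∣ M) : ∃ z : ℤ, (M : ℚ) * q = z := by
  obtain ⟨k, rfl⟩ := h
  refine ⟨k * q.num, ?_⟩
  push_cast
  rw [← Rat.mul_den_eq_num q]
  ring

theorem sum_int {ι : Type*} (s : Finset ι) (f : ι → ℚ) (h : ∀ i ∈ s, ∃ z : ℤ, f i = z) :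
    ∃ z : ℤ, ∑ i ∈ s, f i = z := by
  classical
  choose! F hF using h
  refine ⟨∑ i ∈ s, F i, ?_⟩
  push_cast
  exact Finset.sum_congr rfl hF

theorem mul_int {x y : ℚ} (hx : ∃ z : ℤ, x = z) (hy : ∃ z : ℤ, y = z) :
    ∃ z : ℤ, x * y = z := by
  obtain ⟨a, rfl⟩ := hx
  obtain ⟨b, rfl⟩ := hy
  exact ⟨a * b, by push_cast; ring⟩

/-- the product of the denominators of the coefficients -/
noncomputable def dn {r : ℕ} (P : MvPolynomial (Fin r) ℚ) : ℕ :=
  ∏ e ∈ P.support, (MvPolynomial.coeff e P).den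

theorem dn_pos {r : ℕ} (P : MvPolynomial (Fin r) ℚ) : 0 < dn P :=
  Finset.prod_pos fun _ _ => Rat.den_pos _

theorem dn_int {r : ℕ} {P : MvPolynomial (Fin r) ℚ} {e : Fin r →₀ ℕ} (he : e ∈ P.support) :
    ∃ z : ℤ, (dn P : ℚ) * MvPolynomial.coeff e P = z :=
  den_mul (Finset.dvd_prod_of_mem (fun e => (MvPolynomial.coeff e P).den) he)

theorem ev_abs_le {r : ℕ} {g : Fin r → ℕ → ℚ} (P : MvPolynomial (Fin r) ℚ) {n : ℕ} {t : ℝ}
    (h : ∀ e ∈ P.support, av 0 (mon g e n) ≤ t) :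
    |((ev g n P : ℚ) : ℝ)| ≤ (∑ e ∈ P.support, |((MvPolynomial.coeff e P : ℚ) : ℝ)|) * t := by
  rw [ev_eq, Finset.sum_mul]
  push_cast
  refine (Finset.abs_sum_le_sum_abs _ _).trans (Finset.sum_le_sum fun e he => ?_)
  rw [abs_mul]
  apply mul_le_mul_of_nonneg_left _ (abs_nonneg _)
  have := h e he
  rwa [av_zero_eq] at this

theorem const_le {F : Filter ℕ} {T : ℕ → ℝ} (hT : Tendsto T F atTop) (C : ℝ) :
    ∀ᶠ n in F, C ≤ Real.exp (T n) := by
  have := ev_const_le_exp hT one_pos C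
  simpa using this



/-- the product of the denominators of the coefficients divided by `k` -/
noncomputable def dk {r : ℕ} (k : ℚ) (P : MvPolynomial (Fin r) ℚ) : ℕ :=
  ∏ e ∈ P.support, (MvPolynomial.coeff e P / k).den

theorem dk_pos {r : ℕ} (k : ℚ) (P : MvPolynomial (Fin r) ℚ) : 0 < dk k P :=
  Finset.prod_pos fun _ _ => Rat.den_pos _

theorem dk_int {r : ℕ} {k : ℚ} {P : MvPolynomial (Fin r) ℚ} {e : Fin r →₀ ℕ}
    (he : e ∈ P.support) : ∃ z : ℤ, (dk k P : ℚ) * (MvPolynomial.coeff e P / k) = z :=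
  den_mul (Finset.dvd_prod_of_mem (fun e => (MvPolynomial.coeff e P / k).den) he)

/-- the inverse of a unit which is small at all places -/
theorem av_inv_le {S : Finset ℕ} (hS : PS S) {w : ℚ} (hw : IsU S w) {N : ℝ}
    (h : ∀ v ∈ pl S, av v w ≤ N) {p : ℕ} (hp : p ∈ S) : (av p w)⁻¹ ≤ N ^ S.card := by
  have hpp : p ∈ pl S := mem_pl_of_mem hp
  have h1 := hw.2
  rw [← Finset.mul_prod_erase _ _ hpp] at h1
  have h2 : 0 < av p w := av_pos (place_of_mem hS hpp) hw.ne_zero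
  have h3 : (av p w)⁻¹ = ∏ v ∈ (pl S).erase p, av v w := (eq_inv_of_mul_eq_one_right h1).symm
  rw [h3]
  have h4 : ((pl S).erase p).card = S.card := by
    rw [Finset.card_erase_of_mem hpp]
    unfold pl
    rw [Finset.card_insert_of_notMem (zero_notMem hS)]
    omega
  calc ∏ v ∈ (pl S).erase p, av v w ≤ ∏ _v ∈ (pl S).erase p, N :=
        Finset.prod_le_prod (fun v _ => av_nonneg v w)
          fun v hv => h v (Finset.mem_of_mem_erase hv)
    _ = N ^ S.card := by rw [Finset.prod_const, h4]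


/-- comparison of the two elements of `W` and `W'` -/
theorem cmp {S : Finset ℕ} (hS : PS S) {w w' κ κ' ω ω' : ℚ} (hw : IsU S w)
    (hw' : IsU S w') (hκ : 0 < κ) (hκ' : 0 < κ') (hω : IsU S ω) (hω' : IsU S ω') {N Kc : ℝ}
    (hN : 1 ≤ N) (hKc : 1 ≤ Kc)
    (h : ∀ v ∈ pl S, av v w ≤ N) (h' : ∀ v ∈ pl S, av v w' ≤ N)
    (hk : ∀ p ∈ S, av p (κ' / κ) ≤ Kc) (hk' : ∀ p ∈ S, av p (κ / κ') ≤ Kc)
    (heq : ω * w * κ = ω' * w' * κ') :
    ∀ p ∈ S, av p ω ≤ N ^ (S.card + 1) * Kc * av p ω' ∧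
      av p ω' ≤ N ^ (S.card + 1) * Kc * av p ω := by
  intro p hpS
  have hp : p.Prime := hS p hpS
  have hv : p = 0 ∨ p.Prime := Or.inr hp
  have w0 := hw.ne_zero
  have w0' := hw'.ne_zero
  have e1 : ω = ω' * ((w' * w⁻¹) * (κ' / κ)) := by
    field_simp
    linarith
  have e2 : ω' = ω * ((w * w'⁻¹) * (κ / κ')) := by
    field_simp
    linarith
  have u1 := av_inv_le hS hw h hpS
  have u2 := av_inv_le hS hw' h' hpS
  have u3 := h p (mem_pl_of_mem hpS)
  have u4 := h' p (mem_pl_of_mem hpS)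
  have q1 := av_pos hv hw.ne_zero
  have q2 := av_pos hv hw'.ne_zero
  have q3 := av_nonneg p (κ' / κ)
  have q4 := av_nonneg p (κ / κ')
  have q5 := av_nonneg p ω
  have q6 := av_nonneg p ω'
  have k1 := hk p hpS
  have k2 := hk' p hpS
  constructor
  · have e3 : av p ω = av p ω' * (av p w' * (av p w)⁻¹ * av p (κ' / κ)) := by
      rw [← av_inv hv, ← av_mul hv, ← av_mul hv, ← av_mul hv, ← e1]
    rw [e3]
    calc av p ω' * (av p w' * (av p w)⁻¹ * av p (κ' / κ))
        ≤ av p ω' * (N * N ^ S.card * Kc) := by gcongr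
      _ = N ^ (S.card + 1) * Kc * av p ω' := by rw [pow_succ]; ring
  · have e3 : av p ω' = av p ω * (av p w * (av p w')⁻¹ * av p (κ / κ')) := by
      rw [← av_inv hv, ← av_mul hv, ← av_mul hv, ← av_mul hv, ← e2]
    rw [e3]
    calc av p ω * (av p w * (av p w')⁻¹ * av p (κ / κ'))
        ≤ av p ω * (N * N ^ S.card * Kc) := by gcongr
      _ = N ^ (S.card + 1) * Kc * av p ω := by rw [pow_succ]; ring

end APG_


open APG_ in
theorem apg_proof (hUNI : Stmt_UNI) (hS2T : Stmt_S2T) : Stmt_APG := by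
  intro s S W W' B B₀ hS hWU hWU' hSep hB hB0
  classical
  obtain ⟨Cv, hCv, hsep⟩ := hSep
  obtain ⟨κ₁, hκ₁⟩ : ∃ κ₁ : ℝ, κ₁ = Cv * (2 * B₀ * (S.card + 1) + 1) := ⟨_, rfl⟩
  have hκ₁0 : 0 ≤ κ₁ := by rw [hκ₁]; positivity
  refine ⟨2 * B₀ * (S.card + 1) + 1 + κ₁ * S.card + (s + 1) * B + 4, by positivity, ?_⟩
  intro U T r d g Z ξ Λ A A' R R' hG hds hZ hI hAU hAU' hκ hκ' hD hD' hRA hRA'
  obtain ⟨P₀, P, ν, hP0, hν, hrel, hpS, hpSi⟩ := hD
  obtain ⟨P₀', P', ν', hP0', hν', hrel', hpS', hpSi'⟩ := hD'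
  obtain ⟨κ, e, hκ0, hκe⟩ := hκ
  obtain ⟨κ', e', hκ0', hκe'⟩ := hκ'
  obtain ⟨f, Ea, Eb, hEa, hEb⟩ := clear e e'
  have hgU := hG.unit
  have hg0 : ∀ i n, g i n ≠ 0 := fun i n => (hgU i n).ne_zero
  obtain ⟨Ap, hAp⟩ : ∃ Ap : Fin d → MvPolynomial (Fin r) ℚ,
      ∀ i, Ap i = MvPolynomial.monomial Eb κ' * (P₀' * P i) := ⟨_, fun _ => rfl⟩
  obtain ⟨Bp, hBp⟩ : ∃ Bp : Fin d → MvPolynomial (Fin r) ℚ,
      ∀ i, Bp i = MvPolynomial.monomial Ea κ * (P₀ * P' i) := ⟨_, fun _ => rfl⟩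
  obtain ⟨D, hDd⟩ : ∃ D : Fin d → MvPolynomial (Fin r) ℚ, ∀ i, D i = Ap i - Bp i :=
    ⟨_, fun _ => rfl⟩
  have hS2 := hS2T U S T r d g Z B 1 D hG hB one_pos hZ hI
  have hS2' : ∀ᶠ n in (U : Filter ℕ), ∀ i, ∀ e ∈ (D i).support, av 0 (mon g e n) ≤
      Real.exp ((d * B + 1) * T n) * |((∑ i, ev g n (D i) * (Z i n : ℚ) : ℚ) : ℝ)| :=
    eventually_all.2 fun i => (eventually_all_finset _).2 fun e he => hS2 i e he
  have hpS1 := (eventually_all_finset _).2 hpS
  have hpS1' := (eventually_all_finset _).2 hpS'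
  have hpSi1 : ∀ᶠ n in (U : Filter ℕ), ∀ i, ∀ e ∈ (P i).support, ∃ ω ∈ W, ∀ v ∈ pl S,
      av v (mon g e n) ≤ Real.exp (B₀ * T n) * av v (A n * ω * ν n) :=
    eventually_all.2 fun i => (eventually_all_finset _).2 fun e he => by
      obtain ⟨u, ⟨ω, hω, hu⟩, hm⟩ := hpSi i e he
      exact hm.mono fun n hn => ⟨ω n, hω n, fun v hv => by rw [← hu n]; exact hn v hv⟩
  have hpSi1' : ∀ᶠ n in (U : Filter ℕ), ∀ i, ∀ e ∈ (P' i).support, ∃ ω ∈ W', ∀ v ∈ pl S,
      av v (mon g e n) ≤ Real.exp (B₀ * T n) * av v (A' n * ω * ν' n) :=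
    eventually_all.2 fun i => (eventually_all_finset _).2 fun e he => by
      obtain ⟨u, ⟨ω, hω, hu⟩, hm⟩ := hpSi' i e he
      exact hm.mono fun n hn => ⟨ω n, hω n, fun v hv => by rw [← hu n]; exact hn v hv⟩
  have hne : ∀ᶠ n in (U : Filter ℕ), ev g n P₀ ≠ 0 := by
    rcases ult_em U (fun n => ev g n P₀ = 0) with h | h
    · exact absurd (hUNI U S r g hS hgU hG.ind P₀ h) hP0
    · exact h
  have hne' : ∀ᶠ n in (U : Filter ℕ), ev g n P₀' ≠ 0 := by
    rcases ult_em U (fun n => ev g n P₀' = 0) with h | h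
    · exact absurd (hUNI U S r g hS hgU hG.ind P₀' h) hP0'
    · exact h
  -- constants
  obtain ⟨Kc, hKc⟩ : ∃ Kc : ℝ, Kc = 1 + ∑ p ∈ S, (av p (κ' / κ) + av p (κ / κ')) := ⟨_, rfl⟩
  have hKc1 : 1 ≤ Kc := by
    rw [hKc]
    have : 0 ≤ ∑ p ∈ S, (av p (κ' / κ) + av p (κ / κ')) :=
      Finset.sum_nonneg fun p _ => add_nonneg (av_nonneg _ _) (av_nonneg _ _)
    linarith
  have hKcS : ∀ p ∈ S, av p (κ' / κ) + av p (κ / κ') ≤ Kc := by
    intro p hp
    have := Finset.single_le_sum (f := fun p => av p (κ' / κ) + av p (κ / κ'))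
      (fun p _ => add_nonneg (av_nonneg _ _) (av_nonneg _ _)) hp
    rw [hKc]
    linarith
  have hKc' : ∀ p ∈ S, av p (κ' / κ) ≤ Kc := fun p hp => by
    have := hKcS p hp
    have := av_nonneg p (κ / κ')
    linarith
  have hKc'' : ∀ p ∈ S, av p (κ / κ') ≤ Kc := fun p hp => by
    have := hKcS p hp
    have := av_nonneg p (κ' / κ)
    linarith
  obtain ⟨c, hc⟩ : ∃ c : ℕ, c = (∏ i, dk κ' (Ap i)) * (dn P₀ * dn P₀') := ⟨_, rfl⟩
  have hcq : (c : ℚ) = (∏ i, (dk κ' (Ap i) : ℚ)) * (dn P₀ * dn P₀') := by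
    rw [hc]
    push_cast
    rfl
  have hc0 : 0 < c := by
    rw [hc]
    have h3 : 0 < ∏ i, dk κ' (Ap i) := Finset.prod_pos fun i _ => dk_pos _ _
    have h4 := dn_pos P₀
    have h5 := dn_pos P₀'
    positivity
  obtain ⟨K₁, hK₁⟩ : ∃ K₁ : ℝ, K₁ = ∑ i, ∑ e ∈ (Ap i).support,
    |((MvPolynomial.coeff e (Ap i) : ℚ) : ℝ)| := ⟨_, rfl⟩
  have hK10 : 0 ≤ K₁ := by
    rw [hK₁]
    exact Finset.sum_nonneg fun _ _ => Finset.sum_nonneg fun _ _ => abs_nonneg _
  obtain ⟨K₂, hK₂⟩ : ∃ K₂ : ℝ, K₂ = ∑ e ∈ P₀.support,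
    |((MvPolynomial.coeff e P₀ : ℚ) : ℝ)| := ⟨_, rfl⟩
  obtain ⟨K₃, hK₃⟩ : ∃ K₃ : ℝ, K₃ = ∑ e ∈ P₀'.support,
    |((MvPolynomial.coeff e P₀' : ℚ) : ℝ)| := ⟨_, rfl⟩
  -- reduction to a pointwise statement
  have key : ∀ᶠ n in (U : Filter ℕ), ∃ (X : ℤ) (Q : ℕ), 0 < Q ∧
      (Q : ℝ) ≤ Real.exp ((2 * B₀ * (S.card + 1) + 1 + κ₁ * S.card + (s + 1) * B + 4) *
        T n) ∧ |ξ - X / Q| ≤ Real.exp (((2 * B₀ * (S.card + 1) + 1 + κ₁ * S.card +
        (s + 1) * B + 4) - Λ) * T n) := by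
    filter_upwards [hS2', hpS1, hpS1', hpSi1, hpSi1', hne, hne', hrel, hrel', hκe,
      hκe', hRA, hRA', hZ, ev_pos hG.lim, const_le hG.lim (c * (K₂ * K₃)),
      const_le hG.lim K₁, const_le hG.lim 2, const_le hG.lim Kc] with n
      gS2 gpS gpS' gpSi gpSi' gne gne' grel grel' gκ gκ' gR gR' gZ gT gK gK1 g2 gKc
    have hνp := (hν n).pos
    have hνp' := (hν' n).pos
    have hMU := mon_isU hS hgU f n
    have hA0 : A n ≠ 0 := (hAU n).ne_zero
    have hA0' : A' n ≠ 0 := (hAU' n).ne_zero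
    have hmEa := mon_zpow hg0 hEa n
    have hmEb := mon_zpow hg0 hEb n
    obtain ⟨N, hN⟩ : ∃ N : ℝ, N = Real.exp (2 * B₀ * T n) := ⟨_, rfl⟩
    have hN1 : 1 ≤ N := by
      rw [hN, ← Real.exp_zero]
      apply Real.exp_le_exp.2
      positivity
    have hNsq : Real.exp (B₀ * T n) * Real.exp (B₀ * T n) = N := by
      rw [hN, ← Real.exp_add]
      congr 1
      ring
    obtain ⟨Δ, hΔ0, hΔU, hΔN, hΔi⟩ := exists_den hS hN1
    have hN2 : 1 ≤ Real.exp (κ₁ * T n) := by
      rw [← Real.exp_zero]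
      apply Real.exp_le_exp.2
      positivity
    obtain ⟨q, hq0, hqU, hqN, hqi⟩ := exists_den hS hN2
    -- quotient of a monomial by a unit
    have quo : ∀ (x y : ℚ), IsU S x → IsU S y → ∀ t : ℝ, (∀ v ∈ pl S, av v x ≤ t * av v y) →
        ∀ v ∈ pl S, av v (x / y) ≤ t := by
      intro x y _ hy t hxy v hv
      rw [av_div (place_of_mem hS hv), div_le_iff₀ (av_pos (place_of_mem hS hv) hy.ne_zero)]
      exact hxy v hv
    have mulb : ∀ (x y : ℚ), (∀ v ∈ pl S, av v x ≤ Real.exp (B₀ * T n)) →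
        (∀ v ∈ pl S, av v y ≤ Real.exp (B₀ * T n)) → ∀ v ∈ pl S, av v (x * y) ≤ N := by
      intro x y hx hy v hv
      rw [av_mul (place_of_mem hS hv), ← hNsq]
      exact mul_le_mul (hx v hv) (hy v hv) (av_nonneg _ _) (Real.exp_pos _).le
    have intΔ : ∀ x : ℚ, IsU S x → (∀ v ∈ pl S, av v x ≤ N) → ∃ z : ℤ, (Δ : ℚ) * x = z :=
      fun x hx hx2 => hΔi x (hx.sInt hS) fun p hp => hx2 p (mem_pl_of_mem hp)
    -- integrality of `A`
    have hAint : ∃ z : ℤ, (c : ℚ) * Δ * (ev g n P₀ * ev g n P₀' / (ν n * ν' n)) = z := by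
      have h4 : ∃ z : ℤ, (∏ i, (dk κ' (Ap i) : ℚ)) = z :=
        ⟨∏ i, (dk κ' (Ap i) : ℤ), by push_cast; rfl⟩
      have h5 : ∃ z : ℤ, ∑ e1 ∈ P₀.support, ∑ e2 ∈ P₀'.support,
          (((dn P₀ : ℚ) * MvPolynomial.coeff e1 P₀) * ((dn P₀' : ℚ) *
            MvPolynomial.coeff e2 P₀')) * ((Δ : ℚ) * ((mon g e1 n / ν n) * (mon g e2 n / ν' n)))
            = z := by
        refine sum_int _ _ fun e1 h1 => sum_int _ _ fun e2 h2 => ?_
        refine mul_int (mul_int (dn_int h1) (dn_int h2)) (intΔ _ ?_ ?_)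
        · exact ((mon_isU hS hgU e1 n).div hS (hν n)).mul hS
            ((mon_isU hS hgU e2 n).div hS (hν' n))
        · exact mulb _ _ (quo _ _ (mon_isU hS hgU e1 n) (hν n) _ (gpS e1 h1))
            (quo _ _ (mon_isU hS hgU e2 n) (hν' n) _ (gpS' e2 h2))
      obtain ⟨z, hz⟩ := mul_int h4 h5
      refine ⟨z, ?_⟩
      rw [← hz, hcq]
      have h6 : ∑ e1 ∈ P₀.support, ∑ e2 ∈ P₀'.support,
          (((dn P₀ : ℚ) * MvPolynomial.coeff e1 P₀) * ((dn P₀' : ℚ) *
            MvPolynomial.coeff e2 P₀')) * ((Δ : ℚ) * ((mon g e1 n / ν n) * (mon g e2 n / ν' n)))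
          = (dn P₀ * dn P₀' * Δ / (ν n * ν' n)) * (ev g n P₀ * ev g n P₀') := by
        rw [ev_eq, ev_eq, Finset.sum_mul_sum, Finset.mul_sum]
        refine Finset.sum_congr rfl fun e1 _ => ?_
        rw [Finset.mul_sum]
        refine Finset.sum_congr rfl fun e2 _ => ?_
        have n1 : ν n ≠ 0 := hνp.ne'
        have n2 : ν' n ≠ 0 := hνp'.ne'
        field_simp
      rw [h6]
      ring
    -- the large terms
    have hterm : ∀ i, ∀ ee ∈ (Ap i).support.filter (fun e => e ∉ (D i).support), ∃ z : ℤ,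
        (c : ℚ) * Δ * (MvPolynomial.coeff ee (Ap i) * mon g ee n /
          (mon g f n * A' n * ν n * ν' n)) * (q : ℚ) * (Z i n : ℚ) =
          A n * z := by
      intro i ee hee
      rw [Finset.mem_filter] at hee
      obtain ⟨hee1, hee2⟩ := hee
      have hB3 : ee ∈ (Bp i).support := by
        rw [MvPolynomial.mem_support_iff] at hee1 ⊢
        rw [MvPolynomial.notMem_support_iff, hDd, MvPolynomial.coeff_sub, sub_eq_zero] at hee2
        rw [← hee2]
        exact hee1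
      have hA3 := hee1
      rw [hAp] at hA3
      rw [hBp] at hB3
      obtain ⟨e1, he1, e2, he2, hE⟩ := supp_of hA3
      obtain ⟨e3, he3, e4, he4, hE'⟩ := supp_of hB3
      obtain ⟨ω, hωW, hm⟩ := gpSi i e2 he2
      obtain ⟨ω', hωW', hm'⟩ := gpSi' i e4 he4
      have hωU := hWU ω hωW
      have hωU' := hWU' ω' hωW'
      obtain ⟨w, hw⟩ : ∃ w : ℚ, w = (mon g e1 n / ν' n) * (mon g e2 n / (A n * ω * ν n)) :=
        ⟨_, rfl⟩
      obtain ⟨w', hw'⟩ : ∃ w' : ℚ, w' = (mon g e3 n / ν n) *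
        (mon g e4 n / (A' n * ω' * ν' n)) := ⟨_, rfl⟩
      have hwU : IsU S w := by
        rw [hw]
        exact ((mon_isU hS hgU e1 n).div hS (hν' n)).mul hS
          ((mon_isU hS hgU e2 n).div hS (((hAU n).mul hS hωU).mul hS (hν n)))
      have hwU' : IsU S w' := by
        rw [hw']
        exact ((mon_isU hS hgU e3 n).div hS (hν n)).mul hS
          ((mon_isU hS hgU e4 n).div hS (((hAU' n).mul hS hωU').mul hS (hν' n)))
      have hwN : ∀ v ∈ pl S, av v w ≤ N := by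
        rw [hw]
        exact mulb _ _ (quo _ _ (mon_isU hS hgU e1 n) (hν' n) _ (gpS' e1 he1))
          (quo _ _ (mon_isU hS hgU e2 n) (((hAU n).mul hS hωU).mul hS (hν n)) _ hm)
      have hwN' : ∀ v ∈ pl S, av v w' ≤ N := by
        rw [hw']
        exact mulb _ _ (quo _ _ (mon_isU hS hgU e3 n) (hν n) _ (gpS e3 he3))
          (quo _ _ (mon_isU hS hgU e4 n) (((hAU' n).mul hS hωU').mul hS (hν' n)) _ hm')
      have n1 : ν n ≠ 0 := hνp.ne'
      have n2 : ν' n ≠ 0 := hνp'.ne'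
      have n3 : mon g f n ≠ 0 := hMU.ne_zero
      have n4 : ω ≠ 0 := hωU.ne_zero
      have n5 : ω' ≠ 0 := hωU'.ne_zero
      have n6 : κ ≠ 0 := hκ0.ne'
      have n7 : κ' ≠ 0 := hκ0'.ne'
      have hmee : mon g ee n = mon g f n * A' n / κ' * ν n * ν' n * A n * ω * w := by
        have h1 : mon g Eb n = mon g f n * A' n / κ' := by
          rw [← hmEb, gκ']
          field_simp
        rw [hE, mon_add, mon_add, h1, hw]
        field_simp
      have hmee' : mon g ee n = mon g f n * A n / κ * ν n * ν' n * A' n * ω' * w' := by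
        have h1 : mon g Ea n = mon g f n * A n / κ := by
          rw [← hmEa, gκ]
          field_simp
        rw [hE', mon_add, mon_add, h1, hw']
        field_simp
      have heq : ω * w * κ = ω' * w' * κ' := by
        have h1 : (mon g f n * ν n * ν' n * A n * A' n / (κ * κ')) * (ω * w * κ) =
            (mon g f n * ν n * ν' n * A n * A' n / (κ * κ')) * (ω' * w' * κ') := by
          calc (mon g f n * ν n * ν' n * A n * A' n / (κ * κ')) * (ω * w * κ)
              = mon g ee n := by rw [hmee]; field_simp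
            _ = _ := by rw [hmee']; field_simp
        exact mul_left_cancel₀ (div_ne_zero (mul_ne_zero (mul_ne_zero (mul_ne_zero
          (mul_ne_zero n3 n1) n2) hA0) hA0') (mul_ne_zero n6 n7)) h1
      have hcmp := cmp hS hwU hwU' hκ0 hκ0' hωU hωU' hN1 hKc1 hwN hwN' hKc' hKc'' heq
      have hNK : N ^ (S.card + 1) * Kc ≤ Real.exp ((2 * B₀ * (S.card + 1) + 1) * T n) := by
        have h1 : N ^ (S.card + 1) = Real.exp (2 * B₀ * (S.card + 1) * T n) := by
          rw [hN, ← Real.exp_nat_mul]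
          congr 1
          push_cast
          ring
        calc N ^ (S.card + 1) * Kc ≤ N ^ (S.card + 1) * Real.exp (T n) := by gcongr
          _ = _ := by
            rw [h1, ← Real.exp_add]
            congr 1
            ring
      have hE0 : 0 ≤ (2 * B₀ * (S.card + 1) + 1) * T n := by positivity
      have hsm := hsep ω hωW ω' hωW' _ hE0 (fun p hp => by
        have h1 := hcmp p hp
        exact ⟨h1.1.trans (mul_le_mul_of_nonneg_right hNK (av_nonneg _ _)),
          h1.2.trans (mul_le_mul_of_nonneg_right hNK (av_nonneg _ _))⟩)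
      have hqω : ∃ z : ℤ, (q : ℚ) * ω = z := by
        apply hqi ω (hωU.sInt hS)
        intro p hp
        have h1 := (hsm p hp).1
        have h2 : Cv * ((2 * B₀ * (S.card + 1) + 1) * T n) = κ₁ * T n := by
          rw [hκ₁]
          ring
        rwa [h2] at h1
      -- integers
      have t1 := dk_int (k := κ') hee1
      have t2 := intΔ w hwU hwN
      have t3 : ∃ z : ℤ, (∏ j ∈ Finset.univ.erase i, (dk κ' (Ap j) : ℚ)) *
          (dn P₀ * dn P₀') * (Z i n : ℚ) = z :=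
        ⟨(∏ j ∈ Finset.univ.erase i, (dk κ' (Ap j) : ℤ)) * (dn P₀ * dn P₀') *
          Z i n, by push_cast; rfl⟩
      obtain ⟨z, hz⟩ := mul_int (mul_int t1 t2) (mul_int t3 hqω)
      refine ⟨z, ?_⟩
      rw [← hz, hcq, ← Finset.mul_prod_erase Finset.univ (fun j => (dk κ' (Ap j) : ℚ))
        (Finset.mem_univ i), hmee]
      have h7 : MvPolynomial.coeff ee (Ap i) * (mon g f n * A' n / κ' * ν n * ν' n *
          A n * ω * w) / (mon g f n * A' n * ν n * ν' n) =
          (MvPolynomial.coeff ee (Ap i) / κ') * w * (A n * ω) := by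
        field_simp
      rw [h7]
      ring
    have hXint : ∃ z : ℤ, ∑ i, ∑ ee ∈ (Ap i).support.filter (fun e => e ∉ (D i).support),
        (c : ℚ) * Δ * (MvPolynomial.coeff ee (Ap i) * mon g ee n /
          (mon g f n * A' n * ν n * ν' n)) * (q : ℚ) * (Z i n : ℚ) =
          A n * z := by
      choose! F hF using hterm
      refine ⟨∑ i, ∑ ee ∈ (Ap i).support.filter (fun e => e ∉ (D i).support), F i ee, ?_⟩
      push_cast
      rw [Finset.mul_sum]
      refine Finset.sum_congr rfl fun i _ => ?_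
      rw [Finset.mul_sum]
      exact Finset.sum_congr rfl fun ee hee => hF i ee hee
    obtain ⟨zA, hzA⟩ := hAint
    obtain ⟨zX, hzX⟩ := hXint
    have hcpos : (0 : ℚ) < c := by exact_mod_cast hc0
    have hΔpos : (0 : ℚ) < Δ := by exact_mod_cast hΔ0
    have hzA0 : zA ≠ 0 := by
      rintro rfl
      have : (c : ℚ) * Δ * (ev g n P₀ * ev g n P₀' / (ν n * ν' n)) ≠ 0 :=
        mul_ne_zero (mul_ne_zero hcpos.ne' hΔpos.ne') (div_ne_zero (mul_ne_zero gne gne')
          (mul_ne_zero hνp.ne' hνp'.ne'))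
      exact this (by rw [hzA]; simp)
    -- real notation
    obtain ⟨AA, hAA⟩ : ∃ AA : ℝ, AA = ((A n : ℚ) : ℝ) := ⟨_, rfl⟩
    obtain ⟨BB, hBB⟩ : ∃ BB : ℝ, BB = ((A' n : ℚ) : ℝ) := ⟨_, rfl⟩
    obtain ⟨E, hE⟩ : ∃ E : ℝ, E = Real.exp (-(Λ * T n)) := ⟨_, rfl⟩
    have hE0 : 0 < E := by rw [hE]; exact Real.exp_pos _
    rw [← hE, ← hAA] at gR
    rw [← hE, ← hBB] at gR'
    have hAA0 : 0 < AA := by rw [hAA]; exact_mod_cast (hAU n).pos
    have hBB0 : 0 < BB := by rw [hBB]; exact_mod_cast (hAU' n).pos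
    -- the form
    obtain ⟨ss, hs⟩ : ∃ ss : ℚ, ss = ∑ i, ev g n (Ap i) * (Z i n : ℚ) := ⟨_, rfl⟩
    obtain ⟨ss', hs'⟩ : ∃ ss' : ℚ, ss' = ∑ i, ev g n (Bp i) * (Z i n : ℚ) := ⟨_, rfl⟩
    have hs1 : ss = mon g f n * A' n * (ev g n P₀' * ev g n P₀ * R n) := by
      rw [hs]
      have : ∀ i, ev g n (Ap i) * (Z i n : ℚ) =
          (κ' * mon g Eb n * ev g n P₀') * (ev g n (P i) * (Z i n : ℚ)) := by
        intro i
        rw [hAp, ev_mul, ev_mul, ev_monomial]
        ring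
      rw [Finset.sum_congr rfl fun i _ => this i, ← Finset.mul_sum, ← grel, gκ', ← hmEb]
      ring
    have hs1' : ss' = mon g f n * A n * (ev g n P₀' * ev g n P₀ * R' n) := by
      rw [hs']
      have : ∀ i, ev g n (Bp i) * (Z i n : ℚ) =
          (κ * mon g Ea n * ev g n P₀) * (ev g n (P' i) * (Z i n : ℚ)) := by
        intro i
        rw [hBp, ev_mul, ev_mul, ev_monomial]
        ring
      rw [Finset.sum_congr rfl fun i _ => this i, ← Finset.mul_sum, ← grel', gκ, ← hmEa]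
      ring
    have hsD : ∑ i, ev g n (D i) * (Z i n : ℚ) = ss - ss' := by
      rw [hs, hs', ← Finset.sum_sub_distrib]
      exact Finset.sum_congr rfl fun i _ => by rw [hDd, ev_sub]; ring
    rw [hsD] at gS2
    obtain ⟨hh, hhd⟩ : ∃ hh : ℚ, hh = ∑ i, (∑ e ∈ (Ap i).support.filter
      (fun e => e ∉ (D i).support), MvPolynomial.coeff e (Ap i) * mon g e n) * (Z i n : ℚ) :=
      ⟨_, rfl⟩
    obtain ⟨M, hM⟩ : ∃ M : ℝ, M = ((mon g f n : ℚ) : ℝ) := ⟨_, rfl⟩
    obtain ⟨p, hp⟩ : ∃ p : ℝ, p = ((ev g n P₀ : ℚ) : ℝ) := ⟨_, rfl⟩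
    obtain ⟨p', hp'⟩ : ∃ p' : ℝ, p' = ((ev g n P₀' : ℚ) : ℝ) := ⟨_, rfl⟩
    have hM0 : 0 < M := by rw [hM]; exact_mod_cast hMU.pos
    have hpn : p ≠ 0 := by rw [hp]; exact_mod_cast gne
    have hpn' : p' ≠ 0 := by rw [hp']; exact_mod_cast gne'
    have hsR : ((ss : ℚ) : ℝ) = M * BB * (p' * p * R n) := by
      rw [hs1, hM, hBB, hp, hp']
      push_cast
      rfl
    have hsR' : ((ss' : ℚ) : ℝ) = M * AA * (p' * p * R' n) := by
      rw [hs1', hM, hAA, hp, hp']
      push_cast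
      rfl
    have hpp : 0 < |p' * p| := abs_pos.2 (mul_ne_zero hpn' hpn)
    have hF : |(((ss - ss' : ℚ)) : ℝ)| ≤ M * |p' * p| * (AA * BB * (2 * E)) := by
      have h1 : (((ss - ss' : ℚ)) : ℝ) = M * (p' * p) * (AA * BB * (R n / AA - R' n / BB)) := by
        push_cast
        rw [hsR, hsR']
        field_simp
      rw [h1, abs_mul, abs_mul, abs_of_pos hM0]
      apply mul_le_mul_of_nonneg_left _ (by positivity)
      rw [abs_mul, abs_of_pos (by positivity : 0 < AA * BB)]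
      apply mul_le_mul_of_nonneg_left _ (by positivity)
      have k1 := abs_le.1 gR
      have k2 := abs_le.1 gR'
      rw [abs_le]
      constructor
      · linarith [k1.1, k1.2, k2.1, k2.2]
      · linarith [k1.1, k1.2, k2.1, k2.2]
    have hdiff : |((ss : ℚ) : ℝ) - ((hh : ℚ) : ℝ)| ≤
        K₁ * (Real.exp ((d * B + 1) * T n) * |(((ss - ss' : ℚ)) : ℝ)|) * Real.exp (B * T n) := by
      have h1 : ((ss : ℚ) : ℝ) - ((hh : ℚ) : ℝ) = ∑ i, (∑ e ∈ (Ap i).support.filter
          (fun e => e ∈ (D i).support), ((MvPolynomial.coeff e (Ap i) : ℚ) : ℝ) *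
            ((mon g e n : ℚ) : ℝ)) * (Z i n : ℝ) := by
        have h2 : ss - hh = ∑ i, (∑ e ∈ (Ap i).support.filter
          (fun e => e ∈ (D i).support), (MvPolynomial.coeff e (Ap i)) *
            (mon g e n)) * (Z i n : ℚ) := by
          rw [hs, hhd, ← Finset.sum_sub_distrib]
          refine Finset.sum_congr rfl fun i _ => ?_
          rw [ev_eq, ← Finset.sum_filter_add_sum_filter_not (Ap i).support
            (fun e => e ∈ (D i).support)]
          ring
        have h3 := congrArg (fun t : ℚ => (t : ℝ)) h2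
        push_cast at h3
        exact h3
      rw [h1]
      have h4 : ∀ i, |(∑ e ∈ (Ap i).support.filter
          (fun e => e ∈ (D i).support), ((MvPolynomial.coeff e (Ap i) : ℚ) : ℝ) *
            ((mon g e n : ℚ) : ℝ)) * (Z i n : ℝ)| ≤
          (∑ e ∈ (Ap i).support, |((MvPolynomial.coeff e (Ap i) : ℚ) : ℝ)|) *
            (Real.exp ((d * B + 1) * T n) * |(((ss - ss' : ℚ)) : ℝ)|) *
            Real.exp (B * T n) := by
        intro i
        rw [abs_mul]
        apply mul_le_mul _ (gZ i) (abs_nonneg _)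
        · exact mul_nonneg (Finset.sum_nonneg fun _ _ => abs_nonneg _) (by positivity)
        refine (Finset.abs_sum_le_sum_abs _ _).trans ?_
        rw [Finset.sum_mul]
        refine (Finset.sum_le_sum (g := fun e => |((MvPolynomial.coeff e (Ap i) : ℚ) : ℝ)| *
          (Real.exp ((d * B + 1) * T n) * |(((ss - ss' : ℚ)) : ℝ)|)) fun e he => ?_).trans ?_
        · rw [abs_mul]
          apply mul_le_mul_of_nonneg_left _ (abs_nonneg _)
          have := gS2 i e (Finset.mem_filter.1 he).2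
          rwa [av_zero_eq] at this
        · apply Finset.sum_le_sum_of_subset_of_nonneg (Finset.filter_subset _ _)
          intro e _ _
          positivity
      calc |∑ i, (∑ e ∈ (Ap i).support.filter
          (fun e => e ∈ (D i).support), ((MvPolynomial.coeff e (Ap i) : ℚ) : ℝ) *
            ((mon g e n : ℚ) : ℝ)) * (Z i n : ℝ)| ≤ _ := Finset.abs_sum_le_sum_abs _ _
        _ ≤ _ := Finset.sum_le_sum fun i _ => h4 i
        _ = _ := by rw [← Finset.sum_mul, ← Finset.sum_mul, hK₁]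
    -- real versions of the two integers
    have hνR : (0 : ℝ) < ((ν n : ℚ) : ℝ) := by exact_mod_cast hνp
    have hνR' : (0 : ℝ) < ((ν' n : ℚ) : ℝ) := by exact_mod_cast hνp'
    have hcR : (0 : ℝ) < c := by exact_mod_cast hc0
    have hΔR : (0 : ℝ) < Δ := by exact_mod_cast hΔ0
    have hqR : (0 : ℝ) < q := by exact_mod_cast hq0
    have hAR : (zA : ℝ) = c * Δ * (p * p' / (((ν n : ℚ) : ℝ) * ((ν' n : ℚ) : ℝ))) := by
      have := congrArg (fun t : ℚ => (t : ℝ)) hzA
      push_cast at this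
      rw [← this, hp, hp']
    have hXR : (c : ℝ) * Δ * (((hh : ℚ) : ℝ) / (M * BB * (((ν n : ℚ) : ℝ) *
        ((ν' n : ℚ) : ℝ)))) * (q : ℝ) = AA * zX := by
      have h1 : (c : ℚ) * Δ * (hh / (mon g f n * A' n * (ν n * ν' n))) * (q : ℚ) =
          A n * zX := by
        rw [← hzX, hhd, Finset.sum_div, Finset.mul_sum, Finset.sum_mul]
        refine Finset.sum_congr rfl fun i _ => ?_
        rw [Finset.sum_mul, Finset.sum_div, Finset.mul_sum, Finset.sum_mul]
        refine Finset.sum_congr rfl fun ee _ => ?_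
        ring
      have := congrArg (fun t : ℚ => (t : ℝ)) h1
      push_cast at this
      rw [hM, hBB, hAA]
      exact this
    have hzAR : (0 : ℝ) < |(zA : ℝ)| := abs_pos.2 (by exact_mod_cast hzA0)
    -- the answer
    refine ⟨(if 0 < zA then zX else -zX), zA.natAbs * q, ?_, ?_, ?_⟩
    · exact Nat.mul_pos (Int.natAbs_pos.2 hzA0) hq0
    · -- size
      have h1 := ev_abs_le (g := g) P₀ (n := n) fun e he => gpS e he 0 (zero_mem_pl S)
      have h2 := ev_abs_le (g := g) P₀' (n := n) fun e he => gpS' e he 0 (zero_mem_pl S)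
      rw [← hK₂, av_zero_eq, abs_of_pos hνR, ← hp] at h1
      rw [← hK₃, av_zero_eq, abs_of_pos hνR', ← hp'] at h2
      have hK2 : 0 ≤ K₂ := by rw [hK₂]; exact Finset.sum_nonneg fun _ _ => abs_nonneg _
      have hK3 : 0 ≤ K₃ := by rw [hK₃]; exact Finset.sum_nonneg fun _ _ => abs_nonneg _
      have hAle : |(zA : ℝ)| ≤ c * (K₂ * K₃) * N ^ (S.card + 1) := by
        rw [hAR, abs_mul, abs_mul, abs_div, abs_mul, abs_mul, abs_of_pos hcR, abs_of_pos hΔR,
          abs_of_pos hνR, abs_of_pos hνR']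
        calc (c : ℝ) * Δ * (|p| * |p'| / (((ν n : ℚ) : ℝ) * ((ν' n : ℚ) : ℝ)))
            ≤ (c : ℝ) * N ^ S.card * ((K₂ * (Real.exp (B₀ * T n) * ((ν n : ℚ) : ℝ))) *
              (K₃ * (Real.exp (B₀ * T n) * ((ν' n : ℚ) : ℝ))) /
              (((ν n : ℚ) : ℝ) * ((ν' n : ℚ) : ℝ))) := by gcongr
          _ = c * (K₂ * K₃) * N ^ (S.card + 1) := by
              rw [pow_succ, ← hNsq]
              field_simp
      have hnat : ((zA.natAbs * q : ℕ) : ℝ) = |(zA : ℝ)| * (q : ℝ) := by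
        push_cast
        rw [Nat.cast_natAbs]
        push_cast
        rfl
      rw [hnat]
      have hNN : N ^ (S.card + 1) = Real.exp (2 * B₀ * (S.card + 1) * T n) := by
        rw [hN, ← Real.exp_nat_mul]
        congr 1
        push_cast
        ring
      have hqq : (q : ℝ) ≤ Real.exp (κ₁ * S.card * T n) := by
        refine hqN.trans (le_of_eq ?_)
        rw [← Real.exp_nat_mul]
        congr 1
        ring
      calc |(zA : ℝ)| * (q : ℝ) ≤ (c * (K₂ * K₃) * N ^ (S.card + 1)) *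
            Real.exp (κ₁ * S.card * T n) := by gcongr
        _ ≤ (Real.exp (T n) * N ^ (S.card + 1)) * Real.exp (κ₁ * S.card * T n) := by
            gcongr
        _ = Real.exp ((2 * B₀ * (S.card + 1) + 1 + κ₁ * S.card) * T n) := by
            rw [hNN, ← Real.exp_add, ← Real.exp_add]
            congr 1
            ring
        _ ≤ _ := by
            apply Real.exp_le_exp.2
            apply mul_le_mul_of_nonneg_right _ gT.le
            have : 0 ≤ ((s : ℝ) + 1) * B := by positivity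
            linarith
    · -- the approximation
      have hfrac : (((if 0 < zA then zX else -zX : ℤ)) : ℝ) / ((zA.natAbs * q : ℕ) : ℝ) =
          (zX : ℝ) / (zA * (q : ℝ)) := by
        push_cast
        rw [Nat.cast_natAbs]
        push_cast
        by_cases h0 : 0 < zA
        · have h1 : (0 : ℝ) < zA := by exact_mod_cast h0
          rw [if_pos h0, abs_of_pos h1]
        · have h1 : (zA : ℝ) < 0 := by
            have : zA < 0 := lt_of_le_of_ne (not_lt.1 h0) hzA0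
            exact_mod_cast this
          rw [if_neg h0, abs_of_neg h1]
          rw [neg_mul, neg_div_neg_eq]
      rw [hfrac]
      have hXA : (zX : ℝ) / (zA * (q : ℝ)) =
          ((hh : ℚ) : ℝ) / (M * AA * BB * (p' * p)) := by
        have h1 : (zX : ℝ) = (c : ℝ) * Δ * (((hh : ℚ) : ℝ) / (M * BB * (((ν n : ℚ) : ℝ) *
            ((ν' n : ℚ) : ℝ)))) * (q : ℝ) / AA := by
          rw [hXR]
          field_simp
        rw [h1, hAR]
        field_simp
      rw [hXA]
      have hRAs : (R n : ℝ) / AA = ((ss : ℚ) : ℝ) / (M * AA * BB * (p' * p)) := by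
        rw [hsR]
        field_simp
      have e2 : |(R n : ℝ) / AA - ((hh : ℚ) : ℝ) / (M * AA * BB * (p' * p))| ≤
          K₁ * (Real.exp ((d * B + 1) * T n) * Real.exp (B * T n)) * (2 * E) := by
        rw [hRAs, ← sub_div, abs_div]
        have h1 : |M * AA * BB * (p' * p)| = M * AA * BB * |p' * p| := by
          rw [abs_mul, abs_of_pos (by positivity)]
        rw [h1, div_le_iff₀ (by positivity)]
        calc |((ss : ℚ) : ℝ) - ((hh : ℚ) : ℝ)| ≤ _ := hdiff
          _ ≤ K₁ * (Real.exp ((d * B + 1) * T n) * (M * |p' * p| * (AA * BB * (2 * E)))) *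
              Real.exp (B * T n) := by gcongr
          _ = _ := by ring
      have hdB : ((d : ℝ) + 1) * B ≤ ((s : ℝ) + 1) * B := by
        apply mul_le_mul_of_nonneg_right _ hB
        have : (d : ℝ) ≤ s := by exact_mod_cast hds
        linarith
      calc |ξ - ((hh : ℚ) : ℝ) / (M * AA * BB * (p' * p))|
          ≤ |ξ - (R n : ℝ) / AA| +
            |(R n : ℝ) / AA - ((hh : ℚ) : ℝ) / (M * AA * BB * (p' * p))| := abs_sub_le _ _ _
        _ ≤ E + K₁ * (Real.exp ((d * B + 1) * T n) * Real.exp (B * T n)) * (2 * E) :=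
            add_le_add gR e2
        _ ≤ E + Real.exp (T n) * (Real.exp ((d * B + 1) * T n) * Real.exp (B * T n)) *
              (Real.exp (T n) * E) := by
            gcongr
        _ = E * (1 + Real.exp ((3 + (d + 1) * B) * T n)) := by
            have : Real.exp (T n) * (Real.exp ((d * B + 1) * T n) * Real.exp (B * T n)) *
                Real.exp (T n) = Real.exp ((3 + (d + 1) * B) * T n) := by
              rw [← Real.exp_add, ← Real.exp_add, ← Real.exp_add]
              congr 1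
              ring
            rw [← this]
            ring
        _ ≤ E * (Real.exp (T n) * Real.exp ((3 + (d + 1) * B) * T n)) := by
            have h1 : 1 ≤ Real.exp ((3 + (d + 1) * B) * T n) := by
              rw [← Real.exp_zero]
              apply Real.exp_le_exp.2
              positivity
            have h2 : 1 + Real.exp ((3 + (d + 1) * B) * T n) ≤
                2 * Real.exp ((3 + (d + 1) * B) * T n) := by linarith
            apply mul_le_mul_of_nonneg_left _ hE0.le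
            refine h2.trans ?_
            gcongr
        _ = Real.exp ((4 + (d + 1) * B - Λ) * T n) := by
            rw [hE, ← Real.exp_add, ← Real.exp_add]
            congr 1
            ring
        _ ≤ _ := by
            apply Real.exp_le_exp.2
            apply mul_le_mul_of_nonneg_right _ gT.le
            have h5 : 0 ≤ 2 * B₀ * ((S.card : ℝ) + 1) := by positivity
            have h6 : 0 ≤ κ₁ * (S.card : ℝ) := by positivity
            linarith
  obtain ⟨X, hX⟩ := key.choice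
  obtain ⟨Q, hQ⟩ := hX.choice
  exact ⟨X, Q, hQ⟩

end Pool.Agent.SBT
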