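import Pool.Agent.SBT.StmtsD

set_option autoImplicit false

namespace Pool.Agent.SBT

open Filter

theorem CHG_mono (b : ℕ) (x : ℝ) {X Y : ℕ} (h : X ≤ Y) : chg b x X ≤ chg b x Y := by
  unfold chg
  exact Finset.card_le_card (Finset.filter_subset_filter _ (Finset.Icc_subset_Icc_right h))

theorem chg_proof (hCHW : Stmt_CHW) : Stmt_CHG := by
  intro a b ξ μ ha hb hI hM K
  obtain ⟨Λ, hΛ, hN⟩ := hCHW a b ξ μ ha hb hI hM
  set K' : ℝ := max K 1 with hK'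
  have hK'1 : 1 ≤ K' := le_max_right _ _
  have hKK' : K ≤ K' := le_max_left _ _
  set N : ℕ := ⌈2 * K' * Real.log Λ⌉₊ with hNdef
  have hNle : 2 * K' * Real.log Λ ≤ N := Nat.le_ceil _
  obtain ⟨n₁, hn₁⟩ := eventually_atTop.1 (hN N)
  set n₀ : ℕ := max n₁ 1 with hn₀
  have hn₀1 : 1 ≤ n₀ := le_max_right _ _
  have hn₀n₁ : n₁ ≤ n₀ := le_max_left _ _
  set F : ℕ → ℕ := fun n => chg a ξ n + chg b ξ n with hF
  have hFm : ∀ {X Y : ℕ}, X ≤ Y → F X ≤ F Y := fun h =>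
    Nat.add_le_add (CHG_mono a ξ h) (CHG_mono b ξ h)
  have step : ∀ n, n₀ ≤ n → F n + N ≤ F (Λ * n) := fun n hn => hn₁ n (hn₀n₁.trans hn)
  have hΛ0 : 0 < Λ := by omega
  have ind : ∀ j : ℕ, j * N ≤ F (Λ ^ j * n₀) := by
    intro j
    induction j with
    | zero => simp
    | succ j ih =>
      have h1 : n₀ ≤ Λ ^ j * n₀ := Nat.le_mul_of_pos_left _ (pow_pos hΛ0 j)
      have h2 := step _ h1
      have h3 : Λ ^ (j + 1) * n₀ = Λ * (Λ ^ j * n₀) := by ring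
      rw [h3]
      calc (j + 1) * N = j * N + N := by ring
        _ ≤ F (Λ ^ j * n₀) + N := by omega
        _ ≤ _ := h2
  filter_upwards [eventually_ge_atTop (Λ ^ (n₀ + 1) * n₀)] with X hX
  set j : ℕ := Nat.log Λ (X / n₀) with hj
  have hq : Λ ^ (n₀ + 1) ≤ X / n₀ := (Nat.le_div_iff_mul_le (by omega)).2 hX
  have hqpos : X / n₀ ≠ 0 := by
    have := pow_pos hΛ0 (n₀ + 1)
    omega
  have hj1 : n₀ + 1 ≤ j := Nat.le_log_of_pow_le (by omega) hq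
  have hj2 : Λ ^ j ≤ X / n₀ := Nat.pow_log_le_self Λ hqpos
  have hj3 : X / n₀ < Λ ^ (j + 1) := Nat.lt_pow_succ_log_self (by omega) _
  have hj4 : Λ ^ j * n₀ ≤ X := (Nat.le_div_iff_mul_le (by omega)).1 hj2
  have hj5 : X < Λ ^ (j + 1) * n₀ := (Nat.div_lt_iff_lt_mul (by omega)).1 hj3
  have hj6 : n₀ ≤ Λ ^ (j - 1) := by
    calc n₀ ≤ 2 ^ n₀ := Nat.lt_two_pow_self.le
      _ ≤ Λ ^ n₀ := Nat.pow_le_pow_left hΛ _
      _ ≤ Λ ^ (j - 1) := Nat.pow_le_pow_right hΛ0 (by omega)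
  have hj7 : X < Λ ^ (2 * j) := by
    calc X < Λ ^ (j + 1) * n₀ := hj5
      _ ≤ Λ ^ (j + 1) * Λ ^ (j - 1) := Nat.mul_le_mul_left _ hj6
      _ = Λ ^ (2 * j) := by
        rw [← pow_add]
        congr 1
        omega
  have hXpos : 0 < X := by
    have : 0 < Λ ^ j * n₀ := Nat.mul_pos (pow_pos hΛ0 j) (by omega)
    omega
  have hlog : Real.log X ≤ 2 * j * Real.log Λ := by
    have h1 : (X : ℝ) ≤ (Λ : ℝ) ^ (2 * j) := by exact_mod_cast hj7.le
    have h2 := Real.log_le_log (by exact_mod_cast hXpos) h1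
    rw [Real.log_pow] at h2
    push_cast at h2
    exact h2
  have hlog0 : 0 ≤ Real.log X := Real.log_nonneg (by exact_mod_cast hXpos)
  have hfin : ((j * N : ℕ) : ℝ) ≤ ((F X : ℕ) : ℝ) := by
    exact_mod_cast (ind j).trans (hFm hj4)
  calc K * Real.log X ≤ K' * Real.log X := mul_le_mul_of_nonneg_right hKK' hlog0
    _ ≤ K' * (2 * j * Real.log Λ) := mul_le_mul_of_nonneg_left hlog (by linarith)
    _ = j * (2 * K' * Real.log Λ) := by ring
    _ ≤ j * N := mul_le_mul_of_nonneg_left hNle (Nat.cast_nonneg _)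
    _ ≤ ((F X : ℕ) : ℝ) := by push_cast at hfin ⊢; exact hfin
    _ = (chg a ξ X : ℝ) + chg b ξ X := by simp [hF]

end Pool.Agent.SBT
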