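import Pool.Agent.SBT.StmtsD

/-!
# Squad SBT, module CHN: a chain of approximations is impossible
-/

set_option autoImplicit false

namespace Pool.Agent.SBT

open Filter

namespace CHN_

/-- the distance of two different rationals with related denominators -/
theorem gap (X Y A D : ℤ) (G H : ℕ) (hA : A ≠ 0) (hD : D ≠ 0) (hG : 0 < G) (hH : 0 < H)
    (hdvd : G ∣ H) (hne : (X : ℝ) / (A * (G : ℝ)) ≠ Y / (D * (H : ℝ))) :
    1 ≤ |(X : ℝ) / (A * (G : ℝ)) - Y / (D * (H : ℝ))| * (|(A : ℝ)| * |(D : ℝ)| * H) := by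
  obtain ⟨m, hm⟩ := hdvd
  have hA' : (A : ℝ) ≠ 0 := by exact_mod_cast hA
  have hD' : (D : ℝ) ≠ 0 := by exact_mod_cast hD
  have hG' : (0 : ℝ) < G := by exact_mod_cast hG
  have hH' : (0 : ℝ) < H := by exact_mod_cast hH
  have hm' : (H : ℝ) = G * m := by exact_mod_cast hm
  have key : ((X : ℝ) / (A * (G : ℝ)) - Y / (D * (H : ℝ))) * (A * D * H) =
      ((X * D * m - Y * A : ℤ) : ℝ) := by
    have hmne : (m : ℝ) ≠ 0 := by
      intro h
      rw [hm', h, mul_zero] at hH'
      exact lt_irrefl _ hH'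
    rw [hm']
    push_cast
    field_simp
  have hne' : (X * D * m - Y * A : ℤ) ≠ 0 := by
    intro h
    rw [h, Int.cast_zero] at key
    have h2 : ((A : ℝ) * D * H) ≠ 0 := mul_ne_zero (mul_ne_zero hA' hD') hH'.ne'
    have h3 := (mul_eq_zero.1 key).resolve_right h2
    exact hne (sub_eq_zero.1 h3)
  have h1 : (1 : ℤ) ≤ |X * D * m - Y * A| := Int.one_le_abs hne'
  have h2 : (1 : ℝ) ≤ |((X * D * m - Y * A : ℤ) : ℝ)| := by
    rw [← Int.cast_abs]
    exact_mod_cast h1
  rw [← key, abs_mul, abs_mul, abs_mul, abs_of_pos hH'] at h2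
  exact h2

end CHN_

theorem chn_proof (hGCD : Stmt_GCD) : Stmt_CHN := by
  intro a b ξ μ B ha hb hind hM hB
  obtain ⟨c, hc0, hc1, hgcd⟩ := hGCD a b ha hb hind
  obtain ⟨c₀, hc₀, hmeas⟩ := hM
  set Λ₀ : ℝ := (6 * B + 2) / c with hΛ₀
  have hΛ₀c : c * Λ₀ = 6 * B + 2 := by
    rw [hΛ₀]; field_simp
  have hΛ₀1 : 6 * B + 2 ≤ Λ₀ := by
    rw [hΛ₀, le_div_iff₀ hc0]
    nlinarith
  set n : ℕ := ⌈B + μ * (Λ₀ + 2 * B) + 1⌉₊ with hn
  have hn' : B + μ * (Λ₀ + 2 * B) + 1 ≤ n := Nat.le_ceil _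
  have hstep : ∀ j : ℕ, Λ₀ ≤ Λ₀ + (2 * B + 1) * j := by
    intro j
    have : 0 ≤ (2 * B + 1) * (j : ℝ) := by positivity
    linarith
  refine ⟨n + 1, fun j => Λ₀ + (2 * B + 1) * (j : ℕ), max 1 (-Real.log c₀ + 1), ?_, ?_⟩
  · intro j
    have := hstep j
    simp only
    linarith
  intro T L L' X A hT hL hL' hA0 hA happ
  have hT1 : 1 ≤ T := le_trans (le_max_left _ _) hT
  have hT2 : -Real.log c₀ + 1 ≤ T := le_trans (le_max_right _ _) hT
  have hT0 : 0 < T := by linarith
  have hla : 0 < Real.log a := Real.log_pos (by exact_mod_cast ha)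
  have hlb : 0 < Real.log b := Real.log_pos (by exact_mod_cast hb)
  -- the greatest common divisors
  set G : Fin (n + 1) → ℕ := fun j => Nat.gcd (a ^ L j) (b ^ L' j) with hG
  have hGpos : ∀ j, 0 < G j := fun j => Nat.gcd_pos_of_pos_left _ (by positivity)
  have hGle : ∀ j : Fin (n + 1), (G j : ℝ) ≤
      Real.exp ((1 - c) * ((Λ₀ + (2 * B + 1) * (j : ℕ) + B) * T)) := by
    intro j
    refine (hgcd (L j) (L' j)).trans ?_
    refine Real.exp_le_exp.2 (mul_le_mul_of_nonneg_left ?_ (by linarith))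
    refine max_le ?_ ?_
    · have := (abs_le.1 (hL j)).2
      nlinarith
    · have := (abs_le.1 (hL' j)).2
      nlinarith
  -- all the fractions are equal
  have heq : ∀ j : ℕ, ∀ hj : j < n + 1,
      (X ⟨j, hj⟩ : ℝ) / (A ⟨j, hj⟩ * (G ⟨j, hj⟩ : ℝ)) =
        (X 0 : ℝ) / (A 0 * (G 0 : ℝ)) := by
    intro j
    induction j with
    | zero => intro hj; rfl
    | succ j ih =>
      intro hj
      have hj' : j < n + 1 := by omega
      rw [← ih hj']
      by_contra hne
      set u : Fin (n + 1) := ⟨j, hj'⟩ with hu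
      set w : Fin (n + 1) := ⟨j + 1, hj⟩ with hw
      have huv : ((u : ℕ) : ℝ) = j := rfl
      have hwv : ((w : ℕ) : ℝ) = j + 1 := by
        rw [hw]; push_cast; ring
      have hLle : L u ≤ L w := by
        have h1 := (abs_le.1 (hL u)).2
        have h2 := (abs_le.1 (hL w)).1
        simp only [huv] at h1
        simp only [hwv] at h2
        have h3 : (L u : ℝ) * Real.log a ≤ L w * Real.log a := by nlinarith
        exact_mod_cast le_of_mul_le_mul_right h3 hla
      have hLle' : L' u ≤ L' w := by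
        have h1 := (abs_le.1 (hL' u)).2
        have h2 := (abs_le.1 (hL' w)).1
        simp only [huv] at h1
        simp only [hwv] at h2
        have h3 : (L' u : ℝ) * Real.log b ≤ L' w * Real.log b := by nlinarith
        exact_mod_cast le_of_mul_le_mul_right h3 hlb
      have hdvd : G u ∣ G w := by
        refine Nat.dvd_gcd ?_ ?_
        · exact (Nat.gcd_dvd_left _ _).trans (pow_dvd_pow a hLle)
        · exact (Nat.gcd_dvd_right _ _).trans (pow_dvd_pow b hLle')
      have hgap := CHN_.gap (X u) (X w) (A u) (A w) (G u) (G w) (hA0 u) (hA0 w) (hGpos u)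
        (hGpos w) hdvd (fun h => hne h.symm)
      have hdiff : |(X u : ℝ) / (A u * (G u : ℝ)) - X w / (A w * (G w : ℝ))| ≤
          2 * Real.exp ((B - (Λ₀ + (2 * B + 1) * j)) * T) := by
        have h1 := happ u
        have h2 := happ w
        simp only [huv] at h1
        simp only [hwv] at h2
        have h3 : Real.exp ((B - (Λ₀ + (2 * B + 1) * ((j : ℝ) + 1))) * T) ≤
            Real.exp ((B - (Λ₀ + (2 * B + 1) * j)) * T) := by
          refine Real.exp_le_exp.2 ?_
          nlinarith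
        calc |(X u : ℝ) / (A u * (G u : ℝ)) - X w / (A w * (G w : ℝ))|
            = |(ξ - X w / (A w * (G w : ℝ))) - (ξ - (X u : ℝ) / (A u * (G u : ℝ)))| := by
              congr 1; ring
          _ ≤ |ξ - X w / (A w * (G w : ℝ))| + |ξ - (X u : ℝ) / (A u * (G u : ℝ))| :=
              abs_sub _ _
          _ ≤ _ := by
              have h2' := h2.trans h3
              have : |ξ - X w / (A w * (G w : ℝ))| +
                  |ξ - (X u : ℝ) / (A u * (G u : ℝ))| ≤
                  Real.exp ((B - (Λ₀ + (2 * B + 1) * j)) * T) +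
                  Real.exp ((B - (Λ₀ + (2 * B + 1) * j)) * T) := add_le_add h2' h1
              linarith
      have hden : |(A u : ℝ)| * |(A w : ℝ)| * G w ≤
          Real.exp (B * T) * Real.exp (B * T) *
            Real.exp ((1 - c) * ((Λ₀ + (2 * B + 1) * ((j : ℝ) + 1) + B) * T)) := by
        have h1 := hGle w
        simp only [hwv] at h1
        exact mul_le_mul (mul_le_mul (hA u) (hA w) (abs_nonneg _) (Real.exp_pos _).le) h1
          (by positivity) (by positivity)
      have hfin : (1 : ℝ) ≤ 2 * Real.exp ((B - (Λ₀ + (2 * B + 1) * j)) * T) *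
          (Real.exp (B * T) * Real.exp (B * T) *
            Real.exp ((1 - c) * ((Λ₀ + (2 * B + 1) * ((j : ℝ) + 1) + B) * T))) :=
        hgap.trans (mul_le_mul hdiff hden (by positivity) (by positivity))
      rw [← Real.exp_add, ← Real.exp_add, mul_assoc, ← Real.exp_add] at hfin
      have hexp : (B - (Λ₀ + (2 * B + 1) * j)) * T +
          (B * T + B * T + (1 - c) * ((Λ₀ + (2 * B + 1) * ((j : ℝ) + 1) + B) * T)) ≤ -1 := by
        have e1 : (B - (Λ₀ + (2 * B + 1) * j)) * T +
          (B * T + B * T + (1 - c) * ((Λ₀ + (2 * B + 1) * ((j : ℝ) + 1) + B) * T)) =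
          (6 * B + 1 - c * Λ₀ - c * ((2 * B + 1) * j) - c * (3 * B + 1)) * T := by ring
        rw [e1, hΛ₀c]
        have h1 : 0 ≤ c * ((2 * B + 1) * (j : ℝ)) := by positivity
        have h2 : 0 ≤ c * (3 * B + 1) := by positivity
        nlinarith
      have h2 : (2 : ℝ) * Real.exp (-1) < 1 := by
        have h3 : (2 : ℝ) < Real.exp 1 := by
          have := Real.exp_one_gt_d9
          linarith
        rw [Real.exp_neg]
        rw [← div_eq_mul_inv, div_lt_one (Real.exp_pos _)]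
        exact h3
      have h3 := Real.exp_le_exp.2 hexp
      nlinarith
  -- the last approximation is too good
  have hlast := happ ⟨n, by omega⟩
  have hq := heq n (by omega)
  have hG0 := hGle 0
  have e0 : (((0 : Fin (n + 1)) : ℕ) : ℝ) = 0 := by simp
  have en : (((⟨n, by omega⟩ : Fin (n + 1)) : ℕ) : ℝ) = n := rfl
  simp only [e0, mul_zero, add_zero] at hG0
  simp only [en] at hlast
  have hlast' : |ξ - (X 0 : ℝ) / (A 0 * (G 0 : ℝ))| ≤
      Real.exp ((B - (Λ₀ + (2 * B + 1) * n)) * T) := by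
    rw [← hq]; exact hlast
  -- natural denominator
  set q : ℕ := (A 0).natAbs * G 0 with hqd
  have hqpos : 0 < q := Nat.mul_pos (Int.natAbs_pos.2 (hA0 0)) (hGpos 0)
  have hqr : (q : ℝ) = |(A 0 : ℝ)| * G 0 := by
    rw [hqd]; push_cast
    rw [Nat.cast_natAbs, Int.cast_abs]
  obtain ⟨P, hP⟩ : ∃ P : ℤ, (X 0 : ℝ) / (A 0 * (G 0 : ℝ)) = P / (q : ℝ) := by
    rcases lt_or_gt_of_ne (hA0 0) with h | h
    · refine ⟨-X 0, ?_⟩
      have h' : (A 0 : ℝ) < 0 := by exact_mod_cast h
      rw [hqr, abs_of_neg h', Int.cast_neg, neg_mul, neg_div_neg_eq]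
    · refine ⟨X 0, ?_⟩
      have h' : (0 : ℝ) < A 0 := by exact_mod_cast h
      rw [hqr, abs_of_pos h']
  have hme := hmeas q P hqpos
  rw [← hP] at hme
  have hqle : (q : ℝ) ≤ Real.exp ((Λ₀ + 2 * B) * T) := by
    rw [hqr]
    calc |(A 0 : ℝ)| * G 0 ≤ Real.exp (B * T) * Real.exp ((1 - c) * ((Λ₀ + B) * T)) :=
          mul_le_mul (hA 0) hG0 (by positivity) (by positivity)
      _ ≤ Real.exp (B * T) * Real.exp ((Λ₀ + B) * T) := by
          refine mul_le_mul_of_nonneg_left (Real.exp_le_exp.2 ?_) (Real.exp_pos _).le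
          have h0 : 0 ≤ (Λ₀ + B) * T := by
            apply mul_nonneg _ hT0.le
            linarith
          nlinarith
      _ = Real.exp ((Λ₀ + 2 * B) * T) := by
          rw [← Real.exp_add]; congr 1; ring
  have hqpow : (q : ℝ) ^ μ ≤ Real.exp (μ * ((Λ₀ + 2 * B) * T)) := by
    rw [Real.exp_nat_mul]
    exact pow_le_pow_left₀ (by positivity) hqle μ
  have hfin : c₀ ≤ Real.exp (-T) := by
    calc c₀ ≤ |ξ - (X 0 : ℝ) / (A 0 * (G 0 : ℝ))| * (q : ℝ) ^ μ := hme
      _ ≤ Real.exp ((B - (Λ₀ + (2 * B + 1) * n)) * T) *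
            Real.exp (μ * ((Λ₀ + 2 * B) * T)) :=
          mul_le_mul hlast' hqpow (by positivity) (Real.exp_pos _).le
      _ = Real.exp ((B - (Λ₀ + (2 * B + 1) * n)) * T + μ * ((Λ₀ + 2 * B) * T)) := by
          rw [← Real.exp_add]
      _ ≤ Real.exp (-T) := by
          refine Real.exp_le_exp.2 ?_
          have e1 : (B - (Λ₀ + (2 * B + 1) * n)) * T + μ * ((Λ₀ + 2 * B) * T) =
            (B + μ * (Λ₀ + 2 * B) - Λ₀ - 2 * B * n - n) * T := by ring
          rw [e1]
          have h1 : 0 ≤ 2 * B * (n : ℝ) := by positivity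
          have h2 : B + μ * (Λ₀ + 2 * B) - Λ₀ - 2 * B * n - n ≤ -1 := by linarith
          nlinarith
  have hlog : Real.log c₀ ≤ -T := by
    have := Real.log_le_log hc₀ hfin
    rwa [Real.log_exp] at this
  linarith

end Pool.Agent.SBT
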