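import Pool.Agent.SBT.StmtsD

set_option autoImplicit false

namespace Pool.Agent.SBT

open Filter

namespace CHW_

lemma rep_sum (b D : ℤ) (M : ℕ) (hD : 0 ≤ D) (f : ℕ → ℤ) (g : ℕ → ℕ) : ∀ (N : ℕ) (S : Finset ℕ),
    S.card ≤ N → (∀ i ∈ S, |f i| ≤ D) → (∀ i ∈ S, g i ≤ M) →
    ∃ (c : Fin N → ℤ) (m : Fin N → ℕ), (∀ t, |c t| ≤ D) ∧ (∀ t, m t ≤ M) ∧
      ∑ i ∈ S, f i * b ^ g i = ∑ t, c t * b ^ m t := by
  intro N
  induction N with
  | zero =>
    intro S hS _ _
    have : S = ∅ := by rw [← Finset.card_eq_zero]; omega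
    subst this
    exact ⟨fun t => t.elim0, fun t => t.elim0, fun t => t.elim0, fun t => t.elim0, by simp⟩
  | succ N ih =>
    intro S hS h1 h2
    rcases S.eq_empty_or_nonempty with h | ⟨a, ha⟩
    · subst h
      exact ⟨fun _ => 0, fun _ => 0, fun _ => by simpa using hD, fun _ => Nat.zero_le _, by simp⟩
    · obtain ⟨c, m, hc, hm, he⟩ := ih (S.erase a) (by rw [Finset.card_erase_of_mem ha]; omega)
        (fun i hi => h1 i (Finset.mem_of_mem_erase hi)) (fun i hi => h2 i (Finset.mem_of_mem_erase hi))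
      refine ⟨Fin.cons (f a) c, Fin.cons (g a) m, ?_, ?_, ?_⟩
      · intro t
        refine Fin.cases ?_ (fun t => ?_) t
        · simpa using h1 a ha
        · simpa using hc t
      · intro t
        refine Fin.cases ?_ (fun t => ?_) t
        · simpa using h2 a ha
        · simpa using hm t
      · rw [Fin.sum_univ_succ]
        simp only [Fin.cons_zero, Fin.cons_succ]
        rw [← he, ← Finset.add_sum_erase S _ ha]

lemma floor_id (b : ℤ) (F d : ℕ → ℤ) (h : ∀ i, F (i + 1) = b * F i + d (i + 1)) (n : ℕ) :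
    ∀ L, n + 1 ≤ L → (b - 1) * F L = (b - 1) * b ^ (L - n) * F n +
      (d (n + 1) * b ^ (L - n) + (-d L * b ^ 0 +
        ∑ i ∈ Finset.Ico (n + 1) L, (d (i + 1) - d i) * b ^ (L - i))) := by
  intro L hL
  induction L, hL using Nat.le_induction with
  | base =>
    rw [h n, Finset.Ico_self, Finset.sum_empty, show n + 1 - n = 1 by omega]
    ring
  | succ L hL ih =>
    rw [h L, Finset.sum_Ico_succ_top hL, show L + 1 - L = 1 by omega]
    have e1 : L + 1 - n = (L - n) + 1 := by omega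
    have e2 : ∑ i ∈ Finset.Ico (n + 1) L, (d (i + 1) - d i) * b ^ (L + 1 - i) =
        b * ∑ i ∈ Finset.Ico (n + 1) L, (d (i + 1) - d i) * b ^ (L - i) := by
      rw [Finset.mul_sum]
      apply Finset.sum_congr rfl
      intro i hi
      rw [Finset.mem_Ico] at hi
      rw [show L + 1 - i = (L - i) + 1 by omega]
      ring
    rw [e1, e2]
    have : (b - 1) * (b * F L + d (L + 1)) = b * ((b - 1) * F L) + (b - 1) * d (L + 1) := by ring
    rw [this, ih]
    ring

lemma key (hDGT : Stmt_DGT) (b : ℕ) (hb : 2 ≤ b) (ξ : ℝ) (n L N M : ℕ) (hnL : n + 1 ≤ L)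
    (hLM : L ≤ M)
    (hcard : ((Finset.Ico (n + 1) L).filter (fun i => dig b ξ i ≠ dig b ξ (i + 1))).card ≤ N) :
    ∃ (c : Fin (N + 2) → ℤ) (m : Fin (N + 2) → ℕ), (∀ t, |c t| ≤ b) ∧ (∀ t, m t ≤ M) ∧
      ((b : ℤ) - 1) * ⌊ξ * (b : ℝ) ^ L⌋ = ((b : ℤ) - 1) * (b : ℤ) ^ (L - n) * ⌊ξ * (b : ℝ) ^ n⌋ +
        ∑ t, c t * (b : ℤ) ^ m t := by
  obtain ⟨h1, h2, -, -⟩ := hDGT b ξ hb
  have hid := floor_id (b : ℤ) (fun i => ⌊ξ * (b : ℝ) ^ i⌋) (dig b ξ) h2 n L hnL
  obtain ⟨c, m, hc, hm, he⟩ := rep_sum (b : ℤ) (b : ℤ) M (by positivity)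
    (fun i => dig b ξ (i + 1) - dig b ξ i) (fun i => L - i) N
    ((Finset.Ico (n + 1) L).filter (fun i => dig b ξ i ≠ dig b ξ (i + 1))) hcard
    (fun i _ => by
      have a1 := h1 i
      have a2 := h1 (i + 1)
      rw [abs_le]; constructor <;> linarith [a1.1, a1.2, a2.1, a2.2])
    (fun i _ => by omega)
  have he2 : ∑ i ∈ Finset.Ico (n + 1) L, (dig b ξ (i + 1) - dig b ξ i) * (b : ℤ) ^ (L - i) =
      ∑ t, c t * (b : ℤ) ^ m t := by
    rw [← he, Finset.sum_filter]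
    apply Finset.sum_congr rfl
    intro i _
    split_ifs with h
    · rfl
    · push Not at h
      rw [h]; ring
  refine ⟨Fin.cons (dig b ξ (n + 1)) (Fin.cons (-dig b ξ L) c),
    Fin.cons (L - n) (Fin.cons 0 m), ?_, ?_, ?_⟩
  · intro t
    refine Fin.cases ?_ (fun t => ?_) t
    · have a1 := h1 (n + 1)
      rw [Fin.cons_zero, abs_le]; constructor <;> linarith [a1.1, a1.2]
    · refine Fin.cases ?_ (fun t => ?_) t
      · have a1 := h1 L
        rw [Fin.cons_succ, Fin.cons_zero, abs_le]; constructor <;> linarith [a1.1, a1.2]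
      · simpa using hc t
  · intro t
    refine Fin.cases ?_ (fun t => ?_) t
    · simp only [Fin.cons_zero]; omega
    · refine Fin.cases ?_ (fun t => ?_) t
      · simp
      · simpa using hm t
  · rw [hid, Fin.sum_univ_succ, Fin.sum_univ_succ]
    simp only [Fin.cons_zero, Fin.cons_succ]
    rw [he2]

lemma chg_add (b : ℕ) (ξ : ℝ) (n L M : ℕ) (hLM : L ≤ M) (hnM : n ≤ M) :
    chg b ξ n + ((Finset.Ico (n + 1) L).filter (fun i => dig b ξ i ≠ dig b ξ (i + 1))).card ≤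
      chg b ξ M := by
  unfold chg
  rw [← Finset.card_union_of_disjoint]
  · apply Finset.card_le_card
    intro i hi
    rw [Finset.mem_union, Finset.mem_filter, Finset.mem_filter, Finset.mem_Icc,
      Finset.mem_Ico] at hi
    rw [Finset.mem_filter, Finset.mem_Icc]
    rcases hi with ⟨h1, h2⟩ | ⟨h1, h2⟩
    · exact ⟨by omega, h2⟩
    · exact ⟨by omega, h2⟩
  · rw [Finset.disjoint_left]
    intro i hi hi'
    rw [Finset.mem_filter, Finset.mem_Icc] at hi
    rw [Finset.mem_filter, Finset.mem_Ico] at hi'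
    omega

end CHW_

open CHW_ in
/-- digit changes in a window -/
theorem chw_proof (hCOR : Stmt_COR) (hDGT : Stmt_DGT) : Stmt_CHW := by
  intro a b ξ μ ha hb hab hξ
  set bs : Fin 2 → ℕ := ![a, b] with hbs
  have hbs2 : ∀ r, 2 ≤ bs r := by
    intro r; fin_cases r
    · exact ha
    · exact hb
  set B : ℝ := 2 * (Real.log a + Real.log b) + 2 with hB
  have hla : 0 < Real.log a := Real.log_pos (by exact_mod_cast (by omega : 1 < a))
  have hlb : 0 < Real.log b := Real.log_pos (by exact_mod_cast (by omega : 1 < b))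
  have hlog : ∀ r, 0 < Real.log (bs r) := by
    intro r
    exact Real.log_pos (by exact_mod_cast (by have := hbs2 r; omega : 1 < bs r))
  have hlogB : ∀ r, 2 * Real.log (bs r) + 2 ≤ B := by
    intro r; fin_cases r
    · show 2 * Real.log a + 2 ≤ B
      rw [hB]; linarith
    · show 2 * Real.log b + 2 ≤ B
      rw [hB]; linarith
  have hB0 : 0 ≤ B := by rw [hB]; positivity
  obtain ⟨Λ₀, hΛ₀, hfalse₀⟩ := hCOR bs ξ μ hbs2 hab hξ 3 B hB0
  obtain ⟨k, Λ, hΛ, hfalse⟩ : ∃ (k : ℕ) (Λ : Fin k → ℝ), (∀ j, B + 1 ≤ Λ j) ∧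
      ∀ (U : Ultrafilter ℕ) (T : ℕ → ℝ) (y : Fin 3 → ℕ → ℤ) (L : Fin 2 → Fin k → ℕ → ℕ)
        (N : ℕ) (C : ℝ) (c₀ : Fin 2 → Fin k → Fin N → ℤ) (m₀ : Fin 2 → Fin k → Fin N → ℕ → ℕ)
        (c : Fin 2 → Fin k → Fin 3 → Fin N → ℤ) (m : Fin 2 → Fin k → Fin 3 → Fin N → ℕ → ℕ),
        Tendsto T (U : Filter ℕ) atTop →
        (∀ᶠ n in (U : Filter ℕ), ∀ i, |(y i n : ℝ)| ≤ Real.exp (B * T n)) →
        (∀ r j, ∀ᶠ n in (U : Filter ℕ), |L r j n * Real.log (bs r) - Λ j * T n| ≤ B * T n) →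
        (∀ r j, ∀ᶠ n in (U : Filter ℕ),
          (∑ t, c₀ r j t * (bs r : ℤ) ^ m₀ r j t n) * ⌊ξ * (bs r : ℝ) ^ L r j n⌋ =
            ∑ i, (∑ t, c r j i t * (bs r : ℤ) ^ m r j i t n) * y i n) →
        (∀ r j, ∀ᶠ n in (U : Filter ℕ), ∑ t, c₀ r j t * (bs r : ℤ) ^ m₀ r j t n ≠ 0) →
        (∀ r j t, ∀ᶠ n in (U : Filter ℕ),
          (m₀ r j t n : ℝ) * Real.log (bs r) ≤ B * T n) →
        (∀ r j i t, ∀ᶠ n in (U : Filter ℕ), (m r j i t n : ℝ) ≤ C * T n) → False :=
    ⟨1, fun _ => Λ₀, fun _ => hΛ₀, fun U T y L N C c₀ m₀ c m h1 h2 h3 h4 h5 h6 h7 =>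
      hfalse₀ U T y (fun r => L r 0) N C (fun r => c₀ r 0) (fun r => m₀ r 0) (fun r => c r 0)
        (fun r => m r 0) h1 h2 (fun r => h3 r 0) (fun r => h4 r 0) (fun r => h5 r 0)
        (fun r t => h6 r 0 t) (fun r i t => h7 r 0 i t)⟩
  have hΛ0 : ∀ j, 0 < Λ j := fun j => by have := hΛ j; linarith
  have hlog2 : 0 < Real.log 2 := Real.log_pos one_lt_two
  set Λn : ℕ := (∑ j, ⌈Λ j / Real.log 2⌉₊) + 2 with hΛn
  have hΛn2 : ∀ j, Λ j / Real.log 2 ≤ (Λn : ℝ) := by
    intro j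
    have h1 : ⌈Λ j / Real.log 2⌉₊ ≤ ∑ j, ⌈Λ j / Real.log 2⌉₊ :=
      Finset.single_le_sum (f := fun j => ⌈Λ j / Real.log 2⌉₊) (fun _ _ => Nat.zero_le _)
        (Finset.mem_univ j)
    have h2 : ⌈Λ j / Real.log 2⌉₊ ≤ Λn := by omega
    exact (Nat.le_ceil _).trans (by exact_mod_cast h2)
  refine ⟨Λn, by omega, fun N => ?_⟩
  by_contra hcon
  set Bad : ℕ → Prop := fun n =>
    ¬ (chg a ξ n + chg b ξ n + N ≤ chg a ξ (Λn * n) + chg b ξ (Λn * n)) with hBad
  have hfr : ∃ᶠ n in atTop, Bad n := Filter.not_eventually.mp hcon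
  obtain ⟨U, hU, hbad⟩ : ∃ U : Ultrafilter ℕ, (U : Filter ℕ) ≤ atTop ∧
      ∀ᶠ n in (U : Filter ℕ), Bad n := by
    have hne : (atTop ⊓ 𝓟 {n | Bad n}).NeBot := Filter.frequently_mem_iff_neBot.mp hfr
    refine ⟨Ultrafilter.of (atTop ⊓ 𝓟 {n | Bad n}), (Ultrafilter.of_le _).trans inf_le_left, ?_⟩
    have h1 : (Ultrafilter.of (atTop ⊓ 𝓟 {n | Bad n}) : Filter ℕ) ≤ 𝓟 {n | Bad n} :=
      (Ultrafilter.of_le _).trans inf_le_right
    exact h1 (mem_principal_self _)
  have hge1 : ∀ᶠ n in (U : Filter ℕ), 1 ≤ n := hU (eventually_ge_atTop 1)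
  set L : Fin 2 → Fin k → ℕ → ℕ := fun r j n => ⌊Λ j * n / Real.log (bs r)⌋₊ with hL
  have hlog2r : ∀ r, Real.log 2 ≤ Real.log (bs r) := by
    intro r
    exact Real.log_le_log (by norm_num) (by exact_mod_cast hbs2 r)
  have hL1 : ∀ r j (n : ℕ), 1 ≤ n → n + 1 ≤ L r j n := by
    intro r j n hn
    rw [hL]
    apply Nat.le_floor
    rw [le_div_iff₀ (hlog r)]
    have hn' : (1 : ℝ) ≤ n := by exact_mod_cast hn
    have h1 := hΛ j
    have h2 := hlogB r
    have h3 := hlog r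
    push_cast
    nlinarith
  have hL2 : ∀ r j (n : ℕ), L r j n ≤ Λn * n := by
    intro r j n
    rw [hL]
    have h1 : Λ j * n / Real.log (bs r) ≤ (Λn * n : ℕ) := by
      rw [div_le_iff₀ (hlog r)]
      have h2 := hΛn2 j
      rw [div_le_iff₀ hlog2] at h2
      have h3 := hlog2r r
      have h4 : (0 : ℝ) ≤ n := by positivity
      have h5 : (0 : ℝ) ≤ Λn := by positivity
      push_cast
      calc Λ j * n ≤ (Λn * Real.log 2) * n := mul_le_mul_of_nonneg_right h2 h4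
        _ ≤ (Λn * Real.log (bs r)) * n :=
          mul_le_mul_of_nonneg_right (mul_le_mul_of_nonneg_left h3 h5) h4
        _ = Λn * n * Real.log (bs r) := by ring
    exact Nat.floor_le_of_le h1
  have hL3 : ∀ r j (n : ℕ), 1 ≤ n →
      |(L r j n : ℝ) * Real.log (bs r) - Λ j * n| ≤ B * n := by
    intro r j n hn
    have hn' : (1 : ℝ) ≤ n := by exact_mod_cast hn
    have hnn : 0 ≤ Λ j * n / Real.log (bs r) :=
      div_nonneg (mul_nonneg (hΛ0 j).le (by positivity)) (hlog r).le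
    have h1 : (L r j n : ℝ) ≤ Λ j * n / Real.log (bs r) := by
      rw [hL]; exact Nat.floor_le hnn
    have h2 : Λ j * n / Real.log (bs r) < (L r j n : ℝ) + 1 := by
      rw [hL]; exact Nat.lt_floor_add_one _
    rw [le_div_iff₀ (hlog r)] at h1
    rw [div_lt_iff₀ (hlog r)] at h2
    have h3 := hlogB r
    have h4 := hlog r
    rw [abs_le]
    constructor
    · nlinarith
    · nlinarith
  have hkey : ∀ r j, ∀ᶠ n in (U : Filter ℕ), ∃ cm : (Fin (N + 2) → ℤ) × (Fin (N + 2) → ℕ),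
      (∀ t, |cm.1 t| ≤ bs r) ∧ (∀ t, cm.2 t ≤ Λn * n) ∧
      ((bs r : ℤ) - 1) * ⌊ξ * (bs r : ℝ) ^ L r j n⌋ =
        ((bs r : ℤ) - 1) * (bs r : ℤ) ^ (L r j n - n) * ⌊ξ * (bs r : ℝ) ^ n⌋ +
          ∑ t, cm.1 t * (bs r : ℤ) ^ cm.2 t := by
    intro r j
    filter_upwards [hbad, hge1] with n hn hn1
    have hnM : n ≤ Λn * n := by
      have : 2 * n ≤ Λn * n := Nat.mul_le_mul_right n (by omega)
      omega
    have ma := chg_add a ξ n (n + 1) (Λn * n)
      ((hL1 r j n hn1).trans (hL2 r j n)) hnM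
    have mb := chg_add b ξ n (n + 1) (Λn * n)
      ((hL1 r j n hn1).trans (hL2 r j n)) hnM
    have mr := chg_add (bs r) ξ n (L r j n) (Λn * n) (hL2 r j n) hnM
    have hcard : ((Finset.Ico (n + 1) (L r j n)).filter
        (fun i => dig (bs r) ξ i ≠ dig (bs r) ξ (i + 1))).card ≤ N := by
      rw [hBad] at hn
      simp only [not_le] at hn
      rcases (by fin_cases r <;> simp : r = 0 ∨ r = 1) with h | h
      · subst h
        have e : bs 0 = a := rfl
        rw [e] at mr ⊢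
        omega
      · subst h
        have e : bs 1 = b := rfl
        rw [e] at mr ⊢
        omega
    obtain ⟨c, m, h1, h2, h3⟩ := key hDGT (bs r) (hbs2 r) ξ n (L r j n) N (Λn * n)
      (hL1 r j n hn1) (hL2 r j n) hcard
    exact ⟨(c, m), h1, h2, h3⟩
  choose f hf using fun r j => (hkey r j).choice
  have hconst : ∀ r j, ∃ c : Fin (N + 2) → ℤ, ∀ᶠ n in (U : Filter ℕ), (f r j n).1 = c := by
    intro r j
    have hfin : {c : Fin (N + 2) → ℤ | ∀ t, |c t| ≤ bs r}.Finite :=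
      (Set.finite_Icc (fun _ => -(bs r : ℤ)) (fun _ => (bs r : ℤ))).subset
        (fun c hc => ⟨fun t => (abs_le.1 (hc t)).1, fun t => (abs_le.1 (hc t)).2⟩)
    have h1 : (⋃ c ∈ {c : Fin (N + 2) → ℤ | ∀ t, |c t| ≤ bs r}, {n | (f r j n).1 = c}) ∈ U := by
      filter_upwards [hf r j] with n hn
      simp only [Set.mem_iUnion]
      exact ⟨(f r j n).1, hn.1, rfl⟩
    obtain ⟨c, -, hc⟩ := (Ultrafilter.finite_biUnion_mem_iff hfin).1 h1
    exact ⟨c, hc⟩
  choose c₂ hc₂ using hconst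
  have hbound : ∀ r : Fin 2, ∀ᶠ n : ℕ in (U : Filter ℕ),
      |((⌊ξ * (bs r : ℝ) ^ n⌋ : ℤ) : ℝ)| ≤ Real.exp (B * n) := by
    intro r
    have h1 : ∀ᶠ n : ℕ in (U : Filter ℕ), |ξ| + 1 ≤ Real.exp n := by
      have h2 : Tendsto (fun n : ℕ => Real.exp (n : ℝ)) atTop atTop :=
        Real.tendsto_exp_atTop.comp tendsto_natCast_atTop_atTop
      exact hU (h2.eventually_ge_atTop (|ξ| + 1))
    filter_upwards [h1] with n hn
    have h2 : (1 : ℝ) ≤ (bs r : ℝ) ^ n :=
      one_le_pow₀ (by exact_mod_cast (by have := hbs2 r; omega : 1 ≤ bs r))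
    have h3 : |((⌊ξ * (bs r : ℝ) ^ n⌋ : ℤ) : ℝ)| ≤ |ξ * (bs r : ℝ) ^ n| + 1 := by
      have h4 := Int.floor_le (ξ * (bs r : ℝ) ^ n)
      have h5 := Int.lt_floor_add_one (ξ * (bs r : ℝ) ^ n)
      rw [abs_le]
      constructor
      · have := neg_abs_le (ξ * (bs r : ℝ) ^ n); linarith
      · have := le_abs_self (ξ * (bs r : ℝ) ^ n); linarith
    have h6 : (bs r : ℝ) ^ n = Real.exp (Real.log (bs r) * n) := by
      rw [mul_comm, Real.exp_nat_mul, Real.exp_log (by have := hbs2 r; positivity)]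
    have h7 : |ξ * (bs r : ℝ) ^ n| + 1 ≤ (|ξ| + 1) * (bs r : ℝ) ^ n := by
      rw [abs_mul, abs_of_nonneg (by positivity : (0 : ℝ) ≤ (bs r : ℝ) ^ n)]
      nlinarith
    calc |((⌊ξ * (bs r : ℝ) ^ n⌋ : ℤ) : ℝ)| ≤ (|ξ| + 1) * (bs r : ℝ) ^ n := h3.trans h7
      _ ≤ Real.exp n * Real.exp (Real.log (bs r) * n) := by
        rw [← h6]; exact mul_le_mul_of_nonneg_right hn (by positivity)
      _ = Real.exp ((1 + Real.log (bs r)) * n) := by rw [← Real.exp_add]; ring_nf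
      _ ≤ Real.exp (B * n) := by
        apply Real.exp_le_exp.2
        apply mul_le_mul_of_nonneg_right _ (by positivity)
        have := hlogB r; have := hlog r; linarith
  refine hfalse U (fun n => (n : ℝ))
    (fun i n => Fin.lastCases (motive := fun _ => ℤ) 1 (fun r => ⌊ξ * (bs r : ℝ) ^ n⌋) i)
    L (N + 2) Λn
    (fun r _ t => if t = 0 then (bs r : ℤ) - 1 else 0) (fun _ _ _ _ => 0)
    (fun r j i t => Fin.lastCases (motive := fun _ => ℤ) (c₂ r j t)
      (fun r' => if r' = r ∧ t = 0 then (bs r : ℤ) - 1 else 0) i)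
    (fun r j i t n => Fin.lastCases (motive := fun _ => ℕ) ((f r j n).2 t)
      (fun _ => L r j n - n) i) ?_ ?_ ?_ ?_ ?_ ?_ ?_
  · exact tendsto_natCast_atTop_atTop.mono_left hU
  · have h0 := hbound 0
    have h1 := hbound 1
    filter_upwards [h0, h1] with n hn0 hn1 i
    refine Fin.lastCases ?_ (fun r => ?_) i
    · simp only [Fin.lastCases_last]
      rw [Int.cast_one, abs_one]
      exact Real.one_le_exp (by positivity)
    · simp only [Fin.lastCases_castSucc]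
      rcases (by fin_cases r <;> simp : r = 0 ∨ r = 1) with h | h
      · subst h; exact hn0
      · subst h; exact hn1
  · intro r j
    filter_upwards [hge1] with n hn
    exact hL3 r j n hn
  · intro r j
    filter_upwards [hf r j, hc₂ r j] with n hn hc
    obtain ⟨-, -, h3⟩ := hn
    rw [hc] at h3
    rw [Fin.sum_univ_castSucc (n := 2)]
    simp only [Fin.lastCases_last, Fin.lastCases_castSucc, pow_zero, mul_one]
    rw [Finset.sum_ite_eq' Finset.univ (0 : Fin (N + 2))]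
    simp only [Finset.mem_univ, if_true]
    rw [h3]
    congr 1
    rw [Finset.sum_eq_single r]
    · congr 1
      rw [Finset.sum_eq_single (0 : Fin (N + 2))]
      · simp
      · intro t _ ht
        rw [if_neg (by tauto), zero_mul]
      · simp
    · intro r' _ hr'
      rw [Finset.sum_eq_zero, zero_mul]
      intro t _
      rw [if_neg (by tauto), zero_mul]
    · simp
  · intro r j
    filter_upwards with n
    simp only [pow_zero, mul_one]
    rw [Finset.sum_ite_eq' Finset.univ (0 : Fin (N + 2))]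
    simp only [Finset.mem_univ, if_true]
    have := hbs2 r
    omega
  · intro r j t
    filter_upwards with n
    simp only [Nat.cast_zero, zero_mul]
    positivity
  · intro r j i t
    filter_upwards [hf r j] with n hn
    refine Fin.lastCases ?_ (fun r' => ?_) i
    · simp only [Fin.lastCases_last]
      exact_mod_cast hn.2.1 t
    · simp only [Fin.lastCases_castSucc]
      have h1 := hL2 r j n
      have h2 : L r j n - n ≤ Λn * n := by omega
      exact_mod_cast h2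

end Pool.Agent.SBT
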