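import Pool.Agent.SBT.StmtsG
import Pool.Agent.SBT.Api

/-!
# COG: the core theorem, general form
-/

set_option autoImplicit false

namespace Pool.Agent.SBT

open Filter

namespace COG_

theorem sm_un {U : Ultrafilter ℕ} {S : Finset ℕ} {T : ℕ → ℝ} {B : ℝ} {u : ℕ → ℚ}
    (h : u ∈ Sm U S T B) : u ∈ Un U S T := ⟨h.1, B, h.2⟩

end COG_

open COG_

theorem cog_proof (hBAG : Stmt_BAG) (hING : Stmt_ING) (hEGM : Stmt_EGM) (hAPG : Stmt_APG) :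
    Stmt_COG := by
  intro S W ξ μ hPS hW hSep hmeas s B hB
  set B₂ : ℝ := B + 1 + s * (s * B + 1) with hB₂
  have hs0 : (0 : ℝ) ≤ s := Nat.cast_nonneg s
  have hB₂0 : 0 ≤ B₂ := by positivity
  obtain ⟨E, hE0, hAPG'⟩ := hAPG s S (W 0) (W 1) B B₂ hPS (hW 0) (hW 1) hSep hB hB₂0
  refine ⟨(μ + 1) * E + 1, ?_⟩
  set Λ : ℝ := (μ + 1) * E + 1 with hΛ
  intro U T y R A f₀ f hT hy hA hf₀ hf hne hEq happ
  choose N₀ c₀ u₀ hu₀ he₀ using hf₀
  choose N₁ c₁ u₁ hu₁ he₁ using hf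
  -- the family of units
  let ι := (Σ q : Fin 2, Fin (N₀ q)) ⊕ (Σ p : Fin 2 × Fin s, Fin (N₁ p.1 p.2)) ⊕ Fin 2
  let fam : ι → ℕ → ℚ := Sum.elim (fun x => u₀ x.1 x.2)
    (Sum.elim (fun x => u₁ x.1.1 x.1.2 x.2) (fun q => A q))
  have hfam : ∀ x : ι, fam x ∈ Un U S T := by
    rintro (⟨q, t⟩ | ⟨⟨q, i⟩, t⟩ | q)
    · exact sm_un (hu₀ q t)
    · exact (hu₁ q i t).1
    · exact hA q
  let eqv := Fintype.equivFin ι
  obtain ⟨r, g, hGd, hGg⟩ := hBAG U S T (Fintype.card ι) (fun k => fam (eqv.symm k)) hPS hT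
    (fun k => hfam _)
  have hGg' : ∀ x : ι, fam x ∈ Gg U g := by
    intro x
    have := hGg (eqv x)
    simpa only [Equiv.symm_apply_apply] using this
  -- the first descriptions
  have hD1 : ∀ q : Fin 2, Dsg U S T g (Gam (W q) (A q)) y (R q) (B + 1) := by
    intro q
    exact hING U S T r s g (W q) (A q) y (R q) (f₀ q) (f q) B hGd hB
      ⟨N₀ q, c₀ q, u₀ q, fun t => ⟨hu₀ q t, hGg' (Sum.inl ⟨q, t⟩)⟩, he₀ q⟩
      (fun i => ⟨N₁ q i, c₁ q i, u₁ q i,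
        fun t => ⟨hu₁ q i t, hGg' (Sum.inr (Sum.inl ⟨(q, i), t⟩))⟩, he₁ q i⟩)
      (hne q) (hEq q)
  obtain ⟨d', Z', hd', hZ', hind', hD2⟩ := hEGM U S T r s (Fin 2) g
    (fun q => Gam (W q) (A q)) y R B (B + 1) hGd hB hy hD1
  -- the approximation
  obtain ⟨X, Q, hXQ⟩ := hAPG' U T r d' g Z' ξ Λ (A 0) (A 1) (R 0) (R 1) hGd hd' hZ' hind'
    (hA 0).1 (hA 1).1 (hGg' (Sum.inr (Sum.inr 0))) (hGg' (Sum.inr (Sum.inr 1)))
    (hD2 0) (hD2 1) (happ 0) (happ 1)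
  obtain ⟨c', hc', hm'⟩ := hmeas
  obtain ⟨n, ⟨h1, h2, h3⟩, h4, h5⟩ :=
    (hXQ.and ((ev_pos hT).and (ev_ge hT (-Real.log c' + 1)))).exists
  have h6 := hm' (Q n) (X n) h1
  have h7 : |ξ - X n / Q n| * (Q n : ℝ) ^ μ ≤ Real.exp (-T n) := by
    calc |ξ - X n / Q n| * (Q n : ℝ) ^ μ
        ≤ Real.exp ((E - Λ) * T n) * (Real.exp (E * T n)) ^ μ :=
          mul_le_mul h3 (pow_le_pow_left₀ (Nat.cast_nonneg _) h2 _) (by positivity)
            (Real.exp_pos _).le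
      _ = Real.exp ((E - Λ) * T n + μ * (E * T n)) := by
          rw [← Real.exp_nat_mul, Real.exp_add]
      _ = Real.exp (-T n) := by
          congr 1
          rw [hΛ]
          ring
  have h8 : c' ≤ Real.exp (-T n) := h6.trans h7
  have h9 : Real.log c' ≤ -T n := by
    rw [← Real.log_exp (-T n)]
    exact Real.log_le_log hc' h8
  linarith

end Pool.Agent.SBT
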