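import Pool.Agent.SBT.StmtsD

/-!
Squad SBT, module CPX: block complexity in two bases.
-/

set_option autoImplicit false

namespace Pool.Agent.SBT

open Filter Topology

namespace CPX_

theorem ev_const (U : Ultrafilter ℕ) (f : ℕ → ℤ) (h : ∀ᶠ n in (U : Filter ℕ), |f n| ≤ 1) :
    ∃ v : ℤ, ∀ᶠ n in (U : Filter ℕ), f n = v := by
  have h1 : ∀ᶠ n in (U : Filter ℕ), f n = -1 ∨ (f n = 0 ∨ f n = 1) := by
    filter_upwards [h] with n hn
    have := abs_le.1 hn
    omega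
  rcases Ultrafilter.eventually_or.1 h1 with h2 | h2
  · exact ⟨-1, h2⟩
  · rcases Ultrafilter.eventually_or.1 h2 with h3 | h3
    · exact ⟨0, h3⟩
    · exact ⟨1, h3⟩

/-- expansion of the product -/
theorem expand (s b : ℕ) (q : Fin s → ℕ) :
    ∏ i, ((b : ℤ) ^ q i - 1) =
      ∑ S : Finset (Fin s), (-1 : ℤ) ^ (Finset.univ \ S).card * (b : ℤ) ^ (∑ i ∈ S, q i) := by
  have h := Finset.prod_add (fun i => (b : ℤ) ^ q i) (fun _ => (-1 : ℤ))
    (Finset.univ : Finset (Fin s))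
  rw [Finset.powerset_univ] at h
  have e : ∏ i, ((b : ℤ) ^ q i - 1) = ∏ i, ((b : ℤ) ^ q i + -1) := by
    refine Finset.prod_congr rfl fun i _ => ?_
    ring
  rw [e, h]
  refine Finset.sum_congr rfl fun S _ => ?_
  rw [Finset.prod_const, Finset.prod_pow_eq_pow_sum, mul_comm]

/-- the data given by the structure theorem -/
structure Dat (s N : ℕ) where
  L : ℕ
  q : Fin s → ℕ
  y : Fin s → ℤ
  ε : Fin s → Fin N → ℤ
  k : Fin s → Fin N → ℕ

instance (s N : ℕ) : Nonempty (Dat s N) :=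
  ⟨⟨0, fun _ => 0, fun _ => 0, fun _ _ => 0, fun _ _ => 0⟩⟩

/-- properties of the data -/
structure OK (b : ℕ) (ξ Λ₁ : ℝ) (s B₀ N n : ℕ) (d : Dat s N) : Prop where
  len : |(d.L : ℝ) * Real.log b - Λ₁ * n| ≤ ((B₀ : ℝ) + 2) * n * Real.log b
  q1 : ∀ i, 1 ≤ d.q i
  q2 : ∀ i, d.q i ≤ n
  y : ∀ i, |d.y i| ≤ (|⌊ξ⌋| + 1) * (b : ℤ) ^ (B₀ * n)
  e : ∀ i t, |d.ε i t| ≤ 1
  k : ∀ i t, d.k i t ≤ N * n
  id : (∏ i, ((b : ℤ) ^ d.q i - 1)) * ⌊ξ * (b : ℝ) ^ d.L⌋ =
    ∑ i, (∑ t, d.ε i t * (b : ℤ) ^ (d.k i t)) * d.y i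

theorem one_base (hDGT : Stmt_DGT) (b : ℕ) (ξ : ℝ) (μ : ℕ) (hb : 2 ≤ b) (hM : Meas ξ μ)
    (C s B₀ N Λ K : ℕ) (Λ₁ : ℝ) (hΛ₁ : 0 ≤ Λ₁) (hK : Λ₁ / Real.log 2 ≤ K)
    (hΛ : (μ + 1) * (K + 2 * B₀ + 1) + 1 ≤ Λ)
    (hST : ∀ (a n : ℕ) (u : ℕ → ℕ) (P : ℕ → ℤ), 2 ≤ a → 8 ≤ n →
      (∀ i, u i < a) → (∀ i, P (i + 1) = a * P i + u i) → nbl u n (Λ * n) ≤ C * n →
      ∃ (m : ℕ) (q : Fin s → ℕ) (y : Fin s → ℤ), n ≤ 2 * m ∧ m ≤ n ∧
        (∀ i, 1 ≤ q i ∧ q i ≤ n) ∧ (∀ i, |y i| ≤ (|P 0| + 1) * (a : ℤ) ^ (B₀ * n)) ∧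
        (∀ x, Spe u m (Λ * n) x → ∃ F : Fin s → ℤ, (∀ i, Rep a N (N * n) (F i)) ∧
          (∏ i, ((a : ℤ) ^ q i - 1)) * P (x + m) = ∑ i, F i * y i) ∧
        ∀ z, z + B₀ * n < Λ * n →
          (∃ x, z ≤ x ∧ x ≤ z + B₀ * n ∧ Spe u m (Λ * n) x) ∨
          ∃ per, 1 ≤ per ∧ per ≤ B₀ * n ∧
            ∀ i, z + B₀ * n ≤ i → i + per < Λ * n → u i = u (i + per)) :
    ∀ᶠ n : ℕ in atTop, cnt b ξ n (Λ * n) ≤ C * n → ∃ d : Dat s N, OK b ξ Λ₁ s B₀ N n d := by
  obtain ⟨hd, hfl, hcnt, hper⟩ := hDGT b ξ hb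
  obtain ⟨c, hc, hM⟩ := hM
  have hlim : ∀ᶠ n : ℕ in atTop, 2 / (2 : ℝ) ^ n < c := by
    have h1 : Tendsto (fun n : ℕ => 2 / (2 : ℝ) ^ n) atTop (𝓝 0) :=
      tendsto_const_nhds.div_atTop (tendsto_pow_atTop_atTop_of_one_lt (by norm_num))
    exact h1.eventually_lt_const hc
  have hb0 : (0 : ℝ) < b := by
    have : 0 < b := by omega
    exact_mod_cast this
  have hb2 : (2 : ℝ) ≤ b := by exact_mod_cast hb
  have hlog2 : 0 < Real.log 2 := Real.log_pos (by norm_num)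
  have hlogb : Real.log 2 ≤ Real.log b := Real.log_le_log (by norm_num) hb2
  have hlogb0 : 0 < Real.log b := hlog2.trans_le hlogb
  filter_upwards [hlim, eventually_ge_atTop 8] with n hn h8 hcn
  have hn0 : (0 : ℝ) < n := by
    have : 0 < n := by omega
    exact_mod_cast this
  have hn1 : (1 : ℝ) ≤ n := by
    have : 1 ≤ n := by omega
    exact_mod_cast this
  have hu : ∀ i, (((dig b ξ (i + 1)).toNat : ℕ) : ℤ) = dig b ξ (i + 1) :=
    fun i => Int.toNat_of_nonneg (hd (i + 1)).1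
  obtain ⟨m, q, y, _, hm2, hq, hy, hspe, hz⟩ := hST b n (fun i => (dig b ξ (i + 1)).toNat)
    (fun i => ⌊ξ * (b : ℝ) ^ i⌋) hb h8
    (fun i => by
      have h1 := (hd (i + 1)).2
      have h2 := hu i
      show (dig b ξ (i + 1)).toNat < b
      omega)
    (fun i => by
      show ⌊ξ * (b : ℝ) ^ (i + 1)⌋ = b * ⌊ξ * (b : ℝ) ^ i⌋ + ((dig b ξ (i + 1)).toNat : ℕ)
      rw [hfl i, hu i])
    (by rw [← hcnt]; exact hcn)
  set z : ℕ := ⌈Λ₁ * n / Real.log b⌉₊ with hzdef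
  have hzr : Λ₁ * n / Real.log b ≤ z := Nat.le_ceil _
  have hznn : 0 ≤ Λ₁ * n / Real.log b := by positivity
  have hzr2 : (z : ℝ) < Λ₁ * n / Real.log b + 1 := Nat.ceil_lt_add_one hznn
  have hzK : z ≤ K * n := by
    refine Nat.ceil_le.2 ?_
    push_cast
    calc Λ₁ * n / Real.log b ≤ Λ₁ * n / Real.log 2 := by
          apply div_le_div_of_nonneg_left (by positivity) hlog2 hlogb
      _ = Λ₁ / Real.log 2 * n := by ring
      _ ≤ K * n := mul_le_mul_of_nonneg_right hK hn0.le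
  have hΛn : ((μ + 1) * (K + 2 * B₀ + 1) + 1) * n ≤ Λ * n := Nat.mul_le_mul_right n hΛ
  have hexp : ((μ + 1) * (K + 2 * B₀ + 1) + 1) * n =
      μ * (K * n + 2 * (B₀ * n)) + μ * n + (K * n + 2 * (B₀ * n)) + n + n := by ring
  have hμn : 0 ≤ μ * (K * n + 2 * (B₀ * n)) := Nat.zero_le _
  have hzlt : z + B₀ * n < Λ * n := by omega
  rcases hz z hzlt with ⟨x, hx1, hx2, hx⟩ | ⟨per, hp1, hp2, hp⟩
  · obtain ⟨F, hF, hid⟩ := hspe x hx
    choose ε k he hk hFe using hF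
    refine ⟨⟨x + m, q, y, ε, k⟩, ⟨?_, fun i => (hq i).1, fun i => (hq i).2, ?_, he, hk, ?_⟩⟩
    · show |((x + m : ℕ) : ℝ) * Real.log b - Λ₁ * n| ≤ ((B₀ : ℝ) + 2) * n * Real.log b
      have h1 : (z : ℝ) ≤ ((x + m : ℕ) : ℝ) := by exact_mod_cast (by omega : z ≤ x + m)
      have h2 : ((x + m : ℕ) : ℝ) ≤ z + B₀ * n + n := by
        exact_mod_cast (by omega : x + m ≤ z + B₀ * n + n)
      have h3 : Λ₁ * n / Real.log b * Real.log b = Λ₁ * n := by field_simp
      have h4 : Λ₁ * n ≤ ((x + m : ℕ) : ℝ) * Real.log b := by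
        rw [← h3]
        exact mul_le_mul_of_nonneg_right (hzr.trans h1) hlogb0.le
      have h5 : ((x + m : ℕ) : ℝ) * Real.log b ≤
          (Λ₁ * n / Real.log b + ((B₀ : ℝ) + 2) * n) * Real.log b := by
        refine mul_le_mul_of_nonneg_right ?_ hlogb0.le
        nlinarith
      rw [add_mul, h3] at h5
      rw [abs_of_nonneg (by linarith)]
      linarith
    · intro i
      have h1 := hy i
      simp only [pow_zero, mul_one] at h1
      exact h1
    · show (∏ i, ((b : ℤ) ^ q i - 1)) * ⌊ξ * (b : ℝ) ^ (x + m)⌋ = _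
      rw [hid]
      refine Finset.sum_congr rfl fun i _ => ?_
      rw [hFe i]
  · exfalso
    obtain ⟨p, hp3⟩ := hper (z + B₀ * n) per (Λ * n) hp1 (fun i h1 h2 => by
      have h3 := hp i h1 h2
      have h4 := hu i
      have h5 := hu (i + per)
      have h6 : i + 1 + per = i + per + 1 := by ring
      rw [h6, ← h4, ← h5]
      exact_mod_cast h3) (by omega)
    have hbper : 1 < b ^ per := Nat.one_lt_pow (by omega) (by omega)
    have hq0 : 0 < b ^ (z + B₀ * n) * (b ^ per - 1) :=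
      Nat.mul_pos (Nat.pow_pos (by omega)) (by omega)
    have h1 := hM (b ^ (z + B₀ * n) * (b ^ per - 1)) p hq0
    have hcast : ((b ^ (z + B₀ * n) * (b ^ per - 1) : ℕ) : ℝ) =
        (b : ℝ) ^ (z + B₀ * n) * ((b : ℝ) ^ per - 1) := by
      rw [Nat.cast_mul, Nat.cast_sub hbper.le]
      push_cast
      ring
    rw [hcast] at h1
    have hqle : (b : ℝ) ^ (z + B₀ * n) * ((b : ℝ) ^ per - 1) ≤ (b : ℝ) ^ (K * n + 2 * (B₀ * n)) := by
      calc (b : ℝ) ^ (z + B₀ * n) * ((b : ℝ) ^ per - 1) ≤ (b : ℝ) ^ (z + B₀ * n) * (b : ℝ) ^ per := by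
            refine mul_le_mul_of_nonneg_left ?_ (by positivity)
            linarith
        _ = (b : ℝ) ^ (z + B₀ * n + per) := (pow_add _ _ _).symm
        _ ≤ _ := pow_le_pow_right₀ (by linarith) (by omega)
    have hqnn : 0 ≤ (b : ℝ) ^ (z + B₀ * n) * ((b : ℝ) ^ per - 1) := by
      rw [← hcast]
      positivity
    have h2 : c ≤ 2 / (b : ℝ) ^ (Λ * n) * ((b : ℝ) ^ (K * n + 2 * (B₀ * n))) ^ μ := by
      refine h1.trans (mul_le_mul hp3 (pow_le_pow_left₀ hqnn hqle μ) (by positivity)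
        (by positivity))
    have h3 : 2 / (b : ℝ) ^ (Λ * n) * ((b : ℝ) ^ (K * n + 2 * (B₀ * n))) ^ μ ≤ 2 / (b : ℝ) ^ n := by
      rw [div_mul_eq_mul_div, div_le_div_iff₀ (by positivity) (by positivity), ← pow_mul,
        mul_assoc, ← pow_add]
      refine mul_le_mul_of_nonneg_left (pow_le_pow_right₀ (by linarith) ?_) (by norm_num)
      have h4 : (K * n + 2 * (B₀ * n)) * μ = μ * (K * n + 2 * (B₀ * n)) := mul_comm _ _
      omega
    have h4 : 2 / (b : ℝ) ^ n ≤ 2 / (2 : ℝ) ^ n := by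
      apply div_le_div_of_nonneg_left (by norm_num) (by positivity)
      exact pow_le_pow_left₀ (by norm_num) hb2 n
    linarith

end CPX_

open CPX_ in
theorem cpx_proof (hCOR : Stmt_COR) (hSTF : Stmt_STF) (hDGT : Stmt_DGT) : Stmt_CPX := by
  intro a b ξ μ ha hb hab hM C
  obtain ⟨s, B₀, hS⟩ := hSTF C
  have hbs2 : ∀ r : Fin 2, 2 ≤ (![a, b] : Fin 2 → ℕ) r := by
    intro r
    fin_cases r
    · exact ha
    · exact hb
  set bs : Fin 2 → ℕ := ![a, b] with hbs
  have hlg : ∀ r, 0 < Real.log (bs r) := fun r => Real.log_pos (by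
    have h1 := hbs2 r
    have h2 : (2 : ℝ) ≤ bs r := by exact_mod_cast h1
    linarith)
  set B₁ : ℝ := ((B₀ : ℝ) + s + 2) * (Real.log (bs 0) + Real.log (bs 1)) + 1 with hB₁
  have hlr : ∀ r, Real.log (bs r) ≤ Real.log (bs 0) + Real.log (bs 1) := by
    intro r
    have h0 := hlg 0
    have h1 := hlg 1
    fin_cases r
    · show Real.log (bs 0) ≤ _
      linarith
    · show Real.log (bs 1) ≤ _
      linarith
  have hsum0 : 0 < Real.log (bs 0) + Real.log (bs 1) := add_pos (hlg 0) (hlg 1)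
  have hB₁0 : 0 ≤ B₁ := by positivity
  have hB₁r : ∀ r, ((B₀ : ℝ) + s + 2) * Real.log (bs r) + 1 ≤ B₁ := by
    intro r
    have h1 : ((B₀ : ℝ) + s + 2) * Real.log (bs r) ≤
        ((B₀ : ℝ) + s + 2) * (Real.log (bs 0) + Real.log (bs 1)) :=
      mul_le_mul_of_nonneg_left (hlr r) (by positivity)
    linarith
  obtain ⟨Λ₁, hΛ₁, hcore⟩ := hCOR bs ξ μ hbs2 hab hM (2 * s) B₁ hB₁0
  have hΛ₁0 : 0 ≤ Λ₁ := by linarith
  set K : ℕ := ⌈Λ₁ / Real.log 2⌉₊ with hKdef
  have hK : Λ₁ / Real.log 2 ≤ K := Nat.le_ceil _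
  set Λ : ℕ := (μ + 1) * (K + 2 * B₀ + 1) + 1 with hΛdef
  obtain ⟨N, hN⟩ := hS Λ
  refine ⟨Λ, ?_⟩
  by_contra hcon
  have hfreq : ∃ᶠ n : ℕ in atTop, cnt a ξ n (Λ * n) + cnt b ξ n (Λ * n) < C * n := by
    intro h
    apply hcon
    filter_upwards [h] with n hn
    exact not_lt.1 hn
  -- the ultrafilter
  have hne : (atTop ⊓ 𝓟 {n : ℕ | cnt a ξ n (Λ * n) + cnt b ξ n (Λ * n) < C * n}).NeBot :=
    Filter.frequently_mem_iff_neBot.1 hfreq
  set U : Ultrafilter ℕ :=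
    Ultrafilter.of (atTop ⊓ 𝓟 {n : ℕ | cnt a ξ n (Λ * n) + cnt b ξ n (Λ * n) < C * n}) with hU
  have hU1 : (U : Filter ℕ) ≤
      atTop ⊓ 𝓟 {n : ℕ | cnt a ξ n (Λ * n) + cnt b ξ n (Λ * n) < C * n} := Ultrafilter.of_le _
  have hUtop : (U : Filter ℕ) ≤ atTop := hU1.trans inf_le_left
  have hUbad : ∀ᶠ n in (U : Filter ℕ), cnt a ξ n (Λ * n) + cnt b ξ n (Λ * n) < C * n := by
    have h1 : {n : ℕ | cnt a ξ n (Λ * n) + cnt b ξ n (Λ * n) < C * n} ∈ (U : Filter ℕ) :=
      hU1 (mem_inf_of_right (mem_principal_self _))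
    exact h1
  have hcntr : ∀ r, ∀ᶠ n in (U : Filter ℕ), cnt (bs r) ξ n (Λ * n) ≤ C * n := by
    intro r
    filter_upwards [hUbad] with n hn
    fin_cases r
    · show cnt a ξ n (Λ * n) ≤ C * n
      omega
    · show cnt b ξ n (Λ * n) ≤ C * n
      omega
  have hdat : ∀ r, ∀ᶠ n in (U : Filter ℕ), ∃ d : Dat s N, OK (bs r) ξ Λ₁ s B₀ N n d := by
    intro r
    have h1 := (one_base hDGT (bs r) ξ μ (hbs2 r) hM C s B₀ N Λ K Λ₁ hΛ₁0 hK (le_refl _)
      hN).filter_mono hUtop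
    filter_upwards [h1, hcntr r] with n h2 h3
    exact h2 h3
  have hch : ∀ r, ∃ D : ℕ → Dat s N, ∀ᶠ n in (U : Filter ℕ), OK (bs r) ξ Λ₁ s B₀ N n (D n) :=
    fun r => (hdat r).choice
  choose D hD using hch
  have hεc : ∀ r i t, ∃ v : ℤ, ∀ᶠ n in (U : Filter ℕ), (D r n).ε i t = v := by
    intro r i t
    refine ev_const U _ ?_
    filter_upwards [hD r] with n hn
    exact hn.e i t
  choose w hw using hεc
  have hw' : ∀ r, ∀ᶠ n in (U : Filter ℕ), ∀ i t, (D r n).ε i t = w r i t := by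
    intro r
    rw [Filter.eventually_all]
    intro i
    rw [Filter.eventually_all]
    intro t
    exact hw r i t
  have hUn : Tendsto (fun n : ℕ => (n : ℝ)) (U : Filter ℕ) atTop :=
    tendsto_natCast_atTop_atTop.mono_left hUtop
  have hU8 : ∀ᶠ n : ℕ in (U : Filter ℕ), 1 ≤ n := (eventually_ge_atTop 1).filter_mono hUtop
  have hUexp : ∀ᶠ n : ℕ in (U : Filter ℕ), (|(⌊ξ⌋ : ℝ)| + 1) ≤ Real.exp n := by
    have h1 : Tendsto (fun n : ℕ => Real.exp n) (U : Filter ℕ) atTop :=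
      Real.tendsto_exp_atTop.comp hUn
    exact h1.eventually_ge_atTop _
  set E : Finset (Fin s) ≃ Fin (2 ^ s) := Fintype.equivFinOfCardEq (by simp) with hE
  -- apply the core theorem
  refine hcore U (fun n => (n : ℝ))
    (fun i n => (D (finProdFinEquiv.symm i).1 n).y (finProdFinEquiv.symm i).2)
    (fun r n => (D r n).L) (N + 2 ^ s) N
    (fun _ t => Fin.addCases (fun _ => 0)
      (fun t' => (-1 : ℤ) ^ (Finset.univ \ (E.symm t')).card) t)
    (fun r t n => Fin.addCases (fun _ => 0) (fun t' => ∑ i ∈ E.symm t', (D r n).q i) t)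
    (fun r i t => Fin.addCases
      (fun t' => if (finProdFinEquiv.symm i).1 = r then w r (finProdFinEquiv.symm i).2 t' else 0)
      (fun _ => 0) t)
    (fun r i t n => Fin.addCases (fun t' => (D r n).k (finProdFinEquiv.symm i).2 t')
      (fun _ => 0) t)
    hUn ?_ ?_ ?_ ?_ ?_ ?_
  · -- size of `y`
    rw [Filter.eventually_all]
    intro i
    filter_upwards [hD (finProdFinEquiv.symm i).1, hUexp] with n h1 h2
    have h3 := h1.y (finProdFinEquiv.symm i).2
    set r := (finProdFinEquiv.symm i).1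
    set j := (finProdFinEquiv.symm i).2
    have h4 : |((D r n).y j : ℝ)| ≤ (|(⌊ξ⌋ : ℝ)| + 1) * (bs r : ℝ) ^ (B₀ * n) := by
      exact_mod_cast h3
    have hb0 : (0 : ℝ) < bs r := by
      have := hbs2 r
      exact_mod_cast (by omega : 0 < bs r)
    have h5 : (bs r : ℝ) ^ (B₀ * n) = Real.exp (B₀ * n * Real.log (bs r)) := by
      rw [← Real.rpow_natCast, Real.rpow_def_of_pos hb0]
      push_cast
      ring_nf
    refine h4.trans ?_
    rw [h5]
    calc (|(⌊ξ⌋ : ℝ)| + 1) * Real.exp (B₀ * n * Real.log (bs r)) ≤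
          Real.exp n * Real.exp (B₀ * n * Real.log (bs r)) :=
          mul_le_mul_of_nonneg_right h2 (Real.exp_pos _).le
      _ = Real.exp (n + B₀ * n * Real.log (bs r)) := (Real.exp_add _ _).symm
      _ ≤ Real.exp (B₁ * n) := by
          apply Real.exp_le_exp.2
          have h6 := hB₁r r
          have h7 : (0 : ℝ) ≤ n := by positivity
          have h8 : (0 : ℝ) ≤ ((s : ℝ) + 2) * Real.log (bs r) := by
            have := hlg r
            positivity
          have h9 : (((B₀ : ℝ) + s + 2) * Real.log (bs r) + 1) * n ≤ B₁ * n :=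
            mul_le_mul_of_nonneg_right h6 h7
          nlinarith
  · intro r
    filter_upwards [hD r] with n h1
    refine h1.len.trans ?_
    have h6 := hB₁r r
    have h7 : (0 : ℝ) ≤ n := by positivity
    have h9 : (((B₀ : ℝ) + s + 2) * Real.log (bs r) + 1) * n ≤ B₁ * n :=
      mul_le_mul_of_nonneg_right h6 h7
    have h10 : (0 : ℝ) ≤ s * Real.log (bs r) * n := by
      have := hlg r
      positivity
    nlinarith
  · intro r
    filter_upwards [hD r, hw' r] with n h1 h2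
    have h3 := h1.id
    rw [expand] at h3
    have e1 : ∑ t : Fin (N + 2 ^ s), (Fin.addCases (fun _ => 0)
        (fun t' => (-1 : ℤ) ^ (Finset.univ \ (E.symm t')).card) t : ℤ) *
        (bs r : ℤ) ^ (Fin.addCases (fun _ => 0) (fun t' => ∑ i ∈ E.symm t', (D r n).q i) t : ℕ) =
        ∑ S : Finset (Fin s), (-1 : ℤ) ^ (Finset.univ \ S).card *
          (bs r : ℤ) ^ (∑ i ∈ S, (D r n).q i) := by
      rw [Fin.sum_univ_add]
      simp only [Fin.addCases_left, Fin.addCases_right, zero_mul, Finset.sum_const_zero, zero_add]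
      exact Equiv.sum_comp E.symm (fun S : Finset (Fin s) =>
        (-1 : ℤ) ^ (Finset.univ \ S).card * (bs r : ℤ) ^ (∑ i ∈ S, (D r n).q i))
    have e2 : ∀ p : Fin 2 × Fin s, ∑ t : Fin (N + 2 ^ s), (Fin.addCases
        (fun t' => if p.1 = r then w r p.2 t' else 0) (fun _ => 0) t : ℤ) *
        (bs r : ℤ) ^ (Fin.addCases (fun t' => (D r n).k p.2 t') (fun _ => 0) t : ℕ) =
        if p.1 = r then ∑ t, (D r n).ε p.2 t * (bs r : ℤ) ^ ((D r n).k p.2 t) else 0 := by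
      intro p
      rw [Fin.sum_univ_add]
      simp only [Fin.addCases_left, Fin.addCases_right, zero_mul, Finset.sum_const_zero, add_zero]
      by_cases hp : p.1 = r
      · simp only [if_pos hp]
        refine Finset.sum_congr rfl fun t _ => ?_
        rw [h2]
      · simp only [if_neg hp, zero_mul, Finset.sum_const_zero]
    rw [e1]
    refine h3.trans ?_
    have e3 : ∑ i : Fin (2 * s), (∑ t : Fin (N + 2 ^ s), (Fin.addCases
        (fun t' => if (finProdFinEquiv.symm i).1 = r then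
          w r (finProdFinEquiv.symm i).2 t' else 0) (fun _ => 0) t : ℤ) *
        (bs r : ℤ) ^ (Fin.addCases (fun t' => (D r n).k (finProdFinEquiv.symm i).2 t')
          (fun _ => 0) t : ℕ)) * (D (finProdFinEquiv.symm i).1 n).y (finProdFinEquiv.symm i).2 =
        ∑ p : Fin 2 × Fin s, (if p.1 = r then
          ∑ t, (D r n).ε p.2 t * (bs r : ℤ) ^ ((D r n).k p.2 t) else 0) * (D p.1 n).y p.2 := by
      rw [← Equiv.sum_comp (finProdFinEquiv (m := 2) (n := s)).symm (fun p : Fin 2 × Fin s =>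
        (if p.1 = r then
          ∑ t, (D r n).ε p.2 t * (bs r : ℤ) ^ ((D r n).k p.2 t) else 0) * (D p.1 n).y p.2)]
      refine Finset.sum_congr rfl fun i _ => ?_
      rw [e2 (finProdFinEquiv.symm i)]
    refine Eq.trans ?_ e3.symm
    rw [Fintype.sum_prod_type, Finset.sum_eq_single r]
    · refine Finset.sum_congr rfl fun i _ => ?_
      rw [if_pos rfl]
    · intro r' _ hr'
      refine Finset.sum_eq_zero fun i _ => ?_
      rw [if_neg hr', zero_mul]
    · intro h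
      exact absurd (Finset.mem_univ _) h
  · intro r
    filter_upwards [hD r] with n h1
    have e1 : ∑ t : Fin (N + 2 ^ s), (Fin.addCases (fun _ => 0)
        (fun t' => (-1 : ℤ) ^ (Finset.univ \ (E.symm t')).card) t : ℤ) *
        (bs r : ℤ) ^ (Fin.addCases (fun _ => 0) (fun t' => ∑ i ∈ E.symm t', (D r n).q i) t : ℕ) =
        ∏ i, ((bs r : ℤ) ^ (D r n).q i - 1) := by
      rw [expand, Fin.sum_univ_add]
      simp only [Fin.addCases_left, Fin.addCases_right, zero_mul, Finset.sum_const_zero, zero_add]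
      exact Equiv.sum_comp E.symm (fun S : Finset (Fin s) =>
        (-1 : ℤ) ^ (Finset.univ \ S).card * (bs r : ℤ) ^ (∑ i ∈ S, (D r n).q i))
    rw [e1]
    refine Finset.prod_ne_zero_iff.2 fun i _ => ?_
    have h2 := h1.q1 i
    have h3 : (1 : ℤ) < (bs r : ℤ) ^ (D r n).q i := by
      refine one_lt_pow₀ ?_ (by omega)
      have := hbs2 r
      exact_mod_cast (by omega : 1 < bs r)
    omega
  · intro r t
    filter_upwards [hD r, hU8] with n h1 h8
    have h6 := hB₁r r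
    have h7 : (0 : ℝ) ≤ n := by positivity
    have h9 : (((B₀ : ℝ) + s + 2) * Real.log (bs r) + 1) * n ≤ B₁ * n :=
      mul_le_mul_of_nonneg_right h6 h7
    have h10 : (0 : ℝ) ≤ ((B₀ : ℝ) + 2) * Real.log (bs r) * n := by
      have := hlg r
      positivity
    refine Fin.addCases (fun t' => ?_) (fun t' => ?_) t
    · simp only [Fin.addCases_left, Nat.cast_zero, zero_mul]
      positivity
    · simp only [Fin.addCases_right]
      have h11 : ∑ i ∈ E.symm t', (D r n).q i ≤ s * n := by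
        calc ∑ i ∈ E.symm t', (D r n).q i ≤ ∑ i ∈ E.symm t', n :=
              Finset.sum_le_sum fun i _ => h1.q2 i
          _ = (E.symm t').card * n := by rw [Finset.sum_const, smul_eq_mul]
          _ ≤ s * n := by
              refine Nat.mul_le_mul_right n ?_
              have := Finset.card_le_univ (E.symm t')
              rwa [Fintype.card_fin] at this
      have h12 : ((∑ i ∈ E.symm t', (D r n).q i : ℕ) : ℝ) ≤ s * n := by exact_mod_cast h11
      have h13 : ((∑ i ∈ E.symm t', (D r n).q i : ℕ) : ℝ) * Real.log (bs r) ≤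
          s * n * Real.log (bs r) := mul_le_mul_of_nonneg_right h12 (hlg r).le
      nlinarith
  · intro r i t
    filter_upwards [hD r] with n h1
    refine Fin.addCases (fun t' => ?_) (fun t' => ?_) t
    · simp only [Fin.addCases_left]
      exact_mod_cast h1.k _ t'
    · simp only [Fin.addCases_right, Nat.cast_zero]
      positivity

end Pool.Agent.SBT
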