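import Pool.Agent.SBT.StmtsD

set_option autoImplicit false

namespace Pool.Agent.SBT

open Filter

namespace DGT_

theorem floor_div (b : ℕ) (hb : 2 ≤ b) (y : ℝ) : ⌊(b : ℝ) * y⌋ / (b : ℤ) = ⌊y⌋ := by
  have hb0 : (0 : ℝ) < b := by exact_mod_cast (by omega : 0 < b)
  have hbz : (0 : ℤ) < b := by exact_mod_cast (by omega : 0 < b)
  apply le_antisymm
  · rw [Int.le_floor]
    have h1 : (⌊(b : ℝ) * y⌋ / (b : ℤ)) * (b : ℤ) ≤ ⌊(b : ℝ) * y⌋ := Int.ediv_mul_le _ hbz.ne'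
    have h2 : (((⌊(b : ℝ) * y⌋ / (b : ℤ)) * (b : ℤ) : ℤ) : ℝ) ≤ (b : ℝ) * y :=
      le_trans (by exact_mod_cast h1) (Int.floor_le _)
    push_cast at h2
    rw [mul_comm] at h2
    exact le_of_mul_le_mul_left h2 hb0
  · rw [Int.le_ediv_iff_mul_le hbz, Int.le_floor]
    push_cast
    rw [mul_comm]
    exact mul_le_mul_of_nonneg_left (Int.floor_le y) hb0.le

theorem rec (b : ℕ) (hb : 2 ≤ b) (x : ℝ) (i : ℕ) :
    ⌊x * (b : ℝ) ^ (i + 1)⌋ = b * ⌊x * (b : ℝ) ^ i⌋ + dig b x (i + 1) := by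
  have h1 := floor_div b hb (x * (b : ℝ) ^ i)
  have h2 : (b : ℝ) * (x * (b : ℝ) ^ i) = x * (b : ℝ) ^ (i + 1) := by ring
  rw [h2] at h1
  unfold dig
  rw [← h1]
  exact (Int.mul_ediv_add_emod _ _).symm

theorem dig_nonneg (b : ℕ) (hb : 2 ≤ b) (x : ℝ) (i : ℕ) : 0 ≤ dig b x i := by
  unfold dig
  exact Int.emod_nonneg _ (by exact_mod_cast (by omega : b ≠ 0))

theorem dig_lt (b : ℕ) (hb : 2 ≤ b) (x : ℝ) (i : ℕ) : dig b x i < b := by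
  unfold dig
  exact Int.emod_lt_of_pos _ (by exact_mod_cast (by omega : 0 < b))

theorem cnt_eq (b : ℕ) (hb : 2 ≤ b) (x : ℝ) (n X : ℕ) :
    cnt b x n X = nbl (fun i => (dig b x (i + 1)).toNat) n X := by
  unfold cnt nbl
  have hinj : Function.Injective (fun (f : Fin n → ℕ) => fun j => ((f j : ℕ) : ℤ)) := by
    intro f g h
    funext j
    have := congrFun h j
    simpa using this
  rw [← Set.ncard_image_of_injective _ hinj]
  congr 1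
  ext w
  constructor
  · rintro ⟨i, hi, hw⟩
    refine ⟨blk (fun i => (dig b x (i + 1)).toNat) n i, ⟨i, hi, rfl⟩, ?_⟩
    funext j
    simp only [blk]
    rw [Int.toNat_of_nonneg (dig_nonneg b hb x _), hw j]
    congr 1
    ring
  · rintro ⟨_, ⟨i, hi, rfl⟩, rfl⟩
    refine ⟨i, hi, fun j => ?_⟩
    simp only [blk]
    rw [Int.toNat_of_nonneg (dig_nonneg b hb x _)]
    congr 1
    ring

theorem per_diff (b : ℕ) (hb : 2 ≤ b) (x : ℝ) (z per Y : ℕ)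
    (h : ∀ i, z ≤ i → i + per < Y → dig b x (i + 1) = dig b x (i + 1 + per)) :
    ∀ j, z + j + per ≤ Y → ⌊x * (b : ℝ) ^ (z + j + per)⌋ - ⌊x * (b : ℝ) ^ (z + j)⌋ =
      (b : ℤ) ^ j * (⌊x * (b : ℝ) ^ (z + per)⌋ - ⌊x * (b : ℝ) ^ z⌋) := by
  intro j
  induction j with
  | zero =>
    intro _
    simp
  | succ j ih =>
    intro hj
    have h1 := ih (by omega)
    have h2 := rec b hb x (z + j)
    have h3 := rec b hb x (z + j + per)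
    have h4 := h (z + j) (by omega) (by omega)
    have e1 : z + (j + 1) + per = z + j + per + 1 := by omega
    have e2 : z + (j + 1) = z + j + 1 := by omega
    have e3 : z + j + 1 + per = z + j + per + 1 := by omega
    rw [e3] at h4
    rw [e1, e2, h2, h3, h4, pow_succ]
    linear_combination (b : ℤ) * h1

theorem approx (b : ℕ) (hb : 2 ≤ b) (x : ℝ) (z per Y : ℕ) (hper : 1 ≤ per)
    (h : ∀ i, z ≤ i → i + per < Y → dig b x (i + 1) = dig b x (i + 1 + per))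
    (hY : z + per ≤ Y) :
    ∃ p : ℤ, |x - p / ((b : ℝ) ^ z * ((b : ℝ) ^ per - 1))| ≤ 2 / (b : ℝ) ^ Y := by
  have hb2 : (2 : ℝ) ≤ b := by exact_mod_cast hb
  have hb0 : (0 : ℝ) < b := by linarith
  refine ⟨⌊x * (b : ℝ) ^ (z + per)⌋ - ⌊x * (b : ℝ) ^ z⌋, ?_⟩
  obtain ⟨j, rfl⟩ : ∃ j, Y = z + j + per := ⟨Y - z - per, by omega⟩
  have h1 := per_diff b hb x z per _ h j (le_refl _)
  have h1' : (⌊x * (b : ℝ) ^ (z + j + per)⌋ : ℝ) - ⌊x * (b : ℝ) ^ (z + j)⌋ =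
      (b : ℝ) ^ j * (((⌊x * (b : ℝ) ^ (z + per)⌋ - ⌊x * (b : ℝ) ^ z⌋ : ℤ)) : ℝ) := by
    exact_mod_cast h1
  set p : ℝ := (((⌊x * (b : ℝ) ^ (z + per)⌋ - ⌊x * (b : ℝ) ^ z⌋ : ℤ)) : ℝ) with hp
  have ha1 := Int.floor_le (x * (b : ℝ) ^ (z + j + per))
  have ha2 := Int.lt_floor_add_one (x * (b : ℝ) ^ (z + j + per))
  have hc1 := Int.floor_le (x * (b : ℝ) ^ (z + j))
  have hc2 := Int.lt_floor_add_one (x * (b : ℝ) ^ (z + j))
  have hbper : (2 : ℝ) ≤ (b : ℝ) ^ per := by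
    calc (2 : ℝ) ≤ b := hb2
      _ = (b : ℝ) ^ 1 := (pow_one _).symm
      _ ≤ (b : ℝ) ^ per := pow_le_pow_right₀ (by linarith) hper
  have hz : (0 : ℝ) < (b : ℝ) ^ z := pow_pos hb0 z
  have hj : (0 : ℝ) < (b : ℝ) ^ j := pow_pos hb0 j
  have hden : 0 < (b : ℝ) ^ z * ((b : ℝ) ^ per - 1) := mul_pos hz (by linarith)
  have hpow : (b : ℝ) ^ (z + j + per) = (b : ℝ) ^ z * (b : ℝ) ^ j * (b : ℝ) ^ per := by
    rw [pow_add, pow_add]
  have hpow2 : (b : ℝ) ^ (z + j) = (b : ℝ) ^ z * (b : ℝ) ^ j := pow_add _ _ _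
  have hkey : |(x * ((b : ℝ) ^ z * ((b : ℝ) ^ per - 1)) - p) * (b : ℝ) ^ j| ≤ 1 := by
    have e : (x * ((b : ℝ) ^ z * ((b : ℝ) ^ per - 1)) - p) * (b : ℝ) ^ j =
        (x * (b : ℝ) ^ (z + j + per) - ⌊x * (b : ℝ) ^ (z + j + per)⌋) -
          (x * (b : ℝ) ^ (z + j) - ⌊x * (b : ℝ) ^ (z + j)⌋) := by
      linear_combination h1' - x * hpow + x * hpow2
    rw [e, abs_le]
    constructor <;> linarith
  rw [abs_mul, abs_of_pos hj] at hkey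
  have e2 : x - p / ((b : ℝ) ^ z * ((b : ℝ) ^ per - 1)) =
      (x * ((b : ℝ) ^ z * ((b : ℝ) ^ per - 1)) - p) / ((b : ℝ) ^ z * ((b : ℝ) ^ per - 1)) := by
    rw [sub_div, mul_div_cancel_right₀ _ hden.ne']
  rw [e2, abs_div, abs_of_pos hden, div_le_div_iff₀ hden (pow_pos hb0 _), hpow]
  have hK : 0 ≤ |x * ((b : ℝ) ^ z * ((b : ℝ) ^ per - 1)) - p| := abs_nonneg _
  calc |x * ((b : ℝ) ^ z * ((b : ℝ) ^ per - 1)) - p| * ((b : ℝ) ^ z * (b : ℝ) ^ j * (b : ℝ) ^ per)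
      = (|x * ((b : ℝ) ^ z * ((b : ℝ) ^ per - 1)) - p| * (b : ℝ) ^ j) *
          ((b : ℝ) ^ z * (b : ℝ) ^ per) := by ring
    _ ≤ 1 * ((b : ℝ) ^ z * (b : ℝ) ^ per) :=
        mul_le_mul_of_nonneg_right hkey (mul_nonneg hz.le (by linarith))
    _ ≤ 2 * ((b : ℝ) ^ z * ((b : ℝ) ^ per - 1)) := by nlinarith

end DGT_

theorem dgt_proof : Stmt_DGT := by
  intro b x hb
  exact ⟨fun i => ⟨DGT_.dig_nonneg b hb x i, DGT_.dig_lt b hb x i⟩, DGT_.rec b hb x,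
    DGT_.cnt_eq b hb x, fun z per Y h1 h2 h3 => DGT_.approx b hb x z per Y h1 h2 h3⟩

end Pool.Agent.SBT
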