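import Mathlib

/-!
# Two bases (MP_57632f_nt): the `p`-adic Subspace theorem and block complexity: definitions
-/

set_option autoImplicit false

namespace Pool.Agent.SBT

open Filter

/-! ## Places -/

/-- the absolute value at the place `v`: `v = 0` is the usual one, `v = p` the `p`-adic one -/
noncomputable def av (v : ℕ) (x : ℚ) : ℝ := if v = 0 then |(x : ℝ)| else ((padicNorm v x : ℚ) : ℝ)

/-- the places: the infinite one (`0`) and the primes in `S` -/
def pl (S : Finset ℕ) : Finset ℕ := insert 0 S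

/-- `S` consists of primes -/
def PS (S : Finset ℕ) : Prop := ∀ p ∈ S, p.Prime

/-- the value of the `i`-th form of the integer matrix `A` at the integer vector `x` -/
def fv {N : ℕ} (A : Matrix (Fin N) (Fin N) ℤ) (x : Fin N → ℤ) (i : Fin N) : ℤ := ∑ k, A i k * x k

/-! ## Polynomials in several variables -/

/-- all coefficients are at most `A` in absolute value -/
def HB {σ : Type} (P : MvPolynomial σ ℤ) (A : ℝ) : Prop :=
  ∀ e, |((MvPolynomial.coeff e P : ℤ) : ℝ)| ≤ A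

/-- multihomogeneous of degree `d h` in the `h`-th block -/
def MH {m N : ℕ} (d : Fin m → ℕ) (P : MvPolynomial (Fin m × Fin N) ℤ) : Prop :=
  ∀ e ∈ P.support, ∀ h, ∑ k, e (h, k) = d h

/-- `P(A Y)`: the `k`-th variable of each block is replaced by `∑ i, A k i * Y i` -/
noncomputable def lin {m N : ℕ} (A : Matrix (Fin N) (Fin N) ℤ) (P : MvPolynomial (Fin m × Fin N) ℤ) :
    MvPolynomial (Fin m × Fin N) ℤ :=
  MvPolynomial.bind₁ (fun hk : Fin m × Fin N =>
    ∑ i, MvPolynomial.C (A hk.2 i) * MvPolynomial.X (hk.1, i)) P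

/-- the exponent is central up to `ε` (one-sided) -/
def Good {m N : ℕ} (d : Fin m → ℕ) (ε : ℝ) (j : (Fin m × Fin N) →₀ ℕ) : Prop :=
  ∀ i, (m : ℝ) / N - m * ε ≤ ∑ h, (j (h, i) : ℝ) / d h

/-- `P(∑ j, t (h,j) g (h,j) + s h e (k h))`, a polynomial in the `t (h,j)` and the `s h` -/
noncomputable def phi {m M : ℕ} (g : Fin m → Fin M → Fin (M + 1) → ℤ) (k : Fin m → Fin (M + 1))
    (P : MvPolynomial (Fin m × Fin (M + 1)) ℤ) : MvPolynomial ((Fin m × Fin M) ⊕ Fin m) ℤ :=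
  MvPolynomial.bind₁ (fun hk : Fin m × Fin (M + 1) =>
    (∑ j, MvPolynomial.C (g hk.1 j hk.2) * MvPolynomial.X (Sum.inl (hk.1, j))) +
      if hk.2 = k hk.1 then MvPolynomial.X (Sum.inr hk.1) else 0) P

/-- translation: `P(β + x)` -/
noncomputable def tr {m : ℕ} (β : Fin m → ℚ) (P : MvPolynomial (Fin m) ℚ) :
    MvPolynomial (Fin m) ℚ :=
  MvPolynomial.bind₁ (fun i => MvPolynomial.X i + MvPolynomial.C (β i)) P

/-- an integer polynomial with rational coefficients -/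
noncomputable def toQ {σ : Type} (P : MvPolynomial σ ℤ) : MvPolynomial σ ℚ :=
  MvPolynomial.map (Int.castRingHom ℚ) P

/-- the weight of an exponent -/
noncomputable def wt {m : ℕ} (d : Fin m → ℕ) (e : Fin m → ℕ) : ℝ := ∑ h, (e h : ℝ) / d h

/-- Hasse derivative -/
noncomputable def hd {m : ℕ} {R : Type} [CommRing R] (e : Fin m →₀ ℕ) (P : MvPolynomial (Fin m) R) :
    MvPolynomial (Fin m) R :=
  ∑ s ∈ P.support, MvPolynomial.monomial (s - e)
    (MvPolynomial.coeff s P * ((∏ i, (s i).choose (e i) : ℕ) : R))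

/-- the exponent `(μ, j)` -/
noncomputable def ex {m : ℕ} (μ : Fin m →₀ ℕ) (j : ℕ) : Fin (m + 1) →₀ ℕ :=
  Finsupp.equivFunOnFinite.symm (Fin.snoc (α := fun _ => ℕ) (fun i => μ i) j)

/-- the matrix of the derivatives of `P` of orders `(μ i, j)` -/
noncomputable def dmt {m k : ℕ} (μ : Fin k → (Fin m →₀ ℕ)) (P : MvPolynomial (Fin (m + 1)) ℤ) :
    Matrix (Fin k) (Fin k) (MvPolynomial (Fin (m + 1)) ℤ) :=
  Matrix.of fun i j => hd (ex (μ i) (j : ℕ)) P

/-! ## Compound matrices -/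

/-- increasing `p`-tuples of elements of `Fin N` -/
abbrev Sb (N p : ℕ) := {f : Fin p → Fin N // StrictMono f}

noncomputable instance (N p : ℕ) : Fintype (Sb N p) := Fintype.ofFinite _

/-- the `p`-th compound matrix -/
def cpd {N : ℕ} {R : Type} [CommRing R] (p : ℕ) (A : Matrix (Fin N) (Fin N) R) :
    Matrix (Sb N p) (Sb N p) R := fun s t => (A.submatrix s.1 t.1).det

/-- the last `p` indices -/
def lst (k p : ℕ) : Sb (k + p) p := ⟨fun i => Fin.natAdd k i, fun i j h => by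
  rw [Fin.lt_def] at h ⊢
  simp only [Fin.val_natAdd]
  omega⟩

/-! ## Sequences modulo an ultrafilter -/

/-- linear independence over `ℚ` modulo the ultrafilter -/
def LI (U : Ultrafilter ℕ) {J : Type} (x : J → ℕ → ℚ) (B : Finset J) : Prop :=
  ∀ c : J → ℚ, (∀ᶠ n in (U : Filter ℕ), ∑ j ∈ B, c j * x j n = 0) → ∀ j ∈ B, c j = 0

/-- positive `S`-unit -/
def IsU (S : Finset ℕ) (x : ℚ) : Prop := 0 < x ∧ ∏ v ∈ pl S, av v x = 1

/-- the monomial `g^e` -/
def mon {r : ℕ} (g : Fin r → ℕ → ℚ) (e : Fin r →₀ ℕ) (n : ℕ) : ℚ := ∏ i, g i n ^ (e i)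

/-- the exponents of total degree at most `h` -/
noncomputable def Exs (r h : ℕ) : Finset (Fin r →₀ ℕ) :=
  (Finset.range (h + 1)).biUnion fun k => Finset.finsuppAntidiag Finset.univ k

/-- the value of a polynomial -/
noncomputable def ev {r : ℕ} (g : Fin r → ℕ → ℚ) (n : ℕ) (H : MvPolynomial (Fin r) ℚ) : ℚ :=
  MvPolynomial.eval (fun i => g i n) H

/-- multiplicatively independent modulo constants -/
def MI (U : Ultrafilter ℕ) {r : ℕ} (g : Fin r → ℕ → ℚ) : Prop :=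
  ∀ (e : Fin r → ℤ) (κ : ℚ), (∀ᶠ n in (U : Filter ℕ), ∏ i, g i n ^ (e i) = κ) → e = 0

/-- `Z` is linearly independent over the polynomials in `g` -/
def Indp (U : Ultrafilter ℕ) {r d : ℕ} (g : Fin r → ℕ → ℚ) (Z : Fin d → ℕ → ℤ) : Prop :=
  ∀ H : Fin d → MvPolynomial (Fin r) ℚ,
    (∀ᶠ n in (U : Filter ℕ), ∑ i, ev g n (H i) * (Z i n : ℚ) = 0) → H = 0

/-- the data common to the whole second part: units of height `exp (O(T))`, independent modulo
constants, `T` tends to infinity -/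
structure Gd (U : Ultrafilter ℕ) (S : Finset ℕ) (T : ℕ → ℝ) {r : ℕ} (g : Fin r → ℕ → ℚ) : Prop where
  prime : PS S
  lim : Tendsto T (U : Filter ℕ) atTop
  unit : ∀ i n, IsU S (g i n)
  ind : MI U g
  height : ∃ C : ℝ, ∀ᶠ n in (U : Filter ℕ), ∀ i, ∀ v ∈ pl S, av v (g i n) ≤ Real.exp (C * T n)

/-- a description of the integer sequence `R` by the integer sequences `Z`, adapted to the
base `a`: `P₀ R = ∑ P i Z i`; up to the unit `ν` the monomials of `P₀` are small at all places and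
the monomials of the `P i` are powers of `a` times something small at all places -/
def Dsc (U : Ultrafilter ℕ) (S : Finset ℕ) (T : ℕ → ℝ) {r d : ℕ} (g : Fin r → ℕ → ℚ) (a : ℕ)
    (Z : Fin d → ℕ → ℤ) (R : ℕ → ℤ) (B : ℝ) : Prop :=
  ∃ (P₀ : MvPolynomial (Fin r) ℚ) (P : Fin d → MvPolynomial (Fin r) ℚ) (ν : ℕ → ℚ),
    P₀ ≠ 0 ∧ (∀ n, IsU S (ν n)) ∧
    (∀ᶠ n in (U : Filter ℕ), ev g n P₀ * (R n : ℚ) = ∑ i, ev g n (P i) * (Z i n : ℚ)) ∧
    (∀ e ∈ P₀.support, ∀ᶠ n in (U : Filter ℕ), ∀ v ∈ pl S,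
      av v (mon g e n) ≤ Real.exp (B * T n) * av v (ν n)) ∧
    ∀ i, ∀ e ∈ (P i).support, ∃ m : ℕ → ℕ, ∀ᶠ n in (U : Filter ℕ), ∀ v ∈ pl S,
      av v (mon g e n) ≤ Real.exp (B * T n) * av v ((a : ℚ) ^ m n * ν n)

/-! ## Words -/

/-- the block of length `m` at the place `i` -/
def blk (u : ℕ → ℕ) (m i : ℕ) : Fin m → ℕ := fun t => u (i + t)

/-- the number of blocks of length `m` at the places `i < X` -/
noncomputable def nbl (u : ℕ → ℕ) (m X : ℕ) : ℕ :=
  (Set.image (blk u m) (Set.Iio X)).ncard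

/-- `i` is a special place: the block of length `m` at `i` has two continuations -/
def Spe (u : ℕ → ℕ) (m X i : ℕ) : Prop :=
  i < X ∧ ∃ j < X, blk u m i = blk u m j ∧ u (i + m) ≠ u (j + m)

/-- `F` is a sum of `N` terms `ε a^k` with `|ε| ≤ 1`, `k ≤ M` -/
def Rep (a N M : ℕ) (F : ℤ) : Prop :=
  ∃ (ε : Fin N → ℤ) (k : Fin N → ℕ), (∀ t, |ε t| ≤ 1) ∧ (∀ t, k t ≤ M) ∧
    F = ∑ t, ε t * (a : ℤ) ^ (k t)

/-- the `i`-th digit after the point (`i ≥ 1`) of `x` in base `b` -/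
noncomputable def dig (b : ℕ) (x : ℝ) (i : ℕ) : ℤ := ⌊x * (b : ℝ) ^ i⌋ % b

/-- the number of different blocks of `n` digits of `x` in base `b` which start at one of the
places `1, ..., X` after the point -/
noncomputable def cnt (b : ℕ) (x : ℝ) (n X : ℕ) : ℕ :=
  Set.ncard {w : Fin n → ℤ | ∃ i < X, ∀ j : Fin n, w j = dig b x (i + 1 + j)}

/-- the number of `i` with `1 ≤ i ≤ X` such that the digits `i` and `i + 1` differ -/
noncomputable def chg (b : ℕ) (x : ℝ) (X : ℕ) : ℕ :=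
  ((Finset.Icc 1 X).filter (fun i => dig b x i ≠ dig b x (i + 1))).card

/-- `x` has irrationality exponent at most `μ` -/
def Meas (x : ℝ) (μ : ℕ) : Prop :=
  ∃ c : ℝ, 0 < c ∧ ∀ (q : ℕ) (P : ℤ), 0 < q → c ≤ |x - P / q| * (q : ℝ) ^ μ

/-- `a` and `b` are multiplicatively independent -/
def Indep (a b : ℕ) : Prop := ∀ i j : ℕ, 0 < i → a ^ i ≠ b ^ j

end Pool.Agent.SBT
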