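import Pool.Agent.SBT.StmtsD

set_option autoImplicit false

namespace Pool.Agent.SBT

open Filter

namespace ELM_

lemma av_nonneg' (v : ℕ) (x : ℚ) : 0 ≤ av v x := by
  unfold av
  split_ifs
  · exact abs_nonneg _
  · exact_mod_cast padicNorm.nonneg x

lemma dsc_mono {U : Ultrafilter ℕ} {S : Finset ℕ} {T : ℕ → ℝ} {r d a : ℕ} {g : Fin r → ℕ → ℚ}
    {Z : Fin d → ℕ → ℤ} {R : ℕ → ℤ} {B B' : ℝ} (hT : ∀ᶠ n in (U : Filter ℕ), 0 ≤ T n)
    (hB : B ≤ B') (h : Dsc U S T g a Z R B) : Dsc U S T g a Z R B' := by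
  obtain ⟨P₀, P, ν, h0, h1, h2, h3, h4⟩ := h
  refine ⟨P₀, P, ν, h0, h1, h2, fun e he => ?_, fun i e he => ?_⟩
  · filter_upwards [h3 e he, hT] with n hn hTn v hv
    refine (hn v hv).trans (mul_le_mul_of_nonneg_right ?_ (av_nonneg' _ _))
    exact Real.exp_le_exp.2 (mul_le_mul_of_nonneg_right hB hTn)
  · obtain ⟨m, hm⟩ := h4 i e he
    refine ⟨m, ?_⟩
    filter_upwards [hm, hT] with n hn hTn v hv
    refine (hn v hv).trans (mul_le_mul_of_nonneg_right ?_ (av_nonneg' _ _))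
    exact Real.exp_le_exp.2 (mul_le_mul_of_nonneg_right hB hTn)

end ELM_

open ELM_ in
theorem elm_proof (hEL1 : Stmt_EL1) : Stmt_ELM := by
  intro U S T r d
  induction d with
  | zero =>
    intro ι g bs Z R B B₀ hG hB hZ hR
    refine ⟨0, Z, le_rfl, hZ, ?_, ?_⟩
    · intro H _
      exact funext fun i => i.elim0
    · intro t
      have hT : ∀ᶠ n in (U : Filter ℕ), 0 ≤ T n := hG.lim.eventually_ge_atTop 0
      refine dsc_mono hT ?_ (hR t)
      simp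
  | succ d ih =>
    intro ι g bs Z R B B₀ hG hB hZ hR
    have hT : ∀ᶠ n in (U : Filter ℕ), 0 ≤ T n := hG.lim.eventually_ge_atTop 0
    by_cases hI : Indp U g Z
    · refine ⟨d + 1, Z, le_rfl, hZ, hI, fun t => dsc_mono hT ?_ (hR t)⟩
      have h1 : (0 : ℝ) ≤ ((d + 1 : ℕ) : ℝ) * (((d + 1 : ℕ) : ℝ) * B + 1) := by positivity
      linarith
    · obtain ⟨Z', hZ', hD⟩ := hEL1 U S T r d ι g bs Z R B B₀ hG hB hZ hI hR
      have hZ2 : ∀ᶠ n in (U : Filter ℕ), ∀ i, |(Z' i n : ℝ)| ≤ Real.exp (B * T n) := by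
        filter_upwards [hZ] with n hn i
        obtain ⟨j, hj⟩ := hZ' i
        rw [hj]
        exact hn j
      obtain ⟨d', Z'', hd', hb, hI', hD'⟩ := ih ι g bs Z' R B (B₀ + (d + 1) * B + 1) hG hB hZ2 hD
      refine ⟨d', Z'', hd'.trans (Nat.le_succ d), hb, hI', fun t => dsc_mono hT ?_ (hD' t)⟩
      have hd0 : (0 : ℝ) ≤ d := Nat.cast_nonneg d
      push_cast
      nlinarith [mul_nonneg hd0 hB, mul_nonneg (mul_nonneg hd0 hd0) hB]

end Pool.Agent.SBT
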