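import Pool.Agent.SBT.StmtsD

set_option autoImplicit false

/-!
# SBT, module FWL: the theorem of Fine and Wilf
-/

namespace Pool.Agent.SBT

namespace FWL_

theorem step (u : ℕ → ℕ) (x y p q : ℕ) (hpq : p < q) (h : x + p + q ≤ y)
    (hp : ∀ i, x ≤ i → i + p < y → u i = u (i + p))
    (hg : ∀ i, x ≤ i → i + Nat.gcd p (q - p) < y - p → u i = u (i + Nat.gcd p (q - p))) :
    ∀ i, x ≤ i → i + Nat.gcd p q < y → u i = u (i + Nat.gcd p q) := by
  have he : Nat.gcd p (q - p) = Nat.gcd p q := by
    rw [Nat.gcd_sub_self_right hpq.le]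
  rw [he] at hg
  have hgle : Nat.gcd p q ≤ q - p := by
    rw [← he]
    exact Nat.le_of_dvd (by omega) (Nat.gcd_dvd_right _ _)
  generalize Nat.gcd p q = g at hg hgle
  intro i hi hiy
  by_cases hc : i + g < y - p
  · exact hg i hi hc
  · have h1 : x ≤ i - p := by omega
    have h2 : i - p + p = i := by omega
    have h3 := hp (i - p) h1 (by omega)
    have h4 := hg (i - p) h1 (by omega)
    have h5 := hp (i - p + g) (by omega) (by omega)
    have h6 : i - p + g + p = i + g := by omega
    rw [h2] at h3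
    rw [h6] at h5
    rw [← h3, h4, h5]

theorem sub_period (u : ℕ → ℕ) (x y p q : ℕ) (hpq : p < q)
    (hp : ∀ i, x ≤ i → i + p < y → u i = u (i + p))
    (hq : ∀ i, x ≤ i → i + q < y → u i = u (i + q)) :
    ∀ i, x ≤ i → i + (q - p) < y - p → u i = u (i + (q - p)) := by
  intro i hi hiy
  have h1 := hq i hi (by omega)
  have h2 := hp (i + (q - p)) (by omega) (by omega)
  have h3 : i + (q - p) + p = i + q := by omega
  rw [h3] at h2
  rw [h1, h2]

theorem main (n : ℕ) : ∀ (u : ℕ → ℕ) (x y p q : ℕ), p + q ≤ n → 1 ≤ p → 1 ≤ q → x + p + q ≤ y →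
    (∀ i, x ≤ i → i + p < y → u i = u (i + p)) →
    (∀ i, x ≤ i → i + q < y → u i = u (i + q)) →
    ∀ i, x ≤ i → i + Nat.gcd p q < y → u i = u (i + Nat.gcd p q) := by
  induction n with
  | zero => intro u x y p q h0 h1 h2; omega
  | succ n ih =>
    intro u x y p q h0 h1 h2 h3 hp hq
    rcases lt_trichotomy p q with hlt | heq | hgt
    · refine step u x y p q hlt h3 hp ?_
      refine ih u x (y - p) p (q - p) (by omega) h1 (by omega) (by omega) ?_ ?_
      · intro i hi hiy
        exact hp i hi (by omega)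
      · exact sub_period u x y p q hlt hp hq
    · subst heq
      rw [Nat.gcd_self]
      exact hp
    · rw [Nat.gcd_comm]
      refine step u x y q p hgt (by omega) hq ?_
      refine ih u x (y - q) q (p - q) (by omega) h2 (by omega) (by omega) ?_ ?_
      · intro i hi hiy
        exact hq i hi (by omega)
      · exact sub_period u x y q p hgt hq hp

end FWL_

theorem fwl_proof : Stmt_FWL := by
  intro u x y p q h1 h2 h3 hp hq
  exact FWL_.main (p + q) u x y p q le_rfl h1 h2 h3 hp hq

end Pool.Agent.SBT
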