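import Pool.Agent.SBT.StmtsG

set_option autoImplicit false

namespace Pool.Agent.SBT

open Filter

/-- the digits of zero -/
theorem dig_zero (b i : ℕ) : dig b 0 i = 0 := by simp [dig]

theorem cnt_zero_le (b n X : ℕ) : cnt b 0 n X ≤ 1 := by
  unfold cnt
  have h : {w : Fin n → ℤ | ∃ i < X, ∀ j : Fin n, w j = dig b 0 (i + 1 + j)} ⊆ {0} := by
    rintro w ⟨i, _, h⟩
    rw [Set.mem_singleton_iff]
    funext j
    rw [h j, dig_zero]
    rfl
  calc _ ≤ ({0} : Set (Fin n → ℤ)).ncard := Set.ncard_le_ncard h (Set.finite_singleton _)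
    _ = 1 := Set.ncard_singleton _

theorem indM_pad {k l : ℕ} (a : Fin k → ℕ) (b : Fin l → ℕ) (P : MvPolynomial (Fin k) ℚ)
    (Q : MvPolynomial (Fin l) ℚ) (h : IndM a b P Q) :
    IndM (Fin.append a (fun _ : Fin l => 2)) (Fin.append (fun _ : Fin k => 2) b)
      (MvPolynomial.rename (Fin.castAdd l) P) (MvPolynomial.rename (Fin.natAdd k) Q) := by
  classical
  intro α' hα' β' hβ' e f he hf hprod
  rw [MvPolynomial.support_rename_of_injective (Fin.castAdd_injective k l)] at hα'
  rw [MvPolynomial.support_rename_of_injective (Fin.natAdd_injective l k)] at hβ'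
  rw [Finset.mem_image] at hα' hβ'
  obtain ⟨α, hα, rfl⟩ := hα'
  obtain ⟨β, hβ, rfl⟩ := hβ'
  have e0 : ∀ j : Fin l, e (Fin.natAdd k j) = 0 := by
    intro j
    apply he
    rw [Finsupp.mapDomain_of_notMem_range]
    rintro ⟨i, hi⟩
    have := congrArg Fin.val hi
    simp at this
    omega
  have f0 : ∀ i : Fin k, f (Fin.castAdd l i) = 0 := by
    intro i
    apply hf
    rw [Finsupp.mapDomain_of_notMem_range]
    rintro ⟨j, hj⟩
    have := congrArg Fin.val hj
    simp at this
    omega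
  have hA : ∏ i, ((Fin.append a (fun _ : Fin l => 2) i : ℕ) : ℚ) ^ e i =
      ∏ i, (a i : ℚ) ^ e (Fin.castAdd l i) := by
    rw [Fin.prod_univ_add]
    simp [e0]
  have hB : ∏ i, ((Fin.append (fun _ : Fin k => 2) b i : ℕ) : ℚ) ^ f i =
      ∏ j, (b j : ℚ) ^ f (Fin.natAdd k j) := by
    rw [Fin.prod_univ_add]
    simp [f0]
  rw [hA] at hprod ⊢
  rw [hB] at hprod
  refine h α hα β hβ _ _ ?_ ?_ hprod
  · intro i hi
    apply he
    rw [Finsupp.mapDomain_apply (Fin.castAdd_injective k l)]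
    exact hi
  · intro j hj
    apply hf
    rw [Finsupp.mapDomain_apply (Fin.natAdd_injective l k)]
    exact hj

/-- the ring theorem with different numbers of variables -/
theorem ring_pad (hR : Stmt_RNG) (k l : ℕ) (a : Fin k → ℕ) (b : Fin l → ℕ)
    (ha : ∀ i, 2 ≤ a i) (hb : ∀ j, 2 ≤ b j) (P : MvPolynomial (Fin k) ℚ)
    (Q : MvPolynomial (Fin l) ℚ) (hind : IndM a b P Q) (ξ : ℝ) (μ : ℕ) (hξ : Meas ξ μ)
    (x : Fin k → ℝ) (y : Fin l → ℝ) (hx : MvPolynomial.aeval x P = ξ)
    (hy : MvPolynomial.aeval y Q = ξ) (C : ℕ) :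
    ∃ Λ : ℕ, ∀ᶠ n : ℕ in atTop,
      C * n ≤ ∑ i, cnt (a i) (x i) n (Λ * n) + ∑ j, cnt (b j) (y j) n (Λ * n) := by
  obtain ⟨Λ, hΛ⟩ := hR (k + l) ![Fin.append a (fun _ => 2), Fin.append (fun _ => 2) b] ξ μ
    ![Fin.append x (fun _ => 0), Fin.append (fun _ => 0) y]
    ![MvPolynomial.rename (Fin.castAdd l) P, MvPolynomial.rename (Fin.natAdd k) Q]
    (by
      intro r i
      fin_cases r
      · refine Fin.addCases (fun i => ?_) (fun j => ?_) i
        · simpa using ha i
        · simp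
      · refine Fin.addCases (fun i => ?_) (fun j => ?_) i
        · simp
        · simpa using hb j)
    (by simpa using indM_pad a b P Q hind) hξ
    (by
      intro r
      fin_cases r
      · show MvPolynomial.aeval (Fin.append x (fun _ => 0))
          (MvPolynomial.rename (Fin.castAdd l) P) = ξ
        rw [MvPolynomial.aeval_rename, ← hx]
        congr 1
        congr 1
        funext i
        simp
      · show MvPolynomial.aeval (Fin.append (fun _ => 0) y)
          (MvPolynomial.rename (Fin.natAdd k) Q) = ξ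
        rw [MvPolynomial.aeval_rename, ← hy]
        congr 1
        congr 1
        funext i
        simp)
    (C + 1)
  refine ⟨Λ, ?_⟩
  filter_upwards [hΛ, eventually_ge_atTop (k + l)] with n hn hkl
  simp only [Fin.sum_univ_two, Fin.sum_univ_add] at hn
  simp only [Matrix.cons_val_zero, Matrix.cons_val_one, Fin.append_left, Fin.append_right] at hn
  have h1 : ∑ _j : Fin l, cnt 2 0 n (Λ * n) ≤ l := by
    calc _ ≤ ∑ _j : Fin l, 1 := Finset.sum_le_sum fun _ _ => cnt_zero_le _ _ _
      _ = l := by simp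
  have h2 : ∑ _i : Fin k, cnt 2 0 n (Λ * n) ≤ k := by
    calc _ ≤ ∑ _j : Fin k, 1 := Finset.sum_le_sum fun _ _ => cnt_zero_le _ _ _
      _ = k := by simp
  have h3 : (C + 1) * n = C * n + n := by ring
  omega

end Pool.Agent.SBT
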