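import Pool.Agent.SBT.StmtsG
import Pool.Agent.SBT.Api

/-!
# RNC: the core of the ring theorem
-/

set_option autoImplicit false

namespace Pool.Agent.SBT

open Filter

namespace RNC_

theorem ev_choice {F : Filter ℕ} {α : Type} [Nonempty α] {P : ℕ → α → Prop}
    (h : ∀ᶠ n in F, ∃ a, P n a) : ∃ f : ℕ → α, ∀ᶠ n in F, P n (f n) := by
  classical
  refine ⟨fun n => if hn : ∃ a, P n a then Classical.choose hn else Classical.arbitrary α, ?_⟩
  filter_upwards [h] with n hn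
  rw [dif_pos hn]
  exact Classical.choose_spec hn

/-- a common denominator of the coefficients -/
theorem exists_int {σ : Type} (P : MvPolynomial σ ℚ) :
    ∃ h : ℕ, 0 < h ∧ ∃ Z : MvPolynomial σ ℤ,
      MvPolynomial.map (Int.castRingHom ℚ) Z = MvPolynomial.C (h : ℚ) * P := by
  induction P using MvPolynomial.induction_on with
  | C a =>
    refine ⟨a.den, a.den_pos, MvPolynomial.C a.num, ?_⟩
    rw [MvPolynomial.map_C, ← MvPolynomial.C_mul]
    congr 1
    rw [mul_comm]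
    exact (Rat.mul_den_eq_num a).symm
  | add P Q hP hQ =>
    obtain ⟨h₁, hh₁, Z₁, e₁⟩ := hP
    obtain ⟨h₂, hh₂, Z₂, e₂⟩ := hQ
    refine ⟨h₁ * h₂, Nat.mul_pos hh₁ hh₂,
      MvPolynomial.C (h₂ : ℤ) * Z₁ + MvPolynomial.C (h₁ : ℤ) * Z₂, ?_⟩
    rw [map_add, map_mul, map_mul, e₁, e₂, MvPolynomial.map_C, MvPolynomial.map_C]
    push_cast
    simp only [MvPolynomial.C_mul, eq_intCast, Int.cast_natCast]
    ring
  | mul_X P i hP =>
    obtain ⟨h, hh, Z, e⟩ := hP
    refine ⟨h, hh, Z * MvPolynomial.X i, ?_⟩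
    rw [map_mul, e, MvPolynomial.map_X, mul_assoc]

/-- polynomials are Lipschitz -/
theorem lip {k : ℕ} (Q : MvPolynomial (Fin k) ℝ) (x : Fin k → ℝ) :
    ∃ K : ℝ, 0 ≤ K ∧ ∀ (z : Fin k → ℝ) (ε : ℝ), 0 ≤ ε → ε ≤ 1 → (∀ i, |x i - z i| ≤ ε) →
      |MvPolynomial.eval x Q - MvPolynomial.eval z Q| ≤ K * ε := by
  induction Q using MvPolynomial.induction_on with
  | C a =>
    refine ⟨0, le_rfl, ?_⟩
    intro z ε _ _ _
    simp
  | add P Q hP hQ =>
    obtain ⟨K₁, hK₁, h₁⟩ := hP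
    obtain ⟨K₂, hK₂, h₂⟩ := hQ
    refine ⟨K₁ + K₂, add_nonneg hK₁ hK₂, ?_⟩
    intro z ε h0 h1 hz
    rw [map_add, map_add, add_sub_add_comm, add_mul]
    exact (abs_add_le _ _).trans (add_le_add (h₁ z ε h0 h1 hz) (h₂ z ε h0 h1 hz))
  | mul_X P i hP =>
    obtain ⟨K, hK, h⟩ := hP
    refine ⟨K * |x i| + (|MvPolynomial.eval x P| + K),
      add_nonneg (mul_nonneg hK (abs_nonneg _)) (add_nonneg (abs_nonneg _) hK), ?_⟩
    intro z ε h0 h1 hz
    have a1 := h z ε h0 h1 hz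
    have a2 := hz i
    rw [map_mul, map_mul, MvPolynomial.eval_X, MvPolynomial.eval_X]
    have e : MvPolynomial.eval x P * x i - MvPolynomial.eval z P * z i =
        (MvPolynomial.eval x P - MvPolynomial.eval z P) * x i +
          MvPolynomial.eval z P * (x i - z i) := by ring
    have a3 : |MvPolynomial.eval z P| ≤ |MvPolynomial.eval x P| + K := by
      have : MvPolynomial.eval z P = MvPolynomial.eval x P -
        (MvPolynomial.eval x P - MvPolynomial.eval z P) := by ring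
      rw [this]
      have a4 : K * ε ≤ K := by nlinarith
      exact (abs_sub _ _).trans (by linarith)
    rw [e]
    refine (abs_add_le _ _).trans ?_
    rw [abs_mul, abs_mul, add_mul]
    refine add_le_add ?_ ?_
    · calc _ ≤ K * ε * |x i| := mul_le_mul_of_nonneg_right a1 (abs_nonneg _)
        _ = K * |x i| * ε := by ring
    · exact mul_le_mul a3 a2 (abs_nonneg _) (add_nonneg (abs_nonneg _) hK)

/-! ## Expansion -/

/-- coefficient of a choice -/
def Gc {s : ℕ} (F : Fin s → ℚ) (α l : ℕ) : Option (Fin s) → ℚ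
  | none => if l < α then 0 else 1
  | some j => if l < α then F j else 0

/-- value of a choice -/
def Yc {s : ℕ} (y : Fin s → ℤ) : Option (Fin s) → ℤ
  | none => 1
  | some j => y j

theorem prod_ite {D α : ℕ} (h : α ≤ D) (c : ℚ) :
    ∏ l : Fin D, (if (l : ℕ) < α then c else 1) = c ^ α := by
  rw [Fin.prod_univ_eq_prod_range (fun l => if l < α then c else 1) D,
    ← Finset.prod_subset (Finset.range_subset_range.2 h)]
  · rw [Finset.prod_congr rfl (g := fun _ => c)]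
    · simp
    · intro l hl
      rw [if_pos (Finset.mem_range.1 hl)]
  · intro l _ hl
    rw [if_neg (fun h' => hl (Finset.mem_range.2 h'))]

theorem expand {s D α : ℕ} (h : α ≤ D) (F : Fin s → ℚ) (y : Fin s → ℤ) :
    (∑ j, F j * (y j : ℚ)) ^ α =
      ∑ o : Fin D → Option (Fin s), ∏ l : Fin D, (Gc F α l (o l) * (Yc y (o l) : ℚ)) := by
  classical
  rw [← prod_ite h]
  have h1 : ∀ l : Fin D, (if (l : ℕ) < α then (∑ j, F j * (y j : ℚ)) else 1) =
      ∑ o : Option (Fin s), Gc F α l o * (Yc y o : ℚ) := by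
    intro l
    rw [Fintype.sum_option]
    by_cases hl : (l : ℕ) < α
    · simp [Gc, Yc, hl]
    · simp [Gc, Yc, hl]
  rw [Finset.prod_congr rfl fun l _ => h1 l, Finset.prod_univ_sum, Fintype.piFinset_univ]

theorem expand_all {k s D : ℕ} (α : Fin k → ℕ) (h : ∀ i, α i ≤ D) (b : Fin k → ℚ)
    (F : Fin k → Fin s → ℚ) (y : Fin k → Fin s → ℤ) :
    ∏ i, (b i * (∑ j, F i j * (y i j : ℚ)) ^ α i) =
      ∑ o : Fin k → Fin D → Option (Fin s),
        (∏ i, (b i * ∏ l : Fin D, Gc (F i) (α i) l (o i l))) *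
          ((∏ i, ∏ l, Yc (y i) (o i l) : ℤ) : ℚ) := by
  classical
  have h1 : ∀ i, b i * (∑ j, F i j * (y i j : ℚ)) ^ α i =
      ∑ o : Fin D → Option (Fin s),
        b i * ∏ l : Fin D, (Gc (F i) (α i) l (o l) * (Yc (y i) (o l) : ℚ)) := by
    intro i
    rw [expand (h i), Finset.mul_sum]
  rw [Finset.prod_congr rfl fun i _ => h1 i, Finset.prod_univ_sum, Fintype.piFinset_univ]
  refine Finset.sum_congr rfl fun o _ => ?_
  push_cast
  rw [← Finset.prod_mul_distrib]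
  refine Finset.prod_congr rfl fun i _ => ?_
  rw [Finset.prod_mul_distrib, mul_assoc]

/-! ## Linear combinations of units -/

/-- powers of `a` with exponent at most `c n` -/
def Em (U : Ultrafilter ℕ) (a : ℕ) (c : ℝ) : Set (ℕ → ℚ) :=
  {u | ∃ m : ℕ → ℕ, (∀ᶠ n in (U : Filter ℕ), (m n : ℝ) ≤ c * n) ∧ ∀ n, u n = (a : ℚ) ^ m n}

theorem one_mem_Em (U : Ultrafilter ℕ) (a : ℕ) {c : ℝ} (hc : 0 ≤ c) : (1 : ℕ → ℚ) ∈ Em U a c := by
  refine ⟨fun _ => 0, Eventually.of_forall fun n => ?_, fun n => by simp⟩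
  simp only [Nat.cast_zero]
  positivity

theorem Em_mul (U : Ultrafilter ℕ) (a : ℕ) {c c' : ℝ} {u u' : ℕ → ℚ} (h : u ∈ Em U a c)
    (h' : u' ∈ Em U a c') : u * u' ∈ Em U a (c + c') := by
  obtain ⟨m, hm, e⟩ := h
  obtain ⟨m', hm', e'⟩ := h'
  refine ⟨fun n => m n + m' n, ?_, fun n => ?_⟩
  · filter_upwards [hm, hm'] with n h1 h2
    push_cast
    linarith
  · rw [Pi.mul_apply, e, e', pow_add]

theorem Em_mono (U : Ultrafilter ℕ) (a : ℕ) {c c' : ℝ} (h : c ≤ c') : Em U a c ⊆ Em U a c' := by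
  rintro u ⟨m, hm, e⟩
  refine ⟨m, ?_, e⟩
  filter_upwards [hm] with n h1
  have : c * (n : ℝ) ≤ c' * n := mul_le_mul_of_nonneg_right h (Nat.cast_nonneg n)
  linarith

variable (hL : Stmt_LCC) (U : Ultrafilter ℕ)

include hL

theorem lc_zero (Γ : Set (ℕ → ℚ)) : Lc U Γ 0 := (hL U).1 Γ

theorem lc_add {Γ : Set (ℕ → ℚ)} {f g : ℕ → ℚ} (hf : Lc U Γ f) (hg : Lc U Γ g) :
    Lc U Γ (f + g) := (hL U).2.1 Γ f g hf hg

theorem lc_mul {Γ Γ' Γ'' : Set (ℕ → ℚ)} {f g : ℕ → ℚ} (hf : Lc U Γ f) (hg : Lc U Γ' g)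
    (h : ∀ u ∈ Γ, ∀ u' ∈ Γ', u * u' ∈ Γ'') : Lc U Γ'' (f * g) :=
  (hL U).2.2.1 Γ Γ' Γ'' f g hf hg h

theorem lc_mono {Γ Γ' : Set (ℕ → ℚ)} {f : ℕ → ℚ} (h : Γ ⊆ Γ') (hf : Lc U Γ f) : Lc U Γ' f :=
  (hL U).2.2.2.1 Γ Γ' f h hf

theorem lc_const {Γ : Set (ℕ → ℚ)} {f : ℕ → ℚ} (c : ℤ) (hf : Lc U Γ f) :
    Lc U Γ (fun n => (c : ℚ) * f n) := (hL U).2.2.2.2.1 Γ f c hf

theorem lc_mem {Γ : Set (ℕ → ℚ)} {f : ℕ → ℚ} (hf : f ∈ Γ) : Lc U Γ f :=
  (hL U).2.2.2.2.2.1 Γ f hf

theorem lc_congr {Γ : Set (ℕ → ℚ)} {f g : ℕ → ℚ} (hf : Lc U Γ f)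
    (h : ∀ᶠ n in (U : Filter ℕ), f n = g n) : Lc U Γ g :=
  (hL U).2.2.2.2.2.2.1 Γ f g hf h

theorem lc_rep {a N : ℕ} {M : ℕ → ℕ} {F : ℕ → ℤ}
    (h : ∀ᶠ n in (U : Filter ℕ), Rep a N (M n) (F n)) :
    Lc U {u | ∃ m : ℕ → ℕ, (∀ n, m n ≤ M n) ∧ ∀ n, u n = (a : ℚ) ^ m n} (fun n => (F n : ℚ)) :=
  (hL U).2.2.2.2.2.2.2 a N M F h

theorem lc_sum {Γ : Set (ℕ → ℚ)} {ι : Type*} (t : Finset ι) (f : ι → ℕ → ℚ)
    (h : ∀ i ∈ t, Lc U Γ (f i)) : Lc U Γ (∑ i ∈ t, f i) := by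
  classical
  induction t using Finset.induction_on with
  | empty =>
    rw [Finset.sum_empty]
    exact lc_zero hL U Γ
  | insert a t ha ih =>
    rw [Finset.sum_insert ha]
    exact lc_add hL U (h a (Finset.mem_insert_self a t))
      (ih fun i hi => h i (Finset.mem_insert_of_mem hi))

theorem lc_prod {ι : Type} [DecidableEq ι] (t : Finset ι) (Γ : ι → Set (ℕ → ℚ))
    (f : ι → ℕ → ℚ) (h : ∀ i ∈ t, Lc U (Γ i) (f i)) :
    Lc U {u | ∃ v : ι → ℕ → ℚ, (∀ i ∈ t, v i ∈ Γ i) ∧ u = ∏ i ∈ t, v i} (∏ i ∈ t, f i) := by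
  induction t using Finset.induction_on with
  | empty =>
    rw [Finset.prod_empty]
    exact lc_mem hL U ⟨fun _ => 0, by simp, by simp⟩
  | insert a t ha ih =>
    rw [Finset.prod_insert ha]
    refine lc_mul hL U (h a (Finset.mem_insert_self a t))
      (ih fun i hi => h i (Finset.mem_insert_of_mem hi)) ?_
    rintro u hu u' ⟨v, hv, rfl⟩
    refine ⟨Function.update v a u, ?_, ?_⟩
    · intro i hi
      rcases Finset.mem_insert.1 hi with rfl | hi'
      · rw [Function.update_self]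
        exact hu
      · rw [Function.update_of_ne (by
          rintro rfl
          exact ha hi')]
        exact hv i hi'
    · rw [Finset.prod_insert ha, Function.update_self]
      congr 1
      refine Finset.prod_congr rfl fun i hi => ?_
      rw [Function.update_of_ne (by
        rintro rfl
        exact ha hi)]

theorem lc_one (Γ : Set (ℕ → ℚ)) (h : (1 : ℕ → ℚ) ∈ Γ) : Lc U Γ 1 := lc_mem hL U h

theorem em_prod {a : ℕ} {c : ℝ} {ι : Type*} (t : Finset ι) (f : ι → ℕ → ℚ)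
    (h : ∀ i ∈ t, Lc U (Em U a c) (f i)) : Lc U (Em U a (t.card * c)) (∏ i ∈ t, f i) := by
  classical
  induction t using Finset.induction_on with
  | empty =>
    rw [Finset.prod_empty]
    exact lc_mem hL U (one_mem_Em U a (by simp))
  | insert b t hb ih =>
    rw [Finset.prod_insert hb, Finset.card_insert_of_notMem hb]
    refine lc_mul hL U (h b (Finset.mem_insert_self b t))
      (ih fun i hi => h i (Finset.mem_insert_of_mem hi)) ?_
    intro u hu u' hu'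
    have := Em_mul U a hu hu'
    have e : c + t.card * c = ((t.card + 1 : ℕ) : ℝ) * c := by
      push_cast
      ring
    rwa [e] at this

theorem em_pow {a : ℕ} {c : ℝ} (f : ℕ → ℚ) (h : Lc U (Em U a c) f) (e : ℕ) :
    Lc U (Em U a (e * c)) (f ^ e) := by
  have := em_prod hL U (Finset.univ : Finset (Fin e)) (fun _ => f) (fun _ _ => h)
  simpa using this

/-- the product of the `a ^ q j - 1` -/
noncomputable def Fs {s : ℕ} (a : ℕ) (q : Fin s → ℕ → ℕ) (n : ℕ) : ℚ := ∏ j, ((a : ℚ) ^ q j n - 1)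

theorem lc_Fs {s : ℕ} (a : ℕ) (q : Fin s → ℕ → ℕ) {B : ℝ} (hB : 0 ≤ B)
    (hq : ∀ j, ∀ᶠ n in (U : Filter ℕ), (q j n : ℝ) ≤ B * n) :
    Lc U (Em U a (s * B)) (Fs a q) := by
  have h1 : ∀ j ∈ (Finset.univ : Finset (Fin s)),
      Lc U (Em U a B) (fun n => (a : ℚ) ^ q j n - 1) := by
    intro j _
    have h2 : Lc U (Em U a B) (fun n => (a : ℚ) ^ q j n) := lc_mem hL U ⟨q j, hq j, fun _ => rfl⟩
    have h3 := lc_const hL U (-1) (lc_mem hL U (one_mem_Em U a hB))
    refine lc_congr hL U (lc_add hL U h2 h3) (Eventually.of_forall fun n => ?_)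
    simp only [Pi.add_apply, Pi.one_apply]
    push_cast
    ring
  have h4 := em_prod hL U _ _ h1
  rw [Finset.card_univ, Fintype.card_fin] at h4
  refine lc_congr hL U h4 (Eventually.of_forall fun n => ?_)
  rw [Finset.prod_apply]
  rfl

/-- the units of one factor -/
def Gi (U : Ultrafilter ℕ) (a : ℕ) (c c' : ℝ) (α D : ℕ) (L : ℕ → ℕ) : Set (ℕ → ℚ) :=
  {u | ∃ m m' : ℕ → ℕ, (∀ᶠ n in (U : Filter ℕ), (m n : ℝ) ≤ c * n) ∧
    (∀ᶠ n in (U : Filter ℕ), (m' n : ℝ) ≤ c' * n) ∧ (α = 0 → ∀ n, m' n = 0) ∧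
    ∀ n, u n = (a : ℚ) ^ ((D - α) * L n) * (a : ℚ) ^ m n * (a : ℚ) ^ m' n}

theorem lc_Gc {s : ℕ} (a : ℕ) (F : ℕ → Fin s → ℤ) (N : ℕ) (α D : ℕ) (o : Fin D → Option (Fin s))
    (hF : ∀ j, ∀ᶠ n in (U : Filter ℕ), Rep a N (N * n) (F n j)) :
    Lc U {u | ∃ m' : ℕ → ℕ, (∀ᶠ n in (U : Filter ℕ), (m' n : ℝ) ≤ ((D : ℝ) * N) * n) ∧
      (α = 0 → ∀ n, m' n = 0) ∧ ∀ n, u n = (a : ℚ) ^ m' n}
      (fun n => ∏ l : Fin D, Gc (fun j => (F n j : ℚ)) α l (o l)) := by
  by_cases hα : α = 0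
  · by_cases ho : ∃ l, ∃ j, o l = some j
    · obtain ⟨l, j, hl⟩ := ho
      refine lc_congr hL U (lc_zero hL U _) (Eventually.of_forall fun n => ?_)
      rw [Pi.zero_apply]
      symm
      apply Finset.prod_eq_zero (Finset.mem_univ l)
      rw [hl]
      simp [Gc, hα]
    · push Not at ho
      refine lc_congr hL U (lc_mem hL U (f := 1) ?_) (Eventually.of_forall fun n => ?_)
      · refine ⟨fun _ => 0, Eventually.of_forall fun n => ?_, fun _ _ => rfl, fun n => by simp⟩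
        simp only [Nat.cast_zero]
        positivity
      · rw [Pi.one_apply]
        symm
        apply Finset.prod_eq_one
        intro l _
        have : o l = none := by
          rcases h : o l with _ | j
          · rfl
          · exact absurd h (ho l j)
        rw [this]
        simp [Gc, hα]
  · have h1 : ∀ l ∈ (Finset.univ : Finset (Fin D)),
        Lc U (Em U a N) (fun n => Gc (fun j => (F n j : ℚ)) α l (o l)) := by
      intro l _
      rcases h : o l with _ | j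
      · by_cases hl : (l : ℕ) < α
        · refine lc_congr hL U (lc_zero hL U _) (Eventually.of_forall fun n => ?_)
          simp [Gc, hl]
        · refine lc_congr hL U (lc_mem hL U (one_mem_Em U a (Nat.cast_nonneg N)))
            (Eventually.of_forall fun n => ?_)
          simp [Gc, hl]
      · by_cases hl : (l : ℕ) < α
        · have h2 := lc_rep hL U (hF j)
          refine lc_congr hL U (lc_mono hL U ?_ h2) (Eventually.of_forall fun n => ?_)
          · rintro u ⟨m, hm, hu⟩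
            refine ⟨m, Eventually.of_forall fun n => ?_, hu⟩
            exact_mod_cast hm n
          · simp [Gc, hl]
        · refine lc_congr hL U (lc_zero hL U _) (Eventually.of_forall fun n => ?_)
          simp [Gc, hl]
    have h4 := em_prod hL U _ _ h1
    rw [Finset.card_univ, Fintype.card_fin] at h4
    refine lc_congr hL U (lc_mono hL U ?_ h4) (Eventually.of_forall fun n => ?_)
    · rintro u ⟨m, hm, hu⟩
      exact ⟨m, hm, fun h => absurd h hα, hu⟩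
    · rw [Finset.prod_apply]

theorem lc_term {s : ℕ} (a : ℕ) (q : Fin s → ℕ → ℕ) (F : ℕ → Fin s → ℤ) (N : ℕ) (α D : ℕ)
    (L : ℕ → ℕ) (o : Fin D → Option (Fin s)) {B : ℝ} (hB : 0 ≤ B)
    (hq : ∀ j, ∀ᶠ n in (U : Filter ℕ), (q j n : ℝ) ≤ B * n)
    (hF : ∀ j, ∀ᶠ n in (U : Filter ℕ), Rep a N (N * n) (F n j)) :
    Lc U (Gi U a (D * (s * B)) (D * N) α D L)
      (fun n => ((a : ℚ) ^ ((D - α) * L n) * Fs a q n ^ (D - α)) *
        ∏ l : Fin D, Gc (fun j => (F n j : ℚ)) α l (o l)) := by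
  have h1 := em_pow hL U (Fs a q) (lc_Fs hL U a q hB hq) (D - α)
  have h2 := lc_mono hL U (Em_mono U a (c' := D * (s * B)) (by
    apply mul_le_mul_of_nonneg_right _ (by positivity)
    exact_mod_cast Nat.sub_le D α)) h1
  have h3 : Lc U {fun n => (a : ℚ) ^ ((D - α) * L n)} (fun n => (a : ℚ) ^ ((D - α) * L n)) :=
    lc_mem hL U rfl
  have h4 := lc_mul hL U h3 h2 (Γ'' := {u | ∃ m : ℕ → ℕ,
      (∀ᶠ n in (U : Filter ℕ), (m n : ℝ) ≤ (D * (s * B)) * n) ∧
      ∀ n, u n = (a : ℚ) ^ ((D - α) * L n) * (a : ℚ) ^ m n}) (by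
    rintro u hu u' ⟨m, hm, hu'⟩
    rw [Set.mem_singleton_iff] at hu
    subst hu
    refine ⟨m, hm, fun n => ?_⟩
    rw [Pi.mul_apply, hu'])
  have h5 := lc_mul hL U h4 (lc_Gc hL U a F N α D o hF) (Γ'' := Gi U a (D * (s * B)) (D * N) α D L)
    (by
    rintro u ⟨m, hm, hu⟩ u' ⟨m', hm', h0, hu'⟩
    refine ⟨m, m', hm, hm', h0, fun n => ?_⟩
    rw [Pi.mul_apply, hu, hu'])
  exact h5

omit hL

/-! ## Sizes -/

theorem av_apow {v : ℕ} (hv : v = 0 ∨ v.Prime) {a : ℕ} (ha : 1 ≤ a) (m : ℕ) :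
    av v ((a : ℚ) ^ m) ≤ Real.exp (m * Real.log a) := by
  have h1 : Real.exp (m * Real.log a) = (a : ℝ) ^ m := by
    rw [mul_comm, Real.exp_mul, Real.exp_log (by exact_mod_cast ha), Real.rpow_natCast]
  rw [h1]
  have h2 := av_int_le_abs hv ((a : ℤ) ^ m)
  push_cast at h2
  rw [abs_of_nonneg (by positivity)] at h2
  exact h2

theorem av_aprod {k v : ℕ} (hv : v = 0 ∨ v.Prime) {a : Fin k → ℕ} (ha : ∀ i, 1 ≤ a i)
    (m : Fin k → ℕ) (c x : ℝ) (_hx : 0 ≤ x) (hm : ∀ i, (m i : ℝ) ≤ c * x) :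
    av v (∏ i, (a i : ℚ) ^ m i) ≤ Real.exp ((∑ i, c * Real.log (a i)) * x) := by
  rw [av_prod hv, Finset.sum_mul, Real.exp_sum]
  refine Finset.prod_le_prod (fun i _ => av_nonneg _ _) fun i _ => ?_
  refine (av_apow hv (ha i) (m i)).trans ?_
  apply Real.exp_le_exp.2
  have h1 : 0 ≤ Real.log (a i) := Real.log_nonneg (by exact_mod_cast ha i)
  calc (m i : ℝ) * Real.log (a i) ≤ (c * x) * Real.log (a i) :=
        mul_le_mul_of_nonneg_right (hm i) h1
    _ = c * Real.log (a i) * x := by ring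

theorem sm_mem {k : ℕ} {S : Finset ℕ} (hS : PS S) (U : Ultrafilter ℕ) {a : Fin k → ℕ}
    (ha : ∀ i, 1 ≤ a i) (hSa : ∀ i, ∀ p : ℕ, p.Prime → p ∣ a i → p ∈ S) (c B' : ℝ)
    (hB' : ∑ i, c * Real.log (a i) ≤ B') :
    {u | ∃ v : Fin k → ℕ → ℚ, (∀ i ∈ (Finset.univ : Finset (Fin k)), v i ∈ Em U (a i) c) ∧
      u = ∏ i, v i} ⊆ Sm U S (fun n => (n : ℝ)) B' := by
  rintro u ⟨v, hv, rfl⟩
  have hv' : ∀ i, v i ∈ Em U (a i) c := fun i => hv i (Finset.mem_univ i)
  choose m hm hvm using hv'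
  have e : ∀ n, (∏ i, v i) n = ∏ i, (a i : ℚ) ^ m i n := by
    intro n
    rw [Finset.prod_apply]
    exact Finset.prod_congr rfl fun i _ => hvm i n
  refine ⟨fun n => ?_, ?_⟩
  · rw [e]
    exact isU_prod hS _ _ fun i _ => isU_nat_pow hS (ha i) (hSa i) _
  · filter_upwards [eventually_all.2 hm] with n hn
    intro p hp
    rw [e]
    refine (av_aprod (place_of_mem hS hp) ha (fun i => m i n) c n (Nat.cast_nonneg n) hn).trans ?_
    apply Real.exp_le_exp.2
    exact mul_le_mul_of_nonneg_right hB' (Nat.cast_nonneg n)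

theorem bg_mem {k : ℕ} {S : Finset ℕ} (hS : PS S) (U : Ultrafilter ℕ) {a : Fin k → ℕ}
    (ha : ∀ i, 1 ≤ a i) (hSa : ∀ i, ∀ p : ℕ, p.Prime → p ∣ a i → p ∈ S) (c c' B' : ℝ)
    (hB' : ∑ i, c * Real.log (a i) ≤ B') (α : Fin k →₀ ℕ) (D N : ℕ) (hα : ∀ i, α i ≤ D)
    (I : Finset (Finset (Fin k))) (hI : α.support ∈ I) (L : Fin k → ℕ → ℕ)
    (hLN : ∀ i, ∀ᶠ n in (U : Filter ℕ), L i n ≤ N * n) :
    {u | ∃ v : Fin k → ℕ → ℚ, (∀ i ∈ (Finset.univ : Finset (Fin k)),
      v i ∈ Gi U (a i) c c' (α i) D (L i)) ∧ u = ∏ i, v i} ⊆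
      Bg U S (fun n => (n : ℝ)) (Grp a I) (fun n => ∏ i, (a i : ℚ) ^ (D * L i n)) B' := by
  rintro u ⟨v, hv, rfl⟩
  have hv' : ∀ i, v i ∈ Gi U (a i) c c' (α i) D (L i) := fun i => hv i (Finset.mem_univ i)
  choose m m' hm hm' h0 hvm using hv'
  have e : ∀ n, (∏ i, v i) n = ∏ i, (a i : ℚ) ^ ((D - α i) * L i n + m i n + m' i n) := by
    intro n
    rw [Finset.prod_apply]
    refine Finset.prod_congr rfl fun i _ => ?_
    rw [hvm, pow_add, pow_add]
  refine ⟨⟨fun n => ?_, ?_⟩, ?_⟩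
  · rw [e]
    exact isU_prod hS _ _ fun i _ => isU_nat_pow hS (ha i) (hSa i) _
  · refine ⟨∑ i, (D * N + c + c') * Real.log (a i), ?_⟩
    filter_upwards [eventually_all.2 hm, eventually_all.2 hm', eventually_all.2 hLN] with n h1 h2 h3
    intro p hp
    rw [e]
    refine av_aprod (place_of_mem hS hp) ha _ _ n (Nat.cast_nonneg n) ?_
    intro i
    push_cast
    have h4 : ((D - α i : ℕ) : ℝ) * (L i n : ℝ) ≤ D * (N * n) := by
      apply mul_le_mul _ _ (by positivity) (by positivity)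
      · exact_mod_cast Nat.sub_le D (α i)
      · exact_mod_cast h3 i
    have h5 := h1 i
    have h6 := h2 i
    rw [add_mul, add_mul, mul_assoc]
    linarith
  · refine ⟨fun n => (∏ i, (a i : ℚ) ^ (D * L i n)) *
      ∏ i, (a i : ℚ) ^ ((m' i n : ℤ) - α i * L i n), ?_, ?_⟩
    · refine ⟨fun n => ∏ i, (a i : ℚ) ^ ((m' i n : ℤ) - α i * L i n), ?_, fun n => rfl⟩
      intro n
      refine ⟨α.support, hI, fun i => (m' i n : ℤ) - α i * L i n, ?_, rfl⟩
      intro i hi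
      have : α i = 0 := Finsupp.notMem_support_iff.1 hi
      beta_reduce
      rw [this, h0 i this n]
      simp
    · filter_upwards [eventually_all.2 hm] with n h1
      intro p hp
      have e2 : ∏ i, (a i : ℚ) ^ ((D - α i) * L i n + m i n + m' i n) =
          (∏ i, (a i : ℚ) ^ m i n) * ((∏ i, (a i : ℚ) ^ (D * L i n)) *
            ∏ i, (a i : ℚ) ^ ((m' i n : ℤ) - α i * L i n)) := by
        rw [← Finset.prod_mul_distrib, ← Finset.prod_mul_distrib]
        refine Finset.prod_congr rfl fun i _ => ?_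
        have hai : (a i : ℚ) ≠ 0 := by
          have := ha i
          positivity
        rw [← zpow_natCast, ← zpow_natCast, ← zpow_natCast, ← zpow_add₀ hai, ← zpow_add₀ hai]
        congr 1
        have h7 := hα i
        push_cast [Nat.cast_sub h7]
        ring
      rw [e, e2, av_mul (place_of_mem hS hp)]
      apply mul_le_mul_of_nonneg_right _ (av_nonneg _ _)
      refine (av_aprod (place_of_mem hS hp) ha (fun i => m i n) c n (Nat.cast_nonneg n) h1).trans ?_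
      apply Real.exp_le_exp.2
      exact mul_le_mul_of_nonneg_right hB' (Nat.cast_nonneg n)

/-! ## The relation and the approximation -/

/-- the integer `R` -/
noncomputable def Rn {k : ℕ} (Z : MvPolynomial (Fin k) ℤ) (D : ℕ) (a L : Fin k → ℕ)
    (Pf : Fin k → ℤ) : ℤ :=
  ∑ α ∈ Z.support, Z.coeff α * ∏ i, ((a i : ℤ) ^ ((D - α i) * L i) * Pf i ^ α i)

/-- the coefficient of a choice -/
noncomputable def Cf {k s D : ℕ} (Z : MvPolynomial (Fin k) ℤ) (a L : Fin k → ℕ) (Fst : Fin k → ℚ)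
    (F : Fin k → Fin s → ℤ) (o : Fin k → Fin D → Option (Fin s)) : ℚ :=
  ∑ α ∈ Z.support, ((Z.coeff α : ℤ) : ℚ) *
    ∏ i, (((a i : ℚ) ^ ((D - α i) * L i) * Fst i ^ (D - α i)) *
      ∏ l : Fin D, Gc (fun j => (F i j : ℚ)) (α i) l (o i l))

theorem rel {k s D : ℕ} (Z : MvPolynomial (Fin k) ℤ) (hD : ∀ α ∈ Z.support, ∀ i, α i ≤ D)
    (a L : Fin k → ℕ) (Fst : Fin k → ℚ) (Pf : Fin k → ℤ) (F y : Fin k → Fin s → ℤ)
    (hrel : ∀ i, Fst i * (Pf i : ℚ) = ∑ j, (F i j : ℚ) * (y i j : ℚ)) :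
    (∏ i, Fst i ^ D) * (Rn Z D a L Pf : ℚ) =
      ∑ o : Fin k → Fin D → Option (Fin s), Cf Z a L Fst F o *
        ((∏ i, ∏ l, Yc (y i) (o i l) : ℤ) : ℚ) := by
  unfold Rn Cf
  simp only [Finset.sum_mul]
  rw [Finset.sum_comm, Int.cast_sum, Finset.mul_sum]
  refine Finset.sum_congr rfl fun α hα => ?_
  have h1 := expand_all (D := D) (fun i => α i) (fun i => hD α hα i)
    (fun i => (a i : ℚ) ^ ((D - α i) * L i) * Fst i ^ (D - α i)) (fun i j => (F i j : ℚ)) y
  have h2 : ∏ i, (((a i : ℚ) ^ ((D - α i) * L i) * Fst i ^ (D - α i)) *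
      (∑ j, (F i j : ℚ) * (y i j : ℚ)) ^ α i) =
      (∏ i, Fst i ^ D) * ∏ i, ((a i : ℚ) ^ ((D - α i) * L i) * (Pf i : ℚ) ^ α i) := by
    rw [← Finset.prod_mul_distrib]
    refine Finset.prod_congr rfl fun i _ => ?_
    rw [← hrel i, mul_pow]
    have h3 : Fst i ^ D = Fst i ^ (D - α i) * Fst i ^ α i := by
      rw [← pow_add, Nat.sub_add_cancel (hD α hα i)]
    rw [h3]
    ring
  rw [h2] at h1
  push_cast at h1 ⊢
  rw [mul_left_comm, h1, Finset.mul_sum]
  refine Finset.sum_congr rfl fun o _ => ?_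
  ring

theorem approx {k : ℕ} (Z : MvPolynomial (Fin k) ℤ) (D : ℕ) (hD : ∀ α ∈ Z.support, ∀ i, α i ≤ D)
    (a : Fin k → ℕ) (ha : ∀ i, 2 ≤ a i) (x : Fin k → ℝ) :
    ∃ K : ℝ, 0 ≤ K ∧ ∀ (L : Fin k → ℕ) (ε : ℝ), 0 ≤ ε → ε ≤ 1 →
      (∀ i, ((a i : ℝ) ^ L i)⁻¹ ≤ ε) →
      |MvPolynomial.eval x (Z.map (Int.castRingHom ℝ)) -
        (Rn Z D a L (fun i => ⌊x i * (a i : ℝ) ^ L i⌋) : ℝ) /
          ((∏ i, (a i : ℚ) ^ (D * L i) : ℚ) : ℝ)| ≤ K * ε := by
  obtain ⟨K, hK, h⟩ := lip (Z.map (Int.castRingHom ℝ)) x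
  refine ⟨K, hK, ?_⟩
  intro L ε h0 h1 hε
  have hpos : ∀ i, (0 : ℝ) < (a i : ℝ) ^ L i := fun i => by
    have : (0 : ℝ) < a i := by
      have := ha i
      positivity
    positivity
  have h2 := h (fun i => (⌊x i * (a i : ℝ) ^ L i⌋ : ℝ) / (a i : ℝ) ^ L i) ε h0 h1 (by
    intro i
    refine le_trans ?_ (hε i)
    have e1 : x i - (⌊x i * (a i : ℝ) ^ L i⌋ : ℝ) / (a i : ℝ) ^ L i =
        (x i * (a i : ℝ) ^ L i - ⌊x i * (a i : ℝ) ^ L i⌋) * ((a i : ℝ) ^ L i)⁻¹ := by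
      have := (hpos i).ne'
      field_simp
    rw [e1, abs_mul, abs_of_pos (inv_pos.2 (hpos i))]
    have h3 : |x i * (a i : ℝ) ^ L i - ⌊x i * (a i : ℝ) ^ L i⌋| ≤ 1 := by
      rw [abs_le]
      have h4 := Int.floor_le (x i * (a i : ℝ) ^ L i)
      have h5 := Int.lt_floor_add_one (x i * (a i : ℝ) ^ L i)
      constructor <;> linarith
    calc _ ≤ 1 * ((a i : ℝ) ^ L i)⁻¹ := mul_le_mul_of_nonneg_right h3 (inv_pos.2 (hpos i)).le
      _ = _ := one_mul _)
  have e2 : MvPolynomial.eval (fun i => (⌊x i * (a i : ℝ) ^ L i⌋ : ℝ) / (a i : ℝ) ^ L i)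
      (Z.map (Int.castRingHom ℝ)) = (Rn Z D a L (fun i => ⌊x i * (a i : ℝ) ^ L i⌋) : ℝ) /
          ((∏ i, (a i : ℚ) ^ (D * L i) : ℚ) : ℝ) := by
    rw [MvPolynomial.eval_map, MvPolynomial.eval₂_eq']
    unfold Rn
    push_cast
    rw [Finset.sum_div]
    refine Finset.sum_congr rfl fun α hα => ?_
    rw [mul_div_assoc, ← Finset.prod_div_distrib]
    simp only [eq_intCast]
    congr 1
    refine Finset.prod_congr rfl fun i _ => ?_
    have h6 : D * L i = (D - α i) * L i + L i * α i := by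
      rw [mul_comm (L i), ← add_mul, Nat.sub_add_cancel (hD α hα i)]
    have h7 : (a i : ℝ) ≠ 0 := by
      have := ha i
      positivity
    rw [div_pow, h6, pow_add, pow_mul (a i : ℝ) (L i) (α i)]
    have h8 : (a i : ℝ) ^ ((D - α i) * L i) ≠ 0 := pow_ne_zero _ h7
    rw [mul_div_mul_left _ _ h8]
  rw [← e2]
  exact h2

theorem coeff_supp {k : ℕ} {P : MvPolynomial (Fin k) ℚ} {Z : MvPolynomial (Fin k) ℤ} {h : ℕ}
    (hZ : MvPolynomial.map (Int.castRingHom ℚ) Z = MvPolynomial.C (h : ℚ) * P) :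
    ∀ α ∈ Z.support, α ∈ P.support := by
  intro α hα
  rw [MvPolynomial.mem_support_iff] at hα ⊢
  intro h0
  apply hα
  have := congrArg (MvPolynomial.coeff α) hZ
  rw [MvPolynomial.coeff_map, MvPolynomial.coeff_C_mul, h0, mul_zero] at this
  simpa using this

theorem meas_mul {ξ : ℝ} {μ h : ℕ} (hh : 0 < h) (hM : Meas ξ μ) : Meas ((h : ℝ) * ξ) μ := by
  obtain ⟨c, hc, hM⟩ := hM
  have hh' : (0 : ℝ) < h := by exact_mod_cast hh
  refine ⟨h * (c / (h : ℝ) ^ μ), by positivity, ?_⟩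
  intro q P hq
  have hq' : (0 : ℝ) < q := by exact_mod_cast hq
  have h1 := hM (h * q) P (Nat.mul_pos hh hq)
  have e : (h : ℝ) * ξ - P / q = h * (ξ - P / ((h * q : ℕ) : ℝ)) := by
    push_cast
    field_simp
  rw [e, abs_mul, abs_of_pos hh', mul_assoc]
  apply mul_le_mul_of_nonneg_left _ hh'.le
  rw [div_le_iff₀ (by positivity), mul_assoc, ← mul_pow, mul_comm (q : ℝ)]
  push_cast at h1 ⊢
  exact h1

theorem aeval_eq {k : ℕ} {P : MvPolynomial (Fin k) ℚ} {Z : MvPolynomial (Fin k) ℤ} {h : ℕ}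
    (hZ : MvPolynomial.map (Int.castRingHom ℚ) Z = MvPolynomial.C (h : ℚ) * P) {x : Fin k → ℝ}
    {ξ : ℝ} (hx : MvPolynomial.aeval x P = ξ) :
    MvPolynomial.eval x (Z.map (Int.castRingHom ℝ)) = h * ξ := by
  have h1 := congrArg (MvPolynomial.aeval x) hZ
  rw [map_mul, hx, MvPolynomial.aeval_C] at h1
  rw [MvPolynomial.eval_map]
  rw [MvPolynomial.aeval_def, MvPolynomial.eval₂_map] at h1
  have h2 : (algebraMap ℚ ℝ).comp (Int.castRingHom ℚ) = Int.castRingHom ℝ := RingHom.ext_int _ _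
  rw [h2] at h1
  rw [h1]
  simp

end RNC_

open RNC_

theorem rnc_proof (hCOG : Stmt_COG) (hSEP : Stmt_SEP) (hLCC : Stmt_LCC) : Stmt_RNC := by
  classical
  intro k bs ξ μ x P hbs hInd hM hx s B hB
  -- integral polynomials
  obtain ⟨h, hh, Z, hZ⟩ : ∃ h : ℕ, 0 < h ∧ ∃ Z : Fin 2 → MvPolynomial (Fin k) ℤ,
      ∀ r, MvPolynomial.map (Int.castRingHom ℚ) (Z r) = MvPolynomial.C (h : ℚ) * P r := by
    have h1 : ∀ r, ∃ h : ℕ, 0 < h ∧ ∃ Z : MvPolynomial (Fin k) ℤ,
      MvPolynomial.map (Int.castRingHom ℚ) Z = MvPolynomial.C (h : ℚ) * P r :=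
      fun r => exists_int (P r)
    choose hr hr0 Zr hZr using h1
    refine ⟨∏ r, hr r, Finset.prod_pos fun r _ => hr0 r,
      fun r => MvPolynomial.C ((∏ r' ∈ Finset.univ.erase r, hr r' : ℕ) : ℤ) * Zr r, ?_⟩
    intro r
    rw [map_mul, hZr, MvPolynomial.map_C, ← mul_assoc, ← MvPolynomial.C_mul]
    congr 2
    rw [eq_intCast, Int.cast_natCast, ← Nat.cast_mul,
      Finset.prod_erase_mul _ _ (Finset.mem_univ r)]
  obtain ⟨D, hD⟩ : ∃ D : ℕ, ∀ r, ∀ α ∈ (Z r).support, ∀ i, α i ≤ D := by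
    refine ⟨∑ r, ∑ α ∈ (Z r).support, ∑ i, α i, ?_⟩
    intro r α hα i
    calc α i ≤ ∑ i, α i := Finset.single_le_sum (f := fun i => α i) (fun _ _ => Nat.zero_le _)
          (Finset.mem_univ i)
      _ ≤ ∑ α ∈ (Z r).support, ∑ i, α i :=
          Finset.single_le_sum (f := fun α : Fin k →₀ ℕ => ∑ i, α i) (fun _ _ => Nat.zero_le _) hα
      _ ≤ _ := Finset.single_le_sum (f := fun r => ∑ α ∈ (Z r).support, ∑ i, α i)
          (fun _ _ => Nat.zero_le _) (Finset.mem_univ r)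
  have hbs1 : ∀ r i, 1 ≤ bs r i := fun r i => (by norm_num : 1 ≤ 2).trans (hbs r i)
  set S : Finset ℕ := (∏ r, ∏ i, bs r i).primeFactors with hSdef
  have hS : PS S := fun p hp => Nat.prime_of_mem_primeFactors hp
  have hprod : (∏ r, ∏ i, bs r i) ≠ 0 :=
    Finset.prod_ne_zero_iff.2 fun r _ => Finset.prod_ne_zero_iff.2 fun i _ => by
      have := hbs1 r i
      omega
  have hSa : ∀ r i, ∀ p : ℕ, p.Prime → p ∣ bs r i → p ∈ S := by
    intro r i p hp hpd
    refine Nat.mem_primeFactors.2 ⟨hp, ?_, hprod⟩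
    exact hpd.trans ((Finset.dvd_prod_of_mem _ (Finset.mem_univ i)).trans
      (Finset.dvd_prod_of_mem (fun r => ∏ i, bs r i) (Finset.mem_univ r)))
  set I : Fin 2 → Finset (Finset (Fin k)) := fun r => (P r).support.image fun α => α.support with hI
  set W : Fin 2 → Set ℚ := fun r => Grp (bs r) (I r) with hWdef
  have hW : ∀ r, ∀ w ∈ W r, IsU S w := by
    rintro r w ⟨A, _, e, _, rfl⟩
    exact isU_prod hS _ _ fun i _ => isU_nat_zpow hS (hbs1 r i) (hSa r i) _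
  have hSep : Sep S (W 0) (W 1) := by
    refine hSEP k k S (bs 0) (bs 1) (I 0) (I 1) hS (hbs1 0) (hbs1 1) ?_ ?_
    · rintro p hp (⟨i, hi⟩ | ⟨i, hi⟩)
      · exact hSa 0 i p hp hi
      · exact hSa 1 i p hp hi
    · intro A hA A' hA' e f he hf hef
      obtain ⟨α, hα, rfl⟩ := Finset.mem_image.1 hA
      obtain ⟨β, hβ, rfl⟩ := Finset.mem_image.1 hA'
      refine hInd α hα β hβ e f ?_ ?_ hef
      · intro i hi
        exact he i (by rw [Finsupp.notMem_support_iff]; exact hi)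
      · intro i hi
        exact hf i (by rw [Finsupp.notMem_support_iff]; exact hi)
  have hlog : ∀ r i, 0 ≤ Real.log (bs r i) := fun r i =>
    Real.log_nonneg (by exact_mod_cast hbs1 r i)
  set c₁ : ℝ := (D : ℝ) * (s * B) with hc₁
  have hc₁0 : 0 ≤ c₁ := by positivity
  set B' : ℝ := (∑ r, ∑ i, c₁ * Real.log (bs r i)) + k * (D * B) with hB'def
  have hB'1 : ∀ r, ∑ i, c₁ * Real.log (bs r i) ≤ B' := by
    intro r
    have h1 : ∑ i, c₁ * Real.log (bs r i) ≤ ∑ r, ∑ i, c₁ * Real.log (bs r i) :=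
      Finset.single_le_sum (f := fun r => ∑ i, c₁ * Real.log (bs r i))
        (fun r _ => Finset.sum_nonneg fun i _ => mul_nonneg hc₁0 (hlog r i)) (Finset.mem_univ r)
    have h2 : 0 ≤ (k : ℝ) * (D * B) := by positivity
    rw [hB'def]
    linarith
  have hB'2 : (k : ℝ) * (D * B) ≤ B' := by
    have h1 : 0 ≤ ∑ r, ∑ i, c₁ * Real.log (bs r i) :=
      Finset.sum_nonneg fun r _ => Finset.sum_nonneg fun i _ => mul_nonneg hc₁0 (hlog r i)
    rw [hB'def]
    linarith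
  have hB'0 : 0 ≤ B' := le_trans (by positivity) hB'2
  -- the choices
  let J := Fin 2 × (Fin k → Fin D → Option (Fin s))
  let e : Fin (Fintype.card J) ≃ J := (Fintype.equivFin J).symm
  obtain ⟨Λ', hΛ'⟩ := hCOG S W ((h : ℝ) * ξ) μ hS hW hSep (meas_mul hh hM) (Fintype.card J) B' hB'0
  have happ : ∀ r, ∃ K : ℝ, 0 ≤ K ∧ ∀ (L : Fin k → ℕ) (ε : ℝ), 0 ≤ ε → ε ≤ 1 →
      (∀ i, ((bs r i : ℝ) ^ L i)⁻¹ ≤ ε) →
      |MvPolynomial.eval (x r) ((Z r).map (Int.castRingHom ℝ)) -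
        (Rn (Z r) D (bs r) L (fun i => ⌊x r i * (bs r i : ℝ) ^ L i⌋) : ℝ) /
          ((∏ i, (bs r i : ℚ) ^ (D * L i) : ℚ) : ℝ)| ≤ K * ε :=
    fun r => approx (Z r) D (hD r) (bs r) (hbs r) (x r)
  choose K hK0 hK using happ
  have hlog2 : 0 < Real.log 2 := Real.log_pos (by norm_num)
  refine ⟨(max Λ' 0 + 1) / Real.log 2, ?_⟩
  intro U L q y N hU hL hq hy hF
  have hchoice : ∀ r i, ∃ F : ℕ → Fin s → ℤ, ∀ᶠ n in (U : Filter ℕ),
      (∀ j, Rep (bs r i) N (N * n) (F n j)) ∧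
      (∏ j, ((bs r i : ℤ) ^ q r i j n - 1)) * ⌊x r i * (bs r i : ℝ) ^ L r i n⌋ =
        ∑ j, F n j * y r i j n := fun r i => ev_choice (hF r i)
  choose F hF' using hchoice
  have hTend : Tendsto (fun n : ℕ => (n : ℝ)) (U : Filter ℕ) atTop :=
    tendsto_natCast_atTop_atTop.mono_left hU
  have hqB : ∀ r i j, ∀ᶠ n in (U : Filter ℕ), (q r i j n : ℝ) ≤ B * n := fun r i j =>
    (hq r i j).mono fun n hn => hn.2
  have hRep : ∀ r i j, ∀ᶠ n in (U : Filter ℕ), Rep (bs r i) N (N * n) (F r i n j) := fun r i j =>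
    (hF' r i).mono fun n hn => hn.1 j
  have hLN : ∀ r i, ∀ᶠ n in (U : Filter ℕ), L r i n ≤ N * n := fun r i =>
    (hL r i).mono fun n hn => hn.2
  refine hΛ' U (fun n => (n : ℝ))
    (fun t n => ∏ i, ∏ l, Yc (fun j => y (e t).1 i j n) ((e t).2 i l))
    (fun r n => Rn (Z r) D (bs r) (fun i => L r i n)
      (fun i => ⌊x r i * (bs r i : ℝ) ^ L r i n⌋))
    (fun r n => ∏ i, (bs r i : ℚ) ^ (D * L r i n))
    (fun r n => ∏ i, Fs (bs r i) (q r i) n ^ D)
    (fun r t n => if (e t).1 = r then Cf (Z r) (bs r) (fun i => L r i n)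
      (fun i => Fs (bs r i) (q r i) n) (fun i j => F r i n j) (e t).2 else 0)
    hTend ?_ ?_ ?_ ?_ ?_ ?_ ?_
  · -- sizes of the new integers
    have hy' : ∀ᶠ n in (U : Filter ℕ), ∀ r i j, |(y r i j n : ℝ)| ≤ Real.exp (B * n) :=
      eventually_all.2 fun r => eventually_all.2 fun i => eventually_all.2 fun j => hy r i j
    filter_upwards [hy'] with n hn
    intro t
    have h1 : ∀ i l, |((Yc (fun j => y (e t).1 i j n) ((e t).2 i l) : ℤ) : ℝ)| ≤
        Real.exp (B * n) := by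
      intro i l
      rcases (e t).2 i l with _ | j
      · simp only [Yc, Int.cast_one, abs_one]
        exact Real.one_le_exp (mul_nonneg hB (Nat.cast_nonneg n))
      · exact hn _ i j
    push_cast
    rw [Finset.abs_prod]
    simp only [Finset.abs_prod]
    calc ∏ i, ∏ l, |((Yc (fun j => y (e t).1 i j n) ((e t).2 i l) : ℤ) : ℝ)| ≤
        ∏ _i : Fin k, ∏ _l : Fin D, Real.exp (B * n) :=
          Finset.prod_le_prod (fun i _ => Finset.prod_nonneg fun l _ => abs_nonneg _) fun i _ =>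
            Finset.prod_le_prod (fun l _ => abs_nonneg _) fun l _ => h1 i l
      _ = Real.exp (k * (D * B) * n) := by
          rw [Finset.prod_const, Finset.prod_const, Finset.card_univ, Finset.card_univ,
            Fintype.card_fin, Fintype.card_fin, ← Real.exp_nat_mul, ← Real.exp_nat_mul]
          congr 1
          ring
      _ ≤ Real.exp (B' * n) := by
          apply Real.exp_le_exp.2
          exact mul_le_mul_of_nonneg_right hB'2 (Nat.cast_nonneg n)
  · -- units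
    intro r
    refine ⟨fun n => isU_prod hS _ _ fun i _ => isU_nat_pow hS (hbs1 r i) (hSa r i) _,
      ∑ i, (D * N : ℝ) * Real.log (bs r i), ?_⟩
    filter_upwards [eventually_all.2 (hLN r)] with n hn
    intro p hp
    refine av_aprod (place_of_mem hS hp) (hbs1 r) _ _ n (Nat.cast_nonneg n) ?_
    intro i
    push_cast
    rw [mul_assoc]
    apply mul_le_mul_of_nonneg_left _ (Nat.cast_nonneg D)
    exact_mod_cast hn i
  · -- f₀
    intro r
    have h1 := lc_prod hLCC U (Finset.univ : Finset (Fin k)) (fun i => Em U (bs r i) c₁)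
      (fun i => Fs (bs r i) (q r i) ^ D) (fun i _ =>
        em_pow hLCC U _ (lc_Fs hLCC U (bs r i) (q r i) hB (hqB r i)) D)
    refine lc_congr hLCC U (lc_mono hLCC U (sm_mem hS U (hbs1 r) (hSa r) c₁ B' (hB'1 r)) h1)
      (Eventually.of_forall fun n => ?_)
    rw [Finset.prod_apply]
    rfl
  · -- f
    intro r t
    by_cases ht : (e t).1 = r
    · have h1 : ∀ α ∈ (Z r).support, Lc U (Bg U S (fun n => (n : ℝ)) (W r)
          (fun n => ∏ i, (bs r i : ℚ) ^ (D * L r i n)) B') (fun n => (((Z r).coeff α : ℤ) : ℚ) *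
            (∏ i, fun n => ((bs r i : ℚ) ^ ((D - α i) * L r i n) *
              Fs (bs r i) (q r i) n ^ (D - α i)) *
              ∏ l : Fin D, Gc (fun j => (F r i n j : ℚ)) (α i) l ((e t).2 i l)) n) := by
        intro α hα
        apply lc_const hLCC U
        refine lc_mono hLCC U (bg_mem hS U (hbs1 r) (hSa r) c₁ (D * N) B' (hB'1 r) α D N
          (hD r α hα) (I r) ?_ (L r) (hLN r)) ?_
        · exact Finset.mem_image.2 ⟨α, coeff_supp (hZ r) α hα, rfl⟩
        · exact lc_prod hLCC U (Finset.univ : Finset (Fin k)) _ _ fun i _ =>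
            lc_term hLCC U (bs r i) (q r i) (F r i) N (α i) D (L r i) ((e t).2 i) hB (hqB r i)
              (hRep r i)
      refine lc_congr hLCC U (lc_sum hLCC U _ _ h1) (Eventually.of_forall fun n => ?_)
      rw [Finset.sum_apply]
      simp only [ht, if_true, Cf, Finset.prod_apply]
    · refine lc_congr hLCC U (lc_zero hLCC U _) (Eventually.of_forall fun n => ?_)
      simp [ht]
  · -- f₀ is not zero
    intro r
    have h1 : ∀ᶠ n in (U : Filter ℕ), ∀ i j, 1 ≤ q r i j n :=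
      eventually_all.2 fun i => eventually_all.2 fun j => (hq r i j).mono fun n hn => hn.1
    filter_upwards [h1] with n hn
    refine Finset.prod_ne_zero_iff.2 fun i _ => pow_ne_zero _ ?_
    refine Finset.prod_ne_zero_iff.2 fun j _ => ?_
    have h2 : (1 : ℚ) < (bs r i : ℚ) ^ q r i j n := by
      apply one_lt_pow₀
      · have := hbs r i
        exact_mod_cast (by omega : 1 < bs r i)
      · have := hn i j
        omega
    exact (sub_pos.2 h2).ne'
  · -- the relation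
    intro r
    filter_upwards [eventually_all.2 (hF' r)] with n hn
    have h1 : ∀ i, Fs (bs r i) (q r i) n * ((⌊x r i * (bs r i : ℝ) ^ L r i n⌋ : ℤ) : ℚ) =
        ∑ j, (F r i n j : ℚ) * (y r i j n : ℚ) := by
      intro i
      have h2 := congrArg (fun z : ℤ => (z : ℚ)) (hn i).2
      push_cast at h2
      exact h2
    have h3 := rel (Z r) (hD r) (bs r) (fun i => L r i n) (fun i => Fs (bs r i) (q r i) n)
      (fun i => ⌊x r i * (bs r i : ℝ) ^ L r i n⌋) (fun i j => F r i n j) (fun i j => y r i j n) h1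
    rw [h3]
    rw [← Equiv.sum_comp e.symm]
    simp only [Equiv.apply_symm_apply]
    rw [Fintype.sum_prod_type]
    rw [Finset.sum_eq_single r]
    · refine Finset.sum_congr rfl fun o _ => ?_
      rw [if_pos rfl]
    · intro r' _ hr'
      apply Finset.sum_eq_zero
      intro o _
      rw [if_neg hr', zero_mul]
    · intro h
      exact absurd (Finset.mem_univ r) h
  · -- the approximation
    intro r
    have hLΛ : ∀ᶠ n in (U : Filter ℕ), ∀ i, (max Λ' 0 + 1) / Real.log 2 * n ≤ L r i n :=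
      eventually_all.2 fun i => (hL r i).mono fun n hn => hn.1
    filter_upwards [hLΛ, ev_const_le_exp hTend one_pos (K r)] with n hn hKn
    set ε : ℝ := Real.exp (-((max Λ' 0 + 1) * n)) with hε
    have hn0 : (0 : ℝ) ≤ n := Nat.cast_nonneg n
    have hm0 : 0 ≤ max Λ' 0 := le_max_right _ _
    have hε1 : ε ≤ 1 := by
      rw [hε]
      apply Real.exp_le_one_iff.2
      have : 0 ≤ (max Λ' 0 + 1) * (n : ℝ) := by positivity
      linarith
    have h1 := hK r (fun i => L r i n) ε (Real.exp_pos _).le hε1 (by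
      intro i
      have h2 : (2 : ℝ) ^ L r i n ≤ (bs r i : ℝ) ^ L r i n :=
        pow_le_pow_left₀ (by norm_num) (by exact_mod_cast hbs r i) _
      have h3 : Real.exp ((max Λ' 0 + 1) * n) ≤ (2 : ℝ) ^ L r i n := by
        have e2 : (2 : ℝ) ^ L r i n = Real.exp (L r i n * Real.log 2) := by
          rw [mul_comm, Real.exp_mul, Real.exp_log (by norm_num), Real.rpow_natCast]
        rw [e2]
        apply Real.exp_le_exp.2
        have h4 := mul_le_mul_of_nonneg_right (hn i) hlog2.le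
        calc (max Λ' 0 + 1) * (n : ℝ) = (max Λ' 0 + 1) / Real.log 2 * n * Real.log 2 := by
              field_simp
          _ ≤ _ := h4
      rw [hε, Real.exp_neg]
      apply inv_anti₀ (Real.exp_pos _)
      exact h3.trans h2)
    rw [aeval_eq (hZ r) (hx r)] at h1
    refine h1.trans ?_
    calc K r * ε ≤ Real.exp (1 * n) * ε := mul_le_mul_of_nonneg_right hKn (Real.exp_pos _).le
      _ = Real.exp (-(max Λ' 0 * n)) := by
          rw [hε, ← Real.exp_add]
          congr 1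
          ring
      _ ≤ Real.exp (-(Λ' * n)) := by
          apply Real.exp_le_exp.2
          have : Λ' * (n : ℝ) ≤ max Λ' 0 * n := mul_le_mul_of_nonneg_right (le_max_left _ _) hn0
          linarith

end Pool.Agent.SBT
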