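import Pool.Agent.SBT.StmtsG

set_option autoImplicit false

namespace Pool.Agent.SBT

open Filter

namespace SEP_

lemma av_exp {p : ℕ} (hp : p.Prime) {x : ℚ} (hx : x ≠ 0) :
    av p x = Real.exp (-(padicValRat p x : ℝ) * Real.log p) := by
  have h1 : (0 : ℝ) < p := by exact_mod_cast hp.pos
  unfold av
  rw [if_neg hp.ne_zero, padicNorm.eq_zpow_of_nonzero hx]
  push_cast
  rw [← Real.rpow_intCast, Real.rpow_def_of_pos h1]
  push_cast
  ring_nf

lemma vprod {p : ℕ} (hp : p.Prime) {k : ℕ} (a : Fin k → ℕ) (ha : ∀ i, 1 ≤ a i) (e : Fin k → ℤ) :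
    padicValRat p (∏ i, (a i : ℚ) ^ e i) = ∑ i, e i * padicValRat p (a i : ℚ) := by
  have : Fact p.Prime := ⟨hp⟩
  have key : ∀ s : Finset (Fin k), padicValRat p (∏ i ∈ s, (a i : ℚ) ^ e i) =
      ∑ i ∈ s, e i * padicValRat p (a i : ℚ) := by
    intro s
    induction s using Finset.induction_on with
    | empty => simp
    | insert i s hi ih =>
      rw [Finset.prod_insert hi, Finset.sum_insert hi, padicValRat.mul, padicValRat.zpow, ih]
      · apply zpow_ne_zero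
        have := ha i
        exact_mod_cast (by omega : a i ≠ 0)
      · rw [Finset.prod_ne_zero_iff]
        intro j _
        apply zpow_ne_zero
        have := ha j
        exact_mod_cast (by omega : a j ≠ 0)
  exact key Finset.univ

lemma prod_pos' {k : ℕ} (a : Fin k → ℕ) (ha : ∀ i, 1 ≤ a i) (e : Fin k → ℤ) :
    0 < ∏ i, (a i : ℚ) ^ e i := by
  apply Finset.prod_pos
  intro i _
  apply zpow_pos
  have := ha i
  exact_mod_cast (by omega : 0 < a i)

lemma one_of_val {y : ℚ} (hy : 0 < y) (h : ∀ p : ℕ, p.Prime → padicValRat p y = 0) : y = 1 := by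
  have hnum : 0 < y.num := Rat.num_pos.2 hy
  have hden : y.den = 1 := by
    by_contra hne
    obtain ⟨p, hp, hpd⟩ := Nat.exists_prime_and_dvd hne
    have : Fact p.Prime := ⟨hp⟩
    have h1 := h p hp
    unfold padicValRat at h1
    have h2 : 1 ≤ padicValNat p y.den := one_le_padicValNat_of_dvd y.den_nz hpd
    have h3 : padicValInt p y.num = 0 := by
      apply padicValInt.eq_zero_of_not_dvd
      intro h4
      have h5 : p ∣ y.num.natAbs := Int.natCast_dvd.1 h4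
      have := Nat.dvd_gcd h5 hpd
      rw [y.reduced.gcd_eq_one] at this
      exact hp.one_lt.ne' (Nat.dvd_one.1 this)
    rw [h3] at h1
    have h6 : (padicValNat p y.den : ℤ) = 0 := by
      have : ((0 : ℕ) : ℤ) = 0 := rfl
      rw [this] at h1
      linarith
    have h7 : padicValNat p y.den = 0 := by exact_mod_cast h6
    omega
  have hnum1 : y.num.natAbs = 1 := by
    by_contra hne
    obtain ⟨p, hp, hpd⟩ := Nat.exists_prime_and_dvd hne
    have : Fact p.Prime := ⟨hp⟩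
    have h1 := h p hp
    unfold padicValRat at h1
    rw [hden] at h1
    have h2 : 1 ≤ padicValInt p y.num := by
      unfold padicValInt
      exact one_le_padicValNat_of_dvd (by omega) hpd
    rw [padicValNat.one] at h1
    have h6 : (padicValInt p y.num : ℤ) = 0 := by
      have : ((0 : ℕ) : ℤ) = 0 := rfl
      rw [this] at h1
      linarith
    have h7 : padicValInt p y.num = 0 := by exact_mod_cast h6
    omega
  have h3 : y.num = 1 := by omega
  rw [← Rat.num_div_den y, h3, hden]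
  norm_num

lemma eq_of_val {x y : ℚ} (hx : 0 < x) (hy : 0 < y)
    (h : ∀ p : ℕ, p.Prime → padicValRat p x = padicValRat p y) : x = y := by
  have h1 : x / y = 1 := by
    apply one_of_val (div_pos hx hy)
    intro p hp
    have : Fact p.Prime := ⟨hp⟩
    rw [padicValRat.div hx.ne' hy.ne', h p hp, sub_self]
  field_simp at h1
  exact h1

lemma clear {ι : Type} [Fintype ι] (v : ι → ℚ) :
    ∃ N : ℕ, 0 < N ∧ ∀ i, ∃ z : ℤ, (N : ℚ) * v i = z := by
  refine ⟨∏ i, (v i).den, Finset.prod_pos fun i _ => (v i).pos, fun i => ?_⟩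
  obtain ⟨c, hc⟩ := Finset.dvd_prod_of_mem (fun i => (v i).den) (Finset.mem_univ i)
  refine ⟨c * (v i).num, ?_⟩
  rw [hc]
  push_cast
  have h1 : ((v i).den : ℚ) * v i = (v i).num := by
    rw [mul_comm]
    exact Rat.mul_den_eq_num (v i)
  calc ((v i).den : ℚ) * c * v i = c * ((v i).den * v i) := by ring
    _ = _ := by rw [h1]

/-- the linear functional `∑_{i ∈ A} v_p (a i) e i` -/
def fn {k : ℕ} (a : Fin k → ℕ) (A : Finset (Fin k)) (p : ℕ) : (Fin k → ℚ) →ₗ[ℚ] ℚ where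
  toFun e := ∑ i ∈ A, (padicValRat p (a i : ℚ) : ℚ) * e i
  map_add' x y := by simp [mul_add, Finset.sum_add_distrib]
  map_smul' c x := by
    simp only [Pi.smul_apply, smul_eq_mul, RingHom.id_apply, Finset.mul_sum]
    apply Finset.sum_congr rfl
    intro i _
    ring

lemma fn_val {p : ℕ} (hp : p.Prime) {k : ℕ} (a : Fin k → ℕ) (ha : ∀ i, 1 ≤ a i)
    (A : Finset (Fin k)) (e : Fin k → ℤ) (he : ∀ i ∉ A, e i = 0) :
    (padicValRat p (∏ i, (a i : ℚ) ^ e i) : ℚ) = fn a A p (fun i => (e i : ℚ)) := by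
  rw [vprod hp a ha e]
  show _ = ∑ i ∈ A, (padicValRat p (a i : ℚ) : ℚ) * e i
  rw [Finset.sum_subset (Finset.subset_univ A)]
  · push_cast
    apply Finset.sum_congr rfl
    intro i _
    ring
  · intro i _ hi
    rw [he i hi]
    simp

lemma main (k l : ℕ) (S : Finset ℕ) (a : Fin k → ℕ) (b : Fin l → ℕ) (hS : PS S)
    (ha : ∀ i, 1 ≤ a i) (hb : ∀ j, 1 ≤ b j)
    (hp : ∀ p : ℕ, p.Prime → ((∃ i, p ∣ a i) ∨ ∃ j, p ∣ b j) → p ∈ S)
    (A : Finset (Fin k)) (B : Finset (Fin l))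
    (hAB : ∀ (e : Fin k → ℤ) (f : Fin l → ℤ), (∀ i ∉ A, e i = 0) →
      (∀ j ∉ B, f j = 0) → ∏ i, (a i : ℚ) ^ e i = ∏ j, (b j : ℚ) ^ f j →
      ∏ i, (a i : ℚ) ^ e i = 1) (p : ℕ) (hpS : p ∈ S) :
    ∃ c : S → ℚ, ∀ (e : Fin k → ℤ) (f : Fin l → ℤ), (∀ i ∉ A, e i = 0) →
      (∀ j ∉ B, f j = 0) →
      (padicValRat p (∏ i, (a i : ℚ) ^ e i) : ℚ) = ∑ q : S, c q *
        ((padicValRat (q : ℕ) (∏ i, (a i : ℚ) ^ e i) : ℚ) -
          (padicValRat (q : ℕ) (∏ j, (b j : ℚ) ^ f j) : ℚ)) := by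
  set L : S → ((Fin k → ℚ) × (Fin l → ℚ)) →ₗ[ℚ] ℚ := fun q =>
    (fn a A q) ∘ₗ LinearMap.fst ℚ (Fin k → ℚ) (Fin l → ℚ) -
      (fn b B q) ∘ₗ LinearMap.snd ℚ (Fin k → ℚ) (Fin l → ℚ) with hL
  set K : ((Fin k → ℚ) × (Fin l → ℚ)) →ₗ[ℚ] ℚ :=
    (fn a A p) ∘ₗ LinearMap.fst ℚ (Fin k → ℚ) (Fin l → ℚ) with hK
  have hker : ⨅ q, LinearMap.ker (L q) ≤ LinearMap.ker K := by
    intro v hv
    rw [Submodule.mem_iInf] at hv
    rw [LinearMap.mem_ker]
    obtain ⟨N, hN, hz⟩ := clear (Sum.elim v.1 v.2)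
    choose z hz using hz
    set e : Fin k → ℤ := fun i => if i ∈ A then z (Sum.inl i) else 0 with he
    set f : Fin l → ℤ := fun j => if j ∈ B then z (Sum.inr j) else 0 with hf
    have he0 : ∀ i ∉ A, e i = 0 := fun i hi => if_neg hi
    have hf0 : ∀ j ∉ B, f j = 0 := fun j hj => if_neg hj
    have hNe : ∀ q : ℕ, fn a A q (fun i => (e i : ℚ)) = N * fn a A q v.1 := by
      intro q
      show ∑ i ∈ A, (padicValRat q (a i : ℚ) : ℚ) * e i =
        N * ∑ i ∈ A, (padicValRat q (a i : ℚ) : ℚ) * v.1 i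
      rw [Finset.mul_sum]
      apply Finset.sum_congr rfl
      intro i hi
      have h1 := hz (Sum.inl i)
      simp only [Sum.elim_inl] at h1
      simp only [he, if_pos hi]
      rw [← h1]
      ring
    have hNf : ∀ q : ℕ, fn b B q (fun i => (f i : ℚ)) = N * fn b B q v.2 := by
      intro q
      show ∑ i ∈ B, (padicValRat q (b i : ℚ) : ℚ) * f i =
        N * ∑ i ∈ B, (padicValRat q (b i : ℚ) : ℚ) * v.2 i
      rw [Finset.mul_sum]
      apply Finset.sum_congr rfl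
      intro i hi
      have h1 := hz (Sum.inr i)
      simp only [Sum.elim_inr] at h1
      simp only [hf, if_pos hi]
      rw [← h1]
      ring
    have hxy : ∏ i, (a i : ℚ) ^ e i = ∏ j, (b j : ℚ) ^ f j := by
      apply eq_of_val (prod_pos' a ha e) (prod_pos' b hb f)
      intro q hq
      by_cases hqS : q ∈ S
      · have h1 := hv ⟨q, hqS⟩
        rw [LinearMap.mem_ker] at h1
        have h2 : fn a A q v.1 = fn b B q v.2 := by
          have : fn a A q v.1 - fn b B q v.2 = 0 := h1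
          linarith
        have h3 : (padicValRat q (∏ i, (a i : ℚ) ^ e i) : ℚ) =
            (padicValRat q (∏ j, (b j : ℚ) ^ f j) : ℚ) := by
          rw [fn_val hq a ha A e he0, fn_val hq b hb B f hf0, hNe, hNf, h2]
        exact_mod_cast h3
      · rw [vprod hq a ha, vprod hq b hb]
        rw [Finset.sum_eq_zero, Finset.sum_eq_zero]
        · intro j _
          have : ¬ q ∣ b j := fun h => hqS (hp q hq (Or.inr ⟨j, h⟩))
          rw [padicValRat.of_nat, padicValNat.eq_zero_of_not_dvd this]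
          simp
        · intro i _
          have : ¬ q ∣ a i := fun h => hqS (hp q hq (Or.inl ⟨i, h⟩))
          rw [padicValRat.of_nat, padicValNat.eq_zero_of_not_dvd this]
          simp
    have h1 := hAB e f he0 hf0 hxy
    have h2 : (padicValRat p (∏ i, (a i : ℚ) ^ e i) : ℚ) = 0 := by
      rw [h1]
      simp
    rw [fn_val (hS p hpS) a ha A e he0, hNe] at h2
    have h3 : (N : ℚ) ≠ 0 := by exact_mod_cast hN.ne'
    show fn a A p v.1 = 0
    rcases mul_eq_zero.1 h2 with h | h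
    · exact absurd h h3
    · exact h
  have hspan := mem_span_of_iInf_ker_le_ker hker
  rw [Submodule.mem_span_range_iff_exists_fun] at hspan
  obtain ⟨c, hc⟩ := hspan
  refine ⟨c, fun e f he hf => ?_⟩
  have h1 : K (fun i => (e i : ℚ), fun j => (f j : ℚ)) =
      ∑ q : S, c q * L q (fun i => (e i : ℚ), fun j => (f j : ℚ)) := by
    rw [← hc]
    simp [LinearMap.sum_apply]
  rw [fn_val (hS p hpS) a ha A e he]
  refine Eq.trans h1 ?_
  apply Finset.sum_congr rfl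
  intro q _
  rw [fn_val (hS q q.2) a ha A e he, fn_val (hS q q.2) b hb B f hf]
  rfl

lemma bound (k l : ℕ) (S : Finset ℕ) (a : Fin k → ℕ) (b : Fin l → ℕ) (hS : PS S)
    (ha : ∀ i, 1 ≤ a i) (hb : ∀ j, 1 ≤ b j)
    (hp : ∀ p : ℕ, p.Prime → ((∃ i, p ∣ a i) ∨ ∃ j, p ∣ b j) → p ∈ S)
    (A : Finset (Fin k)) (B : Finset (Fin l))
    (hAB : ∀ (e : Fin k → ℤ) (f : Fin l → ℤ), (∀ i ∉ A, e i = 0) →
      (∀ j ∉ B, f j = 0) → ∏ i, (a i : ℚ) ^ e i = ∏ j, (b j : ℚ) ^ f j →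
      ∏ i, (a i : ℚ) ^ e i = 1) (p : ℕ) (hpS : p ∈ S) :
    ∃ C : ℝ, 0 ≤ C ∧ ∀ (e : Fin k → ℤ) (f : Fin l → ℤ), (∀ i ∉ A, e i = 0) →
      (∀ j ∉ B, f j = 0) → ∀ E : ℝ, 0 ≤ E →
      (∀ q ∈ S, av q (∏ i, (a i : ℚ) ^ e i) ≤ Real.exp E * av q (∏ j, (b j : ℚ) ^ f j) ∧
        av q (∏ j, (b j : ℚ) ^ f j) ≤ Real.exp E * av q (∏ i, (a i : ℚ) ^ e i)) →
      |(padicValRat p (∏ i, (a i : ℚ) ^ e i) : ℝ)| * Real.log p ≤ C * E := by
  obtain ⟨c, hc⟩ := main k l S a b hS ha hb hp A B hAB p hpS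
  have hlog2 : 0 < Real.log 2 := Real.log_pos (by norm_num)
  have hlogp : 0 ≤ Real.log p := Real.log_natCast_nonneg p
  refine ⟨(∑ q : S, |(c q : ℝ)|) / Real.log 2 * Real.log p, by positivity,
    fun e f he hf E hE hav => ?_⟩
  set x := ∏ i, (a i : ℚ) ^ e i with hx
  set y := ∏ j, (b j : ℚ) ^ f j with hy
  have hx0 : x ≠ 0 := (prod_pos' a ha e).ne'
  have hy0 : y ≠ 0 := (prod_pos' b hb f).ne'
  have h1 : ∀ q : S, |(padicValRat (q : ℕ) x : ℝ) - (padicValRat (q : ℕ) y : ℝ)| ≤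
      E / Real.log 2 := by
    intro q
    have hq := hS q q.2
    obtain ⟨h2, h3⟩ := hav q q.2
    rw [av_exp hq hx0, av_exp hq hy0, ← Real.exp_add, Real.exp_le_exp] at h2 h3
    have hlq : Real.log 2 ≤ Real.log (q : ℕ) :=
      Real.log_le_log (by norm_num) (by exact_mod_cast hq.two_le)
    rw [le_div_iff₀ hlog2]
    calc |(padicValRat (q : ℕ) x : ℝ) - (padicValRat (q : ℕ) y : ℝ)| * Real.log 2 ≤
        |(padicValRat (q : ℕ) x : ℝ) - (padicValRat (q : ℕ) y : ℝ)| * Real.log (q : ℕ) :=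
          mul_le_mul_of_nonneg_left hlq (abs_nonneg _)
      _ = |((padicValRat (q : ℕ) x : ℝ) - (padicValRat (q : ℕ) y : ℝ)) * Real.log (q : ℕ)| := by
          rw [abs_mul, abs_of_nonneg (le_trans hlog2.le hlq)]
      _ ≤ E := by
          rw [abs_le]
          constructor <;> nlinarith
  have h2 := hc e f he hf
  have h3 : (padicValRat p x : ℝ) = ∑ q : S, (c q : ℝ) *
      ((padicValRat (q : ℕ) x : ℝ) - (padicValRat (q : ℕ) y : ℝ)) := by
    exact_mod_cast h2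
  have h4 : |(padicValRat p x : ℝ)| ≤ (∑ q : S, |(c q : ℝ)|) * (E / Real.log 2) := by
    rw [h3, Finset.sum_mul]
    refine (Finset.abs_sum_le_sum_abs _ _).trans (Finset.sum_le_sum fun q _ => ?_)
    rw [abs_mul]
    exact mul_le_mul_of_nonneg_left (h1 q) (abs_nonneg _)
  calc |(padicValRat p x : ℝ)| * Real.log p ≤
      (∑ q : S, |(c q : ℝ)|) * (E / Real.log 2) * Real.log p :=
        mul_le_mul_of_nonneg_right h4 hlogp
    _ = _ := by ring

end SEP_

open SEP_ in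
theorem sep_proof : Stmt_SEP := by
  intro k l S a b I J hS ha hb hp hIJ
  classical
  have key : ∀ (A : Finset (Fin k)) (B : Finset (Fin l)) (p : ℕ), ∃ C : ℝ, 0 ≤ C ∧
      (A ∈ I → B ∈ J → p ∈ S → ∀ (e : Fin k → ℤ) (f : Fin l → ℤ), (∀ i ∉ A, e i = 0) →
      (∀ j ∉ B, f j = 0) → ∀ E : ℝ, 0 ≤ E →
      (∀ q ∈ S, av q (∏ i, (a i : ℚ) ^ e i) ≤ Real.exp E * av q (∏ j, (b j : ℚ) ^ f j) ∧
        av q (∏ j, (b j : ℚ) ^ f j) ≤ Real.exp E * av q (∏ i, (a i : ℚ) ^ e i)) →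
      |(padicValRat p (∏ i, (a i : ℚ) ^ e i) : ℝ)| * Real.log p ≤ C * E) := by
    intro A B p
    by_cases h : A ∈ I ∧ B ∈ J ∧ p ∈ S
    · obtain ⟨C, hC, h1⟩ := bound k l S a b hS ha hb hp A B (hIJ A h.1 B h.2.1) p h.2.2
      exact ⟨C, hC, fun _ _ _ => h1⟩
    · exact ⟨0, le_refl _, fun h1 h2 h3 => absurd ⟨h1, h2, h3⟩ h⟩
  choose C hC0 hC using key
  refine ⟨1 + ∑ A ∈ I, ∑ B ∈ J, ∑ p ∈ S, C A B p, ?_, ?_⟩
  · have : 0 ≤ ∑ A ∈ I, ∑ B ∈ J, ∑ p ∈ S, C A B p :=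
      Finset.sum_nonneg fun A _ => Finset.sum_nonneg fun B _ => Finset.sum_nonneg fun p _ =>
        hC0 A B p
    linarith
  · rintro x ⟨A, hA, e, he, rfl⟩ y ⟨B, hB, f, hf, rfl⟩ E hE hav p hpS
    have h1 := hC A B p hA hB hpS e f he hf E hE hav
    have h2 : C A B p ≤ 1 + ∑ A ∈ I, ∑ B ∈ J, ∑ p ∈ S, C A B p := by
      have h3 : C A B p ≤ ∑ p ∈ S, C A B p :=
        Finset.single_le_sum (fun p _ => hC0 A B p) hpS
      have h4 : ∑ p ∈ S, C A B p ≤ ∑ B ∈ J, ∑ p ∈ S, C A B p :=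
        Finset.single_le_sum (f := fun B => ∑ p ∈ S, C A B p)
          (fun B _ => Finset.sum_nonneg fun p _ => hC0 A B p) hB
      have h5 : ∑ B ∈ J, ∑ p ∈ S, C A B p ≤ ∑ A ∈ I, ∑ B ∈ J, ∑ p ∈ S, C A B p :=
        Finset.single_le_sum (f := fun A => ∑ B ∈ J, ∑ p ∈ S, C A B p)
          (fun A _ => Finset.sum_nonneg fun B _ => Finset.sum_nonneg fun p _ => hC0 A B p) hA
      linarith
    have h3 : |(padicValRat p (∏ i, (a i : ℚ) ^ e i) : ℝ)| * Real.log p ≤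
        (1 + ∑ A ∈ I, ∑ B ∈ J, ∑ p ∈ S, C A B p) * E :=
      h1.trans (mul_le_mul_of_nonneg_right h2 hE)
    have hp := hS p hpS
    have hlogp : 0 ≤ Real.log p := Real.log_natCast_nonneg p
    rw [av_exp hp (prod_pos' a ha e).ne']
    set v := (padicValRat p (∏ i, (a i : ℚ) ^ e i) : ℝ)
    have h4 : v * Real.log p ≤ |v| * Real.log p :=
      mul_le_mul_of_nonneg_right (le_abs_self v) hlogp
    have h5 : -v * Real.log p ≤ |v| * Real.log p :=
      mul_le_mul_of_nonneg_right (neg_le_abs v) hlogp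
    constructor
    · rw [Real.exp_le_exp]
      linarith
    · rw [← Real.exp_add]
      apply Real.one_le_exp
      linarith

end Pool.Agent.SBT
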