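import Pool.Agent.SBT.StmtsG

set_option autoImplicit false

namespace Pool.Agent.SBT

open Finset

namespace STG_

theorem val {a : ℕ} (u : ℕ → ℕ) (P : ℕ → ℤ) (ha : 1 ≤ a) (hu : ∀ i, u i < a)
    (hP : ∀ i, P (i + 1) = a * P i + u i) (i t : ℕ) :
    0 ≤ P (i + t) - (a : ℤ) ^ t * P i ∧ P (i + t) - (a : ℤ) ^ t * P i < (a : ℤ) ^ t := by
  induction t with
  | zero => simp
  | succ t ih =>
    obtain ⟨h1, h2⟩ := ih
    have e : P (i + (t + 1)) = a * P (i + t) + u (i + t) := hP (i + t)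
    have hu' : (u (i + t) : ℤ) + 1 ≤ a := by exact_mod_cast hu (i + t)
    have hu0 : (0 : ℤ) ≤ u (i + t) := by positivity
    have ha' : (0 : ℤ) < a := by exact_mod_cast ha
    have e2 : P (i + (t + 1)) - (a : ℤ) ^ (t + 1) * P i =
        a * (P (i + t) - (a : ℤ) ^ t * P i) + u (i + t) := by
      rw [e, pow_succ]
      ring
    rw [e2]
    constructor
    · positivity
    · have h3 : (a : ℤ) * (P (i + t) - (a : ℤ) ^ t * P i) ≤ a * ((a : ℤ) ^ t - 1) :=
        mul_le_mul_of_nonneg_left (by linarith) ha'.le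
      rw [pow_succ]
      nlinarith

theorem shift {a : ℕ} (u : ℕ → ℕ) (P : ℕ → ℤ)
    (hP : ∀ i, P (i + 1) = a * P i + u i) (i j t : ℕ) (h : ∀ l < t, u (i + l) = u (j + l)) :
    P (i + t) - (a : ℤ) ^ t * P i = P (j + t) - (a : ℤ) ^ t * P j := by
  induction t with
  | zero => simp
  | succ t ih =>
    have h1 := ih (fun l hl => h l (by omega))
    have e : P (i + (t + 1)) = a * P (i + t) + u (i + t) := hP (i + t)
    have e' : P (j + (t + 1)) = a * P (j + t) + u (j + t) := hP (j + t)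
    rw [e, e', h t (by omega), pow_succ]
    linear_combination (a : ℤ) * h1

theorem iter (u : ℕ → ℕ) (z per X : ℕ) (h : ∀ i, z ≤ i → i + per < X → u i = u (i + per)) :
    ∀ k i : ℕ, z ≤ i → i + k * per < X → u i = u (i + k * per) := by
  intro k
  induction k with
  | zero => intro i _ _; simp
  | succ k ih =>
    intro i hi hX
    rw [add_mul, one_mul, ← add_assoc] at hX ⊢
    rw [ih i hi (by omega)]
    exact h _ (by omega) hX

theorem geo {a : ℕ} (u : ℕ → ℕ) (P : ℕ → ℤ)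
    (hP : ∀ i, P (i + 1) = a * P i + u i) (z per X : ℕ)
    (h : ∀ i, z ≤ i → i + per < X → u i = u (i + per)) :
    ∀ j : ℕ, z + j * per ≤ X → ((a : ℤ) ^ per - 1) * P (z + j * per) =
      ((a : ℤ) ^ per - 1) * (a : ℤ) ^ (j * per) * P z +
        (P (z + per) - (a : ℤ) ^ per * P z) * ((a : ℤ) ^ (j * per) - 1) := by
  intro j
  induction j with
  | zero => intro _; simp
  | succ j ih =>
    intro hX
    have hX' : z + j * per + per ≤ X := by rw [add_mul, one_mul] at hX; omega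
    have h1 := ih (by omega)
    have h2 := shift u P hP z (z + j * per) per (fun l hl => by
      have := iter u z per X h j (z + l) (by omega) (by omega)
      rw [this]
      congr 1
      ring)
    have e : z + (j + 1) * per = z + j * per + per := by ring
    rw [e]
    have e2 : (a : ℤ) ^ ((j + 1) * per) = (a : ℤ) ^ (j * per) * (a : ℤ) ^ per := by
      rw [← pow_add]
      congr 1
      ring
    rw [e2]
    linear_combination ((a : ℤ) ^ per) * h1 - ((a : ℤ) ^ per - 1) * h2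

end STG_

open STG_ in
theorem stg_proof (hSTF : Stmt_STF) (hRPA : Stmt_RPA) : Stmt_STG := by
  classical
  obtain ⟨-, rmul, rmono, rpw, rzero, -, rprd⟩ := hRPA
  intro C
  obtain ⟨s₁, B₁, hS⟩ := hSTF C
  refine ⟨s₁ + 2, 2 * B₁ + 3, fun Λ => ?_⟩
  obtain ⟨N₁, hN⟩ := hS Λ
  refine ⟨4 * N₁ + 4 * 2 ^ s₁ + 2 * B₁ + Λ + N₁ + s₁ + 2, ?_⟩
  intro a n u P ha hn hu hP hnb
  obtain ⟨m, q, y, hm1, hm2, hq, hy, hspe, hz⟩ := hN a n u P ha hn hu hP hnb
  set N := 4 * N₁ + 4 * 2 ^ s₁ + 2 * B₁ + Λ + N₁ + s₁ + 2 with hNdef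
  set B := 2 * B₁ + 3 with hB
  have ha1 : (1 : ℤ) ≤ a := by exact_mod_cast (by omega : 1 ≤ a)
  have hBn : B * n = 2 * (B₁ * n) + 3 * n := by rw [hB]; ring
  have hNn : N * n = 4 * (N₁ * n) + 4 * 2 ^ s₁ * n + 2 * (B₁ * n) + Λ * n + N₁ * n + s₁ * n + 2 * n := by
    rw [hNdef]; ring
  have hNN : 4 * N₁ ≤ N ∧ 4 * 2 ^ s₁ ≤ N := by
    constructor <;> omega
  have hpowmono : ∀ i j : ℕ, i ≤ j → (a : ℤ) ^ i ≤ (a : ℤ) ^ j := fun i j h =>
    pow_le_pow_right₀ ha1 h
  have hP0 : (0 : ℤ) ≤ |P 0| := abs_nonneg _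
  -- assembly
  have key : ∀ (per : ℕ) (y' w : ℤ), 1 ≤ per → per ≤ B * n →
      |y'| ≤ (|P 0| + 1) * (a : ℤ) ^ (B * n) → |w| ≤ (|P 0| + 1) * (a : ℤ) ^ (B * n) →
      (∀ z, z + B * n < Λ * n → ∃ L, z ≤ L ∧ L ≤ z + B * n ∧
        ∃ (F : Fin s₁ → ℤ) (Fy Fw : ℤ), (∀ i, Rep a N (N * n) (F i)) ∧ Rep a N (N * n) Fy ∧
          Rep a N (N * n) Fw ∧
          (∏ i, ((a : ℤ) ^ q i - 1)) * (((a : ℤ) ^ per - 1) * ((a : ℤ) ^ 1 - 1)) * P L =
            ∑ i, F i * y i + (Fy * y' + Fw * w)) →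
      ∃ (q : Fin (s₁ + 2) → ℕ) (y : Fin (s₁ + 2) → ℤ), (∀ i, 1 ≤ q i ∧ q i ≤ B * n) ∧
        (∀ i, |y i| ≤ (|P 0| + 1) * (a : ℤ) ^ (B * n)) ∧
        ∀ z, z + B * n < Λ * n → ∃ L, z ≤ L ∧ L ≤ z + B * n ∧ ∃ F : Fin (s₁ + 2) → ℤ,
          (∀ i, Rep a N (N * n) (F i)) ∧ (∏ i, ((a : ℤ) ^ q i - 1)) * P L = ∑ i, F i * y i := by
    intro per y' w hper1 hper2 hy' hw hF
    refine ⟨Fin.append q ![per, 1], Fin.append y ![y', w], ?_, ?_, ?_⟩
    · intro i
      refine Fin.addCases (fun i => ?_) (fun i => ?_) i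
      · rw [Fin.append_left]
        have := hq i
        refine ⟨this.1, ?_⟩
        rw [hBn]
        omega
      · rw [Fin.append_right]
        fin_cases i
        · exact ⟨hper1, hper2⟩
        · refine ⟨le_rfl, ?_⟩
          rw [hBn]
          simp only [Fin.mk_one, Matrix.cons_val_one, Matrix.cons_val_fin_one]
          omega
    · intro i
      refine Fin.addCases (fun i => ?_) (fun i => ?_) i
      · rw [Fin.append_left]
        refine (hy i).trans (mul_le_mul_of_nonneg_left (hpowmono _ _ ?_) (by positivity))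
        rw [hBn]
        omega
      · rw [Fin.append_right]
        fin_cases i
        · exact hy'
        · exact hw
    · intro z hzz
      obtain ⟨L, h1, h2, F, Fy, Fw, h3, h4, h5, h6⟩ := hF z hzz
      refine ⟨L, h1, h2, Fin.append F ![Fy, Fw], ?_, ?_⟩
      · intro i
        refine Fin.addCases (fun i => ?_) (fun i => ?_) i
        · rw [Fin.append_left]
          exact h3 i
        · rw [Fin.append_right]
          fin_cases i
          · exact h4
          · exact h5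
      · rw [Fin.prod_univ_add, Fin.sum_univ_add]
        simp only [Fin.append_left, Fin.append_right, Fin.prod_univ_two, Fin.sum_univ_two,
          Matrix.cons_val_zero, Matrix.cons_val_one]
        exact h6
  -- the factors
  have hsumq : ∑ i, q i ≤ s₁ * n := by
    calc ∑ i, q i ≤ ∑ _i : Fin s₁, n := sum_le_sum fun i _ => (hq i).2
      _ = s₁ * n := by simp
  have rQ : Rep a (2 ^ s₁) (s₁ * n) (∏ i, ((a : ℤ) ^ q i - 1)) :=
    rmono _ _ _ _ _ _ le_rfl hsumq (rprd a s₁ q)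
  have rtwo : ∀ k : ℕ, Rep a 2 k ((a : ℤ) ^ k - 1) := by
    intro k
    have := rprd a 1 (fun _ => k)
    simpa using this
  -- the special places
  have spec : ∀ (per : ℕ) (y' w : ℤ) (z x : ℕ), 1 ≤ per → per ≤ B₁ * n + 1 → z ≤ x →
      x ≤ z + B₁ * n → Spe u m (Λ * n) x → ∃ L, z ≤ L ∧ L ≤ z + B * n ∧
        ∃ (F : Fin s₁ → ℤ) (Fy Fw : ℤ), (∀ i, Rep a N (N * n) (F i)) ∧ Rep a N (N * n) Fy ∧
          Rep a N (N * n) Fw ∧
          (∏ i, ((a : ℤ) ^ q i - 1)) * (((a : ℤ) ^ per - 1) * ((a : ℤ) ^ 1 - 1)) * P L =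
            ∑ i, F i * y i + (Fy * y' + Fw * w) := by
    intro per y' w z x hper1 hper2 hzx hxz hx
    obtain ⟨F, hF1, hF2⟩ := hspe x hx
    refine ⟨x + m, by omega, by rw [hBn]; omega,
      fun i => F i * (((a : ℤ) ^ per - 1) * ((a : ℤ) ^ 1 - 1)), 0, 0, ?_, rzero _ _ _,
      rzero _ _ _, ?_⟩
    · intro i
      have h1 := rmul _ _ _ _ _ _ _ (hF1 i) (rmul _ _ _ _ _ _ _ (rtwo per) (rtwo 1))
      refine rmono _ _ _ _ _ _ ?_ ?_ h1
      · have := hNN.1
        omega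
      · rw [hNn]
        omega
    · have e : (∏ i, ((a : ℤ) ^ q i - 1)) * (((a : ℤ) ^ per - 1) * ((a : ℤ) ^ 1 - 1)) * P (x + m) =
          ((∏ i, ((a : ℤ) ^ q i - 1)) * P (x + m)) *
            (((a : ℤ) ^ per - 1) * ((a : ℤ) ^ 1 - 1)) := by ring
      rw [e, hF2, sum_mul]
      simp only [zero_mul, add_zero]
      exact sum_congr rfl fun i _ => by ring
  by_cases hcase : ∀ z, z + B₁ * n < Λ * n →
      ∃ x, z ≤ x ∧ x ≤ z + B₁ * n ∧ Spe u m (Λ * n) x
  · -- special places everywhere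
    refine key 1 0 0 le_rfl (by rw [hBn]; omega) ?_ ?_ ?_
    · rw [abs_zero]; positivity
    · rw [abs_zero]; positivity
    · intro z hzz
      obtain ⟨x, h1, h2, h3⟩ := hcase z (by rw [hBn] at hzz; omega)
      exact spec 1 0 0 z x le_rfl (by omega) h1 h2 h3
  · -- the first place without special places
    push Not at hcase
    have hex : ∃ z, z + B₁ * n < Λ * n ∧
        ¬ ∃ x, z ≤ x ∧ x ≤ z + B₁ * n ∧ Spe u m (Λ * n) x := by
      obtain ⟨z, h1, h2⟩ := hcase
      refine ⟨z, h1, ?_⟩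
      rintro ⟨x, h3, h4, h5⟩
      exact h2 x h3 h4 h5
    set z₁ := Nat.find hex with hz₁
    obtain ⟨hz1, hz2⟩ := Nat.find_spec hex
    have hmin : ∀ z < z₁, z + B₁ * n < Λ * n →
        ∃ x, z ≤ x ∧ x ≤ z + B₁ * n ∧ Spe u m (Λ * n) x := by
      intro z hzlt hzz
      have := Nat.find_min hex hzlt
      push Not at this
      by_contra hcon
      exact hcon (this hzz)
    rw [← hz₁] at hz1 hz2
    obtain ⟨per, hper1, hper2, hper⟩ := (hz z₁ hz1).resolve_left hz2
    have hB₁ : 1 ≤ B₁ := by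
      by_contra hcon
      have : B₁ = 0 := by omega
      rw [this] at hper2
      omega
    have hnB : n ≤ B₁ * n := Nat.le_mul_of_pos_left n hB₁
    -- the value at `z₁ + B₁ n`
    obtain ⟨y', k, F', hy', hk, hF', hz2val⟩ : ∃ (y' : ℤ) (k : ℕ) (F' : Fin s₁ → ℤ),
        |y'| ≤ (|P 0| + 1) * (a : ℤ) ^ (B * n) ∧ k ≤ B₁ * n + 1 ∧
        (∀ i, Rep a N₁ (N₁ * n) (F' i)) ∧
        (∏ i, ((a : ℤ) ^ q i - 1)) * P (z₁ + B₁ * n) =
          (a : ℤ) ^ k * (∑ i, F' i * y i) + (∏ i, ((a : ℤ) ^ q i - 1)) * y' := by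
      rcases Nat.eq_zero_or_pos z₁ with h0 | h0
      · refine ⟨P (z₁ + B₁ * n), 0, fun _ => 0, ?_, by omega, fun _ => rzero _ _ _, by simp⟩
        rw [h0]
        obtain ⟨h1, h2⟩ := val u P (by omega) hu hP 0 (B₁ * n)
        have h3 : |P (0 + B₁ * n)| ≤ (|P 0| + 1) * (a : ℤ) ^ (B₁ * n) := by
          have e : P (0 + B₁ * n) = (P (0 + B₁ * n) - (a : ℤ) ^ (B₁ * n) * P 0) +
              (a : ℤ) ^ (B₁ * n) * P 0 := by ring
          rw [e]
          refine (abs_add_le _ _).trans ?_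
          rw [abs_of_nonneg h1, abs_mul, abs_of_nonneg (by positivity : (0 : ℤ) ≤ (a : ℤ) ^ (B₁ * n))]
          linarith
        refine h3.trans (mul_le_mul_of_nonneg_left (hpowmono _ _ ?_) (by positivity))
        rw [hBn]
        omega
      · obtain ⟨x, hx1, hx2, hx3⟩ := hmin (z₁ - 1) (by omega) (by omega)
        have hxe : x = z₁ - 1 := by
          by_contra hcon
          exact hz2 ⟨x, by omega, by omega, hx3⟩
        subst hxe
        obtain ⟨F, hF1, hF2⟩ := hspe _ hx3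
        have hkk : z₁ - 1 + m + (B₁ * n + 1 - m) = z₁ + B₁ * n := by omega
        obtain ⟨h1, h2⟩ := val u P (by omega) hu hP (z₁ - 1 + m) (B₁ * n + 1 - m)
        rw [hkk] at h1 h2
        refine ⟨P (z₁ + B₁ * n) - (a : ℤ) ^ (B₁ * n + 1 - m) * P (z₁ - 1 + m),
          B₁ * n + 1 - m, F, ?_, by omega, hF1, ?_⟩
        · rw [abs_of_nonneg h1]
          have h3 : (a : ℤ) ^ (B₁ * n + 1 - m) ≤ (a : ℤ) ^ (B * n) :=
            hpowmono _ _ (by rw [hBn]; omega)
          have h4 : (0 : ℤ) ≤ |P 0| * (a : ℤ) ^ (B * n) := by positivity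
          linarith
        · rw [← hF2]
          ring
    obtain ⟨hw1, hw2⟩ := val u P (by omega) hu hP (z₁ + B₁ * n) per
    refine key per y' (P (z₁ + B₁ * n + per) - (a : ℤ) ^ per * P (z₁ + B₁ * n)) hper1
      (by rw [hBn]; omega) hy' ?_ ?_
    · rw [abs_of_nonneg hw1]
      have h3 : (a : ℤ) ^ per ≤ (a : ℤ) ^ (B * n) :=
        hpowmono _ _ (by rw [hBn]; omega)
      have h4 : (0 : ℤ) ≤ |P 0| * (a : ℤ) ^ (B * n) := by positivity
      linarith
    · intro z hzz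
      rcases Nat.lt_or_ge z z₁ with hlt | hge
      · obtain ⟨x, h1, h2, h3⟩ := hmin z hlt (by rw [hBn] at hzz; omega)
        exact spec per _ _ z x hper1 (by omega) h1 h2 h3
      · -- the periodic part
        obtain ⟨j, hj1, hj2⟩ : ∃ j : ℕ, z ≤ z₁ + B₁ * n + j * per ∧
            z₁ + B₁ * n + j * per ≤ z + B₁ * n + per := by
          rcases Nat.lt_or_ge z (z₁ + B₁ * n) with hlt | hge'
          · exact ⟨0, by omega, by omega⟩
          · refine ⟨(z - (z₁ + B₁ * n)) / per + 1, ?_, ?_⟩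
            · have := Nat.div_add_mod (z - (z₁ + B₁ * n)) per
              have h2 := Nat.mod_lt (z - (z₁ + B₁ * n)) hper1
              rw [add_mul, one_mul, mul_comm (_ / per) per]
              omega
            · have := Nat.div_add_mod (z - (z₁ + B₁ * n)) per
              rw [add_mul, one_mul, mul_comm (_ / per) per]
              omega
        have hLX : z₁ + B₁ * n + j * per < Λ * n := by
          rw [hBn] at hzz
          omega
        have hgeo := geo u P hP (z₁ + B₁ * n) per (Λ * n) hper j hLX.le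
        refine ⟨z₁ + B₁ * n + j * per, hj1, by rw [hBn]; omega,
          fun i => (((a : ℤ) ^ per - 1) * ((a : ℤ) ^ 1 - 1)) *
            ((a : ℤ) ^ (j * per) * ((a : ℤ) ^ k * F' i)),
          (((a : ℤ) ^ per - 1) * ((a : ℤ) ^ 1 - 1)) *
            ((a : ℤ) ^ (j * per) * (∏ i, ((a : ℤ) ^ q i - 1))),
          (((a : ℤ) ^ (j * per) - 1) * ((a : ℤ) ^ 1 - 1)) * (∏ i, ((a : ℤ) ^ q i - 1)),
          ?_, ?_, ?_, ?_⟩
        · intro i
          have h1 := rmul _ _ _ _ _ _ _ (rmul _ _ _ _ _ _ _ (rtwo per) (rtwo 1))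
            (rmul _ _ _ _ _ _ _ (rpw a (j * per)) (rmul _ _ _ _ _ _ _ (rpw a k) (hF' i)))
          refine rmono _ _ _ _ _ _ ?_ ?_ h1
          · have := hNN.1
            omega
          · rw [hNn]
            omega
        · have h1 := rmul _ _ _ _ _ _ _ (rmul _ _ _ _ _ _ _ (rtwo per) (rtwo 1))
            (rmul _ _ _ _ _ _ _ (rpw a (j * per)) rQ)
          refine rmono _ _ _ _ _ _ ?_ ?_ h1
          · have := hNN.2
            omega
          · rw [hNn]
            omega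
        · have h1 := rmul _ _ _ _ _ _ _ (rmul _ _ _ _ _ _ _ (rtwo (j * per)) (rtwo 1)) rQ
          refine rmono _ _ _ _ _ _ ?_ ?_ h1
          · have := hNN.2
            omega
          · rw [hNn]
            omega
        · have e : ∑ i, (((a : ℤ) ^ per - 1) * ((a : ℤ) ^ 1 - 1)) *
              ((a : ℤ) ^ (j * per) * ((a : ℤ) ^ k * F' i)) * y i =
              (((a : ℤ) ^ per - 1) * ((a : ℤ) ^ 1 - 1)) * (a : ℤ) ^ (j * per) *
                ((a : ℤ) ^ k * ∑ i, F' i * y i) := by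
            rw [mul_sum, mul_sum]
            exact sum_congr rfl fun i _ => by ring
          rw [e]
          linear_combination ((∏ i, ((a : ℤ) ^ q i - 1)) * ((a : ℤ) ^ 1 - 1)) * hgeo +
            (((a : ℤ) ^ per - 1) * ((a : ℤ) ^ 1 - 1)) * (a : ℤ) ^ (j * per) * hz2val

end Pool.Agent.SBT
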