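import Pool.Agent.SBT.Pi
import Pool.Agent.SBT.Pad
import Pool.Agent.SBT.LCC
import Pool.Agent.SBT.BAG
import Pool.Agent.SBT.EG1
import Pool.Agent.SBT.EGM
import Pool.Agent.SBT.ING
import Pool.Agent.SBT.APG
import Pool.Agent.SBT.COG
import Pool.Agent.SBT.SEP
import Pool.Agent.SBT.RNC
import Pool.Agent.SBT.STG
import Pool.Agent.SBT.RNG

/-!
# The ring theorem: assembly
-/

set_option autoImplicit false

namespace Pool.Agent.SBT

theorem BAG_ : Stmt_BAG := bag_proof bas_proof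
theorem EG1G_ : Stmt_EG1 := eg1_proof UNI_ S1T_
theorem EGM_ : Stmt_EGM := egm_proof EG1G_
theorem APG_ : Stmt_APG := apg_proof UNI_ S2T_
theorem COG_ : Stmt_COG := cog_proof BAG_ ing_proof EGM_ APG_
theorem RNC_ : Stmt_RNC := rnc_proof COG_ sep_proof lcc_proof
theorem STG_ : Stmt_STG := stg_proof STF_ rpa_proof
theorem RNG_ : Stmt_RNG := rng_proof RNC_ STG_ dgt_proof rpa_proof

/-- the ring theorem for `π` -/
theorem pi_ring (k l : ℕ) (a : Fin k → ℕ) (b : Fin l → ℕ)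
    (ha : ∀ i, 2 ≤ a i) (hb : ∀ j, 2 ≤ b j) (P : MvPolynomial (Fin k) ℚ)
    (Q : MvPolynomial (Fin l) ℚ) (hind : IndM a b P Q)
    (x : Fin k → ℝ) (y : Fin l → ℝ) (hx : MvPolynomial.aeval x P = Real.pi)
    (hy : MvPolynomial.aeval y Q = Real.pi) (C : ℕ) :
    ∃ Λ : ℕ, ∀ᶠ n : ℕ in Filter.atTop,
      C * n ≤ ∑ i, cnt (a i) (x i) n (Λ * n) + ∑ j, cnt (b j) (y j) n (Λ * n) :=
  ring_pad RNG_ k l a b ha hb P Q hind Real.pi 9 meas_pi x y hx hy C

end Pool.Agent.SBT
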