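import Pool.Agent.SBT.StmtsM
import Pool.Agent.SBT.BAG

/-!
# MBG: bases on both sides
-/

set_option autoImplicit false

namespace Pool.Agent.SBT

open Filter

namespace MBG_

theorem grp_zpow {W : Set ℚ} (hW : IsGrp W) {x : ℚ} (hx : x ∈ W) (e : ℤ) : x ^ e ∈ W := by
  have hn : ∀ k : ℕ, x ^ k ∈ W := by
    intro k
    induction k with
    | zero => rw [pow_zero]; exact hW.1
    | succ k ih => rw [pow_succ]; exact hW.2.1 _ ih _ hx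
  rcases Int.natAbs_eq e with he | he
  · rw [he, zpow_natCast]
    exact hn _
  · rw [he, zpow_neg, zpow_natCast]
    exact hW.2.2 _ (hn _)

theorem grp_prod {W : Set ℚ} (hW : IsGrp W) {ι : Type*} (s : Finset ι) (f : ι → ℚ)
    (h : ∀ i ∈ s, f i ∈ W) : ∏ i ∈ s, f i ∈ W := by
  classical
  induction s using Finset.induction_on with
  | empty => rw [Finset.prod_empty]; exact hW.1
  | insert a s ha ih =>
    rw [Finset.prod_insert ha]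
    exact hW.2.1 _ (h a (Finset.mem_insert_self _ _)) _
      (ih fun i hi => h i (Finset.mem_insert_of_mem hi))

theorem wv_of_prod {W : Set ℚ} (hW : IsGrp W) {K r : ℕ} {u : Fin K → ℕ → ℚ}
    (hu : ∀ k, u k ∈ Wv W) {g : Fin r → ℕ → ℚ}
    (hg : ∀ i, ∃ e : Fin K → ℤ, ∀ n, g i n = ∏ k, u k n ^ e k) : ∀ i, g i ∈ Wv W := by
  intro i n
  obtain ⟨e, he⟩ := hg i
  rw [he n]
  exact grp_prod hW _ _ fun k _ => grp_zpow hW (hu k n) _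

theorem mi_append {U : Ultrafilter ℕ} {W₀ W₁ : Set ℚ} (hW₀ : IsGrp W₀) (hW₁ : IsGrp W₁)
    (hint : W₀ ∩ W₁ ⊆ {1}) (hp₀ : ∀ x ∈ W₀, 0 < x) (hp₁ : ∀ x ∈ W₁, 0 < x) {r₀ r₁ : ℕ}
    {g₀ : Fin r₀ → ℕ → ℚ} {g₁ : Fin r₁ → ℕ → ℚ} (h₀ : ∀ i, g₀ i ∈ Wv W₀)
    (h₁ : ∀ i, g₁ i ∈ Wv W₁) (m₀ : MI U g₀) (m₁ : MI U g₁) : MI U (Fin.append g₀ g₁) := by
  intro e κ h
  have h' : ∀ᶠ n in (U : Filter ℕ), (∏ i, g₀ i n ^ e (Fin.castAdd r₁ i)) *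
      (∏ j, g₁ j n ^ e (Fin.natAdd r₀ j)) = κ := by
    filter_upwards [h] with n hn
    rw [Fin.prod_univ_add] at hn
    simp only [Fin.append_left, Fin.append_right] at hn
    exact hn
  obtain ⟨n₀, hn₀⟩ := h'.exists
  have hA : ∀ n, (∏ i, g₀ i n ^ e (Fin.castAdd r₁ i)) ∈ W₀ := fun n =>
    grp_prod hW₀ _ _ fun i _ => grp_zpow hW₀ (h₀ i n) _
  have hB : ∀ n, (∏ j, g₁ j n ^ e (Fin.natAdd r₀ j)) ∈ W₁ := fun n =>
    grp_prod hW₁ _ _ fun i _ => grp_zpow hW₁ (h₁ i n) _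
  have key : ∀ᶠ n in (U : Filter ℕ),
      (∏ i, g₀ i n ^ e (Fin.castAdd r₁ i)) = (∏ i, g₀ i n₀ ^ e (Fin.castAdd r₁ i)) ∧
      (∏ j, g₁ j n ^ e (Fin.natAdd r₀ j)) = (∏ j, g₁ j n₀ ^ e (Fin.natAdd r₀ j)) := by
    filter_upwards [h'] with n hn
    have hA1 := hA n
    have hA0 := hA n₀
    have hB1 := hB n
    have hB0 := hB n₀
    set a := ∏ i, g₀ i n ^ e (Fin.castAdd r₁ i)
    set a' := ∏ i, g₀ i n₀ ^ e (Fin.castAdd r₁ i)
    set b := ∏ j, g₁ j n ^ e (Fin.natAdd r₀ j)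
    set b' := ∏ j, g₁ j n₀ ^ e (Fin.natAdd r₀ j)
    have pa := hp₀ a hA1
    have pa' := hp₀ a' hA0
    have pb := hp₁ b hB1
    have pb' := hp₁ b' hB0
    have heq : a * b = a' * b' := by rw [hn, hn₀]
    have hq : a * a'⁻¹ = b' * b⁻¹ := by
      field_simp
      linarith
    have hm : a * a'⁻¹ ∈ W₀ ∩ W₁ := by
      refine ⟨hW₀.2.1 _ hA1 _ (hW₀.2.2 _ hA0), ?_⟩
      rw [hq]
      exact hW₁.2.1 _ hB0 _ (hW₁.2.2 _ hB1)
    have h1 : a * a'⁻¹ = 1 := hint hm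
    have h2 : a = a' := by
      field_simp at h1
      exact h1
    refine ⟨h2, ?_⟩
    rw [h2] at heq
    exact mul_left_cancel₀ pa'.ne' heq
  have e0 : (fun i => e (Fin.castAdd r₁ i)) = 0 :=
    m₀ (fun i => e (Fin.castAdd r₁ i)) _ (key.mono fun n hn => hn.1)
  have e1 : (fun j => e (Fin.natAdd r₀ j)) = 0 :=
    m₁ (fun j => e (Fin.natAdd r₀ j)) _ (key.mono fun n hn => hn.2)
  funext i
  refine Fin.addCases (fun i => ?_) (fun j => ?_) i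
  · exact congrFun e0 i
  · exact congrFun e1 j

end MBG_

open MBG_ BAG_ in
theorem mbg_proof (hBAS : Stmt_BAS) : Stmt_MBG := by
  intro U S T K W₀ W₁ u₀ u₁ hPS hT hW₀ hW₁ hint hU₀ hU₁ hu₀ hu₁
  obtain ⟨r₀, g₀, a1, a2, a3⟩ := hBAS U K u₀ (fun k n => ((hu₀ k).1.1 n).1)
  obtain ⟨r₁, g₁, b1, b2, b3⟩ := hBAS U K u₁ (fun k n => ((hu₁ k).1.1 n).1)
  obtain ⟨a4, C₀, a5⟩ := prod_unit hPS hT (fun k => (hu₀ k).1) a1
  obtain ⟨b4, C₁, b5⟩ := prod_unit hPS hT (fun k => (hu₁ k).1) b1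
  have hw₀ : ∀ i, g₀ i ∈ Wv W₀ := wv_of_prod hW₀ (fun k => (hu₀ k).2) a1
  have hw₁ : ∀ i, g₁ i ∈ Wv W₁ := wv_of_prod hW₁ (fun k => (hu₁ k).2) b1
  refine ⟨r₀, r₁, g₀, g₁, hw₀, hw₁, ⟨hPS, hT, a4, a2, C₀, a5⟩, ⟨hPS, hT, b4, b2, C₁, b5⟩,
    ⟨hPS, hT, ?_, ?_, ?_⟩, a3, b3⟩
  · intro i n
    refine Fin.addCases (fun i => ?_) (fun j => ?_) i
    · rw [Fin.append_left]; exact a4 i n
    · rw [Fin.append_right]; exact b4 j n
  · exact mi_append hW₀ hW₁ hint (fun x hx => (hU₀ x hx).1) (fun x hx => (hU₁ x hx).1)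
      hw₀ hw₁ a2 b2
  · refine ⟨max C₀ C₁, ?_⟩
    filter_upwards [a5, b5, ev_pos hT] with n h1 h2 hTn i v hv
    refine Fin.addCases (fun i => ?_) (fun j => ?_) i
    · rw [Fin.append_left]
      exact (h1 i v hv).trans (Real.exp_le_exp.2
        (mul_le_mul_of_nonneg_right (le_max_left _ _) hTn.le))
    · rw [Fin.append_right]
      exact (h2 j v hv).trans (Real.exp_le_exp.2
        (mul_le_mul_of_nonneg_right (le_max_right _ _) hTn.le))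

end Pool.Agent.SBT
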