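import Pool.Agent.SBT.StmtsM
import Pool.Agent.SBT.Api

set_option autoImplicit false

/-! Module MCF: coefficients with respect to the last variables. -/

namespace Pool.Agent.SBT

open Filter

/-- the exponent with parts `α`, `β` -/
noncomputable def MCF_jn {r₀ r₁ : ℕ} (α : Fin r₀ →₀ ℕ) (β : Fin r₁ →₀ ℕ) :
    Fin (r₀ + r₁) →₀ ℕ :=
  Finsupp.equivFunOnFinite.symm (Fin.append (fun i => α i) (fun i => β i))

theorem MCF_lft_apply {r₀ r₁ : ℕ} (e : Fin (r₀ + r₁) →₀ ℕ) (i : Fin r₀) :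
    lft e i = e (Fin.castAdd r₁ i) := rfl

theorem MCF_rgt_apply {r₀ r₁ : ℕ} (e : Fin (r₀ + r₁) →₀ ℕ) (i : Fin r₁) :
    rgt e i = e (Fin.natAdd r₀ i) := rfl

theorem MCF_lft_jn {r₀ r₁ : ℕ} (α : Fin r₀ →₀ ℕ) (β : Fin r₁ →₀ ℕ) : lft (MCF_jn α β) = α := by
  ext i
  rw [MCF_lft_apply]
  simp [MCF_jn]

theorem MCF_rgt_jn {r₀ r₁ : ℕ} (α : Fin r₀ →₀ ℕ) (β : Fin r₁ →₀ ℕ) : rgt (MCF_jn α β) = β := by
  ext i
  rw [MCF_rgt_apply]
  simp [MCF_jn]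

theorem MCF_ext {r₀ r₁ : ℕ} {e f : Fin (r₀ + r₁) →₀ ℕ} (h1 : lft e = lft f)
    (h2 : rgt e = rgt f) : e = f := by
  ext i
  refine Fin.addCases (fun j => ?_) (fun j => ?_) i
  · exact DFunLike.congr_fun h1 j
  · exact DFunLike.congr_fun h2 j

theorem MCF_eq_jn {r₀ r₁ : ℕ} {e : Fin (r₀ + r₁) →₀ ℕ} {α : Fin r₀ →₀ ℕ} {β : Fin r₁ →₀ ℕ} :
    e = MCF_jn α β ↔ lft e = α ∧ rgt e = β := by
  constructor
  · rintro rfl
    exact ⟨MCF_lft_jn _ _, MCF_rgt_jn _ _⟩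
  · rintro ⟨h1, h2⟩
    exact MCF_ext (by rw [h1, MCF_lft_jn]) (by rw [h2, MCF_rgt_jn])

theorem MCF_lft_add {r₀ r₁ : ℕ} (e f : Fin (r₀ + r₁) →₀ ℕ) : lft (e + f) = lft e + lft f := by
  ext i; rfl

theorem MCF_rgt_add {r₀ r₁ : ℕ} (e f : Fin (r₀ + r₁) →₀ ℕ) : rgt (e + f) = rgt e + rgt f := by
  ext i; rfl

theorem MCF_coeff {r₀ r₁ : ℕ} (β : Fin r₁ →₀ ℕ) (G : MvPolynomial (Fin (r₀ + r₁)) ℚ)
    (α : Fin r₀ →₀ ℕ) :
    MvPolynomial.coeff α (cf β G) = MvPolynomial.coeff (MCF_jn α β) G := by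
  classical
  unfold cf
  rw [MvPolynomial.coeff_sum]
  have h : ∀ e ∈ G.support, MvPolynomial.coeff α
      (if rgt e = β then MvPolynomial.monomial (lft e) (MvPolynomial.coeff e G) else 0) =
      if e = MCF_jn α β then MvPolynomial.coeff e G else 0 := by
    intro e _
    by_cases h1 : rgt e = β
    · rw [if_pos h1, MvPolynomial.coeff_monomial]
      by_cases h2 : lft e = α
      · rw [if_pos h2, if_pos (MCF_eq_jn.mpr ⟨h2, h1⟩)]
      · rw [if_neg h2, if_neg fun h => h2 (MCF_eq_jn.mp h).1]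
    · rw [if_neg h1, if_neg fun h => h1 (MCF_eq_jn.mp h).2, MvPolynomial.coeff_zero]
  rw [Finset.sum_congr rfl h, Finset.sum_ite_eq']
  split_ifs with h3
  · rfl
  · exact (MvPolynomial.notMem_support_iff.mp h3).symm

theorem MCF_support {r₀ r₁ : ℕ} (β : Fin r₁ →₀ ℕ) (G : MvPolynomial (Fin (r₀ + r₁)) ℚ)
    (α : Fin r₀ →₀ ℕ) : α ∈ (cf β G).support ↔ ∃ e ∈ G.support, lft e = α ∧ rgt e = β := by
  rw [MvPolynomial.mem_support_iff, MCF_coeff]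
  constructor
  · intro h
    exact ⟨MCF_jn α β, MvPolynomial.mem_support_iff.mpr h, MCF_lft_jn _ _, MCF_rgt_jn _ _⟩
  · rintro ⟨e, he, h⟩
    rw [← MCF_eq_jn.mpr h]
    exact MvPolynomial.mem_support_iff.mp he

theorem MCF_add {r₀ r₁ : ℕ} (β : Fin r₁ →₀ ℕ) (G G' : MvPolynomial (Fin (r₀ + r₁)) ℚ) :
    cf β (G + G') = cf β G + cf β G' := by
  ext α
  rw [MvPolynomial.coeff_add, MCF_coeff, MCF_coeff, MCF_coeff, MvPolynomial.coeff_add]

theorem MCF_zero {r₀ r₁ : ℕ} (β : Fin r₁ →₀ ℕ) :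
    cf β (0 : MvPolynomial (Fin (r₀ + r₁)) ℚ) = 0 := by
  ext α
  rw [MCF_coeff, MvPolynomial.coeff_zero, MvPolynomial.coeff_zero]

theorem MCF_monomial {r₀ r₁ : ℕ} (β : Fin r₁ →₀ ℕ) (e : Fin (r₀ + r₁) →₀ ℕ) (d : ℚ) :
    cf β (MvPolynomial.monomial e d) =
      if rgt e = β then MvPolynomial.monomial (lft e) d else 0 := by
  classical
  ext α
  rw [MCF_coeff, MvPolynomial.coeff_monomial]
  by_cases h1 : rgt e = β
  · rw [if_pos h1, MvPolynomial.coeff_monomial]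
    by_cases h2 : lft e = α
    · rw [if_pos h2, if_pos (MCF_eq_jn.mpr ⟨h2, h1⟩)]
    · rw [if_neg h2, if_neg fun h => h2 (MCF_eq_jn.mp h).1]
  · rw [if_neg h1, if_neg fun h => h1 (MCF_eq_jn.mp h).2, MvPolynomial.coeff_zero]

theorem MCF_lft_map {r₀ r₁ : ℕ} (a : Fin r₀ →₀ ℕ) :
    lft (r₁ := r₁) (Finsupp.mapDomain (Fin.castAdd r₁) a) = a := by
  ext i
  rw [MCF_lft_apply]
  exact Finsupp.mapDomain_apply (Fin.castAdd_injective r₀ r₁) a i

theorem MCF_rgt_map {r₀ r₁ : ℕ} (a : Fin r₀ →₀ ℕ) :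
    rgt (Finsupp.mapDomain (Fin.castAdd r₁) a) = 0 := by
  ext i
  rw [MCF_rgt_apply]
  refine Finsupp.mapDomain_notin_range a _ ?_
  rintro ⟨j, hj⟩
  have := congrArg Fin.val hj
  simp at this
  omega

theorem MCF_lft_map' {r₀ r₁ : ℕ} (a : Fin r₁ →₀ ℕ) :
    lft (Finsupp.mapDomain (Fin.natAdd r₀) a) = 0 := by
  ext i
  rw [MCF_lft_apply]
  refine Finsupp.mapDomain_notin_range a _ ?_
  rintro ⟨j, hj⟩
  have := congrArg Fin.val hj
  simp at this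
  omega

theorem MCF_il_mul {r₀ r₁ : ℕ} (β : Fin r₁ →₀ ℕ) (N : MvPolynomial (Fin r₀) ℚ)
    (G : MvPolynomial (Fin (r₀ + r₁)) ℚ) : cf β (il r₁ N * G) = N * cf β G := by
  classical
  induction N using MvPolynomial.induction_on' with
  | monomial a c =>
    induction G using MvPolynomial.induction_on' with
    | monomial e d =>
      rw [il, MvPolynomial.rename_monomial, MvPolynomial.monomial_mul, MCF_monomial,
        MCF_monomial, MCF_rgt_add, MCF_rgt_map, zero_add, MCF_lft_add, MCF_lft_map]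
      split_ifs with h
      · rw [MvPolynomial.monomial_mul]
      · rw [mul_zero]
    | add p q hp hq =>
      rw [mul_add, MCF_add, hp, hq, MCF_add, mul_add]
  | add p q hp hq =>
    have : il r₁ (p + q) = il r₁ p + il r₁ q := by
      rw [il, il, il, map_add]
    rw [this, add_mul, MCF_add, hp, hq, add_mul]

theorem MCF_ir_mul {r₀ r₁ : ℕ} (β : Fin r₁ →₀ ℕ) (N : MvPolynomial (Fin r₁) ℚ)
    (G : MvPolynomial (Fin (r₀ + r₁)) ℚ) :
    ∀ α ∈ (cf β (ir r₀ N * G)).support, ∃ e ∈ G.support, lft e = α := by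
  classical
  intro α hα
  obtain ⟨e, he, h1, _⟩ := (MCF_support β _ α).mp hα
  obtain ⟨a, ha, b, hb, hab⟩ := Finset.mem_add.mp (MvPolynomial.support_mul _ _ he)
  refine ⟨b, hb, ?_⟩
  rw [ir, MvPolynomial.support_rename_of_injective (Fin.natAdd_injective r₁ r₀)] at ha
  obtain ⟨a', _, rfl⟩ := Finset.mem_image.mp ha
  rw [← h1, ← hab, MCF_lft_add, MCF_lft_map', zero_add]

theorem MCF_ev_il {r₀ r₁ : ℕ} (g₀ : Fin r₀ → ℕ → ℚ) (g₁ : Fin r₁ → ℕ → ℚ) (n : ℕ)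
    (N : MvPolynomial (Fin r₀) ℚ) : ev (Fin.append g₀ g₁) n (il r₁ N) = ev g₀ n N := by
  unfold ev il
  rw [MvPolynomial.eval_rename]
  congr 2
  funext i
  simp

theorem MCF_ev_ir {r₀ r₁ : ℕ} (g₀ : Fin r₀ → ℕ → ℚ) (g₁ : Fin r₁ → ℕ → ℚ) (n : ℕ)
    (N : MvPolynomial (Fin r₁) ℚ) : ev (Fin.append g₀ g₁) n (ir r₀ N) = ev g₁ n N := by
  unfold ev ir
  rw [MvPolynomial.eval_rename]
  congr 2
  funext i
  simp

theorem MCF_mon {r₀ r₁ : ℕ} (g₀ : Fin r₀ → ℕ → ℚ) (g₁ : Fin r₁ → ℕ → ℚ) (n : ℕ)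
    (e : Fin (r₀ + r₁) →₀ ℕ) :
    mon (Fin.append g₀ g₁) e n = mon g₀ (lft e) n * mon g₁ (rgt e) n := by
  unfold mon
  rw [Fin.prod_univ_add]
  congr 1
  · refine Finset.prod_congr rfl fun i _ => ?_
    rw [Fin.append_left]; rfl
  · refine Finset.prod_congr rfl fun i _ => ?_
    rw [Fin.append_right]; rfl

theorem MCF_ev_expand {r : ℕ} (g : Fin r → ℕ → ℚ) (n : ℕ) (H : MvPolynomial (Fin r) ℚ) :
    ev g n H = ∑ e ∈ H.support, MvPolynomial.coeff e H * mon g e n := by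
  unfold ev mon
  rw [MvPolynomial.eval_eq']

theorem MCF_ev_cf {r₀ r₁ : ℕ} (g₀ : Fin r₀ → ℕ → ℚ) (n : ℕ) (β : Fin r₁ →₀ ℕ)
    (G : MvPolynomial (Fin (r₀ + r₁)) ℚ) :
    ev g₀ n (cf β G) =
      ∑ e ∈ G.support, if rgt e = β then MvPolynomial.coeff e G * mon g₀ (lft e) n else 0 := by
  classical
  unfold ev cf
  rw [map_sum]
  refine Finset.sum_congr rfl fun e _ => ?_
  split_ifs with h
  · rw [MvPolynomial.eval_monomial]
    unfold mon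
    rw [Finsupp.prod_fintype]
    intro i
    rw [pow_zero]
  · rw [map_zero]

theorem mcf_proof : Stmt_MCF := by
  classical
  intro r₀ r₁
  refine ⟨MCF_support, MCF_add, MCF_il_mul, MCF_ir_mul, MCF_ev_il, MCF_ev_ir, MCF_mon, ?_⟩
  intro g₀ g₁ n G
  rw [MCF_ev_expand]
  rw [← Finset.sum_fiberwise_of_maps_to (s := G.support) (t := G.support.image rgt) (g := rgt)
    (fun e he => Finset.mem_image_of_mem _ he)]
  refine Finset.sum_congr rfl fun β _ => ?_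
  rw [MCF_ev_cf, Finset.mul_sum, Finset.sum_filter]
  refine Finset.sum_congr rfl fun e _ => ?_
  split_ifs with h
  · rw [MCF_mon, h]
    ring
  · rw [mul_zero]

end Pool.Agent.SBT
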