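import Pool.Agent.SBT.StmtsM
import Pool.Agent.SBT.Api

/-!
# Squad SBT, module MFC: reduction of the field theorem
-/

set_option autoImplicit false

namespace Pool.Agent.SBT

open Filter

namespace MFC_

/-! ### Polynomials -/

theorem clear {σ : Type} (p : MvPolynomial σ ℚ) : ∃ (h : ℤ) (p' : MvPolynomial σ ℤ), h ≠ 0 ∧
    MvPolynomial.C (h : ℚ) * p = MvPolynomial.map (Int.castRingHom ℚ) p' := by
  induction p using MvPolynomial.induction_on with
  | C a =>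
    refine ⟨a.den, MvPolynomial.C a.num, by exact_mod_cast a.den_nz, ?_⟩
    rw [MvPolynomial.map_C, ← MvPolynomial.C_mul]
    congr 1
    simp only [Int.cast_natCast, eq_intCast]
    exact Rat.den_mul_eq_num a
  | add p q hp hq =>
    obtain ⟨h₁, p₁, h₁0, e₁⟩ := hp
    obtain ⟨h₂, p₂, h₂0, e₂⟩ := hq
    refine ⟨h₁ * h₂, MvPolynomial.C h₂ * p₁ + MvPolynomial.C h₁ * p₂, mul_ne_zero h₁0 h₂0, ?_⟩
    rw [map_add, map_mul, map_mul, ← e₁, ← e₂, MvPolynomial.map_C, MvPolynomial.map_C]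
    simp only [Int.cast_mul, MvPolynomial.C_mul, eq_intCast]
    ring
  | mul_X p i hp =>
    obtain ⟨h₁, p₁, h₁0, e₁⟩ := hp
    refine ⟨h₁, p₁ * MvPolynomial.X i, h₁0, ?_⟩
    rw [map_mul, MvPolynomial.map_X, ← e₁, mul_assoc]

theorem aeval_clear {k : ℕ} (x : Fin k → ℝ) (p : MvPolynomial (Fin k) ℚ)
    (p' : MvPolynomial (Fin k) ℤ) (h : ℤ)
    (e : MvPolynomial.C (h : ℚ) * p = MvPolynomial.map (Int.castRingHom ℚ) p') :
    MvPolynomial.aeval x p' = (h : ℝ) * MvPolynomial.aeval x p := by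
  have e₁ := congrArg (MvPolynomial.aeval x) e
  rw [map_mul, MvPolynomial.aeval_C] at e₁
  have e₂ : MvPolynomial.aeval x (MvPolynomial.map (Int.castRingHom ℚ) p') =
      MvPolynomial.aeval x p' := by
    rw [MvPolynomial.aeval_def, MvPolynomial.eval₂_map, MvPolynomial.aeval_def]
    congr 1
  rw [← e₂, ← e₁]
  simp

theorem lip {k : ℕ} (x : Fin k → ℝ) (p : MvPolynomial (Fin k) ℤ) : ∃ K : ℝ, 0 ≤ K ∧
    ∀ (x' : Fin k → ℝ) (δ : ℝ), 0 ≤ δ → δ ≤ 1 → (∀ i, |x i - x' i| ≤ δ) →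
      |MvPolynomial.aeval x p - MvPolynomial.aeval x' p| ≤ K * δ := by
  induction p using MvPolynomial.induction_on with
  | C a =>
    refine ⟨0, le_refl _, fun x' δ _ _ _ => ?_⟩
    simp
  | add p q hp hq =>
    obtain ⟨K₁, hK₁, h₁⟩ := hp
    obtain ⟨K₂, hK₂, h₂⟩ := hq
    refine ⟨K₁ + K₂, by positivity, fun x' δ h0 h1 hx => ?_⟩
    have a := h₁ x' δ h0 h1 hx
    have b := h₂ x' δ h0 h1 hx
    rw [map_add, map_add]
    calc |MvPolynomial.aeval x p + MvPolynomial.aeval x q -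
          (MvPolynomial.aeval x' p + MvPolynomial.aeval x' q)|
        = |(MvPolynomial.aeval x p - MvPolynomial.aeval x' p) +
          (MvPolynomial.aeval x q - MvPolynomial.aeval x' q)| := by ring_nf
      _ ≤ _ := abs_add_le _ _
      _ ≤ K₁ * δ + K₂ * δ := add_le_add a b
      _ = (K₁ + K₂) * δ := by ring
  | mul_X p i hp =>
    obtain ⟨K₁, hK₁, h₁⟩ := hp
    refine ⟨K₁ * |x i| + |MvPolynomial.aeval x p| + K₁, by positivity, fun x' δ h0 h1 hx => ?_⟩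
    have a := h₁ x' δ h0 h1 hx
    rw [map_mul, map_mul, MvPolynomial.aeval_X, MvPolynomial.aeval_X]
    set u := MvPolynomial.aeval x p
    set u' := MvPolynomial.aeval x' p
    have b : |u'| ≤ |u| + K₁ := by
      have : |u'| ≤ |u| + |u - u'| := by
        have := abs_sub u (u - u')
        rwa [sub_sub_cancel] at this
      nlinarith
    calc |u * x i - u' * x' i| = |(u - u') * x i + u' * (x i - x' i)| := by ring_nf
      _ ≤ |(u - u') * x i| + |u' * (x i - x' i)| := abs_add_le _ _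
      _ = |u - u'| * |x i| + |u'| * |x i - x' i| := by rw [abs_mul, abs_mul]
      _ ≤ (K₁ * δ) * |x i| + (|u| + K₁) * δ := by
          gcongr
          exact hx i
      _ = _ := by ring

/-! ### Sums of words -/

section words

variable {U : Ultrafilter ℕ} {Γ : Set (ℕ → ℚ)} {ι : Type} [Fintype ι] {y : ι → ℕ → ℤ}

/-- the value of the word `φ` in the letters `y` -/
def wd {ι : Type} (y : ι → ℕ → ℤ) {m : ℕ} (φ : Fin m → Option ι) (n : ℕ) : ℤ :=
  ∏ l, (φ l).elim 1 (fun i => y i n)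

/-- combinations of words of length at most `m` -/
def Cm (U : Ultrafilter ℕ) (Γ : Set (ℕ → ℚ)) {ι : Type} [Fintype ι] (y : ι → ℕ → ℤ) (m : ℕ)
    (G : ℕ → ℚ) : Prop :=
  ∃ f : (Fin m → Option ι) → ℕ → ℚ, (∀ φ, Lc U Γ (f φ)) ∧
    ∀ᶠ n in (U : Filter ℕ), G n = ∑ φ, f φ n * (wd y φ n : ℚ)

theorem cm_congr {m : ℕ} {G G' : ℕ → ℚ} (h : Cm U Γ y m G)
    (e : ∀ᶠ n in (U : Filter ℕ), G n = G' n) : Cm U Γ y m G' := by
  obtain ⟨f, hf, hG⟩ := h
  refine ⟨f, hf, ?_⟩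
  filter_upwards [hG, e] with n h1 h2
  rw [← h2, h1]

theorem cm_word (hL : Stmt_LCC) {m : ℕ} {g : ℕ → ℚ} (ψ : Fin m → Option ι) (h : Lc U Γ g) :
    Cm U Γ y m (fun n => g n * (wd y ψ n : ℚ)) := by
  classical
  refine ⟨fun φ => if φ = ψ then g else 0, fun φ => ?_, Eventually.of_forall fun n => ?_⟩
  · dsimp only
    split_ifs
    · exact h
    · exact (hL U).1 Γ
  · rw [Finset.sum_eq_single ψ]
    · simp
    · intro φ _ hne
      simp [hne]
    · intro h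
      exact absurd (Finset.mem_univ _) h

theorem cm_of_lc (hL : Stmt_LCC) (m : ℕ) {g : ℕ → ℚ} (h : Lc U Γ g) : Cm U Γ y m g := by
  refine cm_congr (cm_word (y := y) hL (fun _ : Fin m => none) h) (Eventually.of_forall fun n => ?_)
  simp [wd]

theorem cm_letter (hL : Stmt_LCC) {g : ℕ → ℚ} (i : ι) (h : Lc U Γ g) :
    Cm U Γ y 1 (fun n => g n * (y i n : ℚ)) := by
  refine cm_congr (cm_word (y := y) hL (fun _ : Fin 1 => some i) h)
    (Eventually.of_forall fun n => ?_)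
  simp [wd]

theorem cm_add (hL : Stmt_LCC) {m : ℕ} {G G' : ℕ → ℚ} (h : Cm U Γ y m G) (h' : Cm U Γ y m G') :
    Cm U Γ y m (fun n => G n + G' n) := by
  obtain ⟨f, hf, hG⟩ := h
  obtain ⟨f', hf', hG'⟩ := h'
  refine ⟨fun φ => f φ + f' φ, fun φ => (hL U).2.1 Γ _ _ (hf φ) (hf' φ), ?_⟩
  filter_upwards [hG, hG'] with n h1 h2
  rw [h1, h2, ← Finset.sum_add_distrib]
  refine Finset.sum_congr rfl fun φ _ => ?_
  rw [Pi.add_apply, add_mul]

theorem cm_smul (hL : Stmt_LCC) {m : ℕ} {G : ℕ → ℚ} (c : ℤ) (h : Cm U Γ y m G) :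
    Cm U Γ y m (fun n => (c : ℚ) * G n) := by
  obtain ⟨f, hf, hG⟩ := h
  refine ⟨fun φ n => (c : ℚ) * f φ n, fun φ => (hL U).2.2.2.2.1 Γ _ c (hf φ), ?_⟩
  filter_upwards [hG] with n h1
  rw [h1, Finset.mul_sum]
  refine Finset.sum_congr rfl fun φ _ => ?_
  ring

theorem cm_sum (hL : Stmt_LCC) {m : ℕ} {J : Type} (s : Finset J) (G : J → ℕ → ℚ)
    (h : ∀ j ∈ s, Cm U Γ y m (G j)) : Cm U Γ y m (fun n => ∑ j ∈ s, G j n) := by
  classical
  induction s using Finset.induction_on with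
  | empty =>
    refine cm_congr (cm_of_lc (y := y) hL m ((hL U).1 Γ)) (Eventually.of_forall fun n => ?_)
    simp
  | insert j s hj ih =>
    refine cm_congr (cm_add hL (h j (Finset.mem_insert_self _ _))
      (ih fun i hi => h i (Finset.mem_insert_of_mem hi))) (Eventually.of_forall fun n => ?_)
    rw [Finset.sum_insert hj]

omit [Fintype ι] in
theorem wd_append {m m' : ℕ} (φ : Fin m → Option ι) (φ' : Fin m' → Option ι) (n : ℕ) :
    wd y (Fin.append φ φ') n = wd y φ n * wd y φ' n := by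
  unfold wd
  rw [Fin.prod_univ_add]
  congr 1
  · refine Finset.prod_congr rfl fun l _ => ?_
    rw [Fin.append_left]
  · refine Finset.prod_congr rfl fun l _ => ?_
    rw [Fin.append_right]

theorem cm_mul (hL : Stmt_LCC) (hΓ : ∀ u ∈ Γ, ∀ u' ∈ Γ, u * u' ∈ Γ) {m m' : ℕ} {G G' : ℕ → ℚ}
    (h : Cm U Γ y m G) (h' : Cm U Γ y m' G') :
    Cm U Γ y (m + m') (fun n => G n * G' n) := by
  obtain ⟨f, hf, hG⟩ := h
  obtain ⟨f', hf', hG'⟩ := h'
  refine ⟨fun ψ => f (fun l => ψ (Fin.castAdd m' l)) * f' (fun l => ψ (Fin.natAdd m l)),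
    fun ψ => (hL U).2.2.1 Γ Γ Γ _ _ (hf _) (hf' _) hΓ, ?_⟩
  filter_upwards [hG, hG'] with n h1 h2
  rw [h1, h2, Finset.sum_mul_sum, ← Fintype.sum_prod_type'
    (fun φ φ' => f φ n * (wd y φ n : ℚ) * (f' φ' n * (wd y φ' n : ℚ))),
    ← (Fin.appendEquiv m m').sum_comp]
  refine Finset.sum_congr rfl fun p _ => ?_
  have e : (Fin.appendEquiv m m') p = Fin.append p.1 p.2 := rfl
  rw [e, wd_append]
  simp only [Fin.append_left, Fin.append_right, Pi.mul_apply]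
  push_cast
  ring

theorem cm_mono (hL : Stmt_LCC) (hΓ : ∀ u ∈ Γ, ∀ u' ∈ Γ, u * u' ∈ Γ) (h1 : (1 : ℕ → ℚ) ∈ Γ)
    {m m' : ℕ} (hm : m ≤ m') {G : ℕ → ℚ} (h : Cm U Γ y m G) : Cm U Γ y m' G := by
  obtain ⟨c, rfl⟩ := Nat.exists_eq_add_of_le hm
  refine cm_congr (cm_mul hL hΓ h (cm_of_lc (y := y) hL c ((hL U).2.2.2.2.2.1 Γ 1 h1)))
    (Eventually.of_forall fun n => ?_)
  simp

theorem cm_pow (hL : Stmt_LCC) (hΓ : ∀ u ∈ Γ, ∀ u' ∈ Γ, u * u' ∈ Γ) (h1 : (1 : ℕ → ℚ) ∈ Γ)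
    {m : ℕ} {G : ℕ → ℚ} (h : Cm U Γ y m G) (j : ℕ) : Cm U Γ y (j * m) (fun n => G n ^ j) := by
  induction j with
  | zero =>
    refine cm_congr (cm_of_lc (y := y) hL _ ((hL U).2.2.2.2.2.1 Γ 1 h1))
      (Eventually.of_forall fun n => ?_)
    simp
  | succ j ih =>
    have := cm_mul hL hΓ ih h
    rw [Nat.succ_mul]
    refine cm_congr this (Eventually.of_forall fun n => ?_)
    rw [pow_succ]

theorem cm_prod (hL : Stmt_LCC) (hΓ : ∀ u ∈ Γ, ∀ u' ∈ Γ, u * u' ∈ Γ) (h1 : (1 : ℕ → ℚ) ∈ Γ)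
    {m : ℕ} {J : Type} (s : Finset J) (G : J → ℕ → ℚ) (h : ∀ j ∈ s, Cm U Γ y m (G j)) :
    Cm U Γ y (s.card * m) (fun n => ∏ j ∈ s, G j n) := by
  classical
  induction s using Finset.induction_on with
  | empty =>
    refine cm_congr (cm_of_lc (y := y) hL _ ((hL U).2.2.2.2.2.1 Γ 1 h1))
      (Eventually.of_forall fun n => ?_)
    simp
  | insert j s hj ih =>
    have := cm_mul hL hΓ (ih fun i hi => h i (Finset.mem_insert_of_mem hi))
      (h j (Finset.mem_insert_self _ _))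
    rw [Finset.card_insert_of_notMem hj, Nat.succ_mul]
    refine cm_congr this (Eventually.of_forall fun n => ?_)
    rw [Finset.prod_insert hj, mul_comm]

omit [Fintype ι] in
theorem wd_bound {m : ℕ} (φ : Fin m → Option ι) (n : ℕ) {E : ℝ} (hE : 1 ≤ E)
    (h : ∀ i, |(y i n : ℝ)| ≤ E) : |(wd y φ n : ℝ)| ≤ E ^ m := by
  unfold wd
  push_cast
  rw [Finset.abs_prod]
  calc ∏ l, |(((φ l).elim 1 (fun i => y i n) : ℤ) : ℝ)| ≤ ∏ _l : Fin m, E := by
        refine Finset.prod_le_prod (fun _ _ => abs_nonneg _) fun l _ => ?_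
        cases φ l with
        | none => simpa using hE
        | some i => simpa using h i
    _ = E ^ m := by simp

end words

/-! ### Products of `Lc` -/

section lc

variable {U : Ultrafilter ℕ}

theorem lc_sum (hL : Stmt_LCC) {Γ : Set (ℕ → ℚ)} {J : Type} (s : Finset J) (f : J → ℕ → ℚ)
    (h : ∀ j ∈ s, Lc U Γ (f j)) : Lc U Γ (fun n => ∑ j ∈ s, f j n) := by
  classical
  induction s using Finset.induction_on with
  | empty =>
    refine (hL U).2.2.2.2.2.2.1 Γ _ _ ((hL U).1 Γ) (Eventually.of_forall fun n => ?_)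
    simp
  | insert j s hj ih =>
    refine (hL U).2.2.2.2.2.2.1 Γ _ _ ((hL U).2.1 Γ _ _ (h j (Finset.mem_insert_self _ _))
      (ih fun i hi => h i (Finset.mem_insert_of_mem hi))) (Eventually.of_forall fun n => ?_)
    rw [Finset.sum_insert hj, Pi.add_apply]

theorem lc_prod (hL : Stmt_LCC) (Γ : ℝ → Set (ℕ → ℚ)) (h1 : (1 : ℕ → ℚ) ∈ Γ 0)
    (hΓ : ∀ b b', ∀ u ∈ Γ b, ∀ u' ∈ Γ b', u * u' ∈ Γ (b + b')) {J : Type} (s : Finset J)
    (f : J → ℕ → ℚ) (b : J → ℝ) (h : ∀ j ∈ s, Lc U (Γ (b j)) (f j)) :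
    Lc U (Γ (∑ j ∈ s, b j)) (fun n => ∏ j ∈ s, f j n) := by
  classical
  induction s using Finset.induction_on with
  | empty =>
    rw [Finset.sum_empty]
    refine (hL U).2.2.2.2.2.2.1 _ _ _ ((hL U).2.2.2.2.2.1 _ 1 h1) (Eventually.of_forall fun n => ?_)
    simp
  | insert j s hj ih =>
    rw [Finset.sum_insert hj]
    refine (hL U).2.2.2.2.2.2.1 _ _ _ ((hL U).2.2.1 _ _ _ _ _ (h j (Finset.mem_insert_self _ _))
      (ih fun i hi => h i (Finset.mem_insert_of_mem hi)) (hΓ _ _)) (Eventually.of_forall fun n => ?_)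
    rw [Finset.prod_insert hj, Pi.mul_apply]

end lc

/-! ### Groups and units -/

theorem isGrp_grp {k : ℕ} (a : Fin k → ℕ) (ha : ∀ i, 2 ≤ a i) :
    IsGrp (Grp a {Finset.univ}) := by
  have ha0 : ∀ i, (a i : ℚ) ≠ 0 := fun i => by
    have := ha i
    positivity
  refine ⟨⟨Finset.univ, Finset.mem_singleton_self _, 0, fun i _ => rfl, by simp⟩, ?_, ?_⟩
  · rintro x ⟨A, hA, e, he, rfl⟩ x' ⟨A', hA', e', he', rfl⟩
    rw [Finset.mem_singleton] at hA hA'
    subst hA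
    subst hA'
    refine ⟨Finset.univ, Finset.mem_singleton_self _, e + e', fun i hi => ?_, ?_⟩
    · exact absurd (Finset.mem_univ _) hi
    · rw [← Finset.prod_mul_distrib]
      refine Finset.prod_congr rfl fun i _ => ?_
      rw [Pi.add_apply, zpow_add₀ (ha0 i)]
  · rintro x ⟨A, hA, e, he, rfl⟩
    refine ⟨Finset.univ, Finset.mem_singleton_self _, -e, fun i hi => ?_, ?_⟩
    · exact absurd (Finset.mem_univ _) hi
    · rw [← Finset.prod_inv_distrib]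
      refine Finset.prod_congr rfl fun i _ => ?_
      rw [Pi.neg_apply, zpow_neg]

theorem pow_mem_grp {k : ℕ} (a : Fin k → ℕ) (i : Fin k) (m : ℕ) :
    (a i : ℚ) ^ m ∈ Grp a {Finset.univ} := by
  classical
  refine ⟨Finset.univ, Finset.mem_singleton_self _, Pi.single i (m : ℤ), fun j hj => ?_, ?_⟩
  · exact absurd (Finset.mem_univ _) hj
  · rw [Finset.prod_eq_single i]
    · simp
    · intro j _ hj
      rw [Pi.single_eq_of_ne hj, zpow_zero]
    · intro h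
      exact absurd (Finset.mem_univ _) h

theorem isU_grp {k : ℕ} {S : Finset ℕ} (hS : PS S) (a : Fin k → ℕ)
    (ha : ∀ i, IsU S (a i : ℚ)) : ∀ x ∈ Grp a {Finset.univ}, IsU S x := by
  rintro x ⟨A, hA, e, he, rfl⟩
  exact isU_prod hS _ _ fun i _ => (ha i).zpow hS _

section units

variable {U : Ultrafilter ℕ} {S : Finset ℕ} {T : ℕ → ℝ} {W : Set ℚ}

theorem sm_mul (hS : PS S) (hW : IsGrp W) (b b' : ℝ) :
    ∀ u ∈ Sm U S T b ∩ Wv W, ∀ u' ∈ Sm U S T b' ∩ Wv W,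
      u * u' ∈ Sm U S T (b + b') ∩ Wv W := by
  rintro u ⟨⟨hu, hb⟩, huW⟩ u' ⟨⟨hu', hb'⟩, huW'⟩
  refine ⟨⟨fun n => (hu n).mul hS (hu' n), ?_⟩, fun n => hW.2.1 _ (huW n) _ (huW' n)⟩
  filter_upwards [hb, hb'] with n h1 h2 v hv
  rw [Pi.mul_apply, av_mul (place_of_mem hS hv), add_mul, Real.exp_add]
  exact mul_le_mul (h1 v hv) (h2 v hv) (av_nonneg _ _) (Real.exp_pos _).le

theorem sm_one (hW : IsGrp W) : (1 : ℕ → ℚ) ∈ Sm U S T 0 ∩ Wv W := by
  refine ⟨⟨fun n => isU_one S, Eventually.of_forall fun n v _ => ?_⟩, fun n => hW.1⟩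
  simp

theorem un_mul (hS : PS S) (hW : IsGrp W) :
    ∀ u ∈ Un U S T ∩ Wv W, ∀ u' ∈ Un U S T ∩ Wv W, u * u' ∈ Un U S T ∩ Wv W := by
  rintro u ⟨⟨hu, C, hb⟩, huW⟩ u' ⟨⟨hu', C', hb'⟩, huW'⟩
  refine ⟨⟨fun n => (hu n).mul hS (hu' n), C + C', ?_⟩, fun n => hW.2.1 _ (huW n) _ (huW' n)⟩
  filter_upwards [hb, hb'] with n h1 h2 v hv
  rw [Pi.mul_apply, av_mul (place_of_mem hS hv), add_mul, Real.exp_add]
  exact mul_le_mul (h1 v hv) (h2 v hv) (av_nonneg _ _) (Real.exp_pos _).le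

theorem sm_sub_un {b : ℝ} : Sm U S T b ∩ Wv W ⊆ Un U S T ∩ Wv W := by
  rintro u ⟨⟨hu, hb⟩, huW⟩
  exact ⟨⟨hu, b, hb⟩, huW⟩

theorem sm_mono (hT : ∀ᶠ n in (U : Filter ℕ), 0 ≤ T n) {b b' : ℝ} (h : b ≤ b') :
    Sm U S T b ∩ Wv W ⊆ Sm U S T b' ∩ Wv W := by
  rintro u ⟨⟨hu, hb⟩, huW⟩
  refine ⟨⟨hu, ?_⟩, huW⟩
  filter_upwards [hb, hT] with n h1 h2 v hv
  refine (h1 v hv).trans (Real.exp_le_exp.2 ?_)
  exact mul_le_mul_of_nonneg_right h h2

/-- powers of a base -/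
theorem pow_mem {k : ℕ} (hS : PS S) (a : Fin k → ℕ) (ha2 : ∀ i, 2 ≤ a i)
    (ha : ∀ i, IsU S (a i : ℚ)) (i : Fin k) (m : ℕ → ℕ) {C H : ℝ} (hC : 0 ≤ C) (hH : 0 ≤ H)
    (hl : Real.log (a i) ≤ H) (hT : ∀ᶠ n in (U : Filter ℕ), 0 ≤ T n)
    (hm : ∀ᶠ n in (U : Filter ℕ), (m n : ℝ) ≤ C * T n) :
    (fun n => (a i : ℚ) ^ m n) ∈ Sm U S T (C * H) ∩ Wv (Grp a {Finset.univ}) := by
  refine ⟨⟨fun n => (ha i).pow hS _, ?_⟩, fun n => pow_mem_grp a i _⟩
  have hai : (1 : ℝ) ≤ a i := by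
    have := ha2 i
    have h : 1 ≤ a i := by omega
    exact_mod_cast h
  filter_upwards [hT, hm] with n h1 h2 v hv
  rcases mem_pl.1 hv with rfl | hp
  · rw [av_zero_eq]
    push_cast
    rw [abs_of_nonneg (by positivity)]
    calc (a i : ℝ) ^ m n = Real.exp (m n * Real.log (a i)) := by
          rw [← Real.log_pow, Real.exp_log (by positivity)]
      _ ≤ Real.exp (C * H * T n) := by
          apply Real.exp_le_exp.2
          calc (m n : ℝ) * Real.log (a i) ≤ (C * T n) * H :=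
                mul_le_mul h2 hl (Real.log_nonneg hai) (by positivity)
            _ = C * H * T n := by ring
  · have hv' : v.Prime := hS v hp
    calc av v ((a i : ℚ) ^ m n) = av v (((a i : ℤ) ^ m n : ℤ) : ℚ) := by push_cast; rfl
      _ ≤ 1 := av_int_le_one hv' _
      _ ≤ Real.exp (C * H * T n) := Real.one_le_exp (by positivity)

end units

/-! ### One side -/

theorem comb {U : Ultrafilter ℕ} {Γ : Set (ℕ → ℚ)} {ι : Type} [Fintype ι] {y : ι → ℕ → ℤ}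
    (hL : Stmt_LCC) (hΓ : ∀ u ∈ Γ, ∀ u' ∈ Γ, u * u' ∈ Γ) (h1 : (1 : ℕ → ℚ) ∈ Γ) {k : ℕ}
    (P : MvPolynomial (Fin k) ℤ) (D : ℕ) (hD : ∀ α ∈ P.support, ∀ i, α i ≤ D)
    (p : Fin k → ℕ → ℤ) (F t : Fin k → ℕ → ℚ) (hF : ∀ i, Lc U Γ (F i)) (ht : ∀ i, Lc U Γ (t i))
    (hFP : ∀ i, Cm U Γ y 1 (fun n => F i n * (p i n : ℚ))) :
    Cm U Γ y (k * D) (fun n => (∏ i, F i n ^ D) *
      (∑ α ∈ P.support, ((P.coeff α : ℤ) : ℚ) * ∏ i, ((p i n : ℚ) ^ α i * t i n ^ (D - α i)))) := by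
  have key : ∀ α ∈ P.support, Cm U Γ y (k * D) (fun n => ((P.coeff α : ℤ) : ℚ) *
      ∏ i, ((F i n) ^ (D - α i) * t i n ^ (D - α i) * (F i n * (p i n : ℚ)) ^ α i)) := by
    intro α hα
    refine cm_smul hL _ ?_
    have hc : (Finset.univ : Finset (Fin k)).card = k := by simp
    have := cm_prod (U := U) (y := y) hL hΓ h1 (m := D) (Finset.univ : Finset (Fin k))
      (fun i n => (F i n) ^ (D - α i) * t i n ^ (D - α i) * (F i n * (p i n : ℚ)) ^ α i)
      (fun i _ => ?_)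
    · rw [hc] at this
      exact this
    · have a1 : Cm U Γ y ((D - α i) * 0) (fun n => F i n ^ (D - α i)) :=
        cm_pow hL hΓ h1 (cm_of_lc hL 0 (hF i)) _
      have a2 : Cm U Γ y ((D - α i) * 0) (fun n => t i n ^ (D - α i)) :=
        cm_pow hL hΓ h1 (cm_of_lc hL 0 (ht i)) _
      have a3 : Cm U Γ y (α i * 1) (fun n => (F i n * (p i n : ℚ)) ^ α i) :=
        cm_pow hL hΓ h1 (hFP i) _
      have a4 := cm_mul hL hΓ (cm_mul hL hΓ a1 a2) a3
      refine cm_mono hL hΓ h1 ?_ a4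
      have := hD α hα i
      omega
  refine cm_congr (cm_sum hL _ _ key) (Eventually.of_forall fun n => ?_)
  rw [Finset.mul_sum]
  refine Finset.sum_congr rfl fun α hα => ?_
  rw [mul_left_comm, ← Finset.prod_mul_distrib]
  congr 1
  refine Finset.prod_congr rfl fun i _ => ?_
  have h := hD α hα i
  have e : F i n ^ D = F i n ^ (D - α i) * F i n ^ α i := by
    rw [← pow_add]
    congr 1
    omega
  rw [e, mul_pow]
  ring

theorem quot {k : ℕ} (P : MvPolynomial (Fin k) ℤ) (D : ℕ) (hD : ∀ α ∈ P.support, ∀ i, α i ≤ D)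
    (p : Fin k → ℝ) (t : Fin k → ℝ) (ht : ∀ i, 0 < t i) :
    (∑ α ∈ P.support, ((P.coeff α : ℤ) : ℝ) * ∏ i, (p i ^ α i * t i ^ (D - α i))) / (∏ i, t i ^ D) =
      MvPolynomial.aeval (fun i => p i / t i) P := by
  rw [MvPolynomial.aeval_def, MvPolynomial.eval₂_eq', Finset.sum_div]
  refine Finset.sum_congr rfl fun α hα => ?_
  rw [mul_div_assoc, ← Finset.prod_div_distrib]
  simp only [algebraMap_int_eq, eq_intCast]
  congr 1
  refine Finset.prod_congr rfl fun i _ => ?_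
  have h := hD α hα i
  have e : t i ^ D = t i ^ (D - α i) * t i ^ α i := by
    rw [← pow_add]
    congr 1
    omega
  have h0 := (ht i).ne'
  rw [e, div_pow]
  field_simp

/-- the quotient is close to the value -/
theorem close {U : Ultrafilter ℕ} (hU : (U : Filter ℕ) ≤ atTop) {k : ℕ} (a : Fin k → ℕ)
    (ha2 : ∀ i, 2 ≤ a i) (x : Fin k → ℝ) (P : MvPolynomial (Fin k) ℤ) (D : ℕ)
    (hD : ∀ α ∈ P.support, ∀ i, α i ≤ D) (L : Fin k → ℕ → ℕ) (Λ : ℝ) (hΛ : 0 ≤ Λ)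
    (hLn : ∀ i, ∀ᶠ n in (U : Filter ℕ), (Λ + 1) / Real.log 2 * n ≤ L i n) :
    ∀ᶠ n : ℕ in (U : Filter ℕ), |MvPolynomial.aeval x P -
      ((∑ α ∈ P.support, P.coeff α * ∏ i, (⌊x i * (a i : ℝ) ^ L i n⌋ ^ α i *
        ((a i : ℤ) ^ L i n) ^ (D - α i)) : ℤ) : ℝ) / (∏ i, ((a i : ℝ) ^ L i n) ^ D)| ≤
      Real.exp (-(Λ * n)) := by
  obtain ⟨K, hK, hlip⟩ := lip x P
  have hT : Tendsto (fun n : ℕ => (n : ℝ)) (U : Filter ℕ) atTop :=
    tendsto_natCast_atTop_atTop.mono_left hU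
  have hK' : ∀ᶠ n : ℕ in (U : Filter ℕ), K ≤ Real.exp (n : ℝ) := by
    filter_upwards [hT.eventually_ge_atTop K] with n hn
    exact hn.trans ((le_add_of_nonneg_right zero_le_one).trans (Real.add_one_le_exp _))
  have hLn' : ∀ᶠ n : ℕ in (U : Filter ℕ), ∀ i, (Λ + 1) / Real.log 2 * n ≤ L i n :=
    eventually_all.2 hLn
  have hlog2 : 0 < Real.log 2 := Real.log_pos one_lt_two
  filter_upwards [hK', hLn'] with n h1 h2
  have hai : ∀ i, (0 : ℝ) < a i := fun i => by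
    have := ha2 i
    positivity
  have ht : ∀ i, (0 : ℝ) < (a i : ℝ) ^ L i n := fun i => pow_pos (hai i) _
  have hq := quot P D hD (fun i => ((⌊x i * (a i : ℝ) ^ L i n⌋ : ℤ) : ℝ))
    (fun i => (a i : ℝ) ^ L i n) ht
  have hq' : ((∑ α ∈ P.support, P.coeff α * ∏ i, (⌊x i * (a i : ℝ) ^ L i n⌋ ^ α i *
        ((a i : ℤ) ^ L i n) ^ (D - α i)) : ℤ) : ℝ) / (∏ i, ((a i : ℝ) ^ L i n) ^ D) =
      MvPolynomial.aeval (fun i => ((⌊x i * (a i : ℝ) ^ L i n⌋ : ℤ) : ℝ) / (a i : ℝ) ^ L i n) P := by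
    rw [← hq]
    push_cast
    rfl
  rw [hq']
  have hδ : ∀ i, |x i - ((⌊x i * (a i : ℝ) ^ L i n⌋ : ℤ) : ℝ) / (a i : ℝ) ^ L i n| ≤
      Real.exp (-((Λ + 1) * n)) := by
    intro i
    have hti := ht i
    have f1 := Int.floor_le (x i * (a i : ℝ) ^ L i n)
    have f2 := Int.lt_floor_add_one (x i * (a i : ℝ) ^ L i n)
    have e : x i - ((⌊x i * (a i : ℝ) ^ L i n⌋ : ℤ) : ℝ) / (a i : ℝ) ^ L i n =
        (x i * (a i : ℝ) ^ L i n - ⌊x i * (a i : ℝ) ^ L i n⌋) / (a i : ℝ) ^ L i n := by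
      field_simp
    rw [e, abs_of_nonneg (div_nonneg (by linarith) hti.le)]
    have g1 : (x i * (a i : ℝ) ^ L i n - ⌊x i * (a i : ℝ) ^ L i n⌋) / (a i : ℝ) ^ L i n ≤
        1 / (a i : ℝ) ^ L i n := by
      apply div_le_div_of_nonneg_right _ hti.le
      linarith
    refine g1.trans ?_
    rw [Real.exp_neg, one_div]
    apply inv_anti₀ (Real.exp_pos _)
    calc Real.exp ((Λ + 1) * n) ≤ Real.exp (L i n * Real.log 2) := by
          apply Real.exp_le_exp.2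
          have := h2 i
          calc (Λ + 1) * (n : ℝ) = (Λ + 1) / Real.log 2 * n * Real.log 2 := by field_simp
            _ ≤ _ := mul_le_mul_of_nonneg_right this hlog2.le
      _ = (2 : ℝ) ^ L i n := by
          rw [← Real.log_pow, Real.exp_log (by positivity)]
      _ ≤ (a i : ℝ) ^ L i n := by
          apply pow_le_pow_left₀ (by norm_num)
          exact_mod_cast ha2 i
  have hn0 : (0 : ℝ) ≤ (Λ + 1) * n := by positivity
  refine (hlip _ _ (Real.exp_pos _).le (Real.exp_le_one_iff.2 (by linarith)) hδ).trans ?_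
  calc K * Real.exp (-((Λ + 1) * n)) ≤ Real.exp n * Real.exp (-((Λ + 1) * n)) :=
        mul_le_mul_of_nonneg_right h1 (Real.exp_pos _).le
    _ = Real.exp (-(Λ * n)) := by
        rw [← Real.exp_add]
        congr 1
        ring

theorem side (hL : Stmt_LCC) {k : ℕ} (a : Fin k → ℕ) (ha2 : ∀ i, 2 ≤ a i) (x : Fin k → ℝ)
    (P : Fin 2 → MvPolynomial (Fin k) ℤ) (s D : ℕ) (B H : ℝ) (S : Finset ℕ) (hS : PS S)
    (haS : ∀ i, IsU S (a i : ℚ)) (hB : 0 ≤ B) (hH : 0 ≤ H) (haH : ∀ i, Real.log (a i) ≤ H)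
    (hD : ∀ c, ∀ α ∈ (P c).support, ∀ i, α i ≤ D) (Λ : ℝ) (hΛ : 0 ≤ Λ)
    (U : Ultrafilter ℕ) (L : Fin k → ℕ → ℕ) (q : Fin k → Fin s → ℕ → ℕ)
    (y : Fin k → Fin s → ℕ → ℤ) (N : ℕ) (hU : (U : Filter ℕ) ≤ atTop)
    (hLn : ∀ i, ∀ᶠ n in (U : Filter ℕ), (Λ + 1) / Real.log 2 * n ≤ L i n ∧ L i n ≤ N * n)
    (hq : ∀ i j, ∀ᶠ n in (U : Filter ℕ), 1 ≤ q i j n ∧ (q i j n : ℝ) ≤ B * n)
    (hF : ∀ i, ∀ᶠ n in (U : Filter ℕ), ∃ F : Fin s → ℤ, (∀ j, Rep (a i) N (N * n) (F j)) ∧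
          (∏ j, ((a i : ℤ) ^ q i j n - 1)) * ⌊x i * (a i : ℝ) ^ L i n⌋ = ∑ j, F j * y i j n) :
    ∃ (R : Fin 2 → ℕ → ℤ) (A : ℕ → ℝ) (f₀ : ℕ → ℚ)
      (f : Fin 2 → (Fin (k * D) → Option (Fin k × Fin s)) → ℕ → ℚ),
      (∀ᶠ n in (U : Filter ℕ), 0 < A n) ∧
      Lc U (Sm U S (fun n => (n : ℝ)) (k * (D * (s * (B * H)))) ∩ Wv (Grp a {Finset.univ})) f₀ ∧
      (∀ c φ, Lc U (Un U S (fun n => (n : ℝ)) ∩ Wv (Grp a {Finset.univ})) (f c φ)) ∧
      (∀ᶠ n in (U : Filter ℕ), f₀ n ≠ 0) ∧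
      (∀ c, ∀ᶠ n in (U : Filter ℕ), f₀ n * (R c n : ℚ) =
        ∑ φ, f c φ n * (wd (fun w : Fin k × Fin s => y w.1 w.2) φ n : ℚ)) ∧
      ∀ c, ∀ᶠ n : ℕ in (U : Filter ℕ),
        |MvPolynomial.aeval x (P c) - R c n / A n| ≤ Real.exp (-(Λ * n)) := by
  classical
  have hT : ∀ᶠ n : ℕ in (U : Filter ℕ), (0 : ℝ) ≤ (fun n : ℕ => (n : ℝ)) n :=
    Eventually.of_forall fun n => Nat.cast_nonneg n
  have hW := isGrp_grp a ha2
  set Γ := Un U S (fun n : ℕ => (n : ℝ)) ∩ Wv (Grp a {Finset.univ}) with hΓdef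
  have hΓ : ∀ u ∈ Γ, ∀ u' ∈ Γ, u * u' ∈ Γ := un_mul hS hW
  have h1 : (1 : ℕ → ℚ) ∈ Γ := sm_sub_un (sm_one hW)
  -- the factors
  set Fs : Fin k → ℕ → ℚ := fun i n => ∏ j, ((a i : ℚ) ^ q i j n - 1) with hFs
  set t : Fin k → ℕ → ℚ := fun i n => (a i : ℚ) ^ L i n with ht
  have hSmF : ∀ i, Lc U (Sm U S (fun n : ℕ => (n : ℝ)) (s * (B * H)) ∩ Wv (Grp a {Finset.univ}))
      (Fs i) := by
    intro i
    have := lc_prod (U := U) hL
      (fun b => Sm U S (fun n : ℕ => (n : ℝ)) b ∩ Wv (Grp a {Finset.univ})) (sm_one hW)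
      (sm_mul hS hW) (Finset.univ : Finset (Fin s)) (fun j n => (a i : ℚ) ^ q i j n - 1)
      (fun _ => B * H) (fun j _ => ?_)
    · simpa using this
    · have b1 : Lc U (Sm U S (fun n : ℕ => (n : ℝ)) (B * H) ∩ Wv (Grp a {Finset.univ}))
          (fun n => (a i : ℚ) ^ q i j n) := by
        refine (hL U).2.2.2.2.2.1 _ _ ?_
        refine pow_mem hS a ha2 haS i (q i j) hB hH (haH i) hT ?_
        filter_upwards [hq i j] with n hn
        exact hn.2
      have b2 : Lc U (Sm U S (fun n : ℕ => (n : ℝ)) (B * H) ∩ Wv (Grp a {Finset.univ})) 1 := by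
        refine (hL U).2.2.2.2.2.1 _ _ ?_
        exact sm_mono hT (by positivity) (sm_one hW)
      refine (hL U).2.2.2.2.2.2.1 _ _ _ ((hL U).2.1 _ _ _ b1 ((hL U).2.2.2.2.1 _ _ (-1) b2))
        (Eventually.of_forall fun n => ?_)
      simp [sub_eq_add_neg]
  have hUnF : ∀ i, Lc U Γ (Fs i) := fun i => (hL U).2.2.2.1 _ _ _ sm_sub_un (hSmF i)
  have hUnt : ∀ i, Lc U Γ (t i) := by
    intro i
    refine (hL U).2.2.2.2.2.1 _ _ ?_
    refine sm_sub_un (pow_mem hS a ha2 haS i (L i) (Nat.cast_nonneg N) hH (haH i) hT ?_)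
    filter_upwards [hLn i] with n hn
    exact_mod_cast hn.2
  -- the coefficients `F`
  have hFex : ∀ i, ∃ F : ℕ → Fin s → ℤ, ∀ᶠ n in (U : Filter ℕ),
      (∀ j, Rep (a i) N (N * n) (F n j)) ∧
      (∏ j, ((a i : ℤ) ^ q i j n - 1)) * ⌊x i * (a i : ℝ) ^ L i n⌋ = ∑ j, F n j * y i j n := by
    intro i
    exact (hF i).choice
  choose F hFF using hFex
  have hFP : ∀ i, Cm U Γ (fun w : Fin k × Fin s => y w.1 w.2) 1
      (fun n => Fs i n * ((⌊x i * (a i : ℝ) ^ L i n⌋ : ℤ) : ℚ)) := by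
    intro i
    have c1 : ∀ j, Lc U Γ (fun n => (F i n j : ℚ)) := by
      intro j
      have := (hL U).2.2.2.2.2.2.2 (a i) N (fun n => N * n) (fun n => F i n j)
        (by filter_upwards [hFF i] with n hn using hn.1 j)
      refine (hL U).2.2.2.1 _ _ _ ?_ this
      rintro u ⟨m, hm, hu⟩
      have hu' : u = fun n => (a i : ℚ) ^ m n := funext hu
      rw [hu']
      refine sm_sub_un (pow_mem hS a ha2 haS i m (Nat.cast_nonneg N) hH (haH i) hT ?_)
      exact Eventually.of_forall fun n => by exact_mod_cast hm n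
    have c2 := cm_sum (U := U) (Γ := Γ) (y := fun w : Fin k × Fin s => y w.1 w.2) hL
      (Finset.univ : Finset (Fin s)) (fun j n => (F i n j : ℚ) * (y i j n : ℚ))
      (fun j _ => cm_letter (y := fun w : Fin k × Fin s => y w.1 w.2) hL (i, j) (c1 j))
    refine cm_congr c2 ?_
    filter_upwards [hFF i] with n hn
    have := hn.2
    have h' := congrArg (fun z : ℤ => (z : ℚ)) this
    push_cast at h'
    rw [hFs]
    simp only
    rw [h']
  have hcomb : ∀ c, Cm U Γ (fun w : Fin k × Fin s => y w.1 w.2) (k * D)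
      (fun n => (∏ i, Fs i n ^ D) * (∑ α ∈ (P c).support, (((P c).coeff α : ℤ) : ℚ) *
        ∏ i, (((⌊x i * (a i : ℝ) ^ L i n⌋ : ℤ) : ℚ) ^ α i * t i n ^ (D - α i)))) := fun c =>
    comb hL hΓ h1 (P c) D (hD c) (fun i n => ⌊x i * (a i : ℝ) ^ L i n⌋) Fs t hUnF hUnt hFP
  choose f hf hfe using hcomb
  refine ⟨fun c n => ∑ α ∈ (P c).support, (P c).coeff α * ∏ i, (⌊x i * (a i : ℝ) ^ L i n⌋ ^ α i *
      ((a i : ℤ) ^ L i n) ^ (D - α i)), fun n => ∏ i, ((a i : ℝ) ^ L i n) ^ D,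
    fun n => ∏ i, Fs i n ^ D, f, ?_, ?_, hf, ?_, ?_, ?_⟩
  · refine Eventually.of_forall fun n => Finset.prod_pos fun i _ => ?_
    have := ha2 i
    positivity
  · have d1 : ∀ i, Lc U (Sm U S (fun n : ℕ => (n : ℝ)) (D * (s * (B * H))) ∩
        Wv (Grp a {Finset.univ})) (fun n => Fs i n ^ D) := by
      intro i
      have := lc_prod (U := U) hL
        (fun b => Sm U S (fun n : ℕ => (n : ℝ)) b ∩ Wv (Grp a {Finset.univ})) (sm_one hW)
        (sm_mul hS hW) (Finset.univ : Finset (Fin D)) (fun _ n => Fs i n)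
        (fun _ => s * (B * H)) (fun _ _ => hSmF i)
      simpa using this
    have := lc_prod (U := U) hL
        (fun b => Sm U S (fun n : ℕ => (n : ℝ)) b ∩ Wv (Grp a {Finset.univ})) (sm_one hW)
        (sm_mul hS hW) (Finset.univ : Finset (Fin k)) (fun i n => Fs i n ^ D)
        (fun _ => D * (s * (B * H))) (fun i _ => d1 i)
    simpa using this
  · have hq' : ∀ᶠ n in (U : Filter ℕ), ∀ i j, 1 ≤ q i j n := by
      refine eventually_all.2 fun i => eventually_all.2 fun j => ?_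
      filter_upwards [hq i j] with n hn using hn.1
    filter_upwards [hq'] with n hn
    refine Finset.prod_ne_zero_iff.2 fun i _ => pow_ne_zero _ ?_
    refine Finset.prod_ne_zero_iff.2 fun j _ => ?_
    have e1 : (1 : ℚ) < (a i : ℚ) ^ q i j n := by
      apply one_lt_pow₀
      · have := ha2 i
        have h' : 1 < a i := by omega
        exact_mod_cast h'
      · have := hn i j
        omega
    linarith
  · intro c
    filter_upwards [hfe c] with n hn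
    rw [← hn]
    push_cast
    rfl
  · intro c
    exact close hU a ha2 x (P c) D (hD c) L Λ hΛ fun i => by
      filter_upwards [hLn i] with n hn using hn.1

end MFC_

theorem mfc_proof (hMCR : Stmt_MCR) (hSEP : Stmt_SEP) (hLCC : Stmt_LCC) : Stmt_MFC := by
  classical
  intro k bs ξ μ x P hb hI hM hne hrel s B hB
  -- integer polynomials
  have hint : ∀ r, ∃ (h : ℤ) (p : Fin 2 → MvPolynomial (Fin k) ℤ), h ≠ 0 ∧
      ∀ c, MvPolynomial.aeval (x r) (p c) = (h : ℝ) * MvPolynomial.aeval (x r) (P r c) := by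
    intro r
    obtain ⟨h₀, p₀, h₀0, e₀⟩ := MFC_.clear (P r 0)
    obtain ⟨h₁, p₁, h₁0, e₁⟩ := MFC_.clear (P r 1)
    have g₀ := MFC_.aeval_clear (x r) _ _ _ e₀
    have g₁ := MFC_.aeval_clear (x r) _ _ _ e₁
    have v₀ : MvPolynomial.aeval (x r) (MvPolynomial.C h₁ * p₀) =
        ((h₀ * h₁ : ℤ) : ℝ) * MvPolynomial.aeval (x r) (P r 0) := by
      rw [map_mul, g₀, MvPolynomial.aeval_C, algebraMap_int_eq, eq_intCast, Int.cast_mul]
      ring
    have v₁ : MvPolynomial.aeval (x r) (MvPolynomial.C h₀ * p₁) =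
        ((h₀ * h₁ : ℤ) : ℝ) * MvPolynomial.aeval (x r) (P r 1) := by
      rw [map_mul, g₁, MvPolynomial.aeval_C, algebraMap_int_eq, eq_intCast, Int.cast_mul]
      ring
    refine ⟨h₀ * h₁, fun c => if c = 0 then MvPolynomial.C h₁ * p₀ else MvPolynomial.C h₀ * p₁,
      mul_ne_zero h₀0 h₁0, ?_⟩
    intro c
    fin_cases c
    · simpa using v₀
    · simpa using v₁
  choose h p hh hp using hint
  -- a bound for the exponents
  obtain ⟨D, hD⟩ : ∃ D : ℕ, ∀ r c, ∀ α ∈ (p r c).support, ∀ i, α i ≤ D := by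
    refine ⟨(Finset.univ : Finset (Fin 2 × Fin 2)).sup fun rc =>
      (p rc.1 rc.2).support.sup fun α => (Finset.univ : Finset (Fin k)).sup fun i => α i, ?_⟩
    intro r c α hα i
    refine le_trans ?_ (Finset.le_sup (f := fun rc : Fin 2 × Fin 2 =>
      (p rc.1 rc.2).support.sup fun α => (Finset.univ : Finset (Fin k)).sup fun i => α i)
      (Finset.mem_univ (r, c)))
    refine le_trans ?_ (Finset.le_sup (f := fun α : Fin k →₀ ℕ =>
      (Finset.univ : Finset (Fin k)).sup fun i => α i) hα)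
    exact Finset.le_sup (f := fun i => α i) (Finset.mem_univ i)
  -- a bound for the logarithms
  obtain ⟨H, hH0, hH⟩ : ∃ H : ℝ, 0 ≤ H ∧ ∀ r i, Real.log (bs r i) ≤ H := by
    have hl : ∀ r i, 0 ≤ Real.log (bs r i) := fun r i => by
      apply Real.log_nonneg
      have := hb r i
      have h' : 1 ≤ bs r i := by omega
      exact_mod_cast h'
    refine ⟨∑ r, ∑ i, Real.log (bs r i), Finset.sum_nonneg fun r _ =>
      Finset.sum_nonneg fun i _ => hl r i, fun r i => ?_⟩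
    refine (Finset.single_le_sum (f := fun i => Real.log (bs r i)) (fun i _ => hl r i)
      (Finset.mem_univ i)).trans ?_
    exact Finset.single_le_sum (f := fun r => ∑ i, Real.log (bs r i))
      (fun r _ => Finset.sum_nonneg fun i _ => hl r i) (Finset.mem_univ r)
  -- the places
  set S : Finset ℕ := (∏ r, ∏ i, bs r i).primeFactors with hSdef
  have hS : PS S := fun q hq => Nat.prime_of_mem_primeFactors hq
  have hprod : ∏ r, ∏ i, bs r i ≠ 0 := by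
    refine Finset.prod_ne_zero_iff.2 fun r _ => Finset.prod_ne_zero_iff.2 fun i _ => ?_
    have := hb r i
    omega
  have hmem : ∀ q : ℕ, q.Prime → ∀ r i, q ∣ bs r i → q ∈ S := by
    intro q hq r i hd
    refine Nat.mem_primeFactors.2 ⟨hq, ?_, hprod⟩
    exact hd.trans ((Finset.dvd_prod_of_mem (fun i => bs r i) (Finset.mem_univ i)).trans
      (Finset.dvd_prod_of_mem (fun r => ∏ i, bs r i) (Finset.mem_univ r)))
  have haS : ∀ r i, IsU S (bs r i : ℚ) := by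
    intro r i
    have := hb r i
    exact isU_nat hS (by omega) fun q hq hd => hmem q hq r i hd
  have hsep : Sep S (Grp (bs 0) {Finset.univ}) (Grp (bs 1) {Finset.univ}) := by
    refine hSEP k k S (bs 0) (bs 1) {Finset.univ} {Finset.univ} hS (fun i => ?_) (fun i => ?_)
      ?_ ?_
    · have := hb 0 i
      omega
    · have := hb 1 i
      omega
    · rintro q hq (⟨i, hi⟩ | ⟨i, hi⟩)
      · exact hmem q hq 0 i hi
      · exact hmem q hq 1 i hi
    · intro A _ B' _ e f _ _ hef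
      exact hI e f hef
  -- the core
  have hcore := hMCR S (fun r => Grp (bs r) {Finset.univ}) ξ μ
    (fun r c => MvPolynomial.aeval (x r) (p r c)) hS (fun r => MFC_.isGrp_grp (bs r) (hb r))
    (fun r => MFC_.isU_grp hS (bs r) (haS r)) hsep hM ?_ ?_
    (Fintype.card (Fin (k * D) → Option (Fin k × Fin s)))
    (max (k * (D * (s * (B * H)))) (((k * D : ℕ) : ℝ) * B)) ?_
  rotate_left
  · intro r
    show MvPolynomial.aeval (x r) (p r 1) ≠ 0
    rw [hp r 1]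
    exact mul_ne_zero (by exact_mod_cast hh r) (hne r)
  · intro r
    show MvPolynomial.aeval (x r) (p r 0) = ξ * MvPolynomial.aeval (x r) (p r 1)
    rw [hp r 0, hp r 1, hrel r]
    ring
  · exact le_max_of_le_left (by positivity)
  obtain ⟨Λ₀, hΛ₀⟩ := hcore
  refine ⟨(max Λ₀ 0 + 1) / Real.log 2, ?_⟩
  intro U L q y N hU hL hq hy hF
  have hside := fun r => MFC_.side hLCC (bs r) (hb r) (x r) (p r) s D B H S hS (haS r) hB hH0
    (hH r) (hD r) (max Λ₀ 0) (le_max_right _ _) U (L r) (q r) (y r) N hU (hL r) (hq r) (hF r)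
  choose R A f₀ f g1 g2 g3 g4 g5 g6 using hside
  have hT0 : ∀ᶠ n : ℕ in (U : Filter ℕ), (0 : ℝ) ≤ (fun n : ℕ => (n : ℝ)) n :=
    Eventually.of_forall fun n => Nat.cast_nonneg n
  let e := Fintype.equivFin (Fin (k * D) → Option (Fin k × Fin s))
  refine hΛ₀ U (fun n => (n : ℝ))
    (fun r j => MFC_.wd (fun w : Fin k × Fin s => y r w.1 w.2) (e.symm j)) R A f₀
    (fun r c j => f r c (e.symm j)) (tendsto_natCast_atTop_atTop.mono_left hU) ?_ g1 ?_ ?_ g4 ?_ ?_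
  · intro r
    have hy' : ∀ᶠ n in (U : Filter ℕ), ∀ i j, |(y r i j n : ℝ)| ≤ Real.exp (B * n) :=
      eventually_all.2 fun i => eventually_all.2 fun j => hy r i j
    filter_upwards [hy'] with n hn j
    have hBn : 0 ≤ B * (n : ℝ) := by positivity
    refine (MFC_.wd_bound (y := fun w : Fin k × Fin s => y r w.1 w.2) (e.symm j) n
      (Real.one_le_exp hBn) (fun w => hn w.1 w.2)).trans ?_
    rw [← Real.exp_nat_mul]
    apply Real.exp_le_exp.2
    rw [← mul_assoc]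
    exact mul_le_mul_of_nonneg_right (le_max_right _ _) (Nat.cast_nonneg n)
  · intro r
    exact (hLCC U).2.2.2.1 _ _ _ (MFC_.sm_mono hT0 (le_max_left _ _)) (g2 r)
  · intro r c j
    exact g3 r c (e.symm j)
  · intro r c
    filter_upwards [g5 r c] with n hn
    rw [hn, ← e.symm.sum_comp]
  · intro r c
    filter_upwards [g6 r c] with n hn
    refine hn.trans (Real.exp_le_exp.2 ?_)
    have : Λ₀ * (n : ℝ) ≤ max Λ₀ 0 * n :=
      mul_le_mul_of_nonneg_right (le_max_left _ _) (Nat.cast_nonneg n)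
    linarith

end Pool.Agent.SBT
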