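import Pool.Agent.SBT.StmtsM

/-!
Squad SBT, module MFL: the field theorem (copy of RNG.lean).
-/

set_option autoImplicit false

namespace Pool.Agent.SBT

open Filter Topology

namespace MFL_

/-- an ultrafilter on which a frequent event happens -/
theorem exists_ultra (p : ℕ → Prop) (h : ∃ᶠ n in atTop, p n) :
    ∃ U : Ultrafilter ℕ, (U : Filter ℕ) ≤ atTop ∧ ∀ᶠ n in (U : Filter ℕ), p n := by
  have hne : (atTop ⊓ 𝓟 {n | p n} : Filter ℕ).NeBot := by
    rw [Filter.inf_principal_neBot_iff]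
    intro s hs
    obtain ⟨n, hn1, hn2⟩ := (h.and_eventually hs).exists
    exact ⟨n, hn2, hn1⟩
  refine ⟨Ultrafilter.of (atTop ⊓ 𝓟 {n | p n}), ?_, ?_⟩
  · exact (Ultrafilter.of_le _).trans inf_le_left
  · have h1 : ((Ultrafilter.of (atTop ⊓ 𝓟 {n | p n}) : Ultrafilter ℕ) : Filter ℕ) ≤
        𝓟 {n | p n} := (Ultrafilter.of_le _).trans inf_le_right
    exact h1 (mem_principal_self _)

end MFL_

theorem mfl_proof (hMFC : Stmt_MFC) (hSTG : Stmt_STG) (hDGT : Stmt_DGT) (hRPA : Stmt_RPA) :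
    Stmt_MFL := by
  intro k bs ξ μ x P hb hI hM hP0 hP C
  obtain ⟨s, B₁, hST⟩ := hSTG C
  have hlog : ∀ r i, 0 ≤ Real.log (bs r i) := fun r i => Real.log_natCast_nonneg _
  obtain ⟨lb, hlb0, hlb⟩ : ∃ lb : ℝ, 0 ≤ lb ∧ ∀ r i, Real.log (bs r i) ≤ lb := by
    refine ⟨∑ r, ∑ i, Real.log (bs r i), ?_, ?_⟩
    · exact Finset.sum_nonneg fun r _ => Finset.sum_nonneg fun i _ => hlog r i
    · intro r i
      have h1 : Real.log (bs r i) ≤ ∑ i, Real.log (bs r i) :=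
        Finset.single_le_sum (f := fun i => Real.log (bs r i)) (fun i _ => hlog r i)
          (Finset.mem_univ i)
      have h2 : (∑ i, Real.log (bs r i)) ≤ ∑ r, ∑ i, Real.log (bs r i) :=
        Finset.single_le_sum (f := fun r => ∑ i, Real.log (bs r i))
          (fun r _ => Finset.sum_nonneg fun i _ => hlog r i) (Finset.mem_univ r)
      exact h1.trans h2
  set B : ℝ := B₁ * lb + B₁ + 1 with hB
  have hB₁0 : (0 : ℝ) ≤ B₁ := Nat.cast_nonneg _
  have hB0 : 0 ≤ B := by positivity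
  obtain ⟨Λ₁, hR⟩ := hMFC k bs ξ μ x P hb hI hM hP0 hP s B hB0
  set K : ℕ := ⌈|Λ₁|⌉₊ with hK
  have hKΛ : Λ₁ ≤ K := (le_abs_self _).trans (Nat.le_ceil _)
  set Λ : ℕ := K + B₁ + 1 with hΛ
  obtain ⟨N, hN⟩ := hST Λ
  refine ⟨Λ, ?_⟩
  by_contra hcon
  have hfr : ∃ᶠ n in atTop, ¬ (C * n ≤ ∑ r, ∑ i, cnt (bs r i) (x r i) n (Λ * n)) :=
    Filter.not_eventually.1 hcon
  obtain ⟨U, hU, hUe⟩ := MFL_.exists_ultra _ hfr
  have key : ∀ (r : Fin 2) (i : Fin k) (n : ℕ), ∃ (L : ℕ) (q : Fin s → ℕ) (y : Fin s → ℤ),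
      8 ≤ n → ¬ (C * n ≤ ∑ r, ∑ i, cnt (bs r i) (x r i) n (Λ * n)) →
      K * n ≤ L ∧ L ≤ (K + B₁) * n ∧ (∀ j, 1 ≤ q j ∧ q j ≤ B₁ * n) ∧
      (∀ j, |y j| ≤ (|⌊x r i⌋| + 1) * (bs r i : ℤ) ^ (B₁ * n)) ∧
      ∃ F : Fin s → ℤ, (∀ j, Rep (bs r i) N (N * n) (F j)) ∧
        (∏ j, ((bs r i : ℤ) ^ q j - 1)) * ⌊x r i * (bs r i : ℝ) ^ L⌋ = ∑ j, F j * y j := by
    intro r i n
    by_cases h8 : 8 ≤ n
    swap
    · exact ⟨0, fun _ => 0, fun _ => 0, fun h => absurd h h8⟩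
    by_cases hc : C * n ≤ ∑ r, ∑ i, cnt (bs r i) (x r i) n (Λ * n)
    · exact ⟨0, fun _ => 0, fun _ => 0, fun _ h => absurd hc h⟩
    obtain ⟨hd, hfl, hcnt, -⟩ := hDGT (bs r i) (x r i) (hb r i)
    have h1 : cnt (bs r i) (x r i) n (Λ * n) ≤ C * n := by
      have h2 : cnt (bs r i) (x r i) n (Λ * n) ≤ ∑ i, cnt (bs r i) (x r i) n (Λ * n) :=
        Finset.single_le_sum (f := fun i => cnt (bs r i) (x r i) n (Λ * n))
          (fun i _ => Nat.zero_le _) (Finset.mem_univ i)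
      have h3 : (∑ i, cnt (bs r i) (x r i) n (Λ * n)) ≤
          ∑ r, ∑ i, cnt (bs r i) (x r i) n (Λ * n) :=
        Finset.single_le_sum (f := fun r => ∑ i, cnt (bs r i) (x r i) n (Λ * n))
          (fun r _ => Nat.zero_le _) (Finset.mem_univ r)
      omega
    have hu : ∀ l, (((dig (bs r i) (x r i) (l + 1)).toNat : ℕ) : ℤ) =
        dig (bs r i) (x r i) (l + 1) :=
      fun l => Int.toNat_of_nonneg (hd (l + 1)).1
    obtain ⟨q, y, hq, hy, hz⟩ := hN (bs r i) n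
      (fun l => (dig (bs r i) (x r i) (l + 1)).toNat)
      (fun l => ⌊x r i * (bs r i : ℝ) ^ l⌋) (hb r i) h8
      (fun l => by
        have h1 := (hd (l + 1)).2
        have h2 := hu l
        show (dig (bs r i) (x r i) (l + 1)).toNat < bs r i
        omega)
      (fun l => by
        show ⌊x r i * (bs r i : ℝ) ^ (l + 1)⌋ = bs r i * ⌊x r i * (bs r i : ℝ) ^ l⌋ +
          ((dig (bs r i) (x r i) (l + 1)).toNat : ℕ)
        rw [hfl l, hu l])
      (by rw [← hcnt]; exact h1)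
    have hzlt : K * n + B₁ * n < Λ * n := by
      have : Λ * n = K * n + B₁ * n + n := by rw [hΛ]; ring
      omega
    obtain ⟨L, hL1, hL2, F, hF, hid⟩ := hz (K * n) hzlt
    refine ⟨L, q, y, fun _ _ => ⟨hL1, ?_, hq, ?_, F, hF, hid⟩⟩
    · rw [add_mul]
      exact hL2
    · intro j
      have h2 := hy j
      simp only [pow_zero, mul_one] at h2
      exact h2
  choose L q y hLq using key
  have h8 : ∀ᶠ n : ℕ in (U : Filter ℕ), 8 ≤ n := hU (eventually_ge_atTop 8)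
  have hgood : ∀ᶠ n : ℕ in (U : Filter ℕ), 8 ≤ n ∧
      ¬ (C * n ≤ ∑ r, ∑ i, cnt (bs r i) (x r i) n (Λ * n)) := h8.and hUe
  refine hR U (fun r i n => L r i n) (fun r i j n => q r i n j) (fun r i j n => y r i n j)
    (max N Λ) hU ?_ ?_ ?_ ?_
  · intro r i
    filter_upwards [hgood] with n hn
    obtain ⟨h1, h2, -⟩ := hLq r i n hn.1 hn.2
    constructor
    · have h3 : (K : ℝ) * n ≤ (L r i n : ℝ) := by exact_mod_cast h1
      exact (mul_le_mul_of_nonneg_right hKΛ (Nat.cast_nonneg _)).trans h3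
    · refine h2.trans (Nat.mul_le_mul_right n ?_)
      have : K + B₁ ≤ Λ := by omega
      exact this.trans (le_max_right _ _)
  · intro r i j
    filter_upwards [hgood] with n hn
    obtain ⟨-, -, h3, -⟩ := hLq r i n hn.1 hn.2
    refine ⟨(h3 j).1, ?_⟩
    have h4 : (q r i n j : ℝ) ≤ (B₁ : ℝ) * n := by exact_mod_cast (h3 j).2
    refine h4.trans (mul_le_mul_of_nonneg_right ?_ (Nat.cast_nonneg _))
    have : 0 ≤ (B₁ : ℝ) * lb := by positivity
    rw [hB]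
    linarith
  · intro r i j
    have hbig : ∀ᶠ n : ℕ in (U : Filter ℕ), ((|⌊x r i⌋| : ℤ) : ℝ) + 1 ≤ Real.exp (n : ℝ) := by
      have h1 : Tendsto (fun n : ℕ => Real.exp (n : ℝ)) atTop atTop :=
        Real.tendsto_exp_atTop.comp tendsto_natCast_atTop_atTop
      exact hU (h1.eventually_ge_atTop _)
    filter_upwards [hgood, hbig] with n hn hn2
    obtain ⟨-, -, -, h4, -⟩ := hLq r i n hn.1 hn.2
    have h5 : (|(y r i n j : ℝ)|) ≤ (((|⌊x r i⌋| : ℤ) : ℝ) + 1) * (bs r i : ℝ) ^ (B₁ * n) := by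
      exact_mod_cast h4 j
    have hb0 : (0 : ℝ) < bs r i := by
      have : 0 < bs r i := by have := hb r i; omega
      exact_mod_cast this
    have h6 : (bs r i : ℝ) ^ (B₁ * n) ≤ Real.exp (B₁ * lb * n) := by
      have h7 : (B₁ : ℝ) * n * Real.log (bs r i) ≤ (B₁ : ℝ) * n * lb :=
        mul_le_mul_of_nonneg_left (hlb r i) (by positivity)
      have h9 : (bs r i : ℝ) ^ (B₁ * n) = Real.exp (((B₁ * n : ℕ) : ℝ) * Real.log (bs r i)) := by
        rw [Real.exp_nat_mul, Real.exp_log hb0]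
      rw [h9]
      refine Real.exp_le_exp.2 ?_
      push_cast
      linarith
    have h8' : (0 : ℝ) ≤ (bs r i : ℝ) ^ (B₁ * n) := by positivity
    calc |(y r i n j : ℝ)| ≤ (((|⌊x r i⌋| : ℤ) : ℝ) + 1) * (bs r i : ℝ) ^ (B₁ * n) := h5
      _ ≤ Real.exp (n : ℝ) * Real.exp (B₁ * lb * n) :=
          mul_le_mul hn2 h6 h8' (Real.exp_pos _).le
      _ = Real.exp ((n : ℝ) + B₁ * lb * n) := (Real.exp_add _ _).symm
      _ ≤ Real.exp (B * n) := by
          refine Real.exp_le_exp.2 ?_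
          rw [hB]
          have : 0 ≤ (B₁ : ℝ) * n := by positivity
          nlinarith
  · intro r i
    filter_upwards [hgood] with n hn
    obtain ⟨-, -, -, -, F, hF, hid⟩ := hLq r i n hn.1 hn.2
    refine ⟨F, fun j => ?_, hid⟩
    obtain ⟨-, -, hmono, -⟩ := hRPA
    exact hmono _ _ _ _ _ _ (le_max_left _ _) (Nat.mul_le_mul_right n (le_max_left _ _)) (hF j)

end Pool.Agent.SBT
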