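import Pool.Agent.SBT.StmtsM

set_option autoImplicit false

namespace Pool.Agent.SBT

namespace MLA_

/-- a minor of size `ρ` does not vanish -/
def Minor {R : Type} [CommRing R] {I : Type} {J : ℕ} (L : Matrix I (Fin J) R) (ρ : ℕ) : Prop :=
  ∃ (t : Fin ρ → I) (c : Fin ρ → Fin J), (L.submatrix t c).det ≠ 0

theorem inj {R : Type} [CommRing R] {I : Type} {J : ℕ} {L : Matrix I (Fin J) R} {ρ : ℕ}
    {t : Fin ρ → I} {c : Fin ρ → Fin J} (h : (L.submatrix t c).det ≠ 0) :
    Function.Injective c := by
  intro a b hab
  by_contra hne
  apply h
  apply Matrix.det_zero_of_column_eq hne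
  intro k
  simp [Matrix.submatrix_apply, hab]

end MLA_

open MLA_ in
theorem mla_proof : Stmt_MLA := by
  intro R _ _ I _ J L
  classical
  by_cases hJ : Minor L J
  · left
    obtain ⟨t, c, h⟩ := hJ
    have hc := inj h
    have hb : Function.Bijective c := Finite.injective_iff_bijective.1 hc
    refine ⟨t, ?_⟩
    intro h0
    apply h
    have : L.submatrix t c = (L.submatrix t id).submatrix id (Equiv.ofBijective c hb) := by
      ext i j
      simp [Matrix.submatrix_apply]
    rw [this, Matrix.det_permute', h0, mul_zero]
  · right
    have h0 : Minor L 0 := ⟨Fin.elim0, Fin.elim0, by simp⟩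
    obtain ⟨ρ, hρJ, hρ, hρ1⟩ : ∃ ρ, ρ < J ∧ Minor L ρ ∧ ¬ Minor L (ρ + 1) := by
      by_contra hcon
      push Not at hcon
      have hall : ∀ ρ, ρ ≤ J → Minor L ρ := by
        intro ρ
        induction ρ with
        | zero => intro _; exact h0
        | succ k ih => intro hk; exact hcon k (by omega) (ih (by omega))
      exact hJ (hall J le_rfl)
    obtain ⟨t, c, hdet⟩ := hρ
    have hc := inj hdet
    obtain ⟨j0, hj0⟩ : ∃ j0, j0 ∉ Set.range c := by
      by_contra hcon
      push Not at hcon
      have hs : Function.Surjective c := hcon
      have := Fintype.card_le_of_surjective c hs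
      simp at this
      omega
    set col : Fin (ρ + 1) → Fin J := Fin.cons j0 c with hcol
    have hcolinj : Function.Injective col := by
      rw [hcol, Fin.cons_injective_iff]
      exact ⟨hj0, hc⟩
    set D : Fin (ρ + 1) → R := fun k => (L.submatrix t (col ∘ k.succAbove)).det with hD
    set M : Fin J → R := fun j => ∑ k : Fin (ρ + 1), if col k = j then (-1) ^ (k : ℕ) * D k else 0
      with hM
    have hMcol : ∀ k, M (col k) = (-1) ^ (k : ℕ) * D k := by
      intro k
      simp only [hM]
      rw [Finset.sum_eq_single k]
      · simp
      · intro b _ hb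
        rw [if_neg]
        intro h
        exact hb (hcolinj h)
      · intro h; exact absurd (Finset.mem_univ k) h
    have hMnot : ∀ j, (∀ k, col k ≠ j) → M j = 0 := by
      intro j hj
      simp only [hM]
      apply Finset.sum_eq_zero
      intro k _
      rw [if_neg (hj k)]
    refine ⟨ρ, M, hρJ, ?_, ?_, ?_⟩
    · intro h
      have h1 : M (col 0) = 0 := by rw [h]; rfl
      rw [hMcol] at h1
      apply hdet
      have h2 : D 0 = 0 := by simpa using h1
      have h3 : col ∘ (0 : Fin (ρ + 1)).succAbove = c := by
        funext k
        simp [hcol]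
      have h5 : D 0 = (L.submatrix t c).det := by
        show (L.submatrix t (col ∘ (0 : Fin (ρ + 1)).succAbove)).det = _
        rw [h3]
      rw [← h5, h2]
    · funext i
      have hz : (L.submatrix (Fin.cons i t) col).det = 0 := by
        by_contra hne
        exact hρ1 ⟨Fin.cons i t, col, hne⟩
      rw [Matrix.det_succ_row_zero] at hz
      show ∑ j, L i j * M j = 0
      rw [← hz]
      simp only [hM, Finset.mul_sum]
      rw [Finset.sum_comm]
      apply Finset.sum_congr rfl
      intro k _
      rw [Finset.sum_eq_single (col k)]
      · rw [if_pos rfl]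
        have h4 : (L.submatrix (Fin.cons i t : Fin (ρ + 1) → I) col).submatrix Fin.succ k.succAbove
            = L.submatrix t (col ∘ k.succAbove) := by
          ext a b
          simp [Matrix.submatrix_apply]
        rw [h4]
        simp only [Matrix.submatrix_apply, Fin.cons_zero, hD]
        ring
      · intro j _ hj
        rw [if_neg (fun h => hj h.symm), mul_zero]
      · intro h; exact absurd (Finset.mem_univ _) h
    · intro j
      by_cases hj : ∃ k, col k = j
      · obtain ⟨k, rfl⟩ := hj
        right
        refine ⟨t, col ∘ k.succAbove, ?_⟩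
        rw [hMcol]
        rcases neg_one_pow_eq_or R (k : ℕ) with h | h
        · left; rw [h, one_mul]
        · right; rw [h, neg_one_mul]
      · left
        push Not at hj
        exact hMnot j hj

end Pool.Agent.SBT
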