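import Pool.Agent.SBT.StmtsM
import Pool.Agent.SBT.Api

/-!
# MPR: elimination among the products
-/

set_option autoImplicit false

namespace Pool.Agent.SBT

open Filter

namespace MPR_

theorem mon_add {r : ℕ} (g : Fin r → ℕ → ℚ) (a b : Fin r →₀ ℕ) (n : ℕ) :
    mon g (a + b) n = mon g a n * mon g b n := by
  unfold mon
  rw [← Finset.prod_mul_distrib]
  refine Finset.prod_congr rfl fun i _ => ?_
  rw [Finsupp.add_apply, pow_add]

theorem mon_zero {r : ℕ} (g : Fin r → ℕ → ℚ) (n : ℕ) : mon g 0 n = 1 := by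
  unfold mon
  simp

theorem support_one {r : ℕ} {e : Fin r →₀ ℕ} (he : e ∈ (1 : MvPolynomial (Fin r) ℚ).support) :
    e = 0 := by
  rw [MvPolynomial.mem_support_iff, MvPolynomial.coeff_one] at he
  by_contra h
  rw [if_neg (Ne.symm h)] at he
  exact he rfl

theorem ht_one {U : Ultrafilter ℕ} {S : Finset ℕ} {T : ℕ → ℝ} {r : ℕ} {g : Fin r → ℕ → ℚ} :
    Ht U S T g 0 (fun _ => 1) 1 := by
  intro e he
  rw [support_one he]
  refine Eventually.of_forall fun n v _ => ?_
  rw [mon_zero]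
  simp

theorem ht_mul {U : Ultrafilter ℕ} {S : Finset ℕ} {T : ℕ → ℝ} {r : ℕ} {g : Fin r → ℕ → ℚ}
    (hS : PS S) {κ κ' : ℝ} {ν ν' : ℕ → ℚ} {H H' : MvPolynomial (Fin r) ℚ}
    (h : Ht U S T g κ ν H) (h' : Ht U S T g κ' ν' H') :
    Ht U S T g (κ + κ') (fun n => ν n * ν' n) (H * H') := by
  classical
  intro e he
  obtain ⟨a, ha, b, hb, hab⟩ := Finset.mem_add.1 (MvPolynomial.support_mul H H' he)
  filter_upwards [h a ha, h' b hb] with n hn hn' v hv
  have hv' := place_of_mem hS hv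
  rw [← hab, mon_add, av_mul hv', av_mul hv', add_mul, Real.exp_add]
  calc av v (mon g a n) * av v (mon g b n)
      ≤ (Real.exp (κ * T n) * av v (ν n)) * (Real.exp (κ' * T n) * av v (ν' n)) :=
        mul_le_mul (hn v hv) (hn' v hv) (av_nonneg _ _)
          (mul_nonneg (Real.exp_pos _).le (av_nonneg _ _))
    _ = _ := by ring

theorem ht_prod {U : Ultrafilter ℕ} {S : Finset ℕ} {T : ℕ → ℝ} {r : ℕ} {g : Fin r → ℕ → ℚ}
    (hS : PS S) {ι : Type} (s : Finset ι) (κ : ℝ) (ν : ι → ℕ → ℚ)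
    (H : ι → MvPolynomial (Fin r) ℚ) (h : ∀ i, Ht U S T g κ (ν i) (H i)) :
    Ht U S T g (s.card * κ) (fun n => ∏ i ∈ s, ν i n) (∏ i ∈ s, H i) := by
  classical
  induction s using Finset.induction_on with
  | empty => simpa using ht_one
  | insert a s ha ih =>
    have h1 := ht_mul hS (h a) ih
    have e1 : κ + (s.card : ℝ) * κ = ((insert a s).card : ℝ) * κ := by
      rw [Finset.card_insert_of_notMem ha]
      push_cast
      ring
    have e2 : (fun n => ν a n * ∏ i ∈ s, ν i n) = fun n => ∏ i ∈ insert a s, ν i n := by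
      funext n
      rw [Finset.prod_insert ha]
    rw [e1, e2] at h1
    rw [Finset.prod_insert ha]
    exact h1

end MPR_

open MPR_ in
theorem mpr_proof (hEGM : Stmt_EGM) : Stmt_MPR := by
  classical
  intro U S T r d₀ d₁ g Z₀ Z₁ B hG hB hZ₀ hZ₁
  obtain ⟨eq, heq⟩ : ∃ e : Fin d₀ × Fin d₁ ≃ Fin (d₀ * d₁), e = finProdFinEquiv := ⟨_, rfl⟩
  set Y : Fin (d₀ * d₁) → ℕ → ℤ := fun q n => Z₀ (eq.symm q).1 n * Z₁ (eq.symm q).2 n with hY
  have hYb : ∀ᶠ n in (U : Filter ℕ), ∀ q, |(Y q n : ℝ)| ≤ Real.exp (2 * B * T n) := by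
    filter_upwards [hZ₀, hZ₁] with n h0 h1 q
    have e1 : Real.exp (2 * B * T n) = Real.exp (B * T n) * Real.exp (B * T n) := by
      rw [← Real.exp_add]
      congr 1
      ring
    rw [e1]
    simp only [hY]
    push_cast
    rw [abs_mul]
    exact mul_le_mul (h0 _) (h1 _) (abs_nonneg _) (Real.exp_pos _).le
  have hD : ∀ t : Fin d₀ × Fin d₁, Dsg U S T g {fun _ => 1} Y (Y (eq t)) 0 := by
    intro t
    refine ⟨1, fun q => if q = eq t then 1 else 0, fun _ => 1, one_ne_zero,
      fun _ => isU_one S, ?_, ?_, ?_⟩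
    · refine Eventually.of_forall fun n => ?_
      rw [Finset.sum_eq_single (eq t)]
      · dsimp only
        rw [if_pos rfl]
      · intro q _ hq
        dsimp only
        rw [if_neg hq]
        simp [ev]
      · intro h
        exact absurd (Finset.mem_univ _) h
    · exact ht_one
    · intro i e he
      refine ⟨fun _ => 1, rfl, ?_⟩
      by_cases hi : i = eq t
      · simp only [if_pos hi] at he
        rw [support_one he]
        refine Eventually.of_forall fun n v _ => ?_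
        rw [mon_zero]
        simp
      · simp only [if_neg hi] at he
        simp at he
  obtain ⟨d, Z, hd, hZ, hI, hE⟩ := hEGM U S T r (d₀ * d₁) (Fin d₀ × Fin d₁) g
    (fun _ => {fun _ => 1}) Y (fun t => Y (eq t)) (2 * B) 0 hG (by positivity) hYb hD
  obtain ⟨c, hc⟩ : ∃ c : ℝ, c = (d₀ : ℝ) * d₁ := ⟨_, rfl⟩
  have hc0 : ((d₀ * d₁ : ℕ) : ℝ) = c := by
    rw [hc]
    push_cast
    ring
  rw [hc0, zero_add] at hE
  rw [← hc]
  choose P₀ P ν h1 h2 h3 h4 h5 using hE
  have hH0 : ∀ t, Ht U S T g (c * (c * (2 * B) + 1)) (ν t) (P₀ t) := fun t => h4 t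
  have hHP : ∀ t w, Ht U S T g (c * (c * (2 * B) + 1)) (ν t) (P t w) := by
    intro t w e he
    obtain ⟨u, hu, hm⟩ := h5 t w e he
    filter_upwards [hm] with n hn v hv
    have := hn v hv
    rw [Set.mem_singleton_iff] at hu
    rw [hu] at this
    simpa using this
  have hcard : ((Finset.univ : Finset (Fin d₀ × Fin d₁)).card : ℝ) = c := by
    rw [Finset.card_univ, Fintype.card_prod, Fintype.card_fin, Fintype.card_fin]
    exact hc0
  refine ⟨d, Z, ∏ t, P₀ t, fun j k w => P (j, k) w * ∏ t ∈ Finset.univ.erase (j, k), P₀ t,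
    fun n => ∏ t, ν t n, hd, hZ, hI, ?_, ?_, ?_, ?_, ?_⟩
  · rw [Finset.prod_ne_zero_iff]
    exact fun t _ => h1 t
  · intro n
    exact isU_prod hG.prime _ _ fun t _ => h2 t n
  · have := ht_prod hG.prime Finset.univ _ ν P₀ hH0
    rw [hcard] at this
    exact this
  · intro j k w
    have h6 := ht_mul hG.prime (hHP (j, k) w)
      (ht_prod hG.prime (Finset.univ.erase (j, k)) _ ν P₀ hH0)
    have e1 : c * (c * (2 * B) + 1) +
        ((Finset.univ.erase ((j, k) : Fin d₀ × Fin d₁)).card : ℝ) * (c * (c * (2 * B) + 1)) =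
        c * (c * (c * (2 * B) + 1)) := by
      have h7 : (((Finset.univ : Finset (Fin d₀ × Fin d₁)).erase (j, k)).card : ℝ) + 1 = c := by
        rw [← hcard, ← Finset.card_erase_add_one (Finset.mem_univ ((j, k) : Fin d₀ × Fin d₁))]
        push_cast
        ring
      calc _ = ((((Finset.univ : Finset (Fin d₀ × Fin d₁)).erase (j, k)).card : ℝ) + 1) *
            (c * (c * (2 * B) + 1)) := by ring
        _ = _ := by rw [h7]
    have e2 : (fun n => ν (j, k) n * ∏ t ∈ Finset.univ.erase (j, k), ν t n) =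
        fun n => ∏ t, ν t n := by
      funext n
      exact Finset.mul_prod_erase Finset.univ (fun t => ν t n) (Finset.mem_univ (j, k))
    rw [e1, e2] at h6
    exact h6
  · intro j k
    filter_upwards [h3 (j, k)] with n hn
    have e1 : ((Y (eq (j, k)) n : ℤ) : ℚ) = (Z₀ j n : ℚ) * (Z₁ k n : ℚ) := by
      simp only [hY, Equiv.symm_apply_apply]
      push_cast
      ring
    rw [e1] at hn
    have e2 : ∏ t, P₀ t = P₀ (j, k) * ∏ t ∈ Finset.univ.erase (j, k), P₀ t :=
      (Finset.mul_prod_erase Finset.univ P₀ (Finset.mem_univ (j, k))).symm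
    have e3 : ∀ A A' : MvPolynomial (Fin r) ℚ, ev g n (A * A') = ev g n A * ev g n A' := by
      intro A A'
      simp [ev]
    rw [e2, e3]
    calc ev g n (P₀ (j, k)) * ev g n (∏ t ∈ Finset.univ.erase (j, k), P₀ t) *
          ((Z₀ j n : ℚ) * (Z₁ k n : ℚ))
        = (ev g n (P₀ (j, k)) * ((Z₀ j n : ℚ) * (Z₁ k n : ℚ))) *
          ev g n (∏ t ∈ Finset.univ.erase (j, k), P₀ t) := by ring
      _ = (∑ i, ev g n (P (j, k) i) * (Z i n : ℚ)) *
          ev g n (∏ t ∈ Finset.univ.erase (j, k), P₀ t) := by rw [hn]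
      _ = ∑ w, ev g n (P (j, k) w * ∏ t ∈ Finset.univ.erase (j, k), P₀ t) * (Z w n : ℚ) := by
          rw [Finset.sum_mul]
          refine Finset.sum_congr rfl fun w _ => ?_
          rw [e3]
          ring

end Pool.Agent.SBT
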