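import Pool.Agent.SBT.StmtsM
import Pool.Agent.SBT.ING
import Pool.Agent.SBT.Api

/-!
# MSD: the description of one side
-/

set_option autoImplicit false

namespace Pool.Agent.SBT

open Filter MvPolynomial

namespace MSD_

theorem mon_add {r : ℕ} (g : Fin r → ℕ → ℚ) (a b : Fin r →₀ ℕ) (n : ℕ) :
    mon g (a + b) n = mon g a n * mon g b n := by
  unfold mon
  rw [← Finset.prod_mul_distrib]
  refine Finset.prod_congr rfl fun i _ => ?_
  rw [Finsupp.add_apply, pow_add]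

theorem ht_mul {U : Ultrafilter ℕ} {S : Finset ℕ} {T : ℕ → ℝ} {r : ℕ} {g : Fin r → ℕ → ℚ}
    (hS : PS S) {κ κ' : ℝ} {ν ν' : ℕ → ℚ} {H H' : MvPolynomial (Fin r) ℚ}
    (h : Ht U S T g κ ν H) (h' : Ht U S T g κ' ν' H') :
    Ht U S T g (κ + κ') (fun n => ν n * ν' n) (H * H') := by
  classical
  intro e he
  obtain ⟨a, ha, b, hb, hab⟩ := Finset.mem_add.1 (MvPolynomial.support_mul H H' he)
  filter_upwards [h a ha, h' b hb] with n hn hn' v hv
  have hv' := place_of_mem hS hv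
  rw [← hab, mon_add, av_mul hv', av_mul hv', add_mul, Real.exp_add]
  calc av v (mon g a n) * av v (mon g b n)
      ≤ (Real.exp (κ * T n) * av v (ν n)) * (Real.exp (κ' * T n) * av v (ν' n)) :=
        mul_le_mul (hn v hv) (hn' v hv) (av_nonneg _ _)
          (mul_nonneg (Real.exp_pos _).le (av_nonneg _ _))
    _ = _ := by ring

open ING_ in
/-- the first description, without sizes of the coefficients on the right -/
theorem ingr {U : Ultrafilter ℕ} {S : Finset ℕ} {T : ℕ → ℝ} {r s : ℕ} {g : Fin r → ℕ → ℚ}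
    {y : Fin s → ℕ → ℤ} {R : ℕ → ℤ} {f₀ : ℕ → ℚ} {f : Fin s → ℕ → ℚ} {B : ℝ}
    (hGd : Gd U S T g) (hB : 0 ≤ B) (h1 : Lc U (Sm U S T B ∩ Gg U g) f₀)
    (h2 : ∀ i, Lc U (Gg U g) (f i)) (hne : ∀ᶠ n in (U : Filter ℕ), f₀ n ≠ 0)
    (hEq : ∀ᶠ n in (U : Filter ℕ), f₀ n * (R n : ℚ) = ∑ i, f i n * (y i n : ℚ)) :
    Dsg U S T g Set.univ y R (B + 1) := by
  obtain ⟨N₀, c₀, u₀, hu₀, hf₀⟩ := h1
  choose N c u hu hf using h2
  have hG₀ := fun t => (hu₀ t).2
  choose κ₀ e₀ hκ₀ he₀ using hG₀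
  choose κ e hκ he using hu
  have hPS := hGd.prime
  set ρ : Fin r →₀ ℕ := Finsupp.equivFunOnFinite.symm
    (fun i => ∑ t, (e₀ t i).natAbs + ∑ j, ∑ t, (e j t i).natAbs) with hρ
  have hρi : ∀ i, ρ i = ∑ t, (e₀ t i).natAbs + ∑ j, ∑ t, (e j t i).natAbs := fun i => rfl
  have hρ₀ : ∀ t i, 0 ≤ e₀ t i + ρ i := by
    intro t i
    have a1 : (e₀ t i).natAbs ≤ ∑ t, (e₀ t i).natAbs :=
      Finset.single_le_sum (f := fun t => (e₀ t i).natAbs) (fun _ _ => Nat.zero_le _)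
        (Finset.mem_univ t)
    have a2 := hρi i
    omega
  have hρ₁ : ∀ j t i, 0 ≤ e j t i + ρ i := by
    intro j t i
    have a1 : (e j t i).natAbs ≤ ∑ t, (e j t i).natAbs :=
      Finset.single_le_sum (f := fun t => (e j t i).natAbs) (fun _ _ => Nat.zero_le _)
        (Finset.mem_univ t)
    have a3 : ∑ t, (e j t i).natAbs ≤ ∑ j, ∑ t, (e j t i).natAbs :=
      Finset.single_le_sum (f := fun j => ∑ t, (e j t i).natAbs) (fun _ _ => Nat.zero_le _)
        (Finset.mem_univ j)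
    have a2 := hρi i
    omega
  have hν : ∀ n, mon g ρ n ≠ 0 := by
    intro n
    unfold mon
    exact Finset.prod_ne_zero_iff.2 fun i _ => pow_ne_zero _ (hGd.unit i n).ne_zero
  have hg0 : ∀ n i, g i n ≠ 0 := fun n i => (hGd.unit i n).ne_zero
  have hval₀ : ∀ᶠ n in (U : Filter ℕ),
      ev g n (∑ t, monomial (sh (e₀ t) ρ) ((c₀ t : ℚ) * κ₀ t)) = mon g ρ n * f₀ n := by
    have hall : ∀ᶠ n in (U : Filter ℕ), ∀ t, u₀ t n = κ₀ t * ∏ i, g i n ^ e₀ t i :=
      eventually_all.2 he₀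
    filter_upwards [hall, hf₀] with n hn hn'
    rw [ev_sum, hn', Finset.mul_sum]
    refine Finset.sum_congr rfl fun t _ => ?_
    rw [mon_sh g n (hg0 n) _ _ (hρ₀ t), hn t]
    ring
  have hval : ∀ᶠ n in (U : Filter ℕ), ∀ j,
      ev g n (∑ t, monomial (sh (e j t) ρ) ((c j t : ℚ) * κ j t)) = mon g ρ n * f j n := by
    have hall : ∀ᶠ n in (U : Filter ℕ), ∀ j t,
        u j t n = κ j t * ∏ i, g i n ^ e j t i :=
      eventually_all.2 fun j => eventually_all.2 (he j)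
    filter_upwards [hall, eventually_all.2 hf] with n hn hn' j
    rw [ev_sum, hn' j, Finset.mul_sum]
    refine Finset.sum_congr rfl fun t _ => ?_
    rw [mon_sh g n (hg0 n) _ _ (hρ₁ j t), hn j t]
    ring
  refine ⟨∑ t, monomial (sh (e₀ t) ρ) ((c₀ t : ℚ) * κ₀ t),
    fun j => ∑ t, monomial (sh (e j t) ρ) ((c j t : ℚ) * κ j t), fun n => mon g ρ n,
    ?_, ?_, ?_, ?_, ?_⟩
  · intro h0
    obtain ⟨n, hn1, hn2⟩ := (hval₀.and hne).exists
    rw [h0] at hn1
    unfold ev at hn1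
    rw [map_zero] at hn1
    rcases mul_eq_zero.1 hn1.symm with h | h
    · exact hν n h
    · exact hn2 h
  · intro n
    exact isU_prod hPS _ _ fun i _ => (hGd.unit i n).pow hPS _
  · filter_upwards [hval₀, hval, hEq] with n hn1 hn2 hn3
    rw [hn1]
    have e1 : ∑ i, ev g n (∑ t, monomial (sh (e i t) ρ) ((c i t : ℚ) * κ i t)) * (y i n : ℚ) =
        mon g ρ n * ∑ i, f i n * (y i n : ℚ) := by
      rw [Finset.mul_sum]
      refine Finset.sum_congr rfl fun i _ => ?_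
      rw [hn2 i]
      ring
    rw [e1, mul_assoc, hn3]
  · intro f' hf'
    obtain ⟨t, rfl⟩ := supp_sum _ _ f' hf'
    filter_upwards [size hGd (hκ₀ t) (he₀ t) (hρ₀ t), (hu₀ t).1.2] with n hn1 hn2 v hv
    have hv' := place_of_mem hPS hv
    refine comb (hn1 v hv) ?_
    rw [av_mul hv']
    exact mul_le_mul_of_nonneg_right (hn2 v hv) (av_nonneg _ _)
  · intro j f' hf'
    refine ⟨fun n => mon g f' n / mon g ρ n, Set.mem_univ _, ?_⟩
    filter_upwards [hGd.lim.eventually_ge_atTop 0] with n hn v hv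
    have e1 : mon g f' n / mon g ρ n * mon g ρ n = mon g f' n := div_mul_cancel₀ _ (hν n)
    rw [e1]
    have e2 : 1 ≤ Real.exp ((B + 1) * T n) := Real.one_le_exp (by positivity)
    calc av v (mon g f' n) = 1 * av v (mon g f' n) := (one_mul _).symm
      _ ≤ _ := mul_le_mul_of_nonneg_right e2 (av_nonneg _ _)

end MSD_

open MSD_

theorem msd_proof (hEGM : Stmt_EGM) : Stmt_MSD := by
  intro U S T r s g y R f₀ f B hGd hB hy h1 h2 hne hEq
  have hD : ∀ c : Fin 2, Dsg U S T g Set.univ y (R c) (B + 1) := fun c =>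
    ingr hGd hB h1 (h2 c) hne (hEq c)
  obtain ⟨d, Z, hd, hZ, hI, hE⟩ := hEGM U S T r s (Fin 2) g (fun _ => Set.univ) y R B (B + 1)
    hGd hB hy hD
  choose P₀ P ν a1 a2 a3 a4 a5 using hE
  have hHt : ∀ c, Ht U S T g (B + 1 + s * (s * B + 1)) (ν c) (P₀ c) := fun c => a4 c
  have evm : ∀ (n : ℕ) (A A' : MvPolynomial (Fin r) ℚ), ev g n (A * A') = ev g n A * ev g n A' := by
    intro n A A'
    simp [ev]
  refine ⟨d, Z, P₀ 0 * P₀ 1, fun c j => P₀ (1 - c) * P c j, fun n => ν 0 n * ν 1 n, hd, hZ, hI,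
    mul_ne_zero (a1 0) (a1 1), fun n => (a2 0 n).mul hGd.prime (a2 1 n), ?_, ?_⟩
  · have := ht_mul hGd.prime (hHt 0) (hHt 1)
    have e1 : B + 1 + s * (s * B + 1) + (B + 1 + s * (s * B + 1)) =
        2 * (B + 1 + s * (s * B + 1)) := by ring
    rw [e1] at this
    exact this
  · intro c
    have e2 : P₀ 0 * P₀ 1 = P₀ (1 - c) * P₀ c := by
      fin_cases c
      · show P₀ 0 * P₀ 1 = P₀ (1 - 0) * P₀ 0
        rw [sub_zero, mul_comm]
      · show P₀ 0 * P₀ 1 = P₀ (1 - 1) * P₀ 1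
        rw [sub_self]
    filter_upwards [a3 c] with n hn
    rw [e2, evm, mul_assoc, hn, Finset.mul_sum]
    refine Finset.sum_congr rfl fun j _ => ?_
    rw [evm]
    ring

end Pool.Agent.SBT
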