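import Pool.Agent.SBT.StmtsM
import Pool.Agent.SBT.Api

set_option autoImplicit false

namespace Pool.Agent.SBT

open Filter

namespace MSP_

theorem grp_pow {W : Set ℚ} (hW : IsGrp W) {x : ℚ} (hx : x ∈ W) (k : ℕ) : x ^ k ∈ W := by
  induction k with
  | zero => rw [pow_zero]; exact hW.1
  | succ k ih => rw [pow_succ]; exact hW.2.1 _ ih _ hx

theorem grp_prod {W : Set ℚ} (hW : IsGrp W) {ι : Type*} (s : Finset ι) (f : ι → ℚ)
    (h : ∀ i ∈ s, f i ∈ W) : ∏ i ∈ s, f i ∈ W := by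
  classical
  induction s using Finset.induction_on with
  | empty => rw [Finset.prod_empty]; exact hW.1
  | insert a s ha ih =>
    rw [Finset.prod_insert ha]
    exact hW.2.1 _ (h a (Finset.mem_insert_self a s)) _
      (ih fun i hi => h i (Finset.mem_insert_of_mem hi))

theorem grp_mon {W : Set ℚ} (hW : IsGrp W) {r : ℕ} {g : Fin r → ℕ → ℚ} (hg : ∀ i, g i ∈ Wv W)
    (e : Fin r →₀ ℕ) (n : ℕ) : mon g e n ∈ W :=
  grp_prod hW _ _ fun i _ => grp_pow hW (hg i n) _

theorem mon_append {r₀ r₁ : ℕ} (g₀ : Fin r₀ → ℕ → ℚ) (g₁ : Fin r₁ → ℕ → ℚ)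
    (e : Fin (r₀ + r₁) →₀ ℕ) (n : ℕ) :
    mon (Fin.append g₀ g₁) e n = mon g₀ (lft e) n * mon g₁ (rgt e) n := by
  unfold mon lft rgt
  rw [Fin.prod_univ_add]
  simp only [Fin.append_left, Fin.append_right, Finsupp.coe_equivFunOnFinite_symm]

/-- a unit which is at all places at most `E` times another one is also at least so large -/
theorem lower {S : Finset ℕ} (hS : PS S) {a b : ℚ} (ha : IsU S a) (hb : IsU S b) {E : ℝ}
    (h : ∀ v ∈ pl S, av v a ≤ E * av v b) :
    ∀ v ∈ pl S, av v b ≤ E ^ S.card * av v a := by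
  intro v hv
  have hp : ∀ w ∈ pl S, 0 < av w a := fun w hw => av_pos (place_of_mem hS hw) ha.ne_zero
  have hq : ∀ w ∈ pl S, 0 < av w b := fun w hw => av_pos (place_of_mem hS hw) hb.ne_zero
  have e1 : av v a * ∏ w ∈ (pl S).erase v, av w a = 1 := by
    rw [Finset.mul_prod_erase (pl S) (fun w => av w a) hv]
    exact ha.2
  have e2 : av v b * ∏ w ∈ (pl S).erase v, av w b = 1 := by
    rw [Finset.mul_prod_erase (pl S) (fun w => av w b) hv]
    exact hb.2
  have e3 : ∏ w ∈ (pl S).erase v, av w a ≤ E ^ S.card * ∏ w ∈ (pl S).erase v, av w b := by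
    have h1 : ∏ w ∈ (pl S).erase v, av w a ≤ ∏ w ∈ (pl S).erase v, (E * av w b) :=
      Finset.prod_le_prod (fun w hw => (hp w (Finset.mem_of_mem_erase hw)).le)
        fun w hw => h w (Finset.mem_of_mem_erase hw)
    rw [Finset.prod_mul_distrib, Finset.prod_const] at h1
    have h2 : ((pl S).erase v).card = S.card := by
      rw [Finset.card_erase_of_mem hv, pl, Finset.card_insert_of_notMem (zero_notMem hS)]
      rfl
    rwa [h2] at h1
  have p1 : 0 < ∏ w ∈ (pl S).erase v, av w a :=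
    Finset.prod_pos fun w hw => hp w (Finset.mem_of_mem_erase hw)
  have p2 : 0 < ∏ w ∈ (pl S).erase v, av w b :=
    Finset.prod_pos fun w hw => hq w (Finset.mem_of_mem_erase hw)
  have h3 := hp v hv
  have h4 := hq v hv
  -- `av v b = 1 / P_b`, `av v a = 1 / P_a`, `P_a ≤ E ^ card * P_b`
  have h5 : av v b * (∏ w ∈ (pl S).erase v, av w a) ≤ E ^ S.card := by
    calc av v b * (∏ w ∈ (pl S).erase v, av w a)
        ≤ av v b * (E ^ S.card * ∏ w ∈ (pl S).erase v, av w b) :=
          mul_le_mul_of_nonneg_left e3 h4.le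
      _ = E ^ S.card * (av v b * ∏ w ∈ (pl S).erase v, av w b) := by ring
      _ = E ^ S.card := by rw [e2, mul_one]
  calc av v b = av v b * (av v a * ∏ w ∈ (pl S).erase v, av w a) := by rw [e1, mul_one]
    _ = (av v b * ∏ w ∈ (pl S).erase v, av w a) * av v a := by ring
    _ ≤ E ^ S.card * av v a := mul_le_mul_of_nonneg_right h5 h3.le

/-- the place at infinity of a unit -/
theorem inf_le {S : Finset ℕ} (hS : PS S) {x : ℚ} (hx : IsU S x) {E : ℝ}
    (h : ∀ p ∈ S, 1 ≤ E * av p x) : av 0 x ≤ E ^ S.card := by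
  have e1 : av 0 x * ∏ p ∈ S, av p x = 1 := by
    rw [← prod_pl hS (fun v => av v x)]
    exact hx.2
  have h1 : (1 : ℝ) ≤ E ^ S.card * ∏ p ∈ S, av p x := by
    have h2 : ∏ _p ∈ S, (1 : ℝ) ≤ ∏ p ∈ S, (E * av p x) :=
      Finset.prod_le_prod (fun _ _ => zero_le_one) h
    rw [Finset.prod_mul_distrib, Finset.prod_const_one, Finset.prod_const] at h2
    exact h2
  have h0 := av_nonneg 0 x
  calc av 0 x = av 0 x * 1 := (mul_one _).symm
    _ ≤ av 0 x * (E ^ S.card * ∏ p ∈ S, av p x) := mul_le_mul_of_nonneg_left h1 h0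
    _ = E ^ S.card * (av 0 x * ∏ p ∈ S, av p x) := by ring
    _ = E ^ S.card := by rw [e1, mul_one]

theorem inf_ge {S : Finset ℕ} (hS : PS S) {x : ℚ} (hx : IsU S x) {E : ℝ}
    (h : ∀ p ∈ S, av p x ≤ E) : 1 ≤ E ^ S.card * av 0 x := by
  have e1 : av 0 x * ∏ p ∈ S, av p x = 1 := by
    rw [← prod_pl hS (fun v => av v x)]
    exact hx.2
  have h2 : ∏ p ∈ S, av p x ≤ ∏ _p ∈ S, E :=
    Finset.prod_le_prod (fun _ _ => av_nonneg _ _) h
  rw [Finset.prod_const] at h2
  calc (1 : ℝ) = av 0 x * ∏ p ∈ S, av p x := e1.symm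
    _ ≤ av 0 x * E ^ S.card := mul_le_mul_of_nonneg_left h2 (av_nonneg _ _)
    _ = E ^ S.card * av 0 x := mul_comm _ _

end MSP_

open MSP_ in
theorem msp_proof : Stmt_MSP := by
  intro S W₀ W₁ hS hW₀ hW₁ hU₀ hU₁ hSep
  obtain ⟨c, hc, hsep⟩ := hSep
  set k : ℝ := (S.card : ℝ) + 1 with hk
  have hk1 : 1 ≤ k := by
    rw [hk]
    have : (0 : ℝ) ≤ S.card := Nat.cast_nonneg _
    linarith
  have hck : 0 ≤ c * k := by positivity
  refine ⟨k * (1 + c * k), ?_, ?_⟩
  · nlinarith
  intro U T r₀ r₁ g₀ g₁ κ ν e e' hT hκ hg₀ hg₁ hν h1 h2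
  filter_upwards [h1, h2, hT.eventually_ge_atTop 0] with n b1 b2 hn
  rw [mon_append] at b1 b2
  -- the four units
  have mA : mon g₀ (lft e) n ∈ W₀ := grp_mon hW₀ hg₀ _ _
  have mA' : mon g₀ (lft e') n ∈ W₀ := grp_mon hW₀ hg₀ _ _
  have mB : mon g₁ (rgt e) n ∈ W₁ := grp_mon hW₁ hg₁ _ _
  have mB' : mon g₁ (rgt e') n ∈ W₁ := grp_mon hW₁ hg₁ _ _
  generalize mon g₀ (lft e) n = A at *
  generalize mon g₀ (lft e') n = A' at *
  generalize mon g₁ (rgt e) n = B at *
  generalize mon g₁ (rgt e') n = B' at *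
  have uA := hU₀ _ mA
  have uA' := hU₀ _ mA'
  have uB := hU₁ _ mB
  have uB' := hU₁ _ mB'
  have uAB := uA.mul hS uB
  have uAB' := uA'.mul hS uB'
  set t : ℝ := κ * T n with ht
  have ht0 : 0 ≤ t := mul_nonneg hκ hn
  -- ratios
  have l1 := lower hS uAB (hν n) b1
  have l2 := lower hS uAB' (hν n) b2
  have epow : Real.exp t ^ S.card * Real.exp t = Real.exp (k * t) := by
    rw [← Real.exp_nat_mul, ← Real.exp_add]
    congr 1
    rw [hk]
    ring
  have r1 : ∀ v ∈ pl S, av v (A * B) ≤ Real.exp (k * t) * av v (A' * B') := by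
    intro v hv
    calc av v (A * B) ≤ Real.exp t * av v (ν n) := b1 v hv
      _ ≤ Real.exp t * (Real.exp t ^ S.card * av v (A' * B')) :=
        mul_le_mul_of_nonneg_left (l2 v hv) (Real.exp_pos _).le
      _ = (Real.exp t ^ S.card * Real.exp t) * av v (A' * B') := by ring
      _ = Real.exp (k * t) * av v (A' * B') := by rw [epow]
  have r2 : ∀ v ∈ pl S, av v (A' * B') ≤ Real.exp (k * t) * av v (A * B) := by
    intro v hv
    calc av v (A' * B') ≤ Real.exp t * av v (ν n) := b2 v hv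
      _ ≤ Real.exp t * (Real.exp t ^ S.card * av v (A * B)) :=
        mul_le_mul_of_nonneg_left (l1 v hv) (Real.exp_pos _).le
      _ = (Real.exp t ^ S.card * Real.exp t) * av v (A * B) := by ring
      _ = Real.exp (k * t) * av v (A * B) := by rw [epow]
  have hpos : ∀ v ∈ pl S, 0 < av v A ∧ 0 < av v A' ∧ 0 < av v B ∧ 0 < av v B' := fun v hv =>
    ⟨av_pos (place_of_mem hS hv) uA.ne_zero, av_pos (place_of_mem hS hv) uA'.ne_zero,
      av_pos (place_of_mem hS hv) uB.ne_zero, av_pos (place_of_mem hS hv) uB'.ne_zero⟩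
  -- separation
  have hx : A / A' ∈ W₀ := by
    rw [div_eq_mul_inv]
    exact hW₀.2.1 _ mA _ (hW₀.2.2 _ mA')
  have hx' : B' / B ∈ W₁ := by
    rw [div_eq_mul_inv]
    exact hW₁.2.1 _ mB' _ (hW₁.2.2 _ mB)
  have hE : 0 ≤ k * t := mul_nonneg (by linarith) ht0
  have s1 := hsep _ hx _ hx' (k * t) hE (by
    intro p hp
    have hv := mem_pl_of_mem hp
    have hpl := place_of_mem hS hv
    obtain ⟨pA, pA', pB, pB'⟩ := hpos p hv
    rw [av_div hpl, av_div hpl]
    have q1 := r1 p hv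
    have q2 := r2 p hv
    rw [av_mul hpl, av_mul hpl] at q1 q2
    constructor
    · rw [div_le_iff₀ pA', mul_div_assoc', div_mul_eq_mul_div, le_div_iff₀ pB]
      linarith
    · rw [div_le_iff₀ pB, mul_div_assoc', div_mul_eq_mul_div, le_div_iff₀ pA']
      linarith)
  have uX : IsU S (A / A') := uA.div hS uA'
  -- bounds for `x = A / A'` at all places
  have E0 : 0 ≤ c * (k * t) := mul_nonneg hc.le hE
  have pw : Real.exp (c * (k * t)) ^ S.card ≤ Real.exp (c * k * (k * t)) := by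
    rw [← Real.exp_nat_mul]
    refine Real.exp_le_exp.2 ?_
    have : (S.card : ℝ) ≤ k := by
      rw [hk]
      linarith
    nlinarith
  have pw1 : Real.exp (c * (k * t)) ≤ Real.exp (c * k * (k * t)) := by
    refine Real.exp_le_exp.2 ?_
    nlinarith
  have u1 : ∀ v ∈ pl S, av v (A / A') ≤ Real.exp (c * k * (k * t)) := by
    intro v hv
    rcases mem_pl.1 hv with rfl | hv'
    · exact (inf_le hS uX fun p hp => (s1 p hp).2).trans pw
    · exact (s1 v hv').1.trans pw1
  have u2 : ∀ v ∈ pl S, 1 ≤ Real.exp (c * k * (k * t)) * av v (A / A') := by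
    intro v hv
    rcases mem_pl.1 hv with rfl | hv'
    · exact (inf_ge hS uX fun p hp => (s1 p hp).1).trans
        (mul_le_mul_of_nonneg_right pw (av_nonneg _ _))
    · exact (s1 v hv').2.trans (mul_le_mul_of_nonneg_right pw1 (av_nonneg _ _))
  have fin : Real.exp (k * (1 + c * k) * κ * T n) =
      Real.exp (k * t) * Real.exp (c * k * (k * t)) := by
    rw [← Real.exp_add]
    congr 1
    rw [ht]
    ring
  intro v hv
  have hpl := place_of_mem hS hv
  obtain ⟨pA, pA', pB, pB'⟩ := hpos v hv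
  have w1 := u1 v hv
  have w2 := u2 v hv
  rw [av_div hpl] at w1 w2
  rw [fin]
  have e1 : 1 ≤ Real.exp (k * t) := Real.one_le_exp hE
  constructor
  · rw [div_le_iff₀ pA'] at w1
    refine w1.trans ?_
    refine mul_le_mul_of_nonneg_right ?_ pA'.le
    exact le_mul_of_one_le_left (Real.exp_pos _).le e1
  · have q1 := r1 v hv
    rw [av_mul hpl, av_mul hpl] at q1
    rw [mul_div_assoc', le_div_iff₀ pA', one_mul] at w2
    -- `A B ≤ e^{kt} A' B'`, `A' ≤ e^{..} A`
    have q2 : av v A * av v B ≤ Real.exp (k * t) * (Real.exp (c * k * (k * t)) * av v A) *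
        av v B' := by
      refine q1.trans ?_
      have := mul_le_mul_of_nonneg_left w2 (mul_pos (Real.exp_pos (k * t)) pB').le
      nlinarith
    have q3 : av v A * av v B ≤ av v A *
        (Real.exp (k * t) * Real.exp (c * k * (k * t)) * av v B') := by
      refine q2.trans (le_of_eq ?_)
      ring
    exact le_of_mul_le_mul_left q3 pA

end Pool.Agent.SBT
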