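import Pool.Agent.SBT.Pi
import Pool.Agent.SBT.LCC
import Pool.Agent.SBT.EG1
import Pool.Agent.SBT.EGM
import Pool.Agent.SBT.SEP
import Pool.Agent.SBT.STG
import Pool.Agent.SBT.MHT
import Pool.Agent.SBT.MSM
import Pool.Agent.SBT.MLA
import Pool.Agent.SBT.MCF
import Pool.Agent.SBT.MSP
import Pool.Agent.SBT.MBG
import Pool.Agent.SBT.MSD
import Pool.Agent.SBT.MPR
import Pool.Agent.SBT.MCR
import Pool.Agent.SBT.MFC
import Pool.Agent.SBT.MFL
import Pool.Agent.SBT.MFF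

/-!
# The field theorem: assembly
-/

set_option autoImplicit false

namespace Pool.Agent.SBT

theorem EG1F_ : Stmt_EG1 := eg1_proof UNI_ S1T_
theorem EGMF_ : Stmt_EGM := egm_proof EG1F_
theorem MBG_ : Stmt_MBG := mbg_proof bas_proof
theorem MSD_ : Stmt_MSD := msd_proof EGMF_
theorem MPR_ : Stmt_MPR := mpr_proof EGMF_
theorem MCR_ : Stmt_MCR :=
  mcr_proof UNI_ S2T_ mht_proof msm_proof mla_proof mcf_proof msp_proof MBG_ MSD_ MPR_
theorem MFC_ : Stmt_MFC := mfc_proof MCR_ sep_proof lcc_proof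
theorem STGF_ : Stmt_STG := stg_proof STF_ rpa_proof
theorem MFL_ : Stmt_MFL := mfl_proof MFC_ STGF_ dgt_proof rpa_proof
theorem MFF_ : Stmt_MFF := mff_proof MFL_

/-- the field theorem for `π` -/
theorem pi_field (k l : ℕ) (a : Fin k → ℕ) (b : Fin l → ℕ) (x : Fin k → ℝ) (y : Fin l → ℝ)
    (ha : ∀ i, 2 ≤ a i) (hb : ∀ j, 2 ≤ b j) (hind : IndG a b)
    (hx : Real.pi ∈ IntermediateField.adjoin ℚ (Set.range x))
    (hy : Real.pi ∈ IntermediateField.adjoin ℚ (Set.range y)) (C : ℕ) :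
    ∃ Λ : ℕ, ∀ᶠ n : ℕ in Filter.atTop,
      C * n ≤ ∑ i, cnt (a i) (x i) n (Λ * n) + ∑ j, cnt (b j) (y j) n (Λ * n) :=
  MFF_ k l a b x y Real.pi 9 ha hb hind meas_pi hx hy C

end Pool.Agent.SBT
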