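import Pool.Agent.SBT.StmtsN
import Pool.Agent.SBT.MCR

/-!
# MCX: the core of the field theorem with an explicit constant
-/

set_option autoImplicit false

namespace Pool.Agent.SBT

open Filter

namespace MCX_

/-- the constant is bounded by a power of `s + 1` times `B + 1` -/
theorem bound {σ C μ s B : ℝ} (hσ : 0 ≤ σ) (hC : 1 ≤ C) (hμ : 0 ≤ μ) (hs : 0 ≤ s) (hB : 0 ≤ B) :
    MCR_.Lam σ C μ s B ≤ (6 * σ + 1 + ((6 * C + 2 + (6 * C * σ + 1)) +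
      ((2 + 2 * 6 + 3 + 5) + σ * 3 + 1 + ((C * 3 + 6 * C + 3 + 2 + (3 * σ + 1) + (6 * σ + 1) + 3) +
        6 * C + 1 + 3 + (6 * C * σ + 1) + μ * (6 * C * σ + 1 + (6 * C + 1 + 2)) + 1))) + 1 + 2) *
      ((s + 1) ^ 8 * (B + 1)) := by
  obtain ⟨x, hx⟩ : ∃ x : ℝ, x = s + 1 := ⟨_, rfl⟩
  obtain ⟨b, hb⟩ : ∃ b : ℝ, b = B + 1 := ⟨_, rfl⟩
  rw [← hx, ← hb]
  have hx1 : 1 ≤ x := by linarith
  have hb1 : 1 ≤ b := by linarith
  have hx0 : 0 ≤ x := by linarith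
  have hb0 : 0 ≤ b := by linarith
  obtain ⟨q, hq⟩ : ∃ q : ℝ, q = x ^ 8 * b := ⟨_, rfl⟩
  rw [← hq]
  have hpow : ∀ k : ℕ, k ≤ 8 → x ^ k * b ≤ q := by
    intro k hk
    rw [hq]
    exact mul_le_mul_of_nonneg_right (pow_le_pow_right₀ hx1 hk) hb0
  have hbq : b ≤ q := by simpa using hpow 0 (by norm_num)
  have h1q : 1 ≤ q := hb1.trans hbq
  have hBq : B ≤ q := by linarith
  have hsx : s ≤ x := by linarith
  have hBb : B ≤ b := by linarith
  have hss : s * s ≤ x * x := mul_le_mul hsx hsx hs hx0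
  have hss0 : 0 ≤ s * s := by positivity
  have hC0 : 0 ≤ C := by linarith
  have e0 : MCR_.k0 s B ≤ 6 * q := by
    unfold MCR_.k0
    have h1 : s * (s * B + 1) ≤ x * (x * b + x * b) := by
      have h2 : s * B ≤ x * b := mul_le_mul hsx hBb hB hx0
      have h3 : (1 : ℝ) ≤ x * b := by nlinarith
      exact mul_le_mul hsx (by linarith) (by positivity) hx0
    have h2 : x * (x * b + x * b) = 2 * (x ^ 2 * b) := by ring
    have h3 := hpow 2 (by norm_num)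
    linarith
  have e1' : MCR_.k1 s B ≤ 3 * (x ^ 6 * b) := by
    unfold MCR_.k1
    have h1 : (s * s) * (2 * B) ≤ (x * x) * (2 * b) :=
      mul_le_mul hss (by linarith) (by positivity) (by positivity)
    have h2 : (1 : ℝ) ≤ (x * x) * b := by nlinarith [mul_nonneg hx0 hb0]
    have h3 : (s * s) * (2 * B) + 1 ≤ 3 * ((x * x) * b) := by linarith
    have h4 : (s * s) * ((s * s) * (2 * B) + 1) ≤ (x * x) * (3 * ((x * x) * b)) :=
      mul_le_mul hss h3 (by positivity) (by positivity)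
    have h5 : (s * s) * ((s * s) * ((s * s) * (2 * B) + 1)) ≤
        (x * x) * ((x * x) * (3 * ((x * x) * b))) :=
      mul_le_mul hss h4 (by positivity) (by positivity)
    calc _ ≤ _ := h5
      _ = _ := by ring
  have e1 : MCR_.k1 s B ≤ 3 * q := by
    have := hpow 6 (by norm_num)
    linarith
  have k10 : 0 ≤ MCR_.k1 s B := by
    unfold MCR_.k1
    positivity
  have e9 : MCR_.k9 C s B ≤ 6 * C * q := by
    unfold MCR_.k9
    have h1 : C * MCR_.k1 s B ≤ C * (3 * (x ^ 6 * b)) := mul_le_mul_of_nonneg_left e1' hC0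
    have h2 : 2 * s * (C * MCR_.k1 s B) ≤ 2 * x * (C * (3 * (x ^ 6 * b))) :=
      mul_le_mul (by linarith) h1 (by positivity) (by positivity)
    have h3 : 2 * x * (C * (3 * (x ^ 6 * b))) = 6 * C * (x ^ 7 * b) := by ring
    rw [h3] at h2
    exact h2.trans (mul_le_mul_of_nonneg_left (hpow 7 (by norm_num)) (by positivity))
  have e2 : (s * s) * (2 * B) ≤ 2 * q := by
    have h1 : (s * s) * (2 * B) ≤ (x * x) * (2 * b) :=
      mul_le_mul hss (by linarith) (by positivity) (by positivity)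
    have h2 := hpow 2 (by norm_num)
    have h3 : (x * x) * (2 * b) = 2 * (x ^ 2 * b) := by ring
    linarith
  have f0 : MCR_.k0 s B * σ ≤ 6 * q * σ := mul_le_mul_of_nonneg_right e0 hσ
  have f1 : MCR_.k1 s B * σ ≤ 3 * q * σ := mul_le_mul_of_nonneg_right e1 hσ
  have f9 : MCR_.k9 C s B * σ ≤ 6 * C * q * σ := mul_le_mul_of_nonneg_right e9 hσ
  have fC : C * MCR_.k1 s B ≤ C * (3 * q) := mul_le_mul_of_nonneg_left e1 hC0
  have fμ : μ * (MCR_.k9 C s B * σ + 1 + (MCR_.k9 C s B + B + 2)) ≤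
      μ * (6 * C * q * σ + q + (6 * C * q + q + 2 * q)) := by
    apply mul_le_mul_of_nonneg_left _ hμ
    linarith
  have gμ : μ * (6 * C * q * σ + q + (6 * C * q + q + 2 * q)) =
      μ * (6 * C * σ + 1 + (6 * C + 1 + 2)) * q := by ring
  rw [gμ] at fμ
  have h2 : MCR_.L2 σ C μ s B ≤ ((C * 3 + 6 * C + 3 + 2 + (3 * σ + 1) + (6 * σ + 1) + 3) +
        6 * C + 1 + 3 + (6 * C * σ + 1) + μ * (6 * C * σ + 1 + (6 * C + 1 + 2)) + 1) * q := by
    unfold MCR_.L2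
    calc _ ≤ (C * (3 * q) + 6 * C * q + 3 * q + 2 * q + (3 * q * σ + q) + (6 * q * σ + q) +
          3 * q) + 6 * C * q + q + 3 * q + (6 * C * q * σ + q) +
          μ * (6 * C * σ + 1 + (6 * C + 1 + 2)) * q + q := by linarith
      _ = _ := by ring
  unfold MCR_.Lam
  have f1' : σ * MCR_.k1 s B ≤ 3 * q * σ := by linarith [mul_comm σ (MCR_.k1 s B)]
  calc _ ≤ 6 * q * σ + q + ((6 * C * q + 2 * q + (6 * C * q * σ + q)) +
        ((2 * q + 2 * (6 * q) + 3 * q + 5 * q) + 3 * q * σ + q +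
        ((C * 3 + 6 * C + 3 + 2 + (3 * σ + 1) + (6 * σ + 1) + 3) +
        6 * C + 1 + 3 + (6 * C * σ + 1) + μ * (6 * C * σ + 1 + (6 * C + 1 + 2)) + 1) * q)) + q +
        2 * q := by linarith
    _ = _ := by ring

end MCX_

theorem mcx_proof (hUNI : Stmt_UNI) (hS2T : Stmt_S2T) (_hMHT : Stmt_MHT) (hMSM : Stmt_MSM)
    (hMLA : Stmt_MLA) (hMCF : Stmt_MCF) (hMSP : Stmt_MSP) (hMBG : Stmt_MBG) (hMSD : Stmt_MSD)
    (hMPR : Stmt_MPR) : Stmt_MCX := by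
  intro S W ξ μ ρ hS hG hWU hSep hξ hρ1 hρ0
  obtain ⟨C, hC, h⟩ := MCR_.mcr_core hUNI hS2T hMSM hMLA hMCF hMSP hMBG hMSD hMPR S W ξ μ ρ hS hG
    hWU hSep hξ hρ1 hρ0
  obtain ⟨c, hc⟩ : ∃ c : ℝ, c = (6 * (S.card : ℝ) + 1 + ((6 * C + 2 + (6 * C * S.card + 1)) +
      ((2 + 2 * 6 + 3 + 5) + S.card * 3 + 1 + ((C * 3 + 6 * C + 3 + 2 + (3 * S.card + 1) +
        (6 * S.card + 1) + 3) + 6 * C + 1 + 3 + (6 * C * S.card + 1) +
        μ * (6 * C * S.card + 1 + (6 * C + 1 + 2)) + 1))) + 1 + 2) := ⟨_, rfl⟩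
  refine ⟨max 8 ⌈c⌉₊, fun s B Λ hB hΛ => h s B Λ hB (le_trans ?_ hΛ)⟩
  have h1 := MCX_.bound (σ := S.card) (C := C) (μ := μ) (s := s) (B := B) (Nat.cast_nonneg _) hC
    (Nat.cast_nonneg _) (Nat.cast_nonneg _) hB
  rw [← hc] at h1
  refine h1.trans ?_
  have hx1 : (1 : ℝ) ≤ (s : ℝ) + 1 := by
    have : (0 : ℝ) ≤ s := Nat.cast_nonneg _
    linarith
  have h2 : ((s : ℝ) + 1) ^ 8 ≤ ((s : ℝ) + 1) ^ (max 8 ⌈c⌉₊) :=
    pow_le_pow_right₀ hx1 (le_max_left _ _)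
  have h3 : c ≤ ((max 8 ⌈c⌉₊ : ℕ) : ℝ) := by
    refine (Nat.le_ceil c).trans ?_
    exact_mod_cast le_max_right _ _
  have hb0 : 0 ≤ B + 1 := by linarith
  rw [mul_assoc]
  apply mul_le_mul h3 (mul_le_mul_of_nonneg_right h2 hb0) (by positivity) (Nat.cast_nonneg _)

end Pool.Agent.SBT
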