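import Pool.Agent.SBT.StmtsN
import Pool.Agent.SBT.Api

/-!
# Squad SBT, module NAP: a number with few phrases and few errors in a window is described
-/

set_option autoImplicit false

namespace Pool.Agent.SBT

open Filter

namespace NAP_

theorem rep_nat (hRPA : Stmt_RPA) (b c : ℕ) : Rep b c 0 (c : ℤ) := by
  obtain ⟨h1, h2, h3, h4, h5, h6, h7⟩ := hRPA
  induction c with
  | zero => exact h5 b 0 0
  | succ c ih =>
    have := h1 b c 1 0 _ _ ih (h4 b 0)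
    push_cast
    simpa using this

theorem rep_int (hRPA : Stmt_RPA) (b : ℕ) (c : ℤ) : Rep b c.natAbs 0 c := by
  rcases Int.natAbs_eq c with h | h
  · have := rep_nat hRPA b c.natAbs
    rwa [← h] at this
  · have := hRPA.2.2.2.2.2.1 b _ _ _ (rep_nat hRPA b c.natAbs)
    rwa [← h] at this

theorem rep_sum (hRPA : Stmt_RPA) (b L : ℕ) (e : ℕ → ℤ) (m : ℕ → ℕ) (J : Finset ℕ)
    (he : ∀ j ∈ J, |e j| ≤ b) (hm : ∀ j ∈ J, m j ≤ L) :
    Rep b (J.card * b) L (∑ j ∈ J, e j * (b : ℤ) ^ m j) := by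
  classical
  obtain ⟨h1, h2, h3, h4, h5, h6, h7⟩ := id hRPA
  induction J using Finset.induction_on with
  | empty => simpa using h5 b 0 L
  | insert j J hj ih =>
    rw [Finset.sum_insert hj, Finset.card_insert_of_notMem hj]
    have g1 := ih (fun i hi => he i (Finset.mem_insert_of_mem hi))
      (fun i hi => hm i (Finset.mem_insert_of_mem hi))
    have g2 := h2 b _ _ _ _ _ _ (rep_int hRPA b (e j)) (h4 b (m j))
    have g3 : (e j).natAbs ≤ b := by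
      have := he j (Finset.mem_insert_self j J)
      rw [Int.abs_eq_natAbs] at this
      exact_mod_cast this
    have g4 := h3 b ((e j).natAbs * 1) b (0 + m j) L _ (by rw [mul_one]; exact g3)
      (by have := hm j (Finset.mem_insert_self j J); omega) g2
    have g5 := h1 b _ _ _ _ _ g4 g1
    have e1 : b + J.card * b = (J.card + 1) * b := by ring
    rwa [e1] at g5

/-- the value of the word of the digits `u` -/
def val (b : ℕ) (u : ℕ → ℤ) : ℕ → ℤ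
  | 0 => 0
  | i + 1 => b * val b u i + u i

theorem val_nonneg {b : ℕ} {u : ℕ → ℤ} (hu : ∀ i, 0 ≤ u i ∧ u i < b) (i : ℕ) :
    0 ≤ val b u i ∧ val b u i + 1 ≤ (b : ℤ) ^ i := by
  induction i with
  | zero => simp [val]
  | succ i ih =>
    obtain ⟨h1, h2⟩ := ih
    obtain ⟨h3, h4⟩ := hu i
    have h5 : (0 : ℤ) ≤ b := by positivity
    have h6 := mul_nonneg h5 h1
    have h7 := mul_le_mul_of_nonneg_left h2 h5
    have e1 : val b u (i + 1) = b * val b u i + u i := rfl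
    rw [e1, pow_succ]
    constructor
    · linarith
    · nlinarith

theorem val_abs {b : ℕ} {e : ℕ → ℤ} (he : ∀ i, |e i| + 1 ≤ b) (i : ℕ) :
    |val b e i| + 1 ≤ (b : ℤ) ^ i := by
  induction i with
  | zero => simp [val]
  | succ i ih =>
    have h5 : (0 : ℤ) ≤ b := by positivity
    have h7 := mul_le_mul_of_nonneg_left ih h5
    have e1 : val b e (i + 1) = b * val b e i + e i := rfl
    have h8 : |(b : ℤ) * val b e i + e i| ≤ b * |val b e i| + |e i| := by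
      have := abs_add_le ((b : ℤ) * val b e i) (e i)
      rwa [abs_mul, abs_of_nonneg h5] at this
    have h9 := he i
    rw [e1, pow_succ]
    nlinarith

theorem val_add (b : ℕ) (e : ℕ → ℤ) (n t : ℕ) :
    val b e (n + t) = (b : ℤ) ^ t * val b e n +
      ∑ j ∈ Finset.range t, e (n + j) * (b : ℤ) ^ (t - 1 - j) := by
  induction t with
  | zero => simp
  | succ t ih =>
    have e1 : val b e (n + (t + 1)) = b * val b e (n + t) + e (n + t) := rfl
    rw [e1, ih, Finset.sum_range_succ]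
    have e2 : ∑ j ∈ Finset.range t, e (n + j) * (b : ℤ) ^ (t + 1 - 1 - j) =
        b * ∑ j ∈ Finset.range t, e (n + j) * (b : ℤ) ^ (t - 1 - j) := by
      rw [Finset.mul_sum]
      apply Finset.sum_congr rfl
      intro j hj
      have hj' := Finset.mem_range.1 hj
      have e3 : t + 1 - 1 - j = (t - 1 - j) + 1 := by omega
      rw [e3, pow_succ]
      ring
    rw [e2]
    have e4 : t + 1 - 1 - t = 0 := by omega
    rw [e4, pow_zero, pow_succ]
    ring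


/-- the description at one place -/
theorem point (hNST : Stmt_NST) (hDGT : Stmt_DGT) (hRPA : Stmt_RPA) (b M Λ : ℕ) (y : ℝ)
    (hb : 2 ≤ b) (hΛ : 1 ≤ Λ) : ∃ N' W : ℕ, ∀ n N : ℕ, 1 ≤ n → Λ * n ≤ N →
    (∃ (u : ℕ → ℤ) (k : ℕ) (p : ℕ → ℕ),
      (∀ i, 0 ≤ u i ∧ u i < b) ∧ Phr u N k p ∧
      ((Finset.range k).filter fun j => n ≤ p j ∧ p j < Λ * n).card ≤ M ∧
      ((Finset.range (Λ * n)).filter fun i => n ≤ i ∧ dig b y (i + 1) ≠ u i).card ≤ M) →
    ∃ (q : Fin (M + 1) → ℕ) (F z : Fin (2 * M + 3 + 1 + 1) → ℤ), (∀ i, 1 ≤ q i ∧ q i ≤ n) ∧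
      (∀ i, Rep b N' (W * n) (F i)) ∧ (∀ i, |z i| ≤ (b : ℤ) ^ n) ∧
      (∏ i, ((b : ℤ) ^ q i - 1)) * ⌊y * (b : ℝ) ^ (Λ * n)⌋ = ∑ i, F i * z i := by
  classical
  obtain ⟨R, hR⟩ := hNST b M Λ hb
  obtain ⟨h1, h2, h3, h4, h5, h6, h7⟩ := id hRPA
  obtain ⟨hd1, hd2, -, -⟩ := hDGT b y hb
  refine ⟨R + 2 ^ (M + 1) * ⌊y⌋.natAbs + 2 ^ (M + 1) * (M * b) + 2 ^ (M + 1),
    R + (M + 1) + Λ, ?_⟩
  rintro n N hn hLN ⟨u, k, p, hu, hphr, hcard, herr⟩
  obtain ⟨L, hL⟩ : ∃ L, L = Λ * n := ⟨_, rfl⟩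
  rw [← hL] at hcard herr hLN ⊢
  have hnL : n ≤ L := by
    rw [hL]
    exact Nat.le_mul_of_pos_left n hΛ
  obtain ⟨q, x, F, F₀, hq, hx, hF, hF₀, heq⟩ := hR N k n L u p (val b u) hu (fun i => rfl) hphr hn
    hnL hL.le hLN (le_trans (Finset.card_le_card (by
      intro j hj
      rw [Finset.mem_filter] at hj ⊢
      exact ⟨hj.1, hj.2.1.le, hj.2.2⟩)) hcard)
  obtain ⟨D, hD⟩ : ∃ D : ℤ, D = ∏ i, ((b : ℤ) ^ q i - 1) := ⟨_, rfl⟩
  rw [← hD] at heq
  -- the errors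
  obtain ⟨e, he⟩ : ∃ e : ℕ → ℤ, ∀ i, e i = dig b y (i + 1) - u i := ⟨_, fun _ => rfl⟩
  have heb : ∀ i, |e i| + 1 ≤ b := by
    intro i
    have g1 := hd1 (i + 1)
    have g2 := hu i
    rw [he i]
    have g3 : |dig b y (i + 1) - u i| ≤ b - 1 := by
      rw [abs_le]
      constructor <;> linarith [g1.1, g1.2, g2.1, g2.2]
    linarith
  have hA : ∀ i, ⌊y * (b : ℝ) ^ i⌋ = (b : ℤ) ^ i * ⌊y⌋ + val b u i + val b e i := by
    intro i
    induction i with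
    | zero => simp [val]
    | succ i ih =>
      rw [hd2 i, ih]
      have e1 : val b e (i + 1) = b * val b e i + e i := rfl
      have e2 : val b u (i + 1) = b * val b u i + u i := rfl
      rw [e1, e2, he i, pow_succ]
      ring
  obtain ⟨t, ht⟩ : ∃ t, L = n + t := ⟨L - n, by omega⟩
  obtain ⟨G, hG⟩ : ∃ G : ℤ, G = ∑ j ∈ Finset.range t, e (n + j) * (b : ℤ) ^ (t - 1 - j) :=
    ⟨_, rfl⟩
  have hEL : val b e L = (b : ℤ) ^ t * val b e n + G := by
    rw [ht, val_add, hG]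
  have hGrep : Rep b (M * b) L G := by
    have g1 : G = ∑ j ∈ (Finset.range t).filter (fun j => e (n + j) ≠ 0),
        e (n + j) * (b : ℤ) ^ (t - 1 - j) := by
      rw [hG, Finset.sum_filter]
      apply Finset.sum_congr rfl
      intro j _
      split_ifs with h
      · rfl
      · push Not at h
        rw [h, zero_mul]
    have g2 := rep_sum hRPA b L (fun j => e (n + j)) (fun j => t - 1 - j)
      ((Finset.range t).filter (fun j => e (n + j) ≠ 0))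
      (fun j _ => by have := heb (n + j); linarith) (fun j _ => by omega)
    rw [← g1] at g2
    have g3 : ((Finset.range t).filter (fun j => e (n + j) ≠ 0)).card ≤ M := by
      refine le_trans ?_ herr
      apply Finset.card_le_card_of_injOn (fun j => n + j)
      · intro j hj
        rw [Finset.mem_coe, Finset.mem_filter, Finset.mem_range] at hj
        rw [Finset.mem_coe, Finset.mem_filter, Finset.mem_range]
        change n + j < L ∧ n ≤ n + j ∧ dig b y (n + j + 1) ≠ u (n + j)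
        refine ⟨by omega, by omega, ?_⟩
        intro hcon
        apply hj.2
        rw [he, hcon, sub_self]
      · intro i _ j _ hij
        simpa using hij
    exact h3 b _ _ _ _ _ (Nat.mul_le_mul_right b g3) le_rfl g2
  -- exponents
  have hqs : ∑ i, q i ≤ (M + 1) * n := by
    have g1 : ∑ i, q i ≤ ∑ _i : Fin (M + 1), n := Finset.sum_le_sum (fun i _ => (hq i).2)
    rwa [Finset.sum_const, Finset.card_univ, Fintype.card_fin, smul_eq_mul] at g1
  have hW : (R + (M + 1) + Λ) * n = R * n + (M + 1) * n + L := by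
    rw [hL]
    ring
  rw [hW]
  have hDrep : Rep b (2 ^ (M + 1)) ((M + 1) * n) D := by
    have := h7 b (M + 1) q
    rw [← hD] at this
    exact h3 b _ _ _ _ _ le_rfl hqs this
  have hDL : ∀ s ≤ L, Rep b (2 ^ (M + 1)) ((M + 1) * n + L) (D * (b : ℤ) ^ s) := by
    intro s hs
    have := h2 b _ _ _ _ _ _ hDrep (h4 b s)
    exact h3 b (2 ^ (M + 1) * 1) _ ((M + 1) * n + s) _ _ (by rw [mul_one]) (by omega) this
  have hbn : (1 : ℤ) ≤ (b : ℤ) ^ n := one_le_pow₀ (by exact_mod_cast (by omega : 1 ≤ b))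
  obtain ⟨E, hE⟩ : ∃ E, E = 2 ^ (M + 1) := ⟨_, rfl⟩
  obtain ⟨E₁, hE₁⟩ : ∃ E₁, E₁ = E * ⌊y⌋.natAbs := ⟨_, rfl⟩
  obtain ⟨E₂, hE₂⟩ : ∃ E₂, E₂ = E * (M * b) := ⟨_, rfl⟩
  obtain ⟨V₁, hV₁⟩ : ∃ V₁, V₁ = (M + 1) * n := ⟨_, rfl⟩
  obtain ⟨V₂, hV₂⟩ : ∃ V₂, V₂ = R * n := ⟨_, rfl⟩
  rw [← hE] at hDL hDrep
  rw [← hV₁] at hDL hDrep
  rw [← hE, ← hE₁, ← hE₂, ← hV₁, ← hV₂]
  rw [← hV₂] at hF₀ hF
  refine ⟨q,
    Fin.cons (F₀ + D * (b : ℤ) ^ L * ⌊y⌋ + D * G) (Fin.cons (D * (b : ℤ) ^ t) F),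
    Fin.cons 1 (Fin.cons (val b e n) (fun i => val b u (x i))), hq, ?_, ?_, ?_⟩
  · intro i
    refine Fin.cases ?_ (fun i => ?_) i
    · rw [Fin.cons_zero]
      have g1 := h2 b _ _ _ _ _ _ (hDL L le_rfl) (rep_int hRPA b ⌊y⌋)
      have g2 := h2 b _ _ _ _ _ _ hDrep hGrep
      rw [← hE₁] at g1
      rw [← hE₂] at g2
      have g3 := h3 b E₁ E₁ (V₁ + L + 0) (V₂ + V₁ + L) _ le_rfl (by omega) g1
      have g4 := h3 b E₂ E₂ (V₁ + L) (V₂ + V₁ + L) _ le_rfl (by omega) g2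
      have g5 := h3 b R R V₂ (V₂ + V₁ + L) _ le_rfl (by omega) hF₀
      have g6 := h1 b _ _ _ _ _ (h1 b _ _ _ _ _ g5 g3) g4
      exact h3 b (R + E₁ + E₂) _ _ _ _ (by omega) le_rfl g6
    · rw [Fin.cons_succ]
      refine Fin.cases ?_ (fun i => ?_) i
      · rw [Fin.cons_zero]
        exact h3 b E _ (V₁ + L) _ _ (by omega) (by omega) (hDL t (by omega))
      · rw [Fin.cons_succ]
        exact h3 b R _ V₂ _ _ (by omega) (by omega) (hF i)
  · intro i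
    refine Fin.cases ?_ (fun i => ?_) i
    · rw [Fin.cons_zero, abs_one]
      exact hbn
    · rw [Fin.cons_succ]
      refine Fin.cases ?_ (fun i => ?_) i
      · rw [Fin.cons_zero]
        have := val_abs heb n
        linarith
      · rw [Fin.cons_succ]
        obtain ⟨g1, g2⟩ := val_nonneg hu (x i)
        rw [abs_of_nonneg g1]
        have g3 : (b : ℤ) ^ x i ≤ (b : ℤ) ^ n :=
          pow_le_pow_right₀ (by exact_mod_cast (by omega : 1 ≤ b)) (hx i)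
        linarith
  · rw [← hD, Fin.sum_univ_succ, Fin.sum_univ_succ]
    simp only [Fin.cons_zero, Fin.cons_succ]
    rw [hA L, hEL]
    linear_combination heq

/-- powers of an element of a group -/
theorem pow_mem' {W : Set ℚ} (hW : IsGrp W) {x : ℚ} (hx : x ∈ W) (m : ℕ) : x ^ m ∈ W := by
  induction m with
  | zero => rw [pow_zero]; exact hW.1
  | succ m ih => rw [pow_succ]; exact hW.2.1 _ ih _ hx

/-- size of a power of a natural number -/
theorem av_pow_le {v : ℕ} (hv : v = 0 ∨ v.Prime) {b : ℕ} (hb : 2 ≤ b) (m : ℕ) {c : ℝ}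
    (hc : m * Real.log b ≤ c) : av v ((b : ℚ) ^ m) ≤ Real.exp c := by
  have h1 : ((b : ℚ) ^ m) = (((b : ℤ) ^ m : ℤ) : ℚ) := by push_cast; rfl
  rw [h1]
  refine (av_int_le_abs hv _).trans ?_
  have hbR : (0 : ℝ) < (b : ℝ) := by exact_mod_cast (by omega : 0 < b)
  have h2 : |(((b : ℤ) ^ m : ℤ) : ℝ)| = (b : ℝ) ^ m := by
    push_cast
    exact abs_of_pos (pow_pos hbR _)
  rw [h2]
  have h3 : (b : ℝ) ^ m = Real.exp (m * Real.log b) := by
    rw [mul_comm, Real.exp_mul, Real.exp_log hbR, Real.rpow_natCast]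
  rw [h3]
  exact Real.exp_le_exp.2 hc

/-- a power of `b` with a small exponent is small -/
theorem pow_sm (U : Ultrafilter ℕ) (S : Finset ℕ) (W : Set ℚ) (b : ℕ) (n q : ℕ → ℕ) (hS : PS S)
    (hW : IsGrp W) (hWS : ∀ w ∈ W, IsU S w) (hbW : (b : ℚ) ∈ W) (hb : 2 ≤ b) (c : ℝ)
    (hq : ∀ᶠ t in (U : Filter ℕ), (q t : ℝ) * Real.log b ≤ c * n t) :
    (fun t => (b : ℚ) ^ q t) ∈ Sm U S (fun t => (n t : ℝ)) c ∩ Wv W := by
  refine ⟨⟨fun t => (hWS _ hbW).pow hS _, ?_⟩, fun t => pow_mem' hW hbW _⟩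
  filter_upwards [hq] with t h v hv
  exact av_pow_le (place_of_mem hS hv) hb _ h

/-- the product of the factors `b ^ q - 1` -/
theorem prod_lc (hLCC : Stmt_LCC) (U : Ultrafilter ℕ) (S : Finset ℕ) (W : Set ℚ) (b : ℕ)
    (n : ℕ → ℕ) (hS : PS S) (hW : IsGrp W) (hWS : ∀ w ∈ W, IsU S w) (hbW : (b : ℚ) ∈ W)
    (hb : 2 ≤ b) (J : ℕ) (q : ℕ → Fin J → ℕ)
    (hq : ∀ᶠ t in (U : Filter ℕ), ∀ i, q t i ≤ n t) :
    Lc U (Sm U S (fun t => (n t : ℝ)) (J * Real.log b) ∩ Wv W)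
      (fun t => ∏ i, ((b : ℚ) ^ q t i - 1)) := by
  obtain ⟨l1, l2, l3, l4, l5, l6, l7, l8⟩ := hLCC U
  have hlog : 0 ≤ Real.log b := Real.log_nonneg (by exact_mod_cast (by omega : 1 ≤ b))
  induction J with
  | zero =>
    have h1 : (fun t => (b : ℚ) ^ ((fun _ => 0 : ℕ → ℕ) t)) ∈
        Sm U S (fun t => (n t : ℝ)) (((0 : ℕ) : ℝ) * Real.log b) ∩ Wv W :=
      pow_sm U S W b n (fun _ => 0) hS hW hWS hbW hb _ (Eventually.of_forall fun t => by simp)
    refine l7 _ _ _ (l6 _ _ h1) (Eventually.of_forall fun t => by simp)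
  | succ J ih =>
    have h1 := ih (fun t i => q t i.succ) (hq.mono fun t h i => h i.succ)
    have h2 : (fun t => (b : ℚ) ^ q t 0) ∈
        Sm U S (fun t => (n t : ℝ)) (Real.log b) ∩ Wv W := by
      refine pow_sm U S W b n (fun t => q t 0) hS hW hWS hbW hb _ (hq.mono fun t h => ?_)
      have h3 : ((q t 0 : ℕ) : ℝ) ≤ n t := by exact_mod_cast h 0
      nlinarith
    have h3 : (fun t => (b : ℚ) ^ ((fun _ => 0 : ℕ → ℕ) t)) ∈
        Sm U S (fun t => (n t : ℝ)) (Real.log b) ∩ Wv W := by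
      refine pow_sm U S W b n (fun _ => 0) hS hW hWS hbW hb _ (Eventually.of_forall fun t => ?_)
      have : (0 : ℝ) ≤ n t := Nat.cast_nonneg _
      simp only [Nat.cast_zero, zero_mul]
      positivity
    have h4 : Lc U (Sm U S (fun t => (n t : ℝ)) (Real.log b) ∩ Wv W)
        (fun t => (b : ℚ) ^ q t 0 - 1) := by
      refine l7 _ _ _ (l2 _ _ _ (l6 _ _ h2) (l5 _ _ (-1) (l6 _ _ h3)))
        (Eventually.of_forall fun t => ?_)
      simp only [Pi.add_apply, pow_zero]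
      push_cast
      ring
    have h5 := l3 _ _ (Sm U S (fun t => (n t : ℝ)) (((J + 1 : ℕ) : ℝ) * Real.log b) ∩ Wv W) _ _ h4
      h1 ?_
    · refine l7 _ _ _ h5 (Eventually.of_forall fun t => ?_)
      simp only [Pi.mul_apply]
      rw [Fin.prod_univ_succ]
    · rintro u ⟨⟨hu1, hu2⟩, hu3⟩ u' ⟨⟨hu1', hu2'⟩, hu3'⟩
      refine ⟨⟨fun t => (hu1 t).mul hS (hu1' t), ?_⟩, fun t => hW.2.1 _ (hu3 t) _ (hu3' t)⟩
      filter_upwards [hu2, hu2'] with t g1 g2 v hv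
      have g3 := g1 v hv
      have g4 := g2 v hv
      rw [Pi.mul_apply, av_mul (place_of_mem hS hv)]
      have e1 : Real.exp (((J + 1 : ℕ) : ℝ) * Real.log b * n t) =
          Real.exp (Real.log b * n t) * Real.exp (J * Real.log b * n t) := by
        rw [← Real.exp_add]
        congr 1
        push_cast
        ring
      rw [e1]
      exact mul_le_mul g3 g4 (av_nonneg _ _) (Real.exp_pos _).le

end NAP_

open NAP_ in
theorem nap_proof (hNST : Stmt_NST) (hDGT : Stmt_DGT) (hRPA : Stmt_RPA) (hLCC : Stmt_LCC) :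
    Stmt_NAP := by
  classical
  intro S W b M Λ x U n N hS hW hWS hbW hb hΛ hn hev
  obtain ⟨N', W', hpt⟩ := point hNST hDGT hRPA b M Λ x hb hΛ
  have hn1 : ∀ᶠ t in (U : Filter ℕ), 1 ≤ n t := hn.eventually (eventually_ge_atTop 1)
  have hex : ∀ t, ∃ (q : Fin (M + 1) → ℕ) (F z : Fin (2 * M + 3 + 1 + 1) → ℤ),
      (1 ≤ n t → (Λ * n t ≤ N t ∧ ∃ (u : ℕ → ℤ) (k : ℕ) (p : ℕ → ℕ),
        (∀ i, 0 ≤ u i ∧ u i < b) ∧ Phr u (N t) k p ∧
        ((Finset.range k).filter fun j => n t ≤ p j ∧ p j < Λ * n t).card ≤ M ∧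
        ((Finset.range (Λ * n t)).filter fun i => n t ≤ i ∧ dig b x (i + 1) ≠ u i).card ≤ M) →
      (∀ i, 1 ≤ q i ∧ q i ≤ n t) ∧
      (∀ i, Rep b N' (W' * n t) (F i)) ∧ (∀ i, |z i| ≤ (b : ℤ) ^ n t) ∧
      (∏ i, ((b : ℤ) ^ q i - 1)) * ⌊x * (b : ℝ) ^ (Λ * n t)⌋ = ∑ i, F i * z i) := by
    intro t
    by_cases h : 1 ≤ n t ∧ (Λ * n t ≤ N t ∧ ∃ (u : ℕ → ℤ) (k : ℕ) (p : ℕ → ℕ),
        (∀ i, 0 ≤ u i ∧ u i < b) ∧ Phr u (N t) k p ∧
        ((Finset.range k).filter fun j => n t ≤ p j ∧ p j < Λ * n t).card ≤ M ∧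
        ((Finset.range (Λ * n t)).filter fun i => n t ≤ i ∧ dig b x (i + 1) ≠ u i).card ≤ M)
    · obtain ⟨q, F, z, h1⟩ := hpt (n t) (N t) h.1 h.2.1 h.2.2
      exact ⟨q, F, z, fun _ _ => h1⟩
    · exact ⟨fun _ => 0, fun _ => 0, fun _ => 0, fun h1 h2 => absurd ⟨h1, h2⟩ h⟩
  choose q F z hqFz using hex
  have hall : ∀ᶠ t in (U : Filter ℕ), (∀ i, 1 ≤ q t i ∧ q t i ≤ n t) ∧
      (∀ i, Rep b N' (W' * n t) (F t i)) ∧ (∀ i, |z t i| ≤ (b : ℤ) ^ n t) ∧
      (∏ i, ((b : ℤ) ^ q t i - 1)) * ⌊x * (b : ℝ) ^ (Λ * n t)⌋ = ∑ i, F t i * z t i := by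
    filter_upwards [hn1, hev] with t h1 h2
    exact hqFz t h1 h2
  have hbR : (0 : ℝ) < (b : ℝ) := by exact_mod_cast (by omega : 0 < b)
  have hb2 : (2 : ℝ) ≤ (b : ℝ) := by exact_mod_cast hb
  have hlog : (1 / 2 : ℝ) ≤ Real.log b := by
    have h1 : Real.log 2 ≤ Real.log b := Real.log_le_log (by norm_num) hb2
    have h2 := Real.log_two_gt_d9
    linarith
  have hexp : ∀ k : ℕ, (b : ℝ) ^ k = Real.exp (k * Real.log b) := by
    intro k
    rw [mul_comm, Real.exp_mul, Real.exp_log hbR, Real.rpow_natCast]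
  obtain ⟨l1, l2, l3, l4, l5, l6, l7, l8⟩ := id (hLCC U)
  refine ⟨fun t => b ^ (Λ * n t), fun t => ⌊x * (b : ℝ) ^ (Λ * n t)⌋,
    fun t => ∏ i, ((b : ℚ) ^ q t i - 1), fun i t => (F t i : ℚ), fun i t => z t i,
    ?_, ?_, ?_, ?_, ?_, ?_, ?_⟩
  · have h1 := pow_sm U S W b n (fun t => Λ * n t) hS hW hWS hbW hb (Λ * Real.log b)
      (Eventually.of_forall fun t => by push_cast; nlinarith)
    have e1 : (fun t => ((b ^ (Λ * n t) : ℕ) : ℚ)) = fun t => (b : ℚ) ^ (Λ * n t) := by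
      funext t
      push_cast
      rfl
    rw [e1]
    exact ⟨⟨h1.1.1, _, h1.1.2⟩, h1.2⟩
  · have h1 := prod_lc hLCC U S W b n hS hW hWS hbW hb (M + 1) q
      (hall.mono fun t h i => (h.1 i).2)
    refine l4 _ _ _ ?_ h1
    rintro u ⟨⟨hu1, hu2⟩, hu3⟩
    refine ⟨⟨hu1, ?_⟩, hu3⟩
    filter_upwards [hu2] with t g1 v hv
    refine (g1 v hv).trans (Real.exp_le_exp.2 ?_)
    have h3 : (0 : ℝ) ≤ n t := Nat.cast_nonneg _
    push_cast
    nlinarith
  · intro i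
    refine l4 _ _ _ ?_ (l8 b N' (fun t => W' * n t) (fun t => F t i) (hall.mono fun t h => h.2.1 i))
    rintro u ⟨m, hm, hu⟩
    have e1 : u = fun t => (b : ℚ) ^ m t := funext hu
    rw [e1]
    have h1 := pow_sm U S W b n m hS hW hWS hbW hb (W' * Real.log b)
      (Eventually.of_forall fun t => by
        have h2 : ((m t : ℕ) : ℝ) ≤ W' * n t := by exact_mod_cast hm t
        nlinarith)
    exact ⟨⟨h1.1.1, _, h1.1.2⟩, h1.2⟩
  · refine hall.mono fun t h => ?_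
    rw [Finset.prod_ne_zero_iff]
    intro i _
    have g1 := (h.1 i).1
    have g2 : (2 : ℚ) ≤ (b : ℚ) ^ q t i := by
      calc (2 : ℚ) ≤ (b : ℚ) := by exact_mod_cast hb
        _ = (b : ℚ) ^ 1 := (pow_one _).symm
        _ ≤ (b : ℚ) ^ q t i := pow_le_pow_right₀ (by exact_mod_cast (by omega : 1 ≤ b)) g1
    intro hcon
    linarith
  · filter_upwards [hall] with t h i
    have h1 := h.2.2.1 i
    have h2 : |((z t i : ℤ) : ℝ)| ≤ (b : ℝ) ^ n t := by exact_mod_cast h1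
    refine h2.trans ?_
    rw [hexp]
    apply Real.exp_le_exp.2
    have h3 : (0 : ℝ) ≤ n t := Nat.cast_nonneg _
    have h4 : (0 : ℝ) ≤ (M + 1 : ℝ) * (Real.log b * n t) := by positivity
    nlinarith
  · filter_upwards [hall] with t h
    have h1 := h.2.2.2
    have h2 : (((∏ i, ((b : ℤ) ^ q t i - 1)) * ⌊x * (b : ℝ) ^ (Λ * n t)⌋ : ℤ) : ℚ) =
        ((∑ i, F t i * z t i : ℤ) : ℚ) := by rw [h1]
    push_cast at h2
    exact h2
  · refine Eventually.of_forall fun t => ?_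
    change |x - (⌊x * (b : ℝ) ^ (Λ * n t)⌋ : ℝ) / ((b ^ (Λ * n t) : ℕ) : ℝ)| ≤
      Real.exp (((M + 2) * Real.log b - Λ / 2) * n t)
    obtain ⟨L, hL⟩ : ∃ L, L = Λ * n t := ⟨_, rfl⟩
    rw [← hL]
    have hbL : (0 : ℝ) < (b : ℝ) ^ L := pow_pos hbR _
    have e2 : x - (⌊x * (b : ℝ) ^ L⌋ : ℝ) / ((b ^ L : ℕ) : ℝ) =
        (x * (b : ℝ) ^ L - ⌊x * (b : ℝ) ^ L⌋) / (b : ℝ) ^ L := by
      push_cast
      field_simp
    rw [e2, abs_div, abs_of_pos hbL]
    have h1 : |x * (b : ℝ) ^ L - ⌊x * (b : ℝ) ^ L⌋| / (b : ℝ) ^ L ≤ 1 / (b : ℝ) ^ L := by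
      apply div_le_div_of_nonneg_right _ hbL.le
      rw [abs_of_nonneg (by linarith [Int.floor_le (x * (b : ℝ) ^ L)])]
      linarith [Int.lt_floor_add_one (x * (b : ℝ) ^ L)]
    refine h1.trans ?_
    rw [hexp, one_div, ← Real.exp_neg]
    apply Real.exp_le_exp.2
    rw [hL]
    push_cast
    have h3 : (0 : ℝ) ≤ n t := Nat.cast_nonneg _
    have h4 : (0 : ℝ) ≤ Λ * n t := by positivity
    have h5 : (0 : ℝ) ≤ (Λ * n t) * (Real.log b - 1 / 2) := mul_nonneg h4 (by linarith)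
    have h6 : (0 : ℝ) ≤ (M + 2 : ℝ) * (Real.log b * n t) := by positivity
    nlinarith

end Pool.Agent.SBT
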