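import Pool.Agent.SBT.StmtsN
import Pool.Agent.SBT.Api

set_option autoImplicit false

namespace Pool.Agent.SBT

open Filter

namespace NCA_

theorem exp_le {a b t : ℝ} (h : a ≤ b) (ht : 0 ≤ t) : Real.exp (a * t) ≤ Real.exp (b * t) :=
  Real.exp_le_exp.mpr (mul_le_mul_of_nonneg_right h ht)

variable {U : Ultrafilter ℕ} {S : Finset ℕ} {T : ℕ → ℝ} {W : Set ℚ}

theorem un_mul (hS : PS S) (hW : IsGrp W) {u u' : ℕ → ℚ} (h : u ∈ Un U S T ∩ Wv W)
    (h' : u' ∈ Un U S T ∩ Wv W) : u * u' ∈ Un U S T ∩ Wv W := by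
  obtain ⟨⟨h1, C, hC⟩, h2⟩ := h
  obtain ⟨⟨h1', C', hC'⟩, h2'⟩ := h'
  refine ⟨⟨fun n => (h1 n).mul hS (h1' n), C + C', ?_⟩, fun n => hW.2.1 _ (h2 n) _ (h2' n)⟩
  filter_upwards [hC, hC'] with n e1 e2 v hv
  rw [Pi.mul_apply, av_mul (place_of_mem hS hv), add_mul, Real.exp_add]
  exact mul_le_mul (e1 v hv) (e2 v hv) (av_nonneg _ _) (Real.exp_pos _).le

theorem sm_mul (hS : PS S) (hW : IsGrp W) {B B' : ℝ} {u u' : ℕ → ℚ}
    (h : u ∈ Sm U S T B ∩ Wv W) (h' : u' ∈ Sm U S T B' ∩ Wv W) :
    u * u' ∈ Sm U S T (B + B') ∩ Wv W := by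
  obtain ⟨⟨h1, hC⟩, h2⟩ := h
  obtain ⟨⟨h1', hC'⟩, h2'⟩ := h'
  refine ⟨⟨fun n => (h1 n).mul hS (h1' n), ?_⟩, fun n => hW.2.1 _ (h2 n) _ (h2' n)⟩
  filter_upwards [hC, hC'] with n e1 e2 v hv
  rw [Pi.mul_apply, av_mul (place_of_mem hS hv), add_mul, Real.exp_add]
  exact mul_le_mul (e1 v hv) (e2 v hv) (av_nonneg _ _) (Real.exp_pos _).le

theorem sm_sub (B : ℝ) : Sm U S T B ∩ Wv W ⊆ Un U S T ∩ Wv W :=
  fun _ h => ⟨⟨h.1.1, B, h.1.2⟩, h.2⟩

theorem sm_mono (hT0 : ∀ᶠ n in (U : Filter ℕ), 0 ≤ T n) {B B' : ℝ} (h : B ≤ B') :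
    Sm U S T B ∩ Wv W ⊆ Sm U S T B' ∩ Wv W := by
  rintro u ⟨⟨h1, h2⟩, h3⟩
  refine ⟨⟨h1, ?_⟩, h3⟩
  filter_upwards [h2, hT0] with n e1 e2 v hv
  exact (e1 v hv).trans (exp_le h e2)

theorem one_sm (hW : IsGrp W) (hT0 : ∀ᶠ n in (U : Filter ℕ), 0 ≤ T n) {B : ℝ} (h : 0 ≤ B) :
    (fun _ => (1 : ℚ)) ∈ Sm U S T B ∩ Wv W := by
  refine ⟨⟨fun _ => isU_one S, ?_⟩, fun _ => hW.1⟩
  filter_upwards [hT0] with n e v _
  rw [av_one]
  exact Real.one_le_exp (mul_nonneg h e)

theorem sum_two_mul (s : ℕ) (F : Fin (s + s) → ℚ) :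
    ∑ j : Fin (2 * s), F (Fin.cast (two_mul s) j) = ∑ j : Fin (s + s), F j :=
  Equiv.sum_comp (finCongr (two_mul s)) F

end NCA_

open NCA_

theorem nca_proof (hLCC : Stmt_LCC) : Stmt_NCA := by
  classical
  intro U S T W hS hW hWU hT
  obtain ⟨l0, ladd, lmul, lmono, lconst, lmem, lcongr, -⟩ := hLCC U
  have hT0 : ∀ᶠ n in (U : Filter ℕ), 0 ≤ T n := hT.eventually_ge_atTop 0
  -- products
  have pU : ∀ f g, Lc U (Un U S T ∩ Wv W) f → Lc U (Un U S T ∩ Wv W) g →
      Lc U (Un U S T ∩ Wv W) (f * g) := fun f g hf hg =>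
    lmul _ _ _ f g hf hg fun u hu u' hu' => un_mul hS hW hu hu'
  have pS : ∀ B B' f g, Lc U (Sm U S T B ∩ Wv W) f → Lc U (Sm U S T B' ∩ Wv W) g →
      Lc U (Sm U S T (B + B') ∩ Wv W) (f * g) := fun B B' f g hf hg =>
    lmul _ _ _ f g hf hg fun u hu u' hu' => sm_mul hS hW hu hu'
  have sU : ∀ B f, Lc U (Sm U S T B ∩ Wv W) f → Lc U (Un U S T ∩ Wv W) f := fun B f hf =>
    lmono _ _ f (sm_sub B) hf
  have mS : ∀ B B' f, B ≤ B' → Lc U (Sm U S T B ∩ Wv W) f → Lc U (Sm U S T B' ∩ Wv W) f :=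
    fun B B' f h hf => lmono _ _ f (sm_mono hT0 h) hf
  have pos : ∀ A : ℕ → ℕ, (fun n => (A n : ℚ)) ∈ Un U S T ∩ Wv W → ∀ n, 0 < A n := by
    intro A hA n
    have h : (0 : ℚ) < (A n : ℚ) := (hA.1.1 n).pos
    exact_mod_cast h
  have aU : ∀ A : ℕ → ℕ, (fun n => (A n : ℚ)) ∈ Un U S T ∩ Wv W →
      Lc U (Un U S T ∩ Wv W) (fun n => (A n : ℚ)) := fun A hA => lmem _ _ hA
  have mulA : ∀ A A' : ℕ → ℕ, (fun n => (A n : ℚ)) ∈ Un U S T ∩ Wv W →
      (fun n => (A' n : ℚ)) ∈ Un U S T ∩ Wv W →
      (fun n => ((A n * A' n : ℕ) : ℚ)) ∈ Un U S T ∩ Wv W := by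
    intro A A' hA hA'
    have := un_mul hS hW hA hA'
    have e : (fun n => ((A n * A' n : ℕ) : ℚ)) = (fun n => (A n : ℚ)) * (fun n => (A' n : ℚ)) := by
      funext n; simp
    rw [e]; exact this
  refine ⟨?_, ?_, ?_, ?_, ?_⟩
  · -- monotone
    intro s s' B B' Λ Λ' x hs hB hΛ
    rintro ⟨A, R, f₀, f, y, hA, h0, hf, hne, hy, hR, hx⟩
    obtain ⟨t, rfl⟩ := Nat.exists_eq_add_of_le hs
    refine ⟨A, R, f₀, Fin.append f (fun _ _ => 0), Fin.append y (fun _ _ => 0), hA,
      mS _ _ _ hB h0, ?_, hne, ?_, ?_, ?_⟩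
    · intro i
      refine Fin.addCases (fun i => ?_) (fun i => ?_) i
      · rw [Fin.append_left]; exact hf i
      · rw [Fin.append_right]; exact l0 _
    · filter_upwards [hy, hT0] with n h1 h2 i
      refine Fin.addCases (fun i => ?_) (fun i => ?_) i
      · rw [Fin.append_left]
        exact (h1 i).trans (exp_le hB h2)
      · rw [Fin.append_right]
        simp only [Int.cast_zero, abs_zero]
        exact (Real.exp_pos _).le
    · filter_upwards [hR] with n h1
      rw [h1, Fin.sum_univ_add]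
      simp [Fin.append_left, Fin.append_right]
    · filter_upwards [hx, hT0] with n h1 h2
      refine h1.trans (exp_le ?_ h2)
      linarith
  · -- integers
    intro B Λ c hB
    refine ⟨fun _ => 1, fun _ => c, fun _ => 1, fun _ _ => (c : ℚ) * 1, fun _ _ => 1, ?_, ?_, ?_,
      ?_, ?_, ?_, ?_⟩
    · have := sm_sub (U := U) (S := S) (T := T) 0 (one_sm hW hT0 le_rfl)
      simpa using this
    · exact lmem _ _ (one_sm hW hT0 hB)
    · intro j
      exact lconst _ (fun _ => 1) c (lmem _ _ (sm_sub 0 (one_sm hW hT0 le_rfl)))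
    · exact Eventually.of_forall (fun _ => one_ne_zero)
    · filter_upwards [hT0] with n h2 i
      simp only [Int.cast_one, abs_one]
      exact Real.one_le_exp (mul_nonneg hB h2)
    · refine Eventually.of_forall (fun n => ?_)
      simp
    · refine Eventually.of_forall (fun n => ?_)
      simp only [Nat.cast_one, div_one, sub_self, abs_zero]
      exact (Real.exp_pos _).le
  · -- sums
    intro s s' B B' Λ x x' hB hB'
    rintro ⟨A, R, f₀, f, y, hA, h0, hf, hne, hy, hR, hx⟩
      ⟨A', R', f₀', f', y', hA', h0', hf', hne', hy', hR', hx'⟩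
    refine ⟨fun n => A n * A' n, fun n => R n * A' n + R' n * A n, f₀ * f₀',
      Fin.append (fun i => f i * f₀' * fun n => (A' n : ℚ))
        (fun j => f' j * f₀ * fun n => (A n : ℚ)), Fin.append y y', mulA A A' hA hA', ?_, ?_, ?_,
      ?_, ?_, ?_⟩
    · exact mS _ _ _ (by linarith) (pS _ _ _ _ h0 h0')
    · intro i
      refine Fin.addCases (fun i => ?_) (fun i => ?_) i
      · rw [Fin.append_left]
        exact pU _ _ (pU _ _ (hf i) (sU _ _ h0')) (aU A' hA')
      · rw [Fin.append_right]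
        exact pU _ _ (pU _ _ (hf' i) (sU _ _ h0)) (aU A hA)
    · filter_upwards [hne, hne'] with n h1 h2
      exact mul_ne_zero h1 h2
    · filter_upwards [hy, hy', hT0] with n h1 h1' h2 i
      refine Fin.addCases (fun i => ?_) (fun i => ?_) i
      · rw [Fin.append_left]
        exact (h1 i).trans (exp_le (by linarith) h2)
      · rw [Fin.append_right]
        exact (h1' i).trans (exp_le (by linarith) h2)
    · filter_upwards [hR, hR'] with n h1 h1'
      rw [Fin.sum_univ_add]
      simp only [Fin.append_left, Fin.append_right, Pi.mul_apply]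
      push_cast
      have e1 : ∑ i, f i n * f₀' n * (A' n : ℚ) * (y i n : ℚ) =
          f₀ n * R n * (f₀' n * A' n) := by
        rw [h1, Finset.sum_mul]
        exact Finset.sum_congr rfl fun i _ => by ring
      have e2 : ∑ i, f' i n * f₀ n * (A n : ℚ) * (y' i n : ℚ) =
          f₀' n * R' n * (f₀ n * A n) := by
        rw [h1', Finset.sum_mul]
        exact Finset.sum_congr rfl fun i _ => by ring
      rw [e1, e2]
      ring
    · filter_upwards [hx, hx', hT0, hT.eventually_ge_atTop (Real.log 2)] with n h1 h1' h2 h3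
      have hA0 : (A n : ℝ) ≠ 0 := by have := pos A hA n; positivity
      have hA0' : (A' n : ℝ) ≠ 0 := by have := pos A' hA' n; positivity
      have h5 : (2 : ℝ) ≤ Real.exp (T n) := by
        calc (2 : ℝ) = Real.exp (Real.log 2) := (Real.exp_log (by norm_num)).symm
          _ ≤ Real.exp (T n) := Real.exp_le_exp.mpr h3
      have h6 : Real.exp ((B + B' + 1 - Λ) * T n) = Real.exp (T n) *
          Real.exp ((B + B' - Λ) * T n) := by
        rw [← Real.exp_add]; congr 1; ring
      have h7 := Real.exp_pos ((B + B' - Λ) * T n)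
      have h8 : Real.exp ((B - Λ) * T n) ≤ Real.exp ((B + B' - Λ) * T n) :=
        exp_le (by linarith) h2
      have h9 : Real.exp ((B' - Λ) * T n) ≤ Real.exp ((B + B' - Λ) * T n) :=
        exp_le (by linarith) h2
      have e : x + x' - ((R n * A' n + R' n * A n : ℤ) : ℝ) / ((A n * A' n : ℕ) : ℝ) =
          (x - R n / A n) + (x' - R' n / A' n) := by
        push_cast
        field_simp
        ring
      rw [e, h6]
      calc |(x - R n / A n) + (x' - R' n / A' n)|
          ≤ Real.exp ((B - Λ) * T n) + Real.exp ((B' - Λ) * T n) :=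
            (abs_add_le _ _).trans (add_le_add h1 h1')
        _ ≤ 2 * Real.exp ((B + B' - Λ) * T n) := by linarith
        _ ≤ Real.exp (T n) * Real.exp ((B + B' - Λ) * T n) :=
            mul_le_mul_of_nonneg_right h5 h7.le
  · -- products
    intro s s' B B' Λ x x' hB hB' hBΛ hBΛ'
    rintro ⟨A, R, f₀, f, y, hA, h0, hf, hne, hy, hR, hx⟩
      ⟨A', R', f₀', f', y', hA', h0', hf', hne', hy', hR', hx'⟩
    let ι : Fin (s * s') → Fin s × Fin s' := fun k => finProdFinEquiv.symm k
    refine ⟨fun n => A n * A' n, fun n => R n * R' n, f₀ * f₀',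
      fun k => f (ι k).1 * f' (ι k).2, fun k n => y (ι k).1 n * y' (ι k).2 n,
      mulA A A' hA hA', ?_, ?_, ?_, ?_, ?_, ?_⟩
    · exact mS _ _ _ (by linarith) (pS _ _ _ _ h0 h0')
    · intro k
      exact pU _ _ (hf _) (hf' _)
    · filter_upwards [hne, hne'] with n h1 h2
      exact mul_ne_zero h1 h2
    · filter_upwards [hy, hy', hT0] with n h1 h1' h2 k
      push_cast
      rw [abs_mul]
      calc |(y (ι k).1 n : ℝ)| * |(y' (ι k).2 n : ℝ)|
          ≤ Real.exp (B * T n) * Real.exp (B' * T n) :=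
            mul_le_mul (h1 _) (h1' _) (abs_nonneg _) (Real.exp_pos _).le
        _ = Real.exp ((B + B') * T n) := by rw [← Real.exp_add]; congr 1; ring
        _ ≤ Real.exp ((B + B' + 1) * T n) := exp_le (by linarith) h2
    · filter_upwards [hR, hR'] with n h1 h1'
      have h5 : (∑ k : Fin (s * s'), (f (ι k).1 * f' (ι k).2) n *
          ((y (ι k).1 n * y' (ι k).2 n : ℤ) : ℚ)) =
          ∑ p : Fin s × Fin s', (f p.1 * f' p.2) n * ((y p.1 n * y' p.2 n : ℤ) : ℚ) :=
        Equiv.sum_comp (finProdFinEquiv (m := s) (n := s')).symm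
          (fun p : Fin s × Fin s' => (f p.1 * f' p.2) n * ((y p.1 n * y' p.2 n : ℤ) : ℚ))
      rw [h5, Fintype.sum_prod_type, Pi.mul_apply]
      push_cast
      calc f₀ n * f₀' n * ((R n : ℚ) * R' n) = (f₀ n * R n) * (f₀' n * R' n) := by ring
        _ = _ := by
          rw [h1, h1', Finset.sum_mul_sum]
          refine Finset.sum_congr rfl (fun i _ => Finset.sum_congr rfl (fun j _ => ?_))
          rw [Pi.mul_apply]
          ring
    · filter_upwards [hx, hx', hT0,
        hT.eventually_ge_atTop (Real.log (|x| + |x'| + 1))] with n h1 h1' h2 h3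
      have hA0 : (A n : ℝ) ≠ 0 := by have := pos A hA n; positivity
      have hA0' : (A' n : ℝ) ≠ 0 := by have := pos A' hA' n; positivity
      have e : ((R n * R' n : ℤ) : ℝ) / ((A n * A' n : ℕ) : ℝ) =
          ((R n : ℝ) / A n) * ((R' n : ℝ) / A' n) := by
        push_cast
        field_simp
      rw [e]
      set ρ : ℝ := (R n : ℝ) / A n with hρ
      set ρ' : ℝ := (R' n : ℝ) / A' n with hρ'
      have hpos : 0 < |x| + |x'| + 1 := by positivity
      have h5 : |x| + |x'| + 1 ≤ Real.exp (T n) := by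
        calc |x| + |x'| + 1 = Real.exp (Real.log (|x| + |x'| + 1)) := (Real.exp_log hpos).symm
          _ ≤ Real.exp (T n) := Real.exp_le_exp.mpr h3
      have h6 : Real.exp ((B + B' + 1 - Λ) * T n) = Real.exp (T n) *
          Real.exp ((B + B' - Λ) * T n) := by
        rw [← Real.exp_add]; congr 1; ring
      have h7 := Real.exp_pos ((B + B' - Λ) * T n)
      have h8 : Real.exp ((B - Λ) * T n) ≤ Real.exp ((B + B' - Λ) * T n) :=
        exp_le (by linarith) h2
      have h9 : Real.exp ((B' - Λ) * T n) ≤ Real.exp ((B + B' - Λ) * T n) :=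
        exp_le (by linarith) h2
      have h10 : Real.exp ((B' - Λ) * T n) ≤ 1 := by
        rw [← Real.exp_zero]
        exact Real.exp_le_exp.mpr (mul_nonpos_of_nonpos_of_nonneg (by linarith) h2)
      have h11 : |ρ'| ≤ |x'| + 1 := by
        have : |ρ'| ≤ |x'| + |x' - ρ'| := by
          have h := abs_sub_abs_le_abs_sub ρ' x'
          rw [abs_sub_comm] at h
          linarith
        linarith
      rw [h6]
      calc |x * x' - ρ * ρ'| = |x * (x' - ρ') + (x - ρ) * ρ'| := by ring_nf
        _ ≤ |x| * |x' - ρ'| + |x - ρ| * |ρ'| := by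
            refine (abs_add_le _ _).trans ?_
            rw [abs_mul, abs_mul]
        _ ≤ |x| * Real.exp ((B + B' - Λ) * T n) +
            Real.exp ((B + B' - Λ) * T n) * (|x'| + 1) :=
            add_le_add (mul_le_mul_of_nonneg_left (h1'.trans h9) (abs_nonneg _))
              (mul_le_mul (h1.trans h8) h11 (abs_nonneg _) h7.le)
        _ = (|x| + |x'| + 1) * Real.exp ((B + B' - Λ) * T n) := by ring
        _ ≤ Real.exp (T n) * Real.exp ((B + B' - Λ) * T n) :=
            mul_le_mul_of_nonneg_right h5 h7.le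
  · -- pairs
    intro s B Λ x hB hxx
    obtain ⟨A, R, f₀, f, y, hA, h0, hf, hne, hy, hR, hx⟩ := hxx 0
    obtain ⟨A', R', f₀', f', y', hA', h0', hf', hne', hy', hR', hx'⟩ := hxx 1
    refine ⟨fun n => A n * A' n, ![fun n => R n * A' n, fun n => R' n * A n], f₀ * f₀',
      ![fun j => Fin.append (fun i => f i * f₀' * fun n => (A' n : ℚ)) (fun _ _ => 0)
          (Fin.cast (two_mul s) j),
        fun j => Fin.append (fun _ _ => 0) (fun i => f' i * f₀ * fun n => (A n : ℚ))
          (Fin.cast (two_mul s) j)],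
      fun j => Fin.append y y' (Fin.cast (two_mul s) j), ?_, ?_, ?_, ?_, ?_, ?_, ?_⟩
    · intro n
      exact Nat.mul_pos (pos A hA n) (pos A' hA' n)
    · rw [two_mul]
      exact pS _ _ _ _ h0 h0'
    · intro c j
      fin_cases c
      · show Lc U _ (Fin.append (fun i => f i * f₀' * fun n => (A' n : ℚ)) (fun _ _ => 0)
          (Fin.cast (two_mul s) j))
        refine Fin.addCases (fun i => ?_) (fun i => ?_) (Fin.cast (two_mul s) j)
        · rw [Fin.append_left]
          exact pU _ _ (pU _ _ (hf i) (sU _ _ h0')) (aU A' hA')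
        · rw [Fin.append_right]
          exact l0 _
      · show Lc U _ (Fin.append (fun _ _ => 0) (fun i => f' i * f₀ * fun n => (A n : ℚ))
          (Fin.cast (two_mul s) j))
        refine Fin.addCases (fun i => ?_) (fun i => ?_) (Fin.cast (two_mul s) j)
        · rw [Fin.append_left]
          exact l0 _
        · rw [Fin.append_right]
          exact pU _ _ (pU _ _ (hf' i) (sU _ _ h0)) (aU A hA)
    · filter_upwards [hne, hne'] with n h1 h2
      exact mul_ne_zero h1 h2
    · filter_upwards [hy, hy'] with n h1 h1' j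
      refine Fin.addCases (fun i => ?_) (fun i => ?_) (Fin.cast (two_mul s) j)
      · rw [Fin.append_left]
        exact h1 i
      · rw [Fin.append_right]
        exact h1' i
    · intro c
      fin_cases c
      · filter_upwards [hR] with n h1
        show (f₀ * f₀') n * ((R n * A' n : ℤ) : ℚ) =
          ∑ j : Fin (2 * s), Fin.append (fun i => f i * f₀' * fun n => (A' n : ℚ))
            (fun _ _ => 0) (Fin.cast (two_mul s) j) n *
            ((Fin.append y y' (Fin.cast (two_mul s) j) n : ℤ) : ℚ)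
        rw [sum_two_mul s (fun j => Fin.append (fun i => f i * f₀' * fun n => (A' n : ℚ))
            (fun _ _ => 0) j n * ((Fin.append y y' j n : ℤ) : ℚ)), Fin.sum_univ_add]
        simp only [Fin.append_left, Fin.append_right, Pi.mul_apply, zero_mul,
          Finset.sum_const_zero, add_zero]
        push_cast
        calc f₀ n * f₀' n * ((R n : ℚ) * A' n) = (f₀ n * R n) * (f₀' n * A' n) := by ring
          _ = _ := by
            rw [h1, Finset.sum_mul]
            exact Finset.sum_congr rfl fun i _ => by ring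
      · filter_upwards [hR'] with n h1
        show (f₀ * f₀') n * ((R' n * A n : ℤ) : ℚ) =
          ∑ j : Fin (2 * s), Fin.append (fun _ _ => 0)
            (fun i => f' i * f₀ * fun n => (A n : ℚ)) (Fin.cast (two_mul s) j) n *
            ((Fin.append y y' (Fin.cast (two_mul s) j) n : ℤ) : ℚ)
        rw [sum_two_mul s (fun j => Fin.append (fun _ _ => 0)
            (fun i => f' i * f₀ * fun n => (A n : ℚ)) j n * ((Fin.append y y' j n : ℤ) : ℚ)),
          Fin.sum_univ_add]
        simp only [Fin.append_left, Fin.append_right, Pi.mul_apply, zero_mul,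
          Finset.sum_const_zero, zero_add]
        push_cast
        calc f₀ n * f₀' n * ((R' n : ℚ) * A n) = (f₀' n * R' n) * (f₀ n * A n) := by ring
          _ = _ := by
            rw [h1, Finset.sum_mul]
            exact Finset.sum_congr rfl fun i _ => by ring
    · intro c
      fin_cases c
      · filter_upwards [hx] with n h1
        have hA0 : (A n : ℝ) ≠ 0 := by have := pos A hA n; positivity
        have hA0' : (A' n : ℝ) ≠ 0 := by have := pos A' hA' n; positivity
        show |x 0 - ((R n * A' n : ℤ) : ℝ) / ((A n * A' n : ℕ) : ℝ)| ≤ _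
        have e : ((R n * A' n : ℤ) : ℝ) / ((A n * A' n : ℕ) : ℝ) = (R n : ℝ) / A n := by
          push_cast
          field_simp
        rw [e]
        exact h1
      · filter_upwards [hx'] with n h1
        have hA0 : (A n : ℝ) ≠ 0 := by have := pos A hA n; positivity
        have hA0' : (A' n : ℝ) ≠ 0 := by have := pos A' hA' n; positivity
        show |x 1 - ((R' n * A n : ℤ) : ℝ) / ((A n * A' n : ℕ) : ℝ)| ≤ _
        have e : ((R' n * A n : ℤ) : ℝ) / ((A n * A' n : ℕ) : ℝ) = (R' n : ℝ) / A' n := by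
          push_cast
          field_simp
        rw [e]
        exact h1

end Pool.Agent.SBT
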