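import Pool.Agent.SBT.StmtsN
import Pool.Agent.SBT.Api
import Pool.Agent.SBT.MFC

/-!
# Squad SBT, module NFC: the field theorem for described numbers
-/

set_option autoImplicit false

namespace Pool.Agent.SBT

open Filter

theorem nfc_proof (hMCX : Stmt_MCX) (hNCA : Stmt_NCA) (hNPO : Stmt_NPO) (hSEP : Stmt_SEP) :
    Stmt_NFC := by
  classical
  intro k bs ξ μ x P hb hI hM hne hrel
  -- the places
  have hS : PS (Prb bs) := by
    intro q hq
    simp only [Prb, Finset.mem_biUnion, Finset.mem_univ, true_and] at hq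
    obtain ⟨r, i, h⟩ := hq
    exact Nat.prime_of_mem_primeFactors h
  have hmem : ∀ q : ℕ, q.Prime → ∀ r i, q ∣ bs r i → q ∈ Prb bs := by
    intro q hq r i hd
    simp only [Prb, Finset.mem_biUnion, Finset.mem_univ, true_and]
    refine ⟨r, i, Nat.mem_primeFactors.2 ⟨hq, hd, ?_⟩⟩
    have := hb r i
    omega
  have haS : ∀ r i, IsU (Prb bs) (bs r i : ℚ) := by
    intro r i
    have := hb r i
    exact isU_nat hS (by omega) fun q hq hd => hmem q hq r i hd
  have hsep : Sep (Prb bs) (Grp (bs 0) {Finset.univ}) (Grp (bs 1) {Finset.univ}) := by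
    refine hSEP k k (Prb bs) (bs 0) (bs 1) {Finset.univ} {Finset.univ} hS (fun i => ?_)
      (fun i => ?_) ?_ ?_
    · have := hb 0 i
      omega
    · have := hb 1 i
      omega
    · rintro q hq (⟨i, hi⟩ | ⟨i, hi⟩)
      · exact hmem q hq 0 i hi
      · exact hmem q hq 1 i hi
    · intro A _ B' _ e f _ _ hef
      exact hI e f hef
  have hW : ∀ r, IsGrp (Grp (bs r) {Finset.univ}) := fun r => MFC_.isGrp_grp (bs r) (hb r)
  have hWU : ∀ r, ∀ w ∈ Grp (bs r) {Finset.univ}, IsU (Prb bs) w :=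
    fun r => MFC_.isU_grp hS (bs r) (haS r)
  obtain ⟨E', hE'⟩ := hMCX (Prb bs) (fun r => Grp (bs r) {Finset.univ}) ξ μ
    (fun r c => MvPolynomial.aeval (x r) (P r c)) hS hW hWU hsep hM hne hrel
  have hd : ∀ r c, ∃ d : ℕ, ∀ (U : Ultrafilter ℕ) (S : Finset ℕ)
    (T : ℕ → ℝ) (W : Set ℚ) (s : ℕ) (B Λ : ℝ) (x : Fin k → ℝ), PS S → IsGrp W →
    (∀ w ∈ W, IsU S w) → Tendsto T (U : Filter ℕ) atTop → 1 ≤ s → 0 ≤ B →
    d * (B + 1) ≤ Λ → (∀ i, Apw U S T W s B Λ (x i)) →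
    Apw U S T W (d * s ^ d) (d * (B + 1)) Λ (MvPolynomial.aeval x (P r c)) :=
    fun r c => hNPO k (P r c)
  choose d₀ hd₀ using hd
  set d : ℕ := ∑ r, ∑ c, d₀ r c with hddef
  have hdle : ∀ r c, d₀ r c ≤ d := by
    intro r c
    rw [hddef]
    refine (Finset.single_le_sum (f := fun c => d₀ r c) (fun c _ => Nat.zero_le _)
      (Finset.mem_univ c)).trans ?_
    exact Finset.single_le_sum (f := fun r => ∑ c, d₀ r c)
      (fun r _ => Nat.zero_le _) (Finset.mem_univ r)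
  clear_value d
  refine ⟨E' * (2 * d + 1) ^ (E' + 1) + d + d * E', ?_⟩
  intro s B Λ hB hΛ U T hT hap
  set E : ℕ := E' * (2 * d + 1) ^ (E' + 1) + d + d * E' with hE
  have hs1 : (1 : ℝ) ≤ (s : ℝ) + 1 := by
    have : (0 : ℝ) ≤ s := Nat.cast_nonneg s
    linarith
  have hpow : (1 : ℝ) ≤ ((s : ℝ) + 1) ^ E := one_le_pow₀ hs1
  have hd0 : (0 : ℝ) ≤ (d : ℝ) := Nat.cast_nonneg d
  have hdE : (d : ℝ) ≤ E := by
    have : d ≤ E := by
      rw [hE]
      have : d ≤ E' * (2 * d + 1) ^ (E' + 1) + d := Nat.le_add_left _ _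
      exact this.trans (Nat.le_add_right _ _)
    exact_mod_cast this
  have hdB : (d : ℝ) * (B + 1) ≤ Λ := by
    refine le_trans ?_ hΛ
    have h1 : (d : ℝ) ≤ E * ((s : ℝ) + 1) ^ E := by
      calc (d : ℝ) ≤ E := hdE
        _ = E * 1 := (mul_one _).symm
        _ ≤ E * ((s : ℝ) + 1) ^ E := mul_le_mul_of_nonneg_left hpow (by positivity)
    exact mul_le_mul_of_nonneg_right h1 (by linarith)
  have hmono := fun r => (hNCA U (Prb bs) T (Grp (bs r) {Finset.univ}) hS (hW r) (hWU r) hT).1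
  have hpair := fun r =>
    (hNCA U (Prb bs) T (Grp (bs r) {Finset.univ}) hS (hW r) (hWU r) hT).2.2.2.2
  have hA : ∀ r c, Apw U (Prb bs) T (Grp (bs r) {Finset.univ}) (d * (s + 1) ^ d) (d * (B + 1)) Λ
      (MvPolynomial.aeval (x r) (P r c)) := by
    intro r c
    have h1 : ∀ i, Apw U (Prb bs) T (Grp (bs r) {Finset.univ}) (s + 1) B Λ (x r i) := fun i =>
      hmono r s (s + 1) B B Λ Λ (x r i) (Nat.le_succ s) le_rfl le_rfl (hap r i)
    have hle : (d₀ r c : ℝ) ≤ d := by exact_mod_cast hdle r c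
    have hle' : (d₀ r c : ℝ) * (B + 1) ≤ d * (B + 1) :=
      mul_le_mul_of_nonneg_right hle (by linarith)
    have h2 := hd₀ r c U (Prb bs) T (Grp (bs r) {Finset.univ}) (s + 1) B Λ (x r) hS (hW r)
      (hWU r) hT (Nat.le_add_left 1 s) hB (hle'.trans hdB) h1
    refine hmono r _ _ _ _ _ _ _ ?_ hle' le_rfl h2
    exact Nat.mul_le_mul (hdle r c) (Nat.pow_le_pow_right (Nat.succ_pos s) (hdle r c))
  have hB1 : 0 ≤ (d : ℝ) * (B + 1) := mul_nonneg hd0 (by linarith)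
  have hP := fun r => hpair r (d * (s + 1) ^ d) (d * (B + 1)) Λ
    (fun c => MvPolynomial.aeval (x r) (P r c)) hB1 (hA r)
  choose A R f₀ f y g1 g2 g3 g4 g5 g6 g7 using hP
  have hfin : E' * (((2 * (d * (s + 1) ^ d) : ℕ) : ℝ) + 1) ^ E' * (2 * (d * (B + 1)) + 1) ≤
      Λ - d * (B + 1) := by
    have e1 : ((2 * (d * (s + 1) ^ d) : ℕ) : ℝ) + 1 ≤ (2 * d + 1) * ((s : ℝ) + 1) ^ d := by
      push_cast
      have : (1 : ℝ) ≤ ((s : ℝ) + 1) ^ d := one_le_pow₀ hs1
      nlinarith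
    have e2 : 2 * (d * (B + 1)) + 1 ≤ (2 * (d : ℝ) + 1) * (B + 1) := by nlinarith
    have e3 : (((2 * (d * (s + 1) ^ d) : ℕ) : ℝ) + 1) ^ E' ≤
        (2 * (d : ℝ) + 1) ^ E' * ((s : ℝ) + 1) ^ (d * E') := by
      calc (((2 * (d * (s + 1) ^ d) : ℕ) : ℝ) + 1) ^ E' ≤
          ((2 * (d : ℝ) + 1) * ((s : ℝ) + 1) ^ d) ^ E' :=
            pow_le_pow_left₀ (by positivity) e1 E'
        _ = _ := by rw [mul_pow, ← pow_mul]
    have e4 : ((s : ℝ) + 1) ^ (d * E') ≤ ((s : ℝ) + 1) ^ E := by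
      refine pow_le_pow_right₀ hs1 ?_
      rw [hE]
      exact Nat.le_add_left _ _
    have e5 : (1 : ℝ) ≤ ((s : ℝ) + 1) ^ (d * E') := one_le_pow₀ hs1
    have hBp : 0 ≤ B + 1 := by linarith
    have e6 : (E' : ℝ) * (2 * d + 1) ^ (E' + 1) + d ≤ E := by
      have : E' * (2 * d + 1) ^ (E' + 1) + d ≤ E := by
        rw [hE]
        exact Nat.le_add_right _ _
      exact_mod_cast this
    have e7 : E' * (((2 * (d * (s + 1) ^ d) : ℕ) : ℝ) + 1) ^ E' * (2 * (d * (B + 1)) + 1) +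
        d * (B + 1) ≤ Λ := by
      refine le_trans ?_ hΛ
      calc E' * (((2 * (d * (s + 1) ^ d) : ℕ) : ℝ) + 1) ^ E' * (2 * (d * (B + 1)) + 1) +
            d * (B + 1)
          ≤ E' * ((2 * (d : ℝ) + 1) ^ E' * ((s : ℝ) + 1) ^ (d * E')) *
              ((2 * (d : ℝ) + 1) * (B + 1)) + d * (B + 1) * ((s : ℝ) + 1) ^ (d * E') := by
            refine add_le_add ?_ ?_
            · refine mul_le_mul ?_ e2 (by positivity) (by positivity)
              exact mul_le_mul_of_nonneg_left e3 (Nat.cast_nonneg _)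
            · exact le_mul_of_one_le_right hB1 e5
        _ = ((E' : ℝ) * (2 * d + 1) ^ (E' + 1) + d) * ((s : ℝ) + 1) ^ (d * E') * (B + 1) := by
            ring
        _ ≤ E * ((s : ℝ) + 1) ^ E * (B + 1) := by
            refine mul_le_mul_of_nonneg_right ?_ hBp
            exact mul_le_mul e6 e4 (by positivity) (Nat.cast_nonneg _)
    linarith
  have hT0 : ∀ᶠ n in (U : Filter ℕ), 0 ≤ T n := hT.eventually (eventually_ge_atTop 0)
  refine hE' (2 * (d * (s + 1) ^ d)) (2 * (d * (B + 1))) (Λ - d * (B + 1)) (by linarith) hfin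
    U T y (fun r c => R r c) (fun r n => (A r n : ℝ)) f₀ f hT ?_ ?_ g2 g3 g4 ?_ ?_
  · intro r
    filter_upwards [g5 r, hT0] with n hn h0 j
    refine (hn j).trans (Real.exp_le_exp.2 ?_)
    refine mul_le_mul_of_nonneg_right ?_ h0
    linarith
  · intro r
    refine Eventually.of_forall fun n => ?_
    have := g1 r n
    exact_mod_cast this
  · exact fun r c => g6 r c
  · intro r c
    filter_upwards [g7 r c] with n hn
    refine hn.trans (Real.exp_le_exp.2 ?_)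
    linarith

end Pool.Agent.SBT
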