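import Pool.Agent.SBT.StmtsM

set_option autoImplicit false

namespace Pool.Agent.SBT

open Filter

namespace MFF_

theorem zpow_sum {I : Type*} (x : ℚ) (hx : x ≠ 0) (s : Finset I) (e : I → ℤ) :
    x ^ (∑ i ∈ s, e i) = ∏ i ∈ s, x ^ e i := by
  classical
  induction s using Finset.induction_on with
  | empty => simp
  | insert i s hi ih => rw [Finset.sum_insert hi, Finset.prod_insert hi, zpow_add₀ hx, ih]

theorem prod_fib {K k : ℕ} (p : Fin K → Fin k) (a : Fin k → ℕ) (ha : ∀ i, 2 ≤ a i)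
    (e : Fin K → ℤ) :
    ∏ i, (((a ∘ p) i : ℕ) : ℚ) ^ e i =
      ∏ j, (a j : ℚ) ^ (∑ i ∈ Finset.univ.filter (fun i => p i = j), e i) := by
  classical
  rw [← Finset.prod_fiberwise Finset.univ p]
  refine Finset.prod_congr rfl fun j _ => ?_
  rw [zpow_sum _ (by have := ha j; positivity)]
  refine Finset.prod_congr rfl fun i hi => ?_
  rw [Finset.mem_filter] at hi
  simp [hi.2]

theorem indG_comp {K k l : ℕ} (a : Fin k → ℕ) (b : Fin l → ℕ) (ha : ∀ i, 2 ≤ a i)
    (hb : ∀ i, 2 ≤ b i) (p : Fin K → Fin k) (q : Fin K → Fin l) (h : IndG a b) :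
    IndG (a ∘ p) (b ∘ q) := by
  intro e f hef
  rw [prod_fib p a ha, prod_fib q b hb] at hef
  rw [prod_fib p a ha]
  exact h _ _ hef

/-- a rational number has no irrationality measure -/
theorem not_meas (r : ℚ) (μ : ℕ) : ¬ Meas (r : ℝ) μ := by
  rintro ⟨c, hc, h⟩
  have := h r.den r.num r.den_pos
  have e : (r : ℝ) = (r.num : ℝ) / (r.den : ℝ) := by
    rw [Rat.cast_def]
  rw [e] at this
  simp at this
  linarith

theorem exists_poly {k : ℕ} (x : Fin k → ℝ) (ξ : ℝ)
    (h : ξ ∈ IntermediateField.adjoin ℚ (Set.range x)) :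
    ∃ P : Fin 2 → MvPolynomial (Fin k) ℚ, MvPolynomial.aeval x (P 1) ≠ 0 ∧
      MvPolynomial.aeval x (P 0) = ξ * MvPolynomial.aeval x (P 1) := by
  rw [IntermediateField.mem_adjoin_range_iff] at h
  obtain ⟨r, s, hrs⟩ := h
  by_cases hs : MvPolynomial.aeval x s = 0
  · refine ⟨![0, 1], by simp, ?_⟩
    rw [hs, div_zero] at hrs
    simp [hrs]
  · refine ⟨![r, s], by simpa using hs, ?_⟩
    simp only [Matrix.cons_val_zero, Matrix.cons_val_one]
    rw [hrs]
    field_simp

theorem pos_of_mem {k : ℕ} (x : Fin k → ℝ) (ξ : ℝ) (μ : ℕ) (hξ : Meas ξ μ)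
    (h : ξ ∈ IntermediateField.adjoin ℚ (Set.range x)) : 0 < k := by
  rcases Nat.eq_zero_or_pos k with rfl | hk
  · exfalso
    rw [Set.range_eq_empty, IntermediateField.adjoin_empty, IntermediateField.mem_bot] at h
    obtain ⟨r, hr⟩ := h
    have : (r : ℝ) = ξ := by simpa using hr
    rw [← this] at hξ
    exact not_meas r μ hξ
  · exact hk

theorem aeval_pad {K k : ℕ} (x : Fin k → ℝ) (p : Fin K → Fin k) (ι : Fin k → Fin K)
    (h : ∀ i, p (ι i) = i) (P : MvPolynomial (Fin k) ℚ) :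
    MvPolynomial.aeval (x ∘ p) (MvPolynomial.rename ι P) = MvPolynomial.aeval x P := by
  rw [MvPolynomial.aeval_rename]
  have : (x ∘ p) ∘ ι = x := by
    funext i
    simp [h i]
  rw [this]

end MFF_

open MFF_ in
theorem mff_proof (hMFL : Stmt_MFL) : Stmt_MFF := by
  intro k l a b x y ξ μ ha hb hab hξ hx hy C
  have hk := pos_of_mem x ξ μ hξ hx
  have hl := pos_of_mem y ξ μ hξ hy
  obtain ⟨P, hP1, hP0⟩ := exists_poly x ξ hx
  obtain ⟨Q, hQ1, hQ0⟩ := exists_poly y ξ hy
  set p : Fin (k + l) → Fin k := Fin.append id (fun _ => ⟨0, hk⟩) with hp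
  set q : Fin (k + l) → Fin l := Fin.append (fun _ => ⟨0, hl⟩) id with hq
  have hpι : ∀ i, p (Fin.castAdd l i) = i := fun i => by simp [hp]
  have hqι : ∀ i, q (Fin.natAdd k i) = i := fun i => by simp [hq]
  obtain ⟨Λ, hΛ⟩ := hMFL (k + l) ![a ∘ p, b ∘ q] ξ μ ![x ∘ p, y ∘ q]
    ![fun c => MvPolynomial.rename (Fin.castAdd l) (P c),
      fun c => MvPolynomial.rename (Fin.natAdd k) (Q c)]
    (by
      intro r i
      fin_cases r
      · exact ha (p i)
      · exact hb (q i))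
    (indG_comp a b ha hb p q hab) hξ
    (by
      intro r
      fin_cases r
      · show MvPolynomial.aeval (x ∘ p) (MvPolynomial.rename (Fin.castAdd l) (P 1)) ≠ 0
        rw [aeval_pad x p _ hpι]
        exact hP1
      · show MvPolynomial.aeval (y ∘ q) (MvPolynomial.rename (Fin.natAdd k) (Q 1)) ≠ 0
        rw [aeval_pad y q _ hqι]
        exact hQ1)
    (by
      intro r
      fin_cases r
      · show MvPolynomial.aeval (x ∘ p) (MvPolynomial.rename (Fin.castAdd l) (P 0)) =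
          ξ * MvPolynomial.aeval (x ∘ p) (MvPolynomial.rename (Fin.castAdd l) (P 1))
        rw [aeval_pad x p _ hpι, aeval_pad x p _ hpι]
        exact hP0
      · show MvPolynomial.aeval (y ∘ q) (MvPolynomial.rename (Fin.natAdd k) (Q 0)) =
          ξ * MvPolynomial.aeval (y ∘ q) (MvPolynomial.rename (Fin.natAdd k) (Q 1))
        rw [aeval_pad y q _ hqι, aeval_pad y q _ hqι]
        exact hQ0)
    ((k + l + 1) * C)
  refine ⟨Λ, ?_⟩
  filter_upwards [hΛ] with n hn
  have e0 : ∀ (F : Fin k → ℕ), ∑ i, F (p i) ≤ (l + 1) * ∑ i, F i := by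
    intro F
    rw [Fin.sum_univ_add]
    have h1 : ∑ i, F (p (Fin.castAdd l i)) = ∑ i, F i :=
      Finset.sum_congr rfl fun i _ => by rw [hpι]
    have h2 : ∑ j : Fin l, F (p (Fin.natAdd k j)) ≤ l * ∑ i, F i := by
      calc _ ≤ ∑ _j : Fin l, ∑ i, F i := Finset.sum_le_sum fun j _ =>
            Finset.single_le_sum (f := F) (fun _ _ => Nat.zero_le _) (Finset.mem_univ _)
        _ = l * ∑ i, F i := by simp
    rw [h1]
    linarith
  have e1 : ∀ (F : Fin l → ℕ), ∑ i, F (q i) ≤ (k + 1) * ∑ i, F i := by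
    intro F
    rw [Fin.sum_univ_add]
    have h1 : ∑ i, F (q (Fin.natAdd k i)) = ∑ i, F i :=
      Finset.sum_congr rfl fun i _ => by rw [hqι]
    have h2 : ∑ j : Fin k, F (q (Fin.castAdd l j)) ≤ k * ∑ i, F i := by
      calc _ ≤ ∑ _j : Fin k, ∑ i, F i := Finset.sum_le_sum fun j _ =>
            Finset.single_le_sum (f := F) (fun _ _ => Nat.zero_le _) (Finset.mem_univ _)
        _ = k * ∑ i, F i := by simp
    rw [h1]
    linarith
  rw [Fin.sum_univ_two] at hn
  have h0 := e0 (fun i => cnt (a i) (x i) n (Λ * n))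
  have h1 := e1 (fun j => cnt (b j) (y j) n (Λ * n))
  have hn' : (k + l + 1) * C * n ≤ ∑ i, cnt (a (p i)) (x (p i)) n (Λ * n) +
      ∑ i, cnt (b (q i)) (y (q i)) n (Λ * n) := hn
  set A := ∑ i, cnt (a i) (x i) n (Λ * n)
  set B := ∑ j, cnt (b j) (y j) n (Λ * n)
  have h2 : (k + l + 1) * (C * n) ≤ (k + l + 1) * (A + B) := by
    calc (k + l + 1) * (C * n) = (k + l + 1) * C * n := by ring
      _ ≤ (l + 1) * A + (k + 1) * B := hn'.trans (Nat.add_le_add h0 h1)
      _ ≤ (k + l + 1) * A + (k + l + 1) * B := by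
          apply Nat.add_le_add
          · exact Nat.mul_le_mul_right _ (by omega)
          · exact Nat.mul_le_mul_right _ (by omega)
      _ = (k + l + 1) * (A + B) := by ring
  exact Nat.le_of_mul_le_mul_left h2 (by omega)

end Pool.Agent.SBT
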