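import Pool.Agent.SBT.StmtsZ

/-!
# ZFA: linear disjointness of the field generated by the numbers of logarithmic Lempel-Ziv
complexity (with errors)
-/

set_option autoImplicit false

namespace Pool.Agent.SBT

open Filter

namespace ZFA_

theorem neBot {I : Set ℕ} (hI : I.Infinite) : (atTop ⊓ 𝓟 I : Filter ℕ).NeBot := by
  rw [← frequently_mem_iff_neBot]
  rw [Nat.frequently_atTop_iff_infinite]
  exact hI

/-- finitely many elements of `Algebra.adjoin` are polynomials in a common finite family -/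
theorem exists_family {G : Set ℝ} {m : ℕ} (X : Fin m → ℝ)
    (hX : ∀ i, X i ∈ Algebra.adjoin ℚ G) : ∃ (κ : ℕ) (y : Fin κ → ℝ)
      (P : Fin m → MvPolynomial (Fin κ) ℚ), (∀ j, y j ∈ G) ∧
      ∀ i, MvPolynomial.aeval y (P i) = X i := by
  classical
  have h1 : ∀ i, ∃ p : MvPolynomial G ℚ, MvPolynomial.aeval (Subtype.val : G → ℝ) p = X i := by
    intro i
    have h2 := hX i
    rw [Algebra.adjoin_eq_range] at h2
    obtain ⟨p, hp⟩ := h2
    exact ⟨p, hp⟩
  choose p hp using h1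
  have h2 : ∀ i, ∃ (s : Finset G) (q : MvPolynomial { x // x ∈ s } ℚ),
      p i = MvPolynomial.rename Subtype.val q := fun i => MvPolynomial.exists_finset_rename (p i)
  choose s q hq using h2
  set S : Finset G := Finset.univ.biUnion s with hS
  have hsS : ∀ i, s i ⊆ S := fun i =>
    Finset.subset_biUnion_of_mem s (Finset.mem_univ i)
  set e := Fintype.equivFin { x // x ∈ S } with he
  refine ⟨Fintype.card { x // x ∈ S }, fun j => ((e.symm j).1 : G).1,
    fun i => MvPolynomial.rename (fun x : { x // x ∈ s i } => e ⟨x.1, hsS i x.2⟩) (q i), ?_, ?_⟩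
  · intro j
    exact ((e.symm j).1 : G).2
  · intro i
    rw [MvPolynomial.aeval_rename, ← hp i, hq i, MvPolynomial.aeval_rename]
    congr 1
    congr 1
    funext x
    simp

/-- the growth condition -/
theorem exists_scale (a c B : ℝ) (d : ℕ) (ha : 0 ≤ a) (hc : 0 ≤ c) :
    ∃ Λ : ℕ, 4 ≤ Λ ∧
      a * ((2 * ⌈c * (1 + Real.log Λ)⌉₊ + 5 : ℕ) : ℝ) ^ d + B ≤ Λ / 2 := by
  set c₁ : ℝ := 4 * c + 7 with hc₁
  have hc₁0 : 0 < c₁ := by positivity
  set ε : ℝ := 1 / (4 * (a * c₁ ^ d + 1)) with hε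
  have hε0 : 0 < ε := by positivity
  have h1 : ∀ᶠ x : ℝ in atTop, ‖Real.log x ^ d‖ ≤ ε * ‖id x‖ :=
    (Asymptotics.isLittleO_iff.1 (Real.isLittleO_pow_log_id_atTop (n := d))) hε0
  have h2 : ∀ᶠ n : ℕ in atTop, ‖Real.log (n : ℝ) ^ d‖ ≤ ε * ‖id (n : ℝ)‖ :=
    tendsto_natCast_atTop_atTop.eventually h1
  have h3 : ∀ᶠ n : ℕ in atTop, 4 * B ≤ (n : ℝ) :=
    tendsto_natCast_atTop_atTop.eventually (eventually_ge_atTop (4 * B))
  obtain ⟨n, hn2, hn3, hn4⟩ := (h2.and (h3.and (eventually_ge_atTop 4))).exists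
  refine ⟨n, hn4, ?_⟩
  have hn4' : (4 : ℝ) ≤ n := by exact_mod_cast hn4
  have hlog : 1 ≤ Real.log n := by
    rw [Real.le_log_iff_exp_le (by linarith)]
    have := Real.exp_one_lt_d9
    linarith
  have hM : ((2 * ⌈c * (1 + Real.log n)⌉₊ + 5 : ℕ) : ℝ) ≤ c₁ * Real.log n := by
    push_cast
    have h5 : ((⌈c * (1 + Real.log n)⌉₊ : ℕ) : ℝ) < c * (1 + Real.log n) + 1 :=
      Nat.ceil_lt_add_one (by positivity)
    have h6 : c ≤ c * Real.log n := by nlinarith
    rw [hc₁]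
    nlinarith
  have hpow : ((2 * ⌈c * (1 + Real.log n)⌉₊ + 5 : ℕ) : ℝ) ^ d ≤ c₁ ^ d * (ε * n) := by
    calc ((2 * ⌈c * (1 + Real.log n)⌉₊ + 5 : ℕ) : ℝ) ^ d ≤ (c₁ * Real.log n) ^ d :=
          pow_le_pow_left₀ (Nat.cast_nonneg _) hM d
      _ = c₁ ^ d * Real.log n ^ d := mul_pow _ _ _
      _ ≤ c₁ ^ d * (ε * n) := by
          refine mul_le_mul_of_nonneg_left ?_ (by positivity)
          have h7 : ‖Real.log (n : ℝ) ^ d‖ = Real.log (n : ℝ) ^ d := by
            rw [Real.norm_eq_abs, abs_of_nonneg (by positivity)]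
          have h8 : ‖id (n : ℝ)‖ = n := by
            rw [Real.norm_eq_abs]
            exact abs_of_nonneg (Nat.cast_nonneg n)
          rw [h7, h8] at hn2
          exact hn2
  have h9 : a * (c₁ ^ d * (ε * n)) ≤ n / 4 := by
    have h10 : a * c₁ ^ d * ε ≤ 1 / 4 := by
      rw [hε, mul_one_div, div_le_div_iff₀ (by positivity) (by norm_num)]
      linarith
    calc a * (c₁ ^ d * (ε * n)) = (a * c₁ ^ d * ε) * n := by ring
      _ ≤ 1 / 4 * n := mul_le_mul_of_nonneg_right h10 (Nat.cast_nonneg n)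
      _ = n / 4 := by ring
  have h11 := mul_le_mul_of_nonneg_left hpow ha
  linarith

theorem phr_mono {u : ℕ → ℤ} {N k : ℕ} {p : ℕ → ℕ} (h : Phr u N k p) :
    ∀ i j, i < j → j ≤ k → p i < p j := by
  intro i j hij
  induction j with
  | zero => omega
  | succ j ih =>
    intro hj
    have h1 := (h.2.2 j (by omega)).1
    rcases Nat.lt_or_ge i j with h2 | h2
    · exact (ih h2 (by omega)).trans h1
    · have : i = j := by omega
      rw [this]
      exact h1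

theorem phr_inj {u : ℕ → ℤ} {N k : ℕ} {p : ℕ → ℕ} (h : Phr u N k p) :
    Set.InjOn p (Finset.range k : Set ℕ) := by
  intro i hi j hj hij
  rw [Finset.coe_range, Set.mem_Iio] at hi hj
  rcases lt_trichotomy i j with h1 | h1 | h1
  · exact absurd hij (phr_mono h i j h1 hj.le).ne
  · exact h1
  · exact absurd hij (phr_mono h j i h1 hi.le).ne'

end ZFA_

open ZFA_ in
theorem zfa_proof (hKCX : Stmt_KCX) (hZPO : Stmt_ZPO) (hZAP : Stmt_ZAP) (hZSC : Stmt_ZSC)
    (hKAP : Stmt_KAP) : Stmt_ZFA := by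
  intro I hI m x β hx hβ hli hsum
  classical
  set F : Filter ℕ := atTop ⊓ 𝓟 I with hF
  have hne : F.NeBot := ZFA_.neBot hI
  have hFle : F ≤ atTop := inf_le_left
  set G : Set ℝ := {y : ℝ | ∃ (b : ℕ) (C : ℝ), 2 ≤ b ∧
    ∀ N ∈ I, LZE b y N (C * (1 + Real.log N))} with hG
  have hfrac : ∀ i, ∃ p q : ℝ, p ∈ Algebra.adjoin ℚ G ∧ q ∈ Algebra.adjoin ℚ G ∧ q ≠ 0 ∧
      x i = p / q := by
    intro i
    obtain ⟨r, hr, s, hs, h⟩ := (IntermediateField.mem_adjoin_iff_div (F := ℚ) (S := G)).1 (hx i)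
    by_cases h0 : s = 0
    · refine ⟨0, 1, Subalgebra.zero_mem _, Subalgebra.one_mem _, one_ne_zero, ?_⟩
      rw [h, h0]; simp
    · exact ⟨r, s, hr, hs, h0, h⟩
  choose p q hp hq hq0 hxpq using hfrac
  set Q : ℝ := ∏ j, q j with hQ
  have hQ0 : Q ≠ 0 := Finset.prod_ne_zero_iff.2 (fun j _ => hq0 j)
  have hmem : ∀ i, x i * Q ∈ Algebra.adjoin ℚ G := by
    intro i
    have : x i * Q = p i * ∏ j ∈ Finset.univ.erase i, q j := by
      rw [hQ, ← Finset.mul_prod_erase Finset.univ q (Finset.mem_univ i), hxpq i]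
      field_simp [hq0 i]
    rw [this]
    exact Subalgebra.mul_mem _ (hp i) (Subalgebra.prod_mem _ (fun j _ => hq j))
  -- the common family
  obtain ⟨κ, y, P, hyG, hPX⟩ := exists_family (fun i => x i * Q) hmem
  choose b C hb hLZ using hyG
  choose dd hdd using fun i => hZPO κ (P i)
  -- the field
  set K : IntermediateField ℚ ℝ := IntermediateField.adjoin ℚ (Set.range β) with hK
  have hKfd : FiniteDimensional ℚ K := by
    have : Finite (Set.range β) := Set.finite_range β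
    apply IntermediateField.finiteDimensional_adjoin
    rintro y ⟨i, rfl⟩
    exact (hβ i).isIntegral
  have hβK : ∀ i, β i ∈ K := fun i => IntermediateField.subset_adjoin ℚ _ ⟨i, rfl⟩
  intro i₀
  by_contra hi₀
  have hne0 : (⟨β i₀, hβK i₀⟩ : K) ≠ 0 := by
    intro h
    exact hi₀ (congrArg Subtype.val h)
  obtain ⟨lam, hlam⟩ : ∃ lam : K →ₗ[ℚ] ℚ, lam ⟨β i₀, hβK i₀⟩ ≠ 0 := by
    by_contra hcon
    push Not at hcon
    exact hne0 ((Module.forall_dual_apply_eq_zero_iff ℚ _).1 hcon)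
  have hrel : ∑ i, (((⟨β i, hβK i⟩ : K) : ℝ)) * (x i * Q) = 0 := by
    have : ∑ i, β i * (x i * Q) = (∑ i, β i * x i) * Q := by
      rw [Finset.sum_mul]; exact Finset.sum_congr rfl (fun i _ => by ring)
    calc ∑ i, (((⟨β i, hβK i⟩ : K) : ℝ)) * (x i * Q) = ∑ i, β i * (x i * Q) := rfl
      _ = (∑ i, β i * x i) * Q := this
      _ = 0 := by rw [hsum, zero_mul]
  -- the constants
  set C' : ℝ := ∑ j, |C j| with hC'
  have hC'0 : 0 ≤ C' := Finset.sum_nonneg fun j _ => abs_nonneg _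
  set d : ℕ := ∑ i, dd i with hd
  have hdd_le : ∀ i, dd i ≤ d := fun i =>
    Finset.single_le_sum (f := dd) (fun j _ => Nat.zero_le _) (Finset.mem_univ i)
  have hlogb : ∀ j, 0 ≤ Real.log (b j) := fun j => Real.log_natCast_nonneg _
  set B₀ : ℝ := ∑ j, (Real.log (b j) + 1) with hB₀
  have hB₀0 : 0 ≤ B₀ := Finset.sum_nonneg fun j _ => by have := hlogb j; linarith
  have hbB₀ : ∀ j, Real.log (b j) + 1 ≤ B₀ := fun j =>
    Finset.single_le_sum (f := fun j => Real.log (b j) + 1)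
      (fun i _ => by have := hlogb i; linarith) (Finset.mem_univ j)
  set B' : ℝ := (d : ℝ) * (B₀ + 1) with hB'
  have hB'0 : 0 ≤ B' := by positivity
  obtain ⟨Λ, hΛ4, hΛ⟩ := exists_scale ((m : ℝ) * d * B') (4 * C') (3 * B' + 3) d
    (by positivity) (by positivity)
  set M : ℕ := ⌈4 * C' * (1 + Real.log Λ)⌉₊ with hM
  set s : ℕ := 2 * M + 5 with hs
  have hs1 : 1 ≤ s := by omega
  have hsc : ∀ᶠ N : ℕ in atTop, ∀ P : Finset ℕ, (P.card : ℝ) ≤ C' * (1 + Real.log N) →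
      ∃ n : ℕ, N ≤ Λ ^ 2 * n ^ 2 ∧ Λ * n ≤ N ∧
        ((P.filter fun p => n ≤ p ∧ p < Λ * n).card : ℝ) ≤ 4 * C' * (1 + Real.log Λ) :=
    hZSC Λ C' (by omega) hC'0
  -- the windows
  have hwin : ∀ᶠ N : ℕ in F, ∃ n : ℕ, N ≤ Λ ^ 2 * n ^ 2 ∧ Λ * n ≤ N ∧ ∀ j : Fin κ,
      ∃ (u : ℕ → ℤ) (k : ℕ) (p : ℕ → ℕ), (∀ i, 0 ≤ u i ∧ u i < b j) ∧ Phr u N k p ∧
      ((Finset.range k).filter fun i => n ≤ p i ∧ p i < Λ * n).card ≤ M ∧
      ((Finset.range (Λ * n)).filter fun i => n ≤ i ∧ dig (b j) (y j) (i + 1) ≠ u i).card ≤ M := by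
    have h2 : ∀ᶠ n in F, n ∈ I := (inf_le_right : F ≤ 𝓟 I) (mem_principal_self I)
    filter_upwards [hFle hsc, h2, hFle (eventually_ge_atTop 1)] with N hN hNI hN1
    have h3 := fun j => hLZ j N hNI
    unfold LZE at h3
    choose u k p hu hphr hle using h3
    set PP : Finset ℕ := Finset.univ.biUnion (fun j : Fin κ => (Finset.range (k j)).image (p j) ∪
      (Finset.range N).filter fun i => dig (b j) (y j) (i + 1) ≠ u j i) with hPP
    have hlogN : 0 ≤ 1 + Real.log (N : ℝ) := by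
      have := Real.log_natCast_nonneg N
      linarith
    have hcard : (PP.card : ℝ) ≤ C' * (1 + Real.log N) := by
      have h4 : PP.card ≤ ∑ j, (k j +
          ((Finset.range N).filter fun i => dig (b j) (y j) (i + 1) ≠ u j i).card) := by
        refine Finset.card_biUnion_le.trans (Finset.sum_le_sum fun j _ => ?_)
        refine (Finset.card_union_le _ _).trans (Nat.add_le_add_right ?_ _)
        exact Finset.card_image_le.trans (by rw [Finset.card_range])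
      calc (PP.card : ℝ) ≤ ((∑ j, (k j +
          ((Finset.range N).filter fun i => dig (b j) (y j) (i + 1) ≠ u j i).card) : ℕ) : ℝ) := by
            exact_mod_cast h4
        _ = ∑ j, ((k j : ℝ) +
          ((Finset.range N).filter fun i => dig (b j) (y j) (i + 1) ≠ u j i).card) := by
            push_cast
            rfl
        _ ≤ ∑ j, |C j| * (1 + Real.log N) := by
            refine Finset.sum_le_sum fun j _ => (hle j).trans ?_
            exact mul_le_mul_of_nonneg_right (le_abs_self _) hlogN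
        _ = C' * (1 + Real.log N) := by rw [hC', Finset.sum_mul]
    obtain ⟨n, hn1, hn2, hn3⟩ := hN PP hcard
    have hn4 : (PP.filter fun p => n ≤ p ∧ p < Λ * n).card ≤ M := by
      have h5 : ((PP.filter fun p => n ≤ p ∧ p < Λ * n).card : ℝ) ≤ M :=
        hn3.trans (Nat.le_ceil _)
      exact_mod_cast h5
    refine ⟨n, hn1, hn2, fun j => ⟨u j, k j, p j, hu j, hphr j, ?_, ?_⟩⟩
    · refine le_trans ?_ hn4
      refine Finset.card_le_card_of_injOn (p j) ?_ ?_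
      · intro i hi
        rw [Finset.coe_filter, Set.mem_ofPred_eq] at hi
        rw [Finset.coe_filter, Set.mem_ofPred_eq]
        refine ⟨?_, hi.2⟩
        rw [hPP, Finset.mem_biUnion]
        exact ⟨j, Finset.mem_univ _, Finset.mem_union_left _ (Finset.mem_image_of_mem _ hi.1)⟩
      · intro i hi i' hi' hii
        rw [Finset.coe_filter, Set.mem_ofPred_eq] at hi hi'
        exact phr_inj (hphr j) (by exact_mod_cast hi.1) (by exact_mod_cast hi'.1) hii
    · refine le_trans (Finset.card_le_card ?_) hn4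
      intro i hi
      rw [Finset.mem_filter, Finset.mem_range] at hi
      rw [Finset.mem_filter]
      refine ⟨?_, hi.2.1, hi.1⟩
      rw [hPP, Finset.mem_biUnion]
      refine ⟨j, Finset.mem_univ _, Finset.mem_union_right _ ?_⟩
      rw [Finset.mem_filter, Finset.mem_range]
      exact ⟨by omega, hi.2.2⟩
  -- the ultrafilter
  set U : Ultrafilter ℕ := Ultrafilter.of F with hU
  have hUF : (U : Filter ℕ) ≤ F := Ultrafilter.of_le F
  obtain ⟨nn, hnn⟩ : ∃ nn : ℕ → ℕ, ∀ᶠ N : ℕ in (U : Filter ℕ),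
      N ≤ Λ ^ 2 * (nn N) ^ 2 ∧ Λ * nn N ≤ N ∧ ∀ j : Fin κ,
      ∃ (u : ℕ → ℤ) (k : ℕ) (p : ℕ → ℕ), (∀ i, 0 ≤ u i ∧ u i < b j) ∧ Phr u N k p ∧
      ((Finset.range k).filter fun i => nn N ≤ p i ∧ p i < Λ * nn N).card ≤ M ∧
      ((Finset.range (Λ * nn N)).filter fun i => nn N ≤ i ∧
        dig (b j) (y j) (i + 1) ≠ u i).card ≤ M := by
    exact Filter.Eventually.choice (hwin.filter_mono hUF)
  have hnlim : Tendsto nn (U : Filter ℕ) atTop := by
    rw [tendsto_atTop]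
    intro a
    have h5 : ∀ᶠ N : ℕ in (U : Filter ℕ), Λ ^ 2 * a ^ 2 < N :=
      (hUF.trans hFle) (eventually_gt_atTop _)
    filter_upwards [hnn, h5] with N h6 h7
    by_contra hcon
    push Not at hcon
    have h8 : Λ ^ 2 * (nn N) ^ 2 ≤ Λ ^ 2 * a ^ 2 :=
      Nat.mul_le_mul_left _ (Nat.pow_le_pow_left hcon.le 2)
    omega
  have hT : Tendsto (fun t : ℕ => (nn t : ℝ)) (U : Filter ℕ) atTop :=
    tendsto_natCast_atTop_atTop.comp hnlim
  have hap0 : ∀ j, Apr U (fun t : ℕ => (nn t : ℝ)) s B₀ ((Λ : ℝ) / 2) (y j) := by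
    intro j
    refine (hKAP U (fun t : ℕ => (nn t : ℝ)) hT).1 s s (Real.log (b j) + 1) B₀ ((Λ : ℝ) / 2)
      ((Λ : ℝ) / 2) (y j) le_rfl (hbB₀ j) le_rfl ?_
    refine hZAP (b j) M Λ (y j) U nn (fun t => t) (hb j) (by omega) hnlim ?_
    filter_upwards [hnn] with t ht
    exact ⟨ht.2.1, ht.2.2 j⟩
  have hcond : ((m : ℝ) * ((d * s ^ d : ℕ) : ℝ) + 2) * B' + B' + 3 ≤ (Λ : ℝ) / 2 := by
    refine le_trans (le_of_eq ?_) hΛ
    push_cast
    ring
  have hapX : ∀ i, Apr U (fun t : ℕ => (nn t : ℝ)) (d * s ^ d) B' ((Λ : ℝ) / 2) (x i * Q) := by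
    intro i
    have h5 : (dd i : ℝ) ≤ d := by exact_mod_cast hdd_le i
    have h6 : (dd i : ℝ) * (B₀ + 1) ≤ B' := mul_le_mul_of_nonneg_right h5 (by positivity)
    have h7 : (dd i : ℝ) * (B₀ + 1) ≤ (Λ : ℝ) / 2 := by
      have h8 : 0 ≤ ((m : ℝ) * ((d * s ^ d : ℕ) : ℝ) + 2) * B' := by positivity
      linarith
    have h9 := hdd i U (fun t : ℕ => (nn t : ℝ)) s B₀ ((Λ : ℝ) / 2) y hT hs1 hB₀0 h7 hap0
    rw [hPX i] at h9
    refine (hKAP U (fun t : ℕ => (nn t : ℝ)) hT).1 _ _ _ B' ((Λ : ℝ) / 2)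
      ((Λ : ℝ) / 2) _ ?_ h6 le_rfl h9
    exact Nat.mul_le_mul (hdd_le i) (Nat.pow_le_pow_right hs1 (hdd_le i))
  have hfin := hKCX K m (d * s ^ d) (fun i => x i * Q) (fun i => ⟨β i, hβK i⟩) lam B' hB'0 hrel
    U (fun t : ℕ => (nn t : ℝ)) ((Λ : ℝ) / 2) hT hcond hapX
  have hfin2 : ∑ i, (lam ⟨β i, hβK i⟩ : ℚ) • x i = 0 := by
    have h1 : (∑ i, (lam ⟨β i, hβK i⟩ : ℚ) • x i) * Q = 0 := by
      rw [← hfin, Finset.sum_mul]
      refine Finset.sum_congr rfl (fun i _ => ?_)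
      rw [Rat.smul_def]
      ring
    exact (mul_eq_zero.1 h1).resolve_right hQ0
  exact hlam (Fintype.linearIndependent_iff.1 hli _ hfin2 i₀)

end Pool.Agent.SBT
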