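import Pool.Agent.SBT.StmtsN
import Pool.Agent.SBT.MFC
import Pool.Agent.SBT.MFF
import Pool.Agent.SBT.MFL
import Pool.Agent.SBT.ZFA

/-!
# NFF: the field theorem for Lempel-Ziv complexity with errors
-/

set_option autoImplicit false

namespace Pool.Agent.SBT

open Filter

namespace NFF_

/-- the windows -/
theorem window (hZSC : Stmt_ZSC) {ι : Type} [Fintype ι] (b : ι → ℕ) (y : ι → ℝ) (C' : ℝ)
    (hC' : 0 ≤ C') (Λ M : ℕ) (hΛ : 2 ≤ Λ) (hM : 4 * C' * (1 + Real.log Λ) ≤ M) :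
    ∀ᶠ N : ℕ in atTop, ∀ c : ι → ℝ, (∀ j, LZE (b j) (y j) N (c j)) →
      ∑ j, c j ≤ C' * (1 + Real.log N) →
      ∃ n : ℕ, N ≤ Λ ^ 2 * n ^ 2 ∧ Λ * n ≤ N ∧ ∀ j : ι,
        ∃ (u : ℕ → ℤ) (k : ℕ) (p : ℕ → ℕ), (∀ i, 0 ≤ u i ∧ u i < b j) ∧ Phr u N k p ∧
        ((Finset.range k).filter fun i => n ≤ p i ∧ p i < Λ * n).card ≤ M ∧
        ((Finset.range (Λ * n)).filter fun i => n ≤ i ∧
          dig (b j) (y j) (i + 1) ≠ u i).card ≤ M := by
  classical
  filter_upwards [hZSC Λ C' hΛ hC'] with N hN c h3 hsum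
  unfold LZE at h3
  choose u k p hu hphr hle using h3
  set PP : Finset ℕ := Finset.univ.biUnion (fun j : ι => (Finset.range (k j)).image (p j) ∪
    (Finset.range N).filter fun i => dig (b j) (y j) (i + 1) ≠ u j i) with hPP
  have hcard : (PP.card : ℝ) ≤ C' * (1 + Real.log N) := by
    have h4 : PP.card ≤ ∑ j, (k j +
        ((Finset.range N).filter fun i => dig (b j) (y j) (i + 1) ≠ u j i).card) := by
      refine Finset.card_biUnion_le.trans (Finset.sum_le_sum fun j _ => ?_)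
      refine (Finset.card_union_le _ _).trans (Nat.add_le_add_right ?_ _)
      exact Finset.card_image_le.trans (by rw [Finset.card_range])
    calc (PP.card : ℝ) ≤ ((∑ j, (k j +
        ((Finset.range N).filter fun i => dig (b j) (y j) (i + 1) ≠ u j i).card) : ℕ) : ℝ) := by
          exact_mod_cast h4
      _ = ∑ j, ((k j : ℝ) +
        ((Finset.range N).filter fun i => dig (b j) (y j) (i + 1) ≠ u j i).card) := by
          push_cast
          rfl
      _ ≤ ∑ j, c j := Finset.sum_le_sum fun j _ => hle j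
      _ ≤ C' * (1 + Real.log N) := hsum
  obtain ⟨n, hn1, hn2, hn3⟩ := hN PP hcard
  have hn4 : (PP.filter fun p => n ≤ p ∧ p < Λ * n).card ≤ M := by
    have h5 : ((PP.filter fun p => n ≤ p ∧ p < Λ * n).card : ℝ) ≤ M := hn3.trans hM
    exact_mod_cast h5
  refine ⟨n, hn1, hn2, fun j => ⟨u j, k j, p j, hu j, hphr j, ?_, ?_⟩⟩
  · refine le_trans ?_ hn4
    refine Finset.card_le_card_of_injOn (p j) ?_ ?_
    · intro i hi
      rw [Finset.coe_filter, Set.mem_ofPred_eq] at hi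
      rw [Finset.coe_filter, Set.mem_ofPred_eq]
      refine ⟨?_, hi.2⟩
      rw [hPP, Finset.mem_biUnion]
      exact ⟨j, Finset.mem_univ _, Finset.mem_union_left _ (Finset.mem_image_of_mem _ hi.1)⟩
    · intro i hi i' hi' hii
      rw [Finset.coe_filter, Set.mem_ofPred_eq] at hi hi'
      exact ZFA_.phr_inj (hphr j) (by exact_mod_cast hi.1) (by exact_mod_cast hi'.1) hii
  · refine le_trans (Finset.card_le_card ?_) hn4
    intro i hi
    rw [Finset.mem_filter, Finset.mem_range] at hi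
    rw [Finset.mem_filter]
    refine ⟨?_, hi.2.1, hi.1⟩
    rw [hPP, Finset.mem_biUnion]
    refine ⟨j, Finset.mem_univ _, Finset.mem_union_right _ ?_⟩
    rw [Finset.mem_filter, Finset.mem_range]
    exact ⟨by omega, hi.2.2⟩

theorem lc_mono {U : Ultrafilter ℕ} {Γ Γ' : Set (ℕ → ℚ)} (h : Γ ⊆ Γ') {f : ℕ → ℚ}
    (hf : Lc U Γ f) : Lc U Γ' f := by
  obtain ⟨N, c, u, hu, he⟩ := hf
  exact ⟨N, c, u, fun t => h (hu t), he⟩

theorem apw_mono {U : Ultrafilter ℕ} {S : Finset ℕ} {T : ℕ → ℝ} {W : Set ℚ} {s : ℕ}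
    {B B' Λ : ℝ} {x : ℝ} (hT : ∀ᶠ n in (U : Filter ℕ), 0 ≤ T n) (hB : B ≤ B')
    (h : Apw U S T W s B Λ x) : Apw U S T W s B' Λ x := by
  obtain ⟨A, R, f₀, f, y, hA, hf₀, hf, hf0, hy, hR, hx⟩ := h
  refine ⟨A, R, f₀, f, y, hA, lc_mono (MFC_.sm_mono hT hB) hf₀, hf, hf0, ?_, hR, ?_⟩
  · filter_upwards [hy, hT] with n h1 h2 j
    refine (h1 j).trans (Real.exp_le_exp.2 ?_)
    exact mul_le_mul_of_nonneg_right hB h2
  · filter_upwards [hx, hT] with n h1 h2
    refine h1.trans (Real.exp_le_exp.2 ?_)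
    exact mul_le_mul_of_nonneg_right (by linarith) h2

theorem int_poly {k : ℕ} (x : Fin k → ℝ) (ξ : ℝ)
    (h : ξ ∈ IntermediateField.adjoin ℚ (Set.range x)) :
    ∃ P : Fin 2 → MvPolynomial (Fin k) ℤ, MvPolynomial.aeval x (P 1) ≠ 0 ∧
      MvPolynomial.aeval x (P 0) = ξ * MvPolynomial.aeval x (P 1) := by
  obtain ⟨P, hP1, hP0⟩ := MFF_.exists_poly x ξ h
  obtain ⟨h0, p0, h00, e0⟩ := MFC_.clear (P 0)
  obtain ⟨h1, p1, h10, e1⟩ := MFC_.clear (P 1)
  have c0 := MFC_.aeval_clear x (P 0) p0 h0 e0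
  have c1 := MFC_.aeval_clear x (P 1) p1 h1 e1
  refine ⟨![MvPolynomial.C h1 * p0, MvPolynomial.C h0 * p1], ?_, ?_⟩
  · show MvPolynomial.aeval x (MvPolynomial.C h0 * p1) ≠ 0
    rw [map_mul, MvPolynomial.aeval_C, c1]
    have h0' : (algebraMap ℤ ℝ) h0 ≠ 0 := by
      rw [algebraMap_int_eq, eq_intCast]
      exact_mod_cast h00
    have h1' : (h1 : ℝ) ≠ 0 := by exact_mod_cast h10
    exact mul_ne_zero h0' (mul_ne_zero h1' hP1)
  · show MvPolynomial.aeval x (MvPolynomial.C h1 * p0) =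
      ξ * MvPolynomial.aeval x (MvPolynomial.C h0 * p1)
    rw [map_mul, map_mul, MvPolynomial.aeval_C, MvPolynomial.aeval_C, c0, c1, hP0]
    simp only [algebraMap_int_eq, eq_intCast]
    ring

theorem aeval_pad {K k : ℕ} (x : Fin k → ℝ) (p : Fin K → Fin k) (ι : Fin k → Fin K)
    (h : ∀ i, p (ι i) = i) (P : MvPolynomial (Fin k) ℤ) :
    MvPolynomial.aeval (x ∘ p) (MvPolynomial.rename ι P) = MvPolynomial.aeval x P := by
  rw [MvPolynomial.aeval_rename]
  have : (x ∘ p) ∘ ι = x := by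
    funext i
    simp [h i]
  rw [this]

/-- the primes which divide a base are in `Prb` -/
theorem mem_prb {k : ℕ} {bs : Fin 2 → Fin k → ℕ} (hbs : ∀ r i, 2 ≤ bs r i) {q : ℕ}
    (hq : q.Prime) (r : Fin 2) (i : Fin k) (hd : q ∣ bs r i) : q ∈ Prb bs := by
  unfold Prb
  rw [Finset.mem_biUnion]
  refine ⟨r, Finset.mem_univ _, ?_⟩
  rw [Finset.mem_biUnion]
  refine ⟨i, Finset.mem_univ _, Nat.mem_primeFactors.2 ⟨hq, hd, ?_⟩⟩
  have := hbs r i
  omega

theorem ps_prb {k : ℕ} (bs : Fin 2 → Fin k → ℕ) : PS (Prb bs) := by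
  intro q hq
  unfold Prb at hq
  rw [Finset.mem_biUnion] at hq
  obtain ⟨r, -, hq⟩ := hq
  rw [Finset.mem_biUnion] at hq
  obtain ⟨i, -, hq⟩ := hq
  exact Nat.prime_of_mem_primeFactors hq

end NFF_

open NFF_ in
theorem nff_proof (hNFC : Stmt_NFC) (hNAP : Stmt_NAP) (hZSC : Stmt_ZSC) : Stmt_NFF := by
  intro k l a b x y ξ μ ha hb hab hξ hx hy K
  classical
  have hk := MFF_.pos_of_mem x ξ μ hξ hx
  have hl := MFF_.pos_of_mem y ξ μ hξ hy
  obtain ⟨P, hP1, hP0⟩ := int_poly x ξ hx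
  obtain ⟨Q, hQ1, hQ0⟩ := int_poly y ξ hy
  set p : Fin (k + l) → Fin k := Fin.append id (fun _ => ⟨0, hk⟩) with hp
  set q : Fin (k + l) → Fin l := Fin.append (fun _ => ⟨0, hl⟩) id with hq
  have hpι : ∀ i, p (Fin.castAdd l i) = i := fun i => by simp [hp]
  have hqι : ∀ i, q (Fin.natAdd k i) = i := fun i => by simp [hq]
  -- all the numbers together
  set bb : Fin k ⊕ Fin l → ℕ := Sum.elim a b with hbb
  set xx : Fin k ⊕ Fin l → ℝ := Sum.elim x y with hxx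
  set idx : Fin 2 → Fin (k + l) → Fin k ⊕ Fin l :=
    ![fun i => Sum.inl (p i), fun i => Sum.inr (q i)] with hidx
  have hbb2 : ∀ j, 2 ≤ bb j := by
    rintro (j | j)
    · exact ha j
    · exact hb j
  set bs : Fin 2 → Fin (k + l) → ℕ := ![a ∘ p, b ∘ q] with hbs
  set X : Fin 2 → Fin (k + l) → ℝ := ![x ∘ p, y ∘ q] with hX
  have hbsI : ∀ r i, bs r i = bb (idx r i) := by
    intro r i
    fin_cases r <;> rfl
  have hXI : ∀ r i, X r i = xx (idx r i) := by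
    intro r i
    fin_cases r <;> rfl
  have hbs2 : ∀ r i, 2 ≤ bs r i := by
    intro r i
    rw [hbsI]
    exact hbb2 _
  obtain ⟨E, hE⟩ := hNFC (k + l) bs ξ μ X
    ![fun c => MvPolynomial.rename (Fin.castAdd l) (P c),
      fun c => MvPolynomial.rename (Fin.natAdd k) (Q c)]
    hbs2 (MFF_.indG_comp a b ha hb p q hab) hξ
    (by
      intro r
      fin_cases r
      · show MvPolynomial.aeval (x ∘ p) (MvPolynomial.rename (Fin.castAdd l) (P 1)) ≠ 0
        rw [aeval_pad x p _ hpι]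
        exact hP1
      · show MvPolynomial.aeval (y ∘ q) (MvPolynomial.rename (Fin.natAdd k) (Q 1)) ≠ 0
        rw [aeval_pad y q _ hqι]
        exact hQ1)
    (by
      intro r
      fin_cases r
      · show MvPolynomial.aeval (x ∘ p) (MvPolynomial.rename (Fin.castAdd l) (P 0)) =
          ξ * MvPolynomial.aeval (x ∘ p) (MvPolynomial.rename (Fin.castAdd l) (P 1))
        rw [aeval_pad x p _ hpι, aeval_pad x p _ hpι]
        exact hP0
      · show MvPolynomial.aeval (y ∘ q) (MvPolynomial.rename (Fin.natAdd k) (Q 0)) =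
          ξ * MvPolynomial.aeval (y ∘ q) (MvPolynomial.rename (Fin.natAdd k) (Q 1))
        rw [aeval_pad y q _ hqι, aeval_pad y q _ hqι]
        exact hQ0)
  by_contra hcon
  obtain ⟨U, hUle, hUbad⟩ := MFL_.exists_ultra _ (Filter.not_eventually.1 hcon)
  -- the constants
  set C' : ℝ := max K 0 with hC'
  have hC'0 : 0 ≤ C' := le_max_right _ _
  have hlogb : ∀ j, 0 ≤ Real.log (bb j) := fun j => Real.log_natCast_nonneg _
  set Lm : ℝ := ∑ j, Real.log (bb j) with hLm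
  have hLm0 : 0 ≤ Lm := Finset.sum_nonneg fun j _ => hlogb j
  have hlogLm : ∀ j, Real.log (bb j) ≤ Lm := fun j =>
    Finset.single_le_sum (f := fun j => Real.log (bb j)) (fun i _ => hlogb i) (Finset.mem_univ j)
  obtain ⟨Λ, hΛ4, hΛ⟩ := ZFA_.exists_scale ((E : ℝ) * (Lm + 1) * 2 ^ (E + 1)) (4 * C') 0 (E + 1)
    (by positivity) (by positivity)
  set M : ℕ := ⌈4 * C' * (1 + Real.log Λ)⌉₊ with hM
  set s : ℕ := 2 * M + 5 with hs
  set B : ℝ := ((M : ℝ) + 2) * Lm with hB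
  have hB0 : 0 ≤ B := by positivity
  have hcond : (E : ℝ) * ((s : ℝ) + 1) ^ E * (B + 1) ≤ (Λ : ℝ) / 2 := by
    refine le_trans ?_ hΛ
    have hs5 : (5 : ℝ) ≤ s := by
      rw [hs]
      push_cast
      have : (0 : ℝ) ≤ M := Nat.cast_nonneg M
      linarith
    have hsM : (M : ℝ) + 2 ≤ s + 1 := by
      rw [hs]
      push_cast
      have : (0 : ℝ) ≤ M := Nat.cast_nonneg M
      linarith
    have h1 : B + 1 ≤ ((s : ℝ) + 1) * (Lm + 1) := by
      rw [hB]
      nlinarith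
    have h2 : ((s : ℝ) + 1) ≤ 2 * s := by linarith
    calc (E : ℝ) * ((s : ℝ) + 1) ^ E * (B + 1)
        ≤ (E : ℝ) * ((s : ℝ) + 1) ^ E * (((s : ℝ) + 1) * (Lm + 1)) :=
          mul_le_mul_of_nonneg_left h1 (by positivity)
      _ = (E : ℝ) * (Lm + 1) * ((s : ℝ) + 1) ^ (E + 1) := by ring
      _ ≤ (E : ℝ) * (Lm + 1) * (2 * s) ^ (E + 1) := by
          refine mul_le_mul_of_nonneg_left ?_ (by positivity)
          exact pow_le_pow_left₀ (by positivity) h2 _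
      _ = (E : ℝ) * (Lm + 1) * 2 ^ (E + 1) * (s : ℝ) ^ (E + 1) + 0 := by
          rw [mul_pow]; ring
  -- the windows
  have hwin : ∀ᶠ N : ℕ in (U : Filter ℕ), ∃ n : ℕ, N ≤ Λ ^ 2 * n ^ 2 ∧ Λ * n ≤ N ∧
      ∀ j : Fin k ⊕ Fin l,
        ∃ (u : ℕ → ℤ) (k : ℕ) (p : ℕ → ℕ), (∀ i, 0 ≤ u i ∧ u i < bb j) ∧ Phr u N k p ∧
        ((Finset.range k).filter fun i => n ≤ p i ∧ p i < Λ * n).card ≤ M ∧
        ((Finset.range (Λ * n)).filter fun i => n ≤ i ∧
          dig (bb j) (xx j) (i + 1) ≠ u i).card ≤ M := by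
    filter_upwards [hUbad, hUle (window hZSC bb xx C' hC'0 Λ M (by omega) (Nat.le_ceil _)),
      hUle (eventually_ge_atTop 1)] with N hN1 hN2 hN3
    push Not at hN1
    obtain ⟨c, c', hc, hc', hlt⟩ := hN1
    refine hN2 (Sum.elim c c') ?_ ?_
    · rintro (j | j)
      · exact hc j
      · exact hc' j
    · rw [Fintype.sum_sum_type]
      have hlogN : 0 ≤ Real.log (N : ℝ) := Real.log_natCast_nonneg N
      have h1 : K * Real.log N ≤ C' * Real.log N :=
        mul_le_mul_of_nonneg_right (le_max_left _ _) hlogN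
      simp only [Sum.elim_inl, Sum.elim_inr]
      nlinarith
  obtain ⟨nn, hnn⟩ : ∃ nn : ℕ → ℕ, ∀ᶠ N : ℕ in (U : Filter ℕ),
      N ≤ Λ ^ 2 * (nn N) ^ 2 ∧ Λ * nn N ≤ N ∧ ∀ j : Fin k ⊕ Fin l,
        ∃ (u : ℕ → ℤ) (k : ℕ) (p : ℕ → ℕ), (∀ i, 0 ≤ u i ∧ u i < bb j) ∧ Phr u N k p ∧
        ((Finset.range k).filter fun i => nn N ≤ p i ∧ p i < Λ * nn N).card ≤ M ∧
        ((Finset.range (Λ * nn N)).filter fun i => nn N ≤ i ∧
          dig (bb j) (xx j) (i + 1) ≠ u i).card ≤ M :=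
    Filter.Eventually.choice hwin
  have hnlim : Tendsto nn (U : Filter ℕ) atTop := by
    rw [tendsto_atTop]
    intro a
    have h5 : ∀ᶠ N : ℕ in (U : Filter ℕ), Λ ^ 2 * a ^ 2 < N :=
      hUle (eventually_gt_atTop _)
    filter_upwards [hnn, h5] with N h6 h7
    by_contra hcon
    push Not at hcon
    have h8 : Λ ^ 2 * (nn N) ^ 2 ≤ Λ ^ 2 * a ^ 2 :=
      Nat.mul_le_mul_left _ (Nat.pow_le_pow_left hcon.le 2)
    omega
  have hT : Tendsto (fun t : ℕ => (nn t : ℝ)) (U : Filter ℕ) atTop :=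
    tendsto_natCast_atTop_atTop.comp hnlim
  have hS : PS (Prb bs) := ps_prb bs
  refine hE s B ((Λ : ℝ) / 2) hB0 hcond U (fun t : ℕ => (nn t : ℝ)) hT ?_
  intro r i
  have hU : ∀ j, IsU (Prb bs) (bs r j : ℚ) := by
    intro j
    have := hbs2 r j
    exact isU_nat hS (by omega) fun q hq hd => mem_prb hbs2 hq r j hd
  refine apw_mono (B := ((M : ℝ) + 2) * Real.log (bs r i))
    (Eventually.of_forall fun n => Nat.cast_nonneg _) ?_ ?_
  · rw [hbsI]
    exact mul_le_mul_of_nonneg_left (hlogLm _) (by positivity)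
  refine hNAP (Prb bs) (Grp (bs r) {Finset.univ}) (bs r i) M Λ (X r i) U nn (fun t => t) hS
    (MFC_.isGrp_grp (bs r) (hbs2 r)) (MFC_.isU_grp hS (bs r) hU) ?_ (hbs2 r i) (by omega) hnlim ?_
  · have := MFC_.pow_mem_grp (bs r) i 1
    rwa [pow_one] at this
  · filter_upwards [hnn] with t ht
    refine ⟨ht.2.1, ?_⟩
    rw [hbsI, hXI]
    exact ht.2.2 _

end Pool.Agent.SBT
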