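import Pool.Agent.SBT.StmtsD

set_option autoImplicit false

namespace Pool.Agent.SBT

open Finset

namespace RPA_

theorem add {a N N' M : ℕ} {F G : ℤ} (h : Rep a N M F) (h' : Rep a N' M G) :
    Rep a (N + N') M (F + G) := by
  obtain ⟨e, k, h1, h2, rfl⟩ := h
  obtain ⟨e', k', h1', h2', rfl⟩ := h'
  refine ⟨Fin.append e e', Fin.append k k', ?_, ?_, ?_⟩
  · intro t
    refine Fin.addCases (fun i => ?_) (fun i => ?_) t
    · rw [Fin.append_left]
      exact h1 i
    · rw [Fin.append_right]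
      exact h1' i
  · intro t
    refine Fin.addCases (fun i => ?_) (fun i => ?_) t
    · rw [Fin.append_left]
      exact h2 i
    · rw [Fin.append_right]
      exact h2' i
  · rw [Fin.sum_univ_add]
    simp only [Fin.append_left, Fin.append_right]

theorem mul {a N N' M M' : ℕ} {F G : ℤ} (h : Rep a N M F) (h' : Rep a N' M' G) :
    Rep a (N * N') (M + M') (F * G) := by
  obtain ⟨e, k, h1, h2, rfl⟩ := h
  obtain ⟨e', k', h1', h2', rfl⟩ := h'
  refine ⟨fun p => e (finProdFinEquiv.symm p).1 * e' (finProdFinEquiv.symm p).2,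
    fun p => k (finProdFinEquiv.symm p).1 + k' (finProdFinEquiv.symm p).2, ?_, ?_, ?_⟩
  · intro t
    rw [abs_mul]
    exact mul_le_one₀ (h1 _) (abs_nonneg _) (h1' _)
  · intro t
    exact Nat.add_le_add (h2 _) (h2' _)
  · rw [sum_mul_sum, ← Fintype.sum_prod_type']
    rw [← Equiv.sum_comp finProdFinEquiv.symm]
    apply sum_congr rfl
    intro p _
    rw [pow_add]
    ring

theorem zero (a N M : ℕ) : Rep a N M 0 :=
  ⟨fun _ => 0, fun _ => 0, by intro t; simp, by intro t; simp, by simp⟩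

theorem mono {a N N' M M' : ℕ} {F : ℤ} (hN : N ≤ N') (hM : M ≤ M') (h : Rep a N M F) :
    Rep a N' M' F := by
  have h1 : Rep a N M' F := by
    obtain ⟨e, k, h1, h2, rfl⟩ := h
    exact ⟨e, k, h1, fun t => (h2 t).trans hM, rfl⟩
  obtain ⟨n, rfl⟩ := Nat.exists_eq_add_of_le hN
  have := add h1 (zero a n M')
  rwa [add_zero] at this

theorem pw (a k : ℕ) : Rep a 1 k ((a : ℤ) ^ k) :=
  ⟨fun _ => 1, fun _ => k, by intro t; simp, by intro t; simp, by simp⟩

theorem neg {a N M : ℕ} {F : ℤ} (h : Rep a N M F) : Rep a N M (-F) := by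
  obtain ⟨e, k, h1, h2, rfl⟩ := h
  refine ⟨fun t => - e t, k, ?_, h2, ?_⟩
  · intro t
    rw [abs_neg]
    exact h1 t
  · simp

theorem two (a q : ℕ) : Rep a 2 q ((a : ℤ) ^ q - 1) := by
  have h1 := pw a q
  have h2 : Rep a 1 q (1 : ℤ) := by
    have := pw a 0
    rw [pow_zero] at this
    exact mono le_rfl (Nat.zero_le _) this
  have := add h1 (neg h2)
  simpa [sub_eq_add_neg] using this

theorem prd (a : ℕ) : ∀ (E : ℕ) (q : Fin E → ℕ),
    Rep a (2 ^ E) (∑ i, q i) (∏ i, ((a : ℤ) ^ q i - 1)) := by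
  intro E
  induction E with
  | zero =>
    intro q
    have := pw a 0
    simpa using this
  | succ E ih =>
    intro q
    rw [Fin.prod_univ_castSucc, Fin.sum_univ_castSucc, pow_succ]
    exact mul (ih _) (two a _)

end RPA_

theorem rpa_proof : Stmt_RPA := by
  refine ⟨fun a N N' M F G h h' => RPA_.add h h', fun a N N' M M' F G h h' => RPA_.mul h h',
    fun a N N' M M' F h h' h'' => RPA_.mono h h' h'', RPA_.pw, RPA_.zero,
    fun a N M F h => RPA_.neg h, RPA_.prd⟩

end Pool.Agent.SBT
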