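import Pool.Agent.SBT.StmtsN
import Pool.Agent.SBT.ZST

/-!
# NST: the values of the initial parts of a word with few cutting points; short periods
-/

set_option autoImplicit false

namespace Pool.Agent.SBT

open Filter

namespace NST_

/-- pulling a place back through the copies, without denominators -/
theorem copy_back {b : ℕ} {u P : ℕ → ℤ} (hP : ∀ i, P (i + 1) = b * P i + u i) {s c e : ℕ}
    (hs : s < c) (hu : ∀ i, c + i < e → u (s + i) = u (c + i)) :
    ∀ x, s ≤ x → x ≤ e → ∃ (z a : ℕ) (G : ℤ), s ≤ z ∧ z ≤ c ∧ z ≤ x ∧ z + a * (c - s) = x ∧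
      Rep b a x G ∧ P x = P z + G * (P c - P s) := by
  intro x
  induction x using Nat.strong_induction_on with
  | _ x ih =>
  intro h1 h2
  by_cases hx : x ≤ c
  · exact ⟨x, 0, 0, h1, hx, le_rfl, by ring, RPA_.zero _ _ _, by ring⟩
  · push Not at hx
    obtain ⟨z, a, G, h3, h4, h5, h6, h7, h8⟩ := ih (x - (c - s)) (by omega) (by omega) (by omega)
    have h9 := ZST_.copy_step hP hu (x - c) (by omega)
    have e1 : c + (x - c) = x := by omega
    have e2 : s + (x - c) = x - (c - s) := by omega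
    rw [e1, e2] at h9
    refine ⟨z, a + 1, G + (b : ℤ) ^ (x - c), h3, h4, by omega, ?_, ?_, ?_⟩
    · rw [add_mul, one_mul]
      omega
    · exact RPA_.add (RPA_.mono le_rfl (by omega) h7)
        (RPA_.mono le_rfl (by omega) (RPA_.pw b (x - c)))
    · rw [h9, h8]
      ring

/-- one step -/
theorem step {b N k n X Λ : ℕ} {u : ℕ → ℤ} {p : ℕ → ℕ} {P : ℕ → ℤ}
    (hu : ∀ i, 0 ≤ u i ∧ u i < b) (hP : ∀ i, P (i + 1) = b * P i + u i) (hp : Phr u N k p)
    (hn : 1 ≤ n) (hXΛ : X ≤ Λ * n) (hX : 0 < X) (hXN : X ≤ N) :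
    ∃ (j per s : ℕ), j < k ∧ p j < X ∧ 1 ≤ per ∧ per ≤ n ∧ s ≤ p j ∧
      ∀ x, x ≤ X → ∃ (z : ℕ) (A B c : ℤ), z ≤ p j ∧ Rep b 2 ((Λ + 1) * n) A ∧
        Rep b (2 * (Λ + 1)) ((Λ + 1) * n) B ∧ Rep b (2 * b) 1 c ∧
        ((b : ℤ) ^ per - 1) * P x = A * P z + B * P (p j) - B * P s + c := by
  classical
  obtain ⟨h0, hk, hph⟩ := hp
  have hXn : X + 1 ≤ (Λ + 1) * n := by
    rw [add_mul, one_mul]
    omega
  have hk0 : 0 < k := by
    rcases Nat.eq_zero_or_pos k with rfl | h
    · omega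
    · exact h
  -- the last phrase which starts before `X`
  obtain ⟨j, hj, hjm⟩ : ∃ j, (j < k ∧ p j < X) ∧ ∀ i, (i < k ∧ p i < X) → i ≤ j := by
    have hne : ((Finset.range k).filter fun i => p i < X).Nonempty :=
      ⟨0, by simp [hk0, h0, hX]⟩
    refine ⟨((Finset.range k).filter fun i => p i < X).max' hne, ?_, ?_⟩
    · have := Finset.max'_mem _ hne
      simpa using this
    · intro i hi
      exact Finset.le_max' _ _ (by simpa using hi)
  have hj1 : X ≤ p (j + 1) := by
    by_contra hc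
    push Not at hc
    rcases Nat.lt_or_ge (j + 1) k with h | h
    · have := hjm (j + 1) ⟨h, hc⟩
      omega
    · have : j + 1 = k := by omega
      rw [this, hk] at hc
      omega
  obtain ⟨hlt, hcase⟩ := hph j hj.1
  rcases hcase with h1 | ⟨s, hs, hcopy⟩
  · -- one letter
    refine ⟨j, 1, p j, hj.1, hj.2, le_rfl, hn, le_rfl, ?_⟩
    intro x hx
    by_cases hxj : x ≤ p j
    · refine ⟨x, (b : ℤ) ^ 1 - 1, 0, 0, hxj, RPA_.mono le_rfl (by omega) (RPA_.two b 1),
        RPA_.zero _ _ _, RPA_.zero _ _ _, by ring⟩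
    · have hx1 : x = p j + 1 := by omega
      refine ⟨p j, (b : ℤ) ^ 2 + -((b : ℤ) ^ 1), 0, ((b : ℤ) ^ 1 - 1) * u (p j), le_rfl, ?_,
        RPA_.zero _ _ _, ?_, ?_⟩
      · exact RPA_.add (RPA_.mono le_rfl (by omega) (RPA_.pw b 2))
          (RPA_.mono le_rfl (by omega) (RPA_.neg (RPA_.pw b 1)))
      · have := RPA_.mul (RPA_.two b 1) (ZST_.rep_digit (hu (p j)).1 (hu (p j)).2)
        exact this
      · rw [hx1, hP]
        ring
  · by_cases hper : p j - s ≤ n
    · -- a copy with a short period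
      refine ⟨j, p j - s, s, hj.1, hj.2, by omega, hper, hs.le, ?_⟩
      intro x hx
      by_cases hxj : x ≤ p j
      · refine ⟨x, (b : ℤ) ^ (p j - s) - 1, 0, 0, hxj,
          RPA_.mono le_rfl (by omega) (RPA_.two b (p j - s)),
          RPA_.zero _ _ _, RPA_.zero _ _ _, by ring⟩
      · obtain ⟨z, h3, h4, h5, h6⟩ := ZST_.copy_back hP hs hcopy x (by omega) (by omega)
        refine ⟨z, (b : ℤ) ^ (p j - s) - 1, (b : ℤ) ^ (x - s) + -((b : ℤ) ^ (z - s)), 0, h4,
          RPA_.mono le_rfl (by omega) (RPA_.two b (p j - s)), ?_, RPA_.zero _ _ _, ?_⟩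
        · exact RPA_.mono (by omega) le_rfl
            (RPA_.add (RPA_.mono le_rfl (by omega) (RPA_.pw b (x - s)))
              (RPA_.mono le_rfl (by omega) (RPA_.neg (RPA_.pw b (z - s)))))
        · linear_combination h6
    · -- a copy with a long period
      push Not at hper
      refine ⟨j, 1, s, hj.1, hj.2, le_rfl, hn, hs.le, ?_⟩
      intro x hx
      by_cases hxj : x ≤ p j
      · refine ⟨x, (b : ℤ) ^ 1 - 1, 0, 0, hxj,
          RPA_.mono le_rfl (by omega) (RPA_.two b 1),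
          RPA_.zero _ _ _, RPA_.zero _ _ _, by ring⟩
      · obtain ⟨z, a, G, h3, h4, h5, h6, h7, h8⟩ := copy_back hP hs hcopy x (by omega) (by omega)
        have ha : a ≤ Λ + 1 := by
          by_contra hc
          push Not at hc
          have e1 : (Λ + 2) * n ≤ a * (p j - s) :=
            Nat.mul_le_mul (by omega) (by omega)
          have e2 : (Λ + 2) * n = Λ * n + 2 * n := by ring
          omega
        refine ⟨z, (b : ℤ) ^ 1 - 1, ((b : ℤ) ^ 1 - 1) * G, 0, h4,
          RPA_.mono le_rfl (by omega) (RPA_.two b 1), ?_, RPA_.zero _ _ _, ?_⟩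
        · exact RPA_.mono (Nat.mul_le_mul_left 2 ha) (by omega) (RPA_.mul (RPA_.two b 1) h7)
        · rw [h8]
          ring

/-- the family version -/
theorem main (b Λ : ℕ) (hb : 1 ≤ b) : ∀ m : ℕ, ∃ R : ℕ, ∀ (N k n X : ℕ) (u : ℕ → ℤ)
    (p : ℕ → ℕ) (P : ℕ → ℤ) (S : Finset ℕ),
    (∀ i, 0 ≤ u i ∧ u i < b) → (∀ i, P (i + 1) = b * P i + u i) → Phr u N k p → 1 ≤ n →
    X ≤ Λ * n → X ≤ N → (∀ x ∈ S, x ≤ X) →
    (X ≤ n ∨ ((Finset.range k).filter fun j => n < p j ∧ p j < X).card + 1 ≤ m) →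
    ∃ (q : Fin m → ℕ) (Y : Finset ℕ) (F : ℕ → ℕ → ℤ) (F₀ : ℕ → ℤ),
      Y.card ≤ S.card + 2 * m ∧ (∀ y ∈ Y, y ≤ n) ∧ (∀ i, 1 ≤ q i ∧ q i ≤ n) ∧
      (∀ x ∈ S, ∀ y ∈ Y, Rep b R (R * n) (F x y)) ∧
      (∀ x ∈ S, Rep b R (R * n) (F₀ x)) ∧
      ∀ x ∈ S, (∏ i, ((b : ℤ) ^ q i - 1)) * P x = ∑ y ∈ Y, F x y * P y + F₀ x := by
  intro m
  -- the trivial case
  have triv : ∀ (R m n X : ℕ) (P : ℕ → ℤ) (S : Finset ℕ), 2 ^ m ≤ R → m ≤ R → 1 ≤ n →
      (∀ x ∈ S, x ≤ X) → X ≤ n →
      ∃ (q : Fin m → ℕ) (Y : Finset ℕ) (F : ℕ → ℕ → ℤ) (F₀ : ℕ → ℤ),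
        Y.card ≤ S.card + 2 * m ∧ (∀ y ∈ Y, y ≤ n) ∧ (∀ i, 1 ≤ q i ∧ q i ≤ n) ∧
        (∀ x ∈ S, ∀ y ∈ Y, Rep b R (R * n) (F x y)) ∧
        (∀ x ∈ S, Rep b R (R * n) (F₀ x)) ∧
        ∀ x ∈ S, (∏ i, ((b : ℤ) ^ q i - 1)) * P x = ∑ y ∈ Y, F x y * P y + F₀ x := by
    intro R m n X P S hR hmR hn hS hXn
    classical
    refine ⟨fun _ => 1, S, fun x y => if y = x then ∏ _i : Fin m, ((b : ℤ) ^ 1 - 1) else 0,
      fun _ => 0, by omega, fun y hy => (hS y hy).trans hXn,
      fun i => ⟨le_rfl, hn⟩, ?_,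
      fun x _ => RPA_.zero _ _ _, ?_⟩
    · intro x _ y _
      by_cases h : y = x
      · simp only [h, if_true]
        refine RPA_.mono hR ?_ (RPA_.prd b m (fun _ => 1))
        simp only [Finset.sum_const, Finset.card_univ, Fintype.card_fin, smul_eq_mul, mul_one]
        nlinarith
      · simp only [h, if_false]
        exact RPA_.zero _ _ _
    · intro x hx
      rw [add_zero, Finset.sum_eq_single x]
      · simp
      · intro y _ hy
        simp [hy]
      · intro h
        exact absurd hx h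
  induction m with
  | zero =>
    refine ⟨1, ?_⟩
    intro N k n X u p P S hu hP hp hn hXΛ hXN hS hX
    rcases hX with hX | hX
    · exact triv 1 0 n X P S (by norm_num) (by norm_num) hn hS hX
    · omega
  | succ m ih =>
    obtain ⟨R, hR⟩ := ih
    refine ⟨(4 * Λ + 6) * R + 2 ^ (m + 1) * (b + 1) + m + Λ + 3, ?_⟩
    intro N k n X u p P S hu hP hp hn hXΛ hXN hS hX
    have hpow : 1 ≤ 2 ^ (m + 1) := Nat.one_le_two_pow
    have hpb : 2 ^ (m + 1) ≤ 2 ^ (m + 1) * (b + 1) := Nat.le_mul_of_pos_right _ (by omega)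
    by_cases hXn : X ≤ n
    · exact triv _ (m + 1) n X P S (by omega) (by omega) hn hS hXn
    push Not at hXn
    have hX' : ((Finset.range k).filter fun j => n < p j ∧ p j < X).card + 1 ≤ m + 1 := by
      rcases hX with h | h
      · omega
      · exact h
    obtain ⟨j, per, s, hjk, hjX, hper, hperX, hs, hstep⟩ :=
      step hu hP hp hn hXΛ (by omega : 0 < X) hXN
    classical
    choose! z A B c hz hA hB hc hrel using hstep
    let S' : Finset ℕ := insert (p j) (insert s (S.image z))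
    have hS'card : S'.card ≤ S.card + 2 := by
      have h1 : (S.image z).card ≤ S.card := Finset.card_image_le
      have h2 : (insert s (S.image z)).card ≤ (S.image z).card + 1 := Finset.card_insert_le _ _
      have h3 : S'.card ≤ (insert s (S.image z)).card + 1 := Finset.card_insert_le _ _
      omega
    have hS' : ∀ x ∈ S', x ≤ p j := by
      intro x hx
      simp only [S', Finset.mem_insert, Finset.mem_image] at hx
      rcases hx with rfl | rfl | ⟨y, hy, rfl⟩
      · exact le_rfl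
      · exact hs
      · exact hz y (hS y hy)
    have hcount : p j ≤ n ∨
        ((Finset.range k).filter fun i => n < p i ∧ p i < p j).card + 1 ≤ m := by
      by_cases h : p j ≤ n
      · exact Or.inl h
      · right
        push Not at h
        have hsub : ((Finset.range k).filter fun i => n < p i ∧ p i < p j) ⊂
            ((Finset.range k).filter fun i => n < p i ∧ p i < X) := by
          rw [Finset.ssubset_iff_of_subset]
          · refine ⟨j, ?_, ?_⟩
            · simp [hjk, h, hjX]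
            · simp
          · intro i hi
            simp only [Finset.mem_filter, Finset.mem_range] at hi ⊢
            exact ⟨hi.1, hi.2.1, hi.2.2.trans hjX⟩
        have := Finset.card_lt_card hsub
        omega
    obtain ⟨q, Y, F, F₀, h1, h2, h3, h4, h5, h6⟩ :=
      hR N k n (p j) u p P S' hu hP hp hn (by omega) (by omega) hS' hcount
    have hmemz : ∀ x ∈ S, z x ∈ S' := by
      intro x hx
      simp only [S', Finset.mem_insert, Finset.mem_image]
      exact Or.inr (Or.inr ⟨x, hx, rfl⟩)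
    have hmemp : p j ∈ S' := by simp [S']
    have hmems : s ∈ S' := by simp [S']
    have hD : Rep b (2 ^ m) (m * n) (∏ i, ((b : ℤ) ^ q i - 1)) := by
      refine RPA_.mono le_rfl ?_ (RPA_.prd b m q)
      calc ∑ i, q i ≤ ∑ _i : Fin m, n :=
            Finset.sum_le_sum fun i _ => (h3 i).2
        _ = m * n := by simp
    obtain ⟨R', hR'⟩ : ∃ R' : ℕ, R' = (4 * Λ + 6) * R + 2 ^ (m + 1) * (b + 1) + m + Λ + 3 :=
      ⟨_, rfl⟩
    rw [← hR']
    have ecnt : 2 * R + 2 * (Λ + 1) * R + 2 * (Λ + 1) * R = (4 * Λ + 6) * R := by ring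
    have hexp1 : (Λ + 1) * n + R * n ≤ R' * n := by
      rw [← add_mul]
      apply Nat.mul_le_mul_right
      have : R ≤ (4 * Λ + 6) * R := Nat.le_mul_of_pos_left _ (by omega)
      omega
    refine ⟨Fin.cons per q, Y,
      fun x y => A x * F (z x) y + B x * F (p j) y + -(B x * F s y),
      fun x => A x * F₀ (z x) + B x * F₀ (p j) + -(B x * F₀ s) +
        (∏ i, ((b : ℤ) ^ q i - 1)) * c x, ?_, h2, ?_, ?_, ?_, ?_⟩
    · omega
    · intro i
      refine Fin.cases ?_ (fun i => ?_) i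
      · simp only [Fin.cons_zero]
        exact ⟨hper, hperX⟩
      · simp only [Fin.cons_succ]
        exact h3 i
    · intro x hx y hy
      have g1 := RPA_.mul (hA x (hS x hx)) (h4 (z x) (hmemz x hx) y hy)
      have g2 := RPA_.mul (hB x (hS x hx)) (h4 (p j) hmemp y hy)
      have g3 := RPA_.neg (RPA_.mul (hB x (hS x hx)) (h4 s hmems y hy))
      refine RPA_.mono ?_ hexp1 (RPA_.add (RPA_.add g1 g2) g3)
      omega
    · intro x hx
      have g1 := RPA_.mul (hA x (hS x hx)) (h5 (z x) (hmemz x hx))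
      have g2 := RPA_.mul (hB x (hS x hx)) (h5 (p j) hmemp)
      have g3 := RPA_.neg (RPA_.mul (hB x (hS x hx)) (h5 s hmems))
      have g4 := RPA_.mul hD (hc x (hS x hx))
      have g5 := RPA_.mono (a := b) (N' := (4 * Λ + 6) * R) (M' := R' * n) (by omega)
        hexp1 (RPA_.add (RPA_.add g1 g2) g3)
      have g6 := RPA_.mono (a := b) (N' := 2 ^ (m + 1) * b) (M' := R' * n)
        (by rw [pow_succ]; nlinarith) (by
          have e1 : (m + 1) * n ≤ R' * n := Nat.mul_le_mul_right n (by omega)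
          have e2 : (m + 1) * n = m * n + n := by ring
          omega) g4
      refine RPA_.mono ?_ le_rfl (RPA_.add g5 g6)
      have : 2 ^ (m + 1) * (b + 1) = 2 ^ (m + 1) * b + 2 ^ (m + 1) := by ring
      omega
    · intro x hx
      rw [Fin.prod_univ_succ]
      simp only [Fin.cons_zero, Fin.cons_succ]
      have e1 := h6 (z x) (hmemz x hx)
      have e2 := h6 (p j) hmemp
      have e3 := h6 s hmems
      have e4 := hrel x (hS x hx)
      have e5 : ∑ y ∈ Y, (A x * F (z x) y + B x * F (p j) y + -(B x * F s y)) * P y =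
          A x * ∑ y ∈ Y, F (z x) y * P y + B x * ∑ y ∈ Y, F (p j) y * P y -
            B x * ∑ y ∈ Y, F s y * P y := by
        rw [Finset.mul_sum, Finset.mul_sum, Finset.mul_sum, ← Finset.sum_add_distrib,
          ← Finset.sum_sub_distrib]
        refine Finset.sum_congr rfl fun y _ => ?_
        ring
      rw [e5]
      linear_combination (∏ i, ((b : ℤ) ^ q i - 1)) * e4 + A x * e1 + B x * e2 - B x * e3

end NST_

theorem nst_proof (_hRPA : Stmt_RPA) : Stmt_NST := by
  intro b M Λ hb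
  obtain ⟨R, hR⟩ := NST_.main b Λ (by omega) (M + 1)
  refine ⟨R, ?_⟩
  intro N k n L u p P hu hP hp hn hnL hLΛ hLN hcard
  obtain ⟨q, Y, F, F₀, h1, h2, h3, h4, h5, h6⟩ := hR N k n L u p P {L} hu hP hp hn hLΛ hLN
    (by simp) (Or.inr (by omega))
  classical
  have hcardY : Y.card ≤ 2 * M + 3 := by
    simp only [Finset.card_singleton] at h1
    omega
  let f : ℕ → ℕ := fun i => if h : i < Y.card then Y.orderEmbOfFin rfl ⟨i, h⟩ else 0
  have hf : ∀ i (h : i < Y.card), f i = Y.orderEmbOfFin rfl ⟨i, h⟩ := fun i h => by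
    simp only [f, h, dif_pos]
  have hfmem : ∀ i, i < Y.card → f i ∈ Y := fun i h => by
    rw [hf i h]
    exact Finset.orderEmbOfFin_mem _ _ _
  refine ⟨q, fun i => f i, fun i => if (i : ℕ) < Y.card then F L (f i) else 0, F₀ L, h3, ?_, ?_,
    h5 L (by simp), ?_⟩
  · intro i
    by_cases h : (i : ℕ) < Y.card
    · exact h2 _ (hfmem i h)
    · simp only [f, h, dif_neg, not_false_eq_true]
      omega
  · intro i
    by_cases h : (i : ℕ) < Y.card
    · simp only [h, if_true]
      exact h4 L (by simp) _ (hfmem i h)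
    · simp only [h, if_false]
      exact RPA_.zero _ _ _
  · rw [h6 L (by simp)]
    congr 1
    rw [Fin.sum_univ_eq_sum_range
      (fun i => (if i < Y.card then F L (f i) else 0) * P (f i)) (2 * M + 3)]
    rw [← Finset.sum_subset (Finset.range_subset_range.2 hcardY) (by
      intro i _ hi
      simp only [Finset.mem_range, not_lt] at hi
      rw [if_neg (by omega), zero_mul])]
    rw [← Fin.sum_univ_eq_sum_range
      (fun i => (if i < Y.card then F L (f i) else 0) * P (f i)) Y.card]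
    have : ∑ y ∈ Y, F L y * P y =
        ∑ i : Fin Y.card, F L (Y.orderEmbOfFin rfl i) * P (Y.orderEmbOfFin rfl i) := by
      conv_lhs => rw [← Finset.image_orderEmbOfFin_univ Y rfl]
      rw [Finset.sum_image (fun i _ j _ h => (Y.orderEmbOfFin rfl).injective h)]
    rw [this]
    refine Finset.sum_congr rfl fun i _ => ?_
    rw [if_pos i.2, hf i i.2]

end Pool.Agent.SBT
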