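import Pool.Agent.SBT.FinalM
import Pool.Agent.SBT.ZSC
import Pool.Agent.SBT.MCX
import Pool.Agent.SBT.NCA
import Pool.Agent.SBT.NPO
import Pool.Agent.SBT.NFC
import Pool.Agent.SBT.NST
import Pool.Agent.SBT.NAP
import Pool.Agent.SBT.NFF

/-!
# The field theorem for Lempel-Ziv complexity with errors: assembly
-/

set_option autoImplicit false

namespace Pool.Agent.SBT

theorem MCX_ : Stmt_MCX :=
  mcx_proof UNI_ S2T_ mht_proof msm_proof mla_proof mcf_proof msp_proof MBG_ MSD_ MPR_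
theorem NCA_ : Stmt_NCA := nca_proof lcc_proof
theorem NPO_ : Stmt_NPO := npo_proof NCA_
theorem NFC_ : Stmt_NFC := nfc_proof MCX_ NCA_ NPO_ sep_proof
theorem NST_ : Stmt_NST := nst_proof rpa_proof
theorem NAP_ : Stmt_NAP := nap_proof NST_ dgt_proof rpa_proof lcc_proof
theorem NFF_ : Stmt_NFF := nff_proof NFC_ NAP_ zsc_proof

/-- the field theorem with Lempel-Ziv complexity and errors for `π` -/
theorem pi_lz (k l : ℕ) (a : Fin k → ℕ) (b : Fin l → ℕ) (x : Fin k → ℝ) (y : Fin l → ℝ)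
    (ha : ∀ i, 2 ≤ a i) (hb : ∀ j, 2 ≤ b j) (hind : IndG a b)
    (hx : Real.pi ∈ IntermediateField.adjoin ℚ (Set.range x))
    (hy : Real.pi ∈ IntermediateField.adjoin ℚ (Set.range y)) (K : ℝ) :
    ∀ᶠ N : ℕ in Filter.atTop, ∀ (c : Fin k → ℝ) (c' : Fin l → ℝ),
      (∀ i, LZE (a i) (x i) N (c i)) → (∀ j, LZE (b j) (y j) N (c' j)) →
      K * Real.log N ≤ ∑ i, c i + ∑ j, c' j :=
  NFF_ k l a b x y Real.pi 9 ha hb hind meas_pi hx hy K

end Pool.Agent.SBT
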