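import Pool.Agent.SBT.StmtsD
import Pool.Agent.SBT.Api

/-!
# INI: the first description
-/

set_option autoImplicit false

namespace Pool.Agent.SBT

open Filter MvPolynomial

namespace INIw

/-- value of a sum of monomials -/
theorem ev_sum {r N : ℕ} (g : Fin r → ℕ → ℚ) (n : ℕ) (E : Fin N → (Fin r →₀ ℕ)) (c : Fin N → ℚ) :
    ev g n (∑ t, monomial (E t) (c t)) = ∑ t, c t * mon g (E t) n := by
  unfold ev mon
  rw [map_sum]
  refine Finset.sum_congr rfl fun t _ => ?_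
  rw [eval_monomial, Finsupp.prod_fintype _ _ (fun i => pow_zero _)]

theorem supp_sum {r N : ℕ} (E : Fin N → (Fin r →₀ ℕ)) (c : Fin N → ℚ) (e : Fin r →₀ ℕ)
    (he : e ∈ (∑ t, monomial (E t) (c t)).support) : ∃ t, e = E t := by
  by_contra hcon
  push Not at hcon
  apply mem_support_iff.1 he
  rw [coeff_sum]
  refine Finset.sum_eq_zero fun t _ => ?_
  rw [coeff_monomial, if_neg (hcon t).symm]

/-- the exponent `e + ρ` as a natural exponent -/
noncomputable def sh {r : ℕ} (e : Fin r → ℤ) (ρ : Fin r →₀ ℕ) : Fin r →₀ ℕ :=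
  Finsupp.equivFunOnFinite.symm (fun i => (e i + ρ i).toNat)

theorem mon_sh {r : ℕ} (g : Fin r → ℕ → ℚ) (n : ℕ) (hg : ∀ i, g i n ≠ 0) (e : Fin r → ℤ)
    (ρ : Fin r →₀ ℕ) (h : ∀ i, 0 ≤ e i + ρ i) :
    mon g (sh e ρ) n = (∏ i, g i n ^ e i) * mon g ρ n := by
  unfold mon sh
  rw [← Finset.prod_mul_distrib]
  refine Finset.prod_congr rfl fun i _ => ?_
  simp only [Finsupp.equivFunOnFinite_symm_apply_apply]
  rw [← zpow_natCast, Int.toNat_of_nonneg (h i), zpow_add₀ (hg i), zpow_natCast]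

theorem av_pow_le {v : ℕ} (hv : v = 0 ∨ v.Prime) {a : ℕ} (ha : 2 ≤ a) (E : ℕ) :
    av v ((a : ℚ) ^ E) ≤ Real.exp ((E : ℝ) * Real.log a) := by
  have ha0 : (0 : ℝ) < a := by
    have : 0 < a := by omega
    exact_mod_cast this
  have e1 : |(((a ^ E : ℕ) : ℤ) : ℝ)| = Real.exp ((E : ℝ) * Real.log a) := by
    rw [mul_comm, Real.exp_mul, Real.exp_log ha0, Real.rpow_natCast]
    push_cast
    exact abs_of_pos (pow_pos ha0 _)
  have e2 : (a : ℚ) ^ E = (((a ^ E : ℕ) : ℤ) : ℚ) := by push_cast; rfl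
  rw [← e1, e2]
  exact av_int_le_abs hv _

/-- the sizes of the monomials -/
theorem size {U : Ultrafilter ℕ} {S : Finset ℕ} {T : ℕ → ℝ} {r : ℕ} {g : Fin r → ℕ → ℚ}
    (hGd : Gd U S T g) {a : ℕ} {m : ℕ → ℕ} {κ : ℚ} (hκ : 0 < κ)
    {e : Fin r → ℤ} (h : ∀ᶠ n in (U : Filter ℕ), (a : ℚ) ^ m n = κ * ∏ i, g i n ^ e i)
    {ρ : Fin r →₀ ℕ} (hρ : ∀ i, 0 ≤ e i + ρ i) :
    ∀ᶠ n in (U : Filter ℕ), ∀ v ∈ pl S,
      av v (mon g (sh e ρ) n) ≤ Real.exp (T n) * av v ((a : ℚ) ^ m n * mon g ρ n) := by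
  filter_upwards [h, ev_const_le_exp hGd.lim one_pos (∑ v ∈ pl S, av v κ⁻¹)] with n hn hn2 v hv
  have hv' := place_of_mem hGd.prime hv
  have e1 : mon g (sh e ρ) n = κ⁻¹ * ((a : ℚ) ^ m n * mon g ρ n) := by
    rw [mon_sh g n (fun i => (hGd.unit i n).ne_zero) e ρ hρ, hn]
    field_simp
  rw [e1, av_mul hv']
  apply mul_le_mul_of_nonneg_right _ (av_nonneg _ _)
  rw [one_mul] at hn2
  exact (Finset.single_le_sum (f := fun v => av v κ⁻¹) (fun v _ => av_nonneg _ _) hv).trans hn2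

end INIw

open INIw

theorem ini_proof : Stmt_INI := by
  intro U S T r s N a g y R c₀ m₀ c m B hGd ha h1 h2 hEq hne hB hm₀
  choose κ₀ e₀ hκ₀ he₀ using h1
  choose κ e hκ he using h2
  have hPS := hGd.prime
  set ρ : Fin r →₀ ℕ := Finsupp.equivFunOnFinite.symm
    (fun i => ∑ t, (e₀ t i).natAbs + ∑ j, ∑ t, (e j t i).natAbs) with hρ
  have hρi : ∀ i, ρ i = ∑ t, (e₀ t i).natAbs + ∑ j, ∑ t, (e j t i).natAbs := fun i => rfl
  have hρ₀ : ∀ t i, 0 ≤ e₀ t i + ρ i := by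
    intro t i
    have a1 : (e₀ t i).natAbs ≤ ∑ t, (e₀ t i).natAbs :=
      Finset.single_le_sum (f := fun t => (e₀ t i).natAbs) (fun _ _ => Nat.zero_le _)
        (Finset.mem_univ t)
    have a2 := hρi i
    omega
  have hρ₁ : ∀ j t i, 0 ≤ e j t i + ρ i := by
    intro j t i
    have a1 : (e j t i).natAbs ≤ ∑ t, (e j t i).natAbs :=
      Finset.single_le_sum (f := fun t => (e j t i).natAbs) (fun _ _ => Nat.zero_le _)
        (Finset.mem_univ t)
    have a3 : ∑ t, (e j t i).natAbs ≤ ∑ j, ∑ t, (e j t i).natAbs :=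
      Finset.single_le_sum (f := fun j => ∑ t, (e j t i).natAbs) (fun _ _ => Nat.zero_le _)
        (Finset.mem_univ j)
    have a2 := hρi i
    omega
  have hν : ∀ n, mon g ρ n ≠ 0 := by
    intro n
    unfold mon
    exact Finset.prod_ne_zero_iff.2 fun i _ => pow_ne_zero _ (hGd.unit i n).ne_zero
  have hg0 : ∀ n i, g i n ≠ 0 := fun n i => (hGd.unit i n).ne_zero
  have hval₀ : ∀ᶠ n in (U : Filter ℕ),
      ev g n (∑ t, monomial (sh (e₀ t) ρ) ((c₀ t : ℚ) * κ₀ t)) =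
        mon g ρ n * ∑ t, (c₀ t : ℚ) * (a : ℚ) ^ m₀ t n := by
    have hall : ∀ᶠ n in (U : Filter ℕ), ∀ t, (a : ℚ) ^ m₀ t n = κ₀ t * ∏ i, g i n ^ e₀ t i :=
      eventually_all.2 he₀
    filter_upwards [hall] with n hn
    rw [ev_sum, Finset.mul_sum]
    refine Finset.sum_congr rfl fun t _ => ?_
    rw [mon_sh g n (hg0 n) _ _ (hρ₀ t), hn t]
    ring
  have hval : ∀ᶠ n in (U : Filter ℕ), ∀ j,
      ev g n (∑ t, monomial (sh (e j t) ρ) ((c j t : ℚ) * κ j t)) =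
        mon g ρ n * ∑ t, (c j t : ℚ) * (a : ℚ) ^ m j t n := by
    have hall : ∀ᶠ n in (U : Filter ℕ), ∀ j t,
        (a : ℚ) ^ m j t n = κ j t * ∏ i, g i n ^ e j t i :=
      eventually_all.2 fun j => eventually_all.2 (he j)
    filter_upwards [hall] with n hn j
    rw [ev_sum, Finset.mul_sum]
    refine Finset.sum_congr rfl fun t _ => ?_
    rw [mon_sh g n (hg0 n) _ _ (hρ₁ j t), hn j t]
    ring
  refine ⟨∑ t, monomial (sh (e₀ t) ρ) ((c₀ t : ℚ) * κ₀ t),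
    fun j => ∑ t, monomial (sh (e j t) ρ) ((c j t : ℚ) * κ j t), fun n => mon g ρ n,
    ?_, ?_, ?_, ?_, ?_⟩
  · intro h0
    obtain ⟨n, hn1, hn2⟩ := (hval₀.and hne).exists
    rw [h0] at hn1
    unfold ev at hn1
    rw [map_zero] at hn1
    rcases mul_eq_zero.1 hn1.symm with h | h
    · exact hν n h
    · apply hn2
      have : ((∑ t, c₀ t * (a : ℤ) ^ m₀ t n : ℤ) : ℚ) = 0 := by
        push_cast
        exact h
      exact_mod_cast this
  · intro n
    exact isU_prod hPS _ _ fun i _ => (hGd.unit i n).pow hPS _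
  · filter_upwards [hval₀, hval, hEq] with n hn1 hn2 hn3
    rw [hn1]
    have e1 : ∑ i, ev g n (∑ t, monomial (sh (e i t) ρ) ((c i t : ℚ) * κ i t)) * (y i n : ℚ) =
        mon g ρ n * ∑ i, (∑ t, (c i t : ℚ) * (a : ℚ) ^ m i t n) * (y i n : ℚ) := by
      rw [Finset.mul_sum]
      refine Finset.sum_congr rfl fun i _ => ?_
      rw [hn2 i]
      ring
    rw [e1]
    have e2 := congrArg (fun z : ℤ => (z : ℚ)) hn3
    push_cast at e2
    rw [mul_assoc, e2]
  · intro f hf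
    obtain ⟨t, rfl⟩ := supp_sum _ _ f hf
    filter_upwards [size hGd (hκ₀ t) (he₀ t) (hρ₀ t), hm₀ t, ev_pos hGd.lim] with n hn1 hn2 hn3 v hv
    have hv' := place_of_mem hPS hv
    refine (hn1 v hv).trans ?_
    rw [av_mul hv', ← mul_assoc]
    apply mul_le_mul_of_nonneg_right _ (av_nonneg _ _)
    calc Real.exp (T n) * av v ((a : ℚ) ^ m₀ t n) ≤ Real.exp (T n) * Real.exp (B * T n) :=
          mul_le_mul_of_nonneg_left
            ((av_pow_le hv' ha _).trans (Real.exp_le_exp.2 hn2)) (Real.exp_pos _).le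
      _ = Real.exp ((B + 1) * T n) := by
          rw [← Real.exp_add]
          congr 1
          ring
  · intro j f hf
    obtain ⟨t, rfl⟩ := supp_sum _ _ f hf
    refine ⟨m j t, ?_⟩
    filter_upwards [size hGd (hκ j t) (he j t) (hρ₁ j t), ev_pos hGd.lim] with n hn1 hn3 v hv
    refine (hn1 v hv).trans ?_
    apply mul_le_mul_of_nonneg_right _ (av_nonneg _ _)
    apply Real.exp_le_exp.2
    have : 0 ≤ B * T n := mul_nonneg hB hn3.le
    linarith

end Pool.Agent.SBT
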