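import Pool.Agent.SBT.StmtsK
import Pool.Agent.SBT.Api

set_option autoImplicit false

namespace Pool.Agent.SBT

open Filter

namespace KAP_

/-- the value of a description -/
noncomputable def rho {s : ℕ} (D : ℕ → ℚ) (F : Fin s → ℕ → ℚ) (y : Fin s → ℕ → ℤ) (n : ℕ) : ℚ :=
  (∑ i, F i n * (y i n : ℚ)) / D n

theorem exp_le {a b t : ℝ} (h : a ≤ b) (ht : 0 ≤ t) : Real.exp (a * t) ≤ Real.exp (b * t) :=
  Real.exp_le_exp.mpr (mul_le_mul_of_nonneg_right h ht)

end KAP_

open KAP_

theorem kap_proof (hKUS : Stmt_KUS) : Stmt_KAP := by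
  classical
  intro U T hT
  obtain ⟨hK1, hK2, hK3, -⟩ := hKUS
  have hT0 : ∀ᶠ n in (U : Filter ℕ), 0 ≤ T n := hT.eventually_ge_atTop 0
  refine ⟨?_, ?_, ?_, ?_⟩
  · intro s s' B B' Λ Λ' x hs hB hΛ
    rintro ⟨S, D, F, y, hS, hD, hF, hD0, hy, hx⟩
    obtain ⟨t, rfl⟩ := Nat.exists_eq_add_of_le hs
    refine ⟨S, D, Fin.append F (fun _ _ => 0), Fin.append y (fun _ _ => 0), hS, hD, ?_, hD0, ?_, ?_⟩
    · intro i
      refine Fin.addCases (fun i => ?_) (fun i => ?_) i
      · rw [Fin.append_left]; exact hF i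
      · rw [Fin.append_right]; exact hK2 U S T 0 hT
    · filter_upwards [hy, hT0] with n h1 h2 i
      refine Fin.addCases (fun i => ?_) (fun i => ?_) i
      · rw [Fin.append_left]
        exact (h1 i).trans (exp_le hB h2)
      · rw [Fin.append_right]
        simp only [Int.cast_zero, abs_zero]
        exact (Real.exp_pos _).le
    · filter_upwards [hx, hT0] with n h1 h2
      have h3 : (∑ i : Fin (s + t), Fin.append F (fun _ _ => 0) i n *
          ((Fin.append y (fun _ _ => 0) i n : ℤ) : ℚ)) = ∑ i, F i n * (y i n : ℚ) := by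
        rw [Fin.sum_univ_add]
        simp [Fin.append_left, Fin.append_right]
      rw [h3]
      refine h1.trans (exp_le ?_ h2)
      linarith
  · intro B Λ q hB
    refine ⟨∅, fun _ => 1, fun _ _ => q, fun _ _ => 1, ?_, hK2 U ∅ T 1 hT,
      fun _ => hK2 U ∅ T q hT, ?_, ?_, ?_⟩
    · intro p hp; simp at hp
    · exact Eventually.of_forall (fun _ => one_ne_zero)
    · filter_upwards [hT0] with n h2 i
      simp only [Int.cast_one, abs_one]
      exact Real.one_le_exp (mul_nonneg hB h2)
    · refine Eventually.of_forall (fun n => ?_)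
      simp only [Finset.univ_unique, Fin.default_eq_zero, Finset.sum_const, Finset.card_singleton,
        Int.cast_one, mul_one, one_smul, div_one, sub_self, abs_zero]
      exact (Real.exp_pos _).le
  · intro s s' B B' Λ x x' hB hB'
    rintro ⟨S, D, F, y, hS, hD, hF, hD0, hy, hx⟩ ⟨S', D', F', y', hS', hD', hF', hD0', hy', hx'⟩
    have hSS : PS (S ∪ S') := by
      intro p hp
      rcases Finset.mem_union.1 hp with h | h
      · exact hS p h
      · exact hS' p h
    have e1 : ∀ f, USm U S T f → USm U (S ∪ S') T f :=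
      fun f hf => hK3 U S (S ∪ S') T f hSS Finset.subset_union_left hT hf
    have e2 : ∀ f, USm U S' T f → USm U (S ∪ S') T f :=
      fun f hf => hK3 U S' (S ∪ S') T f hSS Finset.subset_union_right hT hf
    refine ⟨S ∪ S', fun n => D n * D' n, Fin.append (fun i n => F i n * D' n)
      (fun j n => F' j n * D n), Fin.append y y', hSS, ?_, ?_, ?_, ?_, ?_⟩
    · exact (hK1 U (S ∪ S') T D D' hSS hT (e1 _ hD) (e2 _ hD')).2
    · intro i
      refine Fin.addCases (fun i => ?_) (fun i => ?_) i
      · rw [Fin.append_left]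
        exact (hK1 U (S ∪ S') T _ _ hSS hT (e1 _ (hF i)) (e2 _ hD')).2
      · rw [Fin.append_right]
        exact (hK1 U (S ∪ S') T _ _ hSS hT (e2 _ (hF' i)) (e1 _ hD)).2
    · filter_upwards [hD0, hD0'] with n h1 h2
      exact mul_ne_zero h1 h2
    · filter_upwards [hy, hy', hT0] with n h1 h1' h2 i
      refine Fin.addCases (fun i => ?_) (fun i => ?_) i
      · rw [Fin.append_left]
        exact (h1 i).trans (exp_le (by linarith) h2)
      · rw [Fin.append_right]
        exact (h1' i).trans (exp_le (by linarith) h2)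
    · filter_upwards [hx, hx', hD0, hD0', hT0, hT.eventually_ge_atTop (Real.log 2)]
        with n h1 h1' h0 h0' h2 h3
      have h4 : ((∑ i : Fin (s + s'), Fin.append (fun i n => F i n * D' n)
          (fun j n => F' j n * D n) i n * ((Fin.append y y' i n : ℤ) : ℚ)) / (D n * D' n) : ℚ) =
          (∑ i, F i n * (y i n : ℚ)) / D n + (∑ i, F' i n * (y' i n : ℚ)) / D' n := by
        rw [Fin.sum_univ_add]
        simp only [Fin.append_left, Fin.append_right]
        rw [div_add_div _ _ h0 h0', Finset.sum_mul, Finset.mul_sum]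
        congr 2
        · exact Finset.sum_congr rfl (fun i _ => by ring)
        · exact Finset.sum_congr rfl (fun i _ => by ring)
      rw [h4]
      push_cast at h1 h1' ⊢
      have h5 : (2 : ℝ) ≤ Real.exp (T n) := by
        calc (2 : ℝ) = Real.exp (Real.log 2) := (Real.exp_log (by norm_num)).symm
          _ ≤ Real.exp (T n) := Real.exp_le_exp.mpr h3
      have h6 : Real.exp ((B + B' + 1 - Λ) * T n) = Real.exp (T n) *
          Real.exp ((B + B' - Λ) * T n) := by
        rw [← Real.exp_add]; congr 1; ring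
      have h7 := Real.exp_pos ((B + B' - Λ) * T n)
      have h8 : Real.exp ((B - Λ) * T n) ≤ Real.exp ((B + B' - Λ) * T n) :=
        exp_le (by linarith) h2
      have h9 : Real.exp ((B' - Λ) * T n) ≤ Real.exp ((B + B' - Λ) * T n) :=
        exp_le (by linarith) h2
      rw [h6]
      calc |x + x' - ((∑ i, (F i n : ℝ) * (y i n : ℝ)) / (D n : ℝ) +
            (∑ i, (F' i n : ℝ) * (y' i n : ℝ)) / (D' n : ℝ))|
          = |(x - (∑ i, (F i n : ℝ) * (y i n : ℝ)) / (D n : ℝ)) +
            (x' - (∑ i, (F' i n : ℝ) * (y' i n : ℝ)) / (D' n : ℝ))| := by ring_nf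
        _ ≤ Real.exp ((B - Λ) * T n) + Real.exp ((B' - Λ) * T n) :=
            (abs_add_le _ _).trans (add_le_add h1 h1')
        _ ≤ 2 * Real.exp ((B + B' - Λ) * T n) := by linarith
        _ ≤ Real.exp (T n) * Real.exp ((B + B' - Λ) * T n) :=
            mul_le_mul_of_nonneg_right h5 h7.le
  · intro s s' B B' Λ x x' hB hB' hBΛ hBΛ'
    rintro ⟨S, D, F, y, hS, hD, hF, hD0, hy, hx⟩ ⟨S', D', F', y', hS', hD', hF', hD0', hy', hx'⟩
    have hSS : PS (S ∪ S') := by
      intro p hp
      rcases Finset.mem_union.1 hp with h | h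
      · exact hS p h
      · exact hS' p h
    have e1 : ∀ f, USm U S T f → USm U (S ∪ S') T f :=
      fun f hf => hK3 U S (S ∪ S') T f hSS Finset.subset_union_left hT hf
    have e2 : ∀ f, USm U S' T f → USm U (S ∪ S') T f :=
      fun f hf => hK3 U S' (S ∪ S') T f hSS Finset.subset_union_right hT hf
    let ι : Fin (s * s') → Fin s × Fin s' := fun k => finProdFinEquiv.symm k
    refine ⟨S ∪ S', fun n => D n * D' n, fun k n => F (ι k).1 n * F' (ι k).2 n,
      fun k n => y (ι k).1 n * y' (ι k).2 n, hSS, ?_, ?_, ?_, ?_, ?_⟩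
    · exact (hK1 U (S ∪ S') T D D' hSS hT (e1 _ hD) (e2 _ hD')).2
    · intro k
      exact (hK1 U (S ∪ S') T _ _ hSS hT (e1 _ (hF _)) (e2 _ (hF' _))).2
    · filter_upwards [hD0, hD0'] with n h1 h2
      exact mul_ne_zero h1 h2
    · filter_upwards [hy, hy', hT0] with n h1 h1' h2 k
      push_cast
      rw [abs_mul]
      calc |(y (ι k).1 n : ℝ)| * |(y' (ι k).2 n : ℝ)|
          ≤ Real.exp (B * T n) * Real.exp (B' * T n) :=
            mul_le_mul (h1 _) (h1' _) (abs_nonneg _) (Real.exp_pos _).le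
        _ = Real.exp ((B + B') * T n) := by rw [← Real.exp_add]; congr 1; ring
        _ ≤ Real.exp ((B + B' + 1) * T n) := exp_le (by linarith) h2
    · filter_upwards [hx, hx', hD0, hD0', hT0,
        hT.eventually_ge_atTop (Real.log (|x| + |x'| + 1))] with n h1 h1' h0 h0' h2 h3
      have h4 : ((∑ k : Fin (s * s'), F (ι k).1 n * F' (ι k).2 n *
          ((y (ι k).1 n * y' (ι k).2 n : ℤ) : ℚ)) / (D n * D' n) : ℚ) =
          (∑ i, F i n * (y i n : ℚ)) / D n * ((∑ i, F' i n * (y' i n : ℚ)) / D' n) := by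
        have h5 : (∑ k : Fin (s * s'), F (ι k).1 n * F' (ι k).2 n *
            ((y (ι k).1 n * y' (ι k).2 n : ℤ) : ℚ)) =
            ∑ p : Fin s × Fin s', F p.1 n * F' p.2 n * ((y p.1 n * y' p.2 n : ℤ) : ℚ) :=
          Equiv.sum_comp (finProdFinEquiv (m := s) (n := s')).symm
            (fun p : Fin s × Fin s' => F p.1 n * F' p.2 n * ((y p.1 n * y' p.2 n : ℤ) : ℚ))
        rw [h5, div_mul_div_comm, Finset.sum_mul_sum, Fintype.sum_prod_type]
        congr 1
        refine Finset.sum_congr rfl (fun i _ => Finset.sum_congr rfl (fun j _ => ?_))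
        push_cast
        ring
      rw [h4]
      push_cast at h1 h1' ⊢
      set ρ : ℝ := (∑ i, (F i n : ℝ) * (y i n : ℝ)) / (D n : ℝ) with hρ
      set ρ' : ℝ := (∑ i, (F' i n : ℝ) * (y' i n : ℝ)) / (D' n : ℝ) with hρ'
      have hpos : 0 < |x| + |x'| + 1 := by positivity
      have h5 : |x| + |x'| + 1 ≤ Real.exp (T n) := by
        calc |x| + |x'| + 1 = Real.exp (Real.log (|x| + |x'| + 1)) := (Real.exp_log hpos).symm
          _ ≤ Real.exp (T n) := Real.exp_le_exp.mpr h3
      have h6 : Real.exp ((B + B' + 1 - Λ) * T n) = Real.exp (T n) *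
          Real.exp ((B + B' - Λ) * T n) := by
        rw [← Real.exp_add]; congr 1; ring
      have h7 := Real.exp_pos ((B + B' - Λ) * T n)
      have h8 : Real.exp ((B - Λ) * T n) ≤ Real.exp ((B + B' - Λ) * T n) :=
        exp_le (by linarith) h2
      have h9 : Real.exp ((B' - Λ) * T n) ≤ Real.exp ((B + B' - Λ) * T n) :=
        exp_le (by linarith) h2
      have h10 : Real.exp ((B' - Λ) * T n) ≤ 1 := by
        rw [← Real.exp_zero]
        exact Real.exp_le_exp.mpr (mul_nonpos_of_nonpos_of_nonneg (by linarith) h2)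
      have h11 : |ρ'| ≤ |x'| + 1 := by
        have : |ρ'| ≤ |x'| + |x' - ρ'| := by
          have h := abs_sub_abs_le_abs_sub ρ' x'
          rw [abs_sub_comm] at h
          linarith
        linarith
      rw [h6]
      calc |x * x' - ρ * ρ'| = |x * (x' - ρ') + (x - ρ) * ρ'| := by ring_nf
        _ ≤ |x| * |x' - ρ'| + |x - ρ| * |ρ'| := by
            refine (abs_add_le _ _).trans ?_
            rw [abs_mul, abs_mul]
        _ ≤ |x| * Real.exp ((B + B' - Λ) * T n) +
            Real.exp ((B + B' - Λ) * T n) * (|x'| + 1) :=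
            add_le_add (mul_le_mul_of_nonneg_left (h1'.trans h9) (abs_nonneg _))
              (mul_le_mul (h1.trans h8) h11 (abs_nonneg _) h7.le)
        _ = (|x| + |x'| + 1) * Real.exp ((B + B' - Λ) * T n) := by ring
        _ ≤ Real.exp (T n) * Real.exp ((B + B' - Λ) * T n) :=
            mul_le_mul_of_nonneg_right h5 h7.le

end Pool.Agent.SBT
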