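import Pool.Agent.SBT.StmtsK
import Pool.Agent.SBT.AUXI

/-! Module KAUX: the auxiliary polynomial, real forms at the infinite place. -/

set_option autoImplicit false

namespace Pool.Agent.SBT

open Filter

namespace KAUX_

open MvPolynomial

variable {m N : ℕ}

theorem linR_monomial (A : Matrix (Fin N) (Fin N) ℝ) (e : (Fin m × Fin N) →₀ ℕ) (r : ℝ) :
    linR A (monomial e r) = C r * ∏ hk ∈ e.support,
      (∑ i, C (A hk.2 i) * X (hk.1, i) : MvPolynomial (Fin m × Fin N) ℝ) ^ e hk := by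
  unfold linR
  rw [bind₁_monomial]

theorem linR_smul_monomial (A : Matrix (Fin N) (Fin N) ℝ) (q : ℝ)
    (e : (Fin m × Fin N) →₀ ℕ) :
    linR (q • A) (monomial e (1 : ℝ)) = C (q ^ (∑ hk, e hk)) * linR A (monomial e (1 : ℝ)) := by
  classical
  rw [linR_monomial, linR_monomial, C_1, one_mul, one_mul]
  have h1 : ∀ hk : Fin m × Fin N,
      (∑ i, C ((q • A) hk.2 i) * X (hk.1, i) : MvPolynomial (Fin m × Fin N) ℝ) =
      C q * ∑ i, C (A hk.2 i) * X (hk.1, i) := by
    intro hk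
    rw [Finset.mul_sum]
    apply Finset.sum_congr rfl
    intro i _
    rw [Matrix.smul_apply, smul_eq_mul, C_mul, mul_assoc]
  have h2 : ∏ hk ∈ e.support,
      (∑ i, C ((q • A) hk.2 i) * X (hk.1, i) : MvPolynomial (Fin m × Fin N) ℝ) ^ e hk =
      ∏ hk ∈ e.support, ((C q) ^ e hk *
        (∑ i, C (A hk.2 i) * X (hk.1, i) : MvPolynomial (Fin m × Fin N) ℝ) ^ e hk) := by
    apply Finset.prod_congr rfl
    intro hk _
    rw [h1, mul_pow]
  rw [h2, Finset.prod_mul_distrib, Finset.prod_pow_eq_pow_sum]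
  have h3 : ∑ hk ∈ e.support, e hk = ∑ hk, e hk := by
    apply Finset.sum_subset (Finset.subset_univ _)
    intro x _ hx
    exact Finsupp.notMem_support_iff.1 hx
  rw [h3, C_pow]

theorem linR_PP {d : Fin m → ℕ} (A : Matrix (Fin N) (Fin N) ℝ) (t : (AUX_.Om N d) → ℤ)
    (j : (Fin m × Fin N) →₀ ℕ) :
    coeff j (linR A (toR (AUX_.PP t))) =
      ∑ E : AUX_.Om N d, ((t E : ℤ) : ℝ) *
        coeff j (linR A (monomial (AUX_.toF E.1) (1 : ℝ))) := by
  have h1 : linR A (toR (AUX_.PP t)) =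
      ∑ E : AUX_.Om N d, linR A (monomial (AUX_.toF E.1) ((t E : ℤ) : ℝ)) := by
    unfold linR toR AUX_.PP
    rw [map_sum, map_sum]
    apply Finset.sum_congr rfl
    intro E _
    rw [map_monomial]
    rfl
  rw [h1, coeff_sum]
  apply Finset.sum_congr rfl
  intro E _
  rw [linR_monomial, linR_monomial, coeff_C_mul, C_1, one_mul]

end KAUX_

open KAUX_ MvPolynomial in
theorem kaux_proof (_hCHB : Stmt_CHB) (_hLNB : Stmt_LNB) (hKRP : Stmt_KRP) (hKLN : Stmt_KLN) :
    Stmt_KAUX := by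
  classical
  intro K _ N S A L hN hS hEnt
  -- coordinates
  obtain ⟨J, _, q, φ, nu, O, hq1, hFO, -, hφ0, hφz, hφadd, hnu0, hnu00, hφnu, hnuadd, hnumul⟩ :=
    hKRP K (Finset.univ.image fun ki : Fin N × Fin N => A.adjugate ki.1 ki.2) (by
      intro x hx
      rw [Finset.mem_image] at hx
      obtain ⟨⟨k, i⟩, -, rfl⟩ := hx
      change A.adjugate k i ∈ K
      have h1 : ∃ A' : Matrix (Fin N) (Fin N) K, A = A'.map (algebraMap K ℝ) := by
        refine ⟨fun a b => ⟨A a b, hEnt a b⟩, ?_⟩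
        ext a b
        rfl
      obtain ⟨A', hA'⟩ := h1
      have h2 : A.adjugate = (A'.adjugate).map (algebraMap K ℝ) := by
        rw [hA']
        exact ((algebraMap K ℝ).map_adjugate A').symm
      rw [h2]
      exact (A'.adjugate k i).2)
  have hqr : (q : ℝ) ≠ 0 := by
    have : 0 < q := hq1
    positivity
  set B' : Matrix (Fin N) (Fin N) ℝ := (q : ℝ) • A.adjugate with hB'
  have hB'O : ∀ k i, B' k i ∈ O := by
    intro k i
    rw [hB', Matrix.smul_apply, smul_eq_mul]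
    exact hFO _ (Finset.mem_image.2 ⟨(k, i), Finset.mem_univ _, rfl⟩)
  set β' : ℝ := 1 + nu 1 + ∑ k, ∑ i, nu (B' k i) with hβ'
  have hsum0 : 0 ≤ ∑ k, ∑ i, nu (B' k i) :=
    Finset.sum_nonneg fun k _ => Finset.sum_nonneg fun i _ => hnu0 _
  have hβ1 : 1 ≤ β' := by
    have := hnu0 1
    rw [hβ']; linarith
  have hβnu : nu 1 ≤ β' := by rw [hβ']; linarith
  have hβB : ∀ k i, nu (B' k i) ≤ β' := by
    intro k i
    have h1 : nu (B' k i) ≤ ∑ i, nu (B' k i) :=
      Finset.single_le_sum (f := fun i => nu (B' k i)) (fun i _ => hnu0 _) (Finset.mem_univ i)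
    have h2 : ∑ i, nu (B' k i) ≤ ∑ k, ∑ i, nu (B' k i) :=
      Finset.single_le_sum (f := fun k => ∑ i, nu (B' k i))
        (fun k _ => Finset.sum_nonneg fun i _ => hnu0 _) (Finset.mem_univ k)
    have := hnu0 1
    rw [hβ']; linarith
  -- the bound of the coefficients of the integer substitutions
  obtain ⟨B, hB1, hB⟩ : ∃ B : ℕ, 1 ≤ B ∧ ∀ v ∈ S, ∀ k,
      ∑ i, ((L v).adjugate k i).natAbs ≤ B := by
    refine ⟨1 + ∑ v ∈ S, ∑ k, ∑ i, ((L v).adjugate k i).natAbs, by omega, ?_⟩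
    intro v hv k
    have h1 : ∑ i, ((L v).adjugate k i).natAbs ≤ ∑ k, ∑ i, ((L v).adjugate k i).natAbs :=
      Finset.single_le_sum (f := fun k => ∑ i, ((L v).adjugate k i).natAbs)
        (fun _ _ => Nat.zero_le _) (Finset.mem_univ k)
    have h2 : ∑ k, ∑ i, ((L v).adjugate k i).natAbs ≤
        ∑ v ∈ S, ∑ k, ∑ i, ((L v).adjugate k i).natAbs :=
      Finset.single_le_sum (f := fun v => ∑ k, ∑ i, ((L v).adjugate k i).natAbs)
        (fun _ _ => Nat.zero_le _) hv
    omega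
  have hBr : (1 : ℝ) ≤ B := by exact_mod_cast hB1
  have hNr : (1 : ℝ) ≤ N := by exact_mod_cast hN
  have h2N : (1 : ℝ) ≤ 2 ^ N := one_le_pow₀ (by norm_num)
  have hNβ : 1 ≤ (N : ℝ) * β' := by nlinarith
  set D : ℝ := B * ((N * β') * β') with hD
  have hNββ : 1 ≤ (N * β') * β' := by nlinarith
  have hD1 : 1 ≤ D := by rw [hD]; nlinarith
  have hBD : (B : ℝ) ≤ D := by rw [hD]; nlinarith
  have hND : (N * β') * β' ≤ D := by rw [hD]; nlinarith
  refine ⟨2 ^ N * D, by nlinarith, ?_⟩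
  intro ε hε
  set s' : ℕ := S.card + Fintype.card J + 1 with hs'
  have hs : 0 < s' := by omega
  refine ⟨⌈2 * (s' * N : ℝ) / ε ^ 2⌉₊ + 1, ?_⟩
  intro m hm d hd
  have hm1 : 1 ≤ m := by omega
  have hmε : 2 * (s' * N : ℝ) ≤ m * ε ^ 2 := by
    have h1 : 2 * (s' * N : ℝ) / ε ^ 2 ≤ m := by
      have h2 := Nat.le_ceil (2 * (s' * N : ℝ) / ε ^ 2)
      have h3 : ((⌈2 * (s' * N : ℝ) / ε ^ 2⌉₊ : ℕ) : ℝ) ≤ m := by
        exact_mod_cast (by omega : ⌈2 * (s' * N : ℝ) / ε ^ 2⌉₊ ≤ m)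
      linarith
    rwa [div_le_iff₀ (by positivity)] at h1
  have hd1 : 1 ≤ ∑ h, d h := by
    have h1 : d ⟨0, hm1⟩ ≤ ∑ h, d h :=
      Finset.single_le_sum (f := d) (fun _ _ => Nat.zero_le _) (Finset.mem_univ _)
    have := hd ⟨0, hm1⟩
    omega
  -- facts on the real substitution
  have hO := fun s : (Fin m × Fin N) →₀ ℕ =>
    hKLN m N B' O nu β' hβ1 hB'O hnu0 hnuadd hnumul hβB hβnu hnu00 s
  -- the unknowns and the equations
  let β : Type := AUX_.Om N d
  let V : Type := S ⊕ J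
  let α : Type := Σ vi : V × Fin N, AUX_.bad N d ε vi.2
  let co : V → ((Fin m × Fin N) →₀ ℕ) → ((Fin m × Fin N) →₀ ℕ) → ℤ := fun v e s =>
    Sum.elim (fun p : S => coeff e (lin (L p.1).adjugate (monomial s 1)))
      (fun t : J => ⌊φ t (coeff e (linR B' (monomial s (1 : ℝ))))⌋) v
  let Mt : Matrix α β ℤ := fun t E => co t.1.1 (AUX_.toF (t.2.1)) (AUX_.toF E.1)
  have hβc : Fintype.card β = (AUX_.Om N d).card := Fintype.card_coe _
  have hβ0 : 0 < Fintype.card β := by
    rw [hβc, Finset.card_pos]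
    refine ⟨fun h => Pi.single ⟨0, hN⟩ (d h), ?_⟩
    rw [AUX_.mem_Om]
    intro h
    simp
  have hαc : Fintype.card α = ∑ vi : V × Fin N, (AUX_.bad N d ε vi.2).card := by
    rw [Fintype.card_sigma]
    apply Finset.sum_congr rfl
    intro vi _
    exact Fintype.card_coe _
  have hVc : Fintype.card V = S.card + Fintype.card J := by
    rw [Fintype.card_sum, Fintype.card_coe]
  have h2a : 2 * Fintype.card α ≤ Fintype.card β := by
    have h1 : (Fintype.card α : ℝ) * (m * ε ^ 2) ≤ (s' * N : ℝ) * (AUX_.Om N d).card := by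
      rw [hαc, Nat.cast_sum, Finset.sum_mul]
      calc ∑ vi : V × Fin N, ((AUX_.bad N d ε vi.2).card : ℝ) * (m * ε ^ 2)
          ≤ ∑ vi : V × Fin N, ((AUX_.Om N d).card : ℝ) :=
            Finset.sum_le_sum fun vi _ => AUX_.cheb d hd hm1 vi.2 ε hε
        _ = ((Fintype.card V : ℝ) * N) * (AUX_.Om N d).card := by
            rw [Finset.sum_const, nsmul_eq_mul, Finset.card_univ, Fintype.card_prod,
              Fintype.card_fin]
            push_cast
            ring
        _ ≤ (s' * N : ℝ) * (AUX_.Om N d).card := by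
            have h3 : (Fintype.card V : ℝ) ≤ s' := by
              rw [hVc, hs']
              push_cast
              linarith
            have h4 : (0 : ℝ) ≤ (AUX_.Om N d).card := Nat.cast_nonneg _
            have h5 : (Fintype.card V : ℝ) * N ≤ s' * N :=
              mul_le_mul_of_nonneg_right h3 (by linarith)
            exact mul_le_mul_of_nonneg_right h5 h4
    have hsN : (0 : ℝ) < s' * N := by
      have h3 : (0 : ℝ) < s' := by exact_mod_cast hs
      have h4 : (0 : ℝ) < N := by exact_mod_cast hN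
      positivity
    have h5 : (Fintype.card α : ℝ) * (2 * (s' * N : ℝ)) ≤
        (Fintype.card α : ℝ) * (m * ε ^ 2) :=
      mul_le_mul_of_nonneg_left hmε (Nat.cast_nonneg _)
    have h6 : (s' * N : ℝ) * (2 * Fintype.card α) ≤
        (s' * N : ℝ) * Fintype.card β := by
      rw [hβc]
      linarith
    have h7 := le_of_mul_le_mul_left h6 hsN
    exact_mod_cast h7
  have hflo : ∀ t : J, ∀ x ∈ O, ((⌊φ t x⌋ : ℤ) : ℝ) = φ t x := by
    intro t x hx
    obtain ⟨z, hz⟩ := hφz x hx t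
    rw [hz, Int.floor_intCast]
  have hMt : ∀ i j, |((Mt i j : ℤ) : ℝ)| ≤ D ^ (∑ h, d h) := by
    intro i j
    have hcase : ∀ v : V, |((co v (AUX_.toF (i.2.1)) (AUX_.toF j.1) : ℤ) : ℝ)| ≤
        D ^ (∑ h, d h) := by
      intro v
      rcases v with p | t
      · have h1 := AUX_.coeff_lin_monomial_le (L p.1).adjugate B (hB p.1 p.2) hB1 (AUX_.toF j.1)
          (AUX_.toF (i.2.1))
        rw [AUX_.sum_toF j.2] at h1
        have h2 : ((|co (Sum.inl p) (AUX_.toF (i.2.1)) (AUX_.toF j.1)| : ℤ) : ℝ) ≤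
            (((B ^ (∑ h, d h) : ℕ) : ℤ) : ℝ) := by exact_mod_cast h1
        rw [Int.cast_abs] at h2
        push_cast at h2
        exact h2.trans (pow_le_pow_left₀ (by linarith) hBD _)
      · have h1 := hO (AUX_.toF j.1)
        have h2 : co (Sum.inr t) (AUX_.toF (i.2.1)) (AUX_.toF j.1) =
          ⌊φ t (coeff (AUX_.toF (i.2.1)) (linR B' (monomial (AUX_.toF j.1) (1 : ℝ))))⌋ := rfl
        rw [h2, hflo t _ (h1.1 _)]
        refine (hφnu _ (h1.1 _) t).trans ((h1.2.1 _).trans ?_)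
        rw [AUX_.sum_toF j.2]
        have h3 : β' * (N * β') ^ (∑ h, d h) ≤ ((N * β') * β') ^ (∑ h, d h) := by
          rw [mul_pow (N * β' : ℝ) β' (∑ h, d h), mul_comm β']
          apply mul_le_mul_of_nonneg_left _ (by positivity)
          calc β' = β' ^ 1 := (pow_one _).symm
            _ ≤ β' ^ (∑ h, d h) := pow_le_pow_right₀ hβ1 hd1
        exact h3.trans (pow_le_pow_left₀ (by linarith) hND _)
    exact hcase i.1.1
  obtain ⟨t, ht0, htA, htn⟩ := AUX_.siegel Mt (D ^ (∑ h, d h)) (one_le_pow₀ hD1) hMt hβ0 h2a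
  have hbound : (Fintype.card β : ℝ) * D ^ (∑ h, d h) ≤ (2 ^ N * D) ^ (∑ h, d h) := by
    rw [mul_pow (2 ^ N : ℝ) D (∑ h, d h), ← pow_mul, hβc]
    apply mul_le_mul_of_nonneg_right _ (by positivity)
    have := AUX_.card_Om_le (N := N) d
    exact_mod_cast this
  refine ⟨AUX_.PP t, ?_, ?_, ?_, ?_, ?_⟩
  · intro hcon
    apply ht0
    funext E
    have h1 := AUX_.coeff_PP t E
    rw [hcon, coeff_zero] at h1
    exact h1.symm
  · intro e he h
    obtain ⟨E, rfl⟩ := AUX_.coeff_PP_ne t e (mem_support_iff.1 he)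
    exact AUX_.mem_Om.1 E.2 h
  · intro e
    by_cases he : coeff e (AUX_.PP t) = 0
    · rw [he]
      simp only [Int.cast_zero, abs_zero]
      positivity
    · obtain ⟨E, rfl⟩ := AUX_.coeff_PP_ne t e he
      rw [AUX_.coeff_PP]
      exact (htn E).trans hbound
  · -- the infinite place
    intro j hj
    by_contra hcon
    unfold Good at hcon
    push Not at hcon
    obtain ⟨i, hi⟩ := hcon
    have hj' : coeff j (linR A.adjugate (toR (AUX_.PP t))) ≠ 0 := mem_support_iff.1 hj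
    have hlp := linR_PP A.adjugate t j
    have hrel : ∀ E : AUX_.Om N d, coeff j (linR B' (monomial (AUX_.toF E.1) (1 : ℝ))) =
        (q : ℝ) ^ (∑ h, d h) *
          coeff j (linR A.adjugate (monomial (AUX_.toF E.1) (1 : ℝ))) := by
      intro E
      rw [hB', linR_smul_monomial, coeff_C_mul, AUX_.sum_toF E.2]
    -- `j` is multihomogeneous
    have hjd : ∀ h, ∑ k, j (h, k) = d h := by
      have hj2 := hj'
      rw [hlp] at hj2
      obtain ⟨E, _, hE⟩ := Finset.exists_ne_zero_of_sum_ne_zero hj2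
      have h1 : coeff j (linR A.adjugate (monomial (AUX_.toF E.1) (1 : ℝ))) ≠ 0 :=
        right_ne_zero_of_mul hE
      have h2 : coeff j (linR B' (monomial (AUX_.toF E.1) (1 : ℝ))) ≠ 0 := by
        rw [hrel E]
        exact mul_ne_zero (pow_ne_zero _ hqr) h1
      intro h
      rw [(hO (AUX_.toF E.1)).2.2 j (mem_support_iff.2 h2) h]
      exact AUX_.mem_Om.1 E.2 h
    set Jx : Fin m → Fin N → ℕ := fun h k => j (h, k) with hJ
    have hJF : AUX_.toF Jx = j := by
      ext ⟨h, k⟩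
      rfl
    have hJO : Jx ∈ AUX_.Om N d := AUX_.mem_Om.2 hjd
    have hJb : Jx ∈ AUX_.bad N d ε i := by
      unfold AUX_.bad
      rw [Finset.mem_filter]
      exact ⟨hJO, hi⟩
    -- the coefficient as an element of `O`
    let c : AUX_.Om N d → O := fun E =>
      ⟨coeff j (linR B' (monomial (AUX_.toF E.1) (1 : ℝ))), (hO (AUX_.toF E.1)).1 j⟩
    let x : O := ∑ E : AUX_.Om N d, t E • c E
    let ψ : J → (O →+ ℝ) := fun tt =>
      { toFun := fun y => φ tt y.1
        map_zero' := by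
          have h1 := hφadd 0 (Subring.zero_mem O) 0 (Subring.zero_mem O) tt
          have h2 : φ tt (0 + 0) = φ tt 0 := by rw [add_zero]
          change φ tt ((0 : O) : ℝ) = 0
          have h3 : ((0 : O) : ℝ) = 0 := rfl
          rw [h3]
          linarith
        map_add' := fun y z => hφadd y.1 y.2 z.1 z.2 tt }
    have hx0 : (x : ℝ) = 0 := by
      apply hφ0 x.1 x.2
      intro tt
      have h1 : φ tt x.1 = ψ tt x := rfl
      rw [h1]
      change ψ tt (∑ E : AUX_.Om N d, t E • c E) = 0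
      rw [map_sum]
      have h2 : ∀ E : AUX_.Om N d, ψ tt (t E • c E) =
          (((Mt (⟨(Sum.inr tt, i), ⟨Jx, hJb⟩⟩ : α) E * t E : ℤ)) : ℝ) := by
        intro E
        rw [map_zsmul]
        have h3 : ψ tt (c E) = φ tt (coeff j (linR B' (monomial (AUX_.toF E.1) (1 : ℝ)))) := rfl
        have h4 : Mt (⟨(Sum.inr tt, i), ⟨Jx, hJb⟩⟩ : α) E =
          ⌊φ tt (coeff (AUX_.toF Jx) (linR B' (monomial (AUX_.toF E.1) (1 : ℝ))))⌋ := rfl
        rw [h3, h4, hJF]
        push_cast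
        rw [hflo tt _ ((hO (AUX_.toF E.1)).1 j), zsmul_eq_mul, mul_comm]
      rw [Finset.sum_congr rfl (fun E _ => h2 E), ← Int.cast_sum]
      have heq := congrFun htA (⟨(Sum.inr tt, i), ⟨Jx, hJb⟩⟩ : α)
      have h5 : ∑ E : AUX_.Om N d, Mt (⟨(Sum.inr tt, i), ⟨Jx, hJb⟩⟩ : α) E * t E = 0 := heq
      rw [h5]
      simp
    have hx1 : (x : ℝ) = (q : ℝ) ^ (∑ h, d h) *
        coeff j (linR A.adjugate (toR (AUX_.PP t))) := by
      have h1 : (x : ℝ) = ∑ E : AUX_.Om N d, ((t E : ℤ) : ℝ) *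
          coeff j (linR B' (monomial (AUX_.toF E.1) (1 : ℝ))) := by
        change O.subtype (∑ E : AUX_.Om N d, t E • c E) = _
        rw [map_sum]
        apply Finset.sum_congr rfl
        intro E _
        rw [map_zsmul, zsmul_eq_mul]
        rfl
      rw [h1, hlp, Finset.mul_sum]
      apply Finset.sum_congr rfl
      intro E _
      rw [hrel E]
      ring
    rw [hx1] at hx0
    rcases mul_eq_zero.1 hx0 with h | h
    · exact pow_ne_zero _ hqr h
    · exact hj' h
  · intro v hv j hj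
    by_contra hcon
    unfold Good at hcon
    push Not at hcon
    obtain ⟨i, hi⟩ := hcon
    have hj' : coeff j (lin (L v).adjugate (AUX_.PP t)) ≠ 0 := mem_support_iff.1 hj
    have hlp := AUX_.lin_PP (L v).adjugate t j
    -- `j` is multihomogeneous
    have hjd : ∀ h, ∑ k, j (h, k) = d h := by
      rw [hlp] at hj'
      obtain ⟨E, _, hE⟩ := Finset.exists_ne_zero_of_sum_ne_zero hj'
      have h1 : coeff j (lin (L v).adjugate (monomial (AUX_.toF E.1) 1)) ≠ 0 :=
        left_ne_zero_of_mul hE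
      exact AUX_.mh_lin_monomial (L v).adjugate (AUX_.toF E.1) 1 d (AUX_.mem_Om.1 E.2) j
        (mem_support_iff.2 h1)
    set Jx : Fin m → Fin N → ℕ := fun h k => j (h, k) with hJ
    have hJF : AUX_.toF Jx = j := by
      ext ⟨h, k⟩
      rfl
    have hJO : Jx ∈ AUX_.Om N d := AUX_.mem_Om.2 hjd
    have hJb : Jx ∈ AUX_.bad N d ε i := by
      unfold AUX_.bad
      rw [Finset.mem_filter]
      exact ⟨hJO, hi⟩
    have heq := congrFun htA (⟨(Sum.inl ⟨v, hv⟩, i), ⟨Jx, hJb⟩⟩ : α)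
    apply hj'
    rw [hlp, ← hJF]
    exact heq

end Pool.Agent.SBT
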