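import Pool.Agent.SBT.StmtsK
import Pool.Agent.SBT.Api

/-!
# KBU: sums of powers of `b` are sums of units
-/

set_option autoImplicit false

namespace Pool.Agent.SBT

open Filter

namespace KBU_

theorem finite_signs (N : ℕ) : {f : Fin N → ℤ | ∀ t, |f t| ≤ 1}.Finite := by
  have h : {f : Fin N → ℤ | ∀ t, |f t| ≤ 1} = Set.pi Set.univ (fun _ => Set.Icc (-1 : ℤ) 1) := by
    ext f
    simp only [Set.mem_ofPred_eq, Set.mem_pi, Set.mem_univ, true_implies, Set.mem_Icc, abs_le]
  rw [h]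
  exact Set.Finite.pi fun _ => Set.finite_Icc (-1 : ℤ) 1

end KBU_

open KBU_

theorem kbu_proof : Stmt_KBU := by
  intro U b N M F hb _ hrep
  classical
  have hex : ∀ n, ∃ (ε : Fin N → ℤ) (k : Fin N → ℕ), (∀ t, |ε t| ≤ 1) ∧ (∀ t, k t ≤ M * n) ∧
      (Rep b N (M * n) (F n) → F n = ∑ t, ε t * (b : ℤ) ^ (k t)) := by
    intro n
    by_cases h : Rep b N (M * n) (F n)
    · obtain ⟨ε, k, h1, h2, h3⟩ := h
      exact ⟨ε, k, h1, h2, fun _ => h3⟩
    · exact ⟨fun _ => 0, fun _ => 0, fun _ => by simp, fun _ => Nat.zero_le _,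
        fun h' => absurd h' h⟩
  choose ε k hε hk hF using hex
  obtain ⟨c, -, hc⟩ := ult_const_set U (fun n => ε n) (finite_signs N)
    (Eventually.of_forall fun n => hε n)
  have hb0 : 0 < b := by omega
  have hS : PS b.primeFactors := fun p hp => Nat.prime_of_mem_primeFactors hp
  refine ⟨N, fun t => (c t : ℚ), fun t n => (b : ℚ) ^ (k n t), M * Real.log b, ?_, ?_, ?_⟩
  · intro t n
    exact isU_nat_pow hS hb0 (fun p hp hd => Nat.mem_primeFactors.2 ⟨hp, hd, hb0.ne'⟩) _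
  · refine Eventually.of_forall fun n t v hv => ?_
    have h1 : ((b : ℚ) ^ (k n t)) = (((b : ℤ) ^ (k n t) : ℤ) : ℚ) := by push_cast; rfl
    change av v ((b : ℚ) ^ (k n t)) ≤ Real.exp (M * Real.log b * n)
    rw [h1]
    refine (av_int_le_abs (place_of_mem hS hv) _).trans ?_
    have hbR : (0 : ℝ) < (b : ℝ) := by exact_mod_cast hb0
    have hb1 : (1 : ℝ) ≤ (b : ℝ) := by exact_mod_cast hb0
    have h2 : |(((b : ℤ) ^ (k n t) : ℤ) : ℝ)| = (b : ℝ) ^ (k n t) := by
      push_cast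
      exact abs_of_pos (pow_pos hbR _)
    rw [h2]
    have h3 : (b : ℝ) ^ (k n t) = Real.exp (k n t * Real.log b) := by
      rw [mul_comm, Real.exp_mul, Real.exp_log hbR, Real.rpow_natCast]
    rw [h3]
    apply Real.exp_le_exp.2
    have h4 : ((k n t : ℕ) : ℝ) ≤ M * n := by exact_mod_cast hk n t
    have h5 : 0 ≤ Real.log b := Real.log_nonneg hb1
    calc (k n t : ℝ) * Real.log b ≤ (M * n) * Real.log b := mul_le_mul_of_nonneg_right h4 h5
      _ = M * Real.log b * n := by ring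
  · filter_upwards [hc, hrep] with n h1 h2
    have h3 := hF n h2
    rw [h3]
    push_cast
    refine Finset.sum_congr rfl fun t _ => ?_
    rw [← h1]

end Pool.Agent.SBT
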