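import Pool.Agent.SBT.StmtsK
import Pool.Agent.SBT.CHW

set_option autoImplicit false

namespace Pool.Agent.SBT

open Filter

namespace KCH_

lemma usm_pow (hKBU : Stmt_KBU) (U : Ultrafilter ℕ) (b M : ℕ) (k : ℕ → ℕ) (hb : 2 ≤ b)
    (hU : (U : Filter ℕ) ≤ atTop) (hk : ∀ᶠ n in (U : Filter ℕ), k n ≤ M * n) :
    USm U b.primeFactors (fun n => (n : ℝ)) (fun n => (b : ℚ) ^ k n) := by
  have h := hKBU U b 1 M (fun n => (b : ℤ) ^ k n) hb hU (by
    filter_upwards [hk] with n hn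
    exact ⟨fun _ => 1, fun _ => k n, fun _ => by simp, fun _ => hn, by simp⟩)
  have e : (fun n => (((b : ℤ) ^ k n : ℤ) : ℚ)) = fun n => (b : ℚ) ^ k n := by
    funext n; push_cast; rfl
  rw [← e]
  exact h

end KCH_

open KCH_ in
/-- numbers with few digit changes in a window are described -/
theorem kch_proof (hDGT : Stmt_DGT) (hKUS : Stmt_KUS) (hKBU : Stmt_KBU) : Stmt_KCH := by
  intro b x hb
  have hlb : 0 < Real.log b := Real.log_pos (by exact_mod_cast (by omega : 1 < b))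
  refine ⟨Real.log b + 1, by linarith, fun U Λ N hΛ hU hchg => ?_⟩
  obtain ⟨hring, hconst, -, hfin⟩ := hKUS
  have hT : Tendsto (fun n : ℕ => (n : ℝ)) (U : Filter ℕ) atTop :=
    tendsto_natCast_atTop_atTop.mono_left hU
  have hPS : PS b.primeFactors := fun p hp => Nat.prime_of_mem_primeFactors hp
  set Λn : ℕ := 2 * ⌈Λ⌉₊ + 2 with hΛn
  have hge1 : ∀ᶠ n in (U : Filter ℕ), 1 ≤ n := hU (eventually_ge_atTop 1)
  set L : ℕ → ℕ := fun n => ⌊Λ * n / Real.log b⌋₊ + n + 1 with hL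
  have hlog2 : Real.log 2 ≤ Real.log b := Real.log_le_log (by norm_num) (by exact_mod_cast hb)
  have hlog2' : (1 : ℝ) / 2 < Real.log 2 := by
    have := Real.log_two_gt_d9; linarith
  have hL1 : ∀ n, n + 1 ≤ L n := fun n => by simp only [hL]; omega
  have hL2 : ∀ n, 1 ≤ n → L n ≤ Λn * n := by
    intro n hn
    have h1 : Λ * n / Real.log b ≤ ((2 * ⌈Λ⌉₊ * n : ℕ) : ℝ) := by
      rw [div_le_iff₀ hlb]
      have h2 : Λ ≤ (⌈Λ⌉₊ : ℝ) := Nat.le_ceil Λ
      have h3 : (1 : ℝ) ≤ 2 * Real.log b := by linarith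
      have h4 : (0 : ℝ) ≤ n := by positivity
      have h5 : (0 : ℝ) ≤ (⌈Λ⌉₊ : ℝ) := by positivity
      push_cast
      calc Λ * n ≤ (⌈Λ⌉₊ : ℝ) * n := mul_le_mul_of_nonneg_right h2 h4
        _ = (⌈Λ⌉₊ : ℝ) * n * 1 := by ring
        _ ≤ (⌈Λ⌉₊ : ℝ) * n * (2 * Real.log b) := mul_le_mul_of_nonneg_left h3 (by positivity)
        _ = 2 * (⌈Λ⌉₊ : ℝ) * n * Real.log b := by ring
    have h2 : ⌊Λ * n / Real.log b⌋₊ ≤ 2 * ⌈Λ⌉₊ * n := Nat.floor_le_of_le h1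
    simp only [hL, hΛn]
    have : (2 * ⌈Λ⌉₊ + 2) * n = 2 * ⌈Λ⌉₊ * n + 2 * n := by ring
    omega
  have hL3 : ∀ n, Λ * n ≤ (L n : ℝ) * Real.log b := by
    intro n
    have h1 : Λ * n / Real.log b < (⌊Λ * n / Real.log b⌋₊ : ℝ) + 1 := Nat.lt_floor_add_one _
    rw [div_lt_iff₀ hlb] at h1
    have h2 : (L n : ℝ) = (⌊Λ * n / Real.log b⌋₊ : ℝ) + n + 1 := by
      simp only [hL]; push_cast; ring
    rw [h2]
    have h3 : (0 : ℝ) ≤ n * Real.log b := by positivity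
    nlinarith
  have hkey : ∀ᶠ n in (U : Filter ℕ), ∃ cm : (Fin (N + 2) → ℤ) × (Fin (N + 2) → ℕ),
      (∀ t, |cm.1 t| ≤ b) ∧ (∀ t, cm.2 t ≤ Λn * n) ∧
      ((b : ℤ) - 1) * ⌊x * (b : ℝ) ^ L n⌋ =
        ((b : ℤ) - 1) * (b : ℤ) ^ (L n - n) * ⌊x * (b : ℝ) ^ n⌋ +
          ∑ t, cm.1 t * (b : ℤ) ^ cm.2 t := by
    filter_upwards [hchg, hge1] with n hn hn1
    have hnM : n ≤ Λn * n := by
      have : 2 * n ≤ Λn * n := Nat.mul_le_mul_right n (by omega)
      omega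
    have mr := CHW_.chg_add b x n (L n) (Λn * n) (hL2 n hn1) hnM
    obtain ⟨c, m, h1, h2, h3⟩ := CHW_.key hDGT b hb x n (L n) N (Λn * n)
      (hL1 n) (hL2 n hn1) (by omega)
    exact ⟨(c, m), h1, h2, h3⟩
  obtain ⟨f, hf⟩ := hkey.choice
  obtain ⟨c, hc⟩ : ∃ c : Fin (N + 2) → ℤ, ∀ᶠ n in (U : Filter ℕ), (f n).1 = c := by
    have hfin : {c : Fin (N + 2) → ℤ | ∀ t, |c t| ≤ b}.Finite :=
      (Set.finite_Icc (fun _ => -(b : ℤ)) (fun _ => (b : ℤ))).subset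
        (fun c hc => ⟨fun t => (abs_le.1 (hc t)).1, fun t => (abs_le.1 (hc t)).2⟩)
    have h1 : (⋃ c ∈ {c : Fin (N + 2) → ℤ | ∀ t, |c t| ≤ b}, {n | (f n).1 = c}) ∈ U := by
      filter_upwards [hf] with n hn
      simp only [Set.mem_iUnion]
      exact ⟨(f n).1, hn.1, rfl⟩
    obtain ⟨c, -, hc⟩ := (Ultrafilter.finite_biUnion_mem_iff hfin).1 h1
    exact ⟨c, hc⟩
  have hb0 : (0 : ℝ) < b := by positivity
  have hexp : ∀ᶠ n : ℕ in (U : Filter ℕ), |x| + 1 ≤ Real.exp n := by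
    have h2 : Tendsto (fun n : ℕ => Real.exp (n : ℝ)) atTop atTop :=
      Real.tendsto_exp_atTop.comp tendsto_natCast_atTop_atTop
    exact hU (h2.eventually_ge_atTop (|x| + 1))
  have hLle : ∀ᶠ n in (U : Filter ℕ), L n ≤ Λn * n := by
    filter_upwards [hge1] with n hn
    exact hL2 n hn
  have hLle' : ∀ᶠ n in (U : Filter ℕ), L n - n ≤ Λn * n := by
    filter_upwards [hLle] with n hn
    omega
  refine ⟨b.primeFactors, fun n => ((b : ℚ) - 1) * (b : ℚ) ^ L n,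
    fun i n => if i = 0 then ((b : ℚ) - 1) * (b : ℚ) ^ (L n - n)
      else ∑ t, (c t : ℚ) * (b : ℚ) ^ (f n).2 t,
    fun i n => if i = 0 then ⌊x * (b : ℝ) ^ n⌋ else 1, hPS, ?_, ?_, ?_, ?_, ?_⟩
  · exact (hring U b.primeFactors _ (fun _ => (b : ℚ) - 1) (fun n => (b : ℚ) ^ L n) hPS hT
      (hconst U _ _ _ hT) (usm_pow hKBU U b Λn L hb hU hLle)).2
  · intro i
    by_cases hi : i = 0
    · simp only [hi, if_true]
      exact (hring U b.primeFactors _ (fun _ => (b : ℚ) - 1) (fun n => (b : ℚ) ^ (L n - n)) hPS hT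
        (hconst U _ _ _ hT) (usm_pow hKBU U b Λn (fun n => L n - n) hb hU hLle')).2
    · simp only [hi, if_false]
      refine (hfin U b.primeFactors _ (N + 2) (fun t n => (c t : ℚ) * (b : ℚ) ^ (f n).2 t) hPS hT
        (fun t => ?_)).2
      refine (hring U b.primeFactors _ (fun _ => (c t : ℚ)) (fun n => (b : ℚ) ^ (f n).2 t) hPS hT
        (hconst U _ _ _ hT) (usm_pow hKBU U b Λn (fun n => (f n).2 t) hb hU ?_)).2
      filter_upwards [hf] with n hn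
      exact hn.2.1 t
  · filter_upwards with n
    have h1 : ((b : ℚ) - 1) ≠ 0 := by
      have : (2 : ℚ) ≤ b := by exact_mod_cast hb
      intro h; linarith
    have h2 : (b : ℚ) ^ L n ≠ 0 := pow_ne_zero _ (by
      have : (2 : ℚ) ≤ b := by exact_mod_cast hb
      intro h; linarith)
    exact mul_ne_zero h1 h2
  · filter_upwards [hexp] with n hn i
    by_cases hi : i = 0
    · simp only [hi, if_true]
      have h2 : (1 : ℝ) ≤ (b : ℝ) ^ n :=
        one_le_pow₀ (by exact_mod_cast (by omega : 1 ≤ b))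
      have h3 : |((⌊x * (b : ℝ) ^ n⌋ : ℤ) : ℝ)| ≤ |x * (b : ℝ) ^ n| + 1 := by
        have h4 := Int.floor_le (x * (b : ℝ) ^ n)
        have h5 := Int.lt_floor_add_one (x * (b : ℝ) ^ n)
        rw [abs_le]
        constructor
        · have := neg_abs_le (x * (b : ℝ) ^ n); linarith
        · have := le_abs_self (x * (b : ℝ) ^ n); linarith
      have h6 : (b : ℝ) ^ n = Real.exp (Real.log b * n) := by
        rw [mul_comm, Real.exp_nat_mul, Real.exp_log hb0]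
      have h7 : |x * (b : ℝ) ^ n| + 1 ≤ (|x| + 1) * (b : ℝ) ^ n := by
        rw [abs_mul, abs_of_nonneg (by positivity : (0 : ℝ) ≤ (b : ℝ) ^ n)]
        nlinarith
      calc |((⌊x * (b : ℝ) ^ n⌋ : ℤ) : ℝ)| ≤ (|x| + 1) * (b : ℝ) ^ n := h3.trans h7
        _ ≤ Real.exp n * Real.exp (Real.log b * n) := by
          rw [← h6]; exact mul_le_mul_of_nonneg_right hn (by positivity)
        _ = Real.exp ((Real.log b + 1) * n) := by rw [← Real.exp_add]; ring_nf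
    · simp only [hi, if_false]
      rw [Int.cast_one, abs_one]
      exact Real.one_le_exp (by positivity)
  · filter_upwards [hf, hc] with n hn hcn
    obtain ⟨-, -, h3⟩ := hn
    rw [hcn] at h3
    have hbq : (2 : ℚ) ≤ b := by exact_mod_cast hb
    have hb1 : ((b : ℚ) - 1) ≠ 0 := by intro h; linarith
    have hb2 : (b : ℚ) ^ L n ≠ 0 := pow_ne_zero _ (by intro h; linarith)
    have h4 : ((b : ℚ) - 1) * (⌊x * (b : ℝ) ^ L n⌋ : ℚ) =
        ((b : ℚ) - 1) * (b : ℚ) ^ (L n - n) * (⌊x * (b : ℝ) ^ n⌋ : ℚ) +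
          ∑ t, (c t : ℚ) * (b : ℚ) ^ (f n).2 t := by
      exact_mod_cast h3
    have h5 : (∑ i : Fin 2, (if i = 0 then ((b : ℚ) - 1) * (b : ℚ) ^ (L n - n)
        else ∑ t, (c t : ℚ) * (b : ℚ) ^ (f n).2 t) *
          ((if i = 0 then ⌊x * (b : ℝ) ^ n⌋ else 1 : ℤ) : ℚ)) / (((b : ℚ) - 1) * (b : ℚ) ^ L n) =
        (⌊x * (b : ℝ) ^ L n⌋ : ℚ) / (b : ℚ) ^ L n := by
      rw [Fin.sum_univ_two]
      simp only [if_true, one_ne_zero, if_false, Int.cast_one, mul_one]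
      rw [← h4, mul_div_mul_left _ _ hb1]
    rw [h5]
    have h6 : (((⌊x * (b : ℝ) ^ L n⌋ : ℚ) / (b : ℚ) ^ L n : ℚ) : ℝ) =
        (⌊x * (b : ℝ) ^ L n⌋ : ℝ) / (b : ℝ) ^ L n := by push_cast; ring
    rw [h6]
    have hbp : (0 : ℝ) < (b : ℝ) ^ L n := by positivity
    have h7 : |x - (⌊x * (b : ℝ) ^ L n⌋ : ℝ) / (b : ℝ) ^ L n| ≤ 1 / (b : ℝ) ^ L n := by
      have e : x - (⌊x * (b : ℝ) ^ L n⌋ : ℝ) / (b : ℝ) ^ L n =
          (x * (b : ℝ) ^ L n - ⌊x * (b : ℝ) ^ L n⌋) / (b : ℝ) ^ L n := by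
        field_simp
      rw [e, abs_div, abs_of_pos hbp]
      apply div_le_div_of_nonneg_right _ hbp.le
      have h8 := Int.floor_le (x * (b : ℝ) ^ L n)
      have h9 := Int.lt_floor_add_one (x * (b : ℝ) ^ L n)
      rw [abs_le]; constructor <;> linarith
    refine h7.trans ?_
    have h8 : (1 : ℝ) / (b : ℝ) ^ L n = Real.exp (-(L n * Real.log b)) := by
      rw [Real.exp_neg, Real.exp_nat_mul, Real.exp_log hb0, one_div]
    rw [h8]
    apply Real.exp_le_exp.2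
    have h9 := hL3 n
    have h10 : (0 : ℝ) ≤ (Real.log b + 1) * n := by positivity
    have h11 : (Real.log b + 1 - Λ) * n = (Real.log b + 1) * n - Λ * n := by ring
    rw [h11]
    linarith

end Pool.Agent.SBT
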