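import Pool.Agent.SBT.StmtsK
import Pool.Agent.SBT.Api

/-!
# SBT KCR: the core theorem
-/

set_option autoImplicit false

namespace Pool.Agent.SBT

open Filter

namespace KCR_

section

variable {r : ℕ} (g : Fin r → ℕ → ℚ) (n : ℕ)

/-- evaluation as a ring homomorphism -/
noncomputable def evh : MvPolynomial (Fin r) ℚ →+* ℚ := MvPolynomial.eval (fun i => g i n)

theorem ev_eq (H : MvPolynomial (Fin r) ℚ) : ev g n H = evh g n H := rfl

theorem ev_expand (H : MvPolynomial (Fin r) ℚ) :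
    ev g n H = ∑ e ∈ H.support, MvPolynomial.coeff e H * mon g e n := by
  unfold ev mon
  rw [MvPolynomial.eval_eq']

theorem evR_map (H : MvPolynomial (Fin r) ℚ) :
    evR g n (MvPolynomial.map (algebraMap ℚ ℝ) H) = ((ev g n H : ℚ) : ℝ) := by
  unfold evR ev
  induction H using MvPolynomial.induction_on with
  | C a => simp
  | add p q hp hq =>
    rw [map_add, map_add, hp, hq, map_add]
    push_cast
    rfl
  | mul_X p i hp =>
    rw [map_mul, map_mul, hp, map_mul, MvPolynomial.map_X, MvPolynomial.eval_X,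
      MvPolynomial.eval_X]
    push_cast
    rfl

end

/-- a constant which is at most `C exp (-T)` along a filter is zero -/
theorem zero_of_small {F : Filter ℕ} [NeBot F] {T : ℕ → ℝ} (hT : Tendsto T F atTop) (X C : ℝ)
    (h : ∀ᶠ n in F, |X| ≤ C * Real.exp (-T n)) : X = 0 := by
  by_contra hX
  have hX' : 0 < |X| := abs_pos.2 hX
  have h1 := ev_const_le_exp hT one_pos (C / |X| + 1)
  obtain ⟨n, hn1, hn2⟩ := (h.and h1).exists
  rw [one_mul] at hn2
  have h3 : Real.exp (-T n) * Real.exp (T n) = 1 := by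
    rw [← Real.exp_add, neg_add_cancel, Real.exp_zero]
  have h4 : 0 < Real.exp (T n) := Real.exp_pos _
  have h5 : |X| * Real.exp (T n) ≤ C := by
    have := mul_le_mul_of_nonneg_right hn1 h4.le
    rwa [mul_assoc, h3, mul_one] at this
  have h6 : |X| * (C / |X| + 1) ≤ |X| * Real.exp (T n) := mul_le_mul_of_nonneg_left hn2 hX'.le
  have h7 : |X| * (C / |X| + 1) = C + |X| := by field_simp
  rw [h7] at h6
  linarith

/-- the algebra at one `n` -/
theorem descr {r m s d : ℕ} (g : Fin r → ℕ → ℚ) (n : ℕ) (P0 : Fin m → MvPolynomial (Fin r) ℚ)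
    (P : Fin m × Fin s → MvPolynomial (Fin r) ℚ) (Q : Fin m × Fin s → MvPolynomial (Fin r) ℚ)
    (R : Fin m × Fin s → Fin d → MvPolynomial (Fin r) ℚ) (y : Fin m × Fin s → ℚ) (Z : Fin d → ℚ)
    (D : Fin m → ℚ) (F : Fin m × Fin s → ℚ) (μ : ℚ) (hμ : μ ≠ 0)
    (hD : ∀ i, D i ≠ 0) (h0 : ∀ i, μ * D i = ev g n (P0 i))
    (h1 : ∀ j, μ * F j = ev g n (P j)) (h2 : ∀ j, ev g n (Q j) * y j = ∑ l, ev g n (R j l) * Z l)
    (i : Fin m) :
    ev g n ((∏ i, P0 i) * ∏ j, Q j) * ((∑ j, F (i, j) * y (i, j)) / D i) =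
      ∑ l, ev g n (∑ j, P (i, j) * (∏ i' ∈ Finset.univ.erase i, P0 i') *
        (∏ j' ∈ Finset.univ.erase (i, j), Q j') * R (i, j) l) * Z l := by
  have e1 : ev g n ((∏ i, P0 i) * ∏ j, Q j) =
      (μ * D i) * evh g n (∏ i' ∈ Finset.univ.erase i, P0 i') * evh g n (∏ j, Q j) := by
    rw [ev_eq, map_mul, ← Finset.mul_prod_erase _ _ (Finset.mem_univ i), map_mul, h0, ev_eq]
  have e2 : ∀ j : Fin s, evh g n (∏ j, Q j) * y (i, j) =
      evh g n (∏ j' ∈ Finset.univ.erase (i, j), Q j') * ∑ l, ev g n (R (i, j) l) * Z l := by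
    intro j
    rw [← Finset.mul_prod_erase _ _ (Finset.mem_univ (i, j)), map_mul, ← h2, ev_eq]
    ring
  rw [e1]
  have e3 : (μ * D i) * evh g n (∏ i' ∈ Finset.univ.erase i, P0 i') * evh g n (∏ j, Q j) *
      ((∑ j, F (i, j) * y (i, j)) / D i) =
      ∑ j, ev g n (P (i, j)) * evh g n (∏ i' ∈ Finset.univ.erase i, P0 i') *
        (evh g n (∏ j, Q j) * y (i, j)) := by
    have hDi := hD i
    simp_rw [← h1]
    rw [Finset.sum_div, Finset.mul_sum]
    apply Finset.sum_congr rfl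
    intro j _
    field_simp
  rw [e3]
  simp_rw [e2, ev_eq, map_sum, map_mul, Finset.mul_sum, Finset.sum_mul]
  rw [Finset.sum_comm]
  apply Finset.sum_congr rfl
  intro l _
  apply Finset.sum_congr rfl
  intro j _
  ring

/-- the final estimate at one `n` -/
theorem final {m : ℕ} (x ρ b c : Fin m → ℝ) (E Y M ξ : ℝ) (_hE : 0 ≤ E) (hb : ∑ i, b i * x i = 0)
    (hρ : ∀ i, |x i - ρ i| ≤ E) (hY : 0 ≤ Y) (hM : 0 ≤ M) (hξ : ξ ≠ 0)
    (h : |ξ * ∑ i, c i * ρ i| ≤ M * (Y * |ξ * ∑ i, b i * ρ i|)) :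
    |∑ i, c i * x i| ≤ M * (Y * ((∑ i, |b i|) * E)) + (∑ i, |c i|) * E := by
  have h1 : |∑ i, b i * ρ i| ≤ (∑ i, |b i|) * E := by
    have : ∑ i, b i * ρ i = ∑ i, b i * (ρ i - x i) := by
      simp_rw [mul_sub]
      rw [Finset.sum_sub_distrib, hb, sub_zero]
    rw [this, Finset.sum_mul]
    refine (Finset.abs_sum_le_sum_abs _ _).trans (Finset.sum_le_sum fun i _ => ?_)
    rw [abs_mul, abs_sub_comm]
    exact mul_le_mul_of_nonneg_left (hρ i) (abs_nonneg _)
  have h2 : |∑ i, c i * ρ i| ≤ M * (Y * |∑ i, b i * ρ i|) := by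
    rw [abs_mul, abs_mul] at h
    have hξ' : 0 < |ξ| := abs_pos.2 hξ
    have : |ξ| * |∑ i, c i * ρ i| ≤ |ξ| * (M * (Y * |∑ i, b i * ρ i|)) := by
      refine h.trans (le_of_eq ?_)
      ring
    exact le_of_mul_le_mul_left this hξ'
  have h3 : |∑ i, c i * (x i - ρ i)| ≤ (∑ i, |c i|) * E := by
    rw [Finset.sum_mul]
    refine (Finset.abs_sum_le_sum_abs _ _).trans (Finset.sum_le_sum fun i _ => ?_)
    rw [abs_mul]
    exact mul_le_mul_of_nonneg_left (hρ i) (abs_nonneg _)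
  have h4 : ∑ i, c i * x i = ∑ i, c i * ρ i + ∑ i, c i * (x i - ρ i) := by
    rw [← Finset.sum_add_distrib]
    apply Finset.sum_congr rfl
    intro i _
    ring
  rw [h4]
  refine (abs_add_le _ _).trans (add_le_add ?_ h3)
  refine h2.trans ?_
  apply mul_le_mul_of_nonneg_left _ hM
  exact mul_le_mul_of_nonneg_left h1 hY

end KCR_

open KCR_

theorem kcr_proof (hUNI : Stmt_UNI) (hKS2T : Stmt_KS2T) (hKUS : Stmt_KUS) (hKEL : Stmt_KEL)
    (hKPO : Stmt_KPO) : Stmt_KCR := by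
  intro K _ m s x β lam B hB hβ
  refine ⟨(m * s + 2) * B + |B| + 3, ?_⟩
  intro U T Λ hT hΛ hA
  classical
  choose S' D F y hPS' hD' hF' hDne hy hap using hA
  -- common set of primes
  set S : Finset ℕ := Finset.univ.biUnion S' with hS
  have hPS : PS S := by
    intro p hp
    rw [hS, Finset.mem_biUnion] at hp
    obtain ⟨i, _, hi⟩ := hp
    exact hPS' i p hi
  have hsub : ∀ i, S' i ⊆ S := fun i => Finset.subset_biUnion_of_mem S' (Finset.mem_univ i)
  have hD : ∀ i, USm U S T (D i) := fun i => hKUS.2.2.1 U (S' i) S T _ hPS (hsub i) hT (hD' i)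
  have hF : ∀ i j, USm U S T (F i j) := fun i j =>
    hKUS.2.2.1 U (S' i) S T _ hPS (hsub i) hT (hF' i j)
  -- polynomials
  obtain ⟨r, g, μ, P, hG, hP⟩ := hKPO U S T (Fin m ⊕ (Fin m × Fin s))
    (Sum.elim (fun i => D i) (fun j => F j.1 j.2)) hPS hT (by
      rintro (i | j)
      · exact hD i
      · exact hF j.1 j.2)
  have hgne : ∀ i n, g i n ≠ 0 := fun i n => (hG.unit i n).ne_zero
  have hmon : ∀ e n, mon g e n ≠ 0 := fun e n =>
    Finset.prod_ne_zero_iff.2 fun i _ => pow_ne_zero _ (hgne i n)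
  -- independent integers
  obtain ⟨d, Z, hd, hZ, hInd, hQR⟩ := hKEL U r g (Fin m × Fin s) (fun j => y j.1 j.2)
  choose Q R hQ hR using hQR
  have hP0 : ∀ i, P (Sum.inl i) ≠ 0 := by
    intro i h0
    have h1 := hP (Sum.inl i)
    obtain ⟨n, hn1, hn2⟩ := (h1.and (hDne i)).exists
    rw [h0, ev_eq, map_zero] at hn1
    rcases mul_eq_zero.1 hn1 with h2 | h2
    · exact hmon μ n h2
    · exact hn2 h2
  set Om : MvPolynomial (Fin r) ℚ := (∏ i, P (Sum.inl i)) * ∏ j, Q j with hOm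
  have hOm0 : Om ≠ 0 := mul_ne_zero (Finset.prod_ne_zero_iff.2 fun i _ => hP0 i)
    (Finset.prod_ne_zero_iff.2 fun j _ => hQ j)
  have hOmev : ∀ᶠ n in (U : Filter ℕ), ev g n Om ≠ 0 := by
    rcases ult_em U (fun n => ev g n Om = 0) with h | h
    · exact absurd (hUNI U S r g hPS hG.unit hG.ind Om h) hOm0
    · exact h
  set V : Fin m → Fin d → MvPolynomial (Fin r) ℚ := fun i l =>
    ∑ j, P (Sum.inr (i, j)) * (∏ i' ∈ Finset.univ.erase i, P (Sum.inl i')) *
      (∏ j' ∈ Finset.univ.erase (i, j), Q j') * R (i, j) l with hV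
  -- the approximations
  set ρ : Fin m → ℕ → ℚ := fun i n => (∑ j, F i j n * (y i j n : ℚ)) / D i n with hρ
  have hdes : ∀ᶠ n in (U : Filter ℕ), ∀ i,
      ev g n Om * ρ i n = ∑ l, ev g n (V i l) * (Z l n : ℚ) := by
    have h1 : ∀ᶠ n in (U : Filter ℕ), ∀ i, mon g μ n * D i n = ev g n (P (Sum.inl i)) :=
      eventually_all.2 fun i => hP (Sum.inl i)
    have h2 : ∀ᶠ n in (U : Filter ℕ), ∀ j : Fin m × Fin s,
        mon g μ n * F j.1 j.2 n = ev g n (P (Sum.inr j)) :=
      eventually_all.2 fun j => hP (Sum.inr j)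
    have h3 : ∀ᶠ n in (U : Filter ℕ), ∀ j : Fin m × Fin s,
        ev g n (Q j) * (y j.1 j.2 n : ℚ) = ∑ l, ev g n (R j l) * (Z l n : ℚ) :=
      eventually_all.2 fun j => hR j
    have h4 : ∀ᶠ n in (U : Filter ℕ), ∀ i, D i n ≠ 0 := eventually_all.2 hDne
    filter_upwards [h1, h2, h3, h4] with n h1 h2 h3 h4
    intro i
    exact descr g n (fun i => P (Sum.inl i)) (fun j => P (Sum.inr j)) Q R
      (fun j => (y j.1 j.2 n : ℚ)) (fun l => (Z l n : ℚ)) (fun i => D i n)
      (fun j => F j.1 j.2 n) (mon g μ n) (hmon μ n) h4 h1 h2 h3 i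
  -- real polynomials
  set W : Fin d → MvPolynomial (Fin r) ℝ := fun l =>
    ∑ i, MvPolynomial.C ((β i : K) : ℝ) * MvPolynomial.map (algebraMap ℚ ℝ) (V i l) with hW
  set W' : Fin d → MvPolynomial (Fin r) ℚ := fun l =>
    ∑ i, MvPolynomial.C (lam (β i)) * V i l with hW'
  have hcoeff : ∀ l e, ∃ κ : K, MvPolynomial.coeff e (W l) = (κ : ℝ) ∧
      MvPolynomial.coeff e (W' l) = lam κ := by
    intro l e
    refine ⟨∑ i, (MvPolynomial.coeff e (V i l)) • β i, ?_, ?_⟩
    · rw [hW]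
      simp only
      rw [MvPolynomial.coeff_sum]
      push_cast
      apply Finset.sum_congr rfl
      intro i _
      rw [MvPolynomial.coeff_C_mul, MvPolynomial.coeff_map, Algebra.smul_def, mul_comm]
    · rw [hW']
      simp only
      rw [MvPolynomial.coeff_sum, map_sum]
      apply Finset.sum_congr rfl
      intro i _
      rw [MvPolynomial.coeff_C_mul, map_smul, smul_eq_mul, mul_comm]
  have hsupp : ∀ l, ∀ e ∈ (W' l).support, e ∈ (W l).support := by
    intro l e he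
    rw [MvPolynomial.mem_support_iff] at he ⊢
    intro h0
    obtain ⟨κ, h1, h2⟩ := hcoeff l e
    rw [h1] at h0
    have h3 : κ = 0 := by exact_mod_cast h0
    rw [h2, h3, map_zero] at he
    exact he rfl
  have hZB : ∀ᶠ n in (U : Filter ℕ), ∀ i, |(Z i n : ℝ)| ≤ Real.exp (B * T n) := by
    have h1 : ∀ᶠ n in (U : Filter ℕ), ∀ i j, |(y i j n : ℝ)| ≤ Real.exp (B * T n) :=
      eventually_all.2 hy
    filter_upwards [h1] with n h1
    intro i
    obtain ⟨j, hj⟩ := hZ i
    rw [hj]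
    exact h1 j.1 j.2
  have hs2 := hKS2T K U S T r d g Z B 1 W hG hB one_pos hZB hInd (by
    intro l e
    obtain ⟨κ, h1, _⟩ := hcoeff l e
    rw [h1]
    exact κ.2)
  have hs3 : ∀ᶠ n in (U : Filter ℕ), ∀ l, ∀ e ∈ (W l).support, av 0 (mon g e n) ≤
      Real.exp ((d * B + 1) * T n) * |∑ i, evR g n (W i) * (Z i n : ℝ)| := by
    rw [eventually_all]
    intro l
    rw [Filter.eventually_all_finset]
    intro e he
    exact hs2 l e he
  -- constants
  set M : ℝ := ∑ l, ∑ e ∈ (W' l).support, |((MvPolynomial.coeff e (W' l) : ℚ) : ℝ)| with hM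
  have hM0 : 0 ≤ M := Finset.sum_nonneg fun l _ => Finset.sum_nonneg fun e _ => abs_nonneg _
  set A : ℝ := ∑ i, |((β i : K) : ℝ)| with hAd
  set A' : ℝ := ∑ i, |((lam (β i) : ℚ) : ℝ)| with hAd'
  have hA0 : 0 ≤ A := Finset.sum_nonneg fun i _ => abs_nonneg _
  have hA'0 : 0 ≤ A' := Finset.sum_nonneg fun i _ => abs_nonneg _
  apply zero_of_small hT _ (M * A + A')
  have hap' : ∀ᶠ n in (U : Filter ℕ), ∀ i, |x i - (ρ i n : ℝ)| ≤ Real.exp ((B - Λ) * T n) :=
    eventually_all.2 hap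
  filter_upwards [hdes, hs3, hZB, hOmev, hap', ev_pos hT] with n hdes hs3 hZB hOmn hap hTn
  have hd' : (d : ℝ) ≤ m * s := by
    have : d ≤ m * s := by
      have := hd
      rwa [Fintype.card_prod, Fintype.card_fin, Fintype.card_fin] at this
    exact_mod_cast this
  have hdB : (d : ℝ) * B ≤ (m * s) * B := mul_le_mul_of_nonneg_right hd' hB
  have hΛ2 : (d * B + 1) + B + (B - Λ) ≤ -1 := by
    have := abs_nonneg B
    nlinarith
  have hΛ3 : B - Λ ≤ -1 := by
    have h1 : 0 ≤ (d : ℝ) * B := mul_nonneg (Nat.cast_nonneg _) hB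
    linarith
  -- the two sums
  have e1 : ∑ l, evR g n (W l) * (Z l n : ℝ) =
      (ev g n Om : ℝ) * ∑ i, ((β i : K) : ℝ) * (ρ i n : ℝ) := by
    have h1 : ∀ l, evR g n (W l) = ∑ i, ((β i : K) : ℝ) * ((ev g n (V i l) : ℚ) : ℝ) := by
      intro l
      rw [hW]
      simp only
      unfold evR
      rw [map_sum]
      apply Finset.sum_congr rfl
      intro i _
      rw [map_mul, MvPolynomial.eval_C]
      have := evR_map g n (V i l)
      unfold evR at this
      rw [this]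
    simp_rw [h1, Finset.sum_mul]
    rw [Finset.sum_comm, Finset.mul_sum]
    apply Finset.sum_congr rfl
    intro i _
    have h2 : ((ev g n Om * ρ i n : ℚ) : ℝ) = ((∑ l, ev g n (V i l) * (Z l n : ℚ) : ℚ) : ℝ) := by
      rw [hdes i]
    push_cast at h2
    calc ∑ l, ((β i : K) : ℝ) * ((ev g n (V i l) : ℚ) : ℝ) * (Z l n : ℝ)
        = ((β i : K) : ℝ) * ∑ l, ((ev g n (V i l) : ℚ) : ℝ) * (Z l n : ℝ) := by
          rw [Finset.mul_sum]
          apply Finset.sum_congr rfl
          intro l _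
          ring
      _ = (ev g n Om : ℝ) * (((β i : K) : ℝ) * (ρ i n : ℝ)) := by
          rw [← h2]
          ring
  have e2 : ((∑ l, ev g n (W' l) * (Z l n : ℚ) : ℚ) : ℝ) =
      (ev g n Om : ℝ) * ∑ i, ((lam (β i) : ℚ) : ℝ) * (ρ i n : ℝ) := by
    have h1 : ∑ l, ev g n (W' l) * (Z l n : ℚ) = ev g n Om * ∑ i, lam (β i) * ρ i n := by
      have h2 : ∀ l, ev g n (W' l) = ∑ i, lam (β i) * ev g n (V i l) := by
        intro l
        rw [hW']
        simp only
        unfold ev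
        rw [map_sum]
        apply Finset.sum_congr rfl
        intro i _
        rw [map_mul, MvPolynomial.eval_C]
      simp_rw [h2, Finset.sum_mul]
      rw [Finset.sum_comm, Finset.mul_sum]
      apply Finset.sum_congr rfl
      intro i _
      calc ∑ l, lam (β i) * ev g n (V i l) * (Z l n : ℚ)
          = lam (β i) * ∑ l, ev g n (V i l) * (Z l n : ℚ) := by
            rw [Finset.mul_sum]
            apply Finset.sum_congr rfl
            intro l _
            ring
        _ = ev g n Om * (lam (β i) * ρ i n) := by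
            rw [← hdes i]
            ring
    rw [h1]
    push_cast
    rfl
  -- the estimate
  set Y : ℝ := Real.exp ((d * B + 1) * T n) * Real.exp (B * T n) with hY
  have hY0 : 0 ≤ Y := by positivity
  have e3 : |(ev g n Om : ℝ) * ∑ i, ((lam (β i) : ℚ) : ℝ) * (ρ i n : ℝ)| ≤
      M * (Y * |(ev g n Om : ℝ) * ∑ i, ((β i : K) : ℝ) * (ρ i n : ℝ)|) := by
    rw [← e1, ← e2]
    push_cast
    refine (Finset.abs_sum_le_sum_abs _ _).trans ?_
    rw [hM, Finset.sum_mul]
    apply Finset.sum_le_sum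
    intro l _
    rw [abs_mul, ev_expand]
    push_cast
    have h1 : |∑ e ∈ (W' l).support, ((MvPolynomial.coeff e (W' l) : ℚ) : ℝ) *
        ((mon g e n : ℚ) : ℝ)| ≤ ∑ e ∈ (W' l).support,
          |((MvPolynomial.coeff e (W' l) : ℚ) : ℝ)| * (Real.exp ((d * B + 1) * T n) *
            |∑ i, evR g n (W i) * (Z i n : ℝ)|) := by
      refine (Finset.abs_sum_le_sum_abs _ _).trans (Finset.sum_le_sum fun e he => ?_)
      rw [abs_mul]
      apply mul_le_mul_of_nonneg_left _ (abs_nonneg _)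
      have := hs3 l e (hsupp l e he)
      rwa [av_zero_eq] at this
    calc _ ≤ (∑ e ∈ (W' l).support,
          |((MvPolynomial.coeff e (W' l) : ℚ) : ℝ)| * (Real.exp ((d * B + 1) * T n) *
            |∑ i, evR g n (W i) * (Z i n : ℝ)|)) * Real.exp (B * T n) :=
          mul_le_mul h1 (hZB l) (abs_nonneg _) (Finset.sum_nonneg fun e _ => by positivity)
      _ = _ := by
          rw [← Finset.sum_mul, hY]
          ring
  have e4 := final (fun i => x i) (fun i => (ρ i n : ℝ)) (fun i => ((β i : K) : ℝ))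
    (fun i => ((lam (β i) : ℚ) : ℝ)) (Real.exp ((B - Λ) * T n)) Y M (ev g n Om : ℝ)
    (Real.exp_pos _).le hβ hap hY0 hM0 (by exact_mod_cast hOmn) e3
  refine e4.trans ?_
  have h5 : Real.exp ((B - Λ) * T n) ≤ Real.exp (-T n) := by
    apply Real.exp_le_exp.2
    nlinarith
  have h6 : Y * Real.exp ((B - Λ) * T n) ≤ Real.exp (-T n) := by
    rw [hY, ← Real.exp_add, ← Real.exp_add]
    apply Real.exp_le_exp.2
    nlinarith
  calc M * (Y * (A * Real.exp ((B - Λ) * T n))) + A' * Real.exp ((B - Λ) * T n)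
      = M * A * (Y * Real.exp ((B - Λ) * T n)) + A' * Real.exp ((B - Λ) * T n) := by ring
    _ ≤ M * A * Real.exp (-T n) + A' * Real.exp (-T n) :=
        add_le_add (mul_le_mul_of_nonneg_left h6 (mul_nonneg hM0 hA0))
          (mul_le_mul_of_nonneg_left h5 hA'0)
    _ = (M * A + A') * Real.exp (-T n) := by ring

end Pool.Agent.SBT
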