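import Pool.Agent.SBT.KCR

/-!
# SBT KCV: the core theorem with individual exponents
-/

set_option autoImplicit false

namespace Pool.Agent.SBT

open Filter

/-- KS2T with individual exponents. -/
def Stmt_KS2V : Prop :=
  ∀ (K : IntermediateField ℚ ℝ) [FiniteDimensional ℚ K] (U : Ultrafilter ℕ) (S : Finset ℕ)
    (T : ℕ → ℝ) (r d : ℕ) (g : Fin r → ℕ → ℚ) (Z : Fin d → ℕ → ℤ) (b : Fin d → ℝ) (δ : ℝ)
    (D : Fin d → MvPolynomial (Fin r) ℝ), Gd U S T g → (∀ i, 0 ≤ b i) → 0 < δ →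
    (∀ᶠ n in (U : Filter ℕ), ∀ i, |(Z i n : ℝ)| ≤ Real.exp (b i * T n)) → Indp U g Z →
    (∀ i e, MvPolynomial.coeff e (D i) ∈ K) → ∀ i, ∀ e ∈ (D i).support,
      ∀ᶠ n in (U : Filter ℕ), av 0 (mon g e n) ≤
        Real.exp ((∑ i, b i + δ) * T n) * |∑ i, evR g n (D i) * (Z i n : ℝ)|

/-- `x` is described up to `exp (-E T)` by `s` integers of sizes `exp (b i T)` with sums of units
as coefficients -/
def AprV (U : Ultrafilter ℕ) (T : ℕ → ℝ) (s : ℕ) (b : Fin s → ℝ) (E : ℝ) (x : ℝ) : Prop :=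
  ∃ (S : Finset ℕ) (D : ℕ → ℚ) (F : Fin s → ℕ → ℚ) (y : Fin s → ℕ → ℤ), PS S ∧
    USm U S T D ∧ (∀ i, USm U S T (F i)) ∧ (∀ᶠ n in (U : Filter ℕ), D n ≠ 0) ∧
    (∀ᶠ n in (U : Filter ℕ), ∀ i, |(y i n : ℝ)| ≤ Real.exp (b i * T n)) ∧
    ∀ᶠ n in (U : Filter ℕ),
      |x - (((∑ i, F i n * (y i n : ℚ)) / D n : ℚ) : ℝ)| ≤ Real.exp (-E * T n)

/-- KCV: KCR with individual exponents: only the sum of all exponents matters. -/
def Stmt_KCV : Prop :=
  ∀ (K : IntermediateField ℚ ℝ) [FiniteDimensional ℚ K] (m s : ℕ) (x : Fin m → ℝ)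
    (β : Fin m → K) (lam : K →ₗ[ℚ] ℚ) (U : Ultrafilter ℕ) (T : ℕ → ℝ)
    (b : Fin m → Fin s → ℝ) (B E : ℝ), ∑ i, (β i : ℝ) * x i = 0 →
    Tendsto T (U : Filter ℕ) atTop → (∀ i j, 0 ≤ b i j) → (∀ i j, b i j ≤ B) → 0 ≤ B →
    ∑ i, ∑ j, b i j + B + 3 ≤ E → (∀ i, AprV U T s (b i) E (x i)) →
    ∑ i, ((lam (β i) : ℚ) : ℝ) * x i = 0

open KCR_

theorem kcv_proof (hUNI : Stmt_UNI) (hKS2V : Stmt_KS2V) (hKUS : Stmt_KUS) (hKEL : Stmt_KEL)
    (hKPO : Stmt_KPO) : Stmt_KCV := by
  intro K _ m s x β lam U T b B E hβ hT hb0 hbB hB hE hA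
  classical
  choose S' D F y hPS' hD' hF' hDne hy hap using hA
  -- common set of primes
  set S : Finset ℕ := Finset.univ.biUnion S' with hS
  have hPS : PS S := by
    intro p hp
    rw [hS, Finset.mem_biUnion] at hp
    obtain ⟨i, _, hi⟩ := hp
    exact hPS' i p hi
  have hsub : ∀ i, S' i ⊆ S := fun i => Finset.subset_biUnion_of_mem S' (Finset.mem_univ i)
  have hD : ∀ i, USm U S T (D i) := fun i => hKUS.2.2.1 U (S' i) S T _ hPS (hsub i) hT (hD' i)
  have hF : ∀ i j, USm U S T (F i j) := fun i j =>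
    hKUS.2.2.1 U (S' i) S T _ hPS (hsub i) hT (hF' i j)
  -- polynomials
  obtain ⟨r, g, μ, P, hG, hP⟩ := hKPO U S T (Fin m ⊕ (Fin m × Fin s))
    (Sum.elim (fun i => D i) (fun j => F j.1 j.2)) hPS hT (by
      rintro (i | j)
      · exact hD i
      · exact hF j.1 j.2)
  have hgne : ∀ i n, g i n ≠ 0 := fun i n => (hG.unit i n).ne_zero
  have hmon : ∀ e n, mon g e n ≠ 0 := fun e n =>
    Finset.prod_ne_zero_iff.2 fun i _ => pow_ne_zero _ (hgne i n)
  -- independent integers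
  obtain ⟨d, Z, hd, hZ, hInd, hQR⟩ := hKEL U r g (Fin m × Fin s) (fun j => y j.1 j.2)
  choose Q R hQ hR using hQR
  choose jj hjj using hZ
  have hinj : Function.Injective jj := by
    intro l l' hll
    by_contra hne
    have h1 := hInd (Pi.single l 1 - Pi.single l' 1) (Eventually.of_forall fun n => by
      have h2 : Z l = Z l' := by rw [hjj l, hjj l', hll]
      have h3 : ∀ i, ev g n ((Pi.single l 1 - Pi.single l' 1 : Fin d → MvPolynomial (Fin r) ℚ) i) *
          (Z i n : ℚ) = (if i = l then (Z l n : ℚ) else 0) - (if i = l' then (Z l n : ℚ) else 0) := by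
        intro i
        rw [Pi.sub_apply, ev_eq, map_sub, sub_mul]
        by_cases hi : i = l
        · subst hi
          rw [Pi.single_eq_same, Pi.single_eq_of_ne hne, if_pos rfl, if_neg hne, map_one, map_zero]
          ring
        · rw [Pi.single_eq_of_ne hi, if_neg hi]
          by_cases hi' : i = l'
          · subst hi'
            rw [Pi.single_eq_same, if_pos rfl, map_one, map_zero, h2]
            ring
          · rw [Pi.single_eq_of_ne hi', if_neg hi', map_zero]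
            ring
      rw [Finset.sum_congr rfl fun i _ => h3 i, Finset.sum_sub_distrib, Finset.sum_ite_eq',
        Finset.sum_ite_eq', if_pos (Finset.mem_univ _), if_pos (Finset.mem_univ _), sub_self])
    have h4 := congrFun h1 l
    rw [Pi.sub_apply, Pi.single_eq_same, Pi.single_eq_of_ne hne, sub_zero] at h4
    exact one_ne_zero h4
  set bb : Fin d → ℝ := fun l => b (jj l).1 (jj l).2 with hbb
  have hsum : ∑ l, bb l ≤ ∑ i, ∑ j, b i j := by
    rw [← Fintype.sum_prod_type' (f := fun i j => b i j)]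
    calc ∑ l, bb l = ∑ j ∈ Finset.univ.image jj, b j.1 j.2 := by
          rw [Finset.sum_image (fun x _ y _ h => hinj h)]
      _ ≤ ∑ j : Fin m × Fin s, b j.1 j.2 :=
          Finset.sum_le_univ_sum_of_nonneg fun j => hb0 j.1 j.2
  have hP0 : ∀ i, P (Sum.inl i) ≠ 0 := by
    intro i h0
    have h1 := hP (Sum.inl i)
    obtain ⟨n, hn1, hn2⟩ := (h1.and (hDne i)).exists
    rw [h0, ev_eq, map_zero] at hn1
    rcases mul_eq_zero.1 hn1 with h2 | h2
    · exact hmon μ n h2
    · exact hn2 h2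
  set Om : MvPolynomial (Fin r) ℚ := (∏ i, P (Sum.inl i)) * ∏ j, Q j with hOm
  have hOm0 : Om ≠ 0 := mul_ne_zero (Finset.prod_ne_zero_iff.2 fun i _ => hP0 i)
    (Finset.prod_ne_zero_iff.2 fun j _ => hQ j)
  have hOmev : ∀ᶠ n in (U : Filter ℕ), ev g n Om ≠ 0 := by
    rcases ult_em U (fun n => ev g n Om = 0) with h | h
    · exact absurd (hUNI U S r g hPS hG.unit hG.ind Om h) hOm0
    · exact h
  set V : Fin m → Fin d → MvPolynomial (Fin r) ℚ := fun i l =>
    ∑ j, P (Sum.inr (i, j)) * (∏ i' ∈ Finset.univ.erase i, P (Sum.inl i')) *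
      (∏ j' ∈ Finset.univ.erase (i, j), Q j') * R (i, j) l with hV
  -- the approximations
  set ρ : Fin m → ℕ → ℚ := fun i n => (∑ j, F i j n * (y i j n : ℚ)) / D i n with hρ
  have hdes : ∀ᶠ n in (U : Filter ℕ), ∀ i,
      ev g n Om * ρ i n = ∑ l, ev g n (V i l) * (Z l n : ℚ) := by
    have h1 : ∀ᶠ n in (U : Filter ℕ), ∀ i, mon g μ n * D i n = ev g n (P (Sum.inl i)) :=
      eventually_all.2 fun i => hP (Sum.inl i)
    have h2 : ∀ᶠ n in (U : Filter ℕ), ∀ j : Fin m × Fin s,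
        mon g μ n * F j.1 j.2 n = ev g n (P (Sum.inr j)) :=
      eventually_all.2 fun j => hP (Sum.inr j)
    have h3 : ∀ᶠ n in (U : Filter ℕ), ∀ j : Fin m × Fin s,
        ev g n (Q j) * (y j.1 j.2 n : ℚ) = ∑ l, ev g n (R j l) * (Z l n : ℚ) :=
      eventually_all.2 fun j => hR j
    have h4 : ∀ᶠ n in (U : Filter ℕ), ∀ i, D i n ≠ 0 := eventually_all.2 hDne
    filter_upwards [h1, h2, h3, h4] with n h1 h2 h3 h4
    intro i
    exact descr g n (fun i => P (Sum.inl i)) (fun j => P (Sum.inr j)) Q R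
      (fun j => (y j.1 j.2 n : ℚ)) (fun l => (Z l n : ℚ)) (fun i => D i n)
      (fun j => F j.1 j.2 n) (mon g μ n) (hmon μ n) h4 h1 h2 h3 i
  -- real polynomials
  set W : Fin d → MvPolynomial (Fin r) ℝ := fun l =>
    ∑ i, MvPolynomial.C ((β i : K) : ℝ) * MvPolynomial.map (algebraMap ℚ ℝ) (V i l) with hW
  set W' : Fin d → MvPolynomial (Fin r) ℚ := fun l =>
    ∑ i, MvPolynomial.C (lam (β i)) * V i l with hW'
  have hcoeff : ∀ l e, ∃ κ : K, MvPolynomial.coeff e (W l) = (κ : ℝ) ∧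
      MvPolynomial.coeff e (W' l) = lam κ := by
    intro l e
    refine ⟨∑ i, (MvPolynomial.coeff e (V i l)) • β i, ?_, ?_⟩
    · rw [hW]
      simp only
      rw [MvPolynomial.coeff_sum]
      push_cast
      apply Finset.sum_congr rfl
      intro i _
      rw [MvPolynomial.coeff_C_mul, MvPolynomial.coeff_map, Algebra.smul_def, mul_comm]
    · rw [hW']
      simp only
      rw [MvPolynomial.coeff_sum, map_sum]
      apply Finset.sum_congr rfl
      intro i _
      rw [MvPolynomial.coeff_C_mul, map_smul, smul_eq_mul, mul_comm]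
  have hsupp : ∀ l, ∀ e ∈ (W' l).support, e ∈ (W l).support := by
    intro l e he
    rw [MvPolynomial.mem_support_iff] at he ⊢
    intro h0
    obtain ⟨κ, h1, h2⟩ := hcoeff l e
    rw [h1] at h0
    have h3 : κ = 0 := by exact_mod_cast h0
    rw [h2, h3, map_zero] at he
    exact he rfl
  have hZb : ∀ᶠ n in (U : Filter ℕ), ∀ i, |(Z i n : ℝ)| ≤ Real.exp (bb i * T n) := by
    have h1 : ∀ᶠ n in (U : Filter ℕ), ∀ i j, |(y i j n : ℝ)| ≤ Real.exp (b i j * T n) :=
      eventually_all.2 hy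
    filter_upwards [h1] with n h1
    intro i
    rw [hjj i]
    exact h1 (jj i).1 (jj i).2
  have hZB : ∀ᶠ n in (U : Filter ℕ), ∀ i, |(Z i n : ℝ)| ≤ Real.exp (B * T n) := by
    filter_upwards [hZb, ev_pos hT] with n h1 h2
    intro i
    refine (h1 i).trans (Real.exp_le_exp.2 ?_)
    exact mul_le_mul_of_nonneg_right (hbB _ _) h2.le
  have hs2 := hKS2V K U S T r d g Z bb 1 W hG (fun i => hb0 _ _) one_pos hZb hInd (by
    intro l e
    obtain ⟨κ, h1, _⟩ := hcoeff l e
    rw [h1]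
    exact κ.2)
  have hs3 : ∀ᶠ n in (U : Filter ℕ), ∀ l, ∀ e ∈ (W l).support, av 0 (mon g e n) ≤
      Real.exp ((∑ i, bb i + 1) * T n) * |∑ i, evR g n (W i) * (Z i n : ℝ)| := by
    rw [eventually_all]
    intro l
    rw [Filter.eventually_all_finset]
    intro e he
    exact hs2 l e he
  -- constants
  set M : ℝ := ∑ l, ∑ e ∈ (W' l).support, |((MvPolynomial.coeff e (W' l) : ℚ) : ℝ)| with hM
  have hM0 : 0 ≤ M := Finset.sum_nonneg fun l _ => Finset.sum_nonneg fun e _ => abs_nonneg _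
  set A : ℝ := ∑ i, |((β i : K) : ℝ)| with hAd
  set A' : ℝ := ∑ i, |((lam (β i) : ℚ) : ℝ)| with hAd'
  have hA0 : 0 ≤ A := Finset.sum_nonneg fun i _ => abs_nonneg _
  have hA'0 : 0 ≤ A' := Finset.sum_nonneg fun i _ => abs_nonneg _
  apply zero_of_small hT _ (M * A + A')
  have hap' : ∀ᶠ n in (U : Filter ℕ), ∀ i, |x i - (ρ i n : ℝ)| ≤ Real.exp ((-E) * T n) :=
    eventually_all.2 hap
  filter_upwards [hdes, hs3, hZB, hOmev, hap', ev_pos hT] with n hdes hs3 hZB hOmn hap hTn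
  have hbb0 : 0 ≤ ∑ i, bb i := Finset.sum_nonneg fun i _ => hb0 _ _
  have hΛ2 : (∑ i, bb i + 1) + B + (-E) ≤ -1 := by linarith
  have hΛ3 : (-E) ≤ -1 := by linarith
  -- the two sums
  have e1 : ∑ l, evR g n (W l) * (Z l n : ℝ) =
      (ev g n Om : ℝ) * ∑ i, ((β i : K) : ℝ) * (ρ i n : ℝ) := by
    have h1 : ∀ l, evR g n (W l) = ∑ i, ((β i : K) : ℝ) * ((ev g n (V i l) : ℚ) : ℝ) := by
      intro l
      rw [hW]
      simp only
      unfold evR
      rw [map_sum]
      apply Finset.sum_congr rfl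
      intro i _
      rw [map_mul, MvPolynomial.eval_C]
      have := evR_map g n (V i l)
      unfold evR at this
      rw [this]
    simp_rw [h1, Finset.sum_mul]
    rw [Finset.sum_comm, Finset.mul_sum]
    apply Finset.sum_congr rfl
    intro i _
    have h2 : ((ev g n Om * ρ i n : ℚ) : ℝ) = ((∑ l, ev g n (V i l) * (Z l n : ℚ) : ℚ) : ℝ) := by
      rw [hdes i]
    push_cast at h2
    calc ∑ l, ((β i : K) : ℝ) * ((ev g n (V i l) : ℚ) : ℝ) * (Z l n : ℝ)
        = ((β i : K) : ℝ) * ∑ l, ((ev g n (V i l) : ℚ) : ℝ) * (Z l n : ℝ) := by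
          rw [Finset.mul_sum]
          apply Finset.sum_congr rfl
          intro l _
          ring
      _ = (ev g n Om : ℝ) * (((β i : K) : ℝ) * (ρ i n : ℝ)) := by
          rw [← h2]
          ring
  have e2 : ((∑ l, ev g n (W' l) * (Z l n : ℚ) : ℚ) : ℝ) =
      (ev g n Om : ℝ) * ∑ i, ((lam (β i) : ℚ) : ℝ) * (ρ i n : ℝ) := by
    have h1 : ∑ l, ev g n (W' l) * (Z l n : ℚ) = ev g n Om * ∑ i, lam (β i) * ρ i n := by
      have h2 : ∀ l, ev g n (W' l) = ∑ i, lam (β i) * ev g n (V i l) := by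
        intro l
        rw [hW']
        simp only
        unfold ev
        rw [map_sum]
        apply Finset.sum_congr rfl
        intro i _
        rw [map_mul, MvPolynomial.eval_C]
      simp_rw [h2, Finset.sum_mul]
      rw [Finset.sum_comm, Finset.mul_sum]
      apply Finset.sum_congr rfl
      intro i _
      calc ∑ l, lam (β i) * ev g n (V i l) * (Z l n : ℚ)
          = lam (β i) * ∑ l, ev g n (V i l) * (Z l n : ℚ) := by
            rw [Finset.mul_sum]
            apply Finset.sum_congr rfl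
            intro l _
            ring
        _ = ev g n Om * (lam (β i) * ρ i n) := by
            rw [← hdes i]
            ring
    rw [h1]
    push_cast
    rfl
  -- the estimate
  set Y : ℝ := Real.exp ((∑ i, bb i + 1) * T n) * Real.exp (B * T n) with hY
  have hY0 : 0 ≤ Y := by positivity
  have e3 : |(ev g n Om : ℝ) * ∑ i, ((lam (β i) : ℚ) : ℝ) * (ρ i n : ℝ)| ≤
      M * (Y * |(ev g n Om : ℝ) * ∑ i, ((β i : K) : ℝ) * (ρ i n : ℝ)|) := by
    rw [← e1, ← e2]
    push_cast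
    refine (Finset.abs_sum_le_sum_abs _ _).trans ?_
    rw [hM, Finset.sum_mul]
    apply Finset.sum_le_sum
    intro l _
    rw [abs_mul, ev_expand]
    push_cast
    have h1 : |∑ e ∈ (W' l).support, ((MvPolynomial.coeff e (W' l) : ℚ) : ℝ) *
        ((mon g e n : ℚ) : ℝ)| ≤ ∑ e ∈ (W' l).support,
          |((MvPolynomial.coeff e (W' l) : ℚ) : ℝ)| * (Real.exp ((∑ i, bb i + 1) * T n) *
            |∑ i, evR g n (W i) * (Z i n : ℝ)|) := by
      refine (Finset.abs_sum_le_sum_abs _ _).trans (Finset.sum_le_sum fun e he => ?_)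
      rw [abs_mul]
      apply mul_le_mul_of_nonneg_left _ (abs_nonneg _)
      have := hs3 l e (hsupp l e he)
      rwa [av_zero_eq] at this
    calc _ ≤ (∑ e ∈ (W' l).support,
          |((MvPolynomial.coeff e (W' l) : ℚ) : ℝ)| * (Real.exp ((∑ i, bb i + 1) * T n) *
            |∑ i, evR g n (W i) * (Z i n : ℝ)|)) * Real.exp (B * T n) :=
          mul_le_mul h1 (hZB l) (abs_nonneg _) (Finset.sum_nonneg fun e _ => by positivity)
      _ = _ := by
          rw [← Finset.sum_mul, hY]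
          ring
  have e4 := final (fun i => x i) (fun i => (ρ i n : ℝ)) (fun i => ((β i : K) : ℝ))
    (fun i => ((lam (β i) : ℚ) : ℝ)) (Real.exp ((-E) * T n)) Y M (ev g n Om : ℝ)
    (Real.exp_pos _).le hβ hap hY0 hM0 (by exact_mod_cast hOmn) e3
  refine e4.trans ?_
  have h5 : Real.exp ((-E) * T n) ≤ Real.exp (-T n) := by
    apply Real.exp_le_exp.2
    nlinarith
  have h6 : Y * Real.exp ((-E) * T n) ≤ Real.exp (-T n) := by
    rw [hY, ← Real.exp_add, ← Real.exp_add]
    apply Real.exp_le_exp.2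
    nlinarith
  calc M * (Y * (A * Real.exp ((-E) * T n))) + A' * Real.exp ((-E) * T n)
      = M * A * (Y * Real.exp ((-E) * T n)) + A' * Real.exp ((-E) * T n) := by ring
    _ ≤ M * A * Real.exp (-T n) + A' * Real.exp (-T n) :=
        add_le_add (mul_le_mul_of_nonneg_left h6 (mul_nonneg hM0 hA0))
          (mul_le_mul_of_nonneg_left h5 hA'0)
    _ = (M * A + A') * Real.exp (-T n) := by ring

end Pool.Agent.SBT
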