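import Pool.Agent.SBT.StmtsK

/-!
# KEL: a maximal independent subsystem
-/

set_option autoImplicit false

namespace Pool.Agent.SBT

open Filter

namespace KEL_

/-- the subfamily indexed by `I` is independent -/
def Ok (U : Ultrafilter ℕ) {r : ℕ} (g : Fin r → ℕ → ℚ) {J : Type} [Fintype J] (y : J → ℕ → ℤ)
    (I : Finset J) : Prop :=
  ∀ H : J → MvPolynomial (Fin r) ℚ, (∀ j, j ∉ I → H j = 0) →
    (∀ᶠ n in (U : Filter ℕ), ∑ j, ev g n (H j) * (y j n : ℚ) = 0) → ∀ j, H j = 0

lemma exists_max (U : Ultrafilter ℕ) {r : ℕ} (g : Fin r → ℕ → ℚ) {J : Type} [Fintype J]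
    (y : J → ℕ → ℤ) : ∃ I : Finset J, Ok U g y I ∧ ∀ I', Ok U g y I' → I'.card ≤ I.card := by
  classical
  have hne : ((Finset.univ : Finset (Finset J)).filter (Ok U g y)).Nonempty :=
    ⟨∅, by
      rw [Finset.mem_filter]
      refine ⟨Finset.mem_univ _, fun H hH _ j => hH j (Finset.notMem_empty j)⟩⟩
  obtain ⟨I, hI, hm⟩ := Finset.exists_max_image _ Finset.card hne
  rw [Finset.mem_filter] at hI
  exact ⟨I, hI.2, fun I' h => hm I' (by rw [Finset.mem_filter]; exact ⟨Finset.mem_univ _, h⟩)⟩

lemma ev_zero {r : ℕ} (g : Fin r → ℕ → ℚ) (n : ℕ) : ev g n 0 = 0 := by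
  unfold ev; exact map_zero _

lemma ev_one {r : ℕ} (g : Fin r → ℕ → ℚ) (n : ℕ) : ev g n 1 = 1 := by
  unfold ev; exact map_one _

lemma ev_neg {r : ℕ} (g : Fin r → ℕ → ℚ) (n : ℕ) (P : MvPolynomial (Fin r) ℚ) :
    ev g n (-P) = - ev g n P := by
  unfold ev; exact map_neg _ _

lemma sum_equiv {J : Type} [Fintype J] [DecidableEq J] (I : Finset J) (f : J → ℚ)
    (hf : ∀ j, j ∉ I → f j = 0) :
    ∑ j, f j = ∑ i : Fin I.card, f (I.equivFin.symm i) := by
  have h1 : ∑ j, f j = ∑ j ∈ I, f j := by
    symm
    exact Finset.sum_subset (Finset.subset_univ _) (fun j _ hj => hf j hj)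
  rw [h1, ← Finset.sum_coe_sort I f]
  exact (Equiv.sum_comp I.equivFin.symm (fun j : I => f j)).symm

end KEL_

open KEL_ in
/-- KEL: a maximal independent subsystem. -/
theorem kel_proof : Stmt_KEL := by
  classical
  intro U r g J _ y
  obtain ⟨I, hI, hmax⟩ := exists_max U g y
  refine ⟨I.card, fun i => y (I.equivFin.symm i), Finset.card_le_univ I,
    fun i => ⟨_, rfl⟩, ?_, ?_⟩
  · intro H hH
    have key := hI (fun j => if h : j ∈ I then H (I.equivFin ⟨j, h⟩) else 0)
      (fun j hj => dif_neg hj) (by
        filter_upwards [hH] with n hn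
        rw [sum_equiv I _ (fun j hj => by rw [dif_neg hj, ev_zero, zero_mul])]
        rw [← hn]
        refine Finset.sum_congr rfl fun i _ => ?_
        have h1 : ((I.equivFin.symm i : I) : J) ∈ I := (I.equivFin.symm i).2
        rw [dif_pos h1]
        congr 3
        rw [Subtype.coe_eta, Equiv.apply_symm_apply])
    funext i
    have h2 := key (I.equivFin.symm i)
    have h1 : ((I.equivFin.symm i : I) : J) ∈ I := (I.equivFin.symm i).2
    rw [dif_pos h1, Subtype.coe_eta, Equiv.apply_symm_apply] at h2
    exact h2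
  · intro j
    by_cases hj : j ∈ I
    · refine ⟨1, fun i => if i = I.equivFin ⟨j, hj⟩ then 1 else 0, one_ne_zero,
        Eventually.of_forall fun n => ?_⟩
      rw [Finset.sum_eq_single (I.equivFin ⟨j, hj⟩)]
      · simp only [if_true, Equiv.symm_apply_apply]
      · intro i _ hi
        simp only [if_neg hi, ev_zero, zero_mul]
      · intro h; exact absurd (Finset.mem_univ _) h
    · have hnot : ¬ Ok U g y (insert j I) := by
        intro h
        have h1 := hmax _ h
        rw [Finset.card_insert_of_notMem hj] at h1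
        omega
      unfold Ok at hnot
      push Not at hnot
      obtain ⟨H, hH0, hHs, j', hj'⟩ := hnot
      have hHj : H j ≠ 0 := by
        intro h0
        apply hj'
        refine hI H (fun l hl => ?_) hHs j'
        by_cases hlj : l = j
        · rw [hlj]; exact h0
        · exact hH0 l (by rw [Finset.mem_insert]; tauto)
      refine ⟨H j, fun i => - H (I.equivFin.symm i), hHj, ?_⟩
      filter_upwards [hHs] with n hn
      have h1 : ∑ l, ev g n (H l) * (y l n : ℚ) =
          ev g n (H j) * (y j n : ℚ) + ∑ l, (if l = j then 0 else ev g n (H l) * (y l n : ℚ)) := by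
        rw [← Finset.add_sum_erase _ _ (Finset.mem_univ j)]
        congr 1
        rw [← Finset.add_sum_erase _ (fun l => if l = j then (0 : ℚ) else ev g n (H l) * (y l n : ℚ))
          (Finset.mem_univ j), if_pos rfl, zero_add]
        refine Finset.sum_congr rfl fun l hl => ?_
        rw [if_neg (Finset.ne_of_mem_erase hl)]
      rw [sum_equiv I (fun l => if l = j then (0 : ℚ) else ev g n (H l) * (y l n : ℚ)) (fun l hl => by
        by_cases hlj : l = j
        · simp [hlj]
        · simp only [if_neg hlj]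
          rw [hH0 l (by rw [Finset.mem_insert]; tauto), ev_zero, zero_mul])] at h1
      rw [h1] at hn
      have h2 : ∑ i : Fin I.card, (if ((I.equivFin.symm i : I) : J) = j then (0 : ℚ) else
          ev g n (H (I.equivFin.symm i)) * (y (I.equivFin.symm i) n : ℚ)) =
          ∑ i : Fin I.card, ev g n (H (I.equivFin.symm i)) * (y (I.equivFin.symm i) n : ℚ) := by
        refine Finset.sum_congr rfl fun i _ => ?_
        rw [if_neg]
        intro h
        exact hj (h ▸ (I.equivFin.symm i).2)
      rw [h2] at hn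
      have h3 : ∑ i : Fin I.card, ev g n (- H (I.equivFin.symm i)) * (y (I.equivFin.symm i) n : ℚ) =
          - ∑ i : Fin I.card, ev g n (H (I.equivFin.symm i)) * (y (I.equivFin.symm i) n : ℚ) := by
        rw [← Finset.sum_neg_distrib]
        refine Finset.sum_congr rfl fun i _ => ?_
        rw [ev_neg, neg_mul]
      rw [h3]
      linarith

end Pool.Agent.SBT
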