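import Pool.Agent.SBT.StmtsK

set_option autoImplicit false

namespace Pool.Agent.SBT

open Filter

namespace KFA_

theorem dig_mem {b : ℕ} (hb : 2 ≤ b) (y : ℝ) (i : ℕ) : dig b y i ∈ Set.Ico (0 : ℤ) (b : ℤ) := by
  have h0 : (0 : ℤ) < b := by exact_mod_cast (by omega : 0 < b)
  exact ⟨Int.emod_nonneg _ h0.ne', Int.emod_lt_of_pos _ h0⟩

theorem cnt_le_cpl {b : ℕ} (hb : 2 ≤ b) (y : ℝ) (n X : ℕ) : cnt b y n X ≤ cpl b y n := by
  unfold cnt cpl
  apply Set.ncard_le_ncard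
  · rintro w ⟨i, _, hi⟩
    exact ⟨i, hi⟩
  · have hf : (Set.pi Set.univ (fun _ : Fin n => Set.Ico (0 : ℤ) (b : ℤ))).Finite :=
      Set.Finite.pi (fun _ => Set.finite_Ico _ _)
    apply hf.subset
    rintro w ⟨i, hi⟩
    intro j _
    rw [hi j]
    exact dig_mem hb y _

theorem neBot {I : Set ℕ} (hI : I.Infinite) : (atTop ⊓ 𝓟 I : Filter ℕ).NeBot := by
  rw [← frequently_mem_iff_neBot]
  rw [Nat.frequently_atTop_iff_infinite]
  exact hI

end KFA_

theorem kfa_proof (hKCR : Stmt_KCR) (hKRG : Stmt_KRG) (hKLC : Stmt_KLC) (hKAP : Stmt_KAP) :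
    Stmt_KFA := by
  intro I hI m x β hx hβ hli hsum
  classical
  set F : Filter ℕ := atTop ⊓ 𝓟 I with hF
  haveI hne : F.NeBot := KFA_.neBot hI
  have hFle : F ≤ atTop := inf_le_left
  set G : Set ℝ := {y : ℝ | ∃ b C : ℕ, 2 ≤ b ∧ ∀ n ∈ I, cpl b y n ≤ C * (n + 1)} with hG
  have hGD : ∀ y ∈ G, Des F y := by
    rintro y ⟨b, C, hb, hy⟩
    apply hKLC b (2 * C) y F hb hFle
    intro Λ
    have h1 : ∀ᶠ n in F, 1 ≤ n := hFle (eventually_ge_atTop 1)
    have h2 : ∀ᶠ n in F, n ∈ I := (inf_le_right : F ≤ 𝓟 I) (mem_principal_self I)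
    filter_upwards [h1, h2] with n hn1 hn2
    calc cnt b y n (Λ * n) ≤ cpl b y n := KFA_.cnt_le_cpl hb y n _
      _ ≤ C * (n + 1) := hy n hn2
      _ ≤ 2 * C * n := by nlinarith
  have hfrac : ∀ i, ∃ p q : ℝ, p ∈ Algebra.adjoin ℚ G ∧ q ∈ Algebra.adjoin ℚ G ∧ q ≠ 0 ∧
      x i = p / q := by
    intro i
    obtain ⟨r, hr, s, hs, h⟩ := (IntermediateField.mem_adjoin_iff_div (F := ℚ) (S := G)).1 (hx i)
    by_cases h0 : s = 0
    · refine ⟨0, 1, Subalgebra.zero_mem _, Subalgebra.one_mem _, one_ne_zero, ?_⟩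
      rw [h, h0]; simp
    · exact ⟨r, s, hr, hs, h0, h⟩
  choose p q hp hq hq0 hxpq using hfrac
  set Q : ℝ := ∏ j, q j with hQ
  have hQ0 : Q ≠ 0 := Finset.prod_ne_zero_iff.2 (fun j _ => hq0 j)
  have hmem : ∀ i, x i * Q ∈ Algebra.adjoin ℚ G := by
    intro i
    have : x i * Q = p i * ∏ j ∈ Finset.univ.erase i, q j := by
      rw [hQ, ← Finset.mul_prod_erase Finset.univ q (Finset.mem_univ i), hxpq i]
      field_simp [hq0 i]
    rw [this]
    exact Subalgebra.mul_mem _ (hp i) (Subalgebra.prod_mem _ (fun j _ => hq j))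
  have hdes : ∀ i, Des F (x i * Q) := fun i => hKRG F G hFle hGD _ (hmem i)
  choose s B hB hdes' using hdes
  set s' : ℕ := ∑ i, s i with hs'
  set B' : ℝ := ∑ i, B i with hB'
  have hB'0 : 0 ≤ B' := Finset.sum_nonneg (fun i _ => hB i)
  -- the field
  set K : IntermediateField ℚ ℝ := IntermediateField.adjoin ℚ (Set.range β) with hK
  haveI : FiniteDimensional ℚ K := by
    haveI : Finite (Set.range β) := Set.finite_range β
    apply IntermediateField.finiteDimensional_adjoin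
    rintro y ⟨i, rfl⟩
    exact (hβ i).isIntegral
  have hβK : ∀ i, β i ∈ K := fun i => IntermediateField.subset_adjoin ℚ _ ⟨i, rfl⟩
  intro i₀
  by_contra hi₀
  have hne0 : (⟨β i₀, hβK i₀⟩ : K) ≠ 0 := by
    intro h
    exact hi₀ (congrArg Subtype.val h)
  obtain ⟨lam, hlam⟩ : ∃ lam : K →ₗ[ℚ] ℚ, lam ⟨β i₀, hβK i₀⟩ ≠ 0 := by
    by_contra hcon
    push Not at hcon
    exact hne0 ((Module.forall_dual_apply_eq_zero_iff ℚ _).1 hcon)
  have hrel : ∑ i, (((⟨β i, hβK i⟩ : K) : ℝ)) * (x i * Q) = 0 := by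
    have : ∑ i, β i * (x i * Q) = (∑ i, β i * x i) * Q := by
      rw [Finset.sum_mul]; exact Finset.sum_congr rfl (fun i _ => by ring)
    calc ∑ i, (((⟨β i, hβK i⟩ : K) : ℝ)) * (x i * Q) = ∑ i, β i * (x i * Q) := rfl
      _ = (∑ i, β i * x i) * Q := this
      _ = 0 := by rw [hsum, zero_mul]
  obtain ⟨Λ₀, hΛ⟩ := hKCR K m s' (fun i => x i * Q) (fun i => ⟨β i, hβK i⟩) lam B' hB'0 hrel
  have hU : ((Ultrafilter.of F : Ultrafilter ℕ) : Filter ℕ) ≤ F := Ultrafilter.of_le F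
  have hT : Tendsto (fun n : ℕ => (n : ℝ)) ((Ultrafilter.of F : Ultrafilter ℕ) : Filter ℕ) atTop :=
    tendsto_natCast_atTop_atTop.mono_left (hU.trans hFle)
  have happ : ∀ i, Apr (Ultrafilter.of F) (fun n : ℕ => (n : ℝ)) s' B' Λ₀ (x i * Q) := by
    intro i
    refine (hKAP (Ultrafilter.of F) (fun n : ℕ => (n : ℝ)) hT).1 (s i) s' (B i) B' Λ₀ Λ₀ _
      ?_ ?_ le_rfl (hdes' i _ Λ₀ hU)
    · exact Finset.single_le_sum (f := s) (fun j _ => Nat.zero_le _) (Finset.mem_univ i)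
    · exact Finset.single_le_sum (f := B) (fun j _ => hB j) (Finset.mem_univ i)
  have hfin := hΛ (Ultrafilter.of F) (fun n : ℕ => (n : ℝ)) Λ₀ hT le_rfl happ
  have hfin2 : ∑ i, (lam ⟨β i, hβK i⟩ : ℚ) • x i = 0 := by
    have h1 : (∑ i, (lam ⟨β i, hβK i⟩ : ℚ) • x i) * Q = 0 := by
      rw [← hfin, Finset.sum_mul]
      refine Finset.sum_congr rfl (fun i _ => ?_)
      rw [Rat.smul_def]
      ring
    exact (mul_eq_zero.1 h1).resolve_right hQ0
  exact hlam (Fintype.linearIndependent_iff.1 hli _ hfin2 i₀)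

end Pool.Agent.SBT
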