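import Pool.Agent.SBT.StmtsK

set_option autoImplicit false

namespace Pool.Agent.SBT

open Filter

namespace KFB_

theorem chg_mono (b : ℕ) (x : ℝ) {X Y : ℕ} (h : X ≤ Y) : chg b x X ≤ chg b x Y := by
  unfold chg
  exact Finset.card_le_card (Finset.filter_subset_filter _ (Finset.Icc_subset_Icc_right h))

/-- from a doubling-type inequality to a logarithm -/
theorem log_of_step (F : ℕ → ℕ) (hFm : ∀ X Y, X ≤ Y → F X ≤ F Y) (Λ : ℕ) (hΛ : 2 ≤ Λ)
    (hN : ∀ N : ℕ, ∀ᶠ n in atTop, F n + N ≤ F (Λ * n)) (K : ℝ) :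
    ∀ᶠ X : ℕ in atTop, K * Real.log X ≤ F X := by
  set K' : ℝ := max K 1 with hK'
  have hK'1 : 1 ≤ K' := le_max_right _ _
  have hKK' : K ≤ K' := le_max_left _ _
  set N : ℕ := ⌈2 * K' * Real.log Λ⌉₊ with hNdef
  have hNle : 2 * K' * Real.log Λ ≤ N := Nat.le_ceil _
  obtain ⟨n₁, hn₁⟩ := eventually_atTop.1 (hN N)
  set n₀ : ℕ := max n₁ 1 with hn₀
  have hn₀1 : 1 ≤ n₀ := le_max_right _ _
  have hn₀n₁ : n₁ ≤ n₀ := le_max_left _ _
  have step : ∀ n, n₀ ≤ n → F n + N ≤ F (Λ * n) := fun n hn => hn₁ n (hn₀n₁.trans hn)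
  have hΛ0 : 0 < Λ := by omega
  have ind : ∀ j : ℕ, j * N ≤ F (Λ ^ j * n₀) := by
    intro j
    induction j with
    | zero => simp
    | succ j ih =>
      have h1 : n₀ ≤ Λ ^ j * n₀ := Nat.le_mul_of_pos_left _ (pow_pos hΛ0 j)
      have h2 := step _ h1
      have h3 : Λ ^ (j + 1) * n₀ = Λ * (Λ ^ j * n₀) := by ring
      rw [h3]
      calc (j + 1) * N = j * N + N := by ring
        _ ≤ F (Λ ^ j * n₀) + N := by omega
        _ ≤ _ := h2
  filter_upwards [eventually_ge_atTop (Λ ^ (n₀ + 1) * n₀)] with X hX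
  set j : ℕ := Nat.log Λ (X / n₀) with hj
  have hq : Λ ^ (n₀ + 1) ≤ X / n₀ := (Nat.le_div_iff_mul_le (by omega)).2 hX
  have hqpos : X / n₀ ≠ 0 := by
    have := pow_pos hΛ0 (n₀ + 1)
    omega
  have hj1 : n₀ + 1 ≤ j := Nat.le_log_of_pow_le (by omega) hq
  have hj2 : Λ ^ j ≤ X / n₀ := Nat.pow_log_le_self Λ hqpos
  have hj3 : X / n₀ < Λ ^ (j + 1) := Nat.lt_pow_succ_log_self (by omega) _
  have hj4 : Λ ^ j * n₀ ≤ X := (Nat.le_div_iff_mul_le (by omega)).1 hj2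
  have hj5 : X < Λ ^ (j + 1) * n₀ := (Nat.div_lt_iff_lt_mul (by omega)).1 hj3
  have hj6 : n₀ ≤ Λ ^ (j - 1) := by
    calc n₀ ≤ 2 ^ n₀ := Nat.lt_two_pow_self.le
      _ ≤ Λ ^ n₀ := Nat.pow_le_pow_left hΛ _
      _ ≤ Λ ^ (j - 1) := Nat.pow_le_pow_right hΛ0 (by omega)
  have hj7 : X < Λ ^ (2 * j) := by
    calc X < Λ ^ (j + 1) * n₀ := hj5
      _ ≤ Λ ^ (j + 1) * Λ ^ (j - 1) := Nat.mul_le_mul_left _ hj6
      _ = Λ ^ (2 * j) := by
        rw [← pow_add]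
        congr 1
        omega
  have hXpos : 0 < X := by
    have : 0 < Λ ^ j * n₀ := Nat.mul_pos (pow_pos hΛ0 j) (by omega)
    omega
  have hlog : Real.log X ≤ 2 * j * Real.log Λ := by
    have h1 : (X : ℝ) ≤ (Λ : ℝ) ^ (2 * j) := by exact_mod_cast hj7.le
    have h2 := Real.log_le_log (by exact_mod_cast hXpos) h1
    rw [Real.log_pow] at h2
    push_cast at h2
    exact h2
  have hlog0 : 0 ≤ Real.log X := Real.log_nonneg (by exact_mod_cast hXpos)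
  have hfin : ((j * N : ℕ) : ℝ) ≤ ((F X : ℕ) : ℝ) := by
    exact_mod_cast (ind j).trans (hFm _ _ hj4)
  calc K * Real.log X ≤ K' * Real.log X := mul_le_mul_of_nonneg_right hKK' hlog0
    _ ≤ K' * (2 * j * Real.log Λ) := mul_le_mul_of_nonneg_left hlog (by linarith)
    _ = j * (2 * K' * Real.log Λ) := by ring
    _ ≤ j * N := mul_le_mul_of_nonneg_left hNle (Nat.cast_nonneg _)
    _ ≤ ((F X : ℕ) : ℝ) := by push_cast at hfin ⊢; exact hfin

theorem dig_mem (b : ℕ) (hb : 2 ≤ b) (x : ℝ) (i : ℕ) : dig b x i ∈ Finset.Ico (0 : ℤ) b := by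
  unfold dig
  have hb' : (0 : ℤ) < b := by exact_mod_cast (by omega : 0 < b)
  rw [Finset.mem_Ico]
  exact ⟨Int.emod_nonneg _ hb'.ne', Int.emod_lt_of_pos _ hb'⟩

/-- the words of length `n` form a finite set -/
theorem cpl_finite (b : ℕ) (hb : 2 ≤ b) (x : ℝ) (n : ℕ) :
    {w : Fin n → ℤ | ∃ i : ℕ, ∀ j : Fin n, w j = dig b x (i + 1 + j)}.Finite := by
  refine (Set.Finite.pi (t := fun _ : Fin n => ((Finset.Ico (0 : ℤ) b : Finset ℤ) : Set ℤ))
    (fun _ => Finset.finite_toSet _)).subset ?_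
  rintro w ⟨i, hi⟩
  rw [Set.mem_pi]
  intro j _
  rw [hi j]
  exact dig_mem b hb x _

theorem cnt_le_cpl (b : ℕ) (hb : 2 ≤ b) (x : ℝ) (n X : ℕ) : cnt b x n X ≤ cpl b x n := by
  unfold cnt cpl
  refine Set.ncard_le_ncard ?_ (cpl_finite b hb x n)
  rintro w ⟨i, _, hi⟩
  exact ⟨i, hi⟩

theorem des_of_cpl (hKLC : Stmt_KLC) (b C : ℕ) (y : ℝ) (hb : 2 ≤ b)
    (h : ∀ n, cpl b y n ≤ C * (n + 1)) : Des atTop y := by
  refine hKLC b (2 * C) y atTop hb le_rfl ?_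
  intro Λ
  filter_upwards [eventually_ge_atTop 1] with n hn
  calc cnt b y n (Λ * n) ≤ cpl b y n := cnt_le_cpl b hb y n _
    _ ≤ C * (n + 1) := h n
    _ ≤ C * (2 * n) := Nat.mul_le_mul_left _ (by omega)
    _ = 2 * C * n := by ring

end KFB_

open KFB_ in
theorem kfb_proof (hKCR : Stmt_KCR) (hKRG : Stmt_KRG) (hKLC : Stmt_KLC) (hKCH : Stmt_KCH)
    (hKAP : Stmt_KAP) : Stmt_KFB := by
  intro α x b κ hα hαq hb hx
  set G : Set ℝ := {y : ℝ | ∃ b C : ℕ, 2 ≤ b ∧ ∀ n, cpl b y n ≤ C * (n + 1)} with hG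
  have hdG : ∀ y ∈ G, Des atTop y := by
    rintro y ⟨b', C, hb', h⟩
    exact des_of_cpl hKLC b' C y hb' h
  have hD : ∀ y ∈ Algebra.adjoin ℚ G, Des atTop y := hKRG atTop G le_rfl hdG
  obtain ⟨p, q, hp, hq, hq0, hxpq⟩ : ∃ p q : ℝ, p ∈ Algebra.adjoin ℚ G ∧
      q ∈ Algebra.adjoin ℚ G ∧ q ≠ 0 ∧ x = p / q := by
    obtain ⟨p, hp, q, hq, h⟩ := (IntermediateField.mem_adjoin_iff_div (F := ℚ)).1 hx
    by_cases hq0 : q = 0
    · refine ⟨0, 1, zero_mem _, one_mem _, one_ne_zero, ?_⟩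
      rw [h, hq0, div_zero, zero_div]
    · exact ⟨p, q, hp, hq, hq0, h⟩
  set z : ℝ := α + x with hz
  -- the field ℚ(α)
  have hint : IsIntegral ℚ α := hα.isIntegral
  have hfd : FiniteDimensional ℚ (IntermediateField.adjoin ℚ ({α} : Set ℝ)) :=
    IntermediateField.adjoin.finiteDimensional hint
  set Kf := IntermediateField.adjoin ℚ ({α} : Set ℝ) with hKf
  set α' : Kf := ⟨α, IntermediateField.mem_adjoin_simple_self ℚ α⟩ with hα'
  obtain ⟨lam, hlam1, hlam0⟩ : ∃ lam : Kf →ₗ[ℚ] ℚ, lam 1 = 0 ∧ lam α' ≠ 0 := by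
    have hnot : α' ∉ (Submodule.span ℚ ({1} : Set Kf)) := by
      intro hmem
      obtain ⟨r, hr⟩ := Submodule.mem_span_singleton.1 hmem
      apply hαq r
      have h1 : ((r • (1 : Kf) : Kf) : ℝ) = α := by rw [hr]
      rw [← h1]
      simp [Algebra.smul_def]
    obtain ⟨f, hf, hle⟩ := Submodule.exists_le_ker_of_notMem hnot
    refine ⟨f, ?_, hf⟩
    exact hle (Submodule.mem_span_singleton_self _)
  -- the constants
  obtain ⟨s1, B1, hB1, h1⟩ := hD q hq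
  obtain ⟨s2, B2, hB2, h2⟩ := hD p hp
  obtain ⟨B3, hB3, h3⟩ := hKCH b z hb
  set s : ℕ := s1 * 2 + s2 with hs
  set B : ℝ := B1 + B2 + B3 + 1 with hB
  have hB0 : 0 ≤ B := by positivity
  have hrel : ∑ i : Fin 3, ((![α', 1, -1] i : Kf) : ℝ) * ![q, p, q * z] i = 0 := by
    rw [Fin.sum_univ_three]
    simp only [Matrix.cons_val_zero, Matrix.cons_val_one, Matrix.cons_val]
    have e1 : ((1 : Kf) : ℝ) = 1 := rfl
    have e2 : ((-1 : Kf) : ℝ) = -1 := by simp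
    have e3 : (α' : ℝ) = α := rfl
    rw [e1, e2, e3, hz, hxpq]
    field_simp
    ring
  obtain ⟨Λ₀, hΛ₀⟩ := hKCR Kf 3 s ![q, p, q * z] ![α', 1, -1] lam B hB0 hrel
  set Λ : ℝ := max Λ₀ B with hΛ
  have hΛΛ₀ : Λ₀ ≤ Λ := le_max_left _ _
  have hΛB : B ≤ Λ := le_max_right _ _
  have hΛ0 : 0 ≤ Λ := hB0.trans hΛB
  set Λ' : ℕ := 2 * ⌈Λ⌉₊ + 2 with hΛ'
  -- the claim
  have claim : ∀ N : ℕ, ∀ᶠ n in atTop, chg b z n + N ≤ chg b z (Λ' * n) := by
    intro N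
    by_contra hcon
    rw [Filter.not_eventually] at hcon
    have hne : (atTop ⊓ 𝓟 {n : ℕ | ¬ (chg b z n + N ≤ chg b z (Λ' * n))} : Filter ℕ).NeBot :=
      Filter.frequently_mem_iff_neBot.1 hcon
    set U : Ultrafilter ℕ :=
      Ultrafilter.of (atTop ⊓ 𝓟 {n : ℕ | ¬ (chg b z n + N ≤ chg b z (Λ' * n))}) with hU
    have hUle : (U : Filter ℕ) ≤ atTop ⊓ 𝓟 {n : ℕ | ¬ (chg b z n + N ≤ chg b z (Λ' * n))} :=
      Ultrafilter.of_le _
    have hUat : (U : Filter ℕ) ≤ atTop := hUle.trans inf_le_left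
    have hUs : ∀ᶠ n in (U : Filter ℕ), ¬ (chg b z n + N ≤ chg b z (Λ' * n)) :=
      (hUle.trans inf_le_right) (mem_principal_self _)
    have hT : Tendsto (fun n : ℕ => (n : ℝ)) (U : Filter ℕ) atTop :=
      tendsto_natCast_atTop_atTop.mono_left hUat
    obtain ⟨k1, k2, k3, k4⟩ := hKAP U (fun n => (n : ℝ)) hT
    have az : Apr U (fun n => (n : ℝ)) 2 B3 Λ z := by
      refine h3 U Λ N hΛ0 hUat ?_
      filter_upwards [hUs] with n hn
      rw [hΛ'] at hn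
      omega
    have aq : Apr U (fun n => (n : ℝ)) s1 B1 Λ q := h1 U Λ hUat
    have ap : Apr U (fun n => (n : ℝ)) s2 B2 Λ p := h2 U Λ hUat
    have aqz : Apr U (fun n => (n : ℝ)) (s1 * 2) (B1 + B3 + 1) Λ (q * z) :=
      k4 s1 2 B1 B3 Λ q z hB1 hB3 (by linarith) (by linarith) aq az
    have hall : ∀ i : Fin 3, Apr U (fun n => (n : ℝ)) s B Λ (![q, p, q * z] i) := by
      intro i
      fin_cases i
      · exact k1 s1 s B1 B Λ Λ q (by omega) (by linarith) le_rfl aq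
      · exact k1 s2 s B2 B Λ Λ p (by omega) (by linarith) le_rfl ap
      · exact k1 (s1 * 2) s (B1 + B3 + 1) B Λ Λ (q * z) (by omega) (by linarith) le_rfl aqz
    have hfin := hΛ₀ U (fun n => (n : ℝ)) Λ hT hΛΛ₀ hall
    rw [Fin.sum_univ_three] at hfin
    simp only [Matrix.cons_val_zero, Matrix.cons_val_one, Matrix.cons_val] at hfin
    rw [map_neg, hlam1] at hfin
    simp only [neg_zero, Rat.cast_zero, zero_mul, add_zero] at hfin
    rcases mul_eq_zero.1 hfin with h | h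
    · exact hlam0 (by exact_mod_cast h)
    · exact hq0 h
  exact log_of_step (fun n => chg b z n) (fun X Y h => chg_mono b z h) Λ' (by omega) claim κ

end Pool.Agent.SBT
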