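import Pool.Agent.SBT.StmtsK

/-!
# SBT, module KFC: the digits of the square root of 2 and sequences of linear complexity
-/

namespace Pool.Agent.SBT

open Filter

namespace KFC_

/-- the tail of the expansion with digits `w` -/
noncomputable def tl (w : ℕ → ℕ) (i : ℕ) : ℝ := ∑' j : ℕ, (w (i + 1 + j) : ℝ) * (1 / 10) ^ (j + 1)

/-- the integer with digits `w 1, ..., w i` -/
def Wn (w : ℕ → ℕ) : ℕ → ℤ
  | 0 => 0
  | i + 1 => 10 * Wn w i + w (i + 1)

theorem summ (w : ℕ → ℕ) (hw : ∀ k, w k ≤ 9) (i : ℕ) :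
    Summable fun j : ℕ => (w (i + 1 + j) : ℝ) * (1 / 10) ^ (j + 1) := by
  refine Summable.of_nonneg_of_le (fun j => by positivity) (fun j => ?_)
    ((summable_geometric_of_lt_one (r := (1 / 10 : ℝ)) (by norm_num) (by norm_num)).mul_left 9)
  have h1 : (w (i + 1 + j) : ℝ) ≤ 9 := by exact_mod_cast hw _
  have h2 : ((1 : ℝ) / 10) ^ (j + 1) ≤ (1 / 10) ^ j :=
    pow_le_pow_of_le_one (by norm_num) (by norm_num) (Nat.le_succ j)
  exact mul_le_mul h1 h2 (by positivity) (by norm_num)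

theorem tl_rec (w : ℕ → ℕ) (hw : ∀ k, w k ≤ 9) (i : ℕ) :
    10 * tl w i = w (i + 1) + tl w (i + 1) := by
  have h := (summ w hw i).tsum_eq_zero_add
  unfold tl
  rw [h]
  have h2 : (fun b : ℕ => (w (i + 1 + (b + 1)) : ℝ) * (1 / 10) ^ (b + 1 + 1)) =
      fun b : ℕ => (1 / 10) * ((w (i + 1 + 1 + b) : ℝ) * (1 / 10) ^ (b + 1)) := by
    funext b
    have : i + 1 + (b + 1) = i + 1 + 1 + b := by omega
    rw [this]; ring
  rw [h2, tsum_mul_left]
  simp only [add_zero, zero_add, pow_one]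
  ring

theorem tl_nonneg (w : ℕ → ℕ) (i : ℕ) : 0 ≤ tl w i := tsum_nonneg fun j => by positivity

theorem geo : ∑' j : ℕ, (9 : ℝ) * (1 / 10) ^ (j + 1) = 1 := by
  have h2 : (fun j : ℕ => (9 : ℝ) * (1 / 10) ^ (j + 1)) = fun j : ℕ => (9 / 10) * (1 / 10 : ℝ) ^ j := by
    funext j; ring
  rw [h2, tsum_mul_left, tsum_geometric_of_lt_one (by norm_num) (by norm_num)]
  norm_num

theorem tl_le (w : ℕ → ℕ) (hw : ∀ k, w k ≤ 9) (i : ℕ) : tl w i ≤ 1 := by
  rw [← geo]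
  refine Summable.tsum_le_tsum (fun j => ?_) (summ w hw i) (summ (fun _ => 9) (fun _ => le_rfl) i)
  have h1 : (w (i + 1 + j) : ℝ) ≤ 9 := by exact_mod_cast hw _
  exact mul_le_mul_of_nonneg_right h1 (by positivity)

theorem tl_pow (w : ℕ → ℕ) (hw : ∀ k, w k ≤ 9) (i : ℕ) :
    tl w 0 * 10 ^ i = (Wn w i : ℝ) + tl w i := by
  induction i with
  | zero => simp [Wn]
  | succ i ih =>
    have h := tl_rec w hw i
    have h2 : (Wn w (i + 1) : ℝ) = 10 * (Wn w i : ℝ) + (w (i + 1) : ℝ) := by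
      simp [Wn]
    rw [h2, pow_succ, ← mul_assoc, ih]
    linarith

theorem tl_eq_one (w : ℕ → ℕ) (hw : ∀ k, w k ≤ 9) (i : ℕ) (h : tl w i = 1) :
    w (i + 1) = 9 ∧ tl w (i + 1) = 1 := by
  have h1 := tl_rec w hw i
  have h2 := tl_le w hw (i + 1)
  rw [h] at h1
  have h3 : (9 : ℝ) ≤ w (i + 1) := by linarith
  have h4 : 9 ≤ w (i + 1) := by exact_mod_cast h3
  have h5 : w (i + 1) = 9 := le_antisymm (hw _) h4
  refine ⟨h5, ?_⟩
  rw [h5] at h1
  push_cast at h1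
  linarith

theorem tl_eq_one_all (w : ℕ → ℕ) (hw : ∀ k, w k ≤ 9) (i : ℕ) (h : tl w i = 1) (m : ℕ) :
    tl w (i + m) = 1 := by
  induction m with
  | zero => simpa using h
  | succ m ih => exact (tl_eq_one w hw _ ih).2

theorem W_mod (w : ℕ → ℕ) (i : ℕ) : (Wn w (i + 1)) % 10 = (w (i + 1) : ℤ) % 10 := by
  simp [Wn]

/-- the digits of the number -/
theorem dig_y (w : ℕ → ℕ) (hw : ∀ k, w k ≤ 9) (hne : ∀ i, tl w i ≠ 1) (i : ℕ) :
    dig 10 (tl w 0) (i + 1) = w (i + 1) := by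
  unfold dig
  have h1 : tl w 0 * ((10 : ℕ) : ℝ) ^ (i + 1) = (Wn w (i + 1) : ℝ) + tl w (i + 1) := by
    have := tl_pow w hw (i + 1)
    push_cast
    exact this
  rw [h1]
  have h2 : ⌊(Wn w (i + 1) : ℝ) + tl w (i + 1)⌋ = Wn w (i + 1) := by
    rw [Int.floor_eq_iff]
    constructor
    · linarith [tl_nonneg w (i + 1)]
    · have := lt_of_le_of_ne (tl_le w hw (i + 1)) (hne _)
      linarith
  rw [h2]
  have h3 := W_mod w i
  have h4 := hw (i + 1)
  push_cast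
  omega

theorem cpl_y (w : ℕ → ℕ) (hw : ∀ k, w k ≤ 9) (hne : ∀ i, tl w i ≠ 1) (n : ℕ) :
    cpl 10 (tl w 0) n =
      Set.ncard {u : Fin n → ℕ | ∃ i : ℕ, ∀ j : Fin n, u j = w (i + 1 + j)} := by
  unfold cpl
  have : {v : Fin n → ℤ | ∃ i : ℕ, ∀ j : Fin n, v j = dig 10 (tl w 0) (i + 1 + j)} =
      (fun (u : Fin n → ℕ) (j : Fin n) => (u j : ℤ)) ''
        {u : Fin n → ℕ | ∃ i : ℕ, ∀ j : Fin n, u j = w (i + 1 + j)} := by
    ext v
    simp only [Set.mem_ofPred_eq, Set.mem_image]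
    constructor
    · rintro ⟨i, hi⟩
      refine ⟨fun j => w (i + 1 + j), ⟨i, fun j => rfl⟩, ?_⟩
      funext j
      rw [hi j]
      have h := dig_y w hw hne (i + j)
      have e : i + (j : ℕ) + 1 = i + 1 + j := by omega
      rw [e] at h
      exact h.symm
    · rintro ⟨u, ⟨i, hi⟩, rfl⟩
      refine ⟨i, fun j => ?_⟩
      have h := dig_y w hw hne (i + j)
      have e : i + (j : ℕ) + 1 = i + 1 + j := by omega
      rw [e] at h
      rw [h]
      simp only [hi j]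
  rw [this]
  refine Set.ncard_image_of_injective _ ?_
  intro u u' h
  funext j
  have := congrFun h j
  simpa using this

theorem mem_y (w : ℕ → ℕ) (C : ℕ) (hw : ∀ k, w k ≤ 9)
    (hC : ∀ n, Set.ncard {u : Fin n → ℕ | ∃ i : ℕ, ∀ j : Fin n, u j = w (i + 1 + j)} ≤
      C * (n + 1)) :
    -(tl w 0) ∈ IntermediateField.adjoin ℚ
      {y : ℝ | ∃ b C : ℕ, 2 ≤ b ∧ ∀ n, cpl b y n ≤ C * (n + 1)} := by
  refine neg_mem ?_
  by_cases hne : ∀ i, tl w i ≠ 1
  · refine IntermediateField.subset_adjoin _ _ ?_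
    refine ⟨10, C, by norm_num, fun n => ?_⟩
    rw [cpl_y w hw hne n]
    exact hC n
  · push Not at hne
    obtain ⟨i, hi⟩ := hne
    have h := tl_pow w hw i
    rw [hi] at h
    have h2 : tl w 0 = algebraMap ℚ ℝ (((Wn w i : ℚ) + 1) / 10 ^ i) := by
      have h10 : (10 : ℝ) ^ i ≠ 0 := by positivity
      rw [eq_div_of_mul_eq h10 h]
      simp
    rw [h2]
    exact algebraMap_mem _ _

theorem alg2 : IsAlgebraic ℚ (Real.sqrt 2) := by
  refine ⟨Polynomial.X ^ 2 - Polynomial.C 2, ?_, ?_⟩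
  · exact Polynomial.X_pow_sub_C_ne_zero (by norm_num) 2
  · simp

/-- the digit of `x` (`x ≥ 0`) at `i + 1` -/
theorem floor_rec (x : ℝ) (hx : 0 ≤ x) (i : ℕ) :
    (⌊x * 10 ^ (i + 1)⌋ : ℤ) = 10 * ⌊x * 10 ^ i⌋ + ((⌊x * 10 ^ (i + 1)⌋₊ % 10 : ℕ) : ℤ) := by
  have h0 : 0 ≤ x * 10 ^ (i + 1) := by positivity
  have h1 : ((⌊x * 10 ^ (i + 1)⌋₊ % 10 : ℕ) : ℤ) = ⌊x * 10 ^ (i + 1)⌋ % 10 := by
    push_cast
    rw [Int.natCast_floor_eq_floor h0]
  rw [h1]
  have h2 : x * 10 ^ (i + 1) = 10 * (x * 10 ^ i) := by ring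
  have h3 := Int.floor_le (x * 10 ^ i)
  have h4 := Int.lt_floor_add_one (x * 10 ^ i)
  have h5 : 10 * ⌊x * 10 ^ i⌋ ≤ ⌊x * 10 ^ (i + 1)⌋ := by
    rw [Int.le_floor, h2]
    push_cast
    linarith
  have h6 : ⌊x * 10 ^ (i + 1)⌋ < 10 * ⌊x * 10 ^ i⌋ + 10 := by
    rw [Int.floor_lt, h2]
    push_cast
    linarith
  omega

end KFC_

open KFC_ in
theorem kfc_proof (hKFB : Stmt_KFB) : Stmt_KFC := by
  intro w C hw hC κ
  have hirr := irrational_sqrt_two
  have hkfb := hKFB (Real.sqrt 2) (-(tl w 0)) 10 (2 * |κ| + 2) alg2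
    (fun q h => hirr ⟨q, h.symm⟩) (by norm_num) (mem_y w C hw hC)
  have hlog : ∀ᶠ N : ℕ in atTop, (1 : ℝ) ≤ Real.log N :=
    (Real.tendsto_log_atTop.comp tendsto_natCast_atTop_atTop).eventually_ge_atTop 1
  filter_upwards [hkfb, hlog] with N hN hl
  set s2 : ℝ := Real.sqrt 2 with hs2
  have hs2pos : 0 ≤ s2 := Real.sqrt_nonneg 2
  set z : ℝ := s2 + -(tl w 0) with hz
  -- digits of the square root
  set d : ℕ → ℕ := fun k => ⌊s2 * 10 ^ k⌋₊ % 10 with hd
  -- the remainders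
  set t : ℕ → ℝ := fun i => (s2 * 10 ^ i - ⌊s2 * 10 ^ i⌋) - tl w i with ht
  have hirr' : ∀ i : ℕ, (⌊s2 * 10 ^ i⌋ : ℝ) < s2 * 10 ^ i := by
    intro i
    refine lt_of_le_of_ne (Int.floor_le _) ?_
    intro h
    have h1 : Irrational (s2 * ((10 ^ i : ℕ) : ℝ)) := hirr.mul_natCast (by positivity)
    refine h1 ⟨(⌊s2 * 10 ^ i⌋ : ℚ), ?_⟩
    push_cast
    exact h
  have ht1 : ∀ i, -1 < t i := by
    intro i
    have := hirr' i
    have h2 := tl_le w hw i
    simp only [ht]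
    linarith
  have ht2 : ∀ i, t i < 1 := by
    intro i
    have := Int.lt_floor_add_one (s2 * 10 ^ i)
    have h2 := tl_nonneg w i
    simp only [ht]
    linarith
  have hzi : ∀ i, z * 10 ^ i = ((⌊s2 * 10 ^ i⌋ - Wn w i : ℤ) : ℝ) + t i := by
    intro i
    have h := tl_pow w hw i
    simp only [hz, ht]
    push_cast
    linarith
  have hfl : ∀ i, ⌊z * 10 ^ i⌋ = ⌊s2 * 10 ^ i⌋ - Wn w i + ⌊t i⌋ := by
    intro i
    rw [hzi i, Int.floor_intCast_add]
  have hdig : ∀ i, dig 10 z (i + 1) = ((d (i + 1) : ℤ) - w (i + 1) + ⌊t (i + 1)⌋) % 10 := by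
    intro i
    unfold dig
    have e : z * ((10 : ℕ) : ℝ) ^ (i + 1) = z * 10 ^ (i + 1) := by push_cast; ring
    rw [e, hfl (i + 1)]
    have h1 := floor_rec s2 hs2pos i
    have h2 := W_mod w i
    have h3 : ((⌊s2 * 10 ^ (i + 1)⌋₊ % 10 : ℕ) : ℤ) = (d (i + 1) : ℤ) := rfl
    rw [h3] at h1
    push_cast
    omega
  have htrec : ∀ i, t (i + 1) = 10 * t i - ((d (i + 1) : ℝ) - w (i + 1)) := by
    intro i
    have h1 := floor_rec s2 hs2pos i
    have h3 : ((⌊s2 * 10 ^ (i + 1)⌋₊ % 10 : ℕ) : ℤ) = (d (i + 1) : ℤ) := rfl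
    rw [h3] at h1
    have h4 : ((⌊s2 * 10 ^ (i + 1)⌋ : ℤ) : ℝ) = 10 * (⌊s2 * 10 ^ i⌋ : ℝ) + (d (i + 1) : ℝ) := by
      rw [h1]; push_cast; ring
    have h5 := tl_rec w hw i
    simp only [ht]
    rw [h4, pow_succ]
    linarith
  have hs : ∀ i, d (i + 1) = w (i + 1) → ⌊t (i + 1)⌋ = ⌊t i⌋ := by
    intro i h
    have h1 := htrec i
    rw [h] at h1
    have a1 := ht1 i
    have a2 := ht2 i
    have b1 := ht1 (i + 1)
    have b2 := ht2 (i + 1)
    by_cases hneg : t i < 0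
    · have e1 : ⌊t i⌋ = -1 := by
        rw [Int.floor_eq_iff]; push_cast; constructor <;> linarith
      have e2 : ⌊t (i + 1)⌋ = -1 := by
        rw [Int.floor_eq_iff]; push_cast; constructor <;> linarith
      rw [e1, e2]
    · push Not at hneg
      have e1 : ⌊t i⌋ = 0 := by
        rw [Int.floor_eq_iff]; push_cast; constructor <;> linarith
      have e2 : ⌊t (i + 1)⌋ = 0 := by
        rw [Int.floor_eq_iff]; push_cast; constructor <;> linarith
      rw [e1, e2]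
  have hch : ∀ i, dig 10 z (i + 1) ≠ dig 10 z (i + 1 + 1) →
      d (i + 1) ≠ w (i + 1) ∨ d (i + 1 + 1) ≠ w (i + 1 + 1) := by
    intro i h
    by_contra hcon
    push Not at hcon
    obtain ⟨c1, c2⟩ := hcon
    apply h
    rw [hdig i, hdig (i + 1), c1, c2, hs (i + 1) c2]
    simp
  -- counting
  set D : Finset ℕ := (Finset.Icc 1 N).filter fun k => d k ≠ w k with hD
  have hcount : chg 10 z N ≤ 2 * D.card + 1 := by
    unfold chg
    have hsub : (Finset.Icc 1 N).filter (fun i => dig 10 z i ≠ dig 10 z (i + 1)) ⊆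
        D ∪ (insert (N + 1) D).image (fun k => k - 1) := by
      intro i hi
      rw [Finset.mem_filter, Finset.mem_Icc] at hi
      obtain ⟨⟨hi1, hi2⟩, hne⟩ := hi
      obtain ⟨j, rfl⟩ : ∃ j, i = j + 1 := ⟨i - 1, by omega⟩
      rw [Finset.mem_union]
      rcases hch j hne with h | h
      · left
        rw [hD, Finset.mem_filter, Finset.mem_Icc]
        exact ⟨⟨hi1, hi2⟩, h⟩
      · right
        rw [Finset.mem_image]
        refine ⟨j + 1 + 1, ?_, by omega⟩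
        rw [Finset.mem_insert]
        by_cases hN' : j + 1 = N
        · left; omega
        · right
          rw [hD, Finset.mem_filter, Finset.mem_Icc]
          exact ⟨⟨by omega, by omega⟩, h⟩
    calc _ ≤ (D ∪ (insert (N + 1) D).image (fun k => k - 1)).card := Finset.card_le_card hsub
      _ ≤ D.card + ((insert (N + 1) D).image (fun k => k - 1)).card := Finset.card_union_le _ _
      _ ≤ D.card + (D.card + 1) := by
        have := Finset.card_image_le (s := insert (N + 1) D) (f := fun k => k - 1)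
        have h2 := Finset.card_insert_le (N + 1) D
        omega
      _ = 2 * D.card + 1 := by ring
  have hcR : (chg 10 z N : ℝ) ≤ 2 * (D.card : ℝ) + 1 := by exact_mod_cast hcount
  have hk : κ * Real.log N ≤ |κ| * Real.log N :=
    mul_le_mul_of_nonneg_right (le_abs_self κ) (by linarith)
  have : κ * Real.log N ≤ (D.card : ℝ) := by nlinarith
  exact this

end Pool.Agent.SBT
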