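import Pool.Agent.SBT.StmtsK
import Pool.Agent.SBT.LB1

set_option autoImplicit false

namespace Pool.Agent.SBT

open Filter

namespace KLB1_

open LB1_

/-- signed minors of a real matrix -/
def nvR {M : ℕ} (g : Fin M → Fin (M + 1) → ℝ) (k : Fin (M + 1)) : ℝ :=
  (-1) ^ (k : ℕ) * (Matrix.of fun i j : Fin M => g i (k.succAbove j)).det

theorem det_mtR {M : ℕ} (x : Fin (M + 1) → ℝ) (g : Fin M → Fin (M + 1) → ℝ) :
    (mt x g).det = ∑ k, x k * nvR g k := by
  rw [Matrix.det_succ_row_zero]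
  refine Finset.sum_congr rfl fun k _ => ?_
  rw [mt_zero]
  unfold nvR
  have : (mt x g).submatrix Fin.succ k.succAbove =
      Matrix.of fun i j : Fin M => g i (k.succAbove j) := by
    ext i j
    rfl
  rw [this]
  ring

theorem nvR_cast {M : ℕ} (g : Fin M → Fin (M + 1) → ℤ) (k : Fin (M + 1)) :
    nvR (fun j k => (g j k : ℝ)) k = ((nv g k : ℤ) : ℝ) := by
  unfold nvR nv
  have h : (Matrix.of fun i j : Fin M => ((g i (k.succAbove j) : ℤ) : ℝ)) =
      (Matrix.of fun i j : Fin M => g i (k.succAbove j)).map (Int.castRingHom ℝ) := by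
    ext i j
    rfl
  rw [h, ← RingHom.mapMatrix_apply, ← RingHom.map_det, Int.cast_mul, Int.cast_pow, Int.cast_neg,
    Int.cast_one]
  rfl

/-- the real determinant is a multiple of the linear form -/
theorem det_eqR {M : ℕ} (w : Fin (M + 1) → ℤ) (g : Fin M → Fin (M + 1) → ℤ) (t : ℤ)
    (ht : ∀ x, (mt x g).det = (∑ i, w i * x i) * t) (x : Fin (M + 1) → ℝ) :
    (mt x (fun j k => (g j k : ℝ))).det = (∑ k, (w k : ℝ) * x k) * t := by
  have h1 : ∀ k, nv g k = w k * t := by
    intro k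
    have h := ht (fun i => if i = k then 1 else 0)
    rw [det_mt] at h
    simpa using h
  rw [det_mtR, Finset.sum_mul]
  refine Finset.sum_congr rfl fun k _ => ?_
  rw [nvR_cast, h1]
  push_cast
  ring

/-- the determinant of the values -/
theorem det_valR {M : ℕ} (A : Matrix (Fin (M + 1)) (Fin (M + 1)) ℝ) (hA : A.det ≠ 0)
    (g : Fin M → Fin (M + 1) → ℝ) (i : Fin (M + 1)) :
    (mt (fun k => A.adjugate k i) g).det =
      (mt (fun k => if k = i then (1 : ℝ) else 0) (fun j k => ∑ l, A k l * g j l)).det := by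
  have h1 : mt (fun k => if k = i then A.det else 0) (fun j k => ∑ l, A k l * g j l) =
      mt (fun k => A.adjugate k i) g * A.transpose := by
    ext r k
    rw [Matrix.mul_apply]
    refine Fin.cases ?_ (fun j => ?_) r
    · simp only [mt_zero, Matrix.transpose_apply]
      have := congrFun (congrFun (Matrix.mul_adjugate A) k) i
      rw [Matrix.mul_apply, Matrix.smul_apply, Matrix.one_apply, smul_eq_mul, mul_ite, mul_one,
        mul_zero] at this
      rw [← this]
      exact Finset.sum_congr rfl fun l _ => mul_comm _ _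
    · simp only [mt_succ, Matrix.transpose_apply]
      exact Finset.sum_congr rfl fun l _ => mul_comm _ _
  have h2 := congrArg Matrix.det h1
  rw [Matrix.det_mul, Matrix.det_transpose, det_mtR] at h2
  have h3 : ∑ k, (if k = i then A.det else 0) * nvR (fun j k => ∑ l, A k l * g j l) k =
      (mt (fun k => if k = i then (1 : ℝ) else 0) (fun j k => ∑ l, A k l * g j l)).det *
        A.det := by
    rw [det_mtR, Finset.sum_mul]
    refine Finset.sum_congr rfl fun k _ => ?_
    split_ifs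
    · ring
    · ring
  rw [h3] at h2
  exact (mul_right_cancel₀ hA h2).symm

/-- upper bound for a real determinant -/
theorem abs_det_le {N : ℕ} (X : Matrix (Fin N) (Fin N) ℝ) (a b : Fin N → ℝ)
    (h : ∀ i j, |X i j| ≤ a i * b j) :
    |X.det| ≤ (N.factorial : ℝ) * ((∏ i, a i) * ∏ j, b j) := by
  rw [Matrix.det_apply']
  refine (Finset.abs_sum_le_sum_abs _ _).trans ?_
  have h1 : ∀ σ ∈ (Finset.univ : Finset (Equiv.Perm (Fin N))),
      |((Equiv.Perm.sign σ : ℤ) : ℝ) * ∏ i, X (σ i) i| ≤ (∏ i, a i) * ∏ j, b j := by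
    intro σ _
    rw [abs_mul, Finset.abs_prod]
    have hs : |((Equiv.Perm.sign σ : ℤ) : ℝ)| = 1 := by
      rcases Int.units_eq_one_or (Equiv.Perm.sign σ) with h | h
      · rw [h]
        simp
      · rw [h]
        simp
    rw [hs, one_mul]
    calc ∏ i, |X (σ i) i| ≤ ∏ i, (a (σ i) * b i) :=
          Finset.prod_le_prod (fun i _ => abs_nonneg _) fun i _ => h _ _
      _ = (∏ i, a i) * ∏ j, b j := by
          rw [Finset.prod_mul_distrib, Equiv.prod_comp σ a]
  refine (Finset.sum_le_sum h1).trans (le_of_eq ?_)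
  rw [Finset.sum_const, Finset.card_univ, Fintype.card_perm, Fintype.card_fin, nsmul_eq_mul]

/-- upper bound at the infinite place -/
theorem upperR {M : ℕ} (A : Matrix (Fin (M + 1)) (Fin (M + 1)) ℝ)
    (hA : A.det ≠ 0) (b : Fin (M + 1) → ℝ) (T : ℝ) (g : Fin M → Fin (M + 1) → ℤ)
    (hb : ∀ j i, |∑ k, A i k * (g j k : ℝ)| ≤ Real.exp (b i * T)) (i : Fin (M + 1)) :
    |(mt (fun k => A.adjugate k i) (fun j k => (g j k : ℝ))).det| ≤
      ((M + 1).factorial : ℝ) * Real.exp ((∑ j, b j - b i) * T) := by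
  rw [det_valR A hA]
  have h := abs_det_le (mt (fun k => if k = i then (1 : ℝ) else 0)
      (fun j k => ∑ l, A k l * (g j l : ℝ)))
    (Fin.cons (α := fun _ => ℝ) (Real.exp (-(b i * T))) fun _ => 1) (fun k => Real.exp (b k * T))
    (by
      intro r k
      refine Fin.cases ?_ (fun j => ?_) r
      · rw [mt_zero, Fin.cons_zero, ← Real.exp_add]
        split_ifs with hk
        · subst hk
          simp
        · rw [abs_zero]
          exact (Real.exp_pos _).le
      · rw [mt_succ, Fin.cons_succ, one_mul]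
        exact hb j k)
  refine h.trans (le_of_eq ?_)
  rw [Fin.prod_univ_succ]
  simp only [Fin.cons_zero, Fin.cons_succ, Finset.prod_const_one, mul_one]
  rw [← Real.exp_sum, ← Real.exp_add]
  have h1 : -(b i * T) + ∑ k, b k * T = (∑ j, b j - b i) * T := by
    rw [← Finset.sum_mul]
    ring
  rw [h1]

/-- the entries of the adjugate are in the field -/
theorem adj_mem (K : IntermediateField ℚ ℝ) {N : ℕ} (A : Matrix (Fin N) (Fin N) ℝ)
    (hA : Ent K A) (i k : Fin N) : A.adjugate i k ∈ K := by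
  let A' : Matrix (Fin N) (Fin N) K := Matrix.of fun i k => ⟨A i k, hA i k⟩
  have h : A = (algebraMap K ℝ).mapMatrix A' := by
    ext i k
    rfl
  rw [h, ← RingHom.map_adjugate]
  exact (A'.adjugate i k).2

end KLB1_

theorem klb1_proof (hKLI : Stmt_KLI) : Stmt_KLB1 := by
  intro K _ M S A L hS hEnt hA hdet
  have hli : ∀ i : Fin (M + 1), ∃ (c : ℝ) (D : ℕ), 0 < c ∧ ∀ (x : Fin (M + 1) → ℤ) (H : ℝ),
      1 ≤ H → (∀ i, |(x i : ℝ)| ≤ H) → ∑ k, A.adjugate k i * (x k : ℝ) ≠ 0 →
      c ≤ |∑ k, A.adjugate k i * (x k : ℝ)| * H ^ D := fun i =>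
    hKLI K (M + 1) (fun k => A.adjugate k i) fun k => KLB1_.adj_mem K A hEnt k i
  choose c D hc hcD using hli
  obtain ⟨K₁, hK1, hK⟩ : ∃ K₁ : ℝ, 1 ≤ K₁ ∧
      ∀ p ∈ S, ∑ i, ∑ k, |((L p).adjugate i k : ℝ)| ≤ K₁ := by
    refine ⟨1 + ∑ p ∈ S, ∑ i, ∑ k, |((L p).adjugate i k : ℝ)|, ?_, ?_⟩
    · have : 0 ≤ ∑ p ∈ S, ∑ i, ∑ k, |((L p).adjugate i k : ℝ)| :=
        Finset.sum_nonneg fun v _ => Finset.sum_nonneg fun i _ => Finset.sum_nonneg fun k _ =>
          abs_nonneg _
      linarith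
    · intro v hv
      have h5 : ∑ i, ∑ k, |((L v).adjugate i k : ℝ)| ≤
          ∑ p ∈ S, ∑ i, ∑ k, |((L p).adjugate i k : ℝ)| :=
        Finset.single_le_sum (f := fun v => ∑ i, ∑ k, |((L v).adjugate i k : ℝ)|)
          (fun v _ => Finset.sum_nonneg fun i _ => Finset.sum_nonneg fun k _ => abs_nonneg _) hv
      linarith
  obtain ⟨K₂, hK2, hKc⟩ : ∃ K₂ : ℝ, 1 ≤ K₂ ∧ ∀ i, 1 ≤ K₂ * c i := by
    have h0 : 0 ≤ ∑ i, (c i)⁻¹ := Finset.sum_nonneg fun i _ => (inv_pos.2 (hc i)).le
    refine ⟨1 + ∑ i, (c i)⁻¹, by linarith, fun i => ?_⟩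
    have h1 : (c i)⁻¹ ≤ ∑ i, (c i)⁻¹ :=
      Finset.single_le_sum (f := fun i => (c i)⁻¹) (fun i _ => (inv_pos.2 (hc i)).le)
        (Finset.mem_univ i)
    calc (1 : ℝ) = (c i)⁻¹ * c i := (inv_mul_cancel₀ (hc i).ne').symm
      _ ≤ (1 + ∑ i, (c i)⁻¹) * c i := mul_le_mul_of_nonneg_right (by linarith) (hc i).le
  obtain ⟨D₀, hD0⟩ : ∃ D₀ : ℕ, ∀ i, D i ≤ D₀ :=
    ⟨∑ i, D i, fun i => Finset.single_le_sum (f := D) (fun _ _ => Nat.zero_le _)
      (Finset.mem_univ i)⟩
  have hf : (1 : ℝ) ≤ ((M + 1).factorial : ℝ) := by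
    exact_mod_cast Nat.succ_le_of_lt (Nat.factorial_pos _)
  have hK12 : 1 ≤ K₁ * K₂ := by
    calc (1 : ℝ) = 1 * 1 := by ring
      _ ≤ K₁ * K₂ := mul_le_mul hK1 hK2 zero_le_one (by linarith)
  have hC1 : 1 ≤ K₁ * K₂ * ((M + 1).factorial : ℝ) := by
    calc (1 : ℝ) = 1 * 1 := by ring
      _ ≤ K₁ * K₂ * ((M + 1).factorial : ℝ) := mul_le_mul hK12 hf zero_le_one (by linarith)
  refine ⟨K₁ * K₂ * ((M + 1).factorial : ℝ), (D₀ + 1) * (pl S).card, hC1, ?_⟩
  intro b T H g w i hH1 hlin hw hg hb hwH hne0 hneS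
  set C : ℝ := K₁ * K₂ * ((M + 1).factorial : ℝ) with hC
  obtain ⟨t, ht⟩ := LB1_.det_eq w g hw hg
  have hw0 := LB1_.w_ne_zero w hw
  have ht0 : t ≠ 0 := by
    intro h0
    have := LB1_.det_ne w g hw0 hg hlin
    rw [ht, h0, mul_zero] at this
    exact this rfl
  have h1 := one_le_prod_av hS ht0
  have hCH : 1 ≤ C * H := by
    calc (1 : ℝ) = 1 * 1 := by ring
      _ ≤ C * H := mul_le_mul hC1 hH1 zero_le_one (by linarith)
  have h2 : ∏ v ∈ pl S, av v (t : ℚ) ≤ ∏ v ∈ pl S,
      ((C * H) ^ (D₀ + 1) * Real.exp ((∑ j, b v j - b v (i v)) * T)) := by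
    refine Finset.prod_le_prod (fun v _ => av_nonneg _ _) fun v hv => ?_
    have hp := place_of_mem hS hv
    have ha : 0 ≤ av v (t : ℚ) := av_nonneg _ _
    rcases mem_pl.1 hv with rfl | hvS
    · -- the infinite place
      have hb' : ∀ j i, |∑ k, A i k * (g j k : ℝ)| ≤ Real.exp (b 0 i * T) := by
        intro j k
        have := hb 0 hv j k
        unfold vl at this
        rwa [if_pos rfl] at this
      have hu := KLB1_.upperR A hA (b 0) T g hb' (i 0)
      rw [KLB1_.det_eqR w g t ht, abs_mul] at hu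
      have hsw : ∑ k, A.adjugate k (i 0) * (w k : ℝ) = ∑ k, (w k : ℝ) * A.adjugate k (i 0) :=
        Finset.sum_congr rfl fun k _ => mul_comm _ _
      have hl := hcD (i 0) w H hH1 hwH (by rwa [hsw])
      rw [hsw] at hl
      set F : ℝ := |∑ k, (w k : ℝ) * A.adjugate k (i 0)| with hF
      have hF0 : 0 ≤ F := abs_nonneg _
      have hav : av 0 (t : ℚ) = |(t : ℝ)| := by
        rw [av_zero_eq, Rat.cast_intCast]
      have hl2 : 1 ≤ K₂ * F * H ^ D₀ := by
        have e1 : H ^ D (i 0) ≤ H ^ D₀ := pow_le_pow_right₀ hH1 (hD0 _)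
        calc (1 : ℝ) ≤ K₂ * c (i 0) := hKc _
          _ ≤ K₂ * (F * H ^ D (i 0)) := mul_le_mul_of_nonneg_left hl (by linarith)
          _ ≤ K₂ * (F * H ^ D₀) :=
              mul_le_mul_of_nonneg_left (mul_le_mul_of_nonneg_left e1 hF0) (by linarith)
          _ = K₂ * F * H ^ D₀ := by ring
      have e2 : K₂ * H ^ D₀ * ((M + 1).factorial : ℝ) ≤ (C * H) ^ (D₀ + 1) := by
        have e3 : K₂ * ((M + 1).factorial : ℝ) ≤ C := by
          rw [hC]
          have : K₂ * ((M + 1).factorial : ℝ) = 1 * (K₂ * ((M + 1).factorial : ℝ)) := by ring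
          rw [this, mul_assoc K₁]
          exact mul_le_mul_of_nonneg_right hK1 (mul_nonneg (by linarith) (by linarith))
        have e4 : H ^ D₀ ≤ (C * H) ^ D₀ := by
          refine pow_le_pow_left₀ (by linarith) ?_ _
          calc H = 1 * H := (one_mul _).symm
            _ ≤ C * H := mul_le_mul_of_nonneg_right hC1 (by linarith)
        have e5 : C ≤ C * H := by
          calc C = C * 1 := (mul_one _).symm
            _ ≤ C * H := mul_le_mul_of_nonneg_left hH1 (by linarith)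
        calc K₂ * H ^ D₀ * ((M + 1).factorial : ℝ) = (K₂ * ((M + 1).factorial : ℝ)) * H ^ D₀ := by
              ring
          _ ≤ (C * H) * (C * H) ^ D₀ :=
              mul_le_mul (e3.trans e5) e4 (pow_nonneg (by linarith) _) (by linarith)
          _ = (C * H) ^ (D₀ + 1) := by ring
      rw [hav]
      calc |(t : ℝ)| = 1 * |(t : ℝ)| := (one_mul _).symm
        _ ≤ (K₂ * F * H ^ D₀) * |(t : ℝ)| := mul_le_mul_of_nonneg_right hl2 (abs_nonneg _)
        _ = K₂ * H ^ D₀ * (F * |(t : ℝ)|) := by ring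
        _ ≤ K₂ * H ^ D₀ * (((M + 1).factorial : ℝ) *
              Real.exp ((∑ j, b 0 j - b 0 (i 0)) * T)) :=
            mul_le_mul_of_nonneg_left hu (mul_nonneg (by linarith) (pow_nonneg (by linarith) _))
        _ = (K₂ * H ^ D₀ * ((M + 1).factorial : ℝ)) *
              Real.exp ((∑ j, b 0 j - b 0 (i 0)) * T) := by ring
        _ ≤ (C * H) ^ (D₀ + 1) * Real.exp ((∑ j, b 0 j - b 0 (i 0)) * T) :=
            mul_le_mul_of_nonneg_right e2 (Real.exp_pos _).le
    · -- the primes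
      have hv0 : v ≠ 0 := (hS v hvS).ne_zero
      have hne' : ∑ k, w k * (L v).adjugate k (i v) ≠ 0 := hneS v hvS
      have hb' : ∀ j k, av v (fv (L v) (g j) k) ≤ Real.exp (b v k * T) := by
        intro j k
        have := hb v hv j k
        unfold vl at this
        rwa [if_neg hv0] at this
      have hl := LB1_.lower hp (L v).adjugate w H hwH K₁ (hK v hvS) (i v) hne'
      have hu := LB1_.upper hp (L v) (hdet v hvS) (b v) T g hb' (i v)
      rw [ht, Int.cast_mul, av_mul hp] at hu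
      have hKH : 0 ≤ K₁ * H := mul_nonneg (by linarith) (by linarith)
      have e1 : K₁ * H * ((M + 1).factorial : ℝ) ≤ (C * H) ^ (D₀ + 1) := by
        have e3 : K₁ * ((M + 1).factorial : ℝ) ≤ C := by
          rw [hC]
          have e6 : K₁ * K₂ * ((M + 1).factorial : ℝ) = K₂ * (K₁ * ((M + 1).factorial : ℝ)) := by
            ring
          rw [e6]
          calc K₁ * ((M + 1).factorial : ℝ) = 1 * (K₁ * ((M + 1).factorial : ℝ)) := by ring
            _ ≤ K₂ * (K₁ * ((M + 1).factorial : ℝ)) :=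
                mul_le_mul_of_nonneg_right hK2 (mul_nonneg (by linarith) (by linarith))
        calc K₁ * H * ((M + 1).factorial : ℝ) = (K₁ * ((M + 1).factorial : ℝ)) * H := by ring
          _ ≤ C * H := mul_le_mul_of_nonneg_right e3 (by linarith)
          _ = (C * H) ^ 1 := (pow_one _).symm
          _ ≤ (C * H) ^ (D₀ + 1) := pow_le_pow_right₀ hCH (by omega)
      calc av v (t : ℚ) = 1 * av v (t : ℚ) := (one_mul _).symm
        _ ≤ (K₁ * H * av v ((∑ k, w k * (L v).adjugate k (i v) : ℤ) : ℚ)) * av v (t : ℚ) :=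
            mul_le_mul_of_nonneg_right hl ha
        _ = K₁ * H * (av v ((∑ k, w k * (L v).adjugate k (i v) : ℤ) : ℚ) * av v (t : ℚ)) := by
            ring
        _ ≤ K₁ * H * (((M + 1).factorial : ℝ) * Real.exp ((∑ j, b v j - b v (i v)) * T)) :=
            mul_le_mul_of_nonneg_left hu hKH
        _ = (K₁ * H * ((M + 1).factorial : ℝ)) * Real.exp ((∑ j, b v j - b v (i v)) * T) := by
            ring
        _ ≤ _ := mul_le_mul_of_nonneg_right e1 (Real.exp_pos _).le
  refine h1.trans (h2.trans (le_of_eq ?_))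
  rw [Finset.prod_mul_distrib, Finset.prod_const, ← Real.exp_sum, ← pow_mul]
  congr 2
  rw [← Finset.sum_mul, Finset.sum_sub_distrib]

end Pool.Agent.SBT
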