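import Pool.Agent.SBT.StmtsK

/-!
# Squad SBT, module KLC: numbers of linear complexity are described
-/

set_option autoImplicit false

namespace Pool.Agent.SBT

open Filter

namespace KLC_

theorem log_ge_half {b : ℕ} (hb : 2 ≤ b) : (1 : ℝ) / 2 ≤ Real.log b := by
  have h2 : (1 : ℝ) / 2 ≤ Real.log 2 := by
    have := Real.log_two_gt_d9
    linarith
  have : Real.log 2 ≤ Real.log b := by
    apply Real.log_le_log (by norm_num)
    exact_mod_cast hb
  linarith

theorem floor_approx (x : ℝ) {b : ℕ} (hb : 2 ≤ b) (L : ℕ) :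
    |x - (⌊x * (b : ℝ) ^ L⌋ : ℝ) / (b : ℝ) ^ L| ≤ 1 / (b : ℝ) ^ L := by
  have hb0 : (0 : ℝ) < (b : ℝ) ^ L := by positivity
  have h1 := Int.floor_le (x * (b : ℝ) ^ L)
  have h2 := Int.lt_floor_add_one (x * (b : ℝ) ^ L)
  have e : x - (⌊x * (b : ℝ) ^ L⌋ : ℝ) / (b : ℝ) ^ L =
      (x * (b : ℝ) ^ L - ⌊x * (b : ℝ) ^ L⌋) / (b : ℝ) ^ L := by
    field_simp
  rw [e, abs_of_nonneg (div_nonneg (by linarith) hb0.le)]
  apply div_le_div_of_nonneg_right _ hb0.le
  linarith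

end KLC_

open KLC_

theorem klc_proof (hSTG : Stmt_STG) (hDGT : Stmt_DGT) (hRPA : Stmt_RPA) (_hKUS : Stmt_KUS)
    (hKBU : Stmt_KBU) : Stmt_KLC := by
  intro b C x F hb hF hcnt
  obtain ⟨s, B₁, hs⟩ := hSTG C
  obtain ⟨hdig, hrec, hnbl, -⟩ := hDGT b x hb
  obtain ⟨-, hmul, hmono, hpow, -, -, hprod⟩ := hRPA
  have hlog := log_ge_half hb
  have hb1 : (1 : ℝ) ≤ b := by
    have : (1 : ℕ) ≤ b := by omega
    exact_mod_cast this
  have hb0 : (0 : ℝ) < b := by linarith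
  set A : ℝ := (|⌊x⌋| : ℤ) + 1 with hA
  have hA1 : 1 ≤ A := by
    have : (0 : ℝ) ≤ ((|⌊x⌋| : ℤ) : ℝ) := by exact_mod_cast abs_nonneg _
    linarith
  refine ⟨s, B₁ * Real.log b + Real.log A, by
    have := Real.log_nonneg hA1
    positivity, ?_⟩
  intro U Λ hU
  have hUtop : (U : Filter ℕ) ≤ atTop := hU.trans hF
  set B : ℝ := B₁ * Real.log b + Real.log A with hB
  have hB0 : 0 ≤ B := by
    have := Real.log_nonneg hA1
    positivity
  set Λ' : ℕ := ⌈2 * |Λ|⌉₊ + B₁ + 2 with hΛ'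
  obtain ⟨N, hN⟩ := hs Λ'
  -- the good `n`
  set z : ℕ → ℕ := fun n => ⌈|Λ| * n / Real.log b⌉₊ with hz
  have hzlt : ∀ n : ℕ, 1 ≤ n → z n + B₁ * n < Λ' * n := by
    intro n hn
    have hn1 : (1 : ℝ) ≤ n := by exact_mod_cast hn
    have h1 : (z n : ℝ) < |Λ| * n / Real.log b + 1 :=
      Nat.ceil_lt_add_one (by positivity)
    have h2 : |Λ| * n / Real.log b ≤ 2 * |Λ| * n := by
      rw [div_le_iff₀ (by linarith)]
      have : 0 ≤ |Λ| * n := by positivity
      nlinarith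
    have h3 : 2 * |Λ| ≤ (⌈2 * |Λ|⌉₊ : ℝ) := Nat.le_ceil _
    have h4 : ((z n + B₁ * n : ℕ) : ℝ) < ((Λ' * n : ℕ) : ℝ) := by
      push_cast [hΛ']
      have : 2 * |Λ| * n ≤ (⌈2 * |Λ|⌉₊ : ℝ) * n :=
        mul_le_mul_of_nonneg_right h3 (by positivity)
      nlinarith
    exact_mod_cast h4
  have hzapp : ∀ (n L : ℕ), z n ≤ L → 1 / (b : ℝ) ^ L ≤ Real.exp ((B - Λ) * n) := by
    intro n L hL
    have h1 : |Λ| * n / Real.log b ≤ L := (Nat.le_ceil _).trans (by exact_mod_cast hL)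
    have h2 : |Λ| * n ≤ L * Real.log b := by
      rwa [div_le_iff₀ (by linarith)] at h1
    have e : 1 / (b : ℝ) ^ L = Real.exp (-(L * Real.log b)) := by
      rw [Real.exp_neg, ← Real.log_pow, Real.exp_log (by positivity), one_div]
    rw [e]
    apply Real.exp_le_exp.mpr
    have h3 : Λ ≤ |Λ| := le_abs_self _
    have h4 : 0 ≤ B * n := by positivity
    have h5 : Λ * n ≤ |Λ| * n := mul_le_mul_of_nonneg_right h3 (by positivity)
    nlinarith
  -- data for good `n`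
  have key : ∀ n : ℕ, 8 ≤ n → cnt b x n (Λ' * n) ≤ C * n →
      ∃ (D : ℤ) (Fi : Fin s → ℤ) (y : Fin s → ℤ), D ≠ 0 ∧
        Rep b (2 ^ s) ((s * B₁ + Λ') * n) D ∧ (∀ i, Rep b N (N * n) (Fi i)) ∧
        (∀ i, |(y i : ℝ)| ≤ Real.exp (B * n)) ∧
        |x - (((∑ i, (Fi i : ℚ) * (y i : ℚ)) / (D : ℚ) : ℚ) : ℝ)| ≤ Real.exp ((B - Λ) * n) := by
    intro n hn hc
    have hn1 : 1 ≤ n := by omega
    obtain ⟨q, y, hq, hy, hL⟩ := hN b n (fun i => (dig b x (i + 1)).toNat)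
      (fun i => ⌊x * (b : ℝ) ^ i⌋) hb hn
      (fun i => by
        have := hdig (i + 1)
        show (dig b x (i + 1)).toNat < b
        omega)
      (fun i => by
        have h := hdig (i + 1)
        have h2 := hrec i
        show ⌊x * (b : ℝ) ^ (i + 1)⌋ = b * ⌊x * (b : ℝ) ^ i⌋ + ((dig b x (i + 1)).toNat : ℤ)
        rw [h2, Int.toNat_of_nonneg h.1])
      (by rw [← hnbl]; exact hc)
    obtain ⟨L, hL1, hL2, Fi, hFi, hsum⟩ := hL (z n) (hzlt n hn1)
    refine ⟨(∏ i, ((b : ℤ) ^ q i - 1)) * (b : ℤ) ^ L, Fi, y, ?_, ?_, hFi, ?_, ?_⟩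
    · apply mul_ne_zero
      · rw [Finset.prod_ne_zero_iff]
        intro i _
        have h1 : (b : ℤ) ^ 1 ≤ (b : ℤ) ^ q i :=
          pow_le_pow_right₀ (by exact_mod_cast (by omega : 1 ≤ b)) (hq i).1
        have h2 : (2 : ℤ) ≤ b := by exact_mod_cast hb
        rw [pow_one] at h1
        omega
      · have : (b : ℤ) ≠ 0 := by exact_mod_cast (by omega : b ≠ 0)
        exact pow_ne_zero _ this
    · have h1 := hprod b s q
      have h2 := hpow b L
      have h3 := hmul b (2 ^ s) 1 _ _ _ _ h1 h2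
      rw [mul_one] at h3
      refine hmono b _ _ _ _ _ le_rfl ?_ h3
      have h4 : ∑ i, q i ≤ s * (B₁ * n) := by
        calc ∑ i, q i ≤ ∑ _i : Fin s, B₁ * n := Finset.sum_le_sum fun i _ => (hq i).2
          _ = s * (B₁ * n) := by simp
      have h5 : L ≤ Λ' * n := hL2.trans (hzlt n hn1).le
      calc ∑ i, q i + L ≤ s * (B₁ * n) + Λ' * n := Nat.add_le_add h4 h5
        _ = (s * B₁ + Λ') * n := by ring
    · intro i
      have h1 := hy i
      have h2 : |(y i : ℝ)| ≤ A * (b : ℝ) ^ (B₁ * n) := by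
        have h3 : ((|y i| : ℤ) : ℝ) ≤ (((|⌊x * (b : ℝ) ^ 0⌋| + 1) * (b : ℤ) ^ (B₁ * n) : ℤ) : ℝ) := by
          exact_mod_cast h1
        rw [pow_zero, mul_one] at h3
        push_cast at h3 ⊢
        rw [hA]
        push_cast
        exact h3
      refine h2.trans ?_
      have e : Real.exp (B * n) = Real.exp (Real.log A * n) * (b : ℝ) ^ (B₁ * n) := by
        have : (b : ℝ) ^ (B₁ * n) = Real.exp ((B₁ * n : ℕ) * Real.log b) := by
          rw [← Real.log_pow, Real.exp_log (by positivity)]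
        rw [this, ← Real.exp_add]
        congr 1
        rw [hB]
        push_cast
        ring
      rw [e]
      apply mul_le_mul_of_nonneg_right _ (by positivity)
      have hn1' : (1 : ℝ) ≤ n := by exact_mod_cast hn1
      calc A = Real.exp (Real.log A) := (Real.exp_log (by linarith)).symm
        _ ≤ Real.exp (Real.log A * n) := by
          apply Real.exp_le_exp.mpr
          have := Real.log_nonneg hA1
          nlinarith
    · have hPne : ((∏ i, ((b : ℤ) ^ q i - 1) : ℤ) : ℚ) ≠ 0 := by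
        have : (∏ i, ((b : ℤ) ^ q i - 1) : ℤ) ≠ 0 := by
          rw [Finset.prod_ne_zero_iff]
          intro i _
          have h1 : (b : ℤ) ^ 1 ≤ (b : ℤ) ^ q i :=
            pow_le_pow_right₀ (by exact_mod_cast (by omega : 1 ≤ b)) (hq i).1
          have h2 : (2 : ℤ) ≤ b := by exact_mod_cast hb
          rw [pow_one] at h1
          omega
        exact_mod_cast this
      have hbq : ((b : ℚ)) ^ L ≠ 0 := by
        have : (b : ℚ) ≠ 0 := by exact_mod_cast (by omega : b ≠ 0)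
        exact pow_ne_zero _ this
      have hs' : (∑ i, (Fi i : ℚ) * (y i : ℚ)) =
          ((∏ i, ((b : ℤ) ^ q i - 1) : ℤ) : ℚ) * (⌊x * (b : ℝ) ^ L⌋ : ℚ) := by
        have : (((∏ i, ((b : ℤ) ^ q i - 1)) * ⌊x * (b : ℝ) ^ L⌋ : ℤ) : ℚ) =
            ((∑ i, Fi i * y i : ℤ) : ℚ) := by rw [hsum]
        rw [Int.cast_mul] at this
        rw [this]
        push_cast
        rfl
      have hval : (∑ i, (Fi i : ℚ) * (y i : ℚ)) /
          (((∏ i, ((b : ℤ) ^ q i - 1)) * (b : ℤ) ^ L : ℤ) : ℚ) =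
          (⌊x * (b : ℝ) ^ L⌋ : ℚ) / (b : ℚ) ^ L := by
        rw [hs', Int.cast_mul]
        have e : (((b : ℤ) ^ L : ℤ) : ℚ) = (b : ℚ) ^ L := by push_cast; rfl
        rw [e]
        field_simp
      rw [hval]
      have h6 := floor_approx x hb L
      have h7 := hzapp n L hL1
      have e : (((⌊x * (b : ℝ) ^ L⌋ : ℚ) / (b : ℚ) ^ L : ℚ) : ℝ) =
          (⌊x * (b : ℝ) ^ L⌋ : ℝ) / (b : ℝ) ^ L := by push_cast; rfl
      rw [e]
      exact h6.trans h7
  have hgood : ∀ᶠ n in (U : Filter ℕ), 8 ≤ n ∧ cnt b x n (Λ' * n) ≤ C * n := by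
    have h1 : ∀ᶠ n in (U : Filter ℕ), 8 ≤ n := (eventually_ge_atTop 8).filter_mono hUtop
    have h2 : ∀ᶠ n in (U : Filter ℕ), cnt b x n (Λ' * n) ≤ C * n := (hcnt Λ').filter_mono hU
    exact h1.and h2
  classical
  choose! D Fi y hD hDr hFr hyb happ using key
  refine ⟨b.primeFactors, fun n => (D n : ℚ), fun i n => (Fi n i : ℚ), fun i n => y n i,
    ?_, ?_, ?_, ?_, ?_, ?_⟩
  · intro p hp
    exact Nat.prime_of_mem_primeFactors hp
  · apply hKBU U b (2 ^ s) (s * B₁ + Λ') D hb hUtop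
    filter_upwards [hgood] with n hn
    exact hDr n hn.1 hn.2
  · intro i
    apply hKBU U b N N (fun n => Fi n i) hb hUtop
    filter_upwards [hgood] with n hn
    exact hFr n hn.1 hn.2 i
  · filter_upwards [hgood] with n hn
    exact_mod_cast hD n hn.1 hn.2
  · filter_upwards [hgood] with n hn
    exact hyb n hn.1 hn.2
  · filter_upwards [hgood] with n hn
    exact happ n hn.1 hn.2

end Pool.Agent.SBT
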