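import Pool.Agent.SBT.StmtsK

/-!
# SBT (MP_175f55_nt), module KLI: Liouville's inequality
-/

set_option autoImplicit false

namespace Pool.Agent.SBT

open Classical in
theorem kli_proof : Stmt_KLI := by
  intro K _ N β hβ
  obtain ⟨b, hb⟩ : ∃ b : Fin N → K, b = fun i => ⟨β i, hβ i⟩ := ⟨_, rfl⟩
  have hbβ : ∀ i, ((b i : K) : ℝ) = β i := by intro i; rw [hb]
  have : Algebra.IsAlgebraic ℤ K := by
    have : Algebra.IsAlgebraic ℚ K := Algebra.IsAlgebraic.of_finite ℚ K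
    exact (IsFractionRing.comap_isAlgebraic_iff (A := ℤ) (K := ℚ) (C := K)).mpr inferInstance
  obtain ⟨q, hq0, hq⟩ := Algebra.IsAlgebraic.exists_integral_multiples ℤ
    (Finset.univ.image b)
  obtain ⟨ι, hι⟩ : ∃ ι : K →ₐ[ℚ] ℂ, ∀ z : K, ι z = (((z : K) : ℝ) : ℂ) := by
    refine ⟨(Complex.ofRealAm.restrictScalars ℚ).comp K.val, ?_⟩
    intro z
    rfl
  obtain ⟨B, hB1, hB⟩ : ∃ B : ℝ, 1 ≤ B ∧ ∀ σ : K →ₐ[ℚ] ℂ, ∑ i, ‖σ (b i)‖ ≤ B := by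
    refine ⟨1 + ∑ σ : K →ₐ[ℚ] ℂ, ∑ i, ‖σ (b i)‖, ?_, ?_⟩
    · have : 0 ≤ ∑ σ : K →ₐ[ℚ] ℂ, ∑ i, ‖σ (b i)‖ := by positivity
      linarith
    · intro σ
      have h1 : ∑ i, ‖σ (b i)‖ ≤ ∑ σ : K →ₐ[ℚ] ℂ, ∑ i, ‖σ (b i)‖ :=
        Finset.single_le_sum (f := fun σ : K →ₐ[ℚ] ℂ => ∑ i, ‖σ (b i)‖)
          (fun τ _ => by positivity) (Finset.mem_univ σ)
      linarith
  have hq1 : (1 : ℝ) ≤ |(q : ℝ)| := by exact_mod_cast Int.one_le_abs hq0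
  obtain ⟨D, hD⟩ : ∃ D : ℕ, D = (Finset.univ.erase ι).card := ⟨_, rfl⟩
  have hQ0 : (0 : ℝ) < |(q : ℝ)| * (|(q : ℝ)| * B) ^ D := by positivity
  refine ⟨(|(q : ℝ)| * (|(q : ℝ)| * B) ^ D)⁻¹, D, inv_pos.mpr hQ0, ?_⟩
  intro x H hH hx hne
  obtain ⟨z, hz⟩ : ∃ z : K, z = ∑ i, b i * (x i : K) := ⟨_, rfl⟩
  have hzR : ((z : K) : ℝ) = ∑ i, β i * (x i : ℝ) := by
    rw [hz]
    push_cast
    refine Finset.sum_congr rfl fun i _ => ?_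
    rw [hbβ]
  have hz0 : z ≠ 0 := by
    intro h0
    apply hne
    rw [← hzR, h0]
    rfl
  -- integrality
  have hint : IsIntegral ℤ (q • z) := by
    rw [hz, Finset.smul_sum]
    apply IsIntegral.sum
    intro i _
    rw [← smul_mul_assoc]
    apply IsIntegral.mul
    · exact hq _ (Finset.mem_image_of_mem _ (Finset.mem_univ i))
    · exact isIntegral_algebraMap (R := ℤ) (A := K) (x := x i)
  have hnint : IsIntegral ℤ (Algebra.norm ℚ (q • z)) := Algebra.isIntegral_norm ℚ hint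
  obtain ⟨y, hy⟩ := IsIntegrallyClosed.isIntegral_iff.mp hnint
  have hqz : q • z ≠ 0 := smul_ne_zero hq0 hz0
  have hn0 : Algebra.norm ℚ (q • z) ≠ 0 := by
    rw [Ne, Algebra.norm_eq_zero_iff]
    exact hqz
  have hy0 : y ≠ 0 := by
    rintro rfl
    apply hn0
    rw [← hy, map_zero]
  have hprod := Algebra.norm_eq_prod_embeddings ℚ ℂ (q • z)
  have hnorm : 1 ≤ ∏ σ : K →ₐ[ℚ] ℂ, ‖σ (q • z)‖ := by
    rw [← norm_prod, ← hprod, ← hy]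
    have h1 : (algebraMap ℚ ℂ) ((algebraMap ℤ ℚ) y) = (y : ℂ) := by simp
    rw [h1, Complex.norm_intCast]
    exact_mod_cast Int.one_le_abs hy0
  rw [← Finset.mul_prod_erase Finset.univ _ (Finset.mem_univ ι)] at hnorm
  have hsm : ∀ σ : K →ₐ[ℚ] ℂ, ‖σ (q • z)‖ = |(q : ℝ)| * ‖σ z‖ := by
    intro σ
    rw [map_zsmul, zsmul_eq_mul, norm_mul, Complex.norm_intCast]
  have hle : ∀ σ : K →ₐ[ℚ] ℂ, ‖σ (q • z)‖ ≤ |(q : ℝ)| * B * H := by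
    intro σ
    rw [hsm, mul_assoc]
    apply mul_le_mul_of_nonneg_left _ (abs_nonneg _)
    rw [hz, map_sum]
    refine (norm_sum_le _ _).trans ?_
    have h1 : ∀ i, ‖σ (b i * (x i : K))‖ ≤ ‖σ (b i)‖ * H := by
      intro i
      rw [map_mul, norm_mul, map_intCast, Complex.norm_intCast]
      exact mul_le_mul_of_nonneg_left (hx i) (norm_nonneg _)
    calc ∑ i, ‖σ (b i * (x i : K))‖ ≤ ∑ i, ‖σ (b i)‖ * H := Finset.sum_le_sum fun i _ => h1 i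
      _ = (∑ i, ‖σ (b i)‖) * H := by rw [Finset.sum_mul]
      _ ≤ B * H := mul_le_mul_of_nonneg_right (hB σ) (by linarith)
  have hrest : ∏ σ ∈ Finset.univ.erase ι, ‖σ (q • z)‖ ≤ (|(q : ℝ)| * B * H) ^ D := by
    rw [hD, ← Finset.prod_const]
    exact Finset.prod_le_prod (fun σ _ => norm_nonneg _) (fun σ _ => hle σ)
  have hιz : ‖ι (q • z)‖ = |(q : ℝ)| * |∑ i, β i * (x i : ℝ)| := by
    rw [hsm, hι, hzR, Complex.norm_real, Real.norm_eq_abs]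
  rw [hιz] at hnorm
  have hfin : 1 ≤ |(q : ℝ)| * |∑ i, β i * (x i : ℝ)| * (|(q : ℝ)| * B * H) ^ D :=
    hnorm.trans (mul_le_mul_of_nonneg_left hrest (by positivity))
  rw [inv_le_iff_one_le_mul₀ hQ0]
  calc (1 : ℝ) ≤ |(q : ℝ)| * |∑ i, β i * (x i : ℝ)| * (|(q : ℝ)| * B * H) ^ D := hfin
    _ = |∑ i, β i * (x i : ℝ)| * H ^ D * (|(q : ℝ)| * (|(q : ℝ)| * B) ^ D) := by
      rw [mul_pow (|(q : ℝ)| * B) H]
      ring

end Pool.Agent.SBT
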