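import Pool.Agent.SBT.StmtsK

/-! Module KLN: `linR` of a monomial. -/

set_option autoImplicit false

namespace Pool.Agent.SBT

namespace KLN_

open MvPolynomial

section gen

variable {σ : Type} (O : Subring ℝ) (nu : ℝ → ℝ)

/-- all coefficients are in `O` -/
def InO (P : MvPolynomial σ ℝ) : Prop := ∀ e, coeff e P ∈ O

/-- sum of the `nu` of the coefficients -/
noncomputable def NN (P : MvPolynomial σ ℝ) : ℝ := ∑ e ∈ P.support, nu (coeff e P)

variable {O nu}

theorem NN_eq (h0 : nu 0 = 0) (P : MvPolynomial σ ℝ) (T : Finset (σ →₀ ℕ)) (h : P.support ⊆ T) :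
    NN nu P = ∑ e ∈ T, nu (coeff e P) := by
  unfold NN
  refine Finset.sum_subset h fun e _ he => ?_
  rw [notMem_support_iff.1 he, h0]

theorem nu_sum (h0 : nu 0 = 0) (hadd : ∀ x ∈ O, ∀ y ∈ O, nu (x + y) ≤ nu x + nu y) {ι : Type}
    (s : Finset ι) (f : ι → ℝ) (hf : ∀ i ∈ s, f i ∈ O) : nu (∑ i ∈ s, f i) ≤ ∑ i ∈ s, nu (f i) := by
  classical
  induction s using Finset.induction_on with
  | empty => simp [h0]
  | insert a s ha ih =>
    rw [Finset.sum_insert ha, Finset.sum_insert ha]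
    have h1 : ∀ i ∈ s, f i ∈ O := fun i hi => hf i (Finset.mem_insert_of_mem hi)
    have h2 := hadd (f a) (hf a (Finset.mem_insert_self _ _)) _ (O.sum_mem h1)
    have h3 := ih h1
    linarith

theorem InO_sum {ι : Type} (s : Finset ι) (f : ι → MvPolynomial σ ℝ) (hf : ∀ i ∈ s, InO O (f i)) :
    InO O (∑ i ∈ s, f i) := by
  intro e
  rw [coeff_sum]
  exact O.sum_mem fun i hi => hf i hi e

theorem NN_sum (h0 : nu 0 = 0) (hadd : ∀ x ∈ O, ∀ y ∈ O, nu (x + y) ≤ nu x + nu y) {ι : Type}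
    (s : Finset ι) (f : ι → MvPolynomial σ ℝ) (hf : ∀ i ∈ s, InO O (f i)) :
    NN nu (∑ i ∈ s, f i) ≤ ∑ i ∈ s, NN nu (f i) := by
  classical
  set T := s.biUnion fun i => (f i).support with hT
  have h1 : (∑ i ∈ s, f i).support ⊆ T := by
    intro e he
    rw [mem_support_iff, coeff_sum] at he
    obtain ⟨i, hi, hne⟩ := Finset.exists_ne_zero_of_sum_ne_zero he
    rw [hT, Finset.mem_biUnion]
    exact ⟨i, hi, mem_support_iff.2 hne⟩
  rw [NN_eq h0 _ T h1]
  have h2 : ∀ i ∈ s, NN nu (f i) = ∑ e ∈ T, nu (coeff e (f i)) := by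
    intro i hi
    refine NN_eq h0 _ T ?_
    intro e he
    rw [hT, Finset.mem_biUnion]
    exact ⟨i, hi, he⟩
  rw [Finset.sum_congr rfl h2, Finset.sum_comm]
  refine Finset.sum_le_sum fun e _ => ?_
  rw [coeff_sum]
  exact nu_sum h0 hadd s _ fun i hi => hf i hi e

theorem InO_monomial (e : σ →₀ ℕ) (r : ℝ) (hr : r ∈ O) : InO O (monomial e r) := by
  classical
  intro e'
  rw [coeff_monomial]
  split_ifs
  · exact hr
  · exact O.zero_mem

theorem NN_monomial (h0 : nu 0 = 0) (e : σ →₀ ℕ) (r : ℝ) : NN nu (monomial e r) = nu r := by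
  classical
  rw [NN_eq h0 (monomial e r) {e} support_monomial_subset, Finset.sum_singleton, coeff_monomial,
    if_pos rfl]

theorem InO_mul (P Q : MvPolynomial σ ℝ) (hP : InO O P) (hQ : InO O Q) : InO O (P * Q) := by
  classical
  intro e
  rw [coeff_mul]
  exact O.sum_mem fun x _ => O.mul_mem (hP _) (hQ _)

theorem NN_mul (h0 : nu 0 = 0) (hadd : ∀ x ∈ O, ∀ y ∈ O, nu (x + y) ≤ nu x + nu y)
    (hmul : ∀ x ∈ O, ∀ y ∈ O, nu (x * y) ≤ nu x * nu y) (P Q : MvPolynomial σ ℝ) (hP : InO O P)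
    (hQ : InO O Q) : NN nu (P * Q) ≤ NN nu P * NN nu Q := by
  classical
  have h1 : P * Q = ∑ x ∈ P.support ×ˢ Q.support,
      monomial (x.1 + x.2) (coeff x.1 P * coeff x.2 Q) := by
    rw [Finset.sum_product]
    conv_lhs => rw [P.as_sum, Q.as_sum]
    rw [Finset.sum_mul_sum]
    refine Finset.sum_congr rfl fun x _ => Finset.sum_congr rfl fun y _ => ?_
    rw [monomial_mul]
  rw [h1]
  refine (NN_sum h0 hadd _ _ fun x _ => InO_monomial _ _ (O.mul_mem (hP _) (hQ _))).trans ?_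
  unfold NN
  rw [Finset.sum_mul_sum, ← Finset.sum_product']
  refine Finset.sum_le_sum fun x _ => ?_
  have h2 := NN_monomial h0 (x.1 + x.2) (coeff x.1 P * coeff x.2 Q)
  unfold NN at h2
  rw [h2]
  exact hmul _ (hP _) _ (hQ _)

theorem NN_nonneg (hn : ∀ x, 0 ≤ nu x) (P : MvPolynomial σ ℝ) : 0 ≤ NN nu P :=
  Finset.sum_nonneg fun _ _ => hn _

theorem nu_le_NN (hn : ∀ x, 0 ≤ nu x) (h0 : nu 0 = 0) (P : MvPolynomial σ ℝ) (e : σ →₀ ℕ) :
    nu (coeff e P) ≤ NN nu P := by
  by_cases he : e ∈ P.support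
  · exact Finset.single_le_sum (f := fun e => nu (coeff e P)) (fun _ _ => hn _) he
  · rw [notMem_support_iff.1 he, h0]
    exact NN_nonneg hn P

end gen

variable {m N : ℕ}

/-- the weight of a variable -/
def ww (hk : Fin m × Fin N) : Fin m → ℕ := Pi.single hk.1 1

theorem weight_apply (e : (Fin m × Fin N) →₀ ℕ) (h : Fin m) :
    (Finsupp.weight ww e) h = ∑ k, e (h, k) := by
  classical
  rw [Finsupp.weight_apply, Finsupp.sum_fintype _ _ (by intro i; simp), Finset.sum_apply,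
    Fintype.sum_prod_type]
  rw [Finset.sum_eq_single h]
  · apply Finset.sum_congr rfl
    intro k _
    simp [ww]
  · intro h' _ hne
    apply Finset.sum_eq_zero
    intro k _
    simp [ww, hne.symm]
  · intro hcon; exact absurd (Finset.mem_univ _) hcon

theorem linR_monomial (B : Matrix (Fin N) (Fin N) ℝ) (s : (Fin m × Fin N) →₀ ℕ) :
    linR B (monomial s (1 : ℝ)) =
      ∏ hk ∈ s.support, (∑ i, C (B hk.2 i) * X (hk.1, i)) ^ s hk := by
  unfold linR
  rw [bind₁_monomial, C_1, one_mul]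

theorem kln_main (m N : ℕ) (B : Matrix (Fin N) (Fin N) ℝ) (O : Subring ℝ) (nu : ℝ → ℝ) (β : ℝ)
    (hβ : 1 ≤ β) (hB : ∀ k i, B k i ∈ O) (hn : ∀ x, 0 ≤ nu x)
    (hadd : ∀ x ∈ O, ∀ y ∈ O, nu (x + y) ≤ nu x + nu y)
    (hmul : ∀ x ∈ O, ∀ y ∈ O, nu (x * y) ≤ nu x * nu y) (hnB : ∀ k i, nu (B k i) ≤ β)
    (hn1 : nu 1 ≤ β) (h0 : nu 0 = 0) (s : (Fin m × Fin N) →₀ ℕ) :
    (∀ e, coeff e (linR B (monomial s (1 : ℝ))) ∈ O) ∧
      (∀ e, nu (coeff e (linR B (monomial s (1 : ℝ)))) ≤ β * (N * β) ^ (∑ hk, s hk)) ∧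
      ∀ e ∈ (linR B (monomial s (1 : ℝ))).support, ∀ h, ∑ k, e (h, k) = ∑ k, s (h, k) := by
  classical
  have hl : ∀ hk : Fin m × Fin N, InO O (∑ i, C (B hk.2 i) * X (hk.1, i) :
      MvPolynomial (Fin m × Fin N) ℝ) := by
    intro hk
    refine InO_sum _ _ fun i _ => ?_
    rw [C_mul_X_eq_monomial]
    exact InO_monomial _ _ (hB _ _)
  have hNl : ∀ hk : Fin m × Fin N, NN nu (∑ i, C (B hk.2 i) * X (hk.1, i) :
      MvPolynomial (Fin m × Fin N) ℝ) ≤ N * β := by
    intro hk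
    refine (NN_sum h0 hadd Finset.univ _ (fun i _ => ?_)).trans ?_
    · rw [C_mul_X_eq_monomial]
      exact InO_monomial _ _ (hB _ _)
    · have h1 : ∀ i ∈ (Finset.univ : Finset (Fin N)),
          NN nu (C (B hk.2 i) * X (hk.1, i) : MvPolynomial (Fin m × Fin N) ℝ) ≤ β := by
        intro i _
        rw [C_mul_X_eq_monomial, NN_monomial h0]
        exact hnB _ _
      refine (Finset.sum_le_sum h1).trans ?_
      rw [Finset.sum_const, Finset.card_univ, Fintype.card_fin, nsmul_eq_mul]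
  have hNβ : 0 ≤ (N : ℝ) * β := mul_nonneg (Nat.cast_nonneg _) (by linarith)
  have hpow : ∀ (hk : Fin m × Fin N) (n : ℕ) (P : MvPolynomial (Fin m × Fin N) ℝ), InO O P →
      InO O ((∑ i, C (B hk.2 i) * X (hk.1, i)) ^ n * P) ∧
      NN nu ((∑ i, C (B hk.2 i) * X (hk.1, i)) ^ n * P) ≤ (N * β) ^ n * NN nu P := by
    intro hk n P hP
    induction n with
    | zero => simp [hP]
    | succ n ih =>
      rw [pow_succ', mul_assoc]
      refine ⟨InO_mul _ _ (hl hk) ih.1, ?_⟩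
      refine (NN_mul h0 hadd hmul _ _ (hl hk) ih.1).trans ?_
      rw [pow_succ', mul_assoc]
      exact mul_le_mul (hNl hk) ih.2 (NN_nonneg hn _) hNβ
  have hprod : ∀ T : Finset (Fin m × Fin N),
      InO O (∏ hk ∈ T, (∑ i, C (B hk.2 i) * X (hk.1, i) : MvPolynomial (Fin m × Fin N) ℝ) ^ s hk) ∧
      NN nu (∏ hk ∈ T, (∑ i, C (B hk.2 i) * X (hk.1, i) : MvPolynomial (Fin m × Fin N) ℝ) ^ s hk) ≤
        β * (N * β) ^ (∑ hk ∈ T, s hk) := by
    intro T
    induction T using Finset.induction_on with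
    | empty =>
      simp only [Finset.prod_empty, Finset.sum_empty, pow_zero, mul_one]
      constructor
      · have h1 : (1 : MvPolynomial (Fin m × Fin N) ℝ) = monomial 0 1 := rfl
        rw [h1]
        exact InO_monomial _ _ O.one_mem
      · have h1 : (1 : MvPolynomial (Fin m × Fin N) ℝ) = monomial 0 1 := rfl
        rw [h1, NN_monomial h0]
        exact hn1
    | insert a T ha ih =>
      rw [Finset.prod_insert ha, Finset.sum_insert ha]
      have h1 := hpow a (s a) _ ih.1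
      refine ⟨h1.1, h1.2.trans ?_⟩
      rw [pow_add]
      have h2 := mul_le_mul_of_nonneg_left ih.2 (pow_nonneg hNβ (s a))
      refine h2.trans (le_of_eq (by ring))
  have hsum : ∑ hk ∈ s.support, s hk = ∑ hk, s hk := by
    refine Finset.sum_subset (Finset.subset_univ _) fun x _ hx => ?_
    exact Finsupp.notMem_support_iff.1 hx
  have hP := hprod s.support
  rw [← linR_monomial, hsum] at hP
  refine ⟨hP.1, fun e => (nu_le_NN hn h0 _ e).trans hP.2, ?_⟩
  intro e he h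
  have hh : IsWeightedHomogeneous ww (linR B (monomial s (1 : ℝ)))
      (∑ hk ∈ s.support, s hk • ww hk) := by
    rw [linR_monomial]
    apply IsWeightedHomogeneous.prod
    intro hk _
    apply IsWeightedHomogeneous.pow
    apply IsWeightedHomogeneous.sum
    intro i _
    apply IsWeightedHomogeneous.C_mul
    exact isWeightedHomogeneous_X ℝ ww (hk.1, i)
  have h1 := hh (mem_support_iff.1 he)
  have h2 : Finsupp.weight ww s = ∑ hk ∈ s.support, s hk • ww hk := by
    rw [Finsupp.weight_apply]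
    rfl
  rw [← h2] at h1
  have h3 := congrFun h1 h
  rw [weight_apply, weight_apply] at h3
  exact h3

end KLN_

theorem kln_proof : Stmt_KLN := KLN_.kln_main

end Pool.Agent.SBT
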