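import Pool.Agent.SBT.StmtsK
import Pool.Agent.SBT.APX

/-!
# KPO: sums of units are polynomials in independent units
-/

set_option autoImplicit false

namespace Pool.Agent.SBT

open Filter

namespace KPO_

open APX_

theorem ev_sum {r : ℕ} (g : Fin r → ℕ → ℚ) (n : ℕ) {ι : Type*} (s : Finset ι)
    (P : ι → MvPolynomial (Fin r) ℚ) : ev g n (∑ i ∈ s, P i) = ∑ i ∈ s, ev g n (P i) := by
  unfold ev
  exact map_sum _ _ _

/-- the inverse of a unit which is small at all places -/
theorem av_inv_le' {S : Finset ℕ} (hS : PS S) {w : ℚ} (hw : IsU S w) {N : ℝ}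
    (h : ∀ v ∈ pl S, av v w ≤ N) {p : ℕ} (hpp : p ∈ pl S) : (av p w)⁻¹ ≤ N ^ S.card := by
  have h1 := hw.2
  rw [← Finset.mul_prod_erase _ _ hpp] at h1
  have h3 : (av p w)⁻¹ = ∏ v ∈ (pl S).erase p, av v w := (eq_inv_of_mul_eq_one_right h1).symm
  rw [h3]
  have h4 : ((pl S).erase p).card = S.card := by
    rw [Finset.card_erase_of_mem hpp]
    unfold pl
    rw [Finset.card_insert_of_notMem (zero_notMem hS)]
    omega
  calc ∏ v ∈ (pl S).erase p, av v w ≤ ∏ _v ∈ (pl S).erase p, N :=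
        Finset.prod_le_prod (fun v _ => av_nonneg v w)
          fun v hv => h v (Finset.mem_of_mem_erase hv)
    _ = N ^ S.card := by rw [Finset.prod_const, h4]

theorem av_zpow_le {S : Finset ℕ} (hS : PS S) {w : ℚ} (hw : IsU S w) {t : ℝ} (ht : 0 ≤ t)
    (h : ∀ v ∈ pl S, av v w ≤ Real.exp t) {v : ℕ} (hv : v ∈ pl S) (e : ℤ) :
    av v (w ^ e) ≤ Real.exp ((e.natAbs : ℝ) * ((S.card + 1) * t)) := by
  have h1 : av v w ≤ Real.exp ((S.card + 1) * t) := by
    refine (h v hv).trans (Real.exp_le_exp.2 ?_)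
    have : 0 ≤ (S.card : ℝ) * t := by positivity
    linarith
  have h2 : (av v w)⁻¹ ≤ Real.exp ((S.card + 1) * t) := by
    refine (av_inv_le' hS hw h hv).trans ?_
    rw [← Real.exp_nat_mul]
    apply Real.exp_le_exp.2
    linarith
  rw [av_zpow (place_of_mem hS hv), Real.exp_nat_mul]
  rcases Int.natAbs_eq e with he | he
  · rw [he, zpow_natCast, Int.natAbs_natCast]
    exact pow_le_pow_left₀ (av_nonneg _ _) h1 _
  · rw [he, zpow_neg, zpow_natCast, Int.natAbs_neg, Int.natAbs_natCast, ← inv_pow]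
    exact pow_le_pow_left₀ (inv_nonneg.2 (av_nonneg _ _)) h2 _

end KPO_

open KPO_ APX_

theorem kpo_proof (hBAS : Stmt_BAS) : Stmt_KPO := by
  intro U S T J _ f hS hT hf
  choose N c u C hu1 hu2 hu3 using hf
  let ι := Σ j : J, Fin (N j)
  let eqv := Fintype.equivFin ι
  obtain ⟨r, g, hg1, hg2, hg3⟩ := hBAS U (Fintype.card ι)
    (fun q n => u (eqv.symm q).1 (eqv.symm q).2 n) (fun q n => (hu1 _ _ n).pos)
  have hg3' : ∀ x : ι, ∃ (κ : ℚ) (e : Fin r → ℤ), 0 < κ ∧
      ∀ᶠ n in (U : Filter ℕ), u x.1 x.2 n = κ * ∏ i, g i n ^ e i := by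
    intro x
    have h := hg3 (eqv x)
    have hx : eqv.symm (eqv x) = x := Equiv.symm_apply_apply _ _
    rw [hx] at h
    exact h
  have hGd : Gd U S T g := by
    refine ⟨hS, hT, ?_, hg2, ?_⟩
    · intro i n
      obtain ⟨e, he⟩ := hg1 i
      rw [he n]
      exact isU_prod hS _ _ fun q _ => (hu1 _ _ n).zpow hS _
    · choose e he using hg1
      refine ⟨∑ i, ∑ q, ((e i q).natAbs : ℝ) * ((S.card + 1) * |C (eqv.symm q).1|), ?_⟩
      have hall : ∀ᶠ n in (U : Filter ℕ), ∀ j : J, ∀ t, ∀ v ∈ pl S,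
          av v (u j t n) ≤ Real.exp (C j * T n) := by
        rw [eventually_all]
        exact hu2
      filter_upwards [hall, ev_pos hT] with n hn hTn i v hv
      have hv' := place_of_mem hS hv
      rw [he i n, av_prod hv']
      have h1 : ∏ q, av v (u (eqv.symm q).1 (eqv.symm q).2 n ^ e i q) ≤
          ∏ q, Real.exp (((e i q).natAbs : ℝ) * ((S.card + 1) *
            (|C (eqv.symm q).1| * T n))) := by
        refine Finset.prod_le_prod (fun q _ => av_nonneg _ _) fun q _ => ?_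
        refine av_zpow_le hS (hu1 _ _ n) (by positivity) ?_ hv _
        intro v' hv''
        refine (hn _ _ v' hv'').trans (Real.exp_le_exp.2 ?_)
        exact mul_le_mul_of_nonneg_right (le_abs_self _) hTn.le
      refine h1.trans ?_
      rw [← Real.exp_sum]
      apply Real.exp_le_exp.2
      have h2 : ∑ q, ((e i q).natAbs : ℝ) * ((S.card + 1) * (|C (eqv.symm q).1| * T n)) =
          (∑ q, ((e i q).natAbs : ℝ) * ((S.card + 1) * |C (eqv.symm q).1|)) * T n := by
        rw [Finset.sum_mul]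
        exact Finset.sum_congr rfl fun q _ => by ring
      rw [h2]
      apply mul_le_mul_of_nonneg_right _ hTn.le
      exact Finset.single_le_sum
        (f := fun i => ∑ q, ((e i q).natAbs : ℝ) * ((S.card + 1) * |C (eqv.symm q).1|))
        (fun i _ => Finset.sum_nonneg fun q _ => by positivity) (Finset.mem_univ i)
  choose κ e hκ he using hg3'
  let μ : Fin r →₀ ℕ := Finsupp.equivFunOnFinite.symm fun i => ∑ x : ι, (e x i).natAbs
  let E : ι → (Fin r →₀ ℕ) := fun x =>
    Finsupp.equivFunOnFinite.symm fun i => (e x i + (μ i : ℤ)).toNat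
  have hE : ∀ (x : ι) i, (E x i : ℤ) = e x i + μ i := by
    intro x i
    have h1 : (e x i).natAbs ≤ μ i := by
      change (e x i).natAbs ≤ ∑ x : ι, (e x i).natAbs
      exact Finset.single_le_sum (f := fun x => (e x i).natAbs) (fun _ _ => Nat.zero_le _)
        (Finset.mem_univ x)
    change (((e x i + (μ i : ℤ)).toNat : ℕ) : ℤ) = e x i + μ i
    omega
  have hg0 : ∀ i n, g i n ≠ 0 := fun i n => (hGd.unit i n).ne_zero
  refine ⟨r, g, μ, fun j => ∑ t, MvPolynomial.monomial (E ⟨j, t⟩) (c j t * κ ⟨j, t⟩), hGd, ?_⟩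
  intro j
  have hall : ∀ᶠ n in (U : Filter ℕ), ∀ t : Fin (N j),
      u j t n = κ ⟨j, t⟩ * ∏ i, g i n ^ e ⟨j, t⟩ i := by
    rw [eventually_all]
    exact fun t => he ⟨j, t⟩
  filter_upwards [hall, hu3 j] with n h1 h2
  rw [ev_sum, h2, Finset.mul_sum]
  refine Finset.sum_congr rfl fun t _ => ?_
  rw [ev_monomial, ← mon_zpow hg0 (hE ⟨j, t⟩) n, h1 t]
  ring

end Pool.Agent.SBT
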