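import Pool.Agent.SBT.StmtsK

set_option autoImplicit false

namespace Pool.Agent.SBT

open Filter

theorem krg_proof (hKAP : Stmt_KAP) : Stmt_KRG := by
  classical
  intro F G hF hG x hx
  have hT : ∀ U : Ultrafilter ℕ, (U : Filter ℕ) ≤ F →
      Tendsto (fun n : ℕ => (n : ℝ)) (U : Filter ℕ) atTop := fun U hU =>
    tendsto_natCast_atTop_atTop.mono_left (hU.trans hF)
  induction hx using Algebra.adjoin_induction with
  | mem x hx => exact hG x hx
  | algebraMap r =>
    refine ⟨1, 0, le_refl _, fun U Λ hU => ?_⟩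
    have h := (hKAP U (fun n => (n : ℝ)) (hT U hU)).2.1 0 Λ r (le_refl _)
    rw [eq_ratCast]
    exact h
  | add x y _ _ h1 h2 =>
    obtain ⟨s, B, hB, h1⟩ := h1
    obtain ⟨s', B', hB', h2⟩ := h2
    exact ⟨s + s', B + B' + 1, by linarith, fun U Λ hU =>
      (hKAP U (fun n => (n : ℝ)) (hT U hU)).2.2.1 s s' B B' Λ x y hB hB' (h1 U Λ hU) (h2 U Λ hU)⟩
  | mul x y _ _ h1 h2 =>
    obtain ⟨s, B, hB, h1⟩ := h1
    obtain ⟨s', B', hB', h2⟩ := h2
    refine ⟨s * s', B + B' + 1, by linarith, fun U Λ hU => ?_⟩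
    have hK := hKAP U (fun n => (n : ℝ)) (hT U hU)
    have h3 := hK.2.2.2 s s' B B' (max Λ (max B B')) x y hB hB'
      ((le_max_left _ _).trans (le_max_right _ _)) ((le_max_right _ _).trans (le_max_right _ _))
      (h1 U _ hU) (h2 U _ hU)
    exact hK.1 (s * s') (s * s') (B + B' + 1) (B + B' + 1) (max Λ (max B B')) Λ (x * y)
      (le_refl _) (le_refl _) (le_max_left _ _) h3

end Pool.Agent.SBT
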