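import Pool.Agent.SBT.StmtsK

/-!
# Squad SBT, module KRP: coordinates for a real number field
-/

set_option autoImplicit false

namespace Pool.Agent.SBT

namespace KRP_

section

variable (K : IntermediateField ℚ ℝ) [FiniteDimensional ℚ K]

/-- the regular representation -/
noncomputable def rho : K →ₐ[ℚ] Matrix (Fin (Module.finrank ℚ K)) (Fin (Module.finrank ℚ K)) ℚ :=
  Algebra.leftMulMatrix (Module.finBasis ℚ K)

theorem rho_inj : Function.Injective (rho K) := Algebra.leftMulMatrix_injective _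

open Classical in
/-- the matrix of a real number of the field (zero outside) -/
noncomputable def Rm (x : ℝ) : Matrix (Fin (Module.finrank ℚ K)) (Fin (Module.finrank ℚ K)) ℚ :=
  if h : x ∈ K then rho K ⟨x, h⟩ else 0

theorem Rm_coe (y : K) : Rm K (y : ℝ) = rho K y := by
  unfold Rm
  rw [dif_pos y.2]

theorem Rm_zero : Rm K 0 = 0 := by
  have h := Rm_coe K (0 : K)
  rw [map_zero] at h
  exact h

theorem Rm_add {x y : ℝ} (hx : x ∈ K) (hy : y ∈ K) : Rm K (x + y) = Rm K x + Rm K y := by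
  have h := Rm_coe K (⟨x, hx⟩ + ⟨y, hy⟩ : K)
  rw [map_add, ← Rm_coe, ← Rm_coe] at h
  exact h

theorem Rm_mul {x y : ℝ} (hx : x ∈ K) (hy : y ∈ K) : Rm K (x * y) = Rm K x * Rm K y := by
  have h := Rm_coe K (⟨x, hx⟩ * ⟨y, hy⟩ : K)
  rw [map_mul, ← Rm_coe, ← Rm_coe] at h
  exact h

theorem Rm_nat_mul (q : ℕ) {x : ℝ} (hx : x ∈ K) (a b) : Rm K ((q : ℝ) * x) a b =
    (q : ℚ) * Rm K x a b := by
  have h := Rm_coe K (q • (⟨x, hx⟩ : K))
  rw [map_nsmul, ← Rm_coe] at h
  have h2 := congrFun (congrFun h a) b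
  have h3 : ((q • (⟨x, hx⟩ : K) : K) : ℝ) = (q : ℝ) * x := by
    rw [← nsmul_eq_mul]
    rfl
  rw [Matrix.smul_apply, h3, nsmul_eq_mul] at h2
  exact h2

/-- the order of the elements with integral matrix -/
noncomputable def Od : Subring ℝ :=
  (((Int.castRingHom ℚ).mapMatrix (m := Fin (Module.finrank ℚ K))).range.comap
    (rho K : K →+* Matrix (Fin (Module.finrank ℚ K)) (Fin (Module.finrank ℚ K)) ℚ)).map
    (algebraMap K ℝ)

theorem mem_Od (x : ℝ) : x ∈ Od K ↔ x ∈ K ∧ ∀ a b, ∃ z : ℤ, Rm K x a b = z := by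
  unfold Od
  constructor
  · intro h
    obtain ⟨y, hy, rfl⟩ := Subring.mem_map.mp h
    obtain ⟨M, hM⟩ := RingHom.mem_range.mp (Subring.mem_comap.mp hy)
    refine ⟨y.2, fun a b => ⟨M a b, ?_⟩⟩
    have h1 := congrFun (congrFun hM a) b
    have h2 : Rm K (algebraMap K ℝ y) = rho K y := Rm_coe K y
    rw [h2]
    exact h1.symm
  · rintro ⟨hx, h⟩
    choose z hz using h
    refine Subring.mem_map.mpr ⟨⟨x, hx⟩, ?_, rfl⟩
    refine Subring.mem_comap.mpr (RingHom.mem_range.mpr ⟨Matrix.of z, ?_⟩)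
    ext a b
    have h2 := Rm_coe K ⟨x, hx⟩
    have h3 := hz a b
    have h4 : Rm K x = rho K ⟨x, hx⟩ := h2
    rw [h4] at h3
    exact h3.symm

/-- the coordinates -/
noncomputable def ph (j : Fin (Module.finrank ℚ K) × Fin (Module.finrank ℚ K)) (x : ℝ) : ℝ :=
  ((Rm K x j.1 j.2 : ℚ) : ℝ)

/-- the norm -/
noncomputable def nv (x : ℝ) : ℝ := ∑ a, ∑ b, |ph K (a, b) x|

theorem nv_nonneg (x : ℝ) : 0 ≤ nv K x :=
  Finset.sum_nonneg fun _ _ => Finset.sum_nonneg fun _ _ => abs_nonneg _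

theorem ph_le (x : ℝ) (j) : |ph K j x| ≤ nv K x := by
  have h1 : |ph K (j.1, j.2) x| ≤ ∑ b, |ph K (j.1, b) x| :=
    Finset.single_le_sum (f := fun b => |ph K (j.1, b) x|) (fun _ _ => abs_nonneg _)
      (Finset.mem_univ j.2)
  have h2 : ∑ b, |ph K (j.1, b) x| ≤ nv K x :=
    Finset.single_le_sum (f := fun a => ∑ b, |ph K (a, b) x|)
      (fun _ _ => Finset.sum_nonneg fun _ _ => abs_nonneg _) (Finset.mem_univ j.1)
  exact h1.trans h2

theorem ph_add {x y : ℝ} (hx : x ∈ K) (hy : y ∈ K) (j) : ph K j (x + y) = ph K j x + ph K j y := by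
  unfold ph
  rw [Rm_add K hx hy, Matrix.add_apply]
  push_cast
  rfl

theorem nv_add {x y : ℝ} (hx : x ∈ K) (hy : y ∈ K) : nv K (x + y) ≤ nv K x + nv K y := by
  unfold nv
  rw [← Finset.sum_add_distrib]
  refine Finset.sum_le_sum fun a _ => ?_
  rw [← Finset.sum_add_distrib]
  refine Finset.sum_le_sum fun b _ => ?_
  rw [ph_add K hx hy]
  exact abs_add_le _ _

theorem ph_mul {x y : ℝ} (hx : x ∈ K) (hy : y ∈ K) (a c) :
    ph K (a, c) (x * y) = ∑ b, ph K (a, b) x * ph K (b, c) y := by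
  unfold ph
  rw [Rm_mul K hx hy, Matrix.mul_apply]
  push_cast
  rfl

theorem nv_mul {x y : ℝ} (hx : x ∈ K) (hy : y ∈ K) : nv K (x * y) ≤ nv K x * nv K y := by
  have h1 : ∀ a, ∑ c, |ph K (a, c) (x * y)| ≤ ∑ b, |ph K (a, b) x| * nv K y := by
    intro a
    have h2 : ∀ c, |ph K (a, c) (x * y)| ≤ ∑ b, |ph K (a, b) x| * |ph K (b, c) y| := by
      intro c
      rw [ph_mul K hx hy]
      refine (Finset.abs_sum_le_sum_abs _ _).trans_eq ?_
      exact Finset.sum_congr rfl fun b _ => abs_mul _ _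
    refine (Finset.sum_le_sum fun c _ => h2 c).trans ?_
    rw [Finset.sum_comm]
    refine Finset.sum_le_sum fun b _ => ?_
    rw [← Finset.mul_sum]
    refine mul_le_mul_of_nonneg_left ?_ (abs_nonneg _)
    exact Finset.single_le_sum (f := fun b => ∑ c, |ph K (b, c) y|)
      (fun _ _ => Finset.sum_nonneg fun _ _ => abs_nonneg _) (Finset.mem_univ b)
  have h3 : nv K x * nv K y = ∑ a, ∑ b, |ph K (a, b) x| * nv K y := by
    unfold nv
    rw [Finset.sum_mul]
    exact Finset.sum_congr rfl fun a _ => Finset.sum_mul _ _ _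
  rw [h3]
  exact Finset.sum_le_sum fun a _ => h1 a

theorem int_of_dvd (q : ℕ) (r : ℚ) (h : r.den ∣ q) : ∃ z : ℤ, (q : ℚ) * r = z := by
  obtain ⟨m, rfl⟩ := h
  refine ⟨(m : ℤ) * r.num, ?_⟩
  push_cast
  have h1 : (r.den : ℚ) * r = r.num := by
    rw [mul_comm]
    exact Rat.mul_den_eq_num r
  calc (r.den : ℚ) * m * r = m * ((r.den : ℚ) * r) := by ring
    _ = m * r.num := by rw [h1]

end

end KRP_

open KRP_ in
theorem krp_proof : Stmt_KRP := by
  intro K _ F hF
  set q : ℕ := ∏ x ∈ F, ∏ a, ∏ b, (Rm K x a b).den with hq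
  refine ⟨Fin (Module.finrank ℚ K) × Fin (Module.finrank ℚ K), inferInstance, q, ph K, nv K, Od K,
    ?_, ?_, ?_, ?_, ?_, ?_, nv_nonneg K, ?_, ?_, ?_, ?_⟩
  · refine Nat.one_le_iff_ne_zero.mpr ?_
    refine Finset.prod_ne_zero_iff.mpr fun x _ => ?_
    refine Finset.prod_ne_zero_iff.mpr fun a _ => ?_
    exact Finset.prod_ne_zero_iff.mpr fun b _ => (Rm K x a b).den_ne_zero
  · intro x hx
    rw [mem_Od]
    refine ⟨K.mul_mem (natCast_mem K q) (hF x hx), fun a b => ?_⟩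
    rw [Rm_nat_mul K q (hF x hx)]
    refine int_of_dvd q _ ?_
    have h1 : (Rm K x a b).den ∣ ∏ b, (Rm K x a b).den :=
      Finset.dvd_prod_of_mem (fun b => (Rm K x a b).den) (Finset.mem_univ b)
    have h2 : ∏ b, (Rm K x a b).den ∣ ∏ a, ∏ b, (Rm K x a b).den :=
      Finset.dvd_prod_of_mem (fun a => ∏ b, (Rm K x a b).den) (Finset.mem_univ a)
    have h3 : ∏ a, ∏ b, (Rm K x a b).den ∣ q :=
      Finset.dvd_prod_of_mem (fun x => ∏ a, ∏ b, (Rm K x a b).den) hx
    exact (h1.trans h2).trans h3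
  · intro x hx
    exact ((mem_Od K x).mp hx).1
  · intro x hx h
    have hxK := ((mem_Od K x).mp hx).1
    have h1 : rho K ⟨x, hxK⟩ = rho K 0 := by
      rw [map_zero, ← Rm_coe]
      ext a b
      have h2 := h (a, b)
      unfold ph at h2
      exact_mod_cast h2
    have h3 := rho_inj K h1
    exact congrArg Subtype.val h3
  · intro x hx j
    obtain ⟨z, hz⟩ := ((mem_Od K x).mp hx).2 j.1 j.2
    refine ⟨z, ?_⟩
    unfold ph
    rw [hz]
    push_cast
    rfl
  · intro x hx y hy j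
    exact ph_add K ((mem_Od K x).mp hx).1 ((mem_Od K y).mp hy).1 j
  · unfold nv
    refine Finset.sum_eq_zero fun a _ => Finset.sum_eq_zero fun b _ => ?_
    unfold ph
    rw [Rm_zero]
    simp
  · intro x _ j
    exact ph_le K x j
  · intro x hx y hy
    exact nv_add K ((mem_Od K x).mp hx).1 ((mem_Od K y).mp hy).1
  · intro x hx y hy
    exact nv_mul K ((mem_Od K x).mp hx).1 ((mem_Od K y).mp hy).1

end Pool.Agent.SBT
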