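import Pool.Agent.SBT.StmtsBC
import Pool.Agent.SBT.StmtsD
import Pool.Agent.SBT.StmtsG

/-!
# Squad SBT, section K: real algebraic forms at the infinite place, linear complexity and
algebraic numbers (MP_175f55_nt).  Recipes: /team-store/MP_175f55_SBT_K.md
-/

set_option autoImplicit false

namespace Pool.Agent.SBT

open Filter

/-! ## Definitions -/

/-- all entries of the real matrix `A` are in the field `K` -/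
def Ent (K : IntermediateField ℚ ℝ) {N : ℕ} (A : Matrix (Fin N) (Fin N) ℝ) : Prop :=
  ∀ i k, A i k ∈ K

/-- absolute value at the place `v` of the value at the integer vector `x` of the `i`-th form: a
real matrix `A` at the infinite place, the integer matrix `L p` at the prime `p` -/
noncomputable def vl {N : ℕ} (A : Matrix (Fin N) (Fin N) ℝ) (L : ℕ → Matrix (Fin N) (Fin N) ℤ)
    (v : ℕ) (x : Fin N → ℤ) (i : Fin N) : ℝ :=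
  if v = 0 then |∑ k, A i k * (x k : ℝ)| else av v (fv (L v) x i : ℚ)

/-- the real version of `lin` -/
noncomputable def linR {m N : ℕ} (A : Matrix (Fin N) (Fin N) ℝ)
    (P : MvPolynomial (Fin m × Fin N) ℝ) : MvPolynomial (Fin m × Fin N) ℝ :=
  MvPolynomial.bind₁ (fun hk : Fin m × Fin N =>
    ∑ i, MvPolynomial.C (A hk.2 i) * MvPolynomial.X (hk.1, i)) P

/-- an integer polynomial with real coefficients -/
noncomputable def toR {σ : Type} (P : MvPolynomial σ ℤ) : MvPolynomial σ ℝ :=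
  MvPolynomial.map (Int.castRingHom ℝ) P

/-- the real version of `cmb` -/
noncomputable def cmbR {m M : ℕ} (γ : Fin m → Fin M → Fin (M + 1) → ℝ)
    (a : Fin m → Fin (M + 1) → ℝ) (hi : Fin m × Fin (M + 1)) :
    MvPolynomial ((Fin m × Fin M) ⊕ Fin m) ℝ :=
  (∑ j, MvPolynomial.C (γ hi.1 j hi.2) * MvPolynomial.X (Sum.inl (hi.1, j))) +
    MvPolynomial.C (a hi.1 hi.2) * MvPolynomial.X (Sum.inr hi.1)

/-- the value of a real polynomial -/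
noncomputable def evR {r : ℕ} (g : Fin r → ℕ → ℚ) (n : ℕ) (H : MvPolynomial (Fin r) ℝ) : ℝ :=
  MvPolynomial.eval (fun i => ((g i n : ℚ) : ℝ)) H

/-- sums of boundedly many rational multiples of `S`-units of height `exp (O(T))` -/
def USm (U : Ultrafilter ℕ) (S : Finset ℕ) (T : ℕ → ℝ) (f : ℕ → ℚ) : Prop :=
  ∃ (N : ℕ) (c : Fin N → ℚ) (u : Fin N → ℕ → ℚ) (C : ℝ), (∀ t n, IsU S (u t n)) ∧
    (∀ᶠ n in (U : Filter ℕ), ∀ t, ∀ v ∈ pl S, av v (u t n) ≤ Real.exp (C * T n)) ∧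
    ∀ᶠ n in (U : Filter ℕ), f n = ∑ t, c t * u t n

/-- `x` is described up to `exp ((B - Λ) T)` by `s` integers of size `exp (B T)` with sums of
units as coefficients -/
def Apr (U : Ultrafilter ℕ) (T : ℕ → ℝ) (s : ℕ) (B Λ : ℝ) (x : ℝ) : Prop :=
  ∃ (S : Finset ℕ) (D : ℕ → ℚ) (F : Fin s → ℕ → ℚ) (y : Fin s → ℕ → ℤ), PS S ∧
    USm U S T D ∧ (∀ i, USm U S T (F i)) ∧ (∀ᶠ n in (U : Filter ℕ), D n ≠ 0) ∧
    (∀ᶠ n in (U : Filter ℕ), ∀ i, |(y i n : ℝ)| ≤ Real.exp (B * T n)) ∧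
    ∀ᶠ n in (U : Filter ℕ),
      |x - (((∑ i, F i n * (y i n : ℚ)) / D n : ℚ) : ℝ)| ≤ Real.exp ((B - Λ) * T n)

/-- `x` is described for all `Λ` along the ultrafilters finer than `F`, with `T n = n` -/
def Des (F : Filter ℕ) (x : ℝ) : Prop :=
  ∃ (s : ℕ) (B : ℝ), 0 ≤ B ∧ ∀ (U : Ultrafilter ℕ) (Λ : ℝ), (U : Filter ℕ) ≤ F →
    Apr U (fun n => (n : ℝ)) s B Λ x

/-- the number of different words of length `n` in the expansion of `x` in base `b` (digits after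
the point) -/
noncomputable def cpl (b : ℕ) (x : ℝ) (n : ℕ) : ℕ :=
  Set.ncard {w : Fin n → ℤ | ∃ i : ℕ, ∀ j : Fin n, w j = dig b x (i + 1 + j)}

/-! ## K1. The auxiliary polynomial -/

/-- KRP: coordinates for a real number field. Uses nothing. -/
def Stmt_KRP : Prop :=
  ∀ (K : IntermediateField ℚ ℝ) [FiniteDimensional ℚ K] (F : Finset ℝ), (∀ x ∈ F, x ∈ K) →
    ∃ (J : Type) (_ : Fintype J) (q : ℕ) (φ : J → ℝ → ℝ) (nu : ℝ → ℝ) (O : Subring ℝ),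
      1 ≤ q ∧ (∀ x ∈ F, (q : ℝ) * x ∈ O) ∧ (∀ x ∈ O, x ∈ K) ∧
      (∀ x ∈ O, (∀ j, φ j x = 0) → x = 0) ∧
      (∀ x ∈ O, ∀ j, ∃ z : ℤ, φ j x = z) ∧
      (∀ x ∈ O, ∀ y ∈ O, ∀ j, φ j (x + y) = φ j x + φ j y) ∧
      (∀ x, 0 ≤ nu x) ∧ nu 0 = 0 ∧ (∀ x ∈ O, ∀ j, |φ j x| ≤ nu x) ∧
      (∀ x ∈ O, ∀ y ∈ O, nu (x + y) ≤ nu x + nu y) ∧ ∀ x ∈ O, ∀ y ∈ O, nu (x * y) ≤ nu x * nu y

/-- KLN: `linR` of a monomial. Uses nothing. -/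
def Stmt_KLN : Prop :=
  ∀ (m N : ℕ) (B : Matrix (Fin N) (Fin N) ℝ) (O : Subring ℝ) (nu : ℝ → ℝ) (β : ℝ), 1 ≤ β →
    (∀ k i, B k i ∈ O) → (∀ x, 0 ≤ nu x) → (∀ x ∈ O, ∀ y ∈ O, nu (x + y) ≤ nu x + nu y) →
    (∀ x ∈ O, ∀ y ∈ O, nu (x * y) ≤ nu x * nu y) → (∀ k i, nu (B k i) ≤ β) → nu 1 ≤ β →
    nu 0 = 0 → ∀ s : (Fin m × Fin N) →₀ ℕ,
      (∀ e, MvPolynomial.coeff e (linR B (MvPolynomial.monomial s (1 : ℝ))) ∈ O) ∧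
      (∀ e, nu (MvPolynomial.coeff e (linR B (MvPolynomial.monomial s (1 : ℝ)))) ≤
        β * (N * β) ^ (∑ hk, s hk)) ∧
      ∀ e ∈ (linR B (MvPolynomial.monomial s (1 : ℝ))).support, ∀ h,
        ∑ k, e (h, k) = ∑ k, s (h, k)

/-- KAUX: the auxiliary polynomial. Uses CHB, LNB, KRP, KLN. -/
def Stmt_KAUX : Prop :=
  ∀ (K : IntermediateField ℚ ℝ) [FiniteDimensional ℚ K] (N : ℕ) (S : Finset ℕ)
    (A : Matrix (Fin N) (Fin N) ℝ) (L : ℕ → Matrix (Fin N) (Fin N) ℤ), 1 ≤ N → PS S → Ent K A →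
    ∃ C : ℝ, 1 ≤ C ∧ ∀ ε : ℝ, 0 < ε → ∃ m₀ : ℕ, ∀ m : ℕ, m₀ ≤ m → ∀ d : Fin m → ℕ,
      (∀ h, 1 ≤ d h) → ∃ P : MvPolynomial (Fin m × Fin N) ℤ, P ≠ 0 ∧ MH d P ∧
        HB P (C ^ (∑ h, d h)) ∧
        (∀ j ∈ (linR A.adjugate (toR P)).support, Good d ε j) ∧
        ∀ p ∈ S, ∀ j ∈ (lin (L p).adjugate P).support, Good d ε j

/-! ## K2. Small coefficients -/

/-- KSI: an identity. Uses nothing. -/
def Stmt_KSI : Prop :=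
  ∀ (m M : ℕ) (A : Matrix (Fin (M + 1)) (Fin (M + 1)) ℝ) (d : Fin m → ℕ)
    (g : Fin m → Fin M → Fin (M + 1) → ℤ) (k : Fin m → Fin (M + 1))
    (P : MvPolynomial (Fin m × Fin (M + 1)) ℤ), MH d P →
    MvPolynomial.C (A.det ^ (∑ h, d h)) * toR (phi g k P) =
      MvPolynomial.bind₁ (cmbR (fun h j i => ∑ l, A i l * (g h j l : ℝ)) (fun h i => A i (k h)))
        (linR A.adjugate (toR P))

/-- KSB: the coefficients of a product of real linear forms. Uses nothing. -/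
def Stmt_KSB : Prop :=
  ∀ (m M : ℕ) (K : ℝ) (γ : Fin m → Fin M → Fin (M + 1) → ℝ) (a : Fin m → Fin (M + 1) → ℝ)
    (T : Fin m → ℝ) (b : Fin (M + 1) → ℝ) (β : ℝ), 1 ≤ K →
    (∀ h, 0 ≤ T h) → (∀ i, |b i| ≤ β) → (∀ h i, |a h i| ≤ K) →
    (∀ h j i, |γ h j i| ≤ Real.exp (b i * T h)) →
    ∀ (s : (Fin m × Fin (M + 1)) →₀ ℕ) (e : ((Fin m × Fin M) ⊕ Fin m) →₀ ℕ),
      |MvPolynomial.coeff e (MvPolynomial.bind₁ (cmbR γ a) (MvPolynomial.monomial s (1 : ℝ)))| ≤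
      ((M + 1) * K) ^ (∑ hi, s hi) *
        Real.exp (∑ h, ∑ i, (s (h, i) : ℝ) * (b i * T h) +
          β * ∑ h, (e (Sum.inr h) : ℝ) * T h)

/-- KSM: the coefficients of `phi g k P` at the infinite place. Uses KSI, KSB. -/
def Stmt_KSM : Prop :=
  ∀ (M : ℕ) (A : Matrix (Fin (M + 1)) (Fin (M + 1)) ℝ), A.det ≠ 0 →
    ∃ K : ℝ, 1 ≤ K ∧ ∀ (m : ℕ) (d : Fin m → ℕ) (T : Fin m → ℝ) (b : Fin (M + 1) → ℝ)
      (β C₁ E : ℝ) (g : Fin m → Fin M → Fin (M + 1) → ℤ) (k : Fin m → Fin (M + 1))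
      (P : MvPolynomial (Fin m × Fin (M + 1)) ℤ), (∀ h, 0 ≤ T h) → (∀ i, |b i| ≤ β) → 1 ≤ C₁ →
      MH d P → HB P (C₁ ^ (∑ h, d h)) →
      (∀ h j i, |∑ l, A i l * (g h j l : ℝ)| ≤ Real.exp (b i * T h)) →
      (∀ j ∈ (linR A.adjugate (toR P)).support,
        ∑ h, ∑ i, (j (h, i) : ℝ) * (b i * T h) ≤ E) →
      ∀ e, |((MvPolynomial.coeff e (phi g k P) : ℤ) : ℝ)| ≤
        (K * C₁) ^ (∑ h, d h) * Real.exp (E + β * ∑ h, (e (Sum.inr h) : ℝ) * T h)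

/-- KSML: the coefficients of small weight of `phi g k P` vanish. Uses SM1, KSM. -/
def Stmt_KSML : Prop :=
  ∀ (M : ℕ) (S : Finset ℕ) (A : Matrix (Fin (M + 1)) (Fin (M + 1)) ℝ)
    (L : ℕ → Matrix (Fin (M + 1)) (Fin (M + 1)) ℤ)
    (c : ℕ → Fin (M + 1) → ℝ) (δ : ℝ), PS S → A.det ≠ 0 → (∀ p ∈ S, (L p).det ≠ 0) → 0 < δ →
    ∑ v ∈ pl S, ∑ i, c v i ≤ 0 →
    ∃ ε κ σ : ℝ, 0 < ε ∧ 0 < κ ∧ 0 < σ ∧ ∀ C₁ : ℝ, 1 ≤ C₁ → ∃ T₀ : ℝ, 0 < T₀ ∧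
      ∀ (m : ℕ) (d : Fin m → ℕ) (T : Fin m → ℝ) (W : ℝ)
        (g : Fin m → Fin M → Fin (M + 1) → ℤ) (k : Fin m → Fin (M + 1))
        (P : MvPolynomial (Fin m × Fin (M + 1)) ℤ), 1 ≤ m → 0 < W → (∀ h, 1 ≤ d h) →
        (∀ h, W ≤ d h * T h ∧ d h * T h ≤ (1 + κ) * W) → (∀ h, T₀ ≤ T h) → MH d P →
        HB P (C₁ ^ (∑ h, d h)) →
        (∀ j ∈ (linR A.adjugate (toR P)).support, Good d ε j) →
        (∀ p ∈ S, ∀ j ∈ (lin (L p).adjugate P).support, Good d ε j) →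
        (∀ v ∈ pl S, ∀ h j i, vl A L v (g h j) i ≤
          Real.exp ((c v i - if v = 0 then δ else 0) * T h)) →
        ∀ e ∈ (phi g k P).support, σ * m < ∑ h, (e (Sum.inr h) : ℝ) / d h

/-! ## K3. Small height and the penultimate minimum -/

/-- KLI: Liouville's inequality. Uses nothing. -/
def Stmt_KLI : Prop :=
  ∀ (K : IntermediateField ℚ ℝ) [FiniteDimensional ℚ K] (N : ℕ) (β : Fin N → ℝ),
    (∀ i, β i ∈ K) → ∃ (c : ℝ) (D : ℕ), 0 < c ∧ ∀ (x : Fin N → ℤ) (H : ℝ), 1 ≤ H →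
      (∀ i, |(x i : ℝ)| ≤ H) → ∑ i, β i * (x i : ℝ) ≠ 0 →
      c ≤ |∑ i, β i * (x i : ℝ)| * H ^ D

/-- KLB1: an inequality for hyperplanes of small height. Uses KLI. -/
def Stmt_KLB1 : Prop :=
  ∀ (K : IntermediateField ℚ ℝ) [FiniteDimensional ℚ K] (M : ℕ) (S : Finset ℕ)
    (A : Matrix (Fin (M + 1)) (Fin (M + 1)) ℝ) (L : ℕ → Matrix (Fin (M + 1)) (Fin (M + 1)) ℤ),
    PS S → Ent K A → A.det ≠ 0 → (∀ p ∈ S, (L p).det ≠ 0) →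
    ∃ (C : ℝ) (q : ℕ), 1 ≤ C ∧
    ∀ (b : ℕ → Fin (M + 1) → ℝ) (T H : ℝ) (g : Fin M → Fin (M + 1) → ℤ)
      (w : Fin (M + 1) → ℤ) (i : ℕ → Fin (M + 1)), 1 ≤ H →
      LinearIndependent ℚ (fun j => fun i => (g j i : ℚ)) →
      (∀ z : ℤ, (∀ i, z ∣ w i) → IsUnit z) → (∀ j, ∑ i, w i * g j i = 0) →
      (∀ v ∈ pl S, ∀ j i, vl A L v (g j) i ≤ Real.exp (b v i * T)) →
      (∀ k, |(w k : ℝ)| ≤ H) →
      ∑ k, (w k : ℝ) * A.adjugate k (i 0) ≠ 0 →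
      (∀ p ∈ S, (Matrix.vecMul w (L p).adjugate) (i p) ≠ 0) →
      1 ≤ (C * H) ^ q *
        Real.exp ((∑ v ∈ pl S, ∑ j, b v j - ∑ v ∈ pl S, b v (i v)) * T)

/-- KLBH: the case of small height. Uses KLB1. -/
def Stmt_KLBH : Prop :=
  ∀ (K : IntermediateField ℚ ℝ) [FiniteDimensional ℚ K] (M : ℕ) (S : Finset ℕ)
    (U : Ultrafilter ℕ) (T : ℕ → ℝ) (A : Matrix (Fin (M + 1)) (Fin (M + 1)) ℝ)
    (L : ℕ → Matrix (Fin (M + 1)) (Fin (M + 1)) ℤ) (c : ℕ → Fin (M + 1) → ℝ) (δ : ℝ)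
    (g : ℕ → Fin M → Fin (M + 1) → ℤ), 1 ≤ M → PS S → Ent K A →
    Tendsto T (U : Filter ℕ) atTop → A.det ≠ 0 → (∀ p ∈ S, (L p).det ≠ 0) →
    ∑ v ∈ pl S, ∑ i, c v i ≤ 0 → 0 < δ →
    (∀ᶠ n in (U : Filter ℕ), LinearIndependent ℚ (fun j => fun i => (g n j i : ℚ))) →
    (∀ᶠ n in (U : Filter ℕ), ∀ v ∈ pl S, ∀ j i, vl A L v (g n j) i ≤
      Real.exp ((c v i - if v = 0 then δ else 0) * T n)) →
    ∃ a : ℝ, 0 < a ∧ ∀ w : ℕ → Fin (M + 1) → ℤ,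
      (∀ᶠ n in (U : Filter ℕ), (∀ z : ℤ, (∀ i, z ∣ w n i) → IsUnit z) ∧
        ∀ j, ∑ i, w n i * g n j i = 0) →
      (∃ w₀ : Fin (M + 1) → ℤ, w₀ ≠ 0 ∧
        ∀ᶠ n in (U : Filter ℕ), ∀ j, ∑ i, w₀ i * g n j i = 0) ∨
      ∀ᶠ n in (U : Filter ℕ), ∃ i, Real.exp (a * T n) < |(w n i : ℝ)|

/-- KTHA: the span of the first vectors is constant if they are small. Uses KAUX, KSML, RED, NRM,
NRK, KLBH, RTL, SQN. -/
def Stmt_KTHA : Prop :=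
  ∀ (K : IntermediateField ℚ ℝ) [FiniteDimensional ℚ K] (M : ℕ) (S : Finset ℕ)
    (U : Ultrafilter ℕ) (T : ℕ → ℝ) (A : Matrix (Fin (M + 1)) (Fin (M + 1)) ℝ)
    (L : ℕ → Matrix (Fin (M + 1)) (Fin (M + 1)) ℤ) (c : ℕ → Fin (M + 1) → ℝ) (δ : ℝ)
    (g : ℕ → Fin M → Fin (M + 1) → ℤ), 1 ≤ M → PS S → Ent K A →
    Tendsto T (U : Filter ℕ) atTop → A.det ≠ 0 → (∀ p ∈ S, (L p).det ≠ 0) →
    ∑ v ∈ pl S, ∑ i, c v i ≤ 0 → 0 < δ →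
    (∀ᶠ n in (U : Filter ℕ), LinearIndependent ℚ (fun j => fun i => (g n j i : ℚ))) →
    (∀ᶠ n in (U : Filter ℕ), ∀ v ∈ pl S, ∀ j i, vl A L v (g n j) i ≤
      Real.exp ((c v i - if v = 0 then δ else 0) * T n)) →
    ∃ w : Fin (M + 1) → ℤ, w ≠ 0 ∧ ∀ᶠ n in (U : Filter ℕ), ∀ j, ∑ i, w i * g n j i = 0

/-! ## K4. The Subspace theorem -/

/-- KGSY: good systems. Uses MIN, LAT. -/
def Stmt_KGSY : Prop :=
  ∀ (N : ℕ) (S : Finset ℕ) (U : Ultrafilter ℕ) (T : ℕ → ℝ) (A : Matrix (Fin N) (Fin N) ℝ)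
    (L : ℕ → Matrix (Fin N) (Fin N) ℤ)
    (c : ℕ → Fin N → ℝ) (η : ℝ), 1 ≤ N → PS S → Tendsto T (U : Filter ℕ) atTop →
    A.det ≠ 0 → (∀ p ∈ S, (L p).det ≠ 0) → (∀ p ∈ S, ∀ i, c p i ≤ 0) → 0 < η →
    ∃ (μ : Fin N → ℝ) (g : ℕ → Fin N → Fin N → ℤ), Monotone μ ∧
      (∀ n, (Matrix.of (g n)).det ≠ 0) ∧
      (∀ᶠ n in (U : Filter ℕ), ∀ j i,
        vl A L 0 (g n j) i ≤ Real.exp ((c 0 i + μ j) * T n) ∧
        ∀ p ∈ S, vl A L p (g n j) i ≤ Real.exp (c p i * T n)) ∧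
      ∑ j, μ j + ∑ v ∈ pl S, ∑ i, c v i ≤ η

/-- KTHB: a gap between the `k`-th and the `(k+1)`-th vector of a good system. Uses KTHA, DAV,
CBN, CPS, ANN. -/
def Stmt_KTHB : Prop :=
  ∀ (K : IntermediateField ℚ ℝ) [FiniteDimensional ℚ K] (k p : ℕ) (S : Finset ℕ)
    (U : Ultrafilter ℕ) (T : ℕ → ℝ) (A : Matrix (Fin (k + p)) (Fin (k + p)) ℝ)
    (L : ℕ → Matrix (Fin (k + p)) (Fin (k + p)) ℤ) (c : ℕ → Fin (k + p) → ℝ)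
    (μ : Fin (k + p) → ℝ) (g : ℕ → Fin (k + p) → Fin (k + p) → ℤ) (δ : ℝ), 1 ≤ k → 1 ≤ p →
    PS S → Ent K A → Tendsto T (U : Filter ℕ) atTop → A.det ≠ 0 → (∀ q ∈ S, (L q).det ≠ 0) →
    Monotone μ → (∀ n, (Matrix.of (g n)).det ≠ 0) →
    (∀ᶠ n in (U : Filter ℕ), ∀ j i,
      vl A L 0 (g n j) i ≤ Real.exp ((c 0 i + μ j) * T n) ∧
      ∀ q ∈ S, vl A L q (g n j) i ≤ Real.exp (c q i * T n)) →
    0 < δ → (∀ i j : Fin (k + p), (i : ℕ) < k → k ≤ (j : ℕ) → μ i + δ ≤ μ j) →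
    (2 : ℝ) ^ (k + p + 1) * (∑ j, μ j + ∑ v ∈ pl S, ∑ i, c v i) ≤ δ →
    ∃ w : Fin (k + p) → ℤ, w ≠ 0 ∧
      ∀ᶠ n in (U : Filter ℕ), ∀ j : Fin (k + p), (j : ℕ) < k → ∑ i, w i * g n j i = 0

/-- KPAR: the parametric Subspace theorem. Uses KGSY, KTHB. -/
def Stmt_KPAR : Prop :=
  ∀ (K : IntermediateField ℚ ℝ) [FiniteDimensional ℚ K] (N : ℕ) (S : Finset ℕ)
    (U : Ultrafilter ℕ) (T : ℕ → ℝ) (A : Matrix (Fin N) (Fin N) ℝ)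
    (L : ℕ → Matrix (Fin N) (Fin N) ℤ)
    (c : ℕ → Fin N → ℝ) (x : ℕ → Fin N → ℤ), 1 ≤ N → PS S → Ent K A →
    Tendsto T (U : Filter ℕ) atTop → A.det ≠ 0 → (∀ p ∈ S, (L p).det ≠ 0) →
    (∀ p ∈ S, ∀ i, c p i ≤ 0) → ∑ v ∈ pl S, ∑ i, c v i < 0 →
    (∀ᶠ n in (U : Filter ℕ), ∀ v ∈ pl S, ∀ i, vl A L v (x n) i ≤ Real.exp (c v i * T n)) →
    ∃ w : Fin N → ℤ, w ≠ 0 ∧ ∀ᶠ n in (U : Filter ℕ), ∑ i, w i * x n i = 0

/-- KSUB: the `p`-adic Subspace theorem over `ℚ` with real algebraic forms at infinity (Schmidt,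
Schlickewei). Uses KPAR, KLI. -/
def Stmt_KSUB : Prop :=
  ∀ (K : IntermediateField ℚ ℝ) [FiniteDimensional ℚ K] (N : ℕ) (S : Finset ℕ)
    (U : Ultrafilter ℕ) (T : ℕ → ℝ) (A : Matrix (Fin N) (Fin N) ℝ)
    (L : ℕ → Matrix (Fin N) (Fin N) ℤ)
    (x : ℕ → Fin N → ℤ) (C ε : ℝ), 1 ≤ N → PS S → Ent K A → Tendsto T (U : Filter ℕ) atTop →
    A.det ≠ 0 → (∀ p ∈ S, (L p).det ≠ 0) → 0 < ε →
    (∀ᶠ n in (U : Filter ℕ), ∀ i, |(x n i : ℝ)| ≤ Real.exp (C * T n)) →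
    (∀ᶠ n in (U : Filter ℕ), ∏ v ∈ pl S, ∏ i, vl A L v (x n) i ≤ Real.exp (-ε * T n)) →
    ∃ w : Fin N → ℤ, w ≠ 0 ∧ ∀ᶠ n in (U : Filter ℕ), ∑ i, w i * x n i = 0

/-- KS2T: a linear form in independent integers with sums of units as coefficients, over a real
number field, is not small. Uses KSUB, SIM, VOR. -/
def Stmt_KS2T : Prop :=
  ∀ (K : IntermediateField ℚ ℝ) [FiniteDimensional ℚ K] (U : Ultrafilter ℕ) (S : Finset ℕ)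
    (T : ℕ → ℝ) (r d : ℕ) (g : Fin r → ℕ → ℚ) (Z : Fin d → ℕ → ℤ) (B δ : ℝ)
    (D : Fin d → MvPolynomial (Fin r) ℝ), Gd U S T g → 0 ≤ B → 0 < δ →
    (∀ᶠ n in (U : Filter ℕ), ∀ i, |(Z i n : ℝ)| ≤ Real.exp (B * T n)) → Indp U g Z →
    (∀ i e, MvPolynomial.coeff e (D i) ∈ K) → ∀ i, ∀ e ∈ (D i).support,
      ∀ᶠ n in (U : Filter ℕ), av 0 (mon g e n) ≤
        Real.exp ((d * B + δ) * T n) * |∑ i, evR g n (D i) * (Z i n : ℝ)|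

/-! ## K5. Described numbers -/

/-- KUS: sums of units form a ring. Uses nothing. -/
def Stmt_KUS : Prop :=
  (∀ (U : Ultrafilter ℕ) (S : Finset ℕ) (T : ℕ → ℝ) (f g : ℕ → ℚ), PS S →
    Tendsto T (U : Filter ℕ) atTop → USm U S T f → USm U S T g →
      USm U S T (fun n => f n + g n) ∧ USm U S T (fun n => f n * g n)) ∧
  (∀ (U : Ultrafilter ℕ) (S : Finset ℕ) (T : ℕ → ℝ) (c : ℚ),
    Tendsto T (U : Filter ℕ) atTop → USm U S T (fun _ => c)) ∧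
  (∀ (U : Ultrafilter ℕ) (S S' : Finset ℕ) (T : ℕ → ℝ) (f : ℕ → ℚ), PS S' → S ⊆ S' →
    Tendsto T (U : Filter ℕ) atTop → USm U S T f → USm U S' T f) ∧
  ∀ (U : Ultrafilter ℕ) (S : Finset ℕ) (T : ℕ → ℝ) (N : ℕ) (f : Fin N → ℕ → ℚ), PS S →
    Tendsto T (U : Filter ℕ) atTop → (∀ i, USm U S T (f i)) →
    USm U S T (fun n => ∏ i, f i n) ∧ USm U S T (fun n => ∑ i, f i n)

/-- KBU: sums of powers of `b` are sums of units. Uses nothing. -/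
def Stmt_KBU : Prop :=
  ∀ (U : Ultrafilter ℕ) (b N M : ℕ) (F : ℕ → ℤ), 2 ≤ b → (U : Filter ℕ) ≤ atTop →
    (∀ᶠ n in (U : Filter ℕ), Rep b N (M * n) (F n)) →
    USm U b.primeFactors (fun n => (n : ℝ)) (fun n => (F n : ℚ))

/-- KAP: sums and products of described numbers. Uses KUS. -/
def Stmt_KAP : Prop :=
  ∀ (U : Ultrafilter ℕ) (T : ℕ → ℝ), Tendsto T (U : Filter ℕ) atTop →
    (∀ (s s' : ℕ) (B B' Λ Λ' : ℝ) (x : ℝ), s ≤ s' → B ≤ B' → Λ' ≤ Λ → Apr U T s B Λ x →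
      Apr U T s' B' Λ' x) ∧
    (∀ (B Λ : ℝ) (q : ℚ), 0 ≤ B → Apr U T 1 B Λ (q : ℝ)) ∧
    (∀ (s s' : ℕ) (B B' Λ : ℝ) (x x' : ℝ), 0 ≤ B → 0 ≤ B' → Apr U T s B Λ x →
      Apr U T s' B' Λ x' → Apr U T (s + s') (B + B' + 1) Λ (x + x')) ∧
    ∀ (s s' : ℕ) (B B' Λ : ℝ) (x x' : ℝ), 0 ≤ B → 0 ≤ B' → B ≤ Λ → B' ≤ Λ →
      Apr U T s B Λ x → Apr U T s' B' Λ x' → Apr U T (s * s') (B + B' + 1) Λ (x * x')

/-- KRG: the described numbers form a ring. Uses KAP. -/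
def Stmt_KRG : Prop :=
  ∀ (F : Filter ℕ) (G : Set ℝ), F ≤ atTop → (∀ x ∈ G, Des F x) →
    ∀ x ∈ Algebra.adjoin ℚ G, Des F x

/-- KEL: a maximal independent subsystem. Uses nothing. -/
def Stmt_KEL : Prop :=
  ∀ (U : Ultrafilter ℕ) (r : ℕ) (g : Fin r → ℕ → ℚ) (J : Type) [Fintype J] (y : J → ℕ → ℤ),
    ∃ (d : ℕ) (Z : Fin d → ℕ → ℤ), d ≤ Fintype.card J ∧ (∀ i, ∃ j, Z i = y j) ∧ Indp U g Z ∧
      ∀ j, ∃ (Q : MvPolynomial (Fin r) ℚ) (R : Fin d → MvPolynomial (Fin r) ℚ), Q ≠ 0 ∧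
        ∀ᶠ n in (U : Filter ℕ), ev g n Q * (y j n : ℚ) = ∑ i, ev g n (R i) * (Z i n : ℚ)

/-- KPO: sums of units are polynomials in independent units. Uses BAS. -/
def Stmt_KPO : Prop :=
  ∀ (U : Ultrafilter ℕ) (S : Finset ℕ) (T : ℕ → ℝ) (J : Type) [Fintype J] (f : J → ℕ → ℚ),
    PS S → Tendsto T (U : Filter ℕ) atTop → (∀ j, USm U S T (f j)) →
    ∃ (r : ℕ) (g : Fin r → ℕ → ℚ) (μ : Fin r →₀ ℕ) (P : J → MvPolynomial (Fin r) ℚ),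
      Gd U S T g ∧ ∀ j, ∀ᶠ n in (U : Filter ℕ), mon g μ n * f j n = ev g n (P j)

/-- KCR: the core theorem: a linear relation with real algebraic coefficients between described
numbers splits into rational ones. Uses UNI, KS2T, KUS, KEL, KPO. -/
def Stmt_KCR : Prop :=
  ∀ (K : IntermediateField ℚ ℝ) [FiniteDimensional ℚ K] (m s : ℕ) (x : Fin m → ℝ)
    (β : Fin m → K) (lam : K →ₗ[ℚ] ℚ) (B : ℝ), 0 ≤ B → ∑ i, (β i : ℝ) * x i = 0 →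
    ∃ Λ₀ : ℝ, ∀ (U : Ultrafilter ℕ) (T : ℕ → ℝ) (Λ : ℝ), Tendsto T (U : Filter ℕ) atTop →
      Λ₀ ≤ Λ → (∀ i, Apr U T s B Λ (x i)) → ∑ i, ((lam (β i) : ℚ) : ℝ) * x i = 0

/-! ## K6. Digits -/

/-- KLC: numbers of linear complexity are described. Uses STG, DGT, RPA, KUS, KBU. -/
def Stmt_KLC : Prop :=
  ∀ (b C : ℕ) (x : ℝ) (F : Filter ℕ), 2 ≤ b → F ≤ atTop →
    (∀ Λ : ℕ, ∀ᶠ n in F, cnt b x n (Λ * n) ≤ C * n) → Des F x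

/-- KCH: numbers with few digit changes in a window are described. Uses DGT, KUS, KBU. -/
def Stmt_KCH : Prop :=
  ∀ (b : ℕ) (x : ℝ), 2 ≤ b → ∃ B : ℝ, 0 ≤ B ∧ ∀ (U : Ultrafilter ℕ) (Λ : ℝ) (N : ℕ),
    0 ≤ Λ → (U : Filter ℕ) ≤ atTop →
    (∀ᶠ n in (U : Filter ℕ), chg b x ((2 * ⌈Λ⌉₊ + 2) * n) ≤ chg b x n + N) →
    Apr U (fun n => (n : ℝ)) 2 B Λ x

/-- KFA: linear disjointness. Uses KCR, KRG, KLC, KAP. -/
def Stmt_KFA : Prop :=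
  ∀ (I : Set ℕ), I.Infinite → ∀ (m : ℕ) (x β : Fin m → ℝ),
    (∀ i, x i ∈ IntermediateField.adjoin ℚ
      {y : ℝ | ∃ b C : ℕ, 2 ≤ b ∧ ∀ n ∈ I, cpl b y n ≤ C * (n + 1)}) →
    (∀ i, IsAlgebraic ℚ (β i)) → LinearIndependent ℚ x → ∑ i, β i * x i = 0 → ∀ i, β i = 0

/-- KFB: digit changes. Uses KCR, KRG, KLC, KCH, KAP. -/
def Stmt_KFB : Prop :=
  ∀ (α x : ℝ) (b : ℕ) (κ : ℝ), IsAlgebraic ℚ α → (∀ q : ℚ, α ≠ q) → 2 ≤ b →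
    x ∈ IntermediateField.adjoin ℚ
      {y : ℝ | ∃ b C : ℕ, 2 ≤ b ∧ ∀ n, cpl b y n ≤ C * (n + 1)} →
    ∀ᶠ N : ℕ in atTop, κ * Real.log N ≤ chg b (α + x) N

/-- KFC: the digits of `sqrt 2` differ from every sequence of linear complexity at more than
`κ log N` places. Uses KFB. -/
def Stmt_KFC : Prop :=
  ∀ (w : ℕ → ℕ) (C : ℕ), (∀ k, w k ≤ 9) →
    (∀ n, Set.ncard {u : Fin n → ℕ | ∃ i : ℕ, ∀ j : Fin n, u j = w (i + 1 + j)} ≤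
      C * (n + 1)) →
    ∀ κ : ℝ, ∀ᶠ N : ℕ in atTop, κ * Real.log N ≤
      ((Finset.Icc 1 N).filter fun k => ⌊Real.sqrt 2 * 10 ^ k⌋₊ % 10 ≠ w k).card

end Pool.Agent.SBT
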