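import Pool.Agent.SBT.S2T
import Pool.Agent.SBT.StmtsK

/-!
# KS2T: a linear form in independent integers with unit coefficients over a real number field is
not small
-/

set_option autoImplicit false

namespace Pool.Agent.SBT

open Filter

namespace KS2T_

open S2Tp

/-- the Subspace theorem for a general index type, coordinates at the finite places -/
theorem ksub' (hK : Stmt_KSUB) (K : IntermediateField ℚ ℝ) [FiniteDimensional ℚ K] {J : Type}
    [Fintype J] [DecidableEq J] [Nonempty J] (S : Finset ℕ) (U : Ultrafilter ℕ) (T : ℕ → ℝ)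
    (A : Matrix J J ℝ) (x : ℕ → J → ℤ) (C ε : ℝ) (hS : PS S) (hA : ∀ i k, A i k ∈ K)
    (hT : Tendsto T (U : Filter ℕ) atTop) (hdet : A.det ≠ 0) (hε : 0 < ε)
    (hx : ∀ᶠ n in (U : Filter ℕ), ∀ i, |(x n i : ℝ)| ≤ Real.exp (C * T n))
    (hp : ∀ᶠ n in (U : Filter ℕ), (∏ j, |∑ k, A j k * (x n k : ℝ)|) *
      ∏ p ∈ S, ∏ j, av p (x n j : ℚ) ≤ Real.exp (-ε * T n)) :
    ∃ w : J → ℤ, w ≠ 0 ∧ ∀ᶠ n in (U : Filter ℕ), ∑ i, w i * x n i = 0 := by
  classical
  set e := Fintype.equivFin J with he
  have hN : 1 ≤ Fintype.card J := Fintype.card_pos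
  have hEnt : Ent K (Matrix.reindex e e A) := fun i k => hA _ _
  have hD : (Matrix.reindex e e A).det ≠ 0 := by
    rw [Matrix.det_reindex_self]
    exact hdet
  have hL : ∀ p ∈ S, (((fun _ => 1) : ℕ → Matrix (Fin (Fintype.card J)) (Fin (Fintype.card J)) ℤ)
      p).det ≠ 0 := by
    intro p _
    simp
  have hx' : ∀ᶠ n in (U : Filter ℕ), ∀ i, |(((fun n i => x n (e.symm i)) : ℕ →
      Fin (Fintype.card J) → ℤ) n i : ℝ)| ≤ Real.exp (C * T n) := by
    filter_upwards [hx] with n hn i
    exact hn _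
  have hp' : ∀ᶠ n in (U : Filter ℕ), ∏ v ∈ pl S, ∏ i, vl (Matrix.reindex e e A) (fun _ => 1) v
      ((fun n i => x n (e.symm i)) n) i ≤ Real.exp (-ε * T n) := by
    filter_upwards [hp] with n hn
    refine le_trans (le_of_eq ?_) hn
    rw [prod_pl hS]
    congr 1
    · rw [← Equiv.prod_comp e]
      refine Finset.prod_congr rfl fun j _ => ?_
      unfold vl
      rw [if_pos rfl]
      congr 1
      rw [← Equiv.sum_comp e]
      refine Finset.sum_congr rfl fun k _ => ?_
      simp
    · refine Finset.prod_congr rfl fun p hpS => ?_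
      rw [← Equiv.prod_comp e]
      refine Finset.prod_congr rfl fun j _ => ?_
      unfold vl
      rw [if_neg (hS p hpS).ne_zero]
      congr 1
      simp [fv, Matrix.one_apply]
  obtain ⟨w, hw, hw2⟩ := hK K (Fintype.card J) S U T (Matrix.reindex e e A) (fun _ => 1)
    (fun n i => x n (e.symm i)) C ε hN hS hEnt hT hD hL hε hx' hp'
  refine ⟨fun j => w (e j), ?_, ?_⟩
  · intro h0
    apply hw
    funext i
    have := congrFun h0 (e.symm i)
    simpa using this
  · filter_upwards [hw2] with n hn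
    rw [← hn, ← Equiv.sum_comp e (fun i => w i * x n (e.symm i))]
    simp

theorem evR_eq {r : ℕ} (g : Fin r → ℕ → ℚ) (n : ℕ) (H : MvPolynomial (Fin r) ℝ)
    (s : Finset (Fin r →₀ ℕ)) (hs : H.support ⊆ s) :
    evR g n H = ∑ e ∈ s, MvPolynomial.coeff e H * ((mon g e n : ℚ) : ℝ) := by
  unfold evR
  rw [MvPolynomial.eval_eq']
  refine (Finset.sum_subset hs fun e _ he => ?_).trans ?_
  · rw [MvPolynomial.notMem_support_iff.mp he, zero_mul]
  · refine Finset.sum_congr rfl fun e _ => ?_
    simp [mon]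

theorem exmin {α : Type} {lt : α → α → Prop} (h : IsStrictTotalOrder α lt) (s : Finset α)
    (hs : s.Nonempty) : ∃ a ∈ s, ∀ b ∈ s, b = a ∨ lt a b := by
  classical
  induction hs using Finset.Nonempty.cons_induction with
  | singleton a => exact ⟨a, by simp, by simp⟩
  | cons a s ha hs ih =>
    obtain ⟨m, hm, hmin⟩ := ih
    rcases trichotomous_of lt a m with h1 | h1 | h1
    · refine ⟨a, Finset.mem_cons_self a s, fun b hb => ?_⟩
      rcases Finset.mem_cons.mp hb with rfl | hb
      · exact Or.inl rfl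
      · rcases hmin b hb with rfl | hbm
        · exact Or.inr h1
        · exact Or.inr (trans_of lt h1 hbm)
    · exact absurd (h1 ▸ hm) ha
    · refine ⟨m, Finset.mem_cons_of_mem hm, fun b hb => ?_⟩
      rcases Finset.mem_cons.mp hb with rfl | hb
      · exact Or.inr h1
      · exact hmin b hb

/-- the leading term -/
theorem core (hKSUB : Stmt_KSUB) (hSIM : Stmt_SIM) (K : IntermediateField ℚ ℝ)
    [FiniteDimensional ℚ K] (U : Ultrafilter ℕ)
    (S : Finset ℕ) (T : ℕ → ℝ) (r d : ℕ) (g : Fin r → ℕ → ℚ) (Z : Fin d → ℕ → ℤ)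
    (b : Fin d → ℝ) (δ : ℝ)
    (D : Fin d → MvPolynomial (Fin r) ℝ) (hG : Gd U S T g) (hb : ∀ i, 0 ≤ b i) (hδ : 0 < δ)
    (hZ : ∀ᶠ n in (U : Filter ℕ), ∀ i, |(Z i n : ℝ)| ≤ Real.exp (b i * T n))
    (hI : Indp U g Z) (hDK : ∀ i e, MvPolynomial.coeff e (D i) ∈ K)
    (lt : (Fin r →₀ ℕ) → (Fin r →₀ ℕ) → Prop)
    (hlt : IsStrictTotalOrder (Fin r →₀ ℕ) lt)
    (hadd : ∀ e e' f, lt e e' → lt (e + f) (e' + f)) (i₀ : Fin d) (a : Fin r →₀ ℕ)
    (ha : a ∈ (D i₀).support) (hmax : ∀ e ∈ (D i₀).support, e = a ∨ lt e a) :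
    ∀ᶠ n in (U : Filter ℕ), av 0 (mon g a n) ≤
        Real.exp ((∑ i, b i + δ) * T n) * |∑ i, evR g n (D i) * (Z i n : ℝ)| := by
  classical
  by_contra hcon
  rw [← Ultrafilter.eventually_not] at hcon
  have hS := hG.prime
  obtain ⟨m, hm⟩ : ∃ m : ℕ, ∀ i, ∀ e ∈ (D i).support, ∑ j, e j ≤ m := by
    refine ⟨Finset.univ.sup fun i => (D i).support.sup fun e => ∑ j, e j, fun i e he => ?_⟩
    exact (Finset.le_sup (f := fun e : Fin r →₀ ℕ => ∑ j, e j) he).trans
      (Finset.le_sup (f := fun i => (D i).support.sup fun e : Fin r →₀ ℕ => ∑ j, e j)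
        (Finset.mem_univ i))
  set sb : ℝ := ∑ i, b i with hsb
  have hdB : 0 ≤ sb := Finset.sum_nonneg fun i _ => hb i
  have hbsum : ∀ i, b i ≤ sb := fun i =>
    Finset.single_le_sum (f := b) (fun j _ => hb j) (Finset.mem_univ i)
  set δ' : ℝ := δ / (2 * (sb + 1)) with hδ'
  have hδ'p : 0 < δ' := by positivity
  obtain ⟨h, hh⟩ := hSIM.2 r m δ' hδ'p
  have hcard := hh h le_rfl
  set E := Exs r (h + m) with hE
  set F := Exs r h with hF
  have hEm : ∀ e, e ∈ E ↔ ∑ i, e i ≤ h + m := fun e => hSIM.1 r (h + m) e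
  have hFm : ∀ e, e ∈ F ↔ ∑ i, e i ≤ h := fun e => hSIM.1 r h e
  have h0F : (0 : Fin r →₀ ℕ) ∈ F := (hFm 0).mpr (by simp)
  have hFpos : 0 < F.card := Finset.card_pos.mpr ⟨0, h0F⟩
  have h0E : (0 : Fin r →₀ ℕ) ∈ E := (hEm 0).mpr (by simp)
  have : Nonempty (Fin d × {e // e ∈ E}) := ⟨(i₀, ⟨0, h0E⟩)⟩
  have haE : ∀ f : {f // f ∈ F}, a + f.1 ∈ E := by
    intro f
    rw [hEm]
    have h2 := hm i₀ _ ha
    have h3 := (hFm f.1).mp f.2
    have h4 : ∑ j, (a + f.1) j = ∑ j, a j + ∑ j, f.1 j := by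
      rw [← Finset.sum_add_distrib]
      rfl
    omega
  -- the special rows
  set ι : {f // f ∈ F} → Fin d × {e // e ∈ E} := fun f => (i₀, ⟨a + f.1, haE f⟩) with hι
  have hinj : Function.Injective ι := by
    intro f f' hff
    have h1 : a + f.1 = a + f'.1 := congrArg (fun z => z.2.1) hff
    exact Subtype.ext (add_left_cancel h1)
  set sp : Finset (Fin d × {e // e ∈ E}) := Finset.univ.image ι with hsp
  have hspcard : sp.card = F.card := by
    rw [hsp, Finset.card_image_of_injective _ hinj, Finset.card_univ, Fintype.card_coe]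
  have hKcard : Fintype.card (Fin d × {e // e ∈ E}) = d * E.card := by
    rw [Fintype.card_prod, Fintype.card_fin, Fintype.card_coe]
  have hspK : sp.card ≤ d * E.card := by
    rw [← hKcard]
    exact Finset.card_le_univ sp
  -- the matrix
  set A : Matrix (Fin d × {e // e ∈ E}) (Fin d × {e // e ∈ E}) ℝ := fun j k =>
    if hj : ∃ f, ι f = j then
      MvPolynomial.coeff k.2.1 (MvPolynomial.monomial hj.choose.1 (1 : ℝ) * D k.1)
    else if k = j then 1 else 0 with hA
  have hAsp : ∀ f k, A (ι f) k =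
      MvPolynomial.coeff k.2.1 (MvPolynomial.monomial f.1 (1 : ℝ) * D k.1) := by
    intro f k
    have hj : ∃ f', ι f' = ι f := ⟨f, rfl⟩
    have h1 : hj.choose = f := hinj hj.choose_spec
    simp only [hA]
    rw [dif_pos hj, h1]
  have hAns : ∀ j, j ∉ sp → ∀ k, A j k = if k = j then 1 else 0 := by
    intro j hj k
    have h1 : ¬ ∃ f, ι f = j := by
      rintro ⟨f, hf⟩
      apply hj
      rw [hsp, Finset.mem_image]
      exact ⟨f, Finset.mem_univ _, hf⟩
    simp only [hA]
    rw [dif_neg h1]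
  have hAK : ∀ j k, A j k ∈ K := by
    intro j k
    by_cases hj : j ∈ sp
    · rw [hsp, Finset.mem_image] at hj
      obtain ⟨f, -, rfl⟩ := hj
      rw [hAsp, MvPolynomial.coeff_monomial_mul']
      split
      · rw [one_mul]
        exact hDK _ _
      · exact zero_mem K
    · rw [hAns j hj]
      split
      · exact one_mem K
      · exact zero_mem K
  have hdet : A.det ≠ 0 := by
    intro hdet
    obtain ⟨v, hv0, hv⟩ := Matrix.exists_mulVec_eq_zero_iff.mpr hdet
    have hrow : ∀ j, ∑ k, A j k * v k = 0 := fun j => congrFun hv j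
    have hns : ∀ j, j ∉ sp → v j = 0 := by
      intro j hj
      have h1 := hrow j
      rw [Finset.sum_eq_single j] at h1
      · rw [hAns j hj, if_pos rfl, one_mul] at h1
        exact h1
      · intro k _ hk
        rw [hAns j hj, if_neg hk, zero_mul]
      · intro h2
        exact absurd (Finset.mem_univ j) h2
    -- the minimal special coordinate
    have hne : ((Finset.univ : Finset {f // f ∈ F}).filter (fun f => v (ι f) ≠ 0)).Nonempty := by
      by_contra hemp
      rw [Finset.not_nonempty_iff_eq_empty] at hemp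
      apply hv0
      funext j
      by_cases hj : j ∈ sp
      · rw [hsp, Finset.mem_image] at hj
        obtain ⟨f, -, rfl⟩ := hj
        by_contra h1
        have h2 : f ∈ (Finset.univ : Finset {f // f ∈ F}).filter (fun f => v (ι f) ≠ 0) := by
          rw [Finset.mem_filter]
          exact ⟨Finset.mem_univ _, h1⟩
        rw [hemp] at h2
        exact absurd h2 (Finset.notMem_empty f)
      · exact hns j hj
    obtain ⟨b, hb, hbmin⟩ := exmin hlt
      ((((Finset.univ : Finset {f // f ∈ F}).filter (fun f => v (ι f) ≠ 0))).image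
        (fun f => f.1)) (hne.image _)
    rw [Finset.mem_image] at hb
    obtain ⟨f, hf, rfl⟩ := hb
    rw [Finset.mem_filter] at hf
    have h1 := hrow (ι f)
    rw [Finset.sum_eq_single (ι f)] at h1
    · have h2 : A (ι f) (ι f) = MvPolynomial.coeff a (D i₀) := by
        rw [hAsp]
        show MvPolynomial.coeff (a + f.1) (MvPolynomial.monomial f.1 (1 : ℝ) * D i₀) = _
        rw [add_comm a f.1, MvPolynomial.coeff_monomial_mul, one_mul]
      rw [h2] at h1
      rcases mul_eq_zero.mp h1 with h3 | h3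
      · exact (MvPolynomial.mem_support_iff.mp ha) h3
      · exact hf.2 h3
    · intro k _ hk
      by_cases hks : k ∈ sp
      · rw [hsp, Finset.mem_image] at hks
        obtain ⟨f', -, rfl⟩ := hks
        by_cases hv' : v (ι f') = 0
        · rw [hv', mul_zero]
        · have h2 : f' ∈ (Finset.univ : Finset {f // f ∈ F}).filter (fun f => v (ι f) ≠ 0) := by
            rw [Finset.mem_filter]
            exact ⟨Finset.mem_univ _, hv'⟩
          have h3 := hbmin f'.1 (Finset.mem_image_of_mem _ h2)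
          have h4 : f'.1 ≠ f.1 := by
            intro h5
            exact hk (by rw [Subtype.ext h5])
          have h5 : lt f.1 f'.1 := h3.resolve_left h4
          have h6 : A (ι f) (ι f') = 0 := by
            rw [hAsp]
            show MvPolynomial.coeff (a + f'.1) (MvPolynomial.monomial f.1 (1 : ℝ) * D i₀) = 0
            rw [MvPolynomial.coeff_monomial_mul']
            split
            · rename_i hle
              rw [one_mul]
              by_contra h7
              have h8 : a + f'.1 - f.1 ∈ (D i₀).support := MvPolynomial.mem_support_iff.mpr h7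
              have h9 : a + f'.1 - f.1 + f.1 = a + f'.1 := tsub_add_cancel_of_le hle
              rcases hmax _ h8 with h10 | h10
              · rw [h10] at h9
                exact h4 (add_left_cancel h9).symm
              · have h11 := hadd _ _ f.1 h10
                rw [h9] at h11
                have h12 := hadd _ _ a h5
                rw [add_comm f.1 a, add_comm f'.1 a] at h12
                exact irrefl_of lt _ (trans_of lt h11 h12)
            · rfl
          rw [h6, zero_mul]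
      · rw [hns k hks, mul_zero]
    · intro h2
      exact absurd (Finset.mem_univ _) h2
  -- denominators
  obtain ⟨C, hC0, hC⟩ := mon_le hG (h + m)
  have hden : ∀ n, ∃ Δ : ℕ, 0 < Δ ∧ IsU S (Δ : ℚ) ∧
      (Δ : ℝ) ≤ (max 1 (Real.exp (C * T n))) ^ S.card ∧
      ∀ x : ℚ, SInt S x → (∀ p ∈ S, av p x ≤ max 1 (Real.exp (C * T n))) →
        ∃ z : ℤ, (Δ : ℚ) * x = z := fun n => exists_den hS (le_max_left _ _)
  choose Δ hΔ0 hΔU hΔle hΔ using hden
  have hint : ∀ n, ∀ k : Fin d × {e // e ∈ E},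
      ∃ z : ℤ, (∀ e : Fin r →₀ ℕ, ∑ i, e i ≤ h + m → ∀ v ∈ pl S,
        av v (mon g e n) ≤ Real.exp (C * T n)) →
        (Δ n : ℚ) * y E g Z k n = z := by
    intro n k
    by_cases hb : ∀ e : Fin r →₀ ℕ, ∑ i, e i ≤ h + m → ∀ v ∈ pl S,
        av v (mon g e n) ≤ Real.exp (C * T n)
    · obtain ⟨z, hz⟩ := hΔ n (mon g k.2.1 n) ((mon_isU hS hG.unit _ _).sInt hS)
        (fun p hp => (hb _ ((hEm _).mp k.2.2) p (mem_pl_of_mem hp)).trans (le_max_right _ _))
      refine ⟨z * Z k.1 n, fun _ => ?_⟩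
      unfold y
      rw [← mul_assoc, hz]
      push_cast
      ring
    · exact ⟨0, fun hb' => absurd hb' hb⟩
  choose X hX using hint
  -- the size of the coordinates
  have hXle : ∀ᶠ n in (U : Filter ℕ), ∀ k, |(X n k : ℝ)| ≤
      Real.exp ((C * S.card + C + sb) * T n) := by
    filter_upwards [hC, hZ, ev_pos hG.lim] with n hn hZn hTn k
    have h1 := congrArg (fun t : ℚ => |(t : ℝ)|) (hX n k hn)
    simp only [Rat.cast_intCast] at h1
    rw [← h1]
    unfold y
    push_cast
    rw [abs_mul, abs_mul]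
    have h2 : |((Δ n : ℕ) : ℝ)| ≤ Real.exp (C * S.card * T n) := by
      rw [abs_of_nonneg (Nat.cast_nonneg _)]
      refine (hΔle n).trans ?_
      have h3 : max 1 (Real.exp (C * T n)) = Real.exp (C * T n) := by
        refine max_eq_right ?_
        rw [← Real.exp_zero]
        exact Real.exp_le_exp.mpr (by positivity)
      rw [h3, ← Real.exp_nat_mul]
      apply Real.exp_le_exp.mpr
      exact le_of_eq (by ring)
    have h4 : |((mon g k.2.1 n : ℚ) : ℝ)| ≤ Real.exp (C * T n) := by
      have := hn k.2.1 ((hEm _).mp k.2.2) 0 (zero_mem_pl S)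
      rwa [av_zero_eq] at this
    calc |((Δ n : ℕ) : ℝ)| * (|((mon g k.2.1 n : ℚ) : ℝ)| * |((Z k.1 n : ℤ) : ℝ)|)
        ≤ Real.exp (C * S.card * T n) * (Real.exp (C * T n) * Real.exp (sb * T n)) := by
          refine mul_le_mul h2 ?_ (by positivity) (Real.exp_pos _).le
          refine mul_le_mul h4 ((hZn k.1).trans ?_) (abs_nonneg _) (Real.exp_pos _).le
          exact Real.exp_le_exp.mpr (mul_le_mul_of_nonneg_right (hbsum k.1) hTn.le)
      _ = Real.exp ((C * S.card + C + sb) * T n) := by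
          rw [← Real.exp_add, ← Real.exp_add]
          ring_nf
  -- the product
  have hprod : ∀ᶠ n in (U : Filter ℕ), (∏ j, |∑ k, A j k * (X n k : ℝ)|) *
      ∏ p ∈ S, ∏ j, av p (X n j : ℚ) ≤ Real.exp (-(δ / 2) * T n) := by
    filter_upwards [hC, hZ, ev_pos hG.lim, hcon] with n hn hZn hTn hcn
    set Fn : ℝ := |∑ i, evR g n (D i) * (Z i n : ℝ)| with hFn
    have hFn0 : 0 ≤ Fn := abs_nonneg _
    set G0 : (Fin r →₀ ℕ) → ℝ := fun e => av 0 (mon g e n) with hG0
    have hmne : ∀ e, mon g e n ≠ 0 := fun e => (mon_isU hS hG.unit e n).ne_zero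
    have hG0pos : ∀ e, 0 < G0 e := fun e => av_pos (Or.inl rfl) (hmne e)
    have hΔr : (0 : ℝ) < Δ n := by exact_mod_cast hΔ0 n
    have hXr : ∀ k, (X n k : ℝ) = (Δ n : ℝ) * (((mon g k.2.1 n : ℚ) : ℝ) * (Z k.1 n : ℝ)) := by
      intro k
      have h1 := congrArg (fun t : ℚ => (t : ℝ)) (hX n k hn)
      simp only [Rat.cast_intCast] at h1
      rw [← h1]
      unfold y
      push_cast
      ring
    have hmonpos : ∀ e, (0 : ℝ) < ((mon g e n : ℚ) : ℝ) := by
      intro e
      exact_mod_cast (mon_isU hS hG.unit e n).pos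
    have hG0eq : ∀ e, G0 e = ((mon g e n : ℚ) : ℝ) := by
      intro e
      show av 0 (mon g e n) = _
      rw [av_zero_eq, abs_of_pos (hmonpos e)]
    -- nonspecial rows
    have hrow1 : ∀ j, j ∉ sp → |∑ k, A j k * (X n k : ℝ)| ≤
        (Δ n : ℝ) * G0 j.2.1 * Real.exp (b j.1 * T n) := by
      intro j hj
      have h1 : ∑ k, A j k * (X n k : ℝ) = (X n j : ℝ) := by
        rw [Finset.sum_eq_single j]
        · rw [hAns j hj, if_pos rfl, one_mul]
        · intro k _ hk
          rw [hAns j hj, if_neg hk, zero_mul]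
        · intro h2
          exact absurd (Finset.mem_univ j) h2
      rw [h1, hXr, abs_mul, abs_mul, abs_of_pos hΔr, abs_of_pos (hmonpos _), ← hG0eq, mul_assoc]
      refine mul_le_mul_of_nonneg_left ?_ hΔr.le
      exact mul_le_mul_of_nonneg_left (hZn j.1) (hG0pos _).le
    -- special rows
    have hrow2 : ∀ f, |∑ k, A (ι f) k * (X n k : ℝ)| = (Δ n : ℝ) * G0 f.1 * Fn := by
      intro f
      have h1 : ∑ k, A (ι f) k * (X n k : ℝ) =
          (Δ n : ℝ) * G0 f.1 * ∑ i, evR g n (D i) * (Z i n : ℝ) := by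
        rw [Fintype.sum_prod_type, Finset.mul_sum]
        refine Finset.sum_congr rfl fun i _ => ?_
        have hsub : (MvPolynomial.monomial f.1 (1 : ℝ) * D i).support ⊆ E := by
          intro e he
          rw [MvPolynomial.mem_support_iff, MvPolynomial.coeff_monomial_mul'] at he
          by_cases hfe : f.1 ≤ e
          · rw [if_pos hfe] at he
            have h1 : e - f.1 ∈ (D i).support := by
              rw [MvPolynomial.mem_support_iff]
              exact right_ne_zero_of_mul he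
            have h2 := hm i _ h1
            have h3 := (hFm f.1).mp f.2
            rw [hEm]
            have h4 : ∑ j, e j = ∑ j, f.1 j + ∑ j, (e - f.1) j := by
              rw [← Finset.sum_add_distrib]
              refine Finset.sum_congr rfl fun j _ => ?_
              have := hfe j
              rw [Finsupp.tsub_apply]
              omega
            omega
          · rw [if_neg hfe] at he
            exact absurd rfl he
        have h2 : evR g n (MvPolynomial.monomial f.1 (1 : ℝ) * D i) = G0 f.1 * evR g n (D i) := by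
          unfold evR
          rw [map_mul, MvPolynomial.eval_monomial, Finsupp.prod_fintype _ _ (by simp), one_mul,
            hG0eq]
          congr 1
          simp [mon]
        have h3 := evR_eq g n (MvPolynomial.monomial f.1 (1 : ℝ) * D i) E hsub
        rw [h2, ← Finset.sum_coe_sort E] at h3
        calc ∑ e : {e // e ∈ E}, A (ι f) (i, e) * (X n (i, e) : ℝ)
            = ∑ e : {e // e ∈ E}, (Δ n : ℝ) * (Z i n : ℝ) *
                (MvPolynomial.coeff e.1 (MvPolynomial.monomial f.1 (1 : ℝ) * D i) *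
                  ((mon g e.1 n : ℚ) : ℝ)) := by
              refine Finset.sum_congr rfl fun e _ => ?_
              rw [hAsp, hXr]
              ring
          _ = (Δ n : ℝ) * (Z i n : ℝ) * (G0 f.1 * evR g n (D i)) := by
              rw [← Finset.mul_sum, ← h3]
          _ = _ := by ring
      rw [h1, abs_mul, abs_of_pos (mul_pos hΔr (hG0pos _))]
    -- the infinite place
    have hinf : ∏ j, |∑ k, A j k * (X n k : ℝ)| ≤
        (∏ k : Fin d × {e // e ∈ E}, ((Δ n : ℝ) * G0 k.2.1)) *
          (Real.exp (sb * T n * E.card) * (Fn / G0 a) ^ F.card) := by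
      have hsplit : ∀ φ : Fin d × {e // e ∈ E} → ℝ,
          ∏ j, φ j = (∏ j ∈ Finset.univ \ sp, φ j) * ∏ j ∈ sp, φ j :=
        fun φ => (Finset.prod_sdiff (Finset.subset_univ sp)).symm
      rw [hsplit, hsplit (fun k => (Δ n : ℝ) * G0 k.2.1)]
      have h1 : ∏ k ∈ Finset.univ \ sp, |∑ k', A k k' * (X n k' : ℝ)| ≤
          (∏ k ∈ Finset.univ \ sp, ((Δ n : ℝ) * G0 k.2.1)) *
            Real.exp (sb * T n * E.card) := by
        calc ∏ k ∈ Finset.univ \ sp, |∑ k', A k k' * (X n k' : ℝ)|
            ≤ ∏ k ∈ Finset.univ \ sp, ((Δ n : ℝ) * G0 k.2.1 * Real.exp (b k.1 * T n)) := by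
              refine Finset.prod_le_prod (fun k _ => abs_nonneg _) fun k hk => ?_
              exact hrow1 k (Finset.mem_sdiff.mp hk).2
          _ = (∏ k ∈ Finset.univ \ sp, ((Δ n : ℝ) * G0 k.2.1)) *
                Real.exp (∑ k ∈ Finset.univ \ sp, b k.1 * T n) := by
              rw [Finset.prod_mul_distrib, Real.exp_sum]
          _ ≤ _ := by
              refine mul_le_mul_of_nonneg_left ?_
                (Finset.prod_nonneg fun k _ => mul_nonneg hΔr.le (hG0pos _).le)
              apply Real.exp_le_exp.mpr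
              refine (Finset.sum_le_sum_of_subset_of_nonneg (Finset.subset_univ _)
                fun k _ _ => mul_nonneg (hb k.1) hTn.le).trans (le_of_eq ?_)
              rw [Fintype.sum_prod_type, hsb, Finset.sum_mul, Finset.sum_mul]
              refine Finset.sum_congr rfl fun i _ => ?_
              show ∑ _y : {e // e ∈ E}, b i * T n = b i * T n * E.card
              rw [Finset.sum_const, Finset.card_univ, Fintype.card_coe, nsmul_eq_mul]
              ring
      have h2 : ∏ k ∈ sp, |∑ k', A k k' * (X n k' : ℝ)| =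
          (∏ k ∈ sp, ((Δ n : ℝ) * G0 k.2.1)) * (Fn / G0 a) ^ F.card := by
        have h3 : (Fn / G0 a) ^ F.card = ∏ _f : {f // f ∈ F}, (Fn / G0 a) := by
          rw [Finset.prod_const, Finset.card_univ, Fintype.card_coe]
        rw [hsp, Finset.prod_image fun _ _ _ _ h => hinj h,
          Finset.prod_image fun _ _ _ _ h => hinj h, h3, ← Finset.prod_mul_distrib]
        refine Finset.prod_congr rfl fun f _ => ?_
        rw [hrow2]
        have h4 : G0 (ι f).2.1 = G0 a * G0 f.1 := by
          show av 0 (mon g (a + f.1) n) = _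
          rw [mon_add, av_mul (Or.inl rfl)]
        rw [h4]
        have h5 := (hG0pos a).ne'
        field_simp
      rw [h2]
      have h9 : 0 ≤ (∏ k ∈ sp, ((Δ n : ℝ) * G0 k.2.1)) * (Fn / G0 a) ^ F.card := by
        have : 0 ≤ ∏ k ∈ sp, ((Δ n : ℝ) * G0 k.2.1) :=
          Finset.prod_nonneg fun k _ => mul_nonneg hΔr.le (hG0pos _).le
        have h10 : 0 ≤ Fn / G0 a := div_nonneg hFn0 (hG0pos a).le
        positivity
      calc (∏ k ∈ Finset.univ \ sp, |∑ k', A k k' * (X n k' : ℝ)|) *
            ((∏ k ∈ sp, ((Δ n : ℝ) * G0 k.2.1)) * (Fn / G0 a) ^ F.card)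
          ≤ ((∏ k ∈ Finset.univ \ sp, ((Δ n : ℝ) * G0 k.2.1)) *
              Real.exp (sb * T n * E.card)) *
            ((∏ k ∈ sp, ((Δ n : ℝ) * G0 k.2.1)) * (Fn / G0 a) ^ F.card) :=
            mul_le_mul_of_nonneg_right h1 h9
        _ = _ := by ring
    -- the finite places
    have hfin : ∀ p ∈ S, ∏ j, av p (X n j : ℚ) ≤
        ∏ k : Fin d × {e // e ∈ E}, av p ((Δ n : ℚ) * mon g k.2.1 n) := by
      intro p hp
      have hpp : p.Prime := hS p hp
      refine Finset.prod_le_prod (fun k _ => av_nonneg _ _) fun k _ => ?_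
      rw [← hX n k hn]
      unfold y
      rw [← mul_assoc, av_mul (Or.inr hpp)]
      exact mul_le_of_le_one_right (av_nonneg _ _) (av_int_le_one hpp _)
    have hone : (∏ k : Fin d × {e // e ∈ E}, ((Δ n : ℝ) * G0 k.2.1)) *
        ∏ p ∈ S, ∏ k : Fin d × {e // e ∈ E}, av p ((Δ n : ℚ) * mon g k.2.1 n) = 1 := by
      have h1 : ∏ k : Fin d × {e // e ∈ E}, ((Δ n : ℝ) * G0 k.2.1) =
          ∏ k : Fin d × {e // e ∈ E}, av 0 ((Δ n : ℚ) * mon g k.2.1 n) := by
        refine Finset.prod_congr rfl fun k _ => ?_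
        rw [av_mul (Or.inl rfl)]
        congr 1
        rw [av_zero_eq]
        simp
      rw [h1, ← prod_pl hS (fun v => ∏ k : Fin d × {e // e ∈ E},
        av v ((Δ n : ℚ) * mon g k.2.1 n)), Finset.prod_comm]
      exact Finset.prod_eq_one fun k _ =>
        ((hΔU n).mul hS (mon_isU hS hG.unit k.2.1 n)).2
    have hq0 : 0 ≤ Fn / G0 a := div_nonneg hFn0 (hG0pos a).le
    have htot : (∏ j, |∑ k, A j k * (X n k : ℝ)|) * ∏ p ∈ S, ∏ j, av p (X n j : ℚ) ≤
        Real.exp (sb * T n * E.card) * (Fn / G0 a) ^ F.card := by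
      have h1 : ∏ p ∈ S, ∏ j, av p (X n j : ℚ) ≤
          ∏ p ∈ S, ∏ k : Fin d × {e // e ∈ E}, av p ((Δ n : ℚ) * mon g k.2.1 n) :=
        Finset.prod_le_prod (fun p _ => Finset.prod_nonneg fun j _ => av_nonneg _ _)
          fun p hp => hfin p hp
      have h2 : 0 ≤ ∏ p ∈ S, ∏ j, av p (X n j : ℚ) :=
        Finset.prod_nonneg fun p _ => Finset.prod_nonneg fun j _ => av_nonneg _ _
      have hprodn : 0 ≤ ∏ k : Fin d × {e // e ∈ E}, ((Δ n : ℝ) * G0 k.2.1) :=
        Finset.prod_nonneg fun k _ => mul_nonneg hΔr.le (hG0pos _).le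
      calc (∏ j, |∑ k, A j k * (X n k : ℝ)|) * ∏ p ∈ S, ∏ j, av p (X n j : ℚ)
          ≤ ((∏ k : Fin d × {e // e ∈ E}, ((Δ n : ℝ) * G0 k.2.1)) *
            (Real.exp (sb * T n * E.card) * (Fn / G0 a) ^ F.card)) *
            ∏ p ∈ S, ∏ k : Fin d × {e // e ∈ E}, av p ((Δ n : ℚ) * mon g k.2.1 n) :=
            mul_le_mul hinf h1 h2 (by positivity)
        _ = ((∏ k : Fin d × {e // e ∈ E}, ((Δ n : ℝ) * G0 k.2.1)) *
            ∏ p ∈ S, ∏ k : Fin d × {e // e ∈ E}, av p ((Δ n : ℚ) * mon g k.2.1 n)) *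
            (Real.exp (sb * T n * E.card) * (Fn / G0 a) ^ F.card) := by ring
        _ = _ := by rw [hone, one_mul]
    refine htot.trans ?_
    -- the size of the form
    have hsmall : Fn / G0 a ≤ Real.exp (-((sb + δ) * T n)) := by
      push Not at hcn
      rw [div_le_iff₀ (hG0pos a), Real.exp_neg, inv_mul_eq_div, le_div_iff₀ (Real.exp_pos _)]
      rw [mul_comm]
      exact hcn.le
    have hFr : (1 : ℝ) ≤ F.card := by exact_mod_cast hFpos
    calc Real.exp (sb * T n * E.card) * (Fn / G0 a) ^ F.card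
        ≤ Real.exp (sb * T n * E.card) * Real.exp (-((sb + δ) * T n) * F.card) := by
          refine mul_le_mul_of_nonneg_left ?_ (Real.exp_pos _).le
          calc (Fn / G0 a) ^ F.card ≤ Real.exp (-((sb + δ) * T n)) ^ F.card :=
                pow_le_pow_left₀ hq0 hsmall _
            _ = _ := by
                rw [← Real.exp_nat_mul]
                ring_nf
      _ ≤ Real.exp (-(δ / 2) * T n) := by
          rw [← Real.exp_add]
          apply Real.exp_le_exp.mpr
          have h3 : 0 ≤ sb * T n := mul_nonneg hdB hTn.le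
          have h4 : sb * T n * E.card ≤ sb * T n * ((1 + δ') * F.card) :=
            mul_le_mul_of_nonneg_left hcard h3
          have h5 : sb * δ' ≤ δ / 2 := by
            rw [hδ', mul_div_assoc', div_le_div_iff₀ (by positivity) (by norm_num)]
            nlinarith
          have h6 : sb * T n * ((1 + δ') * F.card) + -((sb + δ) * T n) * F.card =
              (sb * δ' - δ) * (T n * F.card) := by ring
          have h7 : (sb * δ' - δ) * (T n * F.card) ≤ -(δ / 2) * (T n * F.card) := by
            refine mul_le_mul_of_nonneg_right ?_ (by positivity)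
            linarith
          have h8 : -(δ / 2) * (T n * F.card) ≤ -(δ / 2) * T n := by
            have : T n * 1 ≤ T n * F.card := mul_le_mul_of_nonneg_left hFr hTn.le
            nlinarith
          linarith
  obtain ⟨w, hw0, hw⟩ := ksub' hKSUB K S U T A X (C * S.card + C + sb) (δ / 2) hS hAK hG.lim hdet
    (by positivity) hXle hprod
  apply hw0
  funext k
  have h1 := y_ind hI (fun k => (w k : ℚ)) ?_ k
  · exact_mod_cast h1
  · filter_upwards [hw, hC] with n hn hCn
    have hΔq : (Δ n : ℚ) ≠ 0 := by exact_mod_cast (hΔ0 n).ne'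
    have h2 : (Δ n : ℚ) * ∑ k, (w k : ℚ) * y E g Z k n = 0 := by
      rw [Finset.mul_sum]
      have h3 : ((∑ k, w k * X n k : ℤ) : ℚ) = 0 := by rw [hn]; rfl
      rw [← h3]
      push_cast
      refine Finset.sum_congr rfl fun k _ => ?_
      rw [← hX n k hCn]
      ring
    exact (mul_eq_zero.mp h2).resolve_left hΔq

end KS2T_

open S2Tp KS2T_

/-- the version with individual exponents -/
theorem ks2v_proof (hKSUB : Stmt_KSUB) (hSIM : Stmt_SIM) (hVOR : Stmt_VOR) :
    ∀ (K : IntermediateField ℚ ℝ) [FiniteDimensional ℚ K] (U : Ultrafilter ℕ) (S : Finset ℕ)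
      (T : ℕ → ℝ) (r d : ℕ) (g : Fin r → ℕ → ℚ) (Z : Fin d → ℕ → ℤ) (b : Fin d → ℝ) (δ : ℝ)
      (D : Fin d → MvPolynomial (Fin r) ℝ), Gd U S T g → (∀ i, 0 ≤ b i) → 0 < δ →
      (∀ᶠ n in (U : Filter ℕ), ∀ i, |(Z i n : ℝ)| ≤ Real.exp (b i * T n)) → Indp U g Z →
      (∀ i e, MvPolynomial.coeff e (D i) ∈ K) → ∀ i, ∀ e ∈ (D i).support,
        ∀ᶠ n in (U : Filter ℕ), av 0 (mon g e n) ≤
          Real.exp ((∑ i, b i + δ) * T n) * |∑ i, evR g n (D i) * (Z i n : ℝ)| := by
  intro K _ U S T r d g Z b δ D hG hb hδ hZ hI hDK i e he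
  obtain ⟨lt, hlt, hadd, hle⟩ := hVOR U 0 r g (Or.inl rfl) fun i n => (hG.unit i n).pos
  obtain ⟨a, ha, hmax⟩ := exmax hlt (D i).support ⟨e, he⟩
  have h1 := KS2T_.core hKSUB hSIM K U S T r d g Z b δ D hG hb hδ hZ hI hDK lt hlt hadd i a ha
    hmax
  rcases hmax e he with rfl | hea
  · exact h1
  · filter_upwards [h1, hle e a hea] with n hn hn2
    exact hn2.trans hn

/-- module KS2T -/
theorem ks2t_proof (hKSUB : Stmt_KSUB) (hSIM : Stmt_SIM) (hVOR : Stmt_VOR) : Stmt_KS2T := by
  intro K _ U S T r d g Z B δ D hG hB hδ hZ hI hDK i e he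
  have h := ks2v_proof hKSUB hSIM hVOR K U S T r d g Z (fun _ => B) δ D hG (fun _ => hB) hδ hZ
    hI hDK i e he
  simpa [Finset.sum_const, Finset.card_univ, nsmul_eq_mul] using h

end Pool.Agent.SBT
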