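import Pool.Agent.SBT.StmtsK

/-!
# SBT (MP_175f55_nt), module KSB: the coefficients of a product of real linear forms
-/

set_option autoImplicit false

namespace Pool.Agent.SBT

namespace KSB_

open MvPolynomial

variable {m M : ℕ} {K : ℝ} {γ : Fin m → Fin M → Fin (M + 1) → ℝ} {a : Fin m → Fin (M + 1) → ℝ}
  {T : Fin m → ℝ} {b : Fin (M + 1) → ℝ} {β : ℝ}

/-- the bound for the coefficients -/
def Bd (T : Fin m → ℝ) (β : ℝ) (Q : MvPolynomial ((Fin m × Fin M) ⊕ Fin m) ℝ)
    (C0 E : ℝ) : Prop :=
  ∀ e, |coeff e Q| ≤ C0 * Real.exp (E + β * ∑ h, (e (Sum.inr h) : ℝ) * T h)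

theorem bd_one : Bd (M := M) T β 1 1 0 := by
  classical
  intro e
  rw [coeff_one]
  by_cases h : 0 = e
  · subst h
    simp
  · rw [if_neg h, abs_zero]
    positivity

theorem bd_step (hK : 1 ≤ K) (hT : ∀ h, 0 ≤ T h) (hb : ∀ i, |b i| ≤ β)
    (ha : ∀ h i, |a h i| ≤ K) (hγ : ∀ h j i, |γ h j i| ≤ Real.exp (b i * T h))
    {Q : MvPolynomial ((Fin m × Fin M) ⊕ Fin m) ℝ} {C0 E : ℝ} (hC : 0 ≤ C0)
    (hQ : Bd T β Q C0 E) (h : Fin m) (i : Fin (M + 1)) :
    Bd T β (cmbR γ a (h, i) * Q) ((M + 1) * K * C0) (E + b i * T h) := by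
  classical
  intro e
  set W : ℝ := β * ∑ h, (e (Sum.inr h) : ℝ) * T h with hW
  have e1 : coeff e (cmbR γ a (h, i) * Q) =
      ∑ j, γ h j i * coeff e (X (Sum.inl (h, j)) * Q) + a h i * coeff e (X (Sum.inr h) * Q) := by
    unfold cmbR
    rw [add_mul, Finset.sum_mul, coeff_add, coeff_sum]
    congr 1
    · refine Finset.sum_congr rfl fun j _ => ?_
      rw [mul_assoc, coeff_C_mul]
    · rw [mul_assoc, coeff_C_mul]
  have b1 : ∀ j, |γ h j i * coeff e (X (Sum.inl (h, j)) * Q)| ≤
      K * C0 * Real.exp (E + b i * T h + W) := by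
    intro j
    rw [abs_mul]
    have c1 : |coeff e (X (Sum.inl (h, j)) * Q)| ≤ C0 * Real.exp (E + W) := by
      rw [coeff_X_mul']
      split_ifs with hs
      · obtain ⟨e', he'⟩ : ∃ e' : ((Fin m × Fin M) ⊕ Fin m) →₀ ℕ,
          e' = e - Finsupp.single (Sum.inl (h, j)) 1 := ⟨_, rfl⟩
        have e2 : ∀ h', e' (Sum.inr h') = e (Sum.inr h') := by
          intro h'
          simp [he']
        have := hQ e'
        simp only [e2] at this
        rw [← he']
        exact this
      · rw [abs_zero]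
        positivity
    calc |γ h j i| * |coeff e (X (Sum.inl (h, j)) * Q)|
        ≤ Real.exp (b i * T h) * (C0 * Real.exp (E + W)) :=
          mul_le_mul (hγ h j i) c1 (abs_nonneg _) (Real.exp_pos _).le
      _ = C0 * Real.exp (E + b i * T h + W) := by
          rw [show E + b i * T h + W = b i * T h + (E + W) by ring, Real.exp_add (b i * T h)]
          ring
      _ ≤ K * C0 * Real.exp (E + b i * T h + W) := by
          have p : 0 ≤ C0 * Real.exp (E + b i * T h + W) := by positivity
          nlinarith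
  have b2 : |a h i * coeff e (X (Sum.inr h) * Q)| ≤
      K * C0 * Real.exp (E + b i * T h + W) := by
    rw [abs_mul]
    have c1 : |coeff e (X (Sum.inr h) * Q)| ≤ C0 * Real.exp (E + b i * T h + W) := by
      rw [coeff_X_mul']
      split_ifs with hs
      · obtain ⟨e', he'⟩ : ∃ e' : ((Fin m × Fin M) ⊕ Fin m) →₀ ℕ,
          e' = e - Finsupp.single (Sum.inr h) 1 := ⟨_, rfl⟩
        rw [← he']
        have h1 := hQ e'
        have h2 : ∑ h', (e' (Sum.inr h') : ℝ) * T h' =
            ∑ h', (e (Sum.inr h') : ℝ) * T h' - T h := by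
          have e3 : ∀ h', (e' (Sum.inr h') : ℝ) * T h' =
              (e (Sum.inr h') : ℝ) * T h' - (if h' = h then T h else 0) := by
            intro h'
            rw [he']
            by_cases hh : h' = h
            · subst hh
              have hpos : 1 ≤ e (Sum.inr h') := by
                have := Finsupp.mem_support_iff.1 hs
                omega
              rw [Finsupp.tsub_apply, Finsupp.single_eq_same, if_pos rfl, Nat.cast_sub hpos]
              push_cast
              ring
            · have hne : (Sum.inr h' : (Fin m × Fin M) ⊕ Fin m) ≠ Sum.inr h := by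
                intro hc
                exact hh (Sum.inr_injective hc)
              rw [if_neg hh]
              simp [Finsupp.tsub_apply, Finsupp.single_eq_of_ne hne]
          simp only [e3, Finset.sum_sub_distrib, Finset.sum_ite_eq', Finset.mem_univ, if_true]
        refine h1.trans (mul_le_mul_of_nonneg_left (Real.exp_le_exp.2 ?_) hC)
        rw [h2, mul_sub, ← hW]
        have h3 : -β ≤ b i := (abs_le.1 (hb i)).1
        nlinarith [hT h]
      · rw [abs_zero]
        positivity
    calc |a h i| * |coeff e (X (Sum.inr h) * Q)|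
        ≤ K * (C0 * Real.exp (E + b i * T h + W)) :=
          mul_le_mul (ha h i) c1 (abs_nonneg _) (by linarith)
      _ = K * C0 * Real.exp (E + b i * T h + W) := by ring
  rw [e1]
  refine (abs_add_le _ _).trans ?_
  have b3 : |∑ j, γ h j i * coeff e (X (Sum.inl (h, j)) * Q)| ≤
      M * (K * C0 * Real.exp (E + b i * T h + W)) := by
    refine (Finset.abs_sum_le_sum_abs _ _).trans ?_
    refine (Finset.sum_le_card_nsmul _ _ _ (fun j _ => b1 j)).trans ?_
    simp
  linarith

theorem bd_pow (hK : 1 ≤ K) (hT : ∀ h, 0 ≤ T h) (hb : ∀ i, |b i| ≤ β)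
    (ha : ∀ h i, |a h i| ≤ K) (hγ : ∀ h j i, |γ h j i| ≤ Real.exp (b i * T h))
    {Q : MvPolynomial ((Fin m × Fin M) ⊕ Fin m) ℝ} {C0 E : ℝ} (hC : 0 ≤ C0)
    (hQ : Bd T β Q C0 E) (h : Fin m) (i : Fin (M + 1)) (n : ℕ) :
    Bd T β (cmbR γ a (h, i) ^ n * Q) (((M + 1) * K) ^ n * C0) (E + n * (b i * T h)) := by
  induction n with
  | zero => simpa using hQ
  | succ n ih =>
    have h1 := bd_step hK hT hb ha hγ (by positivity) ih h i
    have e1 : cmbR γ a (h, i) ^ (n + 1) * Q =
        cmbR γ a (h, i) * (cmbR γ a (h, i) ^ n * Q) := by ring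
    have e2 : ((M + 1) * K) ^ (n + 1) * C0 = (M + 1) * K * (((M + 1) * K) ^ n * C0) := by ring
    have e3 : E + ((n + 1 : ℕ) : ℝ) * (b i * T h) = E + n * (b i * T h) + b i * T h := by
      push_cast; ring
    rw [e1, e2, e3]
    exact h1

end KSB_

open KSB_ MvPolynomial in
theorem ksb_proof : Stmt_KSB := by
  classical
  intro m M K γ a T b β hK hT hb ha hγ s e
  have main : ∀ F : Finset (Fin m × Fin (M + 1)),
      Bd T β (∏ x ∈ F, cmbR γ a x ^ s x) (((M + 1) * K) ^ (∑ x ∈ F, s x))
        (∑ x ∈ F, (s x : ℝ) * (b x.2 * T x.1)) := by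
    intro F
    induction F using Finset.induction_on with
    | empty => simpa using bd_one (M := M) (T := T) (β := β)
    | insert x F hx ih =>
      rw [Finset.prod_insert hx, Finset.sum_insert hx, Finset.sum_insert hx]
      have h1 := bd_pow hK hT hb ha hγ (by positivity) ih x.1 x.2 (s x)
      have e2 : ((M + 1) * K) ^ (s x + ∑ x ∈ F, s x) =
          ((M + 1) * K) ^ s x * ((M + 1) * K) ^ (∑ x ∈ F, s x) := pow_add _ _ _
      rw [e2, add_comm ((s x : ℝ) * (b x.2 * T x.1))]
      exact h1
  have h := main Finset.univ e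
  have e1 : bind₁ (cmbR γ a) (monomial s (1 : ℝ)) = ∏ x, cmbR γ a x ^ s x := by
    rw [bind₁_monomial, map_one, one_mul]
    apply Finset.prod_subset (Finset.subset_univ _)
    intro x _ hx
    rw [Finsupp.notMem_support_iff.1 hx, pow_zero]
  rw [e1]
  rw [Fintype.sum_prod_type (fun x => (s x : ℝ) * (b x.2 * T x.1))] at h
  exact h

end Pool.Agent.SBT
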