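import Pool.Agent.SBT.StmtsK

/-!
# SBT (MP_175f55_nt), module KSI: the identity det^d * phi, real matrix
-/

set_option autoImplicit false

namespace Pool.Agent.SBT

namespace KSI_

open MvPolynomial

theorem key {m M : ℕ} (A : Matrix (Fin (M + 1)) (Fin (M + 1)) ℝ)
    (g : Fin m → Fin M → Fin (M + 1) → ℤ) (k : Fin m → Fin (M + 1))
    (hk : Fin m × Fin (M + 1)) :
    ∑ i, C (A.adjugate hk.2 i) *
        cmbR (fun h j i => ∑ l, A i l * (g h j l : ℝ)) (fun h i => A i (k h)) (hk.1, i) =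
      C A.det * ((∑ j, C (g hk.1 j hk.2 : ℝ) * X (Sum.inl (hk.1, j))) +
        if hk.2 = k hk.1 then X (Sum.inr hk.1) else 0) := by
  have hadj : ∀ l, ∑ i, A.adjugate hk.2 i * A i l = if hk.2 = l then A.det else 0 := by
    intro l
    have h := congrFun (congrFun (Matrix.adjugate_mul A) hk.2) l
    rw [Matrix.mul_apply, Matrix.smul_apply, Matrix.one_apply] at h
    rw [h]
    split_ifs <;> simp
  have h1 : ∀ j, ∑ i, A.adjugate hk.2 i * ∑ l, A i l * (g hk.1 j l : ℝ)
      = A.det * (g hk.1 j hk.2 : ℝ) := by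
    intro j
    simp_rw [Finset.mul_sum, ← mul_assoc]
    rw [Finset.sum_comm]
    simp_rw [← Finset.sum_mul, hadj]
    simp
  unfold cmbR
  simp only [mul_add, Finset.sum_add_distrib]
  congr 1
  · simp_rw [Finset.mul_sum]
    rw [Finset.sum_comm]
    refine Finset.sum_congr rfl fun j _ => ?_
    simp_rw [← mul_assoc, ← C_mul]
    rw [← Finset.sum_mul, ← h1 j]
    congr 1
    rw [map_sum]
  · simp_rw [← mul_assoc, ← C_mul]
    rw [← Finset.sum_mul, ← map_sum, hadj]
    split_ifs <;> simp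

theorem pow_out {m N : ℕ} {τ : Type} (d : Fin m → ℕ) (P : MvPolynomial (Fin m × Fin N) ℝ)
    (hP : ∀ e ∈ P.support, ∀ h, ∑ k, e (h, k) = d h) (D : ℝ)
    (x : Fin m × Fin N → MvPolynomial τ ℝ) :
    bind₁ (fun hk => C D * x hk) P = C (D ^ (∑ h, d h)) * bind₁ x P := by
  unfold bind₁
  rw [aeval_def, aeval_def, eval₂_eq', eval₂_eq', Finset.mul_sum]
  refine Finset.sum_congr rfl fun s hs => ?_
  have h1 : ∏ i, (C D * x i) ^ s i = C (D ^ (∑ h, d h)) * ∏ i, x i ^ s i := by
    simp_rw [mul_pow]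
    rw [Finset.prod_mul_distrib, Finset.prod_pow_eq_pow_sum]
    congr 1
    rw [map_pow]
    congr 1
    rw [Fintype.sum_prod_type]
    exact Finset.sum_congr rfl fun h _ => hP s hs h
  rw [h1]
  ring

theorem support_toR {m N : ℕ} {d : Fin m → ℕ} {P : MvPolynomial (Fin m × Fin N) ℤ}
    (hP : MH d P) : ∀ e ∈ (toR P).support, ∀ h, ∑ k, e (h, k) = d h := by
  intro e he
  apply hP
  rw [mem_support_iff] at he ⊢
  intro h0
  apply he
  unfold toR
  rw [coeff_map, h0, map_zero]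

theorem toR_phi {m M : ℕ} (g : Fin m → Fin M → Fin (M + 1) → ℤ) (k : Fin m → Fin (M + 1))
    (P : MvPolynomial (Fin m × Fin (M + 1)) ℤ) :
    toR (phi g k P) = bind₁ (fun hk : Fin m × Fin (M + 1) =>
      (∑ j, C (g hk.1 j hk.2 : ℝ) * X (Sum.inl (hk.1, j))) +
        if hk.2 = k hk.1 then X (Sum.inr hk.1) else 0) (toR P) := by
  unfold toR phi
  rw [map_bind₁]
  congr 1
  congr 1
  funext hk
  rw [map_add, map_sum]
  congr 1
  · refine Finset.sum_congr rfl fun j _ => ?_
    rw [map_mul, map_C, map_X]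
    rfl
  · split_ifs with h
    · rw [map_X]
    · rw [map_zero]

end KSI_

open MvPolynomial in
theorem ksi_proof : Stmt_KSI := by
  intro m M A d g k P hP
  have h1 : (fun hk : Fin m × Fin (M + 1) =>
      bind₁ (cmbR (fun h j i => ∑ l, A i l * (g h j l : ℝ)) (fun h i => A i (k h)))
        (∑ i, C (A.adjugate hk.2 i) * X (hk.1, i))) =
      fun hk => C A.det * ((∑ j, C (g hk.1 j hk.2 : ℝ) * X (Sum.inl (hk.1, j))) +
        if hk.2 = k hk.1 then X (Sum.inr hk.1) else 0) := by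
    funext hk
    rw [map_sum]
    simp only [map_mul, bind₁_X_right, algHom_C, algebraMap_eq]
    exact KSI_.key A g k hk
  rw [KSI_.toR_phi]
  unfold linR
  rw [bind₁_bind₁, h1, KSI_.pow_out d (toR P) (KSI_.support_toR hP)]

end Pool.Agent.SBT
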