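import Pool.Agent.SBT.StmtsK
import Pool.Agent.SBT.SM1

/-!
# Squad SBT, module KSM: the coefficients of `phi g k P` at the infinite place (real forms)
-/

set_option autoImplicit false

namespace Pool.Agent.SBT

namespace KSM_

open MvPolynomial

/-- `l^1` norm of a real polynomial -/
noncomputable def nr {σ : Type} (P : MvPolynomial σ ℝ) : ℝ := ∑ s ∈ P.support, |P.coeff s|

section nr

variable {σ : Type}

theorem nr_nonneg (P : MvPolynomial σ ℝ) : 0 ≤ nr P :=
  Finset.sum_nonneg fun _ _ => abs_nonneg _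

theorem nr_zero : nr (0 : MvPolynomial σ ℝ) = 0 := by simp [nr]

theorem nr_eq_sum (P : MvPolynomial σ ℝ) (F : Finset (σ →₀ ℕ)) (hF : P.support ⊆ F) :
    nr P = ∑ s ∈ F, |P.coeff s| := by
  unfold nr
  refine Finset.sum_subset hF fun s _ hs => ?_
  rw [MvPolynomial.notMem_support_iff] at hs
  simp [hs]

theorem nr_monomial (s : σ →₀ ℕ) (a : ℝ) : nr (monomial s a) = |a| := by
  classical
  rw [nr_eq_sum (monomial s a) {s} support_monomial_subset]
  simp

theorem nr_C (a : ℝ) : nr (C a : MvPolynomial σ ℝ) = |a| := nr_monomial 0 a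

theorem nr_one : nr (1 : MvPolynomial σ ℝ) = 1 := by
  rw [← MvPolynomial.C_1, nr_C]; simp

theorem nr_X (i : σ) : nr (X i : MvPolynomial σ ℝ) = 1 := by
  rw [MvPolynomial.X, nr_monomial]; simp

theorem nr_add_le (P Q : MvPolynomial σ ℝ) : nr (P + Q) ≤ nr P + nr Q := by
  classical
  rw [nr_eq_sum (P + Q) (P.support ∪ Q.support) MvPolynomial.support_add,
    nr_eq_sum P (P.support ∪ Q.support) Finset.subset_union_left,
    nr_eq_sum Q (P.support ∪ Q.support) Finset.subset_union_right, ← Finset.sum_add_distrib]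
  refine Finset.sum_le_sum fun s _ => ?_
  rw [MvPolynomial.coeff_add]
  exact abs_add_le _ _

theorem nr_sum_le {ι : Type*} (F : Finset ι) (P : ι → MvPolynomial σ ℝ) :
    nr (∑ i ∈ F, P i) ≤ ∑ i ∈ F, nr (P i) := by
  classical
  induction F using Finset.induction_on with
  | empty => simp [nr_zero]
  | insert a F ha ih =>
    rw [Finset.sum_insert ha, Finset.sum_insert ha]
    exact (nr_add_le _ _).trans (add_le_add le_rfl ih)

theorem nr_mul_le (P Q : MvPolynomial σ ℝ) : nr (P * Q) ≤ nr P * nr Q := by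
  classical
  have h : P * Q = ∑ s ∈ P.support, ∑ t ∈ Q.support,
      monomial (s + t) (P.coeff s * Q.coeff t) := by
    conv_lhs => rw [P.as_sum, Q.as_sum]
    rw [Finset.sum_mul_sum]
    refine Finset.sum_congr rfl fun s _ => Finset.sum_congr rfl fun t _ => ?_
    rw [MvPolynomial.monomial_mul]
  rw [h]
  refine (nr_sum_le _ _).trans ?_
  unfold nr
  rw [Finset.sum_mul_sum]
  refine Finset.sum_le_sum fun s _ => ?_
  refine (nr_sum_le _ _).trans (Finset.sum_le_sum fun t _ => ?_)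
  rw [nr_monomial, abs_mul]

theorem nr_pow_le (P : MvPolynomial σ ℝ) (k : ℕ) : nr (P ^ k) ≤ nr P ^ k := by
  induction k with
  | zero => simp [nr_one]
  | succ k ih =>
    rw [pow_succ, pow_succ]
    exact (nr_mul_le _ _).trans (mul_le_mul_of_nonneg_right ih (nr_nonneg _))

theorem nr_prod_le {ι : Type*} (F : Finset ι) (P : ι → MvPolynomial σ ℝ) :
    nr (∏ i ∈ F, P i) ≤ ∏ i ∈ F, nr (P i) := by
  classical
  induction F using Finset.induction_on with
  | empty => simp [nr_one]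
  | insert a F ha ih =>
    rw [Finset.prod_insert ha, Finset.prod_insert ha]
    exact (nr_mul_le _ _).trans (mul_le_mul_of_nonneg_left ih (nr_nonneg _))

end nr

variable {m N : ℕ}

theorem nr_linform (B : Matrix (Fin N) (Fin N) ℝ) (β : ℝ) (hB : ∀ k i, |B k i| ≤ β)
    (h : Fin m) (k : Fin N) :
    nr (∑ i, C (B k i) * X (h, i) : MvPolynomial (Fin m × Fin N) ℝ) ≤ N * β := by
  refine (nr_sum_le _ _).trans ?_
  calc ∑ i, nr (C (B k i) * X (h, i) : MvPolynomial (Fin m × Fin N) ℝ) ≤ ∑ _i : Fin N, β := by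
        refine Finset.sum_le_sum fun i _ => (nr_mul_le _ _).trans ?_
        rw [nr_C, nr_X, mul_one]
        exact hB k i
    _ = N * β := by simp

theorem nr_lin_monomial (B : Matrix (Fin N) (Fin N) ℝ) (β : ℝ) (hβ : 0 ≤ β)
    (hB : ∀ k i, |B k i| ≤ β) (s : (Fin m × Fin N) →₀ ℕ) (c : ℝ) :
    nr (linR B (monomial s c)) ≤ |c| * (N * β) ^ (∑ hk, s hk) := by
  unfold linR
  rw [bind₁_monomial]
  refine (nr_mul_le _ _).trans ?_
  rw [nr_C]
  refine mul_le_mul_of_nonneg_left ?_ (abs_nonneg _)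
  refine (nr_prod_le _ _).trans ?_
  have hNβ : 0 ≤ (N : ℝ) * β := by positivity
  calc ∏ hk ∈ s.support, nr ((∑ i, C (B hk.2 i) * X (hk.1, i) :
        MvPolynomial (Fin m × Fin N) ℝ) ^ s hk)
      ≤ ∏ hk ∈ s.support, (N * β) ^ s hk := by
        refine Finset.prod_le_prod (fun _ _ => nr_nonneg _) fun hk _ => ?_
        refine (nr_pow_le _ _).trans ?_
        exact pow_le_pow_left₀ (nr_nonneg _) (nr_linform B β hB hk.1 hk.2) _
    _ = (N * β) ^ (∑ hk, s hk) := by
        rw [Finset.prod_pow_eq_pow_sum]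
        congr 1
        refine Finset.sum_subset (Finset.subset_univ _) fun x _ hx => ?_
        exact Finsupp.notMem_support_iff.mp hx

theorem coeff_toR {σ : Type} (P : MvPolynomial σ ℤ) (e : σ →₀ ℕ) :
    coeff e (toR P) = ((coeff e P : ℤ) : ℝ) := by
  unfold toR
  rw [coeff_map]
  simp

theorem support_toR {σ : Type} (P : MvPolynomial σ ℤ) : (toR P).support = P.support := by
  ext e
  rw [mem_support_iff, mem_support_iff, coeff_toR]
  exact Int.cast_ne_zero

theorem nr_toR {σ : Type} (P : MvPolynomial σ ℤ) : nr (toR P) = nm P := by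
  unfold nr nm
  rw [support_toR]
  exact Finset.sum_congr rfl fun s _ => by rw [coeff_toR]

theorem nr_lin (B : Matrix (Fin N) (Fin N) ℝ) (β : ℝ) (hβ : 0 ≤ β)
    (hB : ∀ k i, |B k i| ≤ β) {d : Fin m → ℕ} {P : MvPolynomial (Fin m × Fin N) ℤ}
    (hP : MH d P) : nr (linR B (toR P)) ≤ nm P * (N * β) ^ (∑ h, d h) := by
  have h1 : linR B (toR P) = ∑ s ∈ P.support, linR B (monomial s ((P.coeff s : ℤ) : ℝ)) := by
    conv_lhs => rw [(toR P).as_sum]
    unfold linR
    rw [map_sum, support_toR]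
    exact Finset.sum_congr rfl fun s _ => by rw [coeff_toR]
  rw [h1]
  refine (nr_sum_le _ _).trans ?_
  have h2 : nm P * (N * β) ^ (∑ h, d h) =
      ∑ s ∈ P.support, |((P.coeff s : ℤ) : ℝ)| * (N * β) ^ (∑ h, d h) := by
    unfold nm
    rw [Finset.sum_mul]
  rw [h2]
  refine Finset.sum_le_sum fun s hs => ?_
  rw [← SM1_.MH_sum hP hs]
  exact nr_lin_monomial B β hβ hB s _

theorem lin_degree (B : Matrix (Fin N) (Fin N) ℝ) {d : Fin m → ℕ}
    {P : MvPolynomial (Fin m × Fin N) ℤ} (hP : MH d P) {e : (Fin m × Fin N) →₀ ℕ}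
    (he : e ∈ (linR B (toR P)).support) : ∑ hk, e hk = ∑ h, d h := by
  have hom : (toR P).IsHomogeneous (∑ h, d h) := by
    intro e he
    have he' : e ∈ P.support := by
      rw [← support_toR]
      exact MvPolynomial.mem_support_iff.mpr he
    have h1 := SM1_.MH_sum hP he'
    rw [← h1, Finsupp.weight_apply, Finsupp.sum_fintype _ _ (by simp)]
    simp
  have hom2 : (linR B (toR P)).IsHomogeneous (1 * ∑ h, d h) := by
    unfold linR
    apply hom.aeval
    intro hk
    apply IsHomogeneous.sum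
    intro i _
    exact isHomogeneous_C_mul_X _ _
  have h2 := hom2 (MvPolynomial.mem_support_iff.mp he)
  rw [one_mul, Finsupp.weight_apply, Finsupp.sum_fintype _ _ (by simp)] at h2
  simpa using h2

theorem exists_bound (B : Matrix (Fin N) (Fin N) ℝ) :
    ∃ β : ℝ, 1 ≤ β ∧ ∀ k i, |B k i| ≤ β := by
  refine ⟨1 + ∑ k, ∑ i, |B k i|, ?_, fun k i => ?_⟩
  · have : 0 ≤ ∑ k, ∑ i, |B k i| :=
      Finset.sum_nonneg fun _ _ => Finset.sum_nonneg fun _ _ => abs_nonneg _
    linarith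
  · have h1 : |B k i| ≤ ∑ i, |B k i| :=
      Finset.single_le_sum (f := fun i => |B k i|)
        (fun _ _ => abs_nonneg _) (Finset.mem_univ i)
    have h2 : ∑ i, |B k i| ≤ ∑ k, ∑ i, |B k i| :=
      Finset.single_le_sum (f := fun k => ∑ i, |B k i|)
        (fun _ _ => Finset.sum_nonneg fun _ _ => abs_nonneg _) (Finset.mem_univ k)
    linarith

end KSM_

open KSM_ MvPolynomial in
theorem ksm_proof (hKSI : Stmt_KSI) (hKSB : Stmt_KSB) : Stmt_KSM := by
  intro M A hdet
  obtain ⟨β₁, hβ₁, hβ₁'⟩ := exists_bound A.adjugate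
  obtain ⟨K₁, hK₁, hK₁'⟩ := exists_bound A
  obtain ⟨δ, hδ⟩ : ∃ δ : ℝ, δ = |A.det| := ⟨_, rfl⟩
  have hδ0 : 0 < δ := by
    rw [hδ]
    exact abs_pos.mpr hdet
  set K₂ : ℝ := (2 : ℝ) ^ (M + 1) * (((M + 1 : ℕ) : ℝ) * β₁) * ((M + 1) * K₁) / δ with hK₂
  have hK₂0 : 0 ≤ K₂ := by positivity
  refine ⟨max 1 K₂, le_max_left _ _, ?_⟩
  intro m d T b β C₁ E g k P hT hb hC₁ hMH hHB hg hE e
  set D := ∑ h, d h with hD
  set Q := linR A.adjugate (toR P) with hQ
  set Ex : ℝ := Real.exp (E + β * ∑ h, (e (Sum.inr h) : ℝ) * T h) with hEx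
  have hEx0 : 0 < Ex := Real.exp_pos _
  -- the identity
  have hid := hKSI m M A d g k P hMH
  rw [← hD, ← hQ] at hid
  have hco := congrArg (coeff e) hid
  rw [coeff_C_mul, coeff_toR] at hco
  -- expand Q
  have hexp : coeff e (bind₁ (cmbR (fun h j i => ∑ l, A i l * (g h j l : ℝ))
      (fun h i => A i (k h))) Q) =
      ∑ s ∈ Q.support, Q.coeff s * coeff e (bind₁ (cmbR (fun h j i => ∑ l, A i l * (g h j l : ℝ))
        (fun h i => A i (k h))) (monomial s (1 : ℝ))) := by
    conv_lhs => rw [Q.as_sum]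
    rw [map_sum, coeff_sum]
    refine Finset.sum_congr rfl fun s _ => ?_
    have : (monomial s (Q.coeff s) : MvPolynomial (Fin m × Fin (M + 1)) ℝ) =
        C (Q.coeff s) * monomial s 1 := by
      rw [C_mul_monomial, mul_one]
    rw [this, map_mul, bind₁_C_right, coeff_C_mul]
  rw [hexp] at hco
  -- absolute values
  have hav : δ ^ D * |((coeff e (phi g k P) : ℤ) : ℝ)| =
      |∑ s ∈ Q.support, Q.coeff s * coeff e (bind₁ (cmbR (fun h j i => ∑ l, A i l *
        (g h j l : ℝ)) (fun h i => A i (k h))) (monomial s (1 : ℝ)))| := by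
    rw [← hco, hδ, abs_mul, abs_pow]
  have hterm : ∀ s ∈ Q.support, |Q.coeff s * coeff e (bind₁ (cmbR (fun h j i =>
      ∑ l, A i l * (g h j l : ℝ)) (fun h i => A i (k h))) (monomial s (1 : ℝ)))| ≤
      |Q.coeff s| * (((M + 1) * K₁) ^ D * Ex) := by
    intro s hs
    rw [abs_mul]
    have h1 := hKSB m M K₁ (fun h j i => ∑ l, A i l * (g h j l : ℝ)) (fun h i => A i (k h))
      T b β hK₁ hT hb (fun h i => hK₁' i (k h)) hg s e
    have hsD : ∑ hi, s hi = D := lin_degree A.adjugate hMH hs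
    rw [hsD] at h1
    have h2 : Real.exp (∑ h, ∑ i, (s (h, i) : ℝ) * (b i * T h) +
        β * ∑ h, (e (Sum.inr h) : ℝ) * T h) ≤ Ex := by
      rw [hEx]
      apply Real.exp_le_exp.mpr
      have := hE s hs
      linarith
    have h3 : |coeff e (bind₁ (cmbR (fun h j i => ∑ l, A i l * (g h j l : ℝ))
        (fun h i => A i (k h))) (monomial s (1 : ℝ)))| ≤ ((M + 1) * K₁) ^ D * Ex :=
      h1.trans (mul_le_mul_of_nonneg_left h2 (by positivity))
    exact mul_le_mul_of_nonneg_left h3 (abs_nonneg _)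
  have hbound : δ ^ D * |((coeff e (phi g k P) : ℤ) : ℝ)| ≤
      nr Q * (((M + 1) * K₁) ^ D * Ex) := by
    rw [hav]
    refine (Finset.abs_sum_le_sum_abs _ _).trans ?_
    refine (Finset.sum_le_sum hterm).trans ?_
    rw [← Finset.sum_mul]
    exact le_refl _
  have hnmQ : nr Q ≤ ((2 : ℝ) ^ (M + 1)) ^ D * C₁ ^ D * (((M + 1 : ℕ) : ℝ) * β₁) ^ D := by
    refine (nr_lin A.adjugate β₁ (by linarith) hβ₁' hMH).trans ?_
    refine mul_le_mul_of_nonneg_right ?_ (by positivity)
    refine (nm_le_card_mul P _ hHB).trans ?_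
    exact mul_le_mul_of_nonneg_right (SM1_.card_support hMH) (by positivity)
  have hδD : 0 < δ ^ D := by positivity
  have hfin : |((coeff e (phi g k P) : ℤ) : ℝ)| ≤ (K₂ * C₁) ^ D * Ex := by
    have h1 : δ ^ D * |((coeff e (phi g k P) : ℤ) : ℝ)| ≤ δ ^ D * ((K₂ * C₁) ^ D * Ex) := by
      refine hbound.trans ?_
      have h2 : δ ^ D * ((K₂ * C₁) ^ D * Ex) =
          ((2 : ℝ) ^ (M + 1)) ^ D * C₁ ^ D * (((M + 1 : ℕ) : ℝ) * β₁) ^ D *
            (((M + 1) * K₁) ^ D * Ex) := by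
        have h3 : δ * (K₂ * C₁) = (2 : ℝ) ^ (M + 1) * C₁ * (((M + 1 : ℕ) : ℝ) * β₁) *
            ((M + 1) * K₁) := by
          rw [hK₂]
          field_simp
        rw [← mul_assoc, ← mul_pow, h3, mul_pow, mul_pow, mul_pow]
        ring
      rw [h2]
      exact mul_le_mul_of_nonneg_right hnmQ (by positivity)
    exact le_of_mul_le_mul_left h1 hδD
  refine hfin.trans ?_
  refine mul_le_mul_of_nonneg_right ?_ hEx0.le
  refine pow_le_pow_left₀ (by positivity) ?_ _
  exact mul_le_mul_of_nonneg_right (le_max_right _ _) (by linarith)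

end Pool.Agent.SBT
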