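import Pool.Agent.SBT.StmtsK
import Pool.Agent.SBT.SML

/-!
# Squad SBT, module KSML: the coefficients of small weight of `phi g k P` vanish, real forms at
the infinite place
-/

set_option autoImplicit false

namespace Pool.Agent.SBT

open Filter

namespace KSML_

open MvPolynomial SML_

/-- `linR` preserves the block degrees -/
lemma linR_MH {m N : ℕ} {d : Fin m → ℕ} {P : MvPolynomial (Fin m × Fin N) ℤ} (hP : MH d P)
    (A : Matrix (Fin N) (Fin N) ℝ) :
    ∀ j ∈ (linR A (toR P)).support, ∀ h, ∑ i, j (h, i) = d h := by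
  intro e he h
  rw [← weight_bw]
  have hfac : ∀ hk : Fin m × Fin N, IsWeightedHomogeneous (bw h)
      (∑ i, C (A hk.2 i) * X (hk.1, i) : MvPolynomial (Fin m × Fin N) ℝ) (bw h hk) := by
    intro hk
    refine IsWeightedHomogeneous.sum _ _ _ fun i _ => ?_
    have h1 := (isWeightedHomogeneous_C (bw h) (A hk.2 i)).mul
      (isWeightedHomogeneous_X ℝ (bw h) (hk.1, i))
    rw [zero_add] at h1
    exact h1
  have hall : IsWeightedHomogeneous (bw h) (linR A (toR P)) (d h) := by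
    unfold linR
    rw [(toR P).as_sum, map_sum]
    refine IsWeightedHomogeneous.sum _ _ _ fun s hs => ?_
    have hs' : s ∈ P.support := support_map_subset (Int.castRingHom ℝ) P hs
    rw [bind₁_monomial]
    have h2 : IsWeightedHomogeneous (bw h) (∏ hk ∈ s.support,
        (∑ i, C (A hk.2 i) * X (hk.1, i) : MvPolynomial (Fin m × Fin N) ℝ) ^ s hk)
        (∑ hk ∈ s.support, s hk • bw h hk) :=
      IsWeightedHomogeneous.prod _ _ _ fun hk _ => (hfac hk).pow _
    have h3 := (isWeightedHomogeneous_C (bw h) (coeff s (toR P))).mul h2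
    rw [zero_add] at h3
    have h4 : ∑ hk ∈ s.support, s hk • bw h hk = d h := by
      have h5 := hP s hs' h
      rw [← weight_bw, Finsupp.weight_apply] at h5
      exact h5
    rw [h4] at h3
    exact h3
  exact hall (mem_support_iff.1 he)

end KSML_

open SML_ KSML_ in
theorem ksml_proof (hSM1 : Stmt_SM1) (hKSM : Stmt_KSM) : Stmt_KSML := by
  intro M S A L c δ hS hA hL hδ hc
  have h0S : 0 ∉ S := fun h => (hS 0 h).ne_zero rfl
  set b : ℕ → Fin (M + 1) → ℝ := fun v i => c v i - if v = 0 then δ else 0 with hb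
  set B : ℝ := ∑ v ∈ pl S, ∑ i, |b v i| + 1 with hB
  have hBnn : 0 ≤ ∑ v ∈ pl S, ∑ i, |b v i| :=
    Finset.sum_nonneg fun v _ => Finset.sum_nonneg fun i _ => abs_nonneg _
  have hB1 : 1 ≤ B := by rw [hB]; linarith
  have hB0 : 0 < B := by linarith
  set n : ℝ := ((pl S).card : ℝ) with hn
  have hn1 : 1 ≤ n := by
    rw [hn]
    have : 1 ≤ (pl S).card := Finset.card_pos.2 ⟨0, Finset.mem_insert_self _ _⟩
    exact_mod_cast this
  have hM0 : (0 : ℝ) < (M : ℝ) + 1 := by positivity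
  -- the sum of the `b`
  have hbsum : ∑ v ∈ pl S, ∑ i, b v i ≤ -((M + 1) * δ) := by
    have h1 : ∑ v ∈ pl S, ∑ i, b v i = ∑ v ∈ pl S, ∑ i, c v i - (M + 1) * δ := by
      simp only [hb, Finset.sum_sub_distrib]
      congr 1
      unfold pl
      rw [Finset.sum_insert h0S]
      simp only [if_true]
      rw [Finset.sum_eq_zero (s := S)]
      · simp
      · intro v hv
        have : v ≠ 0 := fun h => h0S (h ▸ hv)
        simp [this]
    rw [h1]
    linarith
  have hbB : ∀ v ∈ pl S, ∀ i, |b v i| ≤ B := by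
    intro v hv i
    have h1 : |b v i| ≤ ∑ i, |b v i| :=
      Finset.single_le_sum (f := fun i => |b v i|) (fun _ _ => abs_nonneg _) (Finset.mem_univ i)
    have h2 : ∑ i, |b v i| ≤ ∑ v ∈ pl S, ∑ i, |b v i| :=
      Finset.single_le_sum (f := fun v => ∑ i, |b v i|)
        (fun v _ => Finset.sum_nonneg fun i _ => abs_nonneg _) hv
    rw [hB]
    linarith
  refine ⟨δ / (8 * (M + 1) * B), min 1 (δ / (8 * B)), δ / (16 * n * B), by positivity,
    by positivity, by positivity, ?_⟩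
  set ε : ℝ := δ / (8 * (M + 1) * B) with hε
  set κ : ℝ := min 1 (δ / (8 * B)) with hκ
  set σ : ℝ := δ / (16 * n * B) with hσ
  have hε0 : 0 < ε := by positivity
  have hκ0 : 0 < κ := by positivity
  have hσ0 : 0 < σ := by positivity
  have hκ1 : κ ≤ 1 := min_le_left _ _
  have hκB : κ * B ≤ δ / 8 := by
    have h1 : κ ≤ δ / (8 * B) := min_le_right _ _
    calc κ * B ≤ δ / (8 * B) * B := mul_le_mul_of_nonneg_right h1 hB0.le
      _ = δ / 8 := by field_simp
  have hεB : (M + 1) * ε * B = δ / 8 := by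
    rw [hε]
    field_simp
  have hσB : 2 * n * B * σ = δ / 8 := by
    rw [hσ]
    field_simp
    norm_num
  -- constants from SM1 and KSM
  have hex : ∀ v, ∃ K : ℝ, v ∈ pl S → 1 ≤ K ∧ ∀ (m : ℕ) (d : Fin m → ℕ) (T : Fin m → ℝ)
      (b : Fin (M + 1) → ℝ)
      (β C₁ E : ℝ) (g : Fin m → Fin M → Fin (M + 1) → ℤ) (k : Fin m → Fin (M + 1))
      (P : MvPolynomial (Fin m × Fin (M + 1)) ℤ), (∀ h, 0 ≤ T h) → (∀ i, |b i| ≤ β) → 1 ≤ C₁ →
      MH d P → HB P (C₁ ^ (∑ h, d h)) →
      (∀ h j i, vl A L v (g h j) i ≤ Real.exp (b i * T h)) →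
      (∀ j, (if v = 0 then j ∈ (linR A.adjugate (toR P)).support else
        j ∈ (lin (L v).adjugate P).support) →
        ∑ h, ∑ i, (j (h, i) : ℝ) * (b i * T h) ≤ E) →
      ∀ e, av v ((MvPolynomial.coeff e (phi g k P) : ℤ) : ℚ) ≤
        (K * C₁) ^ (∑ h, d h) * Real.exp (E + β * ∑ h, (e (Sum.inr h) : ℝ) * T h) := by
    intro v
    by_cases hv : v ∈ pl S
    · by_cases hv0 : v = 0
      · subst hv0
        obtain ⟨K, hK1, hK⟩ := hKSM M A hA
        refine ⟨K, fun _ => ⟨hK1, ?_⟩⟩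
        intro m d T b β C₁ E g k P h1 h2 h3 h4 h5 h6 h7 e
        have h8 : av 0 ((MvPolynomial.coeff e (phi g k P) : ℤ) : ℚ) =
            |((MvPolynomial.coeff e (phi g k P) : ℤ) : ℝ)| := by
          simp [av]
        rw [h8]
        refine hK m d T b β C₁ E g k P h1 h2 h3 h4 h5 ?_ ?_ e
        · intro h j i
          have := h6 h j i
          simpa [vl] using this
        · intro j hj
          exact h7 j (by rw [if_pos rfl]; exact hj)
      · have hvS : v ∈ S := (Finset.mem_insert.1 hv).resolve_left hv0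
        obtain ⟨K, hK1, hK⟩ := hSM1 M v (L v) (Or.inr (hS v hvS)) (hL v hvS)
        refine ⟨K, fun _ => ⟨hK1, ?_⟩⟩
        intro m d T b β C₁ E g k P h1 h2 h3 h4 h5 h6 h7 e
        refine hK m d T b β C₁ E g k P h1 h2 h3 h4 h5 ?_ ?_ e
        · intro h j i
          have := h6 h j i
          simpa [vl, hv0] using this
        · intro j hj
          exact h7 j (by rw [if_neg hv0]; exact hj)
    · exact ⟨0, fun h => absurd h hv⟩
  choose K hK using hex
  intro C₁ hC₁
  set Λ : ℝ := ∑ v ∈ pl S, Real.log (K v * C₁) with hΛ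
  have hKC : ∀ v ∈ pl S, 1 ≤ K v * C₁ := by
    intro v hv
    have := (hK v hv).1
    nlinarith
  have hΛ0 : 0 ≤ Λ := Finset.sum_nonneg fun v hv => Real.log_nonneg (hKC v hv)
  refine ⟨16 * Λ / δ + 1, by positivity, ?_⟩
  set T₀ : ℝ := 16 * Λ / δ + 1 with hT₀
  have hT₀0 : 0 < T₀ := by positivity
  have hΛT : 2 * Λ / T₀ ≤ δ / 8 := by
    rw [div_le_iff₀ hT₀0, hT₀]
    have h1 : δ / 8 * (16 * Λ / δ + 1) = 2 * Λ + δ / 8 := by
      field_simp
      ring
    rw [h1]
    linarith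
  intro m d T W g k P hm hW hd hdT hT hMH hHB hgood0 hgoodp hg e he
  have hm' : (0 : ℝ) < m := by exact_mod_cast hm
  have hd' : ∀ h, (0 : ℝ) < d h := fun h => by
    have := hd h
    exact_mod_cast this
  have hTp : ∀ h, 0 < T h := fun h => lt_of_lt_of_le hT₀0 (hT h)
  by_contra hcon
  rw [not_lt] at hcon
  have ha : MvPolynomial.coeff e (phi g k P) ≠ 0 := MvPolynomial.mem_support_iff.1 he
  have hpf := prod_av hS ha
  set E : ℕ → ℝ := fun v =>
    W * m * ((∑ i, b v i) / (M + 1) + ((M + 1) * ε + κ) * ∑ i, |b v i|) with hE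
  set X : ℝ := ∑ h, (e (Sum.inr h) : ℝ) * T h with hX
  have hav : ∀ v ∈ pl S, av v ((MvPolynomial.coeff e (phi g k P) : ℤ) : ℚ) ≤
      Real.exp ((∑ h, (d h : ℝ)) * Real.log (K v * C₁) + (E v + B * X)) := by
    intro v hv
    have h1 := (hK v hv).2 m d T (b v) B C₁ (E v) g k P (fun h => (hTp h).le) (hbB v hv) hC₁ hMH
      hHB (fun h j i => hg v hv h j i) (fun j hj => ?_) e
    · refine h1.trans (le_of_eq ?_)
      have h2 : 0 < K v * C₁ := lt_of_lt_of_le one_pos (hKC v hv)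
      have h3 : (∑ h, (d h : ℝ)) * Real.log (K v * C₁) =
          ((∑ h, d h : ℕ) : ℝ) * Real.log (K v * C₁) := by push_cast; rfl
      rw [h3, Real.exp_add (((∑ h, d h : ℕ) : ℝ) * Real.log (K v * C₁)), Real.exp_nat_mul,
        Real.exp_log h2]
    · by_cases hv0 : v = 0
      · rw [if_pos hv0] at hj
        exact est hm hW hκ0.le hε0.le hd hdT (linR_MH hMH _ j hj) (hgood0 j hj) (b v)
      · rw [if_neg hv0] at hj
        have hvS : v ∈ S := (Finset.mem_insert.1 hv).resolve_left hv0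
        exact est hm hW hκ0.le hε0.le hd hdT (lin_MH hMH _ j hj) (hgoodp v hvS j hj) (b v)
  have havnn : ∀ v, 0 ≤ av v ((MvPolynomial.coeff e (phi g k P) : ℤ) : ℚ) := by
    intro v
    unfold av
    split_ifs
    · exact abs_nonneg _
    · exact_mod_cast padicNorm.nonneg _
  have hprod := Finset.prod_le_prod (fun v _ => havnn v) hav
  rw [← Real.exp_sum] at hprod
  have h1 : (1 : ℝ) ≤ Real.exp (∑ v ∈ pl S,
      ((∑ h, (d h : ℝ)) * Real.log (K v * C₁) + (E v + B * X))) := hpf.trans hprod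
  have h2 : 0 ≤ ∑ v ∈ pl S, ((∑ h, (d h : ℝ)) * Real.log (K v * C₁) + (E v + B * X)) := by
    rw [← Real.exp_zero] at h1
    exact Real.exp_le_exp.1 h1
  rw [Finset.sum_add_distrib, Finset.sum_add_distrib, ← Finset.mul_sum, Finset.sum_const,
    nsmul_eq_mul, ← hΛ, ← hn] at h2
  -- the three parts
  have hEs : ∑ v ∈ pl S, E v ≤ W * m * (-δ + δ / 4) := by
    have h3 : ∑ v ∈ pl S, E v = W * m * ((∑ v ∈ pl S, ∑ i, b v i) / (M + 1) +
        ((M + 1) * ε + κ) * ∑ v ∈ pl S, ∑ i, |b v i|) := by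
      simp only [hE]
      rw [← Finset.mul_sum, Finset.sum_add_distrib, Finset.sum_div, Finset.mul_sum]
    rw [h3]
    refine mul_le_mul_of_nonneg_left ?_ (by positivity)
    have h4 : (∑ v ∈ pl S, ∑ i, b v i) / (M + 1) ≤ -δ := by
      rw [div_le_iff₀ hM0]
      linarith
    have h5 : ((M + 1) * ε + κ) * ∑ v ∈ pl S, ∑ i, |b v i| ≤ δ / 4 := by
      have h6 : ∑ v ∈ pl S, ∑ i, |b v i| ≤ B := by rw [hB]; linarith
      have h7 := mul_le_mul_of_nonneg_left h6 (show (0 : ℝ) ≤ (M + 1) * ε + κ by positivity)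
      have h8 : ((M + 1) * ε + κ) * B = (M + 1) * ε * B + κ * B := by ring
      rw [h8, hεB] at h7
      linarith
    linarith
  have hXs : X ≤ 2 * W * (σ * m) := by
    have h3 : X ≤ ∑ h, (e (Sum.inr h) : ℝ) / d h * (2 * W) := by
      rw [hX]
      refine Finset.sum_le_sum fun h _ => ?_
      rw [div_mul_eq_mul_div, le_div_iff₀ (hd' h)]
      have h4 := (hdT h).2
      have h5 : (0 : ℝ) ≤ e (Sum.inr h) := Nat.cast_nonneg _
      have h6 : d h * T h ≤ 2 * W := by nlinarith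
      calc (e (Sum.inr h) : ℝ) * T h * d h = (e (Sum.inr h) : ℝ) * (d h * T h) := by ring
        _ ≤ (e (Sum.inr h) : ℝ) * (2 * W) := mul_le_mul_of_nonneg_left h6 h5
    rw [← Finset.sum_mul] at h3
    have h7 := mul_le_mul_of_nonneg_right hcon (show (0 : ℝ) ≤ 2 * W by positivity)
    linarith
  have hds : (∑ h, (d h : ℝ)) ≤ 2 * W * m / T₀ := by
    have h3 : ∀ h, (d h : ℝ) ≤ 2 * W / T₀ := by
      intro h
      rw [le_div_iff₀ hT₀0]
      have h4 := (hdT h).2
      have h5 : (d h : ℝ) * T₀ ≤ d h * T h := mul_le_mul_of_nonneg_left (hT h) (hd' h).le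
      nlinarith
    refine (Finset.sum_le_sum fun h _ => h3 h).trans (le_of_eq ?_)
    rw [Finset.sum_const, Finset.card_univ, Fintype.card_fin, nsmul_eq_mul]
    ring
  have hA1 : (∑ h, (d h : ℝ)) * Λ ≤ W * m * (δ / 8) := by
    have h3 := mul_le_mul_of_nonneg_right hds hΛ0
    have h4 : 2 * W * m / T₀ * Λ = W * m * (2 * Λ / T₀) := by ring
    rw [h4] at h3
    exact h3.trans (mul_le_mul_of_nonneg_left hΛT (by positivity))
  have hA2 : n * (B * X) ≤ W * m * (δ / 8) := by
    have h3 := mul_le_mul_of_nonneg_left hXs (show (0 : ℝ) ≤ n * B by positivity)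
    have h4 : n * B * (2 * W * (σ * m)) = W * m * (2 * n * B * σ) := by ring
    rw [h4, hσB] at h3
    linarith
  have hfin : 0 < W * m * δ := by positivity
  nlinarith [h2, hEs, hA1, hA2, hfin]

end Pool.Agent.SBT
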