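import Pool.Agent.SBT.StmtsK
import Pool.Agent.SBT.Api

/-!
# SBT (MP_175f55_nt), module KSUB: the Subspace theorem (real algebraic forms at infinity) from
the parametric one
-/

set_option autoImplicit false

namespace Pool.Agent.SBT

open Filter Topology

namespace KSUB_

/-- a relation with coefficients in `K` gives an integral one -/
theorem rel_of_real (K : IntermediateField ℚ ℝ) {N : ℕ} (a : Fin N → ℝ) (ha : ∀ k, a k ∈ K)
    (k0 : Fin N) (h0 : a k0 ≠ 0) :
    ∃ w : Fin N → ℤ, w ≠ 0 ∧ ∀ x : Fin N → ℤ, ∑ k, a k * (x k : ℝ) = 0 →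
      ∑ k, w k * x k = 0 := by
  obtain ⟨b, hb⟩ : ∃ b : Fin N → K, b = fun k => ⟨a k, ha k⟩ := ⟨_, rfl⟩
  have hba : ∀ k, ((b k : K) : ℝ) = a k := by intro k; rw [hb]
  have hb0 : b k0 ≠ 0 := by
    intro h
    apply h0
    rw [← hba, h]
    rfl
  obtain ⟨lam, hlam⟩ : ∃ lam : K →ₗ[ℚ] ℚ, lam (b k0) ≠ 0 := by
    by_contra h
    push Not at h
    exact hb0 ((Module.forall_dual_apply_eq_zero_iff ℚ (b k0)).mp h)
  obtain ⟨d, hd⟩ : ∃ d : ℕ, d = ∏ j, (lam (b j)).den := ⟨_, rfl⟩
  have hd0 : (d : ℚ) ≠ 0 := by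
    rw [hd]
    exact_mod_cast Finset.prod_ne_zero_iff.mpr fun j _ => (lam (b j)).den_nz
  have hw : ∀ k, ∃ w : ℤ, (w : ℚ) = d * lam (b k) := by
    intro k
    have h1 : (lam (b k)).den ∣ d := by
      rw [hd]
      exact Finset.dvd_prod_of_mem (fun j => (lam (b j)).den) (Finset.mem_univ k)
    obtain ⟨e, he⟩ := h1
    refine ⟨(lam (b k)).num * e, ?_⟩
    rw [he]
    push_cast
    have h2 : ((lam (b k)).den : ℚ) * lam (b k) = (lam (b k)).num := by
      rw [mul_comm]
      exact Rat.mul_den_eq_num _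
    rw [← h2]
    ring
  choose w hw using hw
  refine ⟨w, ?_, ?_⟩
  · intro h
    have h1 := hw k0
    rw [h] at h1
    simp only [Pi.zero_apply, Int.cast_zero] at h1
    exact (mul_ne_zero hd0 hlam) h1.symm
  · intro x hx
    have h1 : ∑ k, b k * (x k : K) = 0 := by
      apply Subtype.ext
      push_cast
      rw [← hx]
      exact Finset.sum_congr rfl fun k _ => by rw [hba]
    have h2 : ∑ k, lam (b k) * (x k : ℚ) = 0 := by
      have h3 := congrArg lam h1
      rw [map_sum, map_zero] at h3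
      rw [← h3]
      refine Finset.sum_congr rfl fun k _ => ?_
      have h4 : b k * (x k : K) = (x k : ℚ) • b k := by
        rw [Algebra.smul_def, mul_comm]
        congr 1
      rw [h4, map_smul, smul_eq_mul, mul_comm]
    have h5 : ((∑ k, w k * x k : ℤ) : ℚ) = 0 := by
      push_cast
      rw [← mul_zero (d : ℚ), ← h2, Finset.mul_sum]
      refine Finset.sum_congr rfl fun k _ => ?_
      rw [hw k, mul_assoc]
    exact_mod_cast h5

theorem vl_zero {N : ℕ} (A : Matrix (Fin N) (Fin N) ℝ) (L : ℕ → Matrix (Fin N) (Fin N) ℤ)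
    (x : Fin N → ℤ) (i : Fin N) : vl A L 0 x i = |∑ k, A i k * (x k : ℝ)| := by
  unfold vl
  rw [if_pos rfl]

theorem vl_ne {N : ℕ} (A : Matrix (Fin N) (Fin N) ℝ) (L : ℕ → Matrix (Fin N) (Fin N) ℤ)
    (x : Fin N → ℤ) (i : Fin N) {v : ℕ} (hv : v ≠ 0) :
    vl A L v x i = av v (fv (L v) x i : ℚ) := by
  unfold vl
  rw [if_neg hv]

theorem vl_nonneg {N : ℕ} (A : Matrix (Fin N) (Fin N) ℝ) (L : ℕ → Matrix (Fin N) (Fin N) ℤ)
    (x : Fin N → ℤ) (i : Fin N) (v : ℕ) : 0 ≤ vl A L v x i := by
  unfold vl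
  split_ifs
  · exact abs_nonneg _
  · exact av_nonneg _ _

end KSUB_

open KSUB_

/-- KSUB -/
theorem ksub_proof (hP : Stmt_KPAR) (hLI : Stmt_KLI) : Stmt_KSUB := by
  intro K _ N S U T A L x C ε hN hS hA hT hAd hL hε hxC hprod
  by_cases hz : ∃ v ∈ pl S, ∃ i, ∀ᶠ n in (U : Filter ℕ), vl A L v (x n) i = 0
  · obtain ⟨v, hv, i, h⟩ := hz
    by_cases hv0 : v = 0
    · subst hv0
      have hrow : ∃ k, A i k ≠ 0 := by
        by_contra hcon
        push Not at hcon
        exact hAd (Matrix.det_eq_zero_of_row_eq_zero i hcon)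
      obtain ⟨k0, hk0⟩ := hrow
      obtain ⟨w, hw0, hw⟩ := rel_of_real K (fun k => A i k) (fun k => hA i k) k0 hk0
      refine ⟨w, hw0, h.mono fun n hn => ?_⟩
      rw [vl_zero, abs_eq_zero] at hn
      exact hw (x n) hn
    · have hvp : v.Prime := (place_of_mem hS hv).resolve_left hv0
      have hvS : v ∈ S := by
        rcases mem_pl.1 hv with h1 | h1
        · exact absurd h1 hv0
        · exact h1
      refine ⟨L v i, fun h0 => hL v hvS (Matrix.det_eq_zero_of_row_eq_zero i fun j =>
        congrFun h0 j), h.mono fun n hn => ?_⟩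
      rw [vl_ne A L (x n) i hv0, av_eq_zero (Or.inr hvp)] at hn
      exact_mod_cast hn
  push Not at hz
  have hnz : ∀ᶠ n in (U : Filter ℕ), ∀ v ∈ pl S, ∀ i, vl A L v (x n) i ≠ 0 := by
    rw [Filter.eventually_all_finset]
    intro v hv
    rw [eventually_all]
    intro i
    exact hz v hv i
  have hT1 := ev_pos hT
  -- Liouville constants
  have hli : ∀ i, ∃ (c : ℝ) (D : ℕ), 0 < c ∧ ∀ (x : Fin N → ℤ) (H : ℝ), 1 ≤ H →
      (∀ i, |(x i : ℝ)| ≤ H) → ∑ k, A i k * (x k : ℝ) ≠ 0 →
      c ≤ |∑ k, A i k * (x k : ℝ)| * H ^ D := fun i => hLI K N (fun k => A i k) (fun k => hA i k)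
  choose cc DD hcc hDD using hli
  -- bounds
  obtain ⟨M, hM0, hM⟩ : ∃ M : ℝ, 0 ≤ M ∧ ∀ v ∈ pl S, ∀ i, ∀ᶠ n in (U : Filter ℕ),
      Real.exp (-M * T n) ≤ vl A L v (x n) i ∧ vl A L v (x n) i ≤ Real.exp (M * T n) := by
    have hone : ∀ v i, ∃ M : ℝ, 0 ≤ M ∧ (v ∈ pl S → ∀ᶠ n in (U : Filter ℕ),
        Real.exp (-M * T n) ≤ vl A L v (x n) i ∧
          vl A L v (x n) i ≤ Real.exp (M * T n)) := by
      intro v i
      by_cases hv : v ∈ pl S
      swap
      · exact ⟨0, le_rfl, fun h => absurd h hv⟩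
      by_cases hv0 : v = 0
      · subst hv0
        refine ⟨(DD i : ℝ) * |C| + |C| + 1, by positivity, fun _ => ?_⟩
        have h1 := ev_const_le_exp hT one_pos (∑ k, |A i k|)
        have h2 := ev_const_le_exp hT one_pos (cc i)⁻¹
        filter_upwards [hnz, hT1, h1, h2, hxC] with n h3 h4 h5 h6 h7
        have hne := h3 0 hv i
        rw [vl_zero] at hne ⊢
        have hH : (1 : ℝ) ≤ Real.exp (|C| * T n) := Real.one_le_exp (by positivity)
        have h8 : ∀ k, |(x n k : ℝ)| ≤ Real.exp (|C| * T n) := fun k =>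
          (h7 k).trans (Real.exp_le_exp.2 (mul_le_mul_of_nonneg_right (le_abs_self C) h4.le))
        constructor
        · have h9 := hDD i (x n) _ hH h8 (fun h0 => hne (by rw [h0, abs_zero]))
          have hccp := hcc i
          have h10 : Real.exp (-(1 * T n)) ≤ cc i := by
            rw [Real.exp_neg]
            exact inv_le_of_inv_le₀ hccp h6
          have h11 : Real.exp (-(1 * T n)) ≤
              |∑ k, A i k * (x n k : ℝ)| * Real.exp ((DD i : ℝ) * |C| * T n) := by
            refine h10.trans (h9.trans_eq ?_)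
            rw [← Real.exp_nat_mul]
            congr 2
            ring
          have h12 : Real.exp (-(1 * T n) - (DD i : ℝ) * |C| * T n) ≤
              |∑ k, A i k * (x n k : ℝ)| := by
            rw [Real.exp_sub, div_le_iff₀ (Real.exp_pos _)]
            exact h11
          refine le_trans (Real.exp_le_exp.2 ?_) h12
          have : 0 ≤ |C| * T n := by positivity
          nlinarith
        · have h9 : |∑ k, A i k * (x n k : ℝ)| ≤ (∑ k, |A i k|) * Real.exp (|C| * T n) := by
            refine (Finset.abs_sum_le_sum_abs _ _).trans ?_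
            rw [Finset.sum_mul]
            refine Finset.sum_le_sum fun k _ => ?_
            rw [abs_mul]
            exact mul_le_mul_of_nonneg_left (h8 k) (abs_nonneg _)
          refine h9.trans ((mul_le_mul_of_nonneg_right h5 (Real.exp_pos _).le).trans ?_)
          rw [← Real.exp_add]
          apply Real.exp_le_exp.2
          have : 0 ≤ (DD i : ℝ) * |C| * T n := by positivity
          nlinarith
      · have hvp : v.Prime := (place_of_mem hS hv).resolve_left hv0
        refine ⟨|C| + 1, by positivity, fun _ => ?_⟩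
        have h1 := ev_const_le_exp hT one_pos (∑ k, |(L v i k : ℝ)|)
        filter_upwards [hnz, hT1, h1, hxC] with n h3 h4 h5 h7
        have hne := h3 v hv i
        rw [vl_ne A L (x n) i hv0] at hne ⊢
        have hf : fv (L v) (x n) i ≠ 0 := by
          intro h0
          apply hne
          rw [h0]
          simp
        have h8 : |((fv (L v) (x n) i : ℤ) : ℝ)| ≤ Real.exp ((|C| + 1) * T n) := by
          unfold fv
          push_cast
          refine (Finset.abs_sum_le_sum_abs _ _).trans ?_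
          calc ∑ k, |(L v i k : ℝ) * (x n k : ℝ)|
              ≤ ∑ k, |(L v i k : ℝ)| * Real.exp (|C| * T n) := by
                refine Finset.sum_le_sum fun k _ => ?_
                rw [abs_mul]
                exact mul_le_mul_of_nonneg_left ((h7 k).trans (Real.exp_le_exp.2
                  (mul_le_mul_of_nonneg_right (le_abs_self C) h4.le))) (abs_nonneg _)
            _ = (∑ k, |(L v i k : ℝ)|) * Real.exp (|C| * T n) := by rw [Finset.sum_mul]
            _ ≤ Real.exp (1 * T n) * Real.exp (|C| * T n) :=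
                mul_le_mul_of_nonneg_right h5 (Real.exp_pos _).le
            _ = Real.exp ((|C| + 1) * T n) := by rw [← Real.exp_add]; ring_nf
        constructor
        · refine le_trans ?_ (inv_abs_le_av (Or.inr hvp) hf)
          rw [neg_mul, Real.exp_neg]
          apply inv_anti₀ _ h8
          have := one_le_abs_int hf
          linarith
        · exact (av_int_le_abs (Or.inr hvp) _).trans h8
    choose M₁ hM₁0 hM₁ using hone
    refine ⟨∑ v ∈ pl S, ∑ i, M₁ v i, Finset.sum_nonneg fun v _ =>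
      Finset.sum_nonneg fun i _ => hM₁0 v i, ?_⟩
    intro v hv i
    have h1 : M₁ v i ≤ ∑ v ∈ pl S, ∑ i, M₁ v i :=
      (Finset.single_le_sum (f := fun i => M₁ v i) (fun j _ => hM₁0 v j)
        (Finset.mem_univ i)).trans
      (Finset.single_le_sum (f := fun v => ∑ i, M₁ v i)
        (fun u _ => Finset.sum_nonneg fun j _ => hM₁0 u j) hv)
    filter_upwards [hM₁ v i hv, hT1] with n h2 h3
    refine ⟨le_trans (Real.exp_le_exp.2 ?_) h2.1, h2.2.trans (Real.exp_le_exp.2 ?_)⟩
    · apply mul_le_mul_of_nonneg_right _ h3.le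
      linarith
    · exact mul_le_mul_of_nonneg_right h1 h3.le
  -- the exponents
  obtain ⟨e, he⟩ : ∃ e : ℕ → Fin N → ℕ → ℝ,
      e = fun v i n => Real.log (vl A L v (x n) i) / T n := ⟨_, rfl⟩
  have hev : ∀ v ∈ pl S, ∀ i, ∀ᶠ n in (U : Filter ℕ),
      vl A L v (x n) i = Real.exp (e v i n * T n) := by
    intro v hv i
    filter_upwards [hnz, hT1] with n h1 h2
    rw [he]
    simp only
    rw [div_mul_cancel₀ _ h2.ne', Real.exp_log]
    exact lt_of_le_of_ne (vl_nonneg A L (x n) i v) (Ne.symm (h1 v hv i))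
  have hbd : ∀ v ∈ pl S, ∀ i, ∀ᶠ n in (U : Filter ℕ), -M ≤ e v i n ∧ e v i n ≤ M := by
    intro v hv i
    filter_upwards [hT1, hM v hv i, hev v hv i] with n h2 h3 h5
    rw [h5] at h3
    exact ⟨le_of_mul_le_mul_right (Real.exp_le_exp.1 h3.1) h2,
      le_of_mul_le_mul_right (Real.exp_le_exp.1 h3.2) h2⟩
  have hlim : ∀ v i, ∃ l : ℝ, v ∈ pl S → Tendsto (e v i) (U : Filter ℕ) (𝓝 l) := by
    intro v i
    by_cases hv : v ∈ pl S
    · obtain ⟨l, -, -, hl⟩ := ult_lim U (e v i) _ _ (hbd v hv i)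
      exact ⟨l, fun _ => hl⟩
    · exact ⟨0, fun h => absurd h hv⟩
  choose l hl using hlim
  -- the sum of the limits
  have hsum : ∑ v ∈ pl S, ∑ i, l v i ≤ -ε := by
    have h1 : Tendsto (fun n => ∑ v ∈ pl S, ∑ i, e v i n) (U : Filter ℕ)
        (𝓝 (∑ v ∈ pl S, ∑ i, l v i)) :=
      tendsto_finsetSum _ fun v hv => tendsto_finsetSum _ fun i _ => hl v i hv
    refine le_of_tendsto h1 ?_
    have h2 : ∀ᶠ n in (U : Filter ℕ), ∀ v ∈ pl S, ∀ i,
        vl A L v (x n) i = Real.exp (e v i n * T n) := by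
      rw [Filter.eventually_all_finset]
      intro v hv
      rw [eventually_all]
      exact hev v hv
    filter_upwards [hprod, h2, hT1] with n h3 h4 h5
    have h6 : ∏ v ∈ pl S, ∏ i, vl A L v (x n) i =
        Real.exp ((∑ v ∈ pl S, ∑ i, e v i n) * T n) := by
      rw [Finset.sum_mul, Real.exp_sum]
      refine Finset.prod_congr rfl fun v hv => ?_
      rw [Finset.sum_mul, Real.exp_sum]
      exact Finset.prod_congr rfl fun i _ => h4 v hv i
    rw [h6] at h3
    exact le_of_mul_le_mul_right (Real.exp_le_exp.1 h3) h5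
  -- new exponents
  obtain ⟨h, hh⟩ : ∃ h : ℝ, h = ε / (2 * (N * (pl S).card + 1)) := ⟨_, rfl⟩
  have hh0 : 0 < h := by rw [hh]; positivity
  have hh1 : (N * (pl S).card : ℝ) * h < ε := by
    have h1 : (2 * ((N : ℝ) * (pl S).card + 1)) * h = ε := by
      rw [hh]
      field_simp
    have h2 : 0 ≤ (N : ℝ) * (pl S).card * h := by positivity
    nlinarith
  obtain ⟨c, hc⟩ : ∃ c : ℕ → Fin N → ℝ,
      c = fun v i => if v = 0 then l v i + h else min 0 (l v i + h) := ⟨_, rfl⟩
  have hcle : ∀ v i, c v i ≤ l v i + h := by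
    intro v i
    rw [hc]
    simp only
    split_ifs
    · exact le_rfl
    · exact min_le_right _ _
  refine hP K N S U T A L c x hN hS hA hT hAd hL ?_ ?_ ?_
  · intro p hp i
    rw [hc]
    simp only
    rw [if_neg (hS p hp).ne_zero]
    exact min_le_left _ _
  · calc ∑ v ∈ pl S, ∑ i, c v i ≤ ∑ v ∈ pl S, ∑ i, (l v i + h) :=
          Finset.sum_le_sum fun v _ => Finset.sum_le_sum fun i _ => hcle v i
      _ = ∑ v ∈ pl S, ∑ i, l v i + (N * (pl S).card : ℝ) * h := by
          simp only [Finset.sum_add_distrib, Finset.sum_const, Finset.card_univ,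
            Fintype.card_fin, nsmul_eq_mul]
          ring
      _ < 0 := by linarith
  · rw [Filter.eventually_all_finset]
    intro v hv
    rw [eventually_all]
    intro i
    have h1 : ∀ᶠ n in (U : Filter ℕ), e v i n < l v i + h :=
      (hl v i hv).eventually_lt_const (by linarith)
    filter_upwards [h1, hev v hv i, hT1] with n h2 h3 h4
    rw [hc]
    simp only
    split_ifs with hv0
    · rw [h3]
      exact Real.exp_le_exp.2 (mul_le_mul_of_nonneg_right h2.le h4.le)
    · rcases min_cases 0 (l v i + h) with ⟨h5, -⟩ | ⟨h5, -⟩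
      · rw [h5, zero_mul, Real.exp_zero, vl_ne A L (x n) i hv0]
        have hvp : v.Prime := (place_of_mem hS hv).resolve_left hv0
        exact av_int_le_one hvp _
      · rw [h5, h3]
        exact Real.exp_le_exp.2 (mul_le_mul_of_nonneg_right h2.le h4.le)

end Pool.Agent.SBT
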