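import Pool.Agent.SBT.StmtsK
import Pool.Agent.SBT.DGT

/-! Module KTD: at least two digits of an irrational real algebraic number have indicator
sequences of superlinear complexity. -/

set_option autoImplicit false

namespace Pool.Agent.SBT

open Filter Topology

namespace KTD_

/-! ### Reals given by 0-1 sequences -/

section ind

variable {b : ℕ} {u : ℕ → ℤ}

/-- the tails -/
noncomputable def tl (b : ℕ) (u : ℕ → ℤ) (k : ℕ) : ℝ := ∑' l, (u (k + l) : ℝ) / (b : ℝ) ^ (l + 1)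

theorem summable_pow (hb : 2 ≤ b) : Summable fun l : ℕ => (1 : ℝ) / (b : ℝ) ^ (l + 1) := by
  have hb1 : (2 : ℝ) ≤ b := by exact_mod_cast hb
  have h1 : Summable fun l : ℕ => ((1 : ℝ) / b) ^ (l + 1) := by
    rw [summable_nat_add_iff 1 (f := fun l : ℕ => ((1 : ℝ) / b) ^ l)]
    exact summable_geometric_of_lt_one (by positivity) (by
      rw [div_lt_one (by linarith)]; linarith)
  refine h1.congr fun l => ?_
  rw [div_pow, one_pow]

theorem summable_bdd (hb : 2 ≤ b) {c : ℕ → ℝ} {M : ℝ} (hc : ∀ k, |c k| ≤ M) :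
    Summable fun l : ℕ => c l / (b : ℝ) ^ (l + 1) := by
  have hb1 : (2 : ℝ) ≤ b := by exact_mod_cast hb
  refine Summable.of_norm_bounded ((summable_pow hb).mul_left M) fun l => ?_
  rw [Real.norm_eq_abs, abs_div, abs_of_pos (by positivity : (0 : ℝ) < (b : ℝ) ^ (l + 1)),
    mul_one_div]
  exact div_le_div_of_nonneg_right (hc l) (by positivity)

theorem tl_rec (hb : 2 ≤ b) (hu : ∀ k, u k = 0 ∨ u k = 1) (k : ℕ) :
    (b : ℝ) * tl b u k = u k + tl b u (k + 1) := by
  have hb1 : (2 : ℝ) ≤ b := by exact_mod_cast hb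
  have hs : Summable fun l : ℕ => (u (k + l) : ℝ) / (b : ℝ) ^ (l + 1) :=
    summable_bdd hb (M := 1) fun l => by rcases hu (k + l) with h | h <;> simp [h]
  unfold tl
  rw [hs.tsum_eq_zero_add, mul_add]
  congr 1
  · simp only [add_zero, zero_add, pow_one]
    field_simp
  · rw [← tsum_mul_left]
    refine tsum_congr fun l => ?_
    rw [show k + (l + 1) = k + 1 + l by ring]
    field_simp
    ring

theorem tsum_pow (hb : 2 ≤ b) : ∑' l : ℕ, (1 : ℝ) / (b : ℝ) ^ (l + 1) = 1 / ((b : ℝ) - 1) := by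
  have hb1 : (2 : ℝ) ≤ b := by exact_mod_cast hb
  have h1 := tsum_geometric_of_lt_one (r := (1 : ℝ) / b) (by positivity) (by
      rw [div_lt_one (by linarith)]; linarith)
  have h2 : ∀ l : ℕ, (1 : ℝ) / (b : ℝ) ^ (l + 1) = (1 / b) * ((1 : ℝ) / b) ^ l := by
    intro l
    rw [div_pow, one_pow, pow_succ]
    field_simp
  rw [tsum_congr h2, tsum_mul_left, h1]
  have h3 : (b : ℝ) - 1 ≠ 0 := by linarith
  have h4 : (1 : ℝ) - 1 / b ≠ 0 := by
    have : (1 : ℝ) - 1 / b = ((b : ℝ) - 1) / b := by field_simp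
    rw [this]
    exact div_ne_zero h3 (by linarith)
  field_simp

theorem tl_nonneg (hu : ∀ k, u k = 0 ∨ u k = 1) (k : ℕ) : 0 ≤ tl b u k := by
  refine tsum_nonneg fun l => ?_
  rcases hu (k + l) with h | h
  · simp [h]
  · rw [h]
    positivity

theorem tl_le_one (hb : 2 ≤ b) (hu : ∀ k, u k = 0 ∨ u k = 1) (k : ℕ) : tl b u k ≤ 1 := by
  have hb1 : (2 : ℝ) ≤ b := by exact_mod_cast hb
  have hs : Summable fun l : ℕ => (u (k + l) : ℝ) / (b : ℝ) ^ (l + 1) :=
    summable_bdd hb (M := 1) fun l => by rcases hu (k + l) with h | h <;> simp [h]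
  have h1 : tl b u k ≤ ∑' l : ℕ, (1 : ℝ) / (b : ℝ) ^ (l + 1) := by
    refine hs.tsum_le_tsum (fun l => ?_) (summable_pow hb)
    refine div_le_div_of_nonneg_right ?_ (by positivity)
    rcases hu (k + l) with h | h <;> simp [h]
  rw [tsum_pow hb] at h1
  refine h1.trans ?_
  rw [div_le_one (by linarith)]
  linarith

theorem tl_lt_one (hb : 2 ≤ b) (hu : ∀ k, u k = 0 ∨ u k = 1) (h0 : ∀ k, ∃ l ≥ k, u l = 0)
    (k : ℕ) : tl b u k < 1 := by
  have hb1 : (2 : ℝ) ≤ b := by exact_mod_cast hb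
  obtain ⟨l, hl, hl0⟩ := h0 k
  obtain ⟨j, rfl⟩ := Nat.exists_eq_add_of_le hl
  clear hl
  induction j generalizing k with
  | zero =>
    have h1 := tl_rec hb hu k
    have h2 := tl_le_one hb hu (k + 1)
    rw [add_zero] at hl0
    rw [hl0] at h1
    simp only [Int.cast_zero, zero_add] at h1
    nlinarith
  | succ j ih =>
    have h1 := tl_rec hb hu k
    have h3 := ih (k + 1) (by rw [← hl0]; congr 1; ring)
    have h4 : (u k : ℝ) ≤ 1 := by rcases hu k with h | h <;> simp [h]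
    nlinarith

/-- the partial values -/
def pv (b : ℕ) (u : ℕ → ℤ) : ℕ → ℤ
  | 0 => 0
  | k + 1 => b * pv b u k + u k

theorem tl_zero_mul (hb : 2 ≤ b) (hu : ∀ k, u k = 0 ∨ u k = 1) (k : ℕ) :
    tl b u 0 * (b : ℝ) ^ k = pv b u k + tl b u k := by
  induction k with
  | zero => simp [pv]
  | succ k ih =>
    have h1 := tl_rec hb hu k
    rw [pow_succ, ← mul_assoc, ih]
    simp only [pv]
    push_cast
    linarith

theorem floor_tl (hb : 2 ≤ b) (hu : ∀ k, u k = 0 ∨ u k = 1) (h0 : ∀ k, ∃ l ≥ k, u l = 0)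
    (k : ℕ) : ⌊tl b u 0 * (b : ℝ) ^ k⌋ = pv b u k := by
  rw [tl_zero_mul hb hu k, Int.floor_eq_iff]
  have h1 := tl_nonneg (b := b) hu k
  have h2 := tl_lt_one hb hu h0 k
  constructor <;> linarith

theorem dig_tl (hb : 2 ≤ b) (hu : ∀ k, u k = 0 ∨ u k = 1) (h0 : ∀ k, ∃ l ≥ k, u l = 0)
    (k : ℕ) : dig b (tl b u 0) (k + 1) = u k := by
  unfold dig
  rw [floor_tl hb hu h0]
  simp only [pv]
  rw [Int.mul_add_emod_self_left]
  have hb1 : (2 : ℤ) ≤ b := by exact_mod_cast hb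
  rcases hu k with h | h
  · rw [h]; simp
  · rw [h]
    exact Int.emod_eq_of_lt (by norm_num) (by linarith)

end ind

/-! ### The digits of a real number -/

theorem hasSum_dig {b : ℕ} (hb : 2 ≤ b) (α : ℝ) :
    HasSum (fun k : ℕ => (dig b α (k + 1) : ℝ) / (b : ℝ) ^ (k + 1)) (α - ⌊α⌋) := by
  have hb1 : (2 : ℝ) ≤ b := by exact_mod_cast hb
  have hD := dgt_proof b α hb
  have hs : Summable fun k : ℕ => (dig b α (k + 1) : ℝ) / (b : ℝ) ^ (k + 1) := by
    refine summable_bdd (c := fun k => (dig b α (k + 1) : ℝ)) hb (M := b) fun k => ?_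
    have h1 := hD.1 (k + 1)
    have h2 : (0 : ℝ) ≤ dig b α (k + 1) := by exact_mod_cast h1.1
    have h3 : (dig b α (k + 1) : ℝ) < b := by exact_mod_cast h1.2
    rw [abs_of_nonneg h2]
    exact h3.le
  have hpart : ∀ K : ℕ, ∑ k ∈ Finset.range K, (dig b α (k + 1) : ℝ) / (b : ℝ) ^ (k + 1) =
      (⌊α * (b : ℝ) ^ K⌋ : ℝ) / (b : ℝ) ^ K - ⌊α⌋ := by
    intro K
    induction K with
    | zero => simp
    | succ K ih =>
      rw [Finset.sum_range_succ, ih, hD.2.1 K]
      push_cast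
      field_simp
      ring
  rw [hs.hasSum_iff_tendsto_nat]
  have hlim : Tendsto (fun K : ℕ => (⌊α * (b : ℝ) ^ K⌋ : ℝ) / (b : ℝ) ^ K) atTop (𝓝 α) := by
    have h0 : Tendsto (fun K : ℕ => ((b : ℝ) ^ K)⁻¹) atTop (𝓝 0) :=
      (tendsto_pow_atTop_atTop_of_one_lt (by linarith : (1 : ℝ) < b)).inv_tendsto_atTop
    have hlow : Tendsto (fun K : ℕ => α - ((b : ℝ) ^ K)⁻¹) atTop (𝓝 α) := by
      simpa using tendsto_const_nhds.sub h0
    refine tendsto_of_tendsto_of_tendsto_of_le_of_le hlow tendsto_const_nhds ?_ ?_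
    · intro K
      have hp : (0 : ℝ) < (b : ℝ) ^ K := by positivity
      simp only
      rw [le_div_iff₀ hp, sub_mul, inv_mul_cancel₀ hp.ne']
      linarith [Int.lt_floor_add_one (α * (b : ℝ) ^ K)]
    · intro K
      have hp : (0 : ℝ) < (b : ℝ) ^ K := by positivity
      simp only
      rw [div_le_iff₀ hp]
      exact Int.floor_le _
  have := hlim.sub_const (⌊α⌋ : ℝ)
  refine this.congr fun K => ?_
  rw [hpart K]

/-- the digits of an irrational number are not eventually constant -/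
theorem dig_ne {b : ℕ} (hb : 2 ≤ b) {α : ℝ} (hα : ∀ q : ℚ, α ≠ q) (j : ℤ) (k : ℕ) :
    ∃ l ≥ k, dig b α (l + 1) ≠ j := by
  by_contra hcon
  push Not at hcon
  have hb1 : (2 : ℝ) ≤ b := by exact_mod_cast hb
  have hs := hasSum_dig hb α
  have h1 := hs.summable.sum_add_tsum_nat_add k
  rw [hs.tsum_eq] at h1
  have h2 : ∑' i : ℕ, (dig b α (i + k + 1) : ℝ) / (b : ℝ) ^ (i + k + 1) =
      (j : ℝ) / (b : ℝ) ^ k * (1 / ((b : ℝ) - 1)) := by
    rw [← tsum_pow hb, ← tsum_mul_left]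
    refine tsum_congr fun i => ?_
    rw [hcon (i + k) (by omega), show i + k + 1 = k + (i + 1) by ring, pow_add]
    field_simp
  rw [h2] at h1
  refine hα ((⌊α⌋ : ℚ) + ((∑ i ∈ Finset.range k, (dig b α (i + 1) : ℚ) / (b : ℚ) ^ (i + 1)) +
    (j : ℚ) / (b : ℚ) ^ k * (1 / ((b : ℚ) - 1)))) ?_
  push_cast
  linarith

/-- the indicator of the digit `j` -/
noncomputable def ui (b : ℕ) (α : ℝ) (j : ℤ) (k : ℕ) : ℤ := if dig b α (k + 1) = j then 1 else 0

theorem ui_or (b : ℕ) (α : ℝ) (j : ℤ) (k : ℕ) : ui b α j k = 0 ∨ ui b α j k = 1 := by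
  unfold ui
  split_ifs
  · exact Or.inr rfl
  · exact Or.inl rfl

theorem dig_ui {b : ℕ} (hb : 2 ≤ b) {α : ℝ} (hα : ∀ q : ℚ, α ≠ q) (j : ℤ) (k : ℕ) :
    dig b (tl b (ui b α j) 0) (k + 1) = ui b α j k := by
  refine dig_tl hb (ui_or b α j) (fun k => ?_) k
  obtain ⟨l, hl, hl'⟩ := dig_ne hb hα j k
  exact ⟨l, hl, by unfold ui; rw [if_neg hl']⟩

/-- the number of words of length `n` of the indicator sequence of the digit `j` -/
noncomputable def ic (b : ℕ) (α : ℝ) (j : ℤ) (n : ℕ) : ℕ :=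
  Set.ncard {w : Fin n → ℤ | ∃ i : ℕ, ∀ t : Fin n,
    w t = if dig b α (i + 1 + t) = j then 1 else 0}

theorem cpl_eq {b : ℕ} (hb : 2 ≤ b) {α : ℝ} (hα : ∀ q : ℚ, α ≠ q) (j : ℤ) (n : ℕ) :
    cpl b (tl b (ui b α j) 0) n = ic b α j n := by
  unfold cpl ic
  congr 1
  ext w
  simp only [Set.mem_ofPred_eq]
  refine exists_congr fun i => forall_congr' fun t => ?_
  rw [show i + 1 + (t : ℕ) = i + t + 1 by ring, dig_ui hb hα]
  rfl

theorem sum_eq {b : ℕ} (hb : 2 ≤ b) (α : ℝ) :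
    α = ⌊α⌋ + ∑ j ∈ Finset.range b, (j : ℝ) * tl b (ui b α j) 0 := by
  have hs : ∀ j : ℕ, Summable fun l : ℕ => (ui b α j l : ℝ) / (b : ℝ) ^ (l + 1) := fun j =>
    summable_bdd hb (c := fun l => (ui b α j l : ℝ)) (M := 1)
      fun l => by rcases ui_or b α j l with h | h <;> simp [h]
  have h1 : ∑ j ∈ Finset.range b, (j : ℝ) * tl b (ui b α j) 0 =
      ∑' k : ℕ, (dig b α (k + 1) : ℝ) / (b : ℝ) ^ (k + 1) := by
    have h2 : ∀ j ∈ Finset.range b, (j : ℝ) * tl b (ui b α j) 0 =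
        ∑' l : ℕ, (j : ℝ) * ((ui b α j l : ℝ) / (b : ℝ) ^ (l + 1)) := by
      intro j _
      unfold tl
      rw [← tsum_mul_left]
      simp only [zero_add]
    rw [Finset.sum_congr rfl h2, ← Summable.tsum_finsetSum (fun j _ => (hs j).mul_left _)]
    refine tsum_congr fun l => ?_
    have h3 := (dgt_proof b α hb).1 (l + 1)
    obtain ⟨c, hc⟩ := Int.eq_ofNat_of_zero_le h3.1
    rw [Finset.sum_eq_single c]
    · unfold ui
      rw [if_pos hc, hc]
      simp only [Int.cast_one, Int.cast_natCast]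
      ring
    · intro j _ hj
      unfold ui
      rw [if_neg (by rw [hc]; exact_mod_cast (Ne.symm hj))]
      simp
    · intro hc'
      exfalso
      apply hc'
      rw [Finset.mem_range]
      have := h3.2
      rw [hc] at this
      exact_mod_cast this
  rw [h1, (hasSum_dig hb α).tsum_eq]
  ring

theorem sum_one {b : ℕ} (hb : 2 ≤ b) (α : ℝ) :
    1 / ((b : ℝ) - 1) = ∑ j ∈ Finset.range b, tl b (ui b α j) 0 := by
  have hs : ∀ j : ℕ, Summable fun l : ℕ => (ui b α j l : ℝ) / (b : ℝ) ^ (l + 1) := fun j =>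
    summable_bdd hb (c := fun l => (ui b α j l : ℝ)) (M := 1)
      fun l => by rcases ui_or b α j l with h | h <;> simp [h]
  have h2 : ∀ j ∈ Finset.range b, tl b (ui b α j) 0 =
      ∑' l : ℕ, (ui b α j l : ℝ) / (b : ℝ) ^ (l + 1) := by
    intro j _
    unfold tl
    simp only [zero_add]
  rw [Finset.sum_congr rfl h2, ← Summable.tsum_finsetSum (fun j _ => hs j), ← tsum_pow hb]
  refine tsum_congr fun l => ?_
  have h3 := (dgt_proof b α hb).1 (l + 1)
  obtain ⟨c, hc⟩ := Int.eq_ofNat_of_zero_le h3.1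
  rw [Finset.sum_eq_single c]
  · unfold ui
    rw [if_pos hc]
    simp
  · intro j _ hj
    unfold ui
    rw [if_neg (by rw [hc]; exact_mod_cast (Ne.symm hj))]
    simp
  · intro hc'
    exfalso
    apply hc'
    rw [Finset.mem_range]
    have := h3.2
    rw [hc] at this
    exact_mod_cast this

end KTD_

open KTD_ in
/-- If `α` is real algebraic and irrational and `b ≥ 2`, then for every `C` and all large `n`
there are at least two digits `j < j'` in base `b` whose indicator sequences (`1` at the places of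
the digit, `0` elsewhere) in the expansion of `α` have at least `C n` words of length `n`. -/
theorem ktd_gen (hKFA : Stmt_KFA) (α : ℝ) (b C : ℕ) (hα : IsAlgebraic ℚ α)
    (hq : ∀ q : ℚ, α ≠ q) (hb : 2 ≤ b) :
    ∀ᶠ n : ℕ in atTop, ∃ j j' : ℕ, j < j' ∧ j' < b ∧ C * n ≤ ic b α j n ∧
      C * n ≤ ic b α j' n := by
  by_contra hcon
  -- a digit `j₀` and an infinite set of `n`
  have hfreq : ∃ᶠ n : ℕ in atTop, ∃ j₀ : Fin b, ∀ j : ℕ, j < b → j ≠ j₀ →
      ic b α j n < C * n := by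
    intro h
    refine hcon (h.mono fun n hn => ?_)
    by_contra h2
    push Not at h2
    apply hn
    by_cases h3 : ∃ j : ℕ, j < b ∧ C * n ≤ ic b α j n
    · obtain ⟨j₁, hj₁, h4⟩ := h3
      refine ⟨⟨j₁, hj₁⟩, fun j hj hne => ?_⟩
      by_contra h5
      push Not at h5
      simp only at hne
      rcases lt_or_gt_of_ne hne with h6 | h6
      · exact absurd h4 (not_le.2 (h2 j j₁ h6 hj₁ h5))
      · exact absurd h5 (not_le.2 (h2 j₁ j h6 hj h4))
    · push Not at h3
      exact ⟨⟨0, by omega⟩, fun j hj _ => h3 j hj⟩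
  rw [frequently_exists] at hfreq
  obtain ⟨j₀, hj₀⟩ := hfreq
  set I : Set ℕ := {n | ∀ j : ℕ, j < b → j ≠ j₀ → ic b α j n < C * n} with hI
  have hIinf : I.Infinite := Nat.frequently_atTop_iff_infinite.1 hj₀
  set G : Set ℝ := {y : ℝ | ∃ b C : ℕ, 2 ≤ b ∧ ∀ n ∈ I, cpl b y n ≤ C * (n + 1)} with hG
  set F := IntermediateField.adjoin ℚ G with hF
  have hmem : ∀ j : ℕ, j < b → j ≠ j₀ → tl b (ui b α j) 0 ∈ F := by
    intro j hj hne
    apply IntermediateField.subset_adjoin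
    refine ⟨b, C, hb, fun n hn => ?_⟩
    rw [cpl_eq hb hq]
    have := hn j hj hne
    nlinarith
  -- `α` is in the field
  have hαF : α ∈ F := by
    have h1 := sum_eq hb α
    have h2 := sum_one hb α
    have h3 : α = ⌊α⌋ + ((j₀ : ℕ) : ℝ) * (1 / ((b : ℝ) - 1)) +
        ∑ j ∈ (Finset.range b).erase (j₀ : ℕ), ((j : ℝ) - ((j₀ : ℕ) : ℝ)) *
          tl b (ui b α j) 0 := by
      have hmem0 : (j₀ : ℕ) ∈ Finset.range b := Finset.mem_range.2 j₀.2
      have h4 : ∑ j ∈ Finset.range b, ((j : ℝ) - ((j₀ : ℕ) : ℝ)) * tl b (ui b α j) 0 =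
          ∑ j ∈ (Finset.range b).erase (j₀ : ℕ), ((j : ℝ) - ((j₀ : ℕ) : ℝ)) *
          tl b (ui b α j) 0 := by
        rw [← Finset.add_sum_erase _ _ hmem0]
        simp
      rw [← h4, h2, Finset.mul_sum, add_assoc, ← Finset.sum_add_distrib]
      conv_lhs => rw [h1]
      congr 1
      refine Finset.sum_congr rfl fun j _ => ?_
      ring
    rw [h3]
    refine add_mem (add_mem ?_ (mul_mem ?_ (div_mem (one_mem _) (sub_mem ?_ (one_mem _)))))
      (sum_mem fun j hj => mul_mem (sub_mem ?_ ?_) ?_)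
    · exact intCast_mem F _
    · exact natCast_mem F _
    · exact natCast_mem F _
    · exact natCast_mem F _
    · exact natCast_mem F _
    · rw [Finset.mem_erase, Finset.mem_range] at hj
      exact hmem j hj.2 hj.1
  -- linear disjointness for `1, α`
  have hind : LinearIndependent ℚ (![1, α] : Fin 2 → ℝ) := by
    rw [LinearIndependent.pair_iff]
    intro s t hst
    by_cases ht : t = 0
    · subst ht
      simp only [zero_smul, add_zero] at hst
      refine ⟨?_, rfl⟩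
      rw [Rat.smul_def, mul_one] at hst
      exact_mod_cast hst
    · exfalso
      apply hq (-s / t)
      have ht' : (t : ℝ) ≠ 0 := by exact_mod_cast ht
      rw [Rat.smul_def, Rat.smul_def, mul_one] at hst
      push_cast
      field_simp
      linarith
  have := hKFA I hIinf 2 ![1, α] ![α, -1] (by
      intro i
      fin_cases i
      · exact one_mem _
      · exact hαF) (by
      intro i
      fin_cases i
      · exact hα
      · exact (isAlgebraic_one (R := ℚ) (A := ℝ)).neg) hind (by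
      simp [Fin.sum_univ_two]) 1
  simp at this

/-- the number of words of length `n` of the indicator sequence of the decimal digit `j` of
`sqrt 2` (`1` at the places `k ≥ 1` with `d_k = j`, `0` elsewhere) -/
noncomputable def idc (j n : ℕ) : ℕ :=
  Set.ncard {w : Fin n → ℕ | ∃ i : ℕ, ∀ t : Fin n,
    w t = if ⌊Real.sqrt 2 * 10 ^ (i + 1 + (t : ℕ))⌋₊ % 10 = j then 1 else 0}

open KTD_ in
theorem ktd_idc (j n : ℕ) : idc j n = ic 10 (Real.sqrt 2) j n := by
  unfold idc ic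
  have hd : ∀ k : ℕ, (⌊Real.sqrt 2 * 10 ^ k⌋₊ % 10 = j) ↔ (dig 10 (Real.sqrt 2) k = (j : ℤ)) := by
    intro k
    unfold dig
    have h0 : 0 ≤ Real.sqrt 2 * 10 ^ k := by positivity
    have h1 : ⌊Real.sqrt 2 * ((10 : ℕ) : ℝ) ^ k⌋ = (⌊Real.sqrt 2 * 10 ^ k⌋₊ : ℤ) := by
      rw [Int.natCast_floor_eq_floor h0]
      norm_num
    rw [h1]
    constructor
    · intro h
      rw [← h]
      push_cast
      rfl
    · intro h
      exact_mod_cast h
  refine Set.ncard_congr (fun w _ t => ((w t : ℕ) : ℤ)) ?_ ?_ ?_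
  · rintro w ⟨i, hi⟩
    refine ⟨i, fun t => ?_⟩
    simp only [hi t, hd]
    split_ifs <;> rfl
  · intro w w' _ _ h
    funext t
    exact_mod_cast congrFun h t
  · rintro w ⟨i, hi⟩
    refine ⟨fun t => if ⌊Real.sqrt 2 * 10 ^ (i + 1 + (t : ℕ))⌋₊ % 10 = j then 1 else 0,
      ⟨i, fun t => rfl⟩, ?_⟩
    funext t
    rw [hi t]
    simp only [hd]
    split_ifs <;> rfl

/-- KTD: for every `C` and all large `n` there are at least two digits `j < j' ≤ 9` such that the
indicator sequence of the places of the digit in the decimal expansion of `sqrt 2` has at least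
`C n` words of length `n`. Uses KFA. -/
def Stmt_KTD : Prop :=
  ∀ C : ℕ, ∀ᶠ n : ℕ in atTop, ∃ j j' : ℕ, j < j' ∧ j' ≤ 9 ∧ C * n ≤ idc j n ∧ C * n ≤ idc j' n

theorem ktd_proof (hKFA : Stmt_KFA) : Stmt_KTD := by
  intro C
  have h1 : IsAlgebraic ℚ (Real.sqrt 2) := by
    refine ⟨Polynomial.X ^ 2 - Polynomial.C 2, ?_, ?_⟩
    · exact Polynomial.X_pow_sub_C_ne_zero (by norm_num) _
    · simp
  have h2 : ∀ q : ℚ, Real.sqrt 2 ≠ q := by
    intro q hq
    exact irrational_sqrt_two ⟨q, hq.symm⟩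
  filter_upwards [ktd_gen hKFA (Real.sqrt 2) 10 C h1 h2 (by norm_num)] with n hn
  obtain ⟨j, j', h3, h4, h5, h6⟩ := hn
  refine ⟨j, j', h3, by omega, ?_, ?_⟩
  · rw [ktd_idc]; exact h5
  · rw [ktd_idc]; exact h6

end Pool.Agent.SBT
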