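import Pool.Agent.SBT.StmtsK
import Pool.Agent.SBT.Api
import Pool.Agent.SBT.THB

/-!
# KTHB: a gap between the `k`-th and the `(k+1)`-th vector of a good system, real algebraic forms
at the infinite place (variant of THB)
-/

set_option autoImplicit false

namespace Pool.Agent.SBT

open Filter

namespace KTHB_

open THB_

/-! ## Real forms -/

/-- the value of a real form at an integer vector -/
noncomputable def fr {N : ℕ} (A : Matrix (Fin N) (Fin N) ℝ) (x : Fin N → ℤ) (i : Fin N) : ℝ :=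
  ∑ k, A i k * (x k : ℝ)

theorem vl_zero {N : ℕ} (A : Matrix (Fin N) (Fin N) ℝ) (L : ℕ → Matrix (Fin N) (Fin N) ℤ)
    (x : Fin N → ℤ) (i : Fin N) : vl A L 0 x i = |fr A x i| := by
  unfold vl fr
  rw [if_pos rfl]

theorem vl_ne {N : ℕ} (A : Matrix (Fin N) (Fin N) ℝ) (L : ℕ → Matrix (Fin N) (Fin N) ℤ) {v : ℕ}
    (hv : v ≠ 0) (x : Fin N → ℤ) (i : Fin N) : vl A L v x i = av v (fv (L v) x i : ℚ) := by
  unfold vl
  rw [if_neg hv]

theorem fr_tw {M : ℕ} (A : Matrix (Fin M) (Fin M) ℝ) (m G : Fin M → Fin M → ℤ) (j i : Fin M) :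
    fr A (tw m G j) i = fr A (G j) i + ∑ k, (m j k : ℝ) * fr A (G k) i := by
  unfold fr tw
  simp only [Int.cast_add, Int.cast_sum, Int.cast_mul, mul_add, Finset.sum_add_distrib,
    Finset.mul_sum]
  congr 1
  rw [Finset.sum_comm]
  refine Finset.sum_congr rfl fun k _ => Finset.sum_congr rfl fun i _ => by ring

theorem det_mem {p : ℕ} (K : IntermediateField ℚ ℝ) (B : Matrix (Fin p) (Fin p) ℝ)
    (h : ∀ i j, B i j ∈ K) : B.det ∈ K := by
  rw [Matrix.det_apply']
  refine sum_mem fun σ _ => mul_mem (intCast_mem K _) (prod_mem fun i _ => h _ _)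

theorem abs_det_le {N : ℕ} (B : Matrix (Fin N) (Fin N) ℝ) (a b : Fin N → ℝ)
    (h : ∀ i j, |B i j| ≤ a i * b j) :
    |B.det| ≤ (N.factorial : ℝ) * ((∏ i, a i) * ∏ j, b j) := by
  rw [Matrix.det_apply']
  refine (Finset.abs_sum_le_sum_abs _ _).trans ?_
  have h1 : ∀ σ ∈ (Finset.univ : Finset (Equiv.Perm (Fin N))),
      |((Equiv.Perm.sign σ : ℤ) : ℝ) * ∏ i, B (σ i) i| ≤ (∏ i, a i) * ∏ j, b j := by
    intro σ _
    rw [abs_mul, Finset.abs_prod]
    have hs : |((Equiv.Perm.sign σ : ℤ) : ℝ)| = 1 := by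
      rcases Int.units_eq_one_or (Equiv.Perm.sign σ) with h | h
      · rw [h]
        simp
      · rw [h]
        simp
    rw [hs, one_mul]
    calc ∏ i, |B (σ i) i| ≤ ∏ i, (a (σ i) * b i) :=
          Finset.prod_le_prod (fun i _ => abs_nonneg _) fun i _ => h _ _
      _ = (∏ i, a i) * ∏ j, b j := by
          rw [Finset.prod_mul_distrib, Equiv.prod_comp σ a]
  refine (Finset.sum_le_sum h1).trans ?_
  rw [Finset.sum_const, Finset.card_univ, Fintype.card_perm, Fintype.card_fin, nsmul_eq_mul]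

/-! ## Compound matrices -/

/-- the compound of a real matrix as a square matrix indexed by numbers -/
noncomputable def hatR {N p M : ℕ} (e : Fin M ≃ Sb N p) (A : Matrix (Fin N) (Fin N) ℝ) :
    Matrix (Fin M) (Fin M) ℝ := (cpd p A).submatrix e e

theorem hatR_det {N p M : ℕ} (hCBN : Stmt_CBN) (e : Fin M ≃ Sb N p)
    (A : Matrix (Fin N) (Fin N) ℝ) (hA : A.det ≠ 0) : (hatR e A).det ≠ 0 := by
  have h2 : A * A⁻¹ = 1 := Matrix.mul_nonsing_inv _ (isUnit_iff_ne_zero.2 hA)
  have h3 : cpd p A * cpd p A⁻¹ = 1 := by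
    rw [← hCBN, h2, cpd_one]
  have h4 : (cpd p A).submatrix e e * (cpd p A⁻¹).submatrix e e = 1 := by
    rw [Matrix.submatrix_mul_equiv, h3, Matrix.submatrix_one_equiv]
  have h5 := congrArg Matrix.det h4
  rw [Matrix.det_mul, Matrix.det_one] at h5
  intro h0
  have h6 : ((cpd p A).submatrix e e).det = 0 := h0
  rw [h6, zero_mul] at h5
  exact zero_ne_one h5

theorem hatR_mem {N p M : ℕ} (K : IntermediateField ℚ ℝ) (e : Fin M ≃ Sb N p)
    (A : Matrix (Fin N) (Fin N) ℝ) (hA : Ent K A) : Ent K (hatR e A) := by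
  intro i j
  exact det_mem K _ fun a b => hA _ _

/-- the values of the compound forms at the compound vectors -/
theorem fr_hat {N p M : ℕ} (hCBN : Stmt_CBN) (e : Fin M ≃ Sb N p)
    (A : Matrix (Fin N) (Fin N) ℝ) (g : Fin N → Fin N → ℤ) (a b : Fin M) :
    fr (hatR e A) (hat e (Matrix.of g) a) b =
      (Matrix.of fun i j : Fin p => fr A (g ((e a).1 j)) ((e b).1 i)).det := by
  set G : Matrix (Fin N) (Fin N) ℝ := (Matrix.of g).map (Int.castRingHom ℝ) with hG
  have h0 : fr (hatR e A) (hat e (Matrix.of g) a) b =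
      ∑ t, cpd p A (e b) (e t) * cpd p G (e a) (e t) := by
    unfold fr
    refine Finset.sum_congr rfl fun t _ => ?_
    rw [hG, cpd_map]
    rfl
  rw [h0, Equiv.sum_comp e (fun t => cpd p A (e b) t * cpd p G (e a) t)]
  have h1 : ∑ t, cpd p A (e b) t * cpd p G (e a) t =
      (cpd p A * cpd p G.transpose) (e b) (e a) := by
    rw [Matrix.mul_apply]
    refine Finset.sum_congr rfl fun t _ => ?_
    rw [cpd_transpose]
  rw [h1, ← hCBN]
  rfl

theorem fr_hat_le {N p M : ℕ} (hCBN : Stmt_CBN) (e : Fin M ≃ Sb N p)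
    (A : Matrix (Fin N) (Fin N) ℝ) (g : Fin N → Fin N → ℤ)
    (x y : Fin N → ℝ) (T : ℝ)
    (h : ∀ j i, |fr A (g j) i| ≤ Real.exp ((x i + y j) * T)) (a b : Fin M) :
    |fr (hatR e A) (hat e (Matrix.of g) a) b| ≤
      (p.factorial : ℝ) * Real.exp ((nu x (e b) + nu y (e a)) * T) := by
  rw [fr_hat hCBN]
  have h1 := abs_det_le (Matrix.of fun i j : Fin p => fr A (g ((e a).1 j)) ((e b).1 i))
    (fun i => Real.exp (x ((e b).1 i) * T)) (fun j => Real.exp (y ((e a).1 j) * T)) (by
      intro i j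
      rw [← Real.exp_add, ← add_mul]
      exact h _ _)
  rw [← Real.exp_sum, ← Real.exp_sum, ← Real.exp_add, ← Finset.sum_mul, ← Finset.sum_mul,
    ← add_mul] at h1
  exact h1

/-! ## Davenport's lemma at one `n` -/

theorem stepR {N p M : ℕ} (hCBN : Stmt_CBN) (C : ℝ)
    (hC : ∀ (A G : Matrix (Fin M) (Fin M) ℝ) (l ρ : Fin M → ℝ), A.det ≠ 0 →
      G.det ≠ 0 → (∀ i j, |A.mulVec (G j) i| ≤ l j) → (∀ j, 0 < ρ j) → Antitone ρ →
      Monotone (fun j => ρ j * l j) →
      ∃ (π : Equiv.Perm (Fin M)) (m : Fin M → Fin M → ℤ), (∀ j k, j ≤ k → m j k = 0) ∧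
        ∀ i j, ρ i * |A.mulVec (fun a => G j a + ∑ k, (m j k : ℝ) * G k a) (π i)| ≤
          C * (ρ j * l j))
    (e : Fin M ≃ Sb N p) (A : Matrix (Fin N) (Fin N) ℝ) (g : Fin N → Fin N → ℤ)
    (c μ : Fin N → ℝ) (T : ℝ) (pr : Fin M → Fin M) (hA : A.det ≠ 0)
    (hg : (Matrix.of g).det ≠ 0) (hT : 0 < T) (hmono : Monotone (fun a => nu μ (e a)))
    (hpr : Monotone pr) (hpr' : Monotone (fun a => nu μ (e a) - nu μ (e (pr a))))
    (hb : ∀ j i, |fr A (g j) i| ≤ Real.exp ((c i + μ j) * T)) :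
    ∃ (π : Equiv.Perm (Fin M)) (m : Fin M → Fin M → ℤ), (∀ j k, j ≤ k → m j k = 0) ∧
      ∀ i j, |fr (hatR e A) (tw m (hat e (Matrix.of g)) j) (π i)| ≤
        C * p.factorial * Real.exp ((nu c (e (π i)) + nu μ (e (pr i)) +
          (nu μ (e j) - nu μ (e (pr j)))) * T) := by
  set G₀ := hat e (Matrix.of g) with hG₀
  have hG₀d : G₀.det ≠ 0 := hat_det hCBN e _ hg
  set A' : Matrix (Fin M) (Fin M) ℝ :=
    Matrix.diagonal (fun b => Real.exp (-(nu c (e b) * T))) *
      hatR e A with hA'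
  have hmv : ∀ (x : Fin M → ℤ) (b : Fin M),
      A'.mulVec (fun t => (x t : ℝ)) b = Real.exp (-(nu c (e b) * T)) * fr (hatR e A) x b := by
    intro x b
    rw [hA', ← Matrix.mulVec_mulVec, Matrix.mulVec_diagonal]
    rfl
  have h1 : A'.det ≠ 0 := by
    rw [hA', Matrix.det_mul, Matrix.det_diagonal]
    apply mul_ne_zero
    · exact Finset.prod_ne_zero_iff.2 fun i _ => (Real.exp_pos _).ne'
    · exact hatR_det hCBN e A hA
  have h2 : (G₀.map (Int.castRingHom ℝ)).det ≠ 0 := by
    rw [← RingHom.mapMatrix_apply, ← RingHom.map_det]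
    simpa using hG₀d
  have hval : ∀ a b, |fr (hatR e A) (G₀ a) b| ≤
      p.factorial * Real.exp ((nu c (e b) + nu μ (e a)) * T) := by
    intro a b
    exact fr_hat_le hCBN e A g c μ T hb a b
  obtain ⟨π, m, hm, hπ⟩ := hC A' (G₀.map (Int.castRingHom ℝ))
    (fun a => p.factorial * Real.exp (nu μ (e a) * T))
    (fun a => Real.exp (-(nu μ (e (pr a)) * T))) h1 h2 (by
      intro i j
      have h3 : A'.mulVec ((G₀.map (Int.castRingHom ℝ)) j) i =
          Real.exp (-(nu c (e i) * T)) * fr (hatR e A) (G₀ j) i := hmv (G₀ j) i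
      rw [h3, abs_mul, abs_of_pos (Real.exp_pos _)]
      calc Real.exp (-(nu c (e i) * T)) * |fr (hatR e A) (G₀ j) i| ≤
          Real.exp (-(nu c (e i) * T)) *
            (p.factorial * Real.exp ((nu c (e i) + nu μ (e j)) * T)) :=
            mul_le_mul_of_nonneg_left (hval j i) (Real.exp_pos _).le
        _ = p.factorial * Real.exp (nu μ (e j) * T) := by
            rw [mul_left_comm, ← Real.exp_add]
            congr 2
            ring) (fun j => Real.exp_pos _) (by
      intro a b hab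
      apply Real.exp_le_exp.2
      have := hmono (hpr hab)
      simp only at this
      nlinarith) (by
      intro a b hab
      have := hpr' hab
      simp only at this
      have h5 : ∀ a, Real.exp (-(nu μ (e (pr a)) * T)) *
          (p.factorial * Real.exp (nu μ (e a) * T)) =
          p.factorial * Real.exp ((nu μ (e a) - nu μ (e (pr a))) * T) := by
        intro a
        rw [mul_left_comm, ← Real.exp_add]
        congr 2
        ring
      simp only [h5]
      apply mul_le_mul_of_nonneg_left _ (by positivity)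
      apply Real.exp_le_exp.2
      nlinarith)
  refine ⟨π, m, hm, ?_⟩
  intro i j
  have h3 := hπ i j
  have h4 : A'.mulVec (fun a => (G₀.map (Int.castRingHom ℝ)) j a +
      ∑ k, (m j k : ℝ) * (G₀.map (Int.castRingHom ℝ)) k a) (π i) =
      Real.exp (-(nu c (e (π i)) * T)) * fr (hatR e A) (tw m G₀ j) (π i) := by
    rw [← hmv]
    congr 1
    funext t
    simp [tw]
  rw [h4, abs_mul, abs_of_pos (Real.exp_pos _)] at h3
  have h5 : C * (Real.exp (-(nu μ (e (pr j)) * T)) * (p.factorial * Real.exp (nu μ (e j) * T))) =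
      C * p.factorial * Real.exp ((nu μ (e j) - nu μ (e (pr j))) * T) := by
    rw [mul_left_comm (Real.exp _), ← Real.exp_add, mul_assoc]
    congr 3
    ring
  rw [h5] at h3
  have h6 : |fr (hatR e A) (tw m G₀ j) (π i)| =
      Real.exp ((nu c (e (π i)) + nu μ (e (pr i))) * T) *
        (Real.exp (-(nu μ (e (pr i)) * T)) *
          (Real.exp (-(nu c (e (π i)) * T)) * |fr (hatR e A) (tw m G₀ j) (π i)|)) := by
    rw [← mul_assoc, ← mul_assoc, ← Real.exp_add, ← Real.exp_add]
    have : (nu c (e (π i)) + nu μ (e (pr i))) * T + -(nu μ (e (pr i)) * T) +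
      -(nu c (e (π i)) * T) = 0 := by ring
    rw [this, Real.exp_zero, one_mul]
  rw [h6]
  calc _ ≤ Real.exp ((nu c (e (π i)) + nu μ (e (pr i))) * T) *
        (C * p.factorial * Real.exp ((nu μ (e j) - nu μ (e (pr j))) * T)) :=
        mul_le_mul_of_nonneg_left h3 (Real.exp_pos _).le
    _ = _ := by
        rw [mul_left_comm, ← Real.exp_add, ← add_mul]

end KTHB_

open THB_ KTHB_

theorem kthb_proof (hTHA : Stmt_KTHA) (hDAV : Stmt_DAV) (hCBN : Stmt_CBN) (hCPS : Stmt_CPS)
    (hANN : Stmt_ANN) : Stmt_KTHB := by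
  intro K _ k p S U T A L c μ g δ hk hp hS hK hT hA hL hμ hg hbound hδ hgap hsum
  obtain ⟨M, e, hM, hmono, hlast⟩ := exists_order hk hp μ hμ δ hδ hgap
  obtain ⟨C, hC1, hC⟩ := hDAV (M + 1)
  -- the drop
  set D : ℝ := nu μ (e (Fin.last M)) - nu μ (e ⟨M - 1, by omega⟩) with hD
  have hDδ : δ ≤ D := by
    have h1 : e ⟨M - 1, by omega⟩ ≠ lst k p := by
      rw [← hlast]
      intro h
      have := congrArg Fin.val (e.injective h)
      simp at this
      omega
    have h2 := nu_add_le hp μ hμ δ hgap _ h1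
    rw [hD, hlast]
    linarith
  have hdiff : ∀ a, nu μ (e a) - nu μ (e (pr hM a)) = if a = Fin.last M then D else 0 := by
    intro a
    by_cases ha : a = Fin.last M
    · rw [if_pos ha, ha, pr_last]
    · rw [if_neg ha]
      unfold pr
      rw [if_neg ha, sub_self]
  have hpr' : Monotone (fun a => nu μ (e a) - nu μ (e (pr hM a))) := by
    intro a b hab
    simp only [hdiff]
    by_cases ha : a = Fin.last M
    · have hb : b = Fin.last M := le_antisymm (Fin.le_last b) (by rw [← ha]; exact hab)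
      rw [if_pos ha, if_pos hb]
    · rw [if_neg ha]
      split <;> linarith
  -- the first step for almost all n
  have hev : ∀ᶠ n in (U : Filter ℕ), ∃ π : Equiv.Perm (Fin (M + 1)),
      ∃ m : Fin (M + 1) → Fin (M + 1) → ℤ, (∀ j k, j ≤ k → m j k = 0) ∧
      ∀ i j, |fr (hatR e A) (tw m (hat e (Matrix.of (g n))) j) (π i)| ≤
        C * p.factorial * Real.exp ((nu (c 0) (e (π i)) + nu μ (e (pr hM i)) +
          (nu μ (e j) - nu μ (e (pr hM j)))) * T n) := by
    filter_upwards [hbound, ev_pos hT] with n hn hTn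
    refine stepR hCBN C hC e A (g n) (c 0) μ (T n) (pr hM) hA (hg n) hTn
      hmono (pr_mono hM) hpr' (fun j i => ?_)
    rw [← vl_zero A L]
    exact (hn j i).1
  obtain ⟨π, hπ⟩ := ult_finite U hev
  obtain ⟨m, hm⟩ : ∃ m : ℕ → Fin (M + 1) → Fin (M + 1) → ℤ, ∀ᶠ n in (U : Filter ℕ),
      (∀ j k, j ≤ k → m n j k = 0) ∧
      ∀ i j, |fr (hatR e A) (tw (m n) (hat e (Matrix.of (g n))) j) (π i)| ≤
        C * p.factorial * Real.exp ((nu (c 0) (e (π i)) + nu μ (e (pr hM i)) +
          (nu μ (e j) - nu μ (e (pr hM j)))) * T n) := by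
    classical
    refine ⟨fun n => if h : _ then Classical.choose (p := fun m : Fin (M + 1) → Fin (M + 1) → ℤ =>
      (∀ j k, j ≤ k → m j k = 0) ∧
      ∀ i j, |fr (hatR e A) (tw m (hat e (Matrix.of (g n))) j) (π i)| ≤
        C * p.factorial * Real.exp ((nu (c 0) (e (π i)) + nu μ (e (pr hM i)) +
          (nu μ (e j) - nu μ (e (pr hM j)))) * T n)) h else 0, ?_⟩
    filter_upwards [hπ] with n hn
    rw [dif_pos hn]
    exact Classical.choose_spec hn
  -- the exponents
  set d₁ : ℝ := δ / (4 * (M + 1)) with hd₁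
  have hd₁0 : 0 < d₁ := by positivity
  have hd₁M : (M + 1) * (2 * d₁) = δ / 2 := by
    rw [hd₁]
    field_simp
    ring
  let c' : ℕ → Fin (M + 1) → ℝ := fun v i =>
    nu (c v) (e i) + if v = 0 then nu μ (e (pr hM (π.symm i))) + 2 * d₁ else 0
  have hc'sum : ∑ v ∈ pl S, ∑ i, c' v i ≤ 0 := by
    have h1 : ∀ v, ∑ i, c' v i = ((k + p - 1).choose (p - 1) : ℝ) * ∑ i, c v i +
        if v = 0 then ∑ i, nu μ (e (pr hM i)) + (M + 1) * (2 * d₁) else 0 := by
      intro v
      simp only [c', Finset.sum_add_distrib, sum_nu hCPS hp e]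
      congr 1
      split
      · rw [Finset.sum_add_distrib, Equiv.sum_comp π.symm (fun i => nu μ (e (pr hM i)))]
        simp
      · simp
    have h2 : ∑ i, nu μ (e (pr hM i)) =
        ((k + p - 1).choose (p - 1) : ℝ) * ∑ i, μ i - D := by
      rw [← sum_nu hCPS hp e, Fin.sum_univ_castSucc, Fin.sum_univ_castSucc, pr_last, hD]
      simp only [pr_castSucc]
      ring
    simp only [h1, Finset.sum_add_distrib, Finset.sum_ite_eq' (pl S) 0, if_pos (zero_mem_pl S),
      ← Finset.mul_sum]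
    rw [h2, hd₁M]
    have h3 := choose_mul_le (k + p) (p - 1) (by omega) _ δ hδ hsum
    rw [mul_add] at h3
    linarith
  -- linear independence
  have hind : ∀ᶠ n in (U : Filter ℕ), LinearIndependent ℚ
      (fun j : Fin M => fun i => (tw (m n) (hat e (Matrix.of (g n))) j.castSucc i : ℚ)) := by
    filter_upwards [hm] with n hn
    have h1 : (Matrix.of (tw (m n) (hat e (Matrix.of (g n))))).det ≠ 0 := by
      rw [det_tw _ _ hn.1]
      exact hat_det hCBN e _ (hg n)
    have h2 : ((Matrix.of (tw (m n) (hat e (Matrix.of (g n))))).map (Int.castRingHom ℚ)).det ≠ 0 := by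
      rw [← RingHom.mapMatrix_apply, ← RingHom.map_det]
      simpa using h1
    have h3 := Matrix.linearIndependent_rows_of_det_ne_zero h2
    exact h3.comp _ (Fin.castSucc_injective M)
  -- the bounds
  have hbd : ∀ᶠ n in (U : Filter ℕ), ∀ v ∈ pl S, ∀ (j : Fin M) i,
      vl (hatR e A) (fun v => hat e (L v)) v (tw (m n) (hat e (Matrix.of (g n))) j.castSucc) i ≤
      Real.exp ((c' v i - if v = 0 then d₁ else 0) * T n) := by
    filter_upwards [hm, hbound, ev_const_le_exp hT hd₁0 (C * p.factorial)] with n hn hbn hCn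
    intro v hv j i
    rcases mem_pl.1 hv with rfl | hvS
    · rw [vl_zero]
      have h1 := hn.2 (π.symm i) j.castSucc
      rw [Equiv.apply_symm_apply, pr_castSucc, sub_self, add_zero] at h1
      refine h1.trans ?_
      refine (mul_le_mul_of_nonneg_right hCn (Real.exp_pos _).le).trans ?_
      rw [← Real.exp_add]
      apply le_of_eq
      congr 1
      simp only [c', if_true]
      ring
    · have hvp := hS v hvS
      have hv0 : v ≠ 0 := hvp.ne_zero
      rw [vl_ne _ _ hv0]
      have h1 : ∀ a, av v (fv (hat e (L v)) (hat e (Matrix.of (g n)) a) i) ≤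
          Real.exp (nu (c v) (e i) * T n) := by
        intro a
        have h2 := av_hat_le hCBN e (Or.inr hvp) (L v) (g n) (c v) (fun _ => 0) (T n) (by
          intro j i
          rw [add_zero, ← vl_ne A L hv0]
          exact (hbn j i).2 v hvS) a i
        rw [if_neg hv0, one_mul] at h2
        have h3 : nu (fun _ : Fin (k + p) => (0 : ℝ)) (e a) = 0 := by simp [nu]
        rw [h3, add_zero] at h2
        exact h2
      have h4 : (c' v i - if v = 0 then d₁ else 0) = nu (c v) (e i) := by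
        simp only [c', if_neg hv0]
        ring
      rw [h4, fv_tw]
      push_cast
      refine (av_add_le_max hvp _ _).trans (max_le (h1 _) ?_)
      apply av_sum_le_of hvp _ _ (Real.exp_pos _).le
      intro a _
      rw [av_mul (Or.inr hvp)]
      calc _ ≤ 1 * av v (fv (hat e (L v)) (hat e (Matrix.of (g n)) a) i : ℚ) :=
            mul_le_mul_of_nonneg_right (av_int_le_one hvp _) (av_nonneg _ _)
        _ ≤ _ := by
            rw [one_mul]
            exact h1 a
  obtain ⟨w, hw0, hw⟩ := hTHA K M S U T (hatR e A) (fun v => hat e (L v)) c' d₁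
    (fun n j => tw (m n) (hat e (Matrix.of (g n))) j.castSucc) hM hS (hatR_mem K e A hK) hT
    (hatR_det hCBN e A hA) (fun v hv => hat_det hCBN e _ (hL v hv)) hc'sum hd₁0 hind hbd
  -- back to the space
  obtain ⟨c₀, hc₀, hann⟩ := hANN k p (fun t => (w (e.symm t) : ℚ)) hp (by
    intro h
    apply hw0
    funext i
    have := congrFun h (e i)
    simpa using this)
  obtain ⟨b, hb⟩ := IsLocalization.exist_integer_multiples_of_finite (nonZeroDivisors ℤ) c₀
  choose w₁ hw₁ using hb
  have hb0 : ((b : ℤ) : ℚ) ≠ 0 := by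
    exact_mod_cast nonZeroDivisors.ne_zero b.2
  have hw₁' : ∀ i, (w₁ i : ℚ) = (b : ℤ) * c₀ i := by
    intro i
    have := hw₁ i
    simpa [zsmul_eq_mul] using this
  refine ⟨w₁, ?_, ?_⟩
  · intro h
    apply hc₀
    funext i
    have h1 := hw₁' i
    rw [h] at h1
    simp only [Pi.zero_apply, Int.cast_zero] at h1
    rcases mul_eq_zero.1 h1.symm with h2 | h2
    · exact absurd h2 hb0
    · exact h2
  · filter_upwards [hw, hm] with n hn hmn
    intro j hj
    have h1 := rec_tw (m n) (hat e (Matrix.of (g n))) hmn.1 w hn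
    have h2 := hann ((Matrix.of (g n)).transpose.map (Int.castRingHom ℚ)) (by
      rw [← RingHom.mapMatrix_apply, ← RingHom.map_det, Matrix.det_transpose]
      simpa using hg n) (by
      intro s hs
      have h3 : e.symm s ≠ Fin.last M := by
        intro h
        apply hs
        rw [← hlast, ← h, Equiv.apply_symm_apply]
      have h4 := h1 _ (e.symm s) rfl h3
      have h5 : ∑ t, (w (e.symm t) : ℚ) *
          cpd p ((Matrix.of (g n)).transpose.map (Int.castRingHom ℚ)) t s =
          ((∑ i, w i * hat e (Matrix.of (g n)) (e.symm s) i : ℤ) : ℚ) := by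
        rw [← Equiv.sum_comp e]
        push_cast
        refine Finset.sum_congr rfl fun i _ => ?_
        rw [cpd_map, cpd_transpose, Equiv.symm_apply_apply]
        simp [hat]
      rw [h5, h4, Int.cast_zero]) j hj
    have h6 : ((∑ i, w₁ i * g n j i : ℤ) : ℚ) = (b : ℤ) * ∑ i, c₀ i *
        ((Matrix.of (g n)).transpose.map (Int.castRingHom ℚ)) i j := by
      push_cast
      rw [Finset.mul_sum]
      refine Finset.sum_congr rfl fun i _ => ?_
      rw [hw₁']
      simp [mul_assoc]
    rw [h2, mul_zero] at h6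
    exact_mod_cast h6

end Pool.Agent.SBT
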