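import Pool.Agent.SBT.StmtsK
import Pool.Agent.SBT.Api

set_option autoImplicit false

/-! Module KUS: sums of units form a ring. -/

namespace Pool.Agent.SBT

open Filter

/-- constructor with an arbitrary finite index type -/
theorem KUS_mk {U : Ultrafilter ℕ} {S : Finset ℕ} {T : ℕ → ℝ} {f : ℕ → ℚ} {ι : Type} [Fintype ι]
    (c : ι → ℚ) (u : ι → ℕ → ℚ) (C : ℝ) (h1 : ∀ t n, IsU S (u t n))
    (h2 : ∀ᶠ n in (U : Filter ℕ), ∀ t, ∀ v ∈ pl S, av v (u t n) ≤ Real.exp (C * T n))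
    (h3 : ∀ᶠ n in (U : Filter ℕ), f n = ∑ t, c t * u t n) : USm U S T f := by
  classical
  let e := Fintype.equivFin ι
  refine ⟨Fintype.card ι, fun t => c (e.symm t), fun t => u (e.symm t), C,
    fun t n => h1 _ n, ?_, ?_⟩
  · filter_upwards [h2] with n hn t v hv
    exact hn _ v hv
  · filter_upwards [h3] with n hn
    rw [hn]
    exact (Equiv.sum_comp e.symm (fun t => c t * u t n)).symm

theorem KUS_congr {U : Ultrafilter ℕ} {S : Finset ℕ} {T : ℕ → ℝ} {f g : ℕ → ℚ}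
    (hf : USm U S T f) (h : ∀ n, g n = f n) : USm U S T g := by
  have : g = f := funext h
  rw [this]
  exact hf

theorem KUS_zero (U : Ultrafilter ℕ) (S : Finset ℕ) (T : ℕ → ℝ) : USm U S T (fun _ => 0) := by
  refine KUS_mk (ι := Empty) (fun t => t.elim) (fun t => t.elim) 0 (fun t => t.elim) ?_ ?_
  · exact Eventually.of_forall fun n t => t.elim
  · exact Eventually.of_forall fun n => by simp

theorem KUS_const (U : Ultrafilter ℕ) (S : Finset ℕ) (T : ℕ → ℝ) (c : ℚ) :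
    USm U S T (fun _ => c) := by
  refine KUS_mk (ι := Unit) (fun _ => c) (fun _ _ => 1) 0 (fun _ _ => isU_one S) ?_ ?_
  · refine Eventually.of_forall fun n t v hv => ?_
    rcases eq_or_ne v 0 with rfl | h0
    · simp [av]
    · simp [av, h0]
  · exact Eventually.of_forall fun n => by simp

theorem KUS_add {U : Ultrafilter ℕ} {S : Finset ℕ} {T : ℕ → ℝ} {f g : ℕ → ℚ}
    (hT : Tendsto T (U : Filter ℕ) atTop) (hf : USm U S T f) (hg : USm U S T g) :
    USm U S T (fun n => f n + g n) := by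
  obtain ⟨N, c, u, C, h1, h2, h3⟩ := hf
  obtain ⟨N', c', u', C', h1', h2', h3'⟩ := hg
  refine KUS_mk (ι := Fin N ⊕ Fin N') (Sum.elim c c') (Sum.elim u u') (max C C') ?_ ?_ ?_
  · rintro (t | t) n
    · exact h1 t n
    · exact h1' t n
  · filter_upwards [h2, h2', ev_pos hT] with n hn hn' hp
    rintro (t | t) v hv
    · exact (hn t v hv).trans (Real.exp_le_exp.mpr
        (mul_le_mul_of_nonneg_right (le_max_left _ _) hp.le))
    · exact (hn' t v hv).trans (Real.exp_le_exp.mpr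
        (mul_le_mul_of_nonneg_right (le_max_right _ _) hp.le))
  · filter_upwards [h3, h3'] with n hn hn'
    rw [hn, hn', Fintype.sum_sum_type]
    simp

theorem KUS_mul {U : Ultrafilter ℕ} {S : Finset ℕ} {T : ℕ → ℝ} {f g : ℕ → ℚ} (hS : PS S)
    (hf : USm U S T f) (hg : USm U S T g) : USm U S T (fun n => f n * g n) := by
  obtain ⟨N, c, u, C, h1, h2, h3⟩ := hf
  obtain ⟨N', c', u', C', h1', h2', h3'⟩ := hg
  refine KUS_mk (ι := Fin N × Fin N') (fun t => c t.1 * c' t.2) (fun t n => u t.1 n * u' t.2 n)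
    (C + C') ?_ ?_ ?_
  · rintro ⟨t, t'⟩ n
    exact (h1 t n).mul hS (h1' t' n)
  · filter_upwards [h2, h2'] with n hn hn'
    rintro ⟨t, t'⟩ v hv
    rw [av_mul (place_of_mem hS hv), add_mul, Real.exp_add]
    exact mul_le_mul (hn t v hv) (hn' t' v hv) (av_nonneg _ _) (Real.exp_pos _).le
  · filter_upwards [h3, h3'] with n hn hn'
    rw [hn, hn', Finset.sum_mul_sum, Fintype.sum_prod_type]
    refine Finset.sum_congr rfl fun i _ => Finset.sum_congr rfl fun j _ => ?_
    ring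

theorem KUS_av_mono {S S' : Finset ℕ} (hS' : PS S') (hSS : S ⊆ S') {x : ℚ} (hx : IsU S x)
    {v : ℕ} (hv : v ∈ pl S') (hv' : v ∉ pl S) : av v x = 1 := by
  have hS : PS S := fun p hp => hS' p (hSS hp)
  have h0 : v ≠ 0 := fun h => hv' (by rw [h]; exact zero_mem_pl S)
  have hvS : v ∉ S := fun h => hv' (mem_pl_of_mem h)
  have hp : v.Prime := (place_of_mem hS' hv).resolve_left h0
  rw [av_prime hp, IsU.padicNorm_eq_one hS hx hp hvS]
  norm_num

theorem KUS_mono {U : Ultrafilter ℕ} {S S' : Finset ℕ} {T : ℕ → ℝ} {f : ℕ → ℚ} (hS' : PS S')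
    (hSS : S ⊆ S') (hT : Tendsto T (U : Filter ℕ) atTop) (hf : USm U S T f) :
    USm U S' T f := by
  obtain ⟨N, c, u, C, h1, h2, h3⟩ := hf
  refine ⟨N, c, u, max C 0, fun t n => (h1 t n).mono hS' hSS, ?_, h3⟩
  filter_upwards [h2, ev_pos hT] with n hn hp t v hv
  by_cases hvS : v ∈ pl S
  · exact (hn t v hvS).trans (Real.exp_le_exp.mpr
      (mul_le_mul_of_nonneg_right (le_max_left _ _) hp.le))
  · rw [KUS_av_mono hS' hSS (h1 t n) hv hvS]
    exact Real.one_le_exp (mul_nonneg (le_max_right _ _) hp.le)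

theorem KUS_fin {U : Ultrafilter ℕ} {S : Finset ℕ} {T : ℕ → ℝ} {ι : Type} (hS : PS S)
    (hT : Tendsto T (U : Filter ℕ) atTop) (f : ι → ℕ → ℚ) (hf : ∀ i, USm U S T (f i))
    (s : Finset ι) :
    USm U S T (fun n => ∏ i ∈ s, f i n) ∧ USm U S T (fun n => ∑ i ∈ s, f i n) := by
  classical
  induction s using Finset.induction_on with
  | empty => exact ⟨by simpa using KUS_const U S T 1, by simpa using KUS_zero U S T⟩
  | insert a s ha ih =>
    refine ⟨KUS_congr (KUS_mul hS (hf a) ih.1) fun n => ?_,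
      KUS_congr (KUS_add hT (hf a) ih.2) fun n => ?_⟩
    · rw [Finset.prod_insert ha]
    · rw [Finset.sum_insert ha]

theorem kus_proof : Stmt_KUS :=
  ⟨fun _ _ _ _ _ hS hT hf hg => ⟨KUS_add hT hf hg, KUS_mul hS hf hg⟩,
    fun U S T c _ => KUS_const U S T c,
    fun _ _ _ _ _ hS' hSS hT hf => KUS_mono hS' hSS hT hf,
    fun _ _ _ _ f hS hT hf => KUS_fin hS hT f hf Finset.univ⟩

end Pool.Agent.SBT
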