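import Pool.Agent.SBT.Stmts

/-!
# ORD: a good order of the linear forms with respect to a flag
-/

set_option autoImplicit false

namespace Pool.Agent.SBT

namespace ORD_

open Finset

/-- `n` linear forms on a space of dimension `< n` satisfy a linear relation -/
theorem exists_rel (n : ℕ) (ι : Type) [Fintype ι] [DecidableEq ι] (hc : Fintype.card ι = n + 1)
    (M : Fin (n + 1) → ι → ℝ) :
    ∃ c : ι → ℝ, c ≠ 0 ∧ ∀ k : Fin n, ∑ i, c i * M k.castSucc i = 0 := by
  classical
  let f : (ι → ℝ) →ₗ[ℝ] (Fin n → ℝ) :=
    { toFun := fun c k => ∑ i, c i * M k.castSucc i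
      map_add' := by
        intro x y
        funext k
        simp [add_mul, Finset.sum_add_distrib]
      map_smul' := by
        intro a x
        funext k
        simp [Finset.mul_sum, mul_assoc] }
  have hdim : Module.finrank ℝ (Fin n → ℝ) < Module.finrank ℝ (ι → ℝ) := by
    simp [hc]
  obtain ⟨c, hcm, hcne⟩ := Submodule.exists_mem_ne_zero_of_ne_bot
    (LinearMap.ker_ne_bot_of_finrank_lt (f := f) hdim)
  refine ⟨c, hcne, fun k => ?_⟩
  have := congrFun (LinearMap.mem_ker.1 hcm) k
  simpa [f] using this

/-- the statement for a matrix of values -/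
theorem main (n : ℕ) : ∃ C : ℝ, 1 ≤ C ∧ ∀ (ι : Type) [Fintype ι] [DecidableEq ι]
    (_ : Fintype.card ι = n) (M : Fin n → ι → ℝ),
    ∃ e : Fin n ≃ ι, ∀ (j : Fin n) (x : Fin n → ℝ), (∀ k, j < k → x k = 0) → ∀ B : ℝ,
      (∀ i ≤ j, |∑ k, x k * M k (e i)| ≤ B) → ∀ i, |∑ k, x k * M k (e i)| ≤ C * B := by
  induction n with
  | zero =>
    refine ⟨1, le_refl _, ?_⟩
    intro ι _ _ hc M
    have : IsEmpty ι := Fintype.card_eq_zero_iff.1 hc
    exact ⟨Equiv.equivOfIsEmpty _ _, fun j => j.elim0⟩
  | succ n ih =>
    obtain ⟨C, hC1, hC⟩ := ih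
    refine ⟨(n + 1) * C, ?_, ?_⟩
    · have : (1 : ℝ) ≤ (n : ℝ) + 1 := by
        have : (0 : ℝ) ≤ n := Nat.cast_nonneg n
        linarith
      nlinarith
    intro ι _ _ hc M
    obtain ⟨c, hcne, hrel⟩ := exists_rel n ι hc M
    have : Nonempty ι := by
      rw [← Fintype.card_pos_iff, hc]; omega
    obtain ⟨s, hs⟩ := Finite.exists_max (fun i => |c i|)
    have hcs : c s ≠ 0 := by
      intro h0
      apply hcne
      funext i
      have := hs i
      rw [h0, abs_zero] at this
      simpa using abs_nonpos_iff.1 this
    have hcs' : 0 < |c s| := abs_pos.2 hcs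
    have hcard : Fintype.card {i : ι // i ≠ s} = n := by
      have := Fintype.card_subtype_compl (fun i : ι => i = s)
      simp only [Fintype.card_subtype_eq, hc] at this
      simpa using this
    obtain ⟨e', he'⟩ := hC {i : ι // i ≠ s} hcard (fun k i => M k.castSucc i.1)
    let e : Fin (n + 1) ≃ ι :=
      (finSuccEquivLast.trans (Equiv.optionCongr e')).trans (Equiv.optionSubtypeNe s)
    have he_cast : ∀ i : Fin n, e i.castSucc = (e' i).1 := by
      intro i
      simp [e, finSuccEquivLast_castSucc]
    have he_last : e (Fin.last n) = s := by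
      simp [e, finSuccEquivLast_last]
    have hnn : (0 : ℝ) ≤ n := Nat.cast_nonneg n
    refine ⟨e, ?_⟩
    intro j x hx B hB
    have hB0 : 0 ≤ B := le_trans (abs_nonneg _) (hB j (le_refl _))
    have hCB : 0 ≤ C * B := mul_nonneg (by linarith) hB0
    rcases Fin.eq_castSucc_or_eq_last j with ⟨j', rfl⟩ | rfl
    · -- j < last
      have hxl : x (Fin.last n) = 0 := hx _ (Fin.castSucc_lt_last j')
      have hsum : ∀ i, ∑ k, x k * M k i = ∑ k : Fin n, x k.castSucc * M k.castSucc i := by
        intro i
        rw [Fin.sum_univ_castSucc, hxl]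
        simp
      have h1 := he' j' (fun k => x k.castSucc) (fun k hk => hx _ (by simpa using hk)) B (by
        intro i hi
        have := hB i.castSucc (by simpa using hi)
        rw [hsum, he_cast] at this
        exact this)
      -- the form s
      have h2 : |∑ k, x k * M k s| ≤ n * (C * B) := by
        have hz : ∑ i, c i * ∑ k, x k * M k i = 0 := by
          simp_rw [hsum, Finset.mul_sum]
          rw [Finset.sum_comm]
          apply Finset.sum_eq_zero
          intro k _
          have : ∑ i, c i * (x k.castSucc * M k.castSucc i) =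
              x k.castSucc * ∑ i, c i * M k.castSucc i := by
            rw [Finset.mul_sum]
            exact Finset.sum_congr rfl fun i _ => by ring
          rw [this, hrel, mul_zero]
        have hz2 : c s * ∑ k, x k * M k s = - ∑ i ∈ univ.erase s, c i * ∑ k, x k * M k i := by
          rw [← Finset.add_sum_erase _ _ (Finset.mem_univ s)] at hz
          linarith
        have hz3 : |c s| * |∑ k, x k * M k s| ≤ |c s| * (n * (C * B)) := by
          rw [← abs_mul, hz2, abs_neg]
          refine (Finset.abs_sum_le_sum_abs _ _).trans ?_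
          have hb : ∀ i ∈ univ.erase s, |c i * ∑ k, x k * M k i| ≤ |c s| * (C * B) := by
            intro i hi
            rw [abs_mul]
            have hi' : i ≠ s := Finset.ne_of_mem_erase hi
            have h3 := h1 (e'.symm ⟨i, hi'⟩)
            simp only [Equiv.apply_symm_apply] at h3
            rw [← hsum] at h3
            exact mul_le_mul (hs i) h3 (abs_nonneg _) (abs_nonneg _)
          refine (Finset.sum_le_card_nsmul _ _ _ hb).trans ?_
          rw [Finset.card_erase_of_mem (Finset.mem_univ s), Finset.card_univ, hc, nsmul_eq_mul]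
          simp only [Nat.add_sub_cancel]
          exact le_of_eq (by ring)
        exact le_of_mul_le_mul_left hz3 hcs'
      intro i
      rcases Fin.eq_castSucc_or_eq_last i with ⟨i', rfl⟩ | rfl
      · rw [hsum, he_cast]
        refine (h1 i').trans ?_
        nlinarith
      · rw [he_last]
        refine h2.trans ?_
        nlinarith
    · intro i
      refine (hB i (Fin.le_last i)).trans ?_
      have : 1 ≤ ((n : ℝ) + 1) * C := by nlinarith
      nlinarith

end ORD_

theorem ORD_proof : Stmt_ORD := by
  intro N
  obtain ⟨C, hC1, hC⟩ := ORD_.main N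
  refine ⟨C, hC1, ?_⟩
  intro A G _ _
  obtain ⟨e, he⟩ := hC (Fin N) (by simp) (fun k i => A.mulVec (G k) i)
  exact ⟨e, he⟩

end Pool.Agent.SBT
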