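import Pool.Agent.SBT.StmtsBC

/-!
# SQN: the choice of the places and of the degrees
-/

set_option autoImplicit false

namespace Pool.Agent.SBT

open Filter

namespace SQN_

theorem seq_exists (U : Ultrafilter ℕ) (T : ℕ → ℝ) (E : ℕ → Prop) (Λ T₀ : ℝ)
    (hT : Tendsto T (U : Filter ℕ) atTop) (hE : ∀ᶠ n in (U : Filter ℕ), E n) :
    ∃ N : ℕ → ℕ, (∀ i, E (N i)) ∧ (∀ i, T₀ ≤ T (N i)) ∧ ∀ i, Λ * T (N i) ≤ T (N (i + 1)) := by
  have h1 : ∀ X : ℝ, ∃ n, E n ∧ X ≤ T n := fun X =>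
    (hE.and (hT.eventually_ge_atTop X)).exists
  choose f hf using h1
  let N : ℕ → ℕ := fun i => Nat.rec (f T₀) (fun _ p => f (max T₀ (Λ * T p))) i
  have hN0 : N 0 = f T₀ := rfl
  have hNs : ∀ i, N (i + 1) = f (max T₀ (Λ * T (N i))) := fun i => rfl
  refine ⟨N, ?_, ?_, ?_⟩
  · intro i
    cases i with
    | zero => rw [hN0]; exact (hf _).1
    | succ i => rw [hNs]; exact (hf _).1
  · intro i
    cases i with
    | zero => rw [hN0]; exact (hf _).2
    | succ i => rw [hNs]; exact le_trans (le_max_left _ _) (hf _).2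
  · intro i
    rw [hNs]
    exact le_trans (le_max_right _ _) (hf _).2

end SQN_

theorem sqn_proof : Stmt_SQN := by
  intro U T E m ω κ T₀ hm hT hE hω hκ hT₀
  set ρ : ℝ := min ω (1 / 2) with hρ
  have hρ0 : 0 < ρ := lt_min hω (by norm_num)
  have hρω : ρ ≤ ω := min_le_left _ _
  have hρh : ρ ≤ 1 / 2 := min_le_right _ _
  set Λ : ℝ := (1 + κ) / ρ with hΛ
  have hΛ1 : 1 ≤ Λ := by
    rw [hΛ, le_div_iff₀ hρ0]
    linarith
  have hΛρ : Λ * ρ = 1 + κ := by
    rw [hΛ]; field_simp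
  obtain ⟨N, hNE, hNT, hNs⟩ := SQN_.seq_exists U T E Λ T₀ hT hE
  have hpos : ∀ i, 0 < T (N i) := fun i => lt_of_lt_of_le hT₀ (hNT i)
  have hmono : Monotone (fun i => T (N i)) := by
    refine monotone_nat_of_le_succ fun i => ?_
    have h1 := hNs i
    have h2 := hpos i
    nlinarith
  have hΛlt : ∀ i j, i < j → Λ * T (N i) ≤ T (N j) := fun i j hij =>
    le_trans (hNs i) (hmono (Nat.succ_le_of_lt hij))
  set W : ℝ := (∑ h ∈ Finset.range m, T (N h)) / κ with hW
  have hWT : ∀ h, h < m → T (N h) ≤ κ * W := by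
    intro h hh
    have h1 : T (N h) ≤ ∑ h ∈ Finset.range m, T (N h) :=
      Finset.single_le_sum (f := fun h => T (N h)) (fun i _ => (hpos i).le)
        (Finset.mem_range.2 hh)
    have h2 : κ * W = ∑ h ∈ Finset.range m, T (N h) := by
      rw [hW]; field_simp
    rw [h2]; exact h1
  have hW0 : 0 < W := by
    have h1 := hWT 0 (by omega)
    have h2 := hpos 0
    by_contra hcon
    push Not at hcon
    nlinarith
  set d : ℕ → ℕ := fun h => ⌈W / T (N h)⌉₊ with hd
  have hd1 : ∀ h, 1 ≤ d h := by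
    intro h
    rw [hd]
    exact Nat.one_le_ceil_iff.2 (div_pos hW0 (hpos h))
  have hdl : ∀ h, W ≤ d h * T (N h) := by
    intro h
    have h1 : W / T (N h) ≤ (d h : ℝ) := Nat.le_ceil _
    rwa [div_le_iff₀ (hpos h)] at h1
  have hdu : ∀ h, h < m → d h * T (N h) ≤ (1 + κ) * W := by
    intro h hh
    have h1 : (d h : ℝ) < W / T (N h) + 1 := Nat.ceil_lt_add_one (div_pos hW0 (hpos h)).le
    have h2 : (d h : ℝ) * T (N h) ≤ (W / T (N h) + 1) * T (N h) :=
      mul_le_mul_of_nonneg_right h1.le (hpos h).le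
    have h3 : (W / T (N h) + 1) * T (N h) = W + T (N h) := by
      have := (hpos h).ne'
      field_simp
    have h4 := hWT h hh
    linarith
  have hdd : ∀ i j, i < j → j < m → (d j : ℝ) ≤ ρ * d i := by
    intro i j hij hj
    have h1 := hdu j hj
    have h2 := hdl i
    have h3 := hΛlt i j hij
    have h4 : (d j : ℝ) * (Λ * T (N i)) ≤ (1 + κ) * (d i * T (N i)) :=
      calc (d j : ℝ) * (Λ * T (N i)) ≤ d j * T (N j) :=
            mul_le_mul_of_nonneg_left h3 (Nat.cast_nonneg _)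
        _ ≤ (1 + κ) * W := h1
        _ ≤ (1 + κ) * (d i * T (N i)) := mul_le_mul_of_nonneg_left h2 (by linarith)
    have h5 : (Λ * T (N i)) * (d j : ℝ) ≤ (Λ * T (N i)) * (ρ * d i) := by
      calc (Λ * T (N i)) * (d j : ℝ) = (d j : ℝ) * (Λ * T (N i)) := by ring
        _ ≤ (1 + κ) * (d i * T (N i)) := h4
        _ = (Λ * ρ) * (d i * T (N i)) := by rw [hΛρ]
        _ = (Λ * T (N i)) * (ρ * d i) := by ring
    exact le_of_mul_le_mul_left h5 (mul_pos (by linarith) (hpos i))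
  have hgeo : ∀ h, h < m → (d h : ℝ) ≤ (1 / 2) ^ h * d 0 := by
    intro h
    induction h with
    | zero => intro _; simp
    | succ h ih =>
      intro hh
      have h1 := ih (by omega)
      have h2 := hdd h (h + 1) (by omega) hh
      have h3 : ρ * (d h : ℝ) ≤ 1 / 2 * d h :=
        mul_le_mul_of_nonneg_right hρh (Nat.cast_nonneg _)
      rw [pow_succ]
      nlinarith
  refine ⟨fun h => N h, fun h => d h, W, d 0, fun h => hNE h, fun h => hNT h, hW0,
    fun h => hd1 h, fun h => ⟨hdl h, hdu h h.2⟩, ?_, ?_, ?_, ?_⟩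
  · intro h h' hh
    exact le_trans (hdd h h' hh h'.2) (mul_le_mul_of_nonneg_right hρω (Nat.cast_nonneg _))
  · intro h
    refine le_trans (hgeo h h.2) ?_
    have h1 : ((1 : ℝ) / 2) ^ (h : ℕ) ≤ 1 := pow_le_one₀ (by norm_num) (by norm_num)
    have h2 : (0 : ℝ) ≤ d 0 := Nat.cast_nonneg _
    nlinarith
  · rw [Fin.sum_univ_eq_sum_range (fun h => (d h : ℝ)) m]
    calc ∑ h ∈ Finset.range m, (d h : ℝ)
        ≤ ∑ h ∈ Finset.range m, ((1 : ℝ) / 2) ^ h * d 0 :=
          Finset.sum_le_sum fun h hh => hgeo h (Finset.mem_range.1 hh)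
      _ = (∑ h ∈ Finset.range m, ((1 : ℝ) / 2) ^ h) * d 0 := by rw [Finset.sum_mul]
      _ ≤ 2 * d 0 := mul_le_mul_of_nonneg_right (sum_geometric_two_le m) (Nat.cast_nonneg _)
  · have h1 := hdu 0 (by omega)
    have h2 := hNT 0
    have h3 : (d 0 : ℝ) * T₀ ≤ d 0 * T (N 0) :=
      mul_le_mul_of_nonneg_left h2 (Nat.cast_nonneg _)
    linarith

end Pool.Agent.SBT
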