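import Pool.Agent.SBT.StmtsD

/-!
# Module STV: the value of a prefix
-/

set_option autoImplicit false

namespace Pool.Agent.SBT

open Filter

namespace STV_

/-- explicit formula for the prefixes -/
theorem prefix_eq {E : ℕ} (a K : ℕ) (ty : ℕ → Fin E) (β : ℕ → ℕ) (y : Fin E → ℤ)
    (len : Fin E → ℕ) (P : ℕ → ℤ) (hβ : ∀ l < K, β (l + 1) = β l + len (ty l))
    (hP : ∀ l < K, P (l + 1) = (a : ℤ) ^ len (ty l) * P l + y (ty l)) :
    ∀ k ≤ K, β 0 ≤ β k ∧ (∀ l ≤ k, β l ≤ β k) ∧ P k = (a : ℤ) ^ (β k - β 0) * P 0 +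
      ∑ l ∈ Finset.range k, (a : ℤ) ^ (β k - β (l + 1)) * y (ty l) := by
  intro k
  induction k with
  | zero =>
    intro _
    refine ⟨le_rfl, ?_, by simp⟩
    intro l hl
    rw [Nat.le_zero.1 hl]
  | succ k ih =>
    intro hk
    obtain ⟨h1, h2, h3⟩ := ih (by omega)
    have hb := hβ k (by omega)
    refine ⟨by omega, ?_, ?_⟩
    · intro l hl
      rcases Nat.lt_or_ge l (k + 1) with h | h
      · have := h2 l (by omega)
        omega
      · have : l = k + 1 := by omega
        rw [this]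
    · rw [hP k (by omega), h3, Finset.sum_range_succ, mul_add, Finset.mul_sum, Nat.sub_self,
        pow_zero, one_mul, ← mul_assoc, ← pow_add]
      have e1 : len (ty k) + (β k - β 0) = β (k + 1) - β 0 := by omega
      rw [e1, add_assoc]
      congr 2
      refine Finset.sum_congr rfl fun l hl => ?_
      rw [← mul_assoc, ← pow_add]
      have h4 := h2 (l + 1) (by have := Finset.mem_range.1 hl; omega)
      have e2 : len (ty k) + (β k - β (l + 1)) = β (k + 1) - β (l + 1) := by omega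
      rw [e2]

end STV_

open STV_ in
theorem stv_proof (hRPA : Stmt_RPA) (hVPC : Stmt_VPC) (hPCS : Stmt_PCS) : Stmt_STV := by
  intro E G
  obtain ⟨radd, rmul, rmono, rpow, rzero, rneg, rprod⟩ := hRPA
  rcases E with _ | E
  · exact ⟨0, fun _ _ _ _ _ ty => (ty 0).elim0⟩
  set N1 : ℕ := 2 ^ (E + 1) * (4 * (E + 1) + 1) with hN1
  refine ⟨((E + 1 + 1) * (G + 2)) * N1 + 2 ^ (E + 1), ?_⟩
  intro a D X K M ty β y len q P ha hD hX hq hβ hlen hβK hM hP h1 h2
  set N : ℕ := ((E + 1 + 1) * (G + 2)) * N1 + 2 ^ (E + 1) with hN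
  have hpre := prefix_eq a K ty β y len P hβ hP
  have hmono : ∀ i j, i < j → j ≤ K → β i < β j := by
    intro i j hij hj
    have h3 := (hpre j hj).2.1 (i + 1) hij
    have h4 := hβ i (by omega)
    have h5 := hlen i (by omega)
    omega
  have hltX : ∀ i ≤ K, β i < X := fun i hi => lt_of_le_of_lt ((hpre K le_rfl).2.1 i hi) hβK
  obtain ⟨s, κ, hs, hκ0, hκs, hκlt, hpc⟩ := hPCS (E + 1) D X K ty β hD hmono hltX
    (fun k k' a1 a2 a3 a4 a5 => (h1 k k' a1 a2 a3 a4 a5).2) h2
  have hXD : X / D ≤ G := Nat.div_le_of_le_mul (by rw [Nat.mul_comm]; exact hX)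
  have hs' : s ≤ (E + 1 + 1) * (G + 2) :=
    hs.trans (Nat.mul_le_mul_left _ (by omega))
  -- the product
  set Fs : ℤ := ∏ t, ((a : ℤ) ^ q t - 1) with hFs
  have hsumq : ∑ t, q t ≤ (E + 1) * D := by
    calc ∑ t, q t ≤ ∑ _t : Fin (E + 1), D := Finset.sum_le_sum fun t _ => (hq t).2
      _ = (E + 1) * D := by simp
  have hRFs : ∀ k ≤ X, Rep a (2 ^ (E + 1)) (3 * M) (Fs * (a : ℤ) ^ k) := by
    intro k hk
    refine rmono a (2 ^ (E + 1) * 1) (2 ^ (E + 1)) (∑ t, q t + k) (3 * M) _ (by omega)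
      (by omega) ?_
    exact rmul a _ _ _ _ _ _ (rprod a (E + 1) q) (rpow a k)
  -- monotonicity of κ
  have hκle : ∀ j, j ≤ s → ∀ i ≤ j, κ i ≤ κ j := by
    intro j
    induction j with
    | zero =>
      intro _ i hi
      rw [Nat.le_zero.1 hi]
    | succ j ih =>
      intro hj i hi
      rcases Nat.lt_or_ge i (j + 1) with h | h
      · exact (ih (by omega) i (by omega)).trans (hκlt j (by omega)).le
      · have : i = j + 1 := by omega
        rw [this]
  -- a single piece
  have hpiece : ∀ j < s, ∃ F : Fin (E + 1) → ℤ, (∀ t, Rep a N1 (3 * M) (F t)) ∧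
      Fs * ∑ l ∈ Finset.Ico (κ j) (κ (j + 1)), (a : ℤ) ^ (β K - β (l + 1)) * y (ty l) =
        ∑ t, F t * y t := by
    intro j hj
    have hjK : κ (j + 1) ≤ K := by
      rw [← hκs]
      exact hκle s le_rfl (j + 1) hj
    rcases hpc j hj with hone | ⟨r, hr1, hrE, hr, hrD, hrt, hrn, hper⟩
    · refine ⟨fun t => if t = ty (κ j) then Fs * (a : ℤ) ^ (β K - β (κ j + 1)) else 0, ?_, ?_⟩
      · intro t
        dsimp only
        split_ifs
        · refine rmono a _ _ _ _ _ ?_ le_rfl (hRFs _ (by omega))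
          rw [hN1]
          exact Nat.le_mul_of_pos_right _ (by omega)
        · exact rzero a _ _
      · rw [hone, Nat.Ico_succ_singleton, Finset.sum_singleton]
        simp only [ite_mul, zero_mul, Finset.sum_ite_eq', Finset.mem_univ, if_true]
        ring
    · have hq1 := (h1 (κ j) (κ j + r) (by omega) (by omega) hrt hrD hrn).1
      obtain ⟨F, hF, hFe⟩ := hVPC a (E + 1) (κ j) (κ (j + 1)) r X ty β y len q hr1 hrE hr
        (fun l _ hl2 => hβ l (by omega)) (hltX _ hjK).le hq1 hper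
      set t₀ := ty (κ j) with ht₀
      set Q : ℤ := ∏ i : Fin E, ((a : ℤ) ^ q (t₀.succAbove i) - 1) with hQ
      have hFQ : Fs = ((a : ℤ) ^ q t₀ - 1) * Q := by
        rw [hFs, Fin.prod_univ_succAbove _ t₀]
      have hsq : ∑ i : Fin E, q (t₀.succAbove i) ≤ (E + 1) * D := by
        refine le_trans ?_ hsumq
        rw [Fin.sum_univ_succAbove _ t₀]
        omega
      have hbk : β (κ (j + 1)) ≤ β K := (hpre K le_rfl).2.1 _ hjK
      refine ⟨fun t => Q * (a : ℤ) ^ (β K - β (κ (j + 1))) * F t, ?_, ?_⟩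
      · intro t
        refine rmono a (2 ^ E * 1 * (4 * (E + 1))) N1
          (∑ i : Fin E, q (t₀.succAbove i) + (β K - β (κ (j + 1))) + 2 * X) (3 * M) _ ?_
          (by omega) ?_
        · rw [hN1, Nat.mul_one]
          exact Nat.mul_le_mul (Nat.pow_le_pow_right (by norm_num) (by omega)) (by omega)
        · exact rmul a _ _ _ _ _ _ (rmul a _ _ _ _ _ _ (rprod a E _) (rpow a _)) (hF t)
      · have hsum : ∑ l ∈ Finset.Ico (κ j) (κ (j + 1)), (a : ℤ) ^ (β K - β (l + 1)) * y (ty l) =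
            (a : ℤ) ^ (β K - β (κ (j + 1))) *
            ∑ l ∈ Finset.Ico (κ j) (κ (j + 1)),
              (a : ℤ) ^ (β (κ (j + 1)) - β (l + 1)) * y (ty l) := by
          rw [Finset.mul_sum]
          refine Finset.sum_congr rfl fun l hl => ?_
          have hl2 := (Finset.mem_Ico.1 hl).2
          have h3 := (hpre (κ (j + 1)) hjK).2.1 (l + 1) hl2
          rw [← mul_assoc, ← pow_add]
          congr 2
          omega
        rw [hsum, hFQ]
        calc ((a : ℤ) ^ q t₀ - 1) * Q * ((a : ℤ) ^ (β K - β (κ (j + 1))) *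
              ∑ l ∈ Finset.Ico (κ j) (κ (j + 1)),
                (a : ℤ) ^ (β (κ (j + 1)) - β (l + 1)) * y (ty l))
            = Q * (a : ℤ) ^ (β K - β (κ (j + 1))) * (((a : ℤ) ^ q t₀ - 1) *
              ∑ l ∈ Finset.Ico (κ j) (κ (j + 1)),
                (a : ℤ) ^ (β (κ (j + 1)) - β (l + 1)) * y (ty l)) := by ring
          _ = _ := by
            rw [hFe, Finset.mul_sum]
            exact Finset.sum_congr rfl fun t _ => by ring
  -- the sum over the pieces
  have hsumm : ∀ j ≤ s, ∃ F : Fin (E + 1) → ℤ, (∀ t, Rep a (j * N1) (3 * M) (F t)) ∧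
      Fs * ∑ l ∈ Finset.range (κ j), (a : ℤ) ^ (β K - β (l + 1)) * y (ty l) =
        ∑ t, F t * y t := by
    intro j
    induction j with
    | zero =>
      intro _
      refine ⟨fun _ => 0, fun t => rzero a _ _, ?_⟩
      rw [hκ0]
      simp
    | succ j ih =>
      intro hj
      obtain ⟨F, hF, hFe⟩ := ih (by omega)
      obtain ⟨F', hF', hFe'⟩ := hpiece j (by omega)
      refine ⟨fun t => F t + F' t, ?_, ?_⟩
      · intro t
        rw [Nat.succ_mul]
        exact radd a _ _ _ _ _ (hF t) (hF' t)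
      · rw [Finset.range_eq_Ico, ← Finset.sum_Ico_consecutive _ (Nat.zero_le (κ j))
          (hκlt j (by omega)).le, mul_add, ← Finset.range_eq_Ico, hFe, hFe',
          ← Finset.sum_add_distrib]
        exact Finset.sum_congr rfl fun t _ => by ring
  obtain ⟨F, hF, hFe⟩ := hsumm s le_rfl
  rw [hκs] at hFe
  refine ⟨Fs * (a : ℤ) ^ (β K - β 0), F, ?_, ?_, ?_⟩
  · exact rmono a _ _ _ _ _ (by omega) le_rfl (hRFs _ (by omega))
  · intro t
    refine rmono a _ _ _ _ _ ?_ le_rfl (hF t)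
    exact (Nat.mul_le_mul_right N1 hs').trans (Nat.le_add_right _ _)
  · rw [(hpre K le_rfl).2.2, mul_add, hFe]
    ring

end Pool.Agent.SBT
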