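import Pool.Agent.SBT.StmtsD

/-! Module VIN: the valuations of independent integers are independent. -/

set_option autoImplicit false

namespace Pool.Agent.SBT

namespace VIN_

theorem exists_det {a b : ℕ} (ha : 2 ≤ a) (hb : 2 ≤ b) (h : Indep a b) :
    ∃ p q : ℕ, p.Prime ∧ q.Prime ∧
      padicValNat p a * padicValNat q b ≠ padicValNat q a * padicValNat p b := by
  by_contra hcon
  push Not at hcon
  have hp0 : (Nat.minFac a).Prime := Nat.minFac_prime (by omega)
  set p₀ := Nat.minFac a with hp
  have hi : padicValNat p₀ a ≠ 0 := by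
    have : Fact p₀.Prime := ⟨hp0⟩
    have h1 : p₀ ∣ a := Nat.minFac_dvd a
    have := one_le_padicValNat_of_dvd (by omega : a ≠ 0) h1
    omega
  set i := padicValNat p₀ a with hi'
  set j := padicValNat p₀ b with hj'
  have heq : b ^ i = a ^ j := by
    rw [Nat.eq_iff_prime_padicValNat_eq _ _ (by positivity) (by positivity)]
    intro q hq
    have : Fact q.Prime := ⟨hq⟩
    rw [padicValNat.pow, padicValNat.pow]
    have h1 := hcon p₀ q hp0 hq
    rw [← hi', ← hj'] at h1
    rw [h1, mul_comm]
  have hj : 0 < j := by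
    rcases Nat.eq_zero_or_pos j with h0 | h0
    · exfalso
      rw [h0, pow_zero] at heq
      have : 1 < b ^ i := Nat.one_lt_pow hi (by omega)
      omega
    · exact h0
  exact h j i hj heq.symm

end VIN_

open VIN_ in
theorem vin_proof : Stmt_VIN := by
  intro a b ha hb h
  obtain ⟨p, q, hp, hq, hne⟩ := exists_det ha hb h
  have hl2 : 0 < Real.log 2 := Real.log_pos (by norm_num)
  set A : ℝ := ((padicValNat p a : ℕ) : ℝ) with hA
  set A' : ℝ := ((padicValNat q a : ℕ) : ℝ) with hA'
  set B : ℝ := ((padicValNat p b : ℕ) : ℝ) with hB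
  set B' : ℝ := ((padicValNat q b : ℕ) : ℝ) with hB'
  have hA0 : 0 ≤ A := Nat.cast_nonneg _
  have hA0' : 0 ≤ A' := Nat.cast_nonneg _
  have hB0 : 0 ≤ B := Nat.cast_nonneg _
  have hB0' : 0 ≤ B' := Nat.cast_nonneg _
  have hΔ : 1 ≤ |A * B' - A' * B| := by
    have gen : ∀ k l : ℕ, k ≠ l → (1 : ℝ) ≤ |(k : ℝ) - l| := by
      intro k l hkl
      have h1 : ((k : ℤ) - l) ≠ 0 := by
        intro h2
        apply hkl
        omega
      have h2 := Int.one_le_abs h1
      have h3 : (1 : ℝ) ≤ ((|(k : ℤ) - l| : ℤ) : ℝ) := by exact_mod_cast h2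
      rw [Int.cast_abs] at h3
      push_cast at h3
      exact h3
    have h4 := gen _ _ hne
    rw [Nat.cast_mul, Nat.cast_mul] at h4
    exact h4
  refine ⟨(A + A' + B + B') / Real.log 2 + 1, by positivity, ?_⟩
  intro x y E hE
  have key : ∀ r : ℕ, r.Prime → |x * (padicValNat r a : ℝ) + y * (padicValNat r b : ℝ)| ≤
      E / Real.log 2 := by
    intro r hr
    rw [le_div_iff₀ hl2]
    have h1 := hE r hr
    have h2 : Real.log 2 ≤ Real.log r := by
      apply Real.log_le_log (by norm_num)
      exact_mod_cast hr.two_le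
    exact (mul_le_mul_of_nonneg_left h2 (abs_nonneg _)).trans h1
  have hp1 := key p hp
  have hq1 := key q hq
  rw [← hA, ← hB] at hp1
  rw [← hA', ← hB'] at hq1
  have hE0 : 0 ≤ E / Real.log 2 := (abs_nonneg _).trans hp1
  have hEn : 0 ≤ E := by
    by_contra hcon
    rw [not_le] at hcon
    have := div_neg_of_neg_of_pos hcon hl2
    linarith
  set αp : ℝ := x * A + y * B with hαp
  set αq : ℝ := x * A' + y * B' with hαq
  set e : ℝ := E / Real.log 2 with he
  have hCE : ((A + A' + B + B') / Real.log 2 + 1) * E = (A + A' + B + B') * e + E := by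
    rw [he]; ring
  have hx : (A * B' - A' * B) * x = αp * B' - αq * B := by rw [hαp, hαq]; ring
  have hy : (A * B' - A' * B) * y = αq * A - αp * A' := by rw [hαp, hαq]; ring
  have hsum : 0 ≤ (A + A' + B + B') * e := by positivity
  constructor
  · have h1 : |(x : ℝ)| ≤ |A * B' - A' * B| * |(x : ℝ)| := by
      have := mul_le_mul_of_nonneg_right hΔ (abs_nonneg (x : ℝ))
      linarith
    rw [← abs_mul, hx] at h1
    have h2 : |αp * B' - αq * B| ≤ e * B' + e * B := by
      refine (abs_sub _ _).trans ?_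
      rw [abs_mul, abs_mul, abs_of_nonneg hB0, abs_of_nonneg hB0']
      exact add_le_add (mul_le_mul_of_nonneg_right hp1 hB0')
        (mul_le_mul_of_nonneg_right hq1 hB0)
    rw [hCE]
    have h3 : 0 ≤ (A + A') * e := by positivity
    linarith
  · have h1 : |(y : ℝ)| ≤ |A * B' - A' * B| * |(y : ℝ)| := by
      have := mul_le_mul_of_nonneg_right hΔ (abs_nonneg (y : ℝ))
      linarith
    rw [← abs_mul, hy] at h1
    have h2 : |αq * A - αp * A'| ≤ e * A + e * A' := by
      refine (abs_sub _ _).trans ?_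
      rw [abs_mul, abs_mul, abs_of_nonneg hA0, abs_of_nonneg hA0']
      exact add_le_add (mul_le_mul_of_nonneg_right hq1 hA0)
        (mul_le_mul_of_nonneg_right hp1 hA0')
    rw [hCE]
    have h3 : 0 ≤ (B + B') * e := by positivity
    linarith

end Pool.Agent.SBT
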