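import Pool.Agent.SBT.StmtsD

/-!
# VPC: the value of a periodic piece
-/

set_option autoImplicit false

namespace Pool.Agent.SBT

namespace VPC_

theorem rep_sum (h : Stmt_RPA) (a M : ℕ) (f : ℕ → ℤ) (r : ℕ) (hf : ∀ j < r, Rep a 1 M (f j)) :
    Rep a r M (∑ j ∈ Finset.range r, f j) := by
  induction r with
  | zero => simpa using h.2.2.2.2.1 a 0 M
  | succ n ih =>
    rw [Finset.sum_range_succ]
    exact h.1 a n 1 M _ _ (ih (fun j hj => hf j (by omega))) (hf n (by omega))

/-- the telescoping identity -/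
theorem tele (f : ℕ → ℤ) (A : ℤ) (r : ℕ) (n : ℕ) (h : ∀ l < n, A * f (l + r) = f l) :
    (A - 1) * ∑ l ∈ Finset.range (n + r), f l
      = A * ∑ j ∈ Finset.range r, f j - ∑ j ∈ Finset.range r, f (n + j) := by
  have h1 : ∑ l ∈ Finset.range (n + r), f l
      = ∑ l ∈ Finset.range n, f l + ∑ j ∈ Finset.range r, f (n + j) :=
    Finset.sum_range_add _ _ _
  have h2 : ∑ l ∈ Finset.range (n + r), f l
      = ∑ j ∈ Finset.range r, f j + ∑ l ∈ Finset.range n, f (r + l) := by
    rw [Nat.add_comm n r]
    exact Finset.sum_range_add _ _ _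
  have h3 : A * ∑ l ∈ Finset.range n, f (r + l) = ∑ l ∈ Finset.range n, f l := by
    rw [Finset.mul_sum]
    apply Finset.sum_congr rfl
    intro l hl
    rw [Nat.add_comm r l]
    exact h l (Finset.mem_range.1 hl)
  have h4 : A * ∑ l ∈ Finset.range (n + r), f l
      = A * ∑ j ∈ Finset.range r, f j + ∑ l ∈ Finset.range n, f l := by
    rw [h2, mul_add, h3]
  have h5 : (A - 1) * ∑ l ∈ Finset.range (n + r), f l
      = A * ∑ l ∈ Finset.range (n + r), f l - ∑ l ∈ Finset.range (n + r), f l := by ring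
  rw [h5, h4, h1]
  ring

end VPC_

open VPC_

theorem vpc_proof (hR : Stmt_RPA) : Stmt_VPC := by
  intro a E i k r M ty β y len q hr1 hrE hik hβ hM hq hty
  obtain ⟨n, rfl⟩ : ∃ n, k = i + (n + r) := ⟨k - r - i, by omega⟩
  set k := i + (n + r) with hk
  -- monotonicity
  have hmono : ∀ l, i ≤ l → ∀ j, l + j ≤ k → β l ≤ β (l + j) := by
    intro l hl j
    induction j with
    | zero => intro _; exact le_rfl
    | succ j ih =>
      intro hj
      have h1 := ih (by omega)
      have h2 := hβ (l + j) (by omega) (by omega)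
      have h3 : l + (j + 1) = l + j + 1 := by omega
      rw [h3, h2]
      omega
  have hle : ∀ l, i ≤ l → l ≤ k → β l ≤ β k := by
    intro l h1 h2
    have h3 := hmono l h1 (k - l) (by omega)
    rwa [Nat.add_sub_cancel' h2] at h3
  -- the shift
  have hshift : ∀ j, j ≤ n → β (i + j + r) = β (i + j) + q (ty i) := by
    intro j
    induction j with
    | zero => intro _; simpa using hq
    | succ j ih =>
      intro hj
      have h1 := ih (by omega)
      have h2 := hβ (i + j) (by omega) (by omega)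
      have h3 := hβ (i + j + r) (by omega) (by omega)
      have h4 := hty (i + j) (by omega) (by omega)
      have h5 : i + (j + 1) + r = i + j + r + 1 := by omega
      have h6 : i + (j + 1) = i + j + 1 := by omega
      rw [h5, h6, h3, h2, h1, ← h4]
      omega
  have hQ : q (ty i) ≤ M := by
    have h1 := hle (i + r) (by omega) (by omega)
    omega
  have hMk : β k ≤ M := hM
  -- the terms
  let f : ℕ → ℤ := fun j => (a : ℤ) ^ (β k - β (i + j + 1)) * y (ty (i + j))
  have hper : ∀ l < n, (a : ℤ) ^ q (ty i) * f (l + r) = f l := by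
    intro l hl
    have h1 := hshift (l + 1) (by omega)
    have h2 : i + (l + r) + 1 = i + (l + 1) + r := by omega
    have h3 := hle (i + (l + 1) + r) (by omega) (by omega)
    have h4 := hty (i + l) (by omega) (by omega)
    have h5 : i + (l + r) = i + l + r := by omega
    have h6 : i + l + 1 = i + (l + 1) := by omega
    show (a : ℤ) ^ q (ty i) * ((a : ℤ) ^ (β k - β (i + (l + r) + 1)) * y (ty (i + (l + r))))
      = (a : ℤ) ^ (β k - β (i + l + 1)) * y (ty (i + l))
    rw [h2, h1, h5, ← h4, h6, ← mul_assoc, ← pow_add]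
    congr 2
    omega
  have hsum : ∑ l ∈ Finset.Ico i k, (a : ℤ) ^ (β k - β (l + 1)) * y (ty l)
      = ∑ j ∈ Finset.range (n + r), f j := by
    rw [Finset.sum_Ico_eq_sum_range]
    have : k - i = n + r := by omega
    rw [this]
  -- the coefficients
  let F₁ : Fin E → ℕ → ℤ := fun t j =>
    if ty (i + j) = t then (a : ℤ) ^ (q (ty i) + (β k - β (i + j + 1))) else 0
  let F₂ : Fin E → ℕ → ℤ := fun t j =>
    if ty (i + (n + j)) = t then -((a : ℤ) ^ (β k - β (i + (n + j) + 1))) else 0
  refine ⟨fun t => ∑ j ∈ Finset.range r, F₁ t j + ∑ j ∈ Finset.range r, F₂ t j, ?_, ?_⟩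
  · intro t
    have h1 : ∀ j < r, Rep a 1 (2 * M) (F₁ t j) := by
      intro j hj
      by_cases h : ty (i + j) = t
      · have : F₁ t j = (a : ℤ) ^ (q (ty i) + (β k - β (i + j + 1))) := if_pos h
        rw [this]
        exact hR.2.2.1 a 1 1 _ (2 * M) _ le_rfl (by omega) (hR.2.2.2.1 a _)
      · have : F₁ t j = 0 := if_neg h
        rw [this]
        exact hR.2.2.2.2.1 a 1 (2 * M)
    have h2 : ∀ j < r, Rep a 1 (2 * M) (F₂ t j) := by
      intro j hj
      by_cases h : ty (i + (n + j)) = t
      · have : F₂ t j = -((a : ℤ) ^ (β k - β (i + (n + j) + 1))) := if_pos h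
        rw [this]
        exact hR.2.2.2.2.2.1 a 1 _ _
          (hR.2.2.1 a 1 1 _ (2 * M) _ le_rfl (by omega) (hR.2.2.2.1 a _))
      · have : F₂ t j = 0 := if_neg h
        rw [this]
        exact hR.2.2.2.2.1 a 1 (2 * M)
    have h3 := hR.1 a r r (2 * M) _ _ (rep_sum hR a (2 * M) _ r h1) (rep_sum hR a (2 * M) _ r h2)
    exact hR.2.2.1 a _ _ _ _ _ (by omega) le_rfl h3
  · rw [hsum, tele f _ r n hper]
    have key : ∀ (g : ℕ → Fin E) (c : ℕ → ℤ),
        ∑ t, (∑ j ∈ Finset.range r, if g j = t then c j else 0) * y t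
          = ∑ j ∈ Finset.range r, c j * y (g j) := by
      intro g c
      simp_rw [Finset.sum_mul]
      rw [Finset.sum_comm]
      apply Finset.sum_congr rfl
      intro j _
      rw [Finset.sum_eq_single (g j)]
      · rw [if_pos rfl]
      · intro b _ hb
        rw [if_neg (fun h => hb h.symm), zero_mul]
      · intro h
        exact absurd (Finset.mem_univ _) h
    have e1 := key (fun j => ty (i + j)) (fun j => (a : ℤ) ^ (q (ty i) + (β k - β (i + j + 1))))
    have e2 := key (fun j => ty (i + (n + j)))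
      (fun j => -((a : ℤ) ^ (β k - β (i + (n + j) + 1))))
    have e3 : ∑ t, (∑ j ∈ Finset.range r, F₁ t j + ∑ j ∈ Finset.range r, F₂ t j) * y t
        = ∑ t, (∑ j ∈ Finset.range r, F₁ t j) * y t
          + ∑ t, (∑ j ∈ Finset.range r, F₂ t j) * y t := by
      rw [← Finset.sum_add_distrib]
      apply Finset.sum_congr rfl
      intro t _
      ring
    have e4 : (a : ℤ) ^ q (ty i) * ∑ j ∈ Finset.range r, f j
        = ∑ j ∈ Finset.range r,
          (a : ℤ) ^ (q (ty i) + (β k - β (i + j + 1))) * y (ty (i + j)) := by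
      rw [Finset.mul_sum]
      apply Finset.sum_congr rfl
      intro j _
      show (a : ℤ) ^ q (ty i) * ((a : ℤ) ^ (β k - β (i + j + 1)) * y (ty (i + j))) = _
      rw [pow_add]
      ring
    have e5 : ∑ j ∈ Finset.range r, f (n + j)
        = - ∑ j ∈ Finset.range r,
          -((a : ℤ) ^ (β k - β (i + (n + j) + 1))) * y (ty (i + (n + j))) := by
      rw [← Finset.sum_neg_distrib]
      apply Finset.sum_congr rfl
      intro j _
      show (a : ℤ) ^ (β k - β (i + (n + j) + 1)) * y (ty (i + (n + j))) = _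
      ring
    rw [e3]
    rw [e4, e5]
    have e1' : ∑ t, (∑ j ∈ Finset.range r, F₁ t j) * y t = _ := e1
    have e2' : ∑ t, (∑ j ∈ Finset.range r, F₂ t j) * y t = _ := e2
    rw [e1', e2']
    ring

end Pool.Agent.SBT
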