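import Pool.Agent.SBT.ANN
import Pool.Agent.SBT.APX
import Pool.Agent.SBT.AUXI
import Pool.Agent.SBT.BAS
import Pool.Agent.SBT.CBN
import Pool.Agent.SBT.CHB
import Pool.Agent.SBT.CHG
import Pool.Agent.SBT.CHW
import Pool.Agent.SBT.COR
import Pool.Agent.SBT.CPS
import Pool.Agent.SBT.CPX
import Pool.Agent.SBT.DAV
import Pool.Agent.SBT.DGT
import Pool.Agent.SBT.DTM
import Pool.Agent.SBT.EL1
import Pool.Agent.SBT.ELM
import Pool.Agent.SBT.FWL
import Pool.Agent.SBT.GSY
import Pool.Agent.SBT.GWR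
import Pool.Agent.SBT.INI
import Pool.Agent.SBT.KRS
import Pool.Agent.SBT.KTY
import Pool.Agent.SBT.LAT
import Pool.Agent.SBT.LB1
import Pool.Agent.SBT.LBH
import Pool.Agent.SBT.LNB
import Pool.Agent.SBT.LTM
import Pool.Agent.SBT.MIN
import Pool.Agent.SBT.MK1
import Pool.Agent.SBT.NRK
import Pool.Agent.SBT.NRM
import Pool.Agent.SBT.ORD
import Pool.Agent.SBT.PAR
import Pool.Agent.SBT.PCS
import Pool.Agent.SBT.RD1
import Pool.Agent.SBT.RD2
import Pool.Agent.SBT.RED
import Pool.Agent.SBT.RPA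
import Pool.Agent.SBT.RT1
import Pool.Agent.SBT.RTA
import Pool.Agent.SBT.RTD
import Pool.Agent.SBT.RTH
import Pool.Agent.SBT.RTI
import Pool.Agent.SBT.RTL
import Pool.Agent.SBT.RTN
import Pool.Agent.SBT.RTS
import Pool.Agent.SBT.RTU
import Pool.Agent.SBT.RTW
import Pool.Agent.SBT.S1T
import Pool.Agent.SBT.S2T
import Pool.Agent.SBT.SBB
import Pool.Agent.SBT.SIM
import Pool.Agent.SBT.SM1
import Pool.Agent.SBT.SMB
import Pool.Agent.SBT.SMI
import Pool.Agent.SBT.SML
import Pool.Agent.SBT.SPX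
import Pool.Agent.SBT.SQN
import Pool.Agent.SBT.STF
import Pool.Agent.SBT.STV
import Pool.Agent.SBT.SUB
import Pool.Agent.SBT.THA
import Pool.Agent.SBT.THB
import Pool.Agent.SBT.TYC
import Pool.Agent.SBT.UNI
import Pool.Agent.SBT.VIN
import Pool.Agent.SBT.VOR
import Pool.Agent.SBT.VPC
import Pool.Agent.SBT.WRN

/-!
# Two bases: assembly of the modules
-/

set_option autoImplicit false

namespace Pool.Agent.SBT

/-! ## B. The Roth machinery -/

theorem GWR_ : Stmt_GWR := gwr_proof wrn_proof krs_proof kty_proof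
theorem RTS_ : Stmt_RTS := rts_proof rtd_proof GWR_ wrn_proof
theorem RTW_ : Stmt_RTW := rtw_proof RTS_
theorem RTL_ : Stmt_RTL := rtl_proof RTW_ rth_proof rti_proof rta_proof rtu_proof rt1_proof

/-! ## C. The auxiliary polynomial -/

theorem AUX_ : Stmt_AUX := aux_proof chb_proof lnb_proof
theorem SM1_ : Stmt_SM1 := sm1_proof smi_proof smb_proof
theorem SML_ : Stmt_SML := sml_proof SM1_
theorem RED_ : Stmt_RED := red_proof rd1_proof rd2_proof
theorem LBH_ : Stmt_LBH := lbh_proof lb1_proof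
theorem THA_ : Stmt_THA := tha_proof AUX_ SML_ RED_ nrm_proof nrk_proof LBH_ RTL_ sqn_proof

/-! ## A. The Subspace theorem -/

theorem DAV_ : Stmt_DAV := dav_proof ORD_proof
theorem MIN_ : Stmt_MIN := min_proof mk1_proof ORD_proof
theorem GSY_ : Stmt_GSY := gsy_proof MIN_ lat_proof
theorem THB_ : Stmt_THB := thb_proof THA_ DAV_ cbn_proof cps_proof ann_proof
theorem PAR_ : Stmt_PAR := par_proof GSY_ THB_
theorem SUB_ : Stmt_SUB := sub_proof PAR_
theorem SBB_ : Stmt_SBB := sbb_proof SUB_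

/-! ## D. Units -/

theorem UNI_ : Stmt_UNI := uni_proof SBB_
theorem S1T_ : Stmt_S1T := S1T_proof SBB_ sim_proof vor_proof ltm_proof
theorem S2T_ : Stmt_S2T := s2t_proof SBB_ sim_proof vor_proof ltm_proof
theorem EL1_ : Stmt_EL1 := el1_proof UNI_ S1T_
theorem ELM_ : Stmt_ELM := elm_proof EL1_
theorem APX_ : Stmt_APX := apx_proof UNI_ S2T_ vin_proof
theorem COR_ : Stmt_COR := cor_proof bas_proof ini_proof ELM_ APX_

/-! ## E. Words -/

theorem RTN_ : Stmt_RTN := rtn_proof fwl_proof dtm_proof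
theorem VPC_ : Stmt_VPC := vpc_proof rpa_proof
theorem STV_ : Stmt_STV := stv_proof rpa_proof VPC_ pcs_proof
theorem STF_ : Stmt_STF := stf_proof tyc_proof dtm_proof spx_proof RTN_ STV_

/-! ## F. The theorems -/

theorem CPX_ : Stmt_CPX := cpx_proof COR_ STF_ dgt_proof
theorem CHW_ : Stmt_CHW := chw_proof COR_ dgt_proof
theorem CHG_ : Stmt_CHG := chg_proof CHW_

end Pool.Agent.SBT
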