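import Pool.Agent.SBT.Main
import Pool.Agent.SBT.STG
import Pool.Agent.SBT.KRP
import Pool.Agent.SBT.KLN
import Pool.Agent.SBT.KAUX
import Pool.Agent.SBT.KSI
import Pool.Agent.SBT.KSB
import Pool.Agent.SBT.KSM
import Pool.Agent.SBT.KSML
import Pool.Agent.SBT.KLI
import Pool.Agent.SBT.KLB1
import Pool.Agent.SBT.KLBH
import Pool.Agent.SBT.KTHA
import Pool.Agent.SBT.KGSY
import Pool.Agent.SBT.KTHB
import Pool.Agent.SBT.KPAR
import Pool.Agent.SBT.KSUB
import Pool.Agent.SBT.KS2T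
import Pool.Agent.SBT.KUS
import Pool.Agent.SBT.KBU
import Pool.Agent.SBT.KAP
import Pool.Agent.SBT.KRG
import Pool.Agent.SBT.KEL
import Pool.Agent.SBT.KPO
import Pool.Agent.SBT.KCR
import Pool.Agent.SBT.KLC
import Pool.Agent.SBT.KCH
import Pool.Agent.SBT.KFA
import Pool.Agent.SBT.KFB
import Pool.Agent.SBT.KFC
import Pool.Agent.SBT.KTD

/-!
# Section K: assembly of the modules (real algebraic forms, linear complexity, `sqrt 2`)
-/

set_option autoImplicit false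

namespace Pool.Agent.SBT

theorem KAUX_ : Stmt_KAUX := kaux_proof chb_proof lnb_proof krp_proof kln_proof
theorem KSM_ : Stmt_KSM := ksm_proof ksi_proof ksb_proof
theorem KSML_ : Stmt_KSML := ksml_proof SM1_ KSM_
theorem KLB1_ : Stmt_KLB1 := klb1_proof kli_proof
theorem KLBH_ : Stmt_KLBH := klbh_proof KLB1_
theorem KTHA_ : Stmt_KTHA :=
  ktha_proof KAUX_ KSML_ RED_ nrm_proof nrk_proof KLBH_ RTL_ sqn_proof
theorem KGSY_ : Stmt_KGSY := kgsy_proof MIN_ lat_proof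
theorem KTHB_ : Stmt_KTHB := kthb_proof KTHA_ DAV_ cbn_proof cps_proof ann_proof
theorem KPAR_ : Stmt_KPAR := kpar_proof KGSY_ KTHB_
theorem KSUB_ : Stmt_KSUB := ksub_proof KPAR_ kli_proof
theorem KS2T_ : Stmt_KS2T := ks2t_proof KSUB_ sim_proof vor_proof
theorem KAP_ : Stmt_KAP := kap_proof kus_proof
theorem KRG_ : Stmt_KRG := krg_proof KAP_
theorem KPO_ : Stmt_KPO := kpo_proof bas_proof
theorem KCR_ : Stmt_KCR := kcr_proof UNI_ KS2T_ kus_proof kel_proof KPO_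
theorem STG_ : Stmt_STG := stg_proof STF_ rpa_proof
theorem KLC_ : Stmt_KLC := klc_proof STG_ dgt_proof rpa_proof kus_proof kbu_proof
theorem KCH_ : Stmt_KCH := kch_proof dgt_proof kus_proof kbu_proof
theorem KFA_ : Stmt_KFA := kfa_proof KCR_ KRG_ KLC_ KAP_
theorem KFB_ : Stmt_KFB := kfb_proof KCR_ KRG_ KLC_ KCH_ KAP_
theorem KFC_ : Stmt_KFC := kfc_proof KFB_
theorem KTD_ : Stmt_KTD := ktd_proof KFA_

end Pool.Agent.SBT
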