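import Pool.Agent.SBT.StmtsZ
import Pool.Agent.SBT.Api

/-!
# Squad SBT, module ZAP: a number with few phrases and few errors in a window is described
-/

set_option autoImplicit false

namespace Pool.Agent.SBT

open Filter

namespace ZAP_

theorem finite_signs (N : ℕ) : {f : Fin N → ℤ | ∀ t, |f t| ≤ 1}.Finite := by
  have h : {f : Fin N → ℤ | ∀ t, |f t| ≤ 1} = Set.pi Set.univ (fun _ => Set.Icc (-1 : ℤ) 1) := by
    ext f
    simp only [Set.mem_ofPred_eq, Set.mem_pi, Set.mem_univ, true_implies, Set.mem_Icc, abs_le]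
  rw [h]
  exact Set.Finite.pi fun _ => Set.finite_Icc (-1 : ℤ) 1

/-- a sequence of short sums of powers of `b` is a sum of units -/
theorem usm_rep (U : Ultrafilter ℕ) (b N M : ℕ) (m : ℕ → ℕ) (F : ℕ → ℤ) (hb : 2 ≤ b)
    (hrep : ∀ᶠ n in (U : Filter ℕ), Rep b N (M * m n) (F n)) :
    USm U b.primeFactors (fun n => (m n : ℝ)) (fun n => (F n : ℚ)) := by
  classical
  have hex : ∀ n, ∃ (ε : Fin N → ℤ) (k : Fin N → ℕ), (∀ t, |ε t| ≤ 1) ∧ (∀ t, k t ≤ M * m n) ∧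
      (Rep b N (M * m n) (F n) → F n = ∑ t, ε t * (b : ℤ) ^ (k t)) := by
    intro n
    by_cases h : Rep b N (M * m n) (F n)
    · obtain ⟨ε, k, h1, h2, h3⟩ := h
      exact ⟨ε, k, h1, h2, fun _ => h3⟩
    · exact ⟨fun _ => 0, fun _ => 0, fun _ => by simp, fun _ => Nat.zero_le _,
        fun h' => absurd h' h⟩
  choose ε k hε hk hF using hex
  obtain ⟨c, -, hc⟩ := ult_const_set U (fun n => ε n) (finite_signs N)
    (Eventually.of_forall fun n => hε n)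
  have hb0 : 0 < b := by omega
  have hS : PS b.primeFactors := fun p hp => Nat.prime_of_mem_primeFactors hp
  refine ⟨N, fun t => (c t : ℚ), fun t n => (b : ℚ) ^ (k n t), M * Real.log b, ?_, ?_, ?_⟩
  · intro t n
    exact isU_nat_pow hS hb0 (fun p hp hd => Nat.mem_primeFactors.2 ⟨hp, hd, hb0.ne'⟩) _
  · refine Eventually.of_forall fun n t v hv => ?_
    have h1 : ((b : ℚ) ^ (k n t)) = (((b : ℤ) ^ (k n t) : ℤ) : ℚ) := by push_cast; rfl
    change av v ((b : ℚ) ^ (k n t)) ≤ Real.exp (M * Real.log b * m n)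
    rw [h1]
    refine (av_int_le_abs (place_of_mem hS hv) _).trans ?_
    have hbR : (0 : ℝ) < (b : ℝ) := by exact_mod_cast hb0
    have hb1 : (1 : ℝ) ≤ (b : ℝ) := by exact_mod_cast hb0
    have h2 : |(((b : ℤ) ^ (k n t) : ℤ) : ℝ)| = (b : ℝ) ^ (k n t) := by
      push_cast
      exact abs_of_pos (pow_pos hbR _)
    rw [h2]
    have h3 : (b : ℝ) ^ (k n t) = Real.exp (k n t * Real.log b) := by
      rw [mul_comm, Real.exp_mul, Real.exp_log hbR, Real.rpow_natCast]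
    rw [h3]
    apply Real.exp_le_exp.2
    have h4 : ((k n t : ℕ) : ℝ) ≤ M * m n := by exact_mod_cast hk n t
    have h5 : 0 ≤ Real.log b := Real.log_nonneg hb1
    calc (k n t : ℝ) * Real.log b ≤ (M * m n) * Real.log b := mul_le_mul_of_nonneg_right h4 h5
      _ = M * Real.log b * m n := by ring
  · filter_upwards [hc, hrep] with n h1 h2
    have h3 := hF n h2
    rw [h3]
    push_cast
    refine Finset.sum_congr rfl fun t _ => ?_
    rw [← h1]

theorem rep_nat (hRPA : Stmt_RPA) (b c : ℕ) : Rep b c 0 (c : ℤ) := by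
  obtain ⟨h1, h2, h3, h4, h5, h6, h7⟩ := hRPA
  induction c with
  | zero => exact h5 b 0 0
  | succ c ih =>
    have := h1 b c 1 0 _ _ ih (h4 b 0)
    push_cast
    simpa using this

theorem rep_int (hRPA : Stmt_RPA) (b : ℕ) (c : ℤ) : Rep b c.natAbs 0 c := by
  rcases Int.natAbs_eq c with h | h
  · have := rep_nat hRPA b c.natAbs
    rwa [← h] at this
  · have := hRPA.2.2.2.2.2.1 b _ _ _ (rep_nat hRPA b c.natAbs)
    rwa [← h] at this

theorem rep_sum (hRPA : Stmt_RPA) (b L : ℕ) (e : ℕ → ℤ) (m : ℕ → ℕ) (J : Finset ℕ)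
    (he : ∀ j ∈ J, |e j| ≤ b) (hm : ∀ j ∈ J, m j ≤ L) :
    Rep b (J.card * b) L (∑ j ∈ J, e j * (b : ℤ) ^ m j) := by
  classical
  obtain ⟨h1, h2, h3, h4, h5, h6, h7⟩ := id hRPA
  induction J using Finset.induction_on with
  | empty => simpa using h5 b 0 L
  | insert j J hj ih =>
    rw [Finset.sum_insert hj, Finset.card_insert_of_notMem hj]
    have g1 := ih (fun i hi => he i (Finset.mem_insert_of_mem hi))
      (fun i hi => hm i (Finset.mem_insert_of_mem hi))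
    have g2 := h2 b _ _ _ _ _ _ (rep_int hRPA b (e j)) (h4 b (m j))
    have g3 : (e j).natAbs ≤ b := by
      have := he j (Finset.mem_insert_self j J)
      rw [Int.abs_eq_natAbs] at this
      exact_mod_cast this
    have g4 := h3 b ((e j).natAbs * 1) b (0 + m j) L _ (by rw [mul_one]; exact g3)
      (by have := hm j (Finset.mem_insert_self j J); omega) g2
    have g5 := h1 b _ _ _ _ _ g4 g1
    have e1 : b + J.card * b = (J.card + 1) * b := by ring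
    rwa [e1] at g5

/-- the value of the word of the digits `u` -/
def val (b : ℕ) (u : ℕ → ℤ) : ℕ → ℤ
  | 0 => 0
  | i + 1 => b * val b u i + u i

theorem val_nonneg {b : ℕ} {u : ℕ → ℤ} (hu : ∀ i, 0 ≤ u i ∧ u i < b) (i : ℕ) :
    0 ≤ val b u i ∧ val b u i + 1 ≤ (b : ℤ) ^ i := by
  induction i with
  | zero => simp [val]
  | succ i ih =>
    obtain ⟨h1, h2⟩ := ih
    obtain ⟨h3, h4⟩ := hu i
    have h5 : (0 : ℤ) ≤ b := by positivity
    have h6 := mul_nonneg h5 h1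
    have h7 := mul_le_mul_of_nonneg_left h2 h5
    have e1 : val b u (i + 1) = b * val b u i + u i := rfl
    rw [e1, pow_succ]
    constructor
    · linarith
    · nlinarith

theorem val_abs {b : ℕ} {e : ℕ → ℤ} (he : ∀ i, |e i| + 1 ≤ b) (i : ℕ) :
    |val b e i| + 1 ≤ (b : ℤ) ^ i := by
  induction i with
  | zero => simp [val]
  | succ i ih =>
    have h5 : (0 : ℤ) ≤ b := by positivity
    have h7 := mul_le_mul_of_nonneg_left ih h5
    have e1 : val b e (i + 1) = b * val b e i + e i := rfl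
    have h8 : |(b : ℤ) * val b e i + e i| ≤ b * |val b e i| + |e i| := by
      have := abs_add_le ((b : ℤ) * val b e i) (e i)
      rwa [abs_mul, abs_of_nonneg h5] at this
    have h9 := he i
    rw [e1, pow_succ]
    nlinarith

theorem val_add (b : ℕ) (e : ℕ → ℤ) (n t : ℕ) :
    val b e (n + t) = (b : ℤ) ^ t * val b e n +
      ∑ j ∈ Finset.range t, e (n + j) * (b : ℤ) ^ (t - 1 - j) := by
  induction t with
  | zero => simp
  | succ t ih =>
    have e1 : val b e (n + (t + 1)) = b * val b e (n + t) + e (n + t) := rfl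
    rw [e1, ih, Finset.sum_range_succ]
    have e2 : ∑ j ∈ Finset.range t, e (n + j) * (b : ℤ) ^ (t + 1 - 1 - j) =
        b * ∑ j ∈ Finset.range t, e (n + j) * (b : ℤ) ^ (t - 1 - j) := by
      rw [Finset.mul_sum]
      apply Finset.sum_congr rfl
      intro j hj
      have hj' := Finset.mem_range.1 hj
      have e3 : t + 1 - 1 - j = (t - 1 - j) + 1 := by omega
      rw [e3, pow_succ]
      ring
    rw [e2]
    have e4 : t + 1 - 1 - t = 0 := by omega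
    rw [e4, pow_zero, pow_succ]
    ring

/-- the description at one place -/
theorem point (hZST : Stmt_ZST) (hDGT : Stmt_DGT) (hRPA : Stmt_RPA) (b M Λ : ℕ) (y : ℝ)
    (hb : 2 ≤ b) (hΛ : 1 ≤ Λ) : ∃ N' W : ℕ, ∀ n N : ℕ, 1 ≤ n → Λ * n ≤ N →
    (∃ (u : ℕ → ℤ) (k : ℕ) (p : ℕ → ℕ),
      (∀ i, 0 ≤ u i ∧ u i < b) ∧ Phr u N k p ∧
      ((Finset.range k).filter fun j => n ≤ p j ∧ p j < Λ * n).card ≤ M ∧
      ((Finset.range (Λ * n)).filter fun i => n ≤ i ∧ dig b y (i + 1) ≠ u i).card ≤ M) →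
    ∃ (D : ℤ) (F z : Fin (2 * M + 3 + 1 + 1) → ℤ), Rep b N' (W * n) D ∧
      (∀ i, Rep b N' (W * n) (F i)) ∧ D ≠ 0 ∧ (∀ i, |z i| ≤ (b : ℤ) ^ n) ∧
      |y - ((∑ i, F i * z i : ℤ) : ℝ) / (D : ℝ)| ≤ 1 / (b : ℝ) ^ (Λ * n) := by
  classical
  obtain ⟨R, hR⟩ := hZST b M hb
  obtain ⟨h1, h2, h3, h4, h5, h6, h7⟩ := id hRPA
  obtain ⟨hd1, hd2, -, -⟩ := hDGT b y hb
  refine ⟨R + 2 ^ (M + 1) * ⌊y⌋.natAbs + 2 ^ (M + 1) * (M * b) + 2 ^ (M + 1),
    (R + M + 2) * (Λ + 1), ?_⟩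
  rintro n N hn hLN ⟨u, k, p, hu, hphr, hcard, herr⟩
  obtain ⟨L, hL⟩ : ∃ L, L = Λ * n := ⟨_, rfl⟩
  rw [← hL] at hcard herr hLN ⊢
  have hnL : n ≤ L := by
    rw [hL]
    exact Nat.le_mul_of_pos_left n hΛ
  obtain ⟨q, x, F, F₀, hq, hx, hF, hF₀, heq⟩ := hR N k n L u p (val b u) hu (fun i => rfl) hphr hnL
    hLN (le_trans (Finset.card_le_card (by
      intro j hj
      rw [Finset.mem_filter] at hj ⊢
      exact ⟨hj.1, hj.2.1.le, hj.2.2⟩)) hcard)
  obtain ⟨D, hD⟩ : ∃ D : ℤ, D = ∏ i, ((b : ℤ) ^ q i - 1) := ⟨_, rfl⟩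
  rw [← hD] at heq
  -- the errors
  obtain ⟨e, he⟩ : ∃ e : ℕ → ℤ, ∀ i, e i = dig b y (i + 1) - u i := ⟨_, fun _ => rfl⟩
  have heb : ∀ i, |e i| + 1 ≤ b := by
    intro i
    have g1 := hd1 (i + 1)
    have g2 := hu i
    rw [he i]
    have g3 : |dig b y (i + 1) - u i| ≤ b - 1 := by
      rw [abs_le]
      constructor <;> linarith [g1.1, g1.2, g2.1, g2.2]
    linarith
  have hA : ∀ i, ⌊y * (b : ℝ) ^ i⌋ = (b : ℤ) ^ i * ⌊y⌋ + val b u i + val b e i := by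
    intro i
    induction i with
    | zero => simp [val]
    | succ i ih =>
      rw [hd2 i, ih]
      have e1 : val b e (i + 1) = b * val b e i + e i := rfl
      have e2 : val b u (i + 1) = b * val b u i + u i := rfl
      rw [e1, e2, he i, pow_succ]
      ring
  obtain ⟨t, ht⟩ : ∃ t, L = n + t := ⟨L - n, by omega⟩
  obtain ⟨G, hG⟩ : ∃ G : ℤ, G = ∑ j ∈ Finset.range t, e (n + j) * (b : ℤ) ^ (t - 1 - j) :=
    ⟨_, rfl⟩
  have hEL : val b e L = (b : ℤ) ^ t * val b e n + G := by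
    rw [ht, val_add, hG]
  have hGrep : Rep b (M * b) L G := by
    have g1 : G = ∑ j ∈ (Finset.range t).filter (fun j => e (n + j) ≠ 0),
        e (n + j) * (b : ℤ) ^ (t - 1 - j) := by
      rw [hG, Finset.sum_filter]
      apply Finset.sum_congr rfl
      intro j _
      split_ifs with h
      · rfl
      · push Not at h
        rw [h, zero_mul]
    have g2 := rep_sum hRPA b L (fun j => e (n + j)) (fun j => t - 1 - j)
      ((Finset.range t).filter (fun j => e (n + j) ≠ 0))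
      (fun j _ => by have := heb (n + j); linarith) (fun j _ => by omega)
    rw [← g1] at g2
    have g3 : ((Finset.range t).filter (fun j => e (n + j) ≠ 0)).card ≤ M := by
      refine le_trans ?_ herr
      apply Finset.card_le_card_of_injOn (fun j => n + j)
      · intro j hj
        rw [Finset.mem_coe, Finset.mem_filter, Finset.mem_range] at hj
        rw [Finset.mem_coe, Finset.mem_filter, Finset.mem_range]
        change n + j < L ∧ n ≤ n + j ∧ dig b y (n + j + 1) ≠ u (n + j)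
        refine ⟨by omega, by omega, ?_⟩
        intro hcon
        apply hj.2
        rw [he, hcon, sub_self]
      · intro i _ j _ hij
        simpa using hij
    exact h3 b _ _ _ _ _ (Nat.mul_le_mul_right b g3) le_rfl g2
  -- exponents
  have hLn : L + 1 ≤ (Λ + 1) * n := by
    rw [hL, Nat.add_mul]
    omega
  have hqs : ∑ i, q i ≤ (M + 1) * ((Λ + 1) * n) := by
    have g1 : ∑ i, q i ≤ ∑ _i : Fin (M + 1), (Λ + 1) * n :=
      Finset.sum_le_sum (fun i _ => (hq i).2.trans hLn)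
    rwa [Finset.sum_const, Finset.card_univ, Fintype.card_fin, smul_eq_mul] at g1
  obtain ⟨V, hV⟩ : ∃ V, V = (Λ + 1) * n := ⟨_, rfl⟩
  rw [← hV] at hLn hqs
  have hW : (R + M + 2) * (Λ + 1) * n = R * V + (M + 1) * V + V := by
    rw [hV]
    ring
  rw [hW]
  have hDrep : Rep b (2 ^ (M + 1)) ((M + 1) * V) D := by
    have := h7 b (M + 1) q
    rw [← hD] at this
    exact h3 b _ _ _ _ _ le_rfl hqs this
  have hDne : D ≠ 0 := by
    rw [hD, Finset.prod_ne_zero_iff]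
    intro i _
    have g1 := (hq i).1
    have g2 : (2 : ℤ) ≤ (b : ℤ) ^ q i := by
      calc (2 : ℤ) ≤ (b : ℤ) := by exact_mod_cast hb
        _ = (b : ℤ) ^ 1 := (pow_one _).symm
        _ ≤ (b : ℤ) ^ q i := pow_le_pow_right₀ (by exact_mod_cast (by omega : 1 ≤ b)) g1
    omega
  have hDL : ∀ s ≤ L, Rep b (2 ^ (M + 1)) ((M + 1) * V + V) (D * (b : ℤ) ^ s) := by
    intro s hs
    have := h2 b _ _ _ _ _ _ hDrep (h4 b s)
    exact h3 b (2 ^ (M + 1) * 1) _ ((M + 1) * V + s) _ _ (by rw [mul_one]) (by omega) this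
  have hbn : (1 : ℤ) ≤ (b : ℤ) ^ n := one_le_pow₀ (by exact_mod_cast (by omega : 1 ≤ b))
  obtain ⟨E, hE⟩ : ∃ E, E = 2 ^ (M + 1) := ⟨_, rfl⟩
  obtain ⟨E₁, hE₁⟩ : ∃ E₁, E₁ = E * ⌊y⌋.natAbs := ⟨_, rfl⟩
  obtain ⟨E₂, hE₂⟩ : ∃ E₂, E₂ = E * (M * b) := ⟨_, rfl⟩
  obtain ⟨V₁, hV₁⟩ : ∃ V₁, V₁ = (M + 1) * V := ⟨_, rfl⟩
  obtain ⟨V₂, hV₂⟩ : ∃ V₂, V₂ = R * V := ⟨_, rfl⟩
  rw [← hE] at hDL hDrep
  rw [← hV₁] at hDL hDrep
  rw [← hE, ← hE₁, ← hE₂, ← hV₁, ← hV₂]
  have hRV : R * (L + 1) ≤ V₂ := by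
    rw [hV₂]
    exact Nat.mul_le_mul_left R hLn
  refine ⟨D * (b : ℤ) ^ L,
    Fin.cons (F₀ + D * (b : ℤ) ^ L * ⌊y⌋ + D * G) (Fin.cons (D * (b : ℤ) ^ t) F),
    Fin.cons 1 (Fin.cons (val b e n) (fun i => val b u (x i))), ?_, ?_, ?_, ?_, ?_⟩
  · exact h3 b E _ (V₁ + V) _ _ (by omega) (by omega) (hDL L le_rfl)
  · intro i
    refine Fin.cases ?_ (fun i => ?_) i
    · rw [Fin.cons_zero]
      have g1 := h2 b _ _ _ _ _ _ (hDL L le_rfl) (rep_int hRPA b ⌊y⌋)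
      have g2 := h2 b _ _ _ _ _ _ hDrep hGrep
      rw [← hE₁] at g1
      rw [← hE₂] at g2
      have g3 := h3 b E₁ E₁ (V₁ + V + 0) (V₂ + V₁ + V) _ le_rfl (by omega) g1
      have g4 := h3 b E₂ E₂ (V₁ + L) (V₂ + V₁ + V) _ le_rfl (by omega) g2
      have g5 := h3 b R R (R * (L + 1)) (V₂ + V₁ + V) _ le_rfl (by omega) hF₀
      have g6 := h1 b _ _ _ _ _ (h1 b _ _ _ _ _ g5 g3) g4
      exact h3 b (R + E₁ + E₂) _ _ _ _ (by omega) le_rfl g6
    · rw [Fin.cons_succ]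
      refine Fin.cases ?_ (fun i => ?_) i
      · rw [Fin.cons_zero]
        exact h3 b E _ (V₁ + V) _ _ (by omega) (by omega) (hDL t (by omega))
      · rw [Fin.cons_succ]
        exact h3 b R _ (R * (L + 1)) _ _ (by omega) (by omega) (hF i)
  · exact mul_ne_zero hDne (pow_ne_zero _ (by exact_mod_cast (by omega : b ≠ 0)))
  · intro i
    refine Fin.cases ?_ (fun i => ?_) i
    · rw [Fin.cons_zero, abs_one]
      exact hbn
    · rw [Fin.cons_succ]
      refine Fin.cases ?_ (fun i => ?_) i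
      · rw [Fin.cons_zero]
        have := val_abs heb n
        linarith
      · rw [Fin.cons_succ]
        obtain ⟨g1, g2⟩ := val_nonneg hu (x i)
        rw [abs_of_nonneg g1]
        have g3 : (b : ℤ) ^ x i ≤ (b : ℤ) ^ n :=
          pow_le_pow_right₀ (by exact_mod_cast (by omega : 1 ≤ b)) (hx i)
        linarith
  · have hsum : ∑ i, (Fin.cons (F₀ + D * (b : ℤ) ^ L * ⌊y⌋ + D * G)
        (Fin.cons (D * (b : ℤ) ^ t) F : Fin (2 * M + 3 + 1) → ℤ) : Fin (2 * M + 3 + 1 + 1) → ℤ) i *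
        (Fin.cons 1 (Fin.cons (val b e n) (fun i => val b u (x i)) :
          Fin (2 * M + 3 + 1) → ℤ) : Fin (2 * M + 3 + 1 + 1) → ℤ) i =
        D * ⌊y * (b : ℝ) ^ L⌋ := by
      rw [Fin.sum_univ_succ, Fin.sum_univ_succ]
      simp only [Fin.cons_zero, Fin.cons_succ]
      rw [hA L, hEL]
      linear_combination -heq
    rw [hsum]
    have hbR : (0 : ℝ) < (b : ℝ) ^ L := pow_pos (by exact_mod_cast (by omega : 0 < b)) _
    have hDR : (D : ℝ) ≠ 0 := by exact_mod_cast hDne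
    push_cast
    have e1 : (D : ℝ) * (⌊y * (b : ℝ) ^ L⌋ : ℝ) / ((D : ℝ) * (b : ℝ) ^ L) =
        (⌊y * (b : ℝ) ^ L⌋ : ℝ) / (b : ℝ) ^ L := by
      rw [mul_div_mul_left _ _ hDR]
    rw [e1]
    have e2 : y - (⌊y * (b : ℝ) ^ L⌋ : ℝ) / (b : ℝ) ^ L =
        (y * (b : ℝ) ^ L - ⌊y * (b : ℝ) ^ L⌋) / (b : ℝ) ^ L := by
      field_simp
    rw [e2, abs_div, abs_of_pos hbR]
    apply div_le_div_of_nonneg_right _ hbR.le
    rw [abs_of_nonneg (by linarith [Int.floor_le (y * (b : ℝ) ^ L)])]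
    linarith [Int.lt_floor_add_one (y * (b : ℝ) ^ L)]

end ZAP_

open ZAP_ in
theorem zap_proof (hZST : Stmt_ZST) (hDGT : Stmt_DGT) (hRPA : Stmt_RPA) (_hKUS : Stmt_KUS) :
    Stmt_ZAP := by
  classical
  intro b M Λ y U n N hb hΛ hn hev
  obtain ⟨N', W, hpt⟩ := point hZST hDGT hRPA b M Λ y hb hΛ
  have hn1 : ∀ᶠ t in (U : Filter ℕ), 1 ≤ n t := hn.eventually (eventually_ge_atTop 1)
  have hex : ∀ t, ∃ (D : ℤ) (F z : Fin (2 * M + 3 + 1 + 1) → ℤ),
      (1 ≤ n t → (Λ * n t ≤ N t ∧ ∃ (u : ℕ → ℤ) (k : ℕ) (p : ℕ → ℕ),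
        (∀ i, 0 ≤ u i ∧ u i < b) ∧ Phr u (N t) k p ∧
        ((Finset.range k).filter fun j => n t ≤ p j ∧ p j < Λ * n t).card ≤ M ∧
        ((Finset.range (Λ * n t)).filter fun i => n t ≤ i ∧ dig b y (i + 1) ≠ u i).card ≤ M) →
      Rep b N' (W * n t) D ∧
      (∀ i, Rep b N' (W * n t) (F i)) ∧ D ≠ 0 ∧ (∀ i, |z i| ≤ (b : ℤ) ^ n t) ∧
      |y - ((∑ i, F i * z i : ℤ) : ℝ) / (D : ℝ)| ≤ 1 / (b : ℝ) ^ (Λ * n t)) := by
    intro t
    by_cases h : 1 ≤ n t ∧ (Λ * n t ≤ N t ∧ ∃ (u : ℕ → ℤ) (k : ℕ) (p : ℕ → ℕ),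
        (∀ i, 0 ≤ u i ∧ u i < b) ∧ Phr u (N t) k p ∧
        ((Finset.range k).filter fun j => n t ≤ p j ∧ p j < Λ * n t).card ≤ M ∧
        ((Finset.range (Λ * n t)).filter fun i => n t ≤ i ∧ dig b y (i + 1) ≠ u i).card ≤ M)
    · obtain ⟨D, F, z, h1⟩ := hpt (n t) (N t) h.1 h.2.1 h.2.2
      exact ⟨D, F, z, fun _ _ => h1⟩
    · exact ⟨1, fun _ => 0, fun _ => 0, fun h1 h2 => absurd ⟨h1, h2⟩ h⟩
  choose D F z hDFz using hex
  have hall : ∀ᶠ t in (U : Filter ℕ), Rep b N' (W * n t) (D t) ∧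
      (∀ i, Rep b N' (W * n t) (F t i)) ∧ D t ≠ 0 ∧ (∀ i, |z t i| ≤ (b : ℤ) ^ n t) ∧
      |y - ((∑ i, F t i * z t i : ℤ) : ℝ) / (D t : ℝ)| ≤ 1 / (b : ℝ) ^ (Λ * n t) := by
    filter_upwards [hn1, hev] with t h1 h2
    exact hDFz t h1 h2
  have hbR : (0 : ℝ) < (b : ℝ) := by exact_mod_cast (by omega : 0 < b)
  have hb2 : (2 : ℝ) ≤ (b : ℝ) := by exact_mod_cast hb
  have hlog : (1 / 2 : ℝ) ≤ Real.log b := by
    have h1 : Real.log 2 ≤ Real.log b := Real.log_le_log (by norm_num) hb2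
    have h2 := Real.log_two_gt_d9
    linarith
  have hexp : ∀ k : ℕ, (b : ℝ) ^ k = Real.exp (k * Real.log b) := by
    intro k
    rw [mul_comm, Real.exp_mul, Real.exp_log hbR, Real.rpow_natCast]
  refine ⟨b.primeFactors, fun t => (D t : ℚ), fun i t => (F t i : ℚ), fun i t => z t i,
    fun p hp => Nat.prime_of_mem_primeFactors hp, ?_, ?_, ?_, ?_, ?_⟩
  · exact usm_rep U b N' W n D hb (hall.mono fun t h => h.1)
  · intro i
    exact usm_rep U b N' W n (fun t => F t i) hb (hall.mono fun t h => h.2.1 i)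
  · refine hall.mono fun t h => ?_
    change ((D t : ℤ) : ℚ) ≠ 0
    exact_mod_cast h.2.2.1
  · filter_upwards [hall] with t h i
    have h1 := h.2.2.2.1 i
    have h2 : |((z t i : ℤ) : ℝ)| ≤ (b : ℝ) ^ n t := by exact_mod_cast h1
    refine h2.trans ?_
    rw [hexp]
    apply Real.exp_le_exp.2
    have h3 : (0 : ℝ) ≤ n t := Nat.cast_nonneg _
    nlinarith
  · filter_upwards [hall] with t h
    have h1 := h.2.2.2.2
    have e1 : ((((∑ i, (F t i : ℚ) * ((z t i : ℤ) : ℚ)) / (D t : ℚ) : ℚ)) : ℝ) =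
        ((∑ i, F t i * z t i : ℤ) : ℝ) / (D t : ℝ) := by
      push_cast
      rfl
    have h2 : |y - ((((∑ i, (F t i : ℚ) * ((z t i : ℤ) : ℚ)) / (D t : ℚ) : ℚ)) : ℝ)| ≤
        1 / (b : ℝ) ^ (Λ * n t) := by
      rw [e1]
      exact h1
    refine h2.trans ?_
    rw [hexp, one_div, ← Real.exp_neg]
    apply Real.exp_le_exp.2
    push_cast
    have h3 : (0 : ℝ) ≤ n t := Nat.cast_nonneg _
    have h4 : (0 : ℝ) ≤ Λ * n t := by positivity
    have h5 : (0 : ℝ) ≤ (Λ * n t) * (Real.log b - 1 / 2) := mul_nonneg h4 (by linarith)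
    have h6 : (0 : ℝ) ≤ n t * (Real.log b + 1) := mul_nonneg h3 (by linarith)
    nlinarith

end Pool.Agent.SBT
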