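import Pool.Agent.SBT.StmtsZ

/-!
# ZLC: words of linear complexity are products of `O(log N)` phrases
-/

set_option autoImplicit false

namespace Pool.Agent.SBT

open Filter

namespace ZLC_

/-- the word of length `L` at the place `x` -/
def wd (u : ℕ → ℤ) (L x : ℕ) : Fin L → ℤ := fun j => u (x + j)

/-- the word of length `l` at `x` has an earlier occurrence -/
def occ (u : ℕ → ℤ) (x l : ℕ) : Prop := ∃ s < x, ∀ i < l, u (s + i) = u (x + i)

theorem new_card (u : ℕ → ℤ) (C L : ℕ)
    (h : {w : Fin L → ℤ | ∃ i : ℕ, ∀ j : Fin L, w j = u (i + j)}.Finite)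
    (hc : Set.ncard {w : Fin L → ℤ | ∃ i : ℕ, ∀ j : Fin L, w j = u (i + j)} ≤ C * (L + 1))
    (S : Finset ℕ) (hS : ∀ x ∈ S, ∀ s < x, wd u L s ≠ wd u L x) : S.card ≤ C * (L + 1) := by
  classical
  have hinj : Set.InjOn (wd u L) (S : Set ℕ) := by
    intro x hx y hy hxy
    rcases lt_trichotomy x y with h1 | h1 | h1
    · exact absurd hxy (hS y hy x h1)
    · exact h1
    · exact absurd hxy.symm (hS x hx y h1)
  calc S.card = (S.image (wd u L)).card := (Finset.card_image_of_injOn hinj).symm
    _ = Set.ncard ((S.image (wd u L) : Finset (Fin L → ℤ)) : Set (Fin L → ℤ)) :=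
        (Set.ncard_coe_finset _).symm
    _ ≤ Set.ncard {w : Fin L → ℤ | ∃ i : ℕ, ∀ j : Fin L, w j = u (i + j)} := by
        apply Set.ncard_le_ncard _ h
        intro w hw
        simp only [Finset.coe_image, Set.mem_image, Finset.mem_coe] at hw
        obtain ⟨x, _, rfl⟩ := hw
        exact ⟨x, fun j => rfl⟩
    _ ≤ C * (L + 1) := hc

/-- one letter or an earlier occurrence -/
def PP (u : ℕ → ℤ) (x l : ℕ) : Prop := l ≤ 1 ∨ occ u x l

noncomputable instance (u : ℕ → ℤ) (x : ℕ) : DecidablePred (PP u x) := Classical.decPred _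

/-- the length of the greedy phrase at `x` -/
noncomputable def step (u : ℕ → ℤ) (N x : ℕ) : ℕ :=
  Nat.findGreatest (PP u x) (N - x)

/-- the greedy cutting points -/
noncomputable def q (u : ℕ → ℤ) (N : ℕ) : ℕ → ℕ
  | 0 => 0
  | (j + 1) => q u N j + step u N (q u N j)

theorem q_succ (u : ℕ → ℤ) (N j : ℕ) : q u N (j + 1) = q u N j + step u N (q u N j) := rfl

theorem step_le (u : ℕ → ℤ) (N x : ℕ) : step u N x ≤ N - x := Nat.findGreatest_le _

theorem step_pos (u : ℕ → ℤ) (N x : ℕ) (h : x < N) : 1 ≤ step u N x := by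
  exact Nat.le_findGreatest (P := PP u x) (by omega) (Or.inl le_rfl)

theorem step_spec (u : ℕ → ℤ) (N x : ℕ) (h : x < N) :
    step u N x ≤ 1 ∨ occ u x (step u N x) := by
  exact Nat.findGreatest_spec (P := PP u x) (m := 1) (n := N - x) (by omega) (Or.inl le_rfl)

theorem step_max (u : ℕ → ℤ) (N x : ℕ) (h : step u N x < N - x) :
    ¬ occ u x (step u N x + 1) := by
  intro ho
  exact Nat.findGreatest_is_greatest (P := PP u x) (Nat.lt_succ_self _) h (Or.inr ho)

theorem q_le (u : ℕ → ℤ) (N : ℕ) : ∀ j, q u N j ≤ N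
  | 0 => Nat.zero_le _
  | (j + 1) => by
    have h1 := q_le u N j
    have h2 := step_le u N (q u N j)
    rw [q_succ]; omega

theorem q_ge (u : ℕ → ℤ) (N : ℕ) : ∀ j, j ≤ q u N j ∨ q u N j = N
  | 0 => Or.inl (Nat.zero_le _)
  | (j + 1) => by
    have h0 := q_le u N (j + 1)
    rcases q_ge u N j with h | h
    · rcases Nat.lt_or_ge (q u N j) N with h1 | h1
      · left
        have := step_pos u N _ h1
        rw [q_succ]; omega
      · right
        rw [q_succ] at h0 ⊢; omega
    · right
      rw [q_succ] at h0 ⊢; omega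

theorem q_mono (u : ℕ → ℤ) (N : ℕ) : Monotone (q u N) :=
  monotone_nat_of_le_succ (fun j => by rw [q_succ]; omega)

/-- the phrases of length in `[2^i, 2^(i+1))` -/
theorem scale (u : ℕ → ℤ) (C : ℕ)
    (hu : ∀ n, {w : Fin n → ℤ | ∃ i : ℕ, ∀ j : Fin n, w j = u (i + j)}.Finite ∧
      Set.ncard {w : Fin n → ℤ | ∃ i : ℕ, ∀ j : Fin n, w j = u (i + j)} ≤ C * (n + 1))
    (N : ℕ) (A : Finset ℕ) (m : ℕ) (hm : 1 ≤ m)
    (hA : ∀ j ∈ A, q u N (j + 1) < N ∧ m ≤ step u N (q u N j) ∧ step u N (q u N j) < 2 * m) :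
    A.card ≤ 4 * C + 1 := by
  classical
  -- all but one start at `≥ m`
  set A' := A.filter (fun j => m ≤ q u N j) with hA'
  have h1 : A.card ≤ A'.card + 1 := by
    have hsplit : A.card = A'.card + (A.filter (fun j => ¬ m ≤ q u N j)).card := by
      rw [hA', Finset.card_filter_add_card_filter_not]
    have h2 : (A.filter (fun j => ¬ m ≤ q u N j)).card ≤ 1 := by
      rw [Finset.card_le_one]
      intro a ha b hb
      rw [Finset.mem_filter] at ha hb
      by_contra hab
      rcases lt_or_gt_of_ne hab with h | h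
      · have h3 : q u N (a + 1) ≤ q u N b := q_mono u N h
        rw [q_succ] at h3
        have := (hA a ha.1).2.1
        omega
      · have h3 : q u N (b + 1) ≤ q u N a := q_mono u N h
        rw [q_succ] at h3
        have := (hA b hb.1).2.1
        omega
    omega
  -- new words
  set f : ℕ × ℕ → ℕ := fun z => q u N z.1 - z.2 with hf
  have hinj : Set.InjOn f ((A' ×ˢ Finset.range m : Finset (ℕ × ℕ)) : Set (ℕ × ℕ)) := by
    rintro ⟨a, s⟩ ha ⟨b, t⟩ hb hab
    rw [Finset.mem_coe, Finset.mem_product, Finset.mem_filter, Finset.mem_range] at ha hb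
    obtain ⟨⟨ha1, ha2⟩, ha3⟩ := ha
    obtain ⟨⟨hb1, hb2⟩, hb3⟩ := hb
    simp only [hf] at hab ha1 ha2 ha3 hb1 hb2 hb3
    rcases lt_trichotomy a b with h | h | h
    · have h3 : q u N (a + 1) ≤ q u N b := q_mono u N h
      rw [q_succ] at h3
      have := (hA a ha1).2.1
      omega
    · subst h
      have : s = t := by omega
      rw [this]
    · have h3 : q u N (b + 1) ≤ q u N a := q_mono u N h
      rw [q_succ] at h3
      have := (hA b hb1).2.1
      omega
  have hnew : ∀ x ∈ (A' ×ˢ Finset.range m).image f, ∀ s < x, wd u (3 * m) s ≠ wd u (3 * m) x := by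
    intro x hx s hs heq
    rw [Finset.mem_image] at hx
    obtain ⟨⟨a, t⟩, ha, rfl⟩ := hx
    rw [Finset.mem_product, Finset.mem_filter, Finset.mem_range] at ha
    obtain ⟨⟨ha1, ha2⟩, ha3⟩ := ha
    simp only [hf] at hs heq ha1 ha2 ha3
    obtain ⟨hb1, hb2, hb3⟩ := hA a ha1
    have hmax : ¬ occ u (q u N a) (step u N (q u N a) + 1) := by
      apply step_max
      rw [q_succ] at hb1
      omega
    apply hmax
    refine ⟨s + t, by omega, ?_⟩
    intro i hi
    have h5 := congrFun heq ⟨t + i, by omega⟩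
    simp only [wd] at h5
    have e1 : s + t + i = s + (t + i) := by omega
    have e2 : q u N a - t + (t + i) = q u N a + i := by omega
    rw [e1, h5, e2]
  have hcard := new_card u C (3 * m) (hu (3 * m)).1 (hu (3 * m)).2 _ hnew
  rw [Finset.card_image_of_injOn hinj, Finset.card_product, Finset.card_range] at hcard
  have h6 : A'.card * m ≤ 4 * C * m := by
    calc A'.card * m ≤ C * (3 * m + 1) := hcard
      _ ≤ C * (4 * m) := Nat.mul_le_mul_left _ (by omega)
      _ = 4 * C * m := by ring
  have h7 : A'.card ≤ 4 * C := Nat.le_of_mul_le_mul_right h6 (by omega)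
  omega

end ZLC_

open ZLC_ in
theorem zlc_proof : Stmt_ZLC := by
  intro u C hu
  refine ⟨8 * C + 4, ?_⟩
  intro N
  classical
  have hex : ∃ j, q u N j = N := by
    refine ⟨N, ?_⟩
    rcases q_ge u N N with h | h
    · exact le_antisymm (q_le u N N) h
    · exact h
  set k := Nat.find hex with hk
  have hkN : q u N k = N := Nat.find_spec hex
  have hlt : ∀ j < k, q u N j < N := by
    intro j hj
    exact lt_of_le_of_ne (q_le u N j) (Nat.find_min hex hj)
  refine ⟨k, q u N, ⟨rfl, hkN, ?_⟩, ?_⟩
  · intro j hj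
    have h1 := hlt j hj
    have h2 := step_pos u N _ h1
    refine ⟨by rw [q_succ]; omega, ?_⟩
    rcases step_spec u N _ h1 with h | ⟨s, hs, h⟩
    · left; rw [q_succ]; omega
    · right
      refine ⟨s, hs, ?_⟩
      intro i hi
      rw [q_succ] at hi
      exact h i (by omega)
  · -- the number of phrases
    rcases Nat.eq_zero_or_pos N with h0 | h0
    · have hk0 : k = 0 := by
        rw [hk, Nat.find_eq_zero]
        exact h0.symm
      rw [hk0, h0]
      simp
      positivity
    have hcount : k - 1 ≤ (4 * C + 1) * (Nat.log 2 N + 1) := by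
      have h1 : (Finset.range (k - 1)).card ≤
          ∑ i ∈ Finset.range (Nat.log 2 N + 1), ((Finset.range (k - 1)).filter
            (fun j => Nat.log 2 (step u N (q u N j)) = i)).card := by
        rw [← Finset.card_eq_sum_card_fiberwise]
        intro j hj
        rw [Finset.mem_coe, Finset.mem_range] at hj ⊢
        show Nat.log 2 (step u N (q u N j)) < Nat.log 2 N + 1
        have h3 : step u N (q u N j) ≤ N := le_trans (step_le u N _) (Nat.sub_le _ _)
        have := Nat.log_mono_right (b := 2) h3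
        omega
      rw [Finset.card_range] at h1
      calc k - 1 ≤ _ := h1
        _ ≤ ∑ i ∈ Finset.range (Nat.log 2 N + 1), (4 * C + 1) := by
            apply Finset.sum_le_sum
            intro i _
            apply scale u C hu N _ (2 ^ i) Nat.one_le_two_pow
            intro j hj
            rw [Finset.mem_filter, Finset.mem_range] at hj
            obtain ⟨hj1, hj2⟩ := hj
            have h4 := hlt j (by omega)
            have h5 := hlt (j + 1) (by omega)
            have h6 := step_pos u N _ h4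
            refine ⟨h5, ?_, ?_⟩
            · rw [← hj2]; exact Nat.pow_log_le_self 2 (by omega)
            · rw [← hj2]
              have := Nat.lt_pow_succ_log_self (b := 2) (by norm_num) (step u N (q u N j))
              rw [pow_succ] at this
              omega
        _ = (4 * C + 1) * (Nat.log 2 N + 1) := by
            rw [Finset.sum_const, Finset.card_range, smul_eq_mul, mul_comm]
    have hk1 : (k : ℝ) ≤ (4 * C + 1) * ((Nat.log 2 N : ℕ) + 1) + 1 := by
      have : k ≤ (4 * C + 1) * (Nat.log 2 N + 1) + 1 := by omega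
      exact_mod_cast this
    have hlog : ((Nat.log 2 N : ℕ) : ℝ) ≤ 2 * Real.log N := by
      have h2 : (2 : ℝ) ^ (Nat.log 2 N) ≤ N := by
        exact_mod_cast Nat.pow_log_le_self 2 (by omega)
      have h3 := Real.log_le_log (by positivity) h2
      rw [Real.log_pow] at h3
      have h4 : (1 : ℝ) / 2 ≤ Real.log 2 := by
        have := Real.log_two_gt_d9
        linarith
      have h5 : (0 : ℝ) ≤ (Nat.log 2 N : ℕ) := Nat.cast_nonneg _
      nlinarith
    have hlN : 0 ≤ Real.log N := Real.log_natCast_nonneg N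
    have hC : (0 : ℝ) ≤ C := Nat.cast_nonneg _
    nlinarith [mul_le_mul_of_nonneg_left hlog (by positivity : (0 : ℝ) ≤ 4 * C + 1),
      mul_nonneg hC hlN]

end Pool.Agent.SBT
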