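import Pool.Agent.SBT.StmtsZ

/-!
# Module ZPO: polynomials in described numbers
-/

set_option autoImplicit false

namespace Pool.Agent.SBT

open Filter

namespace ZPO_

/-- the predicate of the induction -/
def Q (k : ℕ) (P : MvPolynomial (Fin k) ℚ) : Prop :=
  ∃ d : ℕ, 1 ≤ d ∧ ∀ (U : Ultrafilter ℕ) (T : ℕ → ℝ) (s : ℕ)
    (B Λ : ℝ) (x : Fin k → ℝ), Tendsto T (U : Filter ℕ) atTop → 1 ≤ s → 0 ≤ B →
    d * (B + 1) ≤ Λ → (∀ i, Apr U T s B Λ (x i)) →
    Apr U T (d * s ^ d) (d * (B + 1)) Λ (MvPolynomial.aeval x P)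

end ZPO_

open ZPO_ in
theorem zpo_proof (hK : Stmt_KAP) : Stmt_ZPO := by
  intro k P
  have key : Q k P := by
    induction P using MvPolynomial.induction_on with
    | C a =>
      refine ⟨1, le_rfl, ?_⟩
      intro U T s B Λ x hT hs hB hΛ hx
      obtain ⟨h1, h2, h3, h4⟩ := hK U T hT
      have h := h2 (B + 1) Λ a (by linarith)
      have h' := h1 1 (1 * s ^ 1) (B + 1) (((1 : ℕ) : ℝ) * (B + 1)) Λ Λ (a : ℝ) (by simpa using hs)
        (by simp) le_rfl h
      simpa using h'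
    | add p q hp hq =>
      obtain ⟨d, hd, Hd⟩ := hp
      obtain ⟨e, he, He⟩ := hq
      refine ⟨d + e + 1, by omega, ?_⟩
      intro U T s B Λ x hT hs hB hΛ hx
      obtain ⟨h1, h2, h3, h4⟩ := hK U T hT
      have hd0 : (0 : ℝ) ≤ (d : ℝ) := Nat.cast_nonneg d
      have he0 : (0 : ℝ) ≤ (e : ℝ) := Nat.cast_nonneg e
      have hB1 : 0 ≤ B + 1 := by linarith
      have hdB : 0 ≤ (d : ℝ) * (B + 1) := mul_nonneg hd0 hB1
      have heB : 0 ≤ (e : ℝ) * (B + 1) := mul_nonneg he0 hB1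
      have hsum : ((d + e + 1 : ℕ) : ℝ) * (B + 1) = d * (B + 1) + e * (B + 1) + (B + 1) := by
        push_cast
        ring
      rw [hsum] at hΛ
      have a1 := Hd U T s B Λ x hT hs hB (by linarith) hx
      have a2 := He U T s B Λ x hT hs hB (by linarith) hx
      have a3 := h3 _ _ _ _ Λ _ _ hdB heB a1 a2
      have hpd : s ^ d ≤ s ^ (d + e + 1) := Nat.pow_le_pow_right hs (by omega)
      have hpe : s ^ e ≤ s ^ (d + e + 1) := Nat.pow_le_pow_right hs (by omega)
      have hle : d * s ^ d + e * s ^ e ≤ (d + e + 1) * s ^ (d + e + 1) := by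
        calc d * s ^ d + e * s ^ e ≤ d * s ^ (d + e + 1) + e * s ^ (d + e + 1) :=
              Nat.add_le_add (Nat.mul_le_mul_left _ hpd) (Nat.mul_le_mul_left _ hpe)
          _ ≤ (d + e + 1) * s ^ (d + e + 1) := by
              rw [← Nat.add_mul]
              exact Nat.mul_le_mul_right _ (by omega)
      rw [map_add]
      refine h1 _ _ _ _ Λ Λ _ hle ?_ le_rfl a3
      rw [hsum]
      linarith
    | mul_X p i hp =>
      obtain ⟨d, hd, Hd⟩ := hp
      refine ⟨d + 1, by omega, ?_⟩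
      intro U T s B Λ x hT hs hB hΛ hx
      obtain ⟨h1, h2, h3, h4⟩ := hK U T hT
      have hd0 : (0 : ℝ) ≤ (d : ℝ) := Nat.cast_nonneg d
      have hB1 : 0 ≤ B + 1 := by linarith
      have hdB : 0 ≤ (d : ℝ) * (B + 1) := mul_nonneg hd0 hB1
      have hsum : ((d + 1 : ℕ) : ℝ) * (B + 1) = d * (B + 1) + (B + 1) := by
        push_cast
        ring
      rw [hsum] at hΛ
      have a1 := Hd U T s B Λ x hT hs hB (by linarith) hx
      have a3 := h4 _ _ _ _ Λ _ _ hdB hB (by linarith) (by linarith) a1 (hx i)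
      have hle : d * s ^ d * s ≤ (d + 1) * s ^ (d + 1) := by
        rw [pow_succ, Nat.mul_assoc]
        exact Nat.mul_le_mul_right _ (by omega)
      rw [map_mul, MvPolynomial.aeval_X]
      refine h1 _ _ _ _ Λ Λ _ hle ?_ le_rfl a3
      rw [hsum]
      linarith
  obtain ⟨d, _, H⟩ := key
  exact ⟨d, H⟩

end Pool.Agent.SBT
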