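import Pool.Agent.SBT.StmtsZ
import Pool.Agent.SBT.KTD

/-! Module ZTD: at least two digits of an irrational real algebraic number have indicator
sequences which are not products of few phrases, even after few errors. -/

set_option autoImplicit false

namespace Pool.Agent.SBT

open Filter Topology

namespace ZTD_

/-- the indicator sequence of the digit `j` up to `N` is complicated -/
def Cmp (b : ℕ) (α : ℝ) (K : ℝ) (j N : ℕ) : Prop :=
  ∀ (u : ℕ → ℤ) (k : ℕ) (p : ℕ → ℕ), (∀ t, u t = 0 ∨ u t = 1) → Phr u N k p →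
    K * Real.log N < k + ((Finset.range N).filter fun t =>
      (if dig b α (t + 1) = j then (1 : ℤ) else 0) ≠ u t).card

theorem lze_of_not {b : ℕ} (hb : 2 ≤ b) {α : ℝ} (hα : ∀ q : ℚ, α ≠ q) {K : ℝ} {j N : ℕ}
    (h : ¬ Cmp b α K j N) :
    LZE b (KTD_.tl b (KTD_.ui b α j) 0) N (|K| * (1 + Real.log N)) := by
  unfold Cmp at h
  push Not at h
  obtain ⟨u, k, p, hu, hP, hle⟩ := h
  refine ⟨u, k, p, ?_, hP, ?_⟩
  · intro i
    rcases hu i with h1 | h1
    · rw [h1]
      refine ⟨le_rfl, ?_⟩
      exact_mod_cast (by omega : 0 < b)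
    · rw [h1]
      refine ⟨by norm_num, ?_⟩
      exact_mod_cast (by omega : 1 < b)
  · have h1 : ((Finset.range N).filter fun i =>
        dig b (KTD_.tl b (KTD_.ui b α j) 0) (i + 1) ≠ u i) =
        ((Finset.range N).filter fun t =>
          (if dig b α (t + 1) = j then (1 : ℤ) else 0) ≠ u t) := by
      apply Finset.filter_congr
      intro i _
      rw [KTD_.dig_ui hb hα]
      rfl
    rw [h1]
    have h2 : 0 ≤ Real.log N := Real.log_natCast_nonneg N
    have h3 : K * Real.log N ≤ |K| * Real.log N := mul_le_mul_of_nonneg_right (le_abs_self K) h2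
    have h4 : 0 ≤ |K| := abs_nonneg K
    nlinarith

end ZTD_

open KTD_ ZTD_ in
theorem ztd_proof (hZFA : Stmt_ZFA) : Stmt_ZTD := by
  intro α b K hα hq hb
  by_contra hcon
  -- a digit `j₀` and an infinite set of `N`
  have hfreq : ∃ᶠ n : ℕ in atTop, ∃ j₀ : Fin b, ∀ j : ℕ, j < b → j ≠ j₀ →
      ¬ Cmp b α K j n := by
    intro h
    refine hcon (h.mono fun n hn => ?_)
    by_contra h2
    apply hn
    have h2' : ∀ j j' : ℕ, j < j' → j' < b → Cmp b α K j n → ¬ Cmp b α K j' n := by
      intro j j' hj hj' h3 h4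
      apply h2
      refine ⟨j, j', hj, hj', ?_⟩
      intro i hi
      rcases hi with rfl | rfl
      · exact h3
      · exact h4
    by_cases h3 : ∃ j : ℕ, j < b ∧ Cmp b α K j n
    · obtain ⟨j₁, hj₁, h4⟩ := h3
      refine ⟨⟨j₁, hj₁⟩, fun j hj hne h5 => ?_⟩
      simp only at hne
      rcases lt_or_gt_of_ne hne with h6 | h6
      · exact h2' j j₁ h6 hj₁ h5 h4
      · exact h2' j₁ j h6 hj h4 h5
    · push Not at h3
      exact ⟨⟨0, by omega⟩, fun j hj _ => h3 j hj⟩
  rw [frequently_exists] at hfreq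
  obtain ⟨j₀, hj₀⟩ := hfreq
  set I : Set ℕ := {n | ∀ j : ℕ, j < b → j ≠ j₀ → ¬ Cmp b α K j n} with hI
  have hIinf : I.Infinite := Nat.frequently_atTop_iff_infinite.1 hj₀
  set G : Set ℝ := {y : ℝ | ∃ (b : ℕ) (C : ℝ), 2 ≤ b ∧
    ∀ N ∈ I, LZE b y N (C * (1 + Real.log N))} with hG
  set F := IntermediateField.adjoin ℚ G with hF
  have hmem : ∀ j : ℕ, j < b → j ≠ j₀ → tl b (ui b α j) 0 ∈ F := by
    intro j hj hne
    apply IntermediateField.subset_adjoin
    exact ⟨b, |K|, hb, fun n hn => lze_of_not hb hq (hn j hj hne)⟩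
  -- `α` is in the field
  have hαF : α ∈ F := by
    have h1 := sum_eq hb α
    have h2 := sum_one hb α
    have h3 : α = ⌊α⌋ + ((j₀ : ℕ) : ℝ) * (1 / ((b : ℝ) - 1)) +
        ∑ j ∈ (Finset.range b).erase (j₀ : ℕ), ((j : ℝ) - ((j₀ : ℕ) : ℝ)) *
          tl b (ui b α j) 0 := by
      have hmem0 : (j₀ : ℕ) ∈ Finset.range b := Finset.mem_range.2 j₀.2
      have h4 : ∑ j ∈ Finset.range b, ((j : ℝ) - ((j₀ : ℕ) : ℝ)) * tl b (ui b α j) 0 =
          ∑ j ∈ (Finset.range b).erase (j₀ : ℕ), ((j : ℝ) - ((j₀ : ℕ) : ℝ)) *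
          tl b (ui b α j) 0 := by
        rw [← Finset.add_sum_erase _ _ hmem0]
        simp
      rw [← h4, h2, Finset.mul_sum, add_assoc, ← Finset.sum_add_distrib]
      conv_lhs => rw [h1]
      congr 1
      refine Finset.sum_congr rfl fun j _ => ?_
      ring
    rw [h3]
    refine add_mem (add_mem ?_ (mul_mem ?_ (div_mem (one_mem _) (sub_mem ?_ (one_mem _)))))
      (sum_mem fun j hj => mul_mem (sub_mem ?_ ?_) ?_)
    · exact intCast_mem F _
    · exact natCast_mem F _
    · exact natCast_mem F _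
    · exact natCast_mem F _
    · exact natCast_mem F _
    · rw [Finset.mem_erase, Finset.mem_range] at hj
      exact hmem j hj.2 hj.1
  -- linear disjointness for `1, α`
  have hind : LinearIndependent ℚ (![1, α] : Fin 2 → ℝ) := by
    rw [LinearIndependent.pair_iff]
    intro s t hst
    by_cases ht : t = 0
    · subst ht
      simp only [zero_smul, add_zero] at hst
      refine ⟨?_, rfl⟩
      rw [Rat.smul_def, mul_one] at hst
      exact_mod_cast hst
    · exfalso
      apply hq (-s / t)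
      have ht' : (t : ℝ) ≠ 0 := by exact_mod_cast ht
      rw [Rat.smul_def, Rat.smul_def, mul_one] at hst
      push_cast
      field_simp
      linarith
  have := hZFA I hIinf 2 ![1, α] ![α, -1] (by
      intro i
      fin_cases i
      · exact one_mem _
      · exact hαF) (by
      intro i
      fin_cases i
      · exact hα
      · exact (isAlgebraic_one (R := ℚ) (A := ℝ)).neg) hind (by
      simp [Fin.sum_univ_two]) 1
  simp at this

end Pool.Agent.SBT
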