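import Pool.Agent.SBT.MainK
import Pool.Agent.SBT.KCX
import Pool.Agent.SBT.ZSC
import Pool.Agent.SBT.ZST
import Pool.Agent.SBT.ZAP
import Pool.Agent.SBT.ZPO
import Pool.Agent.SBT.ZFA
import Pool.Agent.SBT.ZTD
import Pool.Agent.SBT.ZLC

/-!
# Section Z: assembly of the modules (Lempel-Ziv complexity with errors, `sqrt 2`)
-/

set_option autoImplicit false

namespace Pool.Agent.SBT

theorem KCX_ : Stmt_KCX := kcx_proof UNI_ KS2T_ kus_proof kel_proof KPO_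
theorem ZST_ : Stmt_ZST := zst_proof rpa_proof
theorem ZAP_ : Stmt_ZAP := zap_proof ZST_ dgt_proof rpa_proof kus_proof
theorem ZPO_ : Stmt_ZPO := zpo_proof KAP_
theorem ZFA_ : Stmt_ZFA := zfa_proof KCX_ ZPO_ ZAP_ zsc_proof KAP_
theorem ZTD_ : Stmt_ZTD := ztd_proof ZFA_
theorem ZLC_ : Stmt_ZLC := zlc_proof

end Pool.Agent.SBT
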