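import Pool.Agent.SBT.StmtsBC

/-!
# Squad SBT: common lemmas on `nm`, `hd`, `tr`, `toQ`
-/

set_option autoImplicit false

namespace Pool.Agent.SBT

open MvPolynomial

section nm

variable {σ : Type}

theorem nm_nonneg (P : MvPolynomial σ ℤ) : 0 ≤ nm P :=
  Finset.sum_nonneg fun _ _ => abs_nonneg _

theorem nm_zero : nm (0 : MvPolynomial σ ℤ) = 0 := by simp [nm]

/-- `nm` as a sum over any larger set -/
theorem nm_eq_sum (P : MvPolynomial σ ℤ) (F : Finset (σ →₀ ℕ)) (hF : P.support ⊆ F) :
    nm P = ∑ s ∈ F, |((P.coeff s : ℤ) : ℝ)| := by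
  unfold nm
  refine Finset.sum_subset hF fun s _ hs => ?_
  rw [MvPolynomial.notMem_support_iff] at hs
  simp [hs]

theorem sum_coeff_le_nm (P : MvPolynomial σ ℤ) (F : Finset (σ →₀ ℕ)) :
    ∑ s ∈ F, |((P.coeff s : ℤ) : ℝ)| ≤ nm P := by
  classical
  rw [nm_eq_sum P (P.support ∪ F) Finset.subset_union_left]
  exact Finset.sum_le_sum_of_subset_of_nonneg Finset.subset_union_right
    fun _ _ _ => abs_nonneg _

theorem coeff_le_nm (P : MvPolynomial σ ℤ) (s : σ →₀ ℕ) : |((P.coeff s : ℤ) : ℝ)| ≤ nm P := by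
  simpa using sum_coeff_le_nm P {s}

theorem HB_nm (P : MvPolynomial σ ℤ) : HB P (nm P) := fun s => coeff_le_nm P s

theorem nm_le_card_mul (P : MvPolynomial σ ℤ) (A : ℝ) (h : HB P A) :
    nm P ≤ P.support.card * A := by
  unfold nm
  calc ∑ s ∈ P.support, |((P.coeff s : ℤ) : ℝ)| ≤ ∑ _s ∈ P.support, A :=
        Finset.sum_le_sum fun s _ => h s
    _ = P.support.card * A := by simp

theorem one_le_nm (P : MvPolynomial σ ℤ) (h : P ≠ 0) : 1 ≤ nm P := by
  obtain ⟨s, hs⟩ := MvPolynomial.ne_zero_iff.1 h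
  refine le_trans ?_ (coeff_le_nm P s)
  have : (1 : ℤ) ≤ |P.coeff s| := Int.one_le_abs hs
  exact_mod_cast this

theorem nm_monomial (s : σ →₀ ℕ) (a : ℤ) : nm (monomial s a) = |(a : ℝ)| := by
  classical
  rw [nm_eq_sum (monomial s a) {s} support_monomial_subset]
  simp

theorem nm_C (a : ℤ) : nm (C a : MvPolynomial σ ℤ) = |(a : ℝ)| := nm_monomial 0 a

theorem nm_one : nm (1 : MvPolynomial σ ℤ) = 1 := by
  rw [← MvPolynomial.C_1, nm_C]; simp

theorem nm_X (i : σ) : nm (X i : MvPolynomial σ ℤ) = 1 := by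
  rw [MvPolynomial.X, nm_monomial]; simp

theorem nm_add_le (P Q : MvPolynomial σ ℤ) : nm (P + Q) ≤ nm P + nm Q := by
  classical
  rw [nm_eq_sum (P + Q) (P.support ∪ Q.support) MvPolynomial.support_add,
    nm_eq_sum P (P.support ∪ Q.support) Finset.subset_union_left,
    nm_eq_sum Q (P.support ∪ Q.support) Finset.subset_union_right, ← Finset.sum_add_distrib]
  refine Finset.sum_le_sum fun s _ => ?_
  rw [MvPolynomial.coeff_add, Int.cast_add]
  exact abs_add_le _ _

theorem nm_neg (P : MvPolynomial σ ℤ) : nm (-P) = nm P := by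
  unfold nm
  rw [MvPolynomial.support_neg]
  refine Finset.sum_congr rfl fun s _ => ?_
  rw [MvPolynomial.coeff_neg, Int.cast_neg, abs_neg]

theorem nm_sum_le {ι : Type*} (F : Finset ι) (P : ι → MvPolynomial σ ℤ) :
    nm (∑ i ∈ F, P i) ≤ ∑ i ∈ F, nm (P i) := by
  classical
  induction F using Finset.induction_on with
  | empty => simp [nm_zero]
  | insert a F ha ih =>
    rw [Finset.sum_insert ha, Finset.sum_insert ha]
    exact (nm_add_le _ _).trans (add_le_add le_rfl ih)

theorem nm_mul_le (P Q : MvPolynomial σ ℤ) : nm (P * Q) ≤ nm P * nm Q := by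
  classical
  have h : P * Q = ∑ s ∈ P.support, ∑ t ∈ Q.support,
      monomial (s + t) (P.coeff s * Q.coeff t) := by
    conv_lhs => rw [P.as_sum, Q.as_sum]
    rw [Finset.sum_mul_sum]
    refine Finset.sum_congr rfl fun s _ => Finset.sum_congr rfl fun t _ => ?_
    rw [MvPolynomial.monomial_mul]
  rw [h]
  refine (nm_sum_le _ _).trans ?_
  unfold nm
  rw [Finset.sum_mul_sum]
  refine Finset.sum_le_sum fun s _ => ?_
  refine (nm_sum_le _ _).trans (Finset.sum_le_sum fun t _ => ?_)
  rw [nm_monomial, Int.cast_mul, abs_mul]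

theorem nm_pow_le (P : MvPolynomial σ ℤ) (k : ℕ) : nm (P ^ k) ≤ nm P ^ k := by
  induction k with
  | zero => simp [nm_one]
  | succ k ih =>
    rw [pow_succ, pow_succ]
    exact (nm_mul_le _ _).trans (mul_le_mul_of_nonneg_right ih (nm_nonneg _))

theorem nm_prod_le {ι : Type*} (F : Finset ι) (P : ι → MvPolynomial σ ℤ) :
    nm (∏ i ∈ F, P i) ≤ ∏ i ∈ F, nm (P i) := by
  classical
  induction F using Finset.induction_on with
  | empty => simp [nm_one]
  | insert a F ha ih =>
    rw [Finset.prod_insert ha, Finset.prod_insert ha]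
    exact (nm_mul_le _ _).trans (mul_le_mul_of_nonneg_left ih (nm_nonneg _))

/-- determinants -/
theorem nm_det_le {k : ℕ} (A : Matrix (Fin k) (Fin k) (MvPolynomial σ ℤ)) (B : ℝ)
    (h : ∀ i j, nm (A i j) ≤ B) : nm A.det ≤ k.factorial * B ^ k := by
  classical
  rw [Matrix.det_apply']
  refine (nm_sum_le _ _).trans ?_
  have h1 : ∀ τ : Equiv.Perm (Fin k),
      nm (((Equiv.Perm.sign τ : ℤ) : MvPolynomial σ ℤ) * ∏ i, A (τ i) i) ≤ B ^ k := by
    intro τ
    have h2 : nm (((Equiv.Perm.sign τ : ℤ) : MvPolynomial σ ℤ)) = 1 := by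
      rw [show ((((Equiv.Perm.sign τ : ℤ)) : MvPolynomial σ ℤ)) = C ((Equiv.Perm.sign τ : ℤ)) by
        simp, nm_C]
      rcases Int.units_eq_one_or (Equiv.Perm.sign τ) with h | h <;> simp [h]
    refine (nm_mul_le _ _).trans ?_
    rw [h2, one_mul]
    refine (nm_prod_le _ _).trans ?_
    calc ∏ i, nm (A (τ i) i) ≤ ∏ _i : Fin k, B :=
          Finset.prod_le_prod (fun _ _ => nm_nonneg _) fun i _ => h _ _
      _ = B ^ k := by simp
  calc ∑ τ : Equiv.Perm (Fin k), nm (((Equiv.Perm.sign τ : ℤ) : MvPolynomial σ ℤ) *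
        ∏ i, A (τ i) i) ≤ ∑ _τ : Equiv.Perm (Fin k), B ^ k :=
        Finset.sum_le_sum fun τ _ => h1 τ
    _ = k.factorial * B ^ k := by
        simp [Finset.card_univ, Fintype.card_perm]

end nm

section hd

variable {m : ℕ} {R : Type} [CommRing R]

theorem hd_eq_sum (e : Fin m →₀ ℕ) (P : MvPolynomial (Fin m) R) (F : Finset (Fin m →₀ ℕ))
    (hF : P.support ⊆ F) : hd e P = ∑ s ∈ F, monomial (s - e)
      (P.coeff s * ((∏ i, (s i).choose (e i) : ℕ) : R)) := by
  unfold hd
  refine Finset.sum_subset hF fun s _ hs => ?_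
  rw [MvPolynomial.notMem_support_iff] at hs
  simp [hs]

theorem hd_add (e : Fin m →₀ ℕ) (P Q : MvPolynomial (Fin m) R) :
    hd e (P + Q) = hd e P + hd e Q := by
  classical
  rw [hd_eq_sum e (P + Q) (P.support ∪ Q.support) MvPolynomial.support_add,
    hd_eq_sum e P (P.support ∪ Q.support) Finset.subset_union_left,
    hd_eq_sum e Q (P.support ∪ Q.support) Finset.subset_union_right, ← Finset.sum_add_distrib]
  refine Finset.sum_congr rfl fun s _ => ?_
  rw [← map_add, MvPolynomial.coeff_add, add_mul]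

theorem hd_zero (e : Fin m →₀ ℕ) : hd e (0 : MvPolynomial (Fin m) R) = 0 := by simp [hd]

theorem hd_C_mul (e : Fin m →₀ ℕ) (a : R) (P : MvPolynomial (Fin m) R) :
    hd e (C a * P) = C a * hd e P := by
  classical
  have hs : (C a * P).support ⊆ P.support := by
    intro s hs
    rw [MvPolynomial.mem_support_iff, MvPolynomial.coeff_C_mul] at hs
    rw [MvPolynomial.mem_support_iff]
    intro h
    exact hs (by rw [h, mul_zero])
  rw [hd_eq_sum e (C a * P) P.support hs, hd, Finset.mul_sum]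
  refine Finset.sum_congr rfl fun s _ => ?_
  rw [MvPolynomial.C_mul_monomial, MvPolynomial.coeff_C_mul, mul_assoc]

theorem hd_sum (e : Fin m →₀ ℕ) {ι : Type*} (F : Finset ι) (P : ι → MvPolynomial (Fin m) R) :
    hd e (∑ i ∈ F, P i) = ∑ i ∈ F, hd e (P i) := by
  classical
  induction F using Finset.induction_on with
  | empty => simp [hd_zero]
  | insert a F ha ih => rw [Finset.sum_insert ha, Finset.sum_insert ha, hd_add, ih]

theorem hd_monomial (e s : Fin m →₀ ℕ) (a : R) :
    hd e (monomial s a) = monomial (s - e) (a * ((∏ i, (s i).choose (e i) : ℕ) : R)) := by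
  classical
  rw [hd_eq_sum e (monomial s a) {s} support_monomial_subset]
  simp

/-- the coefficients of a Hasse derivative -/
theorem coeff_hd (e t : Fin m →₀ ℕ) (P : MvPolynomial (Fin m) R) :
    (hd e P).coeff t = P.coeff (t + e) * ((∏ i, ((t + e) i).choose (e i) : ℕ) : R) := by
  classical
  induction P using MvPolynomial.induction_on' with
  | monomial s a =>
    rw [hd_monomial, MvPolynomial.coeff_monomial, MvPolynomial.coeff_monomial]
    by_cases h : s = t + e
    · subst h
      simp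
    · rw [if_neg h, zero_mul]
      split_ifs with h1
      · -- `s - e = t` but `s ≠ t + e`: then `¬ e ≤ s` and a binomial coefficient vanishes
        have h2 : ∃ i, s i < e i := by
          by_contra h3
          push Not at h3
          apply h
          ext i
          have := congrArg (fun f => f i) h1
          simp only [Finsupp.coe_tsub, Pi.sub_apply] at this
          simp only [Finsupp.coe_add, Pi.add_apply]
          have := h3 i
          omega
        obtain ⟨i, hi⟩ := h2
        have h4 : ∏ i, (s i).choose (e i) = 0 :=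
          Finset.prod_eq_zero (Finset.mem_univ i) (Nat.choose_eq_zero_of_lt hi)
        rw [h4]; simp
      · rfl
  | add P Q hP hQ => rw [hd_add, MvPolynomial.coeff_add, MvPolynomial.coeff_add, hP, hQ, add_mul]

end hd

section toQ

variable {σ : Type}

theorem toQ_injective : Function.Injective (toQ : MvPolynomial σ ℤ → MvPolynomial σ ℚ) :=
  MvPolynomial.map_injective _ (Int.cast_injective)

theorem toQ_ne_zero {P : MvPolynomial σ ℤ} (h : P ≠ 0) : toQ P ≠ 0 := by
  intro h0
  apply h
  apply toQ_injective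
  rw [h0]; simp [toQ]

theorem coeff_toQ (P : MvPolynomial σ ℤ) (e : σ →₀ ℕ) :
    (toQ P).coeff e = ((P.coeff e : ℤ) : ℚ) := by
  unfold toQ
  rw [MvPolynomial.coeff_map]; rfl

theorem support_toQ (P : MvPolynomial σ ℤ) : (toQ P).support = P.support := by
  ext e
  rw [MvPolynomial.mem_support_iff, MvPolynomial.mem_support_iff, coeff_toQ]
  simp

theorem toQ_mul (P Q : MvPolynomial σ ℤ) : toQ (P * Q) = toQ P * toQ Q := by
  unfold toQ; exact map_mul _ _ _

theorem toQ_add (P Q : MvPolynomial σ ℤ) : toQ (P + Q) = toQ P + toQ Q := by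
  unfold toQ; exact map_add _ _ _

/-- `toQ` and Hasse derivatives -/
theorem toQ_hd {m : ℕ} (e : Fin m →₀ ℕ) (P : MvPolynomial (Fin m) ℤ) :
    toQ (hd e P) = hd e (toQ P) := by
  ext t
  rw [coeff_toQ, coeff_hd, coeff_hd, coeff_toQ]
  push_cast
  rfl

theorem toQ_det {k : ℕ} (A : Matrix (Fin k) (Fin k) (MvPolynomial σ ℤ)) :
    toQ A.det = (Matrix.of fun i j => toQ (A i j)).det := by
  unfold toQ
  exact RingHom.map_det (MvPolynomial.map (Int.castRingHom ℚ)) A

theorem tr_mul {m : ℕ} (β : Fin m → ℚ) (P Q : MvPolynomial (Fin m) ℚ) :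
    tr β (P * Q) = tr β P * tr β Q := by
  unfold tr; exact map_mul _ _ _

theorem tr_add {m : ℕ} (β : Fin m → ℚ) (P Q : MvPolynomial (Fin m) ℚ) :
    tr β (P + Q) = tr β P + tr β Q := by
  unfold tr; exact map_add _ _ _

end toQ

end Pool.Agent.SBT
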