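import Pool.Agent.SBT.Main
import Pool.Agent.TWB.MEAS

/-!
# `π` has a finite irrationality exponent
-/

set_option autoImplicit false

namespace Pool.Agent.SBT

theorem meas_pi : Meas Real.pi 9 := TWB.meas_proof

/-- complexity of `π` in two bases -/
theorem pi_complexity (a b : ℕ) (ha : 2 ≤ a) (hb : 2 ≤ b) (hab : Indep a b) (C : ℕ) :
    ∃ Λ : ℕ, ∀ᶠ n : ℕ in Filter.atTop,
      C * n ≤ cnt a Real.pi n (Λ * n) + cnt b Real.pi n (Λ * n) :=
  CPX_ a b Real.pi 9 ha hb hab meas_pi C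

/-- digit changes of `π` in two bases -/
theorem pi_changes (a b : ℕ) (ha : 2 ≤ a) (hb : 2 ≤ b) (hab : Indep a b) (K : ℝ) :
    ∀ᶠ X : ℕ in Filter.atTop, K * Real.log X ≤ chg a Real.pi X + chg b Real.pi X :=
  CHG_ a b Real.pi 9 ha hb hab meas_pi K

end Pool.Agent.SBT
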