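import Pool.Agent.SBT.StmtsG

set_option autoImplicit false

namespace Pool.Agent.SBT

open Filter

namespace RNP_

/-- value of a word in base `b` -/
def val (b : ℤ) : List ℤ → ℤ
  | [] => 0
  | d :: l => b ^ l.length * d + val b l

theorem foldl_val (b : ℤ) (l : List ℤ) (c : ℤ) :
    l.foldl (fun a d => b * a + d) c = b ^ l.length * c + val b l := by
  induction l generalizing c with
  | nil => simp [val]
  | cons d l ih =>
    rw [List.foldl_cons, ih]
    simp only [val, List.length_cons, pow_succ]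
    ring

theorem val_append (b : ℤ) (l l' : List ℤ) :
    val b (l ++ l') = b ^ l'.length * val b l + val b l' := by
  induction l with
  | nil => simp [val]
  | cons d l ih =>
    simp only [List.cons_append, val, ih, List.length_append, pow_add]
    ring

theorem val_nonneg (b : ℤ) (hb : 2 ≤ b) (l : List ℤ) (h : ∀ d ∈ l, 0 ≤ d ∧ d < b) :
    0 ≤ val b l ∧ val b l ≤ b ^ l.length - 1 := by
  induction l with
  | nil => simp [val]
  | cons d l ih =>
    have h1 := ih (fun d hd => h d (List.mem_cons_of_mem _ hd))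
    have h2 := h d (List.mem_cons_self ..)
    have h3 : 0 < b ^ l.length := by positivity
    simp only [val, List.length_cons, pow_succ]
    constructor
    · nlinarith [mul_nonneg h3.le h2.1]
    · nlinarith [mul_nonneg h3.le (by linarith : 0 ≤ b - 1 - d)]

theorem val_replicate (b : ℤ) (w : List ℤ) (e : ℕ) :
    (b ^ w.length - 1) * val b (List.replicate e w).flatten =
      (b ^ (e * w.length) - 1) * val b w := by
  induction e with
  | zero => simp [val]
  | succ e ih =>
    rw [List.replicate_succ, List.flatten_cons, val_append, mul_add, ih]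
    have h1 : (List.replicate e w).flatten.length = e * w.length := by
      simp
    rw [h1, Nat.succ_mul, pow_add]
    ring

theorem floor_val (hD : Stmt_DGT) (b : ℕ) (x : ℝ) (hb : 2 ≤ b) (X : ℕ) :
    ⌊x * (b : ℝ) ^ X⌋ = ((List.range X).map (fun i => dig b x (i + 1))).foldl
      (fun a d => (b : ℤ) * a + d) ⌊x⌋ := by
  induction X with
  | zero => simp
  | succ X ih =>
    rw [List.range_succ, List.map_append, List.foldl_append, ← ih, (hD b x hb).2.1 X]
    simp

theorem pieces (hR : Stmt_RPA) (b s : ℕ) (w : Fin s → List ℤ) (y : Fin s → ℤ)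
    (ps : List (Fin s × ℕ)) (hy : ∀ p ∈ ps, p.2 = 0 ∨ y p.1 = val b (w p.1)) :
    ∃ F : Fin s → ℤ, (∀ j, Rep b (ps.length * 2 ^ s)
        ((∑ i, (w i).length) + (ps.map fun p => (List.replicate p.2 (w p.1)).flatten).flatten.length)
        (F j)) ∧
      (∏ j, ((b : ℤ) ^ (w j).length - 1)) *
        val b (ps.map fun p => (List.replicate p.2 (w p.1)).flatten).flatten =
        ∑ j, F j * y j := by
  obtain ⟨hadd, hmul, hmono, hpow, hzero, hneg, hprod⟩ := hR
  induction ps with
  | nil =>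
    refine ⟨fun _ => 0, fun j => hzero _ _ _, by simp [val]⟩
  | cons p ps ih =>
    obtain ⟨F, hF, hE⟩ := ih (fun p' hp' => hy p' (List.mem_cons_of_mem _ hp'))
    obtain ⟨t, e⟩ := p
    set rest := (ps.map fun p => (List.replicate p.2 (w p.1)).flatten).flatten with hrest
    set q' : Fin s → ℕ := Function.update (fun j => (w j).length) t (e * (w t).length) with hq'
    set G : ℤ := (b : ℤ) ^ rest.length * ∏ j, ((b : ℤ) ^ q' j - 1) with hG
    have hlen : ((((t, e) :: ps).map fun p => (List.replicate p.2 (w p.1)).flatten).flatten).length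
        = e * (w t).length + rest.length := by
      rw [List.map_cons, List.flatten_cons, List.length_append]
      simp [hrest]
    have hsum : ∑ i, q' i ≤ (∑ i, (w i).length) + e * (w t).length := by
      rw [hq', Finset.sum_update_of_mem (Finset.mem_univ t)]
      have : ∑ x ∈ Finset.univ \ {t}, (w x).length ≤ ∑ i, (w i).length :=
        Finset.sum_le_sum_of_subset (Finset.subset_univ _)
      omega
    have hGR : Rep b (2 ^ s) ((∑ i, (w i).length) + (e * (w t).length + rest.length)) G := by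
      have h1 := hmul b 1 (2 ^ s) rest.length (∑ i, q' i) _ _ (hpow b rest.length) (hprod b s q')
      refine hmono b _ _ _ _ _ (by omega) ?_ h1
      omega
    have hprodeq : (∏ j, ((b : ℤ) ^ (w j).length - 1)) *
        val b (List.replicate e (w t)).flatten = (∏ j, ((b : ℤ) ^ q' j - 1)) * y t := by
      have h1 : (∏ j, ((b : ℤ) ^ (w j).length - 1)) =
          ((b : ℤ) ^ (w t).length - 1) * ∏ j ∈ Finset.univ \ {t}, ((b : ℤ) ^ (w j).length - 1) := by
        rw [← Finset.prod_sdiff (Finset.subset_univ {t}), Finset.prod_singleton, mul_comm]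
      have h2 : (∏ j, ((b : ℤ) ^ q' j - 1)) =
          ((b : ℤ) ^ (e * (w t).length) - 1) *
            ∏ j ∈ Finset.univ \ {t}, ((b : ℤ) ^ (w j).length - 1) := by
        rw [← Finset.prod_sdiff (Finset.subset_univ {t}), Finset.prod_singleton, mul_comm]
        congr 1
        · rw [hq', Function.update_self]
        · refine Finset.prod_congr rfl fun j hj => ?_
          have : j ≠ t := by
            intro h
            simp [h] at hj
          rw [hq', Function.update_of_ne this]
      rw [h1, h2, mul_right_comm, val_replicate]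
      rcases hy (t, e) (List.mem_cons_self ..) with h | h
      · simp only at h
        subst h
        simp
      · simp only at h
        rw [h]
        ring
    refine ⟨fun j => F j + if j = t then G else 0, fun j => ?_, ?_⟩
    · have h0 : Rep b (2 ^ s) ((∑ i, (w i).length) + (e * (w t).length + rest.length))
          (if j = t then G else 0) := by
        split_ifs
        · exact hGR
        · exact hzero _ _ _
      have h1 : Rep b (ps.length * 2 ^ s)
          ((∑ i, (w i).length) + (e * (w t).length + rest.length)) (F j) :=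
        hmono b _ _ _ _ _ le_rfl (by omega) (hF j)
      have h2 := hadd b _ _ _ _ _ h1 h0
      rw [hlen]
      refine hmono b _ _ _ _ _ ?_ le_rfl h2
      rw [List.length_cons, Nat.succ_mul]
    · rw [List.map_cons, List.flatten_cons, val_append, mul_add, ← hrest, hE]
      have h1 : (∏ j, ((b : ℤ) ^ (w j).length - 1)) * ((b : ℤ) ^ rest.length *
          val b (List.replicate e (w t)).flatten) = G * y t := by
        rw [mul_left_comm, hprodeq, hG]
        ring
      rw [h1]
      simp only [add_mul, Finset.sum_add_distrib, ite_mul, zero_mul, Finset.sum_ite_eq',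
        Finset.mem_univ, if_true]
      ring

theorem fac_struct (hD : Stmt_DGT) (hR : Stmt_RPA) (b : ℕ) (x : ℝ) (X s M N : ℕ) (hb : 2 ≤ b)
    (h : Fac b x X s M N) :
    ∃ (q : Fin (s + 1) → ℕ) (y : Fin (s + 1) → ℤ), (∀ j, 1 ≤ q j ∧ q j ≤ M + 1) ∧
      (∀ j, |y j| ≤ (b : ℤ) ^ M + |⌊x⌋|) ∧
      ∃ F : Fin (s + 1) → ℤ, (∀ j, Rep b (2 ^ (s + 1) * (N + 1)) (s * M + X + 1) (F j)) ∧
        (∏ j, ((b : ℤ) ^ q j - 1)) * ⌊x * (b : ℝ) ^ X⌋ = ∑ j, F j * y j := by
  obtain ⟨w, t, e, hw, heq⟩ := h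
  classical
  have hRR := hR
  obtain ⟨hadd, hmul, hmono, hpow, hzero, hneg, hprod⟩ := hR
  set ps : List (Fin s × ℕ) := List.ofFn fun j => (t j, e j) with hps
  have hfl : (List.ofFn fun j => (List.replicate (e j) (w (t j))).flatten).flatten =
      (ps.map fun p => (List.replicate p.2 (w p.1)).flatten).flatten := by
    rw [hps, List.map_ofFn]
    rfl
  rw [hfl] at heq
  have hlenX : (ps.map fun p => (List.replicate p.2 (w p.1)).flatten).flatten.length = X := by
    rw [← heq]
    simp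
  have hdig : ∀ p ∈ ps, p.2 ≠ 0 → ∀ d ∈ w p.1, 0 ≤ d ∧ d < b := by
    intro p hp hp2 d hd
    have h1 : d ∈ (ps.map fun p => (List.replicate p.2 (w p.1)).flatten).flatten := by
      rw [List.mem_flatten]
      refine ⟨(List.replicate p.2 (w p.1)).flatten, List.mem_map.2 ⟨p, hp, rfl⟩, ?_⟩
      rw [List.mem_flatten]
      exact ⟨w p.1, List.mem_replicate.2 ⟨hp2, rfl⟩, hd⟩
    rw [← heq, List.mem_map] at h1
    obtain ⟨i, -, hi⟩ := h1
    rw [← hi]
    exact (hD b x hb).1 _
  set y : Fin s → ℤ := fun j => if (∀ d ∈ w j, 0 ≤ d ∧ d < (b : ℤ)) then val b (w j) else 0 with hy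
  have hyp : ∀ p ∈ ps, p.2 = 0 ∨ y p.1 = val b (w p.1) := by
    intro p hp
    by_cases h0 : p.2 = 0
    · exact Or.inl h0
    · refine Or.inr ?_
      simp only [hy]
      rw [if_pos (hdig p hp h0)]
  obtain ⟨F, hF, hE⟩ := pieces hRR b s w y ps hyp
  have hb' : (2 : ℤ) ≤ (b : ℤ) := by exact_mod_cast hb
  have hbM : ∀ m ≤ M, (b : ℤ) ^ m ≤ (b : ℤ) ^ M := fun m hm =>
    pow_le_pow_right₀ (by linarith) hm
  have hsumM : ∑ i, (w i).length ≤ s * M := by
    calc ∑ i, (w i).length ≤ ∑ _i : Fin s, M := Finset.sum_le_sum fun i _ => (hw i).2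
      _ = s * M := by simp
  refine ⟨Fin.cons 1 fun j => (w j).length, Fin.cons ⌊x⌋ y, ?_, ?_, ?_⟩
  · intro j
    refine Fin.cases ?_ (fun j => ?_) j
    · simp
    · simp only [Fin.cons_succ]
      have := hw j
      omega
  · intro j
    have hpos : 0 < (b : ℤ) ^ M := by positivity
    refine Fin.cases ?_ (fun j => ?_) j
    · simp only [Fin.cons_zero]
      linarith
    · simp only [Fin.cons_succ, hy]
      split_ifs with h
      · have h1 := val_nonneg b hb' (w j) h
        rw [abs_of_nonneg h1.1]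
        have h2 := hbM _ (hw j).2
        have h3 := abs_nonneg ⌊x⌋
        linarith
      · have h3 := abs_nonneg ⌊x⌋
        simp only [abs_zero]
        linarith
  · have hlN : ps.length = N := by simp [hps]
    refine ⟨Fin.cons ((∏ j : Fin (s + 1), ((b : ℤ) ^ (Fin.cons 1 (fun j => (w j).length) :
        Fin (s + 1) → ℕ) j - 1)) * (b : ℤ) ^ X) fun j => ((b : ℤ) ^ 1 + -(b : ℤ) ^ 0) * F j, ?_, ?_⟩
    · intro j
      refine Fin.cases ?_ (fun j => ?_) j
      · simp only [Fin.cons_zero]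
        have h1 := hmul b _ _ _ _ _ _ (hprod b (s + 1) (Fin.cons 1 fun j => (w j).length))
          (hpow b X)
        refine hmono b _ _ _ _ _ ?_ ?_ h1
        · exact Nat.mul_le_mul_left _ (by omega)
        · rw [Fin.sum_univ_succ]
          simp only [Fin.cons_zero, Fin.cons_succ]
          omega
      · simp only [Fin.cons_succ]
        have h0 : Rep b (1 + 1) 1 ((b : ℤ) ^ 1 + -(b : ℤ) ^ 0) :=
          hadd b _ _ _ _ _ (hpow b 1) (hneg b _ _ _ (hmono b _ _ _ _ _ le_rfl (by omega)
            (hpow b 0)))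
        have h1 := hmul b _ _ _ _ _ _ h0 (hF j)
        refine hmono b _ _ _ _ _ ?_ ?_ h1
        · rw [hlN, pow_succ]
          nlinarith [Nat.zero_le (2 ^ s * N), Nat.zero_le (2 ^ s)]
        · rw [hlenX]
          omega
    · rw [floor_val hD b x hb X, heq, foldl_val, hlenX]
      rw [Fin.sum_univ_succ]
      simp only [Fin.cons_zero, Fin.cons_succ]
      rw [mul_add]
      congr 1
      · ring
      · rw [Fin.prod_univ_succ]
        simp only [Fin.cons_zero, Fin.cons_succ]
        rw [mul_assoc, hE, Finset.mul_sum]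
        refine Finset.sum_congr rfl fun j _ => ?_
        ring

end RNP_

open RNP_ in
theorem rnp_proof (hRNC : Stmt_RNC) (hDGT : Stmt_DGT) (hRPA : Stmt_RPA) : Stmt_RNP := by
  intro k bs ξ μ x P hbs hI hM hP s B
  classical
  set lg : ℝ := ∑ r, ∑ i, Real.log (bs r i) with hlg
  have hlog : ∀ r i, 0 ≤ Real.log (bs r i) := fun r i =>
    Real.log_nonneg (by exact_mod_cast (by have := hbs r i; omega : 1 ≤ bs r i))
  have hlgle : ∀ r i, Real.log (bs r i) ≤ lg := by
    intro r i
    calc Real.log (bs r i) ≤ ∑ i, Real.log (bs r i) :=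
          Finset.single_le_sum (fun i _ => hlog r i) (Finset.mem_univ i)
      _ ≤ lg := Finset.single_le_sum (f := fun r => ∑ i, Real.log (bs r i))
          (fun r _ => Finset.sum_nonneg fun i _ => hlog r i) (Finset.mem_univ r)
  have hlg0 : 0 ≤ lg := Finset.sum_nonneg fun r _ => Finset.sum_nonneg fun i _ => hlog r i
  set B' : ℝ := B * lg + B + 2 with hB'
  have hB'0 : 0 ≤ B' := by positivity
  obtain ⟨Λ₀, hΛ₀⟩ := hRNC k bs ξ μ x P hbs hI hM hP (s + 1) B' hB'0
  set Λ : ℕ := ⌈Λ₀⌉₊ with hΛ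
  refine ⟨Λ, fun N => ?_⟩
  by_contra hcon
  have hfreq : ∃ᶠ n : ℕ in atTop, ∀ r i, Fac (bs r i) (x r i) (Λ * n) s (B * n) N := by
    intro h
    refine hcon (h.mono fun n hn => ?_)
    by_contra h2
    push Not at h2
    exact hn h2
  -- an ultrafilter
  have hne : (atTop ⊓ 𝓟 {n : ℕ | ∀ r i, Fac (bs r i) (x r i) (Λ * n) s (B * n) N}).NeBot := by
    rw [Filter.inf_principal_neBot_iff]
    intro S hS
    obtain ⟨n, hn, hn'⟩ := (hfreq.and_eventually hS).exists
    exact ⟨n, hn', hn⟩
  set U : Ultrafilter ℕ := @Ultrafilter.of ℕ _ hne with hU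
  have hUle : (U : Filter ℕ) ≤ atTop ⊓ 𝓟 {n : ℕ | ∀ r i, Fac (bs r i) (x r i) (Λ * n) s (B * n) N} :=
    @Ultrafilter.of_le ℕ _ hne
  have hUtop : (U : Filter ℕ) ≤ atTop := hUle.trans inf_le_left
  have hUgood : ∀ᶠ n in (U : Filter ℕ), ∀ r i, Fac (bs r i) (x r i) (Λ * n) s (B * n) N := by
    have h1 : (U : Filter ℕ) ≤ 𝓟 {n : ℕ | ∀ r i, Fac (bs r i) (x r i) (Λ * n) s (B * n) N} :=
      hUle.trans inf_le_right
    exact Filter.le_principal_iff.1 h1
  have hU1 : ∀ᶠ n in (U : Filter ℕ), 1 ≤ n := hUtop (eventually_ge_atTop 1)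
  have key : ∀ n, (∀ r i, Fac (bs r i) (x r i) (Λ * n) s (B * n) N) → ∀ r i,
      ∃ (q : Fin (s + 1) → ℕ) (y : Fin (s + 1) → ℤ), (∀ j, 1 ≤ q j ∧ q j ≤ B * n + 1) ∧
      (∀ j, |y j| ≤ ((bs r i : ℕ) : ℤ) ^ (B * n) + |⌊x r i⌋|) ∧
      ∃ F : Fin (s + 1) → ℤ, (∀ j, Rep (bs r i) (2 ^ (s + 1) * (N + 1))
        (s * (B * n) + Λ * n + 1) (F j)) ∧
        (∏ j, ((bs r i : ℤ) ^ q j - 1)) * ⌊x r i * (bs r i : ℝ) ^ (Λ * n)⌋ = ∑ j, F j * y j :=
    fun n hn r i => fac_struct hDGT hRPA _ _ _ _ _ _ (hbs r i) (hn r i)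
  choose! q y hq hy F hF hE using key
  obtain ⟨hadd, hmul, hmono, hpow, hzero, hneg, hprod⟩ := hRPA
  set N' : ℕ := 2 ^ (s + 1) * (N + 1) + (s * B + Λ + 1) with hN'
  refine hΛ₀ U (fun _ _ n => Λ * n) (fun r i j n => q n r i j) (fun r i j n => y n r i j) N' hUtop
    ?_ ?_ ?_ ?_
  · intro r i
    refine Eventually.of_forall fun n => ⟨?_, ?_⟩
    · push_cast
      exact mul_le_mul_of_nonneg_right (Nat.le_ceil Λ₀) (Nat.cast_nonneg n)
    · exact Nat.mul_le_mul_right n (by rw [hN']; omega)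
  · intro r i j
    filter_upwards [hUgood, hU1] with n hn h1
    have h2 := hq n hn r i j
    refine ⟨h2.1, ?_⟩
    have h3 : (q n r i j : ℝ) ≤ B * n + 1 := by exact_mod_cast h2.2
    have h4 : (1 : ℝ) ≤ n := by exact_mod_cast h1
    have h5 : 0 ≤ (B : ℝ) * lg := by positivity
    nlinarith [mul_nonneg h5 (by linarith : (0 : ℝ) ≤ (n : ℝ))]
  · intro r i j
    have hbig : ∀ᶠ n : ℕ in (U : Filter ℕ), |((⌊x r i⌋ : ℤ) : ℝ)| + 1 ≤ Real.exp (n : ℝ) := by
      have : Tendsto (fun n : ℕ => Real.exp (n : ℝ)) atTop atTop :=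
        Real.tendsto_exp_atTop.comp tendsto_natCast_atTop_atTop
      exact hUtop (this.eventually_ge_atTop _)
    filter_upwards [hUgood, hU1, hbig] with n hn h1 h2
    have h3 := hy n hn r i j
    have h4 : |((y n r i j : ℤ) : ℝ)| ≤ ((bs r i : ℕ) : ℝ) ^ (B * n) + |((⌊x r i⌋ : ℤ) : ℝ)| := by
      exact_mod_cast h3
    have hbpos : (0 : ℝ) < (bs r i : ℝ) := by
      have := hbs r i
      exact_mod_cast (by omega : 0 < bs r i)
    have h5 : ((bs r i : ℕ) : ℝ) ^ (B * n) = Real.exp (B * n * Real.log (bs r i)) := by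
      rw [← Real.exp_log hbpos, ← Real.exp_nat_mul, Real.log_exp]
      push_cast
      rfl
    have hn0 : (0 : ℝ) ≤ n := Nat.cast_nonneg n
    have h6 : (B : ℝ) * n * Real.log (bs r i) ≤ B * lg * n := by
      have : (B : ℝ) * n * Real.log (bs r i) ≤ B * n * lg :=
        mul_le_mul_of_nonneg_left (hlgle r i) (by positivity)
      linarith
    have h7 : Real.exp (B * n * Real.log (bs r i)) ≤ Real.exp (B * lg * n) :=
      Real.exp_le_exp.2 h6
    have h8 : (1 : ℝ) ≤ Real.exp (B * lg * n) := Real.one_le_exp (by positivity)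
    have h9 : Real.exp (B' * n) = Real.exp (B * lg * n) * Real.exp (n : ℝ) *
        Real.exp ((B + 1) * n) := by
      rw [← Real.exp_add, ← Real.exp_add, hB']
      congr 1
      ring
    have h10 : (1 : ℝ) ≤ Real.exp ((B + 1) * n) := Real.one_le_exp (by positivity)
    have h11 : (1 : ℝ) ≤ Real.exp (n : ℝ) := Real.one_le_exp hn0
    have h12 : Real.exp (B * lg * n) + |((⌊x r i⌋ : ℤ) : ℝ)| ≤
        Real.exp (B * lg * n) * Real.exp (n : ℝ) := by
      have h13 : |((⌊x r i⌋ : ℤ) : ℝ)| ≤ Real.exp (n : ℝ) - 1 := by linarith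
      have h14 : 0 ≤ Real.exp (n : ℝ) - 1 := by linarith
      nlinarith
    calc |((y n r i j : ℤ) : ℝ)| ≤ Real.exp (B * lg * n) + |((⌊x r i⌋ : ℤ) : ℝ)| := by
          rw [h5] at h4; linarith
      _ ≤ Real.exp (B * lg * n) * Real.exp (n : ℝ) := h12
      _ ≤ Real.exp (B * lg * n) * Real.exp (n : ℝ) * Real.exp ((B + 1) * n) :=
          le_mul_of_one_le_right (by positivity) h10
      _ = Real.exp (B' * n) := h9.symm
  · intro r i
    filter_upwards [hUgood, hU1] with n hn h1
    refine ⟨F n r i, fun j => ?_, hE n hn r i⟩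
    refine hmono _ _ _ _ _ _ ?_ ?_ (hF n hn r i j)
    · rw [hN']; omega
    · have h3 : s * (B * n) + Λ * n + 1 ≤ (s * B + Λ + 1) * n := by
        have : s * (B * n) + Λ * n + 1 ≤ s * (B * n) + Λ * n + n := by omega
        calc s * (B * n) + Λ * n + 1 ≤ s * (B * n) + Λ * n + n := this
          _ = (s * B + Λ + 1) * n := by ring
      calc s * (B * n) + Λ * n + 1 ≤ (s * B + Λ + 1) * n := h3
        _ ≤ N' * n := Nat.mul_le_mul_right n (by rw [hN']; omega)

end Pool.Agent.SBT
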