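import Pool.Agent.SBT.StmtsK

/-!
# Squad SBT, section Z: Lempel-Ziv complexity with errors and algebraic numbers (MP_175f55_nt).
Recipes: /team-store/MP_175f55_SBT_Z.md
-/

set_option autoImplicit false

namespace Pool.Agent.SBT

open Filter

/-! ## Definitions -/

/-- the first `N` letters of `u` are a product of `k` phrases with cutting points `p`, each of
which is one letter or has an earlier occurrence (overlaps allowed) -/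
def Phr (u : ℕ → ℤ) (N k : ℕ) (p : ℕ → ℕ) : Prop :=
  p 0 = 0 ∧ p k = N ∧ ∀ j < k, p j < p (j + 1) ∧
    (p (j + 1) = p j + 1 ∨ ∃ s < p j, ∀ i, p j + i < p (j + 1) → u (s + i) = u (p j + i))

/-- there is a word of `N` digits with a factorisation into `k` phrases which differs from the
first `N` digits of `x` in base `b` at `e` places, and `k + e ≤ K` -/
def LZE (b : ℕ) (x : ℝ) (N : ℕ) (K : ℝ) : Prop :=
  ∃ (u : ℕ → ℤ) (k : ℕ) (p : ℕ → ℕ), (∀ i, 0 ≤ u i ∧ u i < b) ∧ Phr u N k p ∧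
    (k : ℝ) + ((Finset.range N).filter fun i => dig b x (i + 1) ≠ u i).card ≤ K

/-! ## Modules -/

/-- ZSC: a window with few cutting points. Uses nothing. -/
def Stmt_ZSC : Prop :=
  ∀ (Λ : ℕ) (C : ℝ), 2 ≤ Λ → 0 ≤ C → ∀ᶠ N : ℕ in atTop, ∀ P : Finset ℕ,
    (P.card : ℝ) ≤ C * (1 + Real.log N) →
    ∃ n : ℕ, N ≤ Λ ^ 2 * n ^ 2 ∧ Λ * n ≤ N ∧
      ((P.filter fun p => n ≤ p ∧ p < Λ * n).card : ℝ) ≤ 4 * C * (1 + Real.log Λ)

/-- ZST: the values of the initial parts of a word with few cutting points. Uses RPA. -/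
def Stmt_ZST : Prop :=
  ∀ b M : ℕ, 2 ≤ b → ∃ R : ℕ, ∀ (N k n L : ℕ) (u : ℕ → ℤ) (p : ℕ → ℕ) (P : ℕ → ℤ),
    (∀ i, 0 ≤ u i ∧ u i < b) → (∀ i, P (i + 1) = b * P i + u i) → Phr u N k p → n ≤ L →
    L ≤ N → ((Finset.range k).filter fun j => n < p j ∧ p j < L).card ≤ M →
    ∃ (q : Fin (M + 1) → ℕ) (x : Fin (2 * M + 3) → ℕ) (F : Fin (2 * M + 3) → ℤ) (F₀ : ℤ),
      (∀ i, 1 ≤ q i ∧ q i ≤ L + 1) ∧ (∀ i, x i ≤ n) ∧ (∀ i, Rep b R (R * (L + 1)) (F i)) ∧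
      Rep b R (R * (L + 1)) F₀ ∧
      (∏ i, ((b : ℤ) ^ q i - 1)) * P L = ∑ i, F i * P (x i) + F₀

/-- ZAP: a number with few phrases and few errors in a window is described. Uses ZST, DGT, RPA,
KUS. -/
def Stmt_ZAP : Prop :=
  ∀ (b M Λ : ℕ) (y : ℝ) (U : Ultrafilter ℕ) (n N : ℕ → ℕ), 2 ≤ b → 1 ≤ Λ →
    Tendsto n (U : Filter ℕ) atTop →
    (∀ᶠ t in (U : Filter ℕ), Λ * n t ≤ N t ∧ ∃ (u : ℕ → ℤ) (k : ℕ) (p : ℕ → ℕ),
      (∀ i, 0 ≤ u i ∧ u i < b) ∧ Phr u (N t) k p ∧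
      ((Finset.range k).filter fun j => n t ≤ p j ∧ p j < Λ * n t).card ≤ M ∧
      ((Finset.range (Λ * n t)).filter fun i => n t ≤ i ∧ dig b y (i + 1) ≠ u i).card ≤ M) →
    Apr U (fun t => (n t : ℝ)) (2 * M + 5) (Real.log b + 1) (Λ / 2) y

/-- ZPO: polynomials in described numbers, with the number of integers. Uses KAP. -/
def Stmt_ZPO : Prop :=
  ∀ (k : ℕ) (P : MvPolynomial (Fin k) ℚ), ∃ d : ℕ, ∀ (U : Ultrafilter ℕ) (T : ℕ → ℝ) (s : ℕ)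
    (B Λ : ℝ) (x : Fin k → ℝ), Tendsto T (U : Filter ℕ) atTop → 1 ≤ s → 0 ≤ B →
    d * (B + 1) ≤ Λ → (∀ i, Apr U T s B Λ (x i)) →
    Apr U T (d * s ^ d) (d * (B + 1)) Λ (MvPolynomial.aeval x P)

/-- KCX: the core theorem with an explicit constant. Uses UNI, KS2T, KUS, KEL, KPO. -/
def Stmt_KCX : Prop :=
  ∀ (K : IntermediateField ℚ ℝ) [FiniteDimensional ℚ K] (m s : ℕ) (x : Fin m → ℝ)
    (β : Fin m → K) (lam : K →ₗ[ℚ] ℚ) (B : ℝ), 0 ≤ B → ∑ i, (β i : ℝ) * x i = 0 →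
    ∀ (U : Ultrafilter ℕ) (T : ℕ → ℝ) (Λ : ℝ), Tendsto T (U : Filter ℕ) atTop →
      (m * s + 2) * B + B + 3 ≤ Λ → (∀ i, Apr U T s B Λ (x i)) →
      ∑ i, ((lam (β i) : ℚ) : ℝ) * x i = 0

/-- ZFA: linear disjointness of the field generated by the numbers whose first `N` digits
(`N ∈ I`), after `O(log N)` errors, are products of `O(log N)` phrases. Uses KCX, ZPO, ZAP,
ZSC, KAP. -/
def Stmt_ZFA : Prop :=
  ∀ (I : Set ℕ), I.Infinite → ∀ (m : ℕ) (x β : Fin m → ℝ),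
    (∀ i, x i ∈ IntermediateField.adjoin ℚ
      {y : ℝ | ∃ (b : ℕ) (C : ℝ), 2 ≤ b ∧ ∀ N ∈ I, LZE b y N (C * (1 + Real.log N))}) →
    (∀ i, IsAlgebraic ℚ (β i)) → LinearIndependent ℚ x → ∑ i, β i * x i = 0 → ∀ i, β i = 0

/-- ZTD: at least two digits of an irrational algebraic number have complicated indicator
sequences. Uses ZFA. -/
def Stmt_ZTD : Prop :=
  ∀ (α : ℝ) (b : ℕ) (K : ℝ), IsAlgebraic ℚ α → (∀ q : ℚ, α ≠ q) → 2 ≤ b →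
    ∀ᶠ N : ℕ in atTop, ∃ j j' : ℕ, j < j' ∧ j' < b ∧ ∀ i : ℕ, i = j ∨ i = j' →
      ∀ (u : ℕ → ℤ) (k : ℕ) (p : ℕ → ℕ), (∀ t, u t = 0 ∨ u t = 1) → Phr u N k p →
        K * Real.log N < k + ((Finset.range N).filter fun t =>
          (if dig b α (t + 1) = i then (1 : ℤ) else 0) ≠ u t).card

/-- ZLC: words of linear complexity are products of `O(log N)` phrases. Uses nothing. -/
def Stmt_ZLC : Prop :=
  ∀ (u : ℕ → ℤ) (C : ℕ),
    (∀ n, {w : Fin n → ℤ | ∃ i : ℕ, ∀ j : Fin n, w j = u (i + j)}.Finite ∧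
      Set.ncard {w : Fin n → ℤ | ∃ i : ℕ, ∀ j : Fin n, w j = u (i + j)} ≤ C * (n + 1)) →
    ∃ C' : ℝ, ∀ N : ℕ, ∃ (k : ℕ) (p : ℕ → ℕ), Phr u N k p ∧ (k : ℝ) ≤ C' * (1 + Real.log N)

end Pool.Agent.SBT
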