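import Pool.Agent.SBT.StmtsM
import Pool.Agent.SBT.StmtsZ

/-!
# Squad SBT, section N: the field theorem for Lempel-Ziv complexity with errors (MP_57632f_nt)
# Recipes: /team-store/MP_57632f_SBT_N.md
-/

set_option autoImplicit false

namespace Pool.Agent.SBT

open Filter

/-! ## Definitions -/

/-- `x` is up to `exp ((B - Λ) T)` a quotient `R / A`, `A` a positive integer in the group `W`;
some multiple of `R` by a nonzero sum of small elements of `W` is a linear combination of `s`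
integers of size `exp (B T)` with sums of elements of `W` as coefficients -/
def Apw (U : Ultrafilter ℕ) (S : Finset ℕ) (T : ℕ → ℝ) (W : Set ℚ) (s : ℕ) (B Λ : ℝ)
    (x : ℝ) : Prop :=
  ∃ (A : ℕ → ℕ) (R : ℕ → ℤ) (f₀ : ℕ → ℚ) (f : Fin s → ℕ → ℚ) (y : Fin s → ℕ → ℤ),
    (fun n => (A n : ℚ)) ∈ Un U S T ∩ Wv W ∧ Lc U (Sm U S T B ∩ Wv W) f₀ ∧
    (∀ j, Lc U (Un U S T ∩ Wv W) (f j)) ∧ (∀ᶠ n in (U : Filter ℕ), f₀ n ≠ 0) ∧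
    (∀ᶠ n in (U : Filter ℕ), ∀ j, |(y j n : ℝ)| ≤ Real.exp (B * T n)) ∧
    (∀ᶠ n in (U : Filter ℕ), f₀ n * (R n : ℚ) = ∑ j, f j n * (y j n : ℚ)) ∧
    ∀ᶠ n in (U : Filter ℕ), |x - R n / A n| ≤ Real.exp ((B - Λ) * T n)

/-- the primes which divide one of the bases -/
def Prb {k : ℕ} (bs : Fin 2 → Fin k → ℕ) : Finset ℕ :=
  Finset.univ.biUnion fun r => Finset.univ.biUnion fun i => (bs r i).primeFactors

/-! ## Modules -/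

/-- MCX: the core of the field theorem with an explicit constant. Uses UNI, S2T, MHT, MSM, MLA,
MCF, MSP, MBG, MSD, MPR. -/
def Stmt_MCX : Prop :=
  ∀ (S : Finset ℕ) (W : Fin 2 → Set ℚ) (ξ : ℝ) (μ : ℕ) (ρ : Fin 2 → Fin 2 → ℝ), PS S →
    (∀ r, IsGrp (W r)) → (∀ r, ∀ x ∈ W r, IsU S x) → Sep S (W 0) (W 1) → Meas ξ μ →
    (∀ r, ρ r 1 ≠ 0) → (∀ r, ρ r 0 = ξ * ρ r 1) → ∃ E : ℕ, ∀ (s : ℕ) (B Λ : ℝ), 0 ≤ B →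
      E * ((s : ℝ) + 1) ^ E * (B + 1) ≤ Λ →
      ∀ (U : Ultrafilter ℕ) (T : ℕ → ℝ) (y : Fin 2 → Fin s → ℕ → ℤ)
        (R : Fin 2 → Fin 2 → ℕ → ℤ) (A : Fin 2 → ℕ → ℝ) (f₀ : Fin 2 → ℕ → ℚ)
        (f : Fin 2 → Fin 2 → Fin s → ℕ → ℚ), Tendsto T (U : Filter ℕ) atTop →
        (∀ r, ∀ᶠ n in (U : Filter ℕ), ∀ j, |(y r j n : ℝ)| ≤ Real.exp (B * T n)) →
        (∀ r, ∀ᶠ n in (U : Filter ℕ), 0 < A r n) →
        (∀ r, Lc U (Sm U S T B ∩ Wv (W r)) (f₀ r)) →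
        (∀ r c j, Lc U (Un U S T ∩ Wv (W r)) (f r c j)) →
        (∀ r, ∀ᶠ n in (U : Filter ℕ), f₀ r n ≠ 0) →
        (∀ r c, ∀ᶠ n in (U : Filter ℕ),
          f₀ r n * (R r c n : ℚ) = ∑ j, f r c j n * (y r j n : ℚ)) →
        (∀ r c, ∀ᶠ n in (U : Filter ℕ),
          |ρ r c - R r c n / A r n| ≤ Real.exp (-(Λ * T n))) → False

/-- NCA: calculus of `Apw`. Uses LCC. -/
def Stmt_NCA : Prop :=
  ∀ (U : Ultrafilter ℕ) (S : Finset ℕ) (T : ℕ → ℝ) (W : Set ℚ), PS S → IsGrp W →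
    (∀ w ∈ W, IsU S w) → Tendsto T (U : Filter ℕ) atTop →
    (∀ (s s' : ℕ) (B B' Λ Λ' : ℝ) (x : ℝ), s ≤ s' → B ≤ B' → Λ' ≤ Λ → Apw U S T W s B Λ x →
      Apw U S T W s' B' Λ' x) ∧
    (∀ (B Λ : ℝ) (c : ℤ), 0 ≤ B → Apw U S T W 1 B Λ (c : ℝ)) ∧
    (∀ (s s' : ℕ) (B B' Λ : ℝ) (x x' : ℝ), 0 ≤ B → 0 ≤ B' → Apw U S T W s B Λ x →
      Apw U S T W s' B' Λ x' → Apw U S T W (s + s') (B + B' + 1) Λ (x + x')) ∧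
    (∀ (s s' : ℕ) (B B' Λ : ℝ) (x x' : ℝ), 0 ≤ B → 0 ≤ B' → B ≤ Λ → B' ≤ Λ →
      Apw U S T W s B Λ x → Apw U S T W s' B' Λ x' →
      Apw U S T W (s * s') (B + B' + 1) Λ (x * x')) ∧
    -- two numbers with common denominators and integers
    ∀ (s : ℕ) (B Λ : ℝ) (x : Fin 2 → ℝ), 0 ≤ B → (∀ c, Apw U S T W s B Λ (x c)) →
      ∃ (A : ℕ → ℕ) (R : Fin 2 → ℕ → ℤ) (f₀ : ℕ → ℚ) (f : Fin 2 → Fin (2 * s) → ℕ → ℚ)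
        (y : Fin (2 * s) → ℕ → ℤ), (∀ n, 0 < A n) ∧
        Lc U (Sm U S T (2 * B) ∩ Wv W) f₀ ∧ (∀ c j, Lc U (Un U S T ∩ Wv W) (f c j)) ∧
        (∀ᶠ n in (U : Filter ℕ), f₀ n ≠ 0) ∧
        (∀ᶠ n in (U : Filter ℕ), ∀ j, |(y j n : ℝ)| ≤ Real.exp (B * T n)) ∧
        (∀ c, ∀ᶠ n in (U : Filter ℕ), f₀ n * (R c n : ℚ) = ∑ j, f c j n * (y j n : ℚ)) ∧
        ∀ c, ∀ᶠ n in (U : Filter ℕ), |x c - R c n / A n| ≤ Real.exp ((B - Λ) * T n)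

/-- NPO: polynomials in described numbers. Uses NCA. -/
def Stmt_NPO : Prop :=
  ∀ (k : ℕ) (P : MvPolynomial (Fin k) ℤ), ∃ d : ℕ, ∀ (U : Ultrafilter ℕ) (S : Finset ℕ)
    (T : ℕ → ℝ) (W : Set ℚ) (s : ℕ) (B Λ : ℝ) (x : Fin k → ℝ), PS S → IsGrp W →
    (∀ w ∈ W, IsU S w) → Tendsto T (U : Filter ℕ) atTop → 1 ≤ s → 0 ≤ B →
    d * (B + 1) ≤ Λ → (∀ i, Apw U S T W s B Λ (x i)) →
    Apw U S T W (d * s ^ d) (d * (B + 1)) Λ (MvPolynomial.aeval x P)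

/-- NFC: the field theorem for described numbers. Uses MCX, NCA, NPO, SEP. -/
def Stmt_NFC : Prop :=
  ∀ (k : ℕ) (bs : Fin 2 → Fin k → ℕ) (ξ : ℝ) (μ : ℕ) (x : Fin 2 → Fin k → ℝ)
    (P : Fin 2 → Fin 2 → MvPolynomial (Fin k) ℤ), (∀ r i, 2 ≤ bs r i) →
    IndG (bs 0) (bs 1) → Meas ξ μ → (∀ r, MvPolynomial.aeval (x r) (P r 1) ≠ 0) →
    (∀ r, MvPolynomial.aeval (x r) (P r 0) = ξ * MvPolynomial.aeval (x r) (P r 1)) →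
    ∃ E : ℕ, ∀ (s : ℕ) (B Λ : ℝ), 0 ≤ B → E * ((s : ℝ) + 1) ^ E * (B + 1) ≤ Λ →
      ∀ (U : Ultrafilter ℕ) (T : ℕ → ℝ), Tendsto T (U : Filter ℕ) atTop →
        (∀ r i, Apw U (Prb bs) T (Grp (bs r) {Finset.univ}) s B Λ (x r i)) → False

/-- NST: the values of the initial parts of a word with few cutting points; the periods are
short. Uses RPA. -/
def Stmt_NST : Prop :=
  ∀ b M Λ : ℕ, 2 ≤ b → ∃ R : ℕ, ∀ (N k n L : ℕ) (u : ℕ → ℤ) (p : ℕ → ℕ) (P : ℕ → ℤ),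
    (∀ i, 0 ≤ u i ∧ u i < b) → (∀ i, P (i + 1) = b * P i + u i) → Phr u N k p → 1 ≤ n →
    n ≤ L → L ≤ Λ * n → L ≤ N →
    ((Finset.range k).filter fun j => n < p j ∧ p j < L).card ≤ M →
    ∃ (q : Fin (M + 1) → ℕ) (x : Fin (2 * M + 3) → ℕ) (F : Fin (2 * M + 3) → ℤ) (F₀ : ℤ),
      (∀ i, 1 ≤ q i ∧ q i ≤ n) ∧ (∀ i, x i ≤ n) ∧ (∀ i, Rep b R (R * n) (F i)) ∧
      Rep b R (R * n) F₀ ∧ (∏ i, ((b : ℤ) ^ q i - 1)) * P L = ∑ i, F i * P (x i) + F₀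

/-- NAP: a number with few phrases and few errors in a window is described. Uses NST, DGT, RPA,
LCC. -/
def Stmt_NAP : Prop :=
  ∀ (S : Finset ℕ) (W : Set ℚ) (b M Λ : ℕ) (x : ℝ) (U : Ultrafilter ℕ) (n N : ℕ → ℕ), PS S →
    IsGrp W → (∀ w ∈ W, IsU S w) → (b : ℚ) ∈ W → 2 ≤ b → 1 ≤ Λ →
    Tendsto n (U : Filter ℕ) atTop →
    (∀ᶠ t in (U : Filter ℕ), Λ * n t ≤ N t ∧ ∃ (u : ℕ → ℤ) (k : ℕ) (p : ℕ → ℕ),
      (∀ i, 0 ≤ u i ∧ u i < b) ∧ Phr u (N t) k p ∧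
      ((Finset.range k).filter fun j => n t ≤ p j ∧ p j < Λ * n t).card ≤ M ∧
      ((Finset.range (Λ * n t)).filter fun i => n t ≤ i ∧ dig b x (i + 1) ≠ u i).card ≤ M) →
    Apw U S (fun t => (n t : ℝ)) W (2 * M + 5) ((M + 2) * Real.log b) (Λ / 2) x

/-- NFF: the field theorem for Lempel-Ziv complexity with errors. Uses NFC, NAP, ZSC. -/
def Stmt_NFF : Prop :=
  ∀ (k l : ℕ) (a : Fin k → ℕ) (b : Fin l → ℕ) (x : Fin k → ℝ) (y : Fin l → ℝ) (ξ : ℝ) (μ : ℕ),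
    (∀ i, 2 ≤ a i) → (∀ j, 2 ≤ b j) → IndG a b → Meas ξ μ →
    ξ ∈ IntermediateField.adjoin ℚ (Set.range x) →
    ξ ∈ IntermediateField.adjoin ℚ (Set.range y) →
    ∀ K : ℝ, ∀ᶠ N : ℕ in atTop, ∀ (c : Fin k → ℝ) (c' : Fin l → ℝ),
      (∀ i, LZE (a i) (x i) N (c i)) → (∀ j, LZE (b j) (y j) N (c' j)) →
      K * Real.log N ≤ ∑ i, c i + ∑ j, c' j

end Pool.Agent.SBT
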